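import Pool.Agent.Helper58.LD.Comb
import Pool.Agent.Helper58.LDD.Tab

set_option autoImplicit false

namespace Pool.Agent.Helper58.LDD.R01

open Pool.Agent.Helper58.LD Pool.Agent.Helper58.LDD

set_option maxRecDepth 100000

def c0 : Tree :=
  (.a 180 (.z 180 (.y 540 (.a 90 (.lf (.low 0)) (.z 90 (.lf (.low 1)) (.y 450 (.a 135 
(.lf (.low 0)) (.z 135 (.lf (.low 1)) (.y 405 (.lf (.dir (.lf 0 100 22 80))) (.a 157 (.z 157 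
(.y 427 (.lf (.dir (.lf 0 131 20 111))) (.lf (.tipa 1 1 11))) 
(.lf (.two (.lm 0 0 0 0 2 4 23) (.lf 0 121 19 104)))) (.lf (.dir (.lf 0 121 19 104))))))) 
(.lf (.tipa 5 5 45))))) (.a 90 (.lf .inf) (.lf (.tipa 5 13 45)))) (.y 540 (.a 90 (.lf (.low 0)) 
(.z 270 (.y 450 (.a 135 (.lf (.low 0)) (.z 225 (.y 405 (.lf (.dir (.lf 0 100 22 80))) (.a 157 
(.lf (.two (.lm 0 19 6 4 2 12 34) (.lf 6 96 19 84))) (.lf (.dir (.lf 0 121 19 104))))) 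
(.lf (.two (.lm 0 33 13 12 5 21 45) (.lf 13 50 21 40))))) (.a 135 (.lf (.low 0)) (.z 225 
(.y 495 (.a 157 (.z 202 (.lf (.two (.lm 0 17 4 6 2 7 22) (.lf 4 127 13 118))) 
(.lf (.two (.lm 0 28 7 17 2 12 23) (.lf 7 115 13 110)))) (.z 202 (.y 472 (.a 168 
(.lf (.two (.lm 0 12 4 0 3 7 17) (.lf 4 127 14 116))) (.z 191 (.y 461 
(.lf (.dir (.lf 1 130 15 116))) (.lf (.tipa 3 4 12))) 
(.lf (.two (.lm 1 11 5 0 4 7 12) (.lf 5 126 14 116))))) (.lf (.tipa 3 6 23))) 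
(.lf (.two (.lm 0 22 7 0 4 12 23) (.lf 7 115 13 110))))) (.lf (.tipa 4 11 45))) (.y 495 
(.a 157 (.lf (.two (.lm 0 42 13 26 2 21 34) (.lf 13 90 13 90))) 
(.lf (.two (.lm 0 33 13 12 4 21 34) (.lf 13 90 13 90)))) (.a 157 (.z 247 
(.lf (.two (.lm 0 40 11 28 2 17 22) (.lf 11 120 6 125))) 
(.lf (.two (.lm 0 52 14 38 2 21 23) (.lf 14 108 6 117)))) (.z 247 
(.lf (.two (.lm 0 31 11 14 4 17 23) (.lf 11 120 6 125))) 
(.lf (.two (.lm 0 42 14 25 4 21 23) (.lf 14 108 6 117))))))))) (.y 450 (.a 135 (.lf (.low 0)) 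
(.z 315 (.y 405 (.lf (.dir (.lf 0 100 22 80))) 
(.lf (.two (.lm 0 55 19 35 5 28 45) (.lm 19 45 19 45 28 28 45)))) (.y 405 
(.lf (.dir (.lf 0 100 22 80))) (.lf (.two (.lm 0 78 22 57 5 30 45) (.lm 22 19 19 26 30 28 45)))))) 
(.a 135 (.lf (.low 0)) (.z 315 (.y 495 (.a 157 
(.lf (.two (.lm 0 65 19 48 2 28 34) (.lf 19 65 13 70))) 
(.lf (.two (.lm 0 55 19 35 4 28 34) (.lf 19 65 13 70)))) (.a 157 (.z 292 
(.lf (.two (.lm 0 65 17 48 2 25 22) (.lf 17 96 6 107))) (.y 517 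
(.lf (.two (.lm 0 77 20 58 2 28 23) (.lf 20 84 7 96))) (.z 303 
(.lf (.two (.lm 0 76 19 59 2 26 17) (.lf 19 100 4 114))) 
(.lf (.two (.lm 0 82 20 64 2 27 17) (.lf 20 93 4 109)))))) (.z 292 
(.lf (.two (.lm 0 54 17 36 4 25 23) (.lf 17 96 6 107))) 
(.lf (.two (.lm 0 65 20 47 4 28 23) (.lf 20 84 6 96)))))) (.y 495 (.a 157 (.z 337 
(.lf (.two (.lm 0 89 21 69 2 29 22) (.lm 21 52 13 61 29 21 34))) 
(.lf (.two (.lm 0 100 22 80 2 30 23) (.lm 22 39 13 51 30 21 34)))) 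
(.lf (.two (.lm 0 78 22 57 4 30 34) (.lm 22 39 13 51 30 21 45)))) (.a 157 (.z 337 (.y 517 
(.lf (.two (.lm 0 89 21 69 2 29 22) (.lm 21 73 7 85 29 12 22))) (.y 528 
(.lf (.two (.lm 0 89 21 69 2 29 22) (.lm 21 82 5 98 29 7 17))) (.lf .inf))) (.y 517 
(.lf (.two (.lm 0 100 22 80 2 30 23) (.lm 22 60 7 75 30 12 23))) (.z 348 (.y 528 
(.lf (.two (.lm 0 100 22 80 2 30 17) (.lm 22 77 5 92 30 7 11))) (.lf .inf)) (.y 528 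
(.lf (.two (.lm 0 106 22 85 2 30 17) (.lm 22 70 5 87 30 7 12))) (.lf .inf))))) (.z 337 
(.lf (.two (.lm 0 77 21 58 4 29 23) (.lf 21 72 6 86))) (.y 517 
(.lf (.two (.lm 0 89 22 68 4 30 23) (.lm 22 60 7 75 30 12 23))) 
(.lf (.two (.lm 0 89 22 68 4 30 23) (.lm 22 70 4 87 30 7 23)))))))))))) (.a 90 (.lf .inf) 
(.z 270 (.y 630 (.a 135 (.lf .inf) (.z 225 (.lf (.tipa 4 11 45)) (.y 585 (.a 157 (.lf .inf) 
(.z 247 (.lf (.tipa 3 16 45)) (.y 562 (.a 168 (.lf .inf) 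
(.lf (.two (.lm 1 42 14 25 4 21 18) (.lf 14 116 0 130)))) (.lf .inf)))) (.lf .inf)))) 
(.lf .inf)) (.y 630 (.a 135 (.lf .inf) (.z 315 (.y 585 (.a 157 (.lf .inf) (.z 292 (.y 562 
(.lf (.two (.lm 0 54 17 36 4 25 23) (.lf 17 113 0 130))) (.lf .inf)) (.y 562 (.a 168 (.lf .inf) 
(.lf (.two (.lm 1 65 20 47 4 28 18) (.lf 20 103 0 122)))) (.lf .inf)))) (.lf .inf)) (.y 585 
(.a 157 (.lf .inf) (.z 337 (.y 562 (.a 168 (.lf .inf) 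
(.lf (.two (.lm 1 77 21 58 4 29 17) (.lf 21 92 0 111)))) (.lf .inf)) (.y 562 (.a 168 (.lf .inf) 
(.lf (.two (.lm 1 88 22 69 4 30 18) (.lm 22 80 0 100 30 4 23)))) (.lf .inf)))) (.lf .inf)))) 
(.lf .inf)))))) (.z 180 (.y 540 (.a 270 (.z 90 (.lf .inf) (.y 450 
(.lf (.two (.lf 9 0 0 0) (.lf 0 99 21 81))) (.lf (.two (.lf 9 0 0 0) (.pot 0))))) (.lf .inf)) 
(.lf (.two (.lf 16 0 0 0) (.pot 0)))) (.y 540 (.a 270 (.z 270 (.y 450 (.a 225 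
(.lf (.dir (.lf 6 75 21 60))) (.lf .inf)) (.a 225 (.z 225 (.y 495 (.a 202 (.z 202 (.y 472 
(.a 191 (.z 191 (.y 461 (.lf (.dir (.lf 3 128 15 116))) (.lf (.tipa 4 4 6))) 
(.lf (.two (.lm 3 0 5 0 5 7 11) (.lf 5 126 14 116)))) (.lf (.dir (.lf 5 126 14 116)))) 
(.lf (.tipa 6 6 11))) (.y 472 (.lf (.two (.lm 4 0 7 0 7 12 23) (.lf 7 116 14 109))) (.z 213 
(.y 483 (.lf (.two (.lm 4 0 6 0 7 9 17) (.lf 6 124 12 119))) (.lf (.tipa 6 8 17))) 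
(.lf (.two (.lm 4 11 8 0 7 12 17) (.lf 8 122 11 120)))))) (.z 202 (.y 472 
(.lf (.dir (.lf 7 116 14 109))) (.lf (.two (.lf 7 0 4 0) (.pot 0)))) (.y 472 
(.lf (.dir (.lf 7 116 14 109))) (.a 213 (.z 213 (.y 483 (.lf (.dir (.lf 6 124 12 119))) 
(.lf (.tipa 8 8 6))) (.y 483 (.lf (.dir (.lf 6 124 12 119))) 
(.lf (.two (.lm 6 0 8 0 9 12 12) (.lf 8 122 10 120))))) (.z 213 (.y 483 
(.lf (.dir (.lf 8 122 12 119))) (.lf (.dir (.lf 8 122 10 120)))) (.y 483 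
(.lf (.dir (.lf 8 122 12 119))) (.lf (.dir (.lf 8 122 10 120))))))))) (.lf (.tipa 11 11 23))) 
(.y 495 (.a 202 (.lf (.two (.lm 4 23 13 0 7 21 34) (.lf 13 90 13 90))) (.z 247 
(.lf (.two (.lm 7 0 11 0 12 17 23) (.lf 11 102 13 101))) 
(.lf (.two (.lm 7 22 14 0 12 21 23) (.lf 14 89 13 91))))) (.a 202 (.z 247 (.y 517 
(.lf (.two (.lm 4 23 11 0 7 17 22) (.lf 11 120 7 123))) (.lf (.tipa 6 16 34))) 
(.lf (.two (.lm 4 32 14 13 7 21 23) (.lf 14 108 6 117)))) (.z 247 (.y 517 (.a 213 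
(.lf (.two (.lm 6 12 11 0 9 17 17) (.lf 11 120 7 123))) (.z 236 (.y 506 
(.lf (.two (.lm 8 0 10 0 12 14 12) (.lf 10 120 8 122))) (.lf (.tipa 11 13 12))) 
(.lf (.two (.lm 8 11 12 0 12 16 12) (.lf 12 119 7 123))))) (.lf (.tipa 11 16 23))) (.y 517 
(.lf (.two (.lm 7 22 14 0 12 21 23) (.lf 14 109 7 116))) (.a 213 
(.lf (.two (.lm 6 26 14 8 9 21 17) (.lf 14 116 4 127))) 
(.lf (.two (.lm 8 22 14 0 12 21 18) (.lf 14 116 4 127))))))))) (.z 225 (.y 495 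
(.lf (.dir (.lf 13 90 13 90))) (.lf (.two (.lf 13 0 6 0) (.pot 0)))) (.y 495 
(.lf (.dir (.lf 13 90 13 90))) (.a 247 (.z 247 (.y 517 (.a 236 (.z 236 (.y 506 
(.lf (.dir (.lf 10 120 8 122))) (.lf (.tipa 13 13 6))) 
(.lf (.two (.lm 10 0 12 0 14 16 11) (.lf 12 119 7 123)))) (.lf (.dir (.lf 12 119 7 123)))) 
(.lf (.tipa 16 16 11))) (.y 517 (.lf (.two (.lm 11 0 14 0 17 21 23) (.lf 14 109 7 116))) 
(.z 258 (.y 528 (.a 236 (.lf (.two (.lm 10 11 13 0 14 19 11) (.lf 13 117 5 126))) 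
(.lf (.two (.lm 12 0 13 0 16 19 11) (.lf 13 117 5 126)))) (.a 236 (.lf (.tipa 13 18 17)) 
(.t 48 (.lf (.tipa 13 14 11)) (.y 534 (.lf (.two (.lm 13 0 15 0 16 19 11) (.lf 15 116 3 128))) 
(.a 241 (.lf (.tipa 14 18 11)) (.z 252 (.lf (.tipa 15 16 6)) (.lf (.tipa 15 17 9)))))))) 
(.lf (.two (.lm 11 11 15 0 17 21 17) (.lf 15 116 4 127)))))) (.z 247 (.y 517 
(.lf (.dir (.lf 14 109 7 116))) (.lf (.two (.lf 14 0 11 0) (.pot 0)))) (.y 517 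
(.lf (.dir (.lf 14 109 7 116))) (.a 258 (.z 258 (.y 528 (.lf (.dir (.lf 13 117 5 126))) (.t 48 
(.lf (.tipa 14 14 6)) (.lf (.dir (.lf 15 116 2 128))))) 
(.lf (.two (.lm 13 0 15 0 19 21 12) (.lf 15 116 4 127)))) (.lf (.dir (.lf 15 116 4 127))))))))))) 
(.y 450 (.a 225 (.lf (.dir (.lf 6 75 21 60))) (.lf .inf)) (.a 225 (.z 315 (.y 495 (.a 202 
(.lf (.two (.lm 4 44 19 24 7 28 34) (.lf 19 65 13 70))) 
(.lf (.two (.lm 7 33 19 12 12 28 34) (.lf 19 65 13 70)))) (.a 202 (.z 292 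
(.lf (.two (.lm 4 43 17 25 7 25 22) (.lf 17 96 6 107))) 
(.lf (.two (.lm 4 54 20 36 7 28 23) (.lf 20 84 6 96)))) (.z 292 
(.lf (.two (.lm 7 32 17 13 12 25 23) (.lf 17 96 6 107))) 
(.lf (.two (.lm 7 42 20 25 12 28 23) (.lf 20 84 6 96)))))) (.y 495 (.a 202 
(.lf (.two (.lm 4 66 22 47 7 30 34) (.lm 22 39 13 51 30 21 45))) 
(.lf (.two (.lm 7 53 22 37 12 30 34) (.lm 22 39 13 51 30 21 45)))) (.a 202 (.z 337 
(.lf (.two (.lm 4 65 21 48 7 29 22) (.lf 21 72 6 86))) 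
(.lf (.two (.lm 4 76 22 59 7 30 23) (.lm 22 60 6 75 30 12 34)))) 
(.lf (.two (.lm 7 53 22 37 12 30 34) (.lf 22 60 6 75)))))) (.z 315 (.y 495 
(.lf (.dir (.lf 13 90 13 90))) (.a 247 (.z 292 
(.lf (.two (.lm 11 23 17 0 17 25 22) (.lf 17 96 6 107))) 
(.lf (.two (.lm 11 31 20 14 17 28 23) (.lf 20 84 6 96)))) (.z 292 
(.lf (.two (.lm 14 0 17 0 21 25 23) (.lf 17 96 6 107))) 
(.lf (.two (.lm 14 22 20 0 21 28 23) (.lf 20 84 6 96)))))) (.y 495 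
(.lf (.dir (.lf 13 90 13 90))) (.a 247 (.lf (.two (.lm 11 42 22 26 17 30 34) (.lf 22 60 6 75))) 
(.lf (.two (.lm 14 31 22 14 21 30 34) (.lf 22 60 6 75))))))))) (.z 270 (.y 450 (.lf .inf) 
(.a 315 (.z 225 (.lf .inf) (.lf (.two (.lf 19 0 13 0) (.lf 13 88 9 92)))) (.lf .inf))) (.y 450 
(.lf .inf) (.a 315 (.z 315 (.y 495 (.lf .inf) (.lf (.dir (.lf 19 84 6 96)))) (.y 495 (.lf .inf) 
(.lf (.dir (.lf 19 84 6 96))))) (.lf .inf))))) (.a 270 (.z 270 (.y 630 (.a 225 (.z 225 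
(.lf (.tipa 11 11 23)) (.y 585 (.a 202 (.z 247 (.lf (.tipa 6 16 34)) (.y 562 (.z 258 
(.lf (.tipa 6 18 39)) (.lf (.two (.lm 4 36 15 20 7 21 17) (.lf 15 116 0 130)))) (.z 258 
(.lf (.tipa 6 18 39)) (.y 573 (.a 191 (.lf .inf) (.lf (.two (.lm 5 36 15 20 7 21 12) (.pot 0)))) 
(.lf .inf))))) (.z 247 (.lf (.tipa 11 16 23)) (.y 562 (.a 213 (.z 258 (.lf (.tipa 8 18 28)) 
(.lf (.two (.lm 6 31 15 14 9 21 12) (.pot 0)))) (.z 258 (.lf (.tipa 11 18 23)) 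
(.lf (.two (.lm 8 25 15 8 12 21 12) (.lf 15 116 0 130))))) (.a 213 (.z 258 
(.lf (.tipa 8 18 28)) (.lf (.two (.lm 6 31 15 14 9 21 12) (.pot 0)))) (.z 258 
(.lf (.tipa 11 18 23)) (.y 573 (.t 48 (.lf (.tipa 9 16 29)) (.lf (.low 2))) (.t 48 
(.lf (.low 2)) (.lf (.low 2))))))))) (.lf (.low 2)))) (.z 225 
(.lf (.two (.lf 13 0 6 0) (.pot 0))) (.y 585 (.a 247 (.z 247 (.lf (.tipa 16 16 11)) (.y 562 
(.z 258 (.a 236 (.lf (.tipa 13 18 17)) (.y 551 (.t 48 (.lf (.tipa 13 14 11)) (.a 241 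
(.lf (.tipa 14 18 11)) (.z 252 (.lf (.tipa 15 16 6)) (.lf (.tipa 15 17 9))))) (.t 48 
(.lf (.tipa 13 14 11)) (.a 241 (.lf (.tipa 14 18 11)) (.z 252 (.lf (.tipa 15 16 6)) 
(.lf (.tipa 15 17 9))))))) (.a 236 (.y 551 
(.lf (.two (.lm 10 20 15 2 14 21 12) (.lf 15 116 1 129))) (.t 48 (.lf (.tipa 11 16 23)) 
(.lf (.two (.lm 11 22 17 0 14 21 12) (.lf 17 114 0 131))))) (.y 551 
(.lf (.two (.lm 12 11 15 0 16 21 12) (.lf 15 116 1 129))) (.t 48 (.lf (.tipa 13 16 17)) 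
(.z 264 (.a 241 (.lf (.two (.lm 12 17 16 0 15 20 6) (.pot 0))) (.y 556 
(.lf (.two (.lm 13 11 16 0 16 20 6) (.lf 16 114 0 131))) (.lf (.low 2)))) 
(.lf (.two (.lm 13 17 17 0 16 21 9) (.lf 17 113 0 131)))))))) (.z 258 (.y 573 (.a 236 
(.lf (.tipa 13 18 17)) (.t 48 (.lf (.tipa 13 14 11)) (.lf (.low 2)))) (.a 236 
(.lf (.tipa 13 18 17)) (.t 48 (.lf (.low 2)) (.lf (.low 2))))) (.y 573 (.a 236 (.t 48 
(.lf (.tipa 11 16 23)) (.lf (.low 2))) (.t 48 (.lf (.tipa 13 16 17)) (.lf (.low 2)))) (.a 236 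
(.t 48 (.lf (.low 2)) (.lf (.low 2))) (.t 48 (.lf (.low 2)) (.lf (.low 2)))))))) (.z 247 
(.lf (.two (.lf 14 0 11 0) (.pot 0))) (.y 562 (.a 258 (.z 258 (.y 551 (.t 48 
(.lf (.tipa 14 14 6)) (.a 252 (.z 252 (.lf (.tipa 16 16 3)) (.y 545 
(.lf (.two (.lm 14 0 15 0 17 18 6) (.lf 15 115 1 130))) (.t 56 (.lf (.tipa 15 16 6)) (.z 255 
(.lf (.tipa 16 17 4)) (.lf (.two (.lm 15 3 16 0 17 18 4) (.lf 16 114 0 131))))))) (.z 252 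
(.lf (.two (.lf 15 0 14 0) (.pot 0))) (.y 545 (.lf (.dir (.lf 15 115 1 130))) (.t 56 
(.lf (.tipa 16 16 3)) (.a 255 (.z 255 (.y 548 (.lf (.dir (.lf 16 115 0 131))) (.t 60 
(.lf (.tipa 16 16 2)) (.lf (.low 2)))) (.lf (.two (.lm 16 0 16 0 18 18 3) (.lf 16 114 0 131)))) 
(.lf (.dir (.lf 16 114 0 131))))))))) (.t 48 (.lf (.tipa 14 14 6)) (.a 252 (.z 252 
(.lf (.tipa 16 16 3)) (.y 556 (.t 56 (.lf (.tipa 15 16 6)) (.lf (.low 2))) (.lf (.low 2)))) 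
(.z 252 (.lf (.two (.lf 15 0 14 0) (.pot 0))) (.y 556 (.t 56 (.lf (.tipa 16 16 3)) 
(.lf (.low 2))) (.lf (.low 2))))))) (.y 551 
(.lf (.two (.lm 13 0 15 0 19 21 12) (.lf 15 116 1 129))) (.t 48 (.lf (.tipa 14 16 12)) (.z 264 
(.a 252 (.y 556 (.lf (.two (.lm 14 6 16 0 17 20 6) (.lf 16 114 0 131))) (.lf (.low 2))) 
(.y 556 (.lf (.two (.lm 15 0 16 0 18 20 6) (.lf 16 114 0 131))) (.lf (.low 2)))) 
(.lf (.two (.lm 15 6 17 0 19 21 9) (.lf 17 113 0 131))))))) (.z 258 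
(.lf (.two (.lf 15 0 13 0) (.pot 0))) (.y 551 (.lf (.dir (.lf 15 116 1 129))) (.t 48 
(.lf (.tipa 16 16 6)) (.a 264 (.z 264 (.y 556 (.lf (.dir (.lf 16 114 0 131))) (.lf (.low 2))) 
(.lf (.two (.lm 16 0 17 0 20 21 6) (.lf 17 113 0 131)))) (.lf (.dir (.lf 17 113 0 131)))))))) 
(.a 258 (.z 258 (.y 573 (.t 48 (.lf (.tipa 14 14 6)) (.lf (.low 2))) (.t 48 (.lf (.low 2)) 
(.lf (.low 2)))) (.y 573 (.t 48 (.lf (.tipa 14 16 12)) (.lf (.low 2))) (.t 48 (.lf (.low 2)) 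
(.lf (.low 2))))) (.z 258 (.lf (.two (.lf 15 0 13 0) (.pot 0))) (.y 573 (.t 48 
(.lf (.tipa 16 16 6)) (.lf (.low 2))) (.t 48 (.lf (.low 2)) (.lf (.low 2))))))))) 
(.lf (.low 2))))) (.lf (.low 2))) (.y 630 (.a 225 (.z 315 (.y 585 (.a 202 (.z 292 (.y 562 
(.lf (.two (.lm 4 43 17 25 7 25 22) (.lf 17 113 0 130))) (.y 573 (.a 191 (.lf .inf) 
(.lf (.two (.lm 5 42 17 26 7 25 17) (.lf 17 113 0 131)))) (.lf .inf))) (.y 562 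
(.lf (.two (.lm 4 54 20 36 7 28 23) (.lf 20 103 0 122))) (.z 303 (.y 573 
(.lf (.two (.lm 4 53 19 37 7 26 17) (.lf 19 112 0 131))) (.lf .inf)) (.y 573 
(.lf (.two (.lm 4 59 20 42 7 27 17) (.lf 20 111 0 131))) (.lf .inf))))) (.z 292 (.y 562 
(.lf (.two (.lm 7 32 17 13 12 25 23) (.lf 17 113 0 130))) (.a 213 (.y 573 
(.lf (.two (.lm 6 37 17 20 9 25 17) (.lf 17 113 0 131))) (.z 281 (.t 48 (.lf (.low 2)) 
(.lf (.low 2))) (.lf (.two (.lm 6 42 18 26 9 25 11) (.lf 18 113 0 131))))) (.y 573 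
(.lf (.two (.lm 8 31 17 14 12 25 17) (.lf 17 113 0 131))) (.z 281 (.t 48 (.lf (.low 2)) 
(.lf (.low 2))) (.lf (.two (.lm 8 36 18 20 12 25 12) (.lf 18 113 0 131))))))) (.y 562 
(.lf (.two (.lm 7 42 20 25 12 28 23) (.lf 20 103 0 122))) (.a 213 (.z 303 
(.lf (.two (.lm 6 47 19 32 9 26 11) (.lf 19 112 0 131))) 
(.lf (.two (.lm 6 53 20 37 9 27 12) (.lf 20 111 0 131)))) 
(.lf (.two (.lm 8 42 20 25 12 28 18) (.lf 20 111 0 131))))))) (.lf (.low 2))) (.y 585 (.a 202 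
(.z 337 (.y 562 (.lf (.two (.lm 4 65 21 48 7 29 22) (.lf 21 92 0 111))) (.y 573 (.a 191 
(.lf .inf) (.lf (.two (.lm 5 65 21 48 7 29 17) (.lf 21 102 0 123)))) (.lf .inf))) (.y 562 
(.lf (.two (.lm 4 76 22 59 7 30 23) (.lm 22 80 0 100 30 4 23))) (.z 348 (.y 573 
(.lf (.two (.lm 4 76 22 59 7 30 17) (.lf 22 96 0 118))) (.lf .inf)) (.y 573 
(.lf (.two (.lm 4 82 22 64 7 30 17) (.lm 22 90 0 112 30 2 12))) (.lf .inf))))) (.z 337 (.y 562 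
(.lf (.two (.lm 7 53 21 37 12 29 23) (.lf 21 92 0 111))) (.a 213 
(.lf (.two (.lm 6 59 21 43 9 29 17) (.lf 21 102 0 123))) 
(.lf (.two (.lm 8 53 21 37 12 29 17) (.lf 21 102 0 123))))) (.y 562 
(.lf (.two (.lm 7 64 22 48 12 30 23) (.lm 22 80 0 100 30 4 23))) 
(.lf (.two (.lm 7 64 22 48 12 30 23) (.lf 22 91 0 111)))))) (.lf (.low 2)))) (.z 315 (.y 585 
(.a 247 (.z 292 (.y 562 (.a 236 (.lf (.two (.lm 10 26 17 8 14 25 17) (.lf 17 113 0 130))) 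
(.lf (.two (.lm 12 22 17 1 16 25 17) (.lf 17 113 0 130)))) (.y 573 (.a 236 
(.lf (.two (.lm 10 26 17 8 14 25 17) (.lf 17 113 0 131))) (.z 281 
(.lf (.two (.lm 12 20 17 3 16 23 11) (.lf 17 114 0 131))) 
(.lf (.two (.lm 12 25 18 9 16 25 11) (.lf 18 113 0 131))))) (.a 236 (.z 281 (.t 48 
(.lf (.low 2)) (.lf (.low 2))) (.lf (.two (.lm 10 30 18 15 14 25 11) (.lf 18 113 0 131)))) 
(.z 281 (.t 48 (.lf (.low 2)) (.lf (.low 2))) 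
(.lf (.two (.lm 12 25 18 9 16 25 11) (.lf 18 113 0 131))))))) (.y 562 
(.lf (.two (.lm 11 31 20 14 17 28 23) (.lf 20 103 0 122))) (.z 303 (.y 573 
(.lf (.two (.lm 11 31 19 14 17 26 17) (.lf 19 112 0 131))) 
(.lf (.two (.lm 11 31 19 14 17 26 17) (.lf 19 112 0 131)))) 
(.lf (.two (.lm 11 36 20 20 17 27 17) (.lf 20 111 0 131)))))) (.z 292 (.y 562 (.a 258 
(.lf (.two (.lm 13 12 17 0 19 25 17) (.lf 17 113 0 130))) 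
(.lf (.two (.lm 15 0 17 0 21 25 17) (.lf 17 113 0 130)))) (.a 258 (.y 573 (.z 281 (.t 48 
(.lf (.two (.lm 12 12 15 0 15 18 11) (.lf 15 116 0 131))) (.lf (.low 2))) 
(.lf (.two (.lm 13 20 18 3 19 25 11) (.lf 18 113 0 131)))) (.z 281 (.t 48 (.lf (.low 2)) 
(.lf (.low 2))) (.lf (.two (.lm 13 20 18 3 19 25 11) (.lf 18 113 0 131))))) (.y 573 (.z 281 
(.t 48 (.a 264 (.lf (.two (.lm 13 6 15 0 16 18 9) (.lf 15 116 0 131))) 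
(.lf (.two (.lm 14 0 15 0 17 18 9) (.lf 15 116 0 131)))) (.lf (.low 2))) 
(.lf (.two (.lm 15 11 18 0 21 25 12) (.lf 18 113 0 131)))) (.z 281 (.t 48 (.lf (.low 2)) 
(.lf (.low 2))) (.t 48 (.lf (.low 2)) (.lf (.low 2))))))) (.y 562 
(.lf (.two (.lm 14 22 20 0 21 28 23) (.lf 20 103 0 122))) (.a 258 
(.lf (.two (.lm 13 25 20 9 19 28 17) (.lf 20 111 0 131))) 
(.lf (.two (.lm 15 20 20 2 21 28 18) (.lf 20 111 0 131))))))) (.lf (.low 2))) (.y 585 (.a 247 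
(.z 337 (.lf (.two (.lm 11 42 21 26 17 29 22) (.lf 21 91 0 112))) 
(.lf (.two (.lm 11 52 22 38 17 30 23) (.lf 22 80 0 100)))) 
(.lf (.two (.lm 14 31 22 14 21 30 34) (.lf 22 80 0 100)))) (.lf (.low 2))))) (.lf (.low 2)))) 
(.z 270 (.lf (.two (.lf 21 0 9 0) (.pot 0))) (.y 630 (.a 315 (.z 315 (.y 585 (.a 292 (.z 292 
(.y 562 (.lf (.dir (.lf 17 113 0 130))) (.y 573 (.a 281 (.z 281 (.t 48 
(.lf (.dir (.lf 15 116 0 131))) (.lf (.low 2))) 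
(.lf (.two (.lm 17 0 18 0 23 25 11) (.lf 18 113 0 131)))) (.lf (.dir (.lf 18 113 0 131)))) 
(.a 281 (.z 281 (.t 48 (.lf (.low 2)) (.lf (.low 2))) (.t 48 (.lf (.low 2)) (.lf (.low 2)))) 
(.z 281 (.lf (.two (.lf 18 0 17 0) (.pot 0))) (.t 48 (.lf (.low 2)) (.lf (.low 2))))))) 
(.y 562 (.lf (.dir (.lf 17 113 0 130))) (.z 303 
(.lf (.two (.lm 17 0 19 0 25 26 17) (.lf 19 112 0 131))) 
(.lf (.two (.lm 17 11 20 0 25 27 17) (.lf 20 111 0 131)))))) (.lf (.dir (.lf 20 103 0 122)))) 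
(.lf (.low 2))) (.y 585 (.a 292 (.lf (.two (.lm 17 21 22 2 25 30 34) (.lf 22 80 0 100))) 
(.lf (.dir (.lf 20 103 0 122)))) (.lf (.low 2)))) (.z 315 (.y 585 
(.lf (.dir (.lf 22 80 0 100))) (.lf (.low 2))) (.y 585 (.lf (.dir (.lf 22 80 0 100))) 
(.lf (.low 2))))) (.lf (.low 2))))))))

theorem h0 : chk (leafR PP TD1 32 0) c0 32 64 0 360 0 360 360 720 = true := by
  decide +kernel

def c1 : Tree :=
  (.z 540 (.y 540 (.a 90 (.lf (.low 0)) (.z 450 (.y 450 (.a 135 (.lf (.low 0)) (.z 405 (.y 405 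
(.lf (.dir (.lf 0 100 22 80))) (.a 157 (.z 382 
(.lf (.two (.lf 0 112 22 91) (.lm 22 4 19 19 30 28 34))) 
(.lf (.two (.lf 0 123 21 102) (.lm 21 0 19 0 29 28 34)))) (.lf (.dir (.lf 0 121 19 104))))) 
(.y 405 (.lf (.dir (.lf 0 100 22 80))) (.a 157 (.z 427 (.y 427 (.lf (.dir (.lf 0 131 20 111))) 
(.y 438 (.lf (.dir (.lf 0 131 18 113))) 
(.lf (.two (.lf 0 131 20 111) (.lm 20 0 17 11 28 23 17))))) (.y 427 
(.lf (.dir (.lf 0 131 20 111))) (.z 438 (.y 438 (.lf (.dir (.lf 0 131 18 113))) (.a 146 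
(.lf (.low 0)) (.lf (.two (.lf 0 131 18 113) (.lm 18 0 17 0 25 23 12))))) (.y 438 
(.lf (.dir (.lf 0 131 18 113))) (.a 146 (.lf (.low 0)) (.t 48 (.z 444 
(.lf (.two (.lf 0 131 15 116) (.lm 15 0 15 0 18 18 6))) (.y 444 (.lf (.dir (.lf 0 131 15 116))) 
(.a 151 (.t 40 (.lf (.tipb 15 15 3)) (.lf (.low 0))) (.lf (.dir (.lf 0 131 14 116)))))) 
(.lf (.low 0)))))))) (.lf (.dir (.lf 0 121 19 104))))))) (.a 135 (.lf (.low 0)) (.z 405 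
(.y 495 (.a 157 (.z 382 (.y 472 (.lf (.two (.lf 0 112 22 91) (.lm 22 28 14 40 30 21 22))) 
(.lf (.two (.lf 0 112 22 91) (.lm 22 38 11 52 30 17 23)))) (.y 472 
(.lf (.two (.lf 0 123 21 102) (.lm 21 15 14 30 29 21 23))) 
(.lf (.two (.lf 0 123 21 102) (.lm 21 26 11 41 29 17 23))))) (.z 382 
(.lf (.two (.lm 0 100 22 80 4 30 23) (.lm 22 27 13 41 30 21 34))) 
(.lf (.two (.lf 0 111 21 91) (.lm 21 13 13 32 29 21 34))))) (.a 157 (.z 382 (.y 517 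
(.lf (.two (.lf 0 112 22 91) (.lm 22 49 7 64 30 12 22))) (.y 528 
(.lf (.two (.lf 0 112 22 91) (.lm 22 59 5 76 30 7 17))) (.lf .inf))) (.y 517 (.z 393 
(.lf (.two (.lf 0 123 22 102) (.lm 22 43 7 59 29 12 17))) 
(.lf (.two (.lf 0 128 21 108) (.lm 21 37 7 53 28 12 17)))) (.z 393 (.y 528 
(.lf (.two (.lf 0 123 22 102) (.lm 22 54 5 70 29 7 11))) (.lf .inf)) (.y 528 
(.lf (.two (.lf 0 128 21 108) (.lm 21 48 5 64 28 7 12))) (.lf .inf))))) (.z 382 (.y 517 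
(.lf (.two (.lm 0 100 22 80 4 30 23) (.lm 22 49 7 64 30 12 22))) 
(.lf (.two (.lm 0 100 22 80 4 30 23) (.lm 22 59 4 76 30 7 23)))) (.y 517 
(.lf (.two (.lf 0 111 21 91) (.lm 21 37 7 53 29 12 23))) 
(.lf (.two (.lf 0 111 21 91) (.lm 21 47 4 65 29 7 23))))))) (.y 495 (.a 157 (.z 427 (.y 472 
(.lf (.two (.lf 0 131 20 111) (.lm 20 1 14 22 28 21 22))) (.y 483 
(.lf (.two (.lf 0 131 20 111) (.lm 20 15 12 30 28 17 17))) 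
(.lf (.two (.lf 0 131 20 111) (.lm 20 20 10 36 28 14 17))))) (.y 472 (.z 438 (.a 146 
(.lf (.low 0)) (.lf (.two (.lf 0 131 18 113) (.lm 18 0 14 12 25 21 17)))) (.a 146 
(.lf (.low 0)) (.y 461 (.t 48 (.z 444 (.lf (.two (.lf 0 131 15 116) (.lm 15 0 13 6 18 17 9))) 
(.a 151 (.y 455 (.lf (.tipb 17 16 6)) (.lf (.tipb 17 15 9))) 
(.lf (.two (.lf 0 131 14 116) (.lm 14 0 13 0 18 17 9))))) (.lf (.low 0))) (.t 48 
(.lf (.two (.lf 0 131 15 116) (.lm 15 0 12 11 18 16 12))) (.lf (.low 0)))))) (.z 438 (.y 483 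
(.lf (.two (.lf 0 131 18 113) (.lm 18 9 12 25 25 17 11))) 
(.lf (.two (.lf 0 131 18 113) (.lm 18 15 10 30 25 14 12)))) (.y 483 (.a 146 (.lf (.low 0)) 
(.t 48 (.lf (.two (.lf 0 131 15 116) (.lm 15 4 11 18 18 14 12))) (.lf (.low 0)))) (.a 146 
(.lf (.low 0)) (.lf (.two (.lf 0 131 17 114) (.lm 17 8 10 25 23 14 12)))))))) (.z 427 (.y 472 
(.lf (.two (.lf 0 122 20 103) (.lm 20 1 14 22 28 21 22))) 
(.lf (.two (.lf 0 122 20 103) (.lm 20 14 11 31 28 17 23)))) (.y 472 (.a 168 (.z 438 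
(.lf (.two (.lf 0 131 18 113) (.lm 18 0 14 12 25 21 17))) (.y 461 
(.lf (.two (.lf 0 131 17 114) (.lm 17 0 15 0 23 21 12))) 
(.lf (.two (.lf 0 131 17 114) (.lm 17 0 14 11 23 19 12))))) 
(.lf (.two (.lf 1 130 17 113) (.lm 17 0 14 0 25 21 23)))) (.a 168 (.z 438 
(.lf (.two (.lf 0 131 18 113) (.lm 18 8 11 26 25 17 17))) 
(.lf (.two (.lf 0 131 17 114) (.lm 17 0 11 22 23 17 18)))) 
(.lf (.two (.lf 1 130 17 113) (.lm 17 0 11 22 25 17 23))))))) (.a 157 (.z 427 (.y 517 (.a 146 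
(.lf (.low 0)) (.lf (.two (.lf 0 131 20 111) (.lm 20 25 7 43 28 12 22)))) (.y 528 (.a 146 
(.lf .inf) (.lf (.two (.lf 0 131 20 111) (.lm 20 37 5 53 28 7 17)))) (.lf .inf))) (.y 517 
(.z 438 (.a 146 (.lf (.low 0)) (.lf (.two (.lf 0 131 18 113) (.lm 18 20 7 37 25 12 17)))) 
(.a 146 (.lf (.low 0)) (.y 506 (.lf (.two (.lf 0 131 17 114) (.lm 17 15 8 30 23 12 12))) 
(.lf (.two (.lf 0 131 17 114) (.lm 17 20 7 36 23 9 12)))))) (.z 438 (.y 528 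
(.lf (.two (.lf 0 131 18 113) (.lm 18 32 5 47 25 7 11))) (.lf .inf)) (.y 528 (.a 146 (.lf .inf) 
(.lf (.two (.lf 0 131 17 114) (.lm 17 26 5 41 23 7 12)))) (.lf .inf))))) (.z 427 (.y 517 
(.lf (.two (.lf 0 122 20 103) (.lm 20 25 7 43 28 12 22))) 
(.lf (.two (.lf 0 122 20 103) (.lm 20 36 4 54 28 7 23)))) (.y 517 
(.lf (.two (.lf 0 130 17 113) (.lm 17 13 7 32 25 12 23))) 
(.lf (.two (.lf 0 130 17 113) (.lm 17 25 4 42 25 7 23)))))))))) (.y 450 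
(.lf (.two (.pot 0) (.lf 9 0 21 0))) (.a 135 (.lf (.low 0)) (.z 495 (.y 495 (.a 157 (.z 472 
(.y 472 (.a 146 (.lf (.low 0)) (.z 461 (.y 461 (.t 48 (.lf (.tipb 16 16 6)) (.lf (.low 0))) 
(.t 48 (.lf (.tipb 16 15 11)) (.lf (.low 0)))) (.y 461 (.lf (.two (.pot 0) (.lf 14 0 15 0))) 
(.t 48 (.lf (.tipb 15 15 6)) (.lf (.low 0)))))) (.y 483 (.a 146 (.lf (.low 0)) (.z 461 (.t 48 
(.lf (.tipb 16 13 17)) (.lf (.low 0))) (.t 48 (.lf (.tipb 15 13 11)) (.lf (.low 0))))) (.a 146 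
(.lf (.low 0)) (.z 461 (.t 48 (.lf (.tipb 16 11 23)) (.lf (.low 0))) (.lf (.tipb 18 13 17)))))) 
(.y 472 (.lf (.two (.pot 0) (.lf 11 0 14 0))) (.lf (.tipb 16 16 12)))) (.z 472 (.y 472 (.a 168 
(.z 461 (.y 461 (.t 48 (.lf (.tipb 16 16 6)) (.a 162 (.lf (.low 0)) 
(.lf (.dir (.lf 0 131 17 114))))) (.t 48 (.lf (.tipb 16 15 11)) (.a 162 (.lf (.low 0)) (.z 455 
(.lf (.two (.lf 0 131 17 113) (.lm 17 0 15 6 21 19 8))) (.y 466 (.t 56 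
(.lf (.two (.lf 0 131 16 115) (.lm 16 0 15 0 18 17 6))) (.lf (.low 0))) 
(.lf (.two (.lf 0 131 17 114) (.lm 17 0 15 5 20 18 6)))))))) (.y 461 
(.lf (.two (.pot 0) (.lf 14 0 15 0))) (.t 48 (.lf (.tipb 15 15 6)) (.a 162 (.lf (.low 0)) 
(.z 466 (.y 466 (.t 56 (.lf (.tipb 16 16 3)) (.lf (.low 0))) (.t 56 (.lf (.tipb 16 15 6)) 
(.lf (.low 0)))) (.y 466 (.lf (.two (.pot 0) (.lf 15 0 16 0))) (.t 56 (.lf (.tipb 15 15 3)) 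
(.lf (.low 0))))))))) (.z 461 (.lf (.two (.lf 1 130 15 116) (.lm 15 0 14 0 21 21 11))) (.y 461 
(.lf (.dir (.lf 1 130 15 116))) (.t 48 (.lf (.tipb 15 15 6)) (.a 174 (.z 466 (.y 466 
(.lf (.dir (.lf 0 131 16 115))) (.t 56 (.lf (.tipb 16 15 6)) (.a 171 (.lf (.low 0)) 
(.lf (.two (.lf 0 131 16 114) (.lm 16 0 15 0 19 18 6)))))) (.y 466 
(.lf (.dir (.lf 0 131 16 115))) (.t 56 (.lf (.tipb 15 15 3)) (.a 171 (.lf (.low 0)) (.z 469 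
(.y 469 (.lf (.tipb 17 17 2)) (.lf (.tipb 17 16 3))) (.lf (.tipb 16 17 2))))))) (.z 466 
(.lf (.two (.lf 1 130 16 115) (.lm 16 0 15 0 19 19 6))) (.y 466 (.lf (.dir (.lf 1 130 16 115))) 
(.t 56 (.lf (.tipb 15 15 3)) (.a 177 (.z 469 
(.lf (.two (.lf 0 130 16 115) (.lm 16 0 15 0 18 18 3))) (.lf (.tipb 16 17 2))) 
(.lf (.dir (.lf 1 130 15 115)))))))))))) (.a 168 (.y 483 (.z 461 (.t 48 (.lf (.tipb 16 13 17)) 
(.a 162 (.lf (.low 0)) (.lf (.two (.lf 0 131 17 114) (.lm 17 0 13 11 21 16 11))))) (.t 48 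
(.lf (.tipb 15 13 11)) (.a 162 (.lf (.low 0)) (.z 466 (.y 477 
(.lf (.two (.pot 0) (.lm 16 0 14 6 19 16 5))) (.lf (.tipb 18 14 11))) (.lf (.tipb 17 15 9)))))) 
(.z 461 (.t 48 (.lf (.tipb 16 11 23)) (.lf (.two (.lf 0 131 17 114) (.lm 17 0 11 22 21 14 12)))) 
(.lf (.tipb 18 13 17)))) (.y 483 (.z 461 
(.lf (.two (.lf 1 130 15 116) (.lm 15 0 12 11 21 17 11))) (.t 48 (.lf (.tipb 15 13 11)) 
(.a 174 (.z 466 (.lf (.two (.lf 0 131 16 115) (.lm 16 0 13 6 19 16 8))) (.lf (.tipb 17 15 9))) 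
(.z 466 (.lf (.two (.lf 1 130 16 115) (.lm 16 0 13 6 19 16 8))) (.lf (.tipb 17 15 9)))))) 
(.z 461 (.lf (.two (.lf 1 130 15 116) (.lm 15 2 10 20 21 14 12))) (.lf (.tipb 18 13 17)))))) 
(.y 472 (.lf (.two (.pot 0) (.lf 11 0 14 0))) (.lf (.tipb 16 16 12))))) (.a 157 (.z 472 
(.y 517 (.a 146 (.lf (.low 0)) (.z 461 (.y 506 (.t 48 (.lf (.tipb 16 9 28)) (.lf (.low 0))) 
(.lf (.two (.pot 0) (.lm 15 15 7 30 21 9 11)))) (.lf (.two (.pot 0) (.lm 14 1 7 22 19 12 17))))) 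
(.y 528 (.a 146 (.lf .inf) (.z 461 (.lf (.two (.pot 0) (.lm 15 20 5 36 21 7 11))) 
(.lf (.tipb 18 6 34)))) (.lf .inf))) (.y 517 (.lf (.tipb 16 11 23)) (.lf (.tipb 16 6 34)))) 
(.z 472 (.y 517 (.a 168 (.z 461 (.lf (.two (.lf 0 131 15 116) (.lm 15 8 7 26 21 12 17))) 
(.lf (.two (.pot 0) (.lm 14 1 7 22 19 12 17)))) (.z 461 
(.lf (.two (.lf 1 130 15 116) (.lm 15 8 7 26 21 12 17))) 
(.lf (.two (.pot 0) (.lm 14 1 7 22 19 12 17))))) (.a 168 (.y 528 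
(.lf (.two (.lf 0 131 14 116) (.lm 14 14 5 31 21 7 17))) 
(.lf (.two (.lf 0 131 14 116) (.lm 14 20 3 36 21 5 17)))) 
(.lf (.two (.lf 1 130 14 116) (.lm 14 13 4 32 21 7 23))))) (.y 517 (.lf (.tipb 16 11 23)) 
(.lf (.tipb 16 6 34)))))) (.y 495 (.lf (.two (.pot 0) (.lf 6 0 13 0))) (.lf (.tipb 11 11 23)))))))) 
(.a 90 (.lf .inf) (.z 450 (.y 630 (.a 135 (.lf .inf) (.z 405 (.y 585 (.a 157 (.lf .inf) 
(.z 382 (.y 562 (.a 168 (.lf .inf) 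
(.lf (.two (.lm 1 100 22 80 4 30 17) (.lm 22 69 0 89 30 4 22)))) (.lf .inf)) (.y 562 (.a 168 
(.lf .inf) (.lf (.two (.lf 1 110 21 92) (.lm 21 58 0 77 29 4 23)))) (.lf .inf)))) (.lf .inf)) 
(.y 585 (.a 157 (.lf .inf) (.z 427 (.y 562 (.a 168 (.lf .inf) 
(.lf (.two (.lf 1 121 20 104) (.lm 20 47 0 66 28 4 22)))) (.lf .inf)) (.y 562 (.a 168 
(.lf .inf) (.lf (.two (.lf 1 130 17 113) (.lm 17 36 0 54 25 4 23)))) (.lf .inf)))) (.lf .inf)))) 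
(.lf .inf)) (.y 630 (.a 135 (.lf .inf) (.z 495 (.y 585 (.a 157 (.lf .inf) (.z 472 (.y 562 
(.a 168 (.lf .inf) (.lf (.two (.lf 1 130 14 116) (.lm 14 25 0 43 21 4 22)))) (.lf .inf)) 
(.y 562 (.lf (.tipb 16 3 45)) (.lf .inf)))) (.lf .inf)) (.y 585 (.lf (.tipb 11 4 45)) 
(.lf .inf)))) (.lf .inf))))) (.y 540 (.lf (.two (.pot 0) (.lf 0 0 16 0))) (.a 90 (.lf .inf) 
(.z 630 (.y 630 (.lf (.tipb 5 5 45)) (.lf .inf)) (.lf (.low 1))))))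

theorem h1 : chk (leafR PP TD1 32 0) c1 32 64 0 180 360 720 360 720 = true := by
  decide +kernel

def c2 : Tree :=
  (.z 540 (.y 540 (.a 270 (.z 450 (.y 450 (.a 225 (.lf (.dir (.lf 6 75 21 60))) (.lf .inf)) 
(.a 225 (.z 405 (.y 495 (.a 202 
(.lf (.two (.lm 4 87 22 71 7 30 34) (.lm 22 13 13 32 30 21 45))) 
(.lf (.two (.lm 7 75 22 60 12 30 34) (.lm 22 13 13 32 30 21 45)))) (.a 202 (.z 382 
(.lf (.two (.lm 4 88 22 70 7 30 22) (.lm 22 48 6 65 30 12 34))) (.y 517 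
(.lf (.two (.lm 4 98 21 82 7 29 23) (.lm 21 37 7 53 29 12 23))) 
(.lf (.two (.lm 4 98 21 82 7 29 23) (.lm 21 47 4 65 29 7 23))))) (.z 382 
(.lf (.two (.lm 7 75 22 60 12 30 23) (.lm 22 48 6 65 30 12 34))) 
(.lf (.two (.lm 7 85 21 72 12 29 23) (.lm 21 36 6 54 29 12 34)))))) (.y 495 (.a 202 (.z 427 
(.lf (.two (.lf 4 109 20 94) (.lm 20 0 13 23 28 21 34))) (.y 472 
(.lf (.two (.lf 4 119 17 106) (.lm 17 0 14 0 25 21 23))) 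
(.lf (.two (.lf 4 119 17 106) (.lm 17 0 11 22 25 17 23))))) (.z 427 
(.lf (.two (.lf 7 96 20 84) (.lm 20 0 13 23 28 21 34))) (.y 472 (.lf (.dir (.lf 7 116 14 109))) 
(.lf (.two (.lf 7 106 17 96) (.lm 17 0 11 22 25 17 23)))))) (.a 202 (.z 427 (.y 517 
(.lf (.two (.lf 4 109 20 94) (.lm 20 25 7 43 28 12 22))) 
(.lf (.two (.lf 4 109 20 94) (.lm 20 36 4 54 28 7 23)))) (.y 517 
(.lf (.two (.lf 4 119 17 106) (.lm 17 13 7 32 25 12 23))) 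
(.lf (.two (.lf 4 119 17 106) (.lm 17 25 4 42 25 7 23))))) (.z 427 
(.lf (.two (.lf 7 96 20 84) (.lm 20 24 6 44 28 12 34))) 
(.lf (.two (.lf 7 106 17 96) (.lm 17 11 6 34 25 12 34))))))) (.z 405 (.y 495 
(.lf (.dir (.lf 13 90 13 90))) (.a 247 
(.lf (.two (.lm 11 62 22 51 17 30 34) (.lm 22 36 6 54 30 12 45))) 
(.lf (.two (.lm 14 50 22 40 21 30 34) (.lm 22 36 6 54 30 12 45))))) (.y 495 
(.lf (.dir (.lf 13 90 13 90))) (.a 247 (.lf (.two (.lf 11 83 19 75) (.lm 19 10 6 35 28 12 45))) 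
(.lf (.two (.lm 14 70 19 65 21 28 34) (.lm 19 10 6 35 28 12 45)))))))) (.y 450 (.a 225 
(.lf (.dir (.lf 6 75 21 60))) (.lf .inf)) (.a 225 (.z 495 (.y 495 (.a 202 (.z 472 (.y 472 
(.a 191 (.z 461 (.lf (.two (.lf 3 128 15 116) (.lm 15 0 14 0 21 21 11))) (.y 461 
(.lf (.dir (.lf 3 128 15 116))) (.t 48 (.lf (.tipb 15 15 6)) (.lf (.dir (.lf 2 128 15 116)))))) 
(.lf (.dir (.lf 5 126 14 116)))) (.y 483 (.a 191 (.z 461 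
(.lf (.two (.lf 3 128 15 116) (.lm 15 0 12 11 21 17 11))) (.t 48 (.lf (.tipb 15 13 11)) 
(.a 185 (.z 466 (.lf (.two (.lf 2 129 16 115) (.lm 16 0 13 6 19 16 8))) (.lf (.tipb 17 15 9))) 
(.lf (.two (.lf 3 128 15 116) (.lm 15 0 13 0 19 16 11)))))) 
(.lf (.two (.lf 5 126 14 116) (.lm 14 0 12 0 21 17 17)))) (.a 191 (.z 461 
(.lf (.two (.lf 3 128 15 116) (.lm 15 2 10 20 21 14 12))) (.lf (.tipb 18 13 17))) 
(.lf (.two (.lf 5 126 14 116) (.lm 14 0 10 11 21 14 17)))))) (.y 472 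
(.lf (.two (.pot 0) (.lf 11 0 14 0))) (.lf (.tipb 16 16 12)))) (.z 472 (.y 472 
(.lf (.dir (.lf 7 116 14 109))) (.lf (.two (.lf 7 116 14 109) (.lm 14 0 11 0 21 17 23)))) 
(.y 472 (.lf (.dir (.lf 7 116 14 109))) (.a 213 (.z 483 
(.lf (.two (.lf 6 124 12 119) (.lm 12 0 11 0 17 17 12))) (.lf (.tipb 13 16 6))) (.z 483 
(.lf (.two (.lf 8 122 12 119) (.lm 12 0 11 0 17 17 12))) (.y 483 
(.lf (.dir (.lf 8 122 12 119))) (.lf (.dir (.lf 8 122 10 120))))))))) (.a 202 (.z 472 (.y 517 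
(.lf (.two (.lf 4 127 14 116) (.lm 14 0 7 23 21 12 22))) 
(.lf (.two (.lf 4 127 14 116) (.lm 14 13 4 32 21 7 23)))) (.y 517 (.lf (.tipb 16 11 23)) 
(.lf (.tipb 16 6 34)))) (.z 472 (.y 517 
(.lf (.two (.lf 7 116 14 109) (.lm 14 0 7 23 21 12 22))) 
(.lf (.two (.lf 7 116 14 109) (.lm 14 13 4 32 21 7 23)))) (.y 517 (.a 213 (.z 483 
(.lf (.two (.lf 6 124 12 119) (.lm 12 0 7 12 17 12 17))) (.lf (.tipb 13 11 17))) (.z 483 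
(.lf (.two (.lf 8 122 12 119) (.lm 12 0 7 12 17 12 17))) 
(.lf (.two (.lf 8 122 10 120) (.lm 10 0 7 0 14 12 17))))) 
(.lf (.two (.lf 7 123 11 120) (.lm 11 0 4 22 17 7 23))))))) (.y 495 
(.lf (.two (.pot 0) (.lf 6 0 13 0))) (.lf (.tipb 11 11 23)))) (.z 495 (.y 495 
(.lf (.dir (.lf 13 90 13 90))) (.a 247 (.z 472 
(.lf (.two (.lf 11 103 14 100) (.lm 14 0 6 23 21 12 34))) (.y 517 
(.lf (.two (.lf 11 113 11 112) (.lm 11 0 7 0 17 12 23))) 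
(.lf (.two (.lf 11 113 11 112) (.lm 11 0 4 22 17 7 23))))) (.z 472 
(.lf (.two (.lf 14 90 14 90) (.lm 14 0 6 23 21 12 34))) 
(.lf (.two (.lf 14 99 11 103) (.lm 11 0 6 0 17 12 34)))))) (.y 495 
(.lf (.dir (.lf 13 90 13 90))) (.a 247 (.z 517 (.y 517 (.a 236 (.z 506 (.y 506 
(.lf (.dir (.lf 10 120 8 122))) (.lf (.two (.lf 10 120 8 122) (.lm 8 0 7 0 12 9 11)))) 
(.lf (.tipb 8 11 6))) (.lf (.dir (.lf 12 119 7 123)))) (.y 528 (.a 236 (.z 506 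
(.lf (.two (.lf 10 120 8 122) (.lm 8 0 5 11 12 7 11))) (.lf (.tipb 8 6 11))) 
(.lf (.two (.lf 12 119 7 123) (.lm 7 0 5 0 12 7 17)))) 
(.lf (.two (.lf 11 120 7 123) (.lm 7 0 3 11 12 5 17))))) (.lf (.tipb 6 11 12))) (.z 517 
(.lf (.two (.lf 14 109 7 116) (.lm 7 0 6 0 12 12 23))) (.y 517 (.lf (.dir (.lf 14 109 7 116))) 
(.a 258 (.z 528 (.y 528 (.lf (.dir (.lf 13 117 5 126))) 
(.lf (.two (.lf 13 117 5 126) (.lm 5 0 3 0 7 5 12)))) (.lf (.tipb 4 6 6))) 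
(.lf (.dir (.lf 15 116 4 127)))))))))))) (.z 450 (.y 450 (.lf .inf) (.a 315 (.z 405 (.y 495 
(.lf .inf) (.lf (.dir (.lf 19 84 6 96)))) (.y 495 (.lf .inf) (.lf (.dir (.lf 19 84 6 96))))) 
(.lf .inf))) (.y 450 (.lf .inf) (.a 315 (.z 495 (.y 495 (.lf .inf) 
(.lf (.dir (.lf 19 84 6 96)))) (.lf (.two (.lf 19 84 6 96) (.lm 6 0 9 0 12 23 23)))) (.lf .inf))))) 
(.a 270 (.z 450 (.y 630 (.a 225 (.z 405 (.y 585 (.a 202 (.z 382 (.y 562 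
(.lf (.two (.lm 4 88 22 70 7 30 22) (.lm 22 69 0 89 30 4 22))) (.y 573 
(.lf (.two (.lm 4 88 22 70 7 30 22) (.lm 22 80 0 100 30 2 17))) (.lf .inf))) (.y 562 
(.lf (.two (.lm 4 98 21 82 7 29 23) (.lm 21 58 0 77 29 4 23))) (.z 393 (.y 573 
(.lf (.two (.lm 4 98 22 82 7 29 17) (.lm 22 75 0 94 29 2 11))) (.lf .inf)) (.y 573 
(.lf (.two (.lm 4 104 21 87 7 28 17) (.lm 21 69 0 88 28 2 12))) (.lf .inf))))) (.z 382 (.y 562 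
(.lf (.two (.lm 7 75 22 60 12 30 23) (.lm 22 69 0 89 30 4 22))) 
(.lf (.two (.lm 7 75 22 60 12 30 23) (.lm 22 80 0 100 30 2 23)))) (.y 562 
(.lf (.two (.lm 7 85 21 72 12 29 23) (.lm 21 58 0 77 29 4 23))) 
(.lf (.two (.lm 7 85 21 72 12 29 23) (.lm 21 69 0 88 29 2 23)))))) (.lf (.low 2))) (.y 585 
(.a 202 (.z 427 (.y 562 (.lf (.two (.lf 4 109 20 94) (.lm 20 47 0 66 28 4 22))) (.y 573 
(.lf (.two (.lf 4 109 20 94) (.lm 20 58 0 77 28 2 17))) (.lf .inf))) (.y 562 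
(.lf (.two (.lf 4 119 17 106) (.lm 17 36 0 54 25 4 23))) 
(.lf (.two (.lf 4 119 17 106) (.lm 17 48 0 64 25 2 23))))) (.z 427 
(.lf (.two (.lf 7 96 20 84) (.lm 20 47 0 66 28 5 34))) 
(.lf (.two (.lf 7 106 17 96) (.lm 17 36 0 54 25 5 34))))) (.lf (.low 2)))) (.z 405 (.y 585 
(.a 247 (.lf (.two (.lm 11 62 22 51 17 30 34) (.lm 22 57 0 78 30 5 45))) 
(.lf (.two (.lm 14 50 22 40 21 30 34) (.lm 22 57 0 78 30 5 45)))) (.lf (.low 2))) (.y 585 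
(.a 247 (.z 427 (.lf (.two (.lm 11 83 20 75 17 28 22) (.lm 20 47 0 66 28 5 34))) 
(.lf (.two (.lf 11 93 17 87) (.lm 17 36 0 54 25 5 34)))) 
(.lf (.two (.lm 14 70 19 65 21 28 34) (.lm 19 35 0 55 28 5 45)))) (.lf (.low 2))))) 
(.lf (.low 2))) (.y 630 (.a 225 (.z 495 (.y 585 (.a 202 (.z 472 (.y 562 
(.lf (.two (.lf 4 127 14 116) (.lm 14 25 0 43 21 4 22))) 
(.lf (.two (.lf 4 127 14 116) (.lm 14 38 0 52 21 2 23)))) (.y 562 (.lf (.tipb 16 3 45)) 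
(.lf (.tipb 16 1 57)))) (.z 472 (.lf (.two (.lf 7 116 14 109) (.lm 14 25 0 43 21 5 34))) 
(.lf (.two (.lf 7 123 11 120) (.lm 11 13 0 32 17 5 34))))) (.lf (.low 2))) (.y 585 
(.lf (.tipb 11 4 45)) (.lf (.low 2)))) (.z 495 (.y 585 (.a 247 (.z 472 
(.lf (.two (.lf 11 103 14 100) (.lm 14 25 0 43 21 5 34))) 
(.lf (.two (.lf 11 113 11 112) (.lm 11 13 0 32 17 5 34)))) 
(.lf (.two (.lf 14 89 13 91) (.lm 13 12 0 33 21 5 45)))) (.lf (.low 2))) (.y 585 (.a 247 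
(.z 517 (.lf (.two (.lf 11 120 7 123) (.lm 7 1 0 22 12 5 34))) (.lf (.tipb 6 4 34))) (.z 517 
(.lf (.two (.lf 14 109 7 116) (.lm 7 1 0 22 12 5 34))) (.y 562 (.a 258 (.z 528 
(.lf (.two (.lf 13 117 5 126) (.lm 5 0 0 12 7 4 17))) (.lf (.tipb 4 3 17))) 
(.lf (.two (.lf 15 116 4 127) (.lm 4 0 0 0 7 4 23)))) 
(.lf (.two (.lf 14 116 4 127) (.lm 4 6 0 16 7 2 23)))))) (.lf (.low 2))))) (.lf (.low 2)))) 
(.z 450 (.y 630 (.a 315 (.z 405 (.y 585 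
(.lf (.two (.lm 19 26 22 19 28 30 45) (.lm 22 57 0 78 30 5 45))) (.lf (.low 2))) (.y 585 
(.lf (.two (.lm 19 45 19 45 28 28 45) (.lm 19 35 0 55 28 5 45))) (.lf (.low 2)))) (.z 405 
(.y 585 (.lf (.dir (.lf 22 80 0 100))) (.lf (.low 2))) 
(.lf (.two (.lm 22 19 19 26 30 28 45) (.lf 19 35 0 55))))) (.lf (.low 2))) (.y 630 (.a 315 
(.z 495 (.y 585 (.lf (.two (.lf 19 65 13 70) (.lm 13 12 0 33 21 5 45))) (.lf (.low 2))) 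
(.y 585 (.a 292 (.z 517 (.lf (.two (.lf 17 97 7 106) (.lm 7 1 0 22 12 5 34))) 
(.lf (.two (.lf 17 106 4 119) (.lm 4 0 0 0 7 5 34)))) (.lf (.dir (.lf 20 103 0 122)))) 
(.lf (.low 2)))) (.z 495 (.lf (.two (.lm 22 39 13 51 30 21 45) (.lm 13 12 0 33 21 6 68))) 
(.y 585 (.lf (.dir (.lf 22 80 0 100))) (.lf (.low 2))))) (.lf (.low 2)))))) (.y 540 (.a 270 
(.lf (.two (.pot 0) (.lf 0 0 16 0))) (.z 630 (.lf (.two (.lf 21 81 0 99) (.lf 0 0 16 0))) 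
(.lf .inf))) (.a 270 (.z 630 (.y 630 (.lf (.tipb 5 5 45)) (.lf (.low 2))) (.lf (.low 1))) 
(.z 630 (.y 630 (.a 315 (.z 585 (.y 585 (.a 292 (.z 562 
(.lf (.two (.lf 17 113 0 130) (.lm 0 0 0 0 4 5 23))) (.lf (.tipb 1 4 12))) 
(.lf (.dir (.lf 20 103 0 122)))) (.lf (.low 2))) (.lf (.low 1))) (.z 585 
(.lf (.two (.lf 22 80 0 100) (.lm 0 0 0 0 5 6 45))) (.lf (.low 1)))) (.lf (.low 2))) 
(.lf (.low 1))))))

theorem h2 : chk (leafR PP TD1 32 0) c2 32 64 180 360 360 720 360 720 = true := by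
  decide +kernel

theorem main : ∃ T : Tree, chk (leafR PP TD1 32 0) T 32 64 0 360 0 720 360 720 = true :=
  ⟨_, (chk_z h0 (chk_a h1 h2))⟩

end Pool.Agent.Helper58.LDD.R01
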