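import Pool.Agent.Helper58.LD.Comb
import Pool.Agent.Helper58.LDD.Tab

set_option autoImplicit false

namespace Pool.Agent.Helper58.LDD.R02

open Pool.Agent.Helper58.LD Pool.Agent.Helper58.LDD

set_option maxRecDepth 100000

def c0 : Tree :=
  (.z 180 (.y 540 (.a 90 (.lf (.low 0)) (.z 90 (.lf (.low 1)) (.y 450 (.a 135 (.lf (.low 0)) 
(.z 135 (.lf (.low 1)) (.y 405 (.lf (.dir (.lf 0 107 34 73))) (.a 157 (.lf (.low 0)) 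
(.lf (.dir (.lf 0 126 28 99))))))) (.lf (.tipa 5 5 45))))) (.a 90 (.lf .inf) 
(.lf (.tipa 5 17 45)))) (.y 540 (.a 90 (.lf (.low 0)) (.z 270 (.y 450 (.a 135 (.lf (.low 0)) 
(.z 225 (.y 405 (.lf (.dir (.lf 0 107 34 73))) (.a 157 (.lf (.low 0)) 
(.lf (.dir (.lf 0 126 28 99))))) (.lf (.two (.lm 0 38 18 7 3 29 45) (.lf 18 55 32 35))))) 
(.a 135 (.lf (.low 0)) (.z 225 (.y 495 (.a 157 (.lf (.low 0)) (.z 202 (.y 472 (.a 168 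
(.lf (.low 0)) (.z 191 (.y 461 (.lf (.dir (.lf 0 131 22 109))) (.lf (.tipa 1 3 12))) 
(.lf (.two (.lm 0 11 3 0 2 7 12) (.lf 3 127 21 110))))) (.lf (.tipa 1 6 23))) 
(.lf (.two (.lm 0 22 8 0 2 13 23) (.lf 8 117 18 108))))) (.lf (.tipa 2 13 45))) (.y 495 
(.a 157 (.lf (.low 0)) (.lf (.two (.lm 0 38 18 7 2 29 34) (.lf 18 90 18 90)))) (.a 157 
(.lf (.low 0)) (.z 247 (.lf (.two (.lm 0 35 14 10 2 21 23) (.lf 14 116 5 125))) 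
(.lf (.two (.lm 0 47 20 20 2 28 23) (.lf 20 105 5 120))))))))) (.y 450 (.a 135 (.lf (.low 0)) 
(.z 315 (.y 405 (.lf (.dir (.lf 0 107 34 73))) 
(.lf (.two (.lm 0 62 28 28 3 39 45) (.lf 28 45 28 45)))) (.y 405 (.lf (.dir (.lf 0 107 34 73))) 
(.lf (.two (.lf 0 85 34 50) (.lm 34 15 28 30 43 39 45)))))) (.a 135 (.lf (.low 0)) (.z 315 
(.y 495 (.a 157 (.lf (.low 0)) (.lf (.two (.lm 0 62 28 28 2 39 34) (.lf 28 62 18 73)))) 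
(.a 157 (.lf (.low 0)) (.z 292 (.lf (.two (.lm 0 60 26 30 2 34 23) (.lf 26 92 5 111))) 
(.lf (.two (.lm 0 72 30 40 2 39 23) (.lf 30 78 5 102)))))) (.y 495 (.a 157 (.lf (.low 0)) 
(.lf (.two (.lm 0 85 34 50 2 43 34) (.lm 34 34 18 56 43 29 45)))) (.a 157 (.lf (.low 0)) 
(.z 337 (.y 517 (.lf (.two (.lm 0 84 33 51 2 41 23) (.lm 33 67 8 91 41 13 22))) 
(.lf (.two (.lm 0 84 33 51 2 41 23) (.lf 33 75 2 105)))) (.y 517 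
(.lf (.two (.lm 0 96 35 61 2 43 23) (.lm 35 54 8 81 43 13 23))) 
(.lf (.two (.lm 0 96 35 61 2 43 23) (.lm 35 62 2 95 43 7 23)))))))))))) (.a 90 (.lf .inf) 
(.z 270 (.y 630 (.a 135 (.lf .inf) (.z 225 (.lf (.tipa 2 13 45)) (.y 585 (.a 157 (.lf .inf) 
(.z 247 (.lf (.tipa 1 20 45)) (.y 562 (.lf (.two (.lm 0 47 20 20 2 28 23) (.lf 20 110 0 131))) 
(.lf .inf)))) (.lf .inf)))) (.lf .inf)) (.y 630 (.a 135 (.lf .inf) (.z 315 (.y 585 (.a 157 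
(.lf .inf) (.z 292 (.y 562 (.a 168 (.lf .inf) 
(.lf (.two (.lm 0 60 26 30 2 34 17) (.lf 26 105 0 131)))) (.lf .inf)) (.y 562 (.a 168 
(.lf .inf) (.lf (.two (.lm 0 72 30 40 2 39 18) (.lf 30 97 0 128)))) (.lf .inf)))) (.lf .inf)) 
(.y 585 (.a 157 (.lf .inf) (.z 337 (.y 562 (.a 168 (.lf .inf) 
(.lf (.two (.lm 0 84 33 51 2 41 17) (.lf 33 85 0 118)))) (.lf .inf)) (.y 562 (.a 168 (.lf .inf) 
(.lf (.two (.lm 0 96 35 61 2 43 18) (.lf 35 73 0 107)))) (.lf .inf)))) (.lf .inf)))) (.lf .inf))))))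

theorem h0 : chk (leafR PP TD2 64 0) c0 64 96 0 180 0 360 360 720 = true := by
  decide +kernel

def c1 : Tree :=
  (.y 540 (.a 270 (.z 90 (.lf .inf) (.y 450 (.a 225 (.z 135 (.lf .inf) 
(.lf (.two (.lf 5 0 0 0) (.lf 0 105 32 75)))) (.lf .inf)) (.lf (.two (.lf 11 0 0 0) (.pot 0))))) 
(.lf .inf)) (.lf (.two (.lf 23 0 0 0) (.pot 0))))

theorem h1 : chk (leafR PP TD2 64 0) c1 64 96 180 360 0 180 360 720 = true := by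
  decide +kernel

def c2 : Tree :=
  (.a 225 (.z 225 (.y 405 (.lf .inf) (.lf (.dir (.lf 5 101 28 79)))) (.y 405 (.lf .inf) 
(.lf (.dir (.lf 5 101 28 79))))) (.lf .inf))

theorem h2 : chk (leafR PP TD2 64 0) c2 64 96 180 270 180 270 360 450 = true := by
  decide +kernel

def c3 : Tree :=
  (.z 225 (.y 495 (.a 202 (.z 202 (.y 472 (.a 191 (.z 191 (.y 461 
(.lf (.dir (.lf 0 130 22 109))) (.lf (.tipa 3 3 6))) 
(.lf (.two (.lm 0 0 3 0 4 7 11) (.lf 3 127 21 110)))) (.lf (.dir (.lf 3 127 21 110)))) 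
(.lf (.tipa 6 6 11))) (.y 472 (.lf (.two (.lm 2 0 8 0 7 13 23) (.lf 8 119 21 106))) (.z 213 
(.y 483 (.a 191 (.lf (.two (.lm 0 11 6 0 4 9 11) (.lf 6 124 16 114))) (.t 80 
(.lf (.two (.lm 4 0 7 0 6 9 11) (.lf 7 124 15 115))) 
(.lf (.two (.lm 3 0 6 0 6 9 11) (.lf 6 124 17 114))))) (.lf (.tipa 6 8 17))) 
(.lf (.two (.lm 2 11 10 0 7 13 17) (.lf 10 121 15 116)))))) (.z 202 (.y 472 
(.lf (.dir (.lf 8 119 21 106))) (.lf (.two (.lf 8 0 2 0) (.pot 0)))) (.y 472 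
(.lf (.dir (.lf 8 119 21 106))) (.a 213 (.z 213 (.y 483 (.t 80 (.lf (.dir (.lf 7 124 15 115))) 
(.lf (.dir (.lf 6 124 17 114)))) (.lf (.tipa 8 8 6))) (.y 483 
(.lf (.two (.lm 6 0 10 0 9 13 12) (.lf 10 121 16 114))) (.t 80 (.z 219 (.lf (.tipa 8 10 9)) 
(.lf (.two (.lm 7 6 10 0 9 12 9) (.lf 10 120 12 118)))) (.z 219 (.lf (.tipa 8 10 9)) 
(.lf (.two (.lm 6 6 11 0 9 13 9) (.lf 11 120 14 117))))))) (.z 213 (.y 483 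
(.lf (.dir (.lf 10 121 16 114))) (.lf (.two (.lf 10 0 6 0) (.pot 0)))) (.y 483 
(.lf (.dir (.lf 10 121 16 114))) (.t 80 (.a 219 (.z 219 (.lf (.tipa 10 10 3)) 
(.lf (.two (.lm 9 0 10 0 11 12 6) (.lf 10 120 12 118)))) (.lf (.dir (.lf 10 120 12 118)))) 
(.a 219 (.z 219 (.lf (.tipa 10 10 3)) (.y 489 
(.lf (.two (.lm 9 0 11 0 11 13 6) (.lf 11 120 15 116))) (.lf (.tipa 10 12 6)))) (.z 219 
(.lf (.two (.lf 11 0 9 0) (.pot 0))) (.y 489 (.lf (.dir (.lf 11 120 15 116))) 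
(.lf (.tipa 12 12 3)))))))))))) (.lf (.tipa 13 13 23))) (.y 495 (.a 202 (.z 247 
(.lf (.two (.lm 2 23 14 0 7 21 22) (.lf 14 103 18 100))) 
(.lf (.two (.lm 2 40 20 5 7 28 23) (.lf 20 89 18 91)))) (.z 247 (.y 472 
(.lf (.dir (.lf 8 119 21 106))) (.a 213 
(.lf (.two (.lm 6 12 14 0 9 21 17) (.lf 14 113 15 112))) (.y 483 
(.lf (.dir (.lf 10 121 16 114))) (.z 236 (.t 80 
(.lf (.two (.lm 9 0 12 0 12 16 12) (.lf 12 118 12 118))) (.a 219 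
(.lf (.two (.lm 9 6 13 0 11 17 9) (.lf 13 117 14 117))) (.y 489 
(.lf (.dir (.lf 11 120 15 116))) (.lf (.two (.lm 11 0 13 0 13 17 9) (.lf 13 117 13 118)))))) 
(.lf (.two (.lm 10 11 16 0 13 21 12) (.lf 16 115 13 118))))))) 
(.lf (.two (.lm 8 22 20 0 13 28 23) (.lf 20 89 18 91))))) (.a 202 (.z 247 (.y 517 
(.lf (.two (.lm 2 23 14 0 7 21 22) (.lf 14 116 8 122))) (.lf (.tipa 6 20 34))) 
(.lf (.two (.lm 2 40 20 5 7 28 23) (.lf 20 105 5 120)))) (.z 247 (.y 517 (.a 213 (.z 236 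
(.y 506 (.lf (.two (.lm 6 12 13 0 9 17 11) (.lf 13 118 10 121))) (.lf (.tipa 8 16 17))) 
(.lf (.two (.lm 6 23 16 0 9 21 11) (.lf 16 115 8 122)))) (.z 236 (.y 506 (.t 80 (.a 219 
(.lf (.two (.lm 9 6 12 0 11 16 9) (.lf 12 118 10 121))) (.z 230 (.lf (.tipa 11 13 6)) 
(.lf (.two (.lm 10 5 13 0 12 16 6) (.lf 13 118 10 121))))) (.a 219 (.z 230 
(.lf (.tipa 10 14 9)) (.lf (.two (.lm 9 11 14 0 11 17 6) (.lf 14 117 10 121)))) (.z 230 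
(.lf (.tipa 12 14 6)) (.lf (.two (.lm 11 5 14 0 13 17 6) (.lf 14 117 10 121)))))) 
(.lf (.tipa 12 16 12))) (.lf (.two (.lm 10 11 16 0 13 21 12) (.lf 16 115 8 122))))) (.a 213 
(.lf (.tipa 8 20 23)) (.y 528 (.z 236 (.lf (.tipa 12 16 12)) 
(.lf (.two (.lm 10 11 16 0 13 21 12) (.pot 0)))) (.z 236 (.lf (.tipa 12 16 12)) 
(.lf (.two (.lm 10 11 16 0 13 21 12) (.pot 0))))))) (.y 517 
(.lf (.two (.lm 8 22 20 0 13 28 23) (.lf 20 107 8 118))) (.a 213 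
(.lf (.two (.lm 6 34 20 0 9 28 17) (.lf 20 110 2 129))) (.z 258 
(.lf (.two (.lm 10 22 19 0 13 24 12) (.lf 19 112 2 129))) 
(.lf (.two (.lm 10 33 22 0 13 28 12) (.lf 22 109 2 129))))))))))

theorem h3 : chk (leafR PP TD2 64 0) c3 64 96 180 225 180 270 450 540 = true := by
  decide +kernel

def c4 : Tree :=
  (.z 225 (.y 495 (.a 247 (.z 202 (.lf .inf) (.y 472 (.lf .inf) (.z 213 (.lf .inf) (.y 483 
(.lf .inf) (.a 236 (.t 80 (.lf (.dir (.lf 12 118 12 118))) (.z 219 (.lf .inf) (.y 489 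
(.lf (.dir (.lf 13 117 15 116))) (.lf (.dir (.lf 13 117 13 118)))))) (.lf .inf)))))) (.lf .inf)) 
(.lf (.two (.lf 18 0 5 0) (.pot 0)))) (.y 495 (.a 247 (.z 247 (.y 472 (.lf .inf) (.y 483 
(.lf .inf) (.a 236 (.z 236 (.t 80 (.lf (.dir (.lf 12 118 12 118))) (.y 489 
(.lf (.dir (.lf 13 117 15 116))) (.lf (.dir (.lf 13 117 13 118))))) 
(.lf (.two (.lm 13 0 16 0 17 21 11) (.lf 16 115 13 118)))) (.lf .inf)))) (.y 472 (.lf .inf) 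
(.z 258 (.y 483 (.lf .inf) (.lf (.two (.lm 14 0 19 0 21 24 17) (.lf 19 110 13 115)))) 
(.lf (.two (.lm 14 11 22 0 21 28 17) (.lf 22 97 15 105)))))) (.lf .inf)) (.a 247 (.z 247 
(.y 517 (.a 236 (.z 236 (.y 506 (.t 80 (.a 230 (.z 230 (.lf (.tipa 13 13 3)) 
(.lf (.two (.lm 12 0 13 0 14 16 6) (.lf 13 118 10 121)))) (.lf (.dir (.lf 13 118 10 121)))) 
(.a 230 (.z 230 (.lf (.tipa 14 14 3)) (.y 500 
(.lf (.two (.lm 12 0 14 0 15 17 6) (.lf 14 117 11 120))) (.lf (.tipa 14 16 6)))) (.z 230 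
(.lf (.two (.lf 14 0 12 0) (.pot 0))) (.y 500 (.lf (.dir (.lf 14 117 11 120))) 
(.lf (.tipa 16 16 3)))))) (.lf (.tipa 16 16 6))) (.y 506 (.t 80 
(.lf (.two (.lm 12 0 15 0 16 19 11) (.lf 15 116 10 121))) (.a 230 
(.lf (.two (.lm 12 6 17 0 15 21 8) (.lf 17 114 10 121))) 
(.lf (.two (.lm 14 0 17 0 17 21 9) (.lf 17 114 10 121))))) (.t 80 (.a 230 
(.lf (.two (.lm 12 6 15 0 14 19 8) (.lf 15 116 7 124))) (.z 241 (.lf (.tipa 15 16 6)) 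
(.lf (.two (.lm 13 5 16 0 16 19 6) (.lf 16 115 7 124))))) (.a 230 
(.lf (.two (.lm 12 6 17 0 15 21 8) (.lf 17 114 6 124))) (.z 241 (.y 511 
(.lf (.two (.lm 14 0 16 0 17 18 6) (.lf 16 115 7 123))) (.t 88 (.lf (.tipa 15 17 6)) (.a 233 
(.lf (.tipa 15 17 6)) (.lf (.tipa 16 17 4))))) 
(.lf (.two (.lm 14 5 18 0 17 20 6) (.lf 18 113 6 124)))))))) (.z 236 (.y 506 
(.lf (.dir (.lf 16 115 10 121))) (.lf (.two (.lf 16 0 13 0) (.pot 0)))) (.y 506 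
(.lf (.dir (.lf 16 115 10 121))) (.t 80 (.lf (.dir (.lf 15 116 7 124))) (.a 241 (.z 241 
(.y 511 (.lf (.dir (.lf 16 115 7 123))) (.lf (.dir (.lf 16 115 6 125)))) 
(.lf (.two (.lm 16 0 18 0 18 20 6) (.lf 18 113 6 124)))) (.lf (.dir (.lf 18 113 6 124)))))))) 
(.y 528 (.a 236 (.z 236 (.lf (.tipa 16 16 6)) (.t 80 (.lf (.tipa 15 18 11)) (.a 230 (.z 241 
(.lf (.tipa 14 17 8)) (.lf (.two (.lm 12 11 18 0 15 20 6) (.pot 0)))) (.z 241 (.y 522 (.t 88 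
(.lf (.tipa 15 17 6)) (.a 233 (.lf (.tipa 15 17 6)) (.lf (.tipa 16 17 4)))) (.t 88 
(.lf (.tipa 15 17 6)) (.a 233 (.lf (.tipa 15 17 6)) (.lf (.tipa 16 17 4))))) 
(.lf (.two (.lm 14 5 18 0 17 20 6) (.lf 18 113 3 127))))))) (.z 236 
(.lf (.two (.lf 16 0 13 0) (.pot 0))) (.t 80 (.a 241 (.z 241 (.lf (.tipa 16 16 3)) (.y 522 
(.lf (.two (.lm 14 0 16 0 17 19 6) (.lf 16 115 5 126))) 
(.lf (.two (.lm 14 0 16 0 17 19 6) (.lf 16 115 3 127))))) (.lf (.dir (.lf 16 115 4 126)))) 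
(.a 241 (.z 241 (.y 522 (.t 88 (.a 238 (.lf (.tipa 16 17 3)) (.lf (.dir (.lf 16 115 4 126)))) 
(.a 238 (.z 238 (.lf (.tipa 16 16 1)) (.lf (.two (.lm 16 0 17 0 17 18 3) (.lf 17 114 4 127)))) 
(.lf (.dir (.lf 17 114 4 127))))) (.t 88 (.y 525 (.a 238 (.lf (.tipa 16 17 3)) (.z 238 
(.lf (.two (.lf 16 0 15 0) (.pot 0))) (.t 84 (.lf (.tipa 16 16 2)) (.a 239 
(.lf (.tipa 16 17 2)) (.lf (.dir (.lf 16 115 3 128))))))) (.a 238 (.lf (.tipa 16 17 3)) 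
(.z 238 (.lf (.two (.lf 16 0 15 0) (.pot 0))) (.t 84 (.lf (.tipa 16 16 2)) (.a 239 
(.lf (.tipa 16 17 2)) (.z 239 (.lf (.two (.lf 16 0 16 0) (.pot 0))) (.y 526 
(.lf (.dir (.lf 16 115 2 128))) (.t 86 (.lf (.tipa 16 16 1)) (.lf (.dir (.lf 16 114 2 129))))))))))) 
(.y 525 (.a 238 (.z 238 (.lf (.tipa 16 16 1)) (.t 92 (.lf (.tipa 16 17 3)) 
(.lf (.two (.lm 16 0 17 0 17 18 3) (.lf 17 114 2 128))))) (.lf (.dir (.lf 17 114 2 128)))) 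
(.a 238 (.z 238 (.lf (.tipa 16 16 1)) (.t 92 (.lf (.tipa 16 17 3)) 
(.lf (.two (.lm 16 0 17 0 17 18 3) (.lf 17 114 1 129))))) (.z 238 
(.lf (.two (.lf 17 0 16 0) (.pot 0))) (.t 92 (.a 239 (.z 239 (.lf (.tipa 16 16 1)) 
(.lf (.two (.lm 16 0 17 0 17 18 2) (.lf 17 114 2 129)))) (.lf (.dir (.lf 17 114 2 129)))) 
(.lf (.dir (.lf 17 114 1 129))))))))) (.y 522 
(.lf (.two (.lm 16 0 18 0 18 20 6) (.lf 18 113 4 126))) (.t 88 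
(.lf (.two (.lm 16 0 17 0 18 19 6) (.lf 17 114 3 128))) 
(.lf (.two (.lm 16 0 18 0 18 20 6) (.lf 18 113 2 128)))))) (.lf (.dir (.lf 18 113 3 127))))))) 
(.a 236 (.z 236 (.lf (.tipa 16 16 6)) (.t 80 (.lf (.tipa 15 18 11)) (.y 534 (.a 230 (.z 241 
(.lf (.tipa 14 17 8)) (.lf (.two (.lm 12 11 18 0 15 20 6) (.pot 0)))) (.z 241 (.t 88 
(.lf (.tipa 15 17 6)) (.a 233 (.lf (.tipa 15 17 6)) (.lf (.tipa 16 17 4)))) (.t 88 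
(.lf (.two (.lm 14 5 17 0 16 19 6) (.pot 0))) 
(.lf (.two (.lm 14 5 18 0 17 20 6) (.lf 18 113 0 130)))))) (.a 230 (.z 241 
(.lf (.tipa 14 17 8)) (.lf (.two (.lm 12 11 18 0 15 20 6) (.pot 0)))) (.z 241 (.t 88 
(.lf (.tipa 15 17 6)) (.a 233 (.lf (.tipa 15 17 6)) (.lf (.tipa 16 17 4)))) (.t 88 
(.lf (.two (.lm 14 5 17 0 16 19 6) (.pot 0))) 
(.lf (.two (.lm 14 5 18 0 17 20 6) (.lf 18 113 0 131))))))))) (.z 236 
(.lf (.two (.lf 16 0 13 0) (.pot 0))) (.t 80 (.y 534 (.a 241 (.z 241 (.lf (.tipa 16 16 3)) 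
(.t 72 (.lf (.tipa 15 16 6)) (.z 244 (.lf (.tipa 16 17 4)) 
(.lf (.two (.lm 15 3 17 0 17 18 4) (.pot 0)))))) (.z 241 (.lf (.two (.lf 16 0 14 0) (.pot 0))) 
(.t 72 (.lf (.tipa 16 16 3)) (.a 244 (.z 244 (.y 531 (.t 76 (.lf (.tipa 16 16 2)) (.a 242 
(.lf (.tipa 16 17 2)) (.lf (.tipa 17 17 1)))) (.t 76 (.lf (.tipa 16 16 2)) (.a 242 
(.lf (.tipa 16 17 2)) (.lf (.tipa 17 17 1))))) 
(.lf (.two (.lm 16 0 17 0 18 18 3) (.lf 17 114 2 129)))) (.lf (.dir (.lf 17 114 2 129))))))) 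
(.a 241 (.z 241 (.lf (.tipa 16 16 3)) (.t 72 (.lf (.tipa 15 16 6)) (.z 244 
(.lf (.tipa 16 17 4)) (.lf (.two (.lm 15 3 17 0 17 18 4) (.pot 0)))))) (.z 241 
(.lf (.two (.lf 16 0 14 0) (.pot 0))) (.t 72 (.lf (.tipa 16 16 3)) (.a 244 (.z 244 (.y 537 
(.t 76 (.lf (.tipa 16 16 2)) (.a 242 (.lf (.tipa 16 17 2)) (.lf (.tipa 17 17 1)))) (.t 76 
(.lf (.tipa 16 16 2)) (.a 242 (.lf (.tipa 16 17 2)) (.lf (.tipa 17 17 1))))) (.y 537 (.t 76 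
(.lf (.tipa 16 17 3)) (.lf (.two (.lm 16 0 17 0 18 18 3) (.lf 17 114 0 130)))) (.t 76 
(.lf (.tipa 16 17 3)) (.a 242 (.z 245 (.lf (.tipa 16 17 2)) 
(.lf (.two (.lm 16 3 17 0 17 18 2) (.pot 0)))) (.z 245 (.y 538 
(.lf (.two (.lm 16 0 17 0 18 18 2) (.lf 17 114 0 131))) (.t 78 (.lf (.tipa 16 17 2)) 
(.lf (.low 2)))) (.lf (.two (.lm 16 1 17 0 18 18 2) (.lf 17 114 0 131)))))))) (.z 244 
(.lf (.two (.lf 17 0 16 0) (.pot 0))) (.y 537 (.t 76 (.a 245 (.z 245 (.lf (.tipa 16 16 1)) 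
(.lf (.two (.lm 16 0 16 0 17 18 2) (.lf 16 114 1 130)))) (.lf (.dir (.lf 16 114 1 130)))) 
(.lf (.dir (.lf 17 114 0 130)))) (.t 76 (.a 245 (.z 245 (.lf (.tipa 16 16 1)) (.y 538 
(.lf (.two (.lm 16 0 16 0 17 18 2) (.lf 16 114 0 130))) (.t 74 (.lf (.tipa 16 17 2)) 
(.lf (.two (.lm 16 0 17 0 17 18 2) (.lf 17 114 0 131)))))) (.z 245 
(.lf (.two (.lf 16 0 16 0) (.pot 0))) (.y 538 (.lf (.dir (.lf 16 114 0 130))) (.t 74 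
(.lf (.tipa 17 17 1)) (.lf (.dir (.lf 17 114 0 131))))))) (.a 245 (.z 245 (.y 538 
(.lf (.dir (.lf 17 114 0 131))) (.t 78 (.y 539 (.t 77 (.lf (.tipa 17 17 1)) 
(.lf (.dir (.lf 16 114 0 131)))) (.lf (.low 2))) (.lf (.low 2)))) 
(.lf (.two (.lm 17 0 17 0 18 18 2) (.lf 17 114 0 131)))) (.lf (.dir (.lf 17 114 0 131)))))))))))) 
(.y 534 (.a 241 (.z 241 (.t 88 (.y 531 (.a 238 (.lf (.tipa 16 17 3)) (.z 238 
(.lf (.two (.lf 16 0 15 0) (.pot 0))) (.t 84 (.lf (.tipa 16 16 2)) (.a 239 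
(.lf (.tipa 16 17 2)) (.z 239 (.lf (.two (.lf 16 0 16 0) (.pot 0))) (.y 529 (.t 86 
(.lf (.tipa 16 16 1)) (.lf (.dir (.lf 16 114 1 129)))) (.t 86 (.lf (.tipa 16 16 1)) (.a 240 
(.lf (.tipa 16 17 1)) (.lf (.dir (.lf 16 114 1 130))))))))))) (.a 238 (.lf (.tipa 16 17 3)) 
(.z 238 (.lf (.two (.lf 16 0 15 0) (.pot 0))) (.t 84 (.lf (.tipa 16 16 2)) (.a 239 
(.lf (.tipa 16 17 2)) (.z 239 (.lf (.two (.lf 16 0 16 0) (.pot 0))) (.y 532 (.t 86 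
(.lf (.tipa 16 16 1)) (.a 240 (.lf (.tipa 16 17 1)) (.lf (.dir (.lf 16 114 0 130))))) (.t 86 
(.lf (.tipa 16 16 1)) (.a 240 (.lf (.tipa 16 17 1)) (.lf (.dir (.lf 16 114 0 130)))))))))))) 
(.y 531 (.a 238 (.z 238 (.lf (.tipa 16 16 1)) (.t 92 (.lf (.tipa 16 17 3)) 
(.lf (.two (.lm 16 0 17 0 17 18 3) (.lf 17 114 0 130))))) (.z 238 
(.lf (.two (.lf 17 0 16 0) (.pot 0))) (.t 92 (.a 239 (.z 239 (.lf (.tipa 16 16 1)) 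
(.lf (.two (.lm 16 0 17 0 17 18 2) (.lf 17 114 1 130)))) (.lf (.dir (.lf 17 114 1 130)))) 
(.lf (.dir (.lf 17 114 0 130)))))) (.a 238 (.z 238 (.lf (.tipa 16 16 1)) (.t 92 
(.lf (.tipa 16 17 3)) (.lf (.two (.lm 16 0 17 0 17 18 3) (.lf 17 114 0 131))))) (.z 238 
(.lf (.two (.lf 17 0 16 0) (.pot 0))) (.t 92 (.a 239 (.z 239 (.lf (.tipa 16 16 1)) (.y 532 
(.lf (.two (.lm 16 0 17 0 17 18 2) (.lf 17 114 0 130))) (.t 90 (.lf (.tipa 16 17 2)) 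
(.lf (.dir (.lf 16 115 0 131)))))) (.z 239 (.lf (.two (.lf 17 0 16 0) (.pot 0))) (.y 532 
(.lf (.dir (.lf 17 114 0 130))) (.lf (.dir (.lf 17 114 0 131)))))) 
(.lf (.dir (.lf 17 114 0 131)))))))) (.t 88 (.z 244 (.y 531 (.a 238 
(.lf (.two (.lm 15 3 17 0 17 19 3) (.lf 17 114 1 129))) (.t 84 
(.lf (.two (.lm 16 0 16 0 17 18 3) (.lf 16 114 1 129))) 
(.lf (.two (.lm 16 0 17 0 18 19 3) (.lf 17 114 1 129))))) (.a 238 (.t 84 (.lf (.tipa 15 17 4)) 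
(.lf (.two (.lm 15 3 17 0 17 19 3) (.lf 17 114 0 130)))) (.t 84 (.a 239 (.lf (.tipa 16 17 3)) 
(.z 242 (.lf (.tipa 16 17 2)) (.lf (.two (.lm 16 1 17 0 17 18 2) (.lf 17 114 1 130))))) 
(.lf (.two (.lm 16 0 17 0 18 19 3) (.lf 17 114 0 130)))))) 
(.lf (.two (.lm 16 3 18 0 18 19 4) (.lf 18 113 1 130)))) 
(.lf (.two (.lm 16 0 18 0 18 20 6) (.lf 18 113 0 130))))) (.z 241 
(.lf (.two (.lf 18 0 16 0) (.pot 0))) (.t 88 (.a 244 (.z 244 (.y 531 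
(.lf (.dir (.lf 17 114 1 129))) (.t 84 (.a 242 (.z 242 (.lf (.tipa 17 17 1)) 
(.lf (.two (.lm 16 0 17 0 18 18 2) (.lf 17 114 1 130)))) (.lf (.dir (.lf 17 114 1 130)))) 
(.lf (.dir (.lf 17 114 0 130))))) (.lf (.two (.lm 17 0 18 0 19 19 3) (.lf 18 113 1 130)))) 
(.lf (.dir (.lf 18 113 1 130)))) (.lf (.dir (.lf 18 113 0 130)))))) (.a 241 (.z 241 (.t 88 
(.y 537 (.a 238 (.lf (.tipa 16 17 3)) (.z 238 (.lf (.two (.lf 16 0 15 0) (.pot 0))) (.t 84 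
(.lf (.tipa 16 16 2)) (.a 239 (.lf (.tipa 16 17 2)) (.z 239 
(.lf (.two (.lf 16 0 16 0) (.pot 0))) (.y 535 (.t 86 (.lf (.tipa 16 16 1)) (.a 240 
(.lf (.tipa 16 17 1)) (.lf (.dir (.lf 16 114 0 131))))) (.t 86 (.lf (.tipa 16 16 1)) 
(.lf (.low 2))))))))) (.a 238 (.lf (.tipa 16 17 3)) (.z 238 
(.lf (.two (.lf 16 0 15 0) (.pot 0))) (.t 84 (.lf (.tipa 16 16 2)) (.lf (.low 2)))))) (.y 537 
(.a 238 (.z 238 (.lf (.tipa 16 16 1)) (.t 92 (.lf (.low 2)) (.lf (.low 2)))) (.z 238 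
(.lf (.two (.lf 17 0 16 0) (.pot 0))) (.t 92 (.lf (.low 2)) (.lf (.low 2))))) (.lf (.low 2)))) 
(.t 88 (.z 244 (.y 537 (.a 238 (.t 84 (.lf (.tipa 15 17 4)) 
(.lf (.two (.lm 15 3 17 0 17 19 3) (.lf 17 114 0 131)))) (.t 84 (.a 239 (.lf (.tipa 16 17 3)) 
(.z 242 (.lf (.tipa 16 17 2)) (.y 535 (.lf (.two (.lm 16 1 17 0 17 18 2) (.lf 17 114 0 130))) 
(.t 82 (.lf (.tipa 16 17 3)) (.lf (.two (.lm 16 1 17 0 17 18 2) (.lf 17 114 0 131))))))) 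
(.a 239 (.z 242 (.lf (.tipa 16 17 2)) (.lf (.two (.lm 16 3 17 0 17 19 2) (.lf 17 114 0 131)))) 
(.z 242 (.y 535 (.lf (.two (.lm 16 0 17 0 18 18 2) (.lf 17 114 0 131))) (.t 86 
(.lf (.tipa 16 17 2)) (.lf (.low 2)))) (.lf (.two (.lm 16 1 17 0 18 19 2) (.lf 17 114 0 131))))))) 
(.a 238 (.t 84 (.lf (.tipa 15 17 4)) (.lf (.low 2))) (.t 84 (.a 239 (.lf (.tipa 16 17 3)) 
(.z 242 (.lf (.tipa 16 17 2)) (.y 538 (.t 82 (.lf (.tipa 16 17 3)) (.lf (.low 2))) 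
(.lf (.low 2))))) (.lf (.low 2))))) (.lf (.two (.lm 16 3 18 0 18 19 4) (.lf 18 113 0 131)))) 
(.z 244 (.lf (.two (.lm 16 0 18 0 18 19 4) (.lf 18 113 0 131))) 
(.lf (.two (.lm 16 3 18 0 18 20 4) (.lf 18 112 0 131)))))) (.z 241 
(.lf (.two (.lf 18 0 16 0) (.pot 0))) (.t 88 (.a 244 (.z 244 (.y 537 (.t 84 (.a 242 (.z 242 
(.lf (.tipa 17 17 1)) (.y 535 (.t 82 (.lf (.tipa 16 17 2)) 
(.lf (.two (.lm 16 0 17 0 18 18 2) (.lf 17 114 0 130)))) (.t 82 (.lf (.tipa 16 17 2)) 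
(.lf (.two (.lm 16 0 17 0 18 18 2) (.lf 17 114 0 131)))))) (.z 242 
(.lf (.two (.lf 17 0 16 0) (.pot 0))) (.y 535 (.lf (.dir (.lf 17 114 0 130))) (.t 82 (.a 243 
(.z 243 (.lf (.tipa 17 17 1)) (.lf (.two (.lm 16 0 17 0 18 18 1) (.lf 17 114 0 131)))) 
(.lf (.dir (.lf 17 114 0 131)))) (.lf (.dir (.lf 17 114 0 131))))))) (.a 242 (.z 242 (.y 535 
(.lf (.dir (.lf 17 114 0 131))) (.t 86 (.y 536 (.lf (.dir (.lf 16 114 0 131))) (.lf (.low 2))) 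
(.lf (.low 2)))) (.lf (.two (.lm 17 0 17 0 18 19 2) (.lf 17 114 0 131)))) 
(.lf (.dir (.lf 17 114 0 131))))) (.t 84 (.a 242 (.z 242 (.lf (.tipa 17 17 1)) (.y 538 (.t 82 
(.lf (.tipa 16 17 2)) (.lf (.low 2))) (.lf (.low 2)))) (.z 242 
(.lf (.two (.lf 17 0 16 0) (.pot 0))) (.y 538 (.t 82 (.a 243 (.z 243 (.lf (.tipa 17 17 1)) 
(.lf (.two (.lm 16 0 17 0 18 18 1) (.lf 17 114 0 131)))) (.lf (.dir (.lf 17 114 0 131)))) 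
(.lf (.low 2))) (.lf (.low 2))))) (.lf (.low 2)))) (.y 537 
(.lf (.two (.lm 17 0 18 0 19 19 3) (.lf 18 113 0 131))) (.t 84 
(.lf (.two (.lm 16 0 17 0 18 19 3) (.lf 17 113 0 131))) (.lf (.low 2))))) 
(.lf (.dir (.lf 18 113 0 131)))) (.lf (.dir (.lf 18 113 0 131)))))))))))) (.y 517 (.z 258 
(.a 236 (.lf (.two (.lm 13 11 19 0 17 24 11) (.lf 19 112 8 122))) (.y 506 
(.lf (.dir (.lf 16 115 10 121))) (.lf (.two (.lm 16 0 19 0 21 24 11) (.lf 19 112 7 124))))) 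
(.lf (.two (.lm 14 11 22 0 21 28 17) (.lf 22 106 8 119)))) (.z 258 (.y 528 (.a 236 
(.lf (.two (.lm 13 11 19 0 17 24 11) (.lf 19 112 4 127))) 
(.lf (.two (.lm 16 0 19 0 21 24 11) (.lf 19 112 4 127)))) (.a 236 (.t 80 
(.lf (.two (.lm 12 11 18 0 16 21 11) (.lf 18 113 1 129))) 
(.lf (.two (.lm 13 11 20 0 17 24 11) (.lf 20 111 0 131)))) (.t 80 (.y 534 
(.lf (.two (.lm 15 0 18 0 19 21 11) (.lf 18 113 2 129))) (.a 241 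
(.lf (.two (.lm 14 6 18 0 17 21 8) (.lf 18 113 0 130))) (.z 252 (.t 72 
(.lf (.two (.lm 15 0 16 0 17 19 6) (.lf 16 114 1 130))) 
(.lf (.two (.lm 16 0 18 0 18 20 6) (.lf 18 113 0 130)))) 
(.lf (.two (.lm 16 5 18 0 19 21 6) (.lf 18 113 0 130)))))) (.y 534 (.a 241 
(.lf (.two (.lm 16 6 20 0 18 24 8) (.lf 20 111 0 130))) 
(.lf (.two (.lm 18 0 20 0 20 24 9) (.lf 20 111 0 130)))) (.a 241 
(.lf (.two (.lm 16 6 20 0 18 24 8) (.lf 20 111 0 131))) (.z 252 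
(.lf (.two (.lm 18 0 19 0 20 22 6) (.lf 19 112 0 131))) 
(.lf (.two (.lm 18 5 21 0 20 24 6) (.lf 21 110 0 131))))))))) (.y 528 
(.lf (.two (.lm 14 11 22 0 21 28 17) (.lf 22 109 4 127))) (.a 236 
(.lf (.two (.lm 13 22 22 0 17 28 12) (.lf 22 109 0 130))) 
(.lf (.two (.lm 16 11 22 0 21 28 12) (.lf 22 109 0 130)))))))) (.z 247 (.y 517 
(.lf (.dir (.lf 20 107 8 118))) (.lf (.two (.lf 20 0 14 0) (.pot 0)))) (.y 517 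
(.lf (.dir (.lf 20 107 8 118))) (.a 258 (.z 258 (.y 528 (.lf (.dir (.lf 19 112 4 127))) (.t 80 
(.y 534 (.lf (.dir (.lf 18 113 2 129))) (.a 252 (.lf (.dir (.lf 17 114 0 130))) 
(.lf (.dir (.lf 18 113 0 130))))) (.lf (.dir (.lf 20 111 0 131))))) 
(.lf (.two (.lm 19 0 22 0 24 28 12) (.lf 22 109 2 129)))) (.lf (.dir (.lf 22 109 2 129)))))))))

theorem h4 : chk (leafR PP TD2 64 0) c4 64 96 225 270 180 270 450 540 = true := by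
  decide +kernel

def c5 : Tree :=
  (.y 450 (.a 225 (.z 315 (.y 405 (.lf .inf) (.lf (.dir (.lf 5 101 28 79)))) (.y 405 (.lf .inf) 
(.lf (.dir (.lf 5 101 28 79))))) (.lf .inf)) (.a 225 (.z 315 (.y 495 (.a 202 
(.lf (.two (.lm 2 53 28 15 7 39 34) (.lf 28 62 18 73))) (.z 292 
(.lf (.two (.lm 8 42 26 3 13 34 23) (.lf 26 75 18 83))) 
(.lf (.two (.lm 8 51 30 16 13 39 23) (.lf 30 61 18 74))))) (.a 202 (.z 292 
(.lf (.two (.lm 2 51 26 17 7 34 22) (.lf 26 92 5 111))) 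
(.lf (.two (.lm 2 62 30 28 7 39 23) (.lf 30 78 5 102)))) (.z 292 
(.lf (.two (.lm 8 42 26 3 13 34 23) (.lf 26 92 5 111))) 
(.lf (.two (.lm 8 51 30 16 13 39 23) (.lf 30 78 5 102)))))) (.y 495 (.a 202 (.z 337 
(.lf (.two (.lm 2 74 33 39 7 41 22) (.lm 33 47 18 66 41 29 34))) 
(.lf (.two (.lm 2 84 35 51 7 43 23) (.lm 35 33 18 57 43 29 34)))) (.z 337 
(.lf (.two (.lm 8 61 33 29 13 41 23) (.lm 33 47 18 66 41 29 34))) 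
(.lf (.two (.lm 8 71 35 41 13 43 23) (.lm 35 33 18 57 43 29 34))))) (.a 202 (.z 337 
(.lf (.two (.lm 2 74 33 39 7 41 22) (.lf 33 65 5 93))) 
(.lf (.two (.lm 2 84 35 51 7 43 23) (.lf 35 52 5 83)))) (.z 337 
(.lf (.two (.lm 8 61 33 29 13 41 23) (.lf 33 65 5 93))) 
(.lf (.two (.lm 8 71 35 41 13 43 23) (.lf 35 52 5 83))))))) (.z 315 (.y 495 (.a 247 (.z 292 
(.lf (.two (.lm 14 23 26 0 21 34 22) (.lf 26 75 18 83))) 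
(.lf (.two (.lm 14 41 30 4 21 39 23) (.lf 30 61 18 74)))) (.lf .inf)) (.a 247 (.z 292 (.y 517 
(.lf (.two (.lm 14 23 26 0 21 34 22) (.lf 26 93 8 110))) 
(.lf (.two (.lm 14 23 26 0 21 34 22) (.lf 26 101 2 124)))) 
(.lf (.two (.lm 14 41 30 4 21 39 23) (.lf 30 78 5 102)))) (.z 292 (.y 517 
(.lf (.dir (.lf 20 107 8 118))) (.a 258 
(.lf (.two (.lm 19 12 26 0 24 34 17) (.lf 26 101 2 124))) (.lf (.dir (.lf 22 109 2 129))))) 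
(.lf (.two (.lm 20 22 30 0 28 39 23) (.lf 30 78 5 102)))))) (.y 495 (.a 247 (.z 337 
(.lf (.two (.lm 14 50 33 18 21 41 22) (.lm 33 47 18 66 41 29 34))) 
(.lf (.two (.lm 14 59 35 31 21 43 23) (.lm 35 33 18 57 43 29 34)))) (.lf .inf)) (.a 247 
(.z 337 (.lf (.two (.lm 14 50 33 18 21 41 22) (.lf 33 65 5 93))) 
(.lf (.two (.lm 14 59 35 31 21 43 23) (.lf 35 52 5 83)))) 
(.lf (.two (.lm 20 40 34 5 28 43 34) (.lf 34 52 5 83))))))))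

theorem h5 : chk (leafR PP TD2 64 0) c5 64 96 180 270 270 360 360 540 = true := by
  decide +kernel

def c6 : Tree :=
  (.z 270 (.y 450 (.lf .inf) (.a 315 (.z 225 (.lf .inf) (.y 495 (.lf .inf) 
(.lf (.dir (.lf 28 79 5 101))))) (.lf .inf))) (.y 450 (.lf .inf) (.a 315 (.z 315 (.y 495 
(.lf .inf) (.lf (.dir (.lf 28 79 5 101)))) (.y 495 (.lf .inf) (.lf (.dir (.lf 28 79 5 101))))) 
(.lf .inf))))

theorem h6 : chk (leafR PP TD2 64 0) c6 64 96 270 360 180 360 360 540 = true := by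
  decide +kernel

def c7 : Tree :=
  (.a 270 (.z 270 (.y 630 (.a 225 (.z 225 (.lf (.tipa 13 13 23)) (.y 585 (.a 202 (.z 247 
(.lf (.tipa 6 20 34)) (.y 562 (.z 258 (.lf (.two (.lm 2 38 19 7 7 24 17) (.pot 0))) 
(.lf (.two (.lm 2 44 22 12 7 28 17) (.lf 22 109 0 131)))) (.lf (.low 2)))) (.z 247 (.y 562 
(.a 213 (.lf (.tipa 8 20 23)) (.z 236 (.lf (.tipa 12 16 12)) 
(.lf (.two (.lm 10 11 16 0 13 21 12) (.pot 0))))) (.lf (.low 2))) (.y 562 (.a 213 (.z 258 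
(.lf (.two (.lm 6 33 19 1 9 24 11) (.pot 0))) 
(.lf (.two (.lm 6 38 22 7 9 28 12) (.lf 22 109 0 131)))) (.z 258 (.y 551 (.t 80 
(.lf (.two (.lm 9 22 18 0 12 21 12) (.pot 0))) (.lf (.low 2))) (.lf (.low 2))) (.y 551 
(.lf (.two (.lm 10 33 22 0 13 28 12) (.lf 22 109 0 131))) (.lf (.low 2))))) (.lf (.low 2))))) 
(.lf (.low 2)))) (.z 225 (.lf (.two (.lf 18 0 5 0) (.pot 0))) (.y 585 (.a 247 (.z 247 (.y 562 
(.a 236 (.z 236 (.lf (.tipa 16 16 6)) (.y 551 (.t 80 (.lf (.tipa 15 18 11)) (.lf (.low 2))) 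
(.lf (.low 2)))) (.z 236 (.lf (.two (.lf 16 0 13 0) (.pot 0))) (.y 551 (.t 80 (.a 241 (.z 241 
(.lf (.tipa 16 16 3)) (.y 545 (.t 72 (.lf (.tipa 15 16 6)) (.z 244 (.lf (.tipa 16 17 4)) 
(.lf (.two (.lm 15 3 17 0 17 18 4) (.pot 0))))) (.lf (.low 2)))) (.z 241 
(.lf (.two (.lf 16 0 14 0) (.pot 0))) (.y 545 (.t 72 (.lf (.tipa 16 16 3)) (.a 244 (.z 244 
(.y 542 (.t 76 (.lf (.tipa 16 16 2)) (.lf (.low 2))) (.lf (.low 2))) (.y 542 (.t 76 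
(.lf (.tipa 16 17 3)) (.lf (.low 2))) (.lf (.low 2)))) (.z 244 
(.lf (.two (.lf 17 0 16 0) (.pot 0))) (.y 542 (.t 76 (.a 245 (.z 245 (.lf (.tipa 16 16 1)) 
(.t 74 (.lf (.tipa 16 17 2)) (.lf (.low 2)))) (.z 245 (.lf (.two (.lf 16 0 16 0) (.pot 0))) 
(.t 74 (.lf (.tipa 17 17 1)) (.lf (.low 2))))) (.lf (.low 2))) (.lf (.low 2)))))) 
(.lf (.low 2))))) (.lf (.low 2))) (.lf (.low 2))))) (.lf (.low 2))) (.y 562 (.z 258 (.a 236 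
(.y 551 (.t 80 (.a 230 (.lf (.two (.lm 12 17 18 0 14 21 8) (.pot 0))) (.z 252 
(.lf (.two (.lm 13 11 17 0 16 20 6) (.pot 0))) 
(.lf (.two (.lm 13 16 18 0 16 21 6) (.lf 18 113 0 131))))) (.lf (.low 2))) (.lf (.low 2))) 
(.y 551 (.t 80 (.a 241 (.z 252 (.y 545 (.t 72 (.lf (.tipa 15 18 8)) (.a 238 
(.lf (.two (.lm 14 9 18 0 16 20 4) (.pot 0))) (.z 249 
(.lf (.two (.lm 15 6 17 0 17 19 3) (.pot 0))) 
(.lf (.two (.lm 15 8 18 0 17 20 3) (.lf 18 113 0 131)))))) (.lf (.low 2))) 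
(.lf (.two (.lm 14 11 18 0 17 21 6) (.lf 18 113 0 131)))) (.z 252 (.y 545 (.t 72 (.a 244 
(.z 249 (.lf (.tipa 16 17 4)) (.lf (.two (.lm 15 5 17 0 17 19 3) (.pot 0)))) (.z 249 
(.lf (.tipa 16 17 3)) (.lf (.two (.lm 15 2 17 0 17 19 3) (.lf 17 114 0 131))))) (.a 244 
(.z 249 (.y 542 (.lf (.two (.lm 16 3 17 0 18 19 3) (.lf 17 114 0 131))) (.lf (.low 2))) 
(.lf (.two (.lm 16 5 18 0 18 20 3) (.lf 18 113 0 131)))) (.z 249 (.y 542 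
(.lf (.two (.lm 17 0 17 0 18 19 3) (.lf 17 114 0 131))) (.lf (.low 2))) 
(.lf (.two (.lm 17 2 18 0 18 20 3) (.lf 18 113 0 131)))))) (.lf (.low 2))) (.y 545 
(.lf (.two (.lm 16 5 18 0 19 21 6) (.lf 18 113 0 131))) (.lf (.low 2))))) (.lf (.low 2))) 
(.lf (.low 2)))) (.a 236 (.y 551 (.lf (.two (.lm 13 22 22 0 17 28 12) (.lf 22 109 0 131))) 
(.lf (.low 2))) (.y 551 (.t 80 (.lf (.two (.lm 15 11 20 0 19 24 12) (.lf 20 111 0 131))) 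
(.lf (.low 2))) (.lf (.low 2))))) (.lf (.low 2)))) (.z 247 
(.lf (.two (.lf 20 0 14 0) (.pot 0))) (.y 562 (.a 258 (.z 258 (.y 551 (.t 80 (.a 252 (.z 252 
(.y 545 (.t 72 (.a 249 (.z 249 (.y 542 (.t 68 (.lf (.tipa 16 16 1)) 
(.lf (.dir (.lf 16 114 0 131)))) (.t 68 (.lf (.tipa 16 16 1)) (.y 543 (.t 70 
(.lf (.tipa 17 17 1)) (.lf (.low 2))) (.lf (.low 2))))) (.y 542 
(.lf (.two (.lm 16 0 17 0 18 19 3) (.lf 17 114 0 131))) (.t 68 (.lf (.tipa 16 17 3)) 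
(.lf (.two (.lm 16 0 17 0 18 19 3) (.lf 17 114 0 131)))))) (.lf (.dir (.lf 17 114 0 131)))) 
(.a 249 (.z 249 (.y 542 (.lf (.dir (.lf 17 114 0 131))) (.lf (.low 2))) 
(.lf (.two (.lm 17 0 18 0 19 20 3) (.lf 18 113 0 131)))) (.lf (.dir (.lf 18 113 0 131))))) 
(.lf (.low 2))) (.y 545 (.lf (.two (.lm 17 0 18 0 20 21 6) (.lf 18 113 0 131))) (.lf (.low 2)))) 
(.z 252 (.lf (.two (.lf 18 0 17 0) (.pot 0))) (.y 545 (.lf (.dir (.lf 18 113 0 131))) 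
(.lf (.low 2))))) (.lf (.low 2))) (.lf (.low 2))) (.y 551 (.t 80 
(.lf (.two (.lm 18 0 20 0 21 24 12) (.lf 20 111 0 131))) (.lf (.low 2))) (.lf (.low 2)))) 
(.z 258 (.lf (.two (.lf 22 0 19 0) (.pot 0))) (.y 551 (.lf (.dir (.lf 22 109 0 131))) 
(.lf (.low 2))))) (.lf (.low 2))))) (.lf (.low 2))))) (.lf (.low 2))) (.y 630 (.a 225 (.z 315 
(.y 585 (.a 202 (.z 292 (.y 562 (.lf (.two (.lm 2 51 26 17 7 34 22) (.lf 26 105 0 131))) 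
(.lf (.low 2))) (.y 562 (.lf (.two (.lm 2 62 30 28 7 39 23) (.lf 30 97 0 128))) (.lf (.low 2)))) 
(.z 292 (.y 562 (.a 213 (.lf (.two (.lm 6 45 26 12 9 34 17) (.lf 26 105 0 131))) 
(.lf (.two (.lm 10 40 26 5 13 34 17) (.lf 26 105 0 131)))) (.lf (.low 2))) (.y 562 
(.lf (.two (.lm 8 51 30 16 13 39 23) (.lf 30 97 0 128))) (.lf (.low 2))))) (.lf (.low 2))) 
(.y 585 (.a 202 (.z 337 (.y 562 (.lf (.two (.lm 2 74 33 39 7 41 22) (.lf 33 85 0 118))) 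
(.lf (.low 2))) (.y 562 (.lf (.two (.lm 2 84 35 51 7 43 23) (.lf 35 73 0 107))) (.lf (.low 2)))) 
(.z 337 (.y 562 (.lf (.two (.lm 8 61 33 29 13 41 23) (.lf 33 85 0 118))) (.lf (.low 2))) 
(.y 562 (.lf (.two (.lm 8 71 35 41 13 43 23) (.lf 35 73 0 107))) (.lf (.low 2))))) 
(.lf (.low 2)))) (.z 315 (.y 585 (.a 247 (.z 292 (.y 562 (.a 236 
(.lf (.two (.lm 13 34 26 0 17 34 17) (.lf 26 105 0 131))) 
(.lf (.two (.lm 16 23 26 0 21 34 17) (.lf 26 105 0 131)))) (.lf (.low 2))) (.y 562 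
(.lf (.two (.lm 14 41 30 4 21 39 23) (.lf 30 97 0 128))) (.lf (.low 2)))) (.z 292 (.y 562 
(.a 258 (.z 281 (.lf (.two (.lm 19 12 24 0 24 31 11) (.lf 24 106 0 131))) 
(.lf (.two (.lm 19 23 27 0 24 34 11) (.lf 27 104 0 131)))) (.z 281 
(.lf (.two (.lm 22 0 24 0 28 31 12) (.lf 24 106 0 131))) 
(.lf (.two (.lm 22 11 27 0 28 34 12) (.lf 27 104 0 131))))) (.lf (.low 2))) (.y 562 
(.lf (.two (.lm 20 22 30 0 28 39 23) (.lf 30 97 0 128))) (.lf (.low 2))))) (.lf (.low 2))) 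
(.y 585 (.a 247 (.z 337 (.y 562 (.lf (.two (.lm 14 50 33 18 21 41 22) (.lf 33 85 0 118))) 
(.lf (.low 2))) (.lf (.two (.lm 14 59 35 31 21 43 23) (.lf 35 73 0 107)))) (.z 337 
(.lf (.two (.lm 20 38 33 7 28 41 23) (.lf 33 85 0 118))) 
(.lf (.two (.lm 20 46 35 21 28 43 23) (.lf 35 73 0 107))))) (.lf (.low 2))))) (.lf (.low 2)))) 
(.z 270 (.lf (.two (.lf 32 0 11 0) (.pot 0))) (.y 630 (.a 315 (.z 315 (.y 585 (.a 292 (.z 292 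
(.y 562 (.lf (.dir (.lf 26 105 0 131))) (.lf (.low 2))) (.y 562 (.lf (.dir (.lf 26 105 0 131))) 
(.lf (.low 2)))) (.lf (.dir (.lf 30 97 0 128)))) (.lf (.low 2))) (.y 585 (.a 292 
(.lf (.two (.lm 26 23 34 0 34 43 34) (.lf 34 73 0 107))) (.lf (.dir (.lf 30 97 0 128)))) 
(.lf (.low 2)))) (.z 315 (.y 585 (.lf (.dir (.lf 34 73 0 107))) (.lf (.low 2))) (.y 585 
(.lf (.dir (.lf 34 73 0 107))) (.lf (.low 2))))) (.lf (.low 2)))))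

theorem h7 : chk (leafR PP TD2 64 0) c7 64 96 180 360 180 360 540 720 = true := by
  decide +kernel

def c8 : Tree :=
  (.z 540 (.y 540 (.a 90 (.lf (.low 0)) (.z 450 (.y 450 (.a 135 (.lf (.low 0)) (.z 405 (.y 405 
(.lf (.dir (.lf 0 107 34 73))) (.a 157 (.lf (.low 0)) (.lf (.dir (.lf 0 126 28 99))))) (.y 405 
(.lf (.dir (.lf 0 107 34 73))) (.a 157 (.lf (.low 0)) (.lf (.dir (.lf 0 126 28 99))))))) 
(.a 135 (.lf (.low 0)) (.z 405 (.y 495 (.a 157 (.lf (.low 0)) (.z 382 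
(.lf (.two (.lf 0 107 35 73) (.lm 35 19 18 49 42 29 34))) (.y 472 
(.lf (.two (.lf 0 117 33 85) (.lm 33 7 21 38 42 28 23))) 
(.lf (.two (.lf 0 117 33 85) (.lm 33 18 15 49 42 21 23)))))) (.a 157 (.lf (.low 0)) (.z 382 
(.y 517 (.lf (.two (.lf 0 107 35 73) (.lm 35 41 8 72 42 13 22))) 
(.lf (.two (.lf 0 107 35 73) (.lm 35 51 2 84 42 7 23)))) (.y 517 
(.lf (.two (.lf 0 117 33 85) (.lm 33 29 8 61 42 13 23))) 
(.lf (.two (.lf 0 117 33 85) (.lm 33 39 2 73 42 7 23))))))) (.y 495 (.a 157 (.lf (.low 0)) 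
(.z 427 (.y 472 (.lf (.two (.lf 0 128 30 97) (.lm 30 0 21 23 39 28 22))) 
(.lf (.two (.lf 0 128 30 97) (.lm 30 4 15 41 39 21 23)))) (.y 472 (.a 168 (.lf (.low 0)) 
(.z 438 (.lf (.two (.lf 0 131 27 104) (.lm 27 0 21 12 34 28 17))) (.y 461 
(.lf (.dir (.lf 0 131 22 109))) (.lf (.two (.lf 0 131 25 106) (.lm 25 0 19 11 31 25 12)))))) 
(.a 168 (.lf (.low 0)) (.z 438 (.lf (.two (.lf 0 131 27 104) (.lm 27 0 15 34 34 21 17))) 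
(.lf (.two (.lf 0 131 25 106) (.lm 25 0 15 22 31 21 18)))))))) (.a 157 (.lf (.low 0)) (.z 427 
(.y 517 (.lf (.two (.lf 0 128 30 97) (.lm 30 17 8 51 39 13 22))) 
(.lf (.two (.lf 0 128 30 97) (.lm 30 28 2 62 39 7 23)))) (.y 517 (.a 168 (.lf (.low 0)) 
(.lf (.two (.lf 0 131 26 105) (.lm 26 3 8 42 34 13 23)))) (.a 168 (.lf (.low 0)) 
(.lf (.two (.lf 0 131 26 105) (.lm 26 16 2 51 34 7 23))))))))))) (.y 450 
(.lf (.two (.pot 0) (.lf 11 0 32 0))) (.a 135 (.lf (.low 0)) (.z 495 (.y 495 (.a 157 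
(.lf (.low 0)) (.z 472 (.y 472 (.a 168 (.lf (.low 0)) (.z 461 (.y 461 
(.lf (.dir (.lf 0 131 22 109))) (.t 80 (.lf (.two (.lf 0 131 20 110) (.lm 20 0 18 0 24 22 11))) 
(.lf (.low 0)))) (.y 461 (.lf (.dir (.lf 0 131 22 109))) (.t 80 (.a 174 (.lf (.low 0)) (.z 466 
(.lf (.two (.lf 0 131 19 112) (.lm 19 0 18 0 22 22 6))) (.y 466 (.lf (.dir (.lf 0 131 19 112))) 
(.t 72 (.a 177 (.z 469 (.lf (.two (.lf 0 131 17 114) (.lm 17 0 17 0 19 19 3))) (.y 469 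
(.lf (.dir (.lf 0 131 17 114))) (.t 68 (.a 175 (.lf (.low 0)) (.z 470 
(.lf (.two (.lf 0 131 16 114) (.lm 16 0 16 0 18 18 2))) (.lf (.tipb 16 17 1)))) (.lf (.low 0))))) 
(.lf (.dir (.lf 0 131 17 114)))) (.a 177 (.lf (.low 0)) (.lf (.dir (.lf 0 131 18 113)))))))) 
(.lf (.low 0)))))) (.a 168 (.lf (.low 0)) (.y 483 (.z 461 (.t 80 
(.lf (.two (.lf 0 131 20 110) (.lm 20 0 15 11 24 19 11))) (.lf (.low 0))) (.t 80 (.a 174 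
(.lf (.low 0)) (.z 466 (.lf (.two (.lf 0 131 19 112) (.lm 19 0 15 6 22 19 8))) (.y 477 (.t 72 
(.a 177 (.z 469 (.lf (.two (.lf 0 131 17 114) (.lm 17 0 15 3 19 18 4))) (.y 474 (.t 68 
(.lf (.tipb 17 16 3)) (.lf (.low 0))) (.t 68 (.lf (.tipb 17 16 4)) (.lf (.low 0))))) (.z 469 
(.lf (.two (.lf 0 131 17 114) (.lm 17 0 15 3 19 18 4))) (.y 474 
(.lf (.two (.lf 0 131 16 114) (.lm 16 0 16 0 18 18 3))) 
(.lf (.two (.lf 0 131 16 114) (.lm 16 0 15 2 18 17 3)))))) (.a 177 (.lf (.low 0)) 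
(.lf (.two (.lf 0 131 18 113) (.lm 18 0 17 0 20 19 6))))) (.t 72 (.a 177 (.z 469 
(.lf (.two (.pot 0) (.lm 17 0 14 8 19 16 5))) (.lf (.tipb 17 15 7))) 
(.lf (.two (.lf 0 131 17 114) (.lm 17 0 14 5 19 16 6)))) (.a 177 (.lf (.low 0)) 
(.lf (.two (.lf 0 131 18 113) (.lm 18 0 15 5 20 17 6)))))))) (.lf (.low 0)))) (.z 461 
(.lf (.two (.lf 0 131 22 109) (.lm 22 0 13 22 28 17 12))) (.t 80 (.a 174 (.lf (.low 0)) 
(.y 489 (.z 466 (.lf (.two (.lf 0 131 19 112) (.lm 19 0 13 17 22 16 6))) 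
(.lf (.two (.pot 0) (.lm 17 0 13 11 20 16 6)))) 
(.lf (.two (.lf 0 131 18 113) (.lm 18 0 12 17 22 14 9))))) (.lf (.low 0))))))) (.y 472 
(.lf (.two (.pot 0) (.lf 15 0 21 0))) (.a 168 (.lf (.low 0)) (.z 483 (.y 483 (.t 80 (.a 174 
(.lf (.low 0)) (.z 477 (.y 477 (.t 72 (.lf (.tipb 17 17 3)) (.a 177 (.lf (.low 0)) (.z 474 
(.y 474 (.t 76 (.a 178 (.lf (.low 0)) (.t 74 (.a 179 (.lf (.low 0)) 
(.lf (.dir (.lf 0 131 16 114)))) (.lf (.low 0)))) (.lf (.low 0))) (.t 76 (.a 178 (.lf (.low 0)) 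
(.y 475 (.t 74 (.lf (.tipb 17 16 2)) (.lf (.low 0))) (.t 74 (.lf (.tipb 17 16 3)) 
(.lf (.low 0))))) (.lf (.low 0)))) (.y 474 (.lf (.two (.pot 0) (.lf 16 0 17 0))) (.t 76 
(.a 178 (.lf (.low 0)) (.z 475 (.y 475 (.t 74 (.lf (.tipb 16 16 1)) (.lf (.low 0))) 
(.lf (.tipb 17 16 2))) (.lf (.tipb 16 17 1)))) (.lf (.low 0))))))) (.t 72 (.lf (.tipb 17 15 6)) 
(.a 177 (.lf (.low 0)) (.y 480 (.z 474 (.t 76 (.lf (.tipb 17 16 4)) (.lf (.low 0))) (.t 76 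
(.lf (.tipb 17 16 3)) (.lf (.low 0)))) (.z 474 (.lf (.two (.pot 0) (.lm 17 0 15 6 19 17 3))) 
(.lf (.tipb 17 16 5))))))) (.y 477 (.lf (.two (.pot 0) (.lf 15 0 16 0))) (.lf (.tipb 16 16 3))))) 
(.lf (.low 0))) (.t 80 (.a 174 (.lf (.low 0)) (.y 489 (.lf (.tipb 18 15 9)) 
(.lf (.tipb 18 13 12)))) (.lf (.low 0)))) (.y 483 (.lf (.two (.pot 0) (.lf 13 0 16 0))) 
(.lf (.tipb 16 16 6)))))))) (.a 157 (.lf (.low 0)) (.z 472 (.y 517 (.a 168 (.lf (.low 0)) 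
(.z 461 (.lf (.two (.lf 0 131 22 109) (.lm 22 0 8 34 28 13 17))) (.y 506 (.t 80 
(.lf (.two (.pot 0) (.lm 18 0 10 23 22 12 11))) (.lf (.low 0))) 
(.lf (.two (.pot 0) (.lm 19 1 7 33 25 9 11)))))) (.a 168 (.lf (.low 0)) 
(.lf (.two (.lf 0 131 21 110) (.lm 21 5 2 40 28 7 23))))) (.y 517 (.a 168 (.lf (.low 0)) 
(.z 483 (.y 506 (.lf (.two (.pot 0) (.lm 16 0 10 12 21 13 11))) (.lf (.tipb 20 8 23))) 
(.lf (.tipb 16 12 17)))) (.lf (.tipb 20 6 34)))))) (.y 495 (.lf (.two (.pot 0) (.lf 5 0 18 0))) 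
(.lf (.tipb 13 13 23)))))))) (.a 90 (.lf .inf) (.z 450 (.y 630 (.a 135 (.lf .inf) (.z 405 
(.y 585 (.a 157 (.lf .inf) (.z 382 (.y 562 (.a 168 (.lf .inf) 
(.lf (.two (.lm 0 107 35 73 2 42 17) (.lm 35 62 0 96 42 2 22)))) (.lf .inf)) (.y 562 (.a 168 
(.lf .inf) (.lf (.two (.lf 0 117 33 85) (.lm 33 51 0 84 42 2 23)))) (.lf .inf)))) (.lf .inf)) 
(.y 585 (.a 157 (.lf .inf) (.z 427 (.y 562 (.a 168 (.lf .inf) 
(.lf (.two (.lf 0 128 30 97) (.lm 30 40 0 73 39 2 22)))) (.lf .inf)) (.y 562 (.a 168 (.lf .inf) 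
(.lf (.two (.lf 0 131 26 105) (.lm 26 30 0 60 34 2 23)))) (.lf .inf)))) (.lf .inf)))) 
(.lf .inf)) (.y 630 (.a 135 (.lf .inf) (.z 495 (.y 585 (.a 157 (.lf .inf) (.z 472 (.y 562 
(.lf (.two (.lf 0 131 21 110) (.lm 21 20 0 48 28 2 22))) (.lf .inf)) (.y 562 
(.lf (.tipb 20 1 45)) (.lf .inf)))) (.lf .inf)) (.y 585 (.lf (.tipb 13 2 45)) (.lf .inf)))) 
(.lf .inf))))) (.y 540 (.lf (.two (.pot 0) (.lf 0 0 23 0))) (.a 90 (.lf .inf) (.z 630 (.y 630 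
(.lf (.tipb 5 5 45)) (.lf .inf)) (.lf (.low 1))))))

theorem h8 : chk (leafR PP TD2 64 0) c8 64 96 0 180 360 720 360 720 = true := by
  decide +kernel

def c9 : Tree :=
  (.y 450 (.a 225 (.z 405 (.y 405 (.lf .inf) (.lf (.dir (.lf 5 101 28 79)))) 
(.lf (.two (.lf 5 101 28 79) (.lm 28 0 32 0 39 46 23)))) (.lf .inf)) (.a 225 (.z 405 (.y 495 
(.a 202 (.z 382 (.lf (.two (.lm 2 95 35 63 7 42 22) (.lm 35 19 18 49 42 29 34))) (.y 472 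
(.lf (.two (.lf 2 105 33 75) (.lm 33 7 21 38 42 28 23))) 
(.lf (.two (.lf 2 105 33 75) (.lm 33 18 15 49 42 21 23))))) (.z 382 
(.lf (.two (.lm 8 82 35 53 13 42 23) (.lm 35 19 18 49 42 29 34))) (.y 472 
(.lf (.dir (.lf 8 119 21 106))) 
(.lf (.two (.lm 8 91 33 66 13 42 23) (.lm 33 18 15 49 42 21 23)))))) (.a 202 (.z 382 
(.lf (.two (.lm 2 95 35 63 7 42 22) (.lm 35 40 5 73 42 14 34))) (.y 517 
(.lf (.two (.lf 2 105 33 75) (.lm 33 29 8 61 42 13 23))) 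
(.lf (.two (.lf 2 105 33 75) (.lm 33 39 2 73 42 7 23))))) (.z 382 
(.lf (.two (.lm 8 82 35 53 13 42 23) (.lm 35 40 5 73 42 14 34))) (.y 517 
(.lf (.two (.lm 8 91 33 66 13 42 23) (.lm 33 29 8 61 42 13 23))) 
(.lf (.two (.lm 8 91 33 66 13 42 23) (.lm 33 39 2 73 42 7 23))))))) (.y 495 (.a 202 (.z 427 
(.y 472 (.lf (.two (.lf 2 115 30 88) (.lm 30 0 21 23 39 28 22))) 
(.lf (.two (.lf 2 115 30 88) (.lm 30 4 15 41 39 21 23)))) (.y 472 (.z 438 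
(.lf (.two (.lf 2 125 27 100) (.lm 27 0 21 12 34 28 17))) 
(.lf (.two (.lf 2 129 25 106) (.lm 25 0 21 0 31 28 17)))) 
(.lf (.two (.lf 2 124 26 101) (.lm 26 0 15 22 34 21 23))))) (.z 427 (.y 472 
(.lf (.dir (.lf 8 119 21 106))) (.lf (.two (.lf 8 101 30 79) (.lm 30 4 15 41 39 21 23)))) 
(.y 472 (.lf (.dir (.lf 8 119 21 106))) 
(.lf (.two (.lf 8 110 26 92) (.lm 26 0 15 22 34 21 23)))))) (.a 202 (.z 427 (.y 517 
(.lf (.two (.lf 2 115 30 88) (.lm 30 17 8 51 39 13 22))) 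
(.lf (.two (.lf 2 115 30 88) (.lm 30 28 2 62 39 7 23)))) (.y 517 
(.lf (.two (.lf 2 124 26 101) (.lm 26 3 8 42 34 13 23))) 
(.lf (.two (.lf 2 124 26 101) (.lm 26 16 2 51 34 7 23))))) (.z 427 (.y 517 
(.lf (.two (.lf 8 101 30 79) (.lm 30 17 8 51 39 13 22))) 
(.lf (.two (.lf 8 101 30 79) (.lm 30 28 2 62 39 7 23)))) (.y 517 
(.lf (.two (.lf 8 110 26 92) (.lm 26 3 8 42 34 13 23))) 
(.lf (.two (.lf 8 110 26 92) (.lm 26 16 2 51 34 7 23)))))))) (.z 405 (.y 495 (.a 247 (.z 382 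
(.lf (.two (.lm 14 68 35 45 21 42 22) (.lm 35 19 18 49 42 29 34))) 
(.lf (.two (.lm 14 78 33 57 21 42 23) (.lm 33 3 18 42 42 29 34)))) (.lf .inf)) (.a 247 (.z 382 
(.lf (.two (.lm 14 68 35 45 21 42 22) (.lm 35 40 5 73 42 14 34))) 
(.lf (.two (.lm 14 78 33 57 21 42 23) (.lm 33 27 5 63 42 14 34)))) 
(.lf (.two (.lm 20 55 34 35 28 43 34) (.lm 34 26 5 64 43 14 45))))) (.y 495 (.a 247 (.z 427 
(.y 472 (.lf .inf) (.lf (.two (.lf 14 87 30 71) (.lm 30 4 15 41 39 21 23)))) (.y 472 (.lf .inf) 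
(.lf (.two (.lf 14 96 26 84) (.lm 26 0 15 22 34 21 23))))) (.lf .inf)) (.a 247 (.z 427 
(.lf (.two (.lf 14 87 30 71) (.lm 30 15 5 53 39 14 34))) 
(.lf (.two (.lf 14 96 26 84) (.lm 26 0 5 45 34 14 34)))) (.z 427 
(.lf (.two (.lm 20 73 30 62 28 39 23) (.lm 30 15 5 53 39 14 34))) 
(.lf (.two (.lf 20 81 26 76) (.lm 26 0 5 45 34 14 34)))))))))

theorem h9 : chk (leafR PP TD2 64 0) c9 64 96 180 270 360 450 360 540 = true := by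
  decide +kernel

def c10 : Tree :=
  (.a 225 (.z 495 (.lf (.two (.lf 5 119 18 106) (.lf 18 0 32 0))) (.lf .inf)) (.lf .inf))

theorem h10 : chk (leafR PP TD2 64 0) c10 64 96 180 270 450 540 360 450 = true := by
  decide +kernel

def c11 : Tree :=
  (.z 495 (.y 495 (.a 202 (.z 472 (.y 472 (.a 191 (.z 461 
(.lf (.two (.lf 0 130 22 109) (.lm 22 0 21 0 28 28 11))) (.y 461 
(.lf (.dir (.lf 0 130 22 109))) (.t 80 (.lf (.dir (.lf 1 129 18 113))) 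
(.lf (.dir (.lf 0 131 20 110)))))) (.lf (.dir (.lf 3 127 21 110)))) (.y 483 (.a 191 (.z 461 
(.lf (.two (.lf 0 130 22 109) (.lm 22 0 16 11 28 21 11))) (.t 80 (.a 185 (.z 466 
(.lf (.two (.lf 0 130 19 112) (.lm 19 0 15 6 22 19 8))) (.y 477 
(.lf (.two (.lf 0 130 17 113) (.lm 17 0 16 0 20 19 6))) 
(.lf (.two (.lf 0 130 17 113) (.lm 17 0 15 5 20 17 6))))) 
(.lf (.two (.lf 2 129 18 113) (.lm 18 0 15 0 22 19 11)))) (.a 185 (.z 466 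
(.lf (.two (.lf 0 131 21 110) (.lm 21 0 17 6 24 21 8))) (.y 477 
(.lf (.two (.lf 0 131 20 111) (.lm 20 0 18 0 23 21 6))) 
(.lf (.two (.lf 0 131 20 111) (.lm 20 0 16 5 23 19 6))))) (.z 466 
(.lf (.two (.lf 0 130 21 110) (.lm 21 0 17 6 24 21 8))) 
(.lf (.two (.lf 0 130 20 111) (.lm 20 0 17 0 23 21 9))))))) (.z 461 
(.lf (.two (.lf 3 127 22 109) (.lm 22 0 16 11 28 21 11))) 
(.lf (.two (.lf 3 127 19 112) (.lm 19 0 16 0 25 21 11))))) (.a 191 (.z 461 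
(.lf (.two (.lf 0 130 22 109) (.lm 22 0 13 22 28 17 12))) (.t 80 
(.lf (.two (.lf 1 129 18 113) (.lm 18 0 12 11 22 16 12))) 
(.lf (.two (.lf 0 131 20 110) (.lm 20 0 14 11 24 17 12))))) 
(.lf (.two (.lf 3 127 21 110) (.lm 21 0 13 11 28 17 17)))))) (.y 472 
(.lf (.two (.pot 0) (.lf 15 0 21 0))) (.z 483 (.y 483 (.a 191 (.t 80 (.a 185 (.z 477 (.y 477 
(.t 72 (.lf (.tipb 17 17 3)) (.a 182 (.z 474 
(.lf (.two (.lf 0 131 17 114) (.lm 17 0 17 0 19 19 3))) (.y 474 (.lf (.dir (.lf 0 131 17 114))) 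
(.t 76 (.z 475 (.y 475 (.t 74 (.lf (.tipb 16 16 1)) (.lf (.dir (.lf 0 131 16 114)))) 
(.lf (.tipb 17 16 2))) (.lf (.tipb 16 17 1))) (.z 475 
(.lf (.two (.lf 0 131 17 114) (.lm 17 0 17 0 18 18 2))) (.y 475 (.lf (.dir (.lf 0 131 17 114))) 
(.t 78 (.a 181 (.lf (.low 0)) (.z 476 (.y 476 (.t 77 (.lf (.tipb 17 17 1)) 
(.lf (.dir (.lf 0 131 16 114)))) (.lf (.tipb 17 16 1))) (.lf (.tipb 16 17 1)))) (.lf (.low 0)))))))) 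
(.z 474 (.lf (.two (.lf 0 130 17 114) (.lm 17 0 17 0 19 19 3))) (.y 474 
(.lf (.dir (.lf 0 130 17 114))) (.t 76 (.a 183 (.z 475 
(.lf (.two (.lf 0 130 16 114) (.lm 16 0 16 0 18 18 2))) (.lf (.tipb 16 17 1))) (.z 475 
(.lf (.two (.lf 0 130 16 114) (.lm 16 0 16 0 18 18 2))) (.lf (.tipb 16 17 1)))) (.a 183 
(.z 475 (.lf (.two (.lf 0 131 17 114) (.lm 17 0 17 0 18 18 2))) (.y 475 
(.lf (.dir (.lf 0 131 17 114))) (.t 78 (.z 476 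
(.lf (.two (.lf 0 131 16 114) (.lm 16 0 16 0 18 18 1))) (.lf (.tipb 16 17 1))) (.z 476 
(.lf (.two (.lf 0 131 17 114) (.lm 17 0 17 0 18 18 1))) (.y 476 (.lf (.dir (.lf 0 131 17 114))) 
(.lf (.tipb 17 17 1))))))) (.z 475 (.lf (.two (.lf 0 130 17 114) (.lm 17 0 17 0 18 18 2))) 
(.y 475 (.lf (.dir (.lf 0 130 17 114))) (.t 78 (.a 184 (.z 476 
(.lf (.two (.lf 0 130 16 114) (.lm 16 0 16 0 18 18 1))) (.lf (.tipb 16 17 1))) (.z 476 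
(.lf (.two (.lf 0 130 16 114) (.lm 16 0 16 0 18 18 1))) (.lf (.tipb 16 17 1)))) 
(.lf (.dir (.lf 0 130 17 114)))))))))))) (.t 72 (.lf (.tipb 17 15 6)) (.y 480 (.a 182 (.z 474 
(.lf (.two (.lf 0 131 17 114) (.lm 17 0 16 3 19 17 3))) (.t 76 (.lf (.tipb 17 16 3)) (.z 475 
(.lf (.two (.pot 0) (.lm 17 0 16 2 18 17 2))) (.y 478 (.t 78 (.lf (.tipb 17 16 2)) 
(.lf (.low 0))) (.lf (.tipb 17 16 3)))))) (.z 474 
(.lf (.two (.lf 0 130 17 114) (.lm 17 0 16 3 19 17 3))) (.t 76 (.lf (.tipb 17 16 3)) (.a 183 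
(.z 475 (.lf (.two (.pot 0) (.lm 17 0 16 2 18 17 2))) (.y 478 (.t 78 (.lf (.tipb 17 16 2)) 
(.lf (.tipb 17 16 2))) (.lf (.tipb 17 16 3)))) (.z 475 
(.lf (.two (.pot 0) (.lm 17 0 16 2 18 17 2))) (.y 478 (.t 78 (.lf (.tipb 17 16 2)) 
(.lf (.tipb 17 16 2))) (.lf (.tipb 17 16 3)))))))) (.a 182 (.z 474 
(.lf (.two (.pot 0) (.lm 17 0 15 6 19 17 3))) (.lf (.tipb 17 16 5))) (.z 474 
(.lf (.two (.pot 0) (.lm 17 0 15 6 19 17 3))) (.lf (.tipb 17 16 5))))))) (.y 477 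
(.lf (.two (.pot 0) (.lf 15 0 16 0))) (.lf (.tipb 16 16 3)))) (.z 477 (.y 477 (.t 72 
(.lf (.tipb 17 17 3)) (.a 188 (.z 474 (.lf (.two (.lf 1 129 17 114) (.lm 17 0 17 0 19 19 3))) 
(.y 474 (.lf (.dir (.lf 1 129 17 114))) (.t 76 (.a 186 (.z 475 
(.lf (.two (.lf 1 130 16 114) (.lm 16 0 16 0 18 18 2))) (.lf (.tipb 16 17 1))) 
(.lf (.dir (.lf 1 129 16 115)))) (.lf (.dir (.lf 1 130 17 114)))))) 
(.lf (.dir (.lf 2 129 17 114))))) (.t 72 (.lf (.tipb 17 15 6)) (.a 188 (.y 480 (.z 474 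
(.lf (.two (.lf 1 129 17 114) (.lm 17 0 16 3 19 17 3))) (.t 76 (.lf (.tipb 17 16 3)) 
(.lf (.two (.lf 1 130 17 114) (.lm 17 0 16 0 18 17 3))))) (.z 474 
(.lf (.two (.pot 0) (.lm 17 0 15 6 19 17 3))) (.lf (.tipb 17 16 5)))) 
(.lf (.two (.lf 2 129 17 114) (.lm 17 0 15 0 19 17 6)))))) (.y 477 
(.lf (.two (.pot 0) (.lf 15 0 16 0))) (.lf (.tipb 16 16 3))))) (.a 185 (.z 477 (.y 477 (.t 88 
(.a 182 (.lf (.low 0)) (.z 474 (.lf (.two (.lf 0 131 18 113) (.lm 18 0 18 0 20 20 3))) 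
(.lf (.two (.lf 0 131 17 113) (.lm 17 0 18 0 19 20 2))))) (.lf (.low 0))) (.t 88 (.y 480 
(.a 182 (.lf (.low 0)) (.z 474 (.lf (.two (.lf 0 131 18 113) (.lm 18 0 16 3 20 18 3))) (.t 84 
(.a 183 (.z 475 (.lf (.two (.lf 0 131 17 113) (.lm 17 0 16 2 19 18 2))) (.y 478 
(.lf (.two (.lf 0 131 17 114) (.lm 17 0 16 0 18 18 2))) 
(.lf (.two (.lf 0 131 17 114) (.lm 17 0 16 1 18 18 2))))) 
(.lf (.two (.lf 0 131 17 114) (.lm 17 0 16 0 19 18 3)))) 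
(.lf (.two (.lf 0 131 17 113) (.lm 17 0 17 0 19 18 3)))))) (.a 182 (.lf (.low 0)) 
(.lf (.two (.lf 0 131 18 113) (.lm 18 0 16 3 20 17 4))))) (.lf (.low 0)))) (.y 477 
(.lf (.two (.pot 0) (.lf 16 0 18 0))) (.t 88 (.z 480 (.y 480 (.a 182 (.lf (.low 0)) (.t 84 
(.a 183 (.z 478 (.y 478 (.t 82 (.lf (.tipb 17 17 1)) (.lf (.low 0))) (.t 82 
(.lf (.tipb 17 16 2)) (.lf (.low 0)))) (.y 478 (.lf (.two (.pot 0) (.lf 16 0 16 0))) 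
(.lf (.tipb 17 17 1)))) (.z 478 (.y 478 (.t 82 (.lf (.tipb 17 17 1)) 
(.lf (.dir (.lf 0 131 17 114)))) (.t 82 (.lf (.tipb 17 16 2)) 
(.lf (.two (.lf 0 131 17 114) (.lm 17 0 16 0 18 18 2))))) (.y 478 
(.lf (.two (.pot 0) (.lf 16 0 16 0))) (.lf (.tipb 17 17 1))))) (.a 183 (.lf (.low 0)) (.z 478 
(.lf (.two (.lf 0 131 17 114) (.lm 17 0 17 0 18 18 2))) (.y 478 (.lf (.dir (.lf 0 131 17 114))) 
(.t 86 (.a 184 (.lf (.low 0)) (.z 479 (.lf (.two (.lf 0 131 16 114) (.lm 16 0 16 0 18 18 1))) 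
(.lf (.tipb 16 17 1)))) (.lf (.low 0)))))))) (.a 182 (.lf (.low 0)) (.t 84 
(.lf (.tipb 17 16 3)) (.a 183 (.lf (.low 0)) (.z 478 
(.lf (.two (.pot 0) (.lm 17 0 16 2 18 17 2))) (.y 481 (.t 86 (.lf (.tipb 17 16 2)) 
(.lf (.low 0))) (.lf (.tipb 17 16 3)))))))) (.y 480 (.lf (.two (.pot 0) (.lf 16 0 16 0))) 
(.lf (.tipb 16 16 2)))) (.lf (.low 0))))) (.z 477 (.y 477 (.lf (.dir (.lf 0 130 18 113))) 
(.t 88 (.a 188 (.y 480 (.lf (.two (.lf 0 130 18 113) (.lm 18 0 16 0 20 18 4))) 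
(.lf (.two (.lf 0 130 18 113) (.lm 18 0 16 3 20 17 4)))) 
(.lf (.two (.lf 1 129 18 113) (.lm 18 0 16 0 20 18 6)))) 
(.lf (.two (.lf 0 131 18 112) (.lm 18 0 17 0 21 19 6))))) (.y 477 
(.lf (.dir (.lf 0 130 18 113))) (.t 88 (.a 188 (.z 480 (.y 480 (.t 84 (.a 186 (.z 478 (.y 478 
(.lf (.dir (.lf 0 130 16 114))) (.t 82 (.lf (.tipb 17 16 2)) 
(.lf (.two (.lf 0 130 17 114) (.lm 17 0 16 0 18 18 2))))) (.y 478 
(.lf (.dir (.lf 0 130 16 114))) (.lf (.tipb 17 17 1)))) (.z 478 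
(.lf (.two (.lf 0 130 16 114) (.lm 16 0 16 0 18 18 2))) (.y 478 (.lf (.dir (.lf 0 130 16 114))) 
(.lf (.tipb 17 17 1))))) (.a 186 (.z 478 
(.lf (.two (.lf 0 131 17 114) (.lm 17 0 17 0 18 18 2))) (.y 478 (.lf (.dir (.lf 0 131 17 114))) 
(.t 86 (.z 479 (.lf (.two (.lf 0 131 16 114) (.lm 16 0 16 0 18 18 1))) (.lf (.tipb 16 17 1))) 
(.lf (.dir (.lf 0 131 17 114)))))) (.z 478 
(.lf (.two (.lf 0 130 17 114) (.lm 17 0 17 0 18 18 2))) (.y 478 (.lf (.dir (.lf 0 130 17 114))) 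
(.t 86 (.a 187 (.z 479 (.lf (.two (.lf 0 130 16 114) (.lm 16 0 16 0 18 18 1))) 
(.lf (.tipb 16 17 1))) (.z 479 (.lf (.two (.lf 0 130 16 114) (.lm 16 0 16 0 18 18 1))) 
(.lf (.tipb 16 17 1)))) (.lf (.dir (.lf 0 130 17 114)))))))) (.t 84 (.lf (.tipb 17 16 3)) 
(.a 186 (.z 478 (.lf (.two (.pot 0) (.lm 17 0 16 2 18 17 2))) (.y 481 (.t 86 
(.lf (.tipb 17 16 2)) (.lf (.two (.lf 0 131 17 114) (.lm 17 0 16 0 18 17 2)))) 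
(.lf (.tipb 17 16 3)))) (.z 478 (.lf (.two (.pot 0) (.lm 17 0 16 2 18 17 2))) (.y 481 (.t 86 
(.lf (.tipb 17 16 2)) (.lf (.two (.lf 0 130 17 114) (.lm 17 0 16 0 18 17 2)))) 
(.lf (.tipb 17 16 3))))))) (.y 480 (.lf (.two (.pot 0) (.lf 16 0 16 0))) (.lf (.tipb 16 16 2)))) 
(.z 480 (.y 480 (.t 84 (.a 189 (.z 478 (.lf (.two (.lf 1 130 16 114) (.lm 16 0 16 0 18 18 2))) 
(.y 478 (.lf (.dir (.lf 1 130 16 114))) (.lf (.tipb 17 17 1)))) (.z 478 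
(.lf (.two (.lf 1 129 16 114) (.lm 16 0 16 0 18 18 2))) (.y 478 (.lf (.dir (.lf 1 129 16 114))) 
(.lf (.tipb 17 17 1))))) (.a 189 (.z 478 
(.lf (.two (.lf 0 130 17 114) (.lm 17 0 17 0 18 18 2))) (.y 478 (.lf (.dir (.lf 0 130 17 114))) 
(.t 86 (.z 479 (.lf (.two (.lf 1 130 16 114) (.lm 16 0 16 0 18 18 1))) (.lf (.tipb 16 17 1))) 
(.lf (.dir (.lf 0 130 17 114)))))) (.lf (.dir (.lf 1 129 17 114))))) (.t 84 
(.lf (.tipb 17 16 3)) (.a 189 (.z 478 (.lf (.two (.pot 0) (.lm 17 0 16 2 18 17 2))) (.y 481 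
(.t 86 (.lf (.tipb 17 16 2)) (.lf (.two (.lf 0 130 17 114) (.lm 17 0 16 0 18 17 2)))) 
(.lf (.tipb 17 16 3)))) (.z 478 (.lf (.two (.pot 0) (.lm 17 0 16 2 18 17 2))) (.y 481 
(.lf (.two (.lf 1 129 16 114) (.lm 16 0 16 0 18 17 2))) (.lf (.tipb 17 16 3))))))) (.y 480 
(.lf (.two (.pot 0) (.lf 16 0 16 0))) (.lf (.tipb 16 16 2))))) (.a 188 (.z 480 
(.lf (.two (.lf 0 131 17 114) (.lm 17 0 17 0 19 19 3))) (.y 480 (.lf (.dir (.lf 0 131 17 114))) 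
(.t 92 (.a 186 (.lf (.low 0)) (.z 481 (.y 481 (.lf (.dir (.lf 0 131 16 114))) 
(.lf (.tipb 17 16 2))) (.lf (.tipb 16 17 1)))) (.lf (.dir (.lf 0 131 16 114)))))) (.z 480 
(.lf (.two (.lf 0 130 17 114) (.lm 17 0 17 0 19 19 3))) (.y 480 (.lf (.dir (.lf 0 130 17 114))) 
(.t 92 (.a 189 (.z 481 (.lf (.two (.lf 0 130 16 114) (.lm 16 0 16 0 18 18 2))) 
(.lf (.tipb 16 17 1))) (.z 481 (.lf (.two (.lf 1 130 16 114) (.lm 16 0 16 0 18 18 2))) 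
(.lf (.tipb 16 17 1)))) (.lf (.dir (.lf 0 130 16 114)))))))))))) (.t 80 (.a 196 (.z 477 
(.lf (.two (.lf 3 127 16 115) (.lm 16 0 15 0 19 19 6))) (.y 477 (.lf (.dir (.lf 3 127 16 115))) 
(.lf (.tipb 16 16 3)))) (.z 477 (.lf (.two (.lf 4 126 16 115) (.lm 16 0 15 0 19 19 6))) 
(.y 477 (.lf (.dir (.lf 4 126 16 115))) (.lf (.tipb 16 16 3))))) (.a 196 (.z 477 
(.lf (.two (.lf 2 129 18 113) (.lm 18 0 17 0 21 21 6))) (.y 477 (.lf (.dir (.lf 2 129 18 113))) 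
(.t 88 (.z 480 (.y 480 (.a 193 (.t 84 (.z 478 
(.lf (.two (.lf 2 129 16 114) (.lm 16 0 16 0 18 18 2))) (.y 478 (.lf (.dir (.lf 2 129 16 114))) 
(.lf (.tipb 17 17 1)))) (.lf (.dir (.lf 2 129 17 114)))) (.lf (.dir (.lf 2 128 16 114)))) 
(.a 193 (.t 84 (.lf (.tipb 17 16 3)) (.lf (.two (.lf 2 129 17 114) (.lm 17 0 16 0 18 17 3)))) 
(.lf (.two (.lf 2 128 16 114) (.lm 16 0 16 0 18 17 3))))) (.y 480 
(.lf (.two (.pot 0) (.lf 16 0 16 0))) (.lf (.tipb 16 16 2)))) (.z 480 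
(.lf (.two (.lf 1 129 17 114) (.lm 17 0 17 0 19 19 3))) (.y 480 (.lf (.dir (.lf 1 129 17 114))) 
(.a 193 (.t 92 (.z 481 (.lf (.two (.lf 1 129 16 114) (.lm 16 0 16 0 18 18 2))) 
(.lf (.tipb 16 17 1))) (.lf (.dir (.lf 1 130 16 114)))) (.t 92 (.a 194 (.z 481 
(.lf (.two (.lf 2 129 16 114) (.lm 16 0 16 0 18 18 2))) (.lf (.tipb 16 17 1))) (.z 481 
(.lf (.two (.lf 2 128 16 114) (.lm 16 0 16 0 18 18 2))) (.lf (.tipb 16 17 1)))) 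
(.lf (.dir (.lf 2 129 16 114)))))))))) (.z 477 
(.lf (.two (.lf 4 127 18 113) (.lm 18 0 17 0 21 21 6))) (.y 477 (.lf (.dir (.lf 4 127 18 113))) 
(.t 88 (.a 199 (.z 480 (.lf (.two (.lf 3 127 16 114) (.lm 16 0 16 0 18 18 3))) (.y 480 
(.lf (.dir (.lf 3 127 16 114))) (.lf (.tipb 16 16 2)))) (.lf (.dir (.lf 4 126 16 115)))) 
(.a 199 (.z 480 (.lf (.two (.lf 3 128 17 114) (.lm 17 0 17 0 19 19 3))) (.y 480 
(.lf (.dir (.lf 3 128 17 114))) (.t 92 (.a 197 (.z 481 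
(.lf (.two (.lf 3 128 16 114) (.lm 16 0 16 0 18 18 2))) (.lf (.tipb 16 17 1))) (.z 481 
(.lf (.two (.lf 3 127 16 114) (.lm 16 0 16 0 18 18 2))) (.lf (.tipb 16 17 1)))) 
(.lf (.dir (.lf 3 128 16 114)))))) (.z 480 
(.lf (.two (.lf 4 127 17 114) (.lm 17 0 17 0 19 19 3))) 
(.lf (.two (.lf 4 127 16 114) (.lm 16 0 17 0 18 19 2))))))))))) (.a 191 (.t 80 (.y 489 
(.lf (.tipb 18 15 9)) (.lf (.tipb 18 13 12))) (.y 489 (.a 185 (.z 477 (.t 88 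
(.lf (.two (.lf 0 131 18 113) (.lm 18 0 14 6 20 16 6))) (.lf (.low 0))) (.t 88 
(.lf (.tipb 17 15 6)) (.lf (.low 0)))) (.z 477 
(.lf (.two (.lf 0 130 18 113) (.lm 18 0 15 6 21 17 6))) (.t 88 (.lf (.tipb 17 15 6)) (.a 188 
(.z 480 (.lf (.two (.lf 0 131 17 114) (.lm 17 0 15 3 19 17 5))) (.y 486 (.lf (.tipb 17 16 3)) 
(.lf (.tipb 17 15 5)))) (.z 480 (.lf (.two (.lf 0 130 17 114) (.lm 17 0 15 3 19 17 5))) 
(.y 486 (.lf (.tipb 17 16 3)) (.lf (.tipb 17 15 5)))))))) (.a 185 (.z 477 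
(.lf (.two (.pot 0) (.lm 18 0 13 12 21 15 6))) (.lf (.tipb 18 14 9))) (.z 477 
(.lf (.two (.pot 0) (.lm 18 0 13 12 21 15 6))) (.lf (.tipb 18 14 9)))))) (.t 80 (.y 489 
(.lf (.tipb 18 15 9)) (.lf (.tipb 18 13 12))) (.y 489 (.a 196 (.z 477 
(.lf (.two (.lf 2 129 18 113) (.lm 18 0 15 6 21 17 6))) (.t 88 (.lf (.tipb 17 15 6)) (.z 480 
(.lf (.two (.lf 1 129 17 114) (.lm 17 0 15 3 19 17 5))) (.y 486 (.lf (.tipb 17 16 3)) 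
(.lf (.tipb 17 15 5)))))) (.z 477 (.lf (.two (.lf 4 127 18 113) (.lm 18 0 15 6 21 17 6))) 
(.t 88 (.lf (.tipb 17 15 6)) (.a 199 (.z 480 
(.lf (.two (.lf 3 128 17 114) (.lm 17 0 15 3 19 17 5))) (.y 486 (.lf (.tipb 17 16 3)) 
(.lf (.tipb 17 15 5)))) (.z 480 (.lf (.two (.lf 4 127 17 114) (.lm 17 0 15 3 19 17 5))) 
(.y 486 (.lf (.tipb 17 16 3)) (.lf (.tipb 17 15 5)))))))) (.a 196 (.z 477 
(.lf (.two (.pot 0) (.lm 18 0 13 12 21 15 6))) (.lf (.tipb 18 14 9))) (.z 477 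
(.lf (.two (.pot 0) (.lm 18 0 13 12 21 15 6))) (.lf (.tipb 18 14 9)))))))) (.y 483 
(.lf (.two (.pot 0) (.lf 13 0 16 0))) (.lf (.tipb 16 16 6)))))) (.z 472 (.y 472 
(.lf (.dir (.lf 8 119 21 106))) (.a 213 (.y 483 (.z 461 
(.lf (.two (.lf 6 124 22 109) (.lm 22 0 16 11 28 21 11))) 
(.lf (.two (.lf 6 124 19 112) (.lm 19 0 16 0 25 21 11)))) 
(.lf (.two (.lf 6 124 21 110) (.lm 21 0 13 11 28 17 17)))) (.y 483 
(.lf (.dir (.lf 10 121 16 114))) (.lf (.two (.lf 10 118 21 107) (.lm 21 0 13 11 28 17 17)))))) 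
(.y 472 (.lf (.dir (.lf 8 119 21 106))) (.a 213 (.z 483 (.y 483 (.t 80 
(.lf (.dir (.lf 7 124 15 115))) (.lf (.dir (.lf 6 124 17 114)))) (.t 80 (.y 489 (.a 207 
(.lf (.tipb 18 15 9)) (.lf (.two (.lf 7 123 15 115) (.lm 15 0 13 0 19 16 9)))) 
(.lf (.two (.lf 7 124 15 115) (.lm 15 0 12 6 19 14 9)))) (.y 489 (.a 207 (.z 477 
(.lf (.two (.lf 5 125 18 113) (.lm 18 0 15 6 21 17 6))) 
(.lf (.two (.lf 5 125 16 114) (.lm 16 0 15 0 19 17 6)))) (.z 477 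
(.lf (.two (.lf 7 124 18 113) (.lm 18 0 15 6 21 17 6))) 
(.lf (.two (.lf 7 124 16 114) (.lm 16 0 15 0 19 17 6))))) 
(.lf (.two (.lf 6 124 17 114) (.lm 17 0 13 6 21 15 9)))))) (.y 483 
(.lf (.two (.pot 0) (.lf 13 0 16 0))) (.lf (.tipb 16 16 6)))) (.z 483 (.y 483 
(.lf (.dir (.lf 10 121 16 114))) (.t 80 
(.lf (.two (.lf 9 121 15 115) (.lm 15 0 12 0 19 16 12))) (.a 219 (.y 489 
(.lf (.two (.lf 9 122 17 114) (.lm 17 0 15 0 21 17 9))) 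
(.lf (.two (.lf 9 122 17 114) (.lm 17 0 13 6 21 15 9)))) 
(.lf (.two (.lf 11 120 17 114) (.lm 17 0 14 0 21 17 12)))))) (.y 483 
(.lf (.dir (.lf 10 121 16 114))) (.t 80 (.a 219 (.lf (.tipb 15 15 6)) 
(.lf (.dir (.lf 10 120 12 118)))) (.a 219 (.lf (.tipb 16 16 6)) (.z 489 
(.lf (.two (.lf 11 120 15 116) (.lm 15 0 14 0 17 17 6))) (.lf (.tipb 14 16 3))))))))))) 
(.a 202 (.z 472 (.y 517 (.a 191 (.z 461 
(.lf (.two (.lf 0 130 22 109) (.lm 22 0 8 34 28 13 17))) 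
(.lf (.two (.lf 0 130 19 112) (.lm 19 0 8 23 25 13 17)))) 
(.lf (.two (.lf 3 127 21 110) (.lm 21 0 8 23 28 13 22)))) 
(.lf (.two (.lf 2 129 21 110) (.lm 21 5 2 40 28 7 23)))) (.y 517 (.z 483 (.a 191 (.y 506 
(.lf (.two (.pot 0) (.lm 16 0 10 12 21 13 11))) (.lf (.tipb 20 8 23))) (.y 506 
(.lf (.two (.pot 0) (.lm 16 0 10 12 21 13 11))) (.lf (.tipb 20 8 23)))) (.lf (.tipb 16 12 17))) 
(.lf (.tipb 20 6 34)))) (.z 472 (.y 517 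
(.lf (.two (.lf 8 119 21 106) (.lm 21 0 8 23 28 13 22))) 
(.lf (.two (.lf 8 119 21 106) (.lm 21 5 2 40 28 7 23)))) (.y 517 (.a 213 (.z 483 
(.lf (.two (.lf 6 124 16 114) (.lm 16 0 8 12 21 13 17))) (.lf (.tipb 16 12 17))) (.z 483 
(.lf (.two (.lf 10 121 16 114) (.lm 16 0 8 12 21 13 17))) (.y 506 (.t 80 (.a 219 
(.lf (.tipb 15 11 12)) (.lf (.two (.lf 10 120 12 118) (.lm 12 0 10 0 16 12 12)))) (.a 219 
(.lf (.tipb 16 12 12)) (.z 489 (.lf (.two (.lf 11 120 15 116) (.lm 15 0 10 6 17 13 9))) 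
(.lf (.tipb 14 12 9))))) (.lf (.two (.lf 10 121 13 118) (.lm 13 0 7 11 17 9 12)))))) 
(.lf (.two (.lf 8 122 15 116) (.lm 15 0 2 22 21 7 23))))))) (.y 495 
(.lf (.two (.pot 0) (.lf 5 0 18 0))) (.lf (.tipb 13 13 23))))

theorem h11 : chk (leafR PP TD2 64 0) c11 64 96 180 225 450 540 450 540 = true := by
  decide +kernel

def c12 : Tree :=
  (.z 495 (.y 495 (.a 247 (.z 472 (.y 472 (.lf .inf) (.y 483 (.lf .inf) 
(.lf (.two (.lf 14 104 21 99) (.lm 21 0 13 11 28 17 17))))) (.y 472 (.lf .inf) (.z 483 (.y 483 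
(.lf .inf) (.lf (.two (.lf 14 113 16 112) (.lm 16 0 13 0 21 17 12)))) (.y 483 (.lf .inf) 
(.a 236 (.t 80 (.lf (.dir (.lf 12 118 12 118))) (.z 489 
(.lf (.two (.lf 13 117 15 116) (.lm 15 0 14 0 17 17 6))) (.y 489 
(.lf (.dir (.lf 13 117 15 116))) (.lf (.dir (.lf 13 117 13 118)))))) (.lf .inf)))))) (.lf .inf)) 
(.a 247 (.z 472 (.y 517 (.lf (.two (.lf 14 104 21 99) (.lm 21 0 8 23 28 13 22))) 
(.lf (.two (.lf 14 104 21 99) (.lm 21 5 2 40 28 7 23)))) (.y 517 (.z 483 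
(.lf (.two (.lf 14 113 16 112) (.lm 16 0 8 12 21 13 17))) (.a 236 (.y 506 (.t 80 
(.lf (.two (.lf 12 118 12 118) (.lm 12 0 10 0 16 12 12))) (.z 489 
(.lf (.two (.lf 13 117 15 116) (.lm 15 0 10 6 17 13 9))) 
(.lf (.two (.lf 13 117 13 118) (.lm 13 0 10 0 15 13 9))))) 
(.lf (.two (.lf 13 118 13 118) (.lm 13 0 7 11 17 9 12)))) 
(.lf (.two (.lf 16 115 13 118) (.lm 13 0 8 0 17 13 17))))) 
(.lf (.two (.lf 14 113 15 112) (.lm 15 0 2 22 21 7 23))))) (.z 472 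
(.lf (.two (.lf 20 90 21 90) (.lm 21 0 5 23 28 14 34))) (.y 517 (.lf (.dir (.lf 20 107 8 118))) 
(.lf (.two (.lf 20 98 15 104) (.lm 15 0 2 22 21 7 23))))))) (.y 495 (.a 247 (.z 517 (.y 472 
(.lf .inf) (.y 483 (.lf .inf) (.a 236 (.z 506 (.t 80 (.lf (.dir (.lf 12 118 12 118))) (.y 489 
(.lf .inf) (.lf (.dir (.lf 13 117 13 118))))) (.lf .inf)) (.lf .inf)))) (.lf .inf)) (.lf .inf)) 
(.a 247 (.z 517 (.y 517 (.a 236 (.z 506 (.y 506 (.t 80 (.a 230 (.lf (.tipb 11 11 6)) 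
(.lf (.dir (.lf 13 118 10 121)))) (.a 230 (.lf (.tipb 12 12 6)) (.z 500 (.y 500 
(.lf (.dir (.lf 14 117 11 120))) (.lf (.two (.lf 14 117 11 120) (.lm 11 0 9 0 13 11 6)))) 
(.lf (.tipb 10 12 3))))) (.t 80 (.a 230 (.lf (.tipb 11 8 11)) 
(.lf (.two (.lf 13 118 10 121) (.lm 10 0 7 0 12 9 11)))) (.a 230 (.lf (.tipb 12 8 11)) (.z 500 
(.lf (.two (.lf 14 117 11 120) (.lm 11 0 6 6 13 9 8))) (.lf (.tipb 10 8 9)))))) 
(.lf (.tipb 8 12 6))) (.z 506 (.y 506 (.lf (.dir (.lf 16 115 10 121))) 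
(.lf (.two (.lf 16 115 10 121) (.lm 10 0 7 0 13 9 11)))) (.y 506 
(.lf (.dir (.lf 16 115 10 121))) (.t 80 (.lf (.dir (.lf 15 116 7 124))) (.a 241 
(.lf (.tipb 8 8 6)) (.lf (.dir (.lf 18 113 6 124)))))))) (.y 528 (.a 236 (.z 506 
(.lf (.two (.lf 13 118 10 121) (.lm 10 0 4 11 13 7 11))) (.lf (.tipb 8 6 11))) (.z 506 
(.lf (.two (.lf 16 115 10 121) (.lm 10 0 4 11 13 7 11))) (.t 80 
(.lf (.two (.lf 15 116 7 124) (.lm 7 0 4 0 9 7 11))) (.a 241 (.lf (.tipb 8 5 11)) 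
(.lf (.dir (.lf 18 113 3 127))))))) (.lf (.two (.lf 14 116 8 122) (.lm 8 0 0 11 13 4 17))))) 
(.lf (.tipb 6 13 12))) (.z 517 (.lf (.two (.lf 20 107 8 118) (.lm 8 0 5 0 13 14 23))) (.y 517 
(.lf (.dir (.lf 20 107 8 118))) (.a 258 (.z 528 (.y 528 (.lf (.dir (.lf 19 112 4 127))) 
(.lf (.two (.lf 19 112 4 127) (.lm 4 0 0 0 7 4 12)))) (.lf (.tipb 3 6 6))) 
(.lf (.dir (.lf 22 109 2 129)))))))))

theorem h12 : chk (leafR PP TD2 64 0) c12 64 96 225 270 450 540 450 540 = true := by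
  decide +kernel

def c13 : Tree :=
  (.z 450 (.y 450 (.lf .inf) (.a 315 (.z 405 (.y 495 (.lf .inf) (.lf (.dir (.lf 28 79 5 101)))) 
(.y 495 (.lf .inf) (.lf (.dir (.lf 28 79 5 101))))) (.lf .inf))) (.y 450 (.lf .inf) (.a 315 
(.z 495 (.y 495 (.lf .inf) (.lf (.dir (.lf 28 79 5 101)))) (.y 495 (.lf .inf) 
(.lf (.dir (.lf 28 79 5 101))))) (.lf .inf))))

theorem h13 : chk (leafR PP TD2 64 0) c13 64 96 270 360 360 540 360 540 = true := by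
  decide +kernel

def c14 : Tree :=
  (.a 270 (.z 450 (.y 630 (.a 225 (.z 405 (.y 585 (.a 202 (.z 382 (.y 562 
(.lf (.two (.lm 2 95 35 63 7 42 22) (.lm 35 62 0 96 42 2 22))) (.lf (.low 2))) (.y 562 
(.lf (.two (.lf 2 105 33 75) (.lm 33 51 0 84 42 2 23))) (.lf (.low 2)))) (.z 382 (.y 562 
(.lf (.two (.lm 8 82 35 53 13 42 23) (.lm 35 62 0 96 42 2 22))) (.lf (.low 2))) (.y 562 
(.lf (.two (.lm 8 91 33 66 13 42 23) (.lm 33 51 0 84 42 2 23))) (.lf (.low 2))))) 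
(.lf (.low 2))) (.y 585 (.a 202 (.z 427 (.y 562 
(.lf (.two (.lf 2 115 30 88) (.lm 30 40 0 73 39 2 22))) (.lf (.low 2))) (.y 562 
(.lf (.two (.lf 2 124 26 101) (.lm 26 30 0 60 34 2 23))) (.lf (.low 2)))) (.z 427 (.y 562 
(.lf (.two (.lf 8 101 30 79) (.lm 30 40 0 73 39 2 22))) (.lf (.low 2))) 
(.lf (.two (.lf 8 110 26 92) (.lm 26 30 0 60 34 3 34))))) (.lf (.low 2)))) (.z 405 (.y 585 
(.a 247 (.z 382 (.lf (.two (.lm 14 68 35 45 21 42 22) (.lf 35 62 0 96))) 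
(.lf (.two (.lm 14 78 33 57 21 42 23) (.lm 33 51 0 84 42 3 34)))) 
(.lf (.two (.lm 20 55 34 35 28 43 34) (.lf 34 50 0 85)))) (.lf (.low 2))) (.y 585 (.a 247 
(.z 427 (.lf (.two (.lf 14 87 30 71) (.lm 30 40 0 73 39 3 34))) 
(.lf (.two (.lf 14 96 26 84) (.lm 26 30 0 60 34 3 34)))) 
(.lf (.two (.lf 20 72 28 63) (.lm 28 28 0 62 39 3 45)))) (.lf (.low 2))))) (.lf (.low 2))) 
(.y 630 (.a 225 (.z 495 (.y 585 (.a 202 (.z 472 (.y 562 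
(.lf (.two (.lf 2 129 21 110) (.lm 21 20 0 48 28 2 22))) (.lf (.low 2))) (.y 562 
(.lf (.tipb 20 1 45)) (.lf (.low 2)))) (.z 472 
(.lf (.two (.lf 8 119 21 106) (.lm 21 20 0 48 28 3 34))) 
(.lf (.two (.lf 8 122 15 116) (.lm 15 10 0 35 21 3 34))))) (.lf (.low 2))) (.y 585 
(.lf (.tipb 13 2 45)) (.lf (.low 2)))) (.z 495 (.y 585 (.a 247 (.z 472 
(.lf (.two (.lf 14 104 21 99) (.lm 21 20 0 48 28 3 34))) 
(.lf (.two (.lf 14 113 15 112) (.lm 15 10 0 35 21 3 34)))) 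
(.lf (.two (.lf 20 89 18 91) (.lm 18 7 0 38 29 3 45)))) (.lf (.low 2))) (.y 585 (.a 247 
(.z 517 (.lf (.two (.lf 14 116 8 122) (.lm 8 0 0 23 13 3 34))) (.lf (.tipb 6 2 34))) (.z 517 
(.lf (.two (.lf 20 107 8 118) (.lm 8 0 0 23 13 3 34))) (.y 562 (.a 258 (.z 528 
(.lf (.two (.lf 19 112 4 127) (.lm 4 0 0 12 7 2 17))) (.lf (.tipb 3 1 17))) 
(.lf (.two (.lf 22 109 2 129) (.lm 2 0 0 0 7 2 23)))) (.lf (.low 2))))) (.lf (.low 2))))) 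
(.lf (.low 2)))) (.z 450 (.y 630 (.a 315 (.z 405 (.y 585 
(.lf (.two (.lm 28 30 34 15 39 43 45) (.lf 34 50 0 85))) (.lf (.low 2))) (.y 585 
(.lf (.two (.lf 28 45 28 45) (.lm 28 28 0 62 39 3 45))) (.lf (.low 2)))) (.z 405 (.y 585 
(.lf (.dir (.lf 34 73 0 107))) (.lf (.low 2))) (.y 585 (.lf (.dir (.lf 34 73 0 107))) 
(.lf (.low 2))))) (.lf (.low 2))) (.y 630 (.a 315 (.z 495 (.y 585 
(.lf (.two (.lf 28 62 18 73) (.lm 18 7 0 38 29 3 45))) (.lf (.low 2))) (.y 585 (.a 292 (.z 517 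
(.lf (.two (.lf 26 93 8 110) (.lm 8 0 0 23 13 3 34))) 
(.lf (.two (.lf 26 101 2 124) (.lm 2 0 0 0 7 3 34)))) (.lf (.dir (.lf 30 97 0 128)))) 
(.lf (.low 2)))) (.z 495 (.y 585 (.lf (.dir (.lf 34 73 0 107))) (.lf (.low 2))) (.y 585 
(.lf (.dir (.lf 34 73 0 107))) (.lf (.low 2))))) (.lf (.low 2)))))

theorem h14 : chk (leafR PP TD2 64 0) c14 64 96 180 360 360 540 540 720 = true := by
  decide +kernel

def c15 : Tree :=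
  (.y 540 (.a 270 (.lf (.two (.pot 0) (.lf 0 0 23 0))) (.z 630 (.y 450 (.lf .inf) (.a 315 
(.z 585 (.lf (.two (.lf 28 99 0 126) (.lf 0 0 11 0))) (.lf .inf)) (.lf .inf))) (.lf .inf))) 
(.a 270 (.z 630 (.y 630 (.lf (.tipb 5 5 45)) (.lf (.low 2))) (.lf (.low 1))) (.z 630 (.y 630 
(.a 315 (.z 585 (.y 585 (.a 292 (.z 562 (.y 562 (.lf (.dir (.lf 26 105 0 131))) (.lf (.low 2))) 
(.lf (.low 1))) (.lf (.dir (.lf 30 97 0 128)))) (.lf (.low 2))) (.lf (.low 1))) (.z 585 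
(.lf (.two (.lf 34 73 0 107) (.lm 0 0 0 0 3 6 45))) (.lf (.low 1)))) (.lf (.low 2))) 
(.lf (.low 1)))))

theorem h15 : chk (leafR PP TD2 64 0) c15 64 96 180 360 540 720 360 720 = true := by
  decide +kernel

theorem main : ∃ T : Tree, chk (leafR PP TD2 64 0) T 64 96 0 360 0 720 360 720 = true :=
  ⟨_, (chk_z (chk_a h0 (chk_z h1 (chk_y (chk_a (chk_z (chk_y h2 (chk_a h3 h4)) h5) h6) h7))) (chk_a h8 (chk_z (chk_y (chk_a (chk_z h9 (chk_y h10 (chk_a h11 h12))) h13) h14) h15)))⟩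

end Pool.Agent.Helper58.LDD.R02
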