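import Pool.Agent.Helper58.LD.Comb
import Pool.Agent.Helper58.LDD.Tab

set_option autoImplicit false

namespace Pool.Agent.Helper58.LDD.R03

open Pool.Agent.Helper58.LD Pool.Agent.Helper58.LDD

set_option maxRecDepth 100000

def c0 : Tree :=
  (.z 180 (.y 540 (.a 90 (.lf (.low 0)) (.z 90 (.lf (.low 1)) (.y 450 (.a 135 (.lf (.low 0)) 
(.lf (.low 0))) (.lf (.tipa 3 3 45))))) (.a 90 (.lf .inf) (.z 90 (.lf (.low 1)) 
(.lf (.tipa 3 3 45))))) (.y 540 (.a 90 (.lf (.low 0)) (.z 270 (.y 450 (.a 135 (.lf (.low 0)) 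
(.lf (.low 0))) (.a 135 (.lf (.low 0)) (.lf (.low 0)))) (.y 450 (.a 135 (.lf (.low 0)) 
(.lf (.low 0))) (.a 135 (.lf (.low 0)) (.lf (.low 0)))))) (.a 90 (.lf .inf) (.z 270 (.y 630 
(.a 135 (.lf .inf) (.lf (.low 0))) (.lf .inf)) (.y 630 (.a 135 (.lf .inf) (.lf (.low 0))) 
(.lf .inf))))))

theorem h0 : chk (leafR PP TD3 96 0) c0 96 128 0 180 0 360 360 720 = true := by
  decide +kernel

def c1 : Tree :=
  (.y 540 (.a 270 (.z 90 (.lf .inf) (.y 450 (.a 225 (.z 135 (.lf .inf) (.lf (.low 1))) 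
(.lf .inf)) (.lf (.two (.lf 12 0 0 0) (.pot 0))))) (.lf .inf)) 
(.lf (.two (.lf 30 0 0 0) (.pot 0))))

theorem h1 : chk (leafR PP TD3 96 0) c1 96 128 180 360 0 180 360 720 = true := by
  decide +kernel

def c2 : Tree :=
  (.a 270 (.z 270 (.y 450 (.a 225 (.z 225 (.y 405 (.lf .inf) (.lf (.dir (.lf 3 107 37 73)))) 
(.y 405 (.lf .inf) (.lf (.dir (.lf 3 107 37 73))))) (.lf .inf)) (.a 225 (.z 225 (.y 495 
(.a 202 (.z 202 (.y 472 (.lf (.dir (.lf 0 131 26 105))) (.lf (.tipa 5 5 11))) (.y 472 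
(.lf (.dir (.lf 0 131 26 105))) (.z 213 (.y 483 (.a 191 
(.lf (.two (.lm 0 11 5 0 2 9 11) (.lf 5 126 19 111))) (.t 112 (.a 196 
(.lf (.two (.lm 0 6 5 0 3 9 8) (.lf 5 125 19 112))) (.z 207 (.lf (.tipa 4 6 6)) 
(.lf (.two (.lm 2 5 6 0 5 9 6) (.lf 6 124 19 112))))) (.lf (.dir (.lf 0 131 20 111))))) 
(.lf (.tipa 5 8 17))) (.lf (.two (.lm 0 11 10 0 6 13 17) (.lf 10 121 17 114)))))) (.z 202 
(.y 472 (.lf (.two (.lf 7 0 0 0) (.lf 0 131 26 105))) (.lf (.two (.lf 7 0 0 0) (.pot 0)))) 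
(.y 472 (.a 213 (.lf (.dir (.lf 5 126 26 105))) (.lf .inf)) (.a 213 (.z 213 (.y 483 (.t 112 
(.a 207 (.lf (.dir (.lf 4 126 19 112))) (.lf (.dir (.lf 6 124 19 112)))) 
(.lf (.dir (.lf 4 126 20 111)))) (.lf (.tipa 8 8 6))) (.y 483 (.t 112 
(.lf (.two (.lm 5 0 10 0 9 13 12) (.lf 10 121 19 112))) (.lf (.dir (.lf 4 126 20 111)))) 
(.t 112 (.z 219 (.lf (.tipa 8 10 9)) (.lf (.two (.lm 5 6 11 0 9 13 9) (.lf 11 120 14 116)))) 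
(.z 219 (.lf (.tipa 7 10 9)) (.lf (.two (.lm 4 6 11 0 8 13 9) (.lf 11 120 15 116))))))) 
(.z 213 (.y 483 (.t 112 (.lf (.dir (.lf 10 121 19 112))) (.lf (.dir (.lf 9 121 20 111)))) 
(.lf (.two (.lf 10 0 5 0) (.pot 0)))) (.y 483 (.t 112 (.lf (.dir (.lf 10 121 19 112))) 
(.lf (.dir (.lf 9 121 20 111)))) (.t 112 (.a 219 (.z 219 (.lf (.tipa 10 10 3)) (.y 489 (.t 104 
(.lf (.two (.lm 9 0 11 0 11 13 6) (.lf 11 120 15 115))) (.a 216 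
(.lf (.two (.lm 8 3 11 0 10 13 5) (.lf 11 120 16 115))) (.z 222 (.lf (.tipa 10 11 3)) 
(.lf (.two (.lm 9 3 11 0 11 13 3) (.lf 11 119 16 115)))))) (.lf (.tipa 10 12 6)))) (.z 219 
(.lf (.two (.lf 11 0 9 0) (.pot 0))) (.y 489 (.t 104 (.lf (.dir (.lf 11 120 15 115))) (.a 222 
(.lf (.dir (.lf 10 120 16 115))) (.lf (.dir (.lf 11 119 16 115))))) (.lf (.tipa 12 12 3))))) 
(.a 219 (.z 219 (.lf (.tipa 10 10 3)) (.y 489 (.t 120 (.a 216 (.lf (.dir (.lf 8 123 16 115))) 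
(.lf (.dir (.lf 9 122 16 115)))) (.lf (.dir (.lf 8 123 16 115)))) (.lf (.tipa 10 12 6)))) 
(.z 219 (.lf (.two (.lf 11 0 8 0) (.pot 0))) (.y 489 (.t 120 (.a 222 
(.lf (.dir (.lf 10 121 16 115))) (.lf (.dir (.lf 11 119 16 115)))) 
(.lf (.dir (.lf 11 120 16 115)))) (.lf (.tipa 12 12 3)))))))))))) (.lf (.tipa 14 14 23))) 
(.y 495 (.a 202 (.z 247 (.lf (.two (.lm 0 23 17 0 6 24 22) (.lf 17 104 21 99))) 
(.lf (.two (.lm 0 45 26 0 6 34 23) (.lf 26 88 21 92)))) (.z 247 (.y 472 (.a 213 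
(.lf (.dir (.lf 5 126 26 105))) (.lf .inf)) (.a 213 
(.lf (.two (.lm 5 12 17 0 9 24 17) (.lf 17 113 17 112))) (.y 483 (.z 236 (.t 112 
(.lf (.dir (.lf 10 121 19 112))) (.lf (.dir (.lf 9 121 20 111)))) 
(.lf (.two (.lm 10 11 19 0 13 24 12) (.lf 19 112 19 111)))) (.z 236 (.t 112 (.a 219 
(.lf (.two (.lm 9 6 14 0 11 18 9) (.lf 14 117 14 116))) (.y 489 
(.lf (.two (.lm 11 0 14 0 13 18 9) (.lf 14 117 15 115))) (.z 230 (.t 104 (.a 222 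
(.lf (.two (.lm 10 3 13 0 12 15 4) (.lf 13 118 13 118))) (.y 492 
(.lf (.two (.lm 11 0 13 0 13 15 4) (.lf 13 118 14 117))) (.lf (.tipa 12 14 4)))) (.a 222 
(.lf (.two (.lm 10 3 13 0 12 15 4) (.lf 13 118 13 117))) (.y 492 
(.lf (.two (.lm 11 0 13 0 13 15 4) (.lf 13 118 14 117))) (.lf (.tipa 12 14 4))))) 
(.lf (.two (.lm 11 5 15 0 13 18 6) (.lf 15 116 13 117)))))) (.a 219 
(.lf (.two (.lm 8 6 14 0 11 18 9) (.lf 14 116 15 116))) (.y 489 (.z 230 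
(.lf (.two (.lm 11 0 13 0 13 15 6) (.lf 13 118 16 115))) 
(.lf (.two (.lm 11 5 16 0 13 18 6) (.lf 16 115 16 115)))) (.z 230 (.t 120 (.a 222 
(.lf (.two (.lm 10 3 13 0 12 15 4) (.lf 13 118 13 117))) (.y 492 
(.lf (.two (.lm 11 0 13 0 13 15 4) (.lf 13 118 14 117))) (.lf (.tipa 12 14 4)))) (.a 222 
(.lf (.two (.lm 10 3 13 0 12 15 4) (.lf 13 118 13 117))) (.y 492 
(.lf (.dir (.lf 11 119 14 117))) (.lf (.tipa 12 14 4))))) 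
(.lf (.two (.lm 11 5 16 0 13 18 6) (.lf 16 115 13 117))))))) 
(.lf (.two (.lm 10 11 19 0 13 24 12) (.lf 19 112 15 116))))))) (.y 472 
(.lf (.two (.lm 7 22 26 0 14 34 23) (.lf 26 90 26 90))) (.a 213 
(.lf (.two (.lm 5 34 26 0 9 34 17) (.lf 26 97 17 105))) (.z 258 
(.lf (.two (.lm 10 22 23 0 13 29 12) (.lf 23 104 17 110))) 
(.lf (.two (.lm 10 33 28 0 13 34 12) (.lf 28 96 17 106)))))))) (.a 202 (.z 247 
(.lf (.two (.lm 0 23 17 0 6 24 22) (.lf 17 114 3 128))) 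
(.lf (.two (.lm 0 45 26 0 6 34 23) (.lf 26 101 3 124)))) (.z 247 (.y 517 (.a 213 (.z 236 
(.y 506 (.lf (.two (.lm 5 12 14 0 9 19 11) (.lf 14 116 10 121))) (.lf (.tipa 8 18 17))) 
(.lf (.two (.lm 5 23 19 0 9 24 11) (.lf 19 112 8 123)))) (.z 236 (.y 506 (.t 112 (.a 219 
(.z 230 (.lf (.tipa 10 14 9)) (.lf (.two (.lm 9 11 15 0 11 18 6) (.lf 15 116 10 121)))) 
(.z 230 (.lf (.tipa 12 14 6)) (.lf (.two (.lm 11 5 15 0 13 18 6) (.lf 15 116 10 121))))) 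
(.a 219 (.lf (.two (.lm 8 6 14 0 11 18 9) (.lf 14 116 10 121))) (.z 230 (.lf (.tipa 12 14 6)) 
(.lf (.two (.lm 11 5 16 0 13 18 6) (.lf 16 115 10 121)))))) (.lf (.tipa 12 18 12))) (.y 506 
(.lf (.two (.lm 10 11 19 0 13 24 12) (.lf 19 112 10 121))) 
(.lf (.two (.lm 10 11 19 0 13 24 12) (.lf 19 112 5 125)))))) (.a 213 (.lf (.tipa 8 23 23)) 
(.y 528 (.z 236 (.lf (.tipa 12 18 12)) (.t 112 (.lf (.two (.lm 10 11 18 0 13 22 12) (.pot 0))) 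
(.lf (.two (.lm 9 11 19 0 13 24 12) (.lf 19 111 0 131))))) (.z 236 (.lf (.tipa 12 18 12)) 
(.lf (.two (.lm 10 11 19 0 13 24 12) (.lf 19 112 0 131))))))) (.y 517 (.a 213 
(.lf (.two (.lm 5 34 26 0 9 34 17) (.lf 26 104 8 121))) (.z 258 
(.lf (.two (.lm 10 22 23 0 13 29 12) (.lf 23 108 8 123))) 
(.lf (.two (.lm 10 33 28 0 13 34 12) (.lf 28 103 8 122))))) (.a 213 
(.lf (.two (.lm 5 34 26 0 9 34 17) (.lf 26 105 0 131))) 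
(.lf (.two (.lm 10 22 26 0 13 34 18) (.lf 26 105 0 131))))))))) (.z 225 (.y 495 (.a 247 
(.z 202 (.lf .inf) (.y 472 (.lf .inf) (.z 213 (.lf .inf) (.y 483 (.lf .inf) (.a 236 (.t 112 
(.z 219 (.lf .inf) (.y 489 (.lf (.dir (.lf 14 117 15 115))) 
(.lf (.two (.lf 14 0 11 0) (.pot 0))))) (.z 219 (.lf .inf) (.y 489 
(.lf (.two (.lf 14 0 11 0) (.lf 11 120 16 115))) (.lf (.two (.lf 14 0 11 0) (.pot 0)))))) 
(.lf .inf)))))) (.lf .inf)) (.lf (.two (.lf 21 0 3 0) (.pot 0)))) (.y 495 (.a 247 (.z 247 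
(.y 472 (.lf .inf) (.y 483 (.lf .inf) (.a 236 (.z 236 (.t 112 (.y 489 
(.lf (.dir (.lf 14 117 15 115))) (.a 230 (.z 230 (.t 104 (.y 492 
(.lf (.dir (.lf 13 118 14 117))) (.lf (.tipa 14 14 3))) (.y 492 
(.lf (.dir (.lf 13 118 14 117))) (.lf (.tipa 14 14 3)))) 
(.lf (.two (.lm 13 0 15 0 15 18 6) (.lf 15 116 13 117)))) (.lf (.dir (.lf 15 116 13 117))))) 
(.y 489 (.a 230 (.lf (.dir (.lf 13 118 16 115))) (.lf .inf)) (.a 230 (.z 230 (.t 120 (.y 492 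
(.lf (.dir (.lf 13 118 14 117))) (.lf (.tipa 14 14 3))) (.y 492 
(.lf (.dir (.lf 13 118 14 117))) (.lf (.tipa 14 14 3)))) (.t 120 
(.lf (.two (.lm 13 0 15 0 15 18 6) (.lf 15 115 13 117))) 
(.lf (.two (.lm 13 0 16 0 15 18 6) (.lf 16 115 13 117))))) (.z 230 
(.lf (.two (.lf 16 0 13 0) (.lf 13 118 13 117))) (.t 120 (.lf (.dir (.lf 15 115 13 117))) 
(.lf (.dir (.lf 16 115 13 117)))))))) (.t 112 (.y 489 (.lf (.dir (.lf 14 117 15 115))) (.a 230 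
(.lf (.two (.lm 13 6 18 0 15 22 8) (.lf 18 112 13 117))) (.lf (.dir (.lf 15 116 13 117))))) 
(.y 489 (.a 230 (.lf (.dir (.lf 13 118 16 115))) (.lf .inf)) (.a 230 
(.lf (.two (.lm 13 6 19 0 15 24 8) (.lf 19 111 13 117))) (.z 241 (.t 120 
(.lf (.dir (.lf 15 115 13 117))) (.lf (.dir (.lf 16 115 13 117)))) 
(.lf (.two (.lm 16 5 20 0 18 23 6) (.lf 20 110 13 117)))))))) (.lf .inf)))) (.y 472 (.lf .inf) 
(.z 258 (.y 483 (.lf .inf) (.a 236 (.t 112 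
(.lf (.two (.lm 14 11 22 0 18 26 11) (.lf 22 108 14 116))) 
(.lf (.two (.lm 14 11 24 0 18 29 11) (.lf 24 107 15 116)))) (.lf .inf))) (.y 483 (.lf .inf) 
(.a 236 (.lf (.two (.lm 14 22 28 0 19 34 12) (.lf 28 100 15 113))) (.lf .inf)))))) (.lf .inf)) 
(.a 247 (.z 247 (.y 517 (.a 236 (.z 236 (.y 506 (.t 112 (.a 230 (.z 230 (.lf (.tipa 14 14 3)) 
(.y 500 (.t 104 (.lf (.two (.lm 13 0 15 0 15 17 6) (.lf 15 116 11 120))) (.z 233 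
(.lf (.tipa 14 15 4)) (.lf (.two (.lm 13 3 16 0 15 18 4) (.lf 16 115 11 120))))) 
(.lf (.tipa 14 17 6)))) (.z 230 (.lf (.two (.lf 15 0 13 0) (.pot 0))) (.y 500 (.t 104 
(.lf (.dir (.lf 15 116 11 120))) (.a 233 (.z 233 (.lf (.tipa 15 15 2)) 
(.lf (.two (.lm 15 0 16 0 16 18 3) (.lf 16 115 11 120)))) (.lf (.dir (.lf 16 115 11 120))))) 
(.t 104 (.lf (.tipa 16 16 3)) (.a 233 (.lf (.tipa 15 17 3)) (.lf (.dir (.lf 16 115 9 122)))))))) 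
(.a 230 (.z 230 (.lf (.tipa 14 14 3)) (.y 500 (.t 120 (.z 233 (.lf (.tipa 14 16 4)) 
(.lf (.two (.lm 13 3 16 0 15 18 4) (.lf 16 115 11 120)))) 
(.lf (.two (.lm 13 0 16 0 15 18 6) (.lf 16 115 11 120)))) (.lf (.tipa 14 17 6)))) (.z 230 
(.lf (.two (.lf 16 0 13 0) (.pot 0))) (.y 500 (.t 120 (.a 233 (.z 233 (.lf (.tipa 16 16 2)) 
(.lf (.two (.lm 15 0 16 0 17 18 3) (.lf 16 115 11 120)))) (.lf (.dir (.lf 16 115 11 120)))) 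
(.lf (.dir (.lf 16 115 11 120)))) (.t 120 (.a 233 (.lf (.tipa 16 17 3)) 
(.lf (.dir (.lf 16 115 9 122)))) (.lf (.dir (.lf 16 115 8 122)))))))) (.t 112 (.a 230 
(.lf (.tipa 14 17 6)) (.z 230 (.lf (.two (.lf 15 0 13 0) (.pot 0))) (.y 511 (.t 104 
(.lf (.tipa 16 16 3)) (.a 233 (.lf (.tipa 15 17 3)) (.lf (.dir (.lf 16 115 7 124))))) (.t 104 
(.lf (.tipa 16 16 3)) (.a 233 (.lf (.tipa 15 17 3)) (.z 233 
(.lf (.two (.lf 16 0 15 0) (.pot 0))) (.lf (.tipa 17 17 2)))))))) (.a 230 (.lf (.tipa 14 17 6)) 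
(.z 230 (.lf (.two (.lf 16 0 13 0) (.pot 0))) (.y 511 (.t 120 (.a 233 (.lf (.tipa 16 17 3)) 
(.lf (.dir (.lf 16 115 6 124)))) (.lf (.dir (.lf 16 115 6 125)))) (.t 120 
(.lf (.dir (.lf 15 115 4 127))) (.lf (.dir (.lf 16 115 3 127))))))))) (.y 506 (.t 112 (.a 230 
(.lf (.two (.lm 13 6 18 0 15 22 8) (.lf 18 112 10 121))) (.z 241 
(.lf (.two (.lm 15 0 17 0 18 20 6) (.lf 17 114 10 121))) 
(.lf (.two (.lm 15 5 19 0 18 22 6) (.lf 19 112 10 121))))) (.a 230 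
(.lf (.two (.lm 13 6 19 0 15 24 8) (.lf 19 111 10 121))) (.z 241 (.y 500 
(.lf (.two (.lm 16 0 18 0 18 21 6) (.lf 18 113 11 120))) 
(.lf (.two (.lm 16 0 18 0 18 21 6) (.lf 18 113 8 122)))) 
(.lf (.two (.lm 16 5 20 0 18 23 6) (.lf 20 110 10 121)))))) (.t 112 (.a 230 
(.lf (.two (.lm 13 6 18 0 15 22 8) (.lf 18 112 6 125))) (.z 241 (.y 511 (.t 104 
(.lf (.two (.lm 15 0 17 0 17 19 6) (.lf 17 114 7 123))) 
(.lf (.two (.lm 15 0 17 0 18 20 6) (.lf 17 113 7 124)))) (.t 104 (.a 233 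
(.lf (.two (.lm 14 3 17 0 16 19 4) (.pot 0))) 
(.lf (.two (.lm 15 0 17 0 17 19 4) (.lf 17 114 5 125)))) 
(.lf (.two (.lm 15 0 17 0 18 20 6) (.lf 17 113 5 126))))) 
(.lf (.two (.lm 15 5 19 0 18 22 6) (.lf 19 112 6 125))))) (.a 230 
(.lf (.two (.lm 13 6 19 0 15 24 8) (.lf 19 111 5 126))) (.z 241 (.y 511 
(.lf (.two (.lm 16 0 18 0 18 21 6) (.lf 18 113 6 125))) 
(.lf (.two (.lm 16 0 18 0 18 21 6) (.lf 18 113 3 127)))) 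
(.lf (.two (.lm 16 5 20 0 18 23 6) (.lf 20 110 5 126)))))))) (.z 236 (.y 506 (.t 112 
(.lf (.dir (.lf 18 112 10 121))) (.lf (.dir (.lf 19 111 10 121)))) 
(.lf (.two (.lf 19 0 14 0) (.pot 0)))) (.y 506 (.t 112 (.lf (.dir (.lf 18 112 10 121))) 
(.lf (.dir (.lf 19 111 10 121)))) (.t 112 (.a 241 (.z 241 (.y 511 
(.lf (.dir (.lf 17 114 7 124))) (.lf (.dir (.lf 17 114 5 126)))) 
(.lf (.two (.lm 17 0 19 0 20 22 6) (.lf 19 112 6 125)))) (.lf (.dir (.lf 19 112 6 125)))) 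
(.lf (.dir (.lf 19 111 5 126))))))) (.y 528 (.a 236 (.z 236 (.t 112 (.a 230 
(.lf (.tipa 14 17 6)) (.z 230 (.lf (.two (.lf 15 0 13 0) (.pot 0))) (.y 522 (.t 104 
(.lf (.tipa 16 16 3)) (.a 233 (.lf (.tipa 15 17 3)) (.lf (.dir (.lf 16 115 2 128))))) (.t 104 
(.lf (.tipa 16 16 3)) (.a 233 (.lf (.tipa 15 17 3)) (.lf (.dir (.lf 16 115 0 130)))))))) 
(.a 230 (.lf (.tipa 14 17 6)) (.z 230 (.lf (.two (.lf 16 0 13 0) (.pot 0))) (.y 522 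
(.lf (.dir (.lf 16 115 1 129))) (.lf (.dir (.lf 16 115 0 131))))))) (.t 112 (.a 230 
(.lf (.two (.lm 13 6 18 0 15 22 8) (.lf 18 112 2 129))) (.z 241 (.y 522 (.t 104 (.a 233 
(.lf (.two (.lm 14 3 17 0 16 19 4) (.pot 0))) 
(.lf (.two (.lm 15 0 17 0 17 19 4) (.lf 17 114 3 127)))) 
(.lf (.two (.lm 15 0 17 0 18 20 6) (.lf 17 113 2 128)))) (.t 104 (.a 233 
(.lf (.two (.lm 14 3 17 0 16 19 4) (.pot 0))) (.y 525 
(.lf (.two (.lm 15 0 17 0 17 19 4) (.lf 17 114 2 129))) 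
(.lf (.two (.lm 15 0 17 0 17 19 4) (.lf 17 114 1 130))))) 
(.lf (.two (.lm 15 0 17 0 18 20 6) (.lf 17 113 0 130))))) 
(.lf (.two (.lm 15 5 19 0 18 22 6) (.lf 19 112 2 129))))) (.a 230 
(.lf (.two (.lm 13 6 19 0 15 24 8) (.lf 19 111 0 131))) (.z 241 
(.lf (.two (.lm 16 0 18 0 18 21 6) (.lf 18 113 0 131))) 
(.lf (.two (.lm 16 5 20 0 18 23 6) (.lf 20 110 0 131))))))) (.z 236 
(.lf (.two (.lf 19 0 14 0) (.pot 0))) (.t 112 (.a 241 (.z 241 (.y 522 (.t 104 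
(.lf (.dir (.lf 17 114 3 127))) (.lf (.dir (.lf 17 113 2 128)))) (.t 104 
(.lf (.dir (.lf 17 114 1 129))) (.lf (.dir (.lf 17 113 0 130))))) 
(.lf (.two (.lm 17 0 19 0 20 22 6) (.lf 19 112 2 129)))) (.lf (.dir (.lf 19 112 2 129)))) 
(.lf (.dir (.lf 19 111 0 131)))))) (.a 236 (.z 236 (.t 112 (.y 534 (.a 230 
(.lf (.tipa 14 17 6)) (.z 230 (.lf (.two (.lf 15 0 13 0) (.pot 0))) (.t 104 
(.lf (.tipa 16 16 3)) (.lf (.dir (.lf 15 115 0 131)))))) (.lf (.low 2))) (.lf (.low 2))) 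
(.t 112 (.y 534 (.a 230 (.lf (.two (.lm 13 6 18 0 15 22 8) (.lf 18 112 0 131))) (.z 241 
(.t 104 (.a 233 (.lf (.two (.lm 14 3 17 0 16 19 4) (.pot 0))) 
(.lf (.two (.lm 15 0 17 0 17 19 4) (.lf 17 114 0 131)))) (.lf (.dir (.lf 15 115 0 131)))) 
(.lf (.two (.lm 15 5 19 0 18 22 6) (.lf 19 112 0 131))))) (.lf (.low 2))) (.lf (.low 2)))) 
(.z 236 (.lf (.two (.lf 19 0 14 0) (.pot 0))) (.t 112 (.y 534 (.a 241 (.z 241 (.t 104 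
(.lf (.dir (.lf 17 114 0 131))) (.lf (.dir (.lf 17 113 0 131)))) 
(.lf (.two (.lm 17 0 19 0 20 22 6) (.lf 19 112 0 131)))) (.lf (.dir (.lf 19 112 0 131)))) 
(.lf (.low 2))) (.lf (.low 2))))))) (.y 517 (.z 258 (.a 236 (.y 506 (.t 112 
(.lf (.two (.lm 14 11 22 0 18 26 11) (.lf 22 108 10 121))) 
(.lf (.two (.lm 14 11 24 0 18 29 11) (.lf 24 107 10 121)))) 
(.lf (.two (.lm 14 11 23 0 19 29 11) (.lf 23 108 5 125)))) (.y 506 (.t 112 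
(.lf (.dir (.lf 18 112 10 121))) (.lf (.dir (.lf 19 111 10 121)))) (.t 112 
(.lf (.two (.lm 18 0 22 0 22 26 11) (.lf 22 108 6 125))) (.lf (.dir (.lf 19 111 5 126)))))) 
(.a 236 (.lf (.two (.lm 14 22 28 0 19 34 12) (.lf 28 103 8 122))) (.y 506 (.t 112 
(.lf (.dir (.lf 18 112 10 121))) (.lf (.dir (.lf 19 111 10 121)))) 
(.lf (.two (.lm 19 11 28 0 24 34 12) (.lf 28 103 5 125)))))) (.z 258 (.y 528 (.a 236 
(.lf (.two (.lm 14 11 23 0 19 29 11) (.lf 23 108 1 130))) (.t 112 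
(.lf (.two (.lm 18 0 22 0 22 26 11) (.lf 22 108 2 129))) (.lf (.dir (.lf 19 111 0 131))))) 
(.a 236 (.lf (.two (.lm 14 11 23 0 19 29 11) (.lf 23 108 0 131))) (.t 112 
(.lf (.two (.lm 18 0 22 0 22 26 11) (.lf 22 108 0 131))) (.lf (.low 2))))) (.y 528 (.a 236 
(.lf (.two (.lm 14 22 28 0 19 34 12) (.lf 28 103 1 130))) 
(.lf (.two (.lm 19 11 28 0 24 34 12) (.lf 28 103 1 130)))) (.a 236 
(.lf (.two (.lm 14 22 28 0 19 34 12) (.lf 28 103 0 131))) 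
(.lf (.two (.lm 19 11 28 0 24 34 12) (.lf 28 103 0 131)))))))) (.z 247 (.y 517 (.a 258 
(.lf (.dir (.lf 23 108 8 123))) (.lf .inf)) (.lf (.two (.lf 26 0 17 0) (.pot 0)))) (.y 517 
(.a 258 (.lf (.dir (.lf 23 108 8 123))) (.lf .inf)) (.a 258 (.lf (.dir (.lf 23 108 0 131))) 
(.lf (.dir (.lf 28 103 0 131))))))))))) (.y 450 (.a 225 (.z 315 (.y 405 (.lf .inf) 
(.lf (.dir (.lf 3 107 37 73)))) (.y 405 (.lf .inf) (.lf (.dir (.lf 3 107 37 73))))) (.lf .inf)) 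
(.a 225 (.z 315 (.y 495 (.a 202 (.z 292 (.lf (.two (.lm 0 61 33 7 6 43 22) (.lf 33 73 21 85))) 
(.lf (.two (.lm 0 72 40 18 6 50 23) (.lf 40 57 21 78)))) (.z 292 (.y 472 
(.lf (.two (.lm 7 45 33 0 14 43 23) (.lf 33 75 26 83))) 
(.lf (.two (.lm 7 45 33 0 14 43 23) (.lf 33 81 17 99)))) (.y 472 
(.lf (.two (.lm 7 63 40 4 14 50 23) (.lf 40 59 26 76))) 
(.lf (.two (.lm 7 63 40 4 14 50 23) (.lf 40 66 17 91)))))) (.a 202 (.z 292 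
(.lf (.two (.lm 0 61 33 7 6 43 22) (.lf 33 86 3 117))) 
(.lf (.two (.lm 0 72 40 18 6 50 23) (.lf 40 71 3 109)))) (.z 292 (.y 517 
(.lf (.two (.lm 7 45 33 0 14 43 23) (.lf 33 89 8 114))) 
(.lf (.two (.lm 7 45 33 0 14 43 23) (.lf 33 96 0 129)))) (.y 517 
(.lf (.two (.lm 7 63 40 4 14 50 23) (.lf 40 73 8 107))) 
(.lf (.two (.lm 7 63 40 4 14 50 23) (.lf 40 81 0 121))))))) (.y 495 (.a 202 (.z 337 
(.lf (.two (.lm 0 84 45 29 6 54 22) (.lf 45 41 21 72))) 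
(.lf (.two (.lm 0 94 47 41 6 55 23) (.lm 47 25 21 65 55 35 34)))) (.z 337 (.y 472 
(.lf (.two (.lm 7 72 45 18 14 54 23) (.lm 45 44 26 69 54 34 22))) 
(.lf (.two (.lm 7 72 45 18 14 54 23) (.lf 45 51 17 84)))) (.y 472 
(.lf (.two (.lm 7 81 47 31 14 55 23) (.lm 47 28 26 62 55 34 23))) 
(.lf (.two (.lm 7 81 47 31 14 55 23) (.lm 47 36 17 76 55 25 23)))))) (.a 202 (.z 337 
(.lf (.two (.lm 0 84 45 29 6 54 22) (.lf 45 57 3 101))) 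
(.lf (.two (.lm 0 94 47 41 6 55 23) (.lf 47 43 3 92)))) (.z 337 (.y 517 
(.lf (.two (.lm 7 72 45 18 14 54 23) (.lf 45 59 8 99))) 
(.lf (.two (.lm 7 72 45 18 14 54 23) (.lf 45 67 0 113)))) (.y 517 
(.lf (.two (.lm 7 81 47 31 14 55 23) (.lm 47 45 8 90 55 14 23))) 
(.lf (.two (.lm 7 81 47 31 14 55 23) (.lf 47 53 0 104)))))))) (.z 315 (.y 495 (.a 247 (.z 292 
(.y 472 (.lf .inf) (.y 483 (.lf .inf) (.a 236 
(.lf (.two (.lm 14 34 33 0 19 43 17) (.lf 33 86 15 105))) (.lf .inf)))) (.y 472 (.lf .inf) 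
(.z 303 (.lf (.two (.lm 17 45 38 0 24 46 17) (.lf 38 73 17 96))) 
(.lf (.two (.lm 17 55 41 1 24 49 17) (.lf 41 65 17 92)))))) (.lf .inf)) (.a 247 (.z 292 
(.y 517 (.a 236 (.lf (.two (.lm 14 34 33 0 19 43 17) (.lf 33 89 8 114))) (.z 281 
(.lf (.two (.lm 19 23 32 0 24 38 11) (.lf 32 95 8 119))) 
(.lf (.two (.lm 19 34 35 0 24 43 11) (.lf 35 88 8 115))))) (.y 528 (.a 236 
(.lf (.two (.lm 14 34 33 0 19 43 17) (.lf 33 96 1 129))) 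
(.lf (.two (.lm 19 23 33 0 24 43 17) (.lf 33 96 1 129)))) (.a 236 
(.lf (.two (.lm 14 34 33 0 19 43 17) (.lf 33 97 0 131))) 
(.lf (.two (.lm 19 23 33 0 24 43 17) (.lf 33 97 0 131)))))) (.y 517 (.z 303 
(.lf (.two (.lm 17 45 38 0 24 46 17) (.lf 38 80 8 112))) 
(.lf (.two (.lm 17 55 41 1 24 49 17) (.lf 41 73 8 107)))) 
(.lf (.two (.lm 17 45 40 0 24 50 23) (.lf 40 81 0 121))))) (.z 292 (.y 517 (.a 258 
(.lf (.dir (.lf 23 108 8 123))) (.lf .inf)) (.a 258 (.lf (.dir (.lf 23 108 0 131))) 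
(.lf (.dir (.lf 28 103 0 131))))) (.y 517 (.a 258 (.lf (.dir (.lf 23 108 8 123))) (.lf .inf)) 
(.lf (.two (.lm 26 22 40 0 34 50 23) (.lf 40 81 0 121))))))) (.y 495 (.a 247 (.z 337 (.y 472 
(.lf .inf) (.y 483 (.lf .inf) (.lf (.two (.lm 17 61 45 7 24 54 22) (.lm 45 56 15 90 54 19 17))))) 
(.y 472 (.lf .inf) (.z 348 (.lf (.two (.lm 17 68 47 22 24 54 17) (.lm 47 44 17 80 54 25 17))) 
(.lf (.two (.lm 17 72 47 29 24 55 17) (.lm 47 36 17 76 55 25 18)))))) (.lf .inf)) (.a 247 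
(.z 337 (.y 517 (.lf (.two (.lm 17 61 45 7 24 54 22) (.lf 45 59 8 99))) 
(.lf (.two (.lm 17 61 45 7 24 54 22) (.lf 45 67 0 113)))) (.y 517 
(.lf (.two (.lm 17 68 47 22 24 55 23) (.lm 47 45 8 90 55 14 23))) 
(.lf (.two (.lm 17 68 47 22 24 55 23) (.lf 47 53 0 104))))) (.z 337 (.y 517 
(.lf (.two (.lm 26 45 45 0 34 54 23) (.lf 45 59 8 99))) 
(.lf (.two (.lm 26 45 45 0 34 54 23) (.lf 45 67 0 113)))) (.y 517 
(.lf (.two (.lm 26 55 47 12 34 55 23) (.lm 47 45 8 90 55 14 23))) 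
(.lf (.two (.lm 26 55 47 12 34 55 23) (.lf 47 53 0 104))))))))))) (.z 270 (.y 450 (.lf .inf) 
(.a 315 (.z 225 (.lf .inf) (.y 495 (.lf .inf) (.lf (.dir (.lf 37 73 3 107))))) (.lf .inf))) 
(.y 450 (.lf .inf) (.a 315 (.z 315 (.y 495 (.lf .inf) (.lf (.dir (.lf 37 73 3 107)))) (.y 495 
(.lf .inf) (.lf (.dir (.lf 37 73 3 107))))) (.lf .inf)))))

theorem h2 : chk (leafR PP TD3 96 0) c2 96 128 180 360 180 360 360 540 = true := by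
  decide +kernel

def c3 : Tree :=
  (.a 270 (.z 270 (.y 630 (.a 225 (.z 225 (.lf (.tipa 14 14 23)) (.y 585 (.lf (.low 2)) 
(.lf (.low 2)))) (.z 225 (.lf (.two (.lf 21 0 3 0) (.pot 0))) (.y 585 (.lf (.low 2)) 
(.lf (.low 2))))) (.lf (.low 2))) (.y 630 (.a 225 (.z 315 (.y 585 (.lf (.low 2)) (.lf (.low 2))) 
(.y 585 (.lf (.low 2)) (.lf (.low 2)))) (.z 315 (.y 585 (.lf (.low 2)) (.lf (.low 2))) (.y 585 
(.lf (.low 2)) (.lf (.low 2))))) (.lf (.low 2)))) (.z 270 (.lf (.two (.lf 43 0 12 0) (.pot 0))) 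
(.y 630 (.a 315 (.z 315 (.y 585 (.lf (.low 2)) (.lf (.low 2))) (.y 585 (.lf (.low 2)) 
(.lf (.low 2)))) (.lf (.dir (.lf 46 66 0 114)))) (.lf (.low 2)))))

theorem h3 : chk (leafR PP TD3 96 0) c3 96 128 180 360 180 360 540 720 = true := by
  decide +kernel

def c4 : Tree :=
  (.z 540 (.y 540 (.a 90 (.lf (.low 0)) (.z 450 (.y 450 (.a 135 (.lf (.low 0)) (.lf (.low 0))) 
(.a 135 (.lf (.low 0)) (.lf (.low 0)))) (.y 450 (.lf (.two (.pot 0) (.lf 12 0 43 0))) (.a 135 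
(.lf (.low 0)) (.lf (.low 0)))))) (.a 90 (.lf .inf) (.z 450 (.y 630 (.a 135 (.lf .inf) 
(.lf (.low 0))) (.lf .inf)) (.y 630 (.a 135 (.lf .inf) (.lf (.low 0))) (.lf .inf))))) (.y 540 
(.lf (.two (.pot 0) (.lf 0 0 30 0))) (.a 90 (.lf .inf) (.z 630 (.y 630 (.lf (.tipb 3 3 45)) 
(.lf .inf)) (.lf (.low 1))))))

theorem h4 : chk (leafR PP TD3 96 0) c4 96 128 0 180 360 720 360 720 = true := by
  decide +kernel

def c5 : Tree :=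
  (.z 450 (.y 450 (.a 225 (.z 405 (.y 405 (.lf .inf) (.lf (.dir (.lf 3 107 37 73)))) (.y 405 
(.lf .inf) (.lf (.dir (.lf 3 107 37 73))))) (.lf .inf)) (.a 225 (.z 405 (.y 495 (.a 202 
(.z 382 (.y 472 (.lf (.dir (.lf 0 131 26 105))) 
(.lf (.two (.lf 0 104 47 54) (.lm 47 22 17 68 55 25 23)))) (.y 472 
(.lf (.dir (.lf 0 131 26 105))) (.lf (.two (.lf 0 113 45 67) (.lm 45 7 17 60 54 25 23))))) 
(.z 382 (.y 472 (.lf (.two (.lm 7 90 47 45 14 55 23) (.lm 47 13 26 55 55 34 22))) 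
(.lf (.two (.lm 7 90 47 45 14 55 23) (.lm 47 22 17 68 55 25 23)))) (.y 472 
(.lf (.two (.lf 7 98 45 59) (.lm 45 0 26 45 54 34 23))) (.a 213 
(.lf (.two (.lf 5 105 45 64) (.lm 45 7 17 60 54 25 23))) 
(.lf (.two (.lm 10 97 45 60 13 54 18) (.lm 45 7 17 60 54 25 23))))))) (.a 202 (.z 382 
(.lf (.two (.lf 0 104 47 54) (.lm 47 29 3 84 55 15 34))) (.y 517 
(.lf (.two (.lf 0 113 45 67) (.lm 45 18 8 72 54 14 23))) 
(.lf (.two (.lf 0 113 45 67) (.lm 45 29 0 83 54 6 23))))) (.z 382 (.y 517 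
(.lf (.two (.lm 7 90 47 45 14 55 23) (.lm 47 32 8 81 55 14 22))) 
(.lf (.two (.lm 7 90 47 45 14 55 23) (.lm 47 41 0 94 55 6 23)))) (.y 517 
(.lf (.two (.lf 7 98 45 59) (.lm 45 18 8 72 54 14 23))) 
(.lf (.two (.lf 7 98 45 59) (.lm 45 29 0 83 54 6 23))))))) (.y 495 (.a 202 (.z 427 (.y 472 
(.lf (.dir (.lf 0 131 26 105))) (.lf (.two (.lf 0 122 40 81) (.lm 40 0 17 45 50 25 23)))) 
(.y 472 (.lf (.dir (.lf 0 131 26 105))) (.z 438 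
(.lf (.two (.lf 0 131 36 94) (.lm 36 0 17 34 43 25 17))) (.y 483 
(.lf (.two (.lf 0 131 32 99) (.lm 32 0 19 22 39 24 12))) 
(.lf (.two (.lf 0 131 32 99) (.lm 32 0 15 33 39 19 12))))))) (.z 427 (.y 472 (.a 213 
(.lf (.dir (.lf 5 126 26 105))) (.lf .inf)) (.a 213 
(.lf (.two (.lf 5 114 40 78) (.lm 40 0 17 45 50 25 23))) (.y 483 
(.lf (.two (.lf 10 106 40 74) (.lm 40 0 19 45 50 24 17))) 
(.lf (.two (.lf 10 106 40 74) (.lm 40 0 15 56 50 19 17)))))) (.y 472 (.a 213 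
(.lf (.dir (.lf 5 126 26 105))) (.lf .inf)) (.a 213 (.z 438 
(.lf (.two (.lf 5 122 36 92) (.lm 36 0 17 34 43 25 17))) (.y 483 
(.lf (.two (.lf 5 126 32 99) (.lm 32 0 19 22 39 24 12))) 
(.lf (.two (.lf 5 126 32 99) (.lm 32 0 15 33 39 19 12))))) (.z 438 
(.lf (.two (.lf 10 114 36 88) (.lm 36 0 17 34 43 25 17))) (.y 483 
(.lf (.two (.lf 10 118 32 95) (.lm 32 0 19 22 39 24 12))) 
(.lf (.two (.lf 10 118 32 95) (.lm 32 0 15 33 39 19 12))))))))) (.a 202 (.z 427 (.y 517 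
(.lf (.two (.lf 0 122 40 81) (.lm 40 5 8 63 50 14 22))) 
(.lf (.two (.lf 0 122 40 81) (.lm 40 18 0 72 50 6 23)))) (.y 517 
(.lf (.two (.lf 0 130 34 95) (.lm 34 0 8 45 43 14 23))) 
(.lf (.two (.lf 0 130 34 95) (.lm 34 6 0 61 43 6 23))))) (.z 427 (.y 517 
(.lf (.two (.lf 7 107 40 73) (.lm 40 5 8 63 50 14 22))) 
(.lf (.two (.lf 7 107 40 73) (.lm 40 18 0 72 50 6 23)))) (.y 517 
(.lf (.two (.lf 7 114 34 88) (.lm 34 0 8 45 43 14 23))) 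
(.lf (.two (.lf 7 114 34 88) (.lm 34 6 0 61 43 6 23)))))))) (.z 405 (.y 495 (.a 247 (.z 382 
(.y 472 (.lf .inf) (.y 483 (.lf .inf) 
(.lf (.two (.lm 17 76 47 37 24 55 22) (.lm 47 28 15 73 55 19 17))))) (.y 472 (.lf .inf) 
(.z 393 (.lf (.two (.lm 17 84 45 51 24 54 17) (.lm 45 15 17 64 54 25 17))) 
(.lf (.two (.lf 17 88 44 58) (.lm 44 8 17 59 52 25 18)))))) (.lf .inf)) (.a 247 (.z 382 
(.y 517 (.lf (.two (.lm 17 76 47 37 24 55 22) (.lm 47 32 8 81 55 14 22))) 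
(.lf (.two (.lm 17 76 47 37 24 55 22) (.lm 47 41 0 94 55 6 23)))) (.y 517 
(.lf (.two (.lf 17 84 45 51) (.lm 45 18 8 72 54 14 23))) 
(.lf (.two (.lf 17 84 45 51) (.lm 45 29 0 83 54 6 23))))) (.z 382 (.y 517 
(.lf (.two (.lm 26 62 47 28 34 55 23) (.lm 47 32 8 81 55 14 22))) 
(.lf (.two (.lm 26 62 47 28 34 55 23) (.lm 47 41 0 94 55 6 23)))) (.y 517 
(.lf (.two (.lm 26 69 45 43 34 54 23) (.lm 45 18 8 72 54 14 23))) 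
(.lf (.two (.lm 26 69 45 43 34 54 23) (.lm 45 29 0 83 54 6 23))))))) (.y 495 (.a 247 (.z 427 
(.y 472 (.lf .inf) (.y 483 (.lf .inf) (.lf (.two (.lf 17 92 40 66) (.lm 40 0 15 56 50 19 17))))) 
(.y 472 (.lf .inf) (.z 438 (.y 483 (.lf .inf) 
(.lf (.two (.lf 17 100 36 80) (.lm 36 0 15 45 43 19 12)))) (.y 483 (.lf .inf) 
(.lf (.two (.lf 17 103 32 88) (.lm 32 0 15 33 39 19 12))))))) (.lf .inf)) (.a 247 (.z 427 
(.y 517 (.lf (.two (.lf 17 92 40 66) (.lm 40 5 8 63 50 14 22))) 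
(.lf (.two (.lf 17 92 40 66) (.lm 40 18 0 72 50 6 23)))) (.y 517 
(.lf (.two (.lf 17 99 34 81) (.lm 34 0 8 45 43 14 23))) 
(.lf (.two (.lf 17 99 34 81) (.lm 34 6 0 61 43 6 23))))) (.z 427 (.y 517 
(.lf (.two (.lf 26 76 40 59) (.lm 40 5 8 63 50 14 22))) 
(.lf (.two (.lf 26 76 40 59) (.lm 40 18 0 72 50 6 23)))) (.y 517 
(.lf (.two (.lf 26 83 34 74) (.lm 34 0 8 45 43 14 23))) 
(.lf (.two (.lf 26 83 34 74) (.lm 34 6 0 61 43 6 23)))))))))) (.y 450 (.a 225 (.z 495 (.y 405 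
(.lf .inf) (.lf (.dir (.lf 3 107 37 73)))) (.lf .inf)) (.lf .inf)) (.a 225 (.z 495 (.y 495 
(.a 202 (.z 472 (.y 472 (.lf (.dir (.lf 0 131 26 105))) (.y 483 (.a 191 (.z 461 
(.lf (.two (.lf 0 131 28 103) (.lm 28 0 19 11 34 24 11))) (.t 112 
(.lf (.two (.lf 0 131 23 108) (.lm 23 0 19 0 27 23 11))) (.lf (.low 0)))) (.z 461 
(.lf (.two (.lf 0 130 28 103) (.lm 28 0 19 11 34 24 11))) (.t 112 
(.lf (.two (.lf 1 129 23 108) (.lm 23 0 19 0 27 23 11))) (.lf (.dir (.lf 0 131 20 111)))))) 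
(.a 191 (.z 461 (.lf (.two (.lf 0 131 28 103) (.lm 28 0 15 22 34 19 12))) 
(.lf (.two (.lf 0 131 24 107) (.lm 24 0 15 11 29 19 12)))) (.z 461 
(.lf (.two (.lf 0 130 28 103) (.lm 28 0 15 22 34 19 12))) (.t 112 
(.lf (.two (.lf 1 129 23 108) (.lm 23 0 14 11 27 18 12))) 
(.lf (.two (.lf 0 131 25 106) (.lm 25 0 15 11 29 19 12)))))))) (.y 472 
(.lf (.dir (.lf 0 131 26 105))) (.z 483 (.y 483 (.a 191 (.t 112 (.a 185 (.lf (.low 0)) 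
(.lf (.dir (.lf 0 131 19 112)))) (.lf (.low 0))) (.t 112 (.a 196 (.z 477 
(.lf (.two (.lf 0 130 20 111) (.lm 20 0 19 0 23 23 6))) 
(.lf (.two (.lf 0 130 18 113) (.lm 18 0 19 0 21 23 3)))) (.z 477 
(.lf (.two (.lf 2 128 20 111) (.lm 20 0 19 0 23 23 6))) 
(.lf (.two (.lf 2 128 18 113) (.lm 18 0 19 0 21 23 3))))) (.lf (.dir (.lf 0 131 20 111))))) 
(.a 191 (.t 112 (.y 489 (.a 185 (.lf (.low 0)) (.z 477 
(.lf (.two (.lf 0 131 20 111) (.lm 20 0 15 6 23 18 6))) (.t 104 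
(.lf (.two (.lf 0 131 17 113) (.lm 17 0 15 0 20 18 6))) (.lf (.low 0))))) 
(.lf (.two (.lf 0 131 19 112) (.lm 19 0 13 6 23 16 9)))) (.lf (.low 0))) (.t 112 (.y 489 
(.a 196 (.z 477 (.lf (.two (.lf 0 130 20 111) (.lm 20 0 15 6 23 18 6))) (.t 104 (.z 480 
(.lf (.two (.lf 1 130 18 113) (.lm 18 0 15 3 20 18 5))) 
(.lf (.two (.lf 1 130 17 114) (.lm 17 0 15 0 19 18 5)))) (.lf (.dir (.lf 0 131 16 115))))) 
(.z 477 (.lf (.two (.lf 2 128 20 111) (.lm 20 0 15 6 23 18 6))) (.t 104 (.a 199 (.z 480 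
(.lf (.two (.lf 2 128 18 113) (.lm 18 0 15 3 20 18 5))) 
(.lf (.two (.lf 2 128 17 114) (.lm 17 0 15 0 19 18 5)))) (.z 480 
(.lf (.two (.lf 3 127 18 113) (.lm 18 0 15 3 20 18 5))) 
(.lf (.two (.lf 3 127 17 114) (.lm 17 0 15 0 19 18 5))))) 
(.lf (.two (.lf 2 129 18 113) (.lm 18 0 16 0 20 18 6)))))) (.a 196 
(.lf (.two (.lf 0 130 19 112) (.lm 19 0 13 6 23 16 9))) 
(.lf (.two (.lf 2 128 19 112) (.lm 19 0 13 6 23 16 9))))) (.y 489 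
(.lf (.dir (.lf 0 131 16 115))) (.lf (.two (.lf 0 131 20 111) (.lm 20 0 13 6 24 16 9))))))) 
(.y 483 (.lf (.two (.pot 0) (.lf 15 0 19 0))) (.a 191 (.t 112 (.z 489 (.y 489 (.a 185 
(.lf (.low 0)) (.t 104 (.lf (.tipb 17 17 3)) (.lf (.low 0)))) (.lf (.tipb 17 15 6))) 
(.lf (.tipb 15 17 3))) (.lf (.low 0))) (.t 112 (.z 489 (.y 489 (.a 196 (.t 104 
(.lf (.tipb 17 17 3)) (.lf (.dir (.lf 0 131 16 115)))) (.t 104 (.lf (.tipb 17 17 3)) (.a 199 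
(.z 486 (.lf (.two (.lf 1 129 16 115) (.lm 16 0 16 0 18 18 3))) (.lf (.tipb 16 17 2))) (.z 486 
(.lf (.two (.lf 2 128 16 115) (.lm 16 0 16 0 18 18 3))) (.lf (.tipb 16 17 2)))))) 
(.lf (.tipb 17 15 6))) (.lf (.tipb 15 17 3))) (.z 489 (.y 489 (.lf (.dir (.lf 0 131 16 115))) 
(.lf (.tipb 18 15 6))) (.lf (.tipb 15 18 3))))))))) (.z 472 (.y 472 (.a 213 
(.lf (.dir (.lf 5 126 26 105))) (.lf .inf)) (.a 213 (.y 483 (.z 461 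
(.lf (.two (.lf 5 126 28 103) (.lm 28 0 19 11 34 24 11))) (.t 112 
(.lf (.two (.lf 5 125 23 108) (.lm 23 0 19 0 27 23 11))) (.lf (.dir (.lf 4 126 20 111))))) 
(.z 461 (.lf (.two (.lf 5 126 28 103) (.lm 28 0 15 22 34 19 12))) 
(.lf (.two (.lf 5 126 24 107) (.lm 24 0 15 11 29 19 12))))) (.y 483 (.z 461 (.t 112 
(.lf (.dir (.lf 10 121 19 112))) (.lf (.dir (.lf 9 121 20 111)))) (.t 112 
(.lf (.dir (.lf 10 121 19 112))) (.lf (.dir (.lf 9 121 20 111))))) (.z 461 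
(.lf (.two (.lf 10 121 28 103) (.lm 28 0 15 22 34 19 12))) (.t 112 
(.lf (.two (.lf 10 121 23 108) (.lm 23 0 14 11 27 18 12))) 
(.lf (.two (.lf 9 121 25 106) (.lm 25 0 15 11 29 19 12)))))))) (.y 472 (.a 213 
(.lf (.dir (.lf 5 126 26 105))) (.lf .inf)) (.a 213 (.z 483 (.y 483 (.t 112 (.a 207 
(.lf (.dir (.lf 4 126 19 112))) (.lf (.dir (.lf 6 124 19 112)))) 
(.lf (.dir (.lf 4 126 20 111)))) (.t 112 (.y 489 (.a 207 (.z 477 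
(.lf (.two (.lf 4 126 20 111) (.lm 20 0 15 6 23 18 6))) (.t 104 
(.lf (.two (.lf 5 126 17 113) (.lm 17 0 15 0 20 18 6))) 
(.lf (.two (.lf 4 127 18 113) (.lm 18 0 16 0 20 18 6))))) (.z 477 
(.lf (.two (.lf 6 124 20 111) (.lm 20 0 15 6 23 18 6))) (.t 104 
(.lf (.two (.lf 7 124 17 113) (.lm 17 0 15 0 20 18 6))) 
(.lf (.two (.lf 6 124 18 113) (.lm 18 0 16 0 20 18 6)))))) 
(.lf (.two (.lf 5 125 19 112) (.lm 19 0 13 6 23 16 9)))) (.y 489 (.a 207 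
(.lf (.dir (.lf 3 128 16 115))) (.z 477 (.lf (.two (.lf 5 125 21 110) (.lm 21 0 16 6 24 19 6))) 
(.t 120 (.lf (.dir (.lf 6 125 16 115))) (.lf (.dir (.lf 5 126 16 115)))))) 
(.lf (.two (.lf 4 126 20 111) (.lm 20 0 13 6 24 16 9)))))) (.y 483 
(.lf (.two (.pot 0) (.lf 15 0 19 0))) (.t 112 (.z 489 (.y 489 (.a 207 (.t 104 
(.lf (.tipb 17 17 3)) (.z 486 (.lf (.two (.lf 4 127 16 115) (.lm 16 0 16 0 18 18 3))) 
(.lf (.tipb 16 17 2)))) (.t 104 (.lf (.tipb 17 17 3)) (.a 210 (.z 486 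
(.lf (.two (.lf 6 125 16 115) (.lm 16 0 16 0 18 18 3))) (.lf (.tipb 16 17 2))) (.z 486 
(.lf (.two (.lf 7 124 16 115) (.lm 16 0 16 0 18 18 3))) (.lf (.tipb 16 17 2)))))) 
(.lf (.tipb 17 15 6))) (.lf (.tipb 15 17 3))) (.z 489 (.y 489 (.a 207 
(.lf (.dir (.lf 3 128 16 115))) (.t 120 (.lf (.dir (.lf 6 125 16 115))) 
(.lf (.dir (.lf 5 126 16 115))))) (.lf (.tipb 18 15 6))) (.lf (.tipb 15 18 3)))))) (.z 483 
(.y 483 (.t 112 (.lf (.dir (.lf 10 121 19 112))) (.lf (.dir (.lf 9 121 20 111)))) (.t 112 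
(.a 219 (.y 489 (.z 477 (.lf (.two (.lf 9 122 20 111) (.lm 20 0 15 6 23 18 6))) 
(.lf (.two (.lf 9 122 18 113) (.lm 18 0 15 0 21 18 6)))) 
(.lf (.two (.lf 9 122 19 112) (.lm 19 0 13 6 23 16 9)))) (.y 489 (.z 477 
(.lf (.two (.lf 11 120 20 111) (.lm 20 0 15 6 23 18 6))) 
(.lf (.two (.lf 11 120 18 113) (.lm 18 0 15 0 21 18 6)))) 
(.lf (.two (.lf 11 120 19 112) (.lm 19 0 13 6 23 16 9))))) (.a 219 (.y 489 (.z 477 
(.lf (.two (.lf 8 123 21 110) (.lm 21 0 16 6 24 19 6))) (.t 120 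
(.lf (.two (.lf 8 122 18 112) (.lm 18 0 16 0 21 18 6))) (.lf (.dir (.lf 8 123 16 115))))) 
(.lf (.two (.lf 8 123 20 111) (.lm 20 0 13 6 24 16 9)))) (.y 489 (.z 477 
(.lf (.two (.lf 11 120 21 110) (.lm 21 0 16 6 24 19 6))) (.t 120 
(.lf (.two (.lf 11 120 18 112) (.lm 18 0 16 0 21 18 6))) (.lf (.dir (.lf 11 120 16 115))))) 
(.lf (.two (.lf 11 120 20 111) (.lm 20 0 13 6 24 16 9))))))) (.y 483 (.t 112 
(.lf (.dir (.lf 10 121 19 112))) (.lf (.dir (.lf 9 121 20 111)))) (.t 112 (.a 219 (.z 489 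
(.y 489 (.t 104 (.lf (.tipb 17 17 3)) (.a 216 (.z 486 
(.lf (.two (.lf 8 123 16 115) (.lm 16 0 16 0 18 18 3))) (.lf (.tipb 16 17 2))) (.z 486 
(.lf (.two (.lf 9 121 16 115) (.lm 16 0 16 0 18 18 3))) (.lf (.tipb 16 17 2))))) 
(.lf (.tipb 17 15 6))) (.lf (.tipb 15 17 3))) (.z 489 (.y 489 (.t 104 
(.lf (.dir (.lf 11 120 15 115))) (.a 222 (.lf (.dir (.lf 10 120 16 115))) 
(.lf (.dir (.lf 11 119 16 115))))) (.t 104 
(.lf (.two (.lf 11 120 15 115) (.lm 15 0 13 0 18 15 6))) (.a 222 (.lf (.tipb 17 15 6)) 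
(.lf (.two (.lf 11 119 16 115) (.lm 16 0 13 0 18 16 6)))))) (.lf (.tipb 15 17 3)))) (.a 219 
(.z 489 (.y 489 (.t 120 (.a 216 (.lf (.dir (.lf 8 123 16 115))) (.lf (.dir (.lf 9 122 16 115)))) 
(.lf (.dir (.lf 8 123 16 115)))) (.lf (.tipb 18 15 6))) (.lf (.tipb 15 18 3))) (.z 489 (.y 489 
(.t 120 (.a 222 (.lf (.dir (.lf 10 121 16 115))) (.lf (.dir (.lf 11 119 16 115)))) 
(.lf (.dir (.lf 11 120 16 115)))) (.t 120 (.a 222 (.lf (.tipb 17 15 6)) 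
(.lf (.two (.lf 11 119 16 115) (.lm 16 0 13 0 18 16 6)))) 
(.lf (.two (.lf 11 120 16 115) (.lm 16 0 13 0 19 16 6))))) (.lf (.tipb 15 18 3))))))))))) 
(.a 202 (.z 472 (.y 517 (.a 191 (.lf (.two (.lf 0 131 26 105) (.lm 26 0 8 23 34 14 22))) 
(.lf (.two (.lf 0 130 26 105) (.lm 26 0 8 23 34 14 22)))) 
(.lf (.two (.lf 0 131 26 105) (.lm 26 0 0 45 34 6 23)))) (.y 517 (.z 483 (.a 191 (.y 506 
(.lf (.two (.pot 0) (.lm 19 0 10 12 24 13 11))) (.lf (.tipb 23 8 23))) (.y 506 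
(.lf (.two (.pot 0) (.lm 19 0 10 12 24 13 11))) (.lf (.tipb 23 8 23)))) (.lf (.tipb 18 13 17))) 
(.lf (.tipb 24 5 34)))) (.z 472 (.y 517 (.a 213 
(.lf (.two (.lf 5 126 26 105) (.lm 26 0 8 23 34 14 22))) (.z 461 
(.lf (.two (.lf 10 121 28 103) (.lm 28 0 8 34 34 14 17))) 
(.lf (.two (.lf 10 121 24 107) (.lm 24 0 8 23 29 14 17))))) 
(.lf (.two (.lf 7 122 26 103) (.lm 26 0 0 45 34 6 23)))) (.y 517 (.a 213 (.z 483 (.y 506 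
(.lf (.two (.lf 5 126 19 111) (.lm 19 0 10 12 24 13 11))) 
(.lf (.two (.lf 5 126 19 111) (.lm 19 0 5 23 24 9 11)))) (.lf (.tipb 18 13 17))) (.z 483 
(.lf (.two (.lf 10 121 19 111) (.lm 19 0 8 12 24 14 17))) (.y 506 (.t 112 (.a 219 
(.lf (.tipb 17 12 12)) (.z 489 (.lf (.two (.lf 11 120 15 115) (.lm 15 0 10 6 18 13 9))) 
(.lf (.tipb 15 12 9)))) (.a 219 (.lf (.tipb 18 12 12)) (.z 489 
(.lf (.two (.lf 11 120 16 115) (.lm 16 0 10 6 19 13 9))) (.lf (.tipb 15 12 9))))) 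
(.lf (.two (.lf 10 121 15 116) (.lm 15 0 5 11 19 9 12)))))) 
(.lf (.two (.lf 7 123 17 114) (.lm 17 0 0 22 25 6 23))))))) (.y 495 
(.lf (.two (.pot 0) (.lf 3 0 21 0))) (.lf (.tipb 14 14 23)))) (.z 495 (.y 495 (.a 247 (.z 472 
(.y 472 (.lf .inf) (.y 483 (.lf .inf) (.a 236 (.z 461 
(.lf (.two (.lf 14 114 28 100) (.lm 28 0 15 22 34 19 12))) (.t 112 
(.lf (.two (.lf 14 117 23 108) (.lm 23 0 14 11 27 18 12))) 
(.lf (.two (.lf 14 116 25 106) (.lm 25 0 15 11 29 19 12))))) (.lf .inf)))) (.y 472 (.lf .inf) 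
(.z 483 (.y 483 (.lf .inf) (.a 236 (.t 112 (.y 489 (.lf (.dir (.lf 14 117 15 115))) 
(.lf (.two (.lf 14 117 19 112) (.lm 19 0 13 6 23 16 9)))) (.y 489 (.a 230 
(.lf (.dir (.lf 13 118 16 115))) (.lf .inf)) 
(.lf (.two (.lf 14 116 20 111) (.lm 20 0 13 6 24 16 9))))) (.lf .inf))) (.y 483 (.lf .inf) 
(.a 236 (.t 112 (.z 489 (.y 489 (.lf (.dir (.lf 14 117 15 115))) 
(.lf (.two (.lf 14 117 15 115) (.lm 15 0 13 0 18 16 6)))) (.y 489 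
(.lf (.dir (.lf 14 117 15 115))) (.a 230 (.t 104 (.z 492 
(.lf (.two (.lf 13 118 14 117) (.lm 14 0 13 0 15 15 3))) (.lf (.tipb 13 14 2))) (.z 492 
(.y 492 (.lf (.dir (.lf 13 118 14 117))) 
(.lf (.two (.lf 13 118 14 117) (.lm 14 0 13 0 16 14 3)))) (.lf (.tipb 13 15 2)))) 
(.lf (.dir (.lf 15 116 13 117)))))) (.z 489 (.y 489 (.a 230 (.lf (.dir (.lf 13 118 16 115))) 
(.lf .inf)) (.a 230 (.t 120 (.lf (.two (.lf 13 118 16 115) (.lm 16 0 13 0 18 16 6))) 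
(.lf (.two (.lf 13 118 16 115) (.lm 16 0 13 0 19 16 6)))) 
(.lf (.two (.lf 16 115 16 115) (.lm 16 0 13 0 19 16 6))))) (.y 489 (.a 230 
(.lf (.dir (.lf 13 118 16 115))) (.lf .inf)) (.a 230 (.t 120 (.z 492 (.y 492 
(.lf (.dir (.lf 13 118 14 117))) (.lf (.two (.lf 13 118 14 117) (.lm 14 0 13 0 16 14 3)))) 
(.lf (.tipb 13 15 2))) (.z 492 (.y 492 (.lf (.dir (.lf 13 118 14 117))) 
(.lf (.two (.lf 13 118 14 117) (.lm 14 0 13 0 16 14 3)))) (.lf (.tipb 13 15 2)))) (.t 120 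
(.lf (.dir (.lf 15 115 13 117))) (.lf (.dir (.lf 16 115 13 117)))))))) (.lf .inf)))))) 
(.lf .inf)) (.a 247 (.z 472 (.y 517 (.a 236 (.z 461 
(.lf (.two (.lf 14 114 28 100) (.lm 28 0 8 34 34 14 17))) 
(.lf (.two (.lf 14 116 24 107) (.lm 24 0 8 23 29 14 17)))) (.z 461 
(.lf (.two (.lf 19 106 28 97) (.lm 28 0 8 34 34 14 17))) 
(.lf (.two (.lf 19 109 24 105) (.lm 24 0 8 23 29 14 17))))) 
(.lf (.two (.lf 17 106 26 97) (.lm 26 0 0 45 34 6 23)))) (.y 517 (.z 483 (.a 236 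
(.lf (.two (.lf 14 116 19 111) (.lm 19 0 8 12 24 14 17))) 
(.lf (.two (.lf 19 112 19 111) (.lm 19 0 8 12 24 14 17)))) (.a 236 (.y 506 (.t 112 (.z 489 
(.lf (.two (.lf 14 117 15 115) (.lm 15 0 10 6 18 13 9))) (.a 230 (.y 500 (.t 104 (.z 492 
(.lf (.two (.lf 13 118 14 117) (.lm 14 0 11 3 15 13 4))) (.lf (.tipb 13 12 4))) (.z 492 
(.lf (.two (.lf 13 118 14 117) (.lm 14 0 11 3 16 13 4))) (.lf (.tipb 13 12 4)))) 
(.lf (.two (.lf 13 118 13 117) (.lm 13 0 9 5 16 11 6)))) 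
(.lf (.two (.lf 15 116 13 117) (.lm 13 0 10 0 16 13 9))))) (.z 489 
(.lf (.two (.lf 14 116 16 115) (.lm 16 0 10 6 19 13 9))) (.a 230 (.y 500 (.t 120 (.z 492 
(.lf (.two (.lf 13 118 14 117) (.lm 14 0 11 3 16 13 4))) (.lf (.tipb 13 12 4))) (.z 492 
(.lf (.two (.lf 13 118 14 117) (.lm 14 0 11 3 16 13 4))) (.lf (.tipb 13 12 4)))) 
(.lf (.two (.lf 13 118 13 117) (.lm 13 0 8 5 16 11 6)))) (.y 500 (.t 120 
(.lf (.two (.lf 15 115 13 117) (.lm 13 0 11 0 16 13 6))) (.lf (.dir (.lf 16 115 11 120)))) 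
(.lf (.two (.lf 16 115 13 117) (.lm 13 0 8 5 16 11 6))))))) 
(.lf (.two (.lf 14 116 15 116) (.lm 15 0 5 11 19 9 12)))) (.y 506 (.t 112 
(.lf (.dir (.lf 18 112 10 121))) (.lf (.dir (.lf 19 111 10 121)))) 
(.lf (.two (.lf 19 112 15 116) (.lm 15 0 5 11 19 9 12)))))) 
(.lf (.two (.lf 17 113 17 112) (.lm 17 0 0 22 25 6 23))))) (.z 472 (.y 517 
(.lf (.two (.lf 26 90 26 90) (.lm 26 0 8 23 34 14 22))) 
(.lf (.two (.lf 26 90 26 90) (.lm 26 0 0 45 34 6 23)))) (.y 517 (.a 258 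
(.lf (.dir (.lf 23 108 8 123))) (.lf .inf)) 
(.lf (.two (.lf 26 97 17 105) (.lm 17 0 0 22 25 6 23))))))) (.y 495 (.a 247 (.z 517 (.y 472 
(.lf .inf) (.y 483 (.lf .inf) (.a 236 (.z 506 (.t 112 (.y 489 (.lf .inf) (.a 230 
(.lf (.two (.pot 0) (.lf 10 0 13 0))) (.lf (.dir (.lf 15 116 13 117))))) (.y 489 (.lf .inf) 
(.a 230 (.lf (.two (.pot 0) (.lf 10 0 13 0))) (.z 500 (.t 120 (.lf (.dir (.lf 15 115 13 117))) 
(.lf (.dir (.lf 16 115 13 117)))) (.lf .inf))))) (.lf .inf)) (.lf .inf)))) (.lf .inf)) 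
(.lf .inf)) (.a 247 (.z 517 (.y 517 (.a 236 (.z 506 (.y 506 (.t 112 (.a 230 
(.lf (.tipb 12 12 6)) (.z 500 (.y 500 (.t 104 (.lf (.dir (.lf 15 116 11 120))) (.a 233 
(.lf (.tipb 12 12 3)) (.lf (.dir (.lf 16 115 11 120))))) (.t 104 
(.lf (.two (.lf 15 116 11 120) (.lm 11 0 9 0 13 11 6))) (.a 233 (.lf (.tipb 12 10 6)) 
(.lf (.dir (.lf 16 115 9 122)))))) (.lf (.tipb 10 12 3)))) (.a 230 (.lf (.tipb 12 12 6)) 
(.z 500 (.y 500 (.t 120 (.a 233 (.lf (.tipb 12 12 3)) (.lf (.dir (.lf 16 115 11 120)))) 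
(.lf (.dir (.lf 16 115 11 120)))) (.t 120 (.a 233 (.lf (.tipb 12 10 6)) 
(.lf (.dir (.lf 16 115 9 122)))) (.lf (.dir (.lf 16 115 8 122))))) (.lf (.tipb 10 12 3))))) 
(.t 112 (.a 230 (.lf (.tipb 12 8 11)) (.z 500 
(.lf (.two (.lf 15 116 11 120) (.lm 11 0 6 6 13 9 8))) (.lf (.tipb 10 8 9)))) (.a 230 
(.lf (.tipb 12 8 11)) (.z 500 (.lf (.two (.lf 16 115 11 120) (.lm 11 0 5 6 13 9 8))) 
(.lf (.tipb 10 8 9)))))) (.lf (.tipb 8 13 6))) (.z 506 (.y 506 (.t 112 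
(.lf (.dir (.lf 18 112 10 121))) (.lf (.dir (.lf 19 111 10 121)))) (.t 112 
(.lf (.two (.lf 18 112 10 121) (.lm 10 0 6 0 13 9 11))) (.lf (.dir (.lf 19 111 5 126))))) 
(.y 506 (.t 112 (.lf (.dir (.lf 18 112 10 121))) (.lf (.dir (.lf 19 111 10 121)))) (.t 112 
(.a 241 (.lf (.tipb 8 8 6)) (.lf (.dir (.lf 19 112 6 125)))) (.lf (.dir (.lf 19 111 5 126))))))) 
(.y 528 (.a 236 (.z 506 (.lf (.two (.lf 14 116 10 121) (.lm 10 0 1 11 13 6 11))) 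
(.lf (.tipb 8 5 11))) (.z 506 (.lf (.two (.lf 19 112 10 121) (.lm 10 0 1 11 13 6 11))) (.t 112 
(.a 241 (.lf (.tipb 8 4 11)) (.lf (.dir (.lf 19 112 2 129)))) (.lf (.dir (.lf 19 111 0 131)))))) 
(.lf (.two (.lf 17 114 8 123) (.lm 8 0 0 11 14 2 17))))) (.lf (.tipb 5 14 12))) (.z 517 
(.y 517 (.a 258 (.lf (.dir (.lf 23 108 8 123))) (.lf .inf)) 
(.lf (.two (.lf 26 104 8 121) (.lm 8 0 0 0 14 6 23)))) (.y 517 (.a 258 
(.lf (.dir (.lf 23 108 8 123))) (.lf .inf)) (.a 258 (.lf (.dir (.lf 23 108 0 131))) 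
(.lf (.dir (.lf 28 103 0 131))))))))))))

theorem h5 : chk (leafR PP TD3 96 0) c5 96 128 180 270 360 540 360 540 = true := by
  decide +kernel

def c6 : Tree :=
  (.z 450 (.y 450 (.lf .inf) (.a 315 (.z 405 (.y 495 (.lf .inf) (.lf (.dir (.lf 37 73 3 107)))) 
(.y 495 (.lf .inf) (.lf (.dir (.lf 37 73 3 107))))) (.lf .inf))) (.y 450 (.lf .inf) (.a 315 
(.z 495 (.y 495 (.lf .inf) (.lf (.dir (.lf 37 73 3 107)))) (.y 495 (.lf .inf) 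
(.lf (.dir (.lf 37 73 3 107))))) (.lf .inf))))

theorem h6 : chk (leafR PP TD3 96 0) c6 96 128 270 360 360 540 360 540 = true := by
  decide +kernel

def c7 : Tree :=
  (.a 270 (.z 450 (.y 630 (.a 225 (.z 405 (.y 585 (.lf (.low 2)) (.lf (.low 2))) (.y 585 
(.lf (.low 2)) (.lf (.low 2)))) (.z 405 (.y 585 (.lf (.low 2)) (.lf (.low 2))) (.y 585 
(.lf (.low 2)) (.lf (.low 2))))) (.lf (.low 2))) (.y 630 (.a 225 (.z 495 (.y 585 (.lf (.low 2)) 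
(.lf (.low 2))) (.y 585 (.lf (.low 2)) (.lf (.low 2)))) (.z 495 (.y 585 (.lf (.low 2)) 
(.lf (.low 2))) (.y 585 (.lf (.low 2)) (.lf (.low 2))))) (.lf (.low 2)))) (.z 450 (.y 630 
(.a 315 (.z 405 (.y 585 (.lf (.low 2)) (.lf (.low 2))) (.y 585 (.lf (.low 2)) (.lf (.low 2)))) 
(.lf (.dir (.lf 46 66 0 114)))) (.lf (.low 2))) (.y 630 (.a 315 (.z 495 (.y 585 (.lf (.low 2)) 
(.lf (.low 2))) (.y 585 (.lf (.low 2)) (.lf (.low 2)))) (.lf (.dir (.lf 46 66 0 114)))) 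
(.lf (.low 2)))))

theorem h7 : chk (leafR PP TD3 96 0) c7 96 128 180 360 360 540 540 720 = true := by
  decide +kernel

def c8 : Tree :=
  (.y 540 (.a 270 (.lf (.two (.pot 0) (.lf 0 0 30 0))) (.z 630 (.y 450 (.lf .inf) (.a 315 
(.z 585 (.lf (.low 1)) (.lf .inf)) (.lf .inf))) (.lf .inf))) (.a 270 (.z 630 (.y 630 
(.lf (.tipb 3 3 45)) (.lf (.low 2))) (.lf (.low 1))) (.z 630 (.y 630 (.a 315 (.z 585 
(.lf (.low 1)) (.lf (.low 1))) (.lf (.dir (.lf 46 66 0 114)))) (.lf (.low 2))) (.lf (.low 1)))))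

theorem h8 : chk (leafR PP TD3 96 0) c8 96 128 180 360 540 720 360 720 = true := by
  decide +kernel

theorem main : ∃ T : Tree, chk (leafR PP TD3 96 0) T 96 128 0 360 0 720 360 720 = true :=
  ⟨_, (chk_z (chk_a h0 (chk_z h1 (chk_y h2 h3))) (chk_a h4 (chk_z (chk_y (chk_a h5 h6) h7) h8)))⟩

end Pool.Agent.Helper58.LDD.R03
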