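import Pool.Agent.Helper58.LD.Comb
import Pool.Agent.Helper58.LDD.Tab

set_option autoImplicit false

namespace Pool.Agent.Helper58.LDD.R04

open Pool.Agent.Helper58.LD Pool.Agent.Helper58.LDD

set_option maxRecDepth 100000

def c0 : Tree :=
  (.a 180 (.z 180 (.y 540 (.a 90 (.lf (.low 0)) (.z 90 (.lf (.low 1)) (.y 450 (.a 135 
(.lf (.low 0)) (.lf (.low 0))) (.lf (.tipa 0 0 45))))) (.a 90 (.lf .inf) (.lf (.tipa 0 25 45)))) 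
(.y 540 (.a 90 (.lf (.low 0)) (.z 270 (.y 450 (.a 135 (.lf (.low 0)) (.lf (.low 0))) (.a 135 
(.lf (.low 0)) (.lf (.low 0)))) (.y 450 (.a 135 (.lf (.low 0)) (.lf (.low 0))) (.a 135 
(.lf (.low 0)) (.lf (.low 0)))))) (.a 90 (.lf .inf) (.z 270 (.y 630 (.a 135 (.lf .inf) 
(.lf (.low 0))) (.lf .inf)) (.y 630 (.a 135 (.lf .inf) (.lf (.low 0))) (.lf .inf)))))) (.z 180 
(.y 540 (.a 270 (.z 90 (.lf .inf) (.y 450 (.a 225 (.z 135 (.lf .inf) (.lf (.low 1))) (.lf .inf)) 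
(.lf (.two (.lf 11 0 0 0) (.pot 0))))) (.lf .inf)) (.lf (.two (.lf 35 0 0 0) (.pot 0)))) 
(.y 540 (.a 270 (.z 270 (.y 450 (.a 225 (.z 225 (.y 405 (.lf .inf) (.a 202 
(.lf (.dir (.lf 0 125 45 78))) (.lf .inf))) (.y 405 (.lf .inf) (.a 202 
(.lf (.dir (.lf 0 125 45 78))) (.lf .inf)))) (.lf .inf)) (.a 225 (.z 225 (.y 495 (.a 202 
(.z 202 (.y 472 (.lf (.dir (.lf 0 131 30 101))) (.lf (.tipa 2 2 11))) (.y 472 
(.lf (.dir (.lf 0 131 30 101))) (.lf (.dir (.lf 0 131 18 113))))) (.z 202 (.y 472 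
(.lf (.two (.lf 5 0 0 0) (.lf 0 131 30 101))) (.lf (.two (.lf 5 0 0 0) (.pot 0)))) (.y 472 
(.a 213 (.lf (.dir (.lf 1 129 30 101))) (.lf .inf)) (.a 213 (.z 213 (.y 483 (.t 144 
(.lf (.dir (.lf 2 128 21 110))) (.lf (.dir (.lf 0 130 21 110)))) (.lf (.tipa 6 6 6))) (.y 483 
(.lf (.two (.lm 1 0 8 0 7 13 12) (.lf 8 123 21 110))) 
(.lf (.two (.lm 1 0 8 0 7 13 12) (.lf 8 123 14 116))))) (.z 213 (.y 483 (.t 144 
(.lf (.two (.lf 8 0 2 0) (.lf 2 128 21 110))) (.lf (.dir (.lf 7 124 21 110)))) 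
(.lf (.two (.lf 8 0 1 0) (.pot 0)))) (.y 483 (.t 144 (.a 219 (.lf (.dir (.lf 7 124 21 110))) 
(.lf (.dir (.lf 10 121 21 110)))) (.lf (.dir (.lf 7 124 21 110)))) (.t 144 (.a 219 
(.lf (.dir (.lf 7 124 15 116))) (.z 219 (.lf (.two (.lf 10 0 7 0) (.pot 0))) (.y 489 
(.lf (.dir (.lf 10 121 16 114))) (.lf (.tipa 12 12 3))))) (.lf (.dir (.lf 7 124 14 116)))))))))) 
(.lf (.tipa 14 14 23))) (.y 495 (.a 202 (.z 247 
(.lf (.two (.lm 0 23 17 0 3 26 22) (.lf 17 105 24 98))) 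
(.lf (.two (.lm 0 45 30 0 3 40 23) (.lf 30 87 24 93)))) (.z 247 (.y 472 (.a 213 
(.lf (.dir (.lf 1 129 30 101))) (.lf .inf)) (.a 213 (.y 483 
(.lf (.two (.lm 1 12 17 0 7 26 17) (.lf 17 113 21 110))) 
(.lf (.two (.lm 1 12 17 0 7 26 17) (.lf 17 113 14 116)))) (.y 483 (.z 236 (.t 144 (.a 219 
(.lf (.dir (.lf 7 124 21 110))) (.lf (.dir (.lf 10 121 21 110)))) 
(.lf (.dir (.lf 7 124 21 110)))) (.t 144 
(.lf (.two (.lm 8 11 20 0 13 25 12) (.lf 20 111 21 110))) (.lf (.dir (.lf 7 124 21 110))))) 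
(.z 236 (.t 144 (.a 219 (.lf (.dir (.lf 7 124 15 116))) (.y 489 
(.lf (.dir (.lf 10 121 16 114))) (.lf (.dir (.lf 10 121 13 118))))) 
(.lf (.dir (.lf 7 124 14 116)))) (.t 144 
(.lf (.two (.lm 8 11 20 0 13 25 12) (.lf 20 111 15 116))) (.lf (.dir (.lf 7 124 14 116)))))))) 
(.y 472 (.a 213 (.lf (.dir (.lf 1 129 30 101))) (.lf .inf)) (.a 213 
(.lf (.two (.lm 1 34 30 0 7 40 17) (.lf 30 95 18 107))) (.z 258 (.y 483 
(.lf (.two (.lm 8 22 26 0 13 32 12) (.lf 26 104 21 110))) 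
(.lf (.two (.lm 8 22 26 0 13 32 12) (.lf 26 104 14 116)))) (.y 483 
(.lf (.two (.lm 8 33 32 0 13 39 12) (.lf 32 95 21 107))) 
(.lf (.two (.lm 8 33 32 0 13 39 12) (.lf 32 97 14 116))))))))) (.a 202 (.z 247 (.y 517 
(.lf (.two (.lm 0 23 17 0 3 26 22) (.lf 17 113 5 126))) (.lf (.tipa 2 25 34))) (.y 517 
(.lf (.two (.lm 0 45 30 0 3 40 23) (.lf 30 100 5 125))) (.lf (.dir (.lf 0 131 0 131))))) 
(.z 247 (.y 517 (.a 213 (.z 236 (.lf (.two (.lm 1 12 14 0 7 19 11) (.lf 14 116 5 126))) 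
(.lf (.two (.lm 1 23 20 0 7 26 11) (.lf 20 110 5 126)))) (.z 236 (.y 506 (.t 144 (.a 219 
(.lf (.dir (.lf 7 124 9 122))) (.z 230 (.lf (.tipa 12 14 6)) 
(.lf (.two (.lm 10 5 16 0 13 18 6) (.lf 16 115 9 122))))) (.lf (.dir (.lf 7 124 7 123)))) 
(.lf (.tipa 12 18 12))) (.y 506 (.t 144 
(.lf (.two (.lm 8 11 20 0 13 25 12) (.lf 20 111 9 122))) (.lf (.dir (.lf 7 124 7 123)))) 
(.lf (.two (.lm 8 11 20 0 13 26 12) (.lf 20 110 2 128)))))) (.a 213 (.lf (.tipa 6 25 23)) 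
(.lf (.dir (.lf 8 123 0 131))))) (.y 517 (.a 213 
(.lf (.two (.lm 1 34 30 0 7 40 17) (.lf 30 100 5 125))) (.z 258 (.y 506 
(.lf (.two (.lm 8 22 26 0 13 32 12) (.lf 26 104 8 123))) 
(.lf (.two (.lm 8 22 26 0 13 32 12) (.lf 26 104 2 128)))) 
(.lf (.two (.lm 8 33 32 0 13 39 12) (.lf 32 98 5 126))))) 
(.lf (.two (.lm 5 22 30 0 14 40 23) (.lf 30 101 0 131)))))))) (.z 225 (.y 495 (.a 247 (.z 202 
(.lf .inf) (.y 472 (.lf .inf) (.z 213 (.lf .inf) (.y 483 (.lf .inf) (.a 236 (.t 144 (.z 219 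
(.lf .inf) (.y 489 (.lf (.two (.lf 14 0 10 0) (.lf 10 121 16 114))) 
(.lf (.two (.lf 14 0 10 0) (.pot 0))))) (.lf (.two (.lf 14 0 7 0) (.lf 7 124 14 116)))) 
(.lf .inf)))))) (.lf .inf)) (.lf (.two (.lf 24 0 0 0) (.pot 0)))) (.y 495 (.a 247 (.z 247 
(.y 472 (.lf .inf) (.y 483 (.lf .inf) (.a 236 (.z 236 (.t 144 (.y 489 (.a 230 
(.lf (.dir (.lf 13 118 16 114))) (.lf .inf)) (.a 230 (.lf (.dir (.lf 13 118 13 118))) 
(.lf (.dir (.lf 16 115 13 118))))) (.y 489 (.a 230 (.lf (.dir (.lf 12 119 16 115))) (.lf .inf)) 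
(.lf (.dir (.lf 14 117 12 118))))) (.t 144 (.y 489 (.a 230 (.lf (.dir (.lf 13 118 16 114))) 
(.lf .inf)) (.a 230 (.lf (.dir (.lf 13 118 13 118))) (.lf (.dir (.lf 16 115 13 118))))) 
(.y 489 (.a 230 (.lf (.dir (.lf 12 119 16 115))) (.lf .inf)) (.lf (.dir (.lf 14 117 12 118)))))) 
(.lf .inf)))) (.y 472 (.lf .inf) (.z 258 (.y 483 (.lf .inf) (.a 236 (.t 144 (.y 489 (.a 230 
(.lf (.dir (.lf 13 118 16 114))) (.lf .inf)) (.a 230 (.lf (.dir (.lf 13 118 13 118))) 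
(.lf (.dir (.lf 16 115 13 118))))) (.y 489 (.a 230 (.lf (.dir (.lf 12 119 16 115))) (.lf .inf)) 
(.lf (.dir (.lf 14 117 12 118))))) (.lf .inf))) (.y 483 (.lf .inf) (.a 236 (.t 144 (.z 264 
(.lf (.two (.lm 14 22 30 0 18 33 9) (.lf 30 101 15 116))) 
(.lf (.two (.lm 14 28 33 0 18 36 9) (.lf 33 97 15 116)))) (.z 264 (.y 489 (.a 230 
(.lf (.dir (.lf 12 119 16 115))) (.lf .inf)) (.lf (.dir (.lf 14 117 12 118)))) (.y 489 (.a 230 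
(.lf (.dir (.lf 12 119 16 115))) (.lf .inf)) (.lf (.dir (.lf 14 117 12 118)))))) (.lf .inf)))))) 
(.lf .inf)) (.a 247 (.z 247 (.y 517 (.a 236 (.z 236 (.y 506 (.t 144 (.a 230 (.z 230 
(.lf (.tipa 14 14 3)) (.y 500 (.lf (.dir (.lf 13 118 10 120))) (.lf (.tipa 14 17 6)))) (.z 230 
(.lf (.two (.lf 16 0 13 0) (.pot 0))) (.y 500 (.lf (.dir (.lf 16 115 10 120))) 
(.lf (.dir (.lf 16 115 7 123)))))) (.lf (.dir (.lf 14 117 7 123)))) (.t 144 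
(.lf (.dir (.lf 14 116 3 127))) (.lf (.dir (.lf 14 117 1 130))))) (.y 506 (.t 144 (.a 230 
(.lf (.two (.lm 13 6 20 0 15 25 8) (.lf 20 111 9 122))) (.z 241 (.y 500 
(.lf (.dir (.lf 16 115 10 120))) (.lf (.dir (.lf 16 115 7 123)))) 
(.lf (.two (.lm 16 5 21 0 18 24 6) (.lf 21 109 9 122))))) (.lf (.dir (.lf 14 117 7 123)))) 
(.t 144 (.lf (.dir (.lf 14 116 3 127))) (.lf (.dir (.lf 14 117 1 130)))))) (.z 236 (.y 506 
(.t 144 (.a 241 (.lf (.dir (.lf 19 112 9 122))) (.lf .inf)) (.lf (.dir (.lf 20 110 7 123)))) 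
(.lf (.two (.lf 20 0 14 0) (.pot 0)))) (.y 506 (.t 144 (.a 241 (.lf (.dir (.lf 19 112 9 122))) 
(.lf (.dir (.lf 21 109 9 122)))) (.lf (.dir (.lf 20 110 7 123)))) (.t 144 
(.lf (.dir (.lf 20 111 3 127))) (.lf (.dir (.lf 20 110 1 130))))))) 
(.lf (.dir (.lf 17 113 0 131)))) (.y 517 (.z 258 (.a 236 (.y 506 (.t 144 (.a 230 
(.lf (.two (.lm 13 17 26 0 15 30 8) (.lf 26 105 9 122))) 
(.lf (.two (.lm 16 11 26 0 18 30 9) (.lf 26 105 9 122)))) (.lf (.dir (.lf 14 117 7 123)))) 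
(.t 144 (.lf (.dir (.lf 14 116 3 127))) (.lf (.dir (.lf 14 117 1 130))))) (.y 506 (.t 144 
(.a 241 (.lf (.dir (.lf 19 112 9 122))) (.lf (.dir (.lf 21 109 9 122)))) 
(.lf (.dir (.lf 20 110 7 123)))) (.t 144 (.lf (.dir (.lf 20 111 3 127))) 
(.lf (.dir (.lf 20 110 1 130)))))) (.a 236 (.y 506 
(.lf (.two (.lm 14 22 32 0 19 39 12) (.lf 32 98 8 123))) 
(.lf (.two (.lm 14 22 32 0 19 39 12) (.lf 32 98 2 128)))) (.y 506 (.t 144 (.z 264 (.a 241 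
(.lf (.dir (.lf 19 112 9 122))) (.lf (.dir (.lf 21 109 9 122)))) 
(.lf (.two (.lm 20 17 33 0 25 36 9) (.lf 33 98 9 122)))) (.lf (.dir (.lf 20 110 7 123)))) 
(.t 144 (.lf (.dir (.lf 20 111 3 127))) (.lf (.dir (.lf 20 110 1 130))))))) 
(.lf (.dir (.lf 17 113 0 131))))) (.z 247 (.y 517 (.a 258 (.z 236 (.lf .inf) (.y 506 (.lf .inf) 
(.lf (.dir (.lf 26 104 2 128))))) (.lf .inf)) (.lf (.dir (.lf 30 101 0 131)))) (.y 517 (.a 258 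
(.z 258 (.y 506 (.lf .inf) (.lf (.dir (.lf 26 104 2 128)))) (.y 506 (.lf .inf) 
(.lf (.dir (.lf 26 104 2 128))))) (.lf .inf)) (.lf (.dir (.lf 30 101 0 131)))))))))) (.y 450 
(.a 225 (.z 315 (.y 405 (.lf .inf) (.a 202 (.lf (.dir (.lf 0 125 45 78))) (.lf .inf))) (.y 405 
(.lf .inf) (.a 202 (.lf (.dir (.lf 0 125 45 78))) (.lf .inf)))) (.lf .inf)) (.a 225 (.z 315 
(.y 495 (.a 202 (.z 292 (.lf (.two (.lm 0 68 41 0 3 51 22) (.lf 41 70 24 88))) 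
(.lf (.two (.lm 0 82 50 8 3 60 23) (.lf 50 52 24 83)))) (.z 292 (.y 472 (.a 213 
(.lf (.dir (.lf 1 129 30 101))) (.lf .inf)) (.a 213 
(.lf (.two (.lm 1 57 41 0 7 51 17) (.lf 41 78 18 102))) (.y 483 
(.lf (.two (.lm 8 45 41 0 13 51 17) (.lf 41 80 21 100))) 
(.lf (.two (.lm 8 45 41 0 13 51 17) (.lf 41 82 14 109)))))) (.y 472 (.a 213 
(.lf (.dir (.lf 1 129 30 101))) (.lf .inf)) (.a 213 
(.lf (.two (.lm 1 79 50 0 7 60 17) (.lf 50 60 18 97))) 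
(.lf (.two (.lm 8 67 50 0 13 60 18) (.lf 50 60 18 97))))))) (.a 202 (.z 292 (.y 517 
(.lf (.two (.lm 0 68 41 0 3 51 22) (.lf 41 83 5 120))) (.lf (.dir (.lf 0 131 0 131)))) (.y 517 
(.lf (.two (.lm 0 82 50 8 3 60 23) (.lf 50 66 5 114))) (.lf (.dir (.lf 0 131 0 131))))) 
(.z 292 (.y 517 (.a 213 (.lf (.two (.lm 1 57 41 0 7 51 17) (.lf 41 83 5 120))) 
(.lf (.two (.lm 8 45 41 0 13 51 17) (.lf 41 83 5 120)))) 
(.lf (.two (.lm 5 45 41 0 14 51 23) (.lf 41 89 0 131)))) (.y 517 (.a 213 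
(.lf (.two (.lm 1 79 50 0 7 60 17) (.lf 50 66 5 114))) 
(.lf (.two (.lm 8 67 50 0 13 60 18) (.lf 50 66 5 114)))) 
(.lf (.two (.lm 5 67 50 0 14 60 23) (.lf 50 75 0 127))))))) (.y 495 (.a 202 (.z 337 
(.lf (.two (.lm 0 94 56 19 3 66 22) (.lf 56 34 24 79))) (.y 472 (.lf (.dir (.lf 0 131 30 101))) 
(.lf (.dir (.lf 0 131 18 113))))) (.z 337 (.y 472 (.a 213 (.lf (.dir (.lf 1 129 30 101))) 
(.lf .inf)) (.a 213 (.lf (.two (.lm 1 91 56 11 7 66 17) (.lf 56 44 18 91))) 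
(.lf (.two (.lm 8 84 56 6 13 66 17) (.lf 56 44 18 91))))) (.y 472 (.a 213 
(.lf (.dir (.lf 1 129 30 101))) (.lf .inf)) (.a 213 
(.lf (.two (.lm 1 99 59 25 7 68 17) (.lm 59 26 18 86 68 27 23))) 
(.lf (.two (.lm 8 92 59 20 13 68 18) (.lm 59 26 18 86 68 27 23))))))) (.a 202 (.z 337 (.y 517 
(.lf (.two (.lm 0 94 56 19 3 66 22) (.lf 56 50 5 108))) (.lf (.dir (.lf 0 131 0 131)))) 
(.y 517 (.lf (.two (.lf 0 104 59 31) (.lf 59 34 5 101))) (.lf (.dir (.lf 0 131 0 131))))) 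
(.z 337 (.y 517 (.a 213 (.lf (.two (.lm 1 91 56 11 7 66 17) (.lf 56 50 5 108))) 
(.lf (.two (.lm 8 84 56 6 13 66 17) (.lf 56 50 5 108)))) 
(.lf (.two (.lm 5 87 56 3 14 66 23) (.lf 56 59 0 121)))) (.y 517 (.a 213 
(.lf (.two (.lm 1 99 59 25 7 68 17) (.lf 59 34 5 101))) 
(.lf (.two (.lm 8 92 59 20 13 68 18) (.lf 59 34 5 101)))) 
(.lf (.two (.lm 5 94 59 18 14 68 23) (.lf 59 44 0 113)))))))) (.z 315 (.y 495 (.a 247 (.z 292 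
(.y 472 (.lf .inf) (.y 483 (.lf .inf) (.a 236 (.z 281 (.t 144 
(.lf (.two (.lm 14 34 37 0 18 42 11) (.lf 37 90 15 112))) (.y 489 (.a 230 
(.lf (.dir (.lf 12 119 16 115))) (.lf .inf)) (.lf (.dir (.lf 14 117 12 118))))) (.t 144 
(.lf (.two (.lm 14 45 41 0 18 46 11) (.lf 41 82 15 109))) 
(.lf (.two (.lm 14 45 45 0 19 50 11) (.lf 45 79 14 112))))) (.lf .inf)))) (.y 472 (.lf .inf) 
(.z 303 (.y 483 (.lf .inf) (.a 236 (.t 144 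
(.lf (.two (.lm 14 56 45 0 18 51 11) (.lf 45 74 15 106))) 
(.lf (.two (.lm 14 56 50 0 19 55 11) (.lf 50 71 14 109)))) (.lf .inf))) (.y 483 (.lf .inf) 
(.a 236 (.t 144 (.lf (.two (.lm 14 67 49 0 18 54 12) (.lf 49 65 15 103))) 
(.lf (.two (.lm 14 67 54 0 19 60 12) (.lf 54 62 14 106)))) (.lf .inf)))))) (.lf .inf)) (.a 247 
(.z 292 (.y 517 (.a 236 (.z 281 (.y 506 
(.lf (.two (.lm 14 34 38 0 19 45 11) (.lf 38 92 8 122))) 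
(.lf (.two (.lm 14 34 38 0 19 45 11) (.lf 38 92 2 128)))) 
(.lf (.two (.lm 14 45 43 0 19 51 11) (.lf 43 82 5 121)))) (.z 281 (.y 506 (.t 144 
(.lf (.two (.lm 20 23 37 0 25 42 11) (.lf 37 93 9 121))) (.lf (.dir (.lf 20 110 7 123)))) 
(.lf (.two (.lm 20 23 38 0 26 45 11) (.lf 38 92 2 128)))) (.y 506 
(.lf (.two (.lm 20 34 43 0 26 51 11) (.lf 43 83 8 120))) 
(.lf (.two (.lm 20 34 43 0 26 51 11) (.lf 43 86 2 128)))))) (.lf (.dir (.lf 17 113 0 131)))) 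
(.y 517 (.z 303 (.a 236 (.lf (.two (.lm 14 56 47 0 19 56 11) (.lf 47 74 5 118))) (.y 506 
(.lf (.two (.lm 20 45 47 0 26 56 11) (.lf 47 75 8 117))) 
(.lf (.two (.lm 20 45 47 0 26 56 11) (.lf 47 78 2 125))))) (.a 236 
(.lf (.two (.lm 14 67 51 0 19 60 12) (.lf 51 65 5 115))) 
(.lf (.two (.lm 20 56 51 0 26 60 12) (.lf 51 65 5 115))))) (.lf (.dir (.lf 17 113 0 131))))) 
(.z 292 (.y 517 (.a 258 (.z 281 (.y 506 (.lf .inf) (.lf (.dir (.lf 26 104 2 128)))) (.y 506 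
(.lf .inf) (.lf (.dir (.lf 26 104 2 128))))) (.lf .inf)) (.lf (.dir (.lf 30 101 0 131)))) 
(.y 517 (.a 258 (.z 303 (.y 506 (.lf .inf) (.lf (.dir (.lf 26 104 2 128)))) (.y 506 (.lf .inf) 
(.lf (.dir (.lf 26 104 2 128))))) (.lf .inf)) (.lf (.dir (.lf 30 101 0 131))))))) (.y 495 
(.a 247 (.z 337 (.y 472 (.lf .inf) (.y 483 (.lf .inf) (.a 236 (.z 326 
(.lf (.two (.lm 14 76 55 3 19 63 11) (.lf 55 55 14 102))) 
(.lf (.two (.lm 14 81 57 9 19 66 11) (.lf 57 48 14 98)))) (.lf .inf)))) (.y 472 (.lf .inf) 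
(.z 348 (.y 483 (.lf .inf) (.a 236 
(.lf (.two (.lm 14 84 59 17 19 67 11) (.lm 59 40 14 95 67 19 12))) (.lf .inf))) (.y 483 
(.lf .inf) (.a 236 (.lf (.two (.lm 14 88 60 24 19 68 12) (.lm 60 31 14 92 68 19 12))) 
(.lf .inf)))))) (.lf .inf)) (.a 247 (.z 337 (.y 517 (.a 236 
(.lf (.two (.lm 14 78 56 1 19 66 17) (.lf 56 50 5 108))) (.z 326 
(.lf (.two (.lm 20 68 55 0 26 63 11) (.lf 55 57 5 112))) 
(.lf (.two (.lm 20 74 57 5 26 66 11) (.lf 57 49 5 109))))) (.lf (.dir (.lf 17 113 0 131)))) 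
(.y 517 (.z 348 (.a 236 (.lf (.two (.lm 14 84 59 17 19 67 11) (.lf 59 42 5 105))) 
(.lf (.two (.lm 20 77 59 13 26 67 11) (.lf 59 42 5 105)))) (.a 236 
(.lf (.two (.lm 14 88 60 24 19 68 12) (.lf 60 34 5 101))) 
(.lf (.two (.lm 20 81 60 20 26 68 12) (.lf 60 34 5 101))))) (.lf (.dir (.lf 17 113 0 131))))) 
(.z 337 (.y 517 (.a 258 (.lf (.two (.lm 26 57 56 0 32 66 17) (.lf 56 50 5 108))) (.lf .inf)) 
(.lf (.dir (.lf 30 101 0 131)))) (.y 517 (.a 258 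
(.lf (.two (.lm 26 71 59 8 32 68 17) (.lf 59 34 5 101))) (.lf .inf)) 
(.lf (.dir (.lf 30 101 0 131))))))))))) (.z 270 (.y 450 (.lf .inf) (.a 315 (.z 225 (.lf .inf) 
(.y 495 (.lf .inf) (.a 292 (.z 247 (.lf .inf) (.y 517 (.lf .inf) (.lf (.dir (.lf 41 89 0 131))))) 
(.lf .inf)))) (.lf .inf))) (.y 450 (.lf .inf) (.a 315 (.z 315 (.y 495 (.lf .inf) (.a 292 
(.z 292 (.y 517 (.lf .inf) (.lf (.dir (.lf 41 89 0 131)))) (.y 517 (.lf .inf) 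
(.lf (.dir (.lf 41 89 0 131))))) (.lf .inf))) (.y 495 (.lf .inf) (.a 292 (.z 337 (.y 517 
(.lf .inf) (.lf (.dir (.lf 41 89 0 131)))) (.y 517 (.lf .inf) (.lf (.dir (.lf 41 89 0 131))))) 
(.lf .inf)))) (.lf .inf))))) (.a 270 (.z 270 (.y 630 (.a 225 (.z 225 (.lf (.tipa 14 14 23)) 
(.y 585 (.lf (.low 2)) (.lf (.low 2)))) (.z 225 (.lf (.two (.lf 24 0 0 0) (.pot 0))) (.y 585 
(.lf (.low 2)) (.lf (.low 2))))) (.lf (.low 2))) (.y 630 (.a 225 (.z 315 (.y 585 (.lf (.low 2)) 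
(.lf (.low 2))) (.y 585 (.lf (.low 2)) (.lf (.low 2)))) (.z 315 (.y 585 (.lf (.low 2)) 
(.lf (.low 2))) (.y 585 (.lf (.low 2)) (.lf (.low 2))))) (.lf (.low 2)))) (.z 270 
(.lf (.two (.lf 53 0 11 0) (.pot 0))) (.y 630 (.a 315 (.z 315 (.y 585 (.lf (.low 2)) 
(.lf (.low 2))) (.y 585 (.lf (.low 2)) (.lf (.low 2)))) (.lf (.dir (.lf 58 58 0 122)))) 
(.lf (.low 2))))))))

theorem h0 : chk (leafR PP TD4 128 0) c0 128 160 0 360 0 360 360 720 = true := by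
  decide +kernel

def c1 : Tree :=
  (.a 180 (.z 540 (.y 540 (.a 90 (.lf (.low 0)) (.z 450 (.y 450 (.a 135 (.lf (.low 0)) 
(.lf (.low 0))) (.a 135 (.lf (.low 0)) (.lf (.low 0)))) (.y 450 
(.lf (.two (.pot 0) (.lf 11 0 53 0))) (.a 135 (.lf (.low 0)) (.lf (.low 0)))))) (.a 90 
(.lf .inf) (.z 450 (.y 630 (.a 135 (.lf .inf) (.lf (.low 0))) (.lf .inf)) (.y 630 (.a 135 
(.lf .inf) (.lf (.low 0))) (.lf .inf))))) (.y 540 (.lf (.two (.pot 0) (.lf 0 0 35 0))) (.a 90 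
(.lf .inf) (.z 630 (.y 630 (.lf (.tipb 0 0 45)) (.lf .inf)) (.lf (.low 1)))))) (.z 540 (.y 540 
(.a 270 (.z 450 (.y 450 (.a 225 (.z 405 (.y 405 (.lf .inf) (.a 202 
(.lf (.dir (.lf 0 125 45 78))) (.lf .inf))) (.y 405 (.lf .inf) (.a 202 
(.lf (.dir (.lf 0 125 45 78))) (.lf .inf)))) (.lf .inf)) (.a 225 (.z 405 (.y 495 (.a 202 
(.z 382 (.y 472 (.lf (.dir (.lf 0 131 30 101))) (.lf (.dir (.lf 0 131 18 113)))) (.y 472 
(.lf (.dir (.lf 0 131 30 101))) (.lf (.dir (.lf 0 131 18 113))))) (.z 382 (.y 472 (.a 213 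
(.lf (.dir (.lf 1 129 30 101))) (.lf .inf)) (.a 213 
(.lf (.two (.lf 1 108 59 39) (.lm 59 10 18 80 68 27 23))) 
(.lf (.two (.lf 8 100 59 35) (.lm 59 10 18 80 68 27 23))))) (.y 472 (.a 213 
(.lf (.dir (.lf 1 129 30 101))) (.lf .inf)) (.a 213 
(.lf (.two (.lf 1 115 56 54) (.lm 56 0 18 67 66 27 23))) (.z 393 
(.lf (.two (.lf 8 107 57 50) (.lm 57 2 18 77 66 27 17))) 
(.lf (.two (.lf 8 110 55 58) (.lm 55 0 18 67 63 27 18)))))))) (.a 202 (.z 382 (.y 517 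
(.lf (.two (.lf 0 113 59 45) (.lm 59 19 5 94 68 14 22))) (.lf (.dir (.lf 0 131 0 131)))) 
(.y 517 (.lf (.two (.lf 0 121 56 59) (.lm 56 3 5 87 66 14 23))) (.lf (.dir (.lf 0 131 0 131))))) 
(.z 382 (.y 517 (.a 213 (.lf (.two (.lf 1 108 59 39) (.lm 59 19 5 94 68 14 22))) 
(.lf (.two (.lf 8 100 59 35) (.lm 59 19 5 94 68 14 22)))) 
(.lf (.two (.lf 5 101 59 34) (.lf 59 31 0 104)))) (.y 517 (.a 213 
(.lf (.two (.lf 1 115 56 54) (.lm 56 3 5 87 66 14 23))) 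
(.lf (.two (.lf 8 106 56 51) (.lm 56 3 5 87 66 14 23)))) 
(.lf (.two (.lf 5 108 56 49) (.lm 56 18 0 94 66 3 23))))))) (.y 495 (.a 202 (.z 427 (.y 472 
(.lf (.dir (.lf 0 131 30 101))) (.lf (.dir (.lf 0 131 18 113)))) (.y 472 
(.lf (.dir (.lf 0 131 30 101))) (.lf (.dir (.lf 0 131 18 113))))) (.z 427 (.y 472 (.a 213 
(.lf (.dir (.lf 1 129 30 101))) (.lf .inf)) (.a 213 (.y 483 
(.lf (.two (.lf 1 121 50 71) (.lm 50 0 21 45 60 26 17))) 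
(.lf (.two (.lf 1 121 50 71) (.lm 50 0 14 56 60 19 17)))) (.y 483 (.z 416 
(.lf (.two (.lf 8 114 52 66) (.lm 52 0 21 56 60 26 11))) 
(.lf (.two (.lf 8 117 48 74) (.lm 48 0 21 45 56 26 11)))) 
(.lf (.two (.lf 8 112 50 68) (.lm 50 0 14 56 60 19 17)))))) (.y 472 (.a 213 
(.lf (.dir (.lf 1 129 30 101))) (.lf .inf)) (.a 213 (.z 438 (.y 483 
(.lf (.two (.lf 1 129 43 85) (.lm 43 0 21 34 51 26 11))) 
(.lf (.two (.lf 1 129 43 85) (.lm 43 0 14 45 51 19 12)))) (.y 483 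
(.lf (.two (.lf 1 129 38 92) (.lm 38 0 21 22 46 26 12))) 
(.lf (.two (.lf 1 129 38 92) (.lm 38 0 14 33 46 19 12))))) (.z 438 (.y 483 (.t 144 
(.lf (.two (.lf 8 118 41 84) (.lm 41 0 21 34 47 25 11))) (.lf (.dir (.lf 7 124 21 110)))) 
(.lf (.two (.lf 8 119 43 83) (.lm 43 0 14 45 51 19 12)))) (.y 483 (.t 144 (.a 219 
(.lf (.dir (.lf 7 124 21 110))) (.lf (.dir (.lf 10 121 21 110)))) 
(.lf (.dir (.lf 7 124 21 110)))) (.lf (.two (.lf 8 122 38 91) (.lm 38 0 14 33 46 19 12))))))))) 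
(.a 202 (.z 427 (.y 517 (.lf (.two (.lf 0 128 50 75) (.lm 50 0 5 68 60 14 22))) 
(.lf (.dir (.lf 0 131 0 131)))) (.y 517 (.lf (.two (.lf 0 131 41 89) (.lm 41 0 5 45 52 14 23))) 
(.lf (.dir (.lf 0 131 0 131))))) (.z 427 (.y 517 (.a 213 
(.lf (.two (.lf 1 121 50 71) (.lm 50 0 5 68 60 14 22))) 
(.lf (.two (.lf 8 112 50 68) (.lm 50 0 5 68 60 14 22)))) 
(.lf (.two (.lf 5 114 50 66) (.lm 50 7 0 83 60 3 23)))) (.y 517 (.a 213 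
(.lf (.two (.lf 1 127 41 87) (.lm 41 0 5 45 52 14 23))) (.z 438 
(.lf (.two (.lf 8 119 43 83) (.lm 43 0 5 57 51 14 17))) 
(.lf (.two (.lf 8 122 38 91) (.lm 38 0 5 45 46 14 17))))) 
(.lf (.two (.lf 5 119 41 83) (.lm 41 0 0 67 52 3 23)))))))) (.z 405 (.y 495 (.a 247 (.z 382 
(.y 472 (.lf .inf) (.y 483 (.lf .inf) (.a 236 (.z 371 
(.lf (.two (.lm 14 92 60 32 19 68 11) (.lm 60 24 14 88 68 19 12))) 
(.lf (.two (.lm 14 95 59 40 19 67 11) (.lm 59 17 14 84 67 19 12)))) (.lf .inf)))) (.y 472 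
(.lf .inf) (.z 393 (.y 483 (.lf .inf) (.a 236 (.t 144 
(.lf (.two (.lm 14 97 54 49 18 59 11) (.lm 54 13 15 77 59 19 12))) 
(.lf (.two (.lf 14 101 60 45) (.lm 60 6 14 84 65 19 12)))) (.lf .inf))) (.y 483 (.lf .inf) 
(.a 236 (.lf (.two (.lf 14 102 55 55) (.lm 55 2 14 76 63 19 12))) (.lf .inf)))))) (.lf .inf)) 
(.a 247 (.z 382 (.y 517 (.a 236 
(.lf (.two (.lm 14 92 59 32 19 68 17) (.lm 59 19 5 94 68 14 22))) 
(.lf (.two (.lm 20 84 59 29 26 68 17) (.lm 59 19 5 94 68 14 22)))) 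
(.lf (.dir (.lf 17 113 0 131)))) (.y 517 (.z 393 (.a 236 
(.lf (.two (.lf 14 99 57 47) (.lm 57 12 5 90 66 14 17))) 
(.lf (.two (.lm 20 91 57 44 26 66 11) (.lm 57 12 5 90 66 14 17)))) 
(.lf (.two (.lf 17 95 55 51) (.lm 55 5 5 85 63 14 17)))) (.lf (.dir (.lf 17 113 0 131))))) 
(.z 382 (.y 517 (.a 258 (.lf (.two (.lm 26 77 59 25 32 68 17) (.lm 59 19 5 94 68 14 22))) 
(.lf .inf)) (.lf (.dir (.lf 30 101 0 131)))) (.y 517 (.a 258 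
(.lf (.two (.lf 26 82 56 42) (.lm 56 3 5 87 66 14 23))) (.lf .inf)) 
(.lf (.dir (.lf 30 101 0 131))))))) (.y 495 (.a 247 (.z 427 (.y 472 (.lf .inf) (.y 483 
(.lf .inf) (.a 236 (.z 416 (.lf (.two (.lf 14 105 52 64) (.lm 52 0 14 67 60 19 12))) (.t 144 
(.lf (.two (.lf 14 107 46 73) (.lm 46 0 15 56 51 19 12))) 
(.lf (.two (.lf 14 110 50 70) (.lm 50 0 14 56 56 19 12))))) (.lf .inf)))) (.y 472 (.lf .inf) 
(.z 438 (.y 483 (.lf .inf) (.a 236 (.t 144 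
(.lf (.two (.lf 14 110 41 81) (.lm 41 0 15 45 47 19 12))) 
(.lf (.two (.lf 14 112 45 79) (.lm 45 0 14 45 51 19 12)))) (.lf .inf))) (.y 483 (.lf .inf) 
(.a 236 (.t 144 (.lf (.two (.lf 14 112 37 90) (.lm 37 0 15 33 42 19 12))) (.z 444 
(.lf (.two (.lf 14 115 41 87) (.lm 41 0 14 39 45 19 9))) (.y 489 
(.lf (.two (.lf 14 117 38 91) (.lm 38 0 16 33 42 19 6))) (.lf (.dir (.lf 14 117 12 118)))))) 
(.lf .inf)))))) (.lf .inf)) (.a 247 (.z 427 (.y 517 (.a 236 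
(.lf (.two (.lf 14 104 50 65) (.lm 50 0 5 68 60 14 22))) 
(.lf (.two (.lf 20 96 50 62) (.lm 50 0 5 68 60 14 22)))) (.lf (.dir (.lf 17 113 0 131)))) 
(.y 517 (.z 438 (.a 236 (.lf (.two (.lf 14 111 43 80) (.lm 43 0 5 57 51 14 17))) 
(.lf (.two (.lf 20 102 43 78) (.lm 43 0 5 57 51 14 17)))) (.a 236 
(.lf (.two (.lf 14 113 38 89) (.lm 38 0 5 45 46 14 17))) 
(.lf (.two (.lf 20 105 38 86) (.lm 38 0 5 45 46 14 17))))) (.lf (.dir (.lf 17 113 0 131))))) 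
(.z 427 (.y 517 (.a 258 (.lf (.two (.lf 26 87 50 60) (.lm 50 0 5 68 60 14 22))) (.lf .inf)) 
(.lf (.dir (.lf 30 101 0 131)))) (.y 517 (.a 258 (.z 438 
(.lf (.two (.lf 26 94 43 75) (.lm 43 0 5 57 51 14 17))) 
(.lf (.two (.lf 26 96 38 84) (.lm 38 0 5 45 46 14 17)))) (.lf .inf)) 
(.lf (.dir (.lf 30 101 0 131)))))))))) (.y 450 (.a 225 (.z 495 (.y 405 (.lf .inf) (.a 202 
(.lf (.dir (.lf 0 125 45 78))) (.lf .inf))) (.lf .inf)) (.lf .inf)) (.a 225 (.z 495 (.y 495 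
(.a 202 (.z 472 (.y 472 (.lf (.dir (.lf 0 131 30 101))) (.lf (.dir (.lf 0 131 18 113)))) 
(.y 472 (.lf (.dir (.lf 0 131 30 101))) (.lf (.dir (.lf 0 131 18 113))))) (.z 472 (.y 472 
(.a 213 (.lf (.dir (.lf 1 129 30 101))) (.lf .inf)) (.a 213 (.y 483 (.z 461 (.t 144 
(.lf (.dir (.lf 2 128 21 110))) (.lf (.dir (.lf 0 130 21 110)))) (.t 144 
(.lf (.dir (.lf 2 128 21 110))) (.lf (.dir (.lf 0 130 21 110))))) (.z 461 
(.lf (.two (.lf 1 129 33 98) (.lm 33 0 14 22 39 19 12))) (.t 144 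
(.lf (.dir (.lf 2 128 15 116))) (.lf (.dir (.lf 0 130 14 116)))))) (.y 483 (.z 461 (.t 144 
(.a 219 (.lf (.dir (.lf 7 124 21 110))) (.lf (.dir (.lf 10 121 21 110)))) 
(.lf (.dir (.lf 7 124 21 110)))) (.t 144 (.a 219 (.lf (.dir (.lf 7 124 21 110))) 
(.lf (.dir (.lf 10 121 21 110)))) (.lf (.dir (.lf 7 124 21 110))))) (.z 461 
(.lf (.two (.lf 8 123 33 98) (.lm 33 0 14 22 39 19 12))) (.t 144 (.a 219 
(.lf (.dir (.lf 7 124 15 116))) (.y 489 (.lf (.dir (.lf 10 121 16 114))) 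
(.lf (.dir (.lf 10 121 13 118))))) (.lf (.dir (.lf 7 124 14 116)))))))) (.y 472 (.a 213 
(.lf (.dir (.lf 1 129 30 101))) (.lf .inf)) (.a 213 (.z 483 (.y 483 (.t 144 
(.lf (.dir (.lf 2 128 21 110))) (.lf (.dir (.lf 0 130 21 110)))) (.t 144 
(.lf (.dir (.lf 2 128 15 116))) (.lf (.dir (.lf 0 130 14 116))))) (.y 483 
(.lf (.two (.pot 0) (.lf 14 0 21 0))) (.t 144 (.lf (.dir (.lf 2 128 15 116))) 
(.lf (.dir (.lf 0 130 14 116)))))) (.z 483 (.y 483 (.t 144 (.a 219 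
(.lf (.dir (.lf 7 124 21 110))) (.lf (.dir (.lf 10 121 21 110)))) 
(.lf (.dir (.lf 7 124 21 110)))) (.t 144 (.a 219 (.lf (.dir (.lf 7 124 15 116))) (.y 489 
(.lf (.dir (.lf 10 121 16 114))) (.lf (.dir (.lf 10 121 13 118))))) 
(.lf (.dir (.lf 7 124 14 116))))) (.y 483 (.t 144 (.a 219 (.lf (.dir (.lf 7 124 21 110))) 
(.lf (.dir (.lf 10 121 21 110)))) (.lf (.dir (.lf 7 124 21 110)))) (.t 144 (.a 219 
(.lf (.dir (.lf 7 124 15 116))) (.z 489 (.y 489 (.lf (.dir (.lf 10 121 16 114))) 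
(.lf (.dir (.lf 10 121 13 118)))) (.lf (.tipb 15 18 3)))) (.lf (.dir (.lf 7 124 14 116)))))))))) 
(.a 202 (.z 472 (.y 517 (.lf (.two (.lf 0 131 30 101) (.lm 30 0 5 23 40 14 22))) 
(.lf (.dir (.lf 0 131 0 131)))) (.y 517 (.z 483 
(.lf (.two (.lf 0 131 21 110) (.lm 21 0 5 12 26 14 17))) (.lf (.tipb 18 13 17))) 
(.lf (.tipb 26 2 34)))) (.z 472 (.y 517 (.a 213 (.z 461 
(.lf (.two (.lf 1 129 33 98) (.lm 33 0 5 34 39 14 17))) 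
(.lf (.two (.lf 1 129 27 104) (.lm 27 0 5 23 33 14 17)))) (.z 461 
(.lf (.two (.lf 8 123 33 98) (.lm 33 0 5 34 39 14 17))) (.y 506 
(.lf (.two (.lf 8 123 27 104) (.lm 27 0 8 23 33 13 11))) 
(.lf (.two (.lf 8 123 27 104) (.lm 27 0 2 34 33 8 11)))))) 
(.lf (.two (.lf 5 125 30 100) (.lm 30 0 0 45 40 3 23)))) (.y 517 (.a 213 (.z 483 (.y 506 
(.lf (.two (.lf 1 129 21 110) (.lm 21 0 8 12 26 13 11))) 
(.lf (.two (.lf 1 129 21 110) (.lm 21 0 2 23 26 8 11)))) (.lf (.tipb 18 13 17))) (.z 483 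
(.y 506 (.lf (.two (.lf 8 123 21 110) (.lm 21 0 8 12 26 13 11))) 
(.lf (.two (.lf 8 123 21 110) (.lm 21 0 2 23 26 8 11)))) (.y 506 (.t 144 (.a 219 
(.lf (.tipb 18 12 12)) (.z 489 (.lf (.two (.lf 10 121 16 114) (.lm 16 0 9 6 19 13 9))) 
(.lf (.tipb 15 12 9)))) (.lf (.dir (.lf 7 124 7 123)))) 
(.lf (.two (.lf 8 123 14 116) (.lm 14 0 2 11 19 8 12)))))) 
(.lf (.two (.lf 5 126 18 113) (.lm 18 0 0 22 27 3 23))))))) (.y 495 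
(.lf (.two (.pot 0) (.lf 0 0 24 0))) (.lf (.tipb 14 14 23)))) (.z 495 (.y 495 (.a 247 (.z 472 
(.y 472 (.lf .inf) (.y 483 (.lf .inf) (.a 236 (.z 461 (.t 144 (.y 489 
(.lf (.two (.lf 14 116 32 98) (.lm 32 0 16 22 37 19 9))) 
(.lf (.two (.lf 14 116 32 98) (.lm 32 0 13 28 37 16 9)))) (.y 489 (.a 230 
(.lf (.dir (.lf 12 119 16 115))) (.lf .inf)) (.lf (.dir (.lf 14 117 12 118))))) (.t 144 
(.y 489 (.a 230 (.lf (.dir (.lf 13 118 16 114))) (.lf .inf)) 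
(.lf (.two (.lf 14 116 26 104) (.lm 26 0 13 17 31 16 9)))) (.y 489 (.a 230 
(.lf (.dir (.lf 12 119 16 115))) (.lf .inf)) (.lf (.dir (.lf 14 117 12 118)))))) (.lf .inf)))) 
(.y 472 (.lf .inf) (.z 483 (.y 483 (.lf .inf) (.a 236 (.t 144 (.y 489 (.a 230 
(.lf (.dir (.lf 13 118 16 114))) (.lf .inf)) (.a 230 (.lf (.dir (.lf 13 118 13 118))) 
(.lf (.dir (.lf 16 115 13 118))))) (.y 489 (.a 230 (.lf (.dir (.lf 12 119 16 115))) (.lf .inf)) 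
(.lf (.dir (.lf 14 117 12 118))))) (.lf .inf))) (.y 483 (.lf .inf) (.a 236 (.t 144 (.z 489 
(.y 489 (.a 230 (.lf (.dir (.lf 13 118 16 114))) (.lf .inf)) (.a 230 
(.lf (.dir (.lf 13 118 13 118))) (.lf (.dir (.lf 16 115 13 118))))) (.y 489 (.a 230 
(.lf (.dir (.lf 13 118 16 114))) (.lf .inf)) (.a 230 (.lf (.dir (.lf 13 118 13 118))) 
(.lf (.dir (.lf 16 115 13 118)))))) (.z 489 (.y 489 (.a 230 (.lf (.dir (.lf 12 119 16 115))) 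
(.lf .inf)) (.lf (.dir (.lf 14 117 12 118)))) (.y 489 
(.lf (.two (.lf 14 117 12 118) (.lf 12 0 16 0))) (.lf (.dir (.lf 14 117 12 118)))))) (.lf .inf)))))) 
(.lf .inf)) (.a 247 (.z 472 (.y 517 (.a 236 (.z 461 
(.lf (.two (.lf 14 116 33 98) (.lm 33 0 5 34 39 14 17))) (.y 506 
(.lf (.two (.lf 14 116 27 104) (.lm 27 0 8 23 33 13 11))) 
(.lf (.two (.lf 14 116 27 104) (.lm 27 0 2 34 33 8 11))))) (.z 461 (.y 506 
(.lf (.two (.lf 20 108 33 95) (.lm 33 0 8 34 39 13 11))) 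
(.lf (.two (.lf 20 108 33 95) (.lm 33 0 2 45 39 8 11)))) (.y 506 
(.lf (.two (.lf 20 110 27 104) (.lm 27 0 8 23 33 13 11))) 
(.lf (.two (.lf 20 110 27 104) (.lm 27 0 2 34 33 8 11)))))) (.lf (.dir (.lf 17 113 0 131)))) 
(.y 517 (.z 483 (.a 236 (.y 506 (.t 144 
(.lf (.two (.lf 14 116 21 110) (.lm 21 0 9 12 25 13 11))) (.lf (.dir (.lf 14 117 7 123)))) 
(.lf (.two (.lf 14 116 21 110) (.lm 21 0 2 23 26 8 11)))) (.y 506 (.t 144 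
(.lf (.two (.lf 20 111 21 110) (.lm 21 0 9 12 25 13 11))) (.lf (.dir (.lf 20 110 7 123)))) 
(.lf (.two (.lf 20 110 21 110) (.lm 21 0 2 23 26 8 11))))) (.a 236 (.y 506 (.t 144 (.z 489 
(.lf (.two (.lf 14 116 16 114) (.lm 16 0 9 6 19 13 9))) 
(.lf (.two (.lf 14 116 13 118) (.lm 13 0 9 0 16 13 9)))) (.lf (.dir (.lf 14 117 7 123)))) 
(.lf (.two (.lf 14 116 14 116) (.lm 14 0 2 11 19 8 12)))) (.y 506 (.t 144 (.z 489 
(.lf (.two (.lf 20 111 16 114) (.lm 16 0 9 6 19 13 9))) 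
(.lf (.two (.lf 20 111 13 118) (.lm 13 0 9 0 16 13 9)))) (.lf (.dir (.lf 20 110 7 123)))) 
(.lf (.two (.lf 20 110 14 116) (.lm 14 0 2 11 19 8 12)))))) (.lf (.dir (.lf 17 113 0 131))))) 
(.z 472 (.y 517 (.a 258 (.z 461 (.lf (.two (.lf 26 99 33 93) (.lm 33 0 5 34 39 14 17))) 
(.y 506 (.lf .inf) (.lf (.dir (.lf 26 104 2 128))))) (.lf .inf)) 
(.lf (.dir (.lf 30 101 0 131)))) (.y 517 (.a 258 (.z 483 (.y 506 (.lf .inf) 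
(.lf (.dir (.lf 26 104 2 128)))) (.y 506 (.lf .inf) (.lf (.dir (.lf 26 104 2 128))))) 
(.lf .inf)) (.lf (.dir (.lf 30 101 0 131))))))) (.y 495 (.a 247 (.z 517 (.y 472 (.lf .inf) 
(.y 483 (.lf .inf) (.a 236 (.z 506 (.t 144 (.y 489 (.lf .inf) (.a 230 
(.lf (.dir (.lf 13 118 13 118))) (.lf (.dir (.lf 16 115 13 118))))) 
(.lf (.two (.lf 14 117 7 123) (.lf 7 0 14 0)))) (.lf .inf)) (.lf .inf)))) (.lf .inf)) 
(.lf .inf)) (.a 247 (.z 517 (.y 517 (.a 236 (.z 506 (.y 506 (.t 144 (.a 230 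
(.lf (.tipb 12 12 6)) (.z 500 (.y 500 (.lf (.dir (.lf 16 115 10 120))) 
(.lf (.dir (.lf 16 115 7 123)))) (.lf (.tipb 10 12 3)))) (.lf (.dir (.lf 14 117 7 123)))) 
(.lf (.two (.lf 14 116 8 123) (.lm 8 0 2 0 13 8 11)))) (.lf (.tipb 7 13 6))) (.z 506 (.y 506 
(.t 144 (.a 241 (.lf (.dir (.lf 19 112 9 122))) (.lf (.dir (.lf 21 109 9 122)))) 
(.lf (.dir (.lf 20 110 7 123)))) (.lf (.two (.lf 20 110 8 123) (.lm 8 0 2 0 13 8 11)))) 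
(.y 506 (.t 144 (.lf (.two (.lf 20 111 3 127) (.lf 3 0 9 0))) (.lf (.dir (.lf 20 110 7 123)))) 
(.t 144 (.lf (.dir (.lf 20 111 3 127))) (.lf (.dir (.lf 20 110 1 130))))))) 
(.lf (.dir (.lf 17 113 0 131)))) (.lf (.tipb 2 14 12))) (.z 517 (.y 517 (.a 258 (.z 506 
(.lf (.two (.lf 26 104 8 123) (.lm 8 0 5 0 13 14 11))) (.y 506 (.lf .inf) 
(.lf (.dir (.lf 26 104 2 128))))) (.lf .inf)) (.lf (.dir (.lf 30 101 0 131)))) (.y 517 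
(.lf (.two (.lf 30 101 0 131) (.lf 0 0 5 0))) (.lf (.dir (.lf 30 101 0 131))))))))))) (.z 450 
(.y 450 (.lf .inf) (.a 315 (.z 405 (.y 495 (.lf .inf) (.a 292 (.z 382 (.y 517 (.lf .inf) 
(.lf (.dir (.lf 41 89 0 131)))) (.y 517 (.lf .inf) (.lf (.dir (.lf 41 89 0 131))))) (.lf .inf))) 
(.y 495 (.lf .inf) (.a 292 (.z 427 (.y 517 (.lf .inf) (.lf (.dir (.lf 41 89 0 131)))) (.y 517 
(.lf .inf) (.lf (.dir (.lf 41 89 0 131))))) (.lf .inf)))) (.lf .inf))) (.y 450 (.lf .inf) 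
(.a 315 (.z 495 (.y 495 (.lf .inf) (.a 292 (.z 472 (.y 517 (.lf .inf) 
(.lf (.dir (.lf 41 89 0 131)))) (.y 517 (.lf .inf) (.lf (.dir (.lf 41 89 0 131))))) (.lf .inf))) 
(.y 495 (.lf .inf) (.a 292 (.z 517 (.lf (.two (.lf 41 83 5 120) (.lm 5 0 0 0 14 15 23))) 
(.lf (.two (.lf 41 89 0 131) (.lm 0 0 0 0 3 15 12)))) (.lf .inf)))) (.lf .inf))))) (.a 270 
(.z 450 (.y 630 (.a 225 (.z 405 (.y 585 (.lf (.low 2)) (.lf (.low 2))) (.y 585 (.lf (.low 2)) 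
(.lf (.low 2)))) (.z 405 (.y 585 (.lf (.low 2)) (.lf (.low 2))) (.y 585 (.lf (.low 2)) 
(.lf (.low 2))))) (.lf (.low 2))) (.y 630 (.a 225 (.z 495 (.y 585 (.lf (.low 2)) (.lf (.low 2))) 
(.y 585 (.lf (.low 2)) (.lf (.low 2)))) (.z 495 (.y 585 (.lf (.low 2)) (.lf (.low 2))) (.y 585 
(.lf (.low 2)) (.lf (.low 2))))) (.lf (.low 2)))) (.z 450 (.y 630 (.a 315 (.z 405 (.y 585 
(.lf (.low 2)) (.lf (.low 2))) (.y 585 (.lf (.low 2)) (.lf (.low 2)))) 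
(.lf (.dir (.lf 58 58 0 122)))) (.lf (.low 2))) (.y 630 (.a 315 (.z 495 (.y 585 (.lf (.low 2)) 
(.lf (.low 2))) (.y 585 (.lf (.low 2)) (.lf (.low 2)))) (.lf (.dir (.lf 58 58 0 122)))) 
(.lf (.low 2)))))) (.y 540 (.a 270 (.lf (.two (.pot 0) (.lf 0 0 35 0))) (.z 630 (.y 450 
(.lf .inf) (.a 315 (.z 585 (.lf (.low 1)) (.lf .inf)) (.lf .inf))) (.lf .inf))) (.a 270 
(.z 630 (.y 630 (.lf (.tipb 0 0 45)) (.lf (.low 2))) (.lf (.low 1))) (.z 630 (.y 630 (.a 315 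
(.z 585 (.lf (.low 1)) (.lf (.low 1))) (.lf (.dir (.lf 58 58 0 122)))) (.lf (.low 2))) 
(.lf (.low 1)))))))

theorem h1 : chk (leafR PP TD4 128 0) c1 128 160 0 360 360 720 360 720 = true := by
  decide +kernel

theorem main : ∃ T : Tree, chk (leafR PP TD4 128 0) T 128 160 0 360 0 720 360 720 = true :=
  ⟨_, (chk_z h0 h1)⟩

end Pool.Agent.Helper58.LDD.R04
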