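import Pool.Agent.Helper58.LD.Comb
import Pool.Agent.Helper58.LDD.Tab

set_option autoImplicit false

namespace Pool.Agent.Helper58.LDD.R05

open Pool.Agent.Helper58.LD Pool.Agent.Helper58.LDD

set_option maxRecDepth 100000

def c0 : Tree :=
  (.a 180 (.z 180 (.y 540 (.a 90 (.lf (.low 0)) (.lf (.low 0))) (.a 90 (.lf .inf) 
(.lf (.low 0)))) (.y 540 (.a 90 (.lf (.low 0)) (.lf (.low 0))) (.a 90 (.lf .inf) (.lf (.low 0))))) 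
(.z 180 (.y 540 (.a 270 (.z 90 (.lf .inf) (.lf (.low 1))) (.lf .inf)) 
(.lf (.two (.lf 40 0 0 0) (.pot 0)))) (.y 540 (.a 270 (.z 270 (.y 450 (.a 225 (.z 225 (.y 405 
(.lf .inf) (.a 202 (.lf (.low 0)) (.lf .inf))) (.y 405 (.lf .inf) (.a 202 (.lf (.low 0)) 
(.lf .inf)))) (.lf .inf)) (.a 225 (.z 225 (.y 495 (.a 202 (.lf (.low 0)) (.z 202 (.lf (.low 1)) 
(.y 472 (.a 213 (.lf (.dir (.lf 0 131 33 98))) (.lf .inf)) (.a 213 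
(.lf (.dir (.lf 0 131 17 114))) (.z 213 (.lf (.two (.lf 4 0 0 0) (.lf 0 131 17 114))) (.y 483 
(.lf (.dir (.lf 4 127 21 110))) (.t 176 (.lf (.dir (.lf 5 125 13 117))) 
(.lf (.dir (.lf 2 128 12 119)))))))))) (.lf (.tipa 13 13 23))) (.y 495 (.a 202 (.lf (.low 0)) 
(.z 247 (.y 472 (.a 213 (.lf (.dir (.lf 0 131 33 98))) (.lf .inf)) (.a 213 
(.lf (.dir (.lf 0 131 17 114))) (.y 483 (.lf (.dir (.lf 4 127 21 110))) (.z 236 (.t 176 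
(.lf (.dir (.lf 5 125 13 117))) (.lf (.dir (.lf 2 128 12 119)))) (.t 176 
(.lf (.dir (.lf 5 125 13 117))) (.lf (.dir (.lf 2 128 12 119)))))))) (.y 472 (.a 213 
(.lf (.dir (.lf 0 131 33 98))) (.lf .inf)) (.a 213 (.lf (.dir (.lf 0 131 17 114))) (.z 258 
(.y 483 (.lf (.dir (.lf 4 127 21 110))) (.t 176 (.lf (.dir (.lf 5 125 13 117))) 
(.lf (.dir (.lf 2 128 12 119))))) (.y 483 (.lf (.dir (.lf 4 127 21 110))) (.t 176 
(.lf (.dir (.lf 5 125 13 117))) (.lf (.dir (.lf 2 128 12 119)))))))))) (.a 202 (.lf (.low 0)) 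
(.z 247 (.y 517 (.a 213 (.lf (.dir (.lf 0 131 0 130))) (.z 236 (.y 506 
(.lf (.dir (.lf 4 127 4 126))) (.lf (.tipa 11 18 12))) (.y 506 (.lf (.dir (.lf 4 127 4 126))) 
(.lf (.dir (.lf 4 127 0 131)))))) (.lf (.low 2))) (.y 517 (.a 213 
(.lf (.dir (.lf 0 131 0 130))) (.z 258 (.y 506 (.lf (.dir (.lf 4 127 4 126))) 
(.lf (.dir (.lf 4 127 0 131)))) (.y 506 (.lf (.dir (.lf 4 127 4 126))) 
(.lf (.dir (.lf 4 127 0 131)))))) (.lf (.low 2))))))) (.z 225 (.y 495 (.a 247 (.z 202 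
(.lf .inf) (.y 472 (.lf .inf) (.z 213 (.lf .inf) (.y 483 (.lf .inf) (.a 236 (.t 176 
(.lf (.two (.lf 13 0 5 0) (.lf 5 125 13 117))) (.lf (.dir (.lf 11 119 12 119)))) (.lf .inf)))))) 
(.lf .inf)) (.lf (.two (.lf 25 0 0 0) (.pot 0)))) (.y 495 (.a 247 (.z 247 (.y 472 (.lf .inf) 
(.y 483 (.lf .inf) (.a 236 (.z 236 (.t 176 (.y 489 (.lf (.dir (.lf 13 118 15 115))) 
(.lf (.dir (.lf 13 118 11 119)))) (.lf (.dir (.lf 11 119 12 119)))) (.t 176 (.y 489 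
(.lf (.dir (.lf 13 118 15 115))) (.lf (.dir (.lf 13 118 11 119)))) 
(.lf (.dir (.lf 11 119 12 119))))) (.lf .inf)))) (.y 472 (.lf .inf) (.z 258 (.y 483 (.lf .inf) 
(.a 236 (.t 176 (.y 489 (.lf (.dir (.lf 13 118 15 115))) (.lf (.dir (.lf 13 118 11 119)))) 
(.lf (.dir (.lf 11 119 12 119)))) (.lf .inf))) (.y 483 (.lf .inf) (.a 236 (.t 176 (.z 264 
(.y 489 (.lf (.dir (.lf 13 118 15 115))) (.lf (.dir (.lf 13 118 11 119)))) (.y 489 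
(.lf (.dir (.lf 13 118 15 115))) (.lf (.dir (.lf 13 118 11 119))))) 
(.lf (.dir (.lf 11 119 12 119)))) (.lf .inf)))))) (.lf .inf)) (.a 247 (.z 247 (.y 517 (.a 236 
(.z 236 (.y 506 (.t 176 (.lf (.dir (.lf 13 118 5 125))) (.lf (.dir (.lf 11 119 3 128)))) 
(.lf (.dir (.lf 12 118 0 131)))) (.y 506 (.t 176 (.lf (.dir (.lf 13 118 5 125))) 
(.lf (.dir (.lf 11 119 3 128)))) (.lf (.dir (.lf 12 118 0 131))))) (.z 236 (.y 506 (.t 176 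
(.lf (.dir (.lf 20 110 5 125))) (.lf (.dir (.lf 20 111 3 128)))) 
(.lf (.dir (.lf 20 110 0 131)))) (.y 506 (.t 176 (.lf (.dir (.lf 20 110 5 125))) 
(.lf (.dir (.lf 20 111 3 128)))) (.lf (.dir (.lf 20 110 0 131)))))) (.lf (.low 2))) (.y 517 
(.z 258 (.a 236 (.y 506 (.t 176 (.lf (.dir (.lf 13 118 5 125))) (.lf (.dir (.lf 11 119 3 128)))) 
(.lf (.dir (.lf 12 118 0 131)))) (.y 506 (.t 176 (.lf (.dir (.lf 20 110 5 125))) 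
(.lf (.dir (.lf 20 111 3 128)))) (.lf (.dir (.lf 20 110 0 131))))) (.a 236 (.y 506 (.t 176 
(.lf (.dir (.lf 13 118 5 125))) (.lf (.dir (.lf 11 119 3 128)))) 
(.lf (.dir (.lf 12 118 0 131)))) (.y 506 (.t 176 (.lf (.dir (.lf 20 110 5 125))) 
(.lf (.dir (.lf 20 111 3 128)))) (.lf (.dir (.lf 20 110 0 131)))))) (.lf (.low 2)))) (.z 247 
(.y 517 (.a 258 (.z 236 (.lf .inf) (.y 506 (.lf .inf) (.lf (.dir (.lf 28 102 0 131))))) 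
(.lf .inf)) (.lf (.low 2))) (.y 517 (.a 258 (.z 258 (.y 506 (.lf .inf) 
(.lf (.dir (.lf 28 102 0 131)))) (.y 506 (.lf .inf) (.lf (.dir (.lf 28 102 0 131))))) 
(.lf .inf)) (.lf (.low 2))))))))) (.y 450 (.a 225 (.z 315 (.y 405 (.lf .inf) (.a 202 
(.lf (.low 0)) (.lf .inf))) (.y 405 (.lf .inf) (.a 202 (.lf (.low 0)) (.lf .inf)))) (.lf .inf)) 
(.a 225 (.z 315 (.y 495 (.a 202 (.lf (.low 0)) (.z 292 (.y 472 (.a 213 
(.lf (.dir (.lf 0 131 33 98))) (.lf .inf)) (.a 213 (.lf (.dir (.lf 0 131 17 114))) (.y 483 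
(.lf (.dir (.lf 4 127 21 110))) (.z 281 
(.lf (.two (.lm 4 45 44 0 12 52 12) (.lf 44 85 13 117))) 
(.lf (.two (.lm 4 56 50 0 12 59 12) (.lf 50 75 13 116))))))) (.y 472 (.a 213 
(.lf (.dir (.lf 0 131 33 98))) (.lf .inf)) (.a 213 (.lf (.dir (.lf 0 131 17 114))) (.z 303 
(.y 483 (.lf (.dir (.lf 4 127 21 110))) 
(.lf (.two (.lm 4 67 56 0 12 65 12) (.lf 56 66 13 114)))) (.y 483 
(.lf (.dir (.lf 4 127 21 110))) (.lf (.two (.lm 4 78 61 0 12 71 12) (.lf 61 56 13 112))))))))) 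
(.a 202 (.lf (.low 0)) (.z 292 (.y 517 (.a 213 (.lf (.dir (.lf 0 131 0 130))) (.z 281 (.y 506 
(.lf (.dir (.lf 4 127 4 126))) (.lf (.dir (.lf 4 127 0 131)))) (.y 506 
(.lf (.dir (.lf 4 127 4 126))) (.lf (.dir (.lf 4 127 0 131)))))) (.lf (.low 2))) (.y 517 
(.a 213 (.lf (.dir (.lf 0 131 0 130))) (.z 303 (.y 506 (.lf (.dir (.lf 4 127 4 126))) 
(.lf (.dir (.lf 4 127 0 131)))) (.y 506 (.lf (.dir (.lf 4 127 4 126))) 
(.lf (.dir (.lf 4 127 0 131)))))) (.lf (.low 2)))))) (.y 495 (.a 202 (.lf (.low 0)) (.z 337 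
(.y 472 (.a 213 (.lf (.dir (.lf 0 131 33 98))) (.lf .inf)) (.a 213 
(.lf (.dir (.lf 0 131 17 114))) (.y 483 (.lf (.dir (.lf 4 127 21 110))) 
(.lf (.two (.lm 4 90 67 0 12 78 17) (.lf 67 39 13 107)))))) (.y 472 (.a 213 
(.lf (.dir (.lf 0 131 33 98))) (.lf .inf)) (.a 213 (.lf (.dir (.lf 0 131 17 114))) (.z 348 
(.y 483 (.lf (.dir (.lf 4 127 21 110))) 
(.lf (.two (.lm 4 108 71 4 12 80 12) (.lf 71 28 13 107)))) (.y 483 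
(.lf (.dir (.lf 4 127 21 110))) (.lf (.two (.lf 4 111 72 12) (.lf 72 18 13 105))))))))) 
(.a 202 (.lf (.low 0)) (.z 337 (.y 517 (.a 213 (.lf (.dir (.lf 0 131 0 130))) (.z 326 (.y 506 
(.lf (.dir (.lf 4 127 4 126))) (.lf (.dir (.lf 4 127 0 131)))) (.y 506 
(.lf (.dir (.lf 4 127 4 126))) (.lf (.dir (.lf 4 127 0 131)))))) (.lf (.low 2))) (.y 517 
(.a 213 (.lf (.dir (.lf 0 131 0 130))) (.z 348 (.y 506 (.lf (.dir (.lf 4 127 4 126))) 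
(.lf (.dir (.lf 4 127 0 131)))) (.y 506 (.lf (.dir (.lf 4 127 4 126))) 
(.lf (.dir (.lf 4 127 0 131)))))) (.lf (.low 2))))))) (.z 315 (.y 495 (.a 247 (.z 292 (.y 472 
(.lf .inf) (.y 483 (.lf .inf) (.a 236 (.z 281 (.t 176 (.y 489 (.lf (.dir (.lf 13 118 15 115))) 
(.lf (.dir (.lf 13 118 11 119)))) (.lf (.dir (.lf 11 119 12 119)))) (.t 176 (.y 489 
(.lf (.dir (.lf 13 118 15 115))) (.lf (.dir (.lf 13 118 11 119)))) 
(.lf (.dir (.lf 11 119 12 119))))) (.lf .inf)))) (.y 472 (.lf .inf) (.z 303 (.y 483 (.lf .inf) 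
(.a 236 (.t 176 (.lf (.two (.lm 13 56 54 0 18 60 11) (.lf 54 68 13 112))) 
(.lf (.dir (.lf 11 119 12 119)))) (.lf .inf))) (.y 483 (.lf .inf) (.a 236 (.t 176 
(.lf (.two (.lm 13 67 59 0 18 65 12) (.lf 59 58 13 110))) (.lf (.dir (.lf 11 119 12 119)))) 
(.lf .inf)))))) (.lf .inf)) (.a 247 (.z 292 (.y 517 (.a 236 (.z 281 (.y 506 (.t 176 
(.lf (.dir (.lf 13 118 5 125))) (.lf (.dir (.lf 11 119 3 128)))) 
(.lf (.dir (.lf 12 118 0 131)))) (.y 506 (.t 176 (.lf (.dir (.lf 13 118 5 125))) 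
(.lf (.dir (.lf 11 119 3 128)))) (.lf (.dir (.lf 12 118 0 131))))) (.z 281 (.y 506 (.t 176 
(.lf (.dir (.lf 20 110 5 125))) (.lf (.dir (.lf 20 111 3 128)))) 
(.lf (.dir (.lf 20 110 0 131)))) (.y 506 (.t 176 (.lf (.dir (.lf 20 110 5 125))) 
(.lf (.dir (.lf 20 111 3 128)))) (.lf (.dir (.lf 20 110 0 131)))))) (.lf (.low 2))) (.y 517 
(.z 303 (.a 236 (.y 506 (.lf (.two (.lm 12 56 56 0 19 65 11) (.lf 56 68 4 124))) 
(.lf (.dir (.lf 12 118 0 131)))) (.y 506 (.t 176 (.lf (.dir (.lf 20 110 5 125))) 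
(.lf (.dir (.lf 20 111 3 128)))) (.lf (.dir (.lf 20 110 0 131))))) (.a 236 (.y 506 
(.lf (.two (.lm 12 67 61 0 19 71 12) (.lf 61 58 4 122))) (.lf (.dir (.lf 12 118 0 131)))) 
(.y 506 (.lf (.two (.lm 20 56 61 0 26 71 12) (.lf 61 58 4 122))) 
(.lf (.dir (.lf 20 110 0 131)))))) (.lf (.low 2)))) (.z 292 (.y 517 (.a 258 (.z 281 (.y 506 
(.lf .inf) (.lf (.dir (.lf 28 102 0 131)))) (.y 506 (.lf .inf) (.lf (.dir (.lf 28 102 0 131))))) 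
(.lf .inf)) (.lf (.low 2))) (.y 517 (.a 258 (.z 303 (.y 506 (.lf .inf) 
(.lf (.dir (.lf 28 102 0 131)))) (.y 506 (.lf .inf) (.lf (.dir (.lf 28 102 0 131))))) 
(.lf .inf)) (.lf (.low 2)))))) (.y 495 (.a 247 (.z 337 (.y 472 (.lf .inf) (.y 483 (.lf .inf) 
(.a 236 (.z 326 (.t 176 (.lf (.two (.lm 13 79 63 0 18 69 11) (.lf 63 49 13 108))) 
(.lf (.dir (.lf 11 119 12 119)))) (.t 176 
(.lf (.two (.lm 13 90 66 0 18 71 11) (.lf 66 40 13 106))) (.lf (.dir (.lf 11 119 12 119))))) 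
(.lf .inf)))) (.y 472 (.lf .inf) (.z 348 (.y 483 (.lf .inf) (.a 236 (.t 176 
(.lf (.two (.lm 13 96 68 5 18 73 11) (.lf 68 31 13 104))) (.lf (.dir (.lf 11 119 12 119)))) 
(.lf .inf))) (.y 483 (.lf .inf) (.a 236 (.t 176 
(.lf (.two (.lm 13 99 69 13 18 74 12) (.lm 69 22 13 101 74 19 12))) 
(.lf (.dir (.lf 11 119 12 119)))) (.lf .inf)))))) (.lf .inf)) (.a 247 (.z 337 (.y 517 (.a 236 
(.z 326 (.y 506 (.lf (.two (.lm 12 79 66 0 19 75 11) (.lf 66 49 4 120))) 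
(.lf (.dir (.lf 12 118 0 131)))) (.y 506 
(.lf (.two (.lm 12 90 69 0 19 78 11) (.lf 69 40 4 118))) (.lf (.dir (.lf 12 118 0 131))))) 
(.z 326 (.y 506 (.lf (.two (.lm 20 68 66 0 26 75 11) (.lf 66 49 4 120))) 
(.lf (.dir (.lf 20 110 0 131)))) (.y 506 
(.lf (.two (.lm 20 79 69 0 26 78 11) (.lf 69 40 4 118))) (.lf (.dir (.lf 20 110 0 131)))))) 
(.lf (.low 2))) (.y 517 (.z 348 (.a 236 (.y 506 
(.lf (.two (.lm 12 100 71 1 19 80 11) (.lf 71 31 4 116))) (.lf (.dir (.lf 12 118 0 131)))) 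
(.y 506 (.lf (.two (.lm 20 90 71 0 26 80 11) (.lf 71 31 4 116))) 
(.lf (.dir (.lf 20 110 0 131))))) (.a 236 (.y 506 
(.lf (.two (.lf 12 103 72 9) (.lf 72 22 4 113))) (.lf (.dir (.lf 12 118 0 131)))) (.y 506 
(.lf (.two (.lm 20 95 72 6 26 80 12) (.lf 72 22 4 113))) (.lf (.dir (.lf 20 110 0 131)))))) 
(.lf (.low 2)))) (.z 337 (.y 517 (.a 258 (.z 326 (.y 506 (.lf .inf) 
(.lf (.dir (.lf 28 102 0 131)))) (.y 506 (.lf .inf) (.lf (.dir (.lf 28 102 0 131))))) 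
(.lf .inf)) (.lf (.low 2))) (.y 517 (.a 258 (.z 348 (.y 506 (.lf .inf) 
(.lf (.dir (.lf 28 102 0 131)))) (.y 506 (.lf .inf) (.lf (.dir (.lf 28 102 0 131))))) 
(.lf .inf)) (.lf (.low 2)))))))))) (.z 270 (.y 450 (.lf .inf) (.a 315 (.z 225 (.lf .inf) 
(.y 495 (.lf .inf) (.a 292 (.z 247 (.lf .inf) (.y 517 (.lf .inf) (.lf (.low 2)))) (.lf .inf)))) 
(.lf .inf))) (.y 450 (.lf .inf) (.a 315 (.z 315 (.y 495 (.lf .inf) (.a 292 (.z 292 (.y 517 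
(.lf .inf) (.lf (.low 2))) (.y 517 (.lf .inf) (.lf (.low 2)))) (.lf .inf))) (.y 495 (.lf .inf) 
(.a 292 (.z 337 (.y 517 (.lf .inf) (.lf (.low 2))) (.y 517 (.lf .inf) (.lf (.low 2)))) 
(.lf .inf)))) (.lf .inf))))) (.a 270 (.z 270 (.y 630 (.lf (.low 2)) (.lf (.low 2))) (.y 630 
(.lf (.low 2)) (.lf (.low 2)))) (.z 270 (.lf (.two (.lf 64 0 8 0) (.pot 0))) (.y 630 
(.lf (.low 2)) (.lf (.low 2))))))))

theorem h0 : chk (leafR PP TD5 160 0) c0 160 192 0 360 0 360 360 720 = true := by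
  decide +kernel

def c1 : Tree :=
  (.a 180 (.z 540 (.y 540 (.a 90 (.lf (.low 0)) (.lf (.low 0))) (.a 90 (.lf .inf) 
(.lf (.low 0)))) (.y 540 (.lf (.two (.pot 0) (.lf 0 0 40 0))) (.a 90 (.lf .inf) (.lf (.low 0))))) 
(.z 540 (.y 540 (.a 270 (.z 450 (.y 450 (.a 225 (.z 405 (.y 405 (.lf .inf) (.a 202 
(.lf (.low 0)) (.lf .inf))) (.y 405 (.lf .inf) (.a 202 (.lf (.low 0)) (.lf .inf)))) (.lf .inf)) 
(.a 225 (.z 405 (.y 495 (.a 202 (.lf (.low 0)) (.z 382 (.y 472 (.a 213 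
(.lf (.dir (.lf 0 131 33 98))) (.lf .inf)) (.a 213 (.lf (.dir (.lf 0 131 17 114))) (.y 483 
(.lf (.dir (.lf 4 127 21 110))) (.lf (.two (.lf 4 113 72 22) (.lf 72 0 13 101)))))) (.y 472 
(.a 213 (.lf (.dir (.lf 0 131 33 98))) (.lf .inf)) (.a 213 (.lf (.dir (.lf 0 131 17 114))) 
(.z 393 (.y 483 (.lf (.dir (.lf 4 127 21 110))) 
(.lf (.two (.lf 4 118 69 39) (.lm 69 0 13 90 78 19 12)))) (.y 483 
(.lf (.dir (.lf 4 127 21 110))) (.lf (.two (.lf 4 120 66 48) (.lm 66 0 13 78 75 19 12))))))))) 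
(.a 202 (.lf (.low 0)) (.z 382 (.y 517 (.a 213 (.lf (.dir (.lf 0 131 0 130))) (.z 371 (.y 506 
(.lf (.dir (.lf 4 127 4 126))) (.lf (.dir (.lf 4 127 0 131)))) (.y 506 
(.lf (.dir (.lf 4 127 4 126))) (.lf (.dir (.lf 4 127 0 131)))))) (.lf (.low 2))) (.y 517 
(.a 213 (.lf (.dir (.lf 0 131 0 130))) (.z 393 (.y 506 (.lf (.dir (.lf 4 127 4 126))) 
(.lf (.dir (.lf 4 127 0 131)))) (.y 506 (.lf (.dir (.lf 4 127 4 126))) 
(.lf (.dir (.lf 4 127 0 131)))))) (.lf (.low 2)))))) (.y 495 (.a 202 (.lf (.low 0)) (.z 427 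
(.y 472 (.a 213 (.lf (.dir (.lf 0 131 33 98))) (.lf .inf)) (.a 213 
(.lf (.dir (.lf 0 131 17 114))) (.y 483 (.lf (.dir (.lf 4 127 21 110))) (.z 416 
(.lf (.two (.lf 4 122 61 58) (.lm 61 0 13 67 71 19 12))) 
(.lf (.two (.lf 4 124 56 67) (.lm 56 0 13 56 65 19 12))))))) (.y 472 (.a 213 
(.lf (.dir (.lf 0 131 33 98))) (.lf .inf)) (.a 213 (.lf (.dir (.lf 0 131 17 114))) (.z 438 
(.y 483 (.lf (.dir (.lf 4 127 21 110))) (.t 176 (.lf (.dir (.lf 5 125 13 117))) 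
(.lf (.dir (.lf 2 128 12 119))))) (.y 483 (.lf (.dir (.lf 4 127 21 110))) (.t 176 
(.lf (.dir (.lf 5 125 13 117))) (.lf (.dir (.lf 2 128 12 119)))))))))) (.a 202 (.lf (.low 0)) 
(.z 427 (.y 517 (.a 213 (.lf (.dir (.lf 0 131 0 130))) (.z 416 (.y 506 
(.lf (.dir (.lf 4 127 4 126))) (.lf (.dir (.lf 4 127 0 131)))) (.y 506 
(.lf (.dir (.lf 4 127 4 126))) (.lf (.dir (.lf 4 127 0 131)))))) (.lf (.low 2))) (.y 517 
(.a 213 (.lf (.dir (.lf 0 131 0 130))) (.z 438 (.y 506 (.lf (.dir (.lf 4 127 4 126))) 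
(.lf (.dir (.lf 4 127 0 131)))) (.y 506 (.lf (.dir (.lf 4 127 4 126))) 
(.lf (.dir (.lf 4 127 0 131)))))) (.lf (.low 2))))))) (.z 405 (.y 495 (.a 247 (.z 382 (.y 472 
(.lf .inf) (.y 483 (.lf .inf) (.a 236 (.z 371 (.t 176 
(.lf (.two (.lm 13 101 69 23 18 74 11) (.lm 69 14 13 98 74 19 12))) 
(.lf (.dir (.lf 11 119 12 119)))) (.t 176 
(.lf (.two (.lf 13 104 68 31) (.lm 68 5 13 96 73 19 12))) (.lf (.dir (.lf 11 119 12 119))))) 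
(.lf .inf)))) (.y 472 (.lf .inf) (.z 393 (.y 483 (.lf .inf) (.a 236 (.t 176 
(.lf (.two (.lf 13 106 66 40) (.lm 66 0 13 90 71 19 12))) (.lf (.dir (.lf 11 119 12 119)))) 
(.lf .inf))) (.y 483 (.lf .inf) (.a 236 (.t 176 
(.lf (.two (.lf 13 108 63 49) (.lm 63 0 13 78 69 19 12))) (.lf (.dir (.lf 11 119 12 119)))) 
(.lf .inf)))))) (.lf .inf)) (.a 247 (.z 382 (.y 517 (.a 236 (.z 371 (.y 506 
(.lf (.two (.lf 12 105 72 19) (.lf 72 13 4 111))) (.lf (.dir (.lf 12 118 0 131)))) (.y 506 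
(.lf (.two (.lf 12 107 71 28) (.lm 71 5 4 108 80 12 11))) (.lf (.dir (.lf 12 118 0 131))))) 
(.z 371 (.y 506 (.lf (.two (.lf 20 97 72 16) (.lf 72 13 4 111))) 
(.lf (.dir (.lf 20 110 0 131)))) (.y 506 
(.lf (.two (.lf 20 98 71 26) (.lm 71 5 4 108 80 12 11))) (.lf (.dir (.lf 20 110 0 131)))))) 
(.lf (.low 2))) (.y 517 (.z 393 (.a 236 (.y 506 
(.lf (.two (.lf 12 109 69 37) (.lm 69 0 4 102 78 12 11))) (.lf (.dir (.lf 12 118 0 131)))) 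
(.y 506 (.lf (.two (.lf 20 100 69 35) (.lm 69 0 4 102 78 12 11))) 
(.lf (.dir (.lf 20 110 0 131))))) (.a 236 (.y 506 
(.lf (.two (.lf 12 111 66 46) (.lm 66 0 4 90 75 12 12))) (.lf (.dir (.lf 12 118 0 131)))) 
(.y 506 (.lf (.two (.lf 20 102 66 44) (.lm 66 0 4 90 75 12 12))) 
(.lf (.dir (.lf 20 110 0 131)))))) (.lf (.low 2)))) (.z 382 (.y 517 (.a 258 (.z 371 (.y 506 
(.lf .inf) (.lf (.dir (.lf 28 102 0 131)))) (.y 506 (.lf .inf) (.lf (.dir (.lf 28 102 0 131))))) 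
(.lf .inf)) (.lf (.low 2))) (.y 517 (.a 258 (.z 393 (.y 506 (.lf .inf) 
(.lf (.dir (.lf 28 102 0 131)))) (.y 506 (.lf .inf) (.lf (.dir (.lf 28 102 0 131))))) 
(.lf .inf)) (.lf (.low 2)))))) (.y 495 (.a 247 (.z 427 (.y 472 (.lf .inf) (.y 483 (.lf .inf) 
(.a 236 (.z 416 (.t 176 (.lf (.two (.lf 13 111 59 58) (.lm 59 0 13 67 65 19 12))) 
(.lf (.dir (.lf 11 119 12 119)))) (.t 176 
(.lf (.two (.lf 13 113 54 67) (.lm 54 0 13 56 60 19 12))) (.lf (.dir (.lf 11 119 12 119))))) 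
(.lf .inf)))) (.y 472 (.lf .inf) (.z 438 (.y 483 (.lf .inf) (.a 236 (.t 176 (.y 489 
(.lf (.dir (.lf 13 118 15 115))) (.lf (.dir (.lf 13 118 11 119)))) 
(.lf (.dir (.lf 11 119 12 119)))) (.lf .inf))) (.y 483 (.lf .inf) (.a 236 (.t 176 (.z 444 
(.y 489 (.lf (.dir (.lf 13 118 15 115))) (.lf (.dir (.lf 13 118 11 119)))) (.y 489 
(.lf (.dir (.lf 13 118 15 115))) (.lf (.dir (.lf 13 118 11 119))))) 
(.lf (.dir (.lf 11 119 12 119)))) (.lf .inf)))))) (.lf .inf)) (.a 247 (.z 427 (.y 517 (.a 236 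
(.z 416 (.y 506 (.lf (.two (.lf 12 113 61 56) (.lm 61 0 4 79 71 12 11))) 
(.lf (.dir (.lf 12 118 0 131)))) (.y 506 
(.lf (.two (.lf 12 114 56 66) (.lm 56 0 4 68 65 12 11))) (.lf (.dir (.lf 12 118 0 131))))) 
(.z 416 (.y 506 (.lf (.two (.lf 20 104 61 54) (.lm 61 0 4 79 71 12 11))) 
(.lf (.dir (.lf 20 110 0 131)))) (.y 506 
(.lf (.two (.lf 20 105 56 64) (.lm 56 0 4 68 65 12 11))) (.lf (.dir (.lf 20 110 0 131)))))) 
(.lf (.low 2))) (.y 517 (.z 438 (.a 236 (.y 506 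
(.lf (.two (.lf 12 116 51 75) (.lm 51 0 4 57 59 12 11))) (.lf (.dir (.lf 12 118 0 131)))) 
(.y 506 (.lf (.two (.lf 20 107 51 73) (.lm 51 0 4 57 59 12 11))) 
(.lf (.dir (.lf 20 110 0 131))))) (.a 236 (.y 506 
(.lf (.two (.lf 12 118 44 84) (.lm 44 0 4 45 52 12 12))) (.lf (.dir (.lf 12 118 0 131)))) 
(.y 506 (.lf (.two (.lf 20 108 44 83) (.lm 44 0 4 45 52 12 12))) 
(.lf (.dir (.lf 20 110 0 131)))))) (.lf (.low 2)))) (.z 427 (.y 517 (.a 258 (.z 416 (.y 506 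
(.lf .inf) (.lf (.dir (.lf 28 102 0 131)))) (.y 506 (.lf .inf) (.lf (.dir (.lf 28 102 0 131))))) 
(.lf .inf)) (.lf (.low 2))) (.y 517 (.a 258 (.z 438 (.y 506 (.lf .inf) 
(.lf (.dir (.lf 28 102 0 131)))) (.y 506 (.lf .inf) (.lf (.dir (.lf 28 102 0 131))))) 
(.lf .inf)) (.lf (.low 2))))))))) (.y 450 (.a 225 (.z 495 (.y 405 (.lf .inf) (.a 202 
(.lf (.low 0)) (.lf .inf))) (.lf .inf)) (.lf .inf)) (.a 225 (.z 495 (.y 495 (.a 202 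
(.lf (.low 0)) (.z 472 (.y 472 (.a 213 (.lf (.dir (.lf 0 131 33 98))) (.lf .inf)) (.a 213 
(.lf (.dir (.lf 0 131 17 114))) (.y 483 (.lf (.dir (.lf 4 127 21 110))) (.z 461 (.t 176 
(.lf (.dir (.lf 5 125 13 117))) (.lf (.dir (.lf 2 128 12 119)))) (.t 176 
(.lf (.dir (.lf 5 125 13 117))) (.lf (.dir (.lf 2 128 12 119)))))))) (.y 472 (.a 213 
(.lf (.dir (.lf 0 131 33 98))) (.lf .inf)) (.a 213 (.lf (.dir (.lf 0 131 17 114))) (.z 483 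
(.y 483 (.lf (.dir (.lf 4 127 21 110))) (.t 176 (.lf (.dir (.lf 5 125 13 117))) 
(.lf (.dir (.lf 2 128 12 119))))) (.y 483 (.lf (.dir (.lf 4 127 21 110))) (.t 176 
(.lf (.dir (.lf 5 125 13 117))) (.lf (.dir (.lf 2 128 12 119)))))))))) (.a 202 (.lf (.low 0)) 
(.z 472 (.y 517 (.a 213 (.lf (.dir (.lf 0 131 0 130))) (.z 461 (.y 506 
(.lf (.dir (.lf 4 127 4 126))) (.lf (.dir (.lf 4 127 0 131)))) (.y 506 
(.lf (.dir (.lf 4 127 4 126))) (.lf (.dir (.lf 4 127 0 131)))))) (.lf (.low 2))) (.y 517 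
(.a 213 (.lf (.dir (.lf 0 131 0 130))) (.z 483 (.y 506 (.lf (.dir (.lf 4 127 4 126))) 
(.lf (.dir (.lf 4 127 0 131)))) (.y 506 (.lf (.dir (.lf 4 127 4 126))) 
(.lf (.dir (.lf 4 127 0 131)))))) (.lf (.low 2)))))) (.y 495 
(.lf (.two (.pot 0) (.lf 0 0 25 0))) (.lf (.tipb 13 13 23)))) (.z 495 (.y 495 (.a 247 (.z 472 
(.y 472 (.lf .inf) (.y 483 (.lf .inf) (.a 236 (.z 461 (.t 176 (.y 489 
(.lf (.dir (.lf 13 118 15 115))) (.lf (.dir (.lf 13 118 11 119)))) 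
(.lf (.dir (.lf 11 119 12 119)))) (.t 176 (.y 489 (.lf (.dir (.lf 13 118 15 115))) 
(.lf (.dir (.lf 13 118 11 119)))) (.lf (.dir (.lf 11 119 12 119))))) (.lf .inf)))) (.y 472 
(.lf .inf) (.z 483 (.y 483 (.lf .inf) (.a 236 (.t 176 (.y 489 (.lf (.dir (.lf 13 118 15 115))) 
(.lf (.dir (.lf 13 118 11 119)))) (.lf (.dir (.lf 11 119 12 119)))) (.lf .inf))) (.y 483 
(.lf .inf) (.a 236 (.t 176 (.z 489 (.y 489 (.lf (.dir (.lf 13 118 15 115))) 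
(.lf (.dir (.lf 13 118 11 119)))) (.lf (.two (.lf 13 118 11 119) (.lm 11 0 13 0 15 19 3)))) 
(.lf (.dir (.lf 11 119 12 119)))) (.lf .inf)))))) (.lf .inf)) (.a 247 (.z 472 (.y 517 (.a 236 
(.z 461 (.y 506 (.t 176 (.lf (.dir (.lf 13 118 5 125))) (.lf (.dir (.lf 11 119 3 128)))) 
(.lf (.dir (.lf 12 118 0 131)))) (.y 506 (.t 176 (.lf (.dir (.lf 13 118 5 125))) 
(.lf (.dir (.lf 11 119 3 128)))) (.lf (.dir (.lf 12 118 0 131))))) (.z 461 (.y 506 (.t 176 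
(.lf (.dir (.lf 20 110 5 125))) (.lf (.dir (.lf 20 111 3 128)))) 
(.lf (.dir (.lf 20 110 0 131)))) (.y 506 (.t 176 (.lf (.dir (.lf 20 110 5 125))) 
(.lf (.dir (.lf 20 111 3 128)))) (.lf (.dir (.lf 20 110 0 131)))))) (.lf (.low 2))) (.y 517 
(.z 483 (.a 236 (.y 506 (.t 176 (.lf (.dir (.lf 13 118 5 125))) (.lf (.dir (.lf 11 119 3 128)))) 
(.lf (.dir (.lf 12 118 0 131)))) (.y 506 (.t 176 (.lf (.dir (.lf 20 110 5 125))) 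
(.lf (.dir (.lf 20 111 3 128)))) (.lf (.dir (.lf 20 110 0 131))))) (.a 236 (.y 506 (.t 176 
(.lf (.dir (.lf 13 118 5 125))) (.lf (.dir (.lf 11 119 3 128)))) 
(.lf (.dir (.lf 12 118 0 131)))) (.y 506 (.t 176 (.lf (.dir (.lf 20 110 5 125))) 
(.lf (.dir (.lf 20 111 3 128)))) (.lf (.dir (.lf 20 110 0 131)))))) (.lf (.low 2)))) (.z 472 
(.y 517 (.a 258 (.z 461 (.y 506 (.lf .inf) (.lf (.dir (.lf 28 102 0 131)))) (.y 506 (.lf .inf) 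
(.lf (.dir (.lf 28 102 0 131))))) (.lf .inf)) (.lf (.low 2))) (.y 517 (.a 258 (.z 483 (.y 506 
(.lf .inf) (.lf (.dir (.lf 28 102 0 131)))) (.y 506 (.lf .inf) (.lf (.dir (.lf 28 102 0 131))))) 
(.lf .inf)) (.lf (.low 2)))))) (.y 495 (.a 247 (.z 517 (.y 472 (.lf .inf) (.y 483 (.lf .inf) 
(.a 236 (.z 506 (.t 176 (.lf (.two (.lf 13 118 5 125) (.lf 5 0 13 0))) 
(.lf (.dir (.lf 11 119 12 119)))) (.lf .inf)) (.lf .inf)))) (.lf .inf)) (.lf .inf)) (.a 247 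
(.z 517 (.y 517 (.a 236 (.z 506 (.y 506 (.t 176 (.lf (.dir (.lf 13 118 5 125))) 
(.lf (.dir (.lf 11 119 3 128)))) (.lf (.dir (.lf 12 118 0 131)))) (.lf (.tipb 4 11 6))) 
(.z 506 (.y 506 (.t 176 (.lf (.dir (.lf 20 110 5 125))) (.lf (.dir (.lf 20 111 3 128)))) 
(.lf (.dir (.lf 20 110 0 131)))) (.lf (.two (.lf 20 110 0 131) (.lm 0 0 0 0 5 12 6))))) 
(.lf (.low 2))) (.lf (.low 1))) (.z 517 (.y 517 (.a 258 (.z 506 
(.lf (.two (.lf 28 102 4 126) (.lm 4 0 0 0 12 12 11))) 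
(.lf (.two (.lf 28 102 0 131) (.lm 0 0 0 0 5 12 6)))) (.lf .inf)) (.lf (.low 2))) 
(.lf (.low 1))))))))) (.z 450 (.y 450 (.lf .inf) (.a 315 (.z 405 (.y 495 (.lf .inf) (.a 292 
(.z 382 (.y 517 (.lf .inf) (.lf (.low 2))) (.y 517 (.lf .inf) (.lf (.low 2)))) (.lf .inf))) 
(.y 495 (.lf .inf) (.a 292 (.z 427 (.y 517 (.lf .inf) (.lf (.low 2))) (.y 517 (.lf .inf) 
(.lf (.low 2)))) (.lf .inf)))) (.lf .inf))) (.y 450 (.lf .inf) (.a 315 (.z 495 (.y 495 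
(.lf .inf) (.a 292 (.z 472 (.y 517 (.lf .inf) (.lf (.low 2))) (.y 517 (.lf .inf) (.lf (.low 2)))) 
(.lf .inf))) (.y 495 (.lf .inf) (.a 292 (.z 517 (.y 517 (.lf .inf) (.lf (.low 2))) 
(.lf (.low 1))) (.lf .inf)))) (.lf .inf))))) (.a 270 (.z 450 (.y 630 (.lf (.low 2)) 
(.lf (.low 2))) (.y 630 (.lf (.low 2)) (.lf (.low 2)))) (.z 450 (.y 630 (.lf (.low 2)) 
(.lf (.low 2))) (.y 630 (.lf (.low 2)) (.lf (.low 2)))))) (.y 540 (.a 270 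
(.lf (.two (.pot 0) (.lf 0 0 40 0))) (.z 630 (.lf (.low 1)) (.lf .inf))) (.a 270 (.z 630 
(.lf (.low 1)) (.lf (.low 1))) (.z 630 (.lf (.low 1)) (.lf (.low 1)))))))

theorem h1 : chk (leafR PP TD5 160 0) c1 160 192 0 360 360 720 360 720 = true := by
  decide +kernel

theorem main : ∃ T : Tree, chk (leafR PP TD5 160 0) T 160 192 0 360 0 720 360 720 = true :=
  ⟨_, (chk_z h0 h1)⟩

end Pool.Agent.Helper58.LDD.R05
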