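import Pool.Agent.Helper58.LD.Comb
import Pool.Agent.Helper58.LDD.Tab

set_option autoImplicit false

namespace Pool.Agent.Helper58.LDD.R06

open Pool.Agent.Helper58.LD Pool.Agent.Helper58.LDD

set_option maxRecDepth 100000

def c0 : Tree :=
  (.z 360 (.a 180 (.z 180 (.y 540 (.a 90 (.lf (.low 0)) (.lf (.low 0))) (.a 90 (.lf .inf) 
(.lf (.low 0)))) (.y 540 (.a 90 (.lf (.low 0)) (.lf (.low 0))) (.a 90 (.lf .inf) (.lf (.low 0))))) 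
(.z 180 (.y 540 (.a 270 (.z 90 (.lf .inf) (.lf (.low 1))) (.lf .inf)) 
(.lf (.two (.lf 44 0 0 0) (.pot 0)))) (.y 540 (.a 270 (.z 270 (.y 450 (.a 225 (.z 225 (.y 405 
(.lf .inf) (.a 202 (.lf (.low 0)) (.lf .inf))) (.y 405 (.lf .inf) (.a 202 (.lf (.low 0)) 
(.lf .inf)))) (.lf .inf)) (.a 225 (.z 225 (.y 495 (.a 202 (.lf (.low 0)) (.z 202 (.lf (.low 1)) 
(.y 472 (.lf (.dir (.lf 0 130 34 95))) (.a 213 (.lf (.low 0)) (.z 213 (.lf (.low 1)) (.y 483 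
(.lf (.dir (.lf 0 131 19 112))) (.lf (.dir (.lf 0 131 8 122))))))))) (.lf (.tipa 11 11 23))) 
(.y 495 (.a 202 (.lf (.low 0)) (.z 247 (.y 472 (.lf (.dir (.lf 0 130 34 95))) (.a 213 
(.lf (.low 0)) (.y 483 (.lf (.dir (.lf 0 131 19 112))) (.lf (.dir (.lf 0 131 8 122)))))) 
(.y 472 (.lf (.dir (.lf 0 130 34 95))) (.a 213 (.lf (.low 0)) (.z 258 (.y 483 
(.lf (.dir (.lf 0 131 19 112))) (.lf (.dir (.lf 0 131 8 122)))) (.y 483 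
(.lf (.dir (.lf 0 131 19 112))) (.lf (.dir (.lf 0 131 8 122))))))))) (.a 202 (.lf (.low 0)) 
(.lf (.dir (.lf 0 131 0 131)))))) (.z 225 (.y 495 (.a 247 (.z 202 (.lf .inf) (.y 472 (.lf .inf) 
(.z 213 (.lf .inf) (.y 483 (.lf .inf) (.lf (.two (.lf 13 0 0 0) (.lf 0 131 8 122))))))) 
(.lf .inf)) (.lf (.two (.lf 24 0 0 0) (.pot 0)))) (.y 495 (.a 247 (.z 247 (.y 472 (.lf .inf) 
(.y 483 (.lf .inf) (.a 236 (.z 236 (.t 208 (.lf (.dir (.lf 9 121 10 121))) 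
(.lf (.dir (.lf 6 124 7 123)))) (.t 208 (.lf (.dir (.lf 9 121 10 121))) 
(.lf (.dir (.lf 6 124 7 123))))) (.lf .inf)))) (.y 472 (.lf .inf) (.z 258 (.y 483 (.lf .inf) 
(.a 236 (.t 208 (.lf (.dir (.lf 9 121 10 121))) (.lf (.dir (.lf 6 124 7 123)))) (.lf .inf))) 
(.y 483 (.lf .inf) (.a 236 (.t 208 (.lf (.dir (.lf 9 121 10 121))) 
(.lf (.dir (.lf 6 124 7 123)))) (.lf .inf)))))) (.lf .inf)) (.a 247 (.z 247 (.y 517 (.a 236 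
(.lf (.dir (.lf 8 123 0 131))) (.lf (.dir (.lf 18 113 0 131)))) (.lf (.low 2))) (.y 517 
(.z 258 (.a 236 (.lf (.dir (.lf 8 123 0 131))) (.lf (.dir (.lf 18 113 0 131)))) (.a 236 
(.lf (.dir (.lf 8 123 0 131))) (.lf (.dir (.lf 18 113 0 131))))) (.lf (.low 2)))) (.z 247 
(.y 517 (.lf (.dir (.lf 34 95 0 130))) (.lf (.low 2))) (.y 517 (.lf (.dir (.lf 34 95 0 130))) 
(.lf (.low 2))))))))) (.y 450 (.a 225 (.z 315 (.y 405 (.lf .inf) (.a 202 (.lf (.low 0)) 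
(.lf .inf))) (.y 405 (.lf .inf) (.a 202 (.lf (.low 0)) (.lf .inf)))) (.lf .inf)) (.a 225 
(.z 315 (.y 495 (.a 202 (.lf (.low 0)) (.z 292 (.y 472 (.lf (.dir (.lf 0 130 34 95))) (.a 213 
(.lf (.low 0)) (.y 483 (.lf (.dir (.lf 0 131 19 112))) (.lf (.dir (.lf 0 131 8 122)))))) 
(.y 472 (.lf (.dir (.lf 0 130 34 95))) (.a 213 (.lf (.low 0)) (.z 303 (.y 483 
(.lf (.dir (.lf 0 131 19 112))) (.lf (.dir (.lf 0 131 8 122)))) (.y 483 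
(.lf (.dir (.lf 0 131 19 112))) (.lf (.dir (.lf 0 131 8 122))))))))) (.a 202 (.lf (.low 0)) 
(.lf (.dir (.lf 0 131 0 131))))) (.y 495 (.a 202 (.lf (.low 0)) (.z 337 (.y 472 
(.lf (.dir (.lf 0 130 34 95))) (.a 213 (.lf (.low 0)) (.y 483 (.lf (.dir (.lf 0 131 19 112))) 
(.lf (.dir (.lf 0 131 8 122)))))) (.y 472 (.lf (.dir (.lf 0 130 34 95))) (.a 213 (.lf (.low 0)) 
(.z 348 (.y 483 (.lf (.dir (.lf 0 131 19 112))) (.lf (.dir (.lf 0 131 8 122)))) (.y 483 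
(.lf (.dir (.lf 0 131 19 112))) (.lf (.dir (.lf 0 131 8 122))))))))) (.a 202 (.lf (.low 0)) 
(.lf (.dir (.lf 0 131 0 131)))))) (.z 315 (.y 495 (.a 247 (.z 292 (.y 472 (.lf .inf) (.y 483 
(.lf .inf) (.a 236 (.z 281 (.t 208 (.lf (.dir (.lf 9 121 10 121))) 
(.lf (.dir (.lf 6 124 7 123)))) (.t 208 (.lf (.dir (.lf 9 121 10 121))) 
(.lf (.dir (.lf 6 124 7 123))))) (.lf .inf)))) (.y 472 (.lf .inf) (.z 303 (.y 483 (.lf .inf) 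
(.a 236 (.t 208 (.lf (.dir (.lf 9 121 10 121))) (.lf (.dir (.lf 6 124 7 123)))) (.lf .inf))) 
(.y 483 (.lf .inf) (.a 236 (.t 208 (.lf (.dir (.lf 9 121 10 121))) 
(.lf (.dir (.lf 6 124 7 123)))) (.lf .inf)))))) (.lf .inf)) (.a 247 (.z 292 (.y 517 (.a 236 
(.lf (.dir (.lf 8 123 0 131))) (.lf (.dir (.lf 18 113 0 131)))) (.lf (.low 2))) (.y 517 
(.z 303 (.a 236 (.lf (.dir (.lf 8 123 0 131))) (.lf (.dir (.lf 18 113 0 131)))) (.a 236 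
(.lf (.dir (.lf 8 123 0 131))) (.lf (.dir (.lf 18 113 0 131))))) (.lf (.low 2)))) (.z 292 
(.y 517 (.lf (.dir (.lf 34 95 0 130))) (.lf (.low 2))) (.y 517 (.lf (.dir (.lf 34 95 0 130))) 
(.lf (.low 2)))))) (.y 495 (.a 247 (.z 337 (.y 472 (.lf .inf) (.y 483 (.lf .inf) (.a 236 
(.z 326 (.t 208 (.lf (.dir (.lf 9 121 10 121))) (.lf (.dir (.lf 6 124 7 123)))) (.t 208 
(.lf (.dir (.lf 9 121 10 121))) (.lf (.dir (.lf 6 124 7 123))))) (.lf .inf)))) (.y 472 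
(.lf .inf) (.z 348 (.y 483 (.lf .inf) (.a 236 (.t 208 (.lf (.dir (.lf 9 121 10 121))) 
(.lf (.dir (.lf 6 124 7 123)))) (.lf .inf))) (.y 483 (.lf .inf) (.a 236 (.t 208 
(.lf (.dir (.lf 9 121 10 121))) (.lf (.dir (.lf 6 124 7 123)))) (.lf .inf)))))) (.lf .inf)) 
(.a 247 (.z 337 (.y 517 (.a 236 (.lf (.dir (.lf 8 123 0 131))) (.lf (.dir (.lf 18 113 0 131)))) 
(.lf (.low 2))) (.y 517 (.z 348 (.a 236 (.lf (.dir (.lf 8 123 0 131))) 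
(.lf (.dir (.lf 18 113 0 131)))) (.a 236 (.lf (.dir (.lf 8 123 0 131))) 
(.lf (.dir (.lf 18 113 0 131))))) (.lf (.low 2)))) (.z 337 (.y 517 
(.lf (.dir (.lf 34 95 0 130))) (.lf (.low 2))) (.y 517 (.lf (.dir (.lf 34 95 0 130))) 
(.lf (.low 2)))))))))) (.z 270 (.y 450 (.lf .inf) (.a 315 (.z 225 (.lf .inf) (.y 495 (.lf .inf) 
(.a 292 (.z 247 (.lf .inf) (.y 517 (.lf .inf) (.lf (.low 2)))) (.lf .inf)))) (.lf .inf))) 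
(.y 450 (.lf .inf) (.a 315 (.z 315 (.y 495 (.lf .inf) (.a 292 (.z 292 (.y 517 (.lf .inf) 
(.lf (.low 2))) (.y 517 (.lf .inf) (.lf (.low 2)))) (.lf .inf))) (.y 495 (.lf .inf) (.a 292 
(.z 337 (.y 517 (.lf .inf) (.lf (.low 2))) (.y 517 (.lf .inf) (.lf (.low 2)))) (.lf .inf)))) 
(.lf .inf))))) (.a 270 (.z 270 (.y 630 (.lf (.low 2)) (.lf (.low 2))) (.y 630 (.lf (.low 2)) 
(.lf (.low 2)))) (.z 270 (.lf (.two (.lf 74 0 3 0) (.pot 0))) (.y 630 (.lf (.low 2)) 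
(.lf (.low 2)))))))) (.a 180 (.z 540 (.y 540 (.a 90 (.lf (.low 0)) (.lf (.low 0))) (.a 90 
(.lf .inf) (.lf (.low 0)))) (.y 540 (.lf (.two (.pot 0) (.lf 0 0 44 0))) (.a 90 (.lf .inf) 
(.lf (.low 0))))) (.z 540 (.y 540 (.a 270 (.z 450 (.y 450 (.a 225 (.z 405 (.y 405 (.lf .inf) 
(.a 202 (.lf (.low 0)) (.lf .inf))) (.y 405 (.lf .inf) (.a 202 (.lf (.low 0)) (.lf .inf)))) 
(.lf .inf)) (.a 225 (.z 405 (.y 495 (.a 202 (.lf (.low 0)) (.z 382 (.y 472 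
(.lf (.dir (.lf 0 130 34 95))) (.a 213 (.lf (.low 0)) 
(.lf (.two (.lf 0 131 84 0) (.lf 84 0 13 90))))) (.y 472 (.lf (.dir (.lf 0 130 34 95))) 
(.a 213 (.lf (.low 0)) (.z 393 (.lf (.two (.lf 0 131 81 23) (.lf 81 0 13 79))) (.y 483 
(.lf (.dir (.lf 0 131 19 112))) (.lf (.dir (.lf 0 131 8 122))))))))) (.a 202 (.lf (.low 0)) 
(.lf (.dir (.lf 0 131 0 131))))) (.y 495 (.a 202 (.lf (.low 0)) (.z 427 (.y 472 
(.lf (.dir (.lf 0 130 34 95))) (.a 213 (.lf (.low 0)) (.y 483 (.lf (.dir (.lf 0 131 19 112))) 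
(.lf (.dir (.lf 0 131 8 122)))))) (.y 472 (.lf (.dir (.lf 0 130 34 95))) (.a 213 (.lf (.low 0)) 
(.z 438 (.y 483 (.lf (.dir (.lf 0 131 19 112))) (.lf (.dir (.lf 0 131 8 122)))) (.y 483 
(.lf (.dir (.lf 0 131 19 112))) (.lf (.dir (.lf 0 131 8 122))))))))) (.a 202 (.lf (.low 0)) 
(.lf (.dir (.lf 0 131 0 131)))))) (.z 405 (.y 495 (.a 247 (.z 382 (.y 472 (.lf .inf) (.y 483 
(.lf .inf) (.a 236 (.z 371 (.t 208 (.lf (.dir (.lf 9 121 10 121))) 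
(.lf (.dir (.lf 6 124 7 123)))) (.t 208 (.lf (.dir (.lf 9 121 10 121))) 
(.lf (.dir (.lf 6 124 7 123))))) (.lf .inf)))) (.y 472 (.lf .inf) (.z 393 (.y 483 (.lf .inf) 
(.a 236 (.t 208 (.lf (.dir (.lf 9 121 10 121))) (.lf (.dir (.lf 6 124 7 123)))) (.lf .inf))) 
(.y 483 (.lf .inf) (.a 236 (.t 208 (.lf (.dir (.lf 9 121 10 121))) 
(.lf (.dir (.lf 6 124 7 123)))) (.lf .inf)))))) (.lf .inf)) (.a 247 (.z 382 (.y 517 (.a 236 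
(.lf (.dir (.lf 8 123 0 131))) (.lf (.dir (.lf 18 113 0 131)))) (.lf (.low 2))) (.y 517 
(.z 393 (.a 236 (.lf (.dir (.lf 8 123 0 131))) (.lf (.dir (.lf 18 113 0 131)))) (.a 236 
(.lf (.dir (.lf 8 123 0 131))) (.lf (.dir (.lf 18 113 0 131))))) (.lf (.low 2)))) (.z 382 
(.y 517 (.lf (.dir (.lf 34 95 0 130))) (.lf (.low 2))) (.y 517 (.lf (.dir (.lf 34 95 0 130))) 
(.lf (.low 2)))))) (.y 495 (.a 247 (.z 427 (.y 472 (.lf .inf) (.y 483 (.lf .inf) (.a 236 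
(.z 416 (.t 208 (.lf (.dir (.lf 9 121 10 121))) (.lf (.dir (.lf 6 124 7 123)))) (.t 208 
(.lf (.dir (.lf 9 121 10 121))) (.lf (.dir (.lf 6 124 7 123))))) (.lf .inf)))) (.y 472 
(.lf .inf) (.z 438 (.y 483 (.lf .inf) (.a 236 (.t 208 (.lf (.dir (.lf 9 121 10 121))) 
(.lf (.dir (.lf 6 124 7 123)))) (.lf .inf))) (.y 483 (.lf .inf) (.a 236 (.t 208 
(.lf (.dir (.lf 9 121 10 121))) (.lf (.dir (.lf 6 124 7 123)))) (.lf .inf)))))) (.lf .inf)) 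
(.a 247 (.z 427 (.y 517 (.a 236 (.lf (.dir (.lf 8 123 0 131))) (.lf (.dir (.lf 18 113 0 131)))) 
(.lf (.low 2))) (.y 517 (.z 438 (.a 236 (.lf (.dir (.lf 8 123 0 131))) 
(.lf (.dir (.lf 18 113 0 131)))) (.a 236 (.lf (.dir (.lf 8 123 0 131))) 
(.lf (.dir (.lf 18 113 0 131))))) (.lf (.low 2)))) (.z 427 (.y 517 
(.lf (.dir (.lf 34 95 0 130))) (.lf (.low 2))) (.y 517 (.lf (.dir (.lf 34 95 0 130))) 
(.lf (.low 2))))))))) (.y 450 (.a 225 (.z 495 (.y 405 (.lf .inf) (.a 202 (.lf (.low 0)) 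
(.lf .inf))) (.lf .inf)) (.lf .inf)) (.a 225 (.z 495 (.y 495 (.a 202 (.lf (.low 0)) (.z 472 
(.y 472 (.lf (.dir (.lf 0 130 34 95))) (.a 213 (.lf (.low 0)) (.y 483 
(.lf (.dir (.lf 0 131 19 112))) (.lf (.dir (.lf 0 131 8 122)))))) (.y 472 
(.lf (.dir (.lf 0 130 34 95))) (.a 213 (.lf (.low 0)) (.z 483 (.y 483 
(.lf (.dir (.lf 0 131 19 112))) (.lf (.dir (.lf 0 131 8 122)))) 
(.lf (.two (.lf 0 131 8 122) (.lm 8 0 13 0 18 28 6)))))))) (.a 202 (.lf (.low 0)) 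
(.lf (.dir (.lf 0 131 0 131))))) (.y 495 (.lf (.two (.pot 0) (.lf 0 0 24 0))) 
(.lf (.tipb 11 11 23)))) (.z 495 (.y 495 (.a 247 (.z 472 (.y 472 (.lf .inf) (.y 483 (.lf .inf) 
(.a 236 (.z 461 (.t 208 (.lf (.dir (.lf 9 121 10 121))) (.lf (.dir (.lf 6 124 7 123)))) 
(.t 208 (.lf (.dir (.lf 9 121 10 121))) (.lf (.dir (.lf 6 124 7 123))))) (.lf .inf)))) (.y 472 
(.lf .inf) (.z 483 (.y 483 (.lf .inf) (.a 236 (.t 208 (.lf (.dir (.lf 9 121 10 121))) 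
(.lf (.dir (.lf 6 124 7 123)))) (.lf .inf))) (.y 483 (.lf .inf) (.a 236 (.t 208 
(.lf (.dir (.lf 9 121 10 121))) (.lf (.dir (.lf 6 124 7 123)))) (.lf .inf)))))) (.lf .inf)) 
(.a 247 (.z 472 (.y 517 (.a 236 (.lf (.dir (.lf 8 123 0 131))) (.lf (.dir (.lf 18 113 0 131)))) 
(.lf (.low 2))) (.y 517 (.z 483 (.a 236 (.lf (.dir (.lf 8 123 0 131))) 
(.lf (.dir (.lf 18 113 0 131)))) (.a 236 (.lf (.dir (.lf 8 123 0 131))) 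
(.lf (.dir (.lf 18 113 0 131))))) (.lf (.low 2)))) (.z 472 (.y 517 
(.lf (.dir (.lf 34 95 0 130))) (.lf (.low 2))) (.y 517 (.lf (.dir (.lf 34 95 0 130))) 
(.lf (.low 2)))))) (.y 495 (.a 247 (.z 517 (.y 472 (.lf .inf) (.y 483 (.lf .inf) (.a 236 
(.lf (.two (.lf 8 123 0 131) (.lf 0 0 8 0))) (.lf .inf)))) (.lf .inf)) (.lf .inf)) (.a 247 
(.z 517 (.y 517 (.a 236 (.lf (.dir (.lf 8 123 0 131))) (.lf (.dir (.lf 18 113 0 131)))) 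
(.lf (.low 2))) (.lf (.low 1))) (.z 517 (.lf (.two (.lf 34 95 0 130) (.lm 0 0 0 0 9 12 23))) 
(.lf (.low 1))))))))) (.z 450 (.y 450 (.lf .inf) (.a 315 (.z 405 (.y 495 (.lf .inf) (.a 292 
(.z 382 (.y 517 (.lf .inf) (.lf (.low 2))) (.y 517 (.lf .inf) (.lf (.low 2)))) (.lf .inf))) 
(.y 495 (.lf .inf) (.a 292 (.z 427 (.y 517 (.lf .inf) (.lf (.low 2))) (.y 517 (.lf .inf) 
(.lf (.low 2)))) (.lf .inf)))) (.lf .inf))) (.y 450 (.lf .inf) (.a 315 (.z 495 (.y 495 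
(.lf .inf) (.a 292 (.z 472 (.y 517 (.lf .inf) (.lf (.low 2))) (.y 517 (.lf .inf) (.lf (.low 2)))) 
(.lf .inf))) (.y 495 (.lf .inf) (.a 292 (.z 517 
(.lf (.two (.lf 52 74 0 129) (.lm 0 0 0 0 9 12 23))) (.lf (.low 1))) (.lf .inf)))) (.lf .inf))))) 
(.a 270 (.z 450 (.y 630 (.lf (.low 2)) (.lf (.low 2))) (.y 630 (.lf (.low 2)) (.lf (.low 2)))) 
(.z 450 (.y 630 (.lf (.low 2)) (.lf (.low 2))) (.y 630 (.lf (.low 2)) (.lf (.low 2)))))) 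
(.y 540 (.a 270 (.lf (.two (.pot 0) (.lf 0 0 44 0))) (.z 630 (.lf (.low 1)) (.lf .inf))) 
(.a 270 (.z 630 (.lf (.low 1)) (.lf (.low 1))) (.z 630 (.lf (.low 1)) (.lf (.low 1))))))))

theorem h0 : chk (leafR PP TD6 192 0) c0 192 224 0 360 0 720 360 720 = true := by
  decide +kernel

theorem main : ∃ T : Tree, chk (leafR PP TD6 192 0) T 192 224 0 360 0 720 360 720 = true :=
  ⟨_, h0⟩

end Pool.Agent.Helper58.LDD.R06
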