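import Pool.Agent.Helper58.LD.Comb
import Pool.Agent.Helper58.LDD.Tab

set_option autoImplicit false

namespace Pool.Agent.Helper58.LDD.R10

open Pool.Agent.Helper58.LD Pool.Agent.Helper58.LDD

set_option maxRecDepth 100000

def c0 : Tree :=
  (.y 540 (.a 90 (.z 90 (.lf (.tipa 5 5 45)) (.y 450 (.a 45 (.z 135 (.y 405 (.a 22 (.z 112 
(.y 382 (.lf (.two (.lm 0 34 0 34 5 5 22) (.lf 0 129 10 119))) (.lf (.tipa 4 4 56))) 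
(.lf (.two (.lm 0 45 0 45 5 5 23) (.lf 0 117 10 108)))) (.z 112 
(.lf (.two (.lm 0 22 0 23 5 5 23) (.lf 0 129 10 119))) 
(.lf (.two (.lm 0 34 0 33 5 5 23) (.lf 0 117 10 108))))) (.a 22 (.lf .inf) (.lf (.tipa 4 4 57)))) 
(.y 405 (.lf (.two (.lm 0 46 2 44 5 5 45) (.lf 2 93 10 87))) (.a 22 (.lf .inf) (.z 157 (.y 427 
(.lf (.two (.lm 0 46 2 44 5 5 23) (.lf 2 128 9 120))) (.lf .inf)) 
(.lf (.two (.lm 0 57 3 55 5 5 23) (.lf 3 115 9 110))))))) (.z 135 (.y 405 (.a 67 (.z 112 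
(.lf (.two (.lm 0 11 0 12 5 5 22) (.lf 0 129 10 119))) 
(.lf (.two (.lm 0 23 0 22 5 5 23) (.lf 0 117 10 108)))) (.z 112 (.y 382 
(.lf (.two (.lm 0 0 0 0 5 5 23) (.lf 0 129 10 119))) (.lf (.tipa 4 4 23))) 
(.lf (.two (.lm 0 12 0 10 5 5 23) (.lf 0 117 10 108))))) (.lf (.tipa 4 4 45))) (.y 405 
(.lf (.two (.lm 0 24 2 21 5 5 45) (.lf 2 93 10 87))) (.a 67 (.z 157 
(.lf (.two (.lm 0 35 2 33 5 5 22) (.lf 2 127 9 121))) 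
(.lf (.two (.lm 0 46 3 44 5 5 23) (.lf 3 115 9 110)))) (.z 157 
(.lf (.two (.lm 0 24 2 21 5 5 23) (.lf 2 127 9 121))) 
(.lf (.two (.lm 0 35 3 32 5 5 23) (.lf 3 115 9 110)))))))) (.a 45 (.lf .inf) (.z 135 
(.lf (.tipa 4 4 45)) (.y 495 (.a 67 (.lf .inf) (.lf (.tipa 4 4 57))) (.lf .inf)))))) (.z 90 
(.lf (.two (.lf 1 0 0 0) (.pot 1))) (.y 450 (.a 135 (.z 135 (.y 405 (.a 112 (.z 112 (.y 382 
(.lf (.dir (.lf 0 129 10 119))) (.lf (.tipa 4 4 11))) 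
(.lf (.two (.lm 0 0 0 0 5 5 23) (.lf 0 117 10 108)))) (.lf (.dir (.lf 0 117 10 108)))) 
(.lf (.tipa 4 4 23))) (.y 405 (.lf (.two (.lm 0 0 2 0 5 5 45) (.lf 2 93 10 87))) (.a 112 
(.z 157 (.lf (.two (.lm 0 14 2 9 5 5 22) (.lf 2 127 9 121))) 
(.lf (.two (.lm 0 25 3 20 5 5 23) (.lf 3 115 9 110)))) (.z 157 (.y 427 
(.lf (.two (.lm 0 0 2 0 5 5 23) (.lf 2 128 9 120))) (.lf (.tipa 4 4 23))) 
(.lf (.two (.lm 0 14 3 8 5 5 23) (.lf 3 115 9 110))))))) (.z 135 (.y 405 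
(.lf (.dir (.lf 2 93 10 87))) (.lf (.two (.lf 2 0 0 0) (.pot 1)))) (.y 405 
(.lf (.dir (.lf 2 93 10 87))) (.a 157 (.z 157 (.y 427 (.lf (.dir (.lf 2 128 9 120))) 
(.lf (.tipa 4 4 11))) (.lf (.two (.lm 2 0 3 0 5 5 23) (.lf 3 115 9 110)))) 
(.lf (.dir (.lf 3 115 9 110))))))) (.lf (.tipa 5 5 45))))) (.a 90 (.lf .inf) 
(.lf (.tipa 5 8 45))))

theorem h0 : chk (leafR PP TD0 0 1) c0 0 32 0 180 0 180 360 720 = true := by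
  decide +kernel

def c1 : Tree :=
  (.y 540 (.a 90 (.z 270 (.y 450 (.a 45 (.z 225 (.y 405 
(.lf (.two (.lm 0 69 5 66 5 9 45) (.lm 5 70 10 65 9 17 45))) (.a 22 (.lf .inf) (.z 202 
(.lf (.two (.lm 0 69 4 66 5 6 23) (.lf 4 104 9 99))) 
(.lf (.two (.lm 0 81 5 76 5 9 23) (.lf 5 92 9 88)))))) (.y 405 (.a 22 (.z 247 
(.lf (.two (.lf 0 104 6 99) (.lm 6 58 10 55 11 17 34))) (.y 382 
(.lf (.two (.lf 0 116 7 109) (.lm 7 46 10 44 13 17 23))) 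
(.lf (.two (.lf 0 116 7 109) (.lm 7 57 9 55 13 17 23))))) 
(.lf (.two (.lf 0 93 7 87) (.lm 7 46 10 44 13 17 45)))) (.a 22 (.lf .inf) (.z 247 (.y 427 
(.lf (.two (.lm 0 93 6 87 5 11 23) (.lm 6 80 9 78 11 16 22))) (.lf .inf)) (.y 427 
(.lf (.two (.lf 0 104 7 98) (.lm 7 68 9 67 13 16 23))) (.lf .inf)))))) (.z 225 (.y 405 
(.lf (.two (.lm 0 47 5 43 5 9 45) (.lm 5 70 10 65 9 17 45))) 
(.lf (.two (.lm 0 47 5 43 5 9 45) (.lf 5 92 9 88)))) (.y 405 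
(.lf (.two (.lm 0 70 7 65 5 13 45) (.lm 7 46 10 44 13 17 45))) (.a 67 
(.lf (.two (.lm 0 82 7 76 5 13 34) (.lm 7 68 9 67 13 16 45))) 
(.lf (.two (.lm 0 70 7 65 5 13 34) (.lm 7 68 9 67 13 16 45))))))) (.a 45 (.lf .inf) (.z 225 
(.y 495 (.a 67 (.lf .inf) (.z 202 (.y 472 (.lf (.two (.lm 0 47 4 43 5 6 23) (.lf 4 126 7 122))) 
(.lf .inf)) (.lf (.two (.lm 0 58 5 54 5 9 23) (.lf 5 113 7 112))))) (.lf .inf)) (.y 495 (.a 67 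
(.lf .inf) (.z 247 (.y 472 (.lf (.two (.lm 0 70 6 65 5 11 23) (.lf 6 102 7 101))) (.lf .inf)) 
(.y 472 (.lf (.two (.lm 0 82 7 75 5 13 23) (.lm 7 90 7 90 13 13 23))) (.lf .inf)))) (.lf .inf))))) 
(.y 450 (.a 45 (.z 315 (.y 405 (.a 22 (.z 292 (.y 382 
(.lf (.two (.lf 0 128 8 120) (.lm 8 35 10 33 15 17 22))) (.y 393 (.a 11 (.lf .inf) 
(.lf (.two (.lf 0 128 8 120) (.lm 8 46 10 44 15 17 17)))) (.lf .inf))) (.y 382 (.z 303 (.a 11 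
(.y 371 (.lf (.two (.lf 0 131 9 122) (.lm 9 29 10 28 16 17 11))) (.t 16 
(.lf (.two (.lf 0 130 6 124) (.lm 6 34 7 34 10 11 11))) (.lf (.low 0)))) 
(.lf (.two (.lf 0 131 9 122) (.lm 9 29 10 28 16 17 17)))) (.a 11 (.y 371 (.t 16 
(.lf (.tipb 9 10 34)) (.lf (.low 0))) (.t 16 (.z 309 
(.lf (.two (.lf 0 130 6 124) (.lm 6 31 7 31 10 11 9))) (.lf (.tipb 9 10 37))) (.lf (.low 0)))) 
(.y 371 (.lf (.two (.lf 0 131 9 121) (.lm 9 23 10 22 16 17 12))) (.t 16 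
(.lf (.two (.lf 0 130 6 124) (.lm 6 28 7 28 10 11 12))) (.lf (.low 0)))))) (.z 303 (.y 393 
(.a 11 (.lf .inf) (.lf (.two (.lf 0 131 9 122) (.lm 9 40 10 39 16 17 11)))) (.lf .inf)) 
(.y 393 (.a 11 (.lf .inf) (.t 16 (.lf (.two (.lf 0 130 6 124) (.lm 6 34 7 33 10 11 12))) 
(.lf (.low 0)))) (.lf .inf))))) (.z 292 
(.lf (.two (.lf 0 116 8 109) (.lm 8 35 10 33 15 17 34))) (.y 382 
(.lf (.two (.lf 0 128 9 119) (.lm 9 23 10 22 16 17 23))) (.a 33 (.z 303 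
(.lf (.two (.lf 0 131 9 122) (.lm 9 40 9 39 16 17 17))) (.y 393 
(.lf (.two (.lf 0 131 9 121) (.lm 9 34 10 33 16 17 12))) (.t 16 
(.lf (.two (.lf 0 130 6 124) (.lm 6 39 6 39 10 11 12))) (.lf (.low 0))))) 
(.lf (.two (.lf 0 128 9 119) (.lm 9 34 9 33 16 17 23))))))) (.a 22 (.lf .inf) (.z 292 (.y 427 
(.a 33 (.lf .inf) (.lf (.two (.lf 0 116 8 109) (.lm 8 57 9 56 15 16 22)))) (.lf .inf)) (.y 427 
(.a 33 (.lf .inf) (.z 303 (.lf (.two (.lf 0 128 9 119) (.lm 9 51 9 51 16 16 17))) (.y 416 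
(.lf (.two (.lf 0 131 9 121) (.lm 9 45 9 45 16 16 12))) (.lf .inf)))) (.lf .inf))))) (.y 405 
(.a 22 (.z 337 (.y 382 (.a 11 (.z 326 (.y 371 (.t 16 (.lf (.tipb 10 10 28)) (.lf (.low 0))) 
(.t 16 (.lf (.tipb 10 10 34)) (.lf (.low 0)))) (.y 371 (.t 16 (.lf (.tipb 10 10 23)) 
(.lf (.low 0))) (.t 16 (.lf (.tipb 10 10 28)) (.lf (.low 0))))) (.z 326 (.y 371 (.t 16 
(.lf (.tipb 10 10 28)) (.lf (.low 0))) (.t 16 (.lf (.tipb 10 10 34)) (.lf (.low 0)))) (.y 371 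
(.t 16 (.lf (.tipb 10 10 23)) (.lf (.low 0))) (.t 16 (.lf (.tipb 10 10 28)) (.lf (.low 0)))))) 
(.y 393 (.a 11 (.lf .inf) (.z 326 (.t 16 (.a 16 (.lf .inf) 
(.lf (.two (.lf 0 130 6 124) (.lm 6 28 7 28 11 11 11)))) (.lf (.low 0))) (.t 16 
(.lf (.tipb 10 10 34)) (.lf (.low 0))))) (.lf .inf))) (.y 382 (.z 348 (.a 11 (.y 371 (.t 16 
(.lf (.tipb 10 10 17)) (.lf (.low 0))) (.t 16 (.lf (.tipb 10 10 23)) (.lf (.low 0)))) (.y 371 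
(.t 16 (.lf (.tipb 10 10 17)) (.lf (.low 0))) (.t 16 (.lf (.tipb 10 10 23)) (.lf (.low 0))))) 
(.a 11 (.y 371 (.t 16 (.lf (.tipb 10 10 12)) (.lf (.low 0))) (.t 16 (.lf (.tipb 10 10 17)) 
(.lf (.low 0)))) (.y 371 (.t 16 (.lf (.tipb 10 10 12)) (.lf (.low 0))) (.t 16 
(.lf (.tipb 10 10 17)) (.lf (.low 0)))))) (.z 348 (.y 393 (.a 11 (.lf .inf) (.t 16 
(.lf (.tipb 10 10 28)) (.lf (.low 0)))) (.lf .inf)) (.y 393 (.a 11 (.lf .inf) (.t 16 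
(.lf (.tipb 10 10 23)) (.lf (.low 0)))) (.lf .inf))))) (.z 337 (.y 382 (.a 33 (.z 326 (.y 371 
(.lf (.two (.lf 0 131 9 121) (.lm 9 17 10 17 17 17 11))) 
(.lf (.two (.lf 0 131 9 121) (.lm 9 23 10 22 17 17 11)))) (.y 371 (.t 16 (.lf (.tipb 10 10 23)) 
(.lf (.low 0))) (.t 16 (.lf (.tipb 10 10 28)) (.lf (.low 0))))) 
(.lf (.two (.lf 0 131 9 121) (.lm 9 12 10 11 17 17 22)))) (.a 33 (.y 393 (.z 326 (.t 16 
(.lf (.two (.lf 0 130 6 124) (.lm 6 28 7 28 11 11 11))) (.lf (.low 0))) (.t 16 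
(.lf (.tipb 10 10 34)) (.lf (.low 0)))) (.z 326 (.t 16 
(.lf (.two (.lf 0 130 6 124) (.lm 6 34 6 33 11 11 12))) (.lf (.low 0))) (.t 16 (.y 399 
(.lf (.tipb 10 10 37)) (.lf .inf)) (.lf (.low 0))))) (.y 393 (.z 326 
(.lf (.two (.lf 0 131 9 121) (.lm 9 28 10 28 17 17 11))) 
(.lf (.two (.lf 0 131 10 121) (.lm 10 23 10 22 17 17 11)))) (.z 326 
(.lf (.two (.lf 0 131 9 121) (.lm 9 34 9 33 17 17 12))) (.t 16 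
(.lf (.two (.lf 1 130 7 124) (.lm 7 28 6 28 11 11 12))) (.lf (.low 0))))))) (.y 382 (.a 33 
(.z 348 (.y 371 (.t 16 (.lf (.tipb 10 10 17)) (.lf (.low 0))) (.t 16 (.lf (.tipb 10 10 23)) 
(.lf (.low 0)))) (.y 371 (.t 16 (.lf (.tipb 10 10 12)) (.lf (.low 0))) (.t 16 
(.lf (.tipb 10 10 17)) (.lf (.low 0))))) (.z 348 (.y 371 (.t 16 (.lf (.tipb 10 10 17)) 
(.lf (.low 0))) (.t 16 (.lf (.tipb 10 10 23)) (.lf (.low 0)))) (.y 371 (.t 16 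
(.lf (.tipb 10 10 12)) (.lf (.low 0))) (.t 16 (.lf (.tipb 10 10 17)) (.lf (.low 0)))))) (.a 33 
(.z 348 (.y 393 (.t 16 (.lf (.tipb 10 10 28)) (.lf (.low 0))) (.t 16 (.lf (.tipb 10 10 34)) 
(.lf (.low 0)))) (.y 393 (.t 16 (.lf (.tipb 10 10 23)) (.lf (.low 0))) (.t 16 
(.lf (.tipb 10 10 29)) (.lf (.low 0))))) (.z 348 (.y 393 (.t 16 (.lf (.tipb 10 10 28)) 
(.lf (.low 0))) (.t 16 (.lf (.tipb 10 10 34)) (.lf (.low 0)))) (.y 393 (.t 16 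
(.lf (.tipb 10 10 23)) (.lf (.low 0))) (.t 16 (.lf (.tipb 10 10 29)) (.lf (.low 0))))))))) 
(.a 22 (.lf .inf) (.z 337 (.y 427 (.a 33 (.lf .inf) (.z 326 (.y 416 (.t 16 
(.lf (.two (.lf 1 130 6 124) (.lm 6 39 6 40 11 10 11))) (.lf (.low 0))) (.lf .inf)) (.y 416 
(.t 16 (.lf (.two (.lf 1 130 7 124) (.lm 7 34 6 34 11 10 11))) (.lf (.low 0))) (.lf .inf)))) 
(.lf .inf)) (.y 427 (.a 33 (.lf .inf) (.z 348 (.y 416 (.t 16 (.a 39 (.lf .inf) 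
(.lf (.two (.lf 1 130 7 124) (.lm 7 28 6 29 11 10 11)))) (.lf (.low 0))) (.lf .inf)) (.y 416 
(.t 16 (.lf (.tipb 10 9 34)) (.lf (.low 0))) (.lf .inf)))) (.lf .inf)))))) (.z 315 (.y 405 
(.lf (.two (.lf 0 94 9 86) (.lm 9 23 10 22 16 17 45))) (.a 67 (.z 292 (.y 427 
(.lf (.two (.lf 0 105 8 98) (.lm 8 57 9 56 15 16 22))) 
(.lf (.two (.lf 0 105 8 98) (.lm 8 68 8 67 15 15 23)))) (.y 427 
(.lf (.two (.lf 0 117 9 108) (.lm 9 45 9 45 16 16 23))) (.z 303 (.y 438 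
(.lf (.two (.lf 0 117 9 108) (.lm 9 62 8 62 16 15 11))) (.lf .inf)) (.y 438 
(.lf (.two (.lf 0 123 9 113) (.lm 9 56 8 56 16 15 12))) (.lf .inf))))) (.z 292 
(.lf (.two (.lm 0 94 8 86 5 15 23) (.lm 8 57 9 56 15 16 34))) 
(.lf (.two (.lf 0 105 9 97) (.lm 9 45 9 45 16 16 34)))))) (.y 405 (.a 67 (.z 337 (.y 382 
(.lf (.two (.lf 0 129 9 119) (.lm 9 12 10 11 17 17 22))) 
(.lf (.two (.lf 0 129 9 119) (.lm 9 23 9 22 17 17 23)))) (.y 382 (.z 348 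
(.lf (.two (.lf 0 131 10 121) (.lm 10 6 10 6 17 17 17))) (.a 56 (.y 371 (.t 16 
(.lf (.tipb 10 10 12)) (.lf (.low 0))) (.t 16 (.lf (.tipb 10 10 17)) (.lf (.low 0)))) 
(.lf (.two (.lf 0 131 10 121) (.lm 10 0 10 0 17 17 17))))) (.z 348 (.y 393 
(.lf (.two (.lf 0 131 10 121) (.lm 10 17 10 17 17 17 11))) 
(.lf (.two (.lf 0 131 10 121) (.lm 10 22 9 23 17 17 12)))) (.y 393 (.a 56 (.t 16 
(.lf (.tipb 10 10 23)) (.lf (.low 0))) 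
(.lf (.two (.lf 0 131 10 121) (.lm 10 11 10 11 17 17 12)))) (.a 56 (.t 16 
(.lf (.tipb 10 10 29)) (.lf (.low 0))) 
(.lf (.two (.lf 0 131 10 121) (.lm 10 16 9 17 17 17 12)))))))) (.z 337 
(.lf (.two (.lf 0 117 9 108) (.lm 9 12 10 11 17 17 34))) (.y 382 
(.lf (.two (.lf 0 128 10 119) (.lm 10 0 10 0 17 17 23))) 
(.lf (.two (.lf 0 128 10 119) (.lm 10 11 9 11 17 17 23)))))) (.a 67 (.z 337 (.y 427 (.a 56 
(.z 326 (.lf (.two (.lf 0 131 9 121) (.lm 9 39 9 40 17 16 17))) (.y 416 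
(.lf (.two (.lf 0 131 10 121) (.lm 10 34 9 34 17 16 11))) (.t 16 
(.lf (.two (.lf 1 130 7 124) (.lm 7 39 6 40 11 10 11))) (.lf (.low 0))))) 
(.lf (.two (.lf 0 129 9 119) (.lm 9 34 9 34 17 16 22)))) (.y 438 (.a 56 (.lf .inf) 
(.lf (.two (.lf 0 129 9 119) (.lm 9 44 8 46 17 15 17)))) (.lf .inf))) (.y 427 (.z 348 (.a 56 
(.y 416 (.t 16 (.lf (.two (.lf 1 130 7 124) (.lm 7 28 6 29 11 10 11))) (.lf (.low 0))) (.t 16 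
(.lf (.two (.lf 1 130 7 124) (.lm 7 34 6 34 11 10 11))) (.lf (.low 0)))) 
(.lf (.two (.lf 0 131 10 121) (.lm 10 28 9 29 17 16 17)))) (.a 56 (.y 416 (.t 16 
(.lf (.tipb 10 9 34)) (.lf (.low 0))) (.t 16 (.z 354 
(.lf (.two (.lf 1 130 7 124) (.lm 7 31 6 31 11 10 9))) (.lf (.tipb 10 9 37))) (.lf (.low 0)))) 
(.y 416 (.t 16 (.lf (.tipb 10 9 34)) (.lf (.low 0))) (.t 16 
(.lf (.two (.lf 1 130 7 124) (.lm 7 28 6 28 11 10 12))) (.lf (.low 0)))))) (.z 348 (.y 438 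
(.a 56 (.lf .inf) (.t 16 (.lf (.two (.lf 1 130 7 124) (.lm 7 39 6 40 11 10 11))) (.lf (.low 0)))) 
(.lf .inf)) (.y 438 (.a 56 (.lf .inf) (.t 16 
(.lf (.two (.lf 1 130 7 124) (.lm 7 33 6 34 11 10 12))) (.lf (.low 0)))) (.lf .inf))))) 
(.z 337 (.y 427 (.lf (.two (.lf 0 117 9 108) (.lm 9 34 9 34 17 16 22))) 
(.lf (.two (.lf 0 117 9 108) (.lm 9 44 8 46 17 15 23)))) (.y 427 
(.lf (.two (.lf 0 128 10 119) (.lm 10 22 9 23 17 16 23))) (.a 78 (.z 348 (.y 438 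
(.lf (.two (.lf 0 131 10 121) (.lm 10 39 8 40 17 15 11))) 
(.lf (.two (.lf 0 131 10 121) (.lm 10 44 8 46 17 14 12)))) (.y 438 
(.lf (.two (.lf 0 131 10 121) (.lm 10 33 8 34 17 15 12))) (.t 16 
(.lf (.two (.lf 1 129 7 124) (.lm 7 39 6 39 11 9 12))) (.lf (.low 0))))) 
(.lf (.two (.lf 0 128 10 119) (.lm 10 33 8 34 17 15 23)))))))))) (.a 45 (.lf .inf) (.z 315 
(.y 495 (.a 67 (.lf .inf) (.z 292 (.y 472 
(.lf (.two (.lm 0 94 8 86 5 15 23) (.lm 8 79 7 79 15 13 22))) (.lf .inf)) (.y 472 (.a 78 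
(.lf .inf) (.lf (.two (.lm 0 105 9 97 5 16 18) (.lm 9 67 7 68 16 13 23)))) (.lf .inf)))) 
(.lf .inf)) (.y 495 (.a 67 (.lf .inf) (.z 337 (.y 472 (.a 78 (.lf .inf) (.z 326 
(.lf (.two (.lf 0 117 9 108) (.lm 9 61 7 63 17 13 17))) 
(.lf (.two (.lf 0 123 10 113) (.lm 10 55 7 58 17 13 17))))) (.lf .inf)) (.y 472 (.a 78 
(.lf .inf) (.z 348 (.y 461 (.lf (.two (.lf 0 128 10 119) (.lm 10 50 8 52 17 13 11))) (.lf .inf)) 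
(.y 461 (.lf (.two (.lf 0 131 10 121) (.lm 10 44 8 46 17 13 12))) (.lf .inf)))) (.lf .inf)))) 
(.lf .inf)))))) (.z 270 (.y 450 (.a 135 (.z 225 
(.lf (.two (.lm 0 26 5 19 5 9 45) (.lf 5 70 9 65))) 
(.lf (.two (.lm 0 48 7 42 5 13 45) (.lm 7 46 9 44 13 18 68)))) (.z 225 (.y 405 
(.lf (.dir (.lf 2 93 10 87))) (.lf (.two (.lm 2 0 5 0 5 9 45) (.lf 5 92 9 88)))) 
(.lf (.two (.lm 2 26 7 19 5 13 45) (.lm 7 46 9 44 13 18 68))))) (.a 135 (.z 225 (.y 495 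
(.a 112 (.z 202 (.lf (.two (.lm 0 36 4 32 5 6 22) (.lf 4 125 7 123))) 
(.lf (.two (.lm 0 47 5 43 5 9 23) (.lf 5 113 7 112)))) (.z 202 
(.lf (.two (.lm 0 25 4 20 5 6 23) (.lf 4 125 7 123))) 
(.lf (.two (.lm 0 36 5 31 5 9 23) (.lf 5 113 7 112))))) (.a 112 (.lf .inf) (.lf (.tipa 4 8 57)))) 
(.y 495 (.a 112 (.lf (.two (.lm 0 60 7 53 5 13 34) (.lf 7 90 7 90))) 
(.lf (.two (.lm 0 48 7 42 5 13 34) (.lf 7 90 7 90)))) (.a 112 (.lf .inf) (.z 247 (.y 517 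
(.lf (.two (.lm 0 48 6 42 5 11 23) (.lf 6 123 5 125))) (.lf .inf)) (.y 517 
(.lf (.two (.lm 0 59 7 53 5 13 23) (.lf 7 111 5 114))) (.lf .inf)))))) (.z 225 (.y 495 (.a 157 
(.z 202 (.lf (.two (.lm 2 15 4 8 5 6 22) (.lf 4 125 7 123))) 
(.lf (.two (.lm 2 25 5 20 5 9 23) (.lf 5 113 7 112)))) (.z 202 (.y 472 
(.lf (.two (.lm 3 0 4 0 5 6 23) (.lf 4 126 7 122))) (.lf (.tipa 4 5 23))) 
(.lf (.two (.lm 3 14 5 8 5 9 23) (.lf 5 113 7 112))))) (.lf (.tipa 4 8 45))) (.y 495 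
(.lf (.two (.lm 2 26 7 19 5 13 45) (.lf 7 90 7 90))) (.a 157 (.z 247 (.y 517 
(.lf (.two (.lm 2 37 6 31 5 11 22) (.lf 6 123 5 125))) (.y 528 
(.lf (.two (.lm 2 37 6 31 5 11 22) (.lf 6 124 4 126))) (.lf .inf))) (.y 517 
(.lf (.two (.lm 2 48 7 42 5 13 23) (.lf 7 111 5 114))) (.z 258 
(.lf (.two (.lm 2 48 7 42 5 12 17) (.lf 7 123 4 127))) 
(.lf (.two (.lm 2 53 8 48 5 13 17) (.lf 8 122 4 125)))))) (.z 247 (.y 517 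
(.lf (.two (.lm 3 25 6 20 5 11 23) (.lf 6 123 5 125))) (.lf (.tipa 4 10 45))) 
(.lf (.two (.lm 3 36 7 31 5 13 23) (.lf 7 111 5 114))))))))) (.y 450 (.a 135 (.z 315 (.y 405 
(.lf (.two (.lm 0 71 9 64 5 16 45) (.lm 9 23 10 22 16 17 45))) 
(.lf (.two (.lm 0 71 9 64 5 16 45) (.lm 9 45 9 45 16 16 45)))) (.y 405 
(.lf (.two (.lf 0 94 10 86) (.lm 10 0 10 0 17 17 45))) (.a 112 (.z 337 
(.lf (.two (.lf 0 106 9 97) (.lm 9 33 9 35 17 16 34))) 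
(.lf (.two (.lf 0 117 10 108) (.lm 10 22 9 23 17 16 34)))) 
(.lf (.two (.lf 0 94 10 86) (.lm 10 22 9 23 17 16 45)))))) (.z 315 
(.lf (.two (.lm 2 48 9 42 5 16 45) (.lm 9 23 9 22 16 18 68))) (.y 405 
(.lf (.dir (.lf 2 93 10 87))) (.lf (.two (.lm 2 71 10 64 5 17 45) (.lm 10 22 9 23 17 16 45)))))) 
(.a 135 (.z 315 (.y 495 (.a 112 (.z 292 
(.lf (.two (.lm 0 83 8 75 5 15 22) (.lm 8 78 7 80 15 13 34))) (.y 472 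
(.lf (.two (.lm 0 94 9 86 5 16 23) (.lm 9 67 7 68 16 13 23))) (.z 303 
(.lf (.two (.lm 0 94 9 86 5 16 17) (.lm 9 83 6 86 16 11 17))) 
(.lf (.two (.lm 0 100 9 91 5 16 17) (.lm 9 77 6 80 16 11 18)))))) 
(.lf (.two (.lm 0 71 9 64 5 16 34) (.lm 9 67 7 68 16 13 45)))) (.a 112 (.lf .inf) (.z 292 
(.y 517 (.lf (.two (.lm 0 71 8 64 5 15 23) (.lf 8 100 5 103))) (.lf .inf)) (.y 517 
(.lf (.two (.lm 0 82 9 75 5 16 23) (.lm 9 88 5 92 16 9 23))) (.lf .inf))))) (.y 495 (.a 112 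
(.z 337 (.y 472 (.lf (.two (.lf 0 106 9 97) (.lm 9 56 7 57 17 13 22))) (.y 483 
(.lf (.two (.lf 0 106 9 97) (.lm 9 66 7 69 17 11 17))) (.lf .inf))) (.y 472 
(.lf (.two (.lf 0 117 10 108) (.lm 10 44 7 46 17 13 23))) (.z 348 (.y 483 
(.lf (.two (.lf 0 117 10 108) (.lm 10 61 7 63 17 11 11))) (.lf .inf)) (.y 483 (.a 101 
(.lf .inf) (.lf (.two (.lf 0 123 10 113) (.lm 10 55 7 57 17 11 12)))) (.lf .inf))))) (.z 337 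
(.lf (.two (.lm 0 94 9 86 5 17 23) (.lm 9 55 7 58 17 13 34))) (.y 472 
(.lf (.two (.lf 0 105 10 97) (.lm 10 44 7 46 17 13 23))) 
(.lf (.two (.lf 0 105 10 97) (.lm 10 54 6 58 17 11 23)))))) (.a 112 (.lf .inf) (.z 337 (.y 517 
(.a 123 (.lf .inf) (.lf (.two (.lm 1 94 9 86 5 17 17) (.lm 9 77 5 81 17 9 22)))) (.lf .inf)) 
(.y 517 (.a 123 (.lf .inf) (.lf (.two (.lm 1 105 10 97 5 17 18) (.lm 10 66 5 69 17 9 23)))) 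
(.lf .inf)))))) (.z 315 (.y 495 (.lf (.two (.lm 2 48 9 42 5 16 45) (.lm 9 67 7 68 16 13 45))) 
(.a 157 (.z 292 (.y 517 (.lf (.two (.lm 2 59 8 54 5 15 22) (.lf 8 100 5 103))) (.y 528 
(.lf (.two (.lm 2 59 8 54 5 15 22) (.lf 8 111 4 114))) (.lf .inf))) (.y 517 
(.lf (.two (.lm 2 71 9 64 5 16 23) (.lm 9 88 5 92 16 9 23))) (.z 303 
(.lf (.two (.lm 2 71 9 64 5 16 17) (.lf 9 105 4 109))) 
(.lf (.two (.lm 2 76 9 70 5 16 17) (.lm 9 99 4 103 16 7 18)))))) 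
(.lf (.two (.lm 3 48 9 42 5 16 34) (.lf 9 88 5 92))))) (.y 495 
(.lf (.two (.lm 2 71 10 64 5 17 45) (.lm 10 44 7 46 17 13 45))) (.a 157 (.z 337 (.y 517 
(.lf (.two (.lm 2 82 9 76 5 17 22) (.lm 9 77 5 81 17 9 22))) (.y 528 
(.lf (.two (.lm 2 82 9 76 5 17 22) (.lm 9 88 4 92 17 6 17))) (.lf .inf))) (.y 517 
(.lf (.two (.lm 2 93 10 87 5 17 23) (.lm 10 66 5 69 17 9 23))) (.z 348 (.y 528 
(.lf (.two (.lm 2 93 10 87 5 17 17) (.lm 10 82 4 87 17 6 11))) (.lf .inf)) (.y 528 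
(.lf (.two (.lm 2 99 10 92 5 17 17) (.lm 10 76 4 81 17 6 12))) (.lf .inf))))) 
(.lf (.two (.lm 3 70 10 65 5 17 34) (.lm 10 65 5 70 17 9 45)))))))))) (.a 90 (.lf .inf) 
(.z 270 (.y 630 (.a 135 (.lf .inf) (.z 225 (.lf (.tipa 4 8 45)) (.y 585 (.a 157 (.lf .inf) 
(.z 247 (.lf (.tipa 4 10 45)) (.y 562 (.a 168 (.lf .inf) (.z 258 (.lf (.tipa 4 11 45)) 
(.lf (.two (.lm 3 41 8 37 5 13 12) (.lf 8 123 3 128))))) (.lf .inf)))) (.lf .inf)))) (.lf .inf)) 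
(.y 630 (.a 135 (.lf .inf) (.z 315 (.y 585 (.a 157 (.lf .inf) (.z 292 (.y 562 (.a 168 
(.lf .inf) (.lf (.two (.lm 3 48 8 42 5 15 17) (.lf 8 121 3 127)))) (.lf .inf)) (.y 562 (.a 168 
(.lf .inf) (.lf (.two (.lm 3 59 9 53 5 16 18) (.lf 9 110 3 115)))) (.lf .inf)))) (.lf .inf)) 
(.y 585 (.a 157 (.lf .inf) (.z 337 (.y 562 (.a 168 (.lf .inf) 
(.lf (.two (.lm 3 70 9 65 5 17 17) (.lf 9 99 3 104)))) (.lf .inf)) (.y 562 (.a 168 (.lf .inf) 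
(.lf (.two (.lm 3 81 10 76 5 17 18) (.lm 10 87 3 93 17 5 23)))) (.lf .inf)))) (.lf .inf)))) 
(.lf .inf)))))

theorem h1 : chk (leafR PP TD0 0 1) c1 0 32 0 180 180 360 360 720 = true := by
  decide +kernel

def c2 : Tree :=
  (.y 540 (.a 270 (.z 90 (.lf .inf) (.y 450 (.lf (.two (.lf 6 0 1 0) (.lf 1 93 9 87))) 
(.lf (.two (.lf 6 0 1 0) (.pot 1))))) (.lf .inf)) (.lf (.two (.lf 8 0 0 0) (.pot 1))))

theorem h2 : chk (leafR PP TD0 0 1) c2 0 32 180 360 0 180 360 720 = true := by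
  decide +kernel

def c3 : Tree :=
  (.a 270 (.z 270 (.y 450 (.a 225 (.lf (.dir (.lf 5 70 9 65))) (.lf .inf)) (.a 225 (.z 225 
(.y 495 (.a 202 (.z 202 (.y 472 (.lf (.dir (.lf 4 126 7 122))) (.lf (.tipa 5 5 11))) 
(.lf (.two (.lm 4 0 5 0 6 9 23) (.lf 5 113 7 112)))) (.lf (.dir (.lf 5 113 7 112)))) 
(.lf (.tipa 8 8 23))) (.y 495 (.a 202 (.lf (.two (.lm 4 16 7 7 6 13 34) (.lf 7 90 7 90))) 
(.lf (.dir (.lf 5 113 7 112)))) (.a 202 (.z 247 (.y 517 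
(.lf (.two (.lm 4 15 6 8 6 11 22) (.lf 6 123 5 125))) (.lf (.tipa 5 10 34))) 
(.lf (.two (.lm 4 25 7 20 6 13 23) (.lf 7 111 5 114)))) (.z 247 (.y 517 
(.lf (.two (.lm 5 0 6 0 9 11 23) (.lf 6 123 5 125))) (.lf (.tipa 8 10 23))) 
(.lf (.two (.lm 5 14 7 8 9 13 23) (.lf 7 111 5 114))))))) (.z 225 (.y 495 
(.lf (.dir (.lf 7 90 7 90))) (.lf (.two (.lf 7 0 5 0) (.pot 1)))) (.y 495 
(.lf (.dir (.lf 7 90 7 90))) (.a 247 (.z 247 (.y 517 (.lf (.dir (.lf 6 123 5 125))) 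
(.lf (.tipa 10 10 11))) (.lf (.two (.lm 6 0 7 0 11 13 23) (.lf 7 111 5 114)))) 
(.lf (.dir (.lf 7 111 5 114)))))))) (.y 450 (.a 225 (.lf (.dir (.lf 5 70 9 65))) (.lf .inf)) 
(.a 225 (.z 315 (.y 495 (.lf (.two (.lm 5 26 9 19 9 16 45) (.lm 9 67 7 68 16 13 45))) (.a 202 
(.lf (.two (.lm 4 37 9 31 6 16 34) (.lf 9 88 5 92))) 
(.lf (.two (.lm 5 25 9 20 9 16 34) (.lf 9 88 5 92))))) (.y 495 
(.lf (.two (.lm 5 48 10 42 9 17 45) (.lm 10 44 7 46 17 13 45))) 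
(.lf (.two (.lm 5 48 10 42 9 17 45) (.lm 10 65 5 70 17 9 45))))) (.z 315 (.y 495 
(.lf (.dir (.lf 7 90 7 90))) (.a 247 (.lf (.two (.lm 6 15 9 8 11 16 34) (.lf 9 88 5 92))) 
(.lf (.dir (.lf 7 111 5 114))))) 
(.lf (.two (.lm 7 25 10 20 13 17 45) (.lm 10 43 6 47 17 14 68))))))) (.z 270 (.y 450 (.lf .inf) 
(.lf (.two (.lf 9 0 6 0) (.lf 6 90 6 90)))) (.y 450 (.lf .inf) (.a 315 
(.lf (.dir (.lf 9 66 6 69))) (.lf .inf)))))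

theorem h3 : chk (leafR PP TD0 0 1) c3 0 32 180 360 180 360 360 540 = true := by
  decide +kernel

def c4 : Tree :=
  (.z 270 (.y 630 (.a 225 (.z 225 (.lf (.tipa 8 8 23)) (.y 585 (.a 202 (.z 247 
(.lf (.tipa 5 10 34)) (.y 562 (.z 258 (.lf (.tipa 5 11 39)) (.a 191 
(.lf (.two (.lm 4 36 8 31 5 13 12) (.lf 8 123 3 128))) (.lf (.tipa 5 12 40)))) (.z 258 
(.lf (.tipa 5 11 39)) (.y 573 (.a 191 (.lf .inf) (.lf (.tipa 5 12 40))) (.lf .inf))))) 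
(.lf (.tipa 8 12 34))) (.a 202 (.lf .inf) (.lf (.tipa 8 12 34))))) (.z 225 
(.lf (.two (.lf 7 0 5 0) (.pot 1))) (.lf (.tipa 12 12 23)))) (.a 225 (.lf .inf) (.z 225 
(.lf (.two (.lf 7 0 5 0) (.pot 1))) (.lf (.tipa 12 12 23))))) (.y 630 (.a 225 (.z 315 (.y 585 
(.a 202 (.z 292 (.y 562 (.lf (.two (.lm 4 36 8 32 6 15 22) (.lf 8 121 3 127))) (.y 573 (.a 191 
(.lf .inf) (.z 281 (.lf (.two (.lm 4 36 8 32 6 14 11) (.lf 8 123 2 129))) 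
(.lf (.two (.lm 4 42 8 37 6 15 11) (.lf 8 122 2 129))))) (.lf .inf))) (.y 562 
(.lf (.two (.lm 4 47 9 43 6 16 23) (.lf 9 110 3 115))) (.z 303 (.y 573 
(.lf (.two (.lm 4 47 9 43 6 16 17) (.lf 9 122 2 129))) (.lf .inf)) (.y 573 
(.lf (.two (.lm 4 53 9 48 6 16 17) (.lf 9 120 2 127))) (.lf .inf))))) (.z 292 (.y 562 
(.lf (.two (.lm 5 25 8 20 9 15 23) (.lf 8 121 3 127))) (.a 213 (.y 573 
(.lf (.two (.lm 5 31 8 26 8 15 17) (.lf 8 122 2 129))) (.z 281 (.t 16 (.lf (.tipa 5 8 40)) 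
(.y 579 (.lf (.two (.lm 5 32 10 25 7 14 11) (.lf 10 120 0 130))) (.lf .inf))) (.t 16 
(.lf (.tipa 5 9 45)) (.lf (.two (.lm 5 37 11 31 7 15 11) (.lf 11 120 0 130)))))) (.y 573 
(.lf (.two (.lm 5 25 8 20 9 15 17) (.lf 8 122 2 129))) (.z 281 (.lf (.tipa 8 13 34)) (.t 16 
(.lf (.tipa 6 9 40)) (.lf (.two (.lm 6 31 11 25 9 15 12) (.lf 11 120 0 130)))))))) (.y 562 
(.lf (.two (.lm 5 36 9 31 9 16 23) (.lf 9 110 3 115))) (.a 213 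
(.lf (.two (.lm 5 42 9 37 8 16 17) (.lf 9 120 2 127))) 
(.lf (.two (.lm 5 36 9 31 9 16 18) (.lf 9 120 2 127))))))) (.a 202 (.lf .inf) (.z 292 (.y 607 
(.a 213 (.lf .inf) (.z 281 (.lf (.tipa 8 13 34)) (.y 596 (.t 16 (.lf (.tipa 6 9 40)) (.a 219 
(.lf .inf) (.z 286 (.lf (.tipa 8 13 34)) (.y 590 
(.lf (.two (.lm 7 34 11 27 9 15 6) (.lf 11 120 0 131))) (.lf .inf))))) (.lf .inf)))) (.lf .inf)) 
(.y 607 (.a 213 (.lf .inf) (.z 303 (.y 596 (.t 16 (.lf (.tipa 6 9 45)) (.a 219 (.lf .inf) 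
(.lf (.two (.lm 7 37 11 30 9 15 9) (.lf 11 119 0 131))))) (.lf .inf)) (.y 596 (.t 16 
(.lf (.two (.lm 5 40 6 38 7 10 12) (.lf 6 124 2 128))) 
(.lf (.two (.lm 6 42 12 36 9 16 12) (.lf 12 119 0 131)))) (.lf .inf)))) (.lf .inf))))) (.y 585 
(.a 202 (.z 337 (.y 562 (.lf (.two (.lm 4 59 9 54 6 17 22) (.lf 9 99 3 104))) (.y 573 
(.lf (.two (.lm 4 59 9 54 6 17 22) (.lf 9 109 2 116))) (.lf .inf))) (.y 562 
(.lf (.two (.lm 4 70 10 65 6 17 23) (.lm 10 87 3 93 17 5 23))) (.z 348 (.y 573 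
(.lf (.two (.lm 4 70 10 65 6 17 17) (.lm 10 103 2 111 17 5 11))) (.lf .inf)) (.y 573 
(.lf (.two (.lm 4 75 10 71 6 17 17) (.lm 10 98 2 104 17 5 12))) (.lf .inf))))) (.z 337 
(.lf (.two (.lm 5 47 9 43 9 17 23) (.lf 9 98 2 105))) 
(.lf (.two (.lm 5 58 10 54 9 17 23) (.lf 10 87 2 93))))) (.a 202 (.lf .inf) (.z 337 (.y 607 
(.a 213 (.lf .inf) (.z 326 (.y 596 (.lf (.two (.lm 5 47 9 43 9 17 12) (.lf 9 121 1 130))) 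
(.lf .inf)) (.y 596 (.lf (.two (.lm 5 52 10 49 9 17 12) (.lf 10 120 1 128))) (.lf .inf)))) 
(.lf .inf)) (.y 607 (.a 213 (.lf .inf) (.z 348 
(.lf (.two (.lm 5 58 10 54 9 17 12) (.lf 10 114 0 123))) 
(.lf (.two (.lm 5 63 10 60 9 17 12) (.lf 10 108 0 117))))) (.lf .inf)))))) (.z 315 (.y 585 
(.a 247 (.z 292 (.y 562 (.lf (.two (.lm 6 14 8 9 11 15 22) (.lf 8 121 3 127))) (.y 573 (.a 236 
(.lf (.two (.lm 6 19 8 15 10 15 17) (.lf 8 122 2 129))) 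
(.lf (.two (.lm 7 14 8 9 11 15 17) (.lf 8 122 2 129)))) (.a 236 (.z 281 (.lf (.tipa 9 13 28)) 
(.lf (.two (.lm 6 24 8 21 10 15 11) (.lf 8 122 1 129)))) (.z 281 (.lf (.tipa 10 13 23)) 
(.lf (.two (.lm 7 19 8 15 11 15 11) (.lf 8 122 1 129))))))) (.y 562 
(.lf (.two (.lm 6 25 9 20 11 16 23) (.lf 9 110 3 115))) 
(.lf (.two (.lm 6 25 9 20 11 16 23) (.lf 9 120 2 127))))) (.z 292 (.y 562 
(.lf (.two (.lm 7 0 8 0 13 15 23) (.lf 8 121 3 127))) (.a 258 (.lf (.tipa 11 14 23)) 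
(.lf (.tipa 12 14 17)))) (.lf (.two (.lm 7 14 9 8 13 16 23) (.lf 9 109 2 116))))) (.a 247 
(.z 292 (.y 607 (.a 236 (.z 281 (.lf (.tipa 9 13 28)) (.y 596 (.t 16 (.lf (.tipa 6 9 34)) 
(.a 230 (.z 286 (.lf (.tipa 8 13 31)) (.y 590 
(.lf (.two (.lm 7 31 11 25 9 15 6) (.lf 11 120 0 131))) (.t 24 (.lf (.tipa 7 11 34)) 
(.lf (.low 2))))) (.z 286 (.lf (.tipa 9 13 28)) (.y 590 
(.lf (.two (.lm 7 28 11 22 10 15 6) (.pot 0))) (.t 24 (.lf (.tipa 8 11 31)) (.lf (.low 2))))))) 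
(.t 16 (.lf (.tipa 6 9 34)) (.a 230 (.lf .inf) (.z 286 (.lf (.tipa 9 13 28)) (.y 601 (.t 24 
(.lf (.tipa 8 11 31)) (.lf (.low 2))) (.lf .inf))))))) (.z 281 (.lf (.tipa 10 13 23)) (.y 596 
(.t 16 (.lf (.tipa 7 9 28)) (.a 241 (.lf (.tipa 9 14 28)) (.lf (.tipa 10 14 26)))) (.t 16 
(.lf (.tipa 7 9 28)) (.a 241 (.lf (.tipa 9 14 28)) (.lf (.tipa 10 14 26))))))) (.y 618 (.a 236 
(.lf .inf) (.z 281 (.lf (.tipa 10 13 23)) (.t 16 (.lf (.tipa 7 9 28)) (.a 241 (.lf .inf) 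
(.lf (.tipa 10 14 26)))))) (.lf .inf))) (.y 607 (.z 303 (.a 236 (.y 596 (.t 16 
(.lf (.tipa 6 9 39)) (.lf (.two (.lm 7 31 11 25 10 15 11) (.lf 11 119 0 131)))) (.t 16 
(.lf (.tipa 6 9 39)) (.a 230 (.lf .inf) (.z 297 (.y 601 (.t 24 (.lf (.tipa 8 11 34)) 
(.lf (.low 2))) (.lf .inf)) (.y 601 (.lf (.two (.lm 7 33 12 28 10 15 6) (.lf 12 119 0 131))) 
(.lf .inf)))))) (.y 596 (.t 16 (.lf (.tipa 7 9 34)) 
(.lf (.two (.lm 8 26 11 19 11 15 11) (.lf 11 119 0 131)))) (.t 16 (.lf (.tipa 7 9 34)) (.a 241 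
(.z 297 (.y 601 (.t 24 (.lf (.tipa 8 11 31)) (.lf (.low 2))) (.t 24 (.lf (.tipa 8 11 31)) 
(.lf (.low 2)))) (.y 601 (.lf (.two (.lm 8 31 12 25 10 15 6) (.lf 12 119 0 131))) (.t 24 
(.lf (.tipa 8 12 34)) (.lf (.low 2))))) (.z 297 (.y 601 (.t 24 (.lf (.tipa 8 11 28)) 
(.lf (.low 2))) (.t 24 (.lf (.tipa 8 11 28)) (.lf (.low 2)))) (.y 601 
(.lf (.two (.lm 8 28 12 22 11 15 6) (.lf 12 119 0 131))) (.t 24 (.lf (.tipa 8 12 31)) 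
(.lf (.low 2))))))))) (.a 236 (.y 596 (.lf (.two (.lm 6 35 9 32 10 16 12) (.lf 9 121 1 130))) 
(.t 16 (.lf (.two (.lm 5 34 6 33 7 10 12) (.lf 6 124 2 129))) (.z 309 (.a 230 (.lf .inf) 
(.y 601 (.lf (.two (.lm 7 36 12 31 10 16 6) (.lf 12 119 0 131))) (.lf .inf))) 
(.lf (.two (.lm 7 39 12 34 10 16 9) (.lf 12 119 0 131)))))) (.y 596 
(.lf (.two (.lm 7 30 9 26 11 16 12) (.lf 9 121 1 130))) (.t 16 (.lf (.tipa 7 9 40)) (.z 309 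
(.lf (.two (.lm 8 31 12 25 11 16 9) (.lf 12 119 0 131))) 
(.lf (.two (.lm 8 34 12 28 11 16 9) (.lf 12 119 0 131)))))))) (.z 303 (.y 618 (.a 236 
(.lf .inf) (.t 16 (.lf (.tipa 7 9 34)) (.a 241 (.lf .inf) (.z 297 (.y 612 (.t 24 
(.lf (.tipa 8 11 28)) (.lf (.low 2))) (.lf .inf)) (.y 612 (.t 24 (.lf (.tipa 8 12 31)) 
(.lf (.low 2))) (.lf .inf)))))) (.lf .inf)) (.y 618 (.a 236 (.lf .inf) (.t 16 
(.lf (.tipa 7 9 40)) (.z 309 (.a 241 (.lf .inf) (.y 612 (.t 24 (.lf (.tipa 8 12 34)) 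
(.lf (.low 2))) (.lf .inf))) (.a 241 (.lf .inf) (.y 612 
(.lf (.two (.lm 8 34 12 28 11 16 6) (.lf 12 119 0 131))) (.lf .inf)))))) (.lf .inf))))) 
(.z 292 (.y 607 (.a 258 (.lf (.tipa 11 14 23)) (.lf (.tipa 12 14 17))) (.a 258 
(.lf (.tipa 11 14 23)) (.lf (.tipa 12 14 17)))) (.y 607 (.a 258 (.z 303 (.y 596 (.t 16 
(.lf (.tipa 7 9 28)) (.lf (.two (.lm 9 20 11 14 12 15 11) (.lf 11 119 0 131)))) (.t 16 
(.lf (.tipa 7 9 28)) (.a 252 (.z 297 (.lf (.tipa 10 14 25)) (.y 601 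
(.lf (.two (.lm 9 25 12 20 11 15 6) (.lf 12 119 0 131))) (.t 24 (.lf (.tipa 9 12 28)) 
(.lf (.low 2))))) (.z 297 (.lf (.tipa 11 14 23)) (.y 601 
(.lf (.two (.lm 9 22 12 17 12 15 6) (.lf 12 119 0 131))) (.t 24 (.lf (.tipa 9 12 26)) 
(.lf (.low 2)))))))) (.y 596 (.lf (.two (.lm 7 24 9 21 12 16 12) (.lf 9 121 1 130))) (.t 16 
(.lf (.tipa 7 9 34)) (.lf (.two (.lm 9 25 12 20 12 16 12) (.lf 12 119 0 131)))))) (.z 303 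
(.y 596 (.lf (.two (.lm 8 13 9 9 13 16 12) (.lf 9 122 1 130))) (.t 16 (.lf (.tipa 8 9 23)) 
(.a 264 (.z 297 (.lf (.tipa 12 14 20)) (.y 601 
(.lf (.two (.lm 9 19 12 14 13 15 6) (.lf 12 119 0 131))) (.t 24 (.lf (.tipa 10 12 23)) 
(.lf (.low 2))))) (.z 297 (.lf (.tipa 12 14 17)) (.y 601 
(.lf (.two (.lm 10 16 12 11 13 15 6) (.pot 0))) (.t 24 (.lf (.tipa 10 12 20)) (.lf (.low 2)))))))) 
(.y 596 (.lf (.two (.lm 8 18 9 15 13 16 12) (.lf 9 121 1 130))) (.t 16 (.lf (.tipa 8 9 29)) 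
(.lf (.two (.lm 10 19 12 14 13 16 12) (.lf 12 119 0 131))))))) (.a 258 (.z 303 (.y 618 (.t 16 
(.lf (.tipa 7 9 28)) (.a 252 (.z 297 (.lf (.tipa 10 14 25)) (.y 612 (.t 24 
(.lf (.tipa 9 12 28)) (.lf (.low 2))) (.t 24 (.lf (.tipa 9 12 28)) (.lf (.low 2))))) (.z 297 
(.lf (.tipa 11 14 23)) (.y 612 (.t 24 (.lf (.tipa 9 12 26)) (.lf (.low 2))) (.t 24 
(.lf (.tipa 9 12 26)) (.lf (.low 2))))))) (.t 16 (.lf (.tipa 7 9 28)) (.y 624 (.a 252 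
(.lf .inf) (.z 297 (.lf (.tipa 11 14 23)) (.t 24 (.lf (.low 2)) (.lf (.low 2))))) (.lf .inf)))) 
(.y 618 (.t 16 (.lf (.tipa 7 9 34)) (.z 309 (.a 252 (.y 612 (.t 24 (.lf (.tipa 9 12 31)) 
(.lf (.low 2))) (.t 24 (.lf (.tipa 9 12 31)) (.lf (.low 2)))) (.y 612 (.t 24 
(.lf (.tipa 9 12 29)) (.lf (.low 2))) (.t 24 (.lf (.tipa 9 12 29)) (.lf (.low 2))))) (.a 252 
(.y 612 (.lf (.two (.lm 9 31 12 26 11 16 6) (.lf 12 119 0 131))) (.t 24 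
(.lf (.two (.lm 8 31 11 26 10 13 6) (.lf 11 120 0 131))) (.lf (.low 2)))) (.y 612 
(.lf (.two (.lm 9 28 12 23 12 16 6) (.lf 12 119 0 131))) (.t 24 (.lf (.tipa 9 12 32)) 
(.lf (.low 2))))))) (.t 16 (.lf (.tipa 7 9 34)) (.z 309 (.y 624 (.a 252 (.lf .inf) (.t 24 
(.lf (.low 2)) (.lf (.low 2)))) (.lf .inf)) (.y 624 (.a 252 (.lf .inf) (.t 24 (.lf (.low 2)) 
(.lf (.low 2)))) (.lf .inf)))))) (.z 303 (.y 618 (.t 16 (.lf (.tipa 8 9 23)) (.a 264 (.z 297 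
(.lf (.tipa 12 14 20)) (.y 612 (.t 24 (.lf (.tipa 10 12 23)) (.lf (.low 2))) (.t 24 
(.lf (.tipa 10 12 23)) (.lf (.low 2))))) (.z 297 (.lf (.tipa 12 14 17)) (.y 612 (.t 24 
(.lf (.tipa 10 12 20)) (.lf (.low 2))) (.t 24 (.lf (.tipa 10 12 20)) (.lf (.low 2))))))) 
(.t 16 (.lf (.tipa 8 9 23)) (.a 264 (.y 624 (.z 297 (.lf (.tipa 12 14 20)) (.t 24 
(.lf (.low 2)) (.lf (.low 2)))) (.lf (.low 2))) (.y 624 (.z 297 (.lf (.tipa 12 14 17)) (.t 24 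
(.lf (.low 2)) (.lf (.low 2)))) (.lf (.low 2)))))) (.y 618 (.t 16 (.lf (.tipa 8 9 29)) (.a 264 
(.z 309 (.y 612 (.t 24 (.lf (.tipa 10 12 26)) (.lf (.low 2))) (.t 24 (.lf (.tipa 10 12 26)) 
(.lf (.low 2)))) (.y 612 (.lf (.two (.lm 9 25 12 20 13 16 6) (.lf 12 119 0 131))) (.t 24 
(.lf (.tipa 10 12 29)) (.lf (.low 2))))) (.z 309 (.y 612 
(.lf (.two (.lm 10 19 12 14 13 16 6) (.lf 12 119 0 131))) (.t 24 (.lf (.tipa 10 12 23)) 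
(.lf (.low 2)))) (.y 612 (.lf (.two (.lm 10 22 12 17 13 16 6) (.lf 12 119 0 131))) (.t 24 
(.lf (.tipa 10 12 26)) (.lf (.low 2))))))) (.t 16 (.lf (.tipa 8 9 29)) (.a 264 (.z 309 (.y 624 
(.t 24 (.lf (.low 2)) (.lf (.low 2))) (.lf (.low 2))) (.y 624 (.t 24 (.lf (.low 2)) 
(.lf (.low 2))) (.lf (.low 2)))) (.z 309 (.y 624 (.t 24 (.lf (.low 2)) (.lf (.low 2))) 
(.lf (.low 2))) (.y 624 (.t 24 (.lf (.low 2)) (.lf (.low 2))) (.lf (.low 2))))))))))))) 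
(.y 585 (.a 247 (.lf (.two (.lm 6 36 10 32 11 17 34) (.lf 10 87 2 93))) 
(.lf (.two (.lm 7 24 10 21 13 17 34) (.lf 10 87 2 93)))) (.a 247 (.z 337 (.y 607 (.a 236 
(.z 326 (.y 596 (.lf (.two (.lm 6 41 9 38 10 17 11) (.lf 9 121 1 130))) (.t 16 
(.lf (.two (.lm 5 40 6 39 7 11 11) (.lf 6 124 2 129))) 
(.lf (.two (.lm 7 42 12 37 10 16 11) (.lf 12 118 0 131))))) 
(.lf (.two (.lm 6 47 10 43 10 17 11) (.lf 10 120 0 128)))) 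
(.lf (.two (.lm 7 36 9 32 11 17 17) (.lf 9 120 0 128)))) (.y 618 (.a 236 (.lf .inf) (.z 326 
(.t 16 (.lf (.two (.lm 5 35 6 33 8 11 11) (.lf 6 124 2 129))) (.a 241 (.lf .inf) (.z 320 
(.y 612 (.lf (.two (.lm 8 37 12 31 11 16 6) (.lf 12 118 0 131))) (.lf .inf)) 
(.lf (.two (.lm 8 39 12 34 11 16 6) (.lf 12 118 0 131)))))) (.t 16 
(.lf (.two (.lm 5 40 7 39 8 11 11) (.lf 7 124 2 129))) 
(.lf (.two (.lm 8 42 13 37 11 17 11) (.lf 13 118 0 131)))))) (.lf .inf))) (.y 607 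
(.lf (.two (.lm 6 47 10 43 11 17 23) (.lf 10 108 0 117))) (.z 348 (.y 618 (.a 236 (.lf .inf) 
(.lf (.two (.lm 7 47 10 43 11 17 11) (.lf 10 121 0 131)))) (.lf .inf)) (.y 618 (.a 236 
(.lf .inf) (.lf (.two (.lm 7 52 10 49 11 17 12) (.lf 10 119 0 128)))) (.lf .inf))))) (.z 337 
(.y 607 (.a 258 (.lf (.two (.lm 7 30 9 27 12 17 17) (.lf 9 120 0 128))) 
(.lf (.two (.lm 8 24 9 21 13 17 17) (.lf 9 120 0 128)))) (.a 258 (.y 618 (.z 326 (.t 16 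
(.lf (.tipa 7 10 40)) (.a 252 (.lf (.two (.lm 9 34 12 29 11 16 8) (.lf 12 118 0 131))) 
(.lf (.two (.lm 9 31 12 26 12 16 9) (.lf 12 118 0 131))))) 
(.lf (.two (.lm 7 36 10 32 12 17 11) (.lf 10 121 0 131)))) (.z 326 (.t 16 (.lf (.tipa 7 10 40)) 
(.y 624 (.a 252 (.lf .inf) (.z 320 (.t 24 (.lf (.low 2)) (.lf (.low 2))) (.t 24 (.lf (.low 2)) 
(.lf (.low 2))))) (.lf .inf))) (.t 16 (.lf (.two (.lm 5 35 7 33 8 11 11) (.lf 7 124 1 129))) 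
(.y 624 (.lf (.two (.lm 9 36 13 32 12 17 11) (.lf 13 118 0 131))) (.lf .inf))))) (.y 618 
(.z 326 (.t 16 (.lf (.tipa 8 10 34)) (.lf (.two (.lm 10 25 12 20 13 16 12) (.lf 12 118 0 131)))) 
(.lf (.two (.lm 8 29 10 27 13 17 12) (.lf 10 121 0 131)))) (.z 326 (.t 16 (.lf (.tipa 8 10 34)) 
(.a 264 (.y 624 (.z 320 (.t 24 (.lf (.low 2)) (.lf (.low 2))) 
(.lf (.two (.lm 9 30 12 26 13 16 6) (.lf 12 118 0 131)))) (.lf (.low 2))) (.y 624 (.z 320 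
(.t 24 (.lf (.low 2)) (.lf (.low 2))) (.lf (.two (.lm 10 27 12 23 13 16 6) (.lf 12 118 0 131)))) 
(.lf (.low 2))))) (.t 16 (.lf (.tipa 8 10 40)) (.a 264 (.y 624 
(.lf (.two (.lm 9 33 13 29 13 17 9) (.lf 13 118 0 131))) (.lf (.low 2))) 
(.lf (.two (.lm 10 30 13 26 13 17 9) (.lf 13 118 0 131))))))))) (.y 607 
(.lf (.two (.lm 7 35 10 32 13 17 23) (.lf 10 108 0 117))) (.a 258 (.z 348 (.y 618 
(.lf (.two (.lm 7 41 10 38 12 17 11) (.lf 10 121 0 131))) (.t 16 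
(.lf (.two (.lm 5 40 7 39 8 11 11) (.lf 7 124 1 129))) 
(.lf (.two (.lm 9 42 13 37 12 17 11) (.lf 13 118 0 131))))) 
(.lf (.two (.lm 7 46 10 44 12 17 12) (.lf 10 119 0 128)))) (.z 348 
(.lf (.two (.lm 8 35 10 32 13 17 12) (.lf 10 121 0 131))) 
(.lf (.two (.lm 8 40 10 38 13 17 12) (.lf 10 119 0 128))))))))))) (.a 225 (.lf .inf) (.z 315 
(.y 675 (.a 247 (.lf .inf) (.z 292 (.y 652 (.a 258 (.lf .inf) (.lf (.tipa 12 14 17))) 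
(.lf .inf)) (.y 652 (.a 258 (.lf .inf) (.z 303 (.y 641 (.t 16 (.lf (.tipa 8 9 23)) 
(.lf (.low 2))) (.lf .inf)) (.y 641 (.t 16 (.lf (.tipa 8 9 29)) (.lf (.low 2))) (.lf .inf)))) 
(.lf .inf)))) (.lf .inf)) (.y 675 (.a 247 (.lf .inf) (.z 337 (.y 652 (.a 258 (.lf .inf) 
(.z 326 (.y 641 (.t 16 (.lf (.tipa 8 10 34)) (.lf (.low 2))) (.lf .inf)) (.y 641 (.t 16 
(.lf (.tipa 8 10 40)) (.lf (.low 2))) (.lf .inf)))) (.lf .inf)) (.y 652 (.a 258 (.lf .inf) 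
(.z 348 (.y 641 (.t 16 (.lf (.two (.lm 6 34 7 33 9 11 12) (.lf 7 124 1 129))) (.lf (.low 2))) 
(.lf .inf)) (.y 641 (.t 16 (.lf (.two (.lm 6 40 7 38 9 11 12) (.lf 7 124 1 129))) 
(.lf (.low 2))) (.lf .inf)))) (.lf .inf)))) (.lf .inf))))))

theorem h4 : chk (leafR PP TD0 0 1) c4 0 32 180 270 180 360 540 720 = true := by
  decide +kernel

def c5 : Tree :=
  (.lf (.two (.lf 9 0 6 0) (.pot 1)))

theorem h5 : chk (leafR PP TD0 0 1) c5 0 32 270 360 180 270 540 720 = true := by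
  decide +kernel

def c6 : Tree :=
  (.a 315 (.z 315 (.y 585 (.a 292 (.z 292 (.y 562 (.lf (.dir (.lf 8 121 3 127))) 
(.lf (.tipa 14 14 11))) (.lf (.two (.lm 8 0 9 0 15 16 23) (.lf 9 109 2 116)))) 
(.lf (.dir (.lf 9 109 2 116)))) (.a 292 (.z 292 (.lf (.tipa 14 14 11)) (.y 607 (.z 303 (.a 281 
(.y 596 (.lf (.two (.lm 8 8 9 3 14 16 11) (.lf 9 122 1 130))) (.t 16 (.lf (.tipa 8 9 17)) 
(.a 275 (.z 297 (.lf (.tipa 12 14 14)) (.y 601 (.lf (.two (.lm 10 14 12 8 13 15 6) (.pot 0))) 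
(.t 24 (.lf (.tipa 10 12 17)) (.lf (.low 2))))) (.lf (.tipa 13 14 14))))) (.y 596 
(.lf (.two (.lm 8 0 9 0 15 16 11) (.lf 9 122 1 130))) (.t 16 (.lf (.tipa 9 9 11)) (.a 286 
(.lf (.tipa 13 14 11)) (.lf (.tipa 14 14 9)))))) (.a 281 
(.lf (.two (.lm 8 13 9 9 14 16 12) (.lf 9 121 0 130))) 
(.lf (.two (.lm 8 8 9 3 15 16 12) (.lf 9 121 0 130))))) (.z 303 (.y 618 (.a 281 (.t 16 
(.lf (.tipa 8 9 17)) (.a 275 (.z 297 (.lf (.tipa 12 14 14)) (.y 612 (.t 24 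
(.lf (.tipa 10 12 17)) (.lf (.low 2))) (.t 24 (.lf (.tipa 10 12 17)) (.lf (.low 2))))) 
(.lf (.tipa 13 14 14)))) (.t 16 (.lf (.tipa 9 9 11)) (.a 286 (.lf (.tipa 13 14 11)) 
(.lf (.tipa 14 14 9))))) (.a 281 (.t 16 (.lf (.tipa 8 9 17)) (.y 624 (.a 275 (.z 297 
(.lf (.tipa 12 14 14)) (.t 24 (.lf (.low 2)) (.lf (.low 2)))) (.lf (.tipa 13 14 14))) 
(.lf (.low 2)))) (.t 16 (.lf (.tipa 9 9 11)) (.y 624 (.a 286 (.lf (.tipa 13 14 11)) 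
(.lf (.tipa 14 14 9))) (.lf (.low 2)))))) (.y 618 (.a 281 (.t 16 (.lf (.tipa 8 9 23)) (.z 309 
(.a 275 (.y 612 (.lf (.two (.lm 10 16 12 12 13 16 6) (.lf 12 119 0 131))) (.t 24 
(.lf (.tipa 10 12 20)) (.lf (.low 2)))) (.y 612 
(.lf (.two (.lm 10 13 12 9 14 16 6) (.lf 12 119 0 131))) (.t 24 (.lf (.tipa 11 12 17)) 
(.lf (.low 2))))) (.a 275 (.lf (.two (.lm 10 19 12 15 13 16 6) (.lf 12 119 0 131))) 
(.lf (.two (.lm 10 16 12 12 14 16 6) (.lf 12 119 0 131)))))) (.t 16 (.lf (.tipa 9 9 17)) 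
(.z 309 (.a 286 (.y 612 (.lf (.two (.lm 11 11 12 6 14 16 6) (.lf 12 119 0 131))) (.t 24 
(.lf (.tipa 11 12 14)) (.lf (.low 2)))) (.y 612 
(.lf (.two (.lm 11 8 12 3 15 16 6) (.lf 12 119 0 131))) (.t 24 (.lf (.tipa 11 12 12)) 
(.lf (.low 2))))) (.a 286 (.lf (.two (.lm 11 14 12 9 14 16 6) (.lf 12 119 0 131))) 
(.lf (.two (.lm 11 11 12 6 15 16 6) (.lf 12 119 0 131))))))) (.a 281 (.t 16 
(.lf (.tipa 8 9 23)) (.z 309 (.y 624 (.a 275 (.t 24 (.lf (.low 2)) (.lf (.low 2))) (.t 24 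
(.lf (.low 2)) (.lf (.low 2)))) (.lf (.low 2))) (.y 624 (.a 275 (.t 24 (.lf (.low 2)) 
(.lf (.low 2))) (.t 24 (.lf (.low 2)) (.lf (.low 2)))) (.lf (.low 2))))) (.t 16 
(.lf (.tipa 9 9 17)) (.z 309 (.y 624 (.a 286 (.t 24 (.lf (.low 2)) (.lf (.low 2))) (.t 24 
(.lf (.low 2)) (.lf (.low 2)))) (.lf (.low 2))) (.y 624 (.a 286 (.t 24 (.lf (.low 2)) 
(.lf (.low 2))) (.t 24 (.lf (.low 2)) (.lf (.low 2)))) (.lf (.low 2)))))))))) (.z 292 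
(.lf (.two (.lf 9 0 8 0) (.pot 1))) (.y 607 (.a 303 (.z 303 (.y 596 (.lf (.dir (.pot 0))) 
(.t 16 (.lf (.tipa 9 9 6)) (.a 297 (.lf (.tipa 14 14 6)) (.lf (.tipa 14 14 3))))) 
(.lf (.two (.lm 9 0 9 0 16 16 12) (.lf 9 121 0 130)))) (.lf (.dir (.pot 0)))) (.a 303 (.z 303 
(.y 618 (.t 16 (.lf (.tipa 9 9 6)) (.a 297 (.lf (.tipa 14 14 6)) (.lf (.tipa 14 14 3)))) 
(.t 16 (.lf (.tipa 9 9 6)) (.y 624 (.a 297 (.lf (.tipa 14 14 6)) (.lf (.tipa 14 14 3))) 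
(.lf (.low 2))))) (.y 618 (.t 16 (.lf (.tipa 9 9 12)) (.z 309 (.a 297 (.y 612 
(.lf (.two (.lm 11 6 12 0 15 16 6) (.lf 12 119 0 131))) (.t 24 (.lf (.tipa 11 12 9)) 
(.lf (.low 2)))) (.y 612 (.t 24 (.lf (.tipa 12 12 6)) (.lf (.low 2))) (.t 24 
(.lf (.tipa 12 12 6)) (.lf (.low 2))))) (.lf (.two (.lm 11 6 12 0 15 16 9) (.lf 12 119 0 131))))) 
(.t 16 (.lf (.tipa 9 9 12)) (.z 309 (.y 624 (.a 297 (.t 24 (.lf (.low 2)) (.lf (.low 2))) 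
(.t 24 (.lf (.low 2)) (.lf (.low 2)))) (.lf (.low 2))) (.y 624 (.a 297 (.t 24 (.lf (.low 2)) 
(.lf (.low 2))) (.t 24 (.lf (.low 2)) (.lf (.low 2)))) (.lf (.low 2))))))) (.z 303 
(.lf (.two (.lf 9 0 9 0) (.pot 1))) (.y 618 (.t 16 (.lf (.tipa 9 9 6)) (.a 309 (.z 309 (.y 612 
(.t 24 (.lf (.tipa 12 12 3)) (.lf (.low 2))) (.t 24 (.lf (.tipa 12 12 3)) (.lf (.low 2)))) 
(.y 612 (.lf (.two (.lm 12 0 12 0 16 16 6) (.lf 12 119 0 131))) (.t 24 (.lf (.tipa 12 12 6)) 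
(.lf (.low 2))))) (.z 309 (.lf (.two (.lf 12 0 12 0) (.pot 1))) (.y 612 (.lf (.dir (.pot 0))) 
(.t 24 (.lf (.tipa 12 12 3)) (.lf (.low 2))))))) (.t 16 (.lf (.tipa 9 9 6)) (.a 309 (.z 309 
(.y 624 (.t 24 (.lf (.low 2)) (.lf (.low 2))) (.lf (.low 2))) (.y 624 (.t 24 (.lf (.low 2)) 
(.lf (.low 2))) (.lf (.low 2)))) (.z 309 (.lf (.two (.lf 12 0 12 0) (.pot 1))) (.y 624 (.t 24 
(.lf (.low 2)) (.lf (.low 2))) (.lf (.low 2))))))))))))) (.y 585 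
(.lf (.two (.lm 9 0 10 0 16 17 45) (.lf 10 87 2 93))) (.a 292 (.z 337 (.y 607 
(.lf (.two (.lm 8 13 9 10 15 17 22) (.lf 9 120 0 128))) (.y 618 (.a 281 (.z 326 
(.lf (.two (.lm 8 18 9 16 14 17 11) (.lf 9 121 0 131))) 
(.lf (.two (.lm 8 24 10 21 14 17 11) (.lf 10 121 0 131)))) 
(.lf (.two (.lm 8 13 9 10 15 17 17) (.lf 9 121 0 131)))) (.a 281 (.z 326 (.t 16 
(.lf (.tipa 8 10 28)) (.y 624 (.a 275 (.z 320 (.t 24 (.lf (.low 2)) (.lf (.low 2))) 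
(.lf (.two (.lm 10 25 12 20 13 16 6) (.lf 12 118 0 131)))) (.z 320 
(.lf (.two (.lm 10 19 12 15 14 16 6) (.lf 12 118 0 131))) 
(.lf (.two (.lm 10 22 12 17 14 16 6) (.lf 12 118 0 131))))) (.lf (.low 2)))) (.t 16 
(.lf (.tipa 8 10 34)) (.lf (.two (.lm 10 25 13 20 14 17 11) (.lf 13 118 0 131))))) (.z 326 
(.t 16 (.lf (.tipa 9 10 23)) (.y 624 (.a 286 
(.lf (.two (.lm 11 17 12 12 14 16 8) (.lf 12 118 0 131))) 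
(.lf (.two (.lm 11 14 12 9 15 16 9) (.lf 12 118 0 131)))) (.lf (.low 2)))) 
(.lf (.two (.lm 8 18 10 16 15 17 11) (.lf 10 121 0 131))))))) (.y 607 
(.lf (.two (.lm 8 24 10 21 15 17 23) (.lf 10 108 0 117))) (.z 348 
(.lf (.two (.lm 8 24 10 21 15 17 17) (.lf 10 121 0 131))) 
(.lf (.two (.lm 8 29 10 27 15 17 17) (.lf 10 119 0 128)))))) (.z 337 (.y 607 
(.lf (.two (.lm 9 0 9 0 16 17 23) (.lf 9 120 0 128))) (.a 303 (.y 618 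
(.lf (.two (.lm 9 8 9 4 16 17 17) (.lf 9 121 0 131))) (.z 326 (.t 16 (.lf (.tipa 9 10 17)) 
(.y 624 (.lf (.two (.lm 11 9 12 3 15 16 11) (.lf 12 118 0 131))) (.lf (.low 2)))) 
(.lf (.two (.lm 9 13 10 10 16 17 11) (.lf 10 121 0 131))))) (.y 618 
(.lf (.two (.lm 9 0 9 0 16 17 17) (.lf 9 121 0 131))) (.z 326 (.t 16 (.lf (.tipa 9 10 12)) 
(.a 309 (.y 624 (.lf (.two (.lm 12 6 12 0 16 16 9) (.lf 12 118 0 131))) (.lf (.low 2))) 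
(.y 624 (.z 320 (.lf (.two (.lm 12 0 12 0 16 16 6) (.lf 12 118 0 131))) 
(.lf (.two (.lm 12 5 12 0 16 16 6) (.lf 12 118 0 131)))) (.lf (.low 2))))) 
(.lf (.two (.lm 9 7 10 4 16 17 12) (.lf 10 121 0 131))))))) 
(.lf (.two (.lm 9 12 10 10 16 17 23) (.lf 10 108 0 117))))))) (.z 315 (.y 585 
(.lf (.dir (.lf 10 87 2 93))) (.lf (.two (.lf 10 0 9 0) (.pot 1)))) (.y 585 
(.lf (.dir (.lf 10 87 2 93))) (.a 337 (.z 337 (.y 607 (.lf (.dir (.lf 9 120 0 128))) (.y 618 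
(.lf (.dir (.pot 0))) (.a 326 (.z 326 (.t 16 (.lf (.tipa 10 10 6)) (.y 624 
(.lf (.dir (.lf 12 118 0 131))) (.lf (.low 2)))) 
(.lf (.two (.lm 9 0 10 0 17 17 11) (.lf 10 121 0 131)))) (.lf (.dir (.pot 0)))))) 
(.lf (.two (.lm 9 0 10 0 17 17 23) (.lf 10 108 0 117)))) (.lf (.dir (.lf 10 108 0 117)))))))

theorem h6 : chk (leafR PP TD0 0 1) c6 0 32 270 360 270 360 540 630 = true := by
  decide +kernel

def c7 : Tree :=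
  (.a 315 (.z 315 (.y 675 (.a 292 (.z 292 (.lf (.tipa 14 14 11)) (.y 652 (.z 303 (.a 281 
(.y 641 (.t 16 (.lf (.tipa 8 9 17)) (.lf (.low 2))) (.t 16 (.lf (.tipa 8 9 17)) (.lf (.low 2)))) 
(.y 641 (.t 16 (.lf (.tipa 9 9 11)) (.lf (.low 2))) (.t 16 (.lf (.tipa 9 9 11)) (.lf (.low 2))))) 
(.a 281 (.y 641 (.t 16 (.lf (.tipa 8 9 23)) (.lf (.low 2))) (.t 16 (.lf (.tipa 8 9 23)) 
(.lf (.low 2)))) (.y 641 (.t 16 (.lf (.tipa 9 9 17)) (.lf (.low 2))) (.t 16 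
(.lf (.tipa 9 9 17)) (.lf (.low 2)))))) (.z 303 (.y 663 (.a 281 (.lf .inf) (.t 16 
(.lf (.tipa 9 9 11)) (.lf (.low 2)))) (.lf .inf)) (.y 663 (.a 281 (.lf .inf) (.t 16 
(.lf (.tipa 9 9 17)) (.lf (.low 2)))) (.lf .inf))))) (.z 292 
(.lf (.two (.lf 9 0 8 0) (.pot 1))) (.y 652 (.a 303 (.z 303 (.y 641 (.t 16 (.lf (.tipa 9 9 6)) 
(.lf (.low 2))) (.t 16 (.lf (.tipa 9 9 6)) (.lf (.low 2)))) (.y 641 (.t 16 (.lf (.tipa 9 9 12)) 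
(.lf (.low 2))) (.t 16 (.lf (.tipa 9 9 12)) (.lf (.low 2))))) (.z 303 
(.lf (.two (.lf 9 0 9 0) (.pot 1))) (.y 641 (.t 16 (.lf (.tipa 9 9 6)) (.lf (.low 2))) (.t 16 
(.lf (.tipa 9 9 6)) (.lf (.low 2)))))) (.a 303 (.z 303 (.y 663 (.t 16 (.lf (.tipa 9 9 6)) 
(.lf (.low 2))) (.t 16 (.lf (.tipa 9 9 6)) (.lf (.low 2)))) (.y 663 (.t 16 (.lf (.tipa 9 9 12)) 
(.lf (.low 2))) (.t 16 (.lf (.tipa 9 9 12)) (.lf (.low 2))))) (.z 303 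
(.lf (.two (.lf 9 0 9 0) (.pot 1))) (.y 663 (.t 16 (.lf (.tipa 9 9 6)) (.lf (.low 2))) (.t 16 
(.lf (.tipa 9 9 6)) (.lf (.low 2))))))))) (.a 292 (.lf .inf) (.z 292 
(.lf (.two (.lf 9 0 8 0) (.pot 1))) (.y 697 (.a 303 (.lf .inf) (.z 303 
(.lf (.two (.lf 9 0 9 0) (.pot 1))) (.y 686 (.t 16 (.lf (.tipa 9 9 6)) (.lf (.low 2))) 
(.lf .inf)))) (.lf .inf))))) (.y 675 (.a 292 (.z 337 (.y 652 (.a 281 (.z 326 (.y 641 (.t 16 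
(.lf (.tipa 8 10 28)) (.lf (.low 2))) (.t 16 (.lf (.tipa 8 10 28)) (.lf (.low 2)))) (.y 641 
(.t 16 (.lf (.tipa 8 10 34)) (.lf (.low 2))) (.t 16 (.lf (.tipa 8 10 34)) (.lf (.low 2))))) 
(.z 326 (.y 641 (.t 16 (.lf (.tipa 9 10 23)) (.lf (.low 2))) (.t 16 (.lf (.tipa 9 10 23)) 
(.lf (.low 2)))) (.y 641 (.t 16 (.lf (.tipa 9 10 28)) (.lf (.low 2))) (.t 16 
(.lf (.tipa 9 10 28)) (.lf (.low 2)))))) (.y 663 (.a 281 (.lf .inf) (.z 326 (.t 16 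
(.lf (.tipa 9 10 23)) (.lf (.low 2))) (.t 16 (.lf (.tipa 9 10 28)) (.lf (.low 2))))) (.lf .inf))) 
(.y 652 (.z 348 (.a 281 (.y 641 (.t 16 (.lf (.tipa 8 10 39)) (.lf (.low 2))) (.t 16 
(.lf (.tipa 8 10 39)) (.lf (.low 2)))) (.y 641 (.t 16 (.lf (.tipa 9 10 34)) (.lf (.low 2))) 
(.t 16 (.lf (.tipa 9 10 34)) (.lf (.low 2))))) (.a 281 (.y 641 
(.lf (.two (.lm 8 35 10 32 14 17 12) (.lf 10 121 0 131))) (.t 16 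
(.lf (.two (.lm 6 34 7 33 9 11 12) (.lf 7 124 1 129))) (.lf (.low 2)))) (.y 641 
(.lf (.two (.lm 8 29 10 27 15 17 12) (.lf 10 121 0 131))) (.t 16 
(.lf (.two (.lm 6 28 7 28 10 11 12) (.lf 7 124 1 129))) (.lf (.low 2)))))) (.z 348 (.y 663 
(.a 281 (.lf .inf) (.t 16 (.lf (.tipa 9 10 34)) (.lf (.low 2)))) (.lf .inf)) (.y 663 (.a 281 
(.lf .inf) (.t 16 (.z 354 (.lf (.tipa 9 10 37)) 
(.lf (.two (.lm 6 31 7 31 10 11 9) (.lf 7 124 1 130)))) (.lf (.low 2)))) (.lf .inf))))) 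
(.z 337 (.y 652 (.a 303 (.z 326 (.y 641 (.t 16 (.lf (.tipa 9 10 17)) (.lf (.low 2))) (.t 16 
(.lf (.tipa 9 10 17)) (.lf (.low 2)))) (.y 641 (.t 16 (.lf (.tipa 9 10 23)) (.lf (.low 2))) 
(.t 16 (.lf (.tipa 9 10 23)) (.lf (.low 2))))) (.z 326 (.y 641 (.t 16 (.lf (.tipa 9 10 12)) 
(.lf (.low 2))) (.t 16 (.lf (.tipa 9 10 12)) (.lf (.low 2)))) (.y 641 (.t 16 
(.lf (.tipa 9 10 17)) (.lf (.low 2))) (.t 16 (.lf (.tipa 9 10 17)) (.lf (.low 2)))))) (.a 303 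
(.y 663 (.z 326 (.t 16 (.lf (.tipa 9 10 17)) (.lf (.low 2))) (.t 16 (.lf (.tipa 9 10 23)) 
(.lf (.low 2)))) (.z 326 (.t 16 (.lf (.tipa 9 10 17)) (.lf (.low 2))) (.t 16 
(.lf (.tipa 9 10 23)) (.lf (.low 2))))) (.y 663 (.z 326 (.t 16 (.lf (.tipa 9 10 12)) 
(.lf (.low 2))) (.t 16 (.lf (.tipa 9 10 17)) (.lf (.low 2)))) (.z 326 (.t 16 
(.lf (.tipa 9 10 12)) (.lf (.low 2))) (.t 16 (.lf (.tipa 9 10 17)) (.lf (.low 2))))))) (.y 652 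
(.a 303 (.z 348 (.y 641 (.lf (.two (.lm 9 18 10 16 16 17 11) (.lf 10 121 0 131))) (.t 16 
(.lf (.tipa 9 10 28)) (.lf (.low 2)))) (.y 641 
(.lf (.two (.lm 9 23 10 22 16 17 12) (.lf 10 121 0 131))) (.t 16 (.lf (.tipa 9 10 34)) 
(.lf (.low 2))))) (.z 348 (.y 641 (.lf (.two (.lm 9 12 10 10 16 17 12) (.lf 10 121 0 131))) 
(.t 16 (.lf (.tipa 9 10 23)) (.lf (.low 2)))) 
(.lf (.two (.lm 9 17 10 16 16 17 12) (.lf 10 121 0 131))))) (.a 303 (.z 348 (.y 663 (.t 16 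
(.lf (.tipa 9 10 28)) (.lf (.low 2))) (.t 16 (.lf (.tipa 9 10 28)) (.lf (.low 2)))) (.y 663 
(.t 16 (.lf (.tipa 9 10 34)) (.lf (.low 2))) (.t 16 (.lf (.tipa 9 10 34)) (.lf (.low 2))))) 
(.z 348 (.y 663 (.t 16 (.lf (.tipa 9 10 23)) (.lf (.low 2))) (.t 16 (.lf (.tipa 9 10 23)) 
(.lf (.low 2)))) (.y 663 (.t 16 (.lf (.tipa 9 10 29)) (.lf (.low 2))) (.t 16 
(.lf (.tipa 9 10 29)) (.lf (.low 2))))))))) (.a 292 (.lf .inf) (.z 337 (.y 697 (.a 303 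
(.lf .inf) (.z 326 (.y 686 (.t 16 (.lf (.tipa 9 10 12)) (.lf (.low 2))) (.lf .inf)) (.y 686 
(.t 16 (.lf (.tipa 9 10 17)) (.lf (.low 2))) (.lf .inf)))) (.lf .inf)) (.y 697 (.a 303 
(.lf .inf) (.z 348 (.y 686 (.t 16 (.lf (.tipa 9 10 23)) (.lf (.low 2))) (.lf .inf)) (.y 686 
(.t 16 (.lf (.tipa 9 10 29)) (.lf (.low 2))) (.lf .inf)))) (.lf .inf)))))) (.z 315 
(.lf (.two (.lf 10 0 9 0) (.pot 1))) (.y 675 (.a 337 (.z 337 (.y 652 (.a 326 (.z 326 (.y 641 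
(.t 16 (.lf (.tipa 10 10 6)) (.lf (.low 2))) (.t 16 (.lf (.tipa 10 10 6)) (.lf (.low 2)))) 
(.y 641 (.t 16 (.lf (.tipa 10 10 11)) (.lf (.low 2))) (.t 16 (.lf (.tipa 10 10 11)) 
(.lf (.low 2))))) (.z 326 (.lf (.two (.lf 10 0 9 0) (.pot 1))) (.y 641 (.t 16 
(.lf (.tipa 10 10 6)) (.lf (.low 2))) (.t 16 (.lf (.tipa 10 10 6)) (.lf (.low 2)))))) (.y 663 
(.a 326 (.z 326 (.t 16 (.lf (.tipa 10 10 6)) (.lf (.low 2))) (.t 16 (.lf (.tipa 10 10 11)) 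
(.lf (.low 2)))) (.z 326 (.lf (.two (.lf 10 0 9 0) (.pot 1))) (.t 16 (.lf (.tipa 10 10 6)) 
(.lf (.low 2))))) (.a 326 (.z 326 (.t 16 (.lf (.tipa 10 10 6)) (.lf (.low 2))) (.t 16 
(.lf (.tipa 10 10 11)) (.lf (.low 2)))) (.z 326 (.lf (.two (.lf 10 0 9 0) (.pot 1))) (.t 16 
(.lf (.tipa 10 10 6)) (.lf (.low 2))))))) (.y 652 (.z 348 (.a 326 (.y 641 
(.lf (.two (.lm 9 7 10 4 17 17 11) (.lf 10 121 0 131))) (.t 16 (.lf (.tipa 10 10 17)) 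
(.lf (.low 2)))) (.y 641 (.lf (.two (.lm 10 0 10 0 17 17 11) (.lf 10 121 0 131))) (.t 16 
(.lf (.tipa 10 10 11)) (.lf (.low 2))))) 
(.lf (.two (.lm 9 6 10 5 17 17 17) (.lf 10 121 0 131)))) (.z 348 (.y 663 (.a 326 (.t 16 
(.lf (.tipa 10 10 17)) (.lf (.low 2))) (.t 16 (.lf (.tipa 10 10 11)) (.lf (.low 2)))) (.a 326 
(.t 16 (.lf (.tipa 10 10 17)) (.lf (.low 2))) (.t 16 (.lf (.tipa 10 10 11)) (.lf (.low 2))))) 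
(.y 663 (.a 326 (.t 16 (.lf (.tipa 10 10 23)) (.lf (.low 2))) (.t 16 (.lf (.tipa 10 10 17)) 
(.lf (.low 2)))) (.a 326 (.t 16 (.lf (.tipa 10 10 23)) (.lf (.low 2))) (.t 16 
(.lf (.tipa 10 10 17)) (.lf (.low 2)))))))) (.z 337 (.lf (.two (.lf 10 0 9 0) (.pot 1))) 
(.y 652 (.a 348 (.z 348 (.y 641 (.lf (.dir (.pot 0))) (.t 16 (.lf (.tipa 10 10 6)) 
(.lf (.low 2)))) (.lf (.two (.lm 10 0 10 0 17 17 12) (.lf 10 121 0 131)))) 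
(.lf (.dir (.pot 0)))) (.a 348 (.z 348 (.y 663 (.t 16 (.lf (.tipa 10 10 6)) (.lf (.low 2))) 
(.t 16 (.lf (.tipa 10 10 6)) (.lf (.low 2)))) (.y 663 (.t 16 (.lf (.tipa 10 10 12)) 
(.lf (.low 2))) (.t 16 (.lf (.tipa 10 10 12)) (.lf (.low 2))))) (.z 348 
(.lf (.two (.lf 10 0 10 0) (.pot 1))) (.y 663 (.t 16 (.lf (.tipa 10 10 6)) (.lf (.low 2))) 
(.t 16 (.lf (.tipa 10 10 6)) (.lf (.low 2))))))))) (.a 337 (.z 337 (.y 697 (.a 326 (.z 326 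
(.y 686 (.t 16 (.lf (.tipa 10 10 6)) (.lf (.low 2))) (.t 16 (.lf (.tipa 10 10 6)) 
(.lf (.low 2)))) (.y 686 (.t 16 (.lf (.tipa 10 10 11)) (.lf (.low 2))) (.t 16 
(.lf (.tipa 10 10 11)) (.lf (.low 2))))) (.z 326 (.lf (.two (.lf 10 0 9 0) (.pot 1))) (.y 686 
(.t 16 (.lf (.tipa 10 10 6)) (.lf (.low 2))) (.t 16 (.lf (.tipa 10 10 6)) (.lf (.low 2)))))) 
(.y 708 (.a 326 (.lf .inf) (.z 326 (.lf (.two (.lf 10 0 9 0) (.pot 1))) (.t 16 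
(.lf (.tipa 10 10 6)) (.lf (.low 2))))) (.lf .inf))) (.y 697 (.z 348 (.a 326 (.y 686 (.t 16 
(.lf (.tipa 10 10 17)) (.lf (.low 2))) (.t 16 (.lf (.tipa 10 10 17)) (.lf (.low 2)))) (.y 686 
(.t 16 (.lf (.tipa 10 10 11)) (.lf (.low 2))) (.t 16 (.lf (.tipa 10 10 11)) (.lf (.low 2))))) 
(.a 326 (.y 686 (.t 16 (.lf (.tipa 10 10 23)) (.lf (.low 2))) (.t 16 (.lf (.tipa 10 10 23)) 
(.lf (.low 2)))) (.y 686 (.t 16 (.lf (.tipa 10 10 17)) (.lf (.low 2))) (.t 16 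
(.lf (.tipa 10 10 17)) (.lf (.low 2)))))) (.z 348 (.y 708 (.a 326 (.lf .inf) (.t 16 
(.lf (.tipa 10 10 11)) (.lf (.low 2)))) (.lf .inf)) (.y 708 (.a 326 (.lf .inf) (.t 16 
(.lf (.tipa 10 10 17)) (.lf (.low 2)))) (.lf .inf))))) (.z 337 
(.lf (.two (.lf 10 0 9 0) (.pot 1))) (.y 697 (.a 348 (.z 348 (.y 686 (.t 16 
(.lf (.tipa 10 10 6)) (.lf (.low 2))) (.t 16 (.lf (.tipa 10 10 6)) (.lf (.low 2)))) (.y 686 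
(.t 16 (.lf (.tipa 10 10 12)) (.lf (.low 2))) (.t 16 (.lf (.tipa 10 10 12)) (.lf (.low 2))))) 
(.z 348 (.lf (.two (.lf 10 0 10 0) (.pot 1))) (.y 686 (.t 16 (.lf (.tipa 10 10 6)) 
(.lf (.low 2))) (.t 16 (.lf (.tipa 10 10 6)) (.lf (.low 2)))))) (.a 348 (.z 348 (.y 708 (.t 16 
(.lf (.tipa 10 10 6)) (.lf (.low 2))) (.t 16 (.lf (.tipa 10 10 6)) (.lf (.low 2)))) (.y 708 
(.t 16 (.lf (.tipa 10 10 12)) (.lf (.low 2))) (.t 16 (.lf (.tipa 10 10 12)) (.lf (.low 2))))) 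
(.z 348 (.lf (.two (.lf 10 0 10 0) (.pot 1))) (.y 708 (.t 16 (.lf (.tipa 10 10 6)) 
(.lf (.low 2))) (.t 16 (.lf (.tipa 10 10 6)) (.lf (.low 2))))))))))))

theorem h7 : chk (leafR PP TD0 0 1) c7 0 32 270 360 270 360 630 720 = true := by
  decide +kernel

def c8 : Tree :=
  (.z 450 (.y 450 (.a 45 (.z 405 (.y 405 (.a 22 (.z 382 (.y 382 (.a 11 (.z 371 (.y 371 (.t 16 
(.lf (.tipb 10 10 6)) (.lf (.low 0))) (.t 16 (.lf (.tipb 10 10 11)) (.lf (.low 0)))) (.y 371 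
(.lf (.two (.pot 1) (.lf 10 0 10 0))) (.t 16 (.lf (.tipb 10 10 6)) (.lf (.low 0))))) (.z 371 
(.y 371 (.t 16 (.lf (.tipb 10 10 6)) (.lf (.low 0))) (.t 16 (.lf (.tipb 10 10 11)) 
(.lf (.low 0)))) (.y 371 (.lf (.two (.pot 1) (.lf 10 0 10 0))) (.t 16 (.lf (.tipb 10 10 6)) 
(.lf (.low 0)))))) (.y 393 (.a 11 (.lf .inf) (.z 371 (.t 16 (.lf (.tipb 10 10 17)) 
(.lf (.low 0))) (.t 16 (.lf (.tipb 10 10 11)) (.lf (.low 0))))) (.lf .inf))) (.y 382 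
(.lf (.two (.pot 1) (.lf 9 0 10 0))) (.z 393 (.y 393 (.a 11 (.lf .inf) (.t 16 
(.lf (.tipb 10 10 6)) (.lf (.low 0)))) (.lf .inf)) (.y 393 (.lf (.two (.pot 1) (.lf 9 0 10 0))) 
(.lf .inf))))) (.z 382 (.y 382 (.a 33 (.z 371 (.y 371 (.t 16 (.lf (.tipb 10 10 6)) 
(.lf (.low 0))) (.t 16 (.lf (.tipb 10 10 11)) (.lf (.low 0)))) (.y 371 
(.lf (.two (.pot 1) (.lf 10 0 10 0))) (.t 16 (.lf (.tipb 10 10 6)) (.lf (.low 0))))) (.z 371 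
(.y 371 (.t 16 (.lf (.tipb 10 10 6)) (.lf (.low 0))) (.t 16 (.lf (.tipb 10 10 11)) 
(.lf (.low 0)))) (.y 371 (.lf (.two (.pot 1) (.lf 10 0 10 0))) (.t 16 (.lf (.tipb 10 10 6)) 
(.lf (.low 0)))))) (.a 33 (.y 393 (.z 371 (.t 16 (.lf (.tipb 10 10 17)) (.lf (.low 0))) (.t 16 
(.lf (.tipb 10 10 11)) (.lf (.low 0)))) (.z 371 (.t 16 (.lf (.tipb 10 10 23)) (.lf (.low 0))) 
(.t 16 (.lf (.tipb 10 10 17)) (.lf (.low 0))))) (.y 393 (.z 371 (.t 16 (.lf (.tipb 10 10 17)) 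
(.lf (.low 0))) (.t 16 (.lf (.tipb 10 10 11)) (.lf (.low 0)))) (.z 371 (.t 16 
(.lf (.tipb 10 10 23)) (.lf (.low 0))) (.t 16 (.lf (.tipb 10 10 17)) (.lf (.low 0))))))) 
(.y 382 (.lf (.two (.pot 1) (.lf 9 0 10 0))) (.a 33 (.z 393 (.y 393 (.t 16 
(.lf (.tipb 10 10 6)) (.lf (.low 0))) (.t 16 (.lf (.tipb 10 10 12)) (.lf (.low 0)))) (.y 393 
(.lf (.two (.pot 1) (.lf 9 0 10 0))) (.t 16 (.lf (.tipb 10 10 6)) (.lf (.low 0))))) (.z 393 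
(.y 393 (.t 16 (.lf (.tipb 10 10 6)) (.lf (.low 0))) (.t 16 (.lf (.tipb 10 10 12)) 
(.lf (.low 0)))) (.y 393 (.lf (.two (.pot 1) (.lf 9 0 10 0))) (.t 16 (.lf (.tipb 10 10 6)) 
(.lf (.low 0))))))))) (.a 22 (.lf .inf) (.z 382 (.y 427 (.a 33 (.lf .inf) (.z 371 (.y 416 
(.t 16 (.lf (.tipb 10 9 28)) (.lf (.low 0))) (.lf .inf)) (.y 416 (.t 16 (.lf (.tipb 10 9 23)) 
(.lf (.low 0))) (.lf .inf)))) (.lf .inf)) (.y 427 (.a 33 (.lf .inf) (.z 393 (.y 416 (.t 16 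
(.lf (.tipb 10 9 17)) (.lf (.low 0))) (.lf .inf)) (.y 416 (.t 16 (.lf (.tipb 10 9 12)) 
(.lf (.low 0))) (.lf .inf)))) (.lf .inf))))) (.y 405 (.lf (.two (.pot 1) (.lf 9 0 10 0))) 
(.a 22 (.lf .inf) (.z 427 (.y 427 (.a 33 (.lf .inf) (.z 416 (.y 416 (.t 16 (.lf (.tipb 9 9 6)) 
(.lf (.low 0))) (.lf .inf)) (.y 416 (.lf (.two (.pot 1) (.lf 9 0 9 0))) (.lf .inf)))) 
(.lf .inf)) (.y 427 (.lf (.two (.pot 1) (.lf 8 0 9 0))) (.lf .inf)))))) (.z 405 (.y 405 (.a 67 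
(.z 382 (.y 382 (.a 56 (.z 371 (.y 371 (.t 16 (.lf (.tipb 10 10 6)) (.lf (.low 0))) (.t 16 
(.lf (.tipb 10 10 11)) (.lf (.low 0)))) (.y 371 (.lf (.two (.pot 1) (.lf 10 0 10 0))) (.t 16 
(.lf (.tipb 10 10 6)) (.lf (.low 0))))) (.z 371 (.y 371 (.t 16 (.lf (.tipb 10 10 6)) 
(.lf (.low 0))) (.t 16 (.lf (.tipb 10 10 11)) (.lf (.low 0)))) (.y 371 
(.lf (.two (.pot 1) (.lf 10 0 10 0))) (.t 16 (.lf (.tipb 10 10 6)) (.lf (.low 0)))))) (.y 393 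
(.a 56 (.z 371 (.t 16 (.lf (.tipb 10 10 17)) (.lf (.low 0))) (.t 16 (.lf (.tipb 10 10 11)) 
(.lf (.low 0)))) (.z 371 (.t 16 (.lf (.tipb 10 10 17)) (.lf (.low 0))) (.t 16 
(.lf (.tipb 10 10 11)) (.lf (.low 0))))) (.a 56 (.z 371 (.t 16 (.lf (.tipb 10 10 23)) 
(.lf (.low 0))) (.t 16 (.lf (.tipb 10 10 17)) (.lf (.low 0)))) (.z 371 (.t 16 
(.lf (.tipb 10 10 23)) (.lf (.low 0))) (.t 16 (.lf (.tipb 10 10 17)) (.lf (.low 0))))))) 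
(.y 382 (.lf (.two (.pot 1) (.lf 9 0 10 0))) (.z 393 (.y 393 (.a 56 (.t 16 
(.lf (.tipb 10 10 6)) (.lf (.low 0))) (.t 16 (.lf (.tipb 10 10 6)) (.lf (.low 0)))) (.a 56 
(.t 16 (.lf (.tipb 10 10 12)) (.lf (.low 0))) (.t 16 (.lf (.tipb 10 10 12)) (.lf (.low 0))))) 
(.y 393 (.lf (.two (.pot 1) (.lf 9 0 10 0))) (.a 56 (.t 16 (.lf (.tipb 10 10 6)) (.lf (.low 0))) 
(.t 16 (.lf (.tipb 10 10 6)) (.lf (.low 0)))))))) (.z 382 (.y 382 (.a 78 (.z 371 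
(.lf (.two (.lf 0 131 10 121) (.lm 10 0 10 0 17 17 11))) (.y 371 (.lf (.dir (.pot 0))) (.t 16 
(.lf (.tipb 10 10 6)) (.lf (.low 0))))) (.lf (.dir (.pot 0)))) (.a 78 (.y 393 (.z 371 
(.lf (.two (.lf 0 131 10 121) (.lm 10 5 10 6 17 17 11))) (.t 16 (.lf (.tipb 10 10 11)) 
(.lf (.low 0)))) (.z 371 (.lf (.two (.lf 0 131 10 121) (.lm 10 10 9 12 17 17 12))) (.t 16 
(.lf (.tipb 10 10 17)) (.lf (.low 0))))) (.y 393 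
(.lf (.two (.lf 0 131 10 121) (.lm 10 0 10 0 17 17 17))) 
(.lf (.two (.lf 0 131 10 121) (.lm 10 4 9 7 17 17 17)))))) (.y 382 
(.lf (.two (.pot 1) (.lf 9 0 10 0))) (.a 78 (.z 393 (.y 393 (.t 16 (.lf (.tipb 10 10 6)) 
(.lf (.low 0))) (.t 16 (.lf (.tipb 10 10 12)) (.lf (.low 0)))) (.y 393 
(.lf (.two (.pot 1) (.lf 9 0 10 0))) (.t 16 (.lf (.tipb 10 10 6)) (.lf (.low 0))))) (.z 393 
(.y 393 (.t 16 (.lf (.tipb 10 10 6)) (.lf (.low 0))) (.t 16 (.lf (.tipb 10 10 12)) 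
(.lf (.low 0)))) (.y 393 (.lf (.two (.pot 1) (.lf 9 0 10 0))) (.t 16 (.lf (.tipb 10 10 6)) 
(.lf (.low 0))))))))) (.a 67 (.z 382 (.y 427 (.a 56 (.z 371 (.y 416 (.t 16 
(.lf (.tipb 10 9 28)) (.lf (.low 0))) (.t 16 (.lf (.tipb 10 9 34)) (.lf (.low 0)))) (.y 416 
(.t 16 (.lf (.tipb 10 9 23)) (.lf (.low 0))) (.t 16 (.lf (.tipb 10 9 28)) (.lf (.low 0))))) 
(.z 371 (.y 416 (.t 16 (.lf (.tipb 10 9 28)) (.lf (.low 0))) (.t 16 (.lf (.tipb 10 9 34)) 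
(.lf (.low 0)))) (.y 416 (.t 16 (.lf (.tipb 10 9 23)) (.lf (.low 0))) (.t 16 
(.lf (.tipb 10 9 28)) (.lf (.low 0)))))) (.y 438 (.a 56 (.lf .inf) (.z 371 (.t 16 (.a 61 
(.lf .inf) (.lf (.two (.lf 1 130 7 124) (.lm 7 28 6 28 11 10 11)))) (.lf (.low 0))) (.t 16 
(.lf (.tipb 10 9 34)) (.lf (.low 0))))) (.lf .inf))) (.y 427 (.z 393 (.a 56 (.y 416 (.t 16 
(.lf (.tipb 10 9 17)) (.lf (.low 0))) (.t 16 (.lf (.tipb 10 9 23)) (.lf (.low 0)))) (.y 416 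
(.t 16 (.lf (.tipb 10 9 17)) (.lf (.low 0))) (.t 16 (.lf (.tipb 10 9 23)) (.lf (.low 0))))) 
(.a 56 (.y 416 (.t 16 (.lf (.tipb 10 9 12)) (.lf (.low 0))) (.t 16 (.lf (.tipb 10 9 17)) 
(.lf (.low 0)))) (.y 416 (.t 16 (.lf (.tipb 10 9 12)) (.lf (.low 0))) (.t 16 
(.lf (.tipb 10 9 17)) (.lf (.low 0)))))) (.z 393 (.y 438 (.a 56 (.lf .inf) (.t 16 
(.lf (.tipb 10 9 28)) (.lf (.low 0)))) (.lf .inf)) (.y 438 (.a 56 (.lf .inf) (.t 16 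
(.lf (.tipb 10 9 23)) (.lf (.low 0)))) (.lf .inf))))) (.z 382 (.y 427 (.a 78 (.z 371 (.y 416 
(.lf (.two (.lf 0 131 10 121) (.lm 10 16 9 18 17 16 11))) (.t 16 (.lf (.tipb 10 9 34)) 
(.lf (.low 0)))) (.y 416 (.t 16 (.lf (.tipb 10 9 23)) (.lf (.low 0))) (.t 16 
(.lf (.tipb 10 9 28)) (.lf (.low 0))))) (.z 371 
(.lf (.two (.lf 0 131 10 121) (.lm 10 16 9 18 17 16 17))) (.y 416 
(.lf (.two (.lf 0 131 10 121) (.lm 10 11 9 12 17 16 11))) 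
(.lf (.two (.lf 0 131 10 121) (.lm 10 16 9 18 17 16 11)))))) (.a 78 (.y 438 (.z 371 (.t 16 
(.lf (.two (.lf 1 129 7 124) (.lm 7 28 6 28 11 10 11))) (.lf (.low 0))) (.t 16 
(.lf (.tipb 10 9 34)) (.lf (.low 0)))) (.z 371 (.t 16 
(.lf (.two (.lf 1 129 7 124) (.lm 7 33 6 34 11 9 12))) (.lf (.low 0))) (.t 16 (.y 444 
(.lf (.tipb 10 8 37)) (.lf .inf)) (.lf (.low 0))))) (.y 438 (.z 371 
(.lf (.two (.lf 0 131 10 121) (.lm 10 27 8 29 17 15 11))) (.t 16 (.lf (.tipb 10 9 34)) 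
(.lf (.low 0)))) (.z 371 (.lf (.two (.lf 0 131 10 121) (.lm 10 32 8 35 17 14 12))) (.t 16 
(.lf (.two (.lf 1 129 7 124) (.lm 7 27 6 29 11 9 12))) (.lf (.low 0))))))) (.y 427 (.a 78 
(.z 393 (.y 416 (.t 16 (.lf (.tipb 10 9 17)) (.lf (.low 0))) (.t 16 (.lf (.tipb 10 9 23)) 
(.lf (.low 0)))) (.y 416 (.t 16 (.lf (.tipb 10 9 12)) (.lf (.low 0))) (.t 16 
(.lf (.tipb 10 9 17)) (.lf (.low 0))))) (.z 393 (.y 416 (.t 16 (.lf (.tipb 10 9 17)) 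
(.lf (.low 0))) (.t 16 (.lf (.tipb 10 9 23)) (.lf (.low 0)))) (.y 416 (.t 16 
(.lf (.tipb 10 9 12)) (.lf (.low 0))) (.t 16 (.lf (.tipb 10 9 17)) (.lf (.low 0)))))) (.a 78 
(.z 393 (.y 438 (.t 16 (.lf (.tipb 10 9 28)) (.lf (.low 0))) (.t 16 (.lf (.tipb 10 8 34)) 
(.lf (.low 0)))) (.y 438 (.t 16 (.lf (.tipb 10 9 23)) (.lf (.low 0))) (.t 16 
(.lf (.tipb 10 8 29)) (.lf (.low 0))))) (.z 393 (.y 438 (.t 16 (.lf (.tipb 10 9 28)) 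
(.lf (.low 0))) (.t 16 (.lf (.tipb 10 8 34)) (.lf (.low 0)))) (.y 438 (.t 16 
(.lf (.tipb 10 9 23)) (.lf (.low 0))) (.t 16 (.lf (.tipb 10 8 29)) (.lf (.low 0)))))))))) 
(.y 405 (.lf (.two (.pot 1) (.lf 9 0 10 0))) (.a 67 (.z 427 (.y 427 (.a 56 (.z 416 (.y 416 
(.t 16 (.lf (.tipb 9 9 6)) (.lf (.low 0))) (.t 16 (.lf (.tipb 9 9 11)) (.lf (.low 0)))) 
(.y 416 (.lf (.two (.pot 1) (.lf 9 0 9 0))) (.t 16 (.lf (.tipb 9 9 6)) (.lf (.low 0))))) 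
(.z 416 (.y 416 (.t 16 (.lf (.tipb 9 9 6)) (.lf (.low 0))) (.t 16 (.lf (.tipb 9 9 11)) 
(.lf (.low 0)))) (.y 416 (.lf (.two (.pot 1) (.lf 9 0 9 0))) (.t 16 (.lf (.tipb 9 9 6)) 
(.lf (.low 0)))))) (.y 438 (.a 56 (.lf .inf) (.z 416 (.t 16 (.lf (.tipb 9 9 17)) (.lf (.low 0))) 
(.t 16 (.lf (.tipb 9 9 11)) (.lf (.low 0))))) (.lf .inf))) (.y 427 
(.lf (.two (.pot 1) (.lf 8 0 9 0))) (.z 438 (.y 438 (.lf (.tipb 14 14 6)) (.lf .inf)) 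
(.lf (.tipb 13 14 6))))) (.z 427 (.y 427 (.a 78 (.z 416 (.y 416 (.t 16 (.lf (.tipb 9 9 6)) 
(.lf (.low 0))) (.t 16 (.lf (.tipb 9 9 11)) (.lf (.low 0)))) (.y 416 
(.lf (.two (.pot 1) (.lf 9 0 9 0))) (.t 16 (.lf (.tipb 9 9 6)) (.lf (.low 0))))) (.z 416 
(.y 416 (.t 16 (.lf (.tipb 9 9 6)) (.lf (.low 0))) (.t 16 (.lf (.tipb 9 9 11)) (.lf (.low 0)))) 
(.y 416 (.lf (.two (.pot 1) (.lf 9 0 9 0))) (.t 16 (.lf (.tipb 9 9 6)) (.lf (.low 0)))))) 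
(.a 78 (.y 438 (.z 416 (.t 16 (.lf (.tipb 9 9 17)) (.lf (.low 0))) (.t 16 (.lf (.tipb 9 9 11)) 
(.lf (.low 0)))) (.z 416 (.t 16 (.lf (.tipb 9 8 23)) (.lf (.low 0))) (.t 16 
(.lf (.tipb 9 8 17)) (.lf (.low 0))))) (.y 438 (.z 416 (.t 16 (.lf (.tipb 9 9 17)) 
(.lf (.low 0))) (.t 16 (.lf (.tipb 9 9 11)) (.lf (.low 0)))) (.z 416 (.t 16 
(.lf (.tipb 9 8 23)) (.lf (.low 0))) (.t 16 (.lf (.tipb 9 8 17)) (.lf (.low 0))))))) (.y 427 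
(.lf (.two (.pot 1) (.lf 8 0 9 0))) (.a 78 (.z 438 (.y 438 (.lf (.tipb 14 14 6)) 
(.lf (.tipb 14 13 12))) (.lf (.tipb 13 14 6))) (.z 438 (.y 438 (.lf (.tipb 14 14 6)) 
(.lf (.tipb 14 13 12))) (.lf (.tipb 13 14 6)))))))))) (.a 45 (.lf .inf) (.z 405 (.y 495 (.a 67 
(.lf .inf) (.z 382 (.y 472 (.a 78 (.lf .inf) (.z 371 (.y 461 (.t 16 
(.lf (.two (.lf 1 129 7 124) (.lm 7 39 6 40 11 9 11))) (.lf (.low 0))) (.lf .inf)) (.y 461 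
(.t 16 (.lf (.two (.lf 1 129 7 124) (.lm 7 33 6 35 11 9 11))) (.lf (.low 0))) (.lf .inf)))) 
(.lf .inf)) (.y 472 (.a 78 (.lf .inf) (.z 393 (.y 461 (.t 16 (.lf (.tipb 10 8 40)) 
(.lf (.low 0))) (.lf .inf)) (.y 461 (.t 16 (.lf (.tipb 10 8 34)) (.lf (.low 0))) (.lf .inf)))) 
(.lf .inf)))) (.lf .inf)) (.y 495 (.a 67 (.lf .inf) (.z 427 (.y 472 (.a 78 (.lf .inf) (.z 416 
(.y 461 (.t 16 (.lf (.tipb 9 8 28)) (.lf (.low 0))) (.lf .inf)) (.y 461 (.t 16 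
(.lf (.tipb 9 8 23)) (.lf (.low 0))) (.lf .inf)))) (.lf .inf)) (.y 472 (.a 78 (.lf .inf) 
(.z 438 (.y 461 (.lf (.tipb 14 12 17)) (.lf .inf)) (.lf (.tipb 13 12 17)))) (.lf .inf)))) 
(.lf .inf))))) (.y 450 (.lf (.two (.pot 1) (.lf 6 0 9 0))) (.a 45 (.lf .inf) (.z 495 (.y 495 
(.lf (.tipb 12 12 23)) (.lf .inf)) (.lf (.tipb 8 13 23))))))

theorem h8 : chk (leafR PP TD0 0 1) c8 0 32 0 90 360 540 360 540 = true := by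
  decide +kernel

def c9 : Tree :=
  (.a 135 (.z 405 (.y 405 (.a 112 (.z 382 
(.lf (.two (.lf 0 129 10 119) (.lm 10 0 10 0 17 17 23))) (.y 382 
(.lf (.dir (.lf 0 129 10 119))) (.z 393 (.lf (.two (.lf 0 131 10 121) (.lm 10 0 9 0 17 17 12))) 
(.y 393 (.lf (.dir (.pot 0))) (.a 101 (.t 16 (.lf (.tipb 10 10 6)) (.lf (.low 0))) 
(.lf (.dir (.pot 0)))))))) (.lf (.dir (.lf 0 117 10 108)))) (.a 112 (.z 382 (.y 427 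
(.lf (.two (.lf 0 129 10 119) (.lm 10 10 9 13 17 16 22))) (.y 438 
(.lf (.two (.lf 0 129 10 119) (.lm 10 21 8 24 17 15 17))) 
(.lf (.two (.lf 0 129 10 119) (.lm 10 27 8 29 17 14 17))))) (.y 427 (.z 393 
(.lf (.two (.lf 0 131 10 121) (.lm 10 4 9 8 17 16 17))) (.a 101 (.y 416 (.t 16 
(.lf (.tipb 10 9 12)) (.lf (.low 0))) (.t 16 (.lf (.tipb 10 9 17)) (.lf (.low 0)))) 
(.lf (.two (.lf 0 131 9 121) (.lm 9 0 9 0 17 16 17))))) (.z 393 (.y 438 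
(.lf (.two (.lf 0 131 10 121) (.lm 10 16 8 18 17 15 11))) (.a 101 (.t 16 (.lf (.tipb 10 8 34)) 
(.lf (.low 0))) (.lf (.two (.lf 0 131 10 121) (.lm 10 21 8 24 17 14 12))))) (.y 438 (.a 101 
(.t 16 (.lf (.tipb 10 9 23)) (.lf (.low 0))) 
(.lf (.two (.lf 0 131 9 121) (.lm 9 9 8 13 17 15 12)))) (.a 101 (.t 16 (.lf (.tipb 10 8 29)) 
(.lf (.low 0))) (.t 16 (.lf (.tipb 10 8 29)) 
(.lf (.two (.lf 0 131 12 118) (.lm 12 14 10 19 17 14 12))))))))) (.z 382 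
(.lf (.two (.lf 0 117 10 108) (.lm 10 10 9 13 17 16 34))) (.y 427 
(.lf (.two (.lf 0 128 9 119) (.lm 9 0 9 0 17 16 23))) 
(.lf (.two (.lf 0 128 9 119) (.lm 9 9 8 13 17 15 23))))))) (.y 405 
(.lf (.two (.pot 1) (.lf 9 0 10 0))) (.a 112 (.z 427 (.y 427 (.a 101 (.z 416 (.y 416 (.t 16 
(.lf (.tipb 9 9 6)) (.lf (.low 0))) (.t 16 (.lf (.tipb 9 9 11)) (.lf (.low 0)))) (.y 416 
(.lf (.two (.pot 1) (.lf 9 0 9 0))) (.t 16 (.lf (.tipb 9 9 6)) (.lf (.low 0))))) (.z 416 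
(.y 416 (.t 16 (.lf (.tipb 9 9 6)) (.a 106 (.z 410 (.y 410 (.lf (.dir (.lf 0 131 12 119))) 
(.t 24 (.lf (.tipb 12 12 6)) (.lf (.low 0)))) (.y 410 (.lf (.dir (.lf 0 131 12 119))) (.t 24 
(.lf (.tipb 12 12 3)) (.lf (.low 0))))) (.z 410 
(.lf (.two (.lf 0 131 12 119) (.lm 12 0 12 0 16 16 6))) (.y 410 (.lf (.dir (.pot 0))) (.t 24 
(.lf (.tipb 12 12 3)) (.lf (.low 0))))))) (.t 16 (.lf (.tipb 9 9 11)) (.a 106 (.z 410 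
(.lf (.two (.lf 0 131 12 119) (.lm 12 0 11 6 16 15 8))) (.y 421 (.t 24 (.lf (.tipb 12 12 6)) 
(.lf (.low 0))) (.t 24 (.lf (.tipb 12 11 9)) (.lf (.low 0))))) (.z 410 
(.lf (.two (.lf 0 131 12 119) (.lm 12 0 11 6 16 15 8))) (.y 421 (.t 24 (.lf (.tipb 12 12 6)) 
(.lf (.low 0))) (.t 24 (.lf (.tipb 12 11 9)) (.lf (.low 0)))))))) (.y 416 
(.lf (.two (.pot 1) (.lf 9 0 9 0))) (.t 16 (.lf (.tipb 9 9 6)) (.a 106 (.z 421 (.y 421 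
(.lf (.tipb 14 14 3)) (.lf (.tipb 14 14 6))) (.lf (.tipb 14 14 3))) (.z 421 (.y 421 
(.lf (.tipb 14 14 3)) (.lf (.tipb 14 14 6))) (.lf (.tipb 14 14 3)))))))) (.y 438 (.a 101 
(.z 416 (.t 16 (.lf (.tipb 9 9 17)) (.lf (.low 0))) (.t 16 (.lf (.tipb 9 9 11)) (.lf (.low 0)))) 
(.z 416 (.t 16 (.lf (.tipb 9 9 17)) (.a 106 (.z 410 
(.lf (.two (.lf 0 131 12 119) (.lm 12 6 11 11 16 15 8))) (.y 432 (.t 24 (.lf (.tipb 12 11 11)) 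
(.lf (.low 0))) (.t 24 (.lf (.tipb 12 11 14)) (.lf (.low 0))))) (.z 410 
(.lf (.two (.lf 0 131 12 119) (.lm 12 6 11 11 16 15 8))) (.y 432 (.t 24 (.lf (.tipb 12 11 11)) 
(.lf (.low 0))) (.t 24 (.lf (.tipb 12 11 14)) (.lf (.low 0))))))) (.t 16 (.lf (.tipb 9 9 11)) 
(.a 106 (.z 421 (.y 432 (.lf (.tipb 14 14 8)) (.lf (.tipb 14 13 11))) (.lf (.tipb 14 14 9))) 
(.z 421 (.y 432 (.lf (.tipb 14 14 8)) (.lf (.tipb 14 13 11))) (.lf (.tipb 14 14 9))))))) 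
(.a 101 (.z 416 (.t 16 (.lf (.tipb 9 8 23)) (.lf (.low 0))) (.t 16 (.lf (.tipb 9 8 17)) 
(.lf (.low 0)))) (.z 416 (.t 16 (.lf (.tipb 9 8 23)) (.y 444 (.a 106 (.z 410 
(.lf (.two (.lf 0 131 12 119) (.lm 12 12 10 16 16 14 6))) (.t 24 (.lf (.tipb 12 11 17)) 
(.lf (.low 0)))) (.z 410 (.lf (.two (.lf 0 131 12 119) (.lm 12 12 10 16 16 14 6))) (.t 24 
(.lf (.tipb 12 11 17)) (.lf (.low 0))))) (.a 106 (.z 410 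
(.lf (.two (.lf 0 131 12 119) (.lm 12 15 10 19 16 14 6))) (.t 24 (.lf (.tipb 12 10 20)) 
(.lf (.low 0)))) (.z 410 (.lf (.two (.lf 0 131 12 119) (.lm 12 15 10 19 16 14 6))) (.t 24 
(.lf (.tipb 12 10 20)) (.lf (.low 0))))))) (.t 16 (.lf (.tipb 9 8 17)) (.y 444 
(.lf (.tipb 14 13 14)) (.a 106 (.z 421 (.t 24 (.lf (.tipb 12 10 17)) (.lf (.low 0))) 
(.lf (.tipb 14 13 15))) (.z 421 (.t 24 (.lf (.tipb 12 10 17)) (.lf (.low 0))) 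
(.lf (.tipb 14 13 15)))))))))) (.y 427 (.lf (.two (.pot 1) (.lf 8 0 9 0))) (.z 438 (.y 438 
(.lf (.tipb 14 14 6)) (.lf (.tipb 14 13 12))) (.lf (.tipb 13 14 6))))) (.z 427 (.y 427 (.a 123 
(.z 416 (.lf (.two (.lf 0 130 9 121) (.lm 9 0 9 0 16 16 11))) (.y 416 (.lf (.dir (.pot 0))) 
(.t 16 (.lf (.tipb 9 9 6)) (.a 117 (.z 421 (.y 421 (.lf (.tipb 14 14 3)) (.lf (.tipb 14 14 6))) 
(.lf (.tipb 14 14 3))) (.z 421 (.lf (.two (.lf 0 131 12 119) (.lm 12 0 11 0 15 15 6))) 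
(.lf (.tipb 14 14 3))))))) (.lf (.dir (.pot 0)))) (.a 123 (.y 438 (.z 416 
(.lf (.two (.lf 0 130 9 121) (.lm 9 3 8 8 16 15 11))) (.t 16 (.lf (.tipb 9 9 11)) (.a 117 
(.z 421 (.y 432 (.lf (.tipb 14 14 8)) (.lf (.tipb 14 13 11))) (.lf (.tipb 14 14 9))) (.z 421 
(.lf (.two (.lf 0 131 12 119) (.lm 12 0 11 6 15 15 8))) (.lf (.tipb 14 14 9)))))) (.z 416 
(.lf (.two (.lf 0 130 9 121) (.lm 9 9 8 13 16 14 12))) (.t 16 (.lf (.tipb 9 8 17)) (.y 444 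
(.lf (.tipb 14 13 14)) (.a 117 (.z 421 (.lf (.two (.lf 0 131 12 119) (.lm 12 9 10 14 15 14 6))) 
(.lf (.tipb 14 13 15))) (.z 421 (.lf (.two (.pot 0) (.lm 12 9 10 14 15 14 6))) 
(.lf (.tipb 14 13 15)))))))) (.y 438 (.z 416 
(.lf (.two (.lf 1 130 9 121) (.lm 9 3 8 8 16 15 11))) 
(.lf (.two (.lf 1 130 9 122) (.lm 9 0 8 0 16 15 11)))) (.z 416 
(.lf (.two (.lf 1 130 9 121) (.lm 9 9 8 13 16 14 12))) 
(.lf (.two (.lf 1 130 9 122) (.lm 9 3 8 8 16 14 12))))))) (.y 427 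
(.lf (.two (.pot 1) (.lf 8 0 9 0))) (.a 123 (.z 438 (.y 438 (.lf (.tipb 14 14 6)) 
(.lf (.tipb 14 13 12))) (.lf (.tipb 13 14 6))) (.z 438 (.y 438 (.lf (.tipb 14 14 6)) 
(.lf (.tipb 14 13 12))) (.lf (.tipb 13 14 6))))))))) (.z 405 (.y 405 
(.lf (.dir (.lf 2 93 10 87))) (.lf (.two (.lf 2 93 10 87) (.lm 10 0 9 0 17 16 45)))) (.y 405 
(.lf (.dir (.lf 2 93 10 87))) (.a 157 (.z 427 
(.lf (.two (.lf 2 128 9 120) (.lm 9 0 9 0 16 16 23))) (.y 427 (.lf (.dir (.lf 2 128 9 120))) 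
(.z 438 (.y 438 (.lf (.tipb 14 14 6)) (.lf (.tipb 14 13 12))) (.lf (.tipb 13 14 6))))) 
(.lf (.dir (.lf 3 115 9 110)))))))

theorem h9 : chk (leafR PP TD0 0 1) c9 0 32 90 180 360 450 360 450 = true := by
  decide +kernel

def c10 : Tree :=
  (.a 135 (.z 405 (.y 495 (.a 112 (.z 382 (.y 472 (.a 101 (.z 371 (.y 461 
(.lf (.two (.lf 0 131 10 121) (.lm 10 38 8 41 17 13 11))) 
(.lf (.two (.lf 0 131 10 121) (.lm 10 44 7 46 17 12 11)))) (.y 461 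
(.lf (.two (.lf 0 131 10 121) (.lm 10 33 8 35 17 13 11))) (.t 16 
(.lf (.two (.lf 1 129 7 124) (.lm 7 39 5 40 11 8 11))) (.lf (.low 0))))) 
(.lf (.two (.lf 0 129 10 119) (.lm 10 33 7 35 17 13 22)))) (.y 483 (.a 101 (.lf .inf) 
(.lf (.two (.lf 0 129 10 119) (.lm 10 43 7 47 17 11 17)))) (.lf .inf))) (.y 472 (.z 393 
(.a 101 (.y 461 (.t 16 (.lf (.tipb 10 8 40)) (.lf (.low 0))) (.t 16 
(.lf (.two (.lf 1 129 7 124) (.lm 7 33 5 35 11 8 11))) (.lf (.low 0)))) (.y 461 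
(.lf (.two (.lf 0 131 10 121) (.lm 10 27 8 30 17 13 11))) 
(.lf (.two (.lf 0 131 10 121) (.lm 10 33 7 35 17 12 11))))) (.a 101 (.y 461 (.t 16 
(.lf (.tipb 10 8 34)) (.lf (.low 0))) (.t 16 (.lf (.tipb 10 7 40)) (.lf (.low 0)))) (.y 461 
(.t 16 (.lf (.tipb 10 8 34)) (.lf (.two (.lf 0 131 12 118) (.lm 12 20 10 25 17 13 12)))) 
(.t 16 (.lf (.tipb 10 7 40)) (.z 399 (.lf (.two (.lf 0 131 12 118) (.lm 12 29 9 33 16 12 9))) 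
(.a 106 (.y 466 (.lf (.two (.lf 0 131 12 118) (.lm 12 26 9 30 16 12 6))) 
(.lf (.two (.lf 0 131 12 118) (.lm 12 28 9 33 16 12 6)))) 
(.lf (.two (.lf 0 131 12 118) (.lm 12 25 9 31 16 12 9))))))))) (.z 393 (.y 483 (.a 101 
(.lf .inf) (.t 16 (.lf (.two (.lf 2 129 7 124) (.lm 7 39 5 40 11 8 11))) 
(.lf (.two (.lf 0 131 13 118) (.lm 13 37 8 42 17 11 11))))) (.lf .inf)) (.y 483 (.a 101 
(.lf .inf) (.t 16 (.lf (.two (.lf 2 129 6 124) (.lm 6 33 5 34 11 8 12))) (.z 399 (.a 106 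
(.lf .inf) (.lf (.two (.lf 0 131 12 118) (.lm 12 34 8 39 16 11 9)))) (.a 106 (.lf .inf) 
(.lf (.two (.lf 0 131 12 118) (.lm 12 31 8 36 16 11 9))))))) (.lf .inf))))) (.z 382 (.y 472 
(.lf (.two (.lf 0 117 10 108) (.lm 10 33 7 35 17 13 22))) 
(.lf (.two (.lf 0 117 10 108) (.lm 10 43 6 47 17 11 23)))) (.y 472 (.a 123 (.z 393 
(.lf (.two (.lf 0 130 10 121) (.lm 10 27 7 30 17 13 17))) 
(.lf (.two (.lf 0 130 9 121) (.lm 9 21 7 24 17 13 17)))) 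
(.lf (.two (.lf 1 128 9 119) (.lm 9 21 7 24 17 13 23)))) (.a 123 (.z 393 (.y 483 
(.lf (.two (.lf 0 130 10 121) (.lm 10 38 7 41 17 11 11))) 
(.lf (.two (.lf 0 130 10 121) (.lm 10 43 6 47 17 10 12)))) (.y 483 
(.lf (.two (.lf 0 130 9 121) (.lm 9 32 7 35 17 11 12))) (.t 16 
(.lf (.two (.lf 2 129 6 124) (.lm 6 38 5 40 11 7 12))) 
(.lf (.two (.lf 0 131 12 118) (.lm 12 36 7 42 17 10 12)))))) 
(.lf (.two (.lf 1 128 9 119) (.lm 9 32 6 35 17 11 23))))))) (.a 112 (.lf .inf) (.z 382 (.y 517 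
(.a 123 (.lf .inf) (.z 371 (.lf (.two (.lf 1 117 10 108) (.lm 10 60 5 64 17 9 17))) 
(.lf (.two (.lf 1 122 10 114) (.lm 10 54 5 59 17 9 17))))) (.lf .inf)) (.y 517 (.a 123 
(.lf .inf) (.z 393 (.y 506 (.lf (.two (.lf 1 128 10 119) (.lm 10 49 5 53 17 9 11))) (.lf .inf)) 
(.y 506 (.lf (.two (.lf 1 130 9 121) (.lm 9 43 5 47 17 9 12))) (.lf .inf)))) (.lf .inf))))) 
(.y 495 (.a 112 (.z 427 (.y 472 (.a 101 (.z 416 (.y 461 (.t 16 (.lf (.tipb 9 8 28)) 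
(.lf (.low 0))) (.t 16 (.lf (.tipb 9 7 34)) (.lf (.low 0)))) (.y 461 (.t 16 
(.lf (.tipb 9 8 23)) (.lf (.low 0))) (.t 16 (.lf (.tipb 9 7 28)) (.lf (.low 0))))) (.z 416 
(.y 461 (.t 16 (.lf (.tipb 9 8 28)) (.a 106 (.z 410 (.y 455 (.t 24 (.lf (.tipb 12 10 25)) 
(.lf (.low 0))) (.t 24 (.lf (.tipb 12 10 28)) (.lf (.low 0)))) (.y 455 (.t 24 
(.lf (.tipb 12 10 23)) (.lf (.low 0))) (.t 24 (.lf (.tipb 12 10 26)) (.lf (.low 0))))) (.z 410 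
(.lf (.two (.lf 0 131 12 119) (.lm 12 18 10 22 16 13 8))) (.y 455 (.t 24 (.lf (.tipb 12 10 23)) 
(.lf (.low 0))) (.t 24 (.lf (.tipb 12 10 26)) (.lf (.low 0))))))) (.t 16 (.lf (.tipb 9 7 34)) 
(.a 106 (.z 410 (.y 466 (.t 24 (.lf (.tipb 12 9 31)) (.lf (.low 0))) (.t 24 
(.lf (.two (.lf 0 131 11 120) (.lm 11 26 8 30 13 10 6))) (.lf (.low 0)))) (.y 466 (.t 24 
(.lf (.tipb 12 9 28)) (.lf (.low 0))) (.t 24 (.lf (.tipb 12 9 31)) (.lf (.low 0))))) (.z 410 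
(.lf (.two (.lf 0 131 12 119) (.lm 12 23 9 28 16 12 8))) (.y 466 (.t 24 (.lf (.tipb 12 9 28)) 
(.lf (.low 0))) (.t 24 (.lf (.tipb 12 9 31)) (.lf (.low 0)))))))) (.y 461 (.t 16 
(.lf (.tipb 9 8 23)) (.a 106 (.z 421 (.y 455 (.t 24 (.lf (.tipb 12 10 20)) (.lf (.low 0))) 
(.t 24 (.lf (.tipb 12 10 23)) (.lf (.low 0)))) (.y 455 (.lf (.tipb 14 12 17)) 
(.lf (.tipb 14 12 20)))) (.z 421 (.y 455 (.t 24 (.lf (.tipb 12 10 20)) (.lf (.low 0))) (.t 24 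
(.lf (.tipb 12 10 23)) (.lf (.low 0)))) (.y 455 (.lf (.tipb 14 12 17)) (.lf (.tipb 14 12 20)))))) 
(.t 16 (.lf (.tipb 9 7 28)) (.a 106 (.z 421 (.y 466 (.t 24 (.lf (.tipb 12 9 25)) (.lf (.low 0))) 
(.t 24 (.lf (.tipb 12 9 28)) (.lf (.low 0)))) (.y 466 (.t 24 (.lf (.tipb 11 9 23)) 
(.lf (.low 0))) (.t 24 (.lf (.tipb 11 9 26)) (.lf (.low 0))))) (.z 421 (.y 466 (.t 24 
(.lf (.tipb 12 9 25)) (.lf (.low 0))) (.t 24 (.lf (.tipb 12 9 28)) (.lf (.low 0)))) (.y 466 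
(.t 24 (.lf (.tipb 11 9 23)) (.lf (.low 0))) (.t 24 (.lf (.tipb 11 9 26)) (.lf (.low 0)))))))))) 
(.y 483 (.a 101 (.lf .inf) (.z 416 (.t 16 (.lf (.tipb 9 7 39)) (.a 106 (.lf .inf) (.z 410 
(.y 477 (.lf (.two (.lf 0 131 12 119) (.lm 12 28 8 34 16 11 5))) (.lf .inf)) (.y 477 (.t 24 
(.lf (.tipb 12 8 34)) (.lf (.low 0))) (.lf .inf))))) (.t 16 (.lf (.tipb 9 7 34)) (.a 106 
(.lf .inf) (.z 421 (.y 477 (.t 24 (.lf (.tipb 12 8 31)) (.lf (.low 0))) (.lf .inf)) (.y 477 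
(.t 24 (.lf (.tipb 11 8 28)) (.lf (.low 0))) (.lf .inf))))))) (.lf .inf))) (.y 472 (.z 438 
(.a 101 (.y 461 (.lf (.tipb 14 12 17)) (.t 16 (.lf (.tipb 9 7 23)) (.lf (.low 0)))) (.y 461 
(.lf (.tipb 14 12 17)) (.t 16 (.lf (.tipb 9 7 23)) (.lf (.tipb 14 11 23))))) 
(.lf (.tipb 13 12 17))) (.z 438 (.y 483 (.a 101 (.lf .inf) (.t 16 (.lf (.tipb 9 7 28)) (.a 106 
(.lf .inf) (.z 432 (.y 477 (.lf (.tipb 14 10 25)) (.lf .inf)) (.lf (.tipb 13 10 26)))))) 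
(.lf .inf)) (.y 483 (.lf (.tipb 13 10 23)) (.lf .inf))))) (.z 427 (.y 472 (.a 123 (.z 416 
(.y 461 (.t 16 (.lf (.tipb 9 8 28)) (.lf (.two (.lf 0 131 12 119) (.lm 12 14 10 20 16 13 11)))) 
(.t 16 (.lf (.tipb 9 7 34)) (.lf (.two (.lf 0 131 12 119) (.lm 12 20 9 25 16 12 11))))) 
(.y 461 (.t 16 (.lf (.tipb 9 8 23)) (.a 117 (.z 421 (.y 455 
(.lf (.two (.lf 0 131 12 119) (.lm 12 12 10 17 15 13 5))) 
(.lf (.two (.lf 0 131 12 119) (.lm 12 14 9 20 15 13 6)))) (.y 455 (.lf (.tipb 14 12 17)) 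
(.lf (.tipb 14 12 20)))) (.z 421 (.lf (.two (.lf 0 131 12 119) (.lm 12 12 10 17 15 13 8))) 
(.y 455 (.lf (.tipb 14 12 17)) (.lf (.tipb 14 12 20)))))) (.t 16 (.lf (.tipb 9 7 28)) (.a 117 
(.z 421 (.y 466 (.lf (.two (.lf 0 131 12 119) (.lm 12 17 9 23 15 12 5))) (.t 24 
(.lf (.tipb 12 9 28)) (.lf (.low 0)))) (.y 466 (.t 24 (.lf (.tipb 11 9 23)) (.lf (.low 0))) 
(.t 24 (.lf (.tipb 11 9 26)) (.lf (.low 0))))) (.z 421 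
(.lf (.two (.lf 0 131 12 119) (.lm 12 17 9 23 15 12 8))) (.y 466 (.t 24 (.lf (.tipb 11 9 23)) 
(.lf (.low 0))) (.t 24 (.lf (.tipb 11 9 26)) (.lf (.low 0))))))))) (.z 416 
(.lf (.two (.lf 1 130 9 121) (.lm 9 15 7 19 16 13 17))) (.y 461 
(.lf (.two (.lf 1 130 9 122) (.lm 9 10 8 13 16 13 11))) (.t 16 (.lf (.tipb 9 7 28)) 
(.lf (.two (.lf 0 131 11 119) (.lm 11 14 9 20 15 12 11))))))) (.a 123 (.y 483 (.z 416 (.t 16 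
(.lf (.tipb 9 7 39)) (.a 117 (.z 410 (.lf (.two (.lf 0 131 12 119) (.lm 12 28 8 34 16 11 8))) 
(.lf (.two (.lf 0 131 12 119) (.lm 12 25 8 31 16 11 9)))) 
(.lf (.two (.lf 0 131 12 119) (.lm 12 25 8 31 16 11 11))))) (.t 16 (.lf (.tipb 9 7 34)) 
(.a 117 (.z 421 (.y 477 (.t 24 (.lf (.tipb 12 8 31)) (.lf (.low 0))) (.t 24 
(.lf (.tipb 12 8 34)) (.lf (.low 0)))) (.y 477 (.t 24 (.lf (.tipb 11 8 28)) (.lf (.low 0))) 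
(.t 24 (.lf (.tipb 11 8 31)) (.lf (.low 0))))) (.z 421 
(.lf (.two (.lf 0 131 12 119) (.lm 12 23 8 28 15 11 8))) (.y 477 (.t 24 (.lf (.tipb 11 8 28)) 
(.lf (.low 0))) (.t 24 (.lf (.tipb 11 8 31)) (.lf (.low 0)))))))) (.z 416 (.t 16 
(.lf (.two (.lf 2 129 6 124) (.lm 6 33 5 34 10 7 12))) (.y 489 (.a 117 (.lf .inf) 
(.lf (.two (.lf 0 131 12 119) (.lm 12 31 7 36 16 10 9)))) (.lf .inf))) (.t 16 
(.lf (.tipb 9 6 40)) (.y 489 (.a 117 (.lf .inf) (.z 421 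
(.lf (.two (.lf 0 131 12 119) (.lm 12 28 7 34 15 10 6))) (.t 24 (.lf (.tipb 11 8 34)) 
(.lf (.low 0))))) (.lf .inf))))) (.y 483 (.z 416 
(.lf (.two (.lf 1 130 9 121) (.lm 9 26 7 30 16 11 11))) (.t 16 (.lf (.tipb 9 7 34)) 
(.lf (.two (.lf 0 131 11 119) (.lm 11 19 8 26 15 11 11))))) (.z 416 
(.lf (.two (.lf 1 130 9 121) (.lm 9 32 6 35 16 10 12))) (.t 16 (.lf (.tipb 9 6 40)) 
(.lf (.two (.lf 0 131 11 119) (.lm 11 25 7 31 15 10 12)))))))) (.y 472 (.a 123 (.z 438 (.y 461 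
(.lf (.tipb 14 12 17)) (.t 16 (.lf (.tipb 9 7 23)) (.lf (.tipb 14 11 23)))) 
(.lf (.tipb 13 12 17))) (.z 438 (.y 461 (.lf (.tipb 14 12 17)) (.t 16 (.lf (.tipb 9 7 23)) 
(.lf (.tipb 14 11 23)))) (.lf (.tipb 13 12 17)))) (.a 123 (.z 438 (.y 483 (.t 16 
(.lf (.tipb 9 7 28)) (.a 117 (.z 432 (.y 477 (.lf (.tipb 14 10 25)) (.lf (.tipb 14 10 28))) 
(.lf (.tipb 13 10 26))) (.z 432 (.y 477 (.lf (.tipb 14 10 25)) (.lf (.tipb 14 10 28))) 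
(.lf (.tipb 13 10 26))))) (.t 16 (.lf (.tipb 9 6 34)) (.y 489 (.a 117 (.lf .inf) (.z 432 
(.t 24 (.lf (.tipb 11 8 31)) (.lf (.low 0))) (.lf (.tipb 13 9 29)))) (.lf .inf)))) (.y 483 
(.lf (.tipb 13 10 23)) (.lf (.tipb 13 9 29)))) (.z 438 (.y 483 (.t 16 (.lf (.tipb 9 7 28)) 
(.a 129 (.z 432 (.y 477 (.lf (.tipb 14 10 25)) (.lf (.tipb 14 10 28))) (.lf (.tipb 13 10 26))) 
(.z 432 (.lf (.two (.lf 0 131 11 120) (.lm 11 17 8 23 15 11 8))) (.lf (.tipb 13 10 26))))) 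
(.t 16 (.lf (.tipb 9 6 34)) (.a 129 (.y 489 (.z 432 (.t 24 (.lf (.tipb 11 8 31)) (.lf (.low 0))) 
(.lf (.tipb 13 9 29))) (.z 432 (.t 24 (.lf (.tipb 11 7 34)) (.lf (.low 0))) 
(.lf (.tipb 13 8 32)))) (.y 489 (.lf (.two (.lf 0 131 11 120) (.lm 11 19 7 26 15 10 9))) 
(.lf (.two (.lf 0 131 11 120) (.lm 11 22 7 29 15 9 9))))))) (.y 483 (.lf (.tipb 13 10 23)) 
(.lf (.tipb 13 9 29)))))))) (.a 112 (.lf .inf) (.z 427 (.y 517 (.a 123 (.lf .inf) (.z 416 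
(.y 506 (.t 16 (.lf (.two (.lf 2 128 6 124) (.lm 6 39 5 40 10 7 11))) 
(.lf (.two (.lf 0 131 12 119) (.lm 12 36 6 43 16 9 11)))) (.lf .inf)) (.y 506 (.t 16 
(.lf (.tipb 9 6 45)) (.a 129 (.lf .inf) 
(.lf (.two (.lf 0 131 11 119) (.lm 11 31 6 37 15 9 11))))) (.lf .inf)))) (.lf .inf)) (.y 517 
(.a 123 (.lf .inf) (.z 438 (.y 506 (.t 16 (.lf (.tipb 9 6 40)) (.a 129 (.lf .inf) (.z 432 
(.lf (.two (.lf 0 131 11 120) (.lm 11 28 6 35 15 9 8))) (.y 500 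
(.lf (.two (.pot 0) (.lm 11 26 7 31 14 9 6))) (.lf .inf))))) (.lf .inf)) (.y 506 (.t 16 
(.lf (.tipb 8 6 34)) (.lf (.tipb 13 8 34))) (.lf .inf)))) (.lf .inf)))))) (.z 405 (.y 495 
(.a 157 (.z 382 (.lf (.two (.lf 2 105 10 98) (.lm 10 32 7 36 17 13 34))) (.y 472 
(.lf (.two (.lf 2 116 9 109) (.lm 9 21 7 24 17 13 23))) 
(.lf (.two (.lf 2 116 9 109) (.lm 9 32 6 35 17 11 23))))) 
(.lf (.two (.lf 3 93 10 87) (.lm 10 20 7 25 17 13 45)))) (.a 157 (.z 382 (.y 517 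
(.lf (.two (.lf 2 105 10 98) (.lm 10 54 5 59 17 9 22))) (.y 528 
(.lf (.two (.lf 2 105 10 98) (.lm 10 65 4 70 17 6 17))) (.lf .inf))) (.y 517 
(.lf (.two (.lf 2 116 9 109) (.lm 9 43 5 47 17 9 23))) (.z 393 (.y 528 
(.lf (.two (.lf 2 116 10 109) (.lm 10 60 4 64 17 6 11))) (.lf .inf)) (.y 528 
(.lf (.two (.lf 2 122 9 114) (.lm 9 54 4 58 17 6 12))) (.lf .inf))))) (.z 382 
(.lf (.two (.lm 3 93 10 87 5 17 23) (.lm 10 54 5 59 17 9 34))) 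
(.lf (.two (.lf 3 104 9 98) (.lm 9 43 5 47 17 9 34)))))) (.y 495 (.a 157 (.z 427 (.y 472 
(.lf (.two (.lf 2 128 9 120) (.lm 9 9 7 14 16 13 22))) 
(.lf (.two (.lf 2 128 9 120) (.lm 9 20 6 25 16 11 23)))) (.y 472 (.z 438 (.a 146 (.y 461 
(.lf (.tipb 14 12 17)) (.lf (.two (.lf 1 129 8 122) (.lm 8 9 7 14 15 12 11)))) 
(.lf (.two (.lf 2 129 8 122) (.lm 8 3 7 9 15 13 17)))) (.lf (.tipb 13 12 17))) (.z 438 (.y 483 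
(.lf (.two (.lf 2 129 8 122) (.lm 8 15 7 19 15 11 11))) 
(.lf (.two (.lf 2 129 8 122) (.lm 8 20 6 25 15 10 12)))) (.y 483 (.lf (.tipb 13 10 23)) 
(.lf (.tipb 13 9 29)))))) (.z 427 (.lf (.two (.lf 3 115 9 110) (.lm 9 8 7 15 16 13 34))) 
(.y 472 (.lf (.two (.lf 3 126 8 121) (.lm 8 0 7 0 15 13 23))) 
(.lf (.two (.lf 3 126 8 121) (.lm 8 8 6 14 15 11 23)))))) (.a 157 (.z 427 (.y 517 (.a 146 
(.z 416 (.lf (.two (.lf 1 129 9 121) (.lm 9 37 5 42 16 9 17))) (.y 506 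
(.lf (.two (.lf 1 129 9 122) (.lm 9 32 5 36 16 9 11))) 
(.lf (.two (.lf 1 129 9 122) (.lm 9 37 5 42 16 8 11))))) 
(.lf (.two (.lf 2 127 9 121) (.lm 9 32 5 36 16 9 22)))) (.y 528 (.a 146 (.lf .inf) 
(.lf (.two (.lf 2 127 9 121) (.lm 9 43 4 47 16 6 17)))) (.lf .inf))) (.y 517 (.z 438 (.a 146 
(.y 506 (.t 16 (.lf (.tipb 9 6 40)) (.lf (.two (.lf 0 130 11 120) (.lm 11 25 6 32 15 9 11)))) 
(.t 16 (.lf (.tipb 9 5 45)) (.lf (.two (.lf 0 130 11 120) (.lm 11 31 5 37 15 8 11))))) 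
(.lf (.two (.lf 2 129 8 122) (.lm 8 26 5 31 15 9 17)))) (.a 146 (.y 506 (.t 16 
(.lf (.tipb 8 6 34)) (.lf (.tipb 13 8 34))) (.t 16 (.lf (.tipb 8 5 40)) (.z 444 (.a 140 
(.lf .inf) (.lf (.two (.lf 0 130 10 120) (.lm 10 28 5 34 14 8 9)))) (.lf (.tipb 13 7 37))))) 
(.y 506 (.lf (.two (.lf 2 129 8 122) (.lm 8 20 5 25 14 9 12))) 
(.lf (.two (.lf 2 129 8 122) (.lm 8 26 5 30 14 8 12)))))) (.z 438 (.y 528 (.a 146 (.lf .inf) 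
(.lf (.two (.lf 2 129 8 122) (.lm 8 37 4 42 15 6 11)))) (.lf .inf)) (.y 528 (.a 146 (.lf .inf) 
(.lf (.two (.lf 2 129 8 122) (.lm 8 31 4 36 14 6 12)))) (.lf .inf))))) (.z 427 (.y 517 
(.lf (.two (.lf 3 115 9 110) (.lm 9 32 5 36 16 9 22))) 
(.lf (.two (.lf 3 115 9 110) (.lm 9 43 4 47 16 7 23)))) (.y 517 
(.lf (.two (.lf 3 126 8 121) (.lm 8 20 5 25 15 9 23))) 
(.lf (.two (.lf 3 126 8 121) (.lm 8 31 4 36 15 7 23)))))))))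

theorem h10 : chk (leafR PP TD0 0 1) c10 0 32 90 180 360 450 450 540 = true := by
  decide +kernel

def c11 : Tree :=
  (.y 450 (.lf (.two (.pot 1) (.lf 6 0 9 0))) (.a 135 (.z 495 (.y 495 (.lf (.tipb 12 12 23)) 
(.a 112 (.lf .inf) (.z 472 (.y 517 (.lf (.tipb 12 8 34)) (.lf .inf)) (.lf (.tipb 10 8 34))))) 
(.lf (.tipb 8 13 23))) (.z 495 (.y 495 (.lf (.tipb 12 12 23)) (.a 157 (.z 472 (.y 517 
(.lf (.tipb 12 8 34)) (.y 528 (.lf (.tipb 12 5 39)) (.lf .inf))) (.lf (.tipb 10 8 34))) 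
(.z 472 (.y 517 (.lf (.tipb 12 8 34)) (.a 168 (.y 528 (.lf (.tipb 12 5 39)) (.z 461 
(.lf (.two (.lf 2 128 8 123) (.lm 8 31 4 36 13 5 12))) (.lf (.tipb 11 4 40)))) (.y 528 
(.lf (.tipb 12 5 39)) (.lf (.two (.lf 3 127 7 123) (.lm 7 26 4 30 13 5 17)))))) 
(.lf (.tipb 10 8 34))))) (.lf (.tipb 8 13 23)))))

theorem h11 : chk (leafR PP TD0 0 1) c11 0 32 90 180 450 540 360 540 = true := by
  decide +kernel

def c12 : Tree :=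
  (.a 90 (.lf .inf) (.z 450 (.y 630 (.a 135 (.lf .inf) (.z 405 (.y 585 (.a 157 (.lf .inf) 
(.z 382 (.y 562 (.a 168 (.lf .inf) 
(.lf (.two (.lm 3 93 10 87 5 17 17) (.lm 10 76 3 82 17 5 22)))) (.lf .inf)) (.y 562 (.a 168 
(.lf .inf) (.lf (.two (.lm 3 104 9 98 5 17 18) (.lm 9 65 3 70 17 5 23)))) (.lf .inf)))) 
(.lf .inf)) (.y 585 (.a 157 (.lf .inf) (.z 427 (.y 562 (.a 168 (.lf .inf) 
(.lf (.two (.lf 3 115 9 110) (.lm 9 54 3 59 16 5 22)))) (.lf .inf)) (.y 562 (.a 168 (.lf .inf) 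
(.lf (.two (.lf 3 126 8 121) (.lm 8 42 3 48 15 5 23)))) (.lf .inf)))) (.lf .inf)))) (.lf .inf)) 
(.y 630 (.a 135 (.lf .inf) (.z 495 (.y 585 (.a 157 (.lf .inf) (.z 472 (.y 562 (.a 168 
(.lf .inf) (.z 461 (.lf (.two (.lf 3 127 8 123) (.lm 8 37 3 42 13 5 17))) 
(.lf (.two (.lf 3 127 7 123) (.lm 7 32 3 36 12 5 17))))) (.lf .inf)) (.y 562 
(.lf (.tipb 10 4 45)) (.lf .inf)))) (.lf .inf)) (.y 585 (.lf (.tipb 8 4 45)) (.lf .inf)))) 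
(.lf .inf))))

theorem h12 : chk (leafR PP TD0 0 1) c12 0 32 0 180 360 540 540 720 = true := by
  decide +kernel

def c13 : Tree :=
  (.y 540 (.lf (.two (.pot 1) (.lf 0 0 8 0))) (.a 90 (.lf .inf) (.z 630 (.y 630 
(.lf (.tipb 5 5 45)) (.lf .inf)) (.lf (.tipb 5 8 45)))))

theorem h13 : chk (leafR PP TD0 0 1) c13 0 32 0 180 540 720 360 720 = true := by
  decide +kernel

def c14 : Tree :=
  (.a 270 (.z 450 (.y 450 (.a 225 (.lf (.dir (.lf 5 70 9 65))) (.lf .inf)) (.a 225 (.z 405 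
(.y 495 (.lf (.two (.lm 5 70 10 65 9 17 45) (.lm 10 20 7 25 17 13 45))) 
(.lf (.two (.lm 5 70 10 65 9 17 45) (.lm 10 42 5 48 17 9 45)))) (.y 495 (.a 202 (.z 427 
(.lf (.two (.lf 4 104 9 99) (.lm 9 8 7 15 16 13 34))) 
(.lf (.two (.lf 4 115 8 110) (.lm 8 0 7 0 15 13 34)))) (.lf (.dir (.lf 5 113 7 112)))) (.a 202 
(.z 427 (.lf (.two (.lf 4 104 9 99) (.lm 9 31 5 37 16 9 34))) 
(.lf (.two (.lf 4 115 8 110) (.lm 8 20 5 25 15 9 34)))) 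
(.lf (.two (.lf 5 92 9 88) (.lm 9 19 5 26 16 9 45)))))) (.z 405 (.y 495 
(.lf (.dir (.lf 7 90 7 90))) (.lf (.two (.lm 7 46 10 44 13 17 45) (.lm 10 42 5 48 17 9 45)))) 
(.y 495 (.lf (.dir (.lf 7 90 7 90))) 
(.lf (.two (.lm 7 68 9 67 13 16 45) (.lm 9 19 5 26 16 9 45))))))) (.y 450 
(.lf (.two (.lf 6 90 6 90) (.lf 6 0 9 0))) (.a 225 (.z 495 (.y 495 (.a 202 (.z 472 
(.lf (.two (.lf 4 126 7 122) (.lm 7 0 7 0 13 13 23))) (.lf (.tipb 10 12 12))) 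
(.lf (.dir (.lf 5 113 7 112)))) (.a 202 (.z 472 (.y 517 
(.lf (.two (.lf 4 126 7 122) (.lm 7 8 5 15 13 9 22))) 
(.lf (.two (.lf 4 126 7 122) (.lm 7 20 4 25 13 7 23)))) (.lf (.tipb 10 8 34))) (.z 472 
(.lf (.two (.lf 5 114 7 111) (.lm 7 7 5 16 13 9 34))) (.y 517 
(.lf (.two (.lf 5 124 6 123) (.lm 6 0 5 0 11 9 23))) 
(.lf (.two (.lf 5 124 6 123) (.lm 6 7 4 15 11 7 23))))))) (.lf (.tipb 8 13 23))) (.z 495 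
(.y 495 (.lf (.dir (.lf 7 90 7 90))) (.a 247 (.z 472 
(.lf (.two (.lf 6 102 7 101) (.lm 7 7 5 16 13 9 34))) 
(.lf (.two (.lf 6 113 6 112) (.lm 6 0 5 0 11 9 34)))) (.lf (.dir (.lf 7 111 5 114))))) (.y 495 
(.lf (.dir (.lf 7 90 7 90))) (.a 247 (.z 517 
(.lf (.two (.lf 6 123 5 125) (.lm 5 0 5 0 9 9 23))) (.lf (.tipb 6 8 12))) 
(.lf (.dir (.lf 7 111 5 114))))))))) (.z 450 (.y 450 (.lf .inf) (.a 315 
(.lf (.dir (.lf 9 66 6 69))) (.lf .inf))) (.y 450 (.lf .inf) (.a 315 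
(.lf (.dir (.lf 9 66 6 69))) (.lf .inf)))))

theorem h14 : chk (leafR PP TD0 0 1) c14 0 32 180 360 360 540 360 540 = true := by
  decide +kernel

def c15 : Tree :=
  (.a 270 (.z 450 (.y 630 (.a 225 (.z 405 (.y 585 (.a 202 (.z 382 (.y 562 
(.lf (.two (.lm 4 81 10 77 6 17 22) (.lm 10 76 3 82 17 5 22))) (.y 573 
(.lf (.two (.lm 4 81 10 77 6 17 22) (.lm 10 87 2 93 17 5 17))) (.lf .inf))) (.y 562 
(.lf (.two (.lm 4 92 9 88 6 17 23) (.lm 9 65 3 70 17 5 23))) (.z 393 (.y 573 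
(.lf (.two (.lm 4 92 10 88 6 17 17) (.lm 10 81 2 88 17 5 11))) (.lf .inf)) (.y 573 
(.lf (.two (.lm 4 98 9 93 6 17 17) (.lm 9 75 2 82 17 5 12))) (.lf .inf))))) 
(.lf (.two (.lm 5 69 10 66 9 17 34) (.lm 10 64 2 71 17 5 45)))) (.a 202 (.lf .inf) (.z 382 
(.y 607 (.a 213 (.lf .inf) (.lf (.two (.lm 5 69 10 66 9 17 17) (.lf 10 97 0 106)))) (.lf .inf)) 
(.y 607 (.a 213 (.lf .inf) (.lf (.two (.lm 5 80 9 77 9 17 18) (.lm 9 86 0 94 17 5 23)))) 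
(.lf .inf))))) (.y 585 (.a 202 (.z 427 (.y 562 
(.lf (.two (.lf 4 104 9 99) (.lm 9 54 3 59 16 5 22))) (.y 573 
(.lf (.two (.lf 4 104 9 99) (.lm 9 65 2 70 16 5 17))) (.lf .inf))) (.y 562 
(.lf (.two (.lf 4 115 8 110) (.lm 8 42 3 48 15 5 23))) (.z 438 
(.lf (.two (.lf 4 115 8 110) (.lm 8 59 2 65 15 5 17))) 
(.lf (.two (.lf 4 120 8 116) (.lm 8 53 2 59 14 5 18)))))) (.z 427 
(.lf (.two (.lm 5 92 9 88 9 16 23) (.lm 9 54 2 59 16 5 34))) 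
(.lf (.two (.lf 5 102 8 100) (.lm 8 42 2 48 15 5 34))))) (.a 202 (.lf .inf) (.z 427 (.y 607 
(.lf (.two (.lm 5 92 9 88 9 16 23) (.lm 9 75 0 83 16 5 22))) (.lf .inf)) (.y 607 
(.lf (.two (.lf 5 102 8 100) (.lm 8 64 0 71 15 5 23))) (.lf .inf)))))) (.z 405 (.y 585 
(.lf (.two (.lm 7 46 10 44 13 17 45) (.lm 10 64 2 71 17 5 45))) (.a 247 (.z 382 (.y 607 
(.lf (.two (.lm 6 58 10 55 11 17 22) (.lf 10 97 0 106))) (.y 618 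
(.lf (.two (.lm 6 58 10 55 11 17 22) (.lf 10 108 0 117))) (.lf .inf))) (.y 607 
(.lf (.two (.lm 6 69 9 66 11 17 23) (.lm 9 86 0 94 17 5 23))) (.z 393 (.y 618 
(.lf (.two (.lm 6 69 10 66 11 17 17) (.lm 10 103 0 111 17 5 11))) (.lf .inf)) (.y 618 
(.lf (.two (.lm 6 74 9 72 11 17 17) (.lm 9 97 0 105 17 5 12))) (.lf .inf))))) (.z 382 
(.lf (.two (.lm 7 46 10 44 13 17 23) (.lf 10 97 0 106))) 
(.lf (.two (.lm 7 57 9 55 13 17 23) (.lf 9 86 0 94)))))) (.y 585 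
(.lf (.two (.lm 7 68 9 67 13 16 45) (.lm 9 42 2 48 16 5 45))) (.a 247 (.z 427 (.y 607 
(.lf (.two (.lm 6 80 9 78 11 16 22) (.lm 9 75 0 83 16 5 22))) (.y 618 
(.lf (.two (.lm 6 80 9 78 11 16 22) (.lm 9 86 0 94 16 5 17))) (.lf .inf))) (.y 607 
(.lf (.two (.lm 6 91 8 89 11 15 23) (.lm 8 64 0 71 15 5 23))) 
(.lf (.two (.lm 6 91 8 89 11 15 23) (.lm 8 75 0 82 15 5 23))))) 
(.lf (.two (.lm 7 68 9 67 13 16 34) (.lm 9 64 0 71 16 5 45))))))) (.a 225 (.lf .inf) (.z 405 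
(.y 675 (.a 247 (.lf .inf) (.z 382 (.y 652 (.a 258 (.lf .inf) (.z 371 (.y 641 
(.lf (.two (.lm 8 46 10 44 13 17 12) (.lf 10 121 0 131))) (.lf .inf)) (.y 641 
(.lf (.two (.lm 8 52 10 49 13 17 12) (.lf 10 119 0 129))) (.lf .inf)))) (.lf .inf)) (.y 652 
(.a 258 (.lf .inf) (.z 393 (.lf (.two (.lm 8 57 10 55 13 17 12) (.lf 10 114 0 123))) 
(.lf (.two (.lm 8 62 9 61 13 17 12) (.lf 9 108 0 117))))) (.lf .inf)))) (.lf .inf)) (.y 675 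
(.a 247 (.lf .inf) (.z 427 (.y 652 (.a 258 (.lf .inf) 
(.lf (.two (.lm 8 68 9 67 13 16 17) (.lf 9 97 0 106)))) (.lf .inf)) (.y 652 
(.lf (.two (.lm 7 79 8 78 13 15 23) (.lm 8 86 0 94 15 5 23))) (.lf .inf)))) (.lf .inf))))) 
(.y 630 (.a 225 (.z 495 (.y 585 (.a 202 (.z 472 (.y 562 
(.lf (.two (.lf 4 126 7 122) (.lm 7 31 3 37 13 5 22))) (.y 573 
(.lf (.two (.lf 4 126 7 122) (.lm 7 42 2 48 13 5 17))) (.lf .inf))) (.y 562 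
(.lf (.tipb 10 4 45)) (.z 483 (.lf (.two (.lf 4 127 7 124) (.lm 7 37 2 42 11 5 17))) 
(.lf (.tipb 9 4 51))))) (.z 472 (.lf (.two (.lf 5 114 7 111) (.lm 7 31 2 37 13 5 34))) (.y 562 
(.lf (.two (.lf 5 124 6 123) (.lm 6 20 3 25 11 5 23))) 
(.lf (.two (.lf 5 124 6 123) (.lm 6 31 2 36 11 5 23)))))) (.a 202 (.lf .inf) (.z 472 (.y 607 
(.lf (.two (.lf 5 114 7 111) (.lm 7 54 0 59 13 5 22))) (.lf .inf)) (.y 607 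
(.lf (.two (.lf 5 124 6 123) (.lm 6 42 0 48 11 5 23))) (.lf .inf))))) (.y 585 
(.lf (.tipb 8 4 45)) (.a 202 (.lf .inf) (.z 517 (.y 607 (.lf (.tipb 8 4 56)) (.lf .inf)) 
(.lf (.tipb 6 4 57)))))) (.z 495 (.y 585 (.lf (.two (.lf 7 90 7 90) (.lm 7 19 2 26 13 5 45))) 
(.a 247 (.z 472 (.lf (.two (.lf 6 102 7 101) (.lm 7 53 0 60 13 5 34))) 
(.lf (.two (.lf 6 113 6 112) (.lm 6 42 0 48 11 5 34)))) 
(.lf (.two (.lf 7 90 7 90) (.lm 7 42 0 48 13 5 45))))) (.y 585 (.a 247 (.z 517 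
(.lf (.two (.lf 6 123 5 125) (.lm 5 7 2 16 9 5 34))) (.lf (.tipb 6 4 34))) (.z 517 
(.lf (.two (.lf 7 111 5 114) (.lm 5 7 2 16 9 5 34))) (.y 562 
(.lf (.two (.lf 7 122 4 125) (.lm 4 0 3 0 7 5 23))) 
(.lf (.two (.lf 7 122 4 125) (.lm 4 8 2 14 7 5 23)))))) (.a 247 (.z 517 
(.lf (.two (.lf 6 123 5 125) (.lm 5 31 0 37 9 5 34))) (.lf (.tipb 6 4 57))) (.z 517 
(.lf (.two (.lf 7 111 5 114) (.lm 5 31 0 37 9 5 34))) 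
(.lf (.two (.lf 7 122 4 125) (.lm 4 20 0 25 7 5 34)))))))) (.a 225 (.lf .inf) (.z 495 (.y 675 
(.a 247 (.lf .inf) (.z 472 (.y 652 
(.lf (.two (.lm 7 90 7 90 13 13 23) (.lm 7 76 0 82 13 5 22))) (.lf .inf)) (.y 652 
(.lf (.two (.lf 7 101 6 101) (.lm 6 65 0 70 11 5 23))) (.lf .inf)))) (.lf .inf)) (.y 675 
(.a 247 (.lf .inf) (.z 517 (.y 652 (.lf (.two (.lf 7 111 5 114) (.lm 5 54 0 59 9 5 22))) 
(.lf .inf)) (.y 652 (.lf (.two (.lf 7 122 4 125) (.lm 4 43 0 47 7 5 23))) (.lf .inf)))) 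
(.lf .inf)))))) (.z 450 (.y 630 (.a 315 (.z 405 (.y 585 
(.lf (.two (.lm 9 23 10 22 16 17 45) (.lm 10 64 2 71 17 5 45))) (.a 292 
(.lf (.two (.lm 8 35 10 33 15 17 34) (.lf 10 86 0 94))) 
(.lf (.two (.lm 9 23 10 22 16 17 34) (.lf 10 86 0 94))))) (.y 585 
(.lf (.two (.lm 9 45 9 45 16 16 45) (.lm 9 42 2 48 16 5 45))) 
(.lf (.two (.lm 9 45 9 45 16 16 45) (.lm 9 64 0 71 16 5 45))))) (.z 405 (.y 585 
(.lf (.dir (.lf 10 87 2 93))) (.lf (.two (.lm 10 0 10 0 17 17 45) (.lf 10 86 0 94)))) 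
(.lf (.two (.lm 10 22 9 23 17 16 45) (.lm 9 41 1 49 16 6 68))))) (.a 315 (.z 405 (.y 675 
(.a 292 (.z 382 (.y 652 (.a 281 (.z 371 (.y 641 
(.lf (.two (.lm 8 40 10 39 14 17 11) (.lf 10 121 0 131))) (.t 16 
(.lf (.two (.lm 6 40 7 39 9 11 11) (.lf 7 124 1 129))) (.lf (.low 2)))) 
(.lf (.two (.lm 8 46 10 44 14 17 11) (.lf 10 119 0 129)))) 
(.lf (.two (.lm 8 35 10 33 15 17 17) (.lf 10 119 0 129)))) (.y 663 (.a 281 (.lf .inf) (.z 371 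
(.t 16 (.lf (.two (.lm 6 34 7 34 10 11 11) (.lf 7 124 1 130))) (.lf (.low 2))) (.t 16 
(.lf (.two (.lm 6 40 7 39 10 11 11) (.lf 7 124 1 130))) (.lf (.low 2))))) (.lf .inf))) (.y 652 
(.lf (.two (.lm 8 46 9 44 15 17 23) (.lf 9 108 0 117))) (.z 393 (.y 663 (.a 281 (.lf .inf) 
(.lf (.two (.lm 8 46 10 44 15 17 11) (.lf 10 121 0 131)))) (.lf .inf)) (.y 663 (.a 281 
(.lf .inf) (.lf (.two (.lm 8 51 9 50 15 17 12) (.lf 9 119 0 128)))) (.lf .inf))))) (.z 382 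
(.y 652 (.lf (.two (.lm 9 23 10 22 16 17 23) (.lf 10 119 0 129))) (.a 303 (.y 663 (.z 371 
(.t 16 (.lf (.two (.lm 6 29 7 28 10 11 11) (.lf 7 124 1 130))) (.lf (.low 2))) 
(.lf (.two (.lm 9 35 10 33 16 17 11) (.lf 10 121 0 131)))) (.z 371 (.t 16 (.y 669 
(.lf (.two (.lm 6 29 7 28 10 11 11) (.lf 7 124 1 130))) (.lf .inf)) (.lf (.low 2))) (.t 16 
(.lf (.two (.lm 6 34 7 34 10 11 11) (.lf 7 124 1 130))) (.lf (.low 2))))) (.y 663 (.z 371 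
(.t 16 (.lf (.tipa 9 10 34)) (.lf (.low 2))) 
(.lf (.two (.lm 9 28 10 28 16 17 12) (.lf 10 121 0 131)))) (.z 371 (.t 16 (.lf (.tipa 9 10 34)) 
(.lf (.low 2))) (.t 16 (.lf (.two (.lm 6 28 7 28 10 11 12) (.lf 7 124 1 130))) (.lf (.low 2))))))) 
(.y 652 (.lf (.two (.lm 9 34 9 33 16 17 23) (.lf 9 108 0 117))) (.a 303 (.z 393 (.y 663 
(.lf (.two (.lm 9 40 10 39 16 17 11) (.lf 10 121 0 131))) (.t 16 
(.lf (.two (.lm 6 40 7 39 10 11 11) (.lf 7 124 1 130))) (.lf (.low 2)))) 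
(.lf (.two (.lm 9 45 9 45 16 17 12) (.lf 9 119 0 128)))) 
(.lf (.two (.lm 9 34 9 33 16 17 18) (.lf 9 119 0 128))))))) (.a 292 (.lf .inf) (.z 382 (.y 697 
(.a 303 (.lf .inf) (.z 371 (.y 686 (.t 16 (.lf (.tipa 9 10 34)) (.lf (.low 2))) (.lf .inf)) 
(.y 686 (.t 16 (.a 309 (.lf .inf) (.lf (.tipa 9 10 37))) (.lf (.low 2))) (.lf .inf)))) 
(.lf .inf)) (.y 697 (.a 303 (.lf .inf) (.z 393 (.y 686 (.t 16 
(.lf (.two (.lm 6 34 7 33 10 11 12) (.lf 7 124 1 130))) (.lf (.low 2))) (.lf .inf)) (.y 686 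
(.t 16 (.lf (.two (.lm 6 39 6 39 10 11 12) (.lf 6 124 1 130))) (.lf (.low 2))) (.lf .inf)))) 
(.lf .inf))))) (.y 675 (.a 292 (.z 427 (.y 652 
(.lf (.two (.lm 8 57 9 56 15 16 22) (.lf 9 97 0 106))) (.y 663 
(.lf (.two (.lm 8 57 9 56 15 16 22) (.lf 9 108 0 117))) (.lf .inf))) (.y 652 
(.lf (.two (.lm 8 68 8 67 15 15 23) (.lm 8 86 0 94 15 5 23))) 
(.lf (.two (.lm 8 68 8 67 15 15 23) (.lf 8 97 0 105))))) (.z 427 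
(.lf (.two (.lm 9 45 9 45 16 16 23) (.lf 9 97 0 106))) 
(.lf (.two (.lm 9 56 8 56 16 15 23) (.lf 8 86 0 94))))) (.a 292 (.lf .inf) (.z 427 (.y 697 
(.a 303 (.lf .inf) (.z 416 (.y 686 (.lf (.two (.lm 9 45 9 45 16 16 12) (.lf 9 121 0 131))) 
(.lf .inf)) (.lf (.two (.lm 9 50 9 51 16 16 12) (.lf 9 119 0 129))))) (.lf .inf)) (.y 697 
(.a 303 (.lf .inf) (.lf (.two (.lm 9 56 8 56 16 15 18) (.lf 8 109 0 116)))) (.lf .inf)))))) 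
(.z 405 (.y 675 (.a 337 (.z 382 (.y 652 
(.lf (.two (.lm 9 12 10 11 17 17 22) (.lf 10 119 0 129))) (.y 663 (.a 326 
(.lf (.two (.lm 9 17 10 17 17 17 17) (.lf 10 121 0 131))) 
(.lf (.two (.lm 10 12 10 11 17 17 17) (.lf 10 121 0 131)))) (.a 326 (.z 371 (.t 16 
(.lf (.tipa 10 10 28)) (.lf (.low 2))) (.t 16 (.lf (.tipa 10 10 34)) (.lf (.low 2)))) (.z 371 
(.t 16 (.lf (.tipa 10 10 23)) (.lf (.low 2))) 
(.lf (.two (.lm 10 17 10 17 17 17 11) (.lf 10 121 0 131))))))) 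
(.lf (.two (.lm 9 23 9 22 17 17 23) (.lf 9 108 0 117)))) (.z 382 (.y 652 
(.lf (.two (.lm 10 0 10 0 17 17 23) (.lf 10 119 0 129))) (.a 348 (.y 663 
(.lf (.two (.lm 10 6 10 6 17 17 17) (.lf 10 121 0 131))) (.z 371 (.t 16 (.lf (.tipa 10 10 17)) 
(.lf (.low 2))) (.lf (.two (.lm 10 12 10 11 17 17 11) (.lf 10 121 0 131))))) (.y 663 
(.lf (.two (.lm 10 0 10 0 17 17 17) (.lf 10 121 0 131))) (.z 371 (.t 16 (.lf (.tipa 10 10 12)) 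
(.lf (.low 2))) (.lf (.two (.lm 10 5 10 6 17 17 12) (.lf 10 121 0 131))))))) 
(.lf (.two (.lm 10 11 9 11 17 17 23) (.lf 9 108 0 117))))) (.a 337 (.z 382 (.y 697 (.a 326 
(.z 371 (.y 686 (.t 16 (.lf (.tipa 10 10 28)) (.lf (.low 2))) (.t 16 (.lf (.tipa 10 10 28)) 
(.lf (.low 2)))) (.y 686 (.t 16 (.lf (.tipa 10 10 34)) (.lf (.low 2))) (.t 16 
(.lf (.tipa 10 10 34)) (.lf (.low 2))))) (.z 371 (.y 686 (.t 16 (.lf (.tipa 10 10 23)) 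
(.lf (.low 2))) (.t 16 (.lf (.tipa 10 10 23)) (.lf (.low 2)))) (.y 686 (.t 16 
(.lf (.tipa 10 10 28)) (.lf (.low 2))) (.t 16 (.lf (.tipa 10 10 28)) (.lf (.low 2)))))) 
(.y 708 (.a 326 (.lf .inf) (.z 371 (.t 16 (.lf (.tipa 10 10 23)) (.lf (.low 2))) (.t 16 
(.lf (.tipa 10 10 28)) (.lf (.low 2))))) (.lf .inf))) (.y 697 (.z 393 (.a 326 (.y 686 (.t 16 
(.lf (.two (.lm 6 28 7 28 11 11 11) (.lf 7 124 1 130))) (.lf (.low 2))) (.t 16 (.a 320 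
(.lf .inf) (.lf (.tipa 10 10 37))) (.lf (.low 2)))) (.y 686 
(.lf (.two (.lm 10 23 10 22 17 17 11) (.lf 10 121 0 131))) (.t 16 (.lf (.tipa 10 10 34)) 
(.lf (.low 2))))) (.a 326 (.y 686 (.lf (.two (.lm 9 34 9 33 17 17 12) (.lf 9 121 0 131))) 
(.t 16 (.lf (.two (.lm 6 34 6 33 11 11 12) (.lf 6 124 0 130))) (.lf (.low 2)))) (.y 686 
(.lf (.two (.lm 10 28 9 28 17 17 12) (.lf 9 121 0 131))) (.t 16 
(.lf (.two (.lm 7 28 6 28 11 11 12) (.lf 6 124 0 130))) (.lf (.low 2)))))) (.z 393 (.y 708 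
(.a 326 (.lf .inf) (.t 16 (.lf (.tipa 10 10 34)) (.lf (.low 2)))) (.lf .inf)) (.y 708 (.a 326 
(.lf .inf) (.t 16 (.z 399 (.lf (.tipa 10 10 37)) 
(.lf (.two (.lm 7 31 6 31 11 10 9) (.lf 6 124 0 130)))) (.lf (.low 2)))) (.lf .inf))))) 
(.z 382 (.y 697 (.a 348 (.z 371 (.y 686 (.t 16 (.lf (.tipa 10 10 17)) (.lf (.low 2))) (.t 16 
(.lf (.tipa 10 10 17)) (.lf (.low 2)))) (.y 686 (.t 16 (.lf (.tipa 10 10 23)) (.lf (.low 2))) 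
(.t 16 (.lf (.tipa 10 10 23)) (.lf (.low 2))))) (.z 371 (.y 686 (.t 16 (.lf (.tipa 10 10 12)) 
(.lf (.low 2))) (.t 16 (.lf (.tipa 10 10 12)) (.lf (.low 2)))) (.y 686 (.t 16 
(.lf (.tipa 10 10 17)) (.lf (.low 2))) (.t 16 (.lf (.tipa 10 10 17)) (.lf (.low 2)))))) 
(.a 348 (.y 708 (.z 371 (.t 16 (.lf (.tipa 10 10 17)) (.lf (.low 2))) (.t 16 
(.lf (.tipa 10 10 23)) (.lf (.low 2)))) (.z 371 (.t 16 (.lf (.tipa 10 10 17)) (.lf (.low 2))) 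
(.t 16 (.lf (.tipa 10 10 23)) (.lf (.low 2))))) (.y 708 (.z 371 (.t 16 (.lf (.tipa 10 10 12)) 
(.lf (.low 2))) (.t 16 (.lf (.tipa 10 10 17)) (.lf (.low 2)))) (.z 371 (.t 16 
(.lf (.tipa 10 10 12)) (.lf (.low 2))) (.t 16 (.lf (.tipa 10 10 17)) (.lf (.low 2))))))) 
(.y 697 (.a 348 (.z 393 (.y 686 (.lf (.two (.lm 10 17 10 17 17 17 11) (.lf 10 121 0 131))) 
(.t 16 (.lf (.tipa 10 10 28)) (.lf (.low 2)))) 
(.lf (.two (.lm 10 22 9 23 17 17 12) (.lf 9 121 0 131)))) (.z 393 (.y 686 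
(.lf (.two (.lm 10 11 10 11 17 17 12) (.lf 10 121 0 131))) (.t 16 (.lf (.tipa 10 10 23)) 
(.lf (.low 2)))) (.lf (.two (.lm 10 16 9 17 17 17 12) (.lf 9 121 0 131))))) (.a 348 (.z 393 
(.y 708 (.t 16 (.lf (.tipa 10 10 28)) (.lf (.low 2))) (.t 16 (.lf (.tipa 10 10 28)) 
(.lf (.low 2)))) (.y 708 (.t 16 (.lf (.tipa 10 10 34)) (.lf (.low 2))) (.t 16 
(.lf (.tipa 10 10 34)) (.lf (.low 2))))) (.z 393 (.y 708 (.t 16 (.lf (.tipa 10 10 23)) 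
(.lf (.low 2))) (.t 16 (.lf (.tipa 10 10 23)) (.lf (.low 2)))) (.y 708 (.t 16 
(.lf (.tipa 10 10 29)) (.lf (.low 2))) (.t 16 (.lf (.tipa 10 10 29)) (.lf (.low 2)))))))))) 
(.y 675 (.lf (.two (.lm 10 22 9 23 17 16 45) (.lf 9 86 0 94))) (.a 337 (.z 427 (.y 697 (.a 326 
(.z 416 (.lf (.two (.lm 9 39 9 40 17 16 11) (.lf 9 121 0 131))) 
(.lf (.two (.lm 9 45 9 45 17 16 11) (.lf 9 119 0 129)))) 
(.lf (.two (.lm 10 34 9 34 17 16 17) (.lf 9 119 0 129)))) (.y 708 (.a 326 (.lf .inf) (.z 416 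
(.t 16 (.lf (.two (.lm 7 34 6 34 11 10 11) (.lf 6 124 0 130))) (.lf (.low 2))) 
(.lf (.two (.lm 10 39 9 40 17 16 11) (.lf 9 122 0 131))))) (.lf .inf))) (.y 697 
(.lf (.two (.lm 9 44 8 46 17 15 23) (.lf 8 109 0 116))) (.z 438 (.y 708 
(.lf (.two (.lm 9 44 8 46 17 15 17) (.lf 8 122 0 131))) (.lf .inf)) (.y 708 
(.lf (.two (.lm 9 50 8 51 17 14 17) (.lf 8 119 0 128))) (.lf .inf))))) (.z 427 (.y 697 
(.lf (.two (.lm 10 22 9 23 17 16 23) (.lf 9 119 0 129))) (.a 348 (.y 708 (.z 416 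
(.lf (.two (.lm 10 28 9 29 17 16 11) (.lf 9 121 0 131))) 
(.lf (.two (.lm 10 33 9 35 17 16 11) (.lf 9 122 0 131)))) (.z 416 (.t 16 (.y 714 
(.lf (.two (.lm 7 28 6 29 11 10 11) (.lf 6 124 0 130))) (.lf .inf)) (.lf (.low 2))) (.t 16 
(.lf (.two (.lm 7 34 6 34 11 10 11) (.lf 6 124 0 130))) (.lf (.low 2))))) (.y 708 
(.lf (.two (.lm 10 22 9 23 17 16 17) (.lf 9 122 0 131))) (.z 416 (.t 16 (.lf (.tipa 10 9 34)) 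
(.lf (.low 2))) (.lf (.two (.lm 10 27 9 29 17 16 12) (.lf 9 122 0 131))))))) (.y 697 
(.lf (.two (.lm 10 33 8 34 17 15 23) (.lf 8 109 0 116))) (.a 348 
(.lf (.two (.lm 10 39 8 40 17 15 17) (.lf 8 119 0 128))) 
(.lf (.two (.lm 10 33 8 34 17 15 18) (.lf 8 119 0 128))))))))))) (.y 630 (.a 315 (.z 495 
(.y 585 (.lf (.two (.lm 9 67 7 68 16 13 45) (.lm 7 19 2 26 13 5 45))) 
(.lf (.two (.lm 9 67 7 68 16 13 45) (.lm 7 42 0 48 13 5 45)))) (.y 585 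
(.lf (.two (.lf 9 88 5 92) (.lm 5 0 2 0 9 5 45))) 
(.lf (.two (.lf 9 88 5 92) (.lm 5 19 0 26 9 5 45))))) (.z 495 
(.lf (.two (.lm 10 44 7 46 17 13 45) (.lm 7 18 1 27 13 6 68))) (.y 585 
(.lf (.dir (.lf 10 87 2 93))) (.lf (.two (.lm 10 65 5 70 17 9 45) (.lm 5 19 0 26 9 5 45)))))) 
(.a 315 (.z 495 (.y 675 (.a 292 (.z 472 
(.lf (.two (.lm 8 79 7 79 15 13 22) (.lm 7 76 0 82 13 5 34))) 
(.lf (.two (.lm 8 89 6 91 15 11 23) (.lm 6 65 0 70 11 5 34)))) 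
(.lf (.two (.lm 9 67 7 68 16 13 34) (.lm 7 65 0 70 13 5 45)))) (.a 292 (.lf .inf) (.z 472 
(.y 697 (.lf (.two (.lm 9 67 7 68 16 13 23) (.lf 7 98 0 105))) (.lf .inf)) (.y 697 
(.lf (.two (.lm 9 77 6 80 16 11 23) (.lm 6 87 0 93 11 5 23))) (.lf .inf))))) (.y 675 
(.lf (.two (.lf 9 88 5 92) (.lm 5 43 0 47 9 5 45))) (.a 292 (.lf .inf) (.z 517 
(.lf (.two (.lm 9 88 5 92 16 9 23) (.lm 5 77 0 81 9 5 34))) 
(.lf (.two (.lf 9 99 4 103) (.lm 4 66 0 69 7 5 34))))))) (.z 495 (.y 675 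
(.lf (.two (.lm 10 44 7 46 17 13 45) (.lm 7 65 0 70 13 5 45))) (.a 337 (.z 472 (.y 697 
(.lf (.two (.lm 9 56 7 57 17 13 22) (.lf 7 98 0 105))) 
(.lf (.two (.lm 9 56 7 57 17 13 22) (.lf 7 109 0 116)))) 
(.lf (.two (.lm 9 66 6 69 17 11 23) (.lf 6 87 0 93)))) 
(.lf (.two (.lm 10 44 7 46 17 13 34) (.lf 7 87 0 93))))) (.y 675 
(.lf (.two (.lm 10 65 5 70 17 9 45) (.lm 5 43 0 47 9 5 45))) 
(.lf (.two (.lm 10 65 5 70 17 9 45) (.lm 5 66 0 69 9 5 45)))))))))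

theorem h15 : chk (leafR PP TD0 0 1) c15 0 32 180 360 360 540 540 720 = true := by
  decide +kernel

def c16 : Tree :=
  (.y 540 (.a 270 (.lf (.two (.pot 1) (.lf 0 0 8 0))) 
(.lf (.two (.lf 9 86 0 94) (.lf 0 0 8 0)))) (.a 270 (.z 630 (.y 630 (.lf (.tipb 5 5 45)) 
(.a 225 (.lf .inf) (.z 585 (.y 675 (.a 247 (.lf .inf) (.z 562 (.y 652 (.lf (.tipb 4 4 56)) 
(.lf .inf)) (.lf (.tipb 4 4 57)))) (.lf .inf)) (.y 675 (.lf (.tipb 4 4 45)) (.lf .inf))))) 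
(.lf (.tipb 5 8 45))) (.z 630 (.y 630 (.a 315 (.z 585 (.y 585 (.a 292 (.z 562 
(.lf (.two (.lf 8 121 3 127) (.lm 3 0 2 0 5 5 23))) (.lf (.tipb 4 4 12))) 
(.lf (.dir (.lf 9 109 2 116)))) (.a 292 (.z 562 
(.lf (.two (.lf 8 121 3 127) (.lm 3 8 0 15 5 5 34))) (.lf (.tipb 4 4 34))) (.z 562 
(.lf (.two (.lf 9 110 3 115) (.lm 3 8 0 15 5 5 34))) 
(.lf (.two (.lf 9 120 2 127) (.lm 2 0 0 0 5 5 34)))))) (.lf (.tipb 4 5 23))) (.z 585 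
(.lf (.two (.lf 10 87 2 93) (.lm 2 0 1 0 5 6 45))) (.y 585 (.lf (.dir (.lf 10 87 2 93))) 
(.a 337 (.z 607 (.lf (.two (.lf 9 120 0 128) (.lm 0 0 0 0 5 5 23))) (.lf (.tipb 4 4 12))) 
(.lf (.dir (.lf 10 108 0 117))))))) (.a 315 (.z 585 (.y 675 (.a 292 (.z 562 
(.lf (.two (.lf 8 121 3 127) (.lm 3 32 0 36 5 5 34))) (.lf (.tipb 4 4 57))) 
(.lf (.two (.lf 9 109 2 116) (.lm 2 21 0 24 5 5 45)))) (.a 292 (.lf .inf) (.z 562 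
(.lf (.two (.lf 9 110 3 115) (.lm 3 55 0 58 5 5 34))) (.y 697 
(.lf (.two (.lf 9 120 2 127) (.lm 2 44 0 46 5 5 23))) (.lf .inf))))) (.y 675 
(.lf (.tipb 4 4 45)) (.a 292 (.lf .inf) (.z 607 (.y 697 (.lf (.tipb 4 4 56)) (.lf .inf)) 
(.lf (.tipb 4 4 57)))))) (.z 585 (.y 675 (.lf (.two (.lf 10 87 2 93) (.lm 2 21 0 24 5 5 45))) 
(.lf (.two (.lf 10 87 2 93) (.lm 2 44 0 46 5 5 45)))) (.y 675 (.a 337 (.z 607 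
(.lf (.two (.lf 9 120 0 128) (.lm 0 10 0 13 5 5 34))) (.lf (.tipb 4 4 34))) (.z 607 
(.lf (.two (.lf 10 108 0 117) (.lm 0 10 0 13 5 5 34))) 
(.lf (.two (.lf 10 119 0 128) (.lm 0 0 0 0 5 5 34))))) (.a 337 (.z 607 
(.lf (.two (.lf 9 120 0 128) (.lm 0 34 0 34 5 5 34))) (.lf (.tipb 4 4 57))) 
(.lf (.two (.lf 10 108 0 117) (.lm 0 22 0 23 5 5 45)))))))) (.lf (.tipb 5 8 45)))))

theorem h16 : chk (leafR PP TD0 0 1) c16 0 32 180 360 540 720 360 720 = true := by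
  decide +kernel

theorem main : ∃ T : Tree, chk (leafR PP TD0 0 1) T 0 32 0 360 0 720 360 720 = true :=
  ⟨_, (chk_z (chk_a (chk_z h0 h1) (chk_z h2 (chk_y h3 (chk_a h4 (chk_z h5 (chk_y h6 h7)))))) (chk_a (chk_z (chk_y (chk_a h8 (chk_z (chk_y h9 h10) h11)) h12) h13) (chk_z (chk_y h14 h15) h16)))⟩

end Pool.Agent.Helper58.LDD.R10
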