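import Pool.Agent.Helper58.LD.Comb
import Pool.Agent.Helper58.LDD.Tab

set_option autoImplicit false

namespace Pool.Agent.Helper58.LDD.R11

open Pool.Agent.Helper58.LD Pool.Agent.Helper58.LDD

set_option maxRecDepth 100000

def c0 : Tree :=
  (.z 180 (.y 540 (.a 90 (.lf (.low 0)) (.z 90 (.lf (.low 1)) (.y 450 (.a 135 (.lf (.low 0)) 
(.z 135 (.lf (.low 1)) (.y 405 (.lf (.dir (.lf 0 100 22 80))) (.a 157 (.z 157 (.y 427 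
(.lf (.dir (.lf 0 131 20 111))) (.lf (.tipa 1 1 11))) 
(.lf (.two (.lm 0 0 0 0 2 4 23) (.lf 0 121 19 104)))) (.lf (.dir (.lf 0 121 19 104))))))) 
(.lf (.tipa 5 5 45))))) (.a 90 (.lf .inf) (.z 90 (.lf (.low 1)) (.lf (.tipa 5 5 45))))) 
(.y 540 (.a 90 (.lf (.low 0)) (.z 270 (.y 450 (.a 135 (.lf (.low 0)) (.z 225 (.y 405 
(.lf (.dir (.lf 0 100 22 80))) (.a 157 (.lf (.two (.lm 0 19 6 4 2 12 34) (.lf 6 96 19 84))) 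
(.lf (.dir (.lf 0 121 19 104))))) (.lf (.two (.lm 0 33 13 12 5 21 45) (.lf 13 50 21 40))))) 
(.a 135 (.lf (.low 0)) (.z 225 (.y 495 (.a 157 (.z 202 
(.lf (.two (.lm 0 17 4 6 2 7 22) (.lf 4 127 13 118))) 
(.lf (.two (.lm 0 28 7 17 2 12 23) (.lf 7 115 13 110)))) (.z 202 (.y 472 
(.lf (.two (.lm 0 0 4 0 4 7 23) (.lf 4 127 14 116))) (.lf (.tipa 3 6 23))) 
(.lf (.two (.lm 0 22 7 0 4 12 23) (.lf 7 115 13 110))))) (.lf (.tipa 4 11 45))) (.y 495 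
(.a 157 (.lf (.two (.lm 0 42 13 26 2 21 34) (.lf 13 90 13 90))) 
(.lf (.two (.lm 0 33 13 12 4 21 34) (.lf 13 90 13 90)))) (.a 157 (.z 247 (.y 517 
(.lf (.two (.lm 0 40 11 28 2 17 22) (.lf 11 120 7 123))) (.y 528 
(.lf (.two (.lm 0 40 11 28 2 17 22) (.lf 11 120 5 126))) (.lf .inf))) (.y 517 
(.lf (.two (.lm 0 52 14 38 2 21 23) (.lf 14 109 7 116))) (.z 258 
(.lf (.two (.lm 0 52 13 38 2 19 17) (.lf 13 117 4 127))) 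
(.lf (.two (.lm 0 58 15 43 2 21 17) (.lf 15 116 4 127)))))) (.z 247 (.y 517 
(.lf (.two (.lm 0 31 11 14 4 17 23) (.lf 11 120 7 123))) (.lf (.tipa 3 16 45))) (.y 517 
(.lf (.two (.lm 0 42 14 25 4 21 23) (.lf 14 109 7 116))) 
(.lf (.two (.lm 0 42 14 25 4 21 23) (.lf 14 116 4 127)))))))))) (.y 450 (.a 135 (.lf (.low 0)) 
(.z 315 (.y 405 (.lf (.dir (.lf 0 100 22 80))) 
(.lf (.two (.lm 0 55 19 35 5 28 45) (.lm 19 45 19 45 28 28 45)))) (.y 405 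
(.lf (.dir (.lf 0 100 22 80))) (.lf (.two (.lm 0 78 22 57 5 30 45) (.lm 22 19 19 26 30 28 45)))))) 
(.a 135 (.lf (.low 0)) (.z 315 (.y 495 (.a 157 
(.lf (.two (.lm 0 65 19 48 2 28 34) (.lf 19 65 13 70))) 
(.lf (.two (.lm 0 55 19 35 4 28 34) (.lf 19 65 13 70)))) (.a 157 (.z 292 (.y 517 
(.lf (.two (.lm 0 65 17 48 2 25 22) (.lf 17 97 7 106))) (.y 528 (.a 146 (.lf .inf) 
(.lf (.two (.lm 0 65 17 48 2 25 17) (.lf 17 106 5 119)))) (.lf .inf))) (.y 517 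
(.lf (.two (.lm 0 77 20 58 2 28 23) (.lf 20 84 7 96))) (.z 303 (.y 528 
(.lf (.two (.lm 0 76 19 59 2 26 17) (.lf 19 100 5 114))) (.lf .inf)) (.y 528 (.a 146 (.lf .inf) 
(.lf (.two (.lm 0 82 20 64 2 27 12) (.lm 20 94 5 108 27 7 12)))) (.lf .inf))))) (.z 292 
(.y 517 (.lf (.two (.lm 0 54 17 36 4 25 23) (.lf 17 97 7 106))) (.a 168 
(.lf (.two (.lm 0 60 17 42 3 25 17) (.lf 17 106 4 119))) 
(.lf (.two (.lm 1 54 17 36 4 25 17) (.lf 17 106 4 119))))) (.y 517 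
(.lf (.two (.lm 0 65 20 47 4 28 23) (.lf 20 84 7 96))) (.a 168 
(.lf (.two (.lm 0 71 20 53 3 28 17) (.lf 20 94 4 108))) 
(.lf (.two (.lm 1 65 20 47 4 28 18) (.lf 20 94 4 108)))))))) (.y 495 (.a 157 (.z 337 
(.lf (.two (.lm 0 89 21 69 2 29 22) (.lm 21 52 13 61 29 21 34))) (.y 472 
(.lf (.two (.lm 0 100 22 80 2 30 23) (.lm 22 40 14 50 30 21 23))) 
(.lf (.two (.lm 0 100 22 80 2 30 23) (.lm 22 50 11 62 30 17 23))))) 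
(.lf (.two (.lm 0 78 22 57 4 30 34) (.lm 22 39 13 51 30 21 45)))) (.a 157 (.z 337 (.y 517 
(.a 146 (.lf (.low 0)) (.lf (.two (.lm 0 89 21 69 2 29 17) (.lm 21 73 7 85 29 12 22)))) 
(.y 528 (.a 146 (.lf .inf) (.z 326 
(.lf (.two (.lm 0 89 21 69 2 28 11) (.lm 21 88 5 103 28 7 11))) 
(.lf (.two (.lm 0 94 22 75 2 29 11) (.lm 22 82 5 98 29 7 11))))) (.lf .inf))) (.y 517 (.z 348 
(.a 146 (.lf (.low 0)) (.lf (.two (.lm 0 100 22 80 2 30 11) (.lm 22 67 7 80 30 12 17)))) 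
(.a 146 (.lf (.low 0)) (.lf (.two (.lm 0 106 22 85 2 30 12) (.lm 22 60 7 75 30 12 17))))) 
(.z 348 (.y 528 (.a 146 (.lf .inf) 
(.lf (.two (.lm 0 100 22 80 2 30 11) (.lm 22 77 5 92 30 7 11)))) (.lf .inf)) (.y 528 (.a 146 
(.lf .inf) (.t 48 (.lf (.two (.lm 0 104 19 87 1 23 12) (.lm 19 72 5 85 23 7 12))) 
(.lf (.low 0)))) (.lf .inf))))) (.z 337 (.y 517 
(.lf (.two (.lm 0 77 21 58 4 29 23) (.lm 21 73 7 85 29 12 22))) (.a 168 (.y 528 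
(.lf (.two (.lm 0 83 21 64 3 29 17) (.lm 21 82 5 98 29 7 17))) (.z 326 
(.lf (.two (.lm 0 83 21 64 3 28 11) (.lm 21 93 3 109 28 5 12))) 
(.lf (.two (.lm 0 89 22 69 3 29 11) (.lm 22 87 3 104 29 5 12))))) 
(.lf (.two (.lm 1 77 21 58 4 29 17) (.lm 21 82 4 98 29 7 23))))) (.y 517 
(.lf (.two (.lm 0 89 22 68 4 30 23) (.lm 22 60 7 75 30 12 23))) (.a 168 (.z 348 (.y 528 
(.lf (.two (.lm 0 95 22 74 3 30 11) (.lm 22 77 5 92 30 7 11))) 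
(.lf (.two (.lm 0 95 22 74 3 30 11) (.lm 22 81 3 99 30 5 12)))) (.y 528 
(.lf (.two (.lm 0 100 22 80 3 30 12) (.lm 22 70 5 87 30 7 12))) (.t 48 
(.lf (.two (.lm 0 99 19 81 3 23 12) (.lm 19 77 3 91 23 5 12))) 
(.lf (.two (.lm 0 102 25 78 1 30 12) (.lm 25 73 2 95 30 5 12)))))) 
(.lf (.two (.lm 1 88 22 69 4 30 18) (.lm 22 70 4 87 30 7 23))))))))))))) (.a 90 (.lf .inf) 
(.z 270 (.y 630 (.a 135 (.lf .inf) (.z 225 (.lf (.tipa 4 11 45)) (.y 585 (.a 157 (.lf .inf) 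
(.z 247 (.lf (.tipa 3 16 45)) (.y 562 (.a 168 (.lf .inf) (.z 258 
(.lf (.two (.lm 1 41 13 26 4 19 12) (.pot 0))) 
(.lf (.two (.lm 1 47 15 31 4 21 12) (.lf 15 116 0 130))))) (.lf .inf)))) (.lf .inf)))) 
(.lf .inf)) (.y 630 (.a 135 (.lf .inf) (.z 315 (.y 585 (.a 157 (.lf .inf) (.z 292 (.y 562 
(.a 168 (.lf .inf) (.z 281 (.lf (.two (.lm 1 53 17 37 4 23 12) (.lf 17 114 0 130))) (.y 551 
(.lf (.two (.lm 1 59 18 42 4 25 12) (.lf 18 113 1 129))) (.lf .inf)))) (.lf .inf)) (.y 562 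
(.a 168 (.lf .inf) (.z 303 (.y 551 (.lf (.two (.lm 1 65 19 47 4 26 12) (.lf 19 110 1 127))) 
(.lf .inf)) (.y 551 (.lf (.two (.lm 1 71 20 52 4 27 12) (.lf 20 103 1 122))) (.lf .inf)))) 
(.lf .inf)))) (.lf .inf)) (.y 585 (.a 157 (.lf .inf) (.z 337 (.y 562 (.a 168 (.lf .inf) 
(.z 326 (.y 551 (.lf (.two (.lm 1 77 21 58 4 28 12) (.lf 21 98 1 116))) (.lf .inf)) (.y 551 
(.lf (.two (.lm 1 82 22 64 4 29 12) (.lm 22 92 1 111 29 4 11))) (.lf .inf)))) (.lf .inf)) 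
(.y 562 (.a 168 (.lf .inf) (.z 348 (.y 551 (.t 48 
(.lf (.two (.lm 2 86 19 71 4 23 12) (.lm 19 88 2 104 23 4 11))) 
(.lf (.two (.lm 0 90 25 67 3 29 12) (.lm 25 84 0 108 29 3 11)))) (.lf .inf)) (.y 551 (.t 48 
(.lf (.two (.lm 2 92 19 76 4 23 12) (.lm 19 82 2 98 23 4 12))) 
(.lf (.two (.lm 0 96 25 72 3 30 12) (.lm 25 78 0 102 30 3 12)))) (.lf .inf)))) (.lf .inf)))) 
(.lf .inf)))) (.lf .inf))))))

theorem h0 : chk (leafR PP TD1 32 1) c0 32 64 0 180 0 360 360 720 = true := by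
  decide +kernel

def c1 : Tree :=
  (.y 540 (.a 270 (.z 90 (.lf .inf) (.y 450 (.lf (.two (.lf 9 0 0 0) (.lf 0 99 21 81))) 
(.lf (.two (.lf 9 0 0 0) (.pot 1))))) (.lf .inf)) (.lf (.two (.lf 16 0 0 0) (.pot 1))))

theorem h1 : chk (leafR PP TD1 32 1) c1 32 64 180 360 0 180 360 720 = true := by
  decide +kernel

def c2 : Tree :=
  (.a 270 (.z 270 (.y 450 (.a 225 (.lf (.dir (.lf 6 75 21 60))) (.lf .inf)) (.a 225 (.z 225 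
(.y 495 (.a 202 (.z 202 (.y 472 (.lf (.dir (.lf 4 127 14 116))) (.lf (.tipa 6 6 11))) (.y 472 
(.lf (.dir (.lf 4 127 14 116))) (.z 213 (.y 483 (.lf (.dir (.pot 0))) (.lf (.tipa 6 8 17))) 
(.lf (.two (.lm 4 11 8 0 7 12 17) (.lf 8 122 11 120)))))) (.z 202 (.y 472 
(.lf (.dir (.lf 7 116 14 109))) (.lf (.two (.lf 7 0 4 0) (.pot 0)))) (.y 472 
(.lf (.dir (.lf 7 116 14 109))) (.a 213 (.z 213 (.y 483 (.lf (.dir (.lf 6 124 12 119))) 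
(.lf (.tipa 8 8 6))) (.lf (.two (.lm 6 0 8 0 9 12 12) (.lf 8 122 11 120)))) 
(.lf (.dir (.lf 8 122 11 120))))))) (.lf (.tipa 11 11 23))) (.y 495 (.a 202 
(.lf (.two (.lm 4 23 13 0 7 21 34) (.lf 13 90 13 90))) (.z 247 
(.lf (.two (.lm 7 0 11 0 12 17 23) (.lf 11 102 13 101))) 
(.lf (.two (.lm 7 22 14 0 12 21 23) (.lf 14 89 13 91))))) (.a 202 (.z 247 (.y 517 
(.lf (.two (.lm 4 23 11 0 7 17 22) (.lf 11 120 7 123))) (.lf (.tipa 6 16 34))) (.y 517 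
(.lf (.two (.lm 4 32 14 13 7 21 23) (.lf 14 109 7 116))) 
(.lf (.two (.lm 4 32 14 13 7 21 23) (.lf 14 116 4 127))))) (.z 247 (.y 517 (.a 213 
(.lf (.two (.lm 6 12 11 0 9 17 17) (.lf 11 120 7 123))) (.lf (.dir (.pot 0)))) (.a 213 
(.lf (.tipa 8 16 23)) (.lf (.tipa 11 16 17)))) (.y 517 
(.lf (.two (.lm 7 22 14 0 12 21 23) (.lf 14 109 7 116))) (.a 213 
(.lf (.two (.lm 6 26 14 8 9 21 17) (.lf 14 116 4 127))) (.z 258 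
(.lf (.two (.lm 8 20 13 2 12 19 12) (.lf 13 117 4 127))) 
(.lf (.two (.lm 8 25 15 8 12 21 12) (.lf 15 116 4 127)))))))))) (.z 225 (.y 495 
(.lf (.dir (.lf 13 90 13 90))) (.lf (.two (.lf 13 0 6 0) (.pot 1)))) (.y 495 
(.lf (.dir (.lf 13 90 13 90))) (.a 247 (.z 247 (.y 517 (.a 236 (.z 236 (.y 506 
(.lf (.dir (.lf 10 120 8 122))) (.lf (.tipa 13 13 6))) 
(.lf (.two (.lm 10 0 12 0 14 16 11) (.lf 12 119 7 123)))) (.lf (.dir (.lf 12 119 7 123)))) 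
(.y 528 (.lf (.dir (.pot 0))) (.a 236 (.z 236 (.lf (.tipa 13 13 6)) (.t 48 
(.lf (.tipa 11 13 11)) (.y 534 (.a 230 (.lf (.tipa 12 15 11)) (.lf (.tipa 13 15 9))) (.a 230 
(.lf (.tipa 12 15 11)) (.lf (.tipa 13 15 9)))))) (.lf (.dir (.pot 0)))))) (.y 517 
(.lf (.two (.lm 11 0 14 0 17 21 23) (.lf 14 109 7 116))) (.z 258 (.y 528 (.lf (.dir (.pot 0))) 
(.a 236 (.t 48 (.lf (.tipa 11 14 17)) (.lf (.two (.lm 11 11 15 0 14 19 11) (.lf 15 116 2 128)))) 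
(.lf (.dir (.pot 0))))) (.lf (.two (.lm 11 11 15 0 17 21 17) (.lf 15 116 4 127)))))) (.z 247 
(.y 517 (.lf (.dir (.lf 14 109 7 116))) (.lf (.two (.lf 14 0 11 0) (.pot 0)))) (.y 517 
(.lf (.dir (.lf 14 109 7 116))) (.a 258 (.z 258 (.y 528 (.lf (.dir (.lf 13 117 5 126))) 
(.lf (.dir (.pot 0)))) (.lf (.two (.lm 13 0 15 0 19 21 12) (.lf 15 116 4 127)))) 
(.lf (.dir (.lf 15 116 4 127))))))))))) (.y 450 (.a 225 (.lf (.dir (.lf 6 75 21 60))) 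
(.lf .inf)) (.a 225 (.z 315 (.y 495 (.a 202 
(.lf (.two (.lm 4 44 19 24 7 28 34) (.lf 19 65 13 70))) 
(.lf (.two (.lm 7 33 19 12 12 28 34) (.lf 19 65 13 70)))) (.a 202 (.z 292 
(.lf (.two (.lm 4 43 17 25 7 25 22) (.lf 17 96 6 107))) 
(.lf (.two (.lm 4 54 20 36 7 28 23) (.lf 20 84 6 96)))) (.z 292 
(.lf (.two (.lm 7 32 17 13 12 25 23) (.lf 17 96 6 107))) 
(.lf (.two (.lm 7 42 20 25 12 28 23) (.lf 20 84 6 96)))))) (.y 495 (.a 202 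
(.lf (.two (.lm 4 66 22 47 7 30 34) (.lm 22 39 13 51 30 21 45))) 
(.lf (.two (.lm 7 53 22 37 12 30 34) (.lm 22 39 13 51 30 21 45)))) (.a 202 (.z 337 (.y 517 
(.lf (.two (.lm 4 65 21 48 7 29 22) (.lm 21 73 7 85 29 12 22))) 
(.lf (.two (.lm 4 65 21 48 7 29 22) (.lm 21 82 4 98 29 7 23)))) (.y 517 
(.lf (.two (.lm 4 76 22 59 7 30 23) (.lm 22 60 7 75 30 12 23))) 
(.lf (.two (.lm 4 76 22 59 7 30 23) (.lm 22 70 4 87 30 7 23))))) (.z 337 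
(.lf (.two (.lm 7 53 21 37 12 29 23) (.lf 21 72 6 86))) 
(.lf (.two (.lm 7 64 22 48 12 30 23) (.lm 22 60 6 75 30 12 34))))))) (.z 315 (.y 495 
(.lf (.dir (.lf 13 90 13 90))) (.a 247 (.z 292 
(.lf (.two (.lm 11 23 17 0 17 25 22) (.lf 17 96 6 107))) 
(.lf (.two (.lm 11 31 20 14 17 28 23) (.lf 20 84 6 96)))) (.z 292 
(.lf (.two (.lm 14 0 17 0 21 25 23) (.lf 17 96 6 107))) 
(.lf (.two (.lm 14 22 20 0 21 28 23) (.lf 20 84 6 96)))))) (.y 495 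
(.lf (.dir (.lf 13 90 13 90))) (.a 247 (.lf (.two (.lm 11 42 22 26 17 30 34) (.lf 22 60 6 75))) 
(.lf (.two (.lm 14 31 22 14 21 30 34) (.lf 22 60 6 75))))))))) (.z 270 (.y 450 (.lf .inf) 
(.a 315 (.lf (.dir (.lf 19 63 9 72))) (.lf .inf))) (.y 450 (.lf .inf) (.a 315 
(.lf (.dir (.lf 19 63 9 72))) (.lf .inf)))))

theorem h2 : chk (leafR PP TD1 32 1) c2 32 64 180 360 180 360 360 540 = true := by
  decide +kernel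

def c3 : Tree :=
  (.y 630 (.a 225 (.z 225 (.lf (.tipa 11 11 23)) (.y 585 (.a 202 (.z 247 (.lf (.tipa 6 16 34)) 
(.y 562 (.z 258 (.a 191 (.lf (.two (.lm 3 36 13 20 5 19 11) (.pot 0))) 
(.lf (.two (.lm 5 30 13 15 7 19 11) (.pot 0)))) (.a 191 
(.lf (.two (.lm 3 41 15 26 5 21 12) (.lf 15 116 0 130))) 
(.lf (.two (.lm 5 36 15 20 7 21 12) (.lf 15 116 0 130))))) (.z 258 (.y 573 (.a 191 (.lf .inf) 
(.lf (.two (.lm 5 30 13 15 7 19 11) (.pot 1)))) (.lf .inf)) (.y 573 (.a 191 (.lf .inf) (.t 48 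
(.z 264 (.lf (.two (.lm 5 34 13 22 7 16 9) (.pot 0))) (.a 196 (.lf .inf) 
(.lf (.two (.lm 5 37 14 25 7 17 6) (.pot 0))))) (.lf (.low 2)))) (.lf .inf))))) (.z 247 
(.y 562 (.a 213 (.lf (.tipa 8 16 23)) (.lf (.tipa 11 16 17))) (.a 213 (.lf (.tipa 8 16 23)) 
(.lf (.tipa 11 16 17)))) (.y 562 (.a 213 (.z 258 (.y 551 
(.lf (.two (.lm 6 25 13 9 9 19 11) (.pot 0))) (.t 48 (.lf (.tipa 7 14 28)) 
(.lf (.two (.lm 7 27 15 7 9 19 11) (.pot 0))))) (.y 551 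
(.lf (.two (.lm 6 31 15 14 9 21 12) (.lf 15 116 1 129))) (.t 48 
(.lf (.two (.lm 6 29 13 16 8 17 12) (.lf 13 117 0 130))) 
(.lf (.two (.lm 7 32 17 13 9 21 12) (.lf 17 114 0 131)))))) (.z 258 (.y 551 (.t 48 
(.lf (.tipa 9 14 23)) (.a 219 (.lf (.two (.lm 8 24 15 4 10 19 9) (.pot 0))) 
(.lf (.two (.lm 9 21 15 1 12 19 9) (.pot 0))))) (.t 48 (.lf (.tipa 9 14 23)) (.a 219 
(.lf (.two (.lm 8 24 15 4 10 19 9) (.pot 0))) (.z 252 (.lf (.tipa 11 16 17)) 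
(.lf (.two (.lm 9 23 15 4 12 18 6) (.pot 0))))))) (.y 551 
(.lf (.two (.lm 8 25 15 8 12 21 12) (.lf 15 116 1 129))) (.t 48 
(.lf (.two (.lm 8 23 13 10 10 17 12) (.lf 13 117 0 130))) (.a 219 
(.lf (.two (.lm 8 29 17 10 10 21 9) (.lf 17 114 0 131))) (.z 264 
(.lf (.two (.lm 9 26 16 7 12 20 6) (.lf 16 114 0 131))) 
(.lf (.two (.lm 9 28 17 11 12 21 6) (.lf 17 113 0 131))))))))) (.a 213 (.z 258 (.y 573 (.t 48 
(.lf (.tipa 7 14 28)) (.lf (.low 2))) (.t 48 (.lf (.low 2)) (.lf (.low 2)))) (.y 573 (.t 48 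
(.z 264 (.lf (.tipa 7 15 31)) (.a 207 (.lf (.two (.lm 6 34 14 23 7 17 6) (.pot 0))) 
(.lf (.two (.lm 6 31 14 20 8 17 6) (.pot 0))))) (.lf (.low 2))) (.t 48 (.lf (.low 2)) 
(.lf (.low 2))))) (.z 258 (.y 573 (.t 48 (.lf (.tipa 9 14 23)) (.lf (.low 2))) (.t 48 
(.lf (.low 2)) (.lf (.low 2)))) (.y 573 (.t 48 (.a 219 (.z 264 (.lf (.tipa 8 15 26)) 
(.lf (.two (.lm 7 28 14 17 9 17 6) (.pot 0)))) (.z 264 (.lf (.tipa 9 15 23)) 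
(.lf (.two (.lm 8 25 14 14 10 17 6) (.pot 0))))) (.lf (.low 2))) (.t 48 (.lf (.low 2)) 
(.lf (.low 2))))))))) (.lf (.low 2)))) (.z 225 (.lf (.two (.lf 13 0 6 0) (.pot 1))) (.y 585 
(.a 247 (.z 247 (.y 562 (.a 236 (.z 236 (.lf (.tipa 13 13 6)) (.y 551 (.t 48 
(.lf (.tipa 11 13 11)) (.a 230 (.lf (.tipa 12 15 11)) (.lf (.tipa 13 15 9)))) (.t 48 
(.lf (.tipa 11 13 11)) (.a 230 (.lf (.tipa 12 15 11)) (.lf (.tipa 13 15 9)))))) (.z 236 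
(.lf (.two (.lf 12 0 10 0) (.pot 1))) (.y 551 (.t 48 (.lf (.tipa 13 13 6)) (.a 241 (.z 241 
(.lf (.tipa 14 14 3)) (.y 545 (.t 56 (.lf (.tipa 13 14 6)) (.z 244 (.lf (.tipa 14 15 4)) 
(.lf (.two (.lm 13 3 14 0 15 16 4) (.pot 0))))) (.t 56 (.lf (.tipa 13 14 6)) (.z 244 
(.lf (.tipa 14 15 4)) (.y 548 (.lf (.two (.lm 13 3 14 0 15 16 4) (.pot 0))) (.a 238 
(.lf (.tipa 13 15 6)) (.t 60 (.lf (.tipa 13 15 5)) (.lf (.low 2))))))))) (.z 241 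
(.lf (.two (.lf 13 0 12 0) (.pot 1))) (.y 545 (.lf (.dir (.pot 0))) (.t 56 
(.lf (.tipa 14 14 3)) (.a 244 (.z 244 (.y 548 (.t 60 (.lf (.tipa 14 14 2)) (.a 242 
(.lf (.tipa 14 15 2)) (.z 242 (.lf (.two (.lf 14 0 14 0) (.pot 1))) (.y 546 
(.lf (.dir (.pot 0))) (.t 62 (.lf (.tipa 14 14 1)) (.lf (.low 2))))))) (.t 60 
(.lf (.tipa 14 14 2)) (.lf (.low 2)))) (.y 548 (.t 60 (.lf (.tipa 14 15 3)) (.a 242 
(.lf (.two (.lm 14 2 15 0 15 16 2) (.pot 0))) (.z 245 (.y 546 (.lf (.dir (.pot 0))) (.t 62 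
(.lf (.tipa 14 14 2)) (.lf (.low 2)))) (.lf (.two (.lm 14 1 15 0 16 16 2) (.pot 0)))))) (.t 60 
(.lf (.tipa 14 15 3)) (.lf (.low 2))))) (.z 244 (.lf (.two (.lf 14 0 14 0) (.pot 1))) (.y 548 
(.lf (.dir (.pot 0))) (.t 60 (.a 245 (.lf (.tipa 14 15 2)) (.z 245 
(.lf (.two (.lf 14 0 14 0) (.pot 1))) (.y 549 (.lf (.dir (.pot 0))) (.lf (.low 2))))) 
(.lf (.low 2))))))))))) (.t 48 (.lf (.tipa 13 13 6)) (.a 241 (.z 241 (.lf (.tipa 14 14 3)) 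
(.y 556 (.t 56 (.lf (.tipa 13 14 6)) (.lf (.low 2))) (.lf (.low 2)))) (.z 241 
(.lf (.two (.lf 13 0 12 0) (.pot 1))) (.y 556 (.t 56 (.lf (.tipa 14 14 3)) (.lf (.low 2))) 
(.lf (.low 2))))))))) (.y 573 (.a 236 (.z 236 (.lf (.tipa 13 13 6)) (.t 48 
(.lf (.tipa 11 13 11)) (.lf (.low 2)))) (.z 236 (.lf (.two (.lf 12 0 10 0) (.pot 1))) (.t 48 
(.lf (.tipa 13 13 6)) (.lf (.low 2))))) (.a 236 (.z 236 (.lf (.tipa 13 13 6)) (.t 48 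
(.lf (.low 2)) (.lf (.low 2)))) (.z 236 (.lf (.two (.lf 12 0 10 0) (.pot 1))) (.t 48 
(.lf (.low 2)) (.lf (.low 2))))))) (.y 562 (.z 258 (.a 236 (.y 551 (.t 48 
(.lf (.tipa 11 14 17)) (.a 230 (.lf (.two (.lm 10 17 15 0 13 19 8) (.pot 0))) (.z 252 
(.lf (.two (.lm 11 11 14 0 14 17 6) (.pot 0))) (.lf (.two (.lm 11 16 15 0 14 18 6) (.pot 0)))))) 
(.t 48 (.lf (.tipa 11 14 17)) (.a 230 (.z 252 (.lf (.two (.lm 10 17 14 0 13 17 5) (.pot 0))) 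
(.y 556 (.lf (.two (.lm 10 20 15 2 13 18 6) (.pot 0))) (.lf (.low 2)))) (.z 252 (.y 556 
(.lf (.two (.lm 11 11 14 0 14 17 6) (.pot 0))) (.lf (.low 2))) (.y 556 
(.lf (.two (.lm 11 16 15 0 14 18 6) (.pot 0))) (.lf (.low 2))))))) (.y 551 (.t 48 
(.lf (.tipa 13 14 11)) (.a 241 (.z 252 (.lf (.two (.lm 12 6 14 0 15 17 5) (.pot 0))) 
(.lf (.two (.lm 12 11 15 0 15 18 6) (.pot 0)))) (.z 252 (.y 545 (.lf (.dir (.pot 0))) (.t 56 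
(.a 244 (.lf (.tipa 13 15 6)) (.lf (.two (.lm 13 0 14 0 15 16 4) (.pot 0)))) (.a 244 (.y 548 
(.lf (.two (.lm 14 3 15 0 16 17 4) (.pot 0))) (.z 249 (.t 60 
(.lf (.two (.lm 13 3 14 0 15 16 3) (.pot 0))) (.lf (.low 2))) 
(.lf (.two (.lm 14 5 15 0 16 17 3) (.pot 0))))) (.y 548 (.lf (.dir (.pot 0))) (.z 249 (.t 60 
(.a 245 (.lf (.two (.lm 14 2 14 0 15 16 2) (.pot 0))) (.y 549 (.lf (.dir (.pot 0))) 
(.lf (.low 2)))) (.lf (.low 2))) (.lf (.two (.lm 14 2 15 0 16 17 3) (.pot 0)))))))) (.y 545 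
(.lf (.dir (.pot 0))) (.t 56 (.lf (.two (.lm 13 5 15 0 15 17 6) (.pot 0))) (.a 244 
(.lf (.two (.lm 14 8 16 0 16 18 5) (.pot 0))) (.lf (.two (.lm 14 5 16 0 16 18 5) (.pot 0))))))))) 
(.t 48 (.lf (.tipa 13 14 11)) (.a 241 (.z 252 (.y 556 (.t 56 (.lf (.tipa 13 15 8)) 
(.lf (.low 2))) (.lf (.low 2))) (.y 556 (.t 56 (.lf (.two (.lm 12 11 15 0 14 17 6) (.pot 0))) 
(.lf (.low 2))) (.lf (.low 2)))) (.z 252 (.y 556 (.t 56 (.a 244 (.lf (.tipa 13 15 6)) (.z 249 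
(.lf (.tipa 14 14 3)) (.lf (.tipa 14 15 4)))) (.lf (.low 2))) (.lf (.low 2))) (.y 556 (.t 56 
(.a 244 (.lf (.two (.lm 13 8 15 0 14 17 5) (.pot 0))) 
(.lf (.two (.lm 13 5 15 0 15 17 5) (.pot 0)))) (.lf (.low 2))) (.lf (.low 2)))))))) (.a 236 
(.y 551 (.lf (.two (.lm 10 20 15 2 14 21 12) (.lf 15 116 1 129))) (.t 48 (.z 264 
(.lf (.two (.lm 9 18 13 4 12 16 9) (.pot 0))) (.lf (.two (.lm 9 20 14 8 12 17 9) (.pot 0)))) 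
(.z 264 (.a 230 (.y 556 (.lf (.two (.lm 10 23 16 5 13 20 6) (.lf 16 114 0 131))) (.lf (.low 2))) 
(.y 556 (.lf (.two (.lm 11 21 16 1 14 20 6) (.lf 16 114 0 131))) (.lf (.low 2)))) 
(.lf (.two (.lm 11 24 17 4 14 21 9) (.lf 17 113 0 131)))))) (.y 551 
(.lf (.two (.lm 12 11 15 0 16 21 12) (.lf 15 116 1 129))) (.t 48 (.z 264 
(.lf (.two (.lm 11 11 13 0 14 16 9) (.pot 0))) 
(.lf (.two (.lm 11 16 14 1 14 17 9) (.lf 14 117 0 130)))) (.z 264 (.a 241 (.y 556 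
(.lf (.two (.lm 12 17 16 0 15 20 6) (.lf 16 114 0 131))) (.lf (.low 2))) (.y 556 
(.lf (.two (.lm 13 11 16 0 16 20 6) (.lf 16 114 0 131))) (.lf (.low 2)))) 
(.lf (.two (.lm 13 17 17 0 16 21 9) (.lf 17 113 0 131)))))))) (.z 258 (.y 573 (.a 236 (.t 48 
(.lf (.tipa 11 14 17)) (.lf (.low 2))) (.t 48 (.lf (.tipa 13 14 11)) (.lf (.low 2)))) (.a 236 
(.t 48 (.lf (.low 2)) (.lf (.low 2))) (.t 48 (.lf (.low 2)) (.lf (.low 2))))) (.y 573 (.a 236 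
(.t 48 (.z 264 (.lf (.two (.lm 9 18 13 4 12 16 9) (.pot 0))) (.a 230 
(.lf (.two (.lm 9 23 14 11 11 17 6) (.pot 0))) (.lf (.two (.lm 10 20 14 8 12 17 6) (.pot 0))))) 
(.lf (.low 2))) (.t 48 (.z 264 (.a 241 (.lf (.tipa 12 15 14)) (.lf (.tipa 13 15 12))) (.a 241 
(.y 567 (.lf (.two (.lm 10 17 14 6 13 17 6) (.pot 0))) (.t 40 (.lf (.tipa 11 14 17)) 
(.lf (.low 2)))) (.y 567 (.lf (.two (.lm 11 15 14 2 14 17 6) (.pot 0))) (.t 40 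
(.lf (.tipa 11 14 15)) (.lf (.low 2)))))) (.lf (.low 2)))) (.a 236 (.t 48 (.lf (.low 2)) 
(.lf (.low 2))) (.t 48 (.lf (.low 2)) (.lf (.low 2)))))))) (.z 247 
(.lf (.two (.lf 14 0 11 0) (.pot 1))) (.y 562 (.a 258 (.z 258 (.y 551 (.lf (.dir (.pot 0))) 
(.t 48 (.a 252 (.lf (.tipa 13 14 6)) (.lf (.tipa 14 14 3))) (.a 252 (.z 252 (.y 556 (.t 56 
(.a 249 (.z 249 (.lf (.tipa 14 14 1)) (.y 553 (.lf (.two (.lm 13 0 14 0 15 16 3) (.pot 0))) 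
(.t 52 (.lf (.tipa 14 14 3)) (.lf (.low 2))))) (.z 249 (.lf (.two (.lf 14 0 13 0) (.pot 1))) 
(.y 553 (.lf (.dir (.pot 0))) (.t 52 (.lf (.tipa 14 14 2)) (.lf (.low 2)))))) (.lf (.low 2))) 
(.lf (.low 2))) (.y 556 (.t 56 (.z 255 (.a 249 (.lf (.two (.lm 13 3 14 0 15 16 3) (.pot 0))) 
(.y 553 (.lf (.dir (.pot 0))) (.t 52 (.lf (.tipa 14 15 3)) (.lf (.low 2))))) 
(.lf (.two (.lm 14 3 15 0 16 17 4) (.pot 0)))) (.lf (.low 2))) (.lf (.low 2)))) (.z 252 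
(.lf (.two (.lf 15 0 14 0) (.pot 1))) (.y 556 (.lf (.dir (.pot 0))) (.lf (.low 2))))))) 
(.y 551 (.lf (.dir (.pot 0))) (.t 48 (.z 264 (.a 252 
(.lf (.two (.lm 12 6 13 0 14 16 6) (.pot 0))) (.y 556 (.lf (.dir (.pot 0))) (.t 40 
(.lf (.tipa 13 13 6)) (.a 255 (.lf (.two (.lm 13 3 14 0 15 16 5) (.pot 0))) (.z 261 
(.lf (.two (.lm 13 0 14 0 15 16 3) (.pot 0))) (.lf (.two (.lm 13 3 14 0 15 16 3) (.pot 0)))))))) 
(.lf (.two (.lm 12 6 14 0 15 17 9) (.lf 14 117 0 130)))) (.z 264 (.a 252 (.y 556 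
(.lf (.two (.lm 14 6 16 0 17 20 6) (.lf 16 114 0 131))) (.lf (.low 2))) (.y 556 
(.lf (.dir (.pot 0))) (.lf (.low 2)))) (.lf (.two (.lm 15 6 17 0 19 21 9) (.lf 17 113 0 131))))))) 
(.lf (.dir (.pot 0)))) (.a 258 (.z 258 (.y 573 (.t 48 (.a 252 (.lf (.tipa 13 14 6)) 
(.lf (.tipa 14 14 3))) (.lf (.low 2))) (.t 48 (.lf (.low 2)) (.lf (.low 2)))) (.y 573 (.t 48 
(.z 264 (.a 252 (.y 567 (.t 40 (.lf (.tipa 12 13 9)) (.lf (.low 2))) (.t 40 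
(.lf (.tipa 12 13 9)) (.lf (.low 2)))) (.y 567 (.t 40 (.lf (.tipa 13 13 6)) (.lf (.low 2))) 
(.t 40 (.lf (.tipa 13 13 6)) (.lf (.low 2))))) (.a 252 (.y 567 
(.lf (.two (.lm 12 12 14 0 14 17 6) (.pot 0))) (.t 40 (.lf (.tipa 12 14 12)) (.lf (.low 2)))) 
(.y 567 (.t 40 (.lf (.tipa 13 14 9)) (.lf (.low 2))) (.t 40 (.lf (.tipa 13 14 9)) 
(.lf (.low 2)))))) (.lf (.low 2))) (.t 48 (.lf (.low 2)) (.lf (.low 2))))) (.z 258 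
(.lf (.two (.lf 15 0 13 0) (.pot 1))) (.y 573 (.t 48 (.a 264 (.z 264 (.y 567 (.t 40 
(.lf (.tipa 13 13 3)) (.lf (.low 2))) (.t 40 (.lf (.tipa 13 13 3)) (.lf (.low 2)))) (.y 567 
(.t 40 (.lf (.tipa 13 14 6)) (.lf (.low 2))) (.t 40 (.lf (.tipa 13 14 6)) (.lf (.low 2))))) 
(.z 264 (.lf (.two (.lf 14 0 13 0) (.pot 1))) (.y 567 (.lf (.dir (.pot 0))) (.t 40 
(.lf (.tipa 14 14 3)) (.lf (.low 2)))))) (.lf (.low 2))) (.t 48 (.lf (.low 2)) (.lf (.low 2))))))))) 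
(.lf (.low 2))))) (.lf (.low 2)))

theorem h3 : chk (leafR PP TD1 32 1) c3 32 64 180 270 180 270 540 720 = true := by
  decide +kernel

def c4 : Tree :=
  (.y 630 (.a 225 (.z 315 (.y 585 (.a 202 (.z 292 (.y 562 (.a 191 (.z 281 
(.lf (.two (.lm 3 47 17 32 5 23 11) (.lf 17 114 0 130))) 
(.lf (.two (.lm 3 53 18 37 5 25 11) (.lf 18 113 0 130)))) (.z 281 
(.lf (.two (.lm 5 42 17 26 7 23 11) (.lf 17 114 0 130))) 
(.lf (.two (.lm 5 47 18 32 7 25 11) (.lf 18 113 0 130))))) (.y 573 (.a 191 (.lf .inf) (.z 281 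
(.t 48 (.a 196 (.lf .inf) (.lf (.two (.lm 5 40 15 28 7 18 9) (.lf 15 116 0 131)))) 
(.lf (.low 2))) (.t 48 (.lf (.two (.lm 5 46 16 33 7 20 11) (.lf 16 115 0 131))) (.lf (.low 2))))) 
(.lf .inf))) (.y 562 (.z 303 (.a 191 (.lf (.two (.lm 3 59 19 42 5 26 11) (.lf 19 109 0 128))) 
(.lf (.two (.lm 5 53 19 37 7 26 11) (.lf 19 109 0 128)))) (.a 191 (.y 551 
(.lf (.two (.lm 3 65 20 47 5 27 12) (.lf 20 103 1 122))) 
(.lf (.two (.lm 3 65 20 47 5 27 12) (.lf 20 108 0 128)))) 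
(.lf (.two (.lm 5 59 20 42 7 27 12) (.lf 20 103 0 122))))) (.z 303 (.y 573 (.a 191 (.lf .inf) 
(.t 48 (.lf (.two (.lm 5 51 17 39 7 21 11) (.lf 17 114 0 131))) (.lf (.low 2)))) (.lf .inf)) 
(.y 573 (.a 191 (.lf .inf) (.t 48 (.lf (.two (.lm 5 57 17 44 7 22 12) (.lf 17 113 0 131))) 
(.lf (.low 2)))) (.lf .inf))))) (.z 292 (.y 562 (.a 213 
(.lf (.two (.lm 6 37 17 20 9 25 17) (.lf 17 113 0 130))) 
(.lf (.two (.lm 8 31 17 14 12 25 17) (.lf 17 113 0 130)))) (.a 213 (.y 573 (.z 281 (.t 48 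
(.lf (.two (.lm 6 35 15 22 8 18 11) (.lf 15 116 0 131))) (.lf (.low 2))) (.t 48 
(.lf (.two (.lm 6 40 16 28 8 20 11) (.lf 16 115 0 131))) (.lf (.low 2)))) (.z 281 (.t 48 
(.lf (.low 2)) (.lf (.low 2))) (.t 48 (.lf (.low 2)) (.lf (.low 2))))) (.y 573 (.z 281 (.t 48 
(.a 219 (.lf (.two (.lm 7 31 15 20 9 18 9) (.lf 15 116 0 131))) 
(.lf (.two (.lm 8 28 15 17 10 18 9) (.lf 15 116 0 131)))) (.lf (.low 2))) (.t 48 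
(.lf (.two (.lm 8 34 16 22 10 20 12) (.lf 16 115 0 131))) (.lf (.low 2)))) (.z 281 (.t 48 
(.lf (.low 2)) (.lf (.low 2))) (.t 48 (.lf (.low 2)) (.lf (.low 2))))))) (.y 562 (.a 213 
(.lf (.two (.lm 6 48 20 31 9 28 17) (.lf 20 103 0 122))) 
(.lf (.two (.lm 8 42 20 25 12 28 18) (.lf 20 103 0 122)))) (.a 213 (.z 303 (.y 573 
(.lf (.two (.lm 6 47 19 32 9 26 11) (.lf 19 112 0 131))) (.t 48 (.lf (.low 2)) (.lf (.low 2)))) 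
(.y 573 (.lf (.two (.lm 6 53 20 37 9 27 12) (.lf 20 111 0 131))) (.t 48 (.lf (.low 2)) 
(.lf (.low 2))))) (.z 303 (.y 573 (.lf (.two (.lm 8 41 19 26 12 26 12) (.lf 19 112 0 131))) 
(.t 48 (.lf (.low 2)) (.lf (.low 2)))) (.y 573 
(.lf (.two (.lm 8 47 20 31 12 27 12) (.lf 20 111 0 131))) (.t 48 (.lf (.low 2)) (.lf (.low 2))))))))) 
(.lf (.low 2))) (.y 585 (.a 202 (.z 337 (.y 562 (.a 191 (.z 326 (.y 551 
(.lf (.two (.lm 3 71 21 53 5 28 11) (.lf 21 98 1 116))) 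
(.lf (.two (.lm 3 71 21 53 5 28 11) (.lf 21 102 0 123)))) (.y 551 
(.lf (.two (.lm 3 76 22 59 5 29 11) (.lm 22 92 1 111 29 4 11))) 
(.lf (.two (.lm 3 76 22 59 5 29 11) (.lf 22 97 0 117))))) 
(.lf (.two (.lm 5 65 21 48 7 29 17) (.lf 21 92 0 111)))) (.y 573 (.a 191 (.lf .inf) (.z 326 
(.t 48 (.lf (.two (.lm 5 63 18 50 7 22 11) (.lf 18 109 0 127))) (.lf (.low 2))) (.t 48 
(.lf (.two (.lm 5 69 19 55 7 23 11) (.lf 19 103 0 122))) (.lf (.low 2))))) (.lf .inf))) 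
(.y 562 (.z 348 (.a 191 (.y 551 (.lf (.two (.lm 3 82 22 64 5 30 11) (.lm 22 86 1 106 30 4 11))) 
(.t 48 (.lf (.two (.lm 3 80 19 66 5 23 11) (.lm 19 93 0 110 23 3 11))) 
(.lf (.two (.lm 2 84 25 62 5 29 11) (.lm 25 90 0 113 29 1 11))))) 
(.lf (.two (.lm 5 76 22 59 7 30 11) (.lm 22 86 0 106 30 4 17)))) (.a 191 (.y 551 
(.lf (.two (.lm 3 87 22 70 5 30 12) (.lm 22 80 1 100 30 4 12))) (.t 48 
(.lf (.two (.lm 3 86 19 71 5 23 12) (.lm 19 87 0 104 23 3 12))) 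
(.lf (.two (.lm 2 89 25 68 5 30 12) (.lm 25 83 0 108 30 1 12))))) 
(.lf (.two (.lm 5 81 22 65 7 30 12) (.lm 22 80 0 100 30 4 17))))) (.z 348 (.y 573 (.a 191 
(.lf .inf) (.t 48 (.lf (.two (.lm 5 74 19 61 7 23 11) (.lm 19 98 0 116 23 1 11))) 
(.lf (.low 2)))) (.lf .inf)) (.y 573 (.a 191 (.lf .inf) (.t 48 
(.lf (.two (.lm 5 80 19 66 7 23 12) (.lm 19 92 0 110 23 1 12))) (.lf (.low 2)))) (.lf .inf))))) 
(.z 337 (.y 562 (.lf (.two (.lm 7 53 21 37 12 29 23) (.lf 21 92 0 111))) (.a 213 (.y 573 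
(.lf (.two (.lm 6 59 21 43 9 29 17) (.lf 21 102 0 123))) (.z 326 (.t 48 (.lf (.low 2)) 
(.lf (.low 2))) (.t 48 (.lf (.low 2)) (.lf (.low 2))))) (.y 573 
(.lf (.two (.lm 8 53 21 37 12 29 17) (.lf 21 102 0 123))) (.z 326 (.t 48 (.lf (.low 2)) 
(.lf (.low 2))) (.lf (.two (.lm 8 58 22 43 12 29 12) (.lf 22 107 0 129))))))) (.y 562 
(.lf (.two (.lm 7 64 22 48 12 30 23) (.lm 22 80 0 100 30 4 23))) (.a 213 (.z 348 (.y 573 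
(.lf (.two (.lm 6 70 22 54 9 30 11) (.lf 22 96 0 118))) (.t 48 (.lf (.low 2)) (.lf (.low 2)))) 
(.y 573 (.lf (.two (.lm 6 75 22 60 9 30 12) (.lm 22 90 0 112 30 2 12))) (.t 48 (.lf (.low 2)) 
(.lf (.low 2))))) (.z 348 (.lf (.two (.lm 8 63 22 49 12 30 12) (.lf 22 96 0 118))) 
(.lf (.two (.lm 8 69 22 54 12 30 12) (.lf 22 90 0 112)))))))) (.lf (.low 2)))) (.z 315 (.y 585 
(.a 247 (.z 292 (.y 562 (.a 236 (.lf (.two (.lm 10 26 17 8 14 25 17) (.lf 17 113 0 130))) 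
(.lf (.two (.lm 12 22 17 1 16 25 17) (.lf 17 113 0 130)))) (.y 573 (.a 236 (.z 281 (.t 48 
(.a 230 (.lf (.two (.lm 9 26 15 14 11 18 8) (.lf 15 116 0 131))) 
(.lf (.two (.lm 10 23 15 11 12 18 9) (.lf 15 116 0 131)))) (.lf (.low 2))) 
(.lf (.two (.lm 10 30 18 15 14 25 11) (.lf 18 113 0 131)))) (.z 281 (.t 48 (.a 241 
(.lf (.two (.lm 10 21 15 8 13 18 8) (.lf 15 116 0 131))) 
(.lf (.two (.lm 11 18 15 5 14 18 9) (.lf 15 116 0 131)))) (.lf (.low 2))) 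
(.lf (.two (.lm 12 25 18 9 16 25 11) (.lf 18 113 0 131))))) (.a 236 (.z 281 (.t 48 
(.lf (.low 2)) (.lf (.low 2))) (.t 48 (.lf (.low 2)) (.lf (.low 2)))) (.z 281 (.t 48 
(.lf (.low 2)) (.lf (.low 2))) (.t 48 (.lf (.low 2)) (.lf (.low 2))))))) (.y 562 
(.lf (.two (.lm 11 31 20 14 17 28 23) (.lf 20 103 0 122))) (.z 303 (.y 573 
(.lf (.two (.lm 11 31 19 14 17 26 17) (.lf 19 112 0 131))) (.a 236 (.t 48 (.lf (.low 2)) 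
(.lf (.low 2))) (.t 48 (.lf (.low 2)) (.lf (.low 2))))) (.y 573 
(.lf (.two (.lm 11 36 20 20 17 27 17) (.lf 20 111 0 131))) (.a 236 
(.lf (.two (.lm 10 41 20 26 14 27 12) (.lf 20 111 0 131))) 
(.lf (.two (.lm 12 35 20 21 16 27 12) (.lf 20 111 0 131)))))))) (.z 292 (.y 562 (.a 258 
(.lf (.two (.lm 13 12 17 0 19 25 17) (.lf 17 113 0 130))) (.lf (.dir (.pot 0)))) (.a 258 
(.y 573 (.z 281 (.t 48 (.a 252 (.lf (.two (.lm 12 16 15 2 14 18 8) (.lf 15 116 0 131))) 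
(.lf (.two (.lm 12 12 15 0 15 18 9) (.lf 15 116 0 131)))) (.lf (.low 2))) 
(.lf (.two (.lm 13 20 18 3 19 25 11) (.lf 18 113 0 131)))) (.z 281 (.t 48 (.lf (.low 2)) 
(.lf (.low 2))) (.t 48 (.lf (.low 2)) (.lf (.low 2))))) (.y 573 (.z 281 (.t 48 (.a 264 
(.lf (.two (.lm 13 6 15 0 16 18 9) (.lf 15 116 0 131))) (.z 275 (.y 567 (.lf (.dir (.pot 0))) 
(.lf (.two (.lm 14 0 14 0 17 18 6) (.lf 14 116 0 131)))) 
(.lf (.two (.lm 14 5 15 0 17 18 6) (.lf 15 116 0 131))))) (.lf (.low 2))) 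
(.lf (.two (.lm 15 11 18 0 21 25 12) (.lf 18 113 0 131)))) (.z 281 (.t 48 (.lf (.low 2)) 
(.lf (.low 2))) (.t 48 (.lf (.low 2)) (.lf (.low 2))))))) (.y 562 
(.lf (.two (.lm 14 22 20 0 21 28 23) (.lf 20 103 0 122))) (.a 258 
(.lf (.two (.lm 13 25 20 9 19 28 17) (.lf 20 111 0 131))) 
(.lf (.two (.lm 15 20 20 2 21 28 18) (.lf 20 111 0 131))))))) (.lf (.low 2))) (.y 585 (.a 247 
(.z 337 (.y 562 (.lf (.two (.lm 11 42 21 26 17 29 22) (.lf 21 92 0 111))) (.y 573 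
(.lf (.two (.lm 11 42 21 26 17 29 22) (.lf 21 102 0 123))) (.a 236 
(.lf (.two (.lm 10 47 21 32 14 29 17) (.lf 21 107 0 129))) 
(.lf (.two (.lm 12 41 21 27 16 29 17) (.lf 21 107 0 129)))))) (.y 562 
(.lf (.two (.lm 11 52 22 38 17 30 23) (.lm 22 80 0 100 30 4 23))) 
(.lf (.two (.lm 11 52 22 38 17 30 23) (.lf 22 91 0 111))))) (.z 337 
(.lf (.two (.lm 14 30 21 15 21 29 23) (.lf 21 91 0 112))) 
(.lf (.two (.lm 14 39 22 28 21 30 23) (.lf 22 80 0 100))))) (.lf (.low 2))))) (.lf (.low 2)))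

theorem h4 : chk (leafR PP TD1 32 1) c4 32 64 180 270 270 360 540 720 = true := by
  decide +kernel

def c5 : Tree :=
  (.z 270 (.lf (.two (.lf 21 0 9 0) (.pot 1))) (.y 630 (.a 315 (.z 315 (.y 585 (.a 292 (.z 292 
(.y 562 (.lf (.dir (.lf 17 113 0 130))) (.y 573 (.lf (.dir (.pot 0))) (.a 281 (.z 281 (.t 48 
(.lf (.low 2)) (.lf (.low 2))) (.t 48 (.lf (.low 2)) (.lf (.low 2)))) (.lf (.dir (.pot 0)))))) 
(.y 562 (.lf (.dir (.lf 17 113 0 130))) (.z 303 (.y 573 (.lf (.dir (.pot 0))) (.a 281 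
(.lf (.two (.lm 17 11 19 0 23 26 11) (.lf 19 112 0 131))) (.lf (.dir (.pot 0))))) 
(.lf (.two (.lm 17 11 20 0 25 27 17) (.lf 20 111 0 131)))))) (.lf (.dir (.lf 20 103 0 122)))) 
(.lf (.low 2))) (.y 585 (.a 292 (.lf (.two (.lm 17 21 22 2 25 30 34) (.lf 22 80 0 100))) 
(.lf (.dir (.lf 20 103 0 122)))) (.lf (.low 2)))) (.z 315 (.y 585 
(.lf (.dir (.lf 22 80 0 100))) (.lf (.low 2))) (.y 585 (.lf (.dir (.lf 22 80 0 100))) 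
(.lf (.low 2))))) (.lf (.low 2))))

theorem h5 : chk (leafR PP TD1 32 1) c5 32 64 270 360 180 360 540 720 = true := by
  decide +kernel

def c6 : Tree :=
  (.lf (.low 0))

theorem h6 : chk (leafR PP TD1 32 1) c6 32 64 0 90 360 540 360 540 = true := by
  decide +kernel

def c7 : Tree :=
  (.y 450 (.a 135 (.lf (.low 0)) (.z 405 (.y 405 (.lf (.dir (.lf 0 100 22 80))) (.a 157 
(.z 382 (.lf (.two (.lf 0 112 22 91) (.lm 22 4 19 19 30 28 34))) (.y 427 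
(.lf (.dir (.lf 0 131 20 111))) (.lf (.two (.lf 0 123 21 102) (.lm 21 2 17 20 29 25 23))))) 
(.lf (.dir (.lf 0 121 19 104))))) (.y 405 (.lf (.dir (.lf 0 100 22 80))) (.a 157 (.z 427 
(.y 427 (.lf (.dir (.lf 0 131 20 111))) (.y 438 (.lf (.dir (.pot 0))) 
(.lf (.two (.lf 0 131 20 111) (.lm 20 0 17 11 28 23 17))))) (.y 427 
(.lf (.dir (.lf 0 131 20 111))) (.z 438 (.y 438 (.lf (.dir (.pot 0))) (.a 146 (.lf (.low 0)) 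
(.lf (.dir (.pot 0))))) (.y 438 (.lf (.dir (.pot 0))) (.a 146 (.lf (.low 0)) 
(.lf (.dir (.pot 0)))))))) (.lf (.dir (.lf 0 121 19 104))))))) (.a 135 (.lf (.low 0)) (.z 405 
(.y 495 (.a 157 (.z 382 (.y 472 (.lf (.two (.lf 0 112 22 91) (.lm 22 28 14 40 30 21 22))) 
(.lf (.two (.lf 0 112 22 91) (.lm 22 38 11 52 30 17 23)))) (.y 472 
(.lf (.two (.lf 0 123 21 102) (.lm 21 15 14 30 29 21 23))) (.z 393 
(.lf (.two (.lf 0 123 22 102) (.lm 22 33 11 46 29 17 17))) (.y 483 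
(.lf (.two (.lf 0 128 21 108) (.lm 21 27 12 40 28 17 12))) 
(.lf (.two (.lf 0 128 21 108) (.lm 21 32 10 46 28 14 12))))))) (.z 382 
(.lf (.two (.lm 0 100 22 80 4 30 23) (.lm 22 27 13 41 30 21 34))) (.y 472 
(.lf (.two (.lf 0 111 21 91) (.lm 21 15 14 30 29 21 23))) 
(.lf (.two (.lf 0 111 21 91) (.lm 21 26 11 41 29 17 23)))))) (.a 157 (.z 382 (.y 517 (.a 146 
(.lf (.low 0)) (.z 371 (.lf (.two (.lm 0 112 22 91 2 30 11) (.lm 22 55 7 69 30 12 17))) 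
(.lf (.two (.lf 0 118 22 96) (.lm 22 49 7 64 30 12 17))))) (.y 528 (.a 146 (.lf .inf) (.z 371 
(.t 48 (.lf (.two (.lm 0 110 19 93 1 23 11) (.lm 19 66 5 80 23 7 11))) (.lf (.low 0))) (.t 48 
(.lf (.two (.lm 0 116 19 98 1 23 11) (.lm 19 61 5 74 23 7 11))) (.lf (.low 0))))) (.lf .inf))) 
(.y 517 (.z 393 (.a 146 (.lf (.low 0)) 
(.lf (.two (.lf 0 123 22 102) (.lm 22 43 7 59 29 12 17)))) (.a 146 (.lf (.low 0)) (.y 506 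
(.lf (.two (.lf 0 128 21 108) (.lm 21 38 8 52 28 12 12))) 
(.lf (.two (.lf 0 128 21 108) (.lm 21 43 7 58 28 9 12)))))) (.z 393 (.y 528 (.a 146 (.lf .inf) 
(.t 48 (.lf (.two (.lf 0 122 19 103) (.lm 19 55 5 69 23 7 11))) (.lf (.low 0)))) (.lf .inf)) 
(.y 528 (.a 146 (.lf .inf) (.t 48 (.lf (.two (.lf 0 127 18 109) (.lm 18 49 5 63 22 7 12))) 
(.lf (.low 0)))) (.lf .inf))))) (.z 382 (.y 517 
(.lf (.two (.lm 0 100 22 80 4 30 23) (.lm 22 49 7 64 30 12 22))) (.a 168 (.y 528 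
(.lf (.two (.lm 0 106 22 86 3 30 17) (.lm 22 59 5 76 30 7 17))) (.z 371 (.t 48 
(.lf (.two (.lm 0 105 19 87 3 23 11) (.lm 19 71 3 86 23 5 12))) 
(.lf (.two (.lm 0 108 25 84 1 30 11) (.lm 25 68 2 89 30 5 12)))) (.t 48 
(.lf (.two (.lm 0 110 19 93 3 23 11) (.lm 19 66 3 80 23 5 12))) 
(.lf (.two (.lm 0 114 25 89 1 29 11) (.lm 25 62 2 84 29 5 12)))))) 
(.lf (.two (.lm 1 100 22 80 4 30 17) (.lm 22 59 4 76 30 7 23))))) (.y 517 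
(.lf (.two (.lf 0 111 21 91) (.lm 21 37 7 53 29 12 23))) (.a 168 (.z 393 (.y 528 
(.lf (.two (.lf 0 117 22 97) (.lm 22 54 5 70 29 7 11))) (.t 48 
(.lf (.two (.lf 0 116 19 98) (.lm 19 60 3 75 23 5 12))) 
(.lf (.two (.lf 0 119 25 95) (.lm 25 57 2 78 29 5 12))))) (.y 528 
(.lf (.two (.lf 0 123 21 102) (.lm 21 48 5 64 28 7 12))) (.t 48 
(.lf (.two (.lf 0 121 18 104) (.lm 18 54 3 69 22 5 12))) 
(.lf (.two (.lf 0 124 24 101) (.lm 24 51 2 72 28 5 12)))))) (.z 393 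
(.lf (.two (.lm 1 111 22 91 4 29 12) (.lm 22 53 4 71 29 7 17))) 
(.lf (.two (.lf 1 116 21 97) (.lm 21 47 4 65 28 7 18))))))))) (.y 495 (.a 157 (.z 427 (.y 472 
(.a 146 (.lf (.low 0)) (.lf (.two (.lf 0 131 20 111) (.lm 20 1 14 22 28 21 22)))) (.y 483 
(.a 146 (.lf (.low 0)) (.lf (.two (.lf 0 131 20 111) (.lm 20 15 12 30 28 17 17)))) (.a 146 
(.lf (.low 0)) (.lf (.two (.lf 0 131 20 111) (.lm 20 20 10 36 28 14 17)))))) (.y 472 (.z 438 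
(.a 146 (.lf (.low 0)) (.y 461 (.lf (.two (.lf 0 131 18 113) (.lm 18 0 15 12 25 21 11))) 
(.lf (.two (.lf 0 131 18 113) (.lm 18 3 14 20 25 19 11))))) (.a 146 (.lf (.low 0)) (.y 461 
(.t 48 (.z 444 (.lf (.two (.lf 0 131 15 116) (.lm 15 0 13 6 18 17 9))) (.a 151 (.y 455 (.t 40 
(.lf (.tipb 15 14 6)) (.lf (.low 0))) (.t 40 (.lf (.tipb 15 13 9)) (.lf (.low 0)))) 
(.lf (.two (.lf 0 131 14 116) (.lm 14 0 13 0 18 17 9))))) (.lf (.low 0))) (.t 48 (.z 444 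
(.lf (.two (.lf 0 131 15 116) (.lm 15 2 12 15 18 16 9))) (.a 151 (.y 466 (.t 40 
(.lf (.tipb 15 13 11)) (.lf (.low 0))) (.t 40 (.lf (.tipb 15 12 14)) (.lf (.low 0)))) 
(.lf (.two (.lf 0 131 14 116) (.lm 14 0 12 11 18 16 9))))) (.lf (.low 0)))))) (.z 438 (.y 483 
(.a 146 (.lf (.low 0)) (.lf (.two (.lf 0 131 18 113) (.lm 18 9 12 25 25 17 11)))) (.a 146 
(.lf (.low 0)) (.lf (.two (.lf 0 131 18 113) (.lm 18 15 10 30 25 14 12))))) (.y 483 (.a 146 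
(.lf (.low 0)) (.t 48 (.z 444 (.lf (.two (.lf 0 131 15 116) (.lm 15 8 11 20 18 14 9))) (.a 151 
(.y 477 (.lf (.two (.lf 0 131 14 116) (.lm 14 5 11 17 18 14 6))) 
(.lf (.two (.lf 0 131 14 116) (.lm 14 8 10 19 18 13 6)))) 
(.lf (.two (.lf 0 131 14 116) (.lm 14 4 11 18 18 14 9))))) (.lf (.low 0)))) (.a 146 
(.lf (.low 0)) (.t 48 (.z 444 (.lf (.two (.lf 0 131 15 116) (.lm 15 13 9 26 18 12 9))) (.y 489 
(.lf (.two (.lf 0 131 14 116) (.lm 14 11 10 22 18 12 6))) 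
(.lf (.two (.lf 0 131 14 116) (.lm 14 14 9 25 18 11 6))))) (.lf (.low 0)))))))) (.z 427 
(.y 472 (.lf (.two (.lf 0 122 20 103) (.lm 20 1 14 22 28 21 22))) 
(.lf (.two (.lf 0 122 20 103) (.lm 20 14 11 31 28 17 23)))) (.y 472 (.a 168 (.z 438 
(.lf (.two (.lf 0 131 18 113) (.lm 18 0 14 12 25 21 17))) (.y 461 (.lf (.dir (.pot 0))) 
(.lf (.two (.lf 0 131 17 114) (.lm 17 0 14 11 23 19 12))))) (.lf (.dir (.pot 0)))) (.a 168 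
(.z 438 (.lf (.two (.lf 0 131 18 113) (.lm 18 8 11 26 25 17 17))) (.y 483 
(.lf (.two (.lf 0 131 17 114) (.lm 17 2 12 20 23 17 12))) 
(.lf (.two (.lf 0 131 17 114) (.lm 17 8 10 25 23 14 12))))) 
(.lf (.two (.lf 1 130 17 113) (.lm 17 0 11 22 25 17 23))))))) (.a 157 (.z 427 (.y 517 (.a 146 
(.lf (.low 0)) (.z 416 (.y 506 (.lf (.two (.lf 0 131 20 111) (.lm 20 32 8 47 27 12 11))) 
(.lf (.two (.lf 0 131 20 111) (.lm 20 37 7 53 27 9 11)))) (.y 506 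
(.lf (.two (.lf 0 131 19 112) (.lm 19 26 8 42 26 12 11))) 
(.lf (.two (.lf 0 131 19 112) (.lm 19 32 7 47 26 9 11)))))) (.y 528 (.a 146 (.lf .inf) (.z 416 
(.t 48 (.lf (.two (.lf 0 131 17 113) (.lm 17 44 5 57 22 7 11))) (.lf (.low 0))) (.t 48 
(.lf (.two (.lf 0 131 17 114) (.lm 17 39 5 51 21 7 11))) (.lf (.low 0))))) (.lf .inf))) 
(.y 517 (.z 438 (.a 146 (.lf (.low 0)) (.y 506 (.t 48 
(.lf (.two (.lf 0 131 16 115) (.lm 16 22 8 35 20 10 11))) (.lf (.low 0))) (.t 48 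
(.lf (.two (.lf 0 131 16 115) (.lm 16 28 6 40 20 9 11))) (.lf (.low 0))))) (.a 146 
(.lf (.low 0)) (.y 506 (.t 48 (.z 444 (.lf (.two (.lf 0 131 15 116) (.lm 15 20 8 31 18 10 9))) 
(.a 151 (.y 500 (.lf (.two (.lf 0 131 14 116) (.lm 14 17 8 28 18 10 6))) 
(.lf (.two (.lf 0 131 14 116) (.lm 14 19 7 31 18 9 6)))) 
(.lf (.two (.lf 0 131 14 116) (.lm 14 16 8 29 18 10 9))))) (.lf (.low 0))) (.t 48 (.z 444 
(.lf (.two (.lf 0 131 15 116) (.lm 15 25 6 37 18 9 9))) (.a 151 (.y 511 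
(.lf (.two (.lf 0 131 14 116) (.lm 14 22 7 34 18 8 6))) 
(.lf (.two (.lf 0 131 14 116) (.lm 14 25 6 36 18 8 6)))) 
(.lf (.two (.lf 0 131 14 116) (.lm 14 22 6 34 18 9 9))))) (.lf (.low 0)))))) (.z 438 (.y 528 
(.a 146 (.lf .inf) (.t 48 (.lf (.two (.lf 0 131 16 115) (.lm 16 33 5 46 20 7 11))) 
(.lf (.low 0)))) (.lf .inf)) (.y 528 (.a 146 (.lf .inf) (.t 48 (.z 444 
(.lf (.two (.lf 0 131 15 116) (.lm 15 30 5 43 18 7 9))) (.a 151 (.lf .inf) 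
(.lf (.two (.lf 0 131 14 116) (.lm 14 27 5 40 18 7 9))))) (.lf (.low 0)))) (.lf .inf))))) 
(.z 427 (.y 517 (.a 168 (.lf (.two (.lf 0 128 20 109) (.lm 20 25 7 43 28 12 22))) 
(.lf (.two (.lf 1 121 20 104) (.lm 20 25 7 43 28 12 22)))) (.a 168 (.y 528 
(.lf (.two (.lf 0 128 20 109) (.lm 20 37 5 53 28 7 17))) (.z 416 (.t 48 
(.lf (.two (.lf 0 127 17 110) (.lm 17 49 3 63 22 5 12))) 
(.lf (.two (.lf 0 130 23 107) (.lm 23 46 2 66 27 5 12)))) 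
(.lf (.two (.lf 0 131 19 112) (.lm 19 42 3 59 26 5 12))))) (.y 528 
(.lf (.two (.lf 1 121 20 104) (.lm 20 37 5 53 28 7 17))) 
(.lf (.two (.lf 1 121 20 104) (.lm 20 42 3 59 28 5 17)))))) (.y 517 (.a 168 (.z 438 
(.lf (.two (.lf 0 131 18 113) (.lm 18 20 7 37 25 12 17))) (.y 506 
(.lf (.two (.lf 0 131 17 114) (.lm 17 15 8 30 23 12 12))) 
(.lf (.two (.lf 0 131 17 114) (.lm 17 20 7 36 23 9 12))))) 
(.lf (.two (.lf 1 130 17 113) (.lm 17 13 7 32 25 12 23)))) (.a 168 (.z 438 (.y 528 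
(.lf (.two (.lf 0 131 18 113) (.lm 18 32 5 47 25 7 11))) 
(.lf (.two (.lf 0 131 18 113) (.lm 18 37 3 53 25 5 12)))) (.y 528 
(.lf (.two (.lf 0 131 17 114) (.lm 17 26 5 41 23 7 12))) 
(.lf (.two (.lf 0 131 17 114) (.lm 17 31 3 47 23 5 12))))) (.z 438 
(.lf (.two (.lf 1 130 18 113) (.lm 18 31 4 48 25 7 17))) 
(.lf (.two (.lf 1 130 17 114) (.lm 17 25 4 42 23 7 18))))))))))))

theorem h7 : chk (leafR PP TD1 32 1) c7 32 64 90 180 360 450 360 540 = true := by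
  decide +kernel

def c8 : Tree :=
  (.y 450 (.lf (.two (.pot 1) (.lf 9 0 21 0))) (.a 135 (.lf (.low 0)) (.z 495 (.y 495 (.a 157 
(.z 472 (.y 472 (.a 146 (.lf (.low 0)) (.z 461 (.y 461 (.t 48 (.a 151 (.z 455 (.y 455 (.t 40 
(.lf (.tipb 14 14 3)) (.lf (.low 0))) (.t 40 (.lf (.tipb 14 13 6)) (.lf (.low 0)))) (.y 455 
(.lf (.two (.pot 1) (.lf 13 0 14 0))) (.t 40 (.lf (.tipb 13 13 3)) (.lf (.low 0))))) (.z 455 
(.y 455 (.lf (.dir (.pot 0))) (.t 40 (.lf (.tipb 14 13 6)) (.lf (.low 0)))) (.y 455 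
(.lf (.dir (.pot 0))) (.t 40 (.lf (.tipb 13 13 3)) (.lf (.low 0)))))) (.lf (.low 0))) (.t 48 
(.a 151 (.z 455 (.y 466 (.t 40 (.lf (.tipb 14 13 8)) (.lf (.low 0))) (.t 40 
(.lf (.tipb 14 12 11)) (.lf (.low 0)))) (.y 466 (.t 40 (.lf (.tipb 13 13 6)) (.lf (.low 0))) 
(.t 40 (.lf (.tipb 13 12 9)) (.lf (.low 0))))) (.z 455 (.y 466 (.t 40 (.lf (.tipb 14 13 8)) 
(.lf (.low 0))) (.t 40 (.lf (.tipb 14 12 11)) (.lf (.low 0)))) (.y 466 (.t 40 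
(.lf (.tipb 13 13 6)) (.lf (.low 0))) (.t 40 (.lf (.tipb 13 12 9)) (.lf (.low 0)))))) 
(.lf (.low 0)))) (.y 461 (.lf (.two (.pot 1) (.lf 14 0 15 0))) (.t 48 (.a 151 (.z 466 (.y 466 
(.t 40 (.lf (.tipb 13 13 3)) (.lf (.low 0))) (.lf (.tipb 14 14 6))) (.lf (.tipb 14 15 3))) 
(.z 466 (.y 466 (.t 40 (.lf (.tipb 13 13 3)) (.lf (.low 0))) (.lf (.tipb 14 14 6))) 
(.lf (.tipb 14 15 3)))) (.lf (.low 0)))))) (.y 483 (.a 146 (.lf (.low 0)) (.z 461 (.t 48 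
(.a 151 (.z 455 (.y 477 (.t 40 (.lf (.tipb 14 11 14)) (.lf (.low 0))) (.t 40 
(.lf (.tipb 14 11 17)) (.lf (.low 0)))) (.y 477 (.lf (.two (.pot 1) (.lm 13 0 11 11 16 14 6))) 
(.lf (.tipb 15 12 14)))) (.z 455 (.y 477 (.lf (.two (.pot 0) (.lm 14 2 11 15 17 14 5))) 
(.lf (.two (.pot 0) (.lm 14 5 10 17 17 13 6)))) (.y 477 
(.lf (.two (.pot 0) (.lm 13 0 11 11 16 14 6))) (.lf (.tipb 15 12 14))))) (.lf (.low 0))) 
(.t 48 (.lf (.tipb 15 13 11)) (.lf (.low 0))))) (.a 146 (.lf (.low 0)) (.z 461 (.t 48 (.y 489 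
(.a 151 (.z 455 (.t 40 (.lf (.tipb 14 10 20)) (.lf (.low 0))) (.lf (.tipb 15 11 17))) (.z 455 
(.lf (.two (.pot 0) (.lm 14 8 10 20 17 12 6))) (.lf (.tipb 15 11 17)))) (.a 151 (.z 455 
(.lf (.two (.pot 0) (.lm 14 11 9 23 17 11 6))) (.lf (.tipb 15 10 20))) (.z 455 
(.lf (.two (.pot 0) (.lm 14 11 9 23 17 11 6))) (.lf (.tipb 15 10 20))))) (.lf (.low 0))) 
(.t 48 (.lf (.tipb 15 11 17)) (.lf (.low 0))))))) (.y 472 (.lf (.two (.pot 1) (.lf 11 0 14 0))) 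
(.z 483 (.y 483 (.a 146 (.lf (.low 0)) (.t 48 (.lf (.tipb 13 13 6)) (.lf (.low 0)))) (.a 146 
(.lf (.low 0)) (.t 48 (.lf (.tipb 13 11 12)) (.lf (.low 0))))) (.y 483 
(.lf (.two (.pot 1) (.lf 10 0 12 0))) (.lf (.tipb 13 13 6)))))) (.z 472 (.y 472 (.a 168 
(.z 461 (.y 461 (.lf (.dir (.pot 0))) (.t 48 (.a 162 (.z 455 
(.lf (.two (.lf 0 131 14 117) (.lm 14 0 12 6 17 16 8))) (.y 466 (.t 40 (.lf (.tipb 13 13 6)) 
(.z 458 (.lf (.two (.pot 0) (.lm 14 0 13 3 16 15 4))) (.a 159 (.y 463 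
(.lf (.two (.pot 0) (.lm 14 0 13 0 16 15 3))) (.lf (.two (.pot 0) (.lm 14 0 13 2 16 15 3)))) 
(.lf (.two (.pot 0) (.lm 14 0 13 0 16 15 4)))))) (.lf (.two (.pot 0) (.lm 13 0 12 5 16 15 6))))) 
(.z 455 (.lf (.two (.lf 0 130 14 117) (.lm 14 0 12 6 17 16 8))) 
(.lf (.two (.lf 0 130 13 118) (.lm 13 0 12 0 16 16 9))))) (.a 162 (.lf (.low 0)) (.z 455 
(.lf (.two (.lf 0 131 17 113) (.lm 17 0 15 6 21 19 8))) (.y 466 (.lf (.dir (.pot 0))) 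
(.lf (.two (.lf 0 131 17 114) (.lm 17 0 15 5 20 18 6)))))))) (.y 461 (.lf (.dir (.pot 0))) 
(.t 48 (.a 162 (.z 466 (.y 466 (.t 40 (.lf (.tipb 13 13 3)) (.lf (.tipb 14 14 3))) 
(.lf (.tipb 14 14 6))) (.lf (.tipb 14 15 3))) (.z 466 (.y 466 (.lf (.dir (.pot 0))) 
(.lf (.tipb 14 14 6))) (.lf (.tipb 14 15 3)))) (.a 162 (.lf (.low 0)) (.z 466 (.y 466 
(.lf (.dir (.pot 0))) (.t 56 (.a 165 (.lf (.low 0)) (.y 469 (.lf (.dir (.pot 0))) 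
(.lf (.two (.pot 0) (.lm 15 0 14 3 17 16 4))))) (.lf (.low 0)))) (.y 466 (.lf (.dir (.pot 0))) 
(.t 56 (.a 165 (.lf (.low 0)) (.z 469 (.y 469 (.lf (.dir (.pot 0))) (.t 52 
(.lf (.tipb 14 14 3)) (.lf (.low 0)))) (.y 469 (.lf (.dir (.pot 0))) (.t 52 
(.lf (.tipb 14 14 2)) (.lf (.low 0)))))) (.lf (.low 0))))))))) (.lf (.dir (.pot 0)))) (.a 168 
(.y 483 (.z 461 (.t 48 (.a 162 (.z 455 (.lf (.two (.pot 0) (.lm 14 1 11 16 17 14 8))) 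
(.lf (.two (.pot 0) (.lm 13 0 11 11 16 14 9)))) 
(.lf (.two (.lf 0 130 13 117) (.lm 13 0 11 11 17 14 11)))) (.a 162 (.lf (.low 0)) (.z 455 
(.lf (.two (.lf 0 131 17 113) (.lm 17 0 13 17 21 16 8))) (.y 477 
(.lf (.two (.lf 0 131 17 114) (.lm 17 0 14 11 20 16 6))) 
(.lf (.two (.lf 0 131 17 114) (.lm 17 0 13 16 20 15 6))))))) (.t 48 (.lf (.tipb 15 13 11)) 
(.a 162 (.lf (.low 0)) (.z 466 (.y 477 (.t 56 (.a 165 (.lf (.low 0)) 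
(.lf (.two (.pot 0) (.lm 15 0 13 6 17 15 5)))) (.lf (.low 0))) (.t 56 
(.lf (.two (.pot 0) (.lm 15 0 12 11 17 14 6))) (.lf (.low 0)))) (.y 477 (.t 56 (.a 165 
(.lf (.low 0)) (.z 469 (.lf (.two (.pot 0) (.lm 14 0 13 3 16 15 4))) (.y 474 
(.lf (.tipb 15 14 3)) (.lf (.tipb 15 14 4))))) (.lf (.low 0))) (.t 56 
(.lf (.two (.pot 1) (.lm 14 0 12 5 16 14 6))) (.lf (.low 0)))))))) (.z 461 (.t 48 (.y 489 
(.lf (.two (.pot 0) (.lm 13 4 10 18 17 12 9))) (.lf (.two (.pot 0) (.lm 13 8 9 20 17 11 9)))) 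
(.y 489 (.a 162 (.lf (.low 0)) (.lf (.two (.lf 0 131 17 114) (.lm 17 1 12 21 21 14 9)))) 
(.a 162 (.lf (.low 0)) (.lf (.two (.lf 0 131 17 114) (.lm 17 4 10 24 21 13 9)))))) (.t 48 
(.lf (.tipb 15 11 17)) (.y 489 (.a 162 (.lf (.low 0)) (.z 466 (.t 56 
(.lf (.two (.pot 0) (.lm 15 0 11 17 17 13 6))) (.lf (.low 0))) (.t 56 (.lf (.tipb 15 12 12)) 
(.lf (.low 0))))) (.a 162 (.lf (.low 0)) (.z 466 (.lf (.two (.pot 0) (.lm 16 2 10 21 19 13 6))) 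
(.lf (.two (.pot 0) (.lm 15 0 10 17 18 13 6))))))))) (.y 483 (.z 461 
(.lf (.two (.lf 1 130 15 116) (.lm 15 0 12 11 21 17 11))) (.t 48 (.lf (.tipb 15 13 11)) 
(.a 174 (.z 466 (.y 477 (.lf (.two (.lf 0 131 16 115) (.lm 16 0 14 6 19 16 5))) 
(.lf (.two (.lf 0 131 16 115) (.lm 16 0 13 11 19 15 6)))) (.y 477 (.t 56 (.a 171 (.z 469 
(.lf (.two (.pot 0) (.lm 14 0 13 3 16 15 4))) (.y 474 (.lf (.tipb 15 14 3)) 
(.lf (.tipb 15 14 4)))) (.lf (.two (.pot 0) (.lm 14 0 13 0 16 15 6)))) (.a 171 (.lf (.low 0)) 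
(.z 469 (.lf (.two (.pot 0) (.lm 16 0 14 3 18 16 4))) 
(.lf (.two (.pot 0) (.lm 15 0 14 0 17 16 4)))))) (.t 56 
(.lf (.two (.pot 0) (.lm 14 0 12 5 16 14 6))) (.a 171 (.lf (.low 0)) (.z 469 
(.lf (.two (.pot 0) (.lm 16 0 13 8 18 15 5))) (.lf (.two (.pot 0) (.lm 15 0 13 5 17 15 5)))))))) 
(.z 466 (.lf (.two (.lf 1 130 16 115) (.lm 16 0 13 6 19 16 8))) (.y 477 (.lf (.dir (.pot 0))) 
(.lf (.two (.pot 0) (.lm 15 0 13 5 18 15 6)))))))) (.z 461 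
(.lf (.two (.lf 1 130 15 116) (.lm 15 2 10 20 21 14 12))) (.t 48 (.lf (.tipb 15 11 17)) 
(.a 174 (.y 489 (.z 466 (.lf (.two (.pot 0) (.lm 16 0 12 17 19 14 6))) 
(.lf (.two (.pot 0) (.lm 15 0 12 11 18 14 6)))) (.z 466 
(.lf (.two (.pot 0) (.lm 16 2 10 21 19 13 6))) (.lf (.two (.pot 0) (.lm 15 0 10 17 18 13 6))))) 
(.y 489 (.z 466 (.lf (.two (.pot 0) (.lm 16 0 12 17 19 14 6))) 
(.lf (.two (.pot 0) (.lm 15 0 12 11 18 14 6)))) (.lf (.two (.pot 0) (.lm 15 0 10 17 19 13 9)))))))))) 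
(.y 472 (.lf (.two (.pot 1) (.lf 11 0 14 0))) (.a 168 (.z 483 (.y 483 (.t 48 
(.lf (.tipb 13 13 6)) (.a 162 (.lf (.low 0)) (.z 477 (.y 477 (.t 56 (.lf (.tipb 14 14 3)) 
(.lf (.low 0))) (.t 56 (.lf (.tipb 14 13 6)) (.lf (.low 0)))) (.y 477 
(.lf (.two (.pot 1) (.lf 13 0 14 0))) (.lf (.tipb 14 14 3)))))) (.t 48 (.lf (.tipb 13 11 12)) 
(.y 489 (.a 162 (.lf (.low 0)) (.z 477 (.lf (.two (.pot 1) (.lm 14 0 12 6 16 14 6))) 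
(.lf (.tipb 14 13 6)))) (.lf (.tipb 15 12 12))))) (.y 483 (.lf (.two (.pot 1) (.lf 10 0 12 0))) 
(.lf (.tipb 13 13 6)))) (.z 483 (.y 483 (.t 48 (.lf (.tipb 13 13 6)) (.a 174 (.z 477 (.y 477 
(.t 56 (.lf (.tipb 14 14 3)) (.a 171 (.lf (.low 0)) (.z 474 
(.lf (.two (.pot 0) (.lm 15 0 14 0 16 16 3))) (.y 474 (.lf (.dir (.pot 0))) (.t 60 
(.lf (.tipb 14 14 2)) (.a 172 (.lf (.low 0)) (.lf (.dir (.pot 0))))))))) (.t 56 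
(.lf (.tipb 14 13 6)) (.a 171 (.lf (.low 0)) (.y 480 (.z 474 
(.lf (.two (.pot 0) (.lm 15 0 14 3 16 15 3))) (.t 60 (.lf (.tipb 14 14 3)) (.a 172 
(.lf (.low 0)) (.z 475 (.lf (.two (.pot 0) (.lm 15 0 14 2 16 15 2))) (.y 478 (.t 62 
(.lf (.tipb 14 14 2)) (.lf (.low 0))) (.t 62 (.lf (.tipb 14 14 3)) (.lf (.low 0)))))))) 
(.z 474 (.lf (.two (.pot 0) (.lm 15 0 13 6 16 15 3))) (.lf (.tipb 15 14 5))))))) (.y 477 
(.lf (.two (.pot 1) (.lf 13 0 14 0))) (.lf (.tipb 14 14 3)))) (.z 477 (.y 477 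
(.lf (.dir (.pot 0))) (.t 56 (.lf (.tipb 14 13 6)) (.a 177 (.y 480 
(.lf (.two (.pot 0) (.lm 14 0 14 0 16 15 4))) (.lf (.two (.pot 0) (.lm 14 0 13 3 16 15 4)))) 
(.lf (.two (.pot 0) (.lm 14 0 13 0 16 15 6)))))) (.y 477 (.lf (.dir (.pot 0))) 
(.lf (.tipb 14 14 3)))))) (.t 48 (.lf (.tipb 13 11 12)) (.a 174 (.y 489 (.z 477 
(.lf (.two (.pot 1) (.lm 14 0 12 6 16 14 6))) (.lf (.tipb 14 13 6))) (.lf (.tipb 15 12 12))) 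
(.y 489 (.z 477 (.lf (.two (.pot 0) (.lm 14 0 12 6 16 14 6))) (.lf (.tipb 14 13 6))) 
(.lf (.tipb 15 12 12)))))) (.y 483 (.lf (.two (.pot 1) (.lf 10 0 12 0))) (.lf (.tipb 13 13 6)))))))) 
(.a 157 (.z 472 (.y 517 (.a 146 (.lf (.low 0)) (.z 461 (.y 506 (.t 48 (.a 151 (.z 455 (.y 500 
(.lf (.two (.pot 0) (.lm 14 14 8 26 17 10 5))) (.lf (.two (.pot 0) (.lm 14 17 7 28 17 9 6)))) 
(.lf (.two (.pot 0) (.lm 13 11 8 23 16 10 9)))) (.z 455 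
(.lf (.two (.pot 0) (.lm 14 14 8 26 17 10 8))) (.lf (.two (.pot 0) (.lm 13 11 8 23 16 10 9))))) 
(.lf (.low 0))) (.t 48 (.a 151 (.z 455 (.y 511 (.lf (.two (.pot 0) (.lm 14 20 7 31 17 8 5))) 
(.lf (.two (.pot 0) (.lm 14 22 6 34 17 8 6)))) (.lf (.two (.pot 0) (.lm 13 16 6 29 16 9 9)))) 
(.z 455 (.lf (.two (.lf 0 131 14 117) (.lm 14 20 6 31 17 9 8))) 
(.lf (.two (.pot 0) (.lm 13 16 6 29 16 9 9))))) (.lf (.low 0)))) (.y 506 (.t 48 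
(.lf (.tipb 15 9 23)) (.lf (.low 0))) (.t 48 (.lf (.tipb 15 8 28)) (.lf (.low 0)))))) (.y 528 
(.a 146 (.lf .inf) (.z 461 (.t 48 (.a 151 (.lf .inf) (.z 455 
(.lf (.two (.lf 0 131 14 117) (.lm 14 25 5 37 17 7 8))) 
(.lf (.two (.pot 0) (.lm 13 22 5 34 16 7 9))))) (.lf (.low 0))) 
(.lf (.two (.pot 1) (.lm 14 15 5 30 19 7 11))))) (.lf .inf))) (.y 517 (.z 483 (.a 146 
(.lf (.low 0)) (.y 506 (.lf (.tipb 16 11 17)) (.lf (.tipb 16 8 23)))) (.lf (.tipb 13 11 17))) 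
(.z 483 (.lf (.tipb 16 6 34)) (.lf (.tipb 13 6 29))))) (.z 472 (.y 517 (.a 168 (.z 461 (.y 506 
(.t 48 (.lf (.two (.lf 0 130 13 117) (.lm 13 10 8 24 17 10 11))) (.a 162 (.lf (.low 0)) 
(.lf (.two (.lf 0 131 17 114) (.lm 17 7 9 27 21 12 11))))) (.t 48 
(.lf (.two (.lf 0 130 13 117) (.lm 13 16 6 29 17 9 11))) 
(.lf (.two (.lf 0 131 17 114) (.lm 17 13 7 32 21 9 11))))) (.y 506 (.t 48 (.lf (.tipb 15 9 23)) 
(.a 162 (.lf (.low 0)) (.z 466 (.lf (.two (.pot 0) (.lm 16 5 9 24 19 12 8))) 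
(.lf (.two (.pot 0) (.lm 15 1 9 22 18 12 9)))))) (.t 48 (.lf (.tipb 15 8 28)) 
(.lf (.two (.pot 0) (.lm 15 7 7 27 19 9 11)))))) (.z 461 (.y 506 
(.lf (.two (.lf 1 130 15 116) (.lm 15 9 8 25 21 12 11))) 
(.lf (.two (.lf 1 130 15 116) (.lm 15 15 7 30 21 9 11)))) (.y 506 (.t 48 (.lf (.tipb 15 9 23)) 
(.a 174 (.z 466 (.lf (.two (.pot 0) (.lm 16 5 9 24 19 12 8))) 
(.lf (.two (.pot 0) (.lm 15 1 9 22 18 12 9)))) (.lf (.two (.pot 0) (.lm 15 0 9 23 19 12 11))))) 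
(.lf (.two (.pot 0) (.lm 14 9 7 25 19 9 11)))))) (.a 168 (.y 528 (.z 461 
(.lf (.two (.lf 0 131 15 116) (.lm 15 20 5 36 21 7 11))) 
(.lf (.two (.pot 0) (.lm 14 15 5 30 19 7 11)))) (.z 461 
(.lf (.two (.lf 0 131 15 116) (.lm 15 26 3 41 21 5 12))) 
(.lf (.two (.pot 0) (.lm 14 20 3 36 19 5 12))))) (.y 528 
(.lf (.two (.lf 1 130 14 116) (.lm 14 14 5 31 21 7 17))) 
(.lf (.two (.lf 1 130 14 116) (.lm 14 20 3 36 21 5 17)))))) (.y 517 (.a 168 (.z 483 (.y 506 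
(.lf (.tipb 16 11 17)) (.lf (.tipb 16 8 23))) (.lf (.tipb 13 11 17))) (.z 483 (.y 506 
(.lf (.tipb 16 11 17)) (.lf (.tipb 16 8 23))) (.lf (.tipb 13 11 17)))) (.a 168 (.z 483 
(.lf (.tipb 16 6 34)) (.lf (.tipb 13 6 29))) (.z 483 (.lf (.tipb 16 6 34)) 
(.lf (.tipb 13 6 29)))))))) (.y 495 (.lf (.two (.pot 1) (.lf 6 0 13 0))) (.lf (.tipb 11 11 23))))))

theorem h8 : chk (leafR PP TD1 32 1) c8 32 64 90 180 450 540 360 540 = true := by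
  decide +kernel

def c9 : Tree :=
  (.a 90 (.lf .inf) (.z 450 (.y 630 (.a 135 (.lf .inf) (.z 405 (.y 585 (.a 157 (.lf .inf) 
(.z 382 (.y 562 (.a 168 (.lf .inf) (.z 371 (.y 551 (.t 48 
(.lf (.two (.lm 2 98 19 82 4 23 12) (.lm 19 77 2 92 23 4 11))) 
(.lf (.two (.lm 0 102 25 78 3 30 12) (.lm 25 73 0 96 30 3 11)))) (.lf .inf)) (.y 551 (.t 48 
(.lf (.two (.lm 2 103 19 88 4 23 12) (.lm 19 71 2 87 23 4 11))) 
(.lf (.two (.lm 0 107 25 84 3 29 12) (.lm 25 67 0 91 29 3 11)))) (.lf .inf)))) (.lf .inf)) 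
(.y 562 (.a 168 (.lf .inf) (.z 393 (.y 551 
(.lf (.two (.lm 1 111 22 91 4 29 12) (.lm 22 64 1 83 29 4 11))) (.lf .inf)) (.y 551 
(.lf (.two (.lf 1 116 21 97) (.lm 21 58 1 77 28 4 12))) (.lf .inf)))) (.lf .inf)))) (.lf .inf)) 
(.y 585 (.a 157 (.lf .inf) (.z 427 (.y 562 (.a 168 (.lf .inf) (.z 416 (.y 551 
(.lf (.two (.lf 1 122 20 103) (.lm 20 53 1 71 27 4 11))) (.lf .inf)) (.y 551 
(.lf (.two (.lf 1 127 19 109) (.lm 19 48 1 65 26 4 11))) (.lf .inf)))) (.lf .inf)) (.y 562 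
(.a 168 (.lf .inf) (.z 438 (.y 551 (.lf (.two (.lf 1 130 18 113) (.lm 18 43 1 59 25 4 11))) 
(.lf .inf)) (.lf (.two (.lf 1 130 17 114) (.lm 17 36 0 54 23 4 17))))) (.lf .inf)))) (.lf .inf)))) 
(.lf .inf)) (.y 630 (.a 135 (.lf .inf) (.z 495 (.y 585 (.a 157 (.lf .inf) (.z 472 (.y 562 
(.a 168 (.lf .inf) (.z 461 (.lf (.two (.lf 1 130 15 116) (.lm 15 31 0 48 21 4 17))) (.y 551 
(.lf (.two (.pot 0) (.lm 14 26 1 42 19 4 11))) (.lf .inf)))) (.lf .inf)) (.y 562 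
(.lf (.tipb 16 3 45)) (.lf .inf)))) (.lf .inf)) (.y 585 (.lf (.tipb 11 4 45)) (.lf .inf)))) 
(.lf .inf))))

theorem h9 : chk (leafR PP TD1 32 1) c9 32 64 0 180 360 540 540 720 = true := by
  decide +kernel

def c10 : Tree :=
  (.y 540 (.lf (.two (.pot 1) (.lf 0 0 16 0))) (.a 90 (.lf .inf) (.z 630 (.y 630 
(.lf (.tipb 5 5 45)) (.lf .inf)) (.lf (.low 1)))))

theorem h10 : chk (leafR PP TD1 32 1) c10 32 64 0 180 540 720 360 720 = true := by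
  decide +kernel

def c11 : Tree :=
  (.z 540 (.y 540 (.a 270 (.z 450 (.y 450 (.a 225 (.lf (.dir (.lf 6 75 21 60))) (.lf .inf)) 
(.a 225 (.z 405 (.y 495 (.a 202 
(.lf (.two (.lm 4 87 22 71 7 30 34) (.lm 22 13 13 32 30 21 45))) 
(.lf (.two (.lm 7 75 22 60 12 30 34) (.lm 22 13 13 32 30 21 45)))) (.a 202 (.z 382 (.y 517 
(.lf (.two (.lm 4 88 22 70 7 30 22) (.lm 22 49 7 64 30 12 22))) 
(.lf (.two (.lm 4 88 22 70 7 30 22) (.lm 22 59 4 76 30 7 23)))) (.y 517 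
(.lf (.two (.lm 4 98 21 82 7 29 23) (.lm 21 37 7 53 29 12 23))) 
(.lf (.two (.lm 4 98 21 82 7 29 23) (.lm 21 47 4 65 29 7 23))))) (.z 382 
(.lf (.two (.lm 7 75 22 60 12 30 23) (.lm 22 48 6 65 30 12 34))) 
(.lf (.two (.lm 7 85 21 72 12 29 23) (.lm 21 36 6 54 29 12 34)))))) (.y 495 (.a 202 (.z 427 
(.lf (.two (.lf 4 109 20 94) (.lm 20 0 13 23 28 21 34))) (.y 472 
(.lf (.dir (.lf 4 127 14 116))) (.lf (.two (.lf 4 119 17 106) (.lm 17 0 11 22 25 17 23))))) 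
(.z 427 (.lf (.two (.lf 7 96 20 84) (.lm 20 0 13 23 28 21 34))) (.y 472 
(.lf (.dir (.lf 7 116 14 109))) (.lf (.two (.lf 7 106 17 96) (.lm 17 0 11 22 25 17 23)))))) 
(.a 202 (.z 427 (.y 517 (.lf (.two (.lf 4 109 20 94) (.lm 20 25 7 43 28 12 22))) 
(.lf (.two (.lf 4 109 20 94) (.lm 20 36 4 54 28 7 23)))) (.y 517 
(.lf (.two (.lf 4 119 17 106) (.lm 17 13 7 32 25 12 23))) 
(.lf (.two (.lf 4 119 17 106) (.lm 17 25 4 42 25 7 23))))) (.z 427 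
(.lf (.two (.lf 7 96 20 84) (.lm 20 24 6 44 28 12 34))) 
(.lf (.two (.lf 7 106 17 96) (.lm 17 11 6 34 25 12 34))))))) (.z 405 (.y 495 
(.lf (.dir (.lf 13 90 13 90))) (.a 247 
(.lf (.two (.lm 11 62 22 51 17 30 34) (.lm 22 36 6 54 30 12 45))) 
(.lf (.two (.lm 14 50 22 40 21 30 34) (.lm 22 36 6 54 30 12 45))))) (.y 495 
(.lf (.dir (.lf 13 90 13 90))) (.a 247 (.lf (.two (.lf 11 83 19 75) (.lm 19 10 6 35 28 12 45))) 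
(.lf (.two (.lm 14 70 19 65 21 28 34) (.lm 19 10 6 35 28 12 45)))))))) (.y 450 (.a 225 
(.lf (.dir (.lf 6 75 21 60))) (.lf .inf)) (.a 225 (.z 495 (.y 495 (.a 202 (.z 472 (.y 472 
(.lf (.dir (.lf 4 127 14 116))) (.y 483 (.lf (.dir (.pot 0))) (.a 191 (.z 461 
(.lf (.two (.lf 3 128 15 116) (.lm 15 2 10 20 21 14 12))) 
(.lf (.two (.lf 3 128 14 117) (.lm 14 0 10 11 19 14 12)))) (.lf (.dir (.pot 0)))))) (.y 472 
(.lf (.dir (.lf 4 127 14 116))) (.z 483 (.y 483 (.lf (.dir (.pot 0))) (.a 191 (.t 48 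
(.lf (.tipb 13 11 12)) (.y 489 (.a 185 (.z 477 (.lf (.two (.pot 0) (.lm 14 0 12 6 16 14 6))) 
(.lf (.tipb 14 13 6))) (.lf (.dir (.pot 0)))) (.lf (.tipb 15 12 12)))) (.lf (.dir (.pot 0))))) 
(.y 483 (.lf (.dir (.pot 0))) (.lf (.tipb 13 13 6)))))) (.z 472 
(.lf (.two (.lf 7 116 14 109) (.lm 14 0 13 0 21 21 23))) (.y 472 
(.lf (.dir (.lf 7 116 14 109))) (.a 213 (.z 483 
(.lf (.two (.lf 6 124 12 119) (.lm 12 0 11 0 17 17 12))) 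
(.lf (.two (.pot 0) (.lm 10 0 11 0 14 17 6)))) (.lf (.dir (.lf 8 122 11 120))))))) (.a 202 
(.z 472 (.y 517 (.a 191 (.z 461 (.lf (.two (.lf 3 128 15 116) (.lm 15 8 7 26 21 12 17))) 
(.lf (.two (.lf 3 128 14 117) (.lm 14 1 7 22 19 12 17)))) 
(.lf (.two (.lf 5 126 14 116) (.lm 14 0 7 23 21 12 22)))) 
(.lf (.two (.lf 4 127 14 116) (.lm 14 13 4 32 21 7 23)))) (.y 517 (.z 483 (.a 191 (.y 506 
(.lf (.tipb 16 11 17)) (.lf (.tipb 16 8 23))) (.y 506 (.lf (.tipb 16 11 17)) 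
(.lf (.tipb 16 8 23)))) (.lf (.tipb 13 11 17))) (.z 483 (.lf (.tipb 16 6 34)) 
(.lf (.tipb 13 6 29))))) (.z 472 (.y 517 
(.lf (.two (.lf 7 116 14 109) (.lm 14 0 7 23 21 12 22))) 
(.lf (.two (.lf 7 116 14 109) (.lm 14 13 4 32 21 7 23)))) (.y 517 (.a 213 (.z 483 
(.lf (.two (.lf 6 124 12 119) (.lm 12 0 7 12 17 12 17))) (.lf (.tipb 13 11 17))) 
(.lf (.dir (.pot 0)))) (.lf (.two (.lf 7 123 11 120) (.lm 11 0 4 22 17 7 23))))))) (.y 495 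
(.lf (.two (.pot 1) (.lf 6 0 13 0))) (.lf (.tipb 11 11 23)))) (.z 495 (.y 495 
(.lf (.dir (.lf 13 90 13 90))) (.a 247 (.z 472 
(.lf (.two (.lf 11 103 14 100) (.lm 14 0 6 23 21 12 34))) (.y 517 
(.lf (.two (.lf 11 113 11 112) (.lm 11 0 7 0 17 12 23))) 
(.lf (.two (.lf 11 113 11 112) (.lm 11 0 4 22 17 7 23))))) (.z 472 
(.lf (.two (.lf 14 90 14 90) (.lm 14 0 6 23 21 12 34))) 
(.lf (.two (.lf 14 99 11 103) (.lm 11 0 6 0 17 12 34)))))) (.y 495 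
(.lf (.dir (.lf 13 90 13 90))) (.a 247 (.z 517 (.y 517 (.a 236 (.z 506 
(.lf (.two (.lf 10 120 8 122) (.lm 8 0 7 0 12 12 11))) (.lf (.tipb 8 11 6))) 
(.lf (.dir (.lf 12 119 7 123)))) (.y 528 (.lf (.dir (.pot 0))) 
(.lf (.two (.lf 11 120 7 123) (.lm 7 0 3 11 12 5 17))))) (.lf (.tipb 6 11 12))) (.z 517 
(.lf (.two (.lf 14 109 7 116) (.lm 7 0 6 0 12 12 23))) (.y 517 (.lf (.dir (.lf 14 109 7 116))) 
(.a 258 (.z 528 (.lf (.two (.lf 13 117 5 126) (.lm 5 0 4 0 7 7 12))) (.lf (.tipb 4 6 6))) 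
(.lf (.dir (.lf 15 116 4 127)))))))))))) (.z 450 (.y 450 (.lf .inf) (.a 315 
(.lf (.dir (.lf 19 63 9 72))) (.lf .inf))) (.y 450 (.lf .inf) (.a 315 
(.lf (.dir (.lf 19 63 9 72))) (.lf .inf))))) (.a 270 (.z 450 (.y 630 (.a 225 (.z 405 (.y 585 
(.a 202 (.z 382 (.y 562 (.a 191 (.z 371 (.y 551 
(.lf (.two (.lm 3 93 22 76 5 30 11) (.lm 22 75 1 94 30 4 11))) (.t 48 
(.lf (.two (.lm 3 92 19 77 5 23 11) (.lm 19 82 0 98 23 3 11))) 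
(.lf (.two (.lm 2 95 25 74 5 30 11) (.lm 25 78 0 102 30 1 11))))) (.y 551 
(.lf (.two (.lm 3 99 22 81 5 30 11) (.lm 22 69 1 89 30 4 11))) 
(.lf (.two (.lm 3 99 22 81 5 30 11) (.lm 22 74 0 95 30 3 11))))) 
(.lf (.two (.lm 5 87 22 71 7 30 17) (.lm 22 69 0 89 30 4 22)))) (.y 573 (.a 191 (.lf .inf) 
(.z 371 (.t 48 (.lf (.two (.lm 5 86 19 72 7 23 11) (.lm 19 87 0 104 23 1 11))) (.lf (.low 2))) 
(.lf (.two (.lm 5 93 22 76 7 30 11) (.lm 22 80 0 100 30 2 11))))) (.lf .inf))) (.y 562 (.z 393 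
(.a 191 (.y 551 (.lf (.two (.lm 3 104 22 87 5 29 11) (.lm 22 64 1 83 29 4 11))) 
(.lf (.two (.lm 3 104 22 87 5 29 11) (.lm 22 69 0 89 29 3 11)))) 
(.lf (.two (.lm 5 98 22 82 7 29 11) (.lm 22 64 0 83 29 4 17)))) (.a 191 
(.lf (.two (.lm 3 110 21 92 5 28 12) (.lm 21 58 0 77 28 4 17))) 
(.lf (.two (.lm 5 103 21 88 7 28 12) (.lm 21 58 0 77 28 4 17))))) (.z 393 (.y 573 (.a 191 
(.lf .inf) (.lf (.two (.lm 5 98 22 82 7 29 11) (.lm 22 75 0 94 29 2 11)))) (.lf .inf)) (.y 573 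
(.a 191 (.lf .inf) (.lf (.two (.lm 5 103 21 88 7 28 12) (.lm 21 69 0 88 28 2 12)))) (.lf .inf))))) 
(.z 382 (.y 562 (.lf (.two (.lm 7 75 22 60 12 30 23) (.lm 22 69 0 89 30 4 22))) (.a 213 
(.y 573 (.lf (.two (.lm 6 81 22 66 9 30 17) (.lm 22 80 0 100 30 2 17))) (.z 371 (.t 48 
(.lf (.low 2)) (.lf (.low 2))) (.t 48 (.lf (.low 2)) (.lf (.low 2))))) 
(.lf (.two (.lm 8 74 22 61 12 30 17) (.lm 22 80 0 100 30 2 23))))) (.y 562 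
(.lf (.two (.lm 7 85 21 72 12 29 23) (.lm 21 58 0 77 29 4 23))) (.a 213 (.z 393 (.y 573 
(.lf (.two (.lm 6 92 22 77 9 29 11) (.lm 22 75 0 94 29 2 11))) 
(.lf (.two (.lm 6 92 22 77 9 29 11) (.lm 22 80 0 100 29 1 12)))) 
(.lf (.two (.lm 6 97 21 83 9 28 12) (.lm 21 69 0 88 28 2 18)))) 
(.lf (.two (.lm 8 85 21 72 12 29 18) (.lm 21 69 0 88 29 2 23))))))) (.lf (.low 2))) (.y 585 
(.a 202 (.z 427 (.y 562 (.a 191 (.z 416 (.lf (.two (.lf 3 115 20 99) (.lm 20 53 0 71 27 4 17))) 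
(.lf (.two (.lf 3 120 19 105) (.lm 19 47 0 66 26 4 17)))) 
(.lf (.two (.lf 5 109 20 94) (.lm 20 47 0 66 28 4 22)))) (.y 573 (.a 191 (.lf .inf) 
(.lf (.two (.lf 5 109 20 94) (.lm 20 58 0 77 28 2 17)))) (.lf .inf))) (.y 562 (.z 438 
(.lf (.two (.lf 4 119 18 106) (.lm 18 42 0 60 25 4 17))) 
(.lf (.two (.lf 4 124 17 112) (.lm 17 36 0 54 23 4 17)))) (.z 438 (.y 573 
(.lf (.two (.lf 4 119 18 106) (.lm 18 54 0 70 25 2 11))) (.lf .inf)) (.y 573 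
(.lf (.two (.lf 4 124 17 112) (.lm 17 48 0 64 23 2 12))) (.lf .inf))))) (.z 427 (.y 562 
(.lf (.two (.lf 7 96 20 84) (.lm 20 47 0 66 28 4 22))) (.a 213 
(.lf (.two (.lm 6 102 20 90 9 28 17) (.lm 20 58 0 77 28 2 23))) 
(.lf (.two (.lm 8 95 20 85 12 28 17) (.lm 20 58 0 77 28 2 23))))) (.y 562 
(.lf (.two (.lf 7 106 17 96) (.lm 17 36 0 54 25 4 23))) 
(.lf (.two (.lf 7 106 17 96) (.lm 17 48 0 64 25 2 23)))))) (.lf (.low 2)))) (.z 405 (.y 585 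
(.a 247 (.z 382 (.lf (.two (.lm 11 62 22 51 17 30 22) (.lm 22 69 0 89 30 5 34))) 
(.lf (.two (.lm 11 73 21 62 17 29 23) (.lm 21 57 0 78 29 5 34)))) 
(.lf (.two (.lm 14 50 22 40 21 30 34) (.lm 22 57 0 78 30 5 45)))) (.lf (.low 2))) (.y 585 
(.a 247 (.z 427 (.lf (.two (.lm 11 83 20 75 17 28 22) (.lm 20 47 0 66 28 5 34))) 
(.lf (.two (.lf 11 93 17 87) (.lm 17 36 0 54 25 5 34)))) 
(.lf (.two (.lm 14 70 19 65 21 28 34) (.lm 19 35 0 55 28 5 45)))) (.lf (.low 2))))) 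
(.lf (.low 2))) (.y 630 (.a 225 (.z 495 (.y 585 (.a 202 (.z 472 (.y 562 
(.lf (.two (.lf 4 127 14 116) (.lm 14 25 0 43 21 4 22))) (.y 573 
(.lf (.two (.lf 4 127 14 116) (.lm 14 38 0 52 21 2 17))) (.lf .inf))) (.y 562 
(.lf (.tipb 16 3 45)) (.z 483 (.lf (.two (.lf 4 127 12 119) (.lm 12 33 0 46 17 2 17))) 
(.lf (.tipb 13 1 51))))) (.z 472 (.y 562 
(.lf (.two (.lf 7 116 14 109) (.lm 14 25 0 43 21 4 22))) 
(.lf (.two (.lf 7 116 14 109) (.lm 14 38 0 52 21 2 23)))) (.y 562 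
(.lf (.two (.lf 7 123 11 120) (.lm 11 14 0 31 17 4 23))) 
(.lf (.two (.lf 7 123 11 120) (.lm 11 27 0 40 17 2 23)))))) (.lf (.low 2))) (.y 585 
(.lf (.tipb 11 4 45)) (.lf (.low 2)))) (.z 495 (.y 585 (.a 247 (.z 472 
(.lf (.two (.lf 11 103 14 100) (.lm 14 25 0 43 21 5 34))) 
(.lf (.two (.lf 11 113 11 112) (.lm 11 13 0 32 17 5 34)))) 
(.lf (.two (.lf 14 89 13 91) (.lm 13 12 0 33 21 5 45)))) (.lf (.low 2))) (.y 585 (.a 247 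
(.z 517 (.lf (.two (.lf 11 120 7 123) (.lm 7 1 0 22 12 5 34))) (.lf (.tipb 6 4 34))) (.z 517 
(.lf (.two (.lf 14 109 7 116) (.lm 7 1 0 22 12 5 34))) (.y 562 (.a 258 (.z 528 
(.lf (.two (.lf 13 117 5 126) (.lm 5 0 0 12 7 4 17))) (.lf (.tipb 4 3 17))) 
(.lf (.dir (.pot 0)))) (.lf (.two (.lf 14 116 4 127) (.lm 4 6 0 16 7 2 23)))))) (.lf (.low 2))))) 
(.lf (.low 2)))) (.z 450 (.y 630 (.a 315 (.z 405 (.y 585 
(.lf (.two (.lm 19 26 22 19 28 30 45) (.lm 22 57 0 78 30 5 45))) (.lf (.low 2))) (.y 585 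
(.lf (.two (.lm 19 45 19 45 28 28 45) (.lm 19 35 0 55 28 5 45))) (.lf (.low 2)))) (.z 405 
(.y 585 (.lf (.dir (.lf 22 80 0 100))) (.lf (.low 2))) 
(.lf (.two (.lm 22 19 19 26 30 28 45) (.lf 19 35 0 55))))) (.lf (.low 2))) (.y 630 (.a 315 
(.z 495 (.y 585 (.lf (.two (.lf 19 65 13 70) (.lm 13 12 0 33 21 5 45))) (.lf (.low 2))) 
(.y 585 (.a 292 (.z 517 (.lf (.two (.lf 17 97 7 106) (.lm 7 1 0 22 12 5 34))) 
(.lf (.two (.lf 17 106 4 119) (.lm 4 0 0 0 7 5 34)))) (.lf (.dir (.lf 20 103 0 122)))) 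
(.lf (.low 2)))) (.z 495 (.y 585 (.lf (.dir (.lf 22 80 0 100))) (.lf (.low 2))) (.y 585 
(.lf (.dir (.lf 22 80 0 100))) (.lf (.low 2))))) (.lf (.low 2)))))) (.y 540 (.a 270 
(.lf (.two (.pot 1) (.lf 0 0 16 0))) (.z 630 (.lf (.two (.lf 21 81 0 99) (.lf 0 0 16 0))) 
(.lf .inf))) (.a 270 (.z 630 (.y 630 (.lf (.tipb 5 5 45)) (.lf (.low 2))) (.lf (.low 1))) 
(.z 630 (.y 630 (.a 315 (.z 585 (.y 585 (.a 292 (.z 562 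
(.lf (.two (.lf 17 113 0 130) (.lm 0 0 0 0 4 5 23))) (.lf (.tipb 1 4 12))) 
(.lf (.dir (.lf 20 103 0 122)))) (.lf (.low 2))) (.lf (.low 1))) (.z 585 
(.lf (.two (.lf 22 80 0 100) (.lm 0 0 0 0 5 6 45))) (.lf (.low 1)))) (.lf (.low 2))) 
(.lf (.low 1))))))

theorem h11 : chk (leafR PP TD1 32 1) c11 32 64 180 360 360 720 360 720 = true := by
  decide +kernel

theorem main : ∃ T : Tree, chk (leafR PP TD1 32 1) T 32 64 0 360 0 720 360 720 = true :=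
  ⟨_, (chk_z (chk_a h0 (chk_z h1 (chk_y h2 (chk_a (chk_z h3 h4) h5)))) (chk_a (chk_z (chk_y (chk_a h6 (chk_z h7 h8)) h9) h10) h11))⟩

end Pool.Agent.Helper58.LDD.R11
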