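import Pool.Agent.Helper58.LD.Comb
import Pool.Agent.Helper58.LDD.Tab

set_option autoImplicit false

namespace Pool.Agent.Helper58.LDD.R12

open Pool.Agent.Helper58.LD Pool.Agent.Helper58.LDD

set_option maxRecDepth 100000

def c0 : Tree :=
  (.z 180 (.y 540 (.a 90 (.lf (.low 0)) (.z 90 (.lf (.low 1)) (.y 450 (.a 135 (.lf (.low 0)) 
(.z 135 (.lf (.low 1)) (.y 405 (.lf (.dir (.lf 0 107 34 73))) (.a 157 (.lf (.low 0)) 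
(.lf (.dir (.lf 0 126 28 99))))))) (.lf (.tipa 5 5 45))))) (.a 90 (.lf .inf) (.z 90 
(.lf (.low 1)) (.lf (.tipa 5 5 45))))) (.y 540 (.a 90 (.lf (.low 0)) (.z 270 (.y 450 (.a 135 
(.lf (.low 0)) (.z 225 (.y 405 (.lf (.dir (.lf 0 107 34 73))) (.a 157 (.lf (.low 0)) 
(.lf (.dir (.lf 0 126 28 99))))) (.lf (.two (.lm 0 38 18 7 3 29 45) (.lf 18 55 32 35))))) 
(.a 135 (.lf (.low 0)) (.z 225 (.y 495 (.a 157 (.lf (.low 0)) (.z 202 (.y 472 (.a 168 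
(.lf (.low 0)) (.lf (.dir (.pot 0)))) (.lf (.tipa 1 6 23))) 
(.lf (.two (.lm 0 22 8 0 2 13 23) (.lf 8 117 18 108))))) (.lf (.tipa 2 13 45))) (.y 495 
(.a 157 (.lf (.low 0)) (.lf (.two (.lm 0 38 18 7 2 29 34) (.lf 18 90 18 90)))) (.a 157 
(.lf (.low 0)) (.z 247 (.y 517 (.lf (.two (.lm 0 35 14 10 2 21 23) (.lf 14 116 8 122))) 
(.lf (.tipa 1 20 45))) (.y 517 (.lf (.two (.lm 0 47 20 20 2 28 23) (.lf 20 107 8 118))) 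
(.lf (.two (.lm 0 47 20 20 2 28 23) (.lf 20 110 2 129)))))))))) (.y 450 (.a 135 (.lf (.low 0)) 
(.z 315 (.y 405 (.lf (.dir (.lf 0 107 34 73))) 
(.lf (.two (.lm 0 62 28 28 3 39 45) (.lf 28 45 28 45)))) (.y 405 (.lf (.dir (.lf 0 107 34 73))) 
(.lf (.two (.lf 0 85 34 50) (.lm 34 15 28 30 43 39 45)))))) (.a 135 (.lf (.low 0)) (.z 315 
(.y 495 (.a 157 (.lf (.low 0)) (.lf (.two (.lm 0 62 28 28 2 39 34) (.lf 28 62 18 73)))) 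
(.a 157 (.lf (.low 0)) (.z 292 (.y 517 (.lf (.two (.lm 0 60 26 30 2 34 23) (.lf 26 93 8 110))) 
(.a 168 (.lf (.low 0)) (.lf (.two (.lm 0 60 26 30 2 34 17) (.lf 26 101 2 124))))) (.y 517 
(.lf (.two (.lm 0 72 30 40 2 39 23) (.lf 30 79 8 101))) (.a 168 (.lf (.low 0)) 
(.lf (.two (.lm 0 72 30 40 2 39 18) (.lf 30 87 2 115)))))))) (.y 495 (.a 157 (.lf (.low 0)) 
(.z 337 (.lf (.two (.lm 0 84 33 51 2 41 23) (.lm 33 47 18 66 41 29 34))) 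
(.lf (.two (.lm 0 96 35 61 2 43 23) (.lm 35 33 18 57 43 29 34))))) (.a 157 (.lf (.low 0)) 
(.z 337 (.y 517 (.lf (.two (.lm 0 84 33 51 2 41 23) (.lm 33 67 8 91 41 13 22))) (.a 168 
(.lf (.low 0)) (.lf (.two (.lm 0 84 33 51 2 41 17) (.lf 33 75 2 105))))) (.y 517 
(.lf (.two (.lm 0 96 35 61 2 43 23) (.lm 35 54 8 81 43 13 23))) (.a 168 (.lf (.low 0)) 
(.lf (.two (.lm 0 96 35 61 2 43 18) (.lm 35 62 2 95 43 7 23))))))))))))) (.a 90 (.lf .inf) 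
(.z 270 (.y 630 (.a 135 (.lf .inf) (.z 225 (.lf (.tipa 2 13 45)) (.y 585 (.a 157 (.lf .inf) 
(.z 247 (.lf (.tipa 1 20 45)) (.y 562 (.a 168 (.lf .inf) (.z 258 
(.lf (.two (.lm 0 46 19 21 2 24 12) (.pot 0))) 
(.lf (.two (.lm 0 52 22 26 2 28 12) (.lf 22 109 0 131))))) (.lf .inf)))) (.lf .inf)))) 
(.lf .inf)) (.y 630 (.a 135 (.lf .inf) (.z 315 (.y 585 (.a 157 (.lf .inf) (.z 292 (.y 562 
(.a 168 (.lf .inf) (.z 281 (.y 551 (.lf (.two (.lm 0 59 24 31 2 31 12) (.lf 24 106 0 131))) 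
(.lf .inf)) (.y 551 (.lf (.two (.lm 0 65 27 36 2 34 12) (.lf 27 104 0 131))) (.lf .inf)))) 
(.lf .inf)) (.y 562 (.a 168 (.lf .inf) (.z 303 (.y 551 
(.lf (.two (.lm 0 71 29 41 2 36 12) (.lf 29 102 0 131))) (.lf .inf)) (.y 551 
(.lf (.two (.lm 0 78 31 45 2 38 12) (.lf 31 97 0 128))) (.lf .inf)))) (.lf .inf)))) (.lf .inf)) 
(.y 585 (.a 157 (.lf .inf) (.z 337 (.y 562 (.a 168 (.lf .inf) (.z 326 (.y 551 
(.lf (.two (.lm 0 84 32 51 2 40 12) (.lf 32 91 0 123))) (.lf .inf)) (.y 551 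
(.lf (.two (.lm 0 90 34 56 2 41 12) (.lf 34 85 0 118))) (.lf .inf)))) (.lf .inf)) (.y 562 
(.a 168 (.lf .inf) (.z 348 (.y 551 
(.lf (.two (.lm 0 95 34 62 2 42 12) (.lm 34 79 0 113 42 2 11))) (.lf .inf)) (.y 551 (.t 80 
(.lf (.two (.lm 0 99 32 69 2 36 12) (.lm 32 75 0 105 36 2 12))) (.lf (.low 0))) (.lf .inf)))) 
(.lf .inf)))) (.lf .inf)))) (.lf .inf))))))

theorem h0 : chk (leafR PP TD2 64 1) c0 64 96 0 180 0 360 360 720 = true := by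
  decide +kernel

def c1 : Tree :=
  (.y 540 (.a 270 (.z 90 (.lf .inf) (.y 450 (.a 225 (.lf (.dir (.lf 5 81 32 54))) (.lf .inf)) 
(.lf (.two (.lf 11 0 0 0) (.pot 1))))) (.lf .inf)) (.lf (.two (.lf 23 0 0 0) (.pot 1))))

theorem h1 : chk (leafR PP TD2 64 1) c1 64 96 180 360 0 180 360 720 = true := by
  decide +kernel

def c2 : Tree :=
  (.a 270 (.z 270 (.y 450 (.a 225 (.lf (.dir (.lf 5 81 32 54))) (.lf .inf)) (.a 225 (.z 225 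
(.y 495 (.a 202 (.z 202 (.y 472 (.a 191 (.z 191 (.y 461 (.lf (.dir (.lf 0 130 22 109))) 
(.lf (.tipa 3 3 6))) (.lf (.two (.lm 0 0 3 0 4 7 11) (.lf 3 127 21 110)))) 
(.lf (.dir (.lf 3 127 21 110)))) (.lf (.tipa 6 6 11))) (.y 472 
(.lf (.two (.lm 2 0 8 0 7 13 23) (.lf 8 119 21 106))) (.z 213 (.y 483 (.lf (.dir (.pot 0))) 
(.lf (.tipa 6 8 17))) (.lf (.two (.lm 2 11 10 0 7 13 17) (.lf 10 121 15 116)))))) (.z 202 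
(.y 472 (.lf (.dir (.lf 8 119 21 106))) (.lf (.two (.lf 8 0 2 0) (.pot 0)))) (.y 472 
(.lf (.dir (.lf 8 119 21 106))) (.a 213 (.z 213 (.y 483 (.lf (.dir (.lf 6 124 16 114))) 
(.lf (.tipa 8 8 6))) (.y 483 (.lf (.dir (.lf 6 124 16 114))) (.lf (.dir (.pot 0))))) (.z 213 
(.y 483 (.lf (.dir (.lf 10 121 16 114))) (.lf (.two (.lf 10 0 6 0) (.pot 0)))) (.y 483 
(.lf (.dir (.lf 10 121 16 114))) (.t 80 (.lf (.dir (.lf 9 121 12 118))) (.a 219 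
(.lf (.dir (.pot 0))) (.lf (.dir (.lf 11 120 14 117))))))))))) (.a 202 (.lf (.tipa 6 13 23)) 
(.lf (.tipa 12 13 12)))) (.y 495 (.a 202 (.z 247 
(.lf (.two (.lm 2 23 14 0 7 21 22) (.lf 14 103 18 100))) 
(.lf (.two (.lm 2 40 20 5 7 28 23) (.lf 20 89 18 91)))) (.z 247 (.y 472 
(.lf (.dir (.lf 8 119 21 106))) (.a 213 
(.lf (.two (.lm 6 12 14 0 9 21 17) (.lf 14 113 15 112))) (.y 483 
(.lf (.dir (.lf 10 121 16 114))) (.z 236 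
(.lf (.two (.lm 10 0 13 0 13 17 12) (.lf 13 118 13 118))) 
(.lf (.two (.lm 10 11 16 0 13 21 12) (.lf 16 115 13 118))))))) 
(.lf (.two (.lm 8 22 20 0 13 28 23) (.lf 20 89 18 91))))) (.a 202 (.z 247 (.y 517 
(.lf (.two (.lm 2 23 14 0 7 21 22) (.lf 14 116 8 122))) (.y 528 (.a 191 (.lf (.tipa 3 20 34)) 
(.lf (.tipa 6 20 28))) (.a 191 (.lf (.tipa 3 20 34)) (.lf (.tipa 6 20 28))))) (.y 517 
(.lf (.two (.lm 2 40 20 5 7 28 23) (.lf 20 107 8 118))) (.z 258 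
(.lf (.two (.lm 2 38 19 7 7 24 17) (.lf 19 112 2 129))) 
(.lf (.two (.lm 2 44 22 12 7 28 17) (.lf 22 109 2 129)))))) (.z 247 (.y 517 (.a 213 (.z 236 
(.y 506 (.lf (.dir (.pot 0))) (.lf (.tipa 8 16 17))) 
(.lf (.two (.lm 6 23 16 0 9 21 11) (.lf 16 115 8 122)))) (.lf (.dir (.pot 0)))) (.a 213 
(.y 528 (.z 236 (.lf (.tipa 8 16 17)) (.lf (.two (.lm 6 23 16 0 9 21 11) (.pot 0)))) (.z 236 
(.lf (.tipa 8 16 17)) (.lf (.two (.lm 6 23 16 0 9 21 11) (.pot 0))))) (.y 528 (.z 236 (.t 80 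
(.lf (.tipa 11 15 12)) (.lf (.tipa 12 16 12))) (.lf (.two (.lm 10 11 16 0 13 21 12) (.pot 0)))) 
(.z 236 (.t 80 (.lf (.tipa 11 15 12)) (.lf (.tipa 12 16 12))) (.t 80 
(.lf (.two (.lm 9 11 15 0 12 19 12) (.pot 0))) (.a 219 
(.lf (.two (.lm 9 17 17 0 11 21 9) (.pot 0))) (.lf (.two (.lm 11 11 17 0 13 21 9) (.pot 0))))))))) 
(.y 517 (.lf (.two (.lm 8 22 20 0 13 28 23) (.lf 20 107 8 118))) (.a 213 
(.lf (.two (.lm 6 34 20 0 9 28 17) (.lf 20 110 2 129))) (.z 258 (.y 528 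
(.lf (.two (.lm 10 22 19 0 13 24 12) (.lf 19 112 4 127))) 
(.lf (.two (.lm 10 22 19 0 13 24 12) (.lf 19 112 0 130)))) 
(.lf (.two (.lm 10 33 22 0 13 28 12) (.lf 22 109 2 129)))))))))) (.z 225 (.y 495 (.a 247 
(.z 202 (.lf .inf) (.y 472 (.lf .inf) (.lf (.dir (.lf 14 113 15 112))))) (.lf .inf)) 
(.lf (.two (.lf 18 0 5 0) (.pot 1)))) (.y 495 (.a 247 (.z 247 (.y 472 (.lf .inf) 
(.lf (.dir (.lf 14 113 15 112)))) (.y 472 (.lf .inf) (.lf (.dir (.lf 14 113 15 112))))) 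
(.lf .inf)) (.a 247 (.z 247 (.y 517 (.a 236 (.z 236 (.y 506 (.t 80 
(.lf (.dir (.lf 12 118 10 121))) (.lf (.dir (.lf 13 117 10 121)))) (.lf (.dir (.pot 0)))) 
(.y 506 (.lf (.two (.lm 13 0 16 0 17 21 11) (.lf 16 115 10 121))) (.lf (.dir (.pot 0))))) 
(.lf (.dir (.lf 16 115 8 122)))) (.y 528 (.lf (.dir (.pot 0))) (.a 236 (.z 236 (.t 80 (.y 534 
(.a 230 (.lf (.tipa 13 15 6)) (.lf (.dir (.pot 0)))) (.a 230 (.lf (.tipa 13 15 6)) (.z 230 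
(.lf (.two (.lf 13 0 12 0) (.pot 1))) (.t 72 (.lf (.tipa 14 14 3)) (.a 233 
(.lf (.tipa 14 14 3)) (.z 233 (.lf (.two (.lf 14 0 13 0) (.pot 1))) (.y 537 
(.lf (.dir (.pot 0))) (.t 76 (.lf (.tipa 14 14 2)) (.lf (.tipa 14 14 2)))))))))) (.y 534 
(.a 230 (.z 230 (.lf (.tipa 14 14 3)) (.t 88 (.lf (.tipa 13 15 6)) (.z 233 
(.lf (.tipa 14 15 4)) (.lf (.two (.lm 13 3 15 0 15 17 4) (.pot 0)))))) (.lf (.dir (.pot 0)))) 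
(.a 230 (.z 230 (.lf (.tipa 14 14 3)) (.t 88 (.lf (.tipa 13 15 6)) (.z 233 
(.lf (.tipa 14 15 4)) (.y 537 (.lf (.two (.lm 13 3 15 0 15 17 4) (.pot 0))) (.lf (.low 2)))))) 
(.z 230 (.lf (.two (.lf 14 0 12 0) (.pot 1))) (.t 88 (.a 233 (.z 233 (.lf (.tipa 14 14 2)) 
(.y 537 (.lf (.two (.lm 13 0 14 0 15 16 3) (.pot 0))) (.t 84 (.lf (.tipa 14 15 3)) 
(.lf (.low 2))))) (.z 233 (.lf (.two (.lf 14 0 13 0) (.pot 1))) (.y 537 (.lf (.dir (.pot 0))) 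
(.t 84 (.a 234 (.z 234 (.lf (.tipa 14 14 1)) (.y 538 (.lf (.dir (.pot 0))) (.lf (.low 2)))) 
(.z 234 (.lf (.two (.lf 14 0 14 0) (.pot 1))) (.y 538 (.lf (.dir (.pot 0))) (.lf (.low 2))))) 
(.lf (.low 2)))))) (.a 233 (.z 233 (.y 537 (.t 92 (.lf (.low 2)) (.lf (.low 2))) (.lf (.low 2))) 
(.y 537 (.t 92 (.lf (.low 2)) (.lf (.low 2))) (.lf (.low 2)))) (.z 233 
(.lf (.two (.lf 15 0 14 0) (.pot 1))) (.y 537 (.lf (.dir (.pot 0))) (.lf (.low 2)))))))))) 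
(.t 80 (.y 534 (.a 230 (.lf (.two (.lm 12 6 15 0 14 19 8) (.pot 0))) (.lf (.dir (.pot 0)))) 
(.a 230 (.z 241 (.lf (.two (.lm 12 6 14 0 14 17 5) (.pot 0))) 
(.lf (.two (.lm 12 11 16 0 14 19 6) (.pot 0)))) (.z 241 (.t 72 (.lf (.tipa 14 15 6)) (.a 233 
(.lf (.two (.lm 13 3 15 0 15 17 4) (.pot 0))) (.y 537 (.lf (.dir (.pot 0))) (.z 238 
(.lf (.two (.lm 14 0 14 0 15 16 3) (.pot 0))) (.lf (.two (.lm 14 2 15 0 15 17 3) (.pot 0))))))) 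
(.t 72 (.lf (.two (.lm 13 5 15 0 15 17 6) (.pot 0))) 
(.lf (.two (.lm 13 5 16 0 15 18 6) (.pot 0))))))) (.y 534 (.a 230 (.z 241 
(.lf (.two (.lm 12 6 16 0 15 18 5) (.pot 0))) (.lf (.two (.lm 12 11 18 0 15 20 6) (.pot 0)))) 
(.lf (.dir (.pot 0)))) (.a 230 (.z 241 (.lf (.two (.lm 12 6 16 0 15 18 5) (.pot 0))) 
(.lf (.two (.lm 12 11 18 0 15 20 6) (.pot 0)))) (.z 241 (.t 88 (.a 233 
(.lf (.two (.lm 13 3 16 0 15 18 4) (.pot 0))) (.y 537 (.lf (.dir (.pot 0))) (.z 238 (.t 84 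
(.a 234 (.lf (.two (.lm 14 2 15 0 15 16 2) (.pot 0))) (.y 538 (.lf (.dir (.pot 0))) 
(.lf (.low 2)))) (.lf (.low 2))) (.lf (.two (.lm 14 2 16 0 16 18 3) (.pot 0)))))) (.a 233 
(.y 537 (.lf (.two (.lm 14 3 16 0 16 18 4) (.pot 0))) (.lf (.low 2))) (.y 537 
(.lf (.dir (.pot 0))) (.lf (.low 2))))) (.t 88 (.a 233 
(.lf (.two (.lm 13 8 17 0 15 19 5) (.pot 0))) (.z 244 
(.lf (.two (.lm 14 5 17 0 16 19 3) (.pot 0))) (.lf (.two (.lm 14 8 18 0 16 19 3) (.pot 0))))) 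
(.lf (.two (.lm 14 5 18 0 17 20 6) (.lf 18 113 0 131))))))))) (.lf (.dir (.pot 0)))))) (.y 517 
(.z 258 (.a 236 (.lf (.two (.lm 13 11 19 0 17 24 11) (.lf 19 112 8 122))) 
(.lf (.dir (.lf 16 115 8 122)))) (.lf (.two (.lm 14 11 22 0 21 28 17) (.lf 22 106 8 119)))) 
(.z 258 (.y 528 (.lf (.dir (.pot 0))) (.a 236 (.t 80 (.y 534 
(.lf (.two (.lm 12 11 18 0 16 21 11) (.lf 18 113 2 129))) 
(.lf (.two (.lm 12 11 18 0 16 21 11) (.lf 18 113 0 130)))) (.y 534 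
(.lf (.two (.lm 13 11 20 0 17 24 11) (.lf 20 111 0 130))) 
(.lf (.two (.lm 13 11 20 0 17 24 11) (.lf 20 111 0 131))))) (.lf (.dir (.pot 0))))) (.y 528 
(.lf (.dir (.pot 0))) (.a 236 (.lf (.two (.lm 13 22 22 0 17 28 12) (.lf 22 109 0 130))) 
(.lf (.dir (.pot 0)))))))) (.z 247 (.y 517 (.lf (.dir (.lf 20 107 8 118))) 
(.lf (.two (.lf 20 0 14 0) (.pot 0)))) (.y 517 (.lf (.dir (.lf 20 107 8 118))) (.a 258 (.z 258 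
(.y 528 (.lf (.dir (.lf 19 112 4 127))) (.lf (.dir (.pot 0)))) 
(.lf (.two (.lm 19 0 22 0 24 28 12) (.lf 22 109 2 129)))) (.lf (.dir (.lf 22 109 2 129))))))))))) 
(.y 450 (.a 225 (.lf (.dir (.lf 5 81 32 54))) (.lf .inf)) (.a 225 (.z 315 (.y 495 (.a 202 
(.z 292 (.lf (.two (.lm 2 51 26 17 7 34 22) (.lf 26 75 18 83))) 
(.lf (.two (.lm 2 62 30 28 7 39 23) (.lf 30 61 18 74)))) (.z 292 
(.lf (.two (.lm 8 42 26 3 13 34 23) (.lf 26 75 18 83))) 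
(.lf (.two (.lm 8 51 30 16 13 39 23) (.lf 30 61 18 74))))) (.a 202 (.z 292 (.y 517 
(.lf (.two (.lm 2 51 26 17 7 34 22) (.lf 26 93 8 110))) 
(.lf (.two (.lm 2 51 26 17 7 34 22) (.lf 26 101 2 124)))) (.y 517 
(.lf (.two (.lm 2 62 30 28 7 39 23) (.lf 30 79 8 101))) 
(.lf (.two (.lm 2 62 30 28 7 39 23) (.lf 30 87 2 115))))) (.z 292 (.y 517 
(.lf (.two (.lm 8 42 26 3 13 34 23) (.lf 26 93 8 110))) 
(.lf (.two (.lm 8 42 26 3 13 34 23) (.lf 26 101 2 124)))) (.y 517 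
(.lf (.two (.lm 8 51 30 16 13 39 23) (.lf 30 79 8 101))) 
(.lf (.two (.lm 8 51 30 16 13 39 23) (.lf 30 87 2 115))))))) (.y 495 (.a 202 (.z 337 
(.lf (.two (.lm 2 74 33 39 7 41 22) (.lm 33 47 18 66 41 29 34))) 
(.lf (.two (.lm 2 84 35 51 7 43 23) (.lm 35 33 18 57 43 29 34)))) (.z 337 
(.lf (.two (.lm 8 61 33 29 13 41 23) (.lm 33 47 18 66 41 29 34))) 
(.lf (.two (.lm 8 71 35 41 13 43 23) (.lm 35 33 18 57 43 29 34))))) (.a 202 (.z 337 (.y 517 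
(.lf (.two (.lm 2 74 33 39 7 41 22) (.lm 33 67 8 91 41 13 22))) 
(.lf (.two (.lm 2 74 33 39 7 41 22) (.lf 33 75 2 105)))) (.y 517 
(.lf (.two (.lm 2 84 35 51 7 43 23) (.lm 35 54 8 81 43 13 23))) 
(.lf (.two (.lm 2 84 35 51 7 43 23) (.lm 35 62 2 95 43 7 23))))) (.z 337 (.y 517 
(.lf (.two (.lm 8 61 33 29 13 41 23) (.lm 33 67 8 91 41 13 22))) 
(.lf (.two (.lm 8 61 33 29 13 41 23) (.lf 33 75 2 105)))) (.y 517 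
(.lf (.two (.lm 8 71 35 41 13 43 23) (.lm 35 54 8 81 43 13 23))) 
(.lf (.two (.lm 8 71 35 41 13 43 23) (.lm 35 62 2 95 43 7 23)))))))) (.z 315 (.y 495 (.a 247 
(.z 292 (.lf (.two (.lm 14 23 26 0 21 34 22) (.lf 26 75 18 83))) 
(.lf (.two (.lm 14 41 30 4 21 39 23) (.lf 30 61 18 74)))) (.lf .inf)) (.a 247 (.z 292 (.y 517 
(.lf (.two (.lm 14 23 26 0 21 34 22) (.lf 26 93 8 110))) 
(.lf (.two (.lm 14 23 26 0 21 34 22) (.lf 26 101 2 124)))) 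
(.lf (.two (.lm 14 41 30 4 21 39 23) (.lf 30 78 5 102)))) (.z 292 (.y 517 
(.lf (.dir (.lf 20 107 8 118))) (.lf (.two (.lm 20 0 26 0 28 34 23) (.lf 26 101 2 124)))) 
(.lf (.two (.lm 20 22 30 0 28 39 23) (.lf 30 78 5 102)))))) (.y 495 (.a 247 
(.lf (.two (.lm 14 51 34 17 21 43 34) (.lm 34 34 18 56 43 29 45))) (.lf .inf)) (.a 247 (.z 337 
(.lf (.two (.lm 14 50 33 18 21 41 22) (.lf 33 65 5 93))) 
(.lf (.two (.lm 14 59 35 31 21 43 23) (.lf 35 52 5 83)))) 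
(.lf (.two (.lm 20 40 34 5 28 43 34) (.lf 34 52 5 83))))))))) (.z 270 (.y 450 (.lf .inf) 
(.a 315 (.z 225 (.lf .inf) (.y 495 (.lf .inf) (.lf (.dir (.lf 28 79 5 101))))) (.lf .inf))) 
(.y 450 (.lf .inf) (.a 315 (.z 315 (.y 495 (.lf .inf) (.lf (.dir (.lf 28 79 5 101)))) (.y 495 
(.lf .inf) (.lf (.dir (.lf 28 79 5 101))))) (.lf .inf)))))

theorem h2 : chk (leafR PP TD2 64 1) c2 64 96 180 360 180 360 360 540 = true := by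
  decide +kernel

def c3 : Tree :=
  (.a 270 (.z 270 (.y 630 (.a 225 (.z 225 (.y 585 (.a 202 (.lf (.tipa 6 13 23)) 
(.lf (.tipa 12 13 12))) (.lf (.low 2))) (.y 585 (.a 202 (.z 247 (.y 562 (.a 191 
(.lf (.tipa 3 20 34)) (.lf (.tipa 6 20 28))) (.lf (.low 2))) (.y 562 (.z 258 (.a 191 
(.lf (.two (.lm 0 42 19 14 4 24 11) (.pot 0))) (.y 551 
(.lf (.two (.lm 3 37 19 8 7 24 11) (.pot 0))) (.lf (.low 2)))) (.a 191 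
(.lf (.two (.lm 0 48 22 19 4 28 12) (.lf 22 109 0 131))) (.y 551 
(.lf (.two (.lm 3 43 22 13 7 28 12) (.lf 22 109 0 131))) (.lf (.low 2))))) (.lf (.low 2)))) 
(.z 247 (.y 562 (.a 213 (.z 236 (.lf (.tipa 8 16 17)) 
(.lf (.two (.lm 6 23 16 0 9 21 11) (.pot 0)))) (.z 236 (.y 551 (.t 80 (.lf (.tipa 11 15 12)) 
(.lf (.low 2))) (.lf (.low 2))) (.y 551 (.t 80 (.a 219 (.lf (.tipa 10 18 17)) (.z 241 
(.lf (.tipa 11 16 11)) (.lf (.two (.lm 10 16 16 0 12 19 6) (.pot 0))))) (.lf (.low 2))) 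
(.lf (.low 2))))) (.lf (.low 2))) (.y 562 (.a 213 (.z 258 (.y 551 (.t 80 
(.lf (.two (.lm 7 31 18 3 9 21 11) (.pot 0))) (.lf (.low 2))) (.lf (.low 2))) (.y 551 
(.lf (.two (.lm 6 38 22 7 9 28 12) (.lf 22 109 0 131))) (.lf (.low 2)))) (.z 258 (.y 551 
(.t 80 (.a 219 (.z 252 (.lf (.two (.lm 9 26 17 2 11 20 6) (.pot 0))) 
(.lf (.two (.lm 9 29 18 4 11 21 6) (.pot 0)))) (.z 252 
(.lf (.two (.lm 10 22 17 0 12 20 6) (.pot 0))) 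
(.lf (.two (.lm 10 26 18 1 12 21 6) (.lf 18 113 0 131))))) (.lf (.low 2))) (.lf (.low 2))) 
(.y 551 (.lf (.two (.lm 10 33 22 0 13 28 12) (.lf 22 109 0 131))) (.lf (.low 2))))) 
(.lf (.low 2))))) (.lf (.low 2)))) (.z 225 (.lf (.two (.lf 18 0 5 0) (.pot 1))) (.y 585 
(.a 247 (.z 247 (.y 562 (.a 236 (.z 236 (.y 551 (.t 80 (.a 230 (.lf (.tipa 13 15 6)) (.z 230 
(.lf (.two (.lf 13 0 12 0) (.pot 1))) (.y 545 (.t 72 (.lf (.tipa 14 14 3)) (.a 233 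
(.lf (.tipa 14 14 3)) (.z 233 (.lf (.two (.lf 14 0 13 0) (.pot 1))) (.y 542 (.t 76 
(.lf (.tipa 14 14 2)) (.lf (.low 2))) (.lf (.low 2)))))) (.lf (.low 2))))) (.lf (.low 2))) 
(.lf (.low 2))) (.y 551 (.t 80 (.a 230 (.z 241 (.lf (.two (.lm 12 6 14 0 14 17 5) (.pot 1))) 
(.y 545 (.lf (.two (.lm 12 11 16 0 14 19 6) (.pot 0))) (.lf (.low 2)))) (.z 241 (.y 545 (.t 72 
(.lf (.tipa 14 15 6)) (.a 233 (.z 238 (.lf (.tipa 14 15 4)) (.y 542 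
(.lf (.two (.lm 13 5 15 0 15 17 3) (.pot 0))) (.lf (.low 2)))) (.z 238 (.y 542 (.t 76 
(.lf (.tipa 14 15 3)) (.lf (.low 2))) (.lf (.low 2))) (.y 542 
(.lf (.two (.lm 14 2 15 0 15 17 3) (.pot 0))) (.lf (.low 2)))))) (.lf (.low 2))) (.y 545 
(.t 72 (.lf (.two (.lm 13 5 15 0 15 17 6) (.pot 0))) (.a 233 
(.lf (.two (.lm 13 8 16 0 15 18 5) (.pot 0))) (.z 244 
(.lf (.two (.lm 14 5 16 0 15 18 3) (.pot 0))) (.lf (.two (.lm 14 8 17 0 15 18 3) (.pot 0)))))) 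
(.lf (.low 2))))) (.lf (.low 2))) (.lf (.low 2)))) (.z 236 
(.lf (.two (.lf 16 0 13 0) (.pot 1))) (.y 551 (.t 80 (.a 241 (.z 241 (.y 545 (.t 72 (.a 238 
(.z 238 (.lf (.tipa 14 14 1)) (.y 542 (.lf (.two (.lm 14 0 14 0 15 16 3) (.pot 0))) (.t 68 
(.lf (.tipa 14 14 3)) (.z 239 (.lf (.tipa 14 14 2)) (.y 543 
(.lf (.two (.lm 14 1 14 0 15 16 2) (.pot 0))) (.lf (.low 2))))))) (.z 238 
(.lf (.two (.lf 14 0 14 0) (.pot 1))) (.y 542 (.lf (.dir (.pot 0))) (.t 68 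
(.lf (.tipa 14 14 2)) (.a 239 (.z 239 (.lf (.tipa 14 14 1)) (.y 543 (.lf (.dir (.pot 0))) 
(.lf (.low 2)))) (.z 239 (.lf (.two (.lf 14 0 14 0) (.pot 1))) (.y 543 (.lf (.dir (.pot 0))) 
(.lf (.low 2))))))))) (.a 238 (.z 238 (.y 542 (.t 76 (.t 74 (.lf (.tipa 14 14 1)) 
(.lf (.low 2))) (.lf (.low 2))) (.lf (.low 2))) (.y 542 (.t 76 (.z 239 (.t 74 
(.lf (.two (.lm 14 0 14 0 15 16 2) (.pot 0))) (.lf (.low 2))) 
(.lf (.two (.lm 14 1 15 0 16 16 2) (.pot 0)))) (.lf (.low 2))) (.lf (.low 2)))) (.z 238 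
(.lf (.two (.lf 15 0 14 0) (.pot 1))) (.y 542 (.lf (.dir (.pot 0))) (.lf (.low 2)))))) 
(.lf (.low 2))) (.y 545 (.t 72 (.z 244 (.a 238 (.lf (.two (.lm 14 3 15 0 15 17 3) (.pot 0))) 
(.y 542 (.lf (.dir (.pot 0))) (.t 68 (.lf (.two (.lm 14 0 15 0 15 16 3) (.pot 0))) (.a 239 
(.lf (.two (.lm 14 2 15 0 15 17 2) (.pot 0))) (.z 242 (.y 543 (.lf (.dir (.pot 0))) 
(.lf (.low 2))) (.lf (.two (.lm 14 1 15 0 16 17 2) (.pot 0)))))))) 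
(.lf (.two (.lm 14 3 15 0 16 17 4) (.pot 0)))) (.z 244 (.a 238 (.y 542 
(.lf (.two (.lm 14 3 16 0 16 18 3) (.pot 0))) (.lf (.low 2))) (.y 542 (.lf (.dir (.pot 0))) 
(.lf (.low 2)))) (.a 238 (.lf (.two (.lm 14 6 17 0 16 18 3) (.pot 0))) (.y 542 
(.lf (.dir (.pot 0))) (.lf (.low 2)))))) (.lf (.low 2)))) (.z 241 
(.lf (.two (.lf 16 0 14 0) (.pot 1))) (.y 545 (.lf (.dir (.pot 0))) (.lf (.low 2))))) 
(.lf (.low 2))) (.lf (.low 2))))) (.lf (.low 2))) (.y 562 (.z 258 (.a 236 (.y 551 (.t 80 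
(.a 230 (.z 252 (.y 545 (.lf (.two (.lm 12 17 17 0 14 20 5) (.pot 0))) (.lf (.low 2))) 
(.lf (.two (.lm 12 22 18 0 14 21 6) (.lf 18 113 0 131)))) (.z 252 (.y 545 (.t 72 
(.lf (.two (.lm 13 11 16 0 15 19 6) (.pot 0))) 
(.lf (.two (.lm 13 11 18 0 15 20 6) (.lf 18 113 0 131)))) (.lf (.low 2))) (.y 545 
(.lf (.two (.lm 13 16 18 0 16 21 6) (.lf 18 113 0 131))) (.lf (.low 2))))) (.lf (.low 2))) 
(.lf (.low 2))) (.y 551 (.t 80 (.a 241 (.z 252 (.y 545 (.t 72 (.a 238 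
(.lf (.two (.lm 14 9 16 0 15 19 4) (.pot 0))) (.lf (.two (.lm 14 6 16 0 16 19 4) (.pot 0)))) 
(.a 238 (.lf (.two (.lm 14 9 18 0 16 20 4) (.lf 18 113 0 131))) (.z 249 (.y 542 
(.lf (.dir (.pot 0))) (.lf (.low 2))) (.lf (.two (.lm 15 8 18 0 17 20 3) (.lf 18 113 0 131)))))) 
(.lf (.low 2))) (.y 545 (.lf (.two (.lm 14 11 18 0 17 21 6) (.lf 18 113 0 131))) (.lf (.low 2)))) 
(.z 252 (.y 545 (.lf (.dir (.pot 0))) (.lf (.low 2))) (.y 545 (.lf (.dir (.pot 0))) 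
(.lf (.low 2))))) (.lf (.low 2))) (.lf (.low 2)))) (.a 236 (.y 551 (.t 80 
(.lf (.two (.lm 12 22 20 0 16 24 12) (.lf 20 111 0 131))) (.lf (.low 2))) (.lf (.low 2))) 
(.y 551 (.t 80 (.lf (.two (.lm 15 11 20 0 19 24 12) (.lf 20 111 0 131))) (.lf (.low 2))) 
(.lf (.low 2))))) (.lf (.low 2)))) (.z 247 (.lf (.two (.lf 20 0 14 0) (.pot 1))) (.y 562 
(.a 258 (.z 258 (.y 551 (.lf (.dir (.pot 0))) (.lf (.low 2))) (.y 551 (.lf (.dir (.pot 0))) 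
(.lf (.low 2)))) (.lf (.dir (.pot 0)))) (.lf (.low 2))))) (.lf (.low 2))))) (.lf (.low 2))) 
(.y 630 (.a 225 (.z 315 (.y 585 (.a 202 (.z 292 (.y 562 (.a 191 (.z 281 
(.lf (.two (.lm 0 55 24 24 4 31 11) (.lf 24 106 0 131))) 
(.lf (.two (.lm 0 61 27 29 4 34 11) (.lf 27 104 0 131)))) (.z 281 
(.lf (.two (.lm 3 49 24 19 7 31 11) (.lf 24 106 0 131))) 
(.lf (.two (.lm 3 55 27 24 7 34 11) (.lf 27 104 0 131))))) (.lf (.low 2))) (.y 562 (.z 303 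
(.a 191 (.lf (.two (.lm 0 66 29 35 4 36 11) (.lf 29 102 0 131))) 
(.lf (.two (.lm 3 61 29 29 7 36 11) (.lf 29 102 0 131)))) (.a 191 (.y 551 
(.lf (.two (.lm 0 72 31 40 4 38 12) (.lf 31 97 0 128))) (.lf (.low 2))) 
(.lf (.two (.lm 3 66 31 35 7 38 12) (.lf 31 97 0 128))))) (.lf (.low 2)))) (.z 292 (.y 562 
(.a 213 (.z 281 (.lf (.two (.lm 6 44 24 13 9 31 11) (.lf 24 106 0 131))) 
(.lf (.two (.lm 6 49 27 19 9 34 11) (.lf 27 104 0 131)))) (.z 281 (.y 551 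
(.lf (.two (.lm 10 38 24 7 13 31 12) (.lf 24 106 0 131))) (.lf (.low 2))) 
(.lf (.two (.lm 10 44 27 12 13 34 12) (.lf 27 104 0 131))))) (.lf (.low 2))) (.y 562 (.a 213 
(.lf (.two (.lm 6 56 30 23 9 39 17) (.lf 30 97 0 128))) 
(.lf (.two (.lm 10 50 30 17 13 39 18) (.lf 30 97 0 128)))) (.lf (.low 2))))) (.lf (.low 2))) 
(.y 585 (.a 202 (.z 337 (.y 562 (.a 191 (.z 326 (.y 551 
(.lf (.two (.lm 0 79 32 45 4 40 11) (.lf 32 91 0 123))) (.lf (.low 2))) (.y 551 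
(.lf (.two (.lm 0 84 34 51 4 41 11) (.lf 34 85 0 118))) (.lf (.low 2)))) 
(.lf (.two (.lm 3 73 33 40 7 41 17) (.lf 33 85 0 118)))) (.lf (.low 2))) (.y 562 (.z 348 
(.a 191 (.y 551 (.lf (.two (.lm 0 90 34 56 4 42 11) (.lm 34 79 0 113 42 2 11))) (.lf (.low 2))) 
(.lf (.two (.lm 3 84 34 51 7 42 11) (.lf 34 79 0 113)))) (.a 191 (.y 551 
(.lf (.two (.lm 0 95 35 62 4 42 12) (.lm 35 73 0 107 42 2 12))) (.lf (.low 2))) 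
(.lf (.two (.lm 3 89 35 57 7 42 12) (.lm 35 73 0 107 42 2 17))))) (.lf (.low 2)))) (.z 337 
(.y 562 (.a 213 (.lf (.two (.lm 6 67 33 35 9 41 17) (.lf 33 85 0 118))) 
(.lf (.two (.lm 10 60 33 30 13 41 17) (.lf 33 85 0 118)))) (.lf (.low 2))) (.y 562 
(.lf (.two (.lm 8 71 35 41 13 43 23) (.lf 35 73 0 107))) (.lf (.low 2))))) (.lf (.low 2)))) 
(.z 315 (.y 585 (.a 247 (.z 292 (.y 562 (.a 236 (.z 281 (.y 551 
(.lf (.two (.lm 13 34 24 0 17 31 11) (.lf 24 106 0 131))) (.lf (.low 2))) 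
(.lf (.two (.lm 13 38 27 7 17 34 11) (.lf 27 104 0 131)))) (.z 281 (.y 551 
(.lf (.two (.lm 16 23 24 0 21 31 11) (.lf 24 106 0 131))) (.lf (.low 2))) 
(.lf (.two (.lm 16 33 27 1 21 34 11) (.lf 27 104 0 131))))) (.lf (.low 2))) (.y 562 (.z 303 
(.lf (.two (.lm 14 39 29 6 21 36 17) (.lf 29 102 0 131))) 
(.lf (.two (.lm 14 44 31 12 21 38 17) (.lf 31 97 0 128)))) (.lf (.low 2)))) (.z 292 (.y 562 
(.a 258 (.z 281 (.y 551 (.lf (.dir (.pot 0))) (.lf (.low 2))) 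
(.lf (.two (.lm 19 23 27 0 24 34 11) (.lf 27 104 0 131)))) (.lf (.dir (.pot 0)))) 
(.lf (.low 2))) (.y 562 (.lf (.two (.lm 20 22 30 0 28 39 23) (.lf 30 97 0 128))) (.lf (.low 2))))) 
(.lf (.low 2))) (.y 585 (.a 247 (.z 337 (.y 562 
(.lf (.two (.lm 14 50 33 18 21 41 22) (.lf 33 85 0 118))) (.lf (.low 2))) (.y 562 
(.lf (.two (.lm 14 59 35 31 21 43 23) (.lf 35 73 0 107))) (.lf (.low 2)))) (.z 337 (.y 562 
(.lf (.two (.lm 20 38 33 7 28 41 23) (.lf 33 85 0 118))) (.lf (.low 2))) 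
(.lf (.two (.lm 20 46 35 21 28 43 23) (.lf 35 73 0 107))))) (.lf (.low 2))))) (.lf (.low 2)))) 
(.z 270 (.lf (.two (.lf 32 0 11 0) (.pot 1))) (.y 630 (.a 315 (.z 315 (.y 585 (.a 292 (.z 292 
(.y 562 (.lf (.dir (.lf 26 105 0 131))) (.lf (.low 2))) (.y 562 (.lf (.dir (.lf 26 105 0 131))) 
(.lf (.low 2)))) (.lf (.dir (.lf 30 97 0 128)))) (.lf (.low 2))) (.y 585 (.a 292 
(.lf (.two (.lm 26 23 34 0 34 43 34) (.lf 34 73 0 107))) (.lf (.dir (.lf 30 97 0 128)))) 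
(.lf (.low 2)))) (.z 315 (.y 585 (.lf (.dir (.lf 34 73 0 107))) (.lf (.low 2))) (.y 585 
(.lf (.dir (.lf 34 73 0 107))) (.lf (.low 2))))) (.lf (.low 2)))))

theorem h3 : chk (leafR PP TD2 64 1) c3 64 96 180 360 180 360 540 720 = true := by
  decide +kernel

def c4 : Tree :=
  (.z 540 (.y 540 (.a 90 (.lf (.low 0)) (.z 450 (.y 450 (.a 135 (.lf (.low 0)) (.z 405 (.y 405 
(.lf (.dir (.lf 0 107 34 73))) (.a 157 (.lf (.low 0)) (.lf (.dir (.lf 0 126 28 99))))) (.y 405 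
(.lf (.dir (.lf 0 107 34 73))) (.a 157 (.lf (.low 0)) (.lf (.dir (.lf 0 126 28 99))))))) 
(.a 135 (.lf (.low 0)) (.z 405 (.y 495 (.a 157 (.lf (.low 0)) (.z 382 (.y 472 
(.lf (.two (.lf 0 107 35 73) (.lm 35 22 21 46 42 28 22))) 
(.lf (.two (.lf 0 107 35 73) (.lm 35 31 15 59 42 21 23)))) (.y 472 
(.lf (.two (.lf 0 117 33 85) (.lm 33 7 21 38 42 28 23))) 
(.lf (.two (.lf 0 117 33 85) (.lm 33 18 15 49 42 21 23)))))) (.a 157 (.lf (.low 0)) (.z 382 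
(.y 517 (.lf (.two (.lf 0 107 35 73) (.lm 35 41 8 72 42 13 22))) (.a 168 (.lf (.low 0)) 
(.lf (.two (.lm 0 107 35 73 2 42 17) (.lm 35 51 2 84 42 7 23))))) (.y 517 (.a 168 
(.lf (.low 0)) (.lf (.two (.lf 0 117 33 85) (.lm 33 29 8 61 42 13 23)))) (.a 168 (.lf (.low 0)) 
(.z 393 (.lf (.two (.lf 0 118 34 84) (.lm 34 45 2 79 41 7 17))) 
(.lf (.two (.lf 0 123 32 90) (.lm 32 39 2 73 40 7 18))))))))) (.y 495 (.a 157 (.lf (.low 0)) 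
(.z 427 (.y 472 (.lf (.two (.lf 0 128 30 97) (.lm 30 0 21 23 39 28 22))) (.a 168 (.lf (.low 0)) 
(.lf (.two (.lf 0 128 30 97) (.lm 30 4 15 41 39 21 23))))) (.y 472 (.a 168 (.lf (.low 0)) 
(.lf (.dir (.pot 0)))) (.a 168 (.lf (.low 0)) (.z 438 
(.lf (.two (.lf 0 131 27 104) (.lm 27 0 15 34 34 21 17))) (.y 483 
(.lf (.two (.lf 0 131 25 106) (.lm 25 0 16 22 31 21 12))) 
(.lf (.two (.lf 0 131 25 106) (.lm 25 0 13 33 31 17 12))))))))) (.a 157 (.lf (.low 0)) (.z 427 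
(.y 517 (.a 168 (.lf (.low 0)) (.lf (.two (.lf 0 128 30 97) (.lm 30 17 8 51 39 13 22)))) 
(.a 168 (.lf (.low 0)) (.y 528 (.lf (.two (.lf 0 128 30 97) (.lm 30 29 4 61 39 7 17))) 
(.lf (.two (.lf 0 128 30 97) (.lm 30 34 0 67 39 4 17)))))) (.y 517 (.a 168 (.lf (.low 0)) 
(.z 438 (.lf (.two (.lf 0 131 27 104) (.lm 27 12 8 45 34 13 17))) 
(.lf (.two (.lf 0 131 25 106) (.lm 25 5 8 40 31 13 17))))) (.a 168 (.lf (.low 0)) (.z 438 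
(.lf (.two (.lf 0 131 27 104) (.lm 27 23 2 56 34 7 17))) 
(.lf (.two (.lf 0 131 25 106) (.lm 25 17 2 50 31 7 18)))))))))))) (.y 450 
(.lf (.two (.pot 1) (.lf 11 0 32 0))) (.a 135 (.lf (.low 0)) (.z 495 (.y 495 (.a 157 
(.lf (.low 0)) (.z 472 (.y 472 (.a 168 (.lf (.low 0)) (.lf (.dir (.pot 0)))) (.a 168 
(.lf (.low 0)) (.y 483 (.z 461 (.t 80 (.lf (.two (.lf 0 131 20 110) (.lm 20 0 15 11 24 19 11))) 
(.lf (.low 0))) (.t 80 (.a 174 (.lf (.low 0)) (.z 466 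
(.lf (.two (.lf 0 131 19 112) (.lm 19 0 15 6 22 19 8))) (.y 477 (.lf (.dir (.pot 0))) (.t 72 
(.a 177 (.z 469 (.lf (.two (.lf 0 131 17 114) (.lm 17 0 14 8 19 16 5))) (.y 480 
(.lf (.two (.pot 0) (.lm 16 0 15 5 18 16 3))) (.lf (.two (.pot 0) (.lm 16 0 14 8 18 16 3))))) 
(.lf (.two (.lf 0 131 17 114) (.lm 17 0 14 5 19 16 6)))) (.a 177 (.lf (.low 0)) 
(.lf (.two (.lf 0 131 18 113) (.lm 18 0 15 5 20 17 6)))))))) (.lf (.low 0)))) (.z 461 (.t 80 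
(.lf (.two (.lf 0 131 20 110) (.lm 20 0 12 22 24 16 12))) (.lf (.low 0))) (.t 80 (.a 174 
(.lf (.low 0)) (.y 489 (.z 466 (.lf (.two (.lf 0 131 19 112) (.lm 19 0 13 17 22 16 6))) (.t 72 
(.lf (.two (.pot 0) (.lm 17 0 13 11 19 15 6))) 
(.lf (.two (.lf 0 131 18 113) (.lm 18 0 14 11 20 16 6))))) 
(.lf (.two (.lf 0 131 18 113) (.lm 18 0 12 17 22 14 9))))) (.lf (.low 0))))))) (.y 472 
(.lf (.two (.pot 1) (.lf 15 0 21 0))) (.a 168 (.lf (.low 0)) (.z 483 (.y 483 (.t 80 (.a 174 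
(.lf (.low 0)) (.z 477 (.y 477 (.lf (.dir (.pot 0))) (.t 72 (.a 177 (.y 480 (.z 474 
(.lf (.two (.pot 0) (.lm 16 0 15 3 18 16 3))) (.t 68 (.a 175 (.lf (.low 0)) 
(.lf (.dir (.pot 0)))) (.lf (.low 0)))) (.z 474 (.lf (.two (.pot 0) (.lm 16 0 14 6 18 16 3))) 
(.lf (.two (.pot 0) (.lm 15 0 14 3 17 16 3))))) (.y 480 (.lf (.dir (.pot 0))) 
(.lf (.two (.pot 0) (.lm 15 0 14 3 18 16 4))))) (.a 177 (.lf (.low 0)) (.y 480 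
(.lf (.dir (.pot 0))) (.z 474 (.lf (.two (.pot 0) (.lm 17 0 15 6 19 17 3))) 
(.lf (.two (.pot 0) (.lm 16 0 15 3 18 17 3)))))))) (.y 477 (.lf (.dir (.pot 0))) (.t 72 
(.a 177 (.z 480 (.y 480 (.t 68 (.a 175 (.lf (.low 0)) (.lf (.dir (.pot 0)))) (.lf (.low 0))) 
(.t 68 (.a 175 (.lf (.low 0)) (.z 478 (.lf (.two (.pot 0) (.lm 15 0 14 2 16 15 2))) 
(.lf (.tipb 15 14 3)))) (.lf (.low 0)))) (.y 480 (.lf (.two (.pot 1) (.lf 14 0 15 0))) (.t 68 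
(.lf (.tipb 14 14 2)) (.lf (.low 0))))) (.z 480 (.lf (.two (.pot 0) (.lm 15 0 14 0 16 16 3))) 
(.y 480 (.lf (.dir (.pot 0))) (.t 68 (.lf (.tipb 14 14 2)) (.a 178 (.z 481 (.y 481 
(.lf (.dir (.pot 0))) (.lf (.two (.pot 0) (.lm 14 0 14 0 16 15 2)))) (.y 481 
(.lf (.dir (.pot 0))) (.lf (.tipb 14 14 1)))) (.lf (.dir (.pot 0)))))))) (.a 177 (.lf (.low 0)) 
(.z 480 (.y 480 (.lf (.dir (.pot 0))) (.t 76 (.a 178 (.lf (.low 0)) (.lf (.dir (.pot 0)))) 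
(.lf (.low 0)))) (.y 480 (.lf (.dir (.pot 0))) (.t 76 (.a 178 (.lf (.low 0)) 
(.lf (.dir (.pot 0)))) (.lf (.low 0)))))))))) (.lf (.low 0))) (.t 80 (.a 174 (.lf (.low 0)) 
(.y 489 (.z 477 (.t 72 (.a 177 (.y 486 (.lf (.two (.pot 0) (.lm 15 0 13 6 18 15 4))) 
(.lf (.two (.pot 0) (.lm 15 0 12 9 18 14 4)))) (.lf (.two (.pot 0) (.lm 15 0 13 6 18 15 6)))) 
(.a 177 (.lf (.low 0)) (.y 486 (.z 474 (.lf (.two (.pot 0) (.lm 17 0 14 9 19 16 3))) 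
(.lf (.two (.pot 0) (.lm 16 0 14 6 18 16 3)))) (.lf (.two (.pot 0) (.lm 17 0 13 9 19 15 4)))))) 
(.t 72 (.a 177 (.z 480 (.y 486 (.t 68 (.lf (.tipb 15 14 5)) (.lf (.low 0))) 
(.lf (.tipb 15 13 6))) (.lf (.tipb 15 14 5))) (.z 480 
(.lf (.two (.pot 0) (.lm 15 0 13 3 16 15 5))) (.lf (.tipb 15 14 5)))) (.a 177 (.lf (.low 0)) 
(.z 480 (.y 486 (.lf (.two (.pot 0) (.lm 16 0 14 3 17 16 3))) 
(.lf (.two (.pot 0) (.lm 16 0 13 6 17 15 3)))) (.y 486 (.t 76 (.a 178 (.lf (.low 0)) (.z 481 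
(.lf (.two (.pot 0) (.lm 15 0 14 2 16 15 2))) (.y 484 (.t 74 (.lf (.tipb 15 14 2)) 
(.lf (.low 0))) (.t 74 (.lf (.tipb 15 14 3)) (.lf (.low 0)))))) (.lf (.low 0))) (.t 76 
(.lf (.tipb 15 14 5)) (.lf (.low 0)))))))) (.z 477 
(.lf (.two (.pot 0) (.lm 16 0 12 12 19 14 6))) (.t 72 (.lf (.tipb 15 12 9)) (.a 177 
(.lf (.low 0)) (.lf (.two (.pot 0) (.lm 15 0 12 6 17 14 6)))))))) (.lf (.low 0)))) (.y 483 
(.lf (.two (.pot 1) (.lf 13 0 16 0))) (.t 80 (.a 174 (.lf (.low 0)) (.z 489 (.y 489 (.t 72 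
(.lf (.tipb 14 14 3)) (.a 177 (.lf (.low 0)) (.z 486 (.y 486 (.t 76 (.lf (.tipb 14 14 2)) 
(.lf (.low 0))) (.lf (.tipb 15 14 3))) (.lf (.tipb 14 15 2))))) (.lf (.tipb 15 13 6))) 
(.lf (.tipb 13 15 3)))) (.lf (.low 0))))))))) (.a 157 (.lf (.low 0)) (.z 472 (.y 517 (.a 168 
(.lf (.low 0)) (.z 461 (.y 506 (.lf (.two (.lf 0 131 22 109) (.lm 22 1 10 33 28 13 11))) 
(.lf (.two (.lf 0 131 22 109) (.lm 22 7 7 38 28 9 11)))) (.y 506 (.t 80 (.a 174 (.lf (.low 0)) 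
(.lf (.two (.lf 0 131 18 113) (.lm 18 0 10 23 22 12 11)))) (.lf (.low 0))) (.t 80 
(.lf (.two (.lf 0 131 18 113) (.lm 18 3 7 31 22 9 11))) (.lf (.low 0)))))) (.a 168 
(.lf (.low 0)) (.y 528 (.z 461 (.lf (.two (.lf 0 131 22 109) (.lm 22 13 4 43 28 7 11))) 
(.lf (.two (.pot 0) (.lm 19 8 4 37 25 7 11)))) 
(.lf (.two (.lf 0 131 21 110) (.lm 21 12 0 44 28 4 17)))))) (.y 517 (.a 168 (.lf (.low 0)) 
(.z 483 (.y 506 (.t 80 (.a 174 (.lf (.low 0)) (.lf (.two (.pot 0) (.lm 15 0 10 12 19 12 11)))) 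
(.lf (.low 0))) (.lf (.two (.pot 0) (.lm 16 0 7 23 21 9 11)))) (.y 506 (.t 80 
(.lf (.tipb 15 11 12)) (.lf (.low 0))) (.lf (.tipb 16 8 17))))) (.a 168 (.lf (.low 0)) (.z 483 
(.lf (.two (.pot 0) (.lm 16 0 2 34 21 7 17))) (.lf (.tipb 16 6 29)))))))) (.y 495 
(.lf (.two (.pot 1) (.lf 5 0 18 0))) (.a 157 (.lf (.low 0)) (.z 517 (.y 517 
(.lf (.tipb 12 12 11)) (.lf (.tipb 12 6 23))) (.lf (.tipb 6 13 12)))))))))) (.a 90 (.lf .inf) 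
(.z 450 (.y 630 (.a 135 (.lf .inf) (.z 405 (.y 585 (.a 157 (.lf .inf) (.z 382 (.y 562 (.a 168 
(.lf .inf) (.z 371 (.y 551 (.t 80 
(.lf (.two (.lm 0 105 32 75 2 36 12) (.lm 32 69 0 100 36 2 11))) (.lf (.low 0))) (.lf .inf)) 
(.y 551 (.lf (.two (.lm 0 112 34 79 2 42 12) (.lm 34 62 0 96 42 2 11))) (.lf .inf)))) 
(.lf .inf)) (.y 562 (.a 168 (.lf .inf) (.z 393 (.y 551 
(.lf (.two (.lf 0 118 34 84) (.lm 34 57 0 90 41 2 11))) (.lf .inf)) (.y 551 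
(.lf (.two (.lf 0 123 32 90) (.lm 32 51 0 84 40 2 12))) (.lf .inf)))) (.lf .inf)))) (.lf .inf)) 
(.y 585 (.a 157 (.lf .inf) (.z 427 (.y 562 (.a 168 (.lf .inf) (.z 416 (.y 551 
(.lf (.two (.lf 0 128 31 97) (.lm 31 46 0 78 38 2 11))) (.lf .inf)) (.y 551 
(.lf (.two (.lf 0 131 29 101) (.lm 29 41 0 72 36 2 11))) (.lf .inf)))) (.lf .inf)) (.y 562 
(.a 168 (.lf .inf) (.z 438 (.y 551 (.lf (.two (.lf 0 131 27 104) (.lm 27 36 0 66 34 2 11))) 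
(.lf .inf)) (.y 551 (.lf (.two (.lf 0 131 25 106) (.lm 25 31 0 59 31 2 12))) (.lf .inf)))) 
(.lf .inf)))) (.lf .inf)))) (.lf .inf)) (.y 630 (.a 135 (.lf .inf) (.z 495 (.y 585 (.a 157 
(.lf .inf) (.z 472 (.y 562 (.a 168 (.lf .inf) (.z 461 
(.lf (.two (.lf 0 131 22 109) (.lm 22 26 0 53 28 2 17))) 
(.lf (.two (.lf 0 131 19 112) (.lm 19 21 0 47 25 2 17))))) (.lf .inf)) (.y 562 
(.lf (.tipb 20 1 45)) (.lf .inf)))) (.lf .inf)) (.y 585 (.lf (.tipb 13 2 45)) (.lf .inf)))) 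
(.lf .inf))))) (.y 540 (.lf (.two (.pot 1) (.lf 0 0 23 0))) (.a 90 (.lf .inf) (.z 630 (.y 630 
(.lf (.tipb 5 5 45)) (.lf .inf)) (.lf (.low 1))))))

theorem h4 : chk (leafR PP TD2 64 1) c4 64 96 0 180 360 720 360 720 = true := by
  decide +kernel

def c5 : Tree :=
  (.z 540 (.y 540 (.a 270 (.z 450 (.y 450 (.a 225 (.lf (.dir (.lf 5 81 32 54))) (.lf .inf)) 
(.a 225 (.z 405 (.y 495 (.a 202 (.z 382 
(.lf (.two (.lm 2 95 35 63 7 42 22) (.lm 35 19 18 49 42 29 34))) (.y 472 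
(.lf (.two (.lf 2 105 33 75) (.lm 33 7 21 38 42 28 23))) 
(.lf (.two (.lf 2 105 33 75) (.lm 33 18 15 49 42 21 23))))) (.z 382 
(.lf (.two (.lm 8 82 35 53 13 42 23) (.lm 35 19 18 49 42 29 34))) (.y 472 
(.lf (.dir (.lf 8 119 21 106))) 
(.lf (.two (.lm 8 91 33 66 13 42 23) (.lm 33 18 15 49 42 21 23)))))) (.a 202 (.z 382 (.y 517 
(.lf (.two (.lm 2 95 35 63 7 42 22) (.lm 35 41 8 72 42 13 22))) 
(.lf (.two (.lm 2 95 35 63 7 42 22) (.lm 35 51 2 84 42 7 23)))) (.y 517 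
(.lf (.two (.lf 2 105 33 75) (.lm 33 29 8 61 42 13 23))) 
(.lf (.two (.lf 2 105 33 75) (.lm 33 39 2 73 42 7 23))))) (.z 382 (.y 517 
(.lf (.two (.lm 8 82 35 53 13 42 23) (.lm 35 41 8 72 42 13 22))) 
(.lf (.two (.lm 8 82 35 53 13 42 23) (.lm 35 51 2 84 42 7 23)))) (.y 517 
(.lf (.two (.lm 8 91 33 66 13 42 23) (.lm 33 29 8 61 42 13 23))) 
(.lf (.two (.lm 8 91 33 66 13 42 23) (.lm 33 39 2 73 42 7 23))))))) (.y 495 (.a 202 (.z 427 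
(.y 472 (.lf (.two (.lf 2 115 30 88) (.lm 30 0 21 23 39 28 22))) 
(.lf (.two (.lf 2 115 30 88) (.lm 30 4 15 41 39 21 23)))) (.y 472 
(.lf (.two (.lf 2 124 26 101) (.lm 26 0 21 0 34 28 23))) 
(.lf (.two (.lf 2 124 26 101) (.lm 26 0 15 22 34 21 23))))) (.z 427 (.y 472 
(.lf (.dir (.lf 8 119 21 106))) (.lf (.two (.lf 8 101 30 79) (.lm 30 4 15 41 39 21 23)))) 
(.y 472 (.lf (.dir (.lf 8 119 21 106))) 
(.lf (.two (.lf 8 110 26 92) (.lm 26 0 15 22 34 21 23)))))) (.a 202 (.z 427 (.y 517 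
(.lf (.two (.lf 2 115 30 88) (.lm 30 17 8 51 39 13 22))) 
(.lf (.two (.lf 2 115 30 88) (.lm 30 28 2 62 39 7 23)))) (.y 517 
(.lf (.two (.lf 2 124 26 101) (.lm 26 3 8 42 34 13 23))) 
(.lf (.two (.lf 2 124 26 101) (.lm 26 16 2 51 34 7 23))))) (.z 427 (.y 517 
(.lf (.two (.lf 8 101 30 79) (.lm 30 17 8 51 39 13 22))) 
(.lf (.two (.lf 8 101 30 79) (.lm 30 28 2 62 39 7 23)))) (.y 517 
(.lf (.two (.lf 8 110 26 92) (.lm 26 3 8 42 34 13 23))) 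
(.lf (.two (.lf 8 110 26 92) (.lm 26 16 2 51 34 7 23)))))))) (.z 405 (.y 495 (.a 247 (.z 382 
(.lf (.two (.lm 14 68 35 45 21 42 22) (.lm 35 19 18 49 42 29 34))) 
(.lf (.two (.lm 14 78 33 57 21 42 23) (.lm 33 3 18 42 42 29 34)))) (.lf .inf)) (.a 247 (.z 382 
(.lf (.two (.lm 14 68 35 45 21 42 22) (.lm 35 40 5 73 42 14 34))) 
(.lf (.two (.lm 14 78 33 57 21 42 23) (.lm 33 27 5 63 42 14 34)))) 
(.lf (.two (.lm 20 55 34 35 28 43 34) (.lm 34 26 5 64 43 14 45))))) (.y 495 (.a 247 (.z 427 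
(.y 472 (.lf .inf) (.lf (.dir (.lf 14 113 15 112)))) (.y 472 (.lf .inf) 
(.lf (.dir (.lf 14 113 15 112))))) (.lf .inf)) (.a 247 (.z 427 
(.lf (.two (.lf 14 87 30 71) (.lm 30 15 5 53 39 14 34))) 
(.lf (.two (.lf 14 96 26 84) (.lm 26 0 5 45 34 14 34)))) 
(.lf (.two (.lf 20 72 28 63) (.lm 28 0 5 45 39 14 45)))))))) (.y 450 (.a 225 
(.lf (.dir (.lf 5 81 32 54))) (.lf .inf)) (.a 225 (.z 495 (.y 495 (.a 202 (.z 472 (.y 472 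
(.a 191 (.z 461 (.lf (.two (.lf 0 130 22 109) (.lm 22 0 21 0 28 28 11))) 
(.lf (.two (.lf 0 130 19 112) (.lm 19 0 21 0 25 28 6)))) (.lf (.dir (.lf 3 127 21 110)))) 
(.y 483 (.lf (.dir (.pot 0))) (.a 191 (.z 461 
(.lf (.two (.lf 0 130 22 109) (.lm 22 0 13 22 28 17 12))) (.t 80 
(.lf (.two (.lf 1 129 18 113) (.lm 18 0 12 11 22 16 12))) (.y 489 
(.lf (.two (.lf 0 131 20 110) (.lm 20 0 15 11 24 17 9))) 
(.lf (.two (.lf 0 131 20 110) (.lm 20 0 13 17 24 15 9)))))) (.lf (.dir (.pot 0)))))) (.y 472 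
(.lf (.two (.pot 0) (.lf 15 0 21 0))) (.z 483 (.y 483 (.lf (.dir (.pot 0))) (.a 191 (.t 80 
(.y 489 (.a 185 (.z 477 (.t 72 (.lf (.two (.pot 0) (.lm 15 0 13 6 18 15 6))) (.y 486 
(.lf (.two (.pot 0) (.lm 17 0 14 6 19 16 4))) (.lf (.two (.pot 0) (.lm 17 0 13 9 19 15 4))))) 
(.t 72 (.z 480 (.lf (.two (.pot 0) (.lm 15 0 13 3 16 15 5))) (.lf (.tipb 15 14 5))) (.z 480 
(.lf (.two (.pot 0) (.lm 16 0 14 3 17 16 5))) (.y 486 (.a 182 (.t 76 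
(.lf (.two (.pot 0) (.lm 15 0 14 0 16 15 3))) (.z 481 
(.lf (.two (.pot 0) (.lm 15 0 14 2 17 16 2))) (.lf (.two (.pot 0) (.lm 15 0 14 0 16 16 3))))) 
(.lf (.dir (.pot 0)))) (.lf (.two (.pot 0) (.lm 15 0 13 3 17 15 3))))))) (.lf (.dir (.pot 0)))) 
(.a 185 (.z 477 (.lf (.two (.pot 0) (.lm 16 0 12 12 19 14 6))) 
(.lf (.two (.pot 0) (.lm 15 0 12 6 17 14 6)))) (.lf (.two (.pot 0) (.lm 15 0 12 6 19 14 9))))) 
(.y 489 (.a 185 (.z 477 (.t 88 (.y 486 (.lf (.two (.lf 0 131 18 113) (.lm 18 0 15 6 20 16 4))) 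
(.lf (.two (.pot 0) (.lm 18 0 14 9 20 16 4)))) (.lf (.low 0))) (.t 88 (.z 480 (.y 486 
(.lf (.two (.pot 0) (.lm 16 0 15 3 18 16 3))) (.lf (.two (.pot 0) (.lm 16 0 14 6 18 16 3)))) 
(.y 486 (.a 182 (.lf (.low 0)) (.lf (.dir (.pot 0)))) 
(.lf (.two (.pot 0) (.lm 16 0 14 3 17 16 3))))) (.lf (.low 0)))) (.lf (.dir (.pot 0)))) 
(.a 185 (.z 477 (.lf (.two (.pot 0) (.lm 18 0 13 12 21 15 6))) (.t 88 
(.lf (.two (.pot 0) (.lm 16 0 12 6 18 15 6))) (.lf (.low 0)))) (.z 477 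
(.lf (.two (.pot 0) (.lm 18 0 13 12 21 15 6))) (.lf (.two (.pot 0) (.lm 16 0 13 6 19 15 6))))))) 
(.lf (.dir (.pot 0))))) (.y 483 (.lf (.dir (.pot 0))) (.a 191 (.t 80 (.z 489 (.y 489 (.a 185 
(.t 72 (.lf (.tipb 14 14 3)) (.z 486 (.y 486 (.a 182 (.t 76 (.lf (.tipb 14 14 2)) (.z 484 
(.y 484 (.lf (.dir (.pot 0))) (.lf (.two (.pot 0) (.lm 14 0 14 0 16 15 2)))) (.y 484 
(.lf (.dir (.pot 0))) (.lf (.tipb 14 14 1))))) (.lf (.dir (.pot 0)))) (.lf (.tipb 15 14 3))) 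
(.lf (.tipb 14 15 2)))) (.lf (.dir (.pot 0)))) (.lf (.tipb 15 13 6))) (.lf (.tipb 13 15 3))) 
(.z 489 (.y 489 (.a 185 (.t 88 (.z 486 (.y 486 (.a 182 (.lf (.low 0)) (.lf (.dir (.pot 0)))) 
(.a 182 (.lf (.low 0)) (.t 84 (.lf (.two (.pot 0) (.lm 14 0 14 0 16 15 3))) (.a 183 
(.lf (.low 0)) (.lf (.two (.pot 0) (.lm 15 0 14 0 16 16 3))))))) (.y 486 
(.lf (.two (.pot 1) (.lf 14 0 15 0))) (.a 182 (.lf (.low 0)) (.t 84 (.lf (.tipb 14 14 2)) 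
(.a 183 (.lf (.low 0)) (.z 487 (.y 487 (.lf (.dir (.pot 0))) (.lf (.tipb 15 14 2))) 
(.lf (.tipb 14 15 1)))))))) (.lf (.low 0))) (.lf (.dir (.pot 0)))) (.a 185 (.t 88 (.z 486 
(.lf (.two (.pot 0) (.lm 15 0 12 3 16 15 5))) (.lf (.tipb 15 14 5))) (.lf (.low 0))) (.t 88 
(.a 188 (.z 486 (.lf (.two (.pot 0) (.lm 15 0 12 3 16 15 5))) (.lf (.tipb 15 14 5))) 
(.lf (.two (.pot 0) (.lm 14 0 12 0 16 15 6)))) (.a 188 (.z 486 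
(.lf (.two (.pot 0) (.lm 15 0 13 3 17 15 5))) (.y 492 
(.lf (.two (.pot 0) (.lm 14 0 13 0 16 15 3))) (.lf (.tipb 15 13 5)))) 
(.lf (.two (.pot 0) (.lm 15 0 13 0 17 15 6))))))) (.y 489 (.lf (.two (.pot 1) (.lf 13 0 15 0))) 
(.lf (.tipb 14 14 3))))) (.lf (.dir (.pot 0)))))))) (.z 472 (.y 472 
(.lf (.dir (.lf 8 119 21 106))) (.a 213 (.y 483 (.lf (.dir (.lf 6 124 16 114))) 
(.lf (.dir (.pot 0)))) (.y 483 (.lf (.dir (.lf 10 121 16 114))) 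
(.lf (.two (.lf 10 118 21 107) (.lm 21 0 13 11 28 17 17)))))) (.y 472 
(.lf (.dir (.lf 8 119 21 106))) (.a 213 (.z 483 (.y 483 (.lf (.dir (.lf 6 124 16 114))) 
(.lf (.dir (.pot 0)))) (.lf (.two (.pot 0) (.lm 13 0 15 0 17 21 6)))) (.z 483 
(.lf (.two (.lf 10 121 16 114) (.lm 16 0 15 0 21 21 12))) (.y 483 
(.lf (.dir (.lf 10 121 16 114))) (.t 80 (.lf (.dir (.lf 9 121 12 118))) (.a 219 
(.lf (.dir (.pot 0))) (.lf (.dir (.lf 11 120 14 117))))))))))) (.a 202 (.z 472 (.y 517 (.a 191 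
(.z 461 (.lf (.two (.lf 0 130 22 109) (.lm 22 0 8 34 28 13 17))) (.y 506 
(.lf (.two (.lf 0 130 19 112) (.lm 19 0 10 23 25 13 11))) 
(.lf (.two (.lf 0 130 19 112) (.lm 19 1 7 33 25 9 11))))) (.z 461 
(.lf (.two (.lf 3 127 22 109) (.lm 22 0 8 34 28 13 17))) 
(.lf (.two (.lf 3 127 19 112) (.lm 19 0 8 23 25 13 17))))) (.y 528 
(.lf (.two (.lf 2 129 21 110) (.lm 21 6 4 39 28 7 17))) 
(.lf (.two (.lf 2 129 21 110) (.lm 21 12 0 44 28 4 17))))) (.y 517 (.z 483 (.a 191 (.y 506 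
(.t 80 (.lf (.two (.pot 0) (.lm 15 0 10 12 19 12 11))) (.a 185 (.z 477 
(.lf (.two (.pot 0) (.lm 18 0 10 18 21 13 8))) (.lf (.two (.pot 0) (.lm 16 0 10 12 19 13 9)))) 
(.lf (.two (.pot 0) (.lm 17 0 10 12 21 13 11))))) (.lf (.two (.pot 0) (.lm 16 0 7 23 21 9 11)))) 
(.y 506 (.lf (.two (.pot 0) (.lm 16 0 10 12 21 13 11))) 
(.lf (.two (.pot 0) (.lm 16 0 7 23 21 9 11))))) (.a 191 (.y 506 (.t 80 (.lf (.tipb 15 11 12)) 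
(.z 489 (.lf (.two (.pot 0) (.lm 15 0 10 6 17 13 9))) (.lf (.tipb 14 12 9)))) 
(.lf (.tipb 16 8 17))) (.y 506 (.t 80 (.lf (.tipb 15 11 12)) (.z 489 
(.lf (.two (.pot 0) (.lm 15 0 10 6 17 13 9))) (.lf (.tipb 14 12 9)))) (.lf (.tipb 16 8 17))))) 
(.z 483 (.lf (.two (.pot 0) (.lm 16 0 2 34 21 7 17))) (.lf (.tipb 16 6 29))))) (.z 472 (.y 517 
(.lf (.two (.lf 8 119 21 106) (.lm 21 0 8 23 28 13 22))) 
(.lf (.two (.lf 8 119 21 106) (.lm 21 5 2 40 28 7 23)))) (.y 517 (.a 213 (.z 483 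
(.lf (.two (.lf 6 124 16 114) (.lm 16 0 8 12 21 13 17))) (.y 506 (.lf (.dir (.pot 0))) 
(.lf (.tipb 16 8 17)))) (.lf (.dir (.pot 0)))) (.a 213 
(.lf (.two (.lf 6 124 15 116) (.lm 15 0 2 22 21 7 23))) 
(.lf (.two (.lf 10 121 15 116) (.lm 15 0 2 22 21 7 23)))))))) (.y 495 
(.lf (.two (.pot 1) (.lf 5 0 18 0))) (.a 202 (.z 517 (.y 517 (.lf (.tipb 12 12 11)) 
(.lf (.tipb 12 6 23))) (.lf (.tipb 6 13 12))) (.z 517 (.y 517 (.lf (.tipb 12 12 11)) 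
(.lf (.tipb 12 6 23))) (.lf (.tipb 6 13 12)))))) (.z 495 (.y 495 (.a 247 (.z 472 (.y 472 
(.lf .inf) (.lf (.dir (.lf 14 113 15 112)))) 
(.lf (.two (.lf 14 113 15 112) (.lm 15 0 18 0 21 29 12)))) (.lf .inf)) (.a 247 (.z 472 (.y 517 
(.lf (.two (.lf 14 104 21 99) (.lm 21 0 8 23 28 13 22))) 
(.lf (.two (.lf 14 104 21 99) (.lm 21 5 2 40 28 7 23)))) (.y 517 (.z 483 
(.lf (.two (.lf 14 113 16 112) (.lm 16 0 8 12 21 13 17))) (.a 236 (.y 506 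
(.lf (.two (.lf 13 118 13 118) (.lm 13 0 10 0 17 13 12))) (.lf (.dir (.pot 0)))) 
(.lf (.dir (.lf 16 115 8 122))))) (.lf (.two (.lf 14 113 15 112) (.lm 15 0 2 22 21 7 23))))) 
(.z 472 (.lf (.two (.lf 20 90 21 90) (.lm 21 0 5 23 28 14 34))) (.y 517 
(.lf (.dir (.lf 20 107 8 118))) (.lf (.two (.lf 20 98 15 104) (.lm 15 0 2 22 21 7 23))))))) 
(.y 495 (.a 247 (.z 517 (.lf (.two (.lf 14 116 8 122) (.lf 8 0 18 0))) (.lf .inf)) (.lf .inf)) 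
(.a 247 (.z 517 (.y 517 (.a 236 (.z 506 (.y 506 (.t 80 (.lf (.dir (.lf 12 118 10 121))) 
(.lf (.dir (.lf 13 117 10 121)))) (.lf (.dir (.pot 0)))) (.lf (.tipb 8 12 6))) 
(.lf (.dir (.lf 16 115 8 122)))) (.y 528 (.lf (.dir (.pot 0))) 
(.lf (.two (.lf 14 116 8 122) (.lm 8 0 0 11 13 4 17))))) (.lf (.tipb 6 13 12))) (.z 517 
(.lf (.two (.lf 20 107 8 118) (.lm 8 0 5 0 13 14 23))) (.y 517 (.lf (.dir (.lf 20 107 8 118))) 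
(.a 258 (.z 528 (.lf (.two (.lf 19 112 4 127) (.lm 4 0 2 0 7 7 12))) (.lf (.tipb 3 6 6))) 
(.lf (.dir (.lf 22 109 2 129)))))))))))) (.z 450 (.y 450 (.lf .inf) (.a 315 (.z 405 (.y 495 
(.lf .inf) (.lf (.dir (.lf 28 79 5 101)))) (.y 495 (.lf .inf) (.lf (.dir (.lf 28 79 5 101))))) 
(.lf .inf))) (.y 450 (.lf .inf) (.a 315 (.z 495 (.y 495 (.lf .inf) 
(.lf (.dir (.lf 28 79 5 101)))) (.lf (.two (.lf 28 79 5 101) (.lm 5 0 11 0 14 32 23)))) 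
(.lf .inf))))) (.a 270 (.z 450 (.y 630 (.a 225 (.z 405 (.y 585 (.a 202 (.z 382 (.y 562 (.a 191 
(.z 371 (.y 551 (.lf (.two (.lm 0 101 35 68 4 42 11) (.lm 35 67 0 102 42 2 11))) (.lf (.low 2))) 
(.y 551 (.lf (.two (.lm 0 107 34 73 4 42 11) (.lm 34 62 0 96 42 2 11))) (.lf (.low 2)))) 
(.lf (.two (.lm 3 95 35 63 7 42 17) (.lm 35 62 0 96 42 2 22)))) (.lf (.low 2))) (.y 562 
(.z 393 (.a 191 (.y 551 (.lf (.two (.lm 0 112 34 79 4 41 11) (.lm 34 57 0 90 41 2 11))) 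
(.lf (.low 2))) (.lf (.two (.lm 3 105 34 75 7 41 11) (.lm 34 57 0 90 41 2 17)))) (.a 191 
(.lf (.two (.lf 0 117 32 85) (.lm 32 51 0 84 40 2 17))) 
(.lf (.two (.lf 3 110 32 81) (.lm 32 51 0 84 40 2 17))))) (.lf (.low 2)))) (.z 382 (.y 562 
(.lf (.two (.lm 8 82 35 53 13 42 23) (.lm 35 62 0 96 42 2 22))) (.lf (.low 2))) (.y 562 
(.lf (.two (.lm 8 91 33 66 13 42 23) (.lm 33 51 0 84 42 2 23))) (.lf (.low 2))))) 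
(.lf (.low 2))) (.y 585 (.a 202 (.z 427 (.y 562 (.a 191 (.z 416 
(.lf (.two (.lf 0 122 31 92) (.lm 31 46 0 78 38 2 17))) 
(.lf (.two (.lf 0 127 29 98) (.lm 29 41 0 72 36 2 17)))) 
(.lf (.two (.lf 3 114 30 89) (.lm 30 40 0 73 39 2 22)))) (.lf (.low 2))) (.y 562 (.z 438 
(.lf (.two (.lf 2 125 27 100) (.lm 27 36 0 66 34 2 17))) 
(.lf (.two (.lf 2 129 25 106) (.lm 25 31 0 59 31 2 17)))) (.lf (.low 2)))) (.z 427 (.y 562 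
(.lf (.two (.lf 8 101 30 79) (.lm 30 40 0 73 39 2 22))) (.lf (.low 2))) (.y 562 
(.lf (.two (.lf 8 110 26 92) (.lm 26 30 0 60 34 2 23))) (.lf (.low 2))))) (.lf (.low 2)))) 
(.z 405 (.y 585 (.a 247 (.z 382 (.y 562 
(.lf (.two (.lm 14 68 35 45 21 42 22) (.lm 35 62 0 96 42 2 22))) (.lf (.low 2))) 
(.lf (.two (.lm 14 78 33 57 21 42 23) (.lm 33 51 0 84 42 3 34)))) 
(.lf (.two (.lm 20 55 34 35 28 43 34) (.lf 34 50 0 85)))) (.lf (.low 2))) (.y 585 (.a 247 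
(.z 427 (.lf (.two (.lf 14 87 30 71) (.lm 30 40 0 73 39 3 34))) 
(.lf (.two (.lf 14 96 26 84) (.lm 26 30 0 60 34 3 34)))) 
(.lf (.two (.lf 20 72 28 63) (.lm 28 28 0 62 39 3 45)))) (.lf (.low 2))))) (.lf (.low 2))) 
(.y 630 (.a 225 (.z 495 (.y 585 (.a 202 (.z 472 (.y 562 
(.lf (.two (.lf 2 129 21 110) (.lm 21 20 0 48 28 2 22))) (.lf (.low 2))) (.y 562 
(.lf (.tipb 20 1 45)) (.lf (.low 2)))) (.z 472 (.y 562 
(.lf (.two (.lf 8 119 21 106) (.lm 21 20 0 48 28 2 22))) (.lf (.low 2))) (.y 562 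
(.lf (.two (.lf 8 122 15 116) (.lm 15 10 0 35 21 2 23))) (.lf (.low 2))))) (.lf (.low 2))) 
(.y 585 (.lf (.tipb 13 2 45)) (.lf (.low 2)))) (.z 495 (.y 585 (.a 247 (.z 472 
(.lf (.two (.lf 14 104 21 99) (.lm 21 20 0 48 28 3 34))) 
(.lf (.two (.lf 14 113 15 112) (.lm 15 10 0 35 21 3 34)))) 
(.lf (.two (.lf 20 89 18 91) (.lm 18 7 0 38 29 3 45)))) (.lf (.low 2))) (.y 585 (.a 247 
(.z 517 (.lf (.two (.lf 14 116 8 122) (.lm 8 0 0 23 13 3 34))) (.lf (.tipb 6 2 34))) (.z 517 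
(.lf (.two (.lf 20 107 8 118) (.lm 8 0 0 23 13 3 34))) (.y 562 (.a 258 (.z 528 
(.lf (.two (.lf 19 112 4 127) (.lm 4 0 0 12 7 2 17))) (.lf (.tipb 3 1 17))) 
(.lf (.dir (.pot 0)))) (.lf (.low 2))))) (.lf (.low 2))))) (.lf (.low 2)))) (.z 450 (.y 630 
(.a 315 (.z 405 (.y 585 (.lf (.two (.lm 28 30 34 15 39 43 45) (.lf 34 50 0 85))) (.lf (.low 2))) 
(.y 585 (.lf (.two (.lf 28 45 28 45) (.lm 28 28 0 62 39 3 45))) (.lf (.low 2)))) (.z 405 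
(.y 585 (.lf (.dir (.lf 34 73 0 107))) (.lf (.low 2))) (.y 585 (.lf (.dir (.lf 34 73 0 107))) 
(.lf (.low 2))))) (.lf (.low 2))) (.y 630 (.a 315 (.z 495 (.y 585 
(.lf (.two (.lf 28 62 18 73) (.lm 18 7 0 38 29 3 45))) (.lf (.low 2))) (.y 585 (.a 292 (.z 517 
(.lf (.two (.lf 26 93 8 110) (.lm 8 0 0 23 13 3 34))) 
(.lf (.two (.lf 26 101 2 124) (.lm 2 0 0 0 7 3 34)))) (.lf (.dir (.lf 30 97 0 128)))) 
(.lf (.low 2)))) (.z 495 (.y 585 (.lf (.dir (.lf 34 73 0 107))) (.lf (.low 2))) (.y 585 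
(.lf (.dir (.lf 34 73 0 107))) (.lf (.low 2))))) (.lf (.low 2)))))) (.y 540 (.a 270 
(.lf (.two (.pot 1) (.lf 0 0 23 0))) (.z 630 (.y 450 (.lf .inf) (.a 315 
(.lf (.two (.lf 28 99 0 126) (.lf 0 0 11 0))) (.lf .inf))) (.lf .inf))) (.a 270 (.z 630 
(.y 630 (.lf (.tipb 5 5 45)) (.lf (.low 2))) (.lf (.low 1))) (.z 630 (.y 630 (.a 315 (.z 585 
(.y 585 (.a 292 (.z 562 (.lf (.two (.lf 26 105 0 131) (.lm 0 0 0 0 2 3 23))) (.lf (.low 1))) 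
(.lf (.dir (.lf 30 97 0 128)))) (.lf (.low 2))) (.lf (.low 1))) (.z 585 
(.lf (.two (.lf 34 73 0 107) (.lm 0 0 0 0 3 6 45))) (.lf (.low 1)))) (.lf (.low 2))) 
(.lf (.low 1))))))

theorem h5 : chk (leafR PP TD2 64 1) c5 64 96 180 360 360 720 360 720 = true := by
  decide +kernel

theorem main : ∃ T : Tree, chk (leafR PP TD2 64 1) T 64 96 0 360 0 720 360 720 = true :=
  ⟨_, (chk_z (chk_a h0 (chk_z h1 (chk_y h2 h3))) (chk_a h4 h5))⟩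

end Pool.Agent.Helper58.LDD.R12
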