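import Pool.Agent.Helper58.LD.Comb
import Pool.Agent.Helper58.LDD.Tab

set_option autoImplicit false

namespace Pool.Agent.Helper58.LDD.R13

open Pool.Agent.Helper58.LD Pool.Agent.Helper58.LDD

set_option maxRecDepth 100000

def c0 : Tree :=
  (.a 180 (.z 180 (.y 540 (.a 90 (.lf (.low 0)) (.z 90 (.lf (.low 1)) (.y 450 (.a 135 
(.lf (.low 0)) (.lf (.low 0))) (.lf (.tipa 3 3 45))))) (.a 90 (.lf .inf) (.z 90 (.lf (.low 1)) 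
(.lf (.tipa 3 3 45))))) (.y 540 (.a 90 (.lf (.low 0)) (.z 270 (.y 450 (.a 135 (.lf (.low 0)) 
(.lf (.low 0))) (.a 135 (.lf (.low 0)) (.lf (.low 0)))) (.y 450 (.a 135 (.lf (.low 0)) 
(.lf (.low 0))) (.a 135 (.lf (.low 0)) (.lf (.low 0)))))) (.a 90 (.lf .inf) (.z 270 (.y 630 
(.a 135 (.lf .inf) (.lf (.low 0))) (.lf .inf)) (.y 630 (.a 135 (.lf .inf) (.lf (.low 0))) 
(.lf .inf)))))) (.z 180 (.y 540 (.a 270 (.z 90 (.lf .inf) (.y 450 (.a 225 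
(.lf (.dir (.lf 3 89 43 46))) (.lf .inf)) (.lf (.two (.lf 12 0 0 0) (.pot 1))))) (.lf .inf)) 
(.lf (.two (.lf 30 0 0 0) (.pot 1)))) (.y 540 (.a 270 (.z 270 (.y 450 (.a 225 
(.lf (.dir (.lf 3 89 43 46))) (.lf .inf)) (.a 225 (.z 225 (.y 495 (.a 202 (.z 202 (.y 472 
(.lf (.dir (.lf 0 131 26 105))) (.lf (.tipa 5 5 11))) (.y 472 (.lf (.dir (.lf 0 131 26 105))) 
(.z 213 (.y 483 (.lf (.dir (.pot 0))) (.lf (.tipa 5 8 17))) 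
(.lf (.two (.lm 0 11 10 0 6 13 17) (.lf 10 121 17 114)))))) (.z 202 (.y 472 
(.lf (.dir (.lf 7 122 26 103))) (.lf (.two (.lf 7 0 0 0) (.pot 0)))) (.y 472 
(.lf (.dir (.lf 7 122 26 103))) (.a 213 (.z 213 (.y 483 (.lf (.dir (.lf 5 126 19 111))) 
(.lf (.tipa 8 8 6))) (.y 483 (.lf (.dir (.lf 5 126 19 111))) (.lf (.dir (.pot 0))))) (.z 213 
(.y 483 (.lf (.dir (.lf 10 121 19 111))) (.lf (.two (.lf 10 0 5 0) (.pot 0)))) (.y 483 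
(.lf (.dir (.lf 10 121 19 111))) (.t 112 (.a 219 (.lf (.dir (.pot 0))) 
(.lf (.dir (.lf 11 120 14 116)))) (.lf (.dir (.lf 9 121 15 116)))))))))) (.a 202 
(.lf (.tipa 5 14 23)) (.lf (.tipa 13 14 12)))) (.y 495 (.a 202 (.z 247 
(.lf (.two (.lm 0 23 17 0 6 24 22) (.lf 17 104 21 99))) 
(.lf (.two (.lm 0 45 26 0 6 34 23) (.lf 26 88 21 92)))) (.z 247 (.y 472 
(.lf (.dir (.lf 7 122 26 103))) (.a 213 
(.lf (.two (.lm 5 12 17 0 9 24 17) (.lf 17 113 17 112))) (.y 483 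
(.lf (.dir (.lf 10 121 19 111))) (.z 236 
(.lf (.two (.lm 10 0 14 0 13 19 12) (.lf 14 116 15 116))) 
(.lf (.two (.lm 10 11 19 0 13 24 12) (.lf 19 112 15 116))))))) (.y 472 
(.lf (.dir (.lf 7 122 26 103))) (.a 213 (.lf (.two (.lm 5 34 26 0 9 34 17) (.lf 26 97 17 105))) 
(.lf (.two (.lm 10 22 26 0 13 34 18) (.lf 26 97 17 105))))))) (.a 202 (.z 247 (.y 517 
(.lf (.two (.lm 0 23 17 0 6 24 22) (.lf 17 114 8 123))) 
(.lf (.two (.lm 0 23 17 0 6 24 22) (.lf 17 114 0 131)))) 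
(.lf (.two (.lm 0 45 26 0 6 34 23) (.lf 26 101 3 124)))) (.z 247 (.y 517 (.a 213 (.z 236 
(.y 506 (.lf (.dir (.pot 0))) (.lf (.tipa 8 18 17))) 
(.lf (.two (.lm 5 23 19 0 9 24 11) (.lf 19 112 8 123)))) (.lf (.dir (.pot 0)))) (.a 213 
(.y 528 (.z 236 (.lf (.tipa 8 18 17)) (.lf (.two (.lm 5 23 19 0 9 24 11) (.pot 0)))) (.z 236 
(.lf (.tipa 8 18 17)) (.lf (.two (.lm 5 23 19 0 9 24 11) (.pot 0))))) (.y 528 (.z 236 (.t 112 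
(.a 219 (.lf (.tipa 10 17 12)) (.z 230 (.lf (.tipa 12 14 6)) 
(.lf (.two (.lm 11 5 15 0 13 18 6) (.pot 0))))) (.a 219 (.lf (.tipa 10 17 12)) 
(.lf (.two (.lm 11 0 14 0 13 18 9) (.lf 14 116 0 131))))) (.t 112 
(.lf (.two (.lm 10 11 18 0 13 22 12) (.pot 0))) 
(.lf (.two (.lm 9 11 19 0 13 24 12) (.lf 19 111 0 131))))) (.z 236 (.t 112 (.a 219 
(.lf (.tipa 10 17 12)) (.y 534 (.z 230 (.lf (.tipa 12 14 6)) 
(.lf (.two (.lm 11 5 15 0 13 18 6) (.pot 0)))) (.lf (.low 2)))) (.lf (.low 2))) (.t 112 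
(.lf (.two (.lm 10 11 18 0 13 22 12) (.lf 18 112 0 131))) (.lf (.low 2))))))) (.y 517 (.a 213 
(.lf (.two (.lm 5 34 26 0 9 34 17) (.lf 26 104 8 121))) (.lf (.dir (.pot 0)))) (.a 213 
(.lf (.two (.lm 5 34 26 0 9 34 17) (.lf 26 105 0 131))) 
(.lf (.two (.lm 10 22 26 0 13 34 18) (.lf 26 105 0 131))))))))) (.z 225 (.y 495 (.a 247 
(.z 202 (.lf .inf) (.y 472 (.lf .inf) (.z 213 (.lf .inf) 
(.lf (.two (.lf 17 0 10 0) (.lf 10 121 17 114)))))) (.lf .inf)) 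
(.lf (.two (.lf 21 0 3 0) (.pot 1)))) (.y 495 (.a 247 (.z 247 (.y 472 (.lf .inf) (.y 483 
(.lf .inf) (.lf (.dir (.lf 17 114 15 116))))) (.y 472 (.lf .inf) (.z 258 (.y 483 (.lf .inf) 
(.lf (.dir (.lf 17 114 15 116)))) (.y 483 (.lf .inf) (.lf (.dir (.lf 17 114 15 116))))))) 
(.lf .inf)) (.a 247 (.z 247 (.y 517 (.a 236 (.z 236 (.y 506 (.t 112 (.a 230 
(.lf (.dir (.pot 0))) (.lf (.dir (.lf 15 116 10 121)))) (.lf (.dir (.lf 14 116 10 121)))) 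
(.lf (.dir (.pot 0)))) (.y 506 (.t 112 
(.lf (.two (.lm 14 0 18 0 18 22 11) (.lf 18 112 10 121))) (.lf (.dir (.lf 14 116 10 121)))) 
(.lf (.dir (.pot 0))))) (.z 236 (.y 506 (.lf (.dir (.lf 19 112 10 121))) 
(.lf (.dir (.lf 19 112 5 125)))) (.y 506 (.lf (.dir (.lf 19 112 10 121))) 
(.lf (.dir (.lf 19 112 5 125)))))) (.y 528 (.lf (.dir (.pot 0))) (.a 236 (.z 236 (.t 112 
(.y 534 (.a 230 (.z 230 (.lf (.tipa 14 14 3)) (.t 104 (.z 233 (.y 531 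
(.lf (.two (.lm 13 0 14 0 15 16 4) (.pot 0))) (.a 227 (.lf (.tipa 13 15 4)) 
(.lf (.two (.lm 13 0 14 0 15 16 3) (.pot 0))))) (.lf (.two (.lm 13 3 15 0 15 17 4) (.pot 0)))) 
(.lf (.two (.lm 13 0 15 0 15 18 6) (.lf 15 115 0 131))))) (.lf (.dir (.pot 0)))) (.lf (.low 2))) 
(.lf (.low 2))) (.t 112 (.y 534 (.a 230 (.lf (.two (.lm 13 6 18 0 15 22 8) (.lf 18 112 0 131))) 
(.lf (.dir (.pot 0)))) (.lf (.low 2))) (.lf (.low 2)))) (.lf (.dir (.pot 0)))))) (.y 517 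
(.z 258 (.a 236 (.lf (.two (.lm 14 11 23 0 19 29 11) (.lf 23 108 8 123))) 
(.lf (.two (.lm 19 0 23 0 24 29 11) (.lf 23 108 8 123)))) (.a 236 
(.lf (.two (.lm 14 22 28 0 19 34 12) (.lf 28 103 8 122))) 
(.lf (.two (.lm 19 11 28 0 24 34 12) (.lf 28 103 8 122))))) (.z 258 (.y 528 
(.lf (.dir (.pot 0))) (.a 236 (.lf (.two (.lm 14 11 23 0 19 29 11) (.lf 23 108 0 131))) 
(.lf (.dir (.pot 0))))) (.y 528 (.lf (.dir (.pot 0))) (.a 236 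
(.lf (.two (.lm 14 22 28 0 19 34 12) (.lf 28 103 0 131))) (.lf (.dir (.pot 0)))))))) (.z 247 
(.y 517 (.lf (.dir (.lf 26 104 8 121))) (.lf (.dir (.lf 26 105 0 131)))) (.y 517 
(.lf (.dir (.lf 26 104 8 121))) (.lf (.dir (.lf 26 105 0 131)))))))))) (.y 450 (.a 225 
(.lf (.dir (.lf 3 89 43 46))) (.lf .inf)) (.a 225 (.z 315 (.y 495 (.a 202 (.z 292 
(.lf (.two (.lm 0 61 33 7 6 43 22) (.lf 33 73 21 85))) 
(.lf (.two (.lm 0 72 40 18 6 50 23) (.lf 40 57 21 78)))) (.z 292 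
(.lf (.two (.lm 7 45 33 0 14 43 23) (.lf 33 73 21 85))) 
(.lf (.two (.lm 7 63 40 4 14 50 23) (.lf 40 57 21 78))))) (.a 202 (.z 292 
(.lf (.two (.lm 0 61 33 7 6 43 22) (.lf 33 86 3 117))) 
(.lf (.two (.lm 0 72 40 18 6 50 23) (.lf 40 71 3 109)))) (.z 292 (.y 517 
(.lf (.two (.lm 7 45 33 0 14 43 23) (.lf 33 89 8 114))) 
(.lf (.two (.lm 7 45 33 0 14 43 23) (.lf 33 96 0 129)))) (.y 517 
(.lf (.two (.lm 7 63 40 4 14 50 23) (.lf 40 73 8 107))) 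
(.lf (.two (.lm 7 63 40 4 14 50 23) (.lf 40 81 0 121))))))) (.y 495 (.a 202 (.z 337 
(.lf (.two (.lm 0 84 45 29 6 54 22) (.lf 45 41 21 72))) 
(.lf (.two (.lm 0 94 47 41 6 55 23) (.lm 47 25 21 65 55 35 34)))) (.z 337 (.y 472 
(.lf (.dir (.lf 7 122 26 103))) (.lf (.two (.lm 7 72 45 18 14 54 23) (.lf 45 51 17 84)))) 
(.y 472 (.lf (.dir (.lf 7 122 26 103))) 
(.lf (.two (.lm 7 81 47 31 14 55 23) (.lm 47 36 17 76 55 25 23)))))) (.a 202 (.z 337 (.y 517 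
(.lf (.two (.lm 0 84 45 29 6 54 22) (.lf 45 59 8 99))) 
(.lf (.two (.lm 0 84 45 29 6 54 22) (.lf 45 67 0 113)))) (.y 517 
(.lf (.two (.lm 0 94 47 41 6 55 23) (.lm 47 45 8 90 55 14 23))) 
(.lf (.two (.lm 0 94 47 41 6 55 23) (.lf 47 53 0 104))))) (.z 337 (.y 517 
(.lf (.two (.lm 7 72 45 18 14 54 23) (.lf 45 59 8 99))) 
(.lf (.two (.lm 7 72 45 18 14 54 23) (.lf 45 67 0 113)))) (.y 517 
(.lf (.two (.lm 7 81 47 31 14 55 23) (.lm 47 45 8 90 55 14 23))) 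
(.lf (.two (.lm 7 81 47 31 14 55 23) (.lf 47 53 0 104)))))))) (.z 315 (.y 495 (.a 247 (.z 292 
(.y 472 (.lf .inf) (.y 483 (.lf .inf) (.lf (.dir (.lf 17 114 15 116))))) (.y 472 (.lf .inf) 
(.lf (.two (.lm 17 45 40 0 24 50 23) (.lf 40 66 17 91))))) (.lf .inf)) (.a 247 (.z 292 (.y 517 
(.a 236 (.lf (.two (.lm 14 34 33 0 19 43 17) (.lf 33 89 8 114))) 
(.lf (.two (.lm 19 23 33 0 24 43 17) (.lf 33 89 8 114)))) (.y 528 (.lf (.dir (.pot 0))) 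
(.a 236 (.lf (.two (.lm 14 34 33 0 19 43 17) (.lf 33 97 0 131))) (.lf (.dir (.pot 0)))))) 
(.y 517 (.lf (.two (.lm 17 45 40 0 24 50 23) (.lf 40 73 8 107))) 
(.lf (.two (.lm 17 45 40 0 24 50 23) (.lf 40 81 0 121))))) (.z 292 (.y 517 
(.lf (.dir (.lf 26 104 8 121))) (.lf (.dir (.lf 26 105 0 131)))) (.y 517 
(.lf (.dir (.lf 26 104 8 121))) (.lf (.dir (.lf 26 105 0 131))))))) (.y 495 (.a 247 (.z 337 
(.y 472 (.lf .inf) (.lf (.two (.lm 17 61 45 7 24 54 22) (.lf 45 51 17 84)))) (.y 472 (.lf .inf) 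
(.lf (.two (.lm 17 68 47 22 24 55 23) (.lm 47 36 17 76 55 25 23))))) (.lf .inf)) (.a 247 
(.z 337 (.y 517 (.lf (.two (.lm 17 61 45 7 24 54 22) (.lf 45 59 8 99))) 
(.lf (.two (.lm 17 61 45 7 24 54 22) (.lf 45 67 0 113)))) (.y 517 
(.lf (.two (.lm 17 68 47 22 24 55 23) (.lm 47 45 8 90 55 14 23))) 
(.lf (.two (.lm 17 68 47 22 24 55 23) (.lf 47 53 0 104))))) (.z 337 
(.lf (.two (.lm 26 45 45 0 34 54 23) (.lf 45 57 3 101))) 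
(.lf (.two (.lm 26 55 47 12 34 55 23) (.lf 47 43 3 92)))))))))) (.z 270 (.y 450 (.lf .inf) 
(.a 315 (.z 225 (.lf .inf) (.y 495 (.lf .inf) (.lf (.dir (.lf 37 73 3 107))))) (.lf .inf))) 
(.y 450 (.lf .inf) (.a 315 (.z 315 (.y 495 (.lf .inf) (.lf (.dir (.lf 37 73 3 107)))) (.y 495 
(.lf .inf) (.lf (.dir (.lf 37 73 3 107))))) (.lf .inf))))) (.a 270 (.z 270 (.y 630 (.a 225 
(.z 225 (.y 585 (.lf (.low 2)) (.lf (.low 2))) (.y 585 (.lf (.low 2)) (.lf (.low 2)))) (.z 225 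
(.lf (.two (.lf 21 0 3 0) (.pot 1))) (.y 585 (.lf (.low 2)) (.lf (.low 2))))) (.lf (.low 2))) 
(.y 630 (.a 225 (.z 315 (.y 585 (.lf (.low 2)) (.lf (.low 2))) (.y 585 (.lf (.low 2)) 
(.lf (.low 2)))) (.z 315 (.y 585 (.lf (.low 2)) (.lf (.low 2))) (.y 585 (.lf (.low 2)) 
(.lf (.low 2))))) (.lf (.low 2)))) (.z 270 (.lf (.two (.lf 43 0 12 0) (.pot 1))) (.y 630 
(.a 315 (.z 315 (.y 585 (.lf (.low 2)) (.lf (.low 2))) (.y 585 (.lf (.low 2)) (.lf (.low 2)))) 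
(.lf (.dir (.lf 46 66 0 114)))) (.lf (.low 2))))))))

theorem h0 : chk (leafR PP TD3 96 1) c0 96 128 0 360 0 360 360 720 = true := by
  decide +kernel

def c1 : Tree :=
  (.a 180 (.z 540 (.y 540 (.a 90 (.lf (.low 0)) (.z 450 (.y 450 (.a 135 (.lf (.low 0)) 
(.lf (.low 0))) (.a 135 (.lf (.low 0)) (.lf (.low 0)))) (.y 450 
(.lf (.two (.pot 1) (.lf 12 0 43 0))) (.a 135 (.lf (.low 0)) (.lf (.low 0)))))) (.a 90 
(.lf .inf) (.z 450 (.y 630 (.a 135 (.lf .inf) (.lf (.low 0))) (.lf .inf)) (.y 630 (.a 135 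
(.lf .inf) (.lf (.low 0))) (.lf .inf))))) (.y 540 (.lf (.two (.pot 1) (.lf 0 0 30 0))) (.a 90 
(.lf .inf) (.z 630 (.y 630 (.lf (.tipb 3 3 45)) (.lf .inf)) (.lf (.low 1)))))) (.z 540 (.y 540 
(.a 270 (.z 450 (.y 450 (.a 225 (.lf (.dir (.lf 3 89 43 46))) (.lf .inf)) (.a 225 (.z 405 
(.y 495 (.a 202 (.z 382 (.y 472 (.lf (.dir (.lf 0 131 26 105))) 
(.lf (.two (.lf 0 104 47 54) (.lm 47 22 17 68 55 25 23)))) (.y 472 
(.lf (.dir (.lf 0 131 26 105))) (.lf (.two (.lf 0 113 45 67) (.lm 45 7 17 60 54 25 23))))) 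
(.z 382 (.y 472 (.lf (.dir (.lf 7 122 26 103))) 
(.lf (.two (.lm 7 90 47 45 14 55 23) (.lm 47 22 17 68 55 25 23)))) (.y 472 
(.lf (.dir (.lf 7 122 26 103))) (.lf (.two (.lf 7 98 45 59) (.lm 45 7 17 60 54 25 23)))))) 
(.a 202 (.z 382 (.y 517 (.lf (.two (.lf 0 104 47 54) (.lm 47 32 8 81 55 14 22))) 
(.lf (.two (.lf 0 104 47 54) (.lm 47 41 0 94 55 6 23)))) (.y 517 
(.lf (.two (.lf 0 113 45 67) (.lm 45 18 8 72 54 14 23))) 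
(.lf (.two (.lf 0 113 45 67) (.lm 45 29 0 83 54 6 23))))) (.z 382 (.y 517 
(.lf (.two (.lm 7 90 47 45 14 55 23) (.lm 47 32 8 81 55 14 22))) 
(.lf (.two (.lm 7 90 47 45 14 55 23) (.lm 47 41 0 94 55 6 23)))) (.y 517 
(.lf (.two (.lf 7 98 45 59) (.lm 45 18 8 72 54 14 23))) 
(.lf (.two (.lf 7 98 45 59) (.lm 45 29 0 83 54 6 23))))))) (.y 495 (.a 202 (.z 427 (.y 472 
(.lf (.dir (.lf 0 131 26 105))) (.lf (.two (.lf 0 122 40 81) (.lm 40 0 17 45 50 25 23)))) 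
(.y 472 (.lf (.dir (.lf 0 131 26 105))) (.z 438 
(.lf (.two (.lf 0 131 36 94) (.lm 36 0 17 34 43 25 17))) (.y 483 (.lf (.dir (.pot 0))) 
(.lf (.two (.lf 0 131 32 99) (.lm 32 0 15 33 39 19 12))))))) (.z 427 (.y 472 
(.lf (.dir (.lf 7 122 26 103))) (.lf (.two (.lf 7 107 40 73) (.lm 40 0 17 45 50 25 23)))) 
(.y 472 (.lf (.dir (.lf 7 122 26 103))) (.a 213 (.z 438 
(.lf (.two (.lf 5 122 36 92) (.lm 36 0 17 34 43 25 17))) 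
(.lf (.two (.lf 5 126 32 99) (.lm 32 0 17 22 39 25 18)))) (.z 438 
(.lf (.two (.lf 10 114 36 88) (.lm 36 0 17 34 43 25 17))) 
(.lf (.two (.lf 10 118 32 95) (.lm 32 0 17 22 39 25 18)))))))) (.a 202 (.z 427 (.y 517 
(.lf (.two (.lf 0 122 40 81) (.lm 40 5 8 63 50 14 22))) 
(.lf (.two (.lf 0 122 40 81) (.lm 40 18 0 72 50 6 23)))) (.y 517 
(.lf (.two (.lf 0 130 34 95) (.lm 34 0 8 45 43 14 23))) 
(.lf (.two (.lf 0 130 34 95) (.lm 34 6 0 61 43 6 23))))) (.z 427 (.y 517 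
(.lf (.two (.lf 7 107 40 73) (.lm 40 5 8 63 50 14 22))) 
(.lf (.two (.lf 7 107 40 73) (.lm 40 18 0 72 50 6 23)))) (.y 517 
(.lf (.two (.lf 7 114 34 88) (.lm 34 0 8 45 43 14 23))) 
(.lf (.two (.lf 7 114 34 88) (.lm 34 6 0 61 43 6 23)))))))) (.z 405 (.y 495 (.a 247 (.z 382 
(.y 472 (.lf .inf) (.lf (.two (.lm 17 76 47 37 24 55 22) (.lm 47 22 17 68 55 25 23)))) (.y 472 
(.lf .inf) (.lf (.two (.lf 17 84 45 51) (.lm 45 7 17 60 54 25 23))))) (.lf .inf)) (.a 247 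
(.z 382 (.y 517 (.lf (.two (.lm 17 76 47 37 24 55 22) (.lm 47 32 8 81 55 14 22))) 
(.lf (.two (.lm 17 76 47 37 24 55 22) (.lm 47 41 0 94 55 6 23)))) (.y 517 
(.lf (.two (.lf 17 84 45 51) (.lm 45 18 8 72 54 14 23))) 
(.lf (.two (.lf 17 84 45 51) (.lm 45 29 0 83 54 6 23))))) (.z 382 
(.lf (.two (.lm 26 62 47 28 34 55 23) (.lm 47 29 3 84 55 15 34))) 
(.lf (.two (.lm 26 69 45 43 34 54 23) (.lm 45 15 3 75 54 15 34)))))) (.y 495 (.a 247 (.z 427 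
(.y 472 (.lf .inf) (.lf (.two (.lf 17 92 40 66) (.lm 40 0 17 45 50 25 23)))) (.y 472 (.lf .inf) 
(.z 438 (.lf (.two (.lf 17 100 36 80) (.lm 36 0 17 34 43 25 17))) (.y 483 (.lf .inf) 
(.lf (.dir (.lf 17 114 15 116))))))) (.lf .inf)) (.a 247 (.z 427 (.y 517 
(.lf (.two (.lf 17 92 40 66) (.lm 40 5 8 63 50 14 22))) 
(.lf (.two (.lf 17 92 40 66) (.lm 40 18 0 72 50 6 23)))) (.y 517 
(.lf (.two (.lf 17 99 34 81) (.lm 34 0 8 45 43 14 23))) 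
(.lf (.two (.lf 17 99 34 81) (.lm 34 6 0 61 43 6 23))))) (.z 427 
(.lf (.two (.lf 26 76 40 59) (.lm 40 2 3 66 50 15 34))) 
(.lf (.two (.lf 26 83 34 74) (.lm 34 0 3 45 43 15 34))))))))) (.y 450 (.a 225 
(.lf (.dir (.lf 3 89 43 46))) (.lf .inf)) (.a 225 (.z 495 (.y 495 (.a 202 (.z 472 (.y 472 
(.lf (.dir (.lf 0 131 26 105))) (.y 483 (.lf (.dir (.pot 0))) (.a 191 (.z 461 
(.lf (.two (.lf 0 131 28 103) (.lm 28 0 15 22 34 19 12))) 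
(.lf (.two (.lf 0 131 24 107) (.lm 24 0 15 11 29 19 12)))) (.lf (.dir (.pot 0)))))) (.y 472 
(.lf (.dir (.lf 0 131 26 105))) (.z 483 (.y 483 (.lf (.dir (.pot 0))) (.a 191 (.t 112 (.y 489 
(.a 185 (.lf (.low 0)) (.lf (.dir (.pot 0)))) (.a 185 (.lf (.low 0)) 
(.lf (.two (.lf 0 131 19 112) (.lm 19 0 13 6 23 16 9))))) (.lf (.low 0))) (.lf (.dir (.pot 0))))) 
(.y 483 (.lf (.dir (.pot 0))) (.a 191 (.t 112 (.z 489 (.y 489 (.a 185 (.lf (.low 0)) 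
(.lf (.dir (.pot 0)))) (.a 185 (.lf (.low 0)) (.t 104 (.a 188 (.lf (.low 0)) (.z 486 
(.lf (.two (.pot 0) (.lm 16 0 13 3 18 15 5))) (.lf (.two (.pot 0) (.lm 15 0 13 0 16 15 5))))) 
(.lf (.low 0))))) (.y 489 (.lf (.two (.pot 1) (.lf 13 0 15 0))) (.a 185 (.lf (.low 0)) (.t 104 
(.lf (.tipb 14 14 3)) (.lf (.low 0)))))) (.lf (.low 0))) (.lf (.dir (.pot 0)))))))) (.z 472 
(.y 472 (.lf (.dir (.lf 7 122 26 103))) (.a 213 (.y 483 (.lf (.dir (.lf 5 126 19 111))) 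
(.lf (.dir (.pot 0)))) (.y 483 (.lf (.dir (.lf 10 121 19 111))) (.z 461 
(.lf (.two (.lf 10 121 28 103) (.lm 28 0 15 22 34 19 12))) 
(.lf (.two (.lf 10 121 24 107) (.lm 24 0 15 11 29 19 12))))))) (.y 472 
(.lf (.dir (.lf 7 122 26 103))) (.a 213 (.z 483 (.y 483 (.lf (.dir (.lf 5 126 19 111))) 
(.lf (.dir (.pot 0)))) (.y 483 (.lf (.dir (.lf 5 126 19 111))) (.lf (.dir (.pot 0))))) (.z 483 
(.y 483 (.lf (.dir (.lf 10 121 19 111))) (.t 112 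
(.lf (.two (.lf 10 121 19 112) (.lm 19 0 14 0 23 18 12))) (.lf (.dir (.lf 9 121 15 116))))) 
(.y 483 (.lf (.dir (.lf 10 121 19 111))) (.t 112 (.a 219 (.lf (.dir (.pot 0))) 
(.lf (.dir (.lf 11 120 14 116)))) (.lf (.dir (.lf 9 121 15 116)))))))))) (.a 202 (.z 472 
(.y 517 (.a 191 (.z 461 (.lf (.two (.lf 0 131 28 103) (.lm 28 0 8 34 34 14 17))) 
(.lf (.two (.lf 0 131 24 107) (.lm 24 0 8 23 29 14 17)))) (.z 461 
(.lf (.two (.lf 0 130 28 103) (.lm 28 0 8 34 34 14 17))) 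
(.lf (.two (.lf 0 130 24 107) (.lm 24 0 8 23 29 14 17))))) 
(.lf (.two (.lf 0 131 26 105) (.lm 26 0 0 45 34 6 23)))) (.y 517 (.z 483 (.a 191 (.y 506 
(.t 112 (.lf (.two (.lf 0 131 19 112) (.lm 19 0 10 12 23 13 11))) (.lf (.low 0))) 
(.lf (.two (.pot 0) (.lm 19 0 5 23 24 9 11)))) (.y 506 
(.lf (.two (.lf 0 130 19 111) (.lm 19 0 10 12 24 13 11))) 
(.lf (.two (.pot 0) (.lm 19 0 5 23 24 9 11))))) (.a 191 (.y 506 (.t 112 (.z 489 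
(.lf (.two (.pot 0) (.lm 15 0 10 6 18 13 9))) (.lf (.tipb 15 12 9))) (.lf (.low 0))) 
(.lf (.tipb 18 8 17))) (.y 506 (.t 112 (.z 489 (.lf (.two (.pot 0) (.lm 15 0 10 6 18 13 9))) 
(.lf (.tipb 15 12 9))) (.z 489 (.lf (.two (.pot 0) (.lm 16 0 10 6 19 13 9))) 
(.lf (.tipb 15 12 9)))) (.lf (.tipb 18 8 17))))) 
(.lf (.two (.lf 0 131 17 114) (.lm 17 0 0 22 25 6 23))))) (.z 472 (.y 517 (.a 213 
(.lf (.two (.lf 5 126 26 105) (.lm 26 0 8 23 34 14 22))) (.lf (.dir (.pot 0)))) 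
(.lf (.two (.lf 7 122 26 103) (.lm 26 0 0 45 34 6 23)))) (.y 517 (.a 213 (.z 483 (.y 506 
(.lf (.dir (.pot 0))) (.lf (.two (.lf 5 126 19 111) (.lm 19 0 5 23 24 9 11)))) (.y 506 
(.lf (.dir (.pot 0))) (.lf (.tipb 18 8 17)))) (.lf (.dir (.pot 0)))) 
(.lf (.two (.lf 7 123 17 114) (.lm 17 0 0 22 25 6 23))))))) (.y 495 
(.lf (.two (.pot 1) (.lf 3 0 21 0))) (.a 202 (.z 517 (.y 517 (.lf (.tipb 13 13 11)) 
(.lf (.tipb 13 5 23))) (.lf (.tipb 5 14 12))) (.z 517 (.y 517 (.lf (.tipb 13 13 11)) 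
(.lf (.tipb 13 5 23))) (.lf (.tipb 5 14 12)))))) (.z 495 (.y 495 (.a 247 (.z 472 (.y 472 
(.lf .inf) (.y 483 (.lf .inf) (.lf (.dir (.lf 17 114 15 116))))) (.y 472 (.lf .inf) (.z 483 
(.y 483 (.lf .inf) (.lf (.dir (.lf 17 114 15 116)))) (.y 483 (.lf .inf) 
(.lf (.dir (.lf 17 114 15 116))))))) (.lf .inf)) (.a 247 (.z 472 (.y 517 
(.lf (.two (.lf 17 106 26 97) (.lm 26 0 8 23 34 14 22))) 
(.lf (.two (.lf 17 106 26 97) (.lm 26 0 0 45 34 6 23)))) (.y 517 (.z 483 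
(.lf (.two (.lf 17 114 19 111) (.lm 19 0 8 12 24 14 17))) (.a 236 (.y 506 
(.lf (.two (.lf 14 116 15 116) (.lm 15 0 10 0 19 13 12))) (.lf (.dir (.pot 0)))) (.y 506 
(.lf (.dir (.lf 19 112 10 121))) (.lf (.dir (.lf 19 112 5 125)))))) 
(.lf (.two (.lf 17 113 17 112) (.lm 17 0 0 22 25 6 23))))) (.z 472 (.y 517 
(.lf (.dir (.lf 26 104 8 121))) (.lf (.dir (.lf 26 105 0 131)))) (.y 517 
(.lf (.dir (.lf 26 104 8 121))) (.lf (.dir (.lf 26 105 0 131))))))) (.y 495 (.a 247 (.z 517 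
(.y 472 (.lf .inf) (.y 483 (.lf .inf) (.lf (.dir (.lf 17 114 15 116))))) (.lf .inf)) (.lf .inf)) 
(.a 247 (.z 517 (.y 517 (.a 236 (.z 506 (.y 506 (.t 112 (.a 230 (.lf (.tipb 12 12 6)) 
(.lf (.dir (.lf 15 116 10 121)))) (.lf (.dir (.lf 14 116 10 121)))) (.lf (.dir (.pot 0)))) 
(.lf (.tipb 8 13 6))) (.z 506 (.lf (.two (.lf 19 112 10 121) (.lm 10 0 8 0 13 14 11))) (.y 506 
(.lf (.dir (.lf 19 112 10 121))) (.lf (.dir (.lf 19 112 5 125)))))) (.y 528 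
(.lf (.dir (.pot 0))) (.lf (.two (.lf 17 114 8 123) (.lm 8 0 0 11 14 2 17))))) 
(.lf (.tipb 5 14 12))) (.z 517 (.y 517 (.lf (.dir (.lf 26 104 8 121))) 
(.lf (.dir (.lf 26 105 0 131)))) (.y 517 (.lf (.dir (.lf 26 104 8 121))) 
(.lf (.dir (.lf 26 105 0 131))))))))))) (.z 450 (.y 450 (.lf .inf) (.a 315 (.z 405 (.y 495 
(.lf .inf) (.lf (.dir (.lf 37 73 3 107)))) (.y 495 (.lf .inf) (.lf (.dir (.lf 37 73 3 107))))) 
(.lf .inf))) (.y 450 (.lf .inf) (.a 315 (.z 495 (.y 495 (.lf .inf) 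
(.lf (.dir (.lf 37 73 3 107)))) (.y 495 (.lf .inf) (.lf (.dir (.lf 37 73 3 107))))) (.lf .inf))))) 
(.a 270 (.z 450 (.y 630 (.a 225 (.z 405 (.y 585 (.lf (.low 2)) (.lf (.low 2))) (.y 585 
(.lf (.low 2)) (.lf (.low 2)))) (.z 405 (.y 585 (.lf (.low 2)) (.lf (.low 2))) (.y 585 
(.lf (.low 2)) (.lf (.low 2))))) (.lf (.low 2))) (.y 630 (.a 225 (.z 495 (.y 585 (.lf (.low 2)) 
(.lf (.low 2))) (.y 585 (.lf (.low 2)) (.lf (.low 2)))) (.z 495 (.y 585 (.lf (.low 2)) 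
(.lf (.low 2))) (.y 585 (.lf (.low 2)) (.lf (.low 2))))) (.lf (.low 2)))) (.z 450 (.y 630 
(.a 315 (.z 405 (.y 585 (.lf (.low 2)) (.lf (.low 2))) (.y 585 (.lf (.low 2)) (.lf (.low 2)))) 
(.lf (.dir (.lf 46 66 0 114)))) (.lf (.low 2))) (.y 630 (.a 315 (.z 495 (.y 585 (.lf (.low 2)) 
(.lf (.low 2))) (.y 585 (.lf (.low 2)) (.lf (.low 2)))) (.lf (.dir (.lf 46 66 0 114)))) 
(.lf (.low 2)))))) (.y 540 (.a 270 (.lf (.two (.pot 1) (.lf 0 0 30 0))) (.z 630 (.y 450 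
(.lf .inf) (.a 315 (.z 585 (.lf (.low 1)) (.lf .inf)) (.lf .inf))) (.lf .inf))) (.a 270 
(.z 630 (.y 630 (.lf (.tipb 3 3 45)) (.lf (.low 2))) (.lf (.low 1))) (.z 630 (.y 630 (.a 315 
(.z 585 (.lf (.low 1)) (.lf (.low 1))) (.lf (.dir (.lf 46 66 0 114)))) (.lf (.low 2))) 
(.lf (.low 1)))))))

theorem h1 : chk (leafR PP TD3 96 1) c1 96 128 0 360 360 720 360 720 = true := by
  decide +kernel

theorem main : ∃ T : Tree, chk (leafR PP TD3 96 1) T 96 128 0 360 0 720 360 720 = true :=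
  ⟨_, (chk_z h0 h1)⟩

end Pool.Agent.Helper58.LDD.R13
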