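import Pool.Agent.Helper58.LD.Comb
import Pool.Agent.Helper58.LDD.Tab

set_option autoImplicit false

namespace Pool.Agent.Helper58.LDD.R14

open Pool.Agent.Helper58.LD Pool.Agent.Helper58.LDD

set_option maxRecDepth 100000

def c0 : Tree :=
  (.a 180 (.z 180 (.y 540 (.a 90 (.lf (.low 0)) (.z 90 (.lf (.low 1)) (.y 450 (.a 135 
(.lf (.low 0)) (.lf (.low 0))) (.lf (.tipa 0 0 45))))) (.a 90 (.lf .inf) (.z 90 (.lf (.low 1)) 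
(.lf (.tipa 0 0 45))))) (.y 540 (.a 90 (.lf (.low 0)) (.z 270 (.y 450 (.a 135 (.lf (.low 0)) 
(.lf (.low 0))) (.a 135 (.lf (.low 0)) (.lf (.low 0)))) (.y 450 (.a 135 (.lf (.low 0)) 
(.lf (.low 0))) (.a 135 (.lf (.low 0)) (.lf (.low 0)))))) (.a 90 (.lf .inf) (.z 270 (.y 630 
(.a 135 (.lf .inf) (.lf (.low 0))) (.lf .inf)) (.y 630 (.a 135 (.lf .inf) (.lf (.low 0))) 
(.lf .inf)))))) (.z 180 (.y 540 (.a 270 (.z 90 (.lf .inf) (.y 450 (.a 225 (.z 135 (.lf .inf) 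
(.lf (.low 1))) (.lf .inf)) (.lf (.two (.lf 11 0 0 0) (.pot 1))))) (.lf .inf)) 
(.lf (.two (.lf 35 0 0 0) (.pot 1)))) (.y 540 (.a 270 (.z 270 (.y 450 (.a 225 (.z 225 (.y 405 
(.lf .inf) (.lf (.dir (.lf 0 114 45 66)))) (.y 405 (.lf .inf) (.lf (.dir (.lf 0 114 45 66))))) 
(.lf .inf)) (.a 225 (.z 225 (.y 495 (.a 202 (.z 202 (.y 472 (.lf (.dir (.lf 0 131 30 101))) 
(.lf (.tipa 2 2 11))) (.y 472 (.lf (.dir (.lf 0 131 30 101))) (.lf (.dir (.lf 0 131 18 113))))) 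
(.z 202 (.y 472 (.lf (.dir (.lf 5 125 30 100))) (.lf (.two (.lf 5 0 0 0) (.pot 0)))) (.y 472 
(.lf (.dir (.lf 5 125 30 100))) (.a 213 (.z 213 (.y 483 (.lf (.dir (.lf 1 129 21 110))) 
(.lf (.tipa 6 6 6))) (.lf (.two (.lm 1 0 8 0 7 13 12) (.lf 8 123 18 113)))) (.z 213 (.y 483 
(.lf (.dir (.lf 8 123 21 110))) (.lf (.dir (.lf 8 123 14 116)))) (.y 483 
(.lf (.dir (.lf 8 123 21 110))) (.lf (.dir (.lf 8 123 14 116))))))))) (.a 202 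
(.lf (.tipa 2 14 23)) (.lf (.tipa 13 14 12)))) (.y 495 (.a 202 (.z 247 
(.lf (.two (.lm 0 23 17 0 3 26 22) (.lf 17 105 24 98))) 
(.lf (.two (.lm 0 45 30 0 3 40 23) (.lf 30 87 24 93)))) (.z 247 (.y 472 
(.lf (.dir (.lf 5 125 30 100))) (.a 213 
(.lf (.two (.lm 1 12 17 0 7 26 17) (.lf 17 113 18 112))) (.y 483 
(.lf (.dir (.lf 8 123 21 110))) (.lf (.dir (.lf 8 123 14 116)))))) (.y 472 
(.lf (.dir (.lf 5 125 30 100))) (.a 213 (.lf (.two (.lm 1 34 30 0 7 40 17) (.lf 30 95 18 107))) 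
(.z 258 (.lf (.two (.lm 8 22 26 0 13 32 12) (.lf 26 103 18 111))) 
(.lf (.two (.lm 8 33 32 0 13 39 12) (.lf 32 93 18 109)))))))) (.a 202 (.z 247 (.y 517 
(.lf (.dir (.lf 0 131 5 126))) (.lf (.tipa 2 25 34))) 
(.lf (.two (.lm 0 45 30 0 3 40 23) (.lf 30 98 0 127)))) (.z 247 (.y 517 (.a 213 (.z 236 
(.lf (.two (.lm 1 12 14 0 7 19 11) (.lf 14 116 5 126))) 
(.lf (.two (.lm 1 23 20 0 7 26 11) (.lf 20 110 5 126)))) (.lf (.dir (.pot 0)))) 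
(.lf (.dir (.lf 5 126 0 131)))) (.y 517 (.a 213 
(.lf (.two (.lm 1 34 30 0 7 40 17) (.lf 30 100 5 125))) (.lf (.dir (.pot 0)))) 
(.lf (.dir (.lf 5 126 0 131)))))))) (.z 225 (.y 495 (.a 247 (.z 202 (.lf .inf) (.y 472 
(.lf .inf) (.z 213 (.lf .inf) (.y 483 (.lf .inf) (.lf (.dir (.lf 17 113 14 116))))))) 
(.lf .inf)) (.lf (.two (.lf 24 0 0 0) (.pot 1)))) (.y 495 (.a 247 (.z 247 (.y 472 (.lf .inf) 
(.y 483 (.lf .inf) (.lf (.dir (.lf 17 113 14 116))))) (.y 472 (.lf .inf) (.z 258 (.y 483 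
(.lf .inf) (.lf (.dir (.lf 17 113 14 116)))) (.y 483 (.lf .inf) 
(.lf (.dir (.lf 17 113 14 116))))))) (.lf .inf)) (.a 247 (.z 247 (.y 517 (.a 236 (.z 236 
(.y 506 (.lf (.dir (.lf 14 116 8 123))) (.lf (.dir (.pot 0)))) (.y 506 
(.lf (.dir (.lf 14 116 8 123))) (.lf (.dir (.pot 0))))) (.lf (.dir (.lf 20 110 5 126)))) 
(.lf (.dir (.lf 17 113 0 131)))) (.y 517 (.z 258 (.a 236 (.y 506 
(.lf (.dir (.lf 14 116 8 123))) (.lf (.dir (.pot 0)))) (.lf (.dir (.lf 20 110 5 126)))) 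
(.a 236 (.lf (.two (.lm 14 22 32 0 19 39 12) (.lf 32 98 5 126))) 
(.lf (.dir (.lf 20 110 5 126))))) (.lf (.dir (.lf 17 113 0 131))))) (.z 247 (.y 517 
(.lf (.dir (.lf 30 100 5 125))) (.lf (.dir (.lf 30 101 0 131)))) (.y 517 
(.lf (.dir (.lf 30 100 5 125))) (.lf (.dir (.lf 30 101 0 131)))))))))) (.y 450 (.a 225 (.z 315 
(.y 405 (.lf .inf) (.lf (.dir (.lf 0 114 45 66)))) (.y 405 (.lf .inf) 
(.lf (.dir (.lf 0 114 45 66))))) (.lf .inf)) (.a 225 (.z 315 (.y 495 (.a 202 (.z 292 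
(.lf (.two (.lm 0 68 41 0 3 51 22) (.lf 41 70 24 88))) 
(.lf (.two (.lm 0 82 50 8 3 60 23) (.lf 50 52 24 83)))) (.z 292 (.y 472 
(.lf (.dir (.lf 5 125 30 100))) (.lf (.two (.lm 5 45 41 0 14 51 23) (.lf 41 78 18 102)))) 
(.y 472 (.lf (.dir (.lf 5 125 30 100))) (.lf (.two (.lm 5 67 50 0 14 60 23) (.lf 50 60 18 97)))))) 
(.a 202 (.z 292 (.lf (.two (.lm 0 68 41 0 3 51 22) (.lf 41 81 0 122))) (.y 517 
(.lf (.dir (.lf 0 131 5 126))) (.lf (.dir (.lf 0 131 0 131))))) (.z 292 (.y 517 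
(.lf (.two (.lm 5 45 41 0 14 51 23) (.lf 41 83 5 120))) (.lf (.dir (.lf 5 126 0 131)))) 
(.y 517 (.lf (.two (.lm 5 67 50 0 14 60 23) (.lf 50 66 5 114))) (.lf (.dir (.lf 5 126 0 131))))))) 
(.y 495 (.a 202 (.z 337 (.lf (.two (.lm 0 94 56 19 3 66 22) (.lf 56 34 24 79))) 
(.lf (.two (.lf 0 104 59 31) (.lm 59 15 24 75 68 41 34)))) (.z 337 (.y 472 
(.lf (.dir (.lf 5 125 30 100))) (.lf (.two (.lm 5 87 56 3 14 66 23) (.lf 56 44 18 91)))) 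
(.y 472 (.lf (.dir (.lf 5 125 30 100))) 
(.lf (.two (.lm 5 94 59 18 14 68 23) (.lm 59 26 18 86 68 27 23)))))) (.a 202 (.z 337 (.y 517 
(.lf (.dir (.lf 0 131 5 126))) (.lf (.dir (.lf 0 131 0 131)))) (.y 517 
(.lf (.dir (.lf 0 131 5 126))) (.lf (.dir (.lf 0 131 0 131))))) (.z 337 (.y 517 
(.lf (.two (.lm 5 87 56 3 14 66 23) (.lf 56 50 5 108))) (.lf (.dir (.lf 5 126 0 131)))) 
(.y 517 (.lf (.two (.lm 5 94 59 18 14 68 23) (.lf 59 34 5 101))) (.lf (.dir (.lf 5 126 0 131)))))))) 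
(.z 315 (.y 495 (.a 247 (.z 292 (.y 472 (.lf .inf) (.y 483 (.lf .inf) 
(.lf (.dir (.lf 17 113 14 116))))) (.y 472 (.lf .inf) (.z 303 
(.lf (.two (.lm 17 45 47 0 26 56 17) (.lf 47 68 18 101))) 
(.lf (.two (.lm 17 56 51 0 26 60 17) (.lf 51 59 18 98)))))) (.lf .inf)) (.a 247 (.z 292 
(.y 517 (.a 236 (.lf (.two (.lm 14 34 41 0 19 51 17) (.lf 41 83 5 120))) 
(.lf (.dir (.lf 20 110 5 126)))) (.lf (.dir (.lf 17 113 0 131)))) (.y 517 (.z 303 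
(.lf (.two (.lm 17 45 47 0 26 56 17) (.lf 47 74 5 118))) 
(.lf (.two (.lm 17 56 51 0 26 60 17) (.lf 51 65 5 115)))) (.lf (.dir (.lf 17 113 0 131))))) 
(.z 292 (.y 517 (.lf (.dir (.lf 30 100 5 125))) (.lf (.dir (.lf 30 101 0 131)))) (.y 517 
(.lf (.dir (.lf 30 100 5 125))) (.lf (.dir (.lf 30 101 0 131))))))) (.y 495 (.a 247 (.z 337 
(.y 472 (.lf .inf) (.lf (.two (.lm 17 68 56 0 26 66 22) (.lf 56 44 18 91)))) (.y 472 (.lf .inf) 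
(.lf (.two (.lm 17 81 59 9 26 68 23) (.lm 59 26 18 86 68 27 23))))) (.lf .inf)) (.a 247 
(.z 337 (.y 517 (.lf (.two (.lm 17 68 56 0 26 66 22) (.lf 56 50 5 108))) 
(.lf (.dir (.lf 17 113 0 131)))) (.y 517 
(.lf (.two (.lm 17 81 59 9 26 68 23) (.lf 59 34 5 101))) (.lf (.dir (.lf 17 113 0 131))))) 
(.z 337 (.y 517 (.lf (.dir (.lf 30 100 5 125))) (.lf (.dir (.lf 30 101 0 131)))) (.y 517 
(.lf (.dir (.lf 30 100 5 125))) (.lf (.dir (.lf 30 101 0 131))))))))))) (.z 270 (.y 450 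
(.lf .inf) (.a 315 (.z 225 (.lf .inf) (.y 495 (.lf .inf) (.lf (.dir (.lf 45 66 0 114))))) 
(.lf .inf))) (.y 450 (.lf .inf) (.a 315 (.z 315 (.y 495 (.lf .inf) 
(.lf (.dir (.lf 45 66 0 114)))) (.y 495 (.lf .inf) (.lf (.dir (.lf 45 66 0 114))))) (.lf .inf))))) 
(.a 270 (.z 270 (.y 630 (.a 225 (.z 225 (.y 585 (.lf (.low 2)) (.lf (.low 2))) (.y 585 
(.lf (.low 2)) (.lf (.low 2)))) (.z 225 (.lf (.two (.lf 24 0 0 0) (.pot 1))) (.y 585 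
(.lf (.low 2)) (.lf (.low 2))))) (.lf (.low 2))) (.y 630 (.a 225 (.z 315 (.y 585 (.lf (.low 2)) 
(.lf (.low 2))) (.y 585 (.lf (.low 2)) (.lf (.low 2)))) (.z 315 (.y 585 (.lf (.low 2)) 
(.lf (.low 2))) (.y 585 (.lf (.low 2)) (.lf (.low 2))))) (.lf (.low 2)))) (.z 270 
(.lf (.two (.lf 53 0 11 0) (.pot 1))) (.y 630 (.a 315 (.z 315 (.y 585 (.lf (.low 2)) 
(.lf (.low 2))) (.y 585 (.lf (.low 2)) (.lf (.low 2)))) (.lf (.dir (.lf 58 58 0 122)))) 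
(.lf (.low 2))))))))

theorem h0 : chk (leafR PP TD4 128 1) c0 128 160 0 360 0 360 360 720 = true := by
  decide +kernel

def c1 : Tree :=
  (.a 180 (.z 540 (.y 540 (.a 90 (.lf (.low 0)) (.z 450 (.y 450 (.a 135 (.lf (.low 0)) 
(.lf (.low 0))) (.a 135 (.lf (.low 0)) (.lf (.low 0)))) (.y 450 
(.lf (.two (.pot 1) (.lf 11 0 53 0))) (.a 135 (.lf (.low 0)) (.lf (.low 0)))))) (.a 90 
(.lf .inf) (.z 450 (.y 630 (.a 135 (.lf .inf) (.lf (.low 0))) (.lf .inf)) (.y 630 (.a 135 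
(.lf .inf) (.lf (.low 0))) (.lf .inf))))) (.y 540 (.lf (.two (.pot 1) (.lf 0 0 35 0))) (.a 90 
(.lf .inf) (.z 630 (.y 630 (.lf (.tipb 0 0 45)) (.lf .inf)) (.lf (.low 1)))))) (.z 540 (.y 540 
(.a 270 (.z 450 (.y 450 (.a 225 (.z 405 (.y 405 (.lf .inf) (.lf (.dir (.lf 0 114 45 66)))) 
(.y 405 (.lf .inf) (.lf (.dir (.lf 0 114 45 66))))) (.lf .inf)) (.a 225 (.z 405 (.y 495 
(.a 202 (.z 382 (.y 472 (.lf (.dir (.lf 0 131 30 101))) (.lf (.dir (.lf 0 131 18 113)))) 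
(.y 472 (.lf (.dir (.lf 0 131 30 101))) (.lf (.dir (.lf 0 131 18 113))))) (.z 382 (.y 472 
(.lf (.dir (.lf 5 125 30 100))) (.lf (.two (.lf 5 101 59 34) (.lm 59 10 18 80 68 27 23)))) 
(.y 472 (.lf (.dir (.lf 5 125 30 100))) (.a 213 
(.lf (.two (.lf 1 115 56 54) (.lm 56 0 18 67 66 27 23))) 
(.lf (.two (.lf 8 106 56 51) (.lm 56 0 18 67 66 27 23))))))) (.a 202 (.z 382 (.y 517 
(.lf (.dir (.lf 0 131 5 126))) (.lf (.dir (.lf 0 131 0 131)))) (.y 517 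
(.lf (.dir (.lf 0 131 5 126))) (.lf (.dir (.lf 0 131 0 131))))) (.z 382 (.y 517 
(.lf (.two (.lf 5 101 59 34) (.lm 59 19 5 94 68 14 22))) (.lf (.dir (.lf 5 126 0 131)))) 
(.y 517 (.lf (.two (.lf 5 108 56 49) (.lm 56 3 5 87 66 14 23))) (.lf (.dir (.lf 5 126 0 131))))))) 
(.y 495 (.a 202 (.z 427 (.y 472 (.lf (.dir (.lf 0 131 30 101))) (.lf (.dir (.lf 0 131 18 113)))) 
(.y 472 (.lf (.dir (.lf 0 131 30 101))) (.lf (.dir (.lf 0 131 18 113))))) (.z 427 (.y 472 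
(.lf (.dir (.lf 5 125 30 100))) (.a 213 (.y 483 (.lf (.dir (.lf 1 129 21 110))) 
(.lf (.dir (.pot 0)))) (.y 483 (.lf (.dir (.lf 8 123 21 110))) (.lf (.dir (.lf 8 123 14 116)))))) 
(.y 472 (.lf (.dir (.lf 5 125 30 100))) (.a 213 (.z 438 
(.lf (.two (.lf 1 129 43 85) (.lm 43 0 18 34 51 27 17))) (.y 483 
(.lf (.dir (.lf 1 129 21 110))) (.lf (.dir (.pot 0))))) (.z 438 
(.lf (.two (.lf 8 119 43 83) (.lm 43 0 18 34 51 27 17))) (.y 483 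
(.lf (.dir (.lf 8 123 21 110))) (.lf (.dir (.lf 8 123 14 116))))))))) (.a 202 (.z 427 (.y 517 
(.lf (.dir (.lf 0 131 5 126))) (.lf (.dir (.lf 0 131 0 131)))) (.y 517 
(.lf (.dir (.lf 0 131 5 126))) (.lf (.dir (.lf 0 131 0 131))))) (.z 427 (.y 517 
(.lf (.two (.lf 5 114 50 66) (.lm 50 0 5 68 60 14 22))) (.lf (.dir (.lf 5 126 0 131)))) 
(.y 517 (.lf (.two (.lf 5 119 41 83) (.lm 41 0 5 45 52 14 23))) (.lf (.dir (.lf 5 126 0 131)))))))) 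
(.z 405 (.y 495 (.a 247 (.z 382 (.y 472 (.lf .inf) 
(.lf (.two (.lm 17 86 59 27 26 68 22) (.lm 59 10 18 80 68 27 23)))) (.y 472 (.lf .inf) 
(.lf (.two (.lf 17 92 56 43) (.lm 56 0 18 67 66 27 23))))) (.lf .inf)) (.a 247 (.z 382 (.y 517 
(.lf (.two (.lm 17 86 59 27 26 68 22) (.lm 59 19 5 94 68 14 22))) 
(.lf (.dir (.lf 17 113 0 131)))) (.y 517 
(.lf (.two (.lf 17 92 56 43) (.lm 56 3 5 87 66 14 23))) (.lf (.dir (.lf 17 113 0 131))))) 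
(.z 382 (.y 517 (.lf (.dir (.lf 30 100 5 125))) (.lf (.dir (.lf 30 101 0 131)))) (.y 517 
(.lf (.dir (.lf 30 100 5 125))) (.lf (.dir (.lf 30 101 0 131))))))) (.y 495 (.a 247 (.z 427 
(.y 472 (.lf .inf) (.y 483 (.lf .inf) (.lf (.dir (.lf 17 113 14 116))))) (.y 472 (.lf .inf) 
(.z 438 (.y 483 (.lf .inf) (.lf (.dir (.lf 17 113 14 116)))) (.y 483 (.lf .inf) 
(.lf (.dir (.lf 17 113 14 116))))))) (.lf .inf)) (.a 247 (.z 427 (.y 517 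
(.lf (.two (.lf 17 97 50 61) (.lm 50 0 5 68 60 14 22))) (.lf (.dir (.lf 17 113 0 131)))) 
(.y 517 (.lf (.two (.lf 17 102 41 78) (.lm 41 0 5 45 52 14 23))) 
(.lf (.dir (.lf 17 113 0 131))))) (.z 427 (.y 517 (.lf (.dir (.lf 30 100 5 125))) 
(.lf (.dir (.lf 30 101 0 131)))) (.y 517 (.lf (.dir (.lf 30 100 5 125))) 
(.lf (.dir (.lf 30 101 0 131)))))))))) (.y 450 (.a 225 (.z 495 (.y 405 (.lf .inf) 
(.lf (.dir (.lf 0 114 45 66)))) (.lf .inf)) (.lf .inf)) (.a 225 (.z 495 (.y 495 (.a 202 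
(.z 472 (.y 472 (.lf (.dir (.lf 0 131 30 101))) (.lf (.dir (.lf 0 131 18 113)))) (.y 472 
(.lf (.dir (.lf 0 131 30 101))) (.lf (.dir (.lf 0 131 18 113))))) (.z 472 (.y 472 
(.lf (.dir (.lf 5 125 30 100))) (.a 213 (.y 483 (.lf (.dir (.lf 1 129 21 110))) 
(.lf (.dir (.pot 0)))) (.y 483 (.lf (.dir (.lf 8 123 21 110))) (.lf (.dir (.lf 8 123 14 116)))))) 
(.y 472 (.lf (.dir (.lf 5 125 30 100))) (.a 213 (.z 483 (.y 483 (.lf (.dir (.lf 1 129 21 110))) 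
(.lf (.dir (.pot 0)))) (.y 483 (.lf (.dir (.lf 1 129 21 110))) (.lf (.dir (.pot 0))))) (.z 483 
(.y 483 (.lf (.dir (.lf 8 123 21 110))) (.lf (.dir (.lf 8 123 14 116)))) (.y 483 
(.lf (.dir (.lf 8 123 21 110))) (.lf (.dir (.lf 8 123 14 116))))))))) (.a 202 (.z 472 (.y 517 
(.lf (.dir (.lf 0 131 5 126))) (.lf (.dir (.lf 0 131 0 131)))) (.y 517 
(.lf (.dir (.lf 0 131 5 126))) (.lf (.dir (.lf 0 131 0 131))))) (.z 472 (.y 517 (.a 213 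
(.z 461 (.lf (.two (.lf 1 129 33 98) (.lm 33 0 5 34 39 14 17))) 
(.lf (.two (.lf 1 129 27 104) (.lm 27 0 5 23 33 14 17)))) (.lf (.dir (.pot 0)))) 
(.lf (.dir (.lf 5 126 0 131)))) (.y 517 (.a 213 (.z 483 
(.lf (.two (.lf 1 129 21 110) (.lm 21 0 5 12 26 14 17))) (.y 506 (.lf (.dir (.pot 0))) 
(.lf (.tipb 18 7 17)))) (.lf (.dir (.pot 0)))) (.lf (.dir (.lf 5 126 0 131))))))) (.y 495 
(.lf (.two (.pot 1) (.lf 0 0 24 0))) (.a 202 (.z 517 (.y 517 (.lf (.tipb 13 13 11)) 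
(.lf (.tipb 13 2 23))) (.lf (.tipb 2 14 12))) (.z 517 (.y 517 (.lf (.tipb 13 13 11)) 
(.lf (.tipb 13 2 23))) (.lf (.tipb 2 14 12)))))) (.z 495 (.y 495 (.a 247 (.z 472 (.y 472 
(.lf .inf) (.y 483 (.lf .inf) (.lf (.dir (.lf 17 113 14 116))))) (.y 472 (.lf .inf) (.z 483 
(.y 483 (.lf .inf) (.lf (.dir (.lf 17 113 14 116)))) (.y 483 (.lf .inf) 
(.lf (.dir (.lf 17 113 14 116))))))) (.lf .inf)) (.a 247 (.z 472 (.y 517 (.a 236 (.z 461 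
(.lf (.two (.lf 14 116 33 98) (.lm 33 0 5 34 39 14 17))) 
(.lf (.two (.lf 14 116 27 104) (.lm 27 0 5 23 33 14 17)))) (.lf (.dir (.lf 20 110 5 126)))) 
(.lf (.dir (.lf 17 113 0 131)))) (.y 517 (.z 483 
(.lf (.two (.lf 17 113 21 110) (.lm 21 0 5 12 26 14 17))) (.a 236 (.y 506 
(.lf (.dir (.lf 14 116 8 123))) (.lf (.dir (.pot 0)))) (.lf (.dir (.lf 20 110 5 126))))) 
(.lf (.dir (.lf 17 113 0 131))))) (.z 472 (.y 517 (.lf (.dir (.lf 30 100 5 125))) 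
(.lf (.dir (.lf 30 101 0 131)))) (.y 517 (.lf (.dir (.lf 30 100 5 125))) 
(.lf (.dir (.lf 30 101 0 131))))))) (.y 495 (.a 247 (.z 517 (.y 472 (.lf .inf) (.y 483 
(.lf .inf) (.lf (.dir (.lf 17 113 14 116))))) (.lf .inf)) (.lf .inf)) (.a 247 (.z 517 (.y 517 
(.a 236 (.z 506 (.lf (.two (.lf 14 116 8 123) (.lm 8 0 5 0 13 14 11))) (.lf (.tipb 7 13 6))) 
(.lf (.dir (.lf 20 110 5 126)))) (.lf (.dir (.lf 17 113 0 131)))) (.lf (.tipb 2 14 12))) 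
(.z 517 (.y 517 (.lf (.dir (.lf 30 100 5 125))) (.lf (.dir (.lf 30 101 0 131)))) 
(.lf (.two (.lf 30 101 0 131) (.lm 0 0 0 0 3 15 12)))))))))) (.z 450 (.y 450 (.lf .inf) 
(.a 315 (.z 405 (.y 495 (.lf .inf) (.lf (.dir (.lf 45 66 0 114)))) (.y 495 (.lf .inf) 
(.lf (.dir (.lf 45 66 0 114))))) (.lf .inf))) (.y 450 (.lf .inf) (.a 315 (.z 495 (.y 495 
(.lf .inf) (.lf (.dir (.lf 45 66 0 114)))) (.y 495 (.lf .inf) (.lf (.dir (.lf 45 66 0 114))))) 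
(.lf .inf))))) (.a 270 (.z 450 (.y 630 (.a 225 (.z 405 (.y 585 (.lf (.low 2)) (.lf (.low 2))) 
(.y 585 (.lf (.low 2)) (.lf (.low 2)))) (.z 405 (.y 585 (.lf (.low 2)) (.lf (.low 2))) (.y 585 
(.lf (.low 2)) (.lf (.low 2))))) (.lf (.low 2))) (.y 630 (.a 225 (.z 495 (.y 585 (.lf (.low 2)) 
(.lf (.low 2))) (.y 585 (.lf (.low 2)) (.lf (.low 2)))) (.z 495 (.y 585 (.lf (.low 2)) 
(.lf (.low 2))) (.y 585 (.lf (.low 2)) (.lf (.low 2))))) (.lf (.low 2)))) (.z 450 (.y 630 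
(.a 315 (.z 405 (.y 585 (.lf (.low 2)) (.lf (.low 2))) (.y 585 (.lf (.low 2)) (.lf (.low 2)))) 
(.lf (.dir (.lf 58 58 0 122)))) (.lf (.low 2))) (.y 630 (.a 315 (.z 495 (.y 585 (.lf (.low 2)) 
(.lf (.low 2))) (.y 585 (.lf (.low 2)) (.lf (.low 2)))) (.lf (.dir (.lf 58 58 0 122)))) 
(.lf (.low 2)))))) (.y 540 (.a 270 (.lf (.two (.pot 1) (.lf 0 0 35 0))) (.z 630 (.y 450 
(.lf .inf) (.a 315 (.z 585 (.lf (.low 1)) (.lf .inf)) (.lf .inf))) (.lf .inf))) (.a 270 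
(.z 630 (.y 630 (.lf (.tipb 0 0 45)) (.lf (.low 2))) (.lf (.low 1))) (.z 630 (.y 630 (.a 315 
(.z 585 (.lf (.low 1)) (.lf (.low 1))) (.lf (.dir (.lf 58 58 0 122)))) (.lf (.low 2))) 
(.lf (.low 1)))))))

theorem h1 : chk (leafR PP TD4 128 1) c1 128 160 0 360 360 720 360 720 = true := by
  decide +kernel

theorem main : ∃ T : Tree, chk (leafR PP TD4 128 1) T 128 160 0 360 0 720 360 720 = true :=
  ⟨_, (chk_z h0 h1)⟩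

end Pool.Agent.Helper58.LDD.R14
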