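import Pool.Agent.Helper58.LD.Comb
import Pool.Agent.Helper58.LDD.Tab

set_option autoImplicit false

namespace Pool.Agent.Helper58.LDD.R15

open Pool.Agent.Helper58.LD Pool.Agent.Helper58.LDD

set_option maxRecDepth 100000

def c0 : Tree :=
  (.z 360 (.a 180 (.z 180 (.y 540 (.a 90 (.lf (.low 0)) (.lf (.low 0))) (.a 90 (.lf .inf) 
(.lf (.low 0)))) (.y 540 (.a 90 (.lf (.low 0)) (.lf (.low 0))) (.a 90 (.lf .inf) (.lf (.low 0))))) 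
(.z 180 (.y 540 (.a 270 (.z 90 (.lf .inf) (.lf (.low 1))) (.lf .inf)) 
(.lf (.two (.lf 40 0 0 0) (.pot 1)))) (.y 540 (.a 270 (.z 270 (.y 450 (.a 225 (.z 225 (.y 405 
(.lf .inf) (.a 202 (.lf (.low 0)) (.lf .inf))) (.y 405 (.lf .inf) (.a 202 (.lf (.low 0)) 
(.lf .inf)))) (.lf .inf)) (.a 225 (.z 225 (.y 495 (.a 202 (.lf (.low 0)) (.z 202 (.lf (.low 1)) 
(.y 472 (.a 213 (.lf (.dir (.lf 0 131 33 98))) (.lf .inf)) (.a 213 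
(.lf (.dir (.lf 0 131 17 114))) (.lf (.dir (.lf 4 127 17 114))))))) (.a 202 (.lf (.low 0)) 
(.lf (.tipa 11 13 12)))) (.y 495 (.a 202 (.lf (.low 0)) (.z 247 (.y 472 (.a 213 
(.lf (.dir (.lf 0 131 33 98))) (.lf .inf)) (.a 213 (.lf (.dir (.lf 0 131 17 114))) 
(.lf (.dir (.lf 4 127 17 114))))) (.y 472 (.a 213 (.lf (.dir (.lf 0 131 33 98))) (.lf .inf)) 
(.a 213 (.lf (.dir (.lf 0 131 17 114))) (.lf (.dir (.lf 4 127 17 114))))))) (.a 202 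
(.lf (.low 0)) (.z 247 (.y 517 (.a 213 (.lf (.dir (.lf 0 131 0 130))) (.lf (.dir (.pot 0)))) 
(.lf (.low 2))) (.y 517 (.a 213 (.lf (.dir (.lf 0 131 0 130))) (.lf (.dir (.pot 0)))) 
(.lf (.low 2))))))) (.z 225 (.y 495 (.a 247 (.z 202 (.lf .inf) (.y 472 (.lf .inf) 
(.lf (.dir (.lf 16 113 17 112))))) (.lf .inf)) (.lf (.two (.lf 25 0 0 0) (.pot 1)))) (.y 495 
(.a 247 (.z 247 (.y 472 (.lf .inf) (.lf (.dir (.lf 16 113 17 112)))) (.y 472 (.lf .inf) 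
(.lf (.dir (.lf 16 113 17 112))))) (.lf .inf)) (.a 247 (.z 247 (.y 517 (.a 236 (.z 236 (.y 506 
(.lf (.dir (.lf 12 118 4 126))) (.lf (.dir (.pot 0)))) (.y 506 (.lf (.dir (.lf 12 118 4 126))) 
(.lf (.dir (.pot 0))))) (.lf (.dir (.lf 20 110 0 130)))) (.lf (.low 2))) (.y 517 (.z 258 
(.a 236 (.y 506 (.lf (.dir (.lf 12 118 4 126))) (.lf (.dir (.pot 0)))) 
(.lf (.dir (.lf 20 110 0 130)))) (.a 236 (.y 506 (.lf (.dir (.lf 12 118 4 126))) 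
(.lf (.dir (.pot 0)))) (.lf (.dir (.lf 20 110 0 130))))) (.lf (.low 2)))) (.z 247 (.y 517 
(.a 258 (.lf (.dir (.lf 28 102 0 130))) (.lf .inf)) (.lf (.low 2))) (.y 517 (.a 258 
(.lf (.dir (.lf 28 102 0 130))) (.lf .inf)) (.lf (.low 2))))))))) (.y 450 (.a 225 (.z 315 
(.y 405 (.lf .inf) (.a 202 (.lf (.low 0)) (.lf .inf))) (.y 405 (.lf .inf) (.a 202 
(.lf (.low 0)) (.lf .inf)))) (.lf .inf)) (.a 225 (.z 315 (.y 495 (.a 202 (.lf (.low 0)) 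
(.z 292 (.y 472 (.a 213 (.lf (.dir (.lf 0 131 33 98))) (.lf .inf)) (.a 213 
(.lf (.dir (.lf 0 131 17 114))) (.lf (.dir (.lf 4 127 17 114))))) (.y 472 (.a 213 
(.lf (.dir (.lf 0 131 33 98))) (.lf .inf)) (.a 213 (.lf (.dir (.lf 0 131 17 114))) 
(.lf (.dir (.lf 4 127 17 114))))))) (.a 202 (.lf (.low 0)) (.z 292 (.y 517 (.a 213 
(.lf (.dir (.lf 0 131 0 130))) (.lf (.dir (.pot 0)))) (.lf (.low 2))) (.y 517 (.a 213 
(.lf (.dir (.lf 0 131 0 130))) (.lf (.dir (.pot 0)))) (.lf (.low 2)))))) (.y 495 (.a 202 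
(.lf (.low 0)) (.z 337 (.y 472 (.lf (.two (.lm 0 90 67 0 12 78 23) (.lf 67 30 33 83))) (.a 213 
(.lf (.dir (.lf 0 131 17 114))) (.lf (.dir (.lf 4 127 17 114))))) (.y 472 (.a 213 
(.lf (.dir (.lf 0 131 33 98))) (.lf .inf)) (.a 213 (.lf (.dir (.lf 0 131 17 114))) 
(.lf (.dir (.lf 4 127 17 114))))))) (.a 202 (.lf (.low 0)) (.z 337 (.y 517 (.a 213 
(.lf (.dir (.lf 0 131 0 130))) (.lf (.dir (.pot 0)))) (.lf (.low 2))) (.y 517 (.a 213 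
(.lf (.dir (.lf 0 131 0 130))) (.lf (.dir (.pot 0)))) (.lf (.low 2))))))) (.z 315 (.y 495 
(.a 247 (.z 292 (.y 472 (.lf .inf) (.lf (.dir (.lf 16 113 17 112)))) (.y 472 (.lf .inf) 
(.lf (.dir (.lf 16 113 17 112))))) (.lf .inf)) (.a 247 (.z 292 (.y 517 (.a 236 (.z 281 (.y 506 
(.lf (.dir (.lf 12 118 4 126))) (.lf (.dir (.pot 0)))) (.y 506 (.lf (.dir (.lf 12 118 4 126))) 
(.lf (.dir (.pot 0))))) (.lf (.dir (.lf 20 110 0 130)))) (.lf (.low 2))) (.y 517 (.z 303 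
(.a 236 (.lf (.two (.lm 12 56 56 0 19 65 11) (.lf 56 66 0 126))) 
(.lf (.dir (.lf 20 110 0 130)))) (.a 236 
(.lf (.two (.lm 12 67 61 0 19 71 12) (.lf 61 56 0 124))) (.lf (.dir (.lf 20 110 0 130))))) 
(.lf (.low 2)))) (.z 292 (.y 517 (.a 258 (.lf (.dir (.lf 28 102 0 130))) (.lf .inf)) 
(.lf (.low 2))) (.y 517 (.a 258 (.lf (.dir (.lf 28 102 0 130))) (.lf .inf)) (.lf (.low 2)))))) 
(.y 495 (.a 247 (.z 337 (.y 472 (.lf .inf) (.lf (.dir (.lf 16 113 17 112)))) (.y 472 (.lf .inf) 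
(.lf (.dir (.lf 16 113 17 112))))) (.lf .inf)) (.a 247 (.z 337 (.y 517 (.a 236 
(.lf (.two (.lm 12 79 67 0 19 78 17) (.lf 67 39 0 119))) (.lf (.dir (.lf 20 110 0 130)))) 
(.lf (.low 2))) (.y 517 (.z 348 (.a 236 
(.lf (.two (.lm 12 100 71 1 19 80 11) (.lf 71 29 0 118))) (.lf (.dir (.lf 20 110 0 130)))) 
(.a 236 (.lf (.two (.lf 12 103 72 9) (.lf 72 19 0 116))) (.lf (.dir (.lf 20 110 0 130))))) 
(.lf (.low 2)))) (.z 337 (.y 517 (.a 258 (.lf (.dir (.lf 28 102 0 130))) (.lf .inf)) 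
(.lf (.low 2))) (.y 517 (.a 258 (.lf (.dir (.lf 28 102 0 130))) (.lf .inf)) (.lf (.low 2)))))))))) 
(.z 270 (.y 450 (.lf .inf) (.a 315 (.z 225 (.lf .inf) (.y 495 (.lf .inf) (.a 292 
(.lf (.dir (.lf 47 77 0 126))) (.lf .inf)))) (.lf .inf))) (.y 450 (.lf .inf) (.a 315 (.z 315 
(.y 495 (.lf .inf) (.a 292 (.lf (.dir (.lf 47 77 0 126))) (.lf .inf))) (.y 495 (.lf .inf) 
(.a 292 (.lf (.dir (.lf 47 77 0 126))) (.lf .inf)))) (.lf .inf))))) (.a 270 (.z 270 (.y 630 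
(.lf (.low 2)) (.lf (.low 2))) (.y 630 (.lf (.low 2)) (.lf (.low 2)))) (.z 270 
(.lf (.two (.lf 64 0 8 0) (.pot 1))) (.y 630 (.lf (.low 2)) (.lf (.low 2)))))))) (.a 180 
(.z 540 (.y 540 (.a 90 (.lf (.low 0)) (.lf (.low 0))) (.a 90 (.lf .inf) (.lf (.low 0)))) 
(.y 540 (.lf (.two (.pot 1) (.lf 0 0 40 0))) (.a 90 (.lf .inf) (.lf (.low 0))))) (.z 540 
(.y 540 (.a 270 (.z 450 (.y 450 (.a 225 (.z 405 (.y 405 (.lf .inf) (.a 202 (.lf (.low 0)) 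
(.lf .inf))) (.y 405 (.lf .inf) (.a 202 (.lf (.low 0)) (.lf .inf)))) (.lf .inf)) (.a 225 
(.z 405 (.y 495 (.a 202 (.lf (.low 0)) (.z 382 (.y 472 (.a 213 (.lf (.dir (.lf 0 131 33 98))) 
(.lf .inf)) (.a 213 (.lf (.dir (.lf 0 131 17 114))) (.lf (.dir (.lf 4 127 17 114))))) (.y 472 
(.a 213 (.lf (.dir (.lf 0 131 33 98))) (.lf .inf)) (.a 213 (.lf (.dir (.lf 0 131 17 114))) 
(.lf (.dir (.lf 4 127 17 114))))))) (.a 202 (.lf (.low 0)) (.z 382 (.y 517 (.a 213 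
(.lf (.dir (.lf 0 131 0 130))) (.lf (.dir (.pot 0)))) (.lf (.low 2))) (.y 517 (.a 213 
(.lf (.dir (.lf 0 131 0 130))) (.lf (.dir (.pot 0)))) (.lf (.low 2)))))) (.y 495 (.a 202 
(.lf (.low 0)) (.z 427 (.y 472 (.a 213 (.lf (.dir (.lf 0 131 33 98))) (.lf .inf)) (.a 213 
(.lf (.dir (.lf 0 131 17 114))) (.lf (.dir (.lf 4 127 17 114))))) (.y 472 (.a 213 
(.lf (.dir (.lf 0 131 33 98))) (.lf .inf)) (.a 213 (.lf (.dir (.lf 0 131 17 114))) 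
(.lf (.dir (.lf 4 127 17 114))))))) (.a 202 (.lf (.low 0)) (.z 427 (.y 517 (.a 213 
(.lf (.dir (.lf 0 131 0 130))) (.lf (.dir (.pot 0)))) (.lf (.low 2))) (.y 517 (.a 213 
(.lf (.dir (.lf 0 131 0 130))) (.lf (.dir (.pot 0)))) (.lf (.low 2))))))) (.z 405 (.y 495 
(.a 247 (.z 382 (.y 472 (.lf .inf) (.lf (.dir (.lf 16 113 17 112)))) (.y 472 (.lf .inf) 
(.lf (.dir (.lf 16 113 17 112))))) (.lf .inf)) (.a 247 (.z 382 (.y 517 (.a 236 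
(.lf (.two (.lf 12 105 72 19) (.lf 72 1 0 112))) (.lf (.dir (.lf 20 110 0 130)))) 
(.lf (.low 2))) (.y 517 (.z 393 (.a 236 
(.lf (.two (.lf 12 109 69 37) (.lm 69 0 0 102 78 12 17))) (.lf (.dir (.lf 20 110 0 130)))) 
(.a 236 (.lf (.two (.lf 12 111 66 46) (.lm 66 0 0 90 75 12 17))) 
(.lf (.dir (.lf 20 110 0 130))))) (.lf (.low 2)))) (.z 382 (.y 517 (.a 258 
(.lf (.dir (.lf 28 102 0 130))) (.lf .inf)) (.lf (.low 2))) (.y 517 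
(.lf (.two (.lf 32 83 67 29) (.lm 67 0 0 90 78 12 23))) (.lf (.low 2)))))) (.y 495 (.a 247 
(.z 427 (.y 472 (.lf .inf) (.lf (.dir (.lf 16 113 17 112)))) (.y 472 (.lf .inf) 
(.lf (.dir (.lf 16 113 17 112))))) (.lf .inf)) (.a 247 (.z 427 (.y 517 (.a 236 (.z 416 
(.lf (.two (.lf 12 113 61 56) (.lm 61 0 0 79 71 12 17))) 
(.lf (.two (.lf 12 114 56 66) (.lm 56 0 0 68 65 12 17)))) (.lf (.dir (.lf 20 110 0 130)))) 
(.lf (.low 2))) (.y 517 (.z 438 (.a 236 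
(.lf (.two (.lf 12 116 51 75) (.lm 51 0 0 57 59 12 17))) (.lf (.dir (.lf 20 110 0 130)))) 
(.a 236 (.lf (.two (.lf 12 118 44 84) (.lm 44 0 0 45 52 12 17))) 
(.lf (.dir (.lf 20 110 0 130))))) (.lf (.low 2)))) (.z 427 (.y 517 (.a 258 
(.lf (.dir (.lf 28 102 0 130))) (.lf .inf)) (.lf (.low 2))) (.y 517 (.a 258 
(.lf (.dir (.lf 28 102 0 130))) (.lf .inf)) (.lf (.low 2))))))))) (.y 450 (.a 225 (.z 495 
(.y 405 (.lf .inf) (.a 202 (.lf (.low 0)) (.lf .inf))) (.lf .inf)) (.lf .inf)) (.a 225 (.z 495 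
(.y 495 (.a 202 (.lf (.low 0)) (.z 472 (.y 472 (.a 213 (.lf (.dir (.lf 0 131 33 98))) 
(.lf .inf)) (.a 213 (.lf (.dir (.lf 0 131 17 114))) (.lf (.dir (.lf 4 127 17 114))))) (.y 472 
(.a 213 (.lf (.dir (.lf 0 131 33 98))) (.lf .inf)) (.a 213 (.lf (.dir (.lf 0 131 17 114))) 
(.lf (.dir (.lf 4 127 17 114))))))) (.a 202 (.lf (.low 0)) (.z 472 (.y 517 (.a 213 
(.lf (.dir (.lf 0 131 0 130))) (.lf (.dir (.pot 0)))) (.lf (.low 2))) (.y 517 (.a 213 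
(.lf (.dir (.lf 0 131 0 130))) (.lf (.dir (.pot 0)))) (.lf (.low 2)))))) (.y 495 
(.lf (.two (.pot 1) (.lf 0 0 25 0))) (.a 202 (.lf (.low 0)) (.z 517 (.lf (.tipb 11 13 23)) 
(.lf (.low 1)))))) (.z 495 (.y 495 (.a 247 (.z 472 (.y 472 (.lf .inf) 
(.lf (.dir (.lf 16 113 17 112)))) (.y 472 (.lf .inf) (.lf (.dir (.lf 16 113 17 112))))) 
(.lf .inf)) (.a 247 (.z 472 (.y 517 (.a 236 (.z 461 (.y 506 (.lf (.dir (.lf 12 118 4 126))) 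
(.lf (.dir (.pot 0)))) (.y 506 (.lf (.dir (.lf 12 118 4 126))) (.lf (.dir (.pot 0))))) 
(.lf (.dir (.lf 20 110 0 130)))) (.lf (.low 2))) (.y 517 (.z 483 (.a 236 (.y 506 
(.lf (.dir (.lf 12 118 4 126))) (.lf (.dir (.pot 0)))) (.lf (.dir (.lf 20 110 0 130)))) 
(.a 236 (.y 506 (.lf (.dir (.lf 12 118 4 126))) (.lf (.dir (.pot 0)))) 
(.lf (.dir (.lf 20 110 0 130))))) (.lf (.low 2)))) (.z 472 (.y 517 (.a 258 
(.lf (.dir (.lf 28 102 0 130))) (.lf .inf)) (.lf (.low 2))) (.y 517 (.a 258 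
(.lf (.dir (.lf 28 102 0 130))) (.lf .inf)) (.lf (.low 2)))))) (.y 495 (.a 247 (.z 517 (.y 472 
(.lf .inf) (.lf (.dir (.lf 16 113 17 112)))) (.lf .inf)) (.lf .inf)) (.a 247 (.z 517 (.y 517 
(.a 236 (.z 506 (.lf (.two (.lf 12 118 4 126) (.lm 4 0 0 0 12 12 11))) (.lf (.tipb 4 11 6))) 
(.lf (.dir (.lf 20 110 0 130)))) (.lf (.low 2))) (.lf (.low 1))) (.z 517 (.y 517 (.a 258 
(.lf (.dir (.lf 28 102 0 130))) (.lf .inf)) (.lf (.low 2))) (.lf (.low 1))))))))) (.z 450 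
(.y 450 (.lf .inf) (.a 315 (.z 405 (.y 495 (.lf .inf) (.a 292 (.lf (.dir (.lf 47 77 0 126))) 
(.lf .inf))) (.y 495 (.lf .inf) (.a 292 (.lf (.dir (.lf 47 77 0 126))) (.lf .inf)))) (.lf .inf))) 
(.y 450 (.lf .inf) (.a 315 (.z 495 (.y 495 (.lf .inf) (.a 292 (.lf (.dir (.lf 47 77 0 126))) 
(.lf .inf))) (.y 495 (.lf .inf) (.a 292 (.lf (.dir (.lf 47 77 0 126))) (.lf .inf)))) (.lf .inf))))) 
(.a 270 (.z 450 (.y 630 (.lf (.low 2)) (.lf (.low 2))) (.y 630 (.lf (.low 2)) (.lf (.low 2)))) 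
(.z 450 (.y 630 (.lf (.low 2)) (.lf (.low 2))) (.y 630 (.lf (.low 2)) (.lf (.low 2)))))) 
(.y 540 (.a 270 (.lf (.two (.pot 1) (.lf 0 0 40 0))) (.z 630 (.lf (.low 1)) (.lf .inf))) 
(.a 270 (.z 630 (.lf (.low 1)) (.lf (.low 1))) (.z 630 (.lf (.low 1)) (.lf (.low 1))))))))

theorem h0 : chk (leafR PP TD5 160 1) c0 160 192 0 360 0 720 360 720 = true := by
  decide +kernel

theorem main : ∃ T : Tree, chk (leafR PP TD5 160 1) T 160 192 0 360 0 720 360 720 = true :=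
  ⟨_, h0⟩

end Pool.Agent.Helper58.LDD.R15
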