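import Pool.Agent.Helper58.LD.Comb
import Pool.Agent.Helper58.LDD.Tab

set_option autoImplicit false

namespace Pool.Agent.Helper58.LDD.R17

open Pool.Agent.Helper58.LD Pool.Agent.Helper58.LDD

set_option maxRecDepth 100000

def c0 : Tree :=
  (.a 180 (.z 180 (.y 540 (.a 90 (.lf (.low 0)) (.lf (.low 0))) (.a 90 (.lf .inf) 
(.lf (.low 0)))) (.y 540 (.a 90 (.lf (.low 0)) (.lf (.low 0))) (.a 90 (.lf .inf) (.lf (.low 0))))) 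
(.z 180 (.y 540 (.a 270 (.z 90 (.lf .inf) (.lf (.low 1))) (.lf .inf)) 
(.lf (.two (.lf 46 0 0 0) (.pot 1)))) (.y 540 (.a 270 (.z 270 (.y 450 (.a 225 (.z 225 (.y 405 
(.lf .inf) (.a 202 (.lf (.low 0)) (.lf .inf))) (.y 405 (.lf .inf) (.a 202 (.lf (.low 0)) 
(.lf .inf)))) (.lf .inf)) (.a 225 (.z 225 (.y 495 (.a 202 (.lf (.low 0)) (.z 202 (.lf (.low 1)) 
(.y 472 (.a 213 (.lf (.low 0)) (.lf .inf)) (.a 213 (.lf (.low 0)) (.z 213 (.lf (.low 1)) 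
(.y 483 (.t 240 (.lf (.low 0)) (.lf (.low 0))) (.t 240 (.lf (.low 0)) (.lf (.low 0))))))))) 
(.a 202 (.lf (.low 0)) (.lf (.tipa 10 16 12)))) (.y 495 (.a 202 (.lf (.low 0)) (.z 247 (.y 472 
(.a 213 (.lf (.low 0)) (.lf .inf)) (.a 213 (.lf (.low 0)) (.y 483 (.z 236 (.t 240 
(.lf (.low 0)) (.lf (.low 0))) (.t 240 (.lf (.low 0)) (.lf (.low 0)))) (.z 236 (.t 240 
(.lf (.low 0)) (.lf (.low 0))) (.t 240 (.lf (.low 0)) (.lf (.low 0))))))) (.y 472 (.a 213 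
(.lf (.low 0)) (.lf .inf)) (.a 213 (.lf (.low 0)) (.z 258 (.y 483 (.t 240 (.lf (.low 0)) 
(.lf (.low 0))) (.t 240 (.lf (.low 0)) (.lf (.low 0)))) (.y 483 (.t 240 (.lf (.low 0)) 
(.lf (.low 0))) (.t 240 (.lf (.low 0)) (.lf (.low 0))))))))) (.a 202 (.lf (.low 0)) (.z 247 
(.y 517 (.lf (.dir (.lf 0 131 0 131))) (.lf (.low 2))) (.y 517 (.lf (.dir (.lf 0 131 0 131))) 
(.lf (.low 2))))))) (.z 225 (.y 495 (.a 247 (.z 202 (.lf .inf) (.y 472 (.lf .inf) (.z 213 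
(.lf .inf) (.y 483 (.lf .inf) (.a 236 (.t 240 (.lf (.low 1)) (.lf (.low 1))) (.lf .inf)))))) 
(.lf .inf)) (.lf (.two (.lf 20 0 0 0) (.pot 1)))) (.y 495 (.a 247 (.z 247 (.y 472 (.lf .inf) 
(.y 483 (.lf .inf) (.a 236 (.z 236 (.t 240 (.lf (.dir (.lf 2 124 3 123))) 
(.lf (.dir (.lf 0 123 0 124)))) (.t 240 (.lf (.dir (.lf 2 124 3 123))) 
(.lf (.dir (.lf 0 123 0 124))))) (.lf .inf)))) (.y 472 (.lf .inf) (.z 258 (.y 483 (.lf .inf) 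
(.a 236 (.t 240 (.lf (.dir (.lf 2 124 3 123))) (.lf (.dir (.lf 0 123 0 124)))) (.lf .inf))) 
(.y 483 (.lf .inf) (.a 236 (.t 240 (.lf (.dir (.lf 2 124 3 123))) 
(.lf (.dir (.lf 0 123 0 124)))) (.lf .inf)))))) (.lf .inf)) (.a 247 (.z 247 (.y 517 (.a 236 
(.z 236 (.y 506 (.t 240 (.lf (.low 2)) (.lf (.low 2))) (.lf (.low 2))) (.y 506 (.t 240 
(.lf (.low 2)) (.lf (.low 2))) (.lf (.low 2)))) (.z 236 (.y 506 (.t 240 (.lf (.low 2)) 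
(.lf (.low 2))) (.lf (.low 2))) (.y 506 (.t 240 (.lf (.low 2)) (.lf (.low 2))) (.lf (.low 2))))) 
(.lf (.low 2))) (.y 517 (.z 258 (.a 236 (.y 506 (.t 240 (.lf (.low 2)) (.lf (.low 2))) 
(.lf (.low 2))) (.y 506 (.t 240 (.lf (.low 2)) (.lf (.low 2))) (.lf (.low 2)))) (.a 236 
(.y 506 (.t 240 (.lf (.low 2)) (.lf (.low 2))) (.lf (.low 2))) (.y 506 (.t 240 (.lf (.low 2)) 
(.lf (.low 2))) (.lf (.low 2))))) (.lf (.low 2)))) (.z 247 (.y 517 (.a 258 (.z 236 (.lf .inf) 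
(.y 506 (.lf .inf) (.lf (.low 2)))) (.lf .inf)) (.lf (.low 2))) (.y 517 (.a 258 (.z 258 
(.y 506 (.lf .inf) (.lf (.low 2))) (.y 506 (.lf .inf) (.lf (.low 2)))) (.lf .inf)) 
(.lf (.low 2))))))))) (.y 450 (.a 225 (.z 315 (.y 405 (.lf .inf) (.a 202 (.lf (.low 0)) 
(.lf .inf))) (.y 405 (.lf .inf) (.a 202 (.lf (.low 0)) (.lf .inf)))) (.lf .inf)) (.a 225 
(.z 315 (.y 495 (.a 202 (.lf (.low 0)) (.z 292 (.y 472 (.a 213 (.lf (.low 0)) (.lf .inf)) 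
(.a 213 (.lf (.low 0)) (.y 483 (.z 281 (.t 240 (.lf (.low 0)) (.lf (.low 0))) (.t 240 
(.lf (.low 0)) (.lf (.low 0)))) (.z 281 (.t 240 (.lf (.low 0)) (.lf (.low 0))) (.t 240 
(.lf (.low 0)) (.lf (.low 0))))))) (.y 472 (.a 213 (.lf (.low 0)) (.lf .inf)) (.a 213 
(.lf (.low 0)) (.z 303 (.y 483 (.t 240 (.lf (.low 0)) (.lf (.low 0))) (.t 240 (.lf (.low 0)) 
(.lf (.low 0)))) (.y 483 (.t 240 (.lf (.low 0)) (.lf (.low 0))) (.t 240 (.lf (.low 0)) 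
(.lf (.low 0))))))))) (.a 202 (.lf (.low 0)) (.z 292 (.y 517 (.lf (.dir (.lf 0 131 0 131))) 
(.lf (.low 2))) (.y 517 (.lf (.dir (.lf 0 131 0 131))) (.lf (.low 2)))))) (.y 495 (.a 202 
(.lf (.low 0)) (.z 337 (.y 472 (.a 213 (.lf (.low 0)) (.lf .inf)) (.a 213 (.lf (.low 0)) 
(.y 483 (.z 326 (.t 240 (.lf (.low 0)) (.lf (.low 0))) (.t 240 (.lf (.low 0)) (.lf (.low 0)))) 
(.z 326 (.t 240 (.lf (.low 0)) (.lf (.low 0))) (.t 240 (.lf (.low 0)) (.lf (.low 0))))))) 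
(.y 472 (.a 213 (.lf (.low 0)) (.lf .inf)) (.a 213 (.lf (.low 0)) (.z 348 (.y 483 (.t 240 
(.lf (.low 0)) (.lf (.low 0))) (.t 240 (.lf (.low 0)) (.lf (.low 0)))) (.y 483 (.t 240 
(.lf (.low 0)) (.lf (.low 0))) (.t 240 (.lf (.low 0)) (.lf (.low 0))))))))) (.a 202 
(.lf (.low 0)) (.z 337 (.y 517 (.lf (.dir (.lf 0 131 0 131))) (.lf (.low 2))) (.y 517 
(.lf (.dir (.lf 0 131 0 131))) (.lf (.low 2))))))) (.z 315 (.y 495 (.a 247 (.z 292 (.y 472 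
(.lf .inf) (.y 483 (.lf .inf) (.a 236 (.z 281 (.t 240 (.lf (.dir (.lf 2 124 3 123))) 
(.lf (.dir (.lf 0 123 0 124)))) (.t 240 (.lf (.dir (.lf 2 124 3 123))) 
(.lf (.dir (.lf 0 123 0 124))))) (.lf .inf)))) (.y 472 (.lf .inf) (.z 303 (.y 483 (.lf .inf) 
(.a 236 (.t 240 (.lf (.dir (.lf 2 124 3 123))) (.lf (.dir (.lf 0 123 0 124)))) (.lf .inf))) 
(.y 483 (.lf .inf) (.a 236 (.t 240 (.lf (.dir (.lf 2 124 3 123))) 
(.lf (.dir (.lf 0 123 0 124)))) (.lf .inf)))))) (.lf .inf)) (.a 247 (.z 292 (.y 517 (.a 236 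
(.z 281 (.y 506 (.t 240 (.lf (.low 2)) (.lf (.low 2))) (.lf (.low 2))) (.y 506 (.t 240 
(.lf (.low 2)) (.lf (.low 2))) (.lf (.low 2)))) (.z 281 (.y 506 (.t 240 (.lf (.low 2)) 
(.lf (.low 2))) (.lf (.low 2))) (.y 506 (.t 240 (.lf (.low 2)) (.lf (.low 2))) (.lf (.low 2))))) 
(.lf (.low 2))) (.y 517 (.z 303 (.a 236 (.y 506 (.t 240 (.lf (.low 2)) (.lf (.low 2))) 
(.lf (.low 2))) (.y 506 (.t 240 (.lf (.low 2)) (.lf (.low 2))) (.lf (.low 2)))) (.a 236 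
(.y 506 (.t 240 (.lf (.low 2)) (.lf (.low 2))) (.lf (.low 2))) (.y 506 (.t 240 (.lf (.low 2)) 
(.lf (.low 2))) (.lf (.low 2))))) (.lf (.low 2)))) (.z 292 (.y 517 (.a 258 (.z 281 (.y 506 
(.lf .inf) (.lf (.low 2))) (.y 506 (.lf .inf) (.lf (.low 2)))) (.lf .inf)) (.lf (.low 2))) 
(.y 517 (.a 258 (.z 303 (.y 506 (.lf .inf) (.lf (.low 2))) (.y 506 (.lf .inf) (.lf (.low 2)))) 
(.lf .inf)) (.lf (.low 2)))))) (.y 495 (.a 247 (.z 337 (.y 472 (.lf .inf) (.y 483 (.lf .inf) 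
(.a 236 (.z 326 (.t 240 (.lf (.dir (.lf 2 124 3 123))) (.lf (.dir (.lf 0 123 0 124)))) (.t 240 
(.lf (.dir (.lf 2 124 3 123))) (.lf (.dir (.lf 0 123 0 124))))) (.lf .inf)))) (.y 472 
(.lf .inf) (.z 348 (.y 483 (.lf .inf) (.a 236 (.t 240 (.lf (.dir (.lf 2 124 3 123))) 
(.lf (.dir (.lf 0 123 0 124)))) (.lf .inf))) (.y 483 (.lf .inf) (.a 236 (.t 240 
(.lf (.dir (.lf 2 124 3 123))) (.lf (.dir (.lf 0 123 0 124)))) (.lf .inf)))))) (.lf .inf)) 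
(.a 247 (.z 337 (.y 517 (.a 236 (.z 326 (.y 506 (.t 240 (.lf (.low 2)) (.lf (.low 2))) 
(.lf (.low 2))) (.y 506 (.t 240 (.lf (.low 2)) (.lf (.low 2))) (.lf (.low 2)))) (.z 326 
(.y 506 (.t 240 (.lf (.low 2)) (.lf (.low 2))) (.lf (.low 2))) (.y 506 (.t 240 (.lf (.low 2)) 
(.lf (.low 2))) (.lf (.low 2))))) (.lf (.low 2))) (.y 517 (.z 348 (.a 236 (.y 506 (.t 240 
(.lf (.low 2)) (.lf (.low 2))) (.lf (.low 2))) (.y 506 (.t 240 (.lf (.low 2)) (.lf (.low 2))) 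
(.lf (.low 2)))) (.a 236 (.y 506 (.t 240 (.lf (.low 2)) (.lf (.low 2))) (.lf (.low 2))) 
(.y 506 (.t 240 (.lf (.low 2)) (.lf (.low 2))) (.lf (.low 2))))) (.lf (.low 2)))) (.z 337 
(.y 517 (.a 258 (.z 326 (.y 506 (.lf .inf) (.lf (.low 2))) (.y 506 (.lf .inf) (.lf (.low 2)))) 
(.lf .inf)) (.lf (.low 2))) (.y 517 (.a 258 (.z 348 (.y 506 (.lf .inf) (.lf (.low 2))) (.y 506 
(.lf .inf) (.lf (.low 2)))) (.lf .inf)) (.lf (.low 2)))))))))) (.z 270 (.y 450 (.lf .inf) 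
(.a 315 (.z 225 (.lf .inf) (.y 495 (.lf .inf) (.a 292 (.z 247 (.lf .inf) (.y 517 (.lf .inf) 
(.lf (.low 2)))) (.lf .inf)))) (.lf .inf))) (.y 450 (.lf .inf) (.a 315 (.z 315 (.y 495 
(.lf .inf) (.a 292 (.z 292 (.y 517 (.lf .inf) (.lf (.low 2))) (.y 517 (.lf .inf) (.lf (.low 2)))) 
(.lf .inf))) (.y 495 (.lf .inf) (.a 292 (.z 337 (.y 517 (.lf .inf) (.lf (.low 2))) (.y 517 
(.lf .inf) (.lf (.low 2)))) (.lf .inf)))) (.lf .inf))))) (.a 270 (.z 270 (.y 630 (.lf (.low 2)) 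
(.lf (.low 2))) (.y 630 (.lf (.low 2)) (.lf (.low 2)))) (.z 270 
(.lf (.two (.lf 84 0 0 0) (.pot 1))) (.y 630 (.lf (.low 2)) (.lf (.low 2))))))))

theorem h0 : chk (leafR PP TD7 224 1) c0 224 256 0 360 0 360 360 720 = true := by
  decide +kernel

def c1 : Tree :=
  (.a 180 (.z 540 (.y 540 (.a 90 (.lf (.low 0)) (.lf (.low 0))) (.a 90 (.lf .inf) 
(.lf (.low 0)))) (.y 540 (.lf (.two (.pot 1) (.lf 0 0 46 0))) (.a 90 (.lf .inf) (.lf (.low 0))))) 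
(.z 540 (.y 540 (.a 270 (.z 450 (.y 450 (.a 225 (.z 405 (.y 405 (.lf .inf) (.a 202 
(.lf (.low 0)) (.lf .inf))) (.y 405 (.lf .inf) (.a 202 (.lf (.low 0)) (.lf .inf)))) (.lf .inf)) 
(.a 225 (.z 405 (.y 495 (.a 202 (.lf (.low 0)) (.z 382 (.y 472 (.a 213 (.lf (.low 0)) 
(.lf .inf)) (.a 213 (.lf (.low 0)) (.y 483 (.z 371 (.t 240 (.lf (.low 0)) (.lf (.low 0))) 
(.t 240 (.lf (.low 0)) (.lf (.low 0)))) (.z 371 (.t 240 (.lf (.low 0)) (.lf (.low 0))) (.t 240 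
(.lf (.low 0)) (.lf (.low 0))))))) (.y 472 (.a 213 (.lf (.low 0)) (.lf .inf)) (.a 213 
(.lf (.low 0)) (.z 393 (.y 483 (.t 240 (.lf (.low 0)) (.lf (.low 0))) (.t 240 (.lf (.low 0)) 
(.lf (.low 0)))) (.y 483 (.t 240 (.lf (.low 0)) (.lf (.low 0))) (.t 240 (.lf (.low 0)) 
(.lf (.low 0))))))))) (.a 202 (.lf (.low 0)) (.z 382 (.y 517 (.lf (.dir (.lf 0 131 0 131))) 
(.lf (.low 2))) (.y 517 (.lf (.dir (.lf 0 131 0 131))) (.lf (.low 2)))))) (.y 495 (.a 202 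
(.lf (.low 0)) (.z 427 (.y 472 (.a 213 (.lf (.low 0)) (.lf .inf)) (.a 213 (.lf (.low 0)) 
(.y 483 (.z 416 (.t 240 (.lf (.low 0)) (.lf (.low 0))) (.t 240 (.lf (.low 0)) (.lf (.low 0)))) 
(.z 416 (.t 240 (.lf (.low 0)) (.lf (.low 0))) (.t 240 (.lf (.low 0)) (.lf (.low 0))))))) 
(.y 472 (.a 213 (.lf (.low 0)) (.lf .inf)) (.a 213 (.lf (.low 0)) (.z 438 (.y 483 (.t 240 
(.lf (.low 0)) (.lf (.low 0))) (.t 240 (.lf (.low 0)) (.lf (.low 0)))) (.y 483 (.t 240 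
(.lf (.low 0)) (.lf (.low 0))) (.t 240 (.lf (.low 0)) (.lf (.low 0))))))))) (.a 202 
(.lf (.low 0)) (.z 427 (.y 517 (.lf (.dir (.lf 0 131 0 131))) (.lf (.low 2))) (.y 517 
(.lf (.dir (.lf 0 131 0 131))) (.lf (.low 2))))))) (.z 405 (.y 495 (.a 247 (.z 382 (.y 472 
(.lf .inf) (.y 483 (.lf .inf) (.a 236 (.z 371 (.t 240 (.lf (.dir (.lf 2 124 3 123))) 
(.lf (.dir (.lf 0 123 0 124)))) (.t 240 (.lf (.dir (.lf 2 124 3 123))) 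
(.lf (.dir (.lf 0 123 0 124))))) (.lf .inf)))) (.y 472 (.lf .inf) (.z 393 (.y 483 (.lf .inf) 
(.a 236 (.t 240 (.lf (.dir (.lf 2 124 3 123))) (.lf (.dir (.lf 0 123 0 124)))) (.lf .inf))) 
(.y 483 (.lf .inf) (.a 236 (.t 240 (.lf (.dir (.lf 2 124 3 123))) 
(.lf (.dir (.lf 0 123 0 124)))) (.lf .inf)))))) (.lf .inf)) (.a 247 (.z 382 (.y 517 (.a 236 
(.z 371 (.y 506 (.t 240 (.lf (.low 2)) (.lf (.low 2))) (.lf (.low 2))) (.y 506 (.t 240 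
(.lf (.low 2)) (.lf (.low 2))) (.lf (.low 2)))) (.z 371 (.y 506 (.t 240 (.lf (.low 2)) 
(.lf (.low 2))) (.lf (.low 2))) (.y 506 (.t 240 (.lf (.low 2)) (.lf (.low 2))) (.lf (.low 2))))) 
(.lf (.low 2))) (.y 517 (.z 393 (.a 236 (.y 506 (.t 240 (.lf (.low 2)) (.lf (.low 2))) 
(.lf (.low 2))) (.y 506 (.t 240 (.lf (.low 2)) (.lf (.low 2))) (.lf (.low 2)))) (.a 236 
(.y 506 (.t 240 (.lf (.low 2)) (.lf (.low 2))) (.lf (.low 2))) (.y 506 (.t 240 (.lf (.low 2)) 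
(.lf (.low 2))) (.lf (.low 2))))) (.lf (.low 2)))) (.z 382 (.y 517 (.a 258 (.z 371 (.y 506 
(.lf .inf) (.lf (.low 2))) (.y 506 (.lf .inf) (.lf (.low 2)))) (.lf .inf)) (.lf (.low 2))) 
(.y 517 (.a 258 (.z 393 (.y 506 (.lf .inf) (.lf (.low 2))) (.y 506 (.lf .inf) (.lf (.low 2)))) 
(.lf .inf)) (.lf (.low 2)))))) (.y 495 (.a 247 (.z 427 (.y 472 (.lf .inf) (.y 483 (.lf .inf) 
(.a 236 (.z 416 (.t 240 (.lf (.dir (.lf 2 124 3 123))) (.lf (.dir (.lf 0 123 0 124)))) (.t 240 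
(.lf (.dir (.lf 2 124 3 123))) (.lf (.dir (.lf 0 123 0 124))))) (.lf .inf)))) (.y 472 
(.lf .inf) (.z 438 (.y 483 (.lf .inf) (.a 236 (.t 240 (.lf (.dir (.lf 2 124 3 123))) 
(.lf (.dir (.lf 0 123 0 124)))) (.lf .inf))) (.y 483 (.lf .inf) (.a 236 (.t 240 
(.lf (.dir (.lf 2 124 3 123))) (.lf (.dir (.lf 0 123 0 124)))) (.lf .inf)))))) (.lf .inf)) 
(.a 247 (.z 427 (.y 517 (.a 236 (.z 416 (.y 506 (.t 240 (.lf (.low 2)) (.lf (.low 2))) 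
(.lf (.low 2))) (.y 506 (.t 240 (.lf (.low 2)) (.lf (.low 2))) (.lf (.low 2)))) (.z 416 
(.y 506 (.t 240 (.lf (.low 2)) (.lf (.low 2))) (.lf (.low 2))) (.y 506 (.t 240 (.lf (.low 2)) 
(.lf (.low 2))) (.lf (.low 2))))) (.lf (.low 2))) (.y 517 (.z 438 (.a 236 (.y 506 (.t 240 
(.lf (.low 2)) (.lf (.low 2))) (.lf (.low 2))) (.y 506 (.t 240 (.lf (.low 2)) (.lf (.low 2))) 
(.lf (.low 2)))) (.a 236 (.y 506 (.t 240 (.lf (.low 2)) (.lf (.low 2))) (.lf (.low 2))) 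
(.y 506 (.t 240 (.lf (.low 2)) (.lf (.low 2))) (.lf (.low 2))))) (.lf (.low 2)))) (.z 427 
(.y 517 (.a 258 (.z 416 (.y 506 (.lf .inf) (.lf (.low 2))) (.y 506 (.lf .inf) (.lf (.low 2)))) 
(.lf .inf)) (.lf (.low 2))) (.y 517 (.a 258 (.z 438 (.y 506 (.lf .inf) (.lf (.low 2))) (.y 506 
(.lf .inf) (.lf (.low 2)))) (.lf .inf)) (.lf (.low 2))))))))) (.y 450 (.a 225 (.z 495 (.y 405 
(.lf .inf) (.a 202 (.lf (.low 0)) (.lf .inf))) (.lf .inf)) (.lf .inf)) (.a 225 (.z 495 (.y 495 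
(.a 202 (.lf (.low 0)) (.z 472 (.y 472 (.a 213 (.lf (.low 0)) (.lf .inf)) (.a 213 
(.lf (.low 0)) (.y 483 (.z 461 (.t 240 (.lf (.low 0)) (.lf (.low 0))) (.t 240 (.lf (.low 0)) 
(.lf (.low 0)))) (.z 461 (.t 240 (.lf (.low 0)) (.lf (.low 0))) (.t 240 (.lf (.low 0)) 
(.lf (.low 0))))))) (.y 472 (.a 213 (.lf (.low 0)) (.lf .inf)) (.a 213 (.lf (.low 0)) (.z 483 
(.y 483 (.t 240 (.lf (.low 0)) (.lf (.low 0))) (.t 240 (.lf (.low 0)) (.lf (.low 0)))) (.y 483 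
(.t 240 (.lf (.low 0)) (.lf (.low 0))) (.t 240 (.lf (.low 0)) (.lf (.low 0))))))))) (.a 202 
(.lf (.low 0)) (.z 472 (.y 517 (.lf (.dir (.lf 0 131 0 131))) (.lf (.low 2))) (.y 517 
(.lf (.dir (.lf 0 131 0 131))) (.lf (.low 2)))))) (.y 495 (.lf (.two (.pot 1) (.lf 0 0 20 0))) 
(.a 202 (.lf (.low 0)) (.z 517 (.y 517 (.lf (.tipb 10 10 11)) (.lf (.low 2))) (.lf (.low 1)))))) 
(.z 495 (.y 495 (.a 247 (.z 472 (.y 472 (.lf .inf) (.y 483 (.lf .inf) (.a 236 (.z 461 (.t 240 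
(.lf (.dir (.lf 2 124 3 123))) (.lf (.dir (.lf 0 123 0 124)))) (.t 240 
(.lf (.dir (.lf 2 124 3 123))) (.lf (.dir (.lf 0 123 0 124))))) (.lf .inf)))) (.y 472 
(.lf .inf) (.z 483 (.y 483 (.lf .inf) (.a 236 (.t 240 (.lf (.dir (.lf 2 124 3 123))) 
(.lf (.dir (.lf 0 123 0 124)))) (.lf .inf))) (.y 483 (.lf .inf) (.a 236 (.t 240 
(.lf (.dir (.lf 2 124 3 123))) (.lf (.dir (.lf 0 123 0 124)))) (.lf .inf)))))) (.lf .inf)) 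
(.a 247 (.z 472 (.y 517 (.a 236 (.z 461 (.y 506 (.t 240 (.lf (.low 2)) (.lf (.low 2))) 
(.lf (.low 2))) (.y 506 (.t 240 (.lf (.low 2)) (.lf (.low 2))) (.lf (.low 2)))) (.z 461 
(.y 506 (.t 240 (.lf (.low 2)) (.lf (.low 2))) (.lf (.low 2))) (.y 506 (.t 240 (.lf (.low 2)) 
(.lf (.low 2))) (.lf (.low 2))))) (.lf (.low 2))) (.y 517 (.z 483 (.a 236 (.y 506 (.t 240 
(.lf (.low 2)) (.lf (.low 2))) (.lf (.low 2))) (.y 506 (.t 240 (.lf (.low 2)) (.lf (.low 2))) 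
(.lf (.low 2)))) (.a 236 (.y 506 (.t 240 (.lf (.low 2)) (.lf (.low 2))) (.lf (.low 2))) 
(.y 506 (.t 240 (.lf (.low 2)) (.lf (.low 2))) (.lf (.low 2))))) (.lf (.low 2)))) (.z 472 
(.y 517 (.a 258 (.z 461 (.y 506 (.lf .inf) (.lf (.low 2))) (.y 506 (.lf .inf) (.lf (.low 2)))) 
(.lf .inf)) (.lf (.low 2))) (.y 517 (.a 258 (.z 483 (.y 506 (.lf .inf) (.lf (.low 2))) (.y 506 
(.lf .inf) (.lf (.low 2)))) (.lf .inf)) (.lf (.low 2)))))) (.y 495 (.a 247 (.z 517 (.y 472 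
(.lf .inf) (.y 483 (.lf .inf) (.a 236 (.z 506 (.t 240 (.lf (.low 1)) (.lf (.low 1))) (.lf .inf)) 
(.lf .inf)))) (.lf .inf)) (.lf .inf)) (.a 247 (.z 517 (.y 517 (.a 236 (.z 506 (.y 506 (.t 240 
(.lf (.low 1)) (.lf (.low 1))) (.lf (.low 2))) (.lf (.low 1))) (.z 506 (.y 506 (.t 240 
(.lf (.low 1)) (.lf (.low 1))) (.lf (.low 2))) (.lf (.low 1)))) (.lf (.low 2))) (.lf (.low 1))) 
(.z 517 (.y 517 (.a 258 (.z 506 (.y 506 (.lf .inf) (.lf (.low 2))) (.lf (.low 1))) (.lf .inf)) 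
(.lf (.low 2))) (.lf (.low 1))))))))) (.z 450 (.y 450 (.lf .inf) (.a 315 (.z 405 (.y 495 
(.lf .inf) (.a 292 (.z 382 (.y 517 (.lf .inf) (.lf (.low 2))) (.y 517 (.lf .inf) (.lf (.low 2)))) 
(.lf .inf))) (.y 495 (.lf .inf) (.a 292 (.z 427 (.y 517 (.lf .inf) (.lf (.low 2))) (.y 517 
(.lf .inf) (.lf (.low 2)))) (.lf .inf)))) (.lf .inf))) (.y 450 (.lf .inf) (.a 315 (.z 495 
(.y 495 (.lf .inf) (.a 292 (.z 472 (.y 517 (.lf .inf) (.lf (.low 2))) (.y 517 (.lf .inf) 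
(.lf (.low 2)))) (.lf .inf))) (.y 495 (.lf .inf) (.a 292 (.z 517 (.y 517 (.lf .inf) 
(.lf (.low 2))) (.lf (.low 1))) (.lf .inf)))) (.lf .inf))))) (.a 270 (.z 450 (.y 630 
(.lf (.low 2)) (.lf (.low 2))) (.y 630 (.lf (.low 2)) (.lf (.low 2)))) (.z 450 (.y 630 
(.lf (.low 2)) (.lf (.low 2))) (.y 630 (.lf (.low 2)) (.lf (.low 2)))))) (.y 540 (.a 270 
(.lf (.two (.pot 1) (.lf 0 0 46 0))) (.z 630 (.lf (.low 1)) (.lf .inf))) (.a 270 (.z 630 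
(.lf (.low 1)) (.lf (.low 1))) (.z 630 (.lf (.low 1)) (.lf (.low 1)))))))

theorem h1 : chk (leafR PP TD7 224 1) c1 224 256 0 360 360 720 360 720 = true := by
  decide +kernel

theorem main : ∃ T : Tree, chk (leafR PP TD7 224 1) T 224 256 0 360 0 720 360 720 = true :=
  ⟨_, (chk_z h0 h1)⟩

end Pool.Agent.Helper58.LDD.R17
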