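import Pool.Agent.Helper58.LD.Comb
import Pool.Agent.Helper58.LDD.Tab

set_option autoImplicit false

namespace Pool.Agent.Helper58.LDD.T00

open Pool.Agent.Helper58.LD Pool.Agent.Helper58.LDD

set_option maxRecDepth 100000

def c0 : Tree :=
  (.a 562 (.y 922 (.a 461 (.y 821 (.a 410 (.y 770 
(.lf (.thr (.pot 1) (.lm 0 0 0 0 5 5 25) (.pot 1))) (.y 795 (.a 385 (.z 742 
(.lf (.thr (.pot 0) (.lm 0 14 0 14 5 5 24) (.pot 0))) (.lf .inf)) (.z 742 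
(.lf (.thr (.pot 0) (.lm 0 14 0 14 5 5 24) (.pot 0))) 
(.lf (.thr (.pot 1) (.lm 0 2 0 3 5 5 24) (.pot 0))))) (.a 385 (.lf .inf) (.z 742 (.y 808 
(.lf (.thr (.pot 0) (.lm 0 26 0 27 5 5 18) (.pot 0))) 
(.lf (.thr (.pot 0) (.lm 0 33 0 33 5 5 18) (.pot 0)))) 
(.lf (.thr (.pot 0) (.lm 0 15 0 15 5 5 25) (.pot 0))))))) (.y 770 (.a 435 
(.lf (.thr (.pot 1) (.lm 0 0 0 0 5 5 25) (.pot 1))) (.lf .inf)) (.a 435 (.y 795 (.z 742 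
(.lf (.thr (.pot 0) (.lm 0 14 0 14 5 5 24) (.pot 0))) 
(.lf (.thr (.pot 0) (.lm 0 2 0 3 5 5 24) (.pot 1)))) (.z 742 (.y 808 
(.lf (.thr (.pot 0) (.lm 0 26 0 27 5 5 18) (.pot 0))) 
(.lf (.thr (.pot 0) (.lm 0 33 0 33 5 5 18) (.pot 0)))) 
(.lf (.thr (.pot 0) (.lm 0 15 0 15 5 5 25) (.pot 0))))) (.y 795 (.z 742 
(.lf (.thr (.lf 8 123 0 131) (.lm 0 14 0 14 5 5 24) (.pot 0))) 
(.lf (.thr (.pot 0) (.lm 0 2 0 3 5 5 24) (.pot 1)))) (.z 742 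
(.lf (.thr (.lf 8 123 0 131) (.lm 0 26 0 27 5 5 24) (.pot 0))) 
(.lf (.thr (.pot 0) (.lm 0 15 0 15 5 5 25) (.pot 0)))))))) (.a 410 (.lf .inf) (.y 871 (.a 435 
(.y 846 (.z 742 (.a 422 (.y 833 (.lf (.thr (.pot 0) (.lm 0 40 0 39 5 5 17) (.pot 0))) 
(.lf (.thr (.pot 0) (.lm 0 46 0 45 5 5 18) (.lf 0 130 9 122)))) (.y 833 
(.lf (.thr (.pot 0) (.lm 0 40 0 39 5 5 17) (.pot 0))) 
(.lf (.thr (.lf 9 122 0 131) (.lm 0 46 0 45 5 5 18) (.lf 0 130 9 122))))) (.a 422 (.y 833 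
(.lf (.thr (.pot 0) (.lm 0 28 0 28 5 5 18) (.pot 0))) (.lf .inf)) (.y 833 
(.lf (.thr (.pot 0) (.lm 0 28 0 28 5 5 18) (.pot 0))) 
(.lf (.thr (.pot 0) (.lm 0 34 0 34 5 5 18) (.pot 0)))))) (.z 742 
(.lf (.thr (.lf 9 122 0 131) (.lm 0 53 1 51 5 5 24) (.lf 1 129 9 122))) 
(.lf (.thr (.pot 0) (.lm 0 41 1 40 5 5 24) (.lf 1 129 9 122))))) (.y 846 (.z 742 
(.lf (.thr (.lf 8 123 0 131) (.lm 0 40 0 39 5 5 24) (.pot 0))) (.a 448 (.y 833 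
(.lf (.thr (.pot 0) (.lm 0 28 0 28 5 5 18) (.pot 0))) 
(.lf (.thr (.pot 0) (.lm 0 34 0 34 5 5 18) (.pot 0)))) 
(.lf (.thr (.lf 8 123 0 131) (.lm 0 28 0 28 5 5 24) (.pot 0))))) (.z 742 
(.lf (.thr (.lf 8 123 0 131) (.lm 0 53 1 51 5 5 24) (.lf 1 129 8 123))) (.a 448 (.y 858 
(.lf (.thr (.lf 8 122 0 131) (.lm 0 41 1 40 5 5 18) (.lf 1 130 8 122))) 
(.lf (.thr (.pot 0) (.lm 0 47 1 46 5 5 18) (.lf 1 129 8 122)))) (.y 858 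
(.lf (.thr (.lf 8 123 0 131) (.lm 0 41 1 40 5 5 18) (.pot 0))) 
(.lf (.thr (.lf 8 123 0 131) (.lm 0 47 1 46 5 5 18) (.pot 0)))))))) 
(.lf (.thr (.lf 8 122 0 131) (.lm 0 54 3 52 5 7 48) (.lf 3 106 8 102)))))) (.y 821 (.a 511 
(.y 770 (.lf .inf) (.y 795 (.lf .inf) 
(.lf (.thr (.lf 6 102 0 107) (.lm 0 15 0 15 5 5 36) (.pot 0))))) (.lf .inf)) (.a 511 (.y 871 
(.a 486 (.y 846 (.lf (.thr (.lf 7 114 0 120) (.lm 0 28 0 28 5 5 35) (.pot 0))) 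
(.lf (.thr (.lf 7 114 0 120) (.lm 0 41 1 40 5 5 35) (.pot 0)))) 
(.lf (.thr (.lf 6 102 0 107) (.lm 0 29 1 27 5 5 48) (.pot 0)))) 
(.lf (.thr (.lf 6 102 0 107) (.lm 0 54 3 52 5 7 48) (.lf 3 127 6 124)))) (.y 871 
(.lf (.thr (.lf 4 77 0 81) (.lm 0 29 1 27 5 5 48) (.pot 0))) 
(.lf (.thr (.lf 4 77 0 81) (.lm 0 54 3 52 5 7 48) (.pot 0))))))) (.y 1023 (.a 461 (.a 410 
(.lf .inf) (.y 972 (.lf (.thr (.lf 8 122 0 131) (.lf 0 81 6 76) (.lf 6 80 8 78))) (.lf .inf))) 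
(.a 511 (.lf (.thr (.lf 6 102 0 107) (.lf 0 82 7 75) (.lf 7 79 6 79))) 
(.lf (.thr (.lf 4 77 0 81) (.lf 0 82 7 75) (.lf 7 102 4 106))))) (.a 461 (.lf .inf) (.y 1074 
(.a 511 (.lf .inf) (.lf (.thr (.lf 4 77 0 81) (.lf 0 131 10 121) (.lf 10 76 4 81)))) (.lf .inf))))) 
(.y 922 (.a 663 (.y 821 (.lf .inf) (.a 612 
(.lf (.thr (.lm 1 53 0 55 5 5 48) (.lm 0 29 2 27 5 8 73) (.pot 0))) (.lf .inf))) (.lf .inf)) 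
(.a 663 (.y 1023 (.a 612 (.lf (.thr (.lm 1 53 0 55 5 5 48) (.lf 0 82 7 75) (.lf 7 123 1 130))) 
(.y 972 (.lf (.thr (.lm 0 28 0 29 5 5 48) (.lf 0 81 6 76) (.pot 0))) (.a 637 
(.lf (.thr (.lm 0 41 0 42 5 5 35) (.lf 0 107 8 100) (.pot 0))) 
(.lf (.thr (.lm 0 28 0 29 5 5 36) (.lf 0 107 8 100) (.pot 0)))))) (.y 1074 (.a 612 
(.lf (.thr (.lm 1 53 0 55 5 5 48) (.lf 0 131 10 121) (.lf 10 100 1 108))) (.a 637 (.y 1048 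
(.z 742 (.a 624 (.lf (.thr (.lm 0 48 0 48 5 5 17) (.lf 0 131 9 121) (.lf 9 121 0 131))) 
(.lf (.thr (.lm 0 41 0 42 5 5 18) (.lf 0 131 9 121) (.lf 9 121 0 131)))) 
(.lf (.thr (.lm 0 52 0 53 5 5 24) (.lf 0 131 9 121) (.lf 9 121 0 131)))) (.z 742 
(.lf (.thr (.lm 0 41 0 42 5 5 24) (.pot 0) (.lf 10 121 0 131))) 
(.lf (.thr (.lm 0 52 0 53 5 5 24) (.lf 0 131 10 121) (.lf 10 121 0 131))))) (.y 1048 (.z 742 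
(.a 650 (.lf (.thr (.lm 0 35 0 35 5 5 18) (.pot 0) (.pot 0))) 
(.lf (.thr (.lm 0 28 0 29 5 5 18) (.pot 0) (.pot 0)))) 
(.lf (.thr (.lm 0 39 0 40 5 5 25) (.lf 0 131 9 121) (.pot 0)))) (.z 742 (.a 650 
(.lf (.thr (.lm 0 35 0 35 5 5 18) (.pot 0) (.pot 0))) 
(.lf (.thr (.lm 0 28 0 29 5 5 18) (.pot 0) (.pot 0)))) (.a 650 
(.lf (.thr (.lm 0 46 0 46 5 5 18) (.lf 0 131 10 121) (.lf 10 121 0 131))) (.y 1061 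
(.lf (.thr (.lm 0 39 0 40 5 5 18) (.lf 0 131 10 121) (.pot 0))) (.z 753 
(.lf (.thr (.lm 0 39 0 40 5 5 12) (.pot 0) (.pot 0))) 
(.lf (.thr (.lm 0 45 0 45 5 5 13) (.pot 0) (.pot 0)))))))))) (.a 612 (.lf .inf) (.a 637 
(.lf .inf) (.y 1099 (.z 742 (.lf .inf) 
(.lf (.thr (.lm 0 39 0 40 5 5 25) (.pot 0) (.lf 10 121 0 131)))) (.lf .inf)))))) (.y 1023 
(.a 714 (.y 972 (.lf .inf) (.a 688 
(.lf (.thr (.lm 0 16 0 16 5 5 35) (.lf 0 107 8 100) (.pot 0))) (.lf .inf))) (.lf .inf)) 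
(.a 714 (.y 1074 (.a 688 (.y 1048 (.z 742 (.lf (.thr (.lm 0 16 0 16 5 5 24) (.pot 0) (.pot 0))) 
(.lf (.thr (.lm 0 27 0 27 5 5 24) (.lf 0 131 9 121) (.pot 0)))) (.z 742 
(.lf (.thr (.lm 0 16 0 16 5 5 24) (.pot 0) (.pot 0))) (.y 1061 
(.lf (.thr (.lm 0 27 0 27 5 5 24) (.pot 0) (.pot 1))) (.a 675 
(.lf (.thr (.lm 0 33 0 34 5 5 18) (.pot 0) (.pot 0))) 
(.lf (.thr (.lm 0 27 0 27 5 5 18) (.pot 0) (.pot 0))))))) (.y 1048 (.z 742 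
(.lf (.thr (.lm 0 3 0 3 5 5 24) (.pot 0) (.pot 1))) 
(.lf (.thr (.lm 0 14 0 14 5 5 25) (.lf 0 131 9 121) (.pot 0)))) (.z 742 
(.lf (.thr (.lm 0 3 0 3 5 5 24) (.pot 0) (.pot 1))) 
(.lf (.thr (.lm 0 14 0 14 5 5 25) (.pot 0) (.pot 0)))))) (.a 688 (.y 1099 (.z 742 
(.lf (.thr (.lm 0 16 0 16 5 5 24) (.pot 0) (.pot 0))) (.a 675 
(.lf (.thr (.lm 0 33 0 34 5 5 18) (.pot 0) (.pot 0))) 
(.lf (.thr (.lm 0 27 0 27 5 5 18) (.pot 0) (.pot 0))))) (.lf .inf)) (.y 1099 (.z 742 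
(.lf (.thr (.lm 0 3 0 3 5 5 24) (.pot 1) (.pot 0))) 
(.lf (.thr (.lm 0 14 0 14 5 5 25) (.pot 0) (.pot 0)))) (.z 742 (.lf .inf) 
(.lf (.thr (.lm 0 14 0 14 5 5 25) (.pot 0) (.pot 0))))))) (.y 1074 (.a 739 (.y 1048 (.lf .inf) 
(.lf (.thr (.lm 0 0 0 0 5 5 26) (.pot 1) (.pot 1)))) (.lf .inf)) 
(.lf (.thr (.lm 0 0 0 0 5 5 26) (.pot 1) (.pot 1)))))))))

theorem h0 : chk (leafT PP TD0 0 2) c0 0 32 360 765 720 765 720 1125 = true := by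
  decide +kernel

def c1 : Tree :=
  (.a 607 (.y 967 (.a 506 (.y 866 (.a 455 (.y 815 
(.lf (.thr (.pot 1) (.lm 0 0 0 0 5 5 25) (.pot 1))) (.y 840 (.a 430 (.z 787 
(.lf (.thr (.pot 0) (.lm 0 14 0 14 5 5 24) (.pot 0))) (.lf .inf)) (.z 787 
(.lf (.thr (.pot 0) (.lm 0 14 0 14 5 5 24) (.pot 0))) 
(.lf (.thr (.pot 1) (.lm 0 3 0 2 5 5 24) (.pot 0))))) (.a 430 (.lf .inf) (.z 787 
(.lf (.thr (.pot 1) (.lm 0 27 1 26 5 5 24) (.pot 1))) 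
(.lf (.thr (.pot 0) (.lm 0 16 1 14 5 5 25) (.pot 0))))))) (.y 815 (.a 480 
(.lf (.thr (.pot 1) (.lm 0 0 0 0 5 5 25) (.pot 1))) (.lf .inf)) (.a 480 (.y 840 (.z 787 
(.lf (.thr (.pot 0) (.lm 0 14 0 14 5 5 24) (.pot 0))) 
(.lf (.thr (.pot 0) (.lm 0 3 0 2 5 5 24) (.pot 1)))) (.z 787 
(.lf (.thr (.pot 1) (.lm 0 27 1 26 5 5 24) (.pot 1))) 
(.lf (.thr (.pot 0) (.lm 0 16 1 14 5 5 25) (.pot 0))))) (.y 840 (.z 787 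
(.lf (.thr (.lf 6 125 0 131) (.lm 0 14 0 14 5 5 24) (.pot 0))) 
(.lf (.thr (.pot 0) (.lm 0 3 0 2 5 5 24) (.pot 1)))) (.z 787 
(.lf (.thr (.lf 6 125 0 131) (.lm 0 27 1 26 5 5 24) (.pot 0))) 
(.lf (.thr (.pot 0) (.lm 0 16 1 14 5 5 25) (.pot 0)))))))) (.a 455 (.lf .inf) (.y 916 (.a 480 
(.y 891 (.z 787 (.a 467 (.y 878 (.lf (.thr (.pot 0) (.lm 0 41 2 38 5 5 17) (.pot 0))) 
(.lf (.thr (.pot 0) (.lm 0 47 2 44 5 5 18) (.lf 2 128 7 123)))) (.y 878 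
(.lf (.thr (.pot 0) (.lm 0 41 2 38 5 5 17) (.pot 0))) 
(.lf (.thr (.lf 7 124 0 131) (.lm 0 47 2 44 5 5 18) (.lf 2 128 7 124))))) (.a 467 
(.lf (.thr (.pot 1) (.lm 0 29 2 27 5 5 24) (.lf 2 128 7 123))) (.y 878 
(.lf (.thr (.pot 0) (.lm 0 29 2 27 5 5 18) (.pot 0))) 
(.lf (.thr (.pot 0) (.lm 0 35 2 33 5 5 18) (.pot 0)))))) (.z 787 
(.lf (.thr (.lf 7 123 0 131) (.lm 0 54 4 50 5 6 24) (.lf 4 127 7 123))) 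
(.lf (.thr (.pot 0) (.lm 0 42 4 39 5 6 24) (.lf 4 127 7 123))))) (.y 891 (.z 787 
(.lf (.thr (.lf 6 125 0 131) (.lm 0 41 2 38 5 5 24) (.pot 0))) (.a 493 (.y 878 
(.lf (.thr (.pot 0) (.lm 0 29 2 27 5 5 18) (.pot 0))) 
(.lf (.thr (.pot 0) (.lm 0 35 2 33 5 5 18) (.pot 0)))) 
(.lf (.thr (.lf 6 125 0 131) (.lm 0 29 2 27 5 5 24) (.pot 0))))) 
(.lf (.thr (.lf 6 125 0 131) (.lm 0 42 4 39 5 6 35) (.lf 4 127 6 125))))) (.a 480 (.lf .inf) 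
(.lf (.thr (.lf 6 125 0 131) (.lm 0 55 6 51 5 11 48) (.lf 6 117 6 116))))))) (.y 866 (.a 556 
(.y 815 (.lf .inf) (.y 840 (.lf .inf) 
(.lf (.thr (.lf 4 103 0 106) (.lm 0 16 1 14 5 5 36) (.pot 0))))) (.lf .inf)) (.a 556 (.y 916 
(.a 531 (.y 891 (.lf (.thr (.lf 4 115 0 119) (.lm 0 29 2 27 5 5 35) (.pot 0))) 
(.lf (.thr (.lf 4 115 0 119) (.lm 0 42 4 39 5 6 35) (.pot 0)))) 
(.lf (.thr (.lf 3 103 0 106) (.lm 0 30 3 26 5 6 48) (.pot 0)))) 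
(.lf (.thr (.lf 4 103 0 106) (.lm 0 55 6 51 5 11 48) (.lf 6 125 4 127)))) (.y 916 
(.lf (.thr (.lf 1 78 0 80) (.lm 0 30 3 26 5 6 48) (.pot 0))) 
(.lf (.thr (.lf 1 78 0 80) (.lm 0 55 6 51 5 11 48) (.pot 0))))))) (.y 1068 (.a 506 (.a 455 
(.lf .inf) (.y 1017 (.a 480 (.lf .inf) 
(.lf (.thr (.lf 6 125 0 131) (.lf 0 82 8 75) (.lf 8 91 6 92)))) (.lf .inf))) (.a 556 
(.lf (.thr (.lf 4 103 0 106) (.lf 0 82 9 75) (.lf 9 77 4 81))) 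
(.lf (.thr (.lf 1 78 0 80) (.lf 0 82 9 75) (.lf 9 101 1 107))))) (.a 506 (.lf .inf) (.y 1119 
(.a 556 (.lf .inf) (.lf (.thr (.lf 1 78 0 80) (.lf 0 131 10 121) (.lf 10 75 1 82)))) (.lf .inf))))) 
(.y 967 (.a 708 (.y 866 (.lf .inf) (.a 657 
(.lf (.thr (.lm 0 54 0 54 5 5 48) (.lm 0 31 4 25 5 12 73) (.pot 0))) (.lf .inf))) (.lf .inf)) 
(.a 708 (.y 1068 (.a 657 (.lf (.thr (.lm 0 54 0 54 5 5 48) (.lf 0 82 9 75) (.lf 9 122 0 131))) 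
(.y 1017 (.lf (.thr (.lm 0 28 0 29 5 5 48) (.lf 0 82 8 75) (.pot 0))) (.a 682 
(.lf (.thr (.lm 0 41 0 42 5 5 35) (.lf 0 108 9 99) (.pot 0))) 
(.lf (.thr (.lm 0 28 0 29 5 5 36) (.lf 0 108 9 99) (.pot 0)))))) (.y 1119 (.a 657 
(.lf (.thr (.lm 0 54 0 54 5 5 48) (.lf 0 131 10 121) (.lf 10 100 0 108))) (.a 682 (.y 1093 
(.z 787 (.a 669 (.lf (.thr (.lm 0 48 0 48 5 5 17) (.lf 0 131 10 121) (.lf 10 121 0 131))) 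
(.y 1080 (.lf (.thr (.lm 0 41 0 42 5 5 18) (.lf 0 131 10 121) (.pot 0))) (.z 776 
(.lf (.thr (.lm 0 41 0 42 5 5 12) (.pot 0) (.pot 0))) 
(.lf (.thr (.lm 0 47 0 47 5 5 12) (.pot 0) (.pot 0)))))) 
(.lf (.thr (.lm 0 52 0 53 5 5 24) (.lf 0 131 10 121) (.lf 10 121 0 131)))) (.z 787 
(.lf (.thr (.lm 0 41 0 42 5 5 24) (.pot 0) (.lf 10 121 0 131))) 
(.lf (.thr (.lm 0 52 0 53 5 5 24) (.lf 0 131 10 121) (.lf 10 121 0 131))))) (.y 1093 (.z 787 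
(.a 695 (.lf (.thr (.lm 0 35 0 35 5 5 18) (.pot 0) (.pot 0))) 
(.lf (.thr (.lm 0 28 0 29 5 5 18) (.pot 0) (.pot 0)))) 
(.lf (.thr (.lm 0 39 0 40 5 5 25) (.lf 0 131 10 121) (.pot 0)))) (.z 787 (.a 695 
(.lf (.thr (.lm 0 35 0 35 5 5 18) (.pot 0) (.pot 0))) 
(.lf (.thr (.lm 0 28 0 29 5 5 18) (.pot 0) (.pot 0)))) (.a 695 
(.lf (.thr (.lm 0 46 0 46 5 5 18) (.lf 0 131 10 121) (.lf 10 121 0 131))) (.y 1106 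
(.lf (.thr (.lm 0 39 0 40 5 5 18) (.lf 0 131 10 121) (.pot 0))) (.z 798 
(.lf (.thr (.lm 0 39 0 40 5 5 12) (.pot 0) (.pot 0))) 
(.lf (.thr (.lm 0 45 0 45 5 5 13) (.pot 0) (.pot 0)))))))))) (.a 657 (.lf .inf) (.a 682 
(.lf .inf) (.y 1144 (.z 787 (.lf .inf) 
(.lf (.thr (.lm 0 39 0 40 5 5 25) (.pot 0) (.lf 9 121 0 131)))) (.lf .inf)))))) (.y 1068 
(.a 759 (.y 1017 (.lf .inf) (.a 733 
(.lf (.thr (.lm 0 16 0 16 5 5 35) (.lf 0 108 9 99) (.pot 0))) (.lf .inf))) (.lf .inf)) (.a 759 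
(.y 1119 (.a 733 (.y 1093 (.z 787 (.lf (.thr (.lm 0 16 0 16 5 5 24) (.pot 0) (.pot 0))) 
(.lf (.thr (.lm 0 27 0 27 5 5 24) (.lf 0 131 10 121) (.pot 0)))) (.z 787 
(.lf (.thr (.lm 0 16 0 16 5 5 24) (.pot 0) (.pot 0))) (.y 1106 
(.lf (.thr (.lm 0 27 0 27 5 5 24) (.pot 0) (.pot 1))) (.a 720 
(.lf (.thr (.lm 0 33 0 34 5 5 18) (.pot 0) (.pot 0))) 
(.lf (.thr (.lm 0 27 0 27 5 5 18) (.pot 0) (.pot 0))))))) (.y 1093 (.z 787 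
(.lf (.thr (.lm 0 3 0 3 5 5 24) (.pot 0) (.pot 1))) 
(.lf (.thr (.lm 0 14 0 14 5 5 25) (.lf 0 131 10 121) (.pot 0)))) (.z 787 
(.lf (.thr (.lm 0 3 0 3 5 5 24) (.pot 0) (.pot 1))) 
(.lf (.thr (.lm 0 14 0 14 5 5 25) (.pot 0) (.pot 0)))))) (.a 733 (.y 1144 (.z 787 
(.lf (.thr (.lm 0 16 0 16 5 5 24) (.pot 0) (.pot 0))) (.a 720 
(.lf (.thr (.lm 0 33 0 34 5 5 18) (.pot 0) (.pot 0))) 
(.lf (.thr (.lm 0 27 0 27 5 5 18) (.pot 0) (.pot 0))))) (.lf .inf)) (.y 1144 (.z 787 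
(.lf (.thr (.lm 0 3 0 3 5 5 24) (.pot 1) (.pot 0))) 
(.lf (.thr (.lm 0 14 0 14 5 5 25) (.pot 0) (.pot 0)))) (.z 787 (.lf .inf) 
(.lf (.thr (.lm 0 14 0 14 5 5 25) (.pot 0) (.pot 0))))))) (.y 1119 (.a 784 (.y 1093 (.lf .inf) 
(.lf (.thr (.lm 0 0 0 0 5 5 26) (.pot 1) (.pot 1)))) (.lf .inf)) 
(.lf (.thr (.lm 0 0 0 0 5 5 26) (.pot 1) (.pot 1)))))))))

theorem h1 : chk (leafT PP TD0 0 2) c1 0 32 405 810 765 810 765 1170 = true := by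
  decide +kernel

def c2 : Tree :=
  (.a 652 (.y 1012 (.a 551 (.y 911 (.a 500 (.y 860 
(.lf (.thr (.pot 1) (.lm 0 0 0 0 5 5 25) (.pot 1))) (.y 885 (.a 475 (.z 832 
(.lf (.thr (.pot 0) (.lm 0 16 2 12 5 5 24) (.pot 0))) (.lf .inf)) (.z 832 
(.lf (.thr (.pot 0) (.lm 0 16 2 12 5 5 24) (.pot 0))) 
(.lf (.thr (.pot 1) (.lm 0 5 2 0 5 5 24) (.pot 0))))) (.a 475 (.lf .inf) (.z 832 
(.lf (.thr (.pot 1) (.lm 0 29 3 24 5 5 24) (.pot 1))) 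
(.lf (.thr (.pot 0) (.lm 0 18 3 12 5 5 25) (.pot 0))))))) (.y 860 (.a 525 
(.lf (.thr (.pot 1) (.lm 0 0 0 0 5 5 25) (.pot 1))) (.lf .inf)) (.a 525 (.y 885 (.z 832 
(.lf (.thr (.pot 0) (.lm 0 16 2 12 5 5 24) (.pot 0))) 
(.lf (.thr (.pot 0) (.lm 0 5 2 0 5 5 24) (.pot 1)))) (.z 832 
(.lf (.thr (.pot 1) (.lm 0 29 3 24 5 5 24) (.pot 1))) 
(.lf (.thr (.pot 0) (.lm 0 18 3 12 5 5 25) (.pot 0))))) (.y 885 (.z 832 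
(.lf (.thr (.lf 3 127 0 131) (.lm 0 16 2 12 5 5 24) (.pot 0))) 
(.lf (.thr (.pot 0) (.lm 0 5 2 0 5 5 24) (.pot 1)))) (.z 832 
(.lf (.thr (.lf 3 127 0 131) (.lm 0 29 3 24 5 5 24) (.pot 0))) 
(.lf (.thr (.pot 0) (.lm 0 18 3 12 5 5 25) (.pot 0)))))))) (.a 500 (.lf .inf) (.y 961 (.a 525 
(.y 936 (.z 832 (.a 512 (.lf (.thr (.lf 5 125 0 131) (.lm 0 42 5 37 5 8 24) (.lf 5 126 5 125))) 
(.lf (.thr (.lf 4 126 0 131) (.lm 0 42 5 37 5 8 24) (.lf 5 126 4 126)))) (.a 512 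
(.lf (.thr (.pot 1) (.lm 0 30 5 26 5 8 24) (.lf 5 126 5 125))) (.y 923 
(.lf (.thr (.pot 0) (.lm 0 30 4 26 5 6 18) (.pot 0))) 
(.lf (.thr (.pot 0) (.lm 0 36 5 32 5 8 18) (.pot 0)))))) (.z 832 
(.lf (.thr (.lf 5 126 0 131) (.lm 0 55 6 49 5 11 24) (.lf 6 125 5 126))) 
(.lf (.thr (.pot 0) (.lm 0 43 6 38 5 11 24) (.lf 6 125 5 126))))) (.y 936 (.z 832 
(.lf (.thr (.lf 3 127 0 131) (.lm 0 42 5 37 5 8 24) (.pot 0))) (.a 538 (.y 923 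
(.lf (.thr (.pot 0) (.lm 0 30 4 26 5 6 18) (.pot 0))) 
(.lf (.thr (.pot 0) (.lm 0 36 5 32 5 8 18) (.pot 0)))) 
(.lf (.thr (.lf 3 127 0 130) (.lm 0 30 5 26 5 8 24) (.pot 0))))) 
(.lf (.thr (.lf 3 127 0 130) (.lm 0 43 6 38 5 11 35) (.lf 6 125 3 127))))) (.a 525 (.lf .inf) 
(.y 986 (.lf (.thr (.lf 3 127 0 130) (.lm 0 56 7 50 5 13 35) (.lf 7 123 3 127))) 
(.lf (.thr (.lf 3 127 0 130) (.lm 0 69 8 62 5 15 36) (.lf 8 114 3 119)))))))) (.y 911 (.a 601 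
(.y 860 (.lf .inf) (.y 885 (.lf .inf) 
(.lf (.thr (.lf 1 104 0 105) (.lm 0 18 3 12 5 5 36) (.pot 0))))) (.lf .inf)) (.a 601 (.y 961 
(.a 576 (.y 936 (.lf (.thr (.lf 2 116 0 118) (.lm 0 31 5 25 5 8 35) (.pot 0))) 
(.lf (.thr (.lf 2 116 0 118) (.lm 0 43 6 38 5 11 35) (.pot 0)))) 
(.lf (.thr (.lf 1 104 0 105) (.lm 0 31 5 25 5 11 48) (.pot 0)))) 
(.lf (.thr (.lf 1 104 0 105) (.lm 0 56 8 50 5 15 48) (.lf 8 123 1 129)))) (.y 961 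
(.lf (.thr (.lf 0 79 0 79) (.lm 0 31 5 25 5 11 48) (.pot 0))) 
(.lf (.thr (.lf 0 79 0 79) (.lm 0 56 8 50 5 15 48) (.pot 0))))))) (.y 1113 (.a 551 (.a 500 
(.lf .inf) (.y 1062 (.a 525 (.lf .inf) 
(.lf (.thr (.lf 3 127 0 130) (.lf 0 82 9 75) (.lf 9 89 3 94)))) (.lf .inf))) (.a 601 
(.lf (.thr (.lf 1 104 0 105) (.lf 0 83 10 74) (.lf 10 76 1 82))) 
(.lf (.thr (.lf 0 79 0 79) (.lf 0 83 10 74) (.lf 10 100 0 108))))) (.a 551 (.lf .inf) (.y 1164 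
(.a 601 (.lf .inf) (.lf (.thr (.lf 0 79 0 79) (.lf 0 130 9 122) (.lf 9 75 0 82)))) (.lf .inf))))) 
(.y 1012 (.a 753 (.y 911 (.lf .inf) (.a 702 
(.lf (.thr (.lm 0 54 0 54 5 5 48) (.lm 0 32 7 24 5 16 73) (.pot 0))) (.lf .inf))) (.lf .inf)) 
(.a 753 (.y 1113 (.a 702 
(.lf (.thr (.lm 0 54 0 54 5 5 48) (.lf 0 83 10 74) (.lf 10 121 0 131))) (.y 1062 
(.lf (.thr (.lm 0 29 0 28 5 5 48) (.lf 0 82 9 75) (.pot 0))) (.a 727 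
(.lf (.thr (.lm 0 42 0 41 5 5 35) (.lf 0 108 10 99) (.pot 0))) 
(.lf (.thr (.lm 0 29 0 28 5 5 36) (.lf 0 108 10 99) (.pot 0)))))) (.y 1164 (.a 702 
(.lf (.thr (.lm 0 54 0 54 5 5 48) (.lf 0 130 9 122) (.lf 9 100 0 108))) (.a 727 (.y 1138 
(.z 832 (.a 714 (.lf (.thr (.lm 0 48 0 48 5 5 17) (.lf 0 131 9 121) (.lf 9 121 0 131))) 
(.lf (.thr (.lm 0 41 0 42 5 5 18) (.lf 0 131 9 121) (.lf 9 121 0 131)))) 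
(.lf (.thr (.lm 0 53 0 52 5 5 24) (.lf 0 130 9 121) (.lf 9 121 0 131)))) (.z 832 
(.lf (.thr (.lm 0 41 0 42 5 5 24) (.pot 0) (.lf 9 122 0 131))) 
(.lf (.thr (.lm 0 53 0 52 5 5 24) (.lf 0 130 9 122) (.lf 9 122 0 131))))) (.y 1138 (.z 832 
(.a 740 (.lf (.thr (.lm 0 35 0 35 5 5 18) (.pot 0) (.pot 0))) 
(.lf (.thr (.lm 0 28 0 29 5 5 18) (.pot 0) (.pot 0)))) 
(.lf (.thr (.lm 0 40 0 39 5 5 25) (.lf 0 130 9 121) (.pot 0)))) (.z 832 (.a 740 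
(.lf (.thr (.lm 0 35 0 35 5 5 18) (.pot 0) (.pot 0))) 
(.lf (.thr (.lm 0 28 0 29 5 5 18) (.pot 0) (.pot 0)))) (.a 740 
(.lf (.thr (.lm 0 46 0 46 5 5 18) (.lf 0 130 9 122) (.lf 9 122 0 131))) (.y 1151 
(.lf (.thr (.lm 0 40 0 39 5 5 18) (.lf 0 130 9 122) (.pot 0))) (.z 843 
(.lf (.thr (.lm 0 40 0 39 5 5 12) (.pot 0) (.pot 0))) 
(.lf (.thr (.lm 0 45 1 45 5 5 13) (.pot 0) (.pot 0)))))))))) (.a 702 (.lf .inf) (.a 727 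
(.lf .inf) (.y 1189 (.z 832 (.lf .inf) 
(.lf (.thr (.lm 0 40 0 39 5 5 25) (.pot 0) (.lf 8 123 0 131)))) (.lf .inf)))))) (.y 1113 
(.a 804 (.y 1062 (.lf .inf) (.a 778 
(.lf (.thr (.lm 0 16 0 16 5 5 35) (.lf 0 108 10 99) (.pot 0))) (.lf .inf))) (.lf .inf)) 
(.a 804 (.y 1164 (.a 778 (.y 1138 (.z 832 (.lf (.thr (.lm 0 16 0 16 5 5 24) (.pot 0) (.pot 0))) 
(.lf (.thr (.lm 0 27 0 27 5 5 24) (.lf 0 130 9 121) (.pot 0)))) (.z 832 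
(.lf (.thr (.lm 0 16 0 16 5 5 24) (.pot 0) (.pot 0))) (.y 1151 
(.lf (.thr (.lm 0 27 0 27 5 5 24) (.pot 0) (.pot 1))) (.a 765 
(.lf (.thr (.lm 0 34 0 33 5 5 18) (.pot 0) (.pot 0))) 
(.lf (.thr (.lm 0 27 0 27 5 5 18) (.pot 0) (.pot 0))))))) (.y 1138 (.z 832 
(.lf (.thr (.lm 0 3 0 3 5 5 24) (.pot 0) (.pot 1))) 
(.lf (.thr (.lm 0 15 0 13 5 5 25) (.lf 0 130 9 121) (.pot 0)))) (.z 832 
(.lf (.thr (.lm 0 3 0 3 5 5 24) (.pot 0) (.pot 1))) 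
(.lf (.thr (.lm 0 15 0 13 5 5 25) (.pot 0) (.pot 0)))))) (.a 778 (.y 1189 (.z 832 
(.lf (.thr (.lm 0 16 0 16 5 5 24) (.pot 0) (.pot 0))) (.a 765 
(.lf (.thr (.lm 0 34 0 33 5 5 18) (.pot 0) (.pot 0))) 
(.lf (.thr (.lm 0 27 0 27 5 5 18) (.pot 0) (.pot 0))))) (.lf .inf)) (.y 1189 (.z 832 
(.lf (.thr (.lm 0 3 0 3 5 5 24) (.pot 1) (.pot 0))) 
(.lf (.thr (.lm 0 15 0 13 5 5 25) (.pot 0) (.pot 0)))) (.z 832 (.lf .inf) 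
(.lf (.thr (.lm 0 15 0 13 5 5 25) (.pot 0) (.pot 0))))))) (.y 1164 (.a 829 (.y 1138 (.lf .inf) 
(.lf (.thr (.lm 0 0 0 0 5 5 26) (.pot 1) (.pot 1)))) (.lf .inf)) 
(.lf (.thr (.lm 0 0 0 0 5 5 26) (.pot 1) (.pot 1)))))))))

theorem h2 : chk (leafT PP TD0 0 2) c2 0 32 450 855 810 855 810 1215 = true := by
  decide +kernel

def c3 : Tree :=
  (.a 697 (.y 1057 (.a 596 (.y 956 (.a 545 (.y 905 
(.lf (.thr (.pot 1) (.lm 2 0 2 0 5 5 25) (.pot 1))) (.y 930 (.a 520 (.z 877 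
(.lf (.thr (.pot 0) (.lm 2 17 4 11 5 7 24) (.pot 0))) (.lf .inf)) (.z 877 
(.lf (.thr (.pot 0) (.lm 2 17 4 11 5 7 24) (.pot 0))) 
(.lf (.thr (.pot 1) (.lm 3 5 4 0 5 7 24) (.pot 0))))) (.a 520 (.lf .inf) (.z 877 (.y 943 
(.lf (.thr (.pot 0) (.lm 2 29 5 24 5 9 18) (.pot 0))) 
(.lf (.thr (.pot 0) (.lm 2 35 6 31 5 10 18) (.pot 0)))) 
(.lf (.thr (.pot 1) (.lm 3 18 6 12 5 10 25) (.pot 0))))))) (.y 905 (.a 570 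
(.lf (.thr (.pot 1) (.lm 2 0 2 0 5 5 25) (.pot 1))) (.lf .inf)) (.a 570 (.y 930 (.z 877 
(.lf (.thr (.pot 0) (.lm 2 17 4 11 5 7 24) (.pot 0))) 
(.lf (.thr (.pot 0) (.lm 3 5 4 0 5 7 24) (.pot 1)))) (.z 877 (.y 943 
(.lf (.thr (.pot 0) (.lm 2 29 5 24 5 9 18) (.pot 0))) 
(.lf (.thr (.pot 0) (.lm 2 35 6 31 5 10 18) (.pot 0)))) 
(.lf (.thr (.pot 1) (.lm 3 18 6 12 5 10 25) (.pot 1))))) (.y 930 (.z 877 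
(.lf (.thr (.lf 1 129 2 129) (.lm 2 17 4 11 5 7 24) (.pot 0))) 
(.lf (.thr (.pot 0) (.lm 3 5 4 0 5 7 24) (.pot 1)))) (.z 877 
(.lf (.thr (.lf 1 129 2 129) (.lm 2 29 6 24 5 10 24) (.pot 0))) 
(.lf (.thr (.pot 0) (.lm 3 18 6 12 5 10 25) (.pot 1)))))))) (.a 545 (.lf .inf) (.y 1006 
(.a 570 (.y 981 (.z 877 (.a 557 (.y 968 (.lf (.thr (.pot 0) (.lm 2 42 7 37 5 11 17) (.pot 0))) 
(.lf (.thr (.lf 3 128 2 129) (.lm 2 48 7 43 5 12 18) (.lf 7 123 3 128)))) 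
(.lf (.thr (.lf 2 128 2 129) (.lm 2 42 7 37 5 12 24) (.lf 7 124 2 128)))) (.a 557 (.y 968 
(.lf (.thr (.pot 0) (.lm 3 30 7 26 5 11 18) (.pot 0))) (.lf .inf)) (.y 968 
(.lf (.thr (.pot 0) (.lm 3 30 7 26 5 11 18) (.pot 0))) (.z 888 
(.lf (.thr (.pot 0) (.lm 2 42 7 38 5 12 12) (.pot 0))) 
(.lf (.thr (.pot 0) (.lm 3 36 7 32 5 12 13) (.pot 0))))))) (.z 877 
(.lf (.thr (.lf 2 128 2 129) (.lm 2 55 8 49 5 14 24) (.lf 8 123 2 128))) (.a 557 (.lf .inf) 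
(.y 993 (.z 888 (.lf (.thr (.lf 2 128 2 128) (.lm 2 49 8 44 5 13 12) (.lf 8 123 2 128))) 
(.lf .inf)) (.lf .inf))))) (.y 981 (.z 877 
(.lf (.thr (.lf 1 129 2 129) (.lm 2 42 7 37 5 12 24) (.pot 0))) (.a 583 (.y 968 
(.lf (.thr (.pot 0) (.lm 3 30 7 26 5 11 18) (.pot 0))) (.z 888 
(.lf (.thr (.pot 0) (.lm 2 42 7 38 5 12 12) (.pot 0))) 
(.lf (.thr (.pot 0) (.lm 3 36 7 32 5 12 13) (.pot 0))))) 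
(.lf (.thr (.lf 1 130 3 128) (.lm 3 31 7 25 5 12 24) (.pot 0))))) (.z 877 
(.lf (.thr (.lf 1 129 2 129) (.lm 2 55 8 49 5 14 24) (.lf 8 123 1 129))) (.a 583 (.y 993 
(.z 888 (.lf (.thr (.lf 1 129 2 128) (.lm 2 49 8 44 5 13 12) (.pot 0))) (.t 16 
(.lf (.thr (.pot 0) (.lm 3 42 6 39 5 9 12) (.pot 0))) (.a 576 (.z 894 
(.lf (.thr (.lf 0 130 2 128) (.lm 2 47 10 40 4 13 9) (.lf 10 121 0 130))) (.lf .inf)) 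
(.lf (.thr (.lf 0 130 3 128) (.lm 3 44 10 37 4 13 12) (.pot 0)))))) (.z 888 
(.lf (.thr (.lf 1 129 2 128) (.lm 2 55 8 50 5 14 12) (.lf 8 122 1 129))) 
(.lf (.thr (.lf 1 129 3 127) (.lm 3 49 8 44 5 14 13) (.lf 8 122 1 129))))) 
(.lf (.thr (.lf 1 130 3 128) (.lm 3 43 8 38 5 14 24) (.lf 8 123 1 130))))))) (.a 570 (.lf .inf) 
(.y 1031 (.z 877 (.lf (.thr (.lf 1 129 2 129) (.lm 2 68 9 61 5 16 24) (.lf 9 122 1 129))) 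
(.a 583 (.lf (.thr (.lf 1 129 3 128) (.lm 3 56 9 50 5 16 24) (.lf 9 122 1 129))) 
(.lf (.thr (.lf 1 130 3 128) (.lm 3 56 9 50 5 16 24) (.lf 9 122 1 130))))) (.z 877 
(.lf (.thr (.lf 1 129 2 129) (.lm 2 80 9 74 5 17 24) (.lf 9 113 1 120))) 
(.lf (.thr (.lf 1 129 3 128) (.lm 3 68 9 63 5 17 25) (.lf 9 113 1 120))))))))) (.y 956 (.a 646 
(.y 905 (.lf .inf) (.y 930 (.lf .inf) 
(.lf (.thr (.lf 0 106 2 103) (.lm 2 19 6 11 5 10 36) (.pot 0))))) (.lf .inf)) (.a 646 (.y 1006 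
(.a 621 (.y 981 (.lf (.thr (.lf 0 118 2 116) (.lm 2 31 7 25 5 12 35) (.pot 0))) 
(.lf (.thr (.lf 0 118 2 116) (.lm 2 43 8 38 5 14 35) (.pot 0)))) 
(.lf (.thr (.lf 0 106 2 103) (.lm 2 31 7 25 5 15 48) (.pot 0)))) 
(.lf (.thr (.lf 0 106 2 103) (.lm 2 56 9 50 5 17 48) (.lf 9 121 0 131)))) (.y 1006 
(.lf (.thr (.lf 0 80 2 78) (.lm 2 31 7 25 5 15 48) (.pot 0))) 
(.lf (.thr (.lf 0 80 2 78) (.lm 2 56 9 50 5 17 48) (.pot 0))))))) (.y 1158 (.a 596 (.a 545 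
(.lf .inf) (.y 1107 (.a 570 (.lf .inf) 
(.lf (.thr (.lf 1 129 2 128) (.lf 2 82 10 75) (.lf 10 88 1 95)))) (.lf .inf))) (.a 646 
(.lf (.thr (.lf 0 106 2 103) (.lf 2 82 10 75) (.lf 10 75 0 83))) 
(.lf (.thr (.lf 0 80 2 78) (.lf 2 82 10 75) (.lf 10 100 0 108))))) (.a 596 (.lf .inf) (.y 1209 
(.lf (.thr (.lf 0 80 2 78) (.lf 2 128 7 123) (.lf 7 50 0 57))) (.lf .inf))))) (.y 1057 (.a 798 
(.y 956 (.lf .inf) (.a 747 (.lf (.thr (.lm 0 55 2 53 5 5 48) (.lm 2 32 8 24 5 18 73) (.pot 0))) 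
(.lf .inf))) (.lf .inf)) (.a 798 (.y 1158 (.a 747 
(.lf (.thr (.lm 0 55 2 53 5 5 48) (.lf 2 82 10 75) (.lf 10 121 0 131))) (.y 1107 
(.lf (.thr (.lm 0 30 2 27 5 5 48) (.lf 2 82 10 75) (.pot 0))) (.a 772 
(.lf (.thr (.lm 0 43 2 40 5 5 35) (.lf 2 107 9 100) (.pot 0))) 
(.lf (.thr (.lm 0 30 2 27 5 5 36) (.lf 2 107 9 100) (.pot 0)))))) (.y 1209 (.a 747 
(.lf (.thr (.lm 0 55 2 53 5 5 48) (.lf 2 128 7 123) (.lf 7 101 0 107))) (.a 772 (.y 1183 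
(.lf (.thr (.lm 0 43 2 40 5 5 35) (.lf 2 128 8 123) (.lf 8 123 0 131))) 
(.lf (.thr (.lm 0 43 2 40 5 5 35) (.lf 2 128 7 124) (.lf 7 124 0 131)))) (.y 1183 (.z 877 
(.a 785 (.lf (.thr (.lm 0 36 2 34 5 5 18) (.pot 0) (.pot 0))) 
(.lf (.thr (.lm 0 30 2 27 5 5 18) (.pot 0) (.pot 0)))) 
(.lf (.thr (.lm 0 41 3 38 5 5 25) (.lf 3 128 8 123) (.pot 0)))) (.z 877 (.a 785 
(.lf (.thr (.lm 0 36 2 34 5 5 18) (.pot 0) (.pot 0))) 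
(.lf (.thr (.lm 0 30 2 27 5 5 18) (.pot 0) (.pot 0)))) (.a 785 
(.lf (.thr (.lm 0 47 3 45 5 5 18) (.lf 3 128 7 124) (.lf 7 124 0 131))) 
(.lf (.thr (.lm 0 41 3 38 5 5 18) (.pot 0) (.pot 0)))))))) (.a 747 (.lf .inf) (.a 772 
(.lf .inf) (.y 1234 (.z 877 (.lf .inf) 
(.lf (.thr (.lm 0 41 3 38 5 5 25) (.pot 0) (.lf 5 125 0 131)))) (.lf .inf)))))) (.y 1158 
(.a 849 (.y 1107 (.lf .inf) (.a 823 
(.lf (.thr (.lm 0 18 2 14 5 5 35) (.lf 2 107 9 100) (.pot 0))) (.lf .inf))) (.lf .inf)) 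
(.a 849 (.y 1209 (.a 823 (.y 1183 (.z 877 (.lf (.thr (.lm 0 18 2 14 5 5 24) (.pot 0) (.pot 0))) 
(.lf (.thr (.lm 0 29 3 25 5 5 24) (.lf 3 128 8 123) (.pot 0)))) (.z 877 
(.lf (.thr (.lm 0 18 2 14 5 5 24) (.pot 0) (.pot 0))) (.y 1196 
(.lf (.thr (.lm 0 29 3 25 5 5 24) (.lf 3 128 7 124) (.pot 0))) (.a 810 
(.lf (.thr (.lm 0 35 3 32 5 5 18) (.pot 0) (.pot 0))) 
(.lf (.thr (.lm 0 29 3 25 5 5 18) (.pot 0) (.pot 0))))))) (.y 1183 (.z 877 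
(.lf (.thr (.lm 0 6 2 0 5 5 24) (.pot 0) (.pot 1))) 
(.lf (.thr (.lm 0 17 3 11 5 5 25) (.lf 3 128 8 123) (.pot 0)))) (.z 877 
(.lf (.thr (.lm 0 6 2 0 5 5 24) (.pot 0) (.pot 1))) 
(.lf (.thr (.lm 0 17 3 11 5 5 25) (.pot 0) (.pot 0)))))) (.a 823 (.y 1234 (.z 877 
(.lf (.thr (.lm 0 18 2 14 5 5 24) (.pot 0) (.pot 0))) (.a 810 
(.lf (.thr (.lm 0 35 3 32 5 5 18) (.pot 0) (.pot 0))) 
(.lf (.thr (.lm 0 29 3 25 5 5 18) (.pot 0) (.pot 0))))) (.lf .inf)) (.y 1234 (.z 877 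
(.lf (.thr (.lm 0 6 2 0 5 5 24) (.pot 1) (.pot 0))) 
(.lf (.thr (.lm 0 17 3 11 5 5 25) (.pot 0) (.pot 0)))) (.z 877 (.lf .inf) 
(.lf (.thr (.lm 0 17 3 11 5 5 25) (.pot 0) (.pot 0))))))) (.y 1209 (.a 874 (.y 1183 (.lf .inf) 
(.lf (.thr (.lm 1 0 2 0 5 5 26) (.pot 1) (.pot 1)))) (.lf .inf)) 
(.lf (.thr (.lm 2 0 2 0 5 5 26) (.pot 1) (.pot 1)))))))))

theorem h3 : chk (leafT PP TD0 0 2) c3 0 32 495 900 855 900 855 1260 = true := by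
  decide +kernel

theorem q0 : ∃ T : Tree, chk (leafT PP TD0 0 2) T 0 32 360 765 720 765 720 1125 = true :=
  ⟨_, h0⟩

theorem q1 : ∃ T : Tree, chk (leafT PP TD0 0 2) T 0 32 405 810 765 810 765 1170 = true :=
  ⟨_, h1⟩

theorem q2 : ∃ T : Tree, chk (leafT PP TD0 0 2) T 0 32 450 855 810 855 810 1215 = true :=
  ⟨_, h2⟩

theorem q3 : ∃ T : Tree, chk (leafT PP TD0 0 2) T 0 32 495 900 855 900 855 1260 = true :=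
  ⟨_, h3⟩

end Pool.Agent.Helper58.LDD.T00
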