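import Pool.Agent.Helper58.LD.Comb
import Pool.Agent.Helper58.LDD.Tab

set_option autoImplicit false

namespace Pool.Agent.Helper58.LDD.T01

open Pool.Agent.Helper58.LD Pool.Agent.Helper58.LDD

set_option maxRecDepth 100000

def c0 : Tree :=
  (.y 1102 (.a 641 (.y 1001 (.a 590 (.y 950 (.a 565 (.y 925 (.z 922 (.a 552 (.y 912 (.z 911 
(.t 16 (.a 546 (.y 906 (.z 905 (.lf (.thr (.pot 1) (.lm 4 0 4 0 5 5 3) (.pot 1))) (.t 8 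
(.a 543 (.lf .inf) (.z 908 (.y 903 (.lf .inf) 
(.lf (.thr (.pot 1) (.lm 4 0 4 0 5 5 1) (.pot 1)))) (.lf .inf))) (.a 543 (.lf .inf) (.z 908 
(.y 903 (.lf .inf) (.lf (.thr (.pot 1) (.lm 4 0 4 0 5 5 1) (.pot 1)))) (.lf .inf))))) 
(.lf (.thr (.pot 1) (.lm 4 0 4 0 5 5 6) (.pot 1)))) (.y 906 (.z 905 
(.lf (.thr (.pot 1) (.lm 4 0 4 0 5 5 3) (.pot 1))) (.t 8 (.a 549 (.z 908 (.y 903 (.lf .inf) 
(.lf (.thr (.pot 1) (.lm 4 0 4 0 5 5 1) (.pot 1)))) (.lf .inf)) (.lf .inf)) (.a 549 (.z 908 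
(.y 903 (.lf .inf) (.lf (.thr (.pot 1) (.lm 4 0 4 0 5 5 1) (.pot 1)))) (.lf .inf)) (.lf .inf)))) 
(.lf (.thr (.pot 1) (.lm 4 0 4 0 5 5 6) (.pot 1))))) (.a 546 (.y 906 (.z 905 
(.lf (.thr (.pot 1) (.lm 3 0 3 0 5 5 3) (.pot 1))) (.t 24 (.a 543 (.lf .inf) (.z 908 (.y 903 
(.lf .inf) (.lf (.thr (.pot 1) (.lm 4 0 4 0 5 5 1) (.pot 1)))) (.lf .inf))) (.a 543 (.lf .inf) 
(.z 908 (.y 903 (.lf .inf) (.lf (.thr (.pot 1) (.lm 4 0 3 0 5 5 1) (.pot 1)))) (.lf .inf))))) 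
(.lf (.thr (.pot 1) (.lm 4 0 4 0 5 5 6) (.pot 1)))) (.y 906 (.z 905 
(.lf (.thr (.pot 1) (.lm 3 0 3 0 5 5 3) (.pot 1))) (.t 24 (.a 549 (.z 908 (.y 903 (.lf .inf) 
(.lf (.thr (.pot 1) (.lm 4 0 4 0 5 5 1) (.pot 1)))) (.lf .inf)) (.lf .inf)) (.a 549 (.z 908 
(.y 903 (.lf .inf) (.lf (.thr (.pot 1) (.lm 4 0 3 0 5 5 1) (.pot 1)))) (.lf .inf)) (.lf .inf)))) 
(.lf (.thr (.pot 1) (.lm 4 0 4 0 5 5 6) (.pot 1)))))) (.t 16 (.a 546 (.lf .inf) (.y 906 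
(.lf .inf) (.z 916 (.t 8 (.a 549 (.lf .inf) (.y 909 (.lf .inf) (.z 913 
(.lf (.thr (.pot 1) (.lm 4 0 4 0 5 5 1) (.pot 1))) (.lf .inf)))) (.a 549 (.lf .inf) (.y 909 
(.lf .inf) (.z 913 (.lf (.thr (.pot 1) (.lm 4 0 4 0 5 5 1) (.pot 1))) (.lf .inf))))) (.lf .inf)))) 
(.a 546 (.lf .inf) (.y 906 (.lf .inf) (.z 916 (.t 24 (.a 549 (.lf .inf) (.y 909 (.lf .inf) 
(.z 913 (.lf (.thr (.pot 1) (.lm 4 0 4 0 5 5 1) (.pot 1))) (.lf .inf)))) (.a 549 (.lf .inf) 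
(.y 909 (.lf .inf) (.z 913 (.lf (.thr (.pot 1) (.lm 4 0 4 0 5 5 1) (.pot 1))) (.lf .inf))))) 
(.lf .inf)))))) (.lf (.thr (.pot 1) (.lm 4 0 4 0 6 7 13) (.pot 1)))) (.y 912 (.z 911 (.t 16 
(.a 558 (.y 906 (.lf .inf) (.lf (.thr (.pot 1) (.lm 4 0 4 0 5 5 6) (.pot 1)))) (.lf .inf)) 
(.a 558 (.y 906 (.lf .inf) (.lf (.thr (.pot 1) (.lm 4 0 4 0 5 5 6) (.pot 1)))) (.lf .inf))) 
(.t 16 (.a 558 (.y 906 (.lf .inf) (.z 916 (.t 8 (.a 555 (.y 909 (.lf .inf) (.z 913 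
(.lf (.thr (.pot 1) (.lm 4 0 4 0 5 5 1) (.pot 1))) (.lf .inf))) (.lf .inf)) (.a 555 (.y 909 
(.lf .inf) (.z 913 (.lf (.thr (.pot 1) (.lm 4 0 4 0 5 5 1) (.pot 1))) (.lf .inf))) (.lf .inf))) 
(.lf .inf))) (.lf .inf)) (.a 558 (.y 906 (.lf .inf) (.z 916 (.t 24 (.a 555 (.y 909 (.lf .inf) 
(.z 913 (.lf (.thr (.pot 1) (.lm 4 0 4 0 5 5 1) (.pot 1))) (.lf .inf))) (.lf .inf)) (.a 555 
(.y 909 (.lf .inf) (.z 913 (.lf (.thr (.pot 1) (.lm 4 0 4 0 5 5 1) (.pot 1))) (.lf .inf))) 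
(.lf .inf))) (.lf .inf))) (.lf .inf)))) (.lf (.thr (.pot 1) (.lm 4 0 4 0 6 7 13) (.pot 1))))) 
(.a 552 (.lf .inf) (.y 912 (.lf .inf) (.z 933 (.t 16 (.a 558 (.lf .inf) (.y 918 (.lf .inf) 
(.z 927 (.t 8 (.a 561 (.lf .inf) (.y 921 (.lf .inf) 
(.lf (.thr (.pot 1) (.lm 4 0 4 0 5 5 2) (.pot 1))))) (.a 561 (.lf .inf) (.y 921 (.lf .inf) 
(.lf (.thr (.pot 1) (.lm 4 0 4 0 6 6 2) (.pot 1)))))) (.lf .inf)))) (.a 558 (.lf .inf) (.y 918 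
(.lf .inf) (.z 927 (.t 24 (.a 561 (.lf .inf) (.y 921 (.lf .inf) 
(.lf (.thr (.pot 1) (.lm 5 0 5 0 6 6 2) (.pot 1))))) (.a 561 (.lf .inf) (.y 921 (.lf .inf) 
(.lf (.thr (.pot 1) (.lm 5 0 5 0 7 7 2) (.pot 1)))))) (.lf .inf))))) (.lf .inf))))) 
(.lf (.thr (.pot 1) (.lm 5 0 5 0 9 9 25) (.pot 1)))) (.y 925 (.z 922 (.a 577 (.y 912 (.lf .inf) 
(.lf (.thr (.pot 1) (.lm 4 0 4 0 6 7 13) (.pot 1)))) (.lf .inf)) (.a 577 (.y 912 (.lf .inf) 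
(.z 933 (.t 16 (.y 918 (.lf .inf) (.a 571 (.z 927 (.t 8 (.y 921 (.lf .inf) 
(.lf (.thr (.pot 1) (.lm 4 0 4 0 5 5 2) (.pot 1)))) (.y 921 (.lf .inf) 
(.lf (.thr (.pot 1) (.lm 4 0 4 0 6 6 2) (.pot 1))))) (.lf .inf)) (.lf .inf))) (.y 918 
(.lf .inf) (.a 571 (.z 927 (.t 24 (.y 921 (.lf .inf) 
(.lf (.thr (.pot 1) (.lm 5 0 5 0 6 6 2) (.pot 1)))) (.y 921 (.lf .inf) 
(.lf (.thr (.pot 1) (.lm 5 0 5 0 7 7 2) (.pot 1))))) (.lf .inf)) (.lf .inf)))) (.lf .inf))) 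
(.lf .inf))) (.lf (.thr (.pot 1) (.lm 5 0 5 0 9 9 25) (.pot 1))))) (.y 975 (.a 565 (.z 922 
(.a 552 (.lf .inf) (.y 962 (.lf (.thr (.pot 0) (.lm 4 17 6 11 6 11 17) (.pot 0))) (.lf .inf))) 
(.lf .inf)) (.z 922 (.a 577 (.y 962 (.lf (.thr (.pot 0) (.lm 4 17 6 11 6 11 17) (.pot 0))) 
(.lf (.thr (.pot 0) (.lm 4 23 7 17 6 12 18) (.pot 0)))) (.y 962 
(.lf (.thr (.pot 0) (.lm 4 17 6 11 6 11 17) (.pot 0))) 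
(.lf (.thr (.pot 0) (.lm 4 23 7 17 6 12 18) (.pot 0))))) (.a 577 (.y 962 
(.lf (.thr (.pot 1) (.lm 5 5 6 0 9 11 18) (.pot 0))) (.lf .inf)) (.y 962 
(.lf (.thr (.pot 1) (.lm 5 5 6 0 9 11 18) (.pot 0))) 
(.lf (.thr (.pot 1) (.lm 5 12 7 5 9 12 18) (.pot 0))))))) (.a 565 (.lf .inf) (.z 922 (.y 988 
(.a 577 (.lf .inf) (.z 911 (.lf (.thr (.pot 0) (.lm 4 34 7 30 5 13 12) (.pot 0))) 
(.lf (.thr (.pot 0) (.lm 4 29 7 24 6 13 12) (.pot 0))))) (.a 577 (.lf .inf) (.z 911 (.t 16 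
(.lf (.thr (.pot 0) (.lm 4 40 6 37 5 9 12) (.pot 0))) (.a 583 (.lf .inf) (.y 994 
(.lf (.thr (.pot 0) (.lm 4 42 10 35 5 13 9) (.pot 0))) (.z 905 
(.lf (.thr (.lf 0 131 3 127) (.lm 3 48 10 41 5 14 6) (.pot 0))) (.t 24 
(.lf (.thr (.pot 0) (.lm 4 44 9 39 5 12 7) (.pot 0))) (.a 586 (.lf .inf) 
(.lf (.thr (.lf 0 131 4 127) (.lm 4 46 11 37 5 14 7) (.pot 0))))))))) (.t 16 
(.lf (.thr (.pot 0) (.lm 4 34 6 32 6 9 12) (.pot 0))) (.a 583 (.lf .inf) (.y 994 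
(.lf (.thr (.pot 0) (.lm 4 36 10 30 6 13 9) (.pot 0))) (.lf .inf))))))) (.y 988 
(.lf (.thr (.pot 1) (.lm 5 18 7 12 9 13 18) (.pot 1))) (.lf .inf)))))) (.y 950 (.a 615 (.y 925 
(.lf .inf) (.lf (.thr (.pot 1) (.lm 5 0 5 0 9 9 25) (.pot 1)))) (.lf .inf)) (.a 615 (.y 975 
(.z 922 (.a 602 (.y 962 (.lf (.thr (.pot 0) (.lm 4 17 6 11 6 11 17) (.pot 0))) 
(.lf (.thr (.pot 0) (.lm 4 23 7 17 6 12 18) (.pot 0)))) (.y 962 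
(.lf (.thr (.pot 0) (.lm 4 17 6 11 6 11 17) (.pot 0))) 
(.lf (.thr (.pot 0) (.lm 4 23 7 17 6 12 18) (.pot 0))))) (.a 602 (.y 962 
(.lf (.thr (.pot 0) (.lm 5 5 6 0 9 11 18) (.pot 1))) 
(.lf (.thr (.pot 1) (.lm 5 12 7 5 9 12 18) (.pot 0)))) (.y 962 
(.lf (.thr (.pot 0) (.lm 5 5 6 0 9 11 18) (.pot 1))) 
(.lf (.thr (.pot 0) (.lm 5 12 7 5 9 12 18) (.pot 1)))))) (.z 922 (.y 988 (.a 602 (.z 911 
(.lf (.thr (.pot 0) (.lm 4 34 7 30 5 13 12) (.pot 0))) 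
(.lf (.thr (.pot 0) (.lm 4 29 7 24 6 13 12) (.pot 0)))) 
(.lf (.thr (.lf 0 130 4 127) (.lm 4 29 7 24 6 13 18) (.pot 0)))) (.a 602 (.z 911 
(.lf (.thr (.lf 0 130 4 127) (.lm 4 41 8 36 5 14 12) (.pot 0))) (.t 16 
(.lf (.thr (.pot 0) (.lm 4 34 6 32 6 9 12) (.pot 0))) (.y 994 
(.lf (.thr (.pot 0) (.lm 4 36 10 30 6 13 9) (.pot 0))) 
(.lf (.thr (.pot 1) (.lm 4 39 10 33 6 14 9) (.pot 1)))))) 
(.lf (.thr (.lf 0 130 4 127) (.lm 4 35 8 31 6 14 18) (.pot 0))))) (.y 988 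
(.lf (.thr (.pot 1) (.lm 5 18 7 12 9 13 18) (.pot 1))) (.a 602 (.z 933 
(.lf (.thr (.pot 1) (.lm 5 30 8 25 8 14 12) (.pot 1))) 
(.lf (.thr (.pot 1) (.lm 5 24 8 19 9 14 13) (.pot 1)))) (.z 933 
(.lf (.thr (.pot 1) (.lm 5 30 8 25 8 14 12) (.pot 1))) 
(.lf (.thr (.pot 1) (.lm 5 24 8 19 9 14 13) (.pot 1)))))))) (.y 975 (.z 922 
(.lf (.thr (.lf 0 131 4 127) (.lm 4 17 7 11 6 12 24) (.pot 0))) (.a 628 (.y 962 (.lf .inf) 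
(.lf (.thr (.pot 0) (.lm 5 12 7 5 9 12 18) (.pot 1)))) (.lf .inf))) (.z 922 
(.lf (.thr (.lf 0 131 4 127) (.lm 4 29 8 24 6 14 24) (.pot 0))) (.a 628 (.y 988 
(.lf (.thr (.pot 0) (.lm 5 18 7 12 9 13 18) (.pot 1))) (.z 933 
(.lf (.thr (.lf 0 131 5 126) (.lm 5 30 8 25 8 14 12) (.pot 0))) 
(.lf (.thr (.pot 1) (.lm 5 24 8 19 9 14 13) (.pot 1))))) 
(.lf (.thr (.lf 0 131 5 125) (.lm 5 18 8 12 9 14 25) (.pot 1))))))))) (.a 590 (.lf .inf) 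
(.y 1051 (.a 615 (.y 1026 (.z 922 (.a 602 (.y 1013 (.z 911 
(.lf (.thr (.lf 0 130 4 127) (.lm 4 47 8 43 5 15 12) (.lf 8 122 0 130))) (.t 16 (.a 596 
(.lf (.thr (.pot 1) (.lm 4 41 6 38 6 10 12) (.pot 0))) (.y 1007 
(.lf (.thr (.pot 0) (.lm 4 41 6 38 6 10 9) (.pot 0))) 
(.lf (.thr (.pot 0) (.lm 4 44 6 41 6 10 9) (.pot 0))))) (.a 596 (.y 1007 (.z 916 
(.lf (.thr (.lf 0 131 4 126) (.lm 4 46 11 39 6 14 6) (.lf 11 120 0 131))) (.lf .inf)) 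
(.lf .inf)) (.y 1007 (.z 916 (.lf (.thr (.lf 0 131 4 126) (.lm 4 46 11 39 6 14 6) (.pot 0))) 
(.lf (.thr (.lf 0 131 5 126) (.lm 5 43 11 36 6 14 6) (.pot 1)))) (.z 916 
(.lf (.thr (.lf 0 131 4 126) (.lm 4 49 11 42 6 15 6) (.pot 0))) (.t 24 (.a 599 (.lf .inf) 
(.lf (.thr (.lf 0 131 5 126) (.lm 5 45 10 40 6 12 6) (.pot 0)))) (.lf (.low 0)))))))) (.z 911 
(.lf (.thr (.lf 0 130 4 127) (.lm 4 53 9 49 5 16 12) (.lf 9 122 0 130))) (.t 16 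
(.lf (.thr (.lf 2 128 4 127) (.lm 4 47 6 44 6 10 12) (.lf 6 124 2 128))) (.y 1019 (.a 596 
(.lf .inf) (.lf (.thr (.lf 0 131 4 126) (.lm 4 49 11 42 6 15 9) (.lf 11 119 0 131)))) 
(.lf .inf))))) (.y 1013 (.z 911 (.lf (.thr (.lf 0 130 4 127) (.lm 4 47 8 43 5 15 12) (.pot 0))) 
(.lf (.thr (.lf 0 130 4 126) (.lm 4 42 8 37 6 15 12) (.pot 0)))) 
(.lf (.thr (.lf 0 130 4 127) (.lm 4 48 9 43 6 16 18) (.lf 9 122 0 130))))) (.a 602 (.y 1013 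
(.z 933 (.t 16 (.lf (.thr (.pot 0) (.lm 4 35 6 33 6 10 12) (.pot 0))) (.a 596 (.lf .inf) 
(.y 1007 (.z 927 (.lf (.thr (.pot 1) (.lm 5 40 11 34 7 14 6) (.pot 1))) (.lf .inf)) (.lf .inf)))) 
(.lf .inf)) (.lf .inf)) (.y 1013 (.z 933 (.t 16 
(.lf (.thr (.pot 0) (.lm 4 35 6 33 6 10 12) (.pot 0))) (.a 608 (.y 1007 (.z 927 
(.lf (.thr (.lf 0 131 5 125) (.lm 5 40 11 34 7 14 6) (.pot 0))) 
(.lf (.thr (.pot 1) (.lm 6 37 11 31 7 14 6) (.pot 0)))) (.z 927 (.t 24 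
(.lf (.thr (.pot 0) (.lm 5 43 10 37 6 12 6) (.pot 0))) (.lf (.low 0))) (.t 24 
(.lf (.thr (.pot 0) (.lm 5 40 10 34 7 12 6) (.pot 0))) (.lf (.low 0))))) (.y 1007 
(.lf (.thr (.lf 0 131 5 125) (.lm 5 37 11 31 7 14 9) (.pot 0))) 
(.lf (.thr (.lf 0 131 5 125) (.lm 5 40 11 34 7 15 9) (.pot 1)))))) (.t 16 
(.lf (.thr (.pot 0) (.lm 5 29 6 27 7 10 12) (.pot 0))) (.a 608 (.z 939 (.y 1007 
(.lf (.thr (.pot 1) (.lm 6 34 11 28 8 14 6) (.pot 0))) (.lf .inf)) (.lf .inf)) (.z 939 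
(.y 1007 (.lf (.thr (.pot 1) (.lm 6 34 11 28 8 14 6) (.pot 0))) (.t 24 
(.lf (.thr (.pot 0) (.lm 6 36 10 32 7 12 6) (.pot 0))) (.lf (.low 0)))) 
(.lf (.thr (.pot 1) (.lm 7 31 11 25 9 15 9) (.pot 1))))))) (.z 933 (.t 16 (.a 608 (.y 1019 
(.lf (.thr (.pot 0) (.lm 4 41 6 39 6 10 9) (.pot 0))) (.lf .inf)) (.y 1019 
(.lf (.thr (.pot 0) (.lm 4 41 6 39 6 10 9) (.pot 0))) (.z 927 
(.lf (.thr (.lf 2 129 4 126) (.lm 4 47 6 45 6 10 6) (.pot 0))) 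
(.lf (.thr (.pot 1) (.lm 4 44 6 42 6 10 7) (.pot 0)))))) (.a 608 (.y 1019 (.z 927 (.t 24 
(.a 605 (.lf .inf) (.lf (.thr (.lf 0 131 5 126) (.lm 5 46 10 40 6 12 6) (.pot 0)))) 
(.lf (.low 0))) (.lf .inf)) (.lf .inf)) (.y 1019 (.z 927 
(.lf (.thr (.lf 0 131 5 125) (.lm 5 46 11 40 7 15 6) (.pot 0))) (.t 24 
(.lf (.thr (.pot 1) (.lm 5 43 10 37 7 12 6) (.pot 1))) (.lf (.low 0)))) (.z 927 
(.lf (.thr (.lf 0 131 5 125) (.lm 5 49 12 43 7 16 6) (.lf 12 119 0 131))) (.t 24 (.a 611 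
(.lf .inf) (.y 1022 (.lf (.thr (.lf 0 131 5 125) (.lm 5 46 10 40 7 13 5) (.pot 0))) 
(.lf (.thr (.lf 0 131 5 125) (.lm 5 47 10 42 7 13 5) (.lf 10 120 0 131))))) (.lf (.low 0))))))) 
(.t 16 (.lf (.thr (.pot 1) (.lm 5 35 6 33 7 10 13) (.pot 0))) (.a 608 (.lf .inf) (.y 1019 
(.z 939 (.t 24 (.lf (.thr (.pot 1) (.lm 6 40 10 34 7 12 6) (.pot 0))) (.lf (.low 0))) 
(.lf .inf)) (.lf .inf)))))))) (.z 922 (.a 602 (.lf .inf) 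
(.lf (.thr (.lf 0 130 4 127) (.lm 4 54 9 50 6 17 24) (.lf 9 121 0 130)))) (.a 602 (.lf .inf) 
(.y 1038 (.z 933 (.t 16 
(.lf (.thr (.lf 2 129 4 126) (.lm 4 48 6 45 6 10 12) (.lf 6 124 2 129))) (.a 608 (.lf .inf) 
(.y 1032 (.z 927 (.lf (.thr (.lf 0 131 5 125) (.lm 5 53 12 46 7 16 6) (.lf 12 119 0 131))) 
(.lf .inf)) (.lf .inf)))) (.lf .inf)) (.lf .inf))))) (.y 1026 (.z 922 
(.lf (.thr (.lf 0 131 4 127) (.lm 4 42 9 37 6 16 24) (.pot 0))) (.a 628 (.y 1013 (.z 933 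
(.lf (.thr (.lf 0 131 5 126) (.lm 5 36 8 32 8 15 12) (.pot 0))) (.t 16 
(.lf (.thr (.pot 0) (.lm 5 29 6 27 7 10 12) (.pot 0))) (.a 621 (.z 939 
(.lf (.thr (.lf 0 131 6 124) (.lm 6 34 11 28 8 15 9) (.pot 0))) 
(.lf (.thr (.pot 1) (.lm 7 31 11 25 9 15 9) (.pot 1)))) (.lf (.low 0))))) (.z 933 (.t 16 
(.lf (.thr (.lf 1 129 4 126) (.lm 4 41 6 39 6 10 12) (.pot 0))) 
(.lf (.thr (.lf 0 131 5 125) (.lm 5 43 12 37 7 16 12) (.pot 0)))) (.t 16 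
(.lf (.thr (.pot 1) (.lm 5 35 6 33 7 10 13) (.pot 1))) (.a 621 (.y 1019 (.z 939 (.t 24 
(.lf (.thr (.pot 1) (.lm 6 40 10 34 7 12 6) (.pot 0))) (.lf (.low 0))) (.t 24 
(.lf (.thr (.pot 0) (.lm 6 36 10 32 8 12 6) (.pot 0))) (.lf (.low 0)))) (.z 939 (.t 24 
(.y 1022 (.lf (.thr (.pot 1) (.lm 6 42 10 38 7 13 5) (.pot 1))) (.a 618 (.z 936 
(.lf (.thr (.lf 0 131 6 125) (.lm 6 45 10 41 7 13 4) (.pot 0))) (.lf .inf)) (.lf (.low 0)))) 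
(.lf (.low 0))) (.t 24 (.y 1022 (.lf (.thr (.pot 1) (.lm 6 39 10 35 8 13 5) (.pot 0))) 
(.lf (.thr (.pot 1) (.lm 6 41 10 36 8 13 5) (.pot 1)))) (.lf (.low 0))))) (.lf (.low 0)))))) 
(.y 1013 (.lf (.thr (.lf 0 131 5 125) (.lm 5 30 8 26 9 15 18) (.pot 0))) 
(.lf (.thr (.lf 0 131 5 125) (.lm 5 36 9 32 9 16 18) (.pot 1)))))) (.z 922 
(.lf (.thr (.lf 0 131 4 127) (.lm 4 54 9 50 6 17 24) (.lf 9 121 0 131))) (.a 628 (.y 1038 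
(.z 933 (.t 16 (.lf (.thr (.lf 1 129 4 126) (.lm 4 48 6 45 6 10 12) (.lf 6 124 1 129))) 
(.lf (.thr (.lf 0 131 5 125) (.lm 5 50 12 43 7 16 12) (.lf 12 119 0 131)))) (.t 16 (.a 621 
(.z 939 (.y 1032 (.lf (.thr (.pot 1) (.lm 4 44 6 43 6 10 6) (.pot 1))) (.lf .inf)) (.lf .inf)) 
(.z 939 (.lf (.thr (.lf 1 129 4 126) (.lm 4 44 6 43 6 10 9) (.lf 6 124 1 129))) (.y 1032 
(.lf (.thr (.pot 0) (.lm 5 41 6 40 7 10 6) (.pot 0))) (.t 8 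
(.lf (.thr (.pot 0) (.lm 4 44 5 43 6 7 6) (.pot 0))) (.a 624 (.lf .inf) 
(.lf (.thr (.lf 0 130 5 125) (.lm 5 45 8 42 7 10 6) (.lf 8 123 0 130)))))))) (.a 621 (.z 939 
(.y 1032 (.t 24 (.a 618 (.lf .inf) (.lf (.low 0))) (.lf (.low 0))) (.lf .inf)) (.lf .inf)) 
(.lf (.low 0))))) (.z 933 
(.lf (.thr (.lf 0 131 5 126) (.lm 5 55 9 50 8 17 12) (.lf 9 121 0 131))) (.t 16 (.a 621 
(.lf .inf) (.lf (.thr (.lf 1 129 5 126) (.lm 5 47 6 46 7 11 13) (.lf 6 124 1 129)))) (.a 621 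
(.lf .inf) (.lf (.low 0)))))) (.y 1038 (.z 933 
(.lf (.thr (.lf 0 131 5 126) (.lm 5 49 9 44 8 16 12) (.pot 0))) (.t 16 
(.lf (.thr (.lf 1 129 5 126) (.lm 5 41 6 40 7 10 12) (.pot 0))) (.lf (.low 0)))) (.z 933 
(.lf (.thr (.lf 0 131 5 126) (.lm 5 55 9 50 8 17 12) (.lf 9 121 0 131))) (.t 16 
(.lf (.thr (.lf 1 129 5 126) (.lm 5 47 6 46 7 11 13) (.lf 6 124 1 129))) (.lf (.low 0))))))))) 
(.a 615 (.lf .inf) (.y 1076 (.z 922 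
(.lf (.thr (.lf 0 131 4 127) (.lm 4 67 10 62 6 17 24) (.lf 10 121 0 131))) (.a 628 (.y 1063 
(.z 933 (.lf (.thr (.lf 0 131 5 126) (.lm 5 61 10 57 8 17 12) (.lf 10 121 0 131))) (.lf .inf)) 
(.lf .inf)) (.lf (.thr (.lf 0 131 5 125) (.lm 5 55 10 51 9 17 24) (.lf 10 121 0 131))))) 
(.z 922 (.lf (.thr (.lf 0 131 4 127) (.lm 4 79 10 75 6 17 24) (.lf 10 112 0 121))) 
(.lf (.thr (.lf 0 131 5 125) (.lm 5 67 10 64 9 17 25) (.lf 10 112 0 121))))))))) (.y 1001 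
(.a 691 (.y 950 (.lf .inf) (.y 975 (.lf .inf) 
(.lf (.thr (.lf 0 107 5 102) (.lm 5 19 8 11 9 14 36) (.pot 0))))) (.lf .inf)) (.a 691 (.y 1051 
(.a 666 (.y 1026 (.lf (.thr (.lf 0 119 5 115) (.lm 5 31 9 25 9 16 35) (.pot 0))) (.z 922 
(.lf (.thr (.lf 0 119 4 115) (.lm 4 54 9 50 6 17 24) (.pot 0))) (.a 653 (.y 1038 
(.lf (.thr (.lf 0 131 5 125) (.lm 5 43 9 38 9 16 18) (.pot 0))) 
(.lf (.thr (.lf 0 131 5 125) (.lm 5 49 9 44 9 17 18) (.pot 0)))) 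
(.lf (.thr (.lf 0 131 5 125) (.lm 5 43 9 38 9 17 24) (.pot 0)))))) 
(.lf (.thr (.lf 0 107 5 102) (.lm 5 31 9 25 9 17 48) (.pot 0)))) 
(.lf (.thr (.lf 0 107 5 102) (.lm 5 55 10 51 9 17 48) (.lf 10 121 0 131)))) (.y 1051 
(.lf (.thr (.lf 0 81 5 77) (.lm 5 31 9 25 9 17 48) (.pot 0))) 
(.lf (.thr (.lf 0 81 5 77) (.lm 5 55 10 51 9 17 48) (.pot 0))))))) (.y 1203 (.a 641 (.a 590 
(.lf .inf) (.y 1152 (.a 615 (.lf .inf) 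
(.lf (.thr (.lf 0 131 5 126) (.lf 5 80 9 77) (.lf 9 87 0 96)))) (.lf .inf))) (.a 691 
(.lf (.thr (.lf 0 107 5 102) (.lf 5 80 8 77) (.lf 8 75 0 83))) 
(.lf (.thr (.lf 0 81 5 77) (.lf 5 80 8 77) (.lf 8 100 0 108))))) (.a 641 (.lf .inf) (.y 1254 
(.lf (.thr (.lf 0 81 5 77) (.lf 5 126 5 125) (.lf 5 51 0 56))) (.lf .inf)))))

theorem h0 : chk (leafT PP TD0 0 2) c0 0 32 540 742 900 945 900 1305 = true := by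
  decide +kernel

def c1 : Tree :=
  (.y 1102 (.a 843 (.y 1001 (.lf .inf) (.a 792 
(.lf (.thr (.lm 0 56 5 52 5 9 48) (.lm 5 31 10 25 9 18 73) (.pot 0))) (.lf .inf))) (.lf .inf)) 
(.a 843 (.y 1203 (.a 792 (.y 1152 (.lf (.thr (.lm 0 56 5 52 5 9 48) (.lf 5 80 9 77) (.pot 0))) 
(.lf (.thr (.lm 0 56 5 52 5 9 48) (.lf 5 105 8 102) (.lf 8 123 0 131)))) (.y 1152 
(.lf (.thr (.lm 0 31 5 26 5 9 48) (.lf 5 80 9 77) (.pot 0))) (.a 817 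
(.lf (.thr (.lm 0 44 5 39 5 9 35) (.lf 5 105 8 102) (.pot 0))) 
(.lf (.thr (.lm 0 31 5 26 5 9 36) (.lf 5 105 8 102) (.pot 0)))))) (.y 1254 (.a 792 
(.lf (.thr (.lm 0 56 5 52 5 9 48) (.lf 5 126 5 125) (.lf 5 102 0 106))) (.a 817 
(.lf (.thr (.lm 0 44 5 39 5 9 35) (.lf 5 126 5 125) (.lf 5 125 0 131))) (.y 1228 (.z 922 
(.a 830 (.lf (.thr (.lm 0 37 4 33 5 6 18) (.pot 0) (.pot 0))) 
(.lf (.thr (.lm 0 31 4 26 5 6 18) (.pot 0) (.pot 0)))) 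
(.lf (.thr (.lm 0 42 5 37 5 9 25) (.lf 5 125 6 125) (.pot 0)))) (.z 922 (.a 830 
(.lf (.thr (.lm 0 37 4 33 5 6 18) (.pot 0) (.pot 0))) 
(.lf (.thr (.lm 0 31 4 26 5 6 18) (.pot 0) (.pot 0)))) (.a 830 
(.lf (.thr (.lm 0 48 5 44 5 9 18) (.lf 5 125 4 126) (.lf 4 126 0 131))) 
(.lf (.thr (.lm 0 42 5 37 5 9 18) (.lf 5 125 4 126) (.lf 4 126 0 130)))))))) (.a 792 (.lf .inf) 
(.a 817 (.lf .inf) (.y 1279 (.z 922 (.lf .inf) 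
(.lf (.thr (.lm 0 42 5 37 5 9 25) (.pot 0) (.lf 3 127 0 131)))) (.lf .inf)))))) (.y 1203 
(.a 894 (.y 1152 (.lf .inf) (.a 868 
(.lf (.thr (.lm 1 19 5 13 5 9 35) (.lf 5 105 8 102) (.pot 0))) (.lf .inf))) (.lf .inf)) 
(.a 894 (.y 1254 (.a 868 (.y 1228 (.z 922 (.lf (.thr (.lm 1 19 4 13 5 6 24) (.pot 0) (.pot 0))) 
(.lf (.thr (.lm 1 30 5 24 5 9 24) (.lf 5 125 6 125) (.pot 0)))) (.z 922 
(.lf (.thr (.lm 1 19 4 13 5 6 24) (.pot 0) (.pot 0))) (.y 1241 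
(.lf (.thr (.lm 1 30 5 24 5 9 24) (.lf 5 125 5 126) (.pot 0))) (.a 855 
(.lf (.thr (.lm 1 36 5 31 5 9 18) (.pot 0) (.pot 0))) 
(.lf (.thr (.lm 1 29 5 25 5 9 18) (.pot 0) (.pot 0))))))) (.y 1228 (.z 922 
(.lf (.thr (.lm 2 6 4 0 5 6 24) (.pot 0) (.pot 1))) 
(.lf (.thr (.lm 2 17 5 11 5 9 25) (.lf 5 125 6 125) (.pot 0)))) (.z 922 
(.lf (.thr (.lm 2 6 4 0 5 6 24) (.pot 0) (.pot 1))) 
(.lf (.thr (.lm 2 17 5 11 5 9 25) (.pot 0) (.pot 1)))))) (.a 868 (.y 1279 (.z 922 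
(.lf (.thr (.lm 1 19 4 13 5 6 24) (.pot 0) (.pot 0))) (.a 855 
(.lf (.thr (.lm 1 36 5 31 5 9 18) (.pot 0) (.pot 0))) 
(.lf (.thr (.lm 1 29 5 25 5 9 18) (.pot 0) (.pot 0))))) (.lf .inf)) (.y 1279 (.z 922 
(.lf (.thr (.lm 2 6 4 0 5 6 24) (.pot 1) (.pot 0))) 
(.lf (.thr (.lm 2 17 5 11 5 9 25) (.pot 1) (.pot 0)))) (.z 922 (.lf .inf) 
(.lf (.thr (.lm 2 17 5 11 5 9 25) (.pot 1) (.pot 0))))))) (.y 1254 (.a 919 (.y 1228 (.lf .inf) 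
(.lf (.thr (.lm 4 0 5 0 6 9 26) (.pot 1) (.pot 1)))) (.lf .inf)) (.a 919 
(.lf (.thr (.lm 4 0 5 0 6 9 26) (.pot 1) (.pot 1))) (.y 1279 (.z 922 (.a 932 (.y 1266 
(.lf .inf) (.z 911 (.lf .inf) (.t 16 (.a 925 (.y 1272 (.lf .inf) (.z 916 (.lf .inf) (.t 8 
(.y 1275 (.lf .inf) (.a 922 (.lf (.thr (.lm 4 0 4 0 5 5 2) (.pot 1) (.pot 1))) (.lf .inf))) 
(.y 1275 (.lf .inf) (.a 922 (.lf (.thr (.lm 4 0 4 0 6 6 2) (.pot 1) (.pot 1))) (.lf .inf)))))) 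
(.lf .inf)) (.a 925 (.y 1272 (.lf .inf) (.z 916 (.lf .inf) (.t 24 (.y 1275 (.lf .inf) (.a 922 
(.lf (.thr (.lm 5 0 5 0 6 6 2) (.pot 1) (.pot 1))) (.lf .inf))) (.y 1275 (.lf .inf) (.a 922 
(.lf (.thr (.lm 5 0 5 0 6 6 2) (.pot 1) (.pot 1))) (.lf .inf)))))) (.lf .inf))))) (.lf .inf)) 
(.a 932 (.lf (.thr (.lm 5 0 5 0 7 9 13) (.pot 1) (.pot 1))) (.lf .inf))) (.z 922 (.a 932 
(.y 1292 (.z 911 (.lf .inf) (.t 16 (.a 925 (.y 1285 (.z 916 (.lf .inf) (.t 8 (.a 922 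
(.lf (.thr (.lm 4 0 4 0 5 5 2) (.pot 1) (.pot 1))) (.lf (.thr (.lf 4 0 4 0) (.pot 1) (.pot 1)))) 
(.a 922 (.lf (.thr (.lm 4 0 4 0 6 6 2) (.pot 1) (.pot 1))) 
(.lf (.thr (.lf 4 0 4 0) (.pot 1) (.pot 1)))))) (.lf .inf)) (.lf .inf)) (.a 925 (.y 1285 
(.z 916 (.lf .inf) (.t 24 (.a 922 (.lf (.thr (.lm 5 0 5 0 6 6 2) (.pot 1) (.pot 1))) 
(.lf (.thr (.lf 5 0 5 0) (.pot 1) (.pot 1)))) (.a 922 
(.lf (.thr (.lm 5 0 5 0 6 6 2) (.pot 1) (.pot 1))) (.lf (.thr (.lf 5 0 5 0) (.pot 1) (.pot 1)))))) 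
(.lf .inf)) (.lf .inf)))) (.lf .inf)) (.lf .inf)) (.a 932 
(.lf (.thr (.lm 5 0 5 0 7 9 13) (.pot 1) (.pot 1))) (.y 1292 (.z 933 (.t 16 (.a 938 (.y 1285 
(.lf .inf) (.z 927 (.lf .inf) (.t 8 (.y 1288 (.lf .inf) (.a 935 (.z 930 (.lf .inf) 
(.lf (.thr (.lm 4 0 4 0 5 5 1) (.pot 1) (.pot 1)))) (.lf .inf))) (.y 1288 (.lf .inf) (.a 935 
(.z 930 (.lf .inf) (.lf (.thr (.lm 5 0 5 0 6 6 1) (.pot 1) (.pot 1)))) (.lf .inf)))))) 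
(.lf .inf)) (.a 938 (.y 1285 (.lf .inf) (.z 927 (.lf .inf) (.t 24 (.y 1288 (.lf .inf) (.a 935 
(.lf (.thr (.lm 5 0 5 0 7 7 1) (.pot 1) (.pot 1))) (.lf .inf))) (.y 1288 (.lf .inf) (.a 935 
(.lf (.thr (.lm 6 0 6 0 8 7 1) (.pot 1) (.pot 1))) (.lf .inf)))))) (.lf .inf))) 
(.lf (.thr (.lm 5 0 5 0 9 9 7) (.pot 1) (.pot 1)))) (.z 933 (.t 16 (.a 938 (.y 1298 (.z 927 
(.lf .inf) (.t 8 (.a 935 (.z 930 (.lf .inf) (.lf (.thr (.lm 4 0 4 0 5 5 1) (.pot 1) (.pot 1)))) 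
(.lf .inf)) (.a 935 (.z 930 (.lf .inf) (.lf (.thr (.lm 5 0 5 0 6 6 1) (.pot 1) (.pot 1)))) 
(.lf .inf)))) (.lf .inf)) (.lf .inf)) (.a 938 (.y 1298 (.z 927 (.lf .inf) (.t 24 (.a 935 
(.lf (.thr (.lm 5 0 5 0 7 7 1) (.pot 1) (.pot 1))) (.lf .inf)) (.a 935 
(.lf (.thr (.lm 6 0 6 0 8 7 1) (.pot 1) (.pot 1))) (.lf .inf)))) (.lf .inf)) (.lf .inf))) 
(.lf (.thr (.lm 5 0 5 0 9 9 7) (.pot 1) (.pot 1))))))))))))))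

theorem h1 : chk (leafT PP TD0 0 2) c1 0 32 742 945 900 945 900 1305 = true := by
  decide +kernel

def c2 : Tree :=
  (.y 1046 (.a 635 (.y 995 (.a 610 (.y 970 
(.lf (.thr (.pot 1) (.lm 7 0 6 0 13 11 13) (.pot 1))) (.z 967 (.a 597 (.lf .inf) (.y 982 
(.lf (.thr (.pot 1) (.lm 6 3 7 0 11 12 17) (.pot 1))) 
(.lf (.thr (.pot 1) (.lm 6 11 8 4 11 14 18) (.pot 1))))) 
(.lf (.thr (.pot 1) (.lm 7 0 8 0 13 14 14) (.pot 1))))) (.y 970 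
(.lf (.thr (.pot 1) (.lm 7 0 6 0 13 11 13) (.pot 1))) (.z 967 (.a 622 (.y 982 
(.lf (.thr (.pot 1) (.lm 6 3 7 0 11 12 17) (.pot 1))) 
(.lf (.thr (.pot 1) (.lm 6 11 8 4 11 14 18) (.pot 1)))) (.y 982 
(.lf (.thr (.pot 0) (.lm 6 3 7 0 11 12 17) (.pot 1))) 
(.lf (.thr (.pot 1) (.lm 6 11 8 4 11 14 18) (.pot 1))))) 
(.lf (.thr (.pot 1) (.lm 7 0 8 0 13 14 14) (.pot 1)))))) (.y 1020 (.a 610 (.z 967 (.a 597 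
(.lf .inf) (.y 1007 (.z 956 (.lf (.thr (.pot 1) (.lm 6 22 8 17 10 15 12) (.pot 1))) (.lf .inf)) 
(.lf .inf))) (.lf .inf)) (.z 967 (.a 622 (.y 1007 (.z 956 
(.lf (.thr (.pot 1) (.lm 6 22 8 17 10 15 12) (.pot 1))) 
(.lf (.thr (.pot 1) (.lm 7 16 8 12 11 15 12) (.pot 1)))) (.z 956 (.t 16 
(.lf (.thr (.pot 0) (.lm 5 26 6 25 7 10 12) (.pot 0))) (.y 1013 
(.lf (.thr (.pot 1) (.lm 7 29 11 22 10 15 9) (.pot 1))) (.a 616 (.lf .inf) (.z 950 (.t 24 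
(.lf (.thr (.pot 0) (.lm 6 34 10 29 8 13 6) (.pot 0))) (.lf (.low 0))) (.t 24 
(.lf (.thr (.pot 0) (.lm 7 31 10 26 9 13 7) (.pot 0))) (.lf (.low 0))))))) (.t 16 
(.lf (.thr (.pot 0) (.lm 5 21 6 19 8 10 12) (.pot 0))) (.y 1013 
(.lf (.thr (.pot 1) (.lm 8 23 11 17 11 15 9) (.pot 0))) (.lf .inf))))) (.y 1007 (.z 956 
(.lf (.thr (.pot 1) (.lm 6 22 8 17 10 15 12) (.pot 1))) 
(.lf (.thr (.pot 1) (.lm 7 16 8 12 11 15 12) (.pot 1)))) (.z 956 (.t 16 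
(.lf (.thr (.pot 0) (.lm 5 26 6 25 7 10 12) (.pot 0))) (.lf (.low 0))) (.t 16 
(.lf (.thr (.pot 0) (.lm 5 21 6 19 8 10 12) (.pot 0))) (.lf (.low 0)))))) (.a 622 (.y 1007 
(.z 978 (.lf (.thr (.pot 1) (.lm 7 11 8 6 12 15 12) (.pot 1))) (.lf .inf)) (.lf .inf)) 
(.y 1007 (.z 978 (.lf (.thr (.pot 1) (.lm 7 11 8 6 12 15 12) (.pot 1))) 
(.lf (.thr (.pot 1) (.lm 8 5 8 0 13 15 12) (.pot 1)))) (.z 978 (.t 16 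
(.lf (.thr (.pot 0) (.lm 5 15 6 14 8 10 12) (.pot 0))) (.lf (.low 0))) 
(.lf (.thr (.pot 1) (.lm 8 11 9 6 13 15 13) (.pot 1)))))))) (.a 610 (.lf .inf) (.z 967 
(.y 1033 (.a 622 (.lf .inf) (.z 956 (.t 16 
(.lf (.thr (.pot 1) (.lm 5 33 6 31 7 10 12) (.pot 0))) (.lf (.low 0))) (.t 16 
(.lf (.thr (.pot 0) (.lm 5 27 6 26 8 10 12) (.pot 0))) (.lf (.low 0))))) (.a 622 (.lf .inf) 
(.z 956 (.t 16 (.a 628 (.lf .inf) (.y 1039 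
(.lf (.thr (.pot 1) (.lm 5 39 6 38 7 10 9) (.pot 1))) (.z 950 (.t 8 
(.lf (.thr (.pot 0) (.lm 4 45 5 44 6 8 6) (.pot 0))) 
(.lf (.thr (.lf 0 130 5 125) (.lm 5 46 8 43 7 10 6) (.lf 8 123 0 130)))) (.t 8 
(.lf (.thr (.pot 0) (.lm 4 42 5 41 6 8 7) (.pot 0))) (.a 631 (.lf .inf) (.y 1042 
(.lf (.thr (.pot 0) (.lm 6 43 8 40 7 10 5) (.pot 0))) (.lf .inf))))))) (.lf (.low 0))) (.t 16 
(.a 628 (.lf .inf) (.y 1039 (.lf (.thr (.pot 0) (.lm 5 34 6 32 8 10 9) (.pot 0))) (.lf .inf))) 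
(.lf (.low 0)))))) (.y 1033 (.a 622 (.lf .inf) (.z 978 (.t 16 
(.lf (.thr (.pot 0) (.lm 5 22 6 20 8 10 12) (.pot 0))) (.lf (.low 0))) (.lf .inf))) (.lf .inf)))))) 
(.y 995 (.a 660 (.y 970 (.lf .inf) (.z 967 (.a 647 (.y 982 (.lf .inf) 
(.lf (.thr (.pot 1) (.lm 6 11 8 4 11 14 18) (.pot 1)))) (.lf .inf)) 
(.lf (.thr (.pot 1) (.lm 7 0 8 0 13 14 14) (.pot 1))))) (.lf .inf)) (.a 660 (.y 1020 (.z 967 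
(.a 647 (.y 1007 (.z 956 (.lf (.thr (.lf 0 131 6 124) (.lm 6 22 8 17 10 15 12) (.pot 0))) 
(.lf (.thr (.pot 0) (.lm 7 16 8 12 11 15 12) (.pot 1)))) (.z 956 
(.lf (.thr (.lf 0 131 6 124) (.lm 6 27 9 24 10 15 12) (.pot 1))) (.t 16 
(.lf (.thr (.pot 0) (.lm 5 21 6 19 8 10 12) (.pot 0))) (.lf (.low 0))))) (.y 1007 
(.lf (.thr (.lf 0 131 6 124) (.lm 6 16 8 12 11 15 17) (.pot 1))) 
(.lf (.thr (.lf 0 131 6 124) (.lm 6 22 9 18 11 15 18) (.pot 1))))) (.a 647 (.y 1007 (.z 978 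
(.lf (.thr (.pot 1) (.lm 7 11 8 6 12 15 12) (.pot 1))) 
(.lf (.thr (.pot 1) (.lm 8 5 8 0 13 15 12) (.pot 1)))) (.z 978 (.t 16 
(.lf (.thr (.pot 0) (.lm 5 15 6 14 8 10 12) (.pot 0))) (.lf (.low 0))) 
(.lf (.thr (.pot 1) (.lm 8 11 9 6 13 15 13) (.pot 1))))) (.y 1007 (.z 978 
(.lf (.thr (.pot 0) (.lm 7 11 8 6 12 15 12) (.pot 1))) 
(.lf (.thr (.pot 1) (.lm 8 5 8 0 13 15 12) (.pot 1)))) (.z 978 (.t 16 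
(.lf (.thr (.pot 0) (.lm 5 15 6 14 8 10 12) (.pot 0))) (.lf (.low 0))) 
(.lf (.thr (.pot 1) (.lm 8 11 9 6 13 15 13) (.pot 1))))))) (.z 967 (.y 1033 (.a 647 (.z 956 
(.t 16 (.lf (.thr (.lf 1 129 5 126) (.lm 5 33 6 31 7 10 12) (.pot 0))) (.lf (.low 0))) (.t 16 
(.lf (.thr (.pot 0) (.lm 5 27 6 26 8 10 12) (.pot 0))) (.lf (.low 0)))) (.z 956 
(.lf (.thr (.lf 0 131 6 124) (.lm 6 34 9 30 10 16 12) (.pot 0))) (.t 16 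
(.lf (.thr (.pot 0) (.lm 5 27 6 26 8 10 12) (.pot 0))) (.lf (.low 0))))) (.a 647 (.z 956 
(.t 16 (.y 1039 (.lf (.thr (.pot 1) (.lm 5 39 6 38 7 10 9) (.pot 1))) (.a 641 (.z 950 
(.lf (.thr (.lf 1 129 5 126) (.lm 5 45 6 44 7 11 6) (.pot 0))) (.t 8 
(.lf (.thr (.pot 0) (.lm 4 42 5 41 6 8 7) (.pot 0))) (.y 1042 
(.lf (.thr (.pot 0) (.lm 6 43 8 40 7 10 5) (.pot 0))) 
(.lf (.thr (.pot 1) (.lm 6 44 8 42 7 10 5) (.pot 1)))))) 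
(.lf (.thr (.lf 1 129 5 126) (.lm 5 42 6 41 7 11 9) (.pot 0))))) (.lf (.low 0))) (.t 16 
(.y 1039 (.lf (.thr (.pot 0) (.lm 5 34 6 32 8 10 9) (.pot 0))) 
(.lf (.thr (.pot 1) (.lm 5 37 6 35 8 11 9) (.pot 1)))) (.lf (.low 0)))) (.z 956 
(.lf (.thr (.lf 0 131 6 124) (.lm 6 40 9 37 10 17 12) (.pot 0))) (.t 16 
(.lf (.thr (.lf 1 129 5 125) (.lm 5 34 6 32 8 11 12) (.pot 1))) (.lf (.low 0)))))) (.y 1033 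
(.a 647 (.z 978 (.t 16 (.lf (.thr (.pot 0) (.lm 5 22 6 20 8 10 12) (.pot 0))) (.lf (.low 0))) 
(.t 16 (.lf (.thr (.pot 0) (.lm 6 16 6 14 9 10 13) (.pot 0))) (.lf (.low 0)))) (.z 978 (.t 16 
(.lf (.thr (.pot 0) (.lm 5 22 6 20 8 10 12) (.pot 0))) (.lf (.low 0))) (.t 16 
(.lf (.thr (.pot 0) (.lm 6 16 6 14 9 10 13) (.pot 0))) (.lf (.low 0))))) (.a 647 (.z 978 
(.t 16 (.lf (.thr (.pot 1) (.lm 5 28 6 27 8 11 12) (.pot 0))) (.lf (.low 0))) (.t 16 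
(.lf (.thr (.pot 0) (.lm 6 22 6 21 9 11 13) (.pot 0))) (.lf (.low 0)))) (.z 978 (.t 16 
(.lf (.thr (.pot 0) (.lm 5 28 6 27 8 11 12) (.pot 1))) (.lf (.low 0))) (.t 16 
(.lf (.thr (.pot 0) (.lm 6 22 6 21 9 11 13) (.pot 0))) (.lf (.low 0)))))))) (.y 1020 (.z 967 
(.lf (.thr (.lf 0 131 6 124) (.lm 6 17 8 11 11 15 24) (.pot 0))) (.a 673 (.y 1007 (.lf .inf) 
(.z 978 (.lf (.thr (.lf 0 131 7 123) (.lm 7 16 9 13 12 15 12) (.pot 0))) 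
(.lf (.thr (.pot 1) (.lm 8 11 9 6 13 15 13) (.pot 1))))) (.lf .inf))) (.z 967 
(.lf (.thr (.lf 0 131 6 124) (.lm 6 29 9 24 11 17 24) (.pot 0))) (.a 673 (.y 1033 (.z 978 
(.lf (.thr (.lf 0 131 7 123) (.lm 7 23 9 19 12 16 12) (.pot 1))) (.t 16 
(.lf (.thr (.pot 0) (.lm 6 16 6 14 9 10 13) (.pot 0))) (.lf (.low 0)))) (.z 978 (.t 16 
(.lf (.thr (.lf 1 130 5 125) (.lm 5 28 6 27 8 11 12) (.pot 0))) (.lf (.low 0))) (.t 16 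
(.lf (.thr (.pot 0) (.lm 6 22 6 21 9 11 13) (.pot 0))) (.lf (.low 0))))) (.y 1033 
(.lf (.thr (.lf 0 131 7 123) (.lm 7 17 9 13 13 16 18) (.pot 1))) (.z 978 
(.lf (.thr (.lf 0 131 7 123) (.lm 7 29 9 26 12 17 12) (.pot 0))) 
(.lf (.thr (.lf 0 131 8 123) (.lm 8 23 9 20 13 17 13) (.pot 1))))))))))) (.a 635 (.lf .inf) 
(.y 1096 (.a 660 (.y 1071 (.z 967 (.a 647 (.y 1058 (.z 956 (.t 16 (.a 641 (.y 1052 (.z 950 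
(.lf (.thr (.lf 1 129 5 126) (.lm 5 49 7 47 7 11 6) (.lf 7 124 1 129))) (.t 8 
(.lf (.thr (.pot 0) (.lm 4 45 5 45 6 8 6) (.pot 0))) 
(.lf (.thr (.lf 0 130 6 125) (.lm 6 46 8 44 7 11 6) (.lf 8 123 0 130))))) 
(.lf (.thr (.lf 1 129 5 126) (.lm 5 49 7 47 7 11 9) (.lf 7 124 1 129)))) 
(.lf (.thr (.lf 1 129 5 126) (.lm 5 46 7 44 7 11 12) (.lf 7 124 1 129)))) (.lf (.low 0))) 
(.t 16 (.a 641 (.y 1052 (.z 961 (.t 8 (.lf (.thr (.pot 0) (.lm 4 43 5 42 6 8 6) (.pot 0))) 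
(.a 638 (.lf .inf) (.y 1049 (.lf (.thr (.pot 1) (.lm 6 44 8 41 8 11 4) (.pot 0))) (.lf .inf)))) 
(.lf .inf)) (.lf .inf)) (.y 1052 (.z 961 (.t 8 
(.lf (.thr (.pot 0) (.lm 4 43 5 42 6 8 6) (.pot 0))) (.a 644 (.y 1049 
(.lf (.thr (.pot 1) (.lm 6 44 8 41 8 11 4) (.pot 0))) (.z 958 
(.lf (.thr (.lf 0 131 6 125) (.lm 6 47 8 44 7 11 3) (.pot 0))) 
(.lf (.thr (.pot 1) (.lm 6 45 8 43 8 11 3) (.pot 1))))) 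
(.lf (.thr (.lf 0 131 6 125) (.lm 6 44 8 41 8 11 6) (.pot 0))))) 
(.lf (.thr (.pot 1) (.lm 5 40 7 39 8 11 6) (.pot 1)))) (.z 961 
(.lf (.thr (.lf 1 129 5 125) (.lm 5 46 7 45 8 11 6) (.lf 7 124 1 129))) (.t 8 
(.lf (.thr (.pot 0) (.lm 4 43 5 42 6 8 6) (.pot 0))) (.a 644 (.lf .inf) (.z 964 (.y 1055 
(.lf (.thr (.pot 1) (.lm 6 45 8 43 8 11 3) (.pot 1))) (.lf .inf)) (.lf .inf))))))) 
(.lf (.low 0)))) (.z 956 (.t 16 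
(.lf (.thr (.lf 1 129 5 126) (.lm 5 52 7 50 7 11 12) (.lf 7 124 1 129))) (.lf (.low 0))) 
(.t 16 (.y 1064 (.a 641 (.lf .inf) (.z 961 
(.lf (.thr (.lf 1 129 5 125) (.lm 5 49 7 48 8 11 6) (.lf 7 124 1 129))) (.lf .inf))) (.lf .inf)) 
(.lf (.low 0))))) (.y 1058 (.z 956 (.t 16 
(.lf (.thr (.lf 1 129 5 126) (.lm 5 46 7 44 7 11 12) (.pot 0))) (.lf (.low 0))) (.t 16 (.a 653 
(.y 1052 (.z 961 (.lf (.thr (.lf 1 129 5 125) (.lm 5 43 7 42 8 11 6) (.pot 0))) 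
(.lf (.thr (.pot 1) (.lm 5 40 7 39 8 11 6) (.pot 1)))) (.z 961 
(.lf (.thr (.lf 1 129 5 125) (.lm 5 46 7 45 8 11 6) (.pot 0))) (.t 8 
(.lf (.thr (.pot 0) (.lm 4 43 5 42 6 8 6) (.pot 0))) (.a 650 (.z 964 
(.lf (.thr (.lf 0 131 6 125) (.lm 6 45 8 43 8 11 5) (.pot 0))) (.y 1055 
(.lf (.thr (.pot 1) (.lm 6 44 8 41 8 11 3) (.pot 0))) (.t 12 
(.lf (.thr (.pot 0) (.lm 6 45 7 43 7 9 3) (.pot 0))) (.a 648 (.lf .inf) (.z 965 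
(.lf (.thr (.lf 0 131 6 124) (.lm 6 46 9 44 8 11 2) (.pot 0))) 
(.lf (.thr (.pot 1) (.lm 6 45 9 43 8 11 3) (.pot 1)))))))) 
(.lf (.thr (.lf 0 131 6 125) (.lm 6 44 8 41 8 11 6) (.pot 0))))))) 
(.lf (.thr (.lf 1 130 5 125) (.lm 5 40 7 39 8 11 12) (.pot 0)))) (.lf (.low 0)))) (.z 956 
(.lf (.thr (.lf 0 131 6 124) (.lm 6 53 10 49 10 17 12) (.lf 10 121 0 131))) (.t 16 (.a 653 
(.y 1064 (.z 961 (.lf (.thr (.lf 1 129 5 125) (.lm 5 49 7 48 8 11 6) (.lf 7 124 1 129))) (.t 8 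
(.lf (.thr (.pot 0) (.lm 4 46 5 45 6 8 6) (.pot 0))) 
(.lf (.thr (.lf 0 131 6 125) (.lm 6 47 8 44 8 11 6) (.lf 8 122 0 131))))) 
(.lf (.thr (.lf 1 129 5 125) (.lm 5 49 7 48 8 11 9) (.lf 7 124 1 129)))) 
(.lf (.thr (.lf 1 130 5 125) (.lm 5 46 7 45 8 11 12) (.lf 7 124 1 130)))) (.lf (.low 0)))))) 
(.a 647 (.y 1058 (.z 978 (.t 16 (.a 641 (.lf .inf) (.y 1052 
(.lf (.thr (.pot 1) (.lm 5 35 7 33 8 11 9) (.pot 0))) (.lf .inf))) (.lf (.low 0))) (.lf .inf)) 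
(.lf .inf)) (.y 1058 (.z 978 (.t 16 (.a 653 (.y 1052 
(.lf (.thr (.pot 1) (.lm 5 35 7 33 8 11 9) (.pot 0))) (.z 972 
(.lf (.thr (.pot 1) (.lm 5 41 7 39 8 11 6) (.pot 1))) 
(.lf (.thr (.pot 1) (.lm 5 38 7 36 8 11 6) (.pot 0))))) (.y 1052 
(.lf (.thr (.pot 0) (.lm 5 35 7 33 8 11 9) (.pot 1))) (.z 972 
(.lf (.thr (.pot 1) (.lm 5 41 7 39 8 11 6) (.pot 1))) 
(.lf (.thr (.pot 1) (.lm 5 38 7 36 8 11 6) (.pot 0)))))) (.lf (.low 0))) (.t 16 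
(.lf (.thr (.pot 1) (.lm 6 29 7 27 9 11 12) (.pot 1))) (.lf (.low 0)))) (.z 978 (.t 16 (.a 653 
(.y 1064 (.z 972 (.t 8 (.lf (.thr (.pot 0) (.lm 4 43 5 43 6 8 6) (.pot 0))) (.a 650 (.lf .inf) 
(.y 1061 (.z 969 (.t 12 (.lf (.thr (.pot 0) (.lm 6 45 7 44 7 9 3) (.pot 0))) 
(.lf (.thr (.lf 0 131 6 124) (.lm 6 46 9 43 8 11 3) (.lf 9 122 0 131)))) (.lf .inf)) (.lf .inf)))) 
(.lf .inf)) (.lf .inf)) (.y 1064 (.z 972 (.t 8 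
(.lf (.thr (.pot 0) (.lm 4 43 5 43 6 8 6) (.pot 0))) (.a 656 (.y 1061 (.z 969 
(.lf (.thr (.lf 0 131 6 124) (.lm 6 46 8 43 8 11 3) (.pot 0))) 
(.lf (.thr (.pot 1) (.lm 6 44 8 42 8 11 3) (.pot 1)))) (.z 969 
(.lf (.thr (.lf 0 131 6 124) (.lm 6 47 8 45 8 11 3) (.pot 0))) (.t 12 
(.lf (.thr (.pot 0) (.lm 6 45 7 44 7 9 3) (.pot 0))) 
(.lf (.thr (.lf 0 131 7 124) (.lm 7 46 9 43 8 11 3) (.lf 9 122 0 131)))))) 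
(.lf (.thr (.lf 0 131 6 124) (.lm 6 44 8 42 8 11 6) (.pot 0))))) (.t 8 
(.lf (.thr (.pot 0) (.lm 4 40 5 40 6 8 6) (.pot 0))) (.a 656 (.z 975 (.y 1061 
(.lf (.thr (.pot 1) (.lm 6 42 8 41 8 11 3) (.pot 0))) (.lf .inf)) (.lf .inf)) (.z 975 (.y 1061 
(.lf (.thr (.pot 1) (.lm 6 42 8 41 8 11 3) (.pot 0))) (.t 12 
(.lf (.thr (.pot 0) (.lm 6 44 7 42 7 9 3) (.pot 0))) 
(.lf (.thr (.pot 1) (.lm 7 44 9 42 8 11 3) (.pot 1))))) 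
(.lf (.thr (.pot 1) (.lm 6 41 8 39 8 11 5) (.pot 1))))))) (.z 972 (.t 8 
(.lf (.thr (.pot 0) (.lm 4 46 5 46 6 8 6) (.pot 0))) 
(.lf (.thr (.lf 0 131 6 124) (.lm 6 47 8 45 8 11 6) (.lf 8 122 0 131)))) (.t 8 
(.lf (.thr (.pot 0) (.lm 4 43 5 43 6 8 7) (.pot 0))) (.a 656 (.lf .inf) (.y 1067 (.z 975 
(.t 12 (.lf (.thr (.pot 0) (.lm 6 45 7 44 7 9 3) (.pot 0))) (.a 658 (.z 973 
(.lf (.thr (.lf 0 131 7 124) (.lm 7 47 9 44 8 11 2) (.lf 9 122 0 131))) (.lf .inf)) 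
(.lf (.low 0)))) (.t 12 (.lf (.thr (.pot 0) (.lm 6 44 7 42 7 9 3) (.pot 0))) (.a 658 (.lf .inf) 
(.lf (.low 0))))) (.z 975 
(.lf (.thr (.lf 0 131 6 124) (.lm 6 47 8 45 8 11 4) (.lf 8 122 0 131))) (.lf .inf)))))))) 
(.lf (.low 0))) (.t 16 (.a 653 (.lf .inf) (.y 1064 
(.lf (.thr (.pot 1) (.lm 6 35 7 33 9 11 9) (.pot 1))) (.lf .inf))) (.lf (.low 0))))))) (.z 967 
(.a 647 (.lf .inf) (.y 1083 (.z 956 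
(.lf (.thr (.lf 0 131 6 124) (.lm 6 59 10 56 10 17 12) (.lf 10 121 0 131))) (.t 16 
(.lf (.thr (.lf 1 129 5 125) (.lm 5 53 7 51 8 11 12) (.lf 7 124 1 129))) (.lf (.low 0)))) 
(.lf (.thr (.lf 0 131 6 124) (.lm 6 60 10 56 11 17 18) (.lf 10 121 0 131))))) (.a 647 
(.lf .inf) (.y 1083 (.z 978 (.t 16 (.a 653 (.lf .inf) (.y 1077 (.z 972 
(.lf (.thr (.lf 1 130 5 125) (.lm 5 50 7 49 8 11 6) (.lf 7 124 1 130))) (.lf .inf)) (.lf .inf))) 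
(.lf (.low 0))) (.lf .inf)) (.lf .inf))))) (.y 1071 (.z 967 (.a 673 (.y 1058 
(.lf (.thr (.lf 0 131 6 124) (.lm 6 41 10 38 11 17 17) (.pot 0))) (.z 956 
(.lf (.thr (.lf 0 131 6 124) (.lm 6 53 10 49 10 17 12) (.pot 0))) (.t 16 
(.lf (.thr (.lf 1 130 5 125) (.lm 5 46 7 45 8 11 12) (.pot 0))) (.lf (.low 0))))) 
(.lf (.thr (.lf 0 131 6 124) (.lm 6 41 10 38 11 17 24) (.pot 0)))) (.a 673 (.y 1058 (.z 978 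
(.t 16 (.lf (.thr (.lf 1 130 5 125) (.lm 5 35 7 33 8 11 12) (.pot 1))) (.lf (.low 0))) (.t 16 
(.lf (.thr (.pot 0) (.lm 6 29 7 27 9 11 12) (.pot 1))) (.lf (.low 0)))) (.z 978 (.t 16 (.a 666 
(.y 1064 (.z 972 (.lf (.thr (.lf 1 130 5 125) (.lm 5 44 7 42 8 11 6) (.pot 0))) 
(.lf (.thr (.lf 1 130 5 125) (.lm 5 41 7 39 8 11 6) (.pot 1)))) (.z 972 
(.lf (.thr (.lf 1 130 5 125) (.lm 5 47 7 45 8 11 6) (.pot 0))) (.t 8 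
(.lf (.thr (.pot 0) (.lm 4 43 5 43 6 8 7) (.pot 0))) (.y 1067 
(.lf (.thr (.lf 0 131 6 124) (.lm 6 44 8 42 8 11 5) (.pot 1))) (.a 663 (.z 975 
(.lf (.thr (.lf 0 131 6 124) (.lm 6 47 8 45 8 11 4) (.pot 1))) (.t 12 
(.lf (.thr (.pot 0) (.lm 6 45 7 44 7 9 4) (.pot 0))) (.lf (.low 0)))) 
(.lf (.thr (.lf 0 131 6 124) (.lm 6 45 8 44 8 11 5) (.pot 0)))))))) 
(.lf (.thr (.lf 1 130 5 125) (.lm 5 41 7 39 8 11 12) (.pot 0)))) (.lf (.low 0))) (.t 16 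
(.a 666 (.y 1064 (.lf (.thr (.pot 1) (.lm 6 35 7 33 9 11 9) (.pot 1))) (.z 984 (.t 8 
(.lf (.thr (.pot 0) (.lm 5 40 5 40 7 8 7) (.pot 0))) (.y 1067 
(.lf (.thr (.pot 1) (.lm 6 41 8 39 9 11 5) (.pot 1))) (.a 663 (.z 981 (.t 12 
(.lf (.thr (.pot 0) (.lm 6 44 7 42 7 9 4) (.pot 0))) (.lf (.low 0))) (.lf .inf)) (.z 981 
(.t 12 (.lf (.thr (.pot 0) (.lm 6 44 7 42 7 9 4) (.pot 0))) (.lf (.low 0))) (.t 12 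
(.lf (.thr (.pot 0) (.lm 6 42 7 41 8 9 4) (.pot 0))) (.lf (.low 0))))))) 
(.lf (.thr (.pot 1) (.lm 6 38 7 36 9 11 7) (.pot 1))))) (.y 1064 
(.lf (.thr (.pot 1) (.lm 6 35 7 33 9 11 9) (.pot 1))) (.z 984 (.t 8 
(.lf (.thr (.pot 0) (.lm 5 40 5 40 7 8 7) (.pot 0))) (.a 669 (.y 1067 
(.lf (.thr (.lf 0 131 6 124) (.lm 6 41 8 39 9 11 5) (.pot 0))) 
(.lf (.thr (.lf 0 131 6 124) (.lm 6 42 8 41 9 11 5) (.pot 1)))) 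
(.lf (.thr (.lf 0 131 6 124) (.lm 6 41 8 39 9 11 7) (.pot 0))))) 
(.lf (.thr (.pot 1) (.lm 6 38 7 36 9 11 7) (.pot 1)))))) (.lf (.low 0))))) (.y 1058 (.z 978 
(.lf (.thr (.lf 0 131 7 123) (.lm 7 36 10 32 12 17 12) (.pot 0))) (.t 16 
(.lf (.thr (.lf 1 130 6 125) (.lm 6 29 7 27 9 11 12) (.pot 0))) (.lf (.low 0)))) (.z 978 
(.lf (.thr (.lf 0 131 7 123) (.lm 7 41 10 39 12 17 12) (.pot 1))) (.t 16 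
(.lf (.thr (.lf 1 130 6 125) (.lm 6 35 7 33 9 11 13) (.pot 1))) (.lf (.low 0))))))) (.z 967 
(.lf (.thr (.lf 0 131 6 124) (.lm 6 54 10 50 11 17 24) (.lf 10 121 0 131))) (.a 673 (.y 1083 
(.z 978 (.t 16 (.a 666 (.y 1077 (.z 972 
(.lf (.thr (.lf 1 130 5 125) (.lm 5 50 7 49 8 11 6) (.lf 7 124 1 130))) (.t 8 
(.lf (.thr (.pot 0) (.lm 4 47 5 46 6 8 6) (.pot 0))) 
(.lf (.thr (.lf 0 131 6 124) (.lm 6 47 8 46 8 11 6) (.lf 8 122 0 131))))) 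
(.lf (.thr (.lf 1 130 5 125) (.lm 5 50 7 49 8 11 9) (.lf 7 124 1 130)))) 
(.lf (.thr (.lf 1 130 5 125) (.lm 5 47 7 46 8 11 12) (.lf 7 124 1 130)))) (.lf (.low 0))) 
(.t 16 (.a 666 (.z 984 (.y 1077 (.t 8 (.lf (.thr (.pot 0) (.lm 5 44 5 43 7 8 6) (.pot 0))) 
(.a 663 (.lf .inf) (.z 981 (.y 1074 (.t 12 (.lf (.thr (.pot 0) (.lm 6 46 7 44 7 9 3) (.pot 0))) 
(.lf (.low 0))) (.lf (.thr (.lf 0 131 6 124) (.lm 6 47 8 46 8 11 3) (.lf 8 122 0 131)))) 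
(.y 1074 (.t 12 (.lf (.thr (.pot 0) (.lm 6 44 7 43 8 9 3) (.pot 0))) (.lf (.low 0))) (.lf .inf))))) 
(.lf .inf)) (.lf .inf)) (.z 984 (.y 1077 (.t 8 
(.lf (.thr (.pot 0) (.lm 5 44 5 43 7 8 6) (.pot 0))) (.a 669 (.z 981 
(.lf (.thr (.lf 0 131 6 124) (.lm 6 46 8 44 8 11 5) (.lf 8 122 0 131))) (.y 1074 (.t 12 
(.lf (.thr (.pot 0) (.lm 6 44 7 43 8 9 3) (.pot 0))) (.lf (.low 0))) (.t 12 
(.lf (.thr (.pot 0) (.lm 6 46 7 44 8 9 3) (.pot 0))) (.lf (.low 0))))) 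
(.lf (.thr (.lf 0 131 6 124) (.lm 6 44 8 43 9 11 6) (.pot 1))))) (.t 8 
(.lf (.thr (.pot 0) (.lm 5 47 5 46 7 8 6) (.pot 0))) 
(.lf (.thr (.lf 0 131 6 124) (.lm 6 47 8 46 9 11 6) (.lf 8 122 0 131))))) (.y 1077 (.t 8 
(.lf (.thr (.pot 0) (.lm 5 41 5 40 7 8 6) (.pot 0))) (.a 669 (.z 987 (.y 1074 (.t 12 
(.lf (.thr (.pot 0) (.lm 6 43 7 41 8 9 3) (.pot 0))) (.lf (.low 0))) (.t 12 
(.lf (.thr (.pot 0) (.lm 6 44 7 43 8 9 3) (.pot 0))) (.lf (.low 0)))) (.y 1074 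
(.lf (.thr (.pot 1) (.lm 7 41 8 40 9 11 3) (.pot 0))) (.lf .inf))) (.z 987 (.y 1074 
(.lf (.thr (.lf 0 131 7 124) (.lm 7 43 8 41 9 11 3) (.pot 1))) (.t 12 
(.lf (.thr (.pot 0) (.lm 6 44 7 43 8 9 3) (.pot 0))) (.lf (.low 0)))) (.y 1074 
(.lf (.thr (.pot 1) (.lm 7 41 8 40 9 11 3) (.pot 1))) (.t 12 
(.lf (.thr (.pot 0) (.lm 6 43 7 41 8 9 3) (.pot 0))) (.lf (.low 0))))))) (.t 8 
(.lf (.thr (.pot 0) (.lm 5 44 5 43 7 8 6) (.pot 0))) (.a 669 (.lf .inf) (.z 987 (.y 1080 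
(.t 12 (.lf (.thr (.pot 0) (.lm 6 46 7 44 8 9 3) (.pot 0))) (.lf (.low 0))) 
(.lf (.thr (.lf 0 131 7 124) (.lm 7 47 8 46 9 11 3) (.lf 8 122 0 131)))) (.y 1080 (.t 12 
(.lf (.thr (.pot 0) (.lm 6 44 7 43 8 9 3) (.pot 0))) (.lf (.low 0))) (.lf .inf)))))))) 
(.lf (.low 0)))) (.z 978 (.t 16 
(.lf (.thr (.lf 1 130 5 125) (.lm 5 53 7 52 8 11 12) (.lf 7 124 1 130))) (.lf (.low 0))) 
(.t 16 (.a 666 (.lf .inf) (.y 1089 (.z 984 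
(.lf (.thr (.lf 1 130 6 125) (.lm 6 50 7 49 9 11 6) (.lf 7 124 1 130))) (.lf .inf)) (.lf .inf))) 
(.lf (.low 0))))) (.y 1083 (.z 978 (.t 16 
(.lf (.thr (.lf 1 130 5 125) (.lm 5 47 7 46 8 11 12) (.pot 0))) (.lf (.low 0))) (.t 16 (.a 679 
(.z 984 (.lf (.thr (.lf 1 130 6 125) (.lm 6 44 7 43 9 11 9) (.pot 1))) (.y 1077 (.t 8 
(.lf (.thr (.pot 0) (.lm 5 41 5 40 7 8 6) (.pot 0))) 
(.lf (.thr (.lf 0 131 7 124) (.lm 7 41 8 40 9 11 6) (.pot 1)))) (.t 8 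
(.lf (.thr (.pot 0) (.lm 5 44 5 43 7 8 6) (.pot 0))) (.a 676 (.z 987 
(.lf (.thr (.lf 0 131 7 124) (.lm 7 46 8 44 9 11 5) (.lf 8 122 0 131))) (.y 1080 (.t 12 
(.lf (.thr (.pot 0) (.lm 6 44 7 43 8 9 3) (.pot 0))) (.lf (.low 0))) (.t 12 
(.lf (.thr (.pot 0) (.lm 6 46 7 44 8 9 3) (.pot 0))) (.lf (.low 0))))) 
(.lf (.thr (.lf 0 131 7 124) (.lm 7 44 8 43 9 11 6) (.pot 0))))))) 
(.lf (.thr (.lf 1 130 6 125) (.lm 6 41 7 40 9 11 12) (.pot 0)))) (.lf (.low 0)))) (.z 978 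
(.lf (.thr (.lf 0 131 7 123) (.lm 7 54 10 51 12 17 12) (.lf 10 121 0 131))) (.t 16 (.a 679 
(.y 1089 (.z 984 (.lf (.thr (.lf 1 130 6 125) (.lm 6 50 7 49 9 11 6) (.lf 7 124 1 130))) (.t 8 
(.lf (.thr (.pot 0) (.lm 5 47 5 46 7 8 6) (.pot 0))) 
(.lf (.thr (.lf 0 131 7 124) (.lm 7 47 8 46 9 11 6) (.lf 8 122 0 131))))) 
(.lf (.thr (.lf 1 130 6 125) (.lm 6 50 7 49 9 11 10) (.lf 7 124 1 130)))) 
(.lf (.thr (.lf 1 130 6 125) (.lm 6 47 7 46 9 11 13) (.lf 7 124 1 130)))) (.lf (.low 0))))))))) 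
(.a 660 (.lf .inf) (.y 1121 (.z 967 
(.lf (.thr (.lf 0 131 6 124) (.lm 6 66 10 63 11 17 24) (.lf 10 121 0 131))) (.a 673 (.y 1108 
(.z 978 (.lf (.thr (.lf 0 131 7 123) (.lm 7 60 10 58 12 17 12) (.lf 10 121 0 131))) (.lf .inf)) 
(.lf .inf)) (.y 1108 (.z 978 
(.lf (.thr (.lf 0 131 7 123) (.lm 7 60 10 58 12 17 12) (.lf 10 121 0 131))) (.t 16 
(.lf (.thr (.lf 1 130 6 125) (.lm 6 53 7 53 9 11 12) (.lf 7 124 1 130))) (.lf (.low 0)))) 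
(.lf (.thr (.lf 0 131 7 123) (.lm 7 60 9 58 13 17 18) (.lf 9 121 0 131)))))) 
(.lf (.thr (.lf 0 131 7 124) (.lm 7 66 9 65 13 16 36) (.lf 9 112 0 121))))))))

theorem h2 : chk (leafT PP TD0 0 2) c2 0 32 585 686 945 990 945 1147 = true := by
  decide +kernel

def c3 : Tree :=
  (.y 1046 (.a 736 (.y 995 (.lf .inf) (.y 1020 (.lf .inf) 
(.lf (.thr (.lf 0 108 7 101) (.lm 7 18 9 12 13 17 36) (.pot 1))))) (.lf .inf)) (.a 736 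
(.y 1096 (.a 711 (.y 1071 (.z 967 
(.lf (.thr (.lf 0 120 6 114) (.lm 6 41 10 38 11 17 24) (.pot 0))) 
(.lf (.thr (.lf 0 131 7 123) (.lm 7 30 10 26 13 17 24) (.pot 1)))) (.z 967 
(.lf (.thr (.lf 0 120 6 114) (.lm 6 54 10 50 11 17 24) (.pot 0))) (.a 698 (.y 1083 (.z 978 
(.lf (.thr (.lf 0 131 7 123) (.lm 7 48 10 45 12 17 12) (.pot 0))) (.t 16 
(.lf (.thr (.lf 0 130 6 125) (.lm 6 41 7 40 9 11 12) (.pot 0))) (.lf (.low 0)))) (.z 978 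
(.lf (.thr (.lf 0 131 7 123) (.lm 7 54 10 51 12 17 12) (.lf 10 121 0 131))) (.t 16 
(.lf (.thr (.lf 0 130 6 125) (.lm 6 47 7 46 9 11 13) (.pot 0))) (.lf (.low 0))))) (.y 1083 
(.lf (.thr (.lf 0 131 7 123) (.lm 7 42 10 39 13 17 18) (.pot 0))) 
(.lf (.thr (.lf 0 131 7 123) (.lm 7 48 10 45 13 17 18) (.pot 0))))))) (.y 1071 
(.lf (.thr (.lf 0 108 7 101) (.lm 7 30 10 26 13 17 35) (.pot 0))) 
(.lf (.thr (.lf 0 108 7 101) (.lm 7 42 10 39 13 17 35) (.pot 0))))) (.y 1121 (.a 711 (.z 967 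
(.lf (.thr (.lf 0 120 6 114) (.lm 6 66 10 63 11 17 24) (.lf 10 121 0 131))) (.a 698 (.y 1108 
(.z 978 (.lf (.thr (.lf 0 131 7 123) (.lm 7 60 10 58 12 17 12) (.lf 10 121 0 131))) (.t 16 
(.lf (.thr (.lf 0 130 6 125) (.lm 6 53 7 53 9 11 12) (.lf 7 124 0 130))) (.lf (.low 0)))) 
(.lf (.thr (.lf 0 131 7 123) (.lm 7 60 9 58 13 17 18) (.lf 9 121 0 131)))) 
(.lf (.thr (.lf 0 131 7 123) (.lm 7 54 10 52 13 17 24) (.lf 10 121 0 131))))) (.z 967 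
(.lf (.thr (.lf 0 107 6 102) (.lm 6 66 10 63 11 17 24) (.pot 0))) 
(.lf (.thr (.lf 0 119 7 112) (.lm 7 54 10 52 13 17 24) (.lf 10 121 0 131))))) 
(.lf (.thr (.lf 0 108 7 101) (.lm 7 66 9 65 13 16 36) (.lf 9 122 0 131))))) (.y 1096 
(.lf (.thr (.lf 0 82 7 76) (.lm 7 30 10 26 13 17 48) (.pot 0))) (.a 761 (.y 1121 
(.lf (.thr (.lf 0 95 7 89) (.lm 7 54 10 52 13 17 35) (.pot 0))) 
(.lf (.thr (.lf 0 95 7 89) (.lm 7 66 9 65 13 16 36) (.lf 9 122 0 131)))) 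
(.lf (.thr (.lm 0 82 7 76 5 13 36) (.lm 7 54 9 52 13 17 48) (.pot 0)))))))

theorem h3 : chk (leafT PP TD0 0 2) c3 0 32 686 787 945 990 945 1147 = true := by
  decide +kernel

def c4 : Tree :=
  (.y 1248 (.a 686 (.a 635 (.lf .inf) (.y 1197 (.a 660 (.lf .inf) 
(.lf (.thr (.lf 0 131 7 124) (.lf 7 79 8 78) (.lf 8 88 0 95)))) (.lf .inf))) (.a 736 
(.lf (.thr (.lf 0 108 7 101) (.lf 7 78 7 79) (.lf 7 76 0 82))) (.y 1197 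
(.lf (.thr (.lf 0 82 7 76) (.lf 7 79 8 78) (.lf 8 123 0 131))) 
(.lf (.thr (.lf 0 82 7 76) (.lf 7 103 5 104) (.lf 5 101 0 107)))))) (.a 686 (.lf .inf) 
(.y 1299 (.lf (.thr (.lf 0 82 7 76) (.lf 7 124 3 128) (.lf 3 52 0 55))) (.lf .inf))))

theorem h4 : chk (leafT PP TD0 0 2) c4 0 32 585 787 945 990 1147 1350 = true := by
  decide +kernel

def c5 : Tree :=
  (.y 1147 (.a 888 (.y 1046 (.lf .inf) (.a 837 (.y 1096 (.lf .inf) 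
(.lf (.thr (.lm 0 57 7 51 5 13 48) (.lm 7 54 9 52 13 17 48) (.pot 0)))) (.lf .inf))) (.lf .inf)) 
(.a 888 (.y 1248 (.a 837 (.y 1197 (.a 812 
(.lf (.thr (.lm 0 69 7 64 5 13 35) (.lf 7 79 8 78) (.pot 0))) 
(.lf (.thr (.lm 0 57 7 51 5 13 35) (.lf 7 79 8 78) (.pot 0)))) (.y 1222 (.a 812 
(.lf (.thr (.lm 0 69 7 64 5 13 35) (.lf 7 103 6 104) (.lf 6 124 0 131))) (.z 967 
(.lf (.thr (.lm 0 57 6 51 5 11 24) (.lf 6 115 6 115) (.pot 0))) 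
(.lf (.thr (.lm 0 68 7 62 5 13 24) (.lf 7 103 6 104) (.pot 0))))) 
(.lf (.thr (.lm 0 57 7 51 5 13 48) (.lf 7 115 5 117) (.lf 5 126 0 131))))) (.y 1197 
(.lf (.thr (.lm 1 32 7 25 5 13 48) (.lf 7 79 8 78) (.pot 0))) (.a 862 (.y 1222 
(.lf (.thr (.lm 1 44 7 39 5 13 35) (.lf 7 103 6 104) (.pot 0))) (.z 967 
(.lf (.thr (.lm 1 44 6 39 5 11 24) (.lf 6 124 5 126) (.pot 0))) 
(.lf (.thr (.lm 1 55 7 50 5 13 24) (.lf 7 115 5 117) (.pot 0))))) (.y 1222 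
(.lf (.thr (.lm 2 32 7 25 5 13 36) (.lf 7 103 6 104) (.pot 0))) (.z 967 
(.lf (.thr (.lm 2 31 6 26 5 11 24) (.lf 6 124 5 126) (.pot 0))) 
(.lf (.thr (.lm 2 42 7 37 5 13 25) (.lf 7 115 5 117) (.pot 0)))))))) (.y 1299 (.a 837 
(.lf (.thr (.lm 0 57 7 51 5 13 48) (.lf 7 124 3 128) (.lf 3 103 0 105))) (.a 862 (.y 1273 
(.z 967 (.lf (.thr (.lm 1 44 6 39 5 11 24) (.lf 6 124 3 127) (.lf 3 127 1 130))) 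
(.lf (.thr (.lm 1 55 7 50 5 13 24) (.lf 7 123 3 127) (.lf 3 127 1 130)))) 
(.lf (.thr (.lm 1 44 7 39 5 13 35) (.lf 7 124 2 128) (.lf 2 128 1 130)))) (.y 1273 (.z 967 
(.a 875 (.lf (.thr (.lm 2 37 6 33 5 11 18) (.pot 0) (.pot 0))) 
(.lf (.thr (.lm 2 31 6 26 5 11 18) (.pot 0) (.pot 0)))) (.a 875 (.y 1260 
(.lf (.thr (.lm 2 49 7 43 5 13 18) (.lf 7 123 4 127) (.pot 0))) 
(.lf (.thr (.lm 2 49 7 43 5 13 18) (.lf 7 123 3 127) (.lf 3 127 2 129)))) 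
(.lf (.thr (.lm 2 42 7 37 5 13 18) (.lf 7 123 3 127) (.pot 0))))) (.z 967 (.a 875 
(.lf (.thr (.lm 2 37 6 33 5 11 18) (.pot 0) (.pot 0))) 
(.lf (.thr (.lm 2 31 6 26 5 11 18) (.pot 0) (.pot 0)))) (.a 875 
(.lf (.thr (.lm 2 49 7 43 5 13 18) (.lf 7 123 2 128) (.lf 2 128 2 129))) (.y 1286 (.z 978 
(.lf (.thr (.lm 2 42 7 37 5 12 12) (.pot 0) (.pot 0))) 
(.lf (.thr (.lm 2 47 8 43 5 13 13) (.lf 8 123 2 128) (.lf 2 128 2 128)))) 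
(.lf (.thr (.lm 2 42 7 37 5 13 18) (.lf 7 123 2 129) (.lf 2 129 2 128))))))))) (.a 837 
(.lf .inf) (.a 862 (.lf .inf) (.y 1324 (.z 967 (.lf .inf) 
(.lf (.thr (.lm 2 42 7 37 5 13 25) (.pot 0) (.lf 1 130 2 128)))) (.lf .inf)))))) (.y 1248 
(.a 939 (.y 1197 (.lf .inf) (.a 913 (.y 1222 (.lf .inf) 
(.lf (.thr (.lm 3 20 7 12 5 13 35) (.lf 7 115 5 117) (.pot 1)))) (.lf .inf))) (.lf .inf)) 
(.a 939 (.y 1299 (.a 913 (.y 1273 (.z 967 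
(.lf (.thr (.lm 3 19 6 13 5 11 24) (.pot 0) (.pot 1))) 
(.lf (.thr (.lm 3 30 7 24 5 13 24) (.lf 7 123 3 127) (.pot 1)))) (.z 967 
(.lf (.thr (.lm 3 19 6 13 5 11 24) (.pot 1) (.pot 1))) (.y 1286 (.a 900 (.z 978 
(.lf (.thr (.lm 3 36 7 31 5 12 12) (.pot 0) (.pot 0))) 
(.lf (.thr (.lm 3 41 8 37 5 13 12) (.lf 8 123 2 128) (.pot 0)))) (.z 978 
(.lf (.thr (.lm 4 29 7 25 5 12 12) (.pot 0) (.pot 0))) 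
(.lf (.thr (.lm 4 35 8 30 5 13 13) (.lf 8 123 2 128) (.pot 0))))) (.a 900 (.z 978 
(.lf (.thr (.lm 3 36 7 31 5 12 12) (.pot 0) (.pot 0))) (.t 16 
(.lf (.thr (.lm 3 40 6 38 5 9 12) (.pot 0) (.pot 0))) 
(.lf (.thr (.lm 3 43 10 35 4 13 12) (.pot 1) (.pot 1))))) (.z 978 
(.lf (.thr (.lm 4 29 7 25 5 12 12) (.pot 0) (.pot 0))) 
(.lf (.thr (.lm 4 35 8 30 5 13 13) (.pot 0) (.pot 1)))))))) (.y 1273 (.z 967 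
(.lf (.thr (.lm 5 6 6 0 8 11 24) (.pot 0) (.pot 1))) (.a 926 
(.lf (.thr (.lm 4 23 7 18 7 13 18) (.lf 7 123 3 127) (.pot 0))) (.lf .inf))) (.z 967 
(.lf (.thr (.lm 5 6 6 0 8 11 24) (.pot 1) (.pot 1))) (.a 926 (.y 1286 
(.lf (.thr (.lm 4 23 7 18 7 13 18) (.pot 0) (.pot 1))) (.z 978 
(.lf (.thr (.lm 4 23 7 18 7 12 12) (.pot 0) (.pot 0))) 
(.lf (.thr (.lm 4 28 8 24 7 13 13) (.pot 0) (.pot 0))))) 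
(.lf (.thr (.lm 5 17 7 11 8 13 18) (.pot 0) (.pot 1))))))) (.a 913 (.y 1324 (.z 967 
(.lf (.thr (.lm 3 19 6 13 5 11 24) (.pot 1) (.pot 0))) (.a 900 (.y 1311 (.z 978 
(.lf (.thr (.lm 3 36 7 31 5 12 12) (.pot 0) (.pot 0))) 
(.lf (.thr (.lm 3 41 8 37 5 13 12) (.pot 0) (.lf 1 129 3 127)))) (.lf .inf)) (.y 1311 (.z 978 
(.lf (.thr (.lm 4 29 7 25 5 12 12) (.pot 0) (.pot 0))) 
(.lf (.thr (.lm 4 35 8 30 5 13 13) (.pot 1) (.pot 0)))) 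
(.lf (.thr (.lm 4 29 7 25 5 13 18) (.pot 0) (.lf 0 130 4 127)))))) (.lf .inf)) (.y 1324 
(.z 967 (.lf (.thr (.lm 5 6 6 0 8 11 24) (.pot 1) (.pot 1))) (.a 926 (.y 1311 (.z 978 
(.lf (.thr (.lm 4 23 7 18 7 12 12) (.pot 0) (.pot 0))) 
(.lf (.thr (.lm 4 28 8 24 7 13 13) (.pot 0) (.pot 0)))) (.z 978 
(.lf (.thr (.lm 4 23 7 18 7 12 12) (.pot 0) (.pot 0))) 
(.lf (.thr (.lm 4 28 8 24 7 13 13) (.pot 0) (.pot 0))))) 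
(.lf (.thr (.lm 5 17 7 11 8 13 18) (.pot 1) (.pot 1))))) (.z 967 (.lf .inf) (.a 926 (.lf .inf) 
(.lf (.thr (.lm 5 17 7 11 8 13 18) (.pot 1) (.pot 1)))))))) (.y 1299 (.a 964 (.y 1273 
(.lf .inf) (.z 967 (.lf (.thr (.lm 6 0 6 0 11 11 14) (.pot 1) (.pot 1))) (.y 1286 (.lf .inf) 
(.a 951 (.lf (.thr (.lm 6 11 7 5 9 13 18) (.pot 0) (.pot 1))) (.lf .inf))))) (.lf .inf)) 
(.a 964 (.y 1324 (.z 967 (.lf (.thr (.lm 6 0 6 0 11 11 14) (.pot 1) (.pot 1))) (.a 951 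
(.lf (.thr (.lm 6 11 7 5 9 13 18) (.pot 1) (.pot 1))) 
(.lf (.thr (.lm 6 3 7 0 11 13 18) (.pot 1) (.pot 1))))) (.z 967 
(.lf (.thr (.lm 6 0 6 0 11 11 14) (.pot 1) (.pot 1))) (.y 1337 (.a 951 
(.lf (.thr (.lm 6 11 7 5 9 13 18) (.pot 1) (.pot 1))) 
(.lf (.thr (.lm 6 3 7 0 11 13 18) (.pot 1) (.pot 1)))) (.a 951 (.lf .inf) 
(.lf (.thr (.lm 6 3 7 0 11 13 18) (.pot 1) (.pot 1))))))) 
(.lf (.thr (.lm 7 0 7 0 13 13 13) (.pot 1) (.pot 1)))))))))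

theorem h5 : chk (leafT PP TD0 0 2) c5 0 32 787 990 945 990 945 1350 = true := by
  decide +kernel

def c6 : Tree :=
  (.a 680 (.y 1040 (.a 655 (.y 1015 (.lf (.thr (.pot 1) (.lm 9 0 8 0 16 15 13) (.pot 1))) 
(.z 1012 (.a 642 (.lf .inf) (.y 1027 (.z 1001 (.t 16 
(.lf (.thr (.pot 1) (.lm 6 8 6 6 9 10 12) (.pot 0))) (.lf (.low 0))) 
(.lf (.thr (.pot 1) (.lm 8 3 9 0 15 16 12) (.pot 1)))) (.z 1001 (.t 16 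
(.lf (.thr (.pot 0) (.lm 6 14 6 12 9 10 12) (.pot 0))) (.lf (.low 0))) (.t 16 
(.lf (.thr (.pot 1) (.lm 6 8 6 7 10 10 12) (.pot 0))) (.lf (.low 0)))))) (.a 642 (.lf .inf) 
(.y 1027 (.lf (.thr (.pot 1) (.lm 9 0 9 0 16 16 8) (.pot 1))) (.lf .inf))))) (.y 1015 
(.lf (.thr (.pot 1) (.lm 9 0 8 0 16 15 13) (.pot 1))) (.z 1012 (.a 667 (.y 1027 (.z 1001 
(.t 16 (.lf (.thr (.pot 1) (.lm 6 8 6 6 9 10 12) (.pot 0))) (.lf (.low 0))) 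
(.lf (.thr (.pot 1) (.lm 8 3 9 0 15 16 12) (.pot 1)))) (.z 1001 (.t 16 
(.lf (.thr (.pot 0) (.lm 6 14 6 12 9 10 12) (.pot 0))) (.lf (.low 0))) (.t 16 
(.lf (.thr (.pot 1) (.lm 6 8 6 7 10 10 12) (.pot 0))) (.lf (.low 0))))) (.y 1027 (.z 1001 
(.t 16 (.lf (.thr (.pot 1) (.lm 6 8 6 6 9 10 12) (.pot 0))) (.lf (.low 0))) 
(.lf (.thr (.pot 1) (.lm 8 3 9 0 15 16 12) (.pot 1)))) (.z 1001 (.t 16 
(.lf (.thr (.pot 0) (.lm 6 14 6 12 9 10 12) (.pot 0))) (.lf (.low 0))) (.t 16 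
(.lf (.thr (.pot 1) (.lm 6 8 6 7 10 10 12) (.pot 0))) (.lf (.low 0)))))) (.a 667 (.y 1027 
(.lf (.thr (.pot 1) (.lm 9 0 9 0 16 16 8) (.pot 1))) (.z 1023 
(.lf (.thr (.pot 1) (.lm 9 4 9 0 16 16 12) (.pot 1))) 
(.lf (.thr (.pot 1) (.lm 9 0 9 0 16 16 9) (.pot 1))))) (.y 1027 
(.lf (.thr (.pot 1) (.lm 9 0 9 0 16 16 8) (.pot 1))) (.z 1023 
(.lf (.thr (.pot 1) (.lm 9 4 9 0 16 16 12) (.pot 1))) 
(.lf (.thr (.pot 1) (.lm 9 0 9 0 16 16 9) (.pot 1))))))))) (.y 1065 (.a 655 (.z 1012 (.a 642 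
(.lf .inf) (.y 1052 (.z 1001 (.t 16 (.lf (.thr (.pot 0) (.lm 6 20 6 19 9 11 12) (.pot 0))) 
(.lf (.low 0))) (.lf .inf)) (.lf .inf))) (.lf .inf)) (.z 1012 (.a 667 (.y 1052 (.z 1001 (.t 16 
(.lf (.thr (.pot 0) (.lm 6 20 6 19 9 11 12) (.pot 0))) (.lf (.low 0))) (.t 16 
(.lf (.thr (.pot 0) (.lm 6 15 6 13 10 11 12) (.pot 0))) (.lf (.low 0)))) (.z 1001 (.t 16 
(.lf (.thr (.pot 1) (.lm 6 26 7 25 9 11 12) (.pot 0))) (.lf (.low 0))) (.t 16 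
(.lf (.thr (.pot 0) (.lm 6 21 7 19 10 11 12) (.pot 0))) (.lf (.low 0))))) (.y 1052 (.z 1001 
(.t 16 (.lf (.thr (.pot 0) (.lm 6 20 6 19 9 11 12) (.pot 0))) (.lf (.low 0))) (.t 16 
(.lf (.thr (.pot 0) (.lm 6 15 6 13 10 11 12) (.pot 0))) (.lf (.low 0)))) (.z 1001 (.t 16 
(.lf (.thr (.pot 0) (.lm 6 26 7 25 9 11 12) (.pot 1))) (.lf (.low 0))) (.t 16 
(.lf (.thr (.pot 0) (.lm 6 21 7 19 10 11 12) (.pot 0))) (.lf (.low 0)))))) (.a 667 (.y 1052 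
(.z 1023 (.t 16 (.lf (.thr (.pot 1) (.lm 6 9 6 8 10 11 12) (.pot 0))) (.lf (.low 0))) 
(.lf .inf)) (.lf .inf)) (.y 1052 (.z 1023 (.t 16 
(.lf (.thr (.pot 1) (.lm 6 9 6 8 10 11 12) (.pot 0))) (.lf (.low 0))) (.t 16 
(.lf (.thr (.pot 1) (.lm 6 4 6 1 10 11 12) (.pot 1))) (.lf (.low 0)))) (.z 1023 (.t 16 
(.lf (.thr (.pot 0) (.lm 6 15 7 14 10 11 12) (.pot 0))) (.lf (.low 0))) (.t 16 
(.lf (.thr (.pot 1) (.lm 6 9 7 8 10 11 13) (.pot 0))) (.lf (.low 0)))))))) (.a 655 (.lf .inf) 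
(.z 1012 (.y 1078 (.a 667 (.lf .inf) (.z 1001 (.t 16 (.a 673 (.y 1071 
(.lf (.thr (.pot 1) (.lm 6 32 7 32 9 11 9) (.pot 1))) (.z 995 (.t 8 
(.lf (.thr (.pot 0) (.lm 5 38 5 38 7 8 6) (.pot 0))) (.y 1074 
(.lf (.thr (.pot 1) (.lm 7 39 8 37 9 11 4) (.pot 0))) 
(.lf (.thr (.pot 1) (.lm 7 40 8 39 9 11 5) (.pot 1))))) 
(.lf (.thr (.pot 1) (.lm 6 35 7 35 9 11 7) (.pot 0))))) (.y 1071 
(.lf (.thr (.pot 0) (.lm 6 32 7 32 9 11 9) (.pot 1))) (.z 995 (.t 8 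
(.lf (.thr (.pot 0) (.lm 5 38 5 38 7 8 6) (.pot 0))) (.a 676 (.y 1074 
(.lf (.thr (.pot 1) (.lm 7 39 8 37 9 11 4) (.pot 0))) 
(.lf (.thr (.pot 1) (.lm 7 40 8 39 9 11 5) (.pot 1)))) (.y 1074 
(.lf (.thr (.pot 1) (.lm 7 39 8 37 9 11 4) (.pot 0))) 
(.lf (.thr (.pot 1) (.lm 7 40 8 39 9 11 5) (.pot 1)))))) 
(.lf (.thr (.pot 1) (.lm 6 35 7 35 9 11 7) (.pot 1)))))) (.lf (.low 0))) (.t 16 
(.lf (.thr (.pot 1) (.lm 6 27 7 26 10 11 12) (.pot 1))) (.lf (.low 0))))) (.a 667 (.lf .inf) 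
(.z 1001 (.t 16 (.a 673 (.lf .inf) (.y 1084 (.z 995 (.t 8 
(.lf (.thr (.pot 0) (.lm 5 42 5 41 7 8 6) (.pot 0))) (.a 676 (.y 1081 (.z 992 (.t 12 
(.lf (.thr (.pot 0) (.lm 6 44 7 42 8 9 3) (.pot 0))) (.lf (.low 0))) (.t 12 
(.lf (.thr (.pot 0) (.lm 6 42 7 41 8 9 3) (.pot 0))) (.lf (.low 0)))) (.z 992 (.t 12 
(.lf (.thr (.pot 0) (.lm 6 45 7 44 8 9 3) (.pot 0))) (.lf (.low 0))) (.lf .inf))) (.y 1081 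
(.z 992 (.lf (.thr (.lf 0 131 7 124) (.lm 7 44 8 42 9 11 3) (.pot 0))) (.t 12 
(.lf (.thr (.pot 0) (.lm 6 42 7 41 8 9 3) (.pot 0))) (.lf (.low 0)))) (.z 992 (.t 12 
(.lf (.thr (.pot 0) (.lm 6 45 7 44 8 9 3) (.pot 0))) (.lf (.low 0))) (.t 12 
(.lf (.thr (.pot 0) (.lm 6 44 7 42 8 9 3) (.pot 0))) (.lf (.low 0))))))) (.t 8 
(.lf (.thr (.pot 0) (.lm 5 39 5 38 7 8 6) (.pot 0))) (.a 676 (.lf .inf) (.z 998 (.y 1081 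
(.lf (.thr (.pot 1) (.lm 7 41 8 39 9 11 3) (.pot 1))) (.t 12 
(.lf (.thr (.pot 0) (.lm 6 42 7 41 8 9 3) (.pot 0))) (.lf (.low 0)))) 
(.lf (.thr (.pot 1) (.lm 7 39 8 38 9 11 5) (.pot 1))))))) (.z 995 (.t 8 
(.lf (.thr (.pot 0) (.lm 5 45 5 44 7 8 6) (.pot 0))) (.a 676 (.lf .inf) (.y 1087 (.z 992 
(.lf (.thr (.lf 0 131 7 124) (.lm 7 47 8 45 9 11 3) (.lf 8 122 0 131))) (.t 12 
(.lf (.thr (.pot 0) (.lm 6 45 7 44 8 9 3) (.pot 0))) (.lf (.low 0)))) 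
(.lf (.thr (.lf 0 131 7 124) (.lm 7 47 8 45 9 11 5) (.lf 8 122 0 131)))))) (.t 8 
(.lf (.thr (.pot 0) (.lm 5 42 5 41 7 8 7) (.pot 0))) (.a 676 (.lf .inf) (.y 1087 (.z 998 
(.t 12 (.lf (.thr (.pot 0) (.lm 6 44 7 42 8 9 3) (.pot 0))) (.lf (.low 0))) (.lf .inf)) 
(.lf .inf))))))) (.lf (.low 0))) (.t 16 (.a 673 (.lf .inf) (.y 1084 (.z 1006 
(.lf (.thr (.pot 1) (.lm 6 36 7 36 9 11 6) (.pot 1))) (.lf .inf)) (.lf .inf))) (.lf (.low 0)))))) 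
(.y 1078 (.a 667 (.lf .inf) (.z 1023 (.t 16 
(.lf (.thr (.pot 1) (.lm 6 21 7 21 10 11 12) (.pot 0))) (.lf (.low 0))) (.lf .inf))) (.lf .inf)))))) 
(.y 1040 (.a 705 (.y 1015 (.lf .inf) (.z 1012 (.a 692 (.y 1027 (.lf .inf) (.z 1001 
(.lf (.thr (.lf 0 131 8 123) (.lm 8 15 9 11 14 16 12) (.pot 1))) (.t 16 
(.lf (.thr (.pot 0) (.lm 6 8 6 7 10 10 12) (.pot 1))) (.lf (.low 0))))) (.lf .inf)) (.a 692 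
(.y 1027 (.lf .inf) (.z 1023 (.lf (.thr (.pot 1) (.lm 9 4 9 0 16 16 12) (.pot 1))) 
(.lf (.thr (.pot 1) (.lm 9 0 9 0 16 16 9) (.pot 1))))) (.lf .inf)))) (.lf .inf)) (.a 705 
(.y 1065 (.z 1012 (.a 692 (.y 1052 (.z 1001 (.t 16 
(.lf (.thr (.pot 0) (.lm 6 20 6 19 9 11 12) (.pot 0))) (.lf (.low 0))) (.t 16 
(.lf (.thr (.pot 0) (.lm 6 15 6 13 10 11 12) (.pot 0))) (.lf (.low 0)))) (.z 1001 (.t 16 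
(.lf (.thr (.pot 0) (.lm 6 26 7 25 9 11 12) (.pot 1))) (.lf (.low 0))) (.t 16 
(.lf (.thr (.pot 0) (.lm 6 21 7 19 10 11 12) (.pot 0))) (.lf (.low 0))))) (.y 1052 (.z 1001 
(.lf (.thr (.lf 0 131 8 123) (.lm 8 21 9 18 14 17 12) (.pot 0))) (.t 16 
(.lf (.thr (.pot 0) (.lm 6 15 6 13 10 11 12) (.pot 0))) (.lf (.low 0)))) (.z 1001 
(.lf (.thr (.lf 0 131 8 123) (.lm 8 27 10 24 14 17 12) (.pot 0))) (.t 16 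
(.lf (.thr (.pot 0) (.lm 6 21 7 19 10 11 12) (.pot 0))) (.lf (.low 0)))))) (.a 692 (.y 1052 
(.z 1023 (.t 16 (.lf (.thr (.pot 1) (.lm 6 9 6 8 10 11 12) (.pot 0))) (.lf (.low 0))) (.t 16 
(.lf (.thr (.pot 0) (.lm 6 4 6 1 10 11 12) (.pot 1))) (.lf (.low 0)))) (.z 1023 (.t 16 
(.lf (.thr (.pot 0) (.lm 6 15 7 14 10 11 12) (.pot 0))) (.lf (.low 0))) (.t 16 
(.lf (.thr (.pot 1) (.lm 6 9 7 8 10 11 13) (.pot 0))) (.lf (.low 0))))) (.y 1052 (.z 1023 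
(.t 16 (.lf (.thr (.pot 0) (.lm 6 9 6 8 10 11 12) (.pot 1))) (.lf (.low 0))) (.t 16 
(.lf (.thr (.pot 0) (.lm 6 4 6 1 10 11 12) (.pot 1))) (.lf (.low 0)))) (.z 1023 (.t 16 
(.lf (.thr (.pot 0) (.lm 6 15 7 14 10 11 12) (.pot 0))) (.lf (.low 0))) (.t 16 
(.lf (.thr (.pot 1) (.lm 6 9 7 8 10 11 13) (.pot 0))) (.lf (.low 0))))))) (.z 1012 (.y 1078 
(.a 692 (.z 1001 (.t 16 (.y 1071 (.lf (.thr (.pot 0) (.lm 6 32 7 32 9 11 9) (.pot 1))) (.a 686 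
(.z 995 (.lf (.thr (.lf 1 130 6 125) (.lm 6 38 7 38 9 11 6) (.pot 0))) 
(.lf (.thr (.pot 0) (.lm 6 35 7 35 9 11 7) (.pot 1)))) 
(.lf (.thr (.lf 0 130 6 125) (.lm 6 35 7 35 9 11 9) (.pot 0))))) (.lf (.low 0))) (.t 16 
(.lf (.thr (.pot 1) (.lm 6 27 7 26 10 11 12) (.pot 1))) (.lf (.low 0)))) (.z 1001 (.t 16 
(.lf (.thr (.lf 0 130 6 125) (.lm 6 32 7 32 9 11 12) (.pot 0))) (.lf (.low 0))) (.t 16 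
(.lf (.thr (.pot 0) (.lm 6 27 7 26 10 11 12) (.pot 1))) (.lf (.low 0))))) (.a 692 (.z 1001 
(.t 16 (.y 1084 (.a 686 (.z 995 (.lf (.thr (.lf 1 130 6 125) (.lm 6 42 7 41 9 11 6) (.pot 1))) 
(.t 8 (.lf (.thr (.pot 0) (.lm 5 39 5 38 7 8 6) (.pot 0))) (.a 683 (.z 998 (.y 1081 
(.lf (.thr (.pot 1) (.lm 7 41 8 39 9 11 3) (.pot 1))) (.t 12 
(.lf (.thr (.pot 0) (.lm 6 42 7 41 8 9 3) (.pot 0))) (.lf (.low 0)))) 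
(.lf (.thr (.pot 1) (.lm 7 39 8 38 9 11 5) (.pot 1)))) 
(.lf (.thr (.lf 0 131 7 124) (.lm 7 39 8 38 9 11 6) (.pot 1)))))) 
(.lf (.thr (.lf 0 130 6 125) (.lm 6 39 7 38 9 11 9) (.pot 0)))) (.a 686 (.z 995 (.t 8 
(.lf (.thr (.pot 0) (.lm 5 45 5 44 7 8 6) (.pot 0))) (.y 1087 
(.lf (.thr (.lf 0 131 7 124) (.lm 7 45 8 44 9 11 4) (.pot 1))) 
(.lf (.thr (.lf 0 131 7 124) (.lm 7 47 8 45 9 11 5) (.lf 8 122 0 131))))) (.t 8 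
(.lf (.thr (.pot 0) (.lm 5 42 5 41 7 8 7) (.pot 0))) (.y 1087 (.a 683 (.z 998 (.t 12 
(.lf (.thr (.pot 0) (.lm 6 44 7 42 8 9 3) (.pot 0))) (.lf (.low 0))) (.t 12 
(.lf (.thr (.pot 0) (.lm 6 42 7 41 8 9 3) (.pot 0))) (.lf (.low 0)))) (.z 998 
(.lf (.thr (.lf 0 131 7 124) (.lm 7 44 8 42 9 11 3) (.pot 0))) (.t 12 
(.lf (.thr (.pot 0) (.lm 6 42 7 41 8 9 3) (.pot 0))) (.lf (.low 0))))) (.a 683 (.z 998 (.t 12 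
(.lf (.thr (.pot 1) (.lm 6 45 7 44 8 9 4) (.pot 0))) (.lf (.low 0))) (.t 12 
(.lf (.thr (.pot 0) (.lm 6 43 7 43 8 9 4) (.pot 0))) (.lf (.low 0)))) (.z 998 (.t 12 
(.lf (.thr (.lf 0 131 6 124) (.lm 6 45 7 44 8 9 4) (.pot 0))) (.lf (.low 0))) (.t 12 
(.lf (.thr (.pot 0) (.lm 6 43 7 43 8 9 4) (.pot 0))) (.lf (.low 0)))))))) (.z 995 
(.lf (.thr (.lf 0 130 6 125) (.lm 6 45 7 44 9 11 6) (.pot 0))) (.t 8 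
(.lf (.thr (.pot 0) (.lm 5 42 5 41 7 8 7) (.pot 0))) 
(.lf (.thr (.lf 0 131 7 124) (.lm 7 42 8 41 9 11 7) (.pot 1))))))) (.lf (.low 0))) (.t 16 
(.y 1084 (.a 686 (.z 1006 (.lf (.thr (.pot 1) (.lm 6 36 7 36 9 11 6) (.pot 1))) 
(.lf (.thr (.pot 1) (.lm 6 33 7 33 10 11 6) (.pot 0)))) (.z 1006 
(.lf (.thr (.pot 1) (.lm 6 36 7 36 9 11 6) (.pot 1))) 
(.lf (.thr (.pot 1) (.lm 6 33 7 33 10 11 6) (.pot 0))))) (.a 686 (.z 1006 (.t 8 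
(.lf (.thr (.pot 0) (.lm 5 39 5 39 7 8 6) (.pot 0))) (.y 1087 
(.lf (.thr (.pot 1) (.lm 7 40 8 38 9 11 4) (.pot 1))) (.a 683 (.lf .inf) (.z 1003 (.t 12 
(.lf (.thr (.pot 0) (.lm 7 42 7 42 8 9 3) (.pot 0))) (.lf (.low 0))) (.t 12 
(.lf (.thr (.pot 0) (.lm 7 41 7 40 8 9 4) (.pot 0))) (.lf (.low 0))))))) (.t 8 
(.lf (.thr (.pot 0) (.lm 5 36 5 36 7 8 7) (.pot 0))) (.y 1087 
(.lf (.thr (.pot 1) (.lm 7 37 8 35 10 11 5) (.pot 0))) (.lf .inf)))) (.z 1006 (.t 8 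
(.lf (.thr (.pot 0) (.lm 5 39 5 39 7 8 6) (.pot 0))) (.y 1087 
(.lf (.thr (.pot 1) (.lm 7 40 8 38 9 11 4) (.pot 1))) (.a 689 (.z 1003 (.t 12 
(.lf (.thr (.pot 0) (.lm 7 42 7 42 8 9 3) (.pot 0))) (.lf (.low 0))) (.t 12 
(.lf (.thr (.pot 0) (.lm 7 41 7 40 8 9 4) (.pot 0))) (.lf (.low 0)))) 
(.lf (.thr (.lf 0 131 7 123) (.lm 7 41 8 40 9 11 5) (.pot 1)))))) (.t 8 
(.lf (.thr (.pot 0) (.lm 5 36 5 36 7 8 7) (.pot 0))) (.y 1087 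
(.lf (.thr (.pot 1) (.lm 7 37 8 35 10 11 5) (.pot 0))) 
(.lf (.thr (.pot 1) (.lm 7 38 8 37 10 11 5) (.pot 1)))))))) (.lf (.low 0)))) (.z 1001 (.t 16 
(.lf (.thr (.lf 0 130 6 125) (.lm 6 39 7 38 9 11 12) (.pot 0))) (.lf (.low 0))) (.t 16 (.a 698 
(.y 1084 (.z 1006 (.lf (.thr (.lf 0 130 6 125) (.lm 6 36 7 36 9 11 6) (.pot 0))) 
(.lf (.thr (.pot 0) (.lm 6 33 7 33 10 11 6) (.pot 1)))) (.z 1006 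
(.lf (.thr (.lf 0 130 6 125) (.lm 6 39 7 39 9 11 6) (.pot 0))) (.t 8 
(.lf (.thr (.pot 0) (.lm 5 36 5 36 7 8 7) (.pot 0))) (.y 1087 
(.lf (.thr (.pot 0) (.lm 7 37 8 35 10 11 5) (.pot 1))) 
(.lf (.thr (.pot 1) (.lm 7 38 8 37 10 11 5) (.pot 1))))))) 
(.lf (.thr (.lf 0 130 6 125) (.lm 6 33 7 33 10 11 12) (.pot 0)))) (.lf (.low 0)))))) (.y 1078 
(.a 692 (.z 1023 (.t 16 (.lf (.thr (.pot 1) (.lm 6 21 7 21 10 11 12) (.pot 0))) (.lf (.low 0))) 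
(.t 16 (.lf (.thr (.pot 1) (.lm 6 15 7 15 10 11 13) (.pot 0))) (.lf (.low 0)))) (.z 1023 
(.t 16 (.lf (.thr (.pot 0) (.lm 6 21 7 21 10 11 12) (.pot 1))) (.lf (.low 0))) (.t 16 
(.lf (.thr (.pot 1) (.lm 6 15 7 15 10 11 13) (.pot 0))) (.lf (.low 0))))) (.a 692 (.z 1023 
(.t 16 (.y 1084 (.lf (.thr (.pot 1) (.lm 6 28 7 27 10 11 9) (.pot 0))) 
(.lf (.thr (.pot 1) (.lm 6 31 7 30 10 11 9) (.pot 1)))) (.lf (.low 0))) (.t 16 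
(.lf (.thr (.pot 1) (.lm 6 22 7 21 10 11 13) (.pot 0))) (.lf (.low 0)))) (.z 1023 (.t 16 
(.a 698 (.y 1084 (.lf (.thr (.pot 1) (.lm 6 28 7 27 10 11 9) (.pot 0))) 
(.lf (.thr (.pot 1) (.lm 6 31 7 30 10 11 9) (.pot 1)))) (.y 1084 
(.lf (.thr (.pot 0) (.lm 6 28 7 27 10 11 9) (.pot 1))) 
(.lf (.thr (.pot 1) (.lm 6 31 7 30 10 11 9) (.pot 1))))) (.lf (.low 0))) (.t 16 
(.lf (.thr (.pot 1) (.lm 6 22 7 21 10 11 13) (.pot 1))) (.lf (.low 0)))))))) (.y 1065 (.z 1012 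
(.lf (.thr (.lf 0 131 8 122) (.lm 8 16 10 12 15 17 24) (.pot 1))) (.a 718 (.y 1052 (.lf .inf) 
(.z 1023 (.t 16 (.lf (.thr (.pot 0) (.lm 6 15 7 14 10 11 12) (.pot 0))) (.lf (.low 0))) (.t 16 
(.lf (.thr (.pot 0) (.lm 6 9 7 8 10 11 13) (.pot 1))) (.lf (.low 0))))) (.lf .inf))) (.z 1012 
(.a 718 (.y 1078 (.lf (.thr (.lf 0 131 8 122) (.lm 8 28 10 25 15 17 18) (.pot 1))) (.z 1001 
(.lf (.thr (.lf 0 131 8 123) (.lm 8 39 10 38 14 17 12) (.pot 0))) (.t 16 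
(.lf (.thr (.lf 0 130 6 125) (.lm 6 33 7 33 10 11 12) (.pot 0))) (.lf (.low 0))))) 
(.lf (.thr (.lf 0 131 8 122) (.lm 8 28 10 25 15 17 24) (.pot 0)))) (.a 718 (.y 1078 (.z 1023 
(.t 16 (.lf (.thr (.pot 0) (.lm 6 21 7 21 10 11 12) (.pot 1))) (.lf (.low 0))) (.t 16 
(.lf (.thr (.pot 0) (.lm 6 15 7 15 10 11 13) (.pot 1))) (.lf (.low 0)))) (.z 1023 (.t 16 
(.lf (.thr (.lf 0 130 6 124) (.lm 6 28 7 27 10 11 12) (.pot 1))) (.lf (.low 0))) (.t 16 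
(.lf (.thr (.pot 0) (.lm 6 22 7 21 10 11 13) (.pot 1))) (.lf (.low 0))))) (.y 1078 (.z 1023 
(.lf (.thr (.lf 0 131 9 122) (.lm 9 22 10 20 16 17 12) (.pot 0))) (.t 16 
(.lf (.thr (.pot 0) (.lm 6 15 7 15 10 11 13) (.pot 1))) (.lf (.low 0)))) (.z 1023 
(.lf (.thr (.lf 0 131 9 122) (.lm 9 28 10 27 16 17 12) (.pot 1))) (.t 16 
(.lf (.thr (.pot 0) (.lm 6 22 7 21 10 11 13) (.pot 1))) (.lf (.low 0)))))))))))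

theorem h6 : chk (leafT PP TD0 0 2) c6 0 32 630 731 990 1035 990 1091 = true := by
  decide +kernel

def c7 : Tree :=
  (.lf .inf)

theorem h7 : chk (leafT PP TD0 0 2) c7 0 32 630 680 990 1035 1091 1192 = true := by
  decide +kernel

def c8 : Tree :=
  (.y 1116 (.z 1012 (.a 692 (.y 1103 (.z 1001 (.t 16 (.a 686 (.y 1097 (.z 995 
(.lf (.thr (.lf 1 130 6 125) (.lm 6 48 7 48 9 11 6) (.lf 7 124 1 130))) (.t 8 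
(.lf (.thr (.pot 0) (.lm 5 45 5 45 7 8 6) (.pot 0))) (.a 683 (.z 998 
(.lf (.thr (.lf 0 131 7 124) (.lm 7 47 8 46 9 11 5) (.lf 8 122 0 131))) (.lf .inf)) (.z 998 
(.lf (.thr (.lf 0 131 7 124) (.lm 7 47 8 46 9 11 5) (.lf 8 122 0 131))) (.y 1094 (.t 12 
(.lf (.thr (.pot 1) (.lm 6 45 7 45 8 9 3) (.pot 0))) (.lf (.low 0))) 
(.lf (.thr (.lf 0 131 7 123) (.lm 7 47 8 46 9 11 3) (.lf 8 122 0 131)))))))) 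
(.lf (.thr (.lf 1 130 6 125) (.lm 6 48 7 48 9 11 9) (.lf 7 124 1 130)))) (.y 1097 (.z 995 
(.lf (.thr (.lf 0 130 6 125) (.lm 6 48 7 48 9 11 6) (.pot 0))) (.t 8 
(.lf (.thr (.pot 0) (.lm 5 45 5 45 7 8 6) (.pot 0))) (.a 689 (.z 998 
(.lf (.thr (.lf 0 131 7 124) (.lm 7 47 8 46 9 11 5) (.lf 8 122 0 131))) (.y 1094 (.t 12 
(.lf (.thr (.lf 0 131 6 124) (.lm 6 45 7 45 8 9 3) (.pot 0))) (.lf (.low 0))) 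
(.lf (.thr (.lf 0 131 7 123) (.lm 7 47 8 46 9 11 3) (.lf 8 122 0 131))))) 
(.lf (.thr (.lf 0 131 7 124) (.lm 7 46 8 44 9 11 6) (.pot 1)))))) 
(.lf (.thr (.lf 0 130 6 125) (.lm 6 48 7 48 9 11 9) (.lf 7 124 0 130))))) (.lf (.low 0))) 
(.t 16 (.a 686 (.y 1097 (.z 1006 (.t 8 (.lf (.thr (.pot 0) (.lm 5 43 5 42 7 8 6) (.pot 0))) 
(.a 683 (.lf .inf) (.y 1094 (.z 1003 (.t 12 
(.lf (.thr (.pot 0) (.lm 7 44 7 44 8 9 3) (.pot 0))) (.lf (.low 0))) (.lf .inf)) (.lf .inf)))) 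
(.lf .inf)) (.lf .inf)) (.y 1097 (.z 1006 (.t 8 
(.lf (.thr (.pot 0) (.lm 5 43 5 42 7 8 6) (.pot 0))) (.a 689 (.y 1094 (.z 1003 (.t 12 
(.lf (.thr (.pot 0) (.lm 7 44 7 44 8 9 3) (.pot 0))) (.lf (.low 0))) (.t 12 
(.lf (.thr (.pot 0) (.lm 7 43 7 42 8 9 3) (.pot 0))) (.lf (.low 0)))) (.z 1003 (.t 12 
(.lf (.thr (.pot 1) (.lm 7 46 7 45 8 9 3) (.pot 0))) (.lf (.low 0))) (.t 12 
(.lf (.thr (.pot 0) (.lm 7 44 7 44 8 9 3) (.pot 0))) (.lf (.low 0))))) (.y 1094 (.z 1003 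
(.lf (.thr (.lf 0 131 7 123) (.lm 7 45 8 43 9 11 3) (.pot 0))) (.t 12 
(.lf (.thr (.pot 0) (.lm 7 43 7 42 8 9 3) (.pot 0))) (.lf (.low 0)))) (.z 1003 (.t 12 
(.lf (.thr (.lf 0 131 7 124) (.lm 7 46 7 45 8 9 3) (.pot 0))) (.lf (.low 0))) (.t 12 
(.lf (.thr (.pot 0) (.lm 7 44 7 44 8 9 3) (.pot 0))) (.lf (.low 0))))))) (.t 8 
(.lf (.thr (.pot 0) (.lm 5 40 5 39 7 8 6) (.pot 0))) (.a 689 (.z 1009 (.y 1094 (.t 12 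
(.lf (.thr (.pot 0) (.lm 7 41 7 41 8 9 3) (.pot 0))) (.lf (.low 0))) (.lf .inf)) (.lf .inf)) 
(.z 1009 (.y 1094 (.t 12 (.lf (.thr (.pot 0) (.lm 7 41 7 41 8 9 3) (.pot 0))) (.lf (.low 0))) 
(.t 12 (.lf (.thr (.pot 0) (.lm 7 43 7 42 8 9 3) (.pot 0))) (.lf (.low 0)))) (.y 1094 
(.lf (.thr (.pot 1) (.lm 7 40 8 39 10 11 3) (.pot 1))) (.t 12 
(.lf (.thr (.pot 0) (.lm 7 41 7 41 8 9 3) (.pot 0))) (.lf (.low 0)))))))) (.z 1006 (.t 8 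
(.lf (.thr (.pot 0) (.lm 5 46 5 45 7 8 6) (.pot 0))) (.a 689 (.y 1100 (.z 1003 
(.lf (.thr (.lf 0 131 7 123) (.lm 7 47 8 47 9 11 3) (.lf 8 122 0 131))) (.lf .inf)) (.lf .inf)) 
(.y 1100 (.z 1003 (.lf (.thr (.lf 0 131 7 123) (.lm 7 47 8 47 9 11 3) (.lf 8 122 0 131))) 
(.t 12 (.lf (.thr (.pot 1) (.lm 7 46 7 45 8 9 3) (.pot 1))) (.lf (.low 0)))) 
(.lf (.thr (.lf 0 131 7 123) (.lm 7 47 8 47 9 11 4) (.lf 8 122 0 131)))))) (.t 8 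
(.lf (.thr (.pot 0) (.lm 5 43 5 42 7 8 6) (.pot 0))) (.a 689 (.lf .inf) (.z 1009 (.y 1100 
(.t 12 (.lf (.thr (.pot 0) (.lm 7 44 7 44 8 9 3) (.pot 0))) (.lf (.low 0))) (.lf .inf)) 
(.lf .inf))))))) (.lf (.low 0)))) (.z 1001 (.t 16 
(.lf (.thr (.lf 1 130 6 125) (.lm 6 51 7 51 9 11 12) (.lf 7 124 1 130))) (.lf (.low 0))) 
(.t 16 (.y 1109 (.a 686 (.lf .inf) (.z 1006 
(.lf (.thr (.lf 0 130 6 125) (.lm 6 49 7 48 9 11 6) (.lf 7 124 0 130))) (.lf .inf))) (.lf .inf)) 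
(.lf (.low 0))))) (.y 1103 (.z 1001 (.t 16 (.a 698 (.y 1097 
(.lf (.thr (.lf 0 130 6 125) (.lm 6 45 7 45 9 11 9) (.pot 0))) 
(.lf (.thr (.lf 0 130 6 125) (.lm 6 48 7 48 9 11 9) (.lf 7 124 0 130)))) 
(.lf (.thr (.lf 0 130 6 125) (.lm 6 45 7 45 9 11 12) (.pot 0)))) (.lf (.low 0))) (.t 16 
(.a 698 (.y 1097 (.z 1006 (.t 8 (.lf (.thr (.pot 0) (.lm 5 43 5 42 7 8 6) (.pot 0))) 
(.lf (.thr (.lf 0 131 7 123) (.lm 7 43 8 42 9 11 6) (.pot 1)))) (.t 8 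
(.lf (.thr (.pot 0) (.lm 5 40 5 39 7 8 6) (.pot 0))) (.a 695 (.z 1009 (.y 1094 (.t 12 
(.lf (.thr (.pot 0) (.lm 7 41 7 41 8 9 3) (.pot 0))) (.lf (.low 0))) (.t 12 
(.lf (.thr (.pot 0) (.lm 7 43 7 42 8 9 3) (.pot 0))) (.lf (.low 0)))) (.y 1094 
(.lf (.thr (.pot 1) (.lm 7 40 8 39 10 11 3) (.pot 1))) (.t 12 
(.lf (.thr (.pot 0) (.lm 7 41 7 41 8 9 3) (.pot 0))) (.lf (.low 0))))) (.z 1009 
(.lf (.thr (.lf 0 131 7 123) (.lm 7 41 8 41 10 11 5) (.pot 0))) (.y 1094 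
(.lf (.thr (.pot 1) (.lm 7 40 8 39 10 11 3) (.pot 1))) (.t 12 
(.lf (.thr (.pot 0) (.lm 7 41 7 41 8 9 3) (.pot 0))) (.lf (.low 0)))))))) (.z 1006 (.t 8 
(.lf (.thr (.pot 0) (.lm 5 46 5 45 7 8 6) (.pot 0))) (.a 695 (.y 1100 (.z 1003 
(.lf (.thr (.lf 0 131 7 123) (.lm 7 47 8 47 9 11 3) (.pot 0))) (.t 12 
(.lf (.thr (.lf 0 131 7 124) (.lm 7 46 7 45 8 9 3) (.pot 0))) (.lf (.low 0)))) 
(.lf (.thr (.lf 0 131 7 123) (.lm 7 47 8 47 9 11 4) (.lf 8 122 0 131)))) 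
(.lf (.thr (.lf 0 131 7 123) (.lm 7 46 8 45 9 11 6) (.pot 1))))) (.t 8 
(.lf (.thr (.pot 0) (.lm 5 43 5 42 7 8 6) (.pot 0))) (.a 695 (.z 1009 (.y 1100 (.t 12 
(.lf (.thr (.pot 0) (.lm 7 44 7 44 8 9 3) (.pot 0))) (.lf (.low 0))) (.t 12 
(.lf (.thr (.pot 1) (.lm 7 46 7 45 8 9 3) (.pot 1))) (.lf (.low 0)))) (.y 1100 (.t 12 
(.lf (.thr (.pot 0) (.lm 7 43 7 42 8 9 3) (.pot 0))) (.lf (.low 0))) (.t 12 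
(.lf (.thr (.pot 1) (.lm 7 44 7 44 8 9 3) (.pot 0))) (.lf (.low 0))))) (.z 1009 (.y 1100 
(.lf (.thr (.lf 0 131 7 123) (.lm 7 44 8 44 10 11 3) (.pot 1))) (.t 12 
(.lf (.thr (.lf 0 131 7 124) (.lm 7 46 7 45 8 9 3) (.pot 0))) (.lf (.low 0)))) (.y 1100 (.t 12 
(.lf (.thr (.pot 0) (.lm 7 43 7 42 8 9 3) (.pot 0))) (.lf (.low 0))) (.t 12 
(.lf (.thr (.pot 1) (.lm 7 44 7 44 8 9 3) (.pot 0))) (.lf (.low 0))))))))) (.y 1097 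
(.lf (.thr (.lf 0 130 6 125) (.lm 6 40 7 39 10 11 9) (.pot 1))) (.z 1006 
(.lf (.thr (.lf 0 130 6 125) (.lm 6 46 7 45 9 11 6) (.pot 0))) (.t 8 
(.lf (.thr (.pot 0) (.lm 5 43 5 42 7 8 6) (.pot 0))) (.a 701 (.z 1009 
(.lf (.thr (.lf 0 131 7 123) (.lm 7 44 8 44 10 11 5) (.pot 0))) (.y 1100 
(.lf (.thr (.lf 0 131 7 123) (.lm 7 43 8 42 10 11 3) (.pot 0))) 
(.lf (.thr (.lf 0 131 7 123) (.lm 7 44 8 44 10 11 3) (.pot 1))))) 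
(.lf (.thr (.lf 0 131 7 123) (.lm 7 43 8 42 10 11 6) (.pot 0)))))))) (.lf (.low 0)))) (.z 1001 
(.t 16 (.lf (.thr (.lf 0 130 6 125) (.lm 6 51 7 51 9 11 12) (.lf 7 124 0 130))) (.lf (.low 0))) 
(.t 16 (.a 698 (.y 1109 (.z 1006 
(.lf (.thr (.lf 0 130 6 125) (.lm 6 49 7 48 9 11 6) (.lf 7 124 0 130))) (.t 8 
(.lf (.thr (.pot 0) (.lm 5 46 5 45 7 8 6) (.pot 0))) (.a 695 (.z 1009 
(.lf (.thr (.lf 0 131 7 123) (.lm 7 47 8 47 10 11 5) (.lf 8 122 0 131))) (.lf .inf)) (.z 1009 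
(.lf (.thr (.lf 0 131 7 123) (.lm 7 47 8 47 10 11 5) (.lf 8 122 0 131))) (.y 1106 (.t 12 
(.lf (.thr (.pot 1) (.lm 7 46 7 45 8 9 3) (.pot 1))) (.lf (.low 0))) 
(.lf (.thr (.lf 0 131 7 123) (.lm 7 47 8 47 10 11 3) (.lf 8 123 0 131)))))))) 
(.lf (.thr (.lf 0 130 6 125) (.lm 6 49 7 48 10 11 9) (.lf 7 124 0 130)))) (.y 1109 (.z 1006 
(.lf (.thr (.lf 0 130 6 125) (.lm 6 49 7 48 9 11 6) (.lf 7 124 0 130))) (.t 8 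
(.lf (.thr (.pot 0) (.lm 5 46 5 45 7 8 6) (.pot 0))) (.a 701 (.z 1009 
(.lf (.thr (.lf 0 131 7 123) (.lm 7 47 8 47 10 11 5) (.lf 8 122 0 131))) (.y 1106 (.t 12 
(.lf (.thr (.lf 0 131 7 124) (.lm 7 46 7 45 8 9 3) (.pot 0))) (.lf (.low 0))) 
(.lf (.thr (.lf 0 131 7 123) (.lm 7 47 8 47 10 11 3) (.lf 8 123 0 131))))) (.z 1009 
(.lf (.thr (.lf 0 131 7 123) (.lm 7 47 8 47 10 11 5) (.pot 0))) 
(.lf (.thr (.lf 0 131 7 123) (.lm 7 46 8 45 10 11 5) (.pot 1))))))) 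
(.lf (.thr (.lf 0 130 6 125) (.lm 6 49 7 48 10 11 9) (.lf 7 124 0 130))))) (.lf (.low 0)))))) 
(.a 692 (.y 1103 (.z 1023 (.t 16 (.a 686 (.lf .inf) (.y 1097 (.z 1017 (.t 8 
(.lf (.thr (.pot 0) (.lm 5 37 5 37 7 8 6) (.pot 0))) (.a 689 (.lf .inf) (.y 1094 
(.lf (.thr (.pot 1) (.lm 7 37 8 37 10 11 4) (.pot 0))) (.lf .inf)))) (.lf .inf)) (.lf .inf))) 
(.lf (.low 0))) (.lf .inf)) (.lf .inf)) (.y 1103 (.z 1023 (.t 16 (.a 698 (.y 1097 (.z 1017 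
(.t 8 (.lf (.thr (.pot 0) (.lm 5 37 5 37 7 8 6) (.pot 0))) (.a 695 (.y 1094 
(.lf (.thr (.pot 0) (.lm 7 37 8 37 10 11 4) (.pot 1))) 
(.lf (.thr (.pot 1) (.lm 7 39 8 38 10 11 4) (.pot 1)))) (.y 1094 
(.lf (.thr (.pot 0) (.lm 7 37 8 37 10 11 4) (.pot 1))) 
(.lf (.thr (.pot 1) (.lm 7 39 8 38 10 11 4) (.pot 1)))))) 
(.lf (.thr (.pot 1) (.lm 6 34 7 34 10 11 6) (.pot 1)))) (.z 1017 (.t 8 
(.lf (.thr (.pot 0) (.lm 5 40 5 40 7 8 6) (.pot 0))) (.a 695 (.y 1100 (.z 1014 (.t 12 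
(.lf (.thr (.pot 0) (.lm 7 42 7 41 8 9 3) (.pot 0))) (.lf (.low 0))) (.lf .inf)) (.lf .inf)) 
(.y 1100 (.z 1014 (.t 12 (.lf (.thr (.pot 0) (.lm 7 42 7 41 8 9 3) (.pot 0))) (.lf (.low 0))) 
(.t 12 (.lf (.thr (.pot 0) (.lm 7 40 7 40 8 9 3) (.pot 0))) (.lf (.low 0)))) (.z 1014 (.t 12 
(.lf (.thr (.pot 0) (.lm 7 43 7 43 8 9 3) (.pot 0))) (.lf (.low 0))) (.t 12 
(.lf (.thr (.pot 0) (.lm 7 42 7 41 8 9 3) (.pot 0))) (.lf (.low 0))))))) (.t 8 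
(.lf (.thr (.pot 0) (.lm 5 37 5 37 7 8 6) (.pot 0))) (.a 695 (.lf .inf) (.z 1020 (.y 1100 
(.lf (.thr (.pot 1) (.lm 8 39 8 38 10 11 3) (.pot 1))) (.lf .inf)) (.lf .inf)))))) (.y 1097 
(.z 1017 (.t 8 (.lf (.thr (.pot 0) (.lm 5 37 5 37 7 8 6) (.pot 0))) (.a 701 (.y 1094 
(.lf (.thr (.pot 0) (.lm 7 37 8 37 10 11 4) (.pot 1))) 
(.lf (.thr (.pot 1) (.lm 7 39 8 38 10 11 4) (.pot 1)))) 
(.lf (.thr (.lf 0 131 7 123) (.lm 7 37 8 37 10 11 6) (.pot 0))))) 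
(.lf (.thr (.pot 1) (.lm 6 34 7 34 10 11 6) (.pot 1)))) (.z 1017 (.t 8 
(.lf (.thr (.pot 0) (.lm 5 40 5 40 7 8 6) (.pot 0))) (.a 701 (.y 1100 (.z 1014 
(.lf (.thr (.lf 0 131 7 123) (.lm 7 42 8 41 10 11 3) (.pot 1))) (.t 12 
(.lf (.thr (.pot 0) (.lm 7 40 7 40 8 9 3) (.pot 0))) (.lf (.low 0)))) (.z 1014 (.t 12 
(.lf (.thr (.pot 0) (.lm 7 43 7 43 8 9 3) (.pot 0))) (.lf (.low 0))) (.t 12 
(.lf (.thr (.pot 0) (.lm 7 42 7 41 8 9 3) (.pot 0))) (.lf (.low 0))))) (.y 1100 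
(.lf (.thr (.lf 0 131 7 123) (.lm 7 40 8 40 10 11 4) (.pot 1))) (.z 1014 
(.lf (.thr (.lf 0 131 7 123) (.lm 7 43 8 43 10 11 3) (.pot 0))) (.t 12 
(.lf (.thr (.pot 0) (.lm 7 42 7 41 8 9 3) (.pot 0))) (.lf (.low 0))))))) (.t 8 
(.lf (.thr (.pot 0) (.lm 5 37 5 37 7 8 6) (.pot 0))) (.a 701 (.z 1020 (.y 1100 
(.lf (.thr (.pot 1) (.lm 8 39 8 38 10 11 3) (.pot 1))) (.t 12 
(.lf (.thr (.pot 0) (.lm 7 40 7 40 9 9 3) (.pot 0))) (.lf (.low 0)))) 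
(.lf (.thr (.pot 1) (.lm 8 37 8 37 10 11 5) (.pot 1)))) (.z 1020 (.y 1100 
(.lf (.thr (.pot 0) (.lm 8 39 8 38 10 11 3) (.pot 1))) (.t 12 
(.lf (.thr (.pot 0) (.lm 7 40 7 40 9 9 3) (.pot 0))) (.lf (.low 0)))) 
(.lf (.thr (.pot 1) (.lm 8 37 8 37 10 11 5) (.pot 1))))))))) (.lf (.low 0))) (.t 16 (.a 698 
(.z 1029 (.lf (.thr (.pot 1) (.lm 6 31 7 31 10 11 9) (.pot 1))) (.lf .inf)) (.z 1029 
(.lf (.thr (.pot 1) (.lm 6 31 7 31 10 11 9) (.pot 1))) 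
(.lf (.thr (.pot 1) (.lm 6 28 7 28 10 11 9) (.pot 0))))) (.lf (.low 0)))) (.z 1023 (.t 16 
(.a 698 (.y 1109 (.z 1017 (.t 8 (.lf (.thr (.pot 0) (.lm 5 43 5 43 7 8 6) (.pot 0))) (.a 695 
(.lf .inf) (.y 1106 (.z 1014 (.t 12 (.lf (.thr (.pot 1) (.lm 7 45 7 44 8 9 3) (.pot 0))) 
(.lf (.low 0))) (.lf .inf)) (.lf .inf)))) (.lf .inf)) (.lf .inf)) (.y 1109 (.z 1017 (.t 8 
(.lf (.thr (.pot 0) (.lm 5 43 5 43 7 8 6) (.pot 0))) (.a 701 (.y 1106 (.z 1014 (.t 12 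
(.lf (.thr (.pot 1) (.lm 7 45 7 44 8 9 3) (.pot 0))) (.lf (.low 0))) (.t 12 
(.lf (.thr (.pot 0) (.lm 7 43 7 43 8 9 3) (.pot 0))) (.lf (.low 0)))) (.z 1014 (.t 12 
(.lf (.thr (.lf 0 131 7 124) (.lm 7 46 7 46 8 9 3) (.lf 7 123 0 131))) (.lf (.low 0))) (.t 12 
(.lf (.thr (.pot 1) (.lm 7 45 7 44 8 9 3) (.pot 0))) (.lf (.low 0))))) (.y 1106 (.z 1014 
(.lf (.thr (.lf 0 131 7 123) (.lm 7 45 8 44 10 11 3) (.pot 1))) (.t 12 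
(.lf (.thr (.pot 0) (.lm 7 43 7 43 8 9 3) (.pot 0))) (.lf (.low 0)))) (.z 1014 
(.lf (.thr (.lf 0 131 7 123) (.lm 7 46 8 46 10 11 3) (.lf 8 123 0 131))) (.t 12 
(.lf (.thr (.lf 0 131 7 124) (.lm 7 45 7 44 8 9 3) (.pot 0))) (.lf (.low 0))))))) (.t 8 
(.lf (.thr (.pot 0) (.lm 5 40 5 40 7 8 6) (.pot 0))) (.a 701 (.z 1020 (.y 1106 (.t 12 
(.lf (.thr (.pot 0) (.lm 7 42 7 41 9 9 3) (.pot 0))) (.lf (.low 0))) (.lf .inf)) (.lf .inf)) 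
(.z 1020 (.y 1106 (.t 12 (.lf (.thr (.pot 0) (.lm 7 42 7 41 9 9 3) (.pot 0))) (.lf (.low 0))) 
(.t 12 (.lf (.thr (.pot 0) (.lm 7 43 7 43 9 9 3) (.pot 0))) (.lf (.low 0)))) (.y 1106 (.t 12 
(.lf (.thr (.pot 0) (.lm 7 40 7 40 9 9 3) (.pot 0))) (.lf (.low 0))) (.t 12 
(.lf (.thr (.pot 0) (.lm 7 42 7 41 9 9 3) (.pot 0))) (.lf (.low 0)))))))) (.z 1017 (.t 8 
(.lf (.thr (.pot 0) (.lm 5 46 5 46 7 8 6) (.pot 0))) (.a 701 (.y 1112 (.z 1014 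
(.lf (.thr (.lf 0 131 7 123) (.lm 7 48 8 47 10 11 3) (.lf 8 123 0 131))) (.lf .inf)) (.lf .inf)) 
(.y 1112 (.z 1014 (.lf (.thr (.lf 0 131 7 123) (.lm 7 48 8 47 10 11 3) (.lf 8 123 0 131))) 
(.t 12 (.lf (.thr (.lf 0 131 7 124) (.lm 7 46 7 46 8 9 3) (.lf 7 123 0 131))) (.lf (.low 0)))) 
(.lf (.thr (.lf 0 131 7 123) (.lm 7 48 8 47 10 11 5) (.lf 8 123 0 131)))))) (.t 8 
(.lf (.thr (.pot 0) (.lm 5 43 5 43 7 8 7) (.pot 0))) (.a 701 (.lf .inf) (.y 1112 (.z 1020 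
(.t 12 (.lf (.thr (.pot 1) (.lm 7 45 7 44 9 9 3) (.pot 0))) (.lf (.low 0))) (.t 12 
(.lf (.thr (.pot 0) (.lm 7 43 7 43 9 9 3) (.pot 0))) (.lf (.low 0)))) (.z 1020 (.t 12 
(.lf (.thr (.pot 0) (.lm 7 46 7 46 9 9 4) (.lf 7 123 0 131))) (.lf (.low 0))) (.lf .inf)))))))) 
(.lf (.low 0))) (.t 16 (.a 698 (.lf .inf) (.y 1109 (.z 1029 (.t 8 
(.lf (.thr (.pot 0) (.lm 5 37 5 37 7 8 6) (.pot 0))) (.a 701 (.lf .inf) (.z 1026 (.y 1106 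
(.lf (.thr (.pot 1) (.lm 8 39 8 38 10 11 3) (.pot 1))) (.t 12 
(.lf (.thr (.pot 0) (.lm 7 40 7 40 9 9 3) (.pot 0))) (.lf (.low 0)))) 
(.lf (.thr (.pot 1) (.lm 8 37 8 37 10 11 5) (.pot 1)))))) (.lf .inf)) (.lf .inf))) 
(.lf (.low 0))))))) (.z 1012 (.a 692 (.lf .inf) (.y 1128 (.z 1001 
(.lf (.thr (.lf 0 131 8 123) (.lm 8 58 9 57 14 17 12) (.lf 9 121 0 131))) (.t 16 
(.lf (.thr (.lf 0 130 6 125) (.lm 6 52 6 52 10 10 12) (.lf 6 124 0 130))) (.lf (.low 0)))) 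
(.lf (.thr (.lf 0 131 8 122) (.lm 8 58 9 58 15 16 18) (.lf 9 122 0 131))))) (.a 692 (.lf .inf) 
(.y 1128 (.z 1023 (.t 16 (.a 698 (.lf .inf) (.y 1122 (.z 1017 
(.lf (.thr (.lf 0 130 6 124) (.lm 6 50 6 49 10 10 6) (.lf 6 124 0 130))) (.lf .inf)) (.lf .inf))) 
(.lf (.low 0))) (.lf .inf)) (.lf .inf)))))

theorem h8 : chk (leafT PP TD0 0 2) c8 0 32 680 705 990 1035 1091 1141 = true := by
  decide +kernel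

def c9 : Tree :=
  (.y 1116 (.z 1012 (.a 718 (.y 1103 (.z 1001 (.t 16 
(.lf (.thr (.lf 0 130 6 125) (.lm 6 45 7 45 9 11 12) (.pot 0))) (.lf (.low 0))) (.t 16 
(.lf (.thr (.lf 0 130 6 125) (.lm 6 40 7 39 10 11 12) (.pot 0))) (.lf (.low 0)))) (.z 1001 
(.t 16 (.lf (.thr (.lf 0 130 6 125) (.lm 6 51 7 51 9 11 12) (.pot 0))) (.lf (.low 0))) (.t 16 
(.a 711 (.y 1109 (.lf (.thr (.lf 0 130 6 125) (.lm 6 46 7 45 10 11 9) (.pot 0))) 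
(.lf (.thr (.lf 0 130 6 125) (.lm 6 49 7 48 10 11 9) (.lf 7 124 0 130)))) 
(.lf (.thr (.lf 0 130 6 125) (.lm 6 46 7 45 10 11 12) (.pot 0)))) (.lf (.low 0))))) (.y 1103 
(.lf (.thr (.lf 0 131 8 122) (.lm 8 40 10 39 15 17 17) (.pot 0))) (.z 1001 
(.lf (.thr (.lf 0 131 8 123) (.lm 8 52 10 50 14 17 12) (.pot 0))) (.t 16 
(.lf (.thr (.lf 0 130 6 125) (.lm 6 46 7 45 10 11 12) (.pot 0))) (.lf (.low 0)))))) (.a 718 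
(.y 1103 (.z 1023 (.t 16 (.a 711 (.y 1097 
(.lf (.thr (.lf 0 130 6 124) (.lm 6 34 7 34 10 11 9) (.pot 1))) (.z 1017 
(.lf (.thr (.lf 0 130 6 124) (.lm 6 40 7 40 10 11 6) (.pot 0))) (.t 8 
(.lf (.thr (.pot 0) (.lm 5 37 5 37 7 8 6) (.pot 0))) (.a 708 (.z 1020 
(.lf (.thr (.lf 0 131 8 123) (.lm 8 39 8 38 10 11 5) (.pot 0))) 
(.lf (.thr (.pot 1) (.lm 8 37 8 37 10 11 5) (.pot 1)))) 
(.lf (.thr (.lf 0 131 8 123) (.lm 8 37 8 37 10 11 6) (.pot 0))))))) 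
(.lf (.thr (.lf 0 130 6 124) (.lm 6 34 7 34 10 11 12) (.pot 0)))) (.lf (.low 0))) (.t 16 
(.a 711 (.z 1029 (.lf (.thr (.pot 1) (.lm 6 31 7 31 10 11 9) (.pot 1))) 
(.lf (.thr (.pot 0) (.lm 6 28 7 28 10 11 9) (.pot 1)))) (.z 1029 
(.lf (.thr (.pot 1) (.lm 6 31 7 31 10 11 9) (.pot 1))) 
(.lf (.thr (.pot 0) (.lm 6 28 7 28 10 11 9) (.pot 1))))) (.lf (.low 0)))) (.z 1023 (.t 16 
(.a 711 (.y 1109 (.z 1017 (.lf (.thr (.lf 0 130 6 124) (.lm 6 43 7 43 10 11 6) (.pot 1))) 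
(.t 8 (.lf (.thr (.pot 0) (.lm 5 40 5 40 7 8 6) (.pot 0))) (.a 708 (.z 1020 (.y 1106 
(.lf (.thr (.lf 0 131 8 123) (.lm 8 42 8 41 10 11 3) (.pot 1))) (.t 12 
(.lf (.thr (.pot 0) (.lm 7 43 7 43 9 9 3) (.pot 0))) (.lf (.low 0)))) (.y 1106 (.t 12 
(.lf (.thr (.pot 0) (.lm 7 40 7 40 9 9 3) (.pot 0))) (.lf (.low 0))) (.t 12 
(.lf (.thr (.pot 0) (.lm 7 42 7 41 9 9 3) (.pot 0))) (.lf (.low 0))))) 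
(.lf (.thr (.lf 0 131 8 123) (.lm 8 40 8 40 10 11 6) (.pot 1)))))) (.z 1017 (.t 8 
(.lf (.thr (.pot 0) (.lm 5 46 5 46 7 8 6) (.pot 0))) 
(.lf (.thr (.lf 0 131 7 123) (.lm 7 46 8 46 10 11 6) (.lf 8 123 0 131)))) (.t 8 
(.lf (.thr (.pot 0) (.lm 5 43 5 43 7 8 7) (.pot 0))) (.y 1112 (.a 708 (.z 1020 (.t 12 
(.lf (.thr (.lf 0 131 7 124) (.lm 7 45 7 44 9 9 3) (.pot 0))) (.lf (.low 0))) (.t 12 
(.lf (.thr (.pot 0) (.lm 7 43 7 43 9 9 3) (.pot 0))) (.lf (.low 0)))) (.z 1020 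
(.lf (.thr (.lf 0 131 8 123) (.lm 8 45 8 44 10 11 3) (.pot 0))) (.t 12 
(.lf (.thr (.pot 0) (.lm 7 43 7 43 9 9 3) (.pot 0))) (.lf (.low 0))))) (.a 708 (.z 1020 
(.lf (.thr (.lf 0 131 8 123) (.lm 8 46 8 46 10 11 4) (.lf 8 123 0 131))) (.t 12 
(.lf (.thr (.pot 1) (.lm 7 45 7 44 9 9 4) (.pot 1))) (.lf (.low 0)))) (.z 1020 
(.lf (.thr (.lf 0 131 8 123) (.lm 8 46 8 46 10 11 4) (.lf 8 123 0 131))) (.t 12 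
(.lf (.thr (.lf 0 131 7 124) (.lm 7 45 7 44 9 9 4) (.pot 0))) (.lf (.low 0))))))))) (.y 1109 
(.lf (.thr (.lf 0 130 6 124) (.lm 6 40 7 40 10 11 9) (.pot 0))) (.z 1017 
(.lf (.thr (.lf 0 130 6 124) (.lm 6 46 7 46 10 11 6) (.pot 0))) (.t 8 
(.lf (.thr (.pot 0) (.lm 5 43 5 43 7 8 7) (.pot 0))) 
(.lf (.thr (.lf 0 131 8 123) (.lm 8 43 8 43 10 11 7) (.pot 1))))))) (.lf (.low 0))) (.t 16 
(.a 711 (.y 1109 (.z 1029 (.t 8 (.lf (.thr (.pot 0) (.lm 5 37 5 37 7 8 6) (.pot 0))) (.a 708 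
(.z 1026 (.y 1106 (.lf (.thr (.pot 1) (.lm 8 39 8 38 10 11 3) (.pot 1))) (.t 12 
(.lf (.thr (.pot 0) (.lm 7 40 7 40 9 9 3) (.pot 0))) (.lf (.low 0)))) 
(.lf (.thr (.pot 1) (.lm 8 37 8 37 10 11 5) (.pot 1)))) (.z 1026 (.y 1106 
(.lf (.thr (.pot 1) (.lm 8 39 8 38 10 11 3) (.pot 1))) (.t 12 
(.lf (.thr (.pot 0) (.lm 7 40 7 40 9 9 3) (.pot 0))) (.lf (.low 0)))) 
(.lf (.thr (.pot 1) (.lm 8 37 8 37 10 11 5) (.pot 1)))))) 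
(.lf (.thr (.pot 1) (.lm 6 34 7 34 10 11 6) (.pot 1)))) (.z 1029 (.t 8 
(.lf (.thr (.pot 0) (.lm 5 40 5 40 7 8 7) (.pot 0))) (.y 1112 (.a 708 (.z 1026 (.t 12 
(.lf (.thr (.pot 0) (.lm 7 42 7 41 9 9 3) (.pot 0))) (.lf (.low 0))) (.t 12 
(.lf (.thr (.pot 0) (.lm 7 40 7 40 9 9 3) (.pot 0))) (.lf (.low 0)))) (.z 1026 (.t 12 
(.lf (.thr (.pot 0) (.lm 7 42 7 41 9 9 3) (.pot 0))) (.lf (.low 0))) (.t 12 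
(.lf (.thr (.pot 0) (.lm 7 40 7 40 9 9 3) (.pot 0))) (.lf (.low 0))))) (.a 708 (.z 1026 (.t 12 
(.lf (.thr (.pot 1) (.lm 7 43 7 43 9 9 4) (.pot 0))) (.lf (.low 0))) (.lf .inf)) (.z 1026 
(.t 12 (.lf (.thr (.pot 1) (.lm 7 43 7 43 9 9 4) (.pot 0))) (.lf (.low 0))) (.t 12 
(.lf (.thr (.pot 0) (.lm 7 42 7 41 9 9 4) (.pot 0))) (.lf (.low 0))))))) (.t 8 
(.lf (.thr (.pot 0) (.lm 5 37 5 37 7 8 7) (.pot 0))) (.y 1112 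
(.lf (.thr (.pot 1) (.lm 8 37 8 37 10 11 5) (.pot 1))) (.a 708 (.lf .inf) (.z 1032 (.t 12 
(.lf (.thr (.pot 0) (.lm 7 40 7 40 9 9 4) (.pot 0))) (.lf (.low 0))) (.lf .inf))))))) (.y 1109 
(.z 1029 (.t 8 (.lf (.thr (.pot 0) (.lm 5 37 5 37 7 8 6) (.pot 0))) (.a 714 (.z 1026 
(.lf (.thr (.lf 0 131 8 123) (.lm 8 39 8 38 10 11 5) (.pot 1))) 
(.lf (.thr (.pot 1) (.lm 8 37 8 37 10 11 5) (.pot 1)))) 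
(.lf (.thr (.lf 0 131 8 123) (.lm 8 37 8 37 10 11 6) (.pot 0))))) 
(.lf (.thr (.pot 1) (.lm 6 34 7 34 10 11 6) (.pot 1)))) (.z 1029 (.t 8 
(.lf (.thr (.pot 0) (.lm 5 40 5 40 7 8 7) (.pot 0))) (.a 714 (.y 1112 (.z 1026 
(.lf (.thr (.lf 0 131 8 123) (.lm 8 42 8 41 10 11 3) (.pot 1))) (.t 12 
(.lf (.thr (.pot 0) (.lm 7 40 7 40 9 9 3) (.pot 0))) (.lf (.low 0)))) (.z 1026 (.t 12 
(.lf (.thr (.pot 1) (.lm 7 43 7 43 9 9 4) (.pot 0))) (.lf (.low 0))) (.t 12 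
(.lf (.thr (.pot 0) (.lm 7 42 7 41 9 9 4) (.pot 0))) (.lf (.low 0))))) (.y 1112 
(.lf (.thr (.lf 0 131 8 123) (.lm 8 40 8 40 10 11 5) (.pot 1))) (.z 1026 
(.lf (.thr (.lf 0 131 8 123) (.lm 8 43 8 43 10 11 4) (.pot 0))) (.t 12 
(.lf (.thr (.pot 0) (.lm 7 42 7 41 9 9 4) (.pot 0))) (.lf (.low 0))))))) (.t 8 
(.lf (.thr (.pot 0) (.lm 5 37 5 37 7 8 7) (.pot 0))) (.a 714 (.y 1112 
(.lf (.thr (.pot 1) (.lm 8 37 8 37 10 11 5) (.pot 1))) (.z 1032 (.t 12 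
(.lf (.thr (.pot 0) (.lm 7 40 7 40 9 9 4) (.pot 0))) (.lf (.low 0))) 
(.lf (.thr (.pot 1) (.lm 8 39 8 38 10 11 4) (.pot 1))))) (.y 1112 
(.lf (.thr (.pot 1) (.lm 8 37 8 37 10 11 5) (.pot 1))) (.z 1032 (.t 12 
(.lf (.thr (.pot 0) (.lm 7 40 7 40 9 9 4) (.pot 0))) (.lf (.low 0))) 
(.lf (.thr (.pot 1) (.lm 8 39 8 38 10 11 4) (.pot 1)))))))))) (.lf (.low 0))))) (.y 1103 
(.z 1023 (.t 16 (.lf (.thr (.lf 0 130 6 124) (.lm 6 34 7 34 10 11 12) (.pot 0))) (.lf (.low 0))) 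
(.t 16 (.lf (.thr (.lf 0 130 6 124) (.lm 6 28 7 28 10 11 12) (.pot 1))) (.lf (.low 0)))) 
(.z 1023 (.t 16 (.lf (.thr (.lf 0 130 6 124) (.lm 6 40 7 40 10 11 12) (.pot 0))) (.lf (.low 0))) 
(.t 16 (.a 724 (.y 1109 (.lf (.thr (.lf 0 130 6 124) (.lm 6 34 7 34 10 11 9) (.pot 1))) 
(.z 1029 (.lf (.thr (.lf 0 130 6 124) (.lm 6 40 7 40 10 11 7) (.pot 0))) (.t 8 
(.lf (.thr (.pot 0) (.lm 5 37 5 37 7 8 7) (.pot 0))) (.y 1112 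
(.lf (.thr (.pot 1) (.lm 8 37 8 37 10 11 5) (.pot 1))) (.a 721 (.z 1032 
(.lf (.thr (.lf 0 131 8 123) (.lm 8 40 8 40 10 11 4) (.pot 0))) 
(.lf (.thr (.pot 1) (.lm 8 39 8 38 10 11 4) (.pot 1)))) 
(.lf (.thr (.lf 0 131 8 123) (.lm 8 39 8 38 10 11 5) (.pot 0)))))))) 
(.lf (.thr (.lf 0 130 6 124) (.lm 6 34 7 34 10 11 13) (.pot 0)))) (.lf (.low 0))))))) (.z 1012 
(.a 718 (.y 1128 (.z 1001 
(.lf (.thr (.lf 0 131 8 123) (.lm 8 58 9 57 14 17 12) (.lf 9 121 0 131))) (.t 16 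
(.lf (.thr (.lf 0 130 6 125) (.lm 6 52 6 52 10 10 12) (.lf 6 124 0 130))) (.lf (.low 0)))) 
(.lf (.thr (.lf 0 131 8 122) (.lm 8 58 9 58 15 16 18) (.lf 9 122 0 131)))) (.y 1128 (.z 1001 
(.lf (.thr (.lf 0 131 8 123) (.lm 8 58 9 57 14 17 12) (.lf 9 121 0 131))) (.t 16 
(.lf (.thr (.lf 0 130 6 125) (.lm 6 52 6 52 10 10 12) (.pot 0))) (.lf (.low 0)))) 
(.lf (.thr (.lf 0 131 8 122) (.lm 8 58 9 58 15 16 18) (.lf 9 122 0 131))))) (.a 718 (.y 1128 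
(.z 1023 (.t 16 (.a 711 (.y 1122 (.z 1017 
(.lf (.thr (.lf 0 130 6 124) (.lm 6 50 6 49 10 10 6) (.lf 6 124 0 130))) (.t 8 
(.lf (.thr (.pot 0) (.lm 5 47 5 46 7 7 6) (.pot 0))) 
(.lf (.thr (.lf 0 131 8 123) (.lm 8 47 8 46 10 10 6) (.lf 8 123 0 131))))) 
(.lf (.thr (.lf 0 130 6 124) (.lm 6 50 6 49 10 10 9) (.lf 6 124 0 130)))) (.y 1122 (.z 1017 
(.lf (.thr (.lf 0 130 6 124) (.lm 6 50 6 49 10 10 6) (.lf 6 124 0 130))) (.t 8 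
(.lf (.thr (.pot 0) (.lm 5 47 5 46 7 7 6) (.pot 0))) 
(.lf (.thr (.lf 0 131 8 123) (.lm 8 47 8 46 10 10 6) (.lf 8 123 0 131))))) 
(.lf (.thr (.lf 0 130 6 124) (.lm 6 50 6 49 10 10 9) (.lf 6 124 0 130))))) (.lf (.low 0))) 
(.t 16 (.a 711 (.z 1029 (.y 1122 (.t 8 (.lf (.thr (.pot 0) (.lm 5 44 5 43 7 7 6) (.pot 0))) 
(.a 708 (.lf .inf) (.z 1026 (.y 1119 (.t 12 
(.lf (.thr (.pot 1) (.lm 7 45 7 45 9 9 3) (.pot 1))) (.lf (.low 0))) 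
(.lf (.thr (.lf 0 131 8 123) (.lm 8 47 8 46 10 10 3) (.lf 8 123 0 131)))) (.y 1119 (.t 12 
(.lf (.thr (.pot 1) (.lm 7 44 7 43 9 9 3) (.pot 0))) (.lf (.low 0))) (.lf .inf))))) (.lf .inf)) 
(.lf .inf)) (.z 1029 (.y 1122 (.t 8 (.lf (.thr (.pot 0) (.lm 5 44 5 43 7 7 6) (.pot 0))) 
(.a 714 (.z 1026 (.y 1119 (.t 12 (.lf (.thr (.lf 0 131 7 124) (.lm 7 45 7 45 9 9 3) (.pot 0))) 
(.lf (.low 0))) (.lf (.thr (.lf 0 131 8 123) (.lm 8 47 8 46 10 10 3) (.lf 8 123 0 131)))) 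
(.y 1119 (.t 12 (.lf (.thr (.pot 1) (.lm 7 44 7 43 9 9 3) (.pot 0))) (.lf (.low 0))) (.t 12 
(.lf (.thr (.pot 1) (.lm 7 45 7 45 9 9 3) (.pot 1))) (.lf (.low 0))))) (.z 1026 (.y 1119 
(.lf (.thr (.lf 0 131 8 123) (.lm 8 45 8 45 10 10 3) (.pot 1))) 
(.lf (.thr (.lf 0 131 8 123) (.lm 8 47 8 46 10 10 3) (.lf 8 123 0 131)))) (.y 1119 (.t 12 
(.lf (.thr (.pot 1) (.lm 7 44 7 43 9 9 3) (.pot 0))) (.lf (.low 0))) (.t 12 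
(.lf (.thr (.lf 0 131 7 124) (.lm 7 45 7 45 9 9 3) (.pot 0))) (.lf (.low 0))))))) (.t 8 
(.lf (.thr (.pot 1) (.lm 5 47 5 46 7 7 6) (.pot 1))) 
(.lf (.thr (.lf 0 131 8 123) (.lm 8 47 8 46 10 10 6) (.lf 8 123 0 131))))) (.y 1122 (.t 8 
(.lf (.thr (.pot 0) (.lm 5 41 5 40 7 7 6) (.pot 0))) (.a 714 (.z 1032 (.y 1119 (.t 12 
(.lf (.thr (.pot 0) (.lm 7 42 7 42 9 9 3) (.pot 0))) (.lf (.low 0))) (.t 12 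
(.lf (.thr (.pot 1) (.lm 7 44 7 43 9 9 3) (.pot 0))) (.lf (.low 0)))) (.y 1119 (.t 12 
(.lf (.thr (.pot 0) (.lm 7 41 7 40 9 9 3) (.pot 0))) (.lf (.low 0))) (.lf .inf))) (.z 1032 
(.y 1119 (.t 12 (.lf (.thr (.pot 0) (.lm 7 42 7 42 9 9 3) (.pot 0))) (.lf (.low 0))) (.t 12 
(.lf (.thr (.pot 1) (.lm 7 44 7 43 9 9 3) (.pot 0))) (.lf (.low 0)))) (.y 1119 (.t 12 
(.lf (.thr (.pot 0) (.lm 7 41 7 40 9 9 3) (.pot 0))) (.lf (.low 0))) (.t 12 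
(.lf (.thr (.pot 0) (.lm 7 42 7 42 9 9 3) (.pot 0))) (.lf (.low 0))))))) (.t 8 
(.lf (.thr (.pot 0) (.lm 5 44 5 43 7 7 6) (.pot 0))) (.a 714 (.lf .inf) (.z 1032 (.y 1125 
(.t 12 (.lf (.thr (.pot 1) (.lm 7 45 7 45 9 9 3) (.pot 1))) (.lf (.low 0))) 
(.lf (.thr (.lf 0 131 8 123) (.lm 8 47 8 46 10 10 3) (.lf 8 123 0 131)))) (.y 1125 (.t 12 
(.lf (.thr (.pot 1) (.lm 7 44 7 43 9 9 3) (.pot 0))) (.lf (.low 0))) (.lf .inf)))))))) 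
(.lf (.low 0)))) (.z 1023 (.t 16 
(.lf (.thr (.lf 0 130 6 124) (.lm 6 53 6 52 10 10 12) (.lf 6 124 0 130))) (.lf (.low 0))) 
(.t 16 (.a 711 (.lf .inf) (.y 1134 (.z 1029 
(.lf (.thr (.lf 0 130 6 124) (.lm 6 50 6 49 10 10 6) (.lf 6 124 0 130))) (.lf .inf)) (.lf .inf))) 
(.lf (.low 0))))) (.y 1128 (.z 1023 (.t 16 (.a 724 (.y 1122 
(.lf (.thr (.lf 0 130 6 124) (.lm 6 47 6 46 10 10 9) (.pot 0))) 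
(.lf (.thr (.lf 0 130 6 124) (.lm 6 50 6 49 10 10 9) (.lf 6 124 0 130)))) 
(.lf (.thr (.lf 0 130 6 124) (.lm 6 47 6 46 10 10 12) (.pot 0)))) (.lf (.low 0))) (.t 16 
(.a 724 (.z 1029 (.y 1122 (.t 8 (.lf (.thr (.pot 0) (.lm 5 44 5 43 7 7 6) (.pot 0))) 
(.lf (.thr (.lf 0 131 8 123) (.lm 8 44 8 43 10 10 6) (.pot 1)))) (.t 8 
(.lf (.thr (.lf 2 128 5 126) (.lm 5 47 5 46 7 7 6) (.pot 0))) 
(.lf (.thr (.lf 0 131 8 123) (.lm 8 47 8 46 10 10 6) (.lf 8 123 0 131))))) (.y 1122 (.t 8 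
(.lf (.thr (.pot 0) (.lm 5 41 5 40 7 7 6) (.pot 0))) (.a 721 (.z 1032 (.y 1119 
(.lf (.thr (.lf 0 131 8 123) (.lm 8 42 8 42 10 10 3) (.pot 1))) (.t 12 
(.lf (.thr (.pot 1) (.lm 7 44 7 43 9 9 3) (.pot 0))) (.lf (.low 0)))) (.y 1119 (.t 12 
(.lf (.thr (.pot 0) (.lm 7 41 7 40 9 9 3) (.pot 0))) (.lf (.low 0))) (.t 12 
(.lf (.thr (.pot 0) (.lm 7 42 7 42 9 9 3) (.pot 0))) (.lf (.low 0))))) 
(.lf (.thr (.lf 0 131 8 123) (.lm 8 41 8 40 10 10 6) (.pot 1))))) (.t 8 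
(.lf (.thr (.pot 0) (.lm 5 44 5 43 7 7 6) (.pot 0))) (.a 721 (.z 1032 (.y 1125 (.t 12 
(.lf (.thr (.lf 0 131 7 123) (.lm 7 45 7 45 9 9 3) (.pot 0))) (.lf (.low 0))) 
(.lf (.thr (.lf 0 131 8 123) (.lm 8 47 8 46 10 10 3) (.lf 8 123 0 131)))) (.y 1125 (.t 12 
(.lf (.thr (.pot 1) (.lm 7 44 7 43 9 9 3) (.pot 0))) (.lf (.low 0))) (.t 12 
(.lf (.thr (.pot 1) (.lm 7 45 7 45 9 9 3) (.pot 1))) (.lf (.low 0))))) (.z 1032 (.y 1125 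
(.lf (.thr (.lf 0 131 8 123) (.lm 8 45 8 45 10 10 3) (.pot 0))) 
(.lf (.thr (.lf 0 131 8 123) (.lm 8 47 8 46 10 10 3) (.lf 8 123 0 131)))) (.y 1125 (.t 12 
(.lf (.thr (.pot 1) (.lm 7 44 7 43 9 9 3) (.pot 0))) (.lf (.low 0))) (.t 12 
(.lf (.thr (.lf 0 131 7 123) (.lm 7 45 7 45 9 9 3) (.pot 0))) (.lf (.low 0))))))))) (.z 1029 
(.lf (.thr (.lf 0 130 6 124) (.lm 6 44 6 43 10 10 9) (.pot 0))) (.y 1122 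
(.lf (.thr (.lf 0 130 6 124) (.lm 6 41 6 40 10 10 6) (.pot 0))) (.t 8 
(.lf (.thr (.pot 0) (.lm 5 44 5 43 7 7 6) (.pot 0))) 
(.lf (.thr (.lf 0 131 8 123) (.lm 8 44 8 43 10 10 6) (.pot 1))))))) (.lf (.low 0)))) (.z 1023 
(.t 16 (.lf (.thr (.lf 0 130 6 124) (.lm 6 53 6 52 10 10 12) (.lf 6 124 0 130))) (.lf (.low 0))) 
(.t 16 (.a 724 (.y 1134 (.z 1029 
(.lf (.thr (.lf 0 130 6 124) (.lm 6 50 6 49 10 10 6) (.lf 6 124 0 130))) (.t 8 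
(.lf (.thr (.pot 1) (.lm 5 46 5 47 7 7 6) (.pot 1))) 
(.lf (.thr (.lf 0 131 8 123) (.lm 8 46 8 47 10 10 6) (.lf 8 123 0 131))))) 
(.lf (.thr (.lf 0 130 6 124) (.lm 6 49 6 50 10 10 10) (.lf 6 124 0 130)))) (.y 1134 (.z 1029 
(.lf (.thr (.lf 0 130 6 124) (.lm 6 50 6 49 10 10 6) (.lf 6 124 0 130))) (.t 8 
(.lf (.thr (.lf 2 128 5 126) (.lm 5 46 5 47 7 7 6) (.pot 0))) 
(.lf (.thr (.lf 0 131 8 123) (.lm 8 46 8 47 10 10 6) (.lf 8 123 0 131))))) 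
(.lf (.thr (.lf 0 130 6 124) (.lm 6 49 6 50 10 10 10) (.lf 6 124 0 130))))) (.lf (.low 0))))))))

theorem h9 : chk (leafT PP TD0 0 2) c9 0 32 705 731 990 1035 1091 1141 = true := by
  decide +kernel

def c10 : Tree :=
  (.a 705 (.lf .inf) (.y 1166 (.z 1012 
(.lf (.thr (.lf 0 131 8 122) (.lm 8 65 8 64 15 15 24) (.lf 8 122 0 131))) (.a 718 (.y 1153 
(.z 1023 (.lf (.thr (.lf 0 131 9 122) (.lm 9 59 9 59 16 15 12) (.lf 9 122 0 131))) (.lf .inf)) 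
(.lf .inf)) (.y 1153 (.z 1023 
(.lf (.thr (.lf 0 131 9 122) (.lm 9 59 9 59 16 15 12) (.lf 9 122 0 131))) (.t 16 
(.lf (.thr (.lf 0 130 6 124) (.lm 6 53 6 53 10 10 12) (.lf 6 124 0 130))) (.lf (.low 0)))) 
(.lf (.thr (.lf 0 131 9 122) (.lm 9 59 8 59 16 15 18) (.lf 8 122 0 131)))))) 
(.lf (.thr (.lf 0 131 9 122) (.lm 9 65 7 66 16 14 36) (.lf 7 113 0 120)))))

theorem h10 : chk (leafT PP TD0 0 2) c10 0 32 680 731 990 1035 1141 1192 = true := by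
  decide +kernel

def c11 : Tree :=
  (.y 1091 (.a 781 (.y 1040 (.lf .inf) (.y 1065 (.lf .inf) (.a 756 (.z 1012 
(.lf (.thr (.lf 0 121 8 113) (.lm 8 28 10 25 15 17 24) (.pot 0))) 
(.lf (.thr (.lf 0 131 9 122) (.lm 9 16 10 14 16 17 25) (.pot 1)))) (.lf .inf)))) (.lf .inf)) 
(.a 781 (.y 1141 (.a 756 (.y 1116 (.z 1012 
(.lf (.thr (.lf 0 121 8 113) (.lm 8 40 10 39 15 17 24) (.pot 0))) (.a 743 (.y 1103 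
(.lf (.thr (.lf 0 131 9 122) (.lm 9 29 10 27 16 17 18) (.pot 1))) (.z 1023 
(.lf (.thr (.lf 0 131 9 122) (.lm 9 40 10 40 16 17 12) (.pot 0))) (.t 16 
(.lf (.thr (.lf 0 130 6 124) (.lm 6 34 7 34 10 11 13) (.pot 0))) (.lf (.low 0))))) 
(.lf (.thr (.lf 0 131 9 122) (.lm 9 28 10 28 16 17 24) (.pot 0))))) (.z 1012 (.a 743 (.y 1128 
(.lf (.thr (.lf 0 128 8 119) (.lm 8 53 9 51 15 17 17) (.pot 0))) 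
(.lf (.thr (.lf 0 128 8 119) (.lm 8 58 9 58 15 16 18) (.lf 9 122 0 131)))) 
(.lf (.thr (.lf 0 121 8 113) (.lm 8 52 9 52 15 17 24) (.pot 0)))) (.a 743 (.y 1128 (.z 1023 
(.t 16 (.lf (.thr (.lf 0 130 6 124) (.lm 6 47 6 46 10 10 12) (.pot 0))) (.lf (.low 0))) (.t 16 
(.lf (.thr (.lf 0 130 6 124) (.lm 6 41 6 40 10 10 12) (.pot 0))) (.lf (.low 0)))) (.z 1023 
(.t 16 (.lf (.thr (.lf 0 130 6 124) (.lm 6 53 6 52 10 10 12) (.pot 0))) (.lf (.low 0))) (.t 16 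
(.y 1134 (.lf (.thr (.lf 0 130 6 124) (.lm 6 46 6 47 10 10 9) (.pot 0))) 
(.lf (.thr (.lf 0 130 6 124) (.lm 6 49 6 50 10 10 10) (.lf 6 124 0 130)))) (.lf (.low 0))))) 
(.y 1128 (.lf (.thr (.lf 0 131 9 122) (.lm 9 41 9 40 16 17 18) (.pot 1))) (.z 1023 
(.lf (.thr (.lf 0 131 9 122) (.lm 9 53 9 52 16 16 12) (.pot 0))) (.t 16 
(.lf (.thr (.lf 0 130 6 124) (.lm 6 46 6 47 10 10 13) (.pot 0))) (.lf (.low 0)))))))) (.y 1116 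
(.lf (.thr (.lf 0 109 9 100) (.lm 9 29 10 27 16 17 35) (.pot 0))) 
(.lf (.thr (.lf 0 109 9 100) (.lm 9 41 9 40 16 17 35) (.pot 1))))) (.y 1166 (.a 756 (.z 1012 
(.lf (.thr (.lf 0 121 8 113) (.lm 8 65 8 64 15 15 24) (.lf 8 122 0 131))) (.a 743 (.y 1153 
(.z 1023 (.lf (.thr (.lf 0 131 9 122) (.lm 9 59 9 59 16 15 12) (.lf 9 122 0 131))) (.t 16 
(.lf (.thr (.lf 0 130 6 124) (.lm 6 53 6 53 10 10 12) (.lf 6 124 0 130))) (.lf (.low 0)))) 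
(.lf (.thr (.lf 0 131 9 122) (.lm 9 59 8 59 16 15 18) (.lf 8 122 0 131)))) (.y 1153 (.z 1023 
(.lf (.thr (.lf 0 131 9 122) (.lm 9 59 9 59 16 15 12) (.lf 9 122 0 131))) (.t 16 
(.lf (.thr (.lf 0 130 6 124) (.lm 6 53 6 53 10 10 12) (.pot 0))) (.lf (.low 0)))) 
(.lf (.thr (.lf 0 131 9 122) (.lm 9 59 8 59 16 15 18) (.lf 8 122 0 131)))))) (.z 1012 (.a 768 
(.lf (.thr (.lf 0 115 8 107) (.lm 8 65 8 64 15 15 24) (.lf 8 122 0 131))) 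
(.lf (.thr (.lf 0 108 8 101) (.lm 8 65 8 64 15 15 24) (.pot 0)))) (.a 768 (.y 1153 
(.lf (.thr (.lf 0 126 9 118) (.lm 9 53 9 53 16 15 18) (.pot 1))) (.z 1023 
(.lf (.thr (.lf 0 126 9 118) (.lm 9 65 8 65 16 15 12) (.lf 8 122 0 131))) (.t 16 
(.lf (.thr (.lf 1 130 6 124) (.lm 6 59 6 59 10 10 13) (.pot 0))) (.lf (.low 0))))) 
(.lf (.thr (.lf 0 120 9 111) (.lm 9 53 8 53 16 15 24) (.pot 1)))))) (.a 756 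
(.lf (.thr (.lf 0 121 9 113) (.lm 9 65 7 66 16 14 36) (.lf 7 123 0 131))) (.z 1012 
(.lf (.thr (.lf 0 108 8 101) (.lm 8 77 7 77 15 14 24) (.lf 7 123 0 131))) 
(.lf (.thr (.lf 0 120 9 111) (.lm 9 65 7 66 16 14 25) (.lf 7 123 0 131))))))) (.y 1141 
(.lf (.thr (.lf 0 83 9 75) (.lm 9 29 9 27 16 17 48) (.pot 0))) (.a 806 (.y 1166 
(.lf (.thr (.lf 0 96 9 88) (.lm 9 53 8 53 16 15 35) (.pot 0))) (.z 1012 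
(.lf (.thr (.lm 0 96 8 88 5 15 24) (.lm 8 77 7 77 15 14 24) (.pot 0))) (.y 1179 
(.lf (.thr (.lf 0 107 9 99) (.lm 9 65 8 66 16 14 18) (.pot 0))) (.a 793 
(.lf (.thr (.lf 0 114 9 105) (.lm 9 71 7 73 16 12 18) (.lf 7 123 0 131))) 
(.lf (.thr (.lf 0 107 9 99) (.lm 9 71 7 73 16 12 18) (.pot 0))))))) 
(.lf (.thr (.lm 0 83 9 75 5 16 36) (.lm 9 53 8 53 16 16 48) (.pot 0)))))))

theorem h11 : chk (leafT PP TD0 0 2) c11 0 32 731 832 990 1035 990 1192 = true := by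
  decide +kernel

def c12 : Tree :=
  (.y 1293 (.a 731 (.a 680 (.lf .inf) (.y 1242 
(.lf (.thr (.lf 0 131 9 122) (.lf 9 77 6 80) (.lf 6 77 0 81))) (.lf .inf))) (.a 781 (.y 1242 
(.lf (.thr (.lf 0 109 9 100) (.lf 9 77 6 80) (.lf 6 102 0 107))) 
(.lf (.thr (.lf 0 109 9 100) (.lf 9 101 3 106) (.lf 3 78 0 80)))) (.y 1242 (.a 806 
(.lf (.thr (.lf 0 96 9 88) (.lf 9 77 6 80) (.lf 6 125 0 131))) (.y 1217 (.z 1012 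
(.lf (.thr (.lm 0 83 8 75 5 15 24) (.lm 8 89 6 91 15 11 24) (.pot 0))) (.a 819 
(.lf (.thr (.lm 0 101 9 92 5 16 18) (.lm 9 77 6 80 16 11 24) (.lf 6 124 0 131))) 
(.lf (.thr (.lm 0 94 9 86 5 16 18) (.lm 9 77 6 80 16 11 24) (.pot 0))))) 
(.lf (.thr (.lm 0 83 9 75 5 16 36) (.lf 9 89 5 93) (.lf 5 126 0 131))))) 
(.lf (.thr (.lf 0 83 9 75) (.lf 9 101 3 106) (.lf 3 103 0 105)))))) (.a 731 (.lf .inf) 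
(.y 1344 (.a 781 (.lf .inf) (.lf (.thr (.lf 0 83 9 75) (.lf 9 122 0 130) (.lf 0 78 0 79)))) 
(.lf .inf))))

theorem h12 : chk (leafT PP TD0 0 2) c12 0 32 630 832 990 1035 1192 1395 = true := by
  decide +kernel

def c13 : Tree :=
  (.a 933 (.y 1091 (.lf .inf) (.a 882 (.y 1141 (.lf .inf) 
(.lf (.thr (.lm 1 57 9 51 5 16 48) (.lm 9 53 8 53 16 16 48) (.pot 0)))) (.lf .inf))) (.lf .inf))

theorem h13 : chk (leafT PP TD0 0 2) c13 0 32 832 1035 990 1035 990 1192 = true := by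
  decide +kernel

def c14 : Tree :=
  (.y 1293 (.a 882 (.y 1242 (.a 857 (.y 1217 
(.lf (.thr (.lm 0 70 9 63 5 16 35) (.lm 9 77 6 80 16 11 35) (.pot 0))) (.z 1012 
(.lf (.thr (.lm 0 70 8 63 5 15 24) (.lf 8 101 5 104) (.pot 0))) (.a 844 
(.lf (.thr (.lm 0 88 9 80 5 16 18) (.lm 9 89 5 93 16 9 24) (.pot 0))) 
(.lf (.thr (.lm 1 81 9 74 5 16 18) (.lm 9 89 5 93 16 9 24) (.pot 0)))))) 
(.lf (.thr (.lm 2 57 9 51 5 16 35) (.lf 9 77 6 80) (.pot 0)))) (.y 1267 (.a 857 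
(.lf (.thr (.lm 0 70 9 63 5 16 35) (.lf 9 101 4 106) (.lf 4 127 0 130))) (.z 1012 (.a 869 
(.lf (.thr (.lm 1 63 8 58 5 15 17) (.lf 8 113 4 117) (.pot 0))) 
(.lf (.thr (.lm 2 57 8 51 5 15 18) (.lf 8 113 4 117) (.pot 0)))) (.a 869 
(.lf (.thr (.lm 1 75 9 68 5 16 18) (.lf 9 101 4 106) (.pot 1))) 
(.lf (.thr (.lm 2 68 9 62 5 16 18) (.lf 9 101 4 106) (.pot 0)))))) (.a 857 
(.lf (.thr (.lm 0 70 9 63 5 16 35) (.lf 9 113 2 119) (.lf 2 128 0 130))) (.z 1012 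
(.lf (.thr (.lm 2 57 8 51 5 15 24) (.lf 8 122 2 128) (.lf 2 128 2 129))) 
(.lf (.thr (.lm 2 68 9 62 5 16 24) (.lf 9 113 2 119) (.lf 2 128 2 129))))))) (.y 1242 
(.lf (.thr (.lm 4 32 9 25 8 16 48) (.lf 9 77 6 80) (.pot 1))) (.a 907 (.y 1267 
(.lf (.thr (.lm 3 44 9 39 5 16 35) (.lf 9 101 4 106) (.pot 0))) (.z 1012 (.y 1280 
(.lf (.thr (.lm 3 44 8 39 5 15 24) (.lf 8 122 3 128) (.pot 1))) (.a 894 (.z 1001 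
(.lf (.thr (.lm 3 50 8 46 5 14 12) (.lf 8 123 2 128) (.lf 2 128 3 128))) 
(.lf (.thr (.lm 3 56 8 51 5 15 12) (.lf 8 122 2 128) (.lf 2 128 3 128)))) (.z 1001 
(.lf (.thr (.lm 3 44 8 39 5 14 12) (.lf 8 123 2 128) (.pot 1))) 
(.lf (.thr (.lm 3 49 8 45 5 15 12) (.lf 8 122 2 128) (.pot 0)))))) (.y 1280 
(.lf (.thr (.lm 3 55 9 50 5 16 24) (.lf 9 113 3 119) (.pot 0))) (.a 894 
(.lf (.thr (.lm 3 62 9 56 5 16 18) (.lf 9 119 2 126) (.lf 2 128 3 128))) 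
(.lf (.thr (.lm 3 55 9 50 5 16 18) (.lf 9 119 2 126) (.pot 0))))))) (.y 1267 
(.lf (.thr (.lm 4 31 9 26 8 16 36) (.lf 9 101 4 106) (.pot 0))) (.z 1012 (.a 920 
(.lf (.thr (.lm 4 37 8 33 6 15 18) (.lf 8 122 2 128) (.pot 1))) 
(.lf (.thr (.lm 5 31 8 26 8 15 18) (.lf 8 122 2 128) (.pot 1)))) 
(.lf (.thr (.lm 4 42 9 37 8 16 25) (.lf 9 113 2 119) (.pot 0)))))))) (.y 1344 (.a 882 
(.lf (.thr (.lm 1 57 9 51 5 16 48) (.lf 9 122 0 130) (.lf 0 104 1 104))) (.a 907 (.y 1318 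
(.z 1012 (.a 894 (.lf (.thr (.lm 3 51 8 45 5 15 17) (.lf 8 122 1 129) (.lf 1 129 3 128))) 
(.y 1305 (.z 1001 (.t 16 (.lf (.thr (.lm 3 43 6 40 5 9 12) (.pot 0) (.pot 1))) (.a 900 
(.lf (.thr (.lm 3 49 10 41 4 14 9) (.lf 10 120 0 130) (.lf 0 130 3 128))) (.y 1299 
(.lf (.thr (.lm 3 45 10 38 5 14 9) (.lf 10 120 0 130) (.pot 0))) (.z 995 
(.lf (.thr (.lm 3 45 10 38 5 13 6) (.pot 0) (.pot 0))) 
(.lf (.thr (.lm 3 48 10 40 5 14 7) (.lf 10 120 0 131) (.lf 0 131 3 127))))))) (.t 16 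
(.lf (.thr (.lm 3 48 6 46 5 10 12) (.lf 6 125 2 128) (.pot 0))) 
(.lf (.thr (.lm 3 51 11 43 5 15 12) (.lf 11 120 0 130) (.lf 0 130 3 127))))) 
(.lf (.thr (.lm 3 44 8 39 5 15 18) (.lf 8 122 1 130) (.lf 1 130 3 127))))) (.a 894 
(.lf (.thr (.lm 3 62 9 56 5 16 18) (.lf 9 122 1 129) (.lf 1 129 3 128))) (.y 1305 (.z 1023 
(.t 16 (.lf (.thr (.lm 3 54 6 51 5 10 12) (.lf 6 124 2 128) (.pot 0))) 
(.lf (.thr (.lm 3 56 11 49 5 15 12) (.lf 11 119 0 130) (.lf 0 130 3 127)))) 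
(.lf (.thr (.lm 3 61 9 55 5 16 13) (.lf 9 121 1 129) (.lf 1 129 3 127)))) 
(.lf (.thr (.lm 3 55 9 50 5 16 18) (.lf 9 122 1 130) (.lf 1 130 3 127)))))) 
(.lf (.thr (.lm 3 44 9 39 5 16 35) (.lf 9 122 0 131) (.lf 0 131 3 127)))) (.y 1318 (.z 1012 
(.a 920 (.y 1305 (.z 1001 (.t 16 (.lf (.thr (.lm 4 36 6 34 5 9 12) (.pot 0) (.pot 0))) (.a 913 
(.y 1299 (.lf (.thr (.lm 4 42 10 35 5 14 9) (.lf 10 120 0 130) (.pot 0))) (.z 995 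
(.lf (.thr (.lm 4 42 10 35 5 13 6) (.pot 0) (.pot 0))) 
(.lf (.thr (.lm 4 44 10 38 5 14 6) (.pot 0) (.pot 1))))) 
(.lf (.thr (.lm 4 38 10 32 6 14 9) (.pot 0) (.pot 1))))) (.t 16 
(.lf (.thr (.lm 4 42 6 39 5 10 12) (.lf 6 125 2 128) (.pot 0))) 
(.lf (.thr (.lm 4 44 11 37 6 15 12) (.lf 11 120 0 130) (.pot 1))))) (.z 1001 (.t 16 
(.lf (.thr (.lm 4 36 6 34 5 9 12) (.pot 0) (.pot 0))) (.a 913 (.y 1311 (.z 995 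
(.lf (.thr (.lm 4 42 10 35 5 13 6) (.pot 0) (.pot 0))) 
(.lf (.thr (.lm 4 44 10 38 5 14 6) (.pot 1) (.pot 1)))) 
(.lf (.thr (.lm 4 42 10 35 5 14 9) (.pot 0) (.lf 0 131 4 127)))) 
(.lf (.thr (.lm 4 38 10 32 6 14 9) (.pot 1) (.pot 1))))) (.t 16 (.a 913 
(.lf (.thr (.lm 4 45 6 43 5 10 9) (.pot 0) (.pot 1))) 
(.lf (.thr (.lm 4 42 6 39 5 10 9) (.pot 0) (.pot 0)))) (.a 913 
(.lf (.thr (.lm 4 48 11 40 5 15 9) (.lf 11 120 0 131) (.lf 0 131 4 127))) (.y 1311 (.z 1006 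
(.t 24 (.lf (.thr (.lm 4 43 10 38 6 12 6) (.pot 0) (.pot 0))) (.a 916 
(.lf (.thr (.lm 4 46 12 39 6 14 4) (.lf 12 119 0 131) (.pot 1))) 
(.lf (.thr (.lm 5 44 12 37 6 14 5) (.pot 0) (.pot 1))))) 
(.lf (.thr (.lm 4 46 11 40 6 15 7) (.lf 11 120 0 131) (.pot 1)))) (.z 1006 (.t 24 
(.lf (.thr (.lm 4 43 10 38 6 12 6) (.pot 0) (.pot 0))) (.lf (.low 2))) (.t 24 (.a 916 
(.lf (.thr (.lm 4 48 10 42 5 12 5) (.lf 10 121 0 131) (.lf 0 131 4 126))) 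
(.lf (.thr (.lm 4 46 10 40 6 12 5) (.pot 0) (.pot 1)))) (.lf (.low 2))))))))) (.y 1305 
(.z 1001 (.t 16 (.lf (.thr (.lm 4 30 6 27 6 9 12) (.pot 0) (.pot 0))) 
(.lf (.thr (.lm 5 32 10 25 7 14 12) (.pot 0) (.pot 1)))) 
(.lf (.thr (.lm 5 36 8 32 8 15 12) (.lf 8 122 1 129) (.pot 1)))) (.z 1001 (.t 16 
(.lf (.thr (.lm 4 30 6 27 6 9 12) (.pot 0) (.pot 0))) 
(.lf (.thr (.lm 5 32 10 25 7 14 12) (.pot 1) (.pot 1)))) (.t 16 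
(.lf (.thr (.lm 4 35 6 33 6 10 12) (.pot 0) (.pot 0))) (.a 926 (.y 1311 
(.lf (.thr (.lm 5 41 11 34 7 15 9) (.lf 11 120 0 131) (.pot 1))) (.z 1006 
(.lf (.thr (.lm 5 41 11 34 7 14 6) (.pot 0) (.pot 1))) (.t 24 
(.lf (.thr (.lm 5 43 10 37 6 12 6) (.pot 0) (.pot 0))) (.lf (.low 2))))) (.y 1311 
(.lf (.thr (.lm 6 37 11 31 7 15 9) (.lf 11 120 0 131) (.pot 1))) (.z 1006 
(.lf (.thr (.lm 6 37 11 31 7 14 6) (.pot 0) (.pot 1))) (.t 24 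
(.lf (.thr (.lm 5 39 10 34 7 12 7) (.pot 0) (.pot 0))) (.lf (.low 2)))))))))) (.a 920 (.y 1305 
(.z 1023 (.lf (.thr (.lm 4 48 9 44 6 16 12) (.lf 9 122 1 129) (.pot 1))) 
(.lf (.thr (.lm 4 54 9 49 6 16 13) (.lf 9 121 1 129) (.pot 0)))) (.z 1023 (.t 16 
(.lf (.thr (.lm 4 47 6 45 5 10 12) (.lf 6 124 2 128) (.pot 0))) (.a 913 
(.lf (.thr (.lm 4 53 11 46 5 15 9) (.lf 11 119 0 131) (.lf 0 131 4 127))) (.y 1311 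
(.lf (.thr (.lm 4 49 11 43 6 15 9) (.lf 11 119 0 131) (.pot 0))) (.z 1017 (.t 24 
(.lf (.thr (.lm 4 49 10 43 6 12 6) (.lf 10 121 0 131) (.pot 0))) (.lf (.low 2))) 
(.lf (.thr (.lm 4 52 12 45 6 15 7) (.lf 12 119 0 131) (.lf 0 131 4 126))))))) (.t 16 
(.lf (.thr (.lm 4 53 6 50 5 10 13) (.lf 6 124 2 128) (.pot 0))) (.a 913 
(.lf (.thr (.lm 4 59 12 51 5 16 9) (.lf 12 119 0 131) (.lf 0 131 4 127))) (.y 1311 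
(.lf (.thr (.lm 4 55 12 48 6 16 10) (.lf 12 119 0 131) (.pot 0))) 
(.lf (.thr (.lm 4 55 12 48 6 16 10) (.lf 12 119 0 131) (.lf 0 131 4 126)))))))) (.y 1305 
(.lf (.thr (.lm 5 42 9 37 8 16 18) (.lf 9 122 1 129) (.pot 0))) (.z 1023 (.t 16 
(.lf (.thr (.lm 4 41 6 38 6 10 12) (.lf 6 124 2 128) (.pot 0))) (.a 926 (.y 1311 
(.lf (.thr (.lm 5 46 11 40 7 15 9) (.lf 11 119 0 131) (.pot 0))) (.z 1017 (.t 24 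
(.lf (.thr (.lm 5 46 10 40 6 12 6) (.lf 10 121 0 131) (.pot 0))) (.lf (.low 2))) 
(.lf (.thr (.lm 5 49 12 42 7 15 6) (.lf 12 119 0 131) (.pot 1))))) 
(.lf (.thr (.lm 6 43 11 36 7 15 9) (.lf 11 119 0 131) (.pot 1))))) (.t 16 
(.lf (.thr (.lm 4 46 6 44 6 10 13) (.lf 6 124 2 128) (.pot 0))) 
(.lf (.thr (.lm 5 48 12 42 7 16 13) (.lf 12 119 0 131) (.pot 1)))))))) (.z 1012 (.a 920 
(.y 1331 (.z 1001 (.lf (.thr (.lm 4 37 8 33 6 14 12) (.pot 0) (.lf 0 130 4 126))) (.t 16 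
(.lf (.thr (.lm 4 42 6 39 5 10 12) (.pot 0) (.lf 2 129 4 127))) 
(.lf (.thr (.lm 4 44 11 37 6 15 12) (.pot 1) (.lf 0 131 4 126))))) (.lf .inf)) (.y 1331 
(.z 1001 (.t 16 (.lf (.thr (.lm 4 30 6 27 6 9 12) (.pot 0) (.pot 0))) 
(.lf (.thr (.lm 5 32 10 25 7 14 12) (.pot 1) (.pot 1)))) (.t 16 
(.lf (.thr (.lm 4 35 6 33 6 10 12) (.pot 0) (.pot 0))) (.a 926 (.y 1324 (.z 1006 
(.lf (.thr (.lm 5 41 11 34 7 14 6) (.pot 1) (.pot 1))) (.t 24 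
(.lf (.thr (.lm 5 43 10 37 6 12 6) (.pot 0) (.pot 0))) (.lf (.low 2)))) 
(.lf (.thr (.lm 5 41 11 34 7 15 9) (.pot 0) (.lf 0 131 5 126)))) (.y 1324 (.z 1006 
(.lf (.thr (.lm 6 37 11 31 7 14 6) (.pot 0) (.pot 1))) (.t 24 
(.lf (.thr (.lm 5 39 10 34 7 12 7) (.pot 0) (.pot 0))) (.lf (.low 2)))) (.z 1006 
(.lf (.thr (.lm 6 37 11 31 7 14 6) (.pot 1) (.pot 0))) (.t 24 
(.lf (.thr (.lm 5 39 10 34 7 12 7) (.pot 0) (.pot 0))) (.lf (.low 2)))))))) (.z 1001 (.lf .inf) 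
(.lf (.thr (.lm 5 36 8 32 8 15 12) (.pot 1) (.lf 0 131 5 126)))))) (.a 920 (.y 1331 
(.lf (.thr (.lm 4 48 9 44 6 16 18) (.lf 9 122 0 130) (.lf 0 130 4 126))) 
(.lf (.thr (.lm 4 48 9 44 6 16 18) (.lf 9 122 0 131) (.lf 0 131 4 126)))) (.y 1331 (.z 1023 
(.t 16 (.a 926 (.y 1324 (.lf (.thr (.lm 4 44 6 42 6 10 9) (.lf 6 124 2 129) (.pot 0))) 
(.lf (.thr (.lm 4 44 6 42 6 10 9) (.lf 6 124 2 129) (.lf 2 129 4 126)))) 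
(.lf (.thr (.lm 4 40 6 39 6 10 9) (.pot 0) (.pot 0)))) (.a 926 (.y 1324 (.z 1017 (.t 24 
(.a 923 (.lf (.thr (.lm 5 47 10 42 6 12 4) (.lf 10 121 0 131) (.lf 0 131 5 126))) 
(.lf (.thr (.lm 5 46 10 40 6 12 4) (.pot 0) (.pot 1)))) (.lf (.low 2))) (.t 24 
(.lf (.thr (.lm 5 48 10 43 6 13 6) (.lf 10 120 0 131) (.pot 1))) (.lf (.low 2)))) 
(.lf (.thr (.lm 5 46 11 40 7 15 9) (.lf 11 119 0 131) (.lf 0 131 5 126)))) (.y 1324 (.z 1017 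
(.t 24 (.lf (.thr (.lm 5 42 10 37 7 12 6) (.pot 0) (.pot 1))) (.lf (.low 2))) (.t 24 
(.lf (.thr (.lm 5 45 10 39 7 13 7) (.lf 10 120 0 131) (.pot 0))) (.lf (.low 2)))) (.z 1017 
(.t 24 (.lf (.thr (.lm 5 42 10 37 7 12 6) (.pot 1) (.pot 1))) (.lf (.low 2))) (.t 24 (.a 929 
(.y 1327 (.lf (.thr (.lm 5 47 10 41 6 13 5) (.lf 10 120 0 131) (.pot 1))) 
(.lf (.thr (.lm 5 47 10 41 6 13 5) (.lf 10 120 0 131) (.lf 0 131 5 125)))) (.y 1327 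
(.lf (.thr (.lm 5 45 10 39 7 13 5) (.lf 10 120 0 131) (.pot 1))) (.z 1020 
(.lf (.thr (.lm 5 45 10 39 7 13 4) (.pot 1) (.pot 1))) (.t 20 
(.lf (.thr (.lm 5 46 10 41 6 11 4) (.pot 0) (.pot 0))) (.lf (.low 2)))))) (.lf (.low 2))))))) 
(.t 16 (.a 926 (.lf (.thr (.lm 4 50 6 47 6 10 9) (.lf 6 124 2 129) (.pot 1))) 
(.lf (.thr (.lm 4 46 6 44 6 10 10) (.lf 6 124 2 129) (.pot 0)))) (.a 926 
(.lf (.thr (.lm 5 52 12 45 7 16 9) (.lf 12 119 0 131) (.lf 0 131 5 126))) (.y 1324 (.z 1029 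
(.t 24 (.lf (.thr (.lm 5 48 10 42 7 13 7) (.lf 10 120 0 131) (.pot 0))) (.lf (.low 2))) 
(.lf (.thr (.lm 6 51 12 45 7 16 7) (.lf 12 119 0 131) (.pot 1)))) (.z 1029 (.t 24 (.a 929 
(.lf (.thr (.lm 5 50 10 44 6 13 5) (.lf 10 120 0 131) (.lf 0 131 5 125))) (.y 1327 
(.lf (.thr (.lm 5 48 10 42 7 13 5) (.lf 10 120 0 131) (.pot 0))) (.z 1026 (.t 20 
(.lf (.thr (.lm 5 47 10 43 6 11 4) (.lf 10 121 0 131) (.pot 0))) (.lf (.low 2))) 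
(.lf (.thr (.lm 5 49 10 44 7 13 4) (.lf 10 120 0 131) (.pot 1)))))) (.lf (.low 2))) (.t 24 
(.lf (.thr (.lm 5 51 11 45 7 13 7) (.lf 11 120 0 131) (.pot 1))) (.lf (.low 2)))))))) (.z 1023 
(.t 16 (.a 926 (.lf (.thr (.lm 4 44 6 42 6 10 9) (.pot 0) (.lf 2 129 4 126))) 
(.lf (.thr (.lm 4 40 6 39 6 10 9) (.pot 0) (.pot 0)))) (.a 926 
(.lf (.thr (.lm 5 46 11 40 7 15 9) (.pot 0) (.lf 0 131 5 126))) (.y 1337 (.z 1017 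
(.lf (.thr (.lm 6 43 11 36 7 15 6) (.pot 0) (.lf 0 131 6 125))) (.t 24 (.a 929 
(.lf (.thr (.lm 5 47 10 41 6 13 5) (.pot 0) (.lf 0 131 5 125))) (.z 1020 
(.lf (.thr (.lm 5 45 10 39 7 13 4) (.pot 1) (.pot 1))) 
(.lf (.thr (.lm 5 46 10 41 7 13 4) (.pot 1) (.lf 0 131 5 125))))) (.lf (.low 2)))) 
(.lf (.thr (.lm 6 43 11 36 7 15 9) (.pot 0) (.lf 0 131 6 125)))))) (.t 16 
(.lf (.thr (.lm 4 46 6 44 6 10 13) (.lf 6 124 2 129) (.lf 2 129 4 126))) 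
(.lf (.thr (.lm 5 48 12 42 7 16 13) (.lf 12 119 0 131) (.lf 0 131 5 125))))))))))) (.a 882 
(.lf .inf) (.a 907 (.lf .inf) (.y 1369 (.z 1012 (.lf .inf) (.a 920 (.lf .inf) 
(.lf (.thr (.lm 5 42 9 37 8 16 18) (.pot 0) (.lf 0 131 5 126))))) (.lf .inf))))))

theorem h14 : chk (leafT PP TD0 0 2) c14 0 32 832 933 990 1035 1192 1395 = true := by
  decide +kernel

def c15 : Tree :=
  (.y 1293 (.a 984 (.y 1242 (.lf .inf) (.a 958 (.y 1267 (.lf .inf) (.z 1012 (.y 1280 (.lf .inf) 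
(.a 945 (.lf (.thr (.lm 5 25 8 20 9 15 17) (.lf 8 122 2 128) (.pot 1))) (.lf .inf))) 
(.lf (.thr (.lm 6 29 9 25 10 16 24) (.lf 9 113 2 119) (.pot 0))))) (.lf .inf))) (.lf .inf)) 
(.a 984 (.y 1344 (.a 958 (.y 1318 (.z 1012 (.a 945 (.y 1305 (.z 1001 
(.lf (.thr (.lm 5 25 8 20 9 14 12) (.pot 0) (.pot 1))) 
(.lf (.thr (.lm 5 30 8 26 9 15 12) (.lf 8 122 1 129) (.pot 1)))) (.z 1001 
(.lf (.thr (.lm 5 25 8 20 9 14 12) (.pot 0) (.pot 1))) (.t 16 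
(.lf (.thr (.lm 5 29 6 27 7 10 12) (.pot 0) (.pot 0))) (.y 1311 
(.lf (.thr (.lm 6 31 11 25 9 15 12) (.lf 11 120 0 131) (.pot 1))) (.a 939 (.z 1006 
(.lf (.thr (.lm 6 34 11 28 8 14 6) (.pot 0) (.pot 1))) 
(.lf (.thr (.lm 6 37 11 30 8 15 6) (.pot 0) (.pot 1)))) 
(.lf (.thr (.lm 7 31 11 25 9 15 9) (.pot 0) (.pot 1)))))))) (.y 1305 (.z 1001 
(.lf (.thr (.lm 6 18 8 14 10 14 12) (.pot 0) (.pot 1))) 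
(.lf (.thr (.lm 6 24 8 19 10 15 12) (.pot 0) (.pot 1)))) (.z 1001 
(.lf (.thr (.lm 6 18 8 14 10 14 12) (.pot 0) (.pot 1))) (.t 16 
(.lf (.thr (.lm 5 22 6 21 7 10 12) (.pot 0) (.pot 0))) (.a 951 
(.lf (.thr (.lm 7 28 11 22 9 15 9) (.pot 0) (.pot 1))) 
(.lf (.thr (.lm 7 25 11 18 10 15 9) (.pot 0) (.pot 1)))))))) (.a 945 (.y 1305 
(.lf (.thr (.lm 5 36 9 31 9 16 18) (.lf 9 122 1 129) (.pot 0))) (.z 1023 (.t 16 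
(.lf (.thr (.lm 5 34 6 33 7 10 12) (.pot 0) (.pot 0))) 
(.lf (.thr (.lm 6 37 11 30 9 15 12) (.lf 11 119 0 131) (.pot 1)))) 
(.lf (.thr (.lm 5 41 9 37 9 16 12) (.lf 9 121 1 130) (.pot 1))))) (.y 1305 
(.lf (.thr (.lm 6 29 9 25 10 16 18) (.lf 9 122 1 129) (.pot 0))) (.z 1023 (.t 16 
(.lf (.thr (.lm 5 28 6 26 7 10 12) (.pot 0) (.pot 0))) 
(.lf (.thr (.lm 7 30 11 24 10 15 12) (.lf 11 119 0 131) (.pot 1)))) 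
(.lf (.thr (.lm 6 34 9 31 10 16 13) (.lf 9 121 1 130) (.pot 0))))))) (.z 1012 (.y 1331 (.a 945 
(.z 1001 (.lf (.thr (.lm 5 25 8 20 9 14 12) (.pot 1) (.pot 1))) (.t 16 
(.lf (.thr (.lm 5 29 6 27 7 10 12) (.pot 0) (.pot 0))) (.y 1324 (.a 939 (.z 1006 
(.lf (.thr (.lm 6 34 11 28 8 14 6) (.pot 1) (.pot 0))) 
(.lf (.thr (.lm 6 37 11 30 8 15 6) (.pot 1) (.pot 1)))) 
(.lf (.thr (.lm 7 31 11 25 9 15 9) (.pot 1) (.pot 1)))) (.a 939 (.z 1006 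
(.lf (.thr (.lm 6 34 11 28 8 14 6) (.pot 1) (.pot 0))) 
(.lf (.thr (.lm 6 37 11 30 8 15 6) (.pot 1) (.pot 1)))) 
(.lf (.thr (.lm 7 31 11 25 9 15 9) (.pot 1) (.pot 1))))))) (.z 1001 
(.lf (.thr (.lm 6 18 8 14 10 14 12) (.pot 0) (.pot 1))) (.t 16 
(.lf (.thr (.lm 5 22 6 21 7 10 12) (.pot 0) (.pot 0))) (.a 951 
(.lf (.thr (.lm 7 28 11 22 9 15 9) (.pot 0) (.pot 1))) 
(.lf (.thr (.lm 7 25 11 18 10 15 9) (.pot 0) (.pot 1))))))) (.a 945 (.z 1001 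
(.lf (.thr (.lm 5 25 8 20 9 14 12) (.pot 1) (.pot 0))) (.t 16 
(.lf (.thr (.lm 5 29 6 27 7 10 12) (.pot 0) (.pot 0))) (.y 1337 (.a 939 (.z 1006 
(.lf (.thr (.lm 6 34 11 28 8 14 6) (.pot 1) (.pot 0))) 
(.lf (.thr (.lm 6 37 11 30 8 15 6) (.pot 1) (.pot 1)))) 
(.lf (.thr (.lm 7 31 11 25 9 15 9) (.pot 1) (.pot 1)))) (.a 939 (.lf .inf) 
(.lf (.thr (.lm 7 31 11 25 9 15 9) (.pot 1) (.pot 1))))))) (.z 1001 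
(.lf (.thr (.lm 6 18 8 14 10 14 12) (.pot 1) (.pot 0))) (.t 16 
(.lf (.thr (.lm 5 22 6 21 7 10 12) (.pot 0) (.pot 0))) (.a 951 
(.lf (.thr (.lm 7 28 11 22 9 15 9) (.pot 1) (.pot 1))) 
(.lf (.thr (.lm 7 25 11 18 10 15 9) (.pot 1) (.pot 1)))))))) (.y 1331 (.a 945 (.z 1023 (.t 16 
(.lf (.thr (.lm 5 34 6 33 7 10 12) (.pot 0) (.pot 0))) (.y 1324 (.a 939 (.z 1017 (.t 24 
(.lf (.thr (.lm 6 39 10 34 7 12 6) (.pot 0) (.pot 0))) (.lf (.low 2))) (.t 24 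
(.lf (.thr (.lm 6 42 10 36 7 13 6) (.lf 10 120 0 131) (.pot 0))) (.lf (.low 2)))) (.z 1017 
(.t 24 (.lf (.thr (.lm 6 36 10 31 8 12 6) (.pot 0) (.pot 0))) (.lf (.low 2))) 
(.lf (.thr (.lm 7 39 12 33 9 15 6) (.lf 12 119 0 131) (.pot 1))))) (.a 939 (.z 1017 (.t 24 
(.lf (.thr (.lm 6 39 10 34 7 12 6) (.pot 0) (.pot 0))) (.lf (.low 2))) (.t 24 (.y 1327 
(.lf (.thr (.lm 6 42 10 36 7 13 6) (.lf 10 120 0 131) (.pot 1))) (.a 936 (.z 1020 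
(.lf (.thr (.lm 6 43 10 38 7 13 3) (.pot 0) (.pot 1))) 
(.lf (.thr (.lm 6 44 10 40 7 13 3) (.pot 0) (.pot 1)))) 
(.lf (.thr (.lm 6 41 10 37 7 13 5) (.pot 0) (.pot 1))))) (.lf (.low 2)))) (.z 1017 (.t 24 
(.lf (.thr (.lm 6 36 10 31 8 12 6) (.pot 0) (.pot 0))) (.lf (.low 2))) (.t 24 
(.lf (.thr (.lm 6 38 10 34 8 13 6) (.pot 0) (.pot 1))) (.lf (.low 2))))))) (.t 16 
(.lf (.thr (.lm 5 40 6 38 7 10 12) (.lf 6 124 2 129) (.pot 0))) (.y 1324 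
(.lf (.thr (.lm 6 42 12 36 9 16 12) (.lf 12 119 0 131) (.pot 1))) (.a 939 (.z 1029 (.t 24 
(.lf (.thr (.lm 6 45 10 39 7 13 6) (.lf 10 120 0 131) (.pot 1))) (.lf (.low 2))) (.t 24 
(.lf (.thr (.lm 6 48 11 42 7 13 6) (.lf 11 120 0 131) (.pot 0))) (.lf (.low 2)))) (.z 1029 
(.t 24 (.lf (.thr (.lm 6 41 10 37 8 13 6) (.lf 10 120 0 131) (.pot 0))) (.lf (.low 2))) (.t 24 
(.lf (.thr (.lm 6 44 11 40 8 13 6) (.lf 11 120 0 131) (.pot 0))) (.lf (.low 2)))))))) (.z 1023 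
(.t 16 (.lf (.thr (.lm 5 28 6 26 7 10 12) (.pot 0) (.pot 0))) (.a 951 (.y 1324 (.z 1017 
(.lf (.thr (.lm 7 33 11 28 9 15 6) (.pot 0) (.pot 1))) 
(.lf (.thr (.lm 7 36 12 30 9 15 6) (.lf 12 119 0 131) (.pot 1)))) (.z 1017 
(.lf (.thr (.lm 7 33 11 28 9 15 6) (.pot 1) (.pot 1))) (.t 24 
(.lf (.thr (.lm 6 35 10 31 8 13 6) (.pot 0) (.pot 0))) (.lf (.low 2))))) (.y 1324 (.z 1017 
(.lf (.thr (.lm 7 30 11 24 10 15 6) (.pot 0) (.pot 1))) 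
(.lf (.thr (.lm 7 32 12 27 10 15 7) (.lf 12 119 0 131) (.pot 1)))) (.z 1017 
(.lf (.thr (.lm 7 30 11 24 10 15 6) (.pot 0) (.pot 1))) (.t 24 
(.lf (.thr (.lm 7 32 10 27 9 13 7) (.pot 0) (.pot 0))) (.lf (.low 2))))))) (.t 16 
(.lf (.thr (.lm 5 33 6 32 7 10 13) (.lf 6 124 2 129) (.pot 0))) (.a 951 (.y 1324 
(.lf (.thr (.lm 7 39 12 33 9 16 9) (.lf 12 119 0 131) (.pot 0))) (.z 1029 (.t 24 
(.lf (.thr (.lm 6 38 10 34 8 13 6) (.lf 10 120 0 131) (.pot 0))) (.lf (.low 2))) 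
(.lf (.thr (.lm 7 42 12 36 9 16 6) (.lf 12 119 0 131) (.pot 1))))) (.y 1324 
(.lf (.thr (.lm 7 35 12 30 10 16 10) (.lf 12 119 0 131) (.pot 0))) (.z 1029 
(.lf (.thr (.lm 7 35 12 30 10 16 7) (.lf 12 119 0 131) (.pot 1))) 
(.lf (.thr (.lm 7 38 12 33 10 16 7) (.lf 12 119 0 131) (.pot 1))))))))) (.a 945 (.z 1023 
(.t 16 (.lf (.thr (.lm 5 34 6 33 7 10 12) (.pot 0) (.pot 0))) (.y 1337 (.a 939 (.z 1017 (.t 24 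
(.lf (.thr (.lm 6 39 10 34 7 12 6) (.pot 0) (.pot 0))) (.lf (.low 2))) (.t 24 (.a 936 (.z 1020 
(.lf (.thr (.lm 6 43 10 38 7 13 3) (.pot 1) (.pot 0))) 
(.lf (.thr (.lm 6 44 10 40 7 13 3) (.pot 1) (.pot 1)))) 
(.lf (.thr (.lm 6 41 10 37 7 13 5) (.pot 0) (.pot 1)))) (.lf (.low 2)))) (.z 1017 (.t 24 
(.lf (.thr (.lm 6 36 10 31 8 12 6) (.pot 0) (.pot 0))) (.lf (.low 2))) (.t 24 
(.lf (.thr (.lm 6 38 10 34 8 13 6) (.pot 0) (.pot 1))) (.lf (.low 2))))) (.a 939 (.z 1017 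
(.lf (.thr (.lm 6 40 11 33 8 15 6) (.pot 0) (.lf 0 131 6 124))) 
(.lf (.thr (.lm 6 42 12 36 8 15 6) (.pot 1) (.lf 0 131 6 124)))) (.z 1017 (.t 24 
(.lf (.thr (.lm 6 36 10 31 8 12 6) (.pot 0) (.pot 0))) (.lf (.low 2))) (.t 24 
(.lf (.thr (.lm 6 38 10 34 8 13 6) (.pot 1) (.pot 1))) (.lf (.low 2))))))) (.t 16 (.y 1337 
(.a 939 (.z 1029 (.lf (.thr (.lm 4 43 6 41 6 10 6) (.pot 0) (.pot 0))) 
(.lf (.thr (.lm 4 46 6 44 6 10 6) (.lf 6 124 2 129) (.pot 0)))) 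
(.lf (.thr (.lm 5 40 6 38 7 10 9) (.lf 6 124 2 129) (.pot 0)))) (.a 939 (.z 1029 
(.lf (.thr (.lm 4 43 6 41 6 10 6) (.pot 0) (.pot 0))) 
(.lf (.thr (.lm 4 46 6 44 6 10 6) (.lf 6 124 1 129) (.lf 1 129 4 126)))) 
(.lf (.thr (.lm 5 40 6 38 7 10 9) (.pot 1) (.pot 1))))) (.y 1337 (.a 939 (.z 1029 (.t 24 
(.a 936 (.z 1026 (.y 1334 (.t 20 
(.lf (.thr (.lm 5 46 10 41 7 11 3) (.lf 10 121 0 131) (.pot 0))) (.lf (.low 2))) (.t 20 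
(.lf (.thr (.lm 5 46 10 41 7 11 3) (.pot 1) (.pot 0))) (.lf (.low 2)))) (.y 1334 (.t 20 
(.lf (.thr (.lm 5 47 10 43 7 12 3) (.lf 10 121 0 131) (.pot 0))) (.lf (.low 2))) 
(.lf (.thr (.lm 6 47 10 43 7 13 3) (.lf 10 120 0 131) (.lf 0 131 6 125))))) (.z 1026 (.y 1334 
(.t 20 (.lf (.thr (.lm 6 44 10 40 7 11 3) (.pot 0) (.pot 0))) (.lf (.low 2))) (.t 20 
(.lf (.thr (.lm 6 44 10 40 7 11 3) (.pot 0) (.pot 0))) (.lf (.low 2)))) (.y 1334 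
(.lf (.thr (.lm 6 46 10 41 7 13 3) (.lf 10 120 0 131) (.pot 1))) (.t 20 
(.lf (.thr (.lm 6 46 10 41 7 12 3) (.pot 0) (.pot 1))) (.lf (.low 2)))))) (.lf (.low 2))) 
(.t 24 (.a 936 (.lf (.thr (.lm 6 49 11 44 7 13 5) (.lf 11 120 0 131) (.lf 0 131 6 125))) 
(.z 1032 (.y 1334 (.lf (.thr (.lm 6 47 11 43 7 13 3) (.lf 11 120 0 131) (.pot 0))) (.t 20 
(.lf (.thr (.lm 6 47 10 43 7 12 3) (.lf 10 121 0 131) (.pot 0))) (.lf (.low 2)))) 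
(.lf (.thr (.lm 6 49 11 44 7 13 3) (.lf 11 120 0 131) (.pot 1))))) (.lf (.low 2)))) (.z 1029 
(.t 24 (.a 942 (.z 1026 (.lf (.thr (.lm 6 43 10 38 8 13 3) (.pot 0) (.pot 1))) (.y 1334 
(.lf (.thr (.lm 6 44 10 40 8 13 3) (.lf 10 120 0 131) (.pot 1))) (.t 20 
(.lf (.thr (.lm 6 44 10 40 7 12 3) (.pot 0) (.pot 0))) (.lf (.low 2))))) (.z 1026 
(.lf (.thr (.lm 6 41 10 37 8 13 3) (.pot 0) (.pot 1))) 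
(.lf (.thr (.lm 6 43 10 38 8 13 3) (.lf 10 120 0 131) (.pot 1))))) (.lf (.low 2))) (.t 24 
(.lf (.thr (.lm 6 44 11 40 8 13 6) (.lf 11 120 0 131) (.pot 1))) (.lf (.low 2))))) (.a 939 
(.z 1029 (.t 24 (.y 1340 (.a 936 
(.lf (.thr (.lm 6 46 10 41 7 13 5) (.pot 0) (.lf 0 131 6 125))) (.z 1026 
(.lf (.thr (.lm 6 44 10 40 7 13 3) (.pot 1) (.lf 0 131 6 125))) (.t 20 
(.lf (.thr (.lm 6 46 10 41 7 12 3) (.pot 0) (.pot 1))) (.lf (.low 2))))) (.lf (.low 2))) 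
(.lf (.low 2))) (.t 24 
(.lf (.thr (.lm 6 48 11 42 7 13 6) (.lf 11 120 0 131) (.lf 0 131 6 125))) (.lf (.low 2)))) 
(.z 1029 (.t 24 (.y 1340 (.a 942 (.z 1026 
(.lf (.thr (.lm 6 43 10 38 8 13 3) (.pot 1) (.pot 1))) (.t 20 
(.lf (.thr (.lm 6 44 10 40 7 12 3) (.pot 0) (.pot 0))) (.lf (.low 2)))) (.z 1026 
(.lf (.thr (.lm 6 41 10 37 8 13 3) (.pot 0) (.pot 1))) (.t 20 
(.lf (.thr (.lm 6 43 10 38 7 12 3) (.pot 0) (.pot 0))) (.lf (.low 2))))) (.lf (.low 2))) 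
(.lf (.low 2))) (.t 24 (.y 1340 (.a 942 (.z 1032 (.t 20 
(.lf (.thr (.lm 6 46 10 41 7 12 3) (.pot 0) (.pot 1))) (.lf (.low 2))) (.t 20 
(.lf (.thr (.lm 6 47 10 43 7 12 3) (.lf 10 121 0 131) (.pot 0))) (.lf (.low 2)))) (.z 1032 
(.t 20 (.lf (.thr (.lm 6 44 10 40 7 12 3) (.lf 10 121 0 131) (.pot 0))) (.lf (.low 2))) 
(.lf (.thr (.lm 6 46 11 41 8 13 3) (.lf 11 120 0 131) (.pot 1))))) (.lf (.low 2))) 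
(.lf (.low 2)))))))) (.z 1023 (.t 16 (.lf (.thr (.lm 5 28 6 26 7 10 12) (.pot 0) (.pot 0))) 
(.a 951 (.y 1337 (.z 1017 (.lf (.thr (.lm 7 33 11 28 9 15 6) (.pot 1) (.pot 1))) (.t 24 
(.lf (.thr (.lm 6 35 10 31 8 13 6) (.pot 0) (.pot 0))) (.lf (.low 2)))) (.z 1017 
(.lf (.thr (.lm 7 33 11 28 9 15 6) (.pot 1) (.pot 1))) (.t 24 
(.lf (.thr (.lm 6 35 10 31 8 13 6) (.pot 0) (.pot 0))) (.lf (.low 2))))) (.y 1337 (.z 1017 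
(.lf (.thr (.lm 7 30 11 24 10 15 6) (.pot 0) (.pot 1))) (.t 24 
(.lf (.thr (.lm 7 32 10 27 9 13 7) (.pot 0) (.pot 0))) (.lf (.low 2)))) (.z 1017 
(.lf (.thr (.lm 7 30 11 24 10 15 6) (.pot 1) (.pot 1))) (.t 24 
(.lf (.thr (.lm 7 32 10 27 9 13 7) (.pot 0) (.pot 0))) (.lf (.low 2))))))) (.t 16 
(.lf (.thr (.lm 5 33 6 32 7 10 13) (.pot 0) (.pot 1))) (.a 951 (.y 1337 (.z 1029 (.t 24 
(.lf (.thr (.lm 6 38 10 34 8 13 6) (.pot 1) (.pot 1))) (.lf (.low 2))) (.t 24 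
(.lf (.thr (.lm 6 41 11 37 8 13 6) (.lf 11 120 0 131) (.pot 1))) (.lf (.low 2)))) (.z 1029 
(.t 24 (.lf (.thr (.lm 6 38 10 34 8 13 6) (.pot 1) (.pot 1))) (.lf (.low 2))) (.t 24 (.y 1340 
(.a 948 (.z 1032 (.lf (.thr (.lm 6 43 11 38 8 13 3) (.lf 11 120 0 131) (.pot 1))) 
(.lf (.thr (.lm 6 44 11 40 8 13 3) (.lf 11 120 0 131) (.pot 1)))) 
(.lf (.thr (.lm 7 41 11 37 8 13 5) (.lf 11 120 0 131) (.pot 1)))) (.lf (.low 2))) 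
(.lf (.low 2))))) (.y 1337 (.z 1029 (.t 24 
(.lf (.thr (.lm 7 35 10 30 9 13 7) (.pot 0) (.pot 1))) (.lf (.low 2))) (.t 24 
(.lf (.thr (.lm 7 38 11 33 9 13 7) (.lf 11 120 0 131) (.pot 0))) (.lf (.low 2)))) (.z 1029 
(.t 24 (.lf (.thr (.lm 7 35 10 30 9 13 7) (.pot 0) (.pot 1))) (.lf (.low 2))) (.t 24 (.a 954 
(.y 1340 (.lf (.thr (.lm 7 40 11 35 8 13 5) (.lf 11 120 0 131) (.pot 1))) (.lf (.low 2))) 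
(.lf (.thr (.lm 7 38 11 33 9 13 5) (.pot 1) (.pot 1)))) (.lf (.low 2)))))))))))) (.y 1318 
(.z 1012 (.a 971 (.y 1305 (.lf .inf) (.z 1001 
(.lf (.thr (.lm 7 12 8 7 11 14 12) (.pot 0) (.pot 1))) 
(.lf (.thr (.lm 7 17 8 13 11 15 12) (.pot 0) (.pot 1))))) (.lf .inf)) (.a 971 (.y 1305 
(.lf .inf) (.z 1023 (.lf (.thr (.lm 7 22 9 19 11 16 12) (.lf 9 122 1 130) (.pot 1))) 
(.lf (.thr (.lm 7 28 9 24 11 16 13) (.lf 9 121 1 130) (.pot 0))))) (.lf .inf))) (.z 1012 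
(.a 971 (.y 1331 (.z 1001 (.lf (.thr (.lm 7 12 8 7 11 14 12) (.pot 0) (.pot 1))) 
(.lf (.thr (.lm 7 17 8 13 11 15 12) (.pot 1) (.pot 1)))) (.z 1001 
(.lf (.thr (.lm 7 12 8 7 11 14 12) (.pot 1) (.pot 1))) 
(.lf (.thr (.lm 7 17 8 13 11 15 12) (.pot 1) (.pot 1))))) (.y 1331 (.z 1001 
(.lf (.thr (.lm 7 6 8 0 13 14 12) (.pot 0) (.pot 1))) 
(.lf (.thr (.lm 7 11 8 6 13 15 12) (.pot 1) (.pot 1)))) (.z 1001 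
(.lf (.thr (.lm 7 6 8 0 13 14 12) (.pot 1) (.pot 1))) 
(.lf (.thr (.lm 7 11 8 6 13 15 12) (.pot 1) (.pot 1)))))) (.a 971 (.y 1331 (.z 1023 (.t 16 
(.lf (.thr (.lm 5 21 6 20 8 10 12) (.pot 0) (.pot 0))) (.a 964 (.y 1324 
(.lf (.thr (.lm 8 27 11 21 11 15 9) (.lf 11 119 0 131) (.pot 1))) (.z 1017 
(.lf (.thr (.lm 8 27 11 21 11 15 6) (.pot 0) (.pot 1))) 
(.lf (.thr (.lm 8 29 12 24 11 15 6) (.pot 0) (.pot 1))))) 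
(.lf (.thr (.lm 8 23 11 18 11 15 9) (.pot 1) (.pot 1))))) (.t 16 
(.lf (.thr (.lm 5 27 6 25 8 10 13) (.pot 0) (.pot 0))) (.a 964 
(.lf (.thr (.lm 8 32 12 27 11 16 9) (.lf 12 119 0 131) (.pot 1))) 
(.lf (.thr (.lm 8 29 12 23 11 16 10) (.lf 12 119 0 131) (.pot 1)))))) (.z 1023 (.t 16 
(.lf (.thr (.lm 5 21 6 20 8 10 12) (.pot 0) (.pot 0))) (.a 964 (.y 1337 (.z 1017 
(.lf (.thr (.lm 8 27 11 21 11 15 6) (.pot 0) (.pot 1))) 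
(.lf (.thr (.lm 8 29 12 24 11 15 6) (.pot 1) (.pot 1)))) (.z 1017 
(.lf (.thr (.lm 8 27 11 21 11 15 6) (.pot 0) (.pot 1))) 
(.lf (.thr (.lm 8 29 12 24 11 15 6) (.pot 1) (.pot 1))))) 
(.lf (.thr (.lm 8 23 11 18 11 15 9) (.pot 1) (.pot 1))))) (.t 16 
(.lf (.thr (.lm 5 27 6 25 8 10 13) (.pot 0) (.pot 0))) (.a 964 (.y 1337 (.z 1029 (.t 24 
(.lf (.thr (.lm 7 32 10 27 9 13 6) (.pot 0) (.pot 1))) (.lf (.low 2))) 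
(.lf (.thr (.lm 8 35 12 30 11 16 6) (.lf 12 119 0 131) (.pot 1)))) (.z 1029 (.t 24 
(.lf (.thr (.lm 7 32 10 27 9 13 6) (.pot 1) (.pot 0))) (.lf (.low 2))) (.t 24 
(.lf (.thr (.lm 7 35 11 30 9 13 6) (.pot 0) (.pot 1))) (.lf (.low 2))))) (.y 1337 (.z 1029 
(.t 24 (.lf (.thr (.lm 8 28 10 24 10 13 7) (.pot 0) (.pot 0))) (.lf (.low 2))) 
(.lf (.thr (.lm 8 32 12 26 11 16 7) (.lf 12 119 0 131) (.pot 1)))) (.z 1029 (.t 24 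
(.lf (.thr (.lm 8 28 10 24 10 13 7) (.pot 0) (.pot 0))) (.lf (.low 2))) (.t 24 
(.lf (.thr (.lm 8 31 11 27 10 13 7) (.pot 0) (.pot 1))) (.lf (.low 2))))))))) (.y 1331 
(.z 1023 (.t 16 (.lf (.thr (.lm 5 15 6 13 9 10 12) (.pot 0) (.pot 0))) (.a 977 
(.lf (.thr (.lm 9 20 11 15 12 15 9) (.pot 0) (.pot 1))) (.lf .inf))) (.t 16 
(.lf (.thr (.lm 5 20 6 19 9 10 13) (.pot 0) (.pot 0))) 
(.lf (.thr (.lm 9 22 12 17 13 16 13) (.lf 12 119 0 131) (.pot 1))))) (.z 1023 (.t 16 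
(.lf (.thr (.lm 5 15 6 13 9 10 12) (.pot 0) (.pot 0))) (.a 977 
(.lf (.thr (.lm 9 20 11 15 12 15 9) (.pot 1) (.pot 1))) 
(.lf (.thr (.lm 9 17 11 11 13 15 9) (.pot 0) (.pot 1))))) (.t 16 
(.lf (.thr (.lm 5 20 6 19 9 10 13) (.pot 0) (.pot 0))) (.a 977 (.y 1337 (.z 1029 
(.lf (.thr (.lm 9 26 12 20 12 16 6) (.pot 1) (.pot 1))) 
(.lf (.thr (.lm 9 28 12 24 12 16 6) (.lf 12 119 0 131) (.pot 1)))) (.z 1029 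
(.lf (.thr (.lm 9 26 12 20 12 16 6) (.pot 1) (.pot 1))) (.t 24 
(.lf (.thr (.lm 8 28 11 24 10 13 6) (.pot 0) (.pot 1))) (.lf (.low 2))))) (.y 1337 (.z 1029 
(.lf (.thr (.lm 9 22 12 17 13 16 7) (.pot 0) (.pot 1))) 
(.lf (.thr (.lm 9 25 12 20 13 16 7) (.lf 12 119 0 131) (.pot 1)))) (.z 1029 
(.lf (.thr (.lm 9 22 12 17 13 16 7) (.pot 1) (.pot 1))) (.t 24 
(.lf (.thr (.lm 8 24 11 21 11 13 7) (.pot 0) (.pot 1))) (.lf (.low 2))))))))))))) (.a 958 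
(.y 1369 (.z 1012 (.a 945 (.lf .inf) (.y 1356 (.z 1001 (.lf .inf) (.t 16 
(.lf (.thr (.lm 5 22 6 21 7 10 12) (.pot 0) (.pot 0))) (.lf (.low 2)))) (.lf .inf))) (.a 945 
(.y 1356 (.z 1023 (.t 16 (.lf (.thr (.lm 5 34 6 33 7 10 12) (.pot 0) (.pot 0))) (.lf (.low 2))) 
(.t 16 (.a 939 (.lf (.thr (.lm 4 43 6 41 6 10 9) (.pot 0) (.lf 1 129 4 126))) 
(.lf (.thr (.lm 5 40 6 38 7 10 9) (.pot 1) (.pot 1)))) (.lf (.low 2)))) (.lf .inf)) (.y 1356 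
(.z 1023 (.t 16 (.lf (.thr (.lm 5 28 6 26 7 10 12) (.pot 0) (.pot 0))) (.lf (.low 2))) (.t 16 
(.lf (.thr (.lm 5 33 6 32 7 10 13) (.pot 1) (.pot 1))) (.lf (.low 2)))) (.z 1023 (.lf .inf) 
(.t 16 (.lf (.thr (.lm 5 33 6 32 7 10 13) (.pot 1) (.pot 0))) (.lf (.low 2))))))) (.lf .inf)) 
(.y 1369 (.z 1012 (.a 971 (.y 1356 (.z 1001 
(.lf (.thr (.lm 7 12 8 7 11 14 12) (.pot 1) (.pot 0))) 
(.lf (.thr (.lm 7 17 8 13 11 15 12) (.pot 1) (.pot 1)))) (.lf .inf)) (.y 1356 (.z 1001 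
(.lf (.thr (.lm 7 6 8 0 13 14 12) (.pot 1) (.pot 1))) 
(.lf (.thr (.lm 7 11 8 6 13 15 12) (.pot 1) (.pot 1)))) (.z 1001 (.lf .inf) 
(.lf (.thr (.lm 7 11 8 6 13 15 12) (.pot 1) (.pot 1)))))) (.a 971 (.y 1356 (.z 1023 (.t 16 
(.lf (.thr (.lm 5 21 6 20 8 10 12) (.pot 0) (.pot 0))) (.lf (.low 2))) (.t 16 
(.lf (.thr (.lm 5 27 6 25 8 10 13) (.pot 0) (.pot 0))) (.lf (.low 2)))) (.z 1023 (.t 16 
(.lf (.thr (.lm 5 21 6 20 8 10 12) (.pot 0) (.pot 0))) (.lf (.low 2))) (.t 16 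
(.lf (.thr (.lm 5 27 6 25 8 10 13) (.pot 0) (.pot 0))) (.lf (.low 2))))) (.y 1356 (.z 1023 
(.t 16 (.lf (.thr (.lm 5 15 6 13 9 10 12) (.pot 0) (.pot 0))) (.lf (.low 2))) (.t 16 
(.lf (.thr (.lm 5 20 6 19 9 10 13) (.pot 0) (.pot 0))) (.lf (.low 2)))) (.z 1023 (.t 16 
(.lf (.thr (.lm 5 15 6 13 9 10 12) (.pot 0) (.pot 0))) (.lf (.low 2))) (.t 16 
(.lf (.thr (.lm 5 20 6 19 9 10 13) (.pot 0) (.pot 0))) (.lf (.low 2))))))) (.z 1012 (.lf .inf) 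
(.a 971 (.lf .inf) (.y 1382 (.z 1023 (.lf .inf) (.t 16 
(.lf (.thr (.lm 5 20 6 19 9 10 13) (.pot 0) (.pot 0))) (.lf (.low 2)))) (.lf .inf))))))) 
(.y 1344 (.a 1009 (.y 1318 (.lf .inf) (.z 1012 
(.lf (.thr (.lm 8 0 8 0 15 15 14) (.pot 1) (.pot 1))) (.y 1331 (.lf .inf) (.a 996 (.z 1023 
(.t 16 (.lf (.thr (.lm 6 9 6 7 9 10 12) (.pot 1) (.pot 0))) 
(.lf (.thr (.lm 10 12 11 4 14 15 12) (.pot 1) (.pot 1)))) (.t 16 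
(.lf (.thr (.lm 6 14 6 13 9 10 12) (.pot 0) (.pot 0))) (.y 1337 (.lf .inf) (.a 990 (.z 1029 
(.lf (.thr (.lm 10 19 12 14 13 16 6) (.pot 0) (.pot 1))) 
(.lf (.thr (.lm 10 22 12 17 13 16 6) (.pot 1) (.pot 1)))) (.lf .inf))))) (.lf .inf))))) 
(.lf .inf)) (.a 1009 (.y 1369 (.z 1012 (.lf (.thr (.lm 8 0 8 0 15 15 14) (.pot 1) (.pot 1))) 
(.a 996 (.y 1356 (.z 1023 (.t 16 (.lf (.thr (.lm 6 9 6 7 9 10 12) (.pot 1) (.pot 0))) 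
(.lf (.low 2))) (.t 16 (.lf (.thr (.lm 6 14 6 13 9 10 12) (.pot 0) (.pot 0))) (.lf (.low 2)))) 
(.z 1023 (.t 16 (.lf (.thr (.lm 6 9 6 7 9 10 12) (.pot 1) (.pot 0))) (.lf (.low 2))) (.t 16 
(.lf (.thr (.lm 6 14 6 13 9 10 12) (.pot 0) (.pot 0))) (.lf (.low 2))))) (.y 1356 (.z 1023 
(.lf (.thr (.lm 8 3 9 0 15 16 12) (.pot 1) (.pot 1))) (.t 16 
(.lf (.thr (.lm 6 8 6 6 10 10 13) (.pot 0) (.pot 1))) (.lf (.low 2)))) (.z 1023 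
(.lf (.thr (.lm 8 3 9 0 15 16 12) (.pot 1) (.pot 1))) (.t 16 
(.lf (.thr (.lm 6 8 6 6 10 10 13) (.pot 1) (.pot 0))) (.lf (.low 2))))))) (.z 1012 
(.lf (.thr (.lm 8 0 8 0 15 15 14) (.pot 1) (.pot 1))) (.y 1382 (.a 996 (.z 1023 (.t 16 
(.lf (.thr (.lm 6 9 6 7 9 10 12) (.pot 1) (.pot 0))) (.lf (.low 2))) (.t 16 
(.lf (.thr (.lm 6 14 6 13 9 10 12) (.pot 0) (.pot 0))) (.lf (.low 2)))) (.z 1023 
(.lf (.thr (.lm 8 3 9 0 15 16 12) (.pot 1) (.pot 1))) (.t 16 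
(.lf (.thr (.lm 6 8 6 6 10 10 13) (.pot 1) (.pot 0))) (.lf (.low 2))))) (.a 996 (.lf .inf) 
(.z 1023 (.lf .inf) (.t 16 (.lf (.thr (.lm 6 8 6 6 10 10 13) (.pot 1) (.pot 0))) (.lf (.low 2)))))))) 
(.lf (.thr (.lm 9 0 9 0 16 16 13) (.pot 1) (.pot 1)))))))

theorem h15 : chk (leafT PP TD0 0 2) c15 0 32 933 1035 990 1035 1192 1395 = true := by
  decide +kernel

def c16 : Tree :=
  (.y 1085 (.a 700 (.y 1060 (.z 1057 (.a 687 (.y 1047 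
(.lf (.thr (.pot 1) (.lm 9 0 9 0 17 17 6) (.pot 1))) (.z 1046 (.t 16 
(.lf (.thr (.pot 1) (.lm 6 1 7 0 11 11 12) (.pot 1))) (.lf (.low 0))) 
(.lf (.thr (.pot 1) (.lm 10 0 10 0 17 17 7) (.pot 1))))) (.y 1047 
(.lf (.thr (.pot 1) (.lm 9 0 9 0 17 17 6) (.pot 1))) (.z 1046 (.t 16 
(.lf (.thr (.pot 1) (.lm 6 1 7 0 11 11 12) (.pot 1))) (.lf (.low 0))) 
(.lf (.thr (.pot 1) (.lm 10 0 10 0 17 17 7) (.pot 1)))))) 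
(.lf (.thr (.pot 1) (.lm 10 0 9 0 17 17 2) (.pot 1)))) (.z 1057 (.a 687 (.lf .inf) (.y 1072 
(.z 1046 (.t 16 (.lf (.thr (.pot 1) (.lm 6 7 7 7 11 11 12) (.pot 0))) (.lf (.low 0))) (.t 16 
(.lf (.thr (.pot 1) (.lm 7 2 7 1 11 11 12) (.pot 1))) (.lf (.low 0)))) (.z 1046 (.t 16 
(.lf (.thr (.pot 1) (.lm 6 13 7 13 11 11 12) (.pot 0))) (.lf (.low 0))) (.t 16 
(.lf (.thr (.pot 1) (.lm 7 8 7 7 11 11 12) (.pot 0))) (.lf (.low 0)))))) (.a 687 (.lf .inf) 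
(.y 1072 (.lf (.thr (.pot 1) (.lm 10 0 10 0 17 17 8) (.pot 1))) (.lf .inf))))) (.y 1060 
(.z 1057 (.a 712 (.y 1047 (.lf .inf) (.z 1046 (.t 16 
(.lf (.thr (.pot 1) (.lm 6 1 7 0 11 11 12) (.pot 1))) (.lf (.low 0))) 
(.lf (.thr (.pot 1) (.lm 10 0 10 0 17 17 7) (.pot 1))))) (.lf .inf)) 
(.lf (.thr (.pot 1) (.lm 10 0 9 0 17 17 2) (.pot 1)))) (.z 1057 (.a 712 (.y 1072 (.z 1046 
(.t 16 (.lf (.thr (.pot 1) (.lm 6 7 7 7 11 11 12) (.pot 0))) (.lf (.low 0))) (.t 16 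
(.lf (.thr (.pot 1) (.lm 7 2 7 1 11 11 12) (.pot 1))) (.lf (.low 0)))) (.z 1046 (.t 16 
(.lf (.thr (.pot 1) (.lm 6 13 7 13 11 11 12) (.pot 0))) (.lf (.low 0))) (.t 16 
(.lf (.thr (.pot 1) (.lm 7 8 7 7 11 11 12) (.pot 0))) (.lf (.low 0))))) (.y 1072 (.z 1046 
(.t 16 (.lf (.thr (.pot 0) (.lm 6 7 7 7 11 11 12) (.pot 1))) (.lf (.low 0))) (.t 16 
(.lf (.thr (.pot 0) (.lm 7 2 7 1 11 11 12) (.pot 1))) (.lf (.low 0)))) (.z 1046 (.t 16 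
(.lf (.thr (.pot 1) (.lm 6 13 7 13 11 11 12) (.pot 0))) (.lf (.low 0))) (.t 16 
(.lf (.thr (.pot 1) (.lm 7 8 7 7 11 11 12) (.pot 0))) (.lf (.low 0)))))) (.a 712 (.y 1072 
(.lf (.thr (.pot 1) (.lm 10 0 10 0 17 17 8) (.pot 1))) (.z 1068 (.t 16 
(.lf (.thr (.pot 1) (.lm 7 2 7 2 11 11 12) (.pot 1))) (.lf (.low 0))) 
(.lf (.thr (.pot 1) (.lm 10 0 10 0 17 17 9) (.pot 1))))) (.y 1072 
(.lf (.thr (.pot 1) (.lm 10 0 10 0 17 17 8) (.pot 1))) (.z 1068 (.t 16 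
(.lf (.thr (.pot 1) (.lm 7 2 7 2 11 11 12) (.pot 1))) (.lf (.low 0))) 
(.lf (.thr (.pot 1) (.lm 10 0 10 0 17 17 9) (.pot 1))))))))) (.y 1110 (.a 700 (.z 1057 (.a 687 
(.lf .inf) (.y 1097 (.z 1046 (.t 16 (.lf (.thr (.pot 1) (.lm 6 20 7 19 11 11 12) (.pot 0))) 
(.lf (.low 0))) (.lf .inf)) (.lf .inf))) (.lf .inf)) (.z 1057 (.a 712 (.y 1097 (.z 1046 (.t 16 
(.lf (.thr (.pot 1) (.lm 6 20 7 19 11 11 12) (.pot 0))) (.lf (.low 0))) (.t 16 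
(.lf (.thr (.pot 1) (.lm 7 14 7 14 11 11 12) (.pot 0))) (.lf (.low 0)))) (.z 1046 (.t 16 
(.y 1103 (.lf (.thr (.pot 1) (.lm 6 26 7 25 11 11 9) (.pot 0))) 
(.lf (.thr (.pot 1) (.lm 6 29 7 28 11 11 9) (.pot 1)))) (.lf (.low 0))) (.t 16 
(.lf (.thr (.pot 1) (.lm 7 20 7 20 11 11 12) (.pot 0))) (.lf (.low 0))))) (.y 1097 (.z 1046 
(.t 16 (.lf (.thr (.pot 0) (.lm 6 20 7 19 11 11 12) (.pot 1))) (.lf (.low 0))) (.t 16 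
(.lf (.thr (.pot 1) (.lm 7 14 7 14 11 11 12) (.pot 0))) (.lf (.low 0)))) (.z 1046 (.t 16 
(.a 718 (.y 1103 (.lf (.thr (.pot 1) (.lm 6 26 7 25 11 11 9) (.pot 0))) 
(.lf (.thr (.pot 1) (.lm 6 29 7 28 11 11 9) (.pot 1)))) (.y 1103 
(.lf (.thr (.pot 0) (.lm 6 26 7 25 11 11 9) (.pot 1))) 
(.lf (.thr (.pot 0) (.lm 6 29 7 28 11 11 9) (.pot 1))))) (.lf (.low 0))) (.t 16 
(.lf (.thr (.pot 1) (.lm 7 20 7 20 11 11 12) (.pot 0))) (.lf (.low 0)))))) (.a 712 (.y 1097 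
(.z 1068 (.t 16 (.lf (.thr (.pot 1) (.lm 7 9 7 8 11 11 12) (.pot 0))) (.lf (.low 0))) 
(.lf .inf)) (.lf .inf)) (.y 1097 (.z 1068 (.t 16 
(.lf (.thr (.pot 1) (.lm 7 9 7 8 11 11 12) (.pot 0))) (.lf (.low 0))) (.t 16 
(.lf (.thr (.pot 1) (.lm 7 2 7 3 11 11 12) (.pot 1))) (.lf (.low 0)))) (.z 1068 (.t 16 
(.lf (.thr (.pot 1) (.lm 7 14 7 15 11 11 12) (.pot 0))) (.lf (.low 0))) (.t 16 
(.lf (.thr (.pot 1) (.lm 7 8 7 9 11 11 13) (.pot 0))) (.lf (.low 0)))))))) (.a 700 (.lf .inf) 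
(.z 1057 (.y 1123 (.a 712 (.lf .inf) (.z 1046 (.t 16 (.a 718 (.y 1116 (.z 1040 
(.lf (.thr (.pot 1) (.lm 6 35 7 35 10 11 6) (.pot 1))) 
(.lf (.thr (.pot 1) (.lm 6 32 7 32 11 11 6) (.pot 0)))) (.z 1040 (.t 8 
(.lf (.thr (.pot 0) (.lm 5 38 5 38 7 7 6) (.pot 0))) (.y 1119 
(.lf (.thr (.pot 1) (.lm 8 38 8 38 10 10 4) (.pot 1))) (.a 715 (.lf .inf) (.z 1037 (.t 12 
(.lf (.thr (.pot 0) (.lm 7 41 7 41 9 9 3) (.pot 0))) (.lf (.low 0))) (.t 12 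
(.lf (.thr (.pot 0) (.lm 7 40 7 39 9 9 4) (.pot 0))) (.lf (.low 0))))))) (.t 8 
(.lf (.thr (.pot 0) (.lm 5 35 5 35 8 7 7) (.pot 0))) 
(.lf (.thr (.pot 1) (.lm 8 35 8 35 10 10 7) (.pot 1)))))) (.y 1116 (.z 1040 
(.lf (.thr (.pot 1) (.lm 6 35 7 35 10 11 6) (.pot 1))) 
(.lf (.thr (.pot 0) (.lm 6 32 7 32 11 11 6) (.pot 1)))) (.z 1040 (.t 8 
(.lf (.thr (.pot 0) (.lm 5 38 5 38 7 7 6) (.pot 0))) (.a 721 (.y 1119 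
(.lf (.thr (.pot 1) (.lm 8 38 8 38 10 10 4) (.pot 1))) (.z 1037 (.t 12 
(.lf (.thr (.pot 0) (.lm 7 41 7 41 9 9 3) (.pot 0))) (.lf (.low 0))) (.t 12 
(.lf (.thr (.pot 0) (.lm 7 40 7 39 9 9 4) (.pot 0))) (.lf (.low 0))))) (.y 1119 
(.lf (.thr (.pot 1) (.lm 8 38 8 38 10 10 4) (.pot 1))) (.z 1037 (.t 12 
(.lf (.thr (.pot 0) (.lm 7 41 7 41 9 9 3) (.pot 0))) (.lf (.low 0))) (.t 12 
(.lf (.thr (.pot 0) (.lm 7 40 7 39 9 9 4) (.pot 0))) (.lf (.low 0))))))) (.t 8 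
(.lf (.thr (.pot 0) (.lm 5 35 5 35 8 7 7) (.pot 0))) 
(.lf (.thr (.pot 1) (.lm 8 35 8 35 10 10 7) (.pot 1))))))) (.lf (.low 0))) (.t 16 (.a 718 
(.y 1116 (.lf (.thr (.pot 1) (.lm 7 26 7 27 11 11 9) (.pot 0))) (.lf .inf)) (.y 1116 
(.lf (.thr (.pot 1) (.lm 7 26 7 27 11 11 9) (.pot 0))) 
(.lf (.thr (.pot 1) (.lm 7 29 6 30 11 10 9) (.pot 1))))) (.lf (.low 0))))) (.a 712 (.lf .inf) 
(.z 1046 (.t 16 (.a 718 (.lf .inf) (.y 1129 (.z 1040 (.t 8 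
(.lf (.thr (.pot 0) (.lm 5 41 5 42 7 7 6) (.pot 0))) (.a 721 (.y 1126 (.z 1037 (.t 12 
(.lf (.thr (.pot 0) (.lm 7 43 7 43 9 9 3) (.pot 0))) (.lf (.low 0))) (.t 12 
(.lf (.thr (.pot 0) (.lm 7 41 7 42 9 9 3) (.pot 0))) (.lf (.low 0)))) (.z 1037 (.t 12 
(.lf (.thr (.pot 1) (.lm 7 44 7 45 9 9 3) (.pot 0))) (.lf (.low 0))) (.lf .inf))) (.y 1126 
(.z 1037 (.t 12 (.lf (.thr (.pot 0) (.lm 7 43 7 43 9 9 3) (.pot 0))) (.lf (.low 0))) (.t 12 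
(.lf (.thr (.pot 0) (.lm 7 41 7 42 9 9 3) (.pot 0))) (.lf (.low 0)))) (.z 1037 (.t 12 
(.lf (.thr (.pot 1) (.lm 7 44 7 45 9 9 3) (.pot 0))) (.lf (.low 0))) (.t 12 
(.lf (.thr (.pot 0) (.lm 7 43 7 43 9 9 3) (.pot 0))) (.lf (.low 0))))))) (.t 8 
(.lf (.thr (.pot 0) (.lm 5 38 5 39 8 7 6) (.pot 0))) (.a 721 (.lf .inf) (.z 1043 (.y 1126 
(.t 12 (.lf (.thr (.pot 0) (.lm 7 40 7 40 9 9 3) (.pot 0))) (.lf (.low 0))) (.t 12 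
(.lf (.thr (.pot 0) (.lm 7 41 7 42 9 9 3) (.pot 0))) (.lf (.low 0)))) (.y 1126 
(.lf (.thr (.pot 1) (.lm 8 38 8 39 10 10 3) (.pot 1))) (.t 12 
(.lf (.thr (.pot 0) (.lm 7 40 7 40 9 9 3) (.pot 0))) (.lf (.low 0)))))))) (.z 1040 (.t 8 
(.lf (.thr (.pot 0) (.lm 5 44 5 45 7 7 6) (.pot 0))) (.a 721 (.lf .inf) (.y 1132 (.z 1037 
(.t 12 (.lf (.thr (.lf 0 131 7 123) (.lm 7 46 7 46 9 9 3) (.lf 7 124 0 131))) (.lf (.low 0))) 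
(.t 12 (.lf (.thr (.pot 1) (.lm 7 44 7 45 9 9 3) (.pot 1))) (.lf (.low 0)))) 
(.lf (.thr (.lf 0 131 8 123) (.lm 8 46 8 46 10 10 5) (.lf 8 123 0 131)))))) (.t 8 
(.lf (.thr (.pot 0) (.lm 5 41 5 42 8 7 7) (.pot 0))) (.a 721 (.lf .inf) (.y 1132 (.z 1043 
(.t 12 (.lf (.thr (.pot 0) (.lm 7 43 7 43 9 9 3) (.pot 0))) (.lf (.low 0))) (.lf .inf)) 
(.lf .inf))))))) (.lf (.low 0))) (.t 16 (.a 718 (.lf .inf) (.y 1129 (.z 1051 (.t 8 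
(.lf (.thr (.pot 0) (.lm 5 36 5 36 8 7 6) (.pot 0))) 
(.lf (.thr (.pot 1) (.lm 8 36 8 36 11 10 6) (.pot 1)))) (.lf .inf)) (.lf .inf))) (.lf (.low 0)))))) 
(.y 1123 (.a 712 (.lf .inf) (.z 1068 (.t 16 
(.lf (.thr (.pot 1) (.lm 7 21 6 21 11 11 12) (.pot 0))) (.lf (.low 0))) (.lf .inf))) (.lf .inf))))))

theorem h16 : chk (leafT PP TD0 0 2) c16 0 32 675 725 1035 1080 1035 1136 = true := by
  decide +kernel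

def c17 : Tree :=
  (.y 1085 (.a 750 (.y 1060 (.lf .inf) (.z 1057 (.a 737 (.y 1072 (.lf .inf) (.z 1046 (.t 16 
(.lf (.thr (.pot 0) (.lm 6 13 7 13 11 11 12) (.pot 1))) (.lf (.low 0))) (.t 16 
(.lf (.thr (.pot 0) (.lm 7 8 7 7 11 11 12) (.pot 1))) (.lf (.low 0))))) (.lf .inf)) (.a 737 
(.y 1072 (.lf .inf) (.z 1068 (.t 16 (.lf (.thr (.pot 0) (.lm 7 2 7 2 11 11 12) (.pot 1))) 
(.lf (.low 0))) (.lf (.thr (.pot 1) (.lm 10 0 10 0 17 17 9) (.pot 1))))) (.lf .inf)))) 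
(.lf .inf)) (.a 750 (.y 1110 (.z 1057 (.a 737 (.y 1097 (.z 1046 (.t 16 
(.lf (.thr (.pot 0) (.lm 6 20 7 19 11 11 12) (.pot 1))) (.lf (.low 0))) (.t 16 
(.lf (.thr (.pot 1) (.lm 7 14 7 14 11 11 12) (.pot 0))) (.lf (.low 0)))) (.z 1046 (.t 16 
(.y 1103 (.lf (.thr (.pot 0) (.lm 6 26 7 25 11 11 9) (.pot 1))) 
(.lf (.thr (.pot 0) (.lm 6 29 7 28 11 11 9) (.pot 1)))) (.lf (.low 0))) (.t 16 
(.lf (.thr (.pot 0) (.lm 7 20 7 20 11 11 12) (.pot 1))) (.lf (.low 0))))) (.y 1097 (.z 1046 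
(.lf (.thr (.lf 0 131 9 121) (.lm 9 20 10 19 17 17 12) (.pot 1))) (.t 16 
(.lf (.thr (.pot 0) (.lm 7 14 7 14 11 11 12) (.pot 1))) (.lf (.low 0)))) (.z 1046 (.t 16 
(.lf (.thr (.lf 0 130 6 124) (.lm 6 26 7 25 11 11 12) (.pot 0))) (.lf (.low 0))) (.t 16 
(.lf (.thr (.pot 0) (.lm 7 20 7 20 11 11 12) (.pot 1))) (.lf (.low 0)))))) (.a 737 (.y 1097 
(.z 1068 (.t 16 (.lf (.thr (.pot 1) (.lm 7 9 7 8 11 11 12) (.pot 0))) (.lf (.low 0))) (.t 16 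
(.lf (.thr (.pot 1) (.lm 7 2 7 3 11 11 12) (.pot 1))) (.lf (.low 0)))) (.z 1068 (.t 16 
(.lf (.thr (.pot 1) (.lm 7 14 7 15 11 11 12) (.pot 0))) (.lf (.low 0))) (.t 16 
(.lf (.thr (.pot 1) (.lm 7 8 7 9 11 11 13) (.pot 0))) (.lf (.low 0))))) (.y 1097 (.z 1068 
(.t 16 (.lf (.thr (.pot 0) (.lm 7 9 7 8 11 11 12) (.pot 1))) (.lf (.low 0))) (.t 16 
(.lf (.thr (.pot 0) (.lm 7 2 7 3 11 11 12) (.pot 1))) (.lf (.low 0)))) (.z 1068 (.t 16 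
(.lf (.thr (.pot 0) (.lm 7 14 7 15 11 11 12) (.pot 1))) (.lf (.low 0))) (.t 16 
(.lf (.thr (.pot 0) (.lm 7 8 7 9 11 11 13) (.pot 1))) (.lf (.low 0))))))) (.z 1057 (.y 1123 
(.a 737 (.z 1046 (.t 16 (.y 1116 (.a 731 (.z 1040 
(.lf (.thr (.pot 1) (.lm 6 35 7 35 10 11 6) (.pot 1))) 
(.lf (.thr (.pot 0) (.lm 6 32 7 32 11 11 6) (.pot 1)))) 
(.lf (.thr (.lf 0 130 6 124) (.lm 6 32 7 32 11 11 9) (.pot 0)))) (.a 731 (.z 1040 (.t 8 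
(.lf (.thr (.pot 0) (.lm 5 38 5 38 7 7 6) (.pot 0))) 
(.lf (.thr (.lf 0 131 8 123) (.lm 8 38 8 38 10 10 6) (.pot 1)))) (.t 8 
(.lf (.thr (.pot 0) (.lm 5 35 5 35 8 7 7) (.pot 0))) 
(.lf (.thr (.pot 1) (.lm 8 35 8 35 10 10 7) (.pot 1))))) 
(.lf (.thr (.lf 0 130 6 124) (.lm 6 35 6 35 11 10 9) (.pot 1))))) (.lf (.low 0))) (.t 16 
(.y 1116 (.lf (.thr (.pot 0) (.lm 7 26 7 27 11 11 9) (.pot 1))) 
(.lf (.thr (.pot 1) (.lm 7 29 6 30 11 10 9) (.pot 1)))) (.lf (.low 0)))) (.z 1046 (.t 16 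
(.lf (.thr (.lf 0 130 6 124) (.lm 6 32 6 32 11 11 12) (.pot 0))) (.lf (.low 0))) (.t 16 
(.a 743 (.y 1116 (.lf (.thr (.pot 0) (.lm 7 26 7 27 11 11 9) (.pot 1))) 
(.lf (.thr (.pot 0) (.lm 7 29 6 30 11 10 9) (.pot 1)))) 
(.lf (.thr (.lf 0 130 7 124) (.lm 7 26 6 27 11 11 12) (.pot 1)))) (.lf (.low 0))))) (.a 737 
(.z 1046 (.t 16 (.y 1129 (.a 731 (.z 1040 (.t 8 
(.lf (.thr (.pot 0) (.lm 5 41 5 42 7 7 6) (.pot 0))) (.a 728 (.y 1126 (.z 1037 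
(.lf (.thr (.lf 0 131 8 123) (.lm 8 43 8 43 10 10 3) (.pot 0))) (.t 12 
(.lf (.thr (.pot 0) (.lm 7 41 7 42 9 9 3) (.pot 0))) (.lf (.low 0)))) (.z 1037 
(.lf (.thr (.lf 0 131 8 123) (.lm 8 44 8 45 10 10 3) (.pot 1))) (.t 12 
(.lf (.thr (.pot 0) (.lm 7 43 7 43 9 9 3) (.pot 0))) (.lf (.low 0))))) 
(.lf (.thr (.lf 0 131 8 123) (.lm 8 41 8 42 10 10 6) (.pot 1))))) (.t 8 
(.lf (.thr (.pot 0) (.lm 5 38 5 39 8 7 6) (.pot 0))) (.a 728 (.z 1043 (.y 1126 (.t 12 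
(.lf (.thr (.pot 0) (.lm 7 40 7 40 9 9 3) (.pot 0))) (.lf (.low 0))) (.t 12 
(.lf (.thr (.pot 0) (.lm 7 41 7 42 9 9 3) (.pot 0))) (.lf (.low 0)))) (.y 1126 
(.lf (.thr (.pot 1) (.lm 8 38 8 39 10 10 3) (.pot 1))) (.t 12 
(.lf (.thr (.pot 0) (.lm 7 40 7 40 9 9 3) (.pot 0))) (.lf (.low 0))))) (.z 1043 (.y 1126 
(.lf (.thr (.lf 0 131 8 123) (.lm 8 40 8 40 10 10 3) (.pot 1))) (.t 12 
(.lf (.thr (.pot 0) (.lm 7 41 7 42 9 9 3) (.pot 0))) (.lf (.low 0)))) (.y 1126 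
(.lf (.thr (.pot 1) (.lm 8 38 8 39 10 10 3) (.pot 1))) (.t 12 
(.lf (.thr (.pot 0) (.lm 7 40 7 40 9 9 3) (.pot 0))) (.lf (.low 0)))))))) (.z 1040 
(.lf (.thr (.lf 0 130 6 124) (.lm 6 41 6 42 10 10 6) (.pot 0))) (.t 8 
(.lf (.thr (.pot 0) (.lm 5 38 5 39 8 7 6) (.pot 0))) 
(.lf (.thr (.lf 0 131 8 123) (.lm 8 38 8 39 10 10 6) (.pot 1)))))) (.a 731 (.z 1040 (.t 8 
(.lf (.thr (.pot 0) (.lm 5 44 5 45 7 7 6) (.pot 0))) (.y 1132 (.a 728 (.z 1037 (.t 12 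
(.lf (.thr (.lf 0 131 7 123) (.lm 7 46 7 46 9 9 3) (.pot 0))) (.lf (.low 0))) (.t 12 
(.lf (.thr (.lf 0 131 7 123) (.lm 7 44 7 45 9 9 3) (.pot 0))) (.lf (.low 0)))) 
(.lf (.thr (.lf 0 131 8 123) (.lm 8 44 8 45 10 10 4) (.pot 1)))) (.a 728 (.z 1037 
(.lf (.thr (.lf 0 131 8 123) (.lm 8 47 8 48 10 10 3) (.lf 8 123 0 131))) (.t 12 
(.lf (.thr (.lf 0 131 7 123) (.lm 7 46 7 46 9 9 4) (.lf 7 124 0 131))) (.lf (.low 0)))) 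
(.z 1037 (.lf (.thr (.lf 0 131 8 123) (.lm 8 47 8 48 10 10 3) (.lf 8 123 0 131))) (.t 12 
(.lf (.thr (.lf 0 131 7 123) (.lm 7 46 7 46 9 9 4) (.pot 0))) (.lf (.low 0))))))) (.t 8 
(.lf (.thr (.pot 0) (.lm 5 41 5 42 8 7 7) (.pot 0))) (.y 1132 (.a 728 (.z 1043 (.t 12 
(.lf (.thr (.pot 0) (.lm 7 43 7 43 9 9 3) (.pot 0))) (.lf (.low 0))) (.t 12 
(.lf (.thr (.pot 0) (.lm 7 41 7 42 9 9 3) (.pot 0))) (.lf (.low 0)))) (.z 1043 (.t 12 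
(.lf (.thr (.pot 0) (.lm 7 43 7 43 9 9 3) (.pot 0))) (.lf (.low 0))) (.t 12 
(.lf (.thr (.pot 0) (.lm 7 41 7 42 9 9 3) (.pot 0))) (.lf (.low 0))))) (.a 728 (.z 1043 (.t 12 
(.lf (.thr (.pot 1) (.lm 7 44 7 45 9 9 4) (.pot 1))) (.lf (.low 0))) (.t 12 
(.lf (.thr (.pot 1) (.lm 7 43 7 43 9 9 4) (.pot 0))) (.lf (.low 0)))) (.z 1043 (.t 12 
(.lf (.thr (.pot 1) (.lm 7 44 7 45 9 9 4) (.pot 1))) (.lf (.low 0))) (.t 12 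
(.lf (.thr (.pot 1) (.lm 7 43 7 43 9 9 4) (.pot 0))) (.lf (.low 0)))))))) (.z 1040 (.t 8 
(.lf (.thr (.pot 0) (.lm 5 44 5 45 7 7 6) (.pot 0))) 
(.lf (.thr (.lf 0 131 8 123) (.lm 8 44 8 45 10 10 6) (.pot 1)))) (.t 8 
(.lf (.thr (.pot 0) (.lm 5 41 5 42 8 7 7) (.pot 0))) (.y 1132 (.a 734 (.z 1043 
(.lf (.thr (.lf 0 131 8 123) (.lm 8 43 8 43 10 10 3) (.pot 0))) (.t 12 
(.lf (.thr (.pot 0) (.lm 7 41 7 42 9 9 3) (.pot 0))) (.lf (.low 0)))) 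
(.lf (.thr (.lf 0 131 8 123) (.lm 8 41 8 42 10 10 5) (.pot 0)))) (.a 734 (.z 1043 (.t 12 
(.lf (.thr (.lf 0 131 7 123) (.lm 7 44 7 45 9 9 4) (.pot 0))) (.lf (.low 0))) (.t 12 
(.lf (.thr (.pot 1) (.lm 7 43 7 43 9 9 4) (.pot 0))) (.lf (.low 0)))) 
(.lf (.thr (.lf 0 131 8 123) (.lm 8 43 8 43 10 10 5) (.pot 1))))))))) (.lf (.low 0))) (.t 16 
(.y 1129 (.a 731 (.z 1051 (.t 8 (.lf (.thr (.pot 0) (.lm 5 36 5 36 8 7 6) (.pot 0))) 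
(.lf (.thr (.pot 1) (.lm 8 36 8 36 11 10 6) (.pot 1)))) 
(.lf (.thr (.pot 1) (.lm 7 33 6 33 11 10 6) (.pot 1)))) (.z 1051 (.t 8 
(.lf (.thr (.pot 0) (.lm 5 36 5 36 8 7 6) (.pot 0))) 
(.lf (.thr (.pot 1) (.lm 8 36 8 36 11 10 6) (.pot 1)))) 
(.lf (.thr (.pot 0) (.lm 7 33 6 33 11 10 6) (.pot 1))))) (.a 731 (.z 1051 (.t 8 
(.lf (.thr (.pot 0) (.lm 5 39 5 39 8 7 6) (.pot 0))) (.y 1132 (.a 728 (.z 1048 (.t 12 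
(.lf (.thr (.pot 0) (.lm 7 40 7 41 9 9 3) (.pot 0))) (.lf (.low 0))) (.lf .inf)) (.z 1048 
(.t 12 (.lf (.thr (.pot 0) (.lm 7 40 7 41 9 9 3) (.pot 0))) (.lf (.low 0))) 
(.lf (.thr (.pot 1) (.lm 8 39 8 39 11 10 3) (.pot 1))))) (.a 728 (.lf .inf) (.z 1048 (.t 12 
(.lf (.thr (.pot 0) (.lm 7 42 7 42 9 9 3) (.pot 0))) (.lf (.low 0))) (.t 12 
(.lf (.thr (.pot 0) (.lm 7 40 7 41 9 9 4) (.pot 0))) (.lf (.low 0))))))) (.t 8 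
(.lf (.thr (.pot 0) (.lm 5 36 5 36 8 7 7) (.pot 0))) (.y 1132 
(.lf (.thr (.pot 1) (.lm 8 36 8 36 11 10 5) (.pot 1))) (.lf .inf)))) (.z 1051 (.t 8 
(.lf (.thr (.pot 0) (.lm 5 39 5 39 8 7 6) (.pot 0))) (.y 1132 (.a 734 (.z 1048 (.t 12 
(.lf (.thr (.pot 0) (.lm 7 40 7 41 9 9 3) (.pot 0))) (.lf (.low 0))) 
(.lf (.thr (.pot 1) (.lm 8 39 8 39 11 10 3) (.pot 1)))) (.z 1048 
(.lf (.thr (.lf 0 131 8 123) (.lm 8 40 8 41 11 10 3) (.pot 1))) 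
(.lf (.thr (.pot 1) (.lm 8 39 8 39 11 10 3) (.pot 1))))) (.a 734 (.z 1048 (.t 12 
(.lf (.thr (.pot 0) (.lm 7 42 7 42 9 9 3) (.pot 0))) (.lf (.low 0))) (.t 12 
(.lf (.thr (.pot 0) (.lm 7 40 7 41 9 9 4) (.pot 0))) (.lf (.low 0)))) (.z 1048 (.t 12 
(.lf (.thr (.pot 0) (.lm 7 42 7 42 9 9 3) (.pot 0))) (.lf (.low 0))) (.t 12 
(.lf (.thr (.pot 0) (.lm 7 40 7 41 9 9 4) (.pot 0))) (.lf (.low 0))))))) (.t 8 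
(.lf (.thr (.pot 0) (.lm 5 36 5 36 8 7 7) (.pot 0))) (.y 1132 
(.lf (.thr (.pot 1) (.lm 8 36 8 36 11 10 5) (.pot 1))) (.a 734 (.z 1054 (.t 12 
(.lf (.thr (.pot 0) (.lm 7 39 7 39 9 9 4) (.pot 0))) (.lf (.low 0))) 
(.lf (.thr (.pot 1) (.lm 8 37 8 38 11 10 4) (.pot 1)))) (.z 1054 (.t 12 
(.lf (.thr (.pot 0) (.lm 7 39 7 39 9 9 4) (.pot 0))) (.lf (.low 0))) 
(.lf (.thr (.pot 1) (.lm 8 37 8 38 11 10 4) (.pot 1)))))))))) (.lf (.low 0)))) (.z 1046 (.t 16 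
(.lf (.thr (.lf 0 130 6 124) (.lm 6 38 6 39 11 10 12) (.pot 1))) (.lf (.low 0))) (.t 16 
(.a 743 (.y 1129 (.z 1051 (.lf (.thr (.lf 0 130 7 124) (.lm 7 36 6 36 11 10 6) (.pot 1))) 
(.lf (.thr (.pot 0) (.lm 7 33 6 33 11 10 6) (.pot 1)))) (.z 1051 (.t 8 
(.lf (.thr (.pot 0) (.lm 5 39 5 39 8 7 6) (.pot 0))) 
(.lf (.thr (.lf 0 131 8 123) (.lm 8 39 8 39 11 10 6) (.pot 1)))) (.t 8 
(.lf (.thr (.pot 0) (.lm 5 36 5 36 8 7 7) (.pot 0))) (.y 1132 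
(.lf (.thr (.pot 0) (.lm 8 36 8 36 11 10 5) (.pot 1))) (.a 740 (.z 1054 (.t 12 
(.lf (.thr (.pot 0) (.lm 7 39 7 39 9 9 4) (.pot 0))) (.lf (.low 0))) 
(.lf (.thr (.pot 0) (.lm 8 37 8 38 11 10 4) (.pot 1)))) (.z 1054 
(.lf (.thr (.lf 0 131 8 123) (.lm 8 39 8 39 11 10 4) (.pot 1))) 
(.lf (.thr (.pot 0) (.lm 8 37 8 38 11 10 4) (.pot 1))))))))) (.y 1129 
(.lf (.thr (.lf 0 130 7 124) (.lm 7 33 6 33 11 10 9) (.pot 0))) 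
(.lf (.thr (.lf 0 130 7 124) (.lm 7 36 6 36 11 10 9) (.pot 1))))) (.lf (.low 0)))))) (.y 1123 
(.a 737 (.z 1068 (.t 16 (.lf (.thr (.pot 1) (.lm 7 21 6 21 11 11 12) (.pot 1))) (.lf (.low 0))) 
(.t 16 (.lf (.thr (.pot 1) (.lm 7 15 6 15 11 11 13) (.pot 0))) (.lf (.low 0)))) (.z 1068 
(.t 16 (.lf (.thr (.pot 0) (.lm 7 21 6 21 11 11 12) (.pot 1))) (.lf (.low 0))) (.t 16 
(.lf (.thr (.pot 1) (.lm 7 15 6 15 11 11 13) (.pot 0))) (.lf (.low 0))))) (.a 737 (.z 1068 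
(.t 16 (.y 1129 (.lf (.thr (.pot 1) (.lm 7 27 6 28 11 10 9) (.pot 0))) 
(.lf (.thr (.pot 1) (.lm 7 30 6 31 11 10 9) (.pot 1)))) (.lf (.low 0))) (.t 16 
(.lf (.thr (.pot 1) (.lm 7 21 6 22 11 10 13) (.pot 0))) (.lf (.low 0)))) (.z 1068 (.t 16 
(.a 743 (.y 1129 (.lf (.thr (.pot 0) (.lm 7 27 6 28 11 10 9) (.pot 1))) 
(.lf (.thr (.pot 1) (.lm 7 30 6 31 11 10 9) (.pot 1)))) (.y 1129 
(.lf (.thr (.pot 0) (.lm 7 27 6 28 11 10 9) (.pot 1))) 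
(.lf (.thr (.pot 1) (.lm 7 30 6 31 11 10 9) (.pot 1))))) (.lf (.low 0))) (.t 16 
(.lf (.thr (.pot 1) (.lm 7 21 6 22 11 10 13) (.pot 1))) (.lf (.low 0)))))))) (.y 1110 (.z 1057 
(.a 763 (.y 1097 (.lf .inf) (.lf (.thr (.lf 0 131 9 121) (.lm 9 20 10 20 17 17 18) (.pot 1)))) 
(.lf .inf)) (.a 763 (.y 1097 (.lf .inf) (.z 1068 (.t 16 
(.lf (.thr (.pot 0) (.lm 7 14 7 15 11 11 12) (.pot 1))) (.lf (.low 0))) (.t 16 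
(.lf (.thr (.pot 0) (.lm 7 8 7 9 11 11 13) (.pot 1))) (.lf (.low 0))))) (.lf .inf))) (.z 1057 
(.a 763 (.y 1123 (.z 1046 (.lf (.thr (.lf 0 131 9 121) (.lm 9 32 9 32 17 17 12) (.pot 0))) 
(.t 16 (.lf (.thr (.lf 1 130 7 124) (.lm 7 26 6 27 11 11 12) (.pot 0))) (.lf (.low 0)))) 
(.z 1046 (.t 16 (.lf (.thr (.lf 1 130 6 124) (.lm 6 38 6 39 11 10 12) (.pot 0))) (.lf (.low 0))) 
(.t 16 (.lf (.thr (.lf 1 130 7 124) (.lm 7 33 6 33 11 10 12) (.pot 0))) (.lf (.low 0))))) 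
(.y 1123 (.lf (.thr (.lf 0 131 9 121) (.lm 9 26 9 27 17 17 18) (.pot 0))) 
(.lf (.thr (.lf 0 131 9 121) (.lm 9 33 9 33 17 16 18) (.pot 1))))) (.a 763 (.y 1123 (.z 1068 
(.t 16 (.lf (.thr (.pot 0) (.lm 7 21 6 21 11 11 12) (.pot 1))) (.lf (.low 0))) (.t 16 
(.lf (.thr (.pot 0) (.lm 7 15 6 15 11 11 13) (.pot 1))) (.lf (.low 0)))) (.z 1068 (.t 16 
(.a 756 (.y 1129 (.lf (.thr (.pot 0) (.lm 7 27 6 28 11 10 9) (.pot 1))) 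
(.lf (.thr (.pot 0) (.lm 7 30 6 31 11 10 9) (.pot 1)))) 
(.lf (.thr (.lf 1 130 7 124) (.lm 7 27 6 28 11 10 12) (.pot 0)))) (.lf (.low 0))) (.t 16 
(.lf (.thr (.pot 0) (.lm 7 21 6 22 11 10 13) (.pot 1))) (.lf (.low 0))))) (.y 1123 (.z 1068 
(.lf (.thr (.lf 0 131 10 121) (.lm 10 21 9 21 17 17 12) (.pot 1))) (.t 16 
(.lf (.thr (.pot 0) (.lm 7 15 6 15 11 11 13) (.pot 1))) (.lf (.low 0)))) (.z 1068 (.t 16 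
(.lf (.thr (.lf 1 130 7 124) (.lm 7 27 6 28 11 10 12) (.pot 0))) (.lf (.low 0))) (.t 16 
(.lf (.thr (.pot 0) (.lm 7 21 6 22 11 10 13) (.pot 1))) (.lf (.low 0))))))))))

theorem h17 : chk (leafT PP TD0 0 2) c17 0 32 725 776 1035 1080 1035 1136 = true := by
  decide +kernel

def c18 : Tree :=
  (.lf .inf)

theorem h18 : chk (leafT PP TD0 0 2) c18 0 32 675 725 1035 1080 1136 1237 = true := by
  decide +kernel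

def c19 : Tree :=
  (.y 1161 (.z 1057 (.a 737 (.y 1148 (.z 1046 (.t 16 (.a 731 (.y 1142 (.z 1040 
(.lf (.thr (.lf 0 130 6 124) (.lm 6 48 6 48 10 10 6) (.lf 6 124 0 130))) (.t 8 
(.lf (.thr (.pot 0) (.lm 5 45 5 45 8 7 6) (.pot 0))) (.a 728 (.z 1043 
(.lf (.thr (.lf 0 131 8 123) (.lm 8 46 8 47 10 10 5) (.lf 8 123 0 131))) (.lf .inf)) (.z 1043 
(.lf (.thr (.lf 0 131 8 123) (.lm 8 46 8 47 10 10 5) (.lf 8 123 0 131))) (.y 1139 (.t 12 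
(.lf (.thr (.pot 1) (.lm 7 45 7 45 9 9 3) (.pot 1))) (.lf (.low 0))) 
(.lf (.thr (.lf 0 131 8 123) (.lm 8 46 8 47 10 10 3) (.lf 8 123 0 131)))))))) 
(.lf (.thr (.lf 0 130 6 124) (.lm 6 48 6 48 11 10 9) (.lf 6 124 0 130)))) (.y 1142 (.z 1040 
(.lf (.thr (.lf 0 130 6 124) (.lm 6 48 6 48 10 10 6) (.lf 6 124 0 130))) (.t 8 
(.lf (.thr (.pot 0) (.lm 5 45 5 45 8 7 6) (.pot 0))) (.a 734 (.z 1043 
(.lf (.thr (.lf 0 131 8 123) (.lm 8 46 8 47 10 10 5) (.lf 8 123 0 131))) (.y 1139 (.t 12 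
(.lf (.thr (.pot 1) (.lm 7 45 7 45 9 9 3) (.pot 1))) (.lf (.low 0))) 
(.lf (.thr (.lf 0 131 8 123) (.lm 8 46 8 47 10 10 3) (.lf 8 123 0 131))))) (.z 1043 
(.lf (.thr (.lf 0 131 8 123) (.lm 8 46 8 47 10 10 5) (.lf 8 123 0 131))) (.y 1139 (.t 12 
(.lf (.thr (.lf 0 131 7 123) (.lm 7 45 7 45 9 9 3) (.pot 0))) (.lf (.low 0))) 
(.lf (.thr (.lf 0 131 8 123) (.lm 8 46 8 47 10 10 3) (.lf 8 123 0 131)))))))) 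
(.lf (.thr (.lf 0 130 6 124) (.lm 6 48 6 48 11 10 9) (.lf 6 124 0 130))))) (.lf (.low 0))) 
(.t 16 (.a 731 (.y 1142 (.z 1051 (.t 8 (.lf (.thr (.pot 0) (.lm 5 42 5 43 8 7 6) (.pot 0))) 
(.a 728 (.lf .inf) (.y 1139 (.z 1048 (.t 12 
(.lf (.thr (.pot 0) (.lm 7 44 7 44 9 9 3) (.pot 0))) (.lf (.low 0))) (.lf .inf)) (.lf .inf)))) 
(.lf .inf)) (.lf .inf)) (.y 1142 (.z 1051 (.t 8 
(.lf (.thr (.pot 0) (.lm 5 42 5 43 8 7 6) (.pot 0))) (.a 734 (.y 1139 (.z 1048 (.t 12 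
(.lf (.thr (.pot 0) (.lm 7 44 7 44 9 9 3) (.pot 0))) (.lf (.low 0))) (.t 12 
(.lf (.thr (.pot 0) (.lm 7 42 7 43 9 9 3) (.pot 0))) (.lf (.low 0)))) (.z 1048 (.t 12 
(.lf (.thr (.pot 1) (.lm 7 45 7 46 9 9 3) (.pot 1))) (.lf (.low 0))) (.t 12 
(.lf (.thr (.pot 1) (.lm 7 44 7 44 9 9 3) (.pot 0))) (.lf (.low 0))))) (.y 1139 (.z 1048 
(.t 12 (.lf (.thr (.pot 0) (.lm 7 44 7 44 9 9 3) (.pot 0))) (.lf (.low 0))) (.t 12 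
(.lf (.thr (.pot 0) (.lm 7 42 7 43 9 9 3) (.pot 0))) (.lf (.low 0)))) (.z 1048 (.t 12 
(.lf (.thr (.lf 0 131 7 123) (.lm 7 45 7 46 9 9 3) (.pot 0))) (.lf (.low 0))) (.t 12 
(.lf (.thr (.pot 1) (.lm 7 44 7 44 9 9 3) (.pot 0))) (.lf (.low 0))))))) (.t 8 
(.lf (.thr (.pot 0) (.lm 5 39 5 40 8 7 6) (.pot 0))) (.a 734 (.z 1054 (.y 1139 (.t 12 
(.lf (.thr (.pot 0) (.lm 7 41 7 41 9 9 3) (.pot 0))) (.lf (.low 0))) (.lf .inf)) (.lf .inf)) 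
(.z 1054 (.y 1139 (.t 12 (.lf (.thr (.pot 0) (.lm 7 41 7 41 9 9 3) (.pot 0))) (.lf (.low 0))) 
(.t 12 (.lf (.thr (.pot 0) (.lm 7 42 7 43 9 9 3) (.pot 0))) (.lf (.low 0)))) (.y 1139 
(.lf (.thr (.pot 1) (.lm 8 39 8 40 11 10 3) (.pot 1))) (.t 12 
(.lf (.thr (.pot 0) (.lm 7 41 7 41 9 9 3) (.pot 0))) (.lf (.low 0)))))))) (.z 1051 (.t 8 
(.lf (.thr (.pot 0) (.lm 5 45 5 46 8 7 6) (.pot 0))) (.a 734 (.y 1145 (.z 1048 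
(.lf (.thr (.lf 0 131 8 123) (.lm 8 47 7 47 11 10 3) (.lf 7 123 0 131))) (.lf .inf)) (.lf .inf)) 
(.y 1145 (.z 1048 (.lf (.thr (.lf 0 131 8 123) (.lm 8 47 7 47 11 10 3) (.lf 7 123 0 131))) 
(.t 12 (.lf (.thr (.pot 0) (.lm 7 45 7 46 9 9 3) (.lf 7 124 0 131))) (.lf (.low 0)))) 
(.lf (.thr (.lf 0 131 8 123) (.lm 8 47 7 47 11 10 4) (.lf 7 123 0 131)))))) (.t 8 
(.lf (.thr (.pot 0) (.lm 5 42 5 43 8 7 6) (.pot 0))) (.a 734 (.lf .inf) (.z 1054 (.y 1145 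
(.t 12 (.lf (.thr (.pot 1) (.lm 7 44 7 44 9 9 3) (.pot 0))) (.lf (.low 0))) (.lf .inf)) 
(.lf .inf))))))) (.lf (.low 0)))) (.z 1046 (.t 16 
(.lf (.thr (.lf 0 130 6 124) (.lm 6 51 6 51 11 10 12) (.lf 6 125 0 130))) (.lf (.low 0))) 
(.t 16 (.y 1154 (.a 731 (.lf .inf) (.z 1051 
(.lf (.thr (.lf 0 130 7 124) (.lm 7 48 6 49 11 10 6) (.lf 6 124 0 130))) (.lf .inf))) 
(.lf .inf)) (.lf (.low 0))))) (.y 1148 (.z 1046 (.t 16 (.a 743 (.y 1142 (.z 1040 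
(.lf (.thr (.lf 0 130 6 124) (.lm 6 48 6 48 10 10 6) (.pot 0))) (.t 8 
(.lf (.thr (.pot 0) (.lm 5 45 5 45 8 7 6) (.pot 0))) 
(.lf (.thr (.lf 0 131 8 123) (.lm 8 45 8 45 10 10 6) (.pot 1))))) 
(.lf (.thr (.lf 0 130 6 124) (.lm 6 48 6 48 11 10 9) (.lf 6 124 0 130)))) 
(.lf (.thr (.lf 0 130 6 124) (.lm 6 45 6 45 11 10 12) (.pot 0)))) (.lf (.low 0))) (.t 16 
(.a 743 (.y 1142 (.z 1051 (.t 8 (.lf (.thr (.pot 0) (.lm 5 42 5 43 8 7 6) (.pot 0))) (.a 740 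
(.y 1139 (.z 1048 (.lf (.thr (.lf 0 131 8 123) (.lm 8 44 8 44 11 10 3) (.pot 0))) (.t 12 
(.lf (.thr (.pot 0) (.lm 7 42 7 43 9 9 3) (.pot 0))) (.lf (.low 0)))) (.z 1048 (.t 12 
(.lf (.thr (.lf 0 131 7 123) (.lm 7 45 7 46 9 9 3) (.pot 0))) (.lf (.low 0))) (.t 12 
(.lf (.thr (.pot 1) (.lm 7 44 7 44 9 9 3) (.pot 0))) (.lf (.low 0))))) 
(.lf (.thr (.lf 0 131 8 123) (.lm 8 42 8 43 11 10 6) (.pot 1))))) (.t 8 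
(.lf (.thr (.pot 0) (.lm 5 39 5 40 8 7 6) (.pot 0))) (.a 740 (.z 1054 (.y 1139 (.t 12 
(.lf (.thr (.pot 0) (.lm 7 41 7 41 9 9 3) (.pot 0))) (.lf (.low 0))) (.t 12 
(.lf (.thr (.pot 0) (.lm 7 42 7 43 9 9 3) (.pot 0))) (.lf (.low 0)))) (.y 1139 
(.lf (.thr (.pot 1) (.lm 8 39 8 40 11 10 3) (.pot 1))) (.t 12 
(.lf (.thr (.pot 0) (.lm 7 41 7 41 9 9 3) (.pot 0))) (.lf (.low 0))))) (.z 1054 (.y 1139 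
(.lf (.thr (.lf 0 131 8 123) (.lm 8 41 8 41 11 10 3) (.pot 1))) (.t 12 
(.lf (.thr (.pot 0) (.lm 7 42 7 43 9 9 3) (.pot 0))) (.lf (.low 0)))) (.y 1139 
(.lf (.thr (.pot 1) (.lm 8 39 8 40 11 10 3) (.pot 1))) (.t 12 
(.lf (.thr (.pot 0) (.lm 7 41 7 41 9 9 3) (.pot 0))) (.lf (.low 0)))))))) (.z 1051 (.t 8 
(.lf (.thr (.pot 0) (.lm 5 45 5 46 8 7 6) (.pot 0))) (.a 740 (.y 1145 (.z 1048 
(.lf (.thr (.lf 0 131 8 123) (.lm 8 47 7 47 11 10 3) (.lf 7 123 0 131))) (.t 12 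
(.lf (.thr (.lf 0 131 7 123) (.lm 7 45 7 46 9 9 3) (.pot 0))) (.lf (.low 0)))) 
(.lf (.thr (.lf 0 131 8 123) (.lm 8 47 7 47 11 10 4) (.lf 7 123 0 131)))) (.y 1145 (.z 1048 
(.lf (.thr (.lf 0 131 8 123) (.lm 8 47 7 47 11 10 3) (.pot 0))) (.t 12 
(.lf (.thr (.lf 0 131 7 123) (.lm 7 45 7 46 9 9 3) (.pot 0))) (.lf (.low 0)))) 
(.lf (.thr (.lf 0 131 8 123) (.lm 8 47 7 47 11 10 4) (.lf 7 123 0 131)))))) (.t 8 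
(.lf (.thr (.pot 0) (.lm 5 42 5 43 8 7 6) (.pot 0))) (.a 740 (.z 1054 (.y 1145 (.t 12 
(.lf (.thr (.pot 1) (.lm 7 44 7 44 9 9 3) (.pot 0))) (.lf (.low 0))) (.t 12 
(.lf (.thr (.pot 0) (.lm 7 45 7 46 9 8 3) (.lf 7 124 0 131))) (.lf (.low 0)))) (.y 1145 (.t 12 
(.lf (.thr (.pot 0) (.lm 7 42 7 43 9 9 3) (.pot 0))) (.lf (.low 0))) (.t 12 
(.lf (.thr (.pot 1) (.lm 7 44 7 44 9 8 3) (.pot 0))) (.lf (.low 0))))) (.z 1054 (.y 1145 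
(.t 12 (.lf (.thr (.pot 1) (.lm 7 44 7 44 9 9 3) (.pot 0))) (.lf (.low 0))) (.t 12 
(.lf (.thr (.lf 0 131 7 123) (.lm 7 45 7 46 9 8 3) (.pot 0))) (.lf (.low 0)))) (.y 1145 (.t 12 
(.lf (.thr (.pot 0) (.lm 7 42 7 43 9 9 3) (.pot 0))) (.lf (.low 0))) (.t 12 
(.lf (.thr (.pot 1) (.lm 7 44 7 44 9 8 3) (.pot 0))) (.lf (.low 0))))))))) (.y 1142 (.z 1051 
(.lf (.thr (.lf 0 130 7 124) (.lm 7 42 6 43 11 10 6) (.pot 0))) (.t 8 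
(.lf (.thr (.pot 0) (.lm 5 39 5 40 8 7 6) (.pot 0))) 
(.lf (.thr (.lf 0 131 8 122) (.lm 8 39 8 40 11 10 6) (.pot 1))))) (.z 1051 
(.lf (.thr (.lf 0 130 7 124) (.lm 7 45 6 46 11 10 6) (.pot 1))) (.t 8 
(.lf (.thr (.pot 0) (.lm 5 42 5 43 8 7 6) (.pot 0))) (.a 746 (.z 1054 (.y 1145 
(.lf (.thr (.lf 0 131 8 123) (.lm 8 44 7 44 11 10 3) (.pot 1))) (.t 12 
(.lf (.thr (.lf 0 131 7 123) (.lm 7 45 7 46 9 8 3) (.pot 0))) (.lf (.low 0)))) (.y 1145 (.t 12 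
(.lf (.thr (.pot 0) (.lm 7 42 7 43 9 9 3) (.pot 0))) (.lf (.low 0))) (.t 12 
(.lf (.thr (.pot 1) (.lm 7 44 7 44 9 8 3) (.pot 0))) (.lf (.low 0))))) 
(.lf (.thr (.lf 0 131 8 122) (.lm 8 42 7 43 11 10 6) (.pot 1)))))))) (.lf (.low 0)))) (.z 1046 
(.t 16 (.lf (.thr (.lf 0 130 6 124) (.lm 6 51 6 51 11 10 12) (.lf 6 125 0 130))) (.lf (.low 0))) 
(.t 16 (.a 743 (.y 1154 (.z 1051 
(.lf (.thr (.lf 0 130 7 124) (.lm 7 48 6 49 11 10 6) (.lf 6 124 0 130))) (.t 8 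
(.lf (.thr (.pot 0) (.lm 5 45 5 46 8 7 6) (.pot 0))) (.a 740 (.z 1054 
(.lf (.thr (.lf 0 131 8 123) (.lm 8 47 7 47 11 10 5) (.lf 7 123 0 131))) (.lf .inf)) (.z 1054 
(.lf (.thr (.lf 0 131 8 123) (.lm 8 47 7 47 11 10 5) (.lf 7 123 0 131))) (.y 1151 (.t 12 
(.lf (.thr (.pot 1) (.lm 7 45 7 46 9 8 3) (.pot 1))) (.lf (.low 0))) 
(.lf (.thr (.lf 0 131 8 122) (.lm 8 47 7 47 11 10 3) (.lf 7 123 0 131)))))))) 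
(.lf (.thr (.lf 0 130 7 124) (.lm 7 48 6 49 11 9 9) (.lf 6 125 0 130)))) (.y 1154 (.z 1051 
(.lf (.thr (.lf 0 130 7 124) (.lm 7 48 6 49 11 10 6) (.lf 6 124 0 130))) (.t 8 
(.lf (.thr (.pot 0) (.lm 5 45 5 46 8 7 6) (.pot 0))) (.a 746 (.z 1054 
(.lf (.thr (.lf 0 131 8 123) (.lm 8 47 7 47 11 10 5) (.lf 7 123 0 131))) (.y 1151 (.t 12 
(.lf (.thr (.lf 0 131 7 123) (.lm 7 45 7 46 9 8 3) (.pot 0))) (.lf (.low 0))) 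
(.lf (.thr (.lf 0 131 8 122) (.lm 8 47 7 47 11 10 3) (.lf 7 123 0 131))))) (.z 1054 
(.lf (.thr (.lf 0 131 8 123) (.lm 8 47 7 47 11 10 5) (.lf 7 123 0 131))) (.y 1151 (.t 12 
(.lf (.thr (.lf 0 131 7 123) (.lm 7 45 7 46 9 8 3) (.pot 0))) (.lf (.low 0))) 
(.lf (.thr (.lf 0 131 8 122) (.lm 8 47 7 47 11 10 3) (.lf 7 123 0 131)))))))) 
(.lf (.thr (.lf 0 130 7 124) (.lm 7 48 6 49 11 9 9) (.lf 6 125 0 130))))) (.lf (.low 0)))))) 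
(.a 737 (.y 1148 (.z 1068 (.t 16 (.a 731 (.lf .inf) (.y 1142 (.z 1062 (.t 8 
(.lf (.thr (.pot 0) (.lm 5 37 5 37 8 7 6) (.pot 0))) (.a 734 (.lf .inf) (.y 1139 
(.lf (.thr (.pot 1) (.lm 8 37 8 37 11 10 4) (.pot 1))) (.lf .inf)))) (.lf .inf)) (.lf .inf))) 
(.lf (.low 0))) (.lf .inf)) (.lf .inf)) (.y 1148 (.z 1068 (.t 16 (.a 743 (.y 1142 (.z 1062 
(.t 8 (.lf (.thr (.pot 0) (.lm 5 37 5 37 8 7 6) (.pot 0))) (.a 740 (.y 1139 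
(.lf (.thr (.pot 1) (.lm 8 37 8 37 11 10 4) (.pot 1))) 
(.lf (.thr (.pot 1) (.lm 8 38 8 39 11 10 4) (.pot 1)))) (.y 1139 
(.lf (.thr (.pot 0) (.lm 8 37 8 37 11 10 4) (.pot 1))) 
(.lf (.thr (.pot 1) (.lm 8 38 8 39 11 10 4) (.pot 1)))))) 
(.lf (.thr (.pot 1) (.lm 7 34 6 34 11 10 6) (.pot 1)))) (.z 1062 (.t 8 
(.lf (.thr (.pot 0) (.lm 5 40 5 40 8 7 6) (.pot 0))) (.a 740 (.y 1145 (.z 1059 (.t 12 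
(.lf (.thr (.pot 0) (.lm 7 41 7 42 9 9 3) (.pot 0))) (.lf (.low 0))) (.lf .inf)) (.lf .inf)) 
(.y 1145 (.z 1059 (.t 12 (.lf (.thr (.pot 0) (.lm 7 41 7 42 9 9 3) (.pot 0))) (.lf (.low 0))) 
(.t 12 (.lf (.thr (.pot 0) (.lm 7 40 7 40 9 9 3) (.pot 0))) (.lf (.low 0)))) (.z 1059 (.t 12 
(.lf (.thr (.pot 0) (.lm 7 43 7 43 9 8 3) (.pot 0))) (.lf (.low 0))) (.t 12 
(.lf (.thr (.pot 0) (.lm 7 41 7 42 9 8 3) (.pot 0))) (.lf (.low 0))))))) (.t 8 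
(.lf (.thr (.pot 0) (.lm 5 37 5 37 8 7 6) (.pot 0))) (.a 740 (.lf .inf) (.z 1065 (.y 1145 
(.lf (.thr (.pot 1) (.lm 8 38 7 39 11 10 3) (.pot 1))) (.lf .inf)) (.lf .inf)))))) (.y 1142 
(.z 1062 (.t 8 (.lf (.thr (.pot 0) (.lm 5 37 5 37 8 7 6) (.pot 0))) (.a 746 (.y 1139 
(.lf (.thr (.pot 0) (.lm 8 37 8 37 11 10 4) (.pot 1))) 
(.lf (.thr (.pot 1) (.lm 8 38 8 39 11 10 4) (.pot 1)))) (.y 1139 
(.lf (.thr (.pot 0) (.lm 8 37 8 37 11 10 4) (.pot 1))) 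
(.lf (.thr (.pot 1) (.lm 8 38 8 39 11 10 4) (.pot 1)))))) 
(.lf (.thr (.pot 1) (.lm 7 34 6 34 11 10 6) (.pot 1)))) (.z 1062 (.t 8 
(.lf (.thr (.pot 0) (.lm 5 40 5 40 8 7 6) (.pot 0))) (.a 746 (.y 1145 (.z 1059 (.t 12 
(.lf (.thr (.pot 0) (.lm 7 41 7 42 9 9 3) (.pot 0))) (.lf (.low 0))) (.t 12 
(.lf (.thr (.pot 0) (.lm 7 40 7 40 9 9 3) (.pot 0))) (.lf (.low 0)))) (.z 1059 (.t 12 
(.lf (.thr (.pot 0) (.lm 7 43 7 43 9 8 3) (.pot 0))) (.lf (.low 0))) (.t 12 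
(.lf (.thr (.pot 0) (.lm 7 41 7 42 9 8 3) (.pot 0))) (.lf (.low 0))))) (.y 1145 (.z 1059 
(.lf (.thr (.lf 0 131 8 122) (.lm 8 41 7 42 11 10 3) (.pot 1))) (.t 12 
(.lf (.thr (.pot 0) (.lm 7 40 7 40 9 9 3) (.pot 0))) (.lf (.low 0)))) (.z 1059 (.t 12 
(.lf (.thr (.pot 0) (.lm 7 43 7 43 9 8 3) (.pot 0))) (.lf (.low 0))) (.t 12 
(.lf (.thr (.pot 0) (.lm 7 41 7 42 9 8 3) (.pot 0))) (.lf (.low 0))))))) (.t 8 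
(.lf (.thr (.pot 0) (.lm 5 37 5 37 8 7 6) (.pot 0))) (.a 746 (.z 1065 (.y 1145 
(.lf (.thr (.pot 1) (.lm 8 38 7 39 11 10 3) (.pot 1))) (.t 12 
(.lf (.thr (.pot 0) (.lm 7 40 7 40 9 8 3) (.pot 0))) (.lf (.low 0)))) 
(.lf (.thr (.pot 1) (.lm 8 37 7 37 11 10 5) (.pot 1)))) (.z 1065 (.y 1145 
(.lf (.thr (.pot 0) (.lm 8 38 7 39 11 10 3) (.pot 1))) (.t 12 
(.lf (.thr (.pot 0) (.lm 7 40 7 40 9 8 3) (.pot 0))) (.lf (.low 0)))) 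
(.lf (.thr (.pot 1) (.lm 8 37 7 37 11 10 5) (.pot 1))))))))) (.lf (.low 0))) (.t 16 (.a 743 
(.z 1074 (.lf (.thr (.pot 1) (.lm 7 31 6 31 11 10 9) (.pot 1))) (.lf .inf)) (.z 1074 
(.lf (.thr (.pot 1) (.lm 7 31 6 31 11 10 9) (.pot 1))) 
(.lf (.thr (.pot 1) (.lm 7 28 6 28 11 10 9) (.pot 0))))) (.lf (.low 0)))) (.z 1068 (.t 16 
(.a 743 (.y 1154 (.z 1062 (.t 8 (.lf (.thr (.pot 0) (.lm 5 43 5 43 8 7 6) (.pot 0))) (.a 740 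
(.lf .inf) (.y 1151 (.z 1059 (.t 12 (.lf (.thr (.pot 0) (.lm 7 44 7 45 9 8 3) (.pot 0))) 
(.lf (.low 0))) (.lf .inf)) (.lf .inf)))) (.lf .inf)) (.lf .inf)) (.y 1154 (.z 1062 (.t 8 
(.lf (.thr (.pot 0) (.lm 5 43 5 43 8 7 6) (.pot 0))) (.a 746 (.y 1151 (.z 1059 (.t 12 
(.lf (.thr (.pot 0) (.lm 7 44 7 45 9 8 3) (.pot 0))) (.lf (.low 0))) (.t 12 
(.lf (.thr (.pot 0) (.lm 7 43 7 43 9 8 3) (.pot 0))) (.lf (.low 0)))) (.z 1059 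
(.lf (.thr (.lf 0 131 8 122) (.lm 8 46 7 46 11 10 3) (.lf 7 123 0 131))) (.t 12 
(.lf (.thr (.pot 1) (.lm 7 44 7 45 9 8 3) (.pot 0))) (.lf (.low 0))))) (.y 1151 (.z 1059 
(.t 12 (.lf (.thr (.pot 0) (.lm 7 44 7 45 9 8 3) (.pot 0))) (.lf (.low 0))) (.t 12 
(.lf (.thr (.pot 0) (.lm 7 43 7 43 9 8 3) (.pot 0))) (.lf (.low 0)))) (.z 1059 (.t 12 
(.lf (.thr (.lf 0 131 7 123) (.lm 7 46 7 46 9 8 3) (.pot 0))) (.lf (.low 0))) (.t 12 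
(.lf (.thr (.pot 1) (.lm 7 44 7 45 9 8 3) (.pot 0))) (.lf (.low 0))))))) (.t 8 
(.lf (.thr (.pot 0) (.lm 5 40 5 40 8 7 6) (.pot 0))) (.a 746 (.z 1065 (.y 1151 (.t 12 
(.lf (.thr (.pot 0) (.lm 7 41 7 42 9 8 3) (.pot 0))) (.lf (.low 0))) (.lf .inf)) (.lf .inf)) 
(.z 1065 (.y 1151 (.t 12 (.lf (.thr (.pot 0) (.lm 7 41 7 42 9 8 3) (.pot 0))) (.lf (.low 0))) 
(.t 12 (.lf (.thr (.pot 0) (.lm 7 43 7 43 9 8 3) (.pot 0))) (.lf (.low 0)))) (.y 1151 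
(.lf (.thr (.pot 1) (.lm 8 40 7 40 11 10 3) (.pot 1))) (.t 12 
(.lf (.thr (.pot 0) (.lm 7 41 7 42 9 8 3) (.pot 0))) (.lf (.low 0)))))))) (.z 1062 (.t 8 
(.lf (.thr (.pot 0) (.lm 5 46 5 46 8 7 6) (.pot 0))) 
(.lf (.thr (.lf 0 131 8 122) (.lm 8 45 7 47 11 9 6) (.lf 7 123 0 131)))) (.t 8 
(.lf (.thr (.pot 0) (.lm 5 43 5 43 8 7 7) (.pot 0))) (.a 746 (.lf .inf) (.y 1157 (.z 1065 
(.t 12 (.lf (.thr (.pot 1) (.lm 7 44 7 45 9 8 3) (.pot 0))) (.lf (.low 0))) (.t 12 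
(.lf (.thr (.pot 0) (.lm 7 43 7 43 9 8 3) (.pot 0))) (.lf (.low 0)))) (.z 1065 
(.lf (.thr (.pot 1) (.lm 8 45 7 47 11 9 4) (.lf 7 123 0 131))) (.lf .inf)))))))) (.lf (.low 0))) 
(.t 16 (.a 743 (.lf .inf) (.y 1154 (.z 1074 (.t 8 
(.lf (.thr (.pot 0) (.lm 5 37 5 37 8 7 6) (.pot 0))) (.a 746 (.lf .inf) (.z 1071 (.y 1151 
(.lf (.thr (.pot 1) (.lm 8 38 7 39 11 10 3) (.pot 0))) 
(.lf (.thr (.pot 1) (.lm 8 40 7 40 11 10 3) (.pot 1)))) 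
(.lf (.thr (.pot 1) (.lm 8 36 7 38 11 10 5) (.pot 0)))))) (.lf .inf)) (.lf .inf))) 
(.lf (.low 0))))))) (.z 1057 (.a 737 (.lf .inf) (.y 1173 (.z 1046 
(.lf (.thr (.lf 0 131 9 121) (.lm 9 57 8 58 17 14 12) (.lf 8 123 0 131))) (.t 16 
(.lf (.thr (.lf 0 130 7 124) (.lm 7 52 6 52 11 9 12) (.lf 6 125 0 130))) (.lf (.low 0)))) 
(.lf (.thr (.lf 0 131 9 121) (.lm 9 57 7 59 17 13 18) (.lf 7 123 0 131))))) (.a 737 (.lf .inf) 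
(.y 1173 (.z 1068 (.t 16 
(.lf (.thr (.lf 0 130 7 124) (.lm 7 46 6 47 11 9 12) (.lf 6 125 0 130))) (.lf (.low 0))) 
(.lf .inf)) (.lf .inf)))))

theorem h19 : chk (leafT PP TD0 0 2) c19 0 32 725 750 1035 1080 1136 1186 = true := by
  decide +kernel

def c20 : Tree :=
  (.y 1161 (.z 1057 (.a 763 (.y 1148 (.z 1046 (.t 16 
(.lf (.thr (.lf 1 130 6 124) (.lm 6 45 6 45 11 10 12) (.pot 0))) (.lf (.low 0))) (.t 16 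
(.lf (.thr (.lf 1 130 7 124) (.lm 7 39 6 40 11 10 12) (.pot 0))) (.lf (.low 0)))) (.z 1046 
(.t 16 (.lf (.thr (.lf 1 130 6 124) (.lm 6 51 6 51 11 10 12) (.pot 0))) (.lf (.low 0))) (.t 16 
(.a 756 (.y 1154 (.lf (.thr (.lf 1 130 7 124) (.lm 7 45 6 46 11 10 9) (.pot 1))) 
(.lf (.thr (.lf 1 130 7 124) (.lm 7 48 6 49 11 9 9) (.lf 6 125 1 130)))) 
(.lf (.thr (.lf 1 130 7 124) (.lm 7 45 6 46 11 10 12) (.pot 0)))) (.lf (.low 0))))) (.y 1148 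
(.z 1046 (.lf (.thr (.lf 0 131 9 121) (.lm 9 45 9 45 17 16 12) (.pot 0))) (.t 16 
(.lf (.thr (.lf 1 130 7 124) (.lm 7 39 6 40 11 10 12) (.pot 0))) (.lf (.low 0)))) (.z 1046 
(.t 16 (.lf (.thr (.lf 1 130 6 124) (.lm 6 51 6 51 11 10 12) (.pot 0))) (.lf (.low 0))) (.t 16 
(.lf (.thr (.lf 1 130 7 124) (.lm 7 45 6 46 11 10 12) (.pot 0))) (.lf (.low 0)))))) (.a 763 
(.y 1148 (.z 1068 (.t 16 (.a 756 (.y 1142 (.z 1062 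
(.lf (.thr (.lf 1 130 7 124) (.lm 7 37 6 37 11 10 6) (.pot 0))) 
(.lf (.thr (.pot 0) (.lm 7 34 6 34 11 10 6) (.pot 1)))) (.z 1062 
(.lf (.thr (.lf 1 130 7 124) (.lm 7 40 6 40 11 10 6) (.pot 1))) (.t 8 
(.lf (.thr (.pot 0) (.lm 5 37 5 37 8 7 6) (.pot 0))) (.a 753 (.z 1065 (.y 1145 
(.lf (.thr (.pot 0) (.lm 8 38 7 39 11 10 3) (.pot 1))) 
(.lf (.thr (.lf 0 131 8 122) (.lm 8 40 7 40 11 10 3) (.pot 1)))) 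
(.lf (.thr (.pot 1) (.lm 8 37 7 37 11 10 5) (.pot 1)))) 
(.lf (.thr (.lf 0 131 8 122) (.lm 8 37 7 37 11 10 6) (.pot 1))))))) 
(.lf (.thr (.lf 1 130 7 124) (.lm 7 34 6 34 11 10 12) (.pot 1)))) (.lf (.low 0))) (.t 16 
(.a 756 (.z 1074 (.lf (.thr (.pot 1) (.lm 7 31 6 31 11 10 9) (.pot 1))) 
(.lf (.thr (.pot 1) (.lm 7 28 6 28 11 10 9) (.pot 0)))) (.z 1074 
(.lf (.thr (.pot 1) (.lm 7 31 6 31 11 10 9) (.pot 1))) 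
(.lf (.thr (.pot 0) (.lm 7 28 6 28 11 10 9) (.pot 1))))) (.lf (.low 0)))) (.z 1068 (.t 16 
(.a 756 (.y 1154 (.z 1062 (.t 8 (.lf (.thr (.pot 0) (.lm 5 43 5 43 8 7 6) (.pot 0))) (.a 753 
(.y 1151 (.lf (.thr (.lf 0 131 8 122) (.lm 8 43 7 43 11 10 4) (.pot 1))) (.z 1059 
(.lf (.thr (.lf 0 131 8 122) (.lm 8 46 7 46 11 10 3) (.pot 0))) (.t 12 
(.lf (.thr (.lf 0 131 7 123) (.lm 7 44 7 45 9 8 3) (.pot 0))) (.lf (.low 0))))) 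
(.lf (.thr (.lf 0 131 8 122) (.lm 8 43 7 43 11 10 6) (.pot 0))))) (.t 8 
(.lf (.thr (.pot 0) (.lm 5 40 5 40 8 7 6) (.pot 0))) (.a 753 (.z 1065 (.y 1151 (.t 12 
(.lf (.thr (.pot 0) (.lm 7 41 7 42 9 8 3) (.pot 0))) (.lf (.low 0))) (.t 12 
(.lf (.thr (.pot 0) (.lm 7 43 7 43 9 8 3) (.pot 0))) (.lf (.low 0)))) (.y 1151 
(.lf (.thr (.pot 1) (.lm 8 40 7 40 11 10 3) (.pot 1))) (.t 12 
(.lf (.thr (.pot 0) (.lm 7 41 7 42 9 8 3) (.pot 0))) (.lf (.low 0))))) (.z 1065 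
(.lf (.thr (.lf 0 131 8 122) (.lm 8 41 7 42 11 10 5) (.pot 1))) (.y 1151 
(.lf (.thr (.pot 1) (.lm 8 40 7 40 11 10 3) (.pot 1))) (.t 12 
(.lf (.thr (.pot 0) (.lm 7 41 7 42 9 8 3) (.pot 0))) (.lf (.low 0)))))))) (.z 1062 (.t 8 
(.lf (.thr (.pot 0) (.lm 5 46 5 46 8 7 6) (.pot 0))) (.y 1157 (.a 753 (.z 1059 
(.lf (.thr (.lf 0 131 8 122) (.lm 8 47 7 48 11 9 3) (.lf 7 123 0 131))) (.t 12 
(.lf (.thr (.lf 0 131 7 123) (.lm 7 46 7 46 9 8 3) (.pot 0))) (.lf (.low 0)))) 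
(.lf (.thr (.lf 0 131 8 122) (.lm 8 46 7 46 11 9 4) (.pot 1)))) 
(.lf (.thr (.lf 0 131 8 122) (.lm 8 47 7 48 11 9 5) (.lf 7 123 0 131))))) (.t 8 
(.lf (.thr (.pot 0) (.lm 5 43 5 43 8 7 7) (.pot 0))) (.y 1157 (.a 753 (.z 1065 (.t 12 
(.lf (.thr (.pot 1) (.lm 7 44 7 45 9 8 3) (.pot 0))) (.lf (.low 0))) (.t 12 
(.lf (.thr (.pot 0) (.lm 7 43 7 43 9 8 3) (.pot 0))) (.lf (.low 0)))) (.z 1065 (.t 12 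
(.lf (.thr (.lf 0 131 7 123) (.lm 7 44 7 45 9 8 3) (.pot 0))) (.lf (.low 0))) (.t 12 
(.lf (.thr (.pot 0) (.lm 7 43 7 43 9 8 3) (.pot 0))) (.lf (.low 0))))) (.a 753 (.z 1065 
(.lf (.thr (.lf 0 131 8 122) (.lm 8 45 7 47 11 9 4) (.lf 7 123 0 131))) (.t 12 
(.lf (.thr (.pot 1) (.lm 7 44 6 45 9 8 4) (.pot 0))) (.lf (.low 0)))) (.z 1065 (.t 12 
(.lf (.thr (.lf 0 131 7 123) (.lm 7 46 6 46 9 8 4) (.pot 0))) (.lf (.low 0))) (.t 12 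
(.lf (.thr (.pot 0) (.lm 7 44 6 45 9 8 4) (.pot 1))) (.lf (.low 0))))))))) (.y 1154 
(.lf (.thr (.lf 1 130 7 124) (.lm 7 40 6 40 11 10 9) (.pot 1))) (.z 1062 
(.lf (.thr (.lf 1 130 7 124) (.lm 7 46 6 46 11 9 6) (.pot 1))) (.t 8 
(.lf (.thr (.pot 0) (.lm 5 43 5 43 8 7 7) (.pot 0))) (.a 759 (.y 1157 
(.lf (.thr (.lf 0 131 8 122) (.lm 8 42 7 44 11 9 5) (.pot 1))) (.z 1065 
(.lf (.thr (.lf 0 131 8 122) (.lm 8 45 7 47 11 9 4) (.pot 1))) (.t 12 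
(.lf (.thr (.lf 0 131 7 123) (.lm 7 44 6 45 9 8 4) (.pot 0))) (.lf (.low 0))))) 
(.lf (.thr (.lf 0 131 8 122) (.lm 8 42 7 44 11 9 7) (.pot 0)))))))) (.lf (.low 0))) (.t 16 
(.a 756 (.y 1154 (.z 1074 (.t 8 (.lf (.thr (.pot 0) (.lm 5 37 5 37 8 7 6) (.pot 0))) (.a 753 
(.z 1071 (.y 1151 (.lf (.thr (.pot 0) (.lm 8 38 7 39 11 10 3) (.pot 1))) 
(.lf (.thr (.pot 1) (.lm 8 40 7 40 11 10 3) (.pot 1)))) 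
(.lf (.thr (.pot 1) (.lm 8 36 7 38 11 10 5) (.pot 1)))) (.z 1071 (.y 1151 
(.lf (.thr (.pot 0) (.lm 8 38 7 39 11 10 3) (.pot 1))) 
(.lf (.thr (.pot 1) (.lm 8 40 7 40 11 10 3) (.pot 1)))) 
(.lf (.thr (.pot 1) (.lm 8 36 7 38 11 10 5) (.pot 1)))))) 
(.lf (.thr (.pot 1) (.lm 7 34 6 34 11 10 6) (.pot 0)))) (.z 1074 (.t 8 
(.lf (.thr (.pot 0) (.lm 5 40 5 40 8 7 7) (.pot 0))) (.y 1157 (.a 753 (.z 1071 (.t 12 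
(.lf (.thr (.pot 0) (.lm 7 41 7 42 9 8 3) (.pot 0))) (.lf (.low 0))) 
(.lf (.thr (.pot 1) (.lm 8 39 7 41 11 9 3) (.pot 1)))) (.z 1071 (.t 12 
(.lf (.thr (.pot 0) (.lm 7 41 7 42 9 8 3) (.pot 0))) (.lf (.low 0))) 
(.lf (.thr (.pot 1) (.lm 8 39 7 41 11 9 3) (.pot 1))))) (.a 753 (.z 1071 (.t 12 
(.lf (.thr (.pot 0) (.lm 7 43 6 43 9 8 4) (.pot 0))) (.lf (.low 0))) (.lf .inf)) (.z 1071 
(.t 12 (.lf (.thr (.pot 0) (.lm 7 43 6 43 9 8 4) (.pot 0))) (.lf (.low 0))) (.t 12 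
(.lf (.thr (.pot 0) (.lm 7 41 6 42 9 8 4) (.pot 0))) (.lf (.low 0))))))) (.t 8 
(.lf (.thr (.pot 0) (.lm 5 37 5 37 8 7 7) (.pot 0))) (.y 1157 
(.lf (.thr (.pot 1) (.lm 8 36 7 38 11 9 5) (.pot 0))) (.a 753 (.lf .inf) (.z 1077 
(.lf (.thr (.pot 1) (.lm 8 39 7 41 11 9 4) (.pot 1))) (.lf .inf))))))) (.y 1154 (.z 1074 (.t 8 
(.lf (.thr (.pot 0) (.lm 5 37 5 37 8 7 6) (.pot 0))) (.a 759 (.z 1071 (.y 1151 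
(.lf (.thr (.pot 0) (.lm 8 38 7 39 11 10 3) (.pot 1))) 
(.lf (.thr (.pot 1) (.lm 8 40 7 40 11 10 3) (.pot 1)))) 
(.lf (.thr (.pot 0) (.lm 8 36 7 38 11 10 5) (.pot 1)))) 
(.lf (.thr (.lf 0 131 8 122) (.lm 8 36 7 38 11 10 6) (.pot 1))))) 
(.lf (.thr (.pot 0) (.lm 7 34 6 34 11 10 6) (.pot 1)))) (.z 1074 (.t 8 
(.lf (.thr (.pot 0) (.lm 5 40 5 40 8 7 7) (.pot 0))) (.a 759 (.y 1157 (.z 1071 (.t 12 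
(.lf (.thr (.pot 0) (.lm 7 41 7 42 9 8 3) (.pot 0))) (.lf (.low 0))) 
(.lf (.thr (.pot 1) (.lm 8 39 7 41 11 9 3) (.pot 1)))) (.z 1071 (.t 12 
(.lf (.thr (.pot 0) (.lm 7 43 6 43 9 8 4) (.pot 0))) (.lf (.low 0))) (.t 12 
(.lf (.thr (.pot 0) (.lm 7 41 6 42 9 8 4) (.pot 0))) (.lf (.low 0))))) (.y 1157 (.z 1071 
(.lf (.thr (.lf 0 131 8 122) (.lm 8 41 7 42 11 9 3) (.pot 0))) 
(.lf (.thr (.pot 1) (.lm 8 39 7 41 11 9 3) (.pot 1)))) (.z 1071 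
(.lf (.thr (.lf 0 131 8 122) (.lm 8 42 7 44 11 9 4) (.pot 1))) (.t 12 
(.lf (.thr (.pot 0) (.lm 7 41 6 42 9 8 4) (.pot 0))) (.lf (.low 0))))))) (.t 8 
(.lf (.thr (.pot 0) (.lm 5 37 5 37 8 7 7) (.pot 0))) (.a 759 (.y 1157 
(.lf (.thr (.pot 0) (.lm 8 36 7 38 11 9 5) (.pot 1))) (.z 1077 
(.lf (.thr (.pot 1) (.lm 8 39 7 41 11 9 4) (.pot 1))) 
(.lf (.thr (.pot 1) (.lm 8 38 7 39 11 9 4) (.pot 0))))) (.y 1157 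
(.lf (.thr (.pot 0) (.lm 8 36 7 38 11 9 5) (.pot 1))) (.z 1077 
(.lf (.thr (.pot 1) (.lm 8 39 7 41 11 9 4) (.pot 1))) 
(.lf (.thr (.pot 0) (.lm 8 38 7 39 11 9 4) (.pot 1)))))))))) (.lf (.low 0))))) (.y 1148 
(.z 1068 (.t 16 (.lf (.thr (.lf 1 130 7 124) (.lm 7 34 6 34 11 10 12) (.pot 0))) (.lf (.low 0))) 
(.t 16 (.a 769 (.z 1074 (.lf (.thr (.lf 1 130 7 124) (.lm 7 31 6 31 11 10 9) (.pot 0))) 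
(.lf (.thr (.pot 0) (.lm 7 28 6 28 11 10 9) (.pot 1)))) 
(.lf (.thr (.lf 1 130 7 124) (.lm 7 28 6 28 11 10 12) (.pot 0)))) (.lf (.low 0)))) (.z 1068 
(.t 16 (.lf (.thr (.lf 1 130 7 124) (.lm 7 40 6 40 11 10 12) (.pot 0))) (.lf (.low 0))) (.t 16 
(.a 769 (.y 1154 (.z 1074 (.lf (.thr (.lf 1 130 7 124) (.lm 7 37 6 37 11 10 6) (.pot 0))) 
(.lf (.thr (.pot 0) (.lm 7 34 6 34 11 10 6) (.pot 1)))) (.z 1074 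
(.lf (.thr (.lf 1 130 7 124) (.lm 7 40 6 40 11 9 7) (.pot 1))) (.t 8 
(.lf (.thr (.pot 0) (.lm 5 37 5 37 8 7 7) (.pot 0))) (.y 1157 
(.lf (.thr (.pot 0) (.lm 8 36 7 38 11 9 5) (.pot 1))) (.a 766 (.z 1077 
(.lf (.thr (.pot 1) (.lm 8 39 7 41 11 9 4) (.pot 1))) 
(.lf (.thr (.pot 0) (.lm 8 38 7 39 11 9 4) (.pot 1)))) 
(.lf (.thr (.lf 0 131 8 122) (.lm 8 38 7 39 11 9 5) (.pot 1)))))))) 
(.lf (.thr (.lf 1 130 7 124) (.lm 7 34 6 34 11 10 13) (.pot 1)))) (.lf (.low 0))))))) (.z 1057 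
(.a 763 (.y 1173 (.z 1046 (.t 16 
(.lf (.thr (.lf 1 130 6 124) (.lm 6 57 6 58 11 9 12) (.lf 6 125 1 130))) (.lf (.low 0))) 
(.t 16 (.lf (.thr (.lf 1 130 7 124) (.lm 7 52 6 52 11 9 12) (.lf 6 125 1 130))) (.lf (.low 0)))) 
(.lf (.thr (.lf 0 131 9 121) (.lm 9 57 7 59 17 13 18) (.lf 7 123 0 131)))) (.y 1173 (.z 1046 
(.t 16 (.lf (.thr (.lf 1 130 6 124) (.lm 6 57 6 58 11 9 12) (.pot 0))) (.lf (.low 0))) (.t 16 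
(.lf (.thr (.lf 1 130 7 124) (.lm 7 52 6 52 11 9 12) (.pot 0))) (.lf (.low 0)))) (.z 1046 
(.lf (.thr (.lf 0 131 9 121) (.lm 9 63 7 64 17 13 12) (.lf 7 123 0 131))) (.t 16 
(.lf (.thr (.lf 1 130 7 124) (.lm 7 58 6 58 11 9 12) (.lf 6 125 1 130))) (.lf (.low 0)))))) 
(.a 763 (.y 1173 (.z 1068 (.t 16 (.a 756 (.y 1167 (.z 1062 
(.lf (.thr (.lf 1 130 7 124) (.lm 7 49 6 50 11 9 6) (.lf 6 125 1 130))) (.t 8 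
(.lf (.thr (.pot 0) (.lm 5 46 5 47 8 7 6) (.pot 0))) 
(.lf (.thr (.lf 0 131 8 122) (.lm 8 46 7 47 11 9 6) (.lf 7 124 0 131))))) 
(.lf (.thr (.lf 1 130 7 124) (.lm 7 49 6 50 11 9 9) (.lf 6 125 1 130)))) (.y 1167 (.z 1062 
(.lf (.thr (.lf 1 130 7 124) (.lm 7 49 6 50 11 9 6) (.lf 6 125 1 130))) (.t 8 
(.lf (.thr (.pot 0) (.lm 5 46 5 47 8 7 6) (.pot 0))) 
(.lf (.thr (.lf 0 131 8 122) (.lm 8 46 7 47 11 9 6) (.lf 7 124 0 131))))) 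
(.lf (.thr (.lf 1 130 7 124) (.lm 7 49 6 50 11 9 9) (.lf 6 125 1 130))))) (.lf (.low 0))) 
(.t 16 (.a 756 (.z 1074 (.y 1167 (.t 8 (.lf (.thr (.pot 0) (.lm 5 43 5 44 8 7 6) (.pot 0))) 
(.a 753 (.lf .inf) (.z 1071 (.y 1164 (.t 12 
(.lf (.thr (.pot 1) (.lm 7 45 6 45 9 8 3) (.pot 0))) (.lf (.low 0))) 
(.lf (.thr (.pot 0) (.lm 8 46 7 47 11 9 3) (.lf 7 124 0 131)))) 
(.lf (.thr (.pot 1) (.lm 8 43 7 44 11 9 5) (.lf 7 124 0 131)))))) (.lf .inf)) (.lf .inf)) 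
(.z 1074 (.y 1167 (.t 8 (.lf (.thr (.pot 0) (.lm 5 43 5 44 8 7 6) (.pot 0))) (.a 759 (.z 1071 
(.y 1164 (.t 12 (.lf (.thr (.pot 1) (.lm 7 45 6 45 9 8 3) (.pot 0))) (.lf (.low 0))) 
(.lf (.thr (.lf 0 131 8 122) (.lm 8 46 7 47 11 9 3) (.lf 7 124 0 131)))) (.y 1164 (.t 12 
(.lf (.thr (.pot 0) (.lm 7 43 6 44 9 8 3) (.pot 0))) (.lf (.low 0))) (.t 12 
(.lf (.thr (.pot 1) (.lm 7 44 6 46 9 8 3) (.pot 0))) (.lf (.low 0))))) (.z 1071 (.y 1164 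
(.t 12 (.lf (.thr (.lf 0 130 7 123) (.lm 7 45 6 45 9 8 3) (.pot 0))) (.lf (.low 0))) 
(.lf (.thr (.lf 0 131 8 122) (.lm 8 46 7 47 11 9 3) (.lf 7 124 0 131)))) (.y 1164 (.t 12 
(.lf (.thr (.pot 0) (.lm 7 43 6 44 9 8 3) (.pot 0))) (.lf (.low 0))) (.t 12 
(.lf (.thr (.pot 1) (.lm 7 44 6 46 9 8 3) (.pot 0))) (.lf (.low 0))))))) (.t 8 
(.lf (.thr (.pot 0) (.lm 5 46 5 47 8 7 6) (.pot 0))) 
(.lf (.thr (.lf 0 131 8 122) (.lm 8 46 7 47 11 9 6) (.lf 7 124 0 131))))) (.y 1167 (.t 8 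
(.lf (.thr (.pot 0) (.lm 5 40 5 41 8 7 6) (.pot 0))) (.a 759 (.z 1077 (.y 1164 (.t 12 
(.lf (.thr (.pot 0) (.lm 7 41 6 43 9 8 3) (.pot 0))) (.lf (.low 0))) 
(.lf (.thr (.pot 0) (.lm 8 43 7 44 11 9 3) (.lf 7 124 0 131)))) 
(.lf (.thr (.pot 1) (.lm 8 40 7 41 11 9 5) (.lf 7 124 0 131)))) (.z 1077 (.y 1164 (.t 12 
(.lf (.thr (.pot 0) (.lm 7 41 6 43 9 8 3) (.pot 0))) (.lf (.low 0))) (.t 12 
(.lf (.thr (.pot 0) (.lm 7 43 6 44 9 8 3) (.pot 0))) (.lf (.low 0)))) (.y 1164 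
(.lf (.thr (.pot 1) (.lm 8 40 7 41 11 9 3) (.pot 1))) (.t 12 
(.lf (.thr (.pot 0) (.lm 7 41 6 43 9 8 3) (.pot 0))) (.lf (.low 0))))))) (.t 8 
(.lf (.thr (.pot 0) (.lm 5 43 5 44 8 7 6) (.pot 0))) (.a 759 (.lf .inf) (.z 1077 (.y 1170 
(.t 12 (.lf (.thr (.pot 1) (.lm 7 44 6 46 9 8 3) (.pot 0))) (.lf (.low 0))) 
(.lf (.thr (.pot 0) (.lm 8 46 7 47 11 9 3) (.lf 7 124 0 131)))) 
(.lf (.thr (.pot 1) (.lm 8 43 7 44 11 9 5) (.lf 7 124 0 131))))))))) (.lf (.low 0)))) (.z 1068 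
(.t 16 (.lf (.thr (.lf 1 130 7 124) (.lm 7 52 6 53 11 9 12) (.lf 6 125 1 130))) (.lf (.low 0))) 
(.t 16 (.lf (.thr (.lf 1 130 7 124) (.lm 7 46 6 47 11 9 13) (.lf 6 125 1 130))) (.lf (.low 0))))) 
(.y 1173 (.z 1068 (.t 16 (.a 769 (.y 1167 
(.lf (.thr (.lf 1 130 7 124) (.lm 7 46 6 47 11 9 9) (.pot 0))) 
(.lf (.thr (.lf 1 130 7 124) (.lm 7 49 6 50 11 9 9) (.lf 6 125 1 130)))) 
(.lf (.thr (.lf 1 130 7 124) (.lm 7 46 6 47 11 9 12) (.pot 0)))) (.lf (.low 0))) (.t 16 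
(.a 769 (.z 1074 (.y 1167 (.t 8 (.lf (.thr (.pot 0) (.lm 5 43 5 44 8 7 6) (.pot 0))) (.a 766 
(.z 1071 (.lf (.thr (.lf 0 131 8 122) (.lm 8 44 7 46 11 9 5) (.pot 0))) (.y 1164 
(.lf (.thr (.lf 0 131 8 122) (.lm 8 43 7 44 11 9 3) (.pot 1))) (.t 12 
(.lf (.thr (.lf 0 130 7 123) (.lm 7 44 6 46 9 8 3) (.pot 0))) (.lf (.low 0))))) 
(.lf (.thr (.lf 0 131 8 122) (.lm 8 43 7 44 11 9 6) (.pot 0))))) (.t 8 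
(.lf (.thr (.pot 0) (.lm 5 46 5 47 8 7 6) (.pot 0))) 
(.lf (.thr (.lf 0 131 8 122) (.lm 8 46 7 47 11 9 6) (.lf 7 124 0 131))))) (.y 1167 (.t 8 
(.lf (.thr (.pot 0) (.lm 5 40 5 41 8 7 6) (.pot 0))) (.a 766 (.z 1077 (.y 1164 (.t 12 
(.lf (.thr (.pot 0) (.lm 7 41 6 43 9 8 3) (.pot 0))) (.lf (.low 0))) (.t 12 
(.lf (.thr (.pot 0) (.lm 7 43 6 44 9 8 3) (.pot 0))) (.lf (.low 0)))) (.y 1164 
(.lf (.thr (.pot 1) (.lm 8 40 7 41 11 9 3) (.pot 1))) (.t 12 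
(.lf (.thr (.pot 0) (.lm 7 41 6 43 9 8 3) (.pot 0))) (.lf (.low 0))))) (.z 1077 
(.lf (.thr (.lf 0 131 8 122) (.lm 8 41 7 43 11 9 5) (.pot 1))) (.y 1164 
(.lf (.thr (.pot 1) (.lm 8 40 7 41 11 9 3) (.pot 1))) (.t 12 
(.lf (.thr (.pot 0) (.lm 7 41 6 43 9 8 3) (.pot 0))) (.lf (.low 0))))))) (.t 8 
(.lf (.thr (.pot 0) (.lm 5 43 5 44 8 7 6) (.pot 0))) (.a 766 (.z 1077 (.y 1170 (.t 12 
(.lf (.thr (.pot 1) (.lm 7 44 6 46 9 8 3) (.pot 0))) (.lf (.low 0))) 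
(.lf (.thr (.lf 0 131 8 122) (.lm 8 46 7 47 11 9 3) (.lf 7 124 0 131)))) (.y 1170 (.t 12 
(.lf (.thr (.pot 0) (.lm 7 43 6 44 9 8 3) (.pot 0))) (.lf (.low 0))) (.t 12 
(.lf (.thr (.pot 0) (.lm 7 44 6 46 9 8 3) (.pot 0))) (.lf (.low 0))))) (.z 1077 (.y 1170 
(.t 12 (.lf (.thr (.lf 0 130 7 123) (.lm 7 44 6 46 9 8 3) (.pot 0))) (.lf (.low 0))) 
(.lf (.thr (.lf 0 131 8 122) (.lm 8 46 7 47 11 9 3) (.lf 7 124 0 131)))) (.y 1170 (.t 12 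
(.lf (.thr (.pot 0) (.lm 7 43 6 44 9 8 3) (.pot 0))) (.lf (.low 0))) (.t 12 
(.lf (.thr (.pot 0) (.lm 7 44 6 46 9 8 3) (.pot 0))) (.lf (.low 0))))))))) (.z 1074 
(.lf (.thr (.lf 1 130 7 124) (.lm 7 43 6 44 11 9 9) (.pot 1))) (.y 1167 
(.lf (.thr (.lf 1 130 7 124) (.lm 7 40 6 41 11 9 6) (.pot 1))) (.t 8 
(.lf (.thr (.pot 0) (.lm 5 43 5 44 8 7 6) (.pot 0))) (.a 772 (.z 1077 
(.lf (.thr (.lf 0 131 8 122) (.lm 8 44 7 46 11 9 5) (.pot 0))) (.y 1170 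
(.lf (.thr (.lf 0 131 8 122) (.lm 8 43 7 44 11 9 3) (.pot 1))) (.t 12 
(.lf (.thr (.pot 0) (.lm 7 44 6 46 9 8 3) (.pot 0))) (.lf (.low 0))))) 
(.lf (.thr (.lf 0 131 8 122) (.lm 8 43 7 44 11 9 6) (.pot 0)))))))) (.lf (.low 0)))) (.z 1068 
(.t 16 (.lf (.thr (.lf 1 130 7 124) (.lm 7 52 6 53 11 9 12) (.lf 6 125 1 130))) (.lf (.low 0))) 
(.t 16 (.a 769 (.y 1179 (.z 1074 
(.lf (.thr (.lf 1 130 7 124) (.lm 7 49 6 50 11 9 6) (.lf 6 125 1 130))) (.t 8 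
(.lf (.thr (.pot 0) (.lm 5 46 5 47 8 7 6) (.pot 0))) 
(.lf (.thr (.lf 0 131 8 122) (.lm 8 46 7 47 11 9 6) (.lf 7 124 0 131))))) 
(.lf (.thr (.lf 1 130 7 124) (.lm 7 49 5 50 11 9 10) (.lf 5 125 1 130)))) (.y 1179 (.z 1074 
(.lf (.thr (.lf 1 130 7 124) (.lm 7 49 6 50 11 9 6) (.lf 6 125 1 130))) (.t 8 
(.lf (.thr (.pot 0) (.lm 5 46 5 47 8 7 6) (.pot 0))) 
(.lf (.thr (.lf 0 131 8 122) (.lm 8 46 7 47 11 9 6) (.lf 7 124 0 131))))) 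
(.lf (.thr (.lf 1 130 7 124) (.lm 7 49 5 50 11 9 10) (.lf 5 125 1 130))))) (.lf (.low 0))))))))

theorem h20 : chk (leafT PP TD0 0 2) c20 0 32 750 776 1035 1080 1136 1186 = true := by
  decide +kernel

def c21 : Tree :=
  (.a 750 (.lf .inf) (.y 1211 (.z 1057 
(.lf (.thr (.lf 0 131 9 121) (.lm 9 63 7 66 17 12 24) (.lf 7 124 0 131))) (.a 763 
(.lf (.thr (.lf 0 131 10 121) (.lm 10 52 7 54 17 12 24) (.lf 7 124 0 131))) (.y 1198 (.z 1068 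
(.lf (.thr (.lf 0 131 10 121) (.lm 10 58 7 60 17 12 12) (.lf 7 124 0 131))) 
(.lf (.thr (.lf 0 131 10 121) (.lm 10 52 7 54 17 12 12) (.lf 7 124 0 131)))) 
(.lf (.thr (.lf 0 131 10 121) (.lm 10 57 6 61 17 11 18) (.lf 6 124 0 131)))))) 
(.lf (.thr (.lf 0 131 10 121) (.lm 10 64 5 67 17 9 36) (.lf 5 114 0 119)))))

theorem h21 : chk (leafT PP TD0 0 2) c21 0 32 725 776 1035 1080 1186 1237 = true := by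
  decide +kernel

def c22 : Tree :=
  (.y 1136 (.a 826 (.y 1085 (.lf .inf) (.y 1110 (.lf .inf) (.a 801 (.z 1057 
(.lf (.thr (.lf 0 122 9 112) (.lm 9 26 9 27 17 17 24) (.pot 0))) (.y 1123 (.lf .inf) 
(.lf (.thr (.lf 0 131 10 121) (.lm 10 21 9 22 17 16 18) (.pot 1))))) (.lf .inf)))) (.lf .inf)) 
(.a 826 (.y 1186 (.a 801 (.y 1161 (.z 1057 (.a 788 
(.lf (.thr (.lf 0 128 9 119) (.lm 9 39 9 40 17 16 24) (.pot 1))) 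
(.lf (.thr (.lf 0 122 9 112) (.lm 9 39 9 40 17 16 24) (.pot 0)))) (.a 788 (.y 1148 (.z 1068 
(.lf (.thr (.lf 0 131 10 121) (.lm 10 33 9 35 17 16 12) (.pot 0))) (.t 16 
(.lf (.thr (.lf 1 130 7 124) (.lm 7 28 6 28 11 10 12) (.pot 0))) (.lf (.low 0)))) (.z 1068 
(.t 16 (.lf (.thr (.lf 1 130 7 124) (.lm 7 40 6 40 11 10 12) (.pot 0))) (.lf (.low 0))) (.t 16 
(.lf (.thr (.lf 1 130 7 124) (.lm 7 34 6 34 11 10 13) (.pot 0))) (.lf (.low 0))))) (.y 1148 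
(.lf (.thr (.lf 0 131 10 121) (.lm 10 27 9 29 17 16 18) (.pot 0))) 
(.lf (.thr (.lf 0 131 10 121) (.lm 10 33 8 35 17 15 18) (.pot 1)))))) (.z 1057 (.a 788 
(.y 1173 (.z 1046 (.lf (.thr (.lf 0 128 9 119) (.lm 9 57 8 58 17 14 12) (.pot 0))) (.t 16 
(.lf (.thr (.lf 1 130 7 124) (.lm 7 52 6 52 11 9 12) (.pot 0))) (.lf (.low 0)))) (.z 1046 
(.t 16 (.lf (.thr (.lf 1 126 6 121) (.lm 6 63 6 64 11 9 12) (.pot 0))) (.lf (.low 0))) (.t 16 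
(.lf (.thr (.lf 1 130 7 124) (.lm 7 58 6 58 11 9 12) (.pot 0))) (.lf (.low 0))))) (.y 1173 
(.lf (.thr (.lf 0 122 9 112) (.lm 9 51 8 53 17 14 17) (.pot 0))) (.z 1046 
(.lf (.thr (.lf 0 122 9 112) (.lm 9 63 7 64 17 13 12) (.pot 0))) 
(.lf (.thr (.lf 0 127 10 118) (.lm 10 57 7 59 17 13 12) (.pot 1)))))) (.a 788 (.y 1173 
(.z 1068 (.t 16 (.lf (.thr (.lf 1 130 7 124) (.lm 7 46 6 47 11 9 12) (.pot 0))) (.lf (.low 0))) 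
(.t 16 (.lf (.thr (.lf 1 130 7 124) (.lm 7 40 6 41 11 9 12) (.pot 0))) (.lf (.low 0)))) 
(.z 1068 (.t 16 (.lf (.thr (.lf 1 130 7 124) (.lm 7 52 6 53 11 9 12) (.pot 0))) (.lf (.low 0))) 
(.t 16 (.y 1179 (.lf (.thr (.lf 1 130 7 124) (.lm 7 46 6 47 11 9 9) (.pot 0))) 
(.lf (.thr (.lf 1 130 7 124) (.lm 7 49 5 50 11 9 10) (.lf 5 125 1 130)))) (.lf (.low 0))))) 
(.y 1173 (.z 1068 (.lf (.thr (.lf 0 131 10 121) (.lm 10 46 8 47 17 14 12) (.pot 0))) (.t 16 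
(.lf (.thr (.lf 1 129 7 124) (.lm 7 40 6 41 11 9 12) (.pot 0))) (.lf (.low 0)))) (.z 1068 
(.t 16 (.lf (.thr (.lf 1 129 7 124) (.lm 7 52 6 53 11 9 12) (.pot 0))) (.lf (.low 0))) (.t 16 
(.lf (.thr (.lf 1 129 7 124) (.lm 7 46 6 47 11 9 13) (.pot 0))) (.lf (.low 0)))))))) (.y 1161 
(.lf (.thr (.lf 0 109 10 100) (.lm 10 27 9 29 17 16 35) (.pot 0))) (.z 1057 
(.lf (.thr (.lf 0 109 9 100) (.lm 9 51 8 53 17 14 24) (.pot 0))) 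
(.lf (.thr (.lf 0 120 10 111) (.lm 10 39 8 42 17 14 24) (.pot 1)))))) (.y 1211 (.a 801 
(.z 1057 (.a 788 (.lf (.thr (.lf 0 128 9 119) (.lm 9 63 7 66 17 12 24) (.lf 7 124 0 131))) 
(.y 1198 (.z 1046 (.lf (.thr (.lf 0 122 9 112) (.lm 9 69 7 71 17 12 12) (.lf 7 124 0 131))) 
(.t 16 (.lf (.thr (.lf 1 125 7 120) (.lm 7 64 5 65 11 8 12) (.pot 0))) (.lf (.low 0)))) 
(.lf (.thr (.lf 0 122 9 112) (.lm 9 69 6 72 17 11 18) (.lf 6 124 0 131))))) (.a 788 (.y 1198 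
(.z 1068 (.lf (.thr (.lf 0 131 10 121) (.lm 10 58 7 60 17 12 12) (.lf 7 124 0 131))) (.t 16 
(.lf (.thr (.lf 1 130 7 124) (.lm 7 52 5 54 11 8 12) (.lf 5 125 1 130))) (.lf (.low 0)))) 
(.lf (.thr (.lf 0 131 10 121) (.lm 10 57 6 61 17 11 18) (.lf 6 124 0 131)))) (.y 1198 (.z 1068 
(.t 16 (.lf (.thr (.lf 1 129 7 124) (.lm 7 58 5 60 11 8 12) (.pot 0))) (.lf (.low 0))) (.t 16 
(.lf (.thr (.lf 1 129 7 124) (.lm 7 52 5 54 11 8 12) (.pot 0))) (.lf (.low 0)))) 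
(.lf (.thr (.lf 0 131 10 121) (.lm 10 57 6 61 17 11 18) (.lf 6 124 0 131)))))) (.z 1057 
(.a 813 (.y 1198 (.lf (.thr (.lf 0 116 9 106) (.lm 9 63 7 66 17 12 17) (.pot 0))) 
(.lf (.thr (.lf 0 116 9 106) (.lm 9 69 6 72 17 11 18) (.lf 6 124 0 131)))) 
(.lf (.thr (.lf 0 109 9 100) (.lm 9 63 7 66 17 12 24) (.pot 0)))) (.a 813 (.y 1198 (.z 1068 
(.lf (.thr (.lf 0 127 10 117) (.lm 10 58 7 60 17 12 12) (.pot 0))) (.t 16 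
(.lf (.thr (.lf 1 129 7 124) (.lm 7 52 5 54 11 8 12) (.pot 0))) (.lf (.low 0)))) (.z 1068 
(.t 16 (.lf (.thr (.lf 1 125 7 119) (.lm 7 64 5 66 11 8 12) (.pot 0))) (.lf (.low 0))) (.t 16 
(.lf (.thr (.lf 1 129 7 124) (.lm 7 58 5 60 11 8 13) (.pot 0))) (.lf (.low 0))))) (.y 1198 
(.lf (.thr (.lf 0 120 10 111) (.lm 10 52 7 54 17 12 18) (.pot 0))) 
(.lf (.thr (.lf 0 120 10 111) (.lm 10 57 6 61 17 11 18) (.pot 1))))))) (.a 801 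
(.lf (.thr (.lf 0 122 10 112) (.lm 10 64 5 67 17 9 36) (.lf 5 125 0 131))) (.z 1057 
(.lf (.thr (.lf 0 109 9 100) (.lm 9 75 5 79 17 9 24) (.lf 5 125 0 131))) (.y 1224 (.a 813 
(.lf (.thr (.lf 0 127 10 117) (.lm 10 64 6 67 17 9 18) (.lf 6 125 0 131))) (.z 1068 
(.lf (.thr (.lf 0 120 10 111) (.lm 10 70 6 73 17 9 12) (.lf 6 125 0 131))) (.t 16 
(.lf (.thr (.lf 1 123 7 119) (.lm 7 65 5 66 11 7 13) (.pot 0))) 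
(.lf (.thr (.lf 0 127 13 115) (.lm 13 63 7 68 17 9 13) (.lf 7 124 0 131)))))) 
(.lf (.thr (.lf 0 120 10 111) (.lm 10 70 5 74 17 8 18) (.lf 5 126 0 131)))))))) (.y 1186 
(.a 851 (.lf (.thr (.lf 0 96 10 88) (.lm 10 27 8 29 17 16 48) (.pot 1))) (.lf .inf)) (.a 851 
(.y 1211 (.lf (.thr (.lf 0 96 10 88) (.lm 10 52 7 54 17 12 35) (.pot 0))) (.z 1057 (.y 1224 
(.lf (.thr (.lm 0 96 9 88 5 17 24) (.lm 9 75 6 79 17 9 18) (.pot 0))) (.a 838 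
(.lf (.thr (.lm 0 103 9 94 5 17 17) (.lm 9 82 5 85 17 8 18) (.lf 5 126 0 130))) 
(.lf (.thr (.lm 0 96 9 88 5 17 18) (.lm 9 82 5 85 17 8 18) (.pot 0))))) (.y 1224 
(.lf (.thr (.lf 0 107 10 99) (.lm 10 64 6 67 17 9 18) (.pot 0))) (.a 838 
(.lf (.thr (.lf 0 114 10 105) (.lm 10 70 5 74 17 8 18) (.lf 5 126 0 130))) 
(.lf (.thr (.lf 0 107 10 99) (.lm 10 70 5 74 17 8 18) (.pot 0))))))) (.y 1211 
(.lf (.thr (.lm 1 82 10 76 5 17 36) (.lm 10 52 7 54 17 12 35) (.pot 0))) 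
(.lf (.thr (.lm 1 82 10 76 5 17 36) (.lm 10 64 5 67 17 9 36) (.pot 0))))))))

theorem h22 : chk (leafT PP TD0 0 2) c22 0 32 776 877 1035 1080 1035 1237 = true := by
  decide +kernel

def c23 : Tree :=
  (.y 1338 (.a 776 (.a 725 (.lf .inf) 
(.lf (.thr (.lf 0 131 10 121) (.lf 10 75 2 82) (.lf 2 53 0 54)))) (.a 826 (.y 1287 
(.lf (.thr (.lf 0 109 10 100) (.lf 10 76 3 81) (.lf 3 103 0 106))) 
(.lf (.thr (.lf 0 109 10 100) (.lf 10 100 1 107) (.lf 1 79 0 79)))) (.y 1287 (.a 851 (.y 1262 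
(.lf (.thr (.lf 0 96 10 88) (.lm 10 76 4 81 17 7 35) (.lf 4 127 0 130))) 
(.lf (.thr (.lf 0 96 10 88) (.lf 10 88 3 94) (.lf 3 128 0 130)))) (.y 1262 (.z 1057 (.a 864 
(.y 1249 (.lf (.thr (.lm 1 89 9 82 5 17 18) (.lm 9 88 4 92 17 6 17) (.pot 0))) 
(.lf (.thr (.lm 1 89 9 82 5 17 18) (.lm 9 93 4 99 17 5 18) (.lf 4 127 1 129)))) 
(.lf (.thr (.lm 2 82 9 76 5 17 18) (.lm 9 88 4 92 17 7 24) (.pot 0)))) (.a 864 (.y 1249 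
(.lf (.thr (.lm 1 100 10 93 5 17 18) (.lm 10 76 4 81 17 6 18) (.pot 0))) 
(.lf (.thr (.lm 1 100 10 93 5 17 18) (.lm 10 82 4 87 17 5 18) (.lf 4 127 1 129)))) 
(.lf (.thr (.lm 2 93 10 87 5 17 18) (.lm 10 76 4 81 17 7 24) (.pot 0))))) (.z 1057 
(.lf (.thr (.lm 1 82 9 76 5 17 24) (.lf 9 99 3 106) (.lf 3 128 1 129))) 
(.lf (.thr (.lm 1 94 10 86 5 17 25) (.lm 10 88 3 94 17 5 24) (.lf 3 128 1 129)))))) 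
(.lf (.thr (.lf 1 83 10 75) (.lf 10 100 1 107) (.lf 1 104 1 104)))))) (.a 776 (.lf .inf) 
(.y 1389 (.a 826 (.lf .inf) (.lf (.thr (.lf 1 83 10 75) (.lf 10 121 0 131) (.lf 0 79 1 78)))) 
(.lf .inf))))

theorem h23 : chk (leafT PP TD0 0 2) c23 0 32 675 877 1035 1080 1237 1440 = true := by
  decide +kernel

def c24 : Tree :=
  (.a 978 (.y 1136 (.lf .inf) (.a 927 (.y 1186 (.lf .inf) 
(.lf (.thr (.lm 3 57 10 51 7 17 48) (.lm 10 51 6 55 17 12 48) (.pot 0)))) (.lf .inf))) 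
(.lf .inf))

theorem h24 : chk (leafT PP TD0 0 2) c24 0 32 877 1080 1035 1080 1035 1237 = true := by
  decide +kernel

def c25 : Tree :=
  (.y 1338 (.a 927 (.y 1287 (.a 902 (.y 1262 
(.lf (.thr (.lm 3 69 10 64 5 17 35) (.lm 10 76 4 81 17 7 35) (.pot 0))) (.z 1057 (.a 889 
(.y 1274 (.lf (.thr (.lm 2 76 9 70 5 17 17) (.lm 9 100 3 105 17 5 17) (.pot 0))) 
(.lf (.thr (.lm 2 76 9 70 5 17 17) (.lf 9 105 2 112) (.lf 2 128 2 128)))) 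
(.lf (.thr (.lm 3 69 9 64 5 17 18) (.lf 9 99 3 106) (.pot 0)))) (.a 889 (.y 1274 
(.lf (.thr (.lm 2 87 10 81 5 17 18) (.lm 10 88 3 94 17 5 18) (.pot 0))) 
(.lf (.thr (.lm 2 87 10 81 5 17 18) (.lm 10 94 2 100 17 5 18) (.lf 2 128 2 128)))) 
(.lf (.thr (.lm 3 80 10 75 5 17 18) (.lm 10 88 3 94 17 5 24) (.pot 0)))))) 
(.lf (.thr (.lm 4 57 10 51 7 17 35) (.lf 10 76 3 81) (.pot 1)))) (.y 1312 (.a 902 (.z 1057 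
(.a 889 (.lf (.thr (.lm 2 76 9 70 5 17 17) (.lf 9 111 1 119) (.lf 1 129 2 128))) 
(.lf (.thr (.lm 3 69 9 64 5 17 18) (.lf 9 111 1 119) (.lf 1 129 3 127)))) 
(.lf (.thr (.lm 3 80 10 75 5 17 24) (.lf 10 100 1 107) (.lf 1 129 3 128)))) (.z 1057 (.a 914 
(.y 1299 (.lf (.thr (.lm 4 63 9 58 6 17 17) (.lf 9 111 2 119) (.pot 0))) (.z 1046 (.t 16 
(.lf (.thr (.lm 4 62 6 59 5 11 12) (.lf 6 124 2 128) (.pot 0))) 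
(.lf (.thr (.lm 4 64 12 57 5 16 12) (.lf 12 118 0 131) (.lf 0 131 4 127)))) 
(.lf (.thr (.lm 4 68 10 64 6 17 12) (.lf 10 117 1 125) (.lf 1 129 4 127))))) 
(.lf (.thr (.lm 4 56 9 52 7 17 18) (.lf 9 111 1 119) (.pot 1)))) (.a 914 (.y 1299 
(.lf (.thr (.lm 4 74 10 69 6 17 18) (.lf 10 100 2 107) (.pot 0))) 
(.lf (.thr (.lm 4 74 10 69 6 17 18) (.lf 10 106 1 113) (.lf 1 129 4 127)))) 
(.lf (.thr (.lm 4 67 10 63 7 17 18) (.lf 10 100 1 107) (.pot 0)))))) (.a 902 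
(.lf (.thr (.lm 3 69 10 64 5 17 35) (.lf 10 112 0 120) (.lf 0 130 3 128))) (.z 1057 (.y 1325 
(.a 914 (.lf (.thr (.lm 4 63 9 58 6 17 17) (.lf 9 121 0 130) (.lf 0 130 4 127))) (.z 1046 
(.t 16 (.lf (.thr (.lm 4 55 6 53 6 11 12) (.lf 6 124 2 128) (.pot 0))) (.a 920 
(.lf (.thr (.lm 4 61 12 54 6 16 9) (.lf 12 118 0 131) (.lf 0 131 4 126))) (.y 1318 
(.lf (.thr (.lm 5 57 12 51 7 16 9) (.lf 12 118 0 131) (.pot 0))) 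
(.lf (.thr (.lm 5 57 12 51 7 16 9) (.lf 12 118 0 131) (.lf 0 131 5 125)))))) (.t 16 
(.lf (.thr (.lm 4 61 7 58 6 11 12) (.lf 7 124 2 128) (.pot 0))) 
(.lf (.thr (.lm 5 63 13 56 7 17 12) (.lf 13 118 0 131) (.lf 0 131 5 126)))))) 
(.lf (.thr (.lm 4 56 9 52 7 17 24) (.lf 9 121 0 131) (.lf 0 131 4 126)))) (.y 1325 (.a 914 
(.lf (.thr (.lm 4 74 10 69 6 17 18) (.lf 10 112 0 120) (.lf 0 130 4 127))) (.z 1068 (.t 16 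
(.lf (.thr (.lm 4 66 7 64 6 11 12) (.lf 7 120 2 124) (.pot 0))) 
(.lf (.thr (.lm 5 69 13 61 7 17 12) (.lf 13 116 0 128) (.lf 0 131 5 126)))) 
(.lf (.thr (.lm 4 73 10 68 7 17 13) (.lf 10 112 0 120) (.lf 0 130 4 126))))) 
(.lf (.thr (.lm 4 67 10 63 7 17 24) (.lf 10 118 0 127) (.lf 0 131 4 126)))))))) (.y 1287 
(.a 952 (.lf (.thr (.lm 5 44 10 39 10 17 35) (.lf 10 76 3 81) (.pot 0))) (.lf .inf)) (.a 952 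
(.y 1312 (.z 1057 (.lf (.thr (.lm 5 44 9 39 10 17 24) (.lf 9 111 1 119) (.pot 1))) 
(.lf (.thr (.lm 5 54 10 51 10 17 24) (.lf 10 100 1 107) (.pot 0)))) (.z 1057 (.y 1325 (.a 939 
(.z 1046 (.t 16 (.lf (.thr (.lm 4 49 6 47 6 11 12) (.lf 6 124 2 128) (.pot 0))) 
(.lf (.thr (.lm 6 51 12 45 8 16 12) (.lf 12 118 0 131) (.pot 1)))) 
(.lf (.thr (.lm 5 56 10 51 8 17 12) (.lf 10 121 0 130) (.pot 1)))) 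
(.lf (.thr (.lm 6 43 9 40 10 17 18) (.lf 9 121 0 130) (.pot 1)))) (.a 939 (.z 1046 (.t 16 
(.lf (.thr (.lm 4 49 6 47 6 11 12) (.lf 6 124 2 129) (.pot 1))) (.y 1331 (.a 933 
(.lf (.thr (.lm 6 54 12 48 7 16 9) (.lf 12 118 0 131) (.lf 0 131 6 125))) (.z 1040 (.t 24 
(.lf (.thr (.lm 6 51 11 45 7 13 6) (.lf 11 120 0 131) (.pot 0))) (.lf (.low 2))) 
(.lf (.thr (.lm 6 54 12 47 8 16 6) (.lf 12 118 0 131) (.pot 1))))) (.a 933 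
(.lf (.thr (.lm 6 54 12 48 7 16 9) (.lf 12 118 0 131) (.lf 0 131 6 125))) (.z 1040 (.t 24 
(.lf (.thr (.lm 6 51 11 45 7 13 6) (.lf 11 120 0 131) (.lf 0 131 6 125))) (.lf (.low 2))) 
(.t 24 (.lf (.thr (.lm 6 53 11 48 7 13 6) (.lf 11 120 0 131) (.pot 1))) (.lf (.low 2))))))) 
(.t 16 (.lf (.thr (.lm 4 54 7 53 6 11 12) (.lf 7 124 2 129) (.pot 0))) (.y 1331 (.a 933 
(.lf (.thr (.lm 6 60 13 53 7 17 9) (.lf 13 118 0 131) (.lf 0 131 6 125))) 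
(.lf (.thr (.lm 6 57 13 50 8 17 9) (.lf 13 118 0 131) (.pot 0)))) 
(.lf (.thr (.lm 6 57 13 50 8 17 12) (.lf 13 118 0 131) (.lf 0 131 6 125)))))) (.z 1046 (.t 16 
(.lf (.thr (.lm 5 42 6 41 7 11 12) (.lf 6 124 2 129) (.pot 0))) (.a 945 (.y 1331 
(.lf (.thr (.lm 7 48 12 42 9 16 9) (.lf 12 118 0 131) (.pot 1))) (.z 1040 (.t 24 
(.lf (.thr (.lm 6 47 11 43 8 13 6) (.lf 11 120 0 131) (.pot 0))) (.lf (.low 2))) (.t 24 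
(.lf (.thr (.lm 6 50 11 45 8 13 6) (.lf 11 120 0 131) (.pot 0))) (.lf (.low 2))))) (.y 1331 
(.lf (.thr (.lm 7 44 12 39 9 16 9) (.lf 12 118 0 131) (.pot 0))) (.z 1040 (.t 24 
(.lf (.thr (.lm 6 44 11 39 8 13 6) (.lf 11 120 0 131) (.pot 0))) (.lf (.low 2))) (.t 24 
(.lf (.thr (.lm 6 46 11 42 8 13 7) (.lf 11 120 0 131) (.pot 0))) (.lf (.low 2))))))) (.t 16 
(.lf (.thr (.lm 5 48 7 46 7 11 12) (.lf 7 124 2 129) (.pot 0))) (.a 945 (.y 1331 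
(.lf (.thr (.lm 7 53 13 48 9 17 9) (.lf 13 118 0 131) (.pot 0))) (.z 1051 (.t 24 
(.lf (.thr (.lm 6 53 11 48 8 14 6) (.lf 11 120 0 131) (.pot 0))) (.lf (.low 2))) 
(.lf (.thr (.lm 7 56 13 50 9 17 6) (.lf 13 118 0 131) (.pot 1))))) 
(.lf (.thr (.lm 7 50 13 44 9 17 9) (.lf 13 118 0 131) (.pot 1)))))))) (.y 1325 (.a 939 
(.lf (.thr (.lm 5 61 10 57 8 17 18) (.lf 10 112 0 120) (.pot 1))) 
(.lf (.thr (.lm 6 54 10 51 10 17 18) (.lf 10 112 0 120) (.pot 0)))) (.a 939 (.z 1068 (.t 16 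
(.lf (.thr (.lm 4 60 7 58 6 11 12) (.lf 7 124 2 129) (.pot 0))) 
(.lf (.thr (.lm 6 62 13 56 8 17 12) (.lf 13 118 0 131) (.lf 0 131 6 125)))) (.t 16 
(.lf (.thr (.lm 4 65 7 64 6 11 12) (.lf 7 120 2 125) (.pot 0))) 
(.lf (.thr (.lm 6 68 13 61 8 17 12) (.lf 13 116 0 129) (.lf 0 131 6 125))))) (.z 1068 (.t 16 
(.lf (.thr (.lm 5 53 7 52 7 11 12) (.lf 7 124 2 129) (.pot 0))) 
(.lf (.thr (.lm 7 55 13 50 9 17 12) (.lf 13 118 0 131) (.pot 1)))) 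
(.lf (.thr (.lm 6 60 10 56 10 17 13) (.lf 10 118 0 127) (.pot 1)))))))) (.y 1312 
(.lf (.thr (.lm 7 31 10 26 12 17 36) (.lf 10 100 1 107) (.pot 0))) (.z 1057 (.a 965 (.y 1325 
(.lf (.thr (.lm 6 37 9 33 11 17 18) (.lf 9 121 0 130) (.pot 0))) (.z 1046 (.t 16 
(.lf (.thr (.lm 5 36 6 34 8 11 12) (.lf 6 124 2 129) (.pot 0))) (.a 958 
(.lf (.thr (.lm 8 41 12 36 10 16 9) (.lf 12 118 0 131) (.pot 1))) 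
(.lf (.thr (.lm 8 38 12 32 11 16 9) (.lf 12 118 0 131) (.pot 1))))) 
(.lf (.thr (.lm 6 42 10 39 11 17 12) (.lf 10 121 0 131) (.pot 1))))) (.y 1325 
(.lf (.thr (.lm 7 30 9 27 12 17 18) (.lf 9 121 0 130) (.pot 0))) (.z 1046 (.t 16 
(.lf (.thr (.lm 5 29 6 28 8 11 12) (.lf 6 124 2 129) (.pot 0))) 
(.lf (.thr (.lm 9 31 12 26 12 16 12) (.lf 12 118 0 131) (.pot 1)))) 
(.lf (.thr (.lm 7 36 10 32 12 17 12) (.lf 10 121 0 131) (.pot 0)))))) (.a 965 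
(.lf (.thr (.lm 6 48 10 44 11 17 18) (.lf 10 111 0 121) (.pot 1))) 
(.lf (.thr (.lm 7 41 10 38 12 17 18) (.lf 10 111 0 121) (.pot 0))))))))) (.y 1389 (.a 927 
(.lf (.thr (.lm 3 57 10 51 7 17 48) (.lf 10 121 0 131) (.lf 0 106 3 102))) (.a 952 (.y 1363 
(.z 1057 (.a 939 (.y 1350 (.z 1046 (.t 16 
(.lf (.thr (.lm 4 49 6 47 6 11 12) (.lf 6 124 1 129) (.lf 1 129 4 126))) 
(.lf (.thr (.lm 6 51 12 45 8 16 12) (.lf 12 118 0 131) (.lf 0 131 6 125)))) 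
(.lf (.thr (.lm 5 56 10 51 8 17 12) (.lf 10 121 0 131) (.lf 0 131 5 125)))) 
(.lf (.thr (.lm 5 50 9 46 8 17 17) (.lf 9 121 0 131) (.lf 0 131 5 125)))) (.y 1350 (.z 1046 
(.t 16 (.a 945 (.y 1344 (.lf (.thr (.lm 5 46 6 44 7 11 9) (.lf 6 124 1 129) (.pot 0))) 
(.lf (.thr (.lm 5 46 6 44 7 11 9) (.lf 6 124 1 129) (.lf 1 129 5 126)))) (.y 1344 
(.lf (.thr (.lm 5 42 6 41 7 11 9) (.lf 6 124 1 129) (.pot 0))) (.z 1040 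
(.lf (.thr (.lm 5 42 6 41 7 10 6) (.pot 0) (.pot 1))) 
(.lf (.thr (.lm 5 45 6 43 7 11 7) (.lf 6 124 1 129) (.pot 1)))))) (.a 945 (.y 1344 (.z 1040 
(.t 24 (.lf (.low 2)) (.lf (.low 2))) (.t 24 (.lf (.low 2)) (.lf (.low 2)))) (.lf (.low 2))) 
(.y 1344 (.z 1040 (.t 24 (.lf (.low 2)) (.lf (.low 2))) (.t 24 (.lf (.low 2)) (.lf (.low 2)))) 
(.lf (.low 2))))) (.t 16 (.a 945 (.lf (.thr (.lm 5 51 7 50 7 11 9) (.lf 7 124 1 129) (.pot 1))) 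
(.lf (.thr (.lm 5 48 7 46 7 11 9) (.lf 7 124 1 129) (.pot 0)))) (.a 945 (.y 1344 
(.lf (.thr (.lm 7 53 13 48 9 17 9) (.lf 13 118 0 131) (.lf 0 131 7 124))) (.lf (.low 2))) 
(.y 1344 (.z 1051 (.t 24 (.lf (.low 2)) (.lf (.low 2))) (.t 24 (.lf (.low 2)) (.lf (.low 2)))) 
(.lf (.low 2)))))) (.z 1046 (.t 16 (.a 945 
(.lf (.thr (.lm 5 46 6 44 7 11 9) (.pot 0) (.lf 1 129 5 126))) (.y 1356 (.z 1040 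
(.lf (.thr (.lm 5 42 6 41 7 10 6) (.pot 1) (.pot 1))) (.t 8 
(.lf (.thr (.lm 4 44 5 44 6 8 7) (.pot 0) (.pot 0))) 
(.lf (.thr (.lm 5 45 8 43 7 10 7) (.lf 8 123 0 130) (.lf 0 130 5 125))))) 
(.lf (.thr (.lm 5 42 6 41 7 11 9) (.pot 0) (.lf 1 129 5 126))))) (.lf (.low 2))) (.t 16 
(.lf (.thr (.lm 5 48 7 46 7 11 12) (.lf 7 124 1 129) (.lf 1 129 5 126))) (.lf (.low 2)))))) 
(.a 939 (.lf (.thr (.lm 5 61 10 57 8 17 18) (.lf 10 121 0 131) (.lf 0 131 5 125))) (.y 1350 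
(.z 1068 (.t 16 (.lf (.thr (.lm 5 53 7 52 7 11 12) (.lf 7 124 1 129) (.pot 0))) (.a 945 
(.lf (.thr (.lm 7 59 13 53 9 17 9) (.lf 13 118 0 131) (.lf 0 131 7 124))) (.y 1344 (.z 1062 
(.lf (.thr (.lm 7 55 13 50 9 17 6) (.lf 13 118 0 131) (.pot 1))) 
(.lf (.thr (.lm 7 58 13 52 9 17 7) (.lf 13 118 0 131) (.pot 1)))) (.lf (.low 2))))) (.t 16 
(.lf (.thr (.lm 5 59 7 57 7 11 13) (.lf 7 124 1 129) (.pot 0))) 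
(.lf (.thr (.lm 7 61 13 55 9 17 13) (.lf 13 118 0 131) (.lf 0 131 7 124))))) (.z 1068 (.t 16 
(.lf (.thr (.lm 5 53 7 52 7 11 12) (.lf 7 124 1 129) (.lf 1 129 5 126))) (.lf (.low 2))) 
(.lf (.thr (.lm 6 60 10 56 10 17 13) (.lf 10 121 0 131) (.lf 0 131 6 125))))))) (.z 1057 
(.y 1376 (.a 939 (.lf .inf) (.z 1046 (.lf .inf) 
(.lf (.thr (.lm 6 49 10 45 10 17 12) (.lf 10 121 0 131) (.lf 0 131 6 125))))) (.lf .inf)) 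
(.lf (.thr (.lm 5 54 10 51 10 17 24) (.lf 10 121 0 131) (.lf 0 131 5 125))))) (.y 1363 
(.z 1057 (.a 965 (.y 1350 (.z 1046 (.t 16 (.a 958 (.y 1344 
(.lf (.thr (.lm 5 39 6 38 7 11 9) (.lf 6 124 1 129) (.pot 0))) (.z 1040 
(.lf (.thr (.lm 5 39 6 38 7 10 6) (.pot 0) (.pot 0))) 
(.lf (.thr (.lm 5 42 6 40 7 11 6) (.lf 6 124 1 129) (.pot 0))))) 
(.lf (.thr (.lm 5 36 6 34 8 11 9) (.pot 0) (.pot 1)))) (.a 958 (.y 1344 (.z 1040 (.t 24 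
(.lf (.low 2)) (.lf (.low 2))) (.t 24 (.lf (.low 2)) (.lf (.low 2)))) (.lf (.low 2))) (.y 1344 
(.z 1040 (.t 24 (.lf (.low 2)) (.lf (.low 2))) (.t 24 (.lf (.low 2)) (.lf (.low 2)))) 
(.lf (.low 2))))) (.t 16 (.lf (.thr (.lm 5 41 7 40 8 11 12) (.lf 7 124 1 129) (.pot 0))) 
(.a 958 (.y 1344 (.z 1051 (.t 24 (.lf (.low 2)) (.lf (.low 2))) 
(.lf (.thr (.lm 8 49 13 44 10 17 6) (.lf 13 118 0 131) (.pot 1)))) (.lf (.low 2))) (.y 1344 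
(.lf (.thr (.lm 8 43 13 38 11 17 9) (.lf 13 118 0 131) (.pot 1))) (.lf (.low 2)))))) (.z 1046 
(.t 16 (.a 958 (.y 1356 (.z 1040 (.lf (.thr (.lm 5 39 6 38 7 10 6) (.pot 0) (.pot 0))) 
(.lf (.thr (.lm 5 42 6 40 7 11 6) (.pot 1) (.pot 1)))) (.z 1040 
(.lf (.thr (.lm 5 39 6 38 7 10 6) (.pot 0) (.pot 0))) 
(.lf (.thr (.lm 5 42 6 40 7 11 6) (.pot 1) (.pot 1))))) 
(.lf (.thr (.lm 5 36 6 34 8 11 9) (.pot 0) (.pot 1)))) (.lf (.low 2))) (.t 16 (.a 958 (.y 1356 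
(.lf (.thr (.lm 5 45 7 43 7 11 9) (.lf 7 124 1 129) (.pot 1))) (.z 1051 (.t 8 
(.lf (.thr (.lm 4 44 5 44 6 8 6) (.pot 0) (.pot 0))) (.y 1359 (.a 955 
(.lf (.thr (.lm 6 47 8 44 7 11 4) (.lf 8 123 0 130) (.lf 0 130 6 125))) 
(.lf (.thr (.lm 6 45 8 43 7 11 4) (.lf 8 123 0 130) (.pot 1)))) 
(.lf (.thr (.lm 6 45 8 43 7 11 6) (.lf 8 123 0 130) (.lf 0 130 6 125))))) 
(.lf (.thr (.lm 5 47 7 46 7 11 6) (.lf 7 124 1 129) (.lf 1 129 5 126))))) (.y 1356 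
(.lf (.thr (.lm 5 41 7 40 8 11 9) (.lf 7 124 1 129) (.pot 0))) (.z 1051 
(.lf (.thr (.lm 5 41 7 40 8 11 6) (.pot 1) (.pot 1))) (.t 8 
(.lf (.thr (.lm 4 43 5 43 6 8 7) (.pot 0) (.pot 0))) (.a 961 (.y 1359 
(.lf (.thr (.lm 6 46 8 44 8 11 5) (.lf 8 122 0 130) (.pot 0))) 
(.lf (.thr (.lm 6 46 8 44 8 11 5) (.lf 8 122 0 130) (.lf 0 130 6 125)))) 
(.lf (.thr (.lm 6 44 8 42 8 11 5) (.lf 8 122 0 130) (.pot 1)))))))) (.lf (.low 2))))) (.y 1350 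
(.z 1046 (.t 16 (.lf (.thr (.lm 5 29 6 28 8 11 12) (.pot 0) (.pot 1))) (.a 971 (.y 1344 
(.z 1040 (.t 24 (.lf (.low 2)) (.lf (.low 2))) 
(.lf (.thr (.lm 8 37 12 32 11 16 6) (.lf 12 118 0 131) (.pot 1)))) (.lf (.low 2))) (.y 1344 
(.z 1040 (.lf (.thr (.lm 9 31 12 26 12 16 6) (.lf 12 118 0 131) (.pot 1))) 
(.lf (.thr (.lm 9 33 12 29 12 16 7) (.lf 12 118 0 131) (.pot 1)))) (.lf (.low 2))))) (.t 16 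
(.lf (.thr (.lm 5 35 7 33 8 11 12) (.lf 7 124 1 129) (.pot 0))) (.a 971 (.y 1344 
(.lf (.thr (.lm 8 40 13 35 11 17 9) (.lf 13 118 0 131) (.pot 0))) (.lf (.low 2))) 
(.lf (.thr (.lm 9 36 13 32 12 17 9) (.lf 13 118 0 131) (.pot 1)))))) (.z 1046 (.t 16 
(.lf (.thr (.lm 5 29 6 28 8 11 12) (.pot 0) (.pot 1))) (.lf (.low 2))) (.t 16 (.a 971 (.y 1356 
(.lf (.thr (.lm 5 38 7 37 8 11 9) (.lf 7 124 1 129) (.pot 0))) (.z 1051 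
(.lf (.thr (.lm 5 38 7 37 8 11 6) (.pot 0) (.pot 0))) 
(.lf (.thr (.lm 5 41 7 39 8 11 6) (.lf 7 124 1 129) (.pot 1))))) 
(.lf (.thr (.lm 5 35 7 33 8 11 9) (.pot 0) (.pot 1)))) (.lf (.low 2)))))) (.a 965 (.y 1350 
(.z 1068 (.t 16 (.lf (.thr (.lm 5 47 7 45 8 11 12) (.lf 7 124 1 129) (.pot 0))) (.a 958 
(.y 1344 (.lf (.thr (.lm 8 52 13 47 10 17 9) (.lf 13 118 0 131) (.pot 0))) (.lf (.low 2))) 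
(.lf (.thr (.lm 8 49 13 43 11 17 9) (.lf 13 118 0 131) (.pot 1))))) (.t 16 
(.lf (.thr (.lm 5 52 7 51 8 11 13) (.lf 7 124 1 129) (.pot 0))) 
(.lf (.thr (.lm 8 54 13 49 11 17 13) (.lf 13 118 0 131) (.pot 1))))) (.z 1068 (.t 16 (.a 958 
(.lf (.thr (.lm 5 50 7 49 7 11 9) (.lf 7 124 1 129) (.lf 1 129 5 126))) 
(.lf (.thr (.lm 5 47 7 45 8 11 9) (.lf 7 124 1 129) (.pot 0)))) (.lf (.low 2))) (.t 16 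
(.lf (.thr (.lm 5 52 7 51 8 11 13) (.lf 7 124 1 129) (.pot 0))) (.lf (.low 2))))) (.y 1350 
(.z 1068 (.t 16 (.lf (.thr (.lm 5 40 7 39 8 11 12) (.lf 7 124 1 129) (.pot 0))) 
(.lf (.thr (.lm 9 42 13 37 12 17 12) (.lf 13 118 0 131) (.pot 1)))) 
(.lf (.thr (.lm 7 46 10 44 12 17 13) (.lf 10 121 0 131) (.pot 0)))) (.z 1068 (.t 16 
(.lf (.thr (.lm 5 40 7 39 8 11 12) (.lf 7 124 1 129) (.pot 0))) (.lf (.low 2))) (.t 16 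
(.lf (.thr (.lm 5 46 7 44 8 11 13) (.lf 7 124 1 129) (.pot 0))) (.lf (.low 2))))))) (.z 1057 
(.a 965 (.y 1376 (.z 1046 (.t 16 (.a 958 (.lf .inf) 
(.lf (.thr (.lm 5 36 6 34 8 11 9) (.pot 1) (.pot 0)))) (.lf (.low 2))) (.t 16 (.a 958 (.y 1369 
(.z 1051 (.lf (.thr (.lm 5 45 7 43 7 11 6) (.pot 0) (.lf 1 129 5 126))) 
(.lf (.thr (.lm 5 47 7 46 7 11 6) (.lf 7 124 1 129) (.lf 1 129 5 126)))) (.lf .inf)) (.y 1369 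
(.z 1051 (.lf (.thr (.lm 5 41 7 40 8 11 6) (.pot 1) (.pot 1))) (.t 8 
(.lf (.thr (.lm 4 43 5 43 6 8 7) (.pot 0) (.pot 0))) (.a 961 
(.lf (.thr (.lm 6 46 8 44 8 11 5) (.lf 8 122 0 131) (.lf 0 131 6 125))) (.z 1054 
(.lf (.thr (.lm 6 44 8 42 8 11 4) (.pot 1) (.pot 1))) (.y 1366 (.t 12 
(.lf (.thr (.lm 5 45 7 44 7 9 4) (.pot 0) (.pot 0))) 
(.lf (.thr (.lm 6 46 9 43 8 11 4) (.lf 9 122 0 131) (.pot 1)))) 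
(.lf (.thr (.lm 6 46 8 43 8 11 4) (.lf 8 122 0 131) (.lf 0 131 6 125)))))))) 
(.lf (.thr (.lm 5 41 7 40 8 11 9) (.pot 0) (.lf 1 129 5 125))))) (.lf (.low 2)))) (.lf .inf)) 
(.y 1376 (.z 1046 (.t 16 (.lf (.thr (.lm 5 29 6 28 8 11 12) (.pot 1) (.pot 0))) (.lf (.low 2))) 
(.t 16 (.a 971 (.y 1369 (.z 1051 (.lf (.thr (.lm 5 38 7 37 8 11 6) (.pot 0) (.pot 0))) (.t 8 
(.lf (.thr (.lm 4 40 5 40 6 8 6) (.pot 0) (.pot 0))) 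
(.lf (.thr (.lm 6 41 8 39 8 11 6) (.pot 1) (.pot 1))))) (.z 1051 
(.lf (.thr (.lm 5 38 7 37 8 11 6) (.pot 0) (.pot 0))) (.t 8 
(.lf (.thr (.lm 4 40 5 40 6 8 6) (.pot 0) (.pot 0))) 
(.lf (.thr (.lm 6 41 8 39 8 11 6) (.pot 1) (.pot 1)))))) 
(.lf (.thr (.lm 5 35 7 33 8 11 9) (.pot 1) (.pot 1)))) (.lf (.low 2)))) (.z 1046 (.lf .inf) 
(.t 16 (.a 971 (.lf .inf) (.lf (.thr (.lm 5 35 7 33 8 11 9) (.pot 1) (.pot 0)))) (.lf (.low 2)))))) 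
(.a 965 (.y 1376 (.z 1068 (.t 16 (.a 958 
(.lf (.thr (.lm 5 50 7 49 7 11 9) (.lf 7 124 1 129) (.lf 1 129 5 126))) (.y 1369 (.z 1062 
(.t 8 (.lf (.thr (.lm 4 46 5 46 6 8 6) (.pot 0) (.pot 0))) 
(.lf (.thr (.lm 6 47 8 45 8 11 6) (.lf 8 122 0 131) (.lf 0 131 6 125)))) 
(.lf (.thr (.lm 5 49 7 48 8 11 7) (.lf 7 124 1 129) (.lf 1 129 5 125)))) 
(.lf (.thr (.lm 5 47 7 45 8 11 9) (.lf 7 124 1 129) (.lf 1 129 5 125))))) (.lf (.low 2))) 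
(.t 16 (.lf (.thr (.lm 5 52 7 51 8 11 13) (.lf 7 124 1 129) (.lf 1 129 5 125))) (.lf (.low 2)))) 
(.z 1068 (.t 16 (.lf (.thr (.lm 5 47 7 45 8 11 12) (.pot 0) (.lf 1 130 5 125))) (.lf (.low 2))) 
(.lf (.thr (.lm 6 53 10 50 11 17 13) (.lf 10 121 0 131) (.lf 0 131 6 124))))) (.y 1376 
(.z 1068 (.t 16 (.a 971 (.y 1369 (.z 1062 (.t 8 
(.lf (.thr (.lm 4 43 5 43 6 8 6) (.pot 0) (.pot 0))) (.a 968 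
(.lf (.thr (.lm 6 46 8 43 8 11 4) (.lf 8 122 0 131) (.pot 1))) 
(.lf (.thr (.lm 6 44 8 42 8 11 4) (.lf 8 122 0 131) (.pot 1))))) 
(.lf (.thr (.lm 5 46 7 45 8 11 6) (.lf 7 124 1 129) (.pot 0)))) (.z 1062 (.t 8 
(.lf (.thr (.lm 4 43 5 43 6 8 6) (.pot 0) (.pot 0))) (.y 1372 (.a 968 (.z 1059 (.t 12 
(.lf (.thr (.lm 6 45 7 44 7 9 3) (.pot 0) (.pot 0))) 
(.lf (.thr (.lm 6 46 9 43 8 11 3) (.lf 9 122 0 131) (.lf 0 131 6 124)))) 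
(.lf (.thr (.lm 6 47 8 44 8 11 3) (.lf 8 122 0 131) (.lf 0 131 6 125)))) (.z 1059 
(.lf (.thr (.lm 6 44 8 42 8 11 3) (.pot 0) (.pot 1))) (.t 12 
(.lf (.thr (.lm 6 45 7 43 7 9 3) (.pot 0) (.pot 0))) (.a 969 
(.lf (.thr (.lm 6 46 9 44 8 11 2) (.lf 9 122 0 131) (.lf 0 131 6 124))) 
(.lf (.thr (.lm 7 45 9 43 8 11 3) (.lf 9 122 0 131) (.pot 1))))))) (.a 968 
(.lf (.thr (.lm 6 46 8 43 8 11 4) (.pot 0) (.lf 0 131 6 125))) (.z 1059 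
(.lf (.thr (.lm 6 44 8 42 8 11 3) (.pot 1) (.pot 1))) (.t 12 
(.lf (.thr (.lm 6 45 7 43 7 9 3) (.pot 0) (.pot 0))) (.y 1374 (.a 969 
(.lf (.thr (.lm 6 46 9 44 8 11 2) (.pot 0) (.lf 0 131 6 124))) (.z 1060 
(.lf (.thr (.lm 7 45 9 43 8 11 2) (.pot 0) (.pot 1))) 
(.lf (.thr (.lm 7 46 9 43 8 11 2) (.pot 1) (.pot 1))))) 
(.lf (.thr (.lm 7 45 9 43 8 11 3) (.pot 0) (.lf 0 131 7 124))))))))) (.t 8 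
(.lf (.thr (.lm 4 46 5 45 6 8 6) (.pot 0) (.pot 0))) 
(.lf (.thr (.lm 6 47 8 44 8 11 6) (.lf 8 122 0 131) (.lf 0 131 6 124)))))) (.y 1369 
(.lf (.thr (.lm 5 40 7 39 8 11 9) (.lf 7 124 1 129) (.pot 1))) (.z 1062 (.t 8 
(.lf (.thr (.lm 4 40 5 39 6 8 6) (.pot 0) (.pot 0))) (.a 974 
(.lf (.thr (.lm 6 42 8 41 8 11 4) (.pot 1) (.pot 1))) 
(.lf (.thr (.lm 6 40 8 39 8 11 5) (.pot 0) (.pot 1))))) (.t 8 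
(.lf (.thr (.lm 4 42 5 42 6 8 7) (.pot 0) (.pot 0))) (.a 974 (.y 1372 
(.lf (.thr (.lm 6 45 8 43 8 11 5) (.lf 8 122 0 131) (.pot 0))) (.z 1065 (.t 12 
(.lf (.thr (.lm 6 45 7 43 7 9 3) (.pot 0) (.pot 0))) (.y 1374 
(.lf (.thr (.lm 7 45 9 43 8 11 3) (.lf 9 122 0 131) (.pot 1))) (.a 972 
(.lf (.thr (.lm 7 46 9 44 8 11 2) (.lf 9 122 0 131) (.lf 0 131 7 124))) (.z 1063 
(.lf (.thr (.lm 7 45 9 43 8 11 2) (.pot 1) (.pot 1))) (.t 14 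
(.lf (.thr (.lm 6 46 9 43 8 10 2) (.pot 0) (.pot 0))) (.lf (.low 2))))))) 
(.lf (.thr (.lm 6 46 8 45 8 11 3) (.lf 8 122 0 131) (.lf 0 131 6 124))))) (.y 1372 
(.lf (.thr (.lm 6 43 8 41 8 11 5) (.lf 8 122 0 131) (.pot 0))) (.z 1065 
(.lf (.thr (.lm 6 43 8 41 8 11 4) (.pot 1) (.pot 1))) 
(.lf (.thr (.lm 6 44 8 43 8 11 4) (.lf 8 122 0 131) (.pot 1)))))))))) (.lf (.low 2))) (.t 16 
(.a 971 (.lf (.thr (.lm 5 49 7 48 8 11 9) (.lf 7 124 1 129) (.lf 1 129 5 125))) (.y 1369 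
(.lf (.thr (.lm 5 46 7 44 8 11 10) (.lf 7 124 1 129) (.pot 0))) (.z 1074 (.t 8 
(.lf (.thr (.lm 4 45 5 45 6 8 7) (.pot 0) (.pot 0))) 
(.lf (.thr (.lm 6 46 8 44 8 11 7) (.lf 8 122 0 131) (.pot 1)))) 
(.lf (.thr (.lm 5 49 7 47 8 11 7) (.lf 7 124 1 129) (.pot 0)))))) (.lf (.low 2)))) (.z 1068 
(.t 16 (.a 971 (.y 1382 (.z 1062 (.lf (.thr (.lm 5 44 7 42 8 11 6) (.pot 0) (.lf 1 130 5 125))) 
(.t 8 (.lf (.thr (.lm 4 46 5 45 6 8 6) (.pot 0) (.pot 0))) 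
(.lf (.thr (.lm 6 47 8 44 8 11 6) (.pot 1) (.lf 0 131 6 124))))) (.lf .inf)) (.y 1382 (.z 1062 
(.t 8 (.lf (.thr (.lm 4 40 5 39 6 8 6) (.pot 0) (.pot 0))) (.a 974 
(.lf (.thr (.lm 6 42 8 41 8 11 4) (.pot 1) (.pot 1))) 
(.lf (.thr (.lm 6 40 8 39 8 11 5) (.pot 1) (.pot 0))))) (.t 8 
(.lf (.thr (.lm 4 42 5 42 6 8 7) (.pot 0) (.pot 0))) (.a 974 (.z 1065 (.y 1379 (.t 12 
(.lf (.thr (.lm 6 45 7 43 7 9 3) (.pot 0) (.pot 0))) 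
(.lf (.thr (.lm 7 45 9 43 8 11 3) (.pot 1) (.lf 0 131 7 124)))) 
(.lf (.thr (.lm 6 45 8 43 8 11 3) (.pot 0) (.lf 0 131 6 124)))) 
(.lf (.thr (.lm 6 46 8 45 8 11 3) (.lf 8 122 0 131) (.lf 0 131 6 124)))) (.z 1065 
(.lf (.thr (.lm 6 43 8 41 8 11 4) (.pot 1) (.pot 1))) (.y 1379 (.t 12 
(.lf (.thr (.lm 6 44 7 43 7 9 4) (.pot 0) (.pot 0))) (.a 976 (.z 1066 
(.lf (.thr (.lm 7 46 9 43 8 11 2) (.pot 1) (.pot 1))) 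
(.lf (.thr (.lm 7 46 9 44 8 11 2) (.lf 9 122 0 131) (.lf 0 131 7 124)))) (.z 1066 
(.lf (.thr (.lm 7 45 9 42 8 11 2) (.pot 0) (.pot 1))) (.y 1377 
(.lf (.thr (.lm 7 45 9 43 8 11 2) (.lf 9 122 0 131) (.pot 0))) (.lf (.low 2)))))) (.t 12 
(.lf (.thr (.lm 6 44 7 43 7 9 4) (.pot 0) (.pot 0))) (.lf (.low 2)))))))) (.z 1062 (.lf .inf) 
(.lf (.thr (.lm 5 43 7 41 8 11 7) (.pot 1) (.lf 1 130 5 125)))))) (.lf (.low 2))) (.t 16 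
(.a 971 (.lf (.thr (.lm 5 49 7 48 8 11 9) (.lf 7 124 1 130) (.lf 1 130 5 125))) (.y 1382 
(.z 1074 (.t 8 (.lf (.thr (.lm 4 45 5 45 6 8 7) (.pot 0) (.pot 0))) (.a 974 
(.lf (.thr (.lm 6 48 8 46 8 11 5) (.lf 8 122 0 131) (.lf 0 131 6 124))) (.z 1071 (.y 1379 
(.t 12 (.lf (.thr (.lm 6 46 7 44 7 9 4) (.pot 0) (.pot 0))) 
(.lf (.thr (.lm 7 46 9 44 8 11 4) (.lf 9 122 0 131) (.pot 1)))) (.t 12 
(.lf (.thr (.lm 6 46 7 44 7 9 4) (.pot 0) (.pot 0))) (.lf (.low 2)))) 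
(.lf (.thr (.lm 6 47 8 46 8 11 4) (.lf 8 122 0 131) (.lf 0 131 6 124)))))) 
(.lf (.thr (.lm 5 49 7 47 8 11 7) (.lf 7 124 1 130) (.lf 1 130 5 125)))) (.z 1074 (.t 8 
(.lf (.thr (.lm 4 45 5 45 6 8 7) (.pot 0) (.pot 0))) 
(.lf (.thr (.lm 6 46 8 44 8 11 7) (.lf 8 122 0 131) (.lf 0 131 6 124)))) 
(.lf (.thr (.lm 5 49 7 47 8 11 7) (.lf 7 124 1 130) (.lf 1 130 5 125)))))) (.lf (.low 2)))))))))) 
(.a 927 (.lf .inf) (.a 952 (.lf .inf) (.y 1414 (.z 1057 (.lf .inf) (.a 965 (.lf .inf) (.y 1401 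
(.z 1068 (.lf .inf) (.t 16 (.lf (.thr (.lm 5 46 7 44 8 11 13) (.pot 0) (.lf 1 130 5 125))) 
(.lf (.low 2)))) (.lf .inf)))) (.lf .inf))))))

theorem h25 : chk (leafT PP TD0 0 2) c25 0 32 877 978 1035 1080 1237 1440 = true := by
  decide +kernel

def c26 : Tree :=
  (.y 1338 (.a 1029 (.y 1287 (.lf .inf) (.a 1003 (.y 1312 (.lf .inf) (.z 1057 (.y 1325 
(.lf .inf) (.a 990 (.lf (.thr (.lm 8 24 9 21 13 17 17) (.lf 9 121 0 131) (.pot 1))) (.lf .inf))) 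
(.lf (.thr (.lm 8 28 10 26 14 17 24) (.lf 10 111 0 121) (.pot 0))))) (.lf .inf))) (.lf .inf)) 
(.a 1029 (.y 1389 (.a 1003 (.y 1363 (.z 1057 (.a 990 (.y 1350 (.z 1046 (.t 16 
(.lf (.thr (.lm 6 23 6 22 9 11 12) (.pot 0) (.pot 0))) (.a 984 (.y 1344 
(.lf (.thr (.lm 9 28 12 23 13 16 9) (.lf 12 118 0 131) (.pot 1))) (.lf (.low 2))) (.y 1344 
(.lf (.thr (.lm 10 25 12 20 13 16 9) (.lf 12 118 0 131) (.pot 1))) (.lf (.low 2))))) (.t 16 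
(.lf (.thr (.lm 6 29 7 27 9 11 12) (.lf 7 124 1 129) (.pot 0))) 
(.lf (.thr (.lm 10 30 13 26 13 17 12) (.lf 13 118 0 131) (.pot 1))))) (.z 1046 (.t 16 
(.lf (.thr (.lm 6 23 6 22 9 11 12) (.pot 0) (.pot 0))) (.lf (.low 2))) (.t 16 
(.lf (.thr (.lm 6 29 7 27 9 11 12) (.pot 0) (.pot 1))) (.lf (.low 2))))) (.y 1350 (.z 1046 
(.t 16 (.lf (.thr (.lm 6 17 6 15 9 11 12) (.pot 0) (.pot 0))) (.a 996 (.y 1344 (.lf .inf) 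
(.lf (.low 2))) (.lf .inf))) (.lf (.thr (.lm 8 23 10 20 14 17 12) (.lf 10 121 0 131) (.pot 1)))) 
(.z 1046 (.t 16 (.lf (.thr (.lm 6 17 6 15 9 11 12) (.pot 0) (.pot 0))) (.lf (.low 2))) (.t 16 
(.lf (.thr (.lm 6 22 7 21 9 11 12) (.pot 0) (.pot 0))) (.lf (.low 2)))))) (.a 990 (.y 1350 
(.lf (.thr (.lm 8 35 10 32 13 17 18) (.lf 10 121 0 131) (.pot 1))) (.z 1068 (.t 16 
(.lf (.thr (.lm 6 34 7 33 9 11 12) (.lf 7 124 1 129) (.pot 0))) (.lf (.low 2))) (.t 16 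
(.lf (.thr (.lm 6 40 7 38 9 11 12) (.lf 7 124 1 129) (.pot 0))) (.lf (.low 2))))) (.y 1350 
(.lf (.thr (.lm 8 28 10 26 14 17 18) (.lf 10 121 0 131) (.pot 0))) (.z 1068 (.t 16 
(.lf (.thr (.lm 6 28 7 26 9 11 12) (.lf 7 124 1 129) (.pot 0))) (.lf (.low 2))) 
(.lf (.thr (.lm 8 34 10 31 14 17 13) (.lf 10 121 0 131) (.pot 1))))))) (.z 1057 (.y 1376 
(.a 990 (.z 1046 (.t 16 (.lf (.thr (.lm 6 23 6 22 9 11 12) (.pot 0) (.pot 0))) (.lf (.low 2))) 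
(.t 16 (.lf (.thr (.lm 6 29 7 27 9 11 12) (.pot 0) (.pot 1))) (.lf (.low 2)))) (.z 1046 (.t 16 
(.lf (.thr (.lm 6 17 6 15 9 11 12) (.pot 0) (.pot 0))) (.lf (.low 2))) (.t 16 
(.lf (.thr (.lm 6 22 7 21 9 11 12) (.pot 0) (.pot 0))) (.lf (.low 2))))) (.a 990 (.z 1046 
(.t 16 (.lf (.thr (.lm 6 23 6 22 9 11 12) (.pot 0) (.pot 0))) (.lf (.low 2))) (.t 16 
(.lf (.thr (.lm 6 29 7 27 9 11 12) (.pot 1) (.pot 0))) (.lf (.low 2)))) (.z 1046 (.t 16 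
(.lf (.thr (.lm 6 17 6 15 9 11 12) (.pot 0) (.pot 0))) (.lf (.low 2))) (.t 16 
(.lf (.thr (.lm 6 22 7 21 9 11 12) (.pot 0) (.pot 0))) (.lf (.low 2)))))) (.y 1376 (.a 990 
(.z 1068 (.t 16 (.y 1369 (.lf (.thr (.lm 6 34 7 33 9 11 12) (.lf 7 124 1 129) (.pot 1))) 
(.a 984 (.z 1062 (.lf (.thr (.lm 6 37 7 36 9 11 6) (.pot 0) (.pot 1))) (.t 8 
(.lf (.thr (.lm 5 39 5 39 7 8 6) (.pot 0) (.pot 0))) 
(.lf (.thr (.lm 6 40 8 38 9 11 6) (.lf 8 122 0 131) (.pot 1))))) 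
(.lf (.thr (.lm 6 34 7 33 9 11 9) (.pot 0) (.pot 1))))) (.lf (.low 2))) (.t 16 
(.lf (.thr (.lm 6 40 7 38 9 11 12) (.lf 7 124 1 129) (.pot 1))) (.lf (.low 2)))) (.z 1068 
(.t 16 (.lf (.thr (.lm 6 28 7 26 9 11 12) (.pot 0) (.pot 1))) (.lf (.low 2))) (.t 16 
(.lf (.thr (.lm 6 33 7 32 9 11 13) (.lf 7 124 1 129) (.pot 0))) (.lf (.low 2))))) (.a 990 
(.z 1068 (.t 16 (.y 1382 (.a 984 (.z 1062 (.lf (.thr (.lm 6 37 7 36 9 11 6) (.pot 1) (.pot 0))) 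
(.t 8 (.lf (.thr (.lm 5 39 5 39 7 8 6) (.pot 0) (.pot 0))) (.a 981 
(.lf (.thr (.lm 6 41 8 40 8 11 5) (.pot 1) (.pot 1))) 
(.lf (.thr (.lm 7 40 8 38 9 11 5) (.pot 0) (.pot 1)))))) 
(.lf (.thr (.lm 6 34 7 33 9 11 9) (.pot 1) (.pot 1)))) (.a 984 (.z 1062 
(.lf (.thr (.lm 6 37 7 36 9 11 6) (.pot 1) (.pot 0))) (.t 8 
(.lf (.thr (.lm 5 39 5 39 7 8 6) (.pot 0) (.pot 0))) (.y 1385 (.a 981 
(.lf (.thr (.lm 6 41 8 40 8 11 5) (.pot 1) (.pot 1))) 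
(.lf (.thr (.lm 7 40 8 38 9 11 5) (.pot 0) (.pot 1)))) 
(.lf (.thr (.lm 6 40 8 38 9 11 6) (.pot 1) (.lf 0 131 6 124)))))) 
(.lf (.thr (.lm 6 34 7 33 9 11 9) (.pot 1) (.pot 1))))) (.lf (.low 2))) (.t 16 (.y 1382 
(.a 984 (.z 1074 (.t 8 (.lf (.thr (.lm 5 42 5 42 7 8 6) (.pot 0) (.pot 0))) (.a 981 (.z 1071 
(.y 1379 (.lf (.thr (.lm 6 44 8 43 8 11 3) (.lf 8 122 0 131) (.pot 0))) (.t 12 
(.lf (.thr (.lm 6 44 7 43 7 9 3) (.pot 0) (.pot 0))) (.lf (.low 2)))) 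
(.lf (.thr (.lm 6 46 8 44 8 11 3) (.lf 8 122 0 131) (.pot 1)))) (.z 1071 
(.lf (.thr (.lm 7 43 8 41 9 11 3) (.pot 1) (.pot 1))) 
(.lf (.thr (.lm 7 44 8 43 9 11 3) (.lf 8 122 0 131) (.pot 0)))))) 
(.lf (.thr (.lm 6 46 7 44 9 11 6) (.lf 7 124 1 130) (.pot 1)))) (.z 1074 (.t 8 
(.lf (.thr (.lm 5 39 5 39 7 8 6) (.pot 0) (.pot 0))) 
(.lf (.thr (.lm 7 40 8 38 9 11 6) (.lf 8 122 0 131) (.pot 1)))) 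
(.lf (.thr (.lm 6 43 7 41 9 11 6) (.lf 7 124 1 130) (.pot 0))))) (.a 984 (.z 1074 (.t 8 
(.lf (.thr (.lm 5 42 5 42 7 8 6) (.pot 0) (.pot 0))) (.y 1385 (.a 981 (.z 1071 (.t 12 
(.lf (.thr (.lm 6 44 7 43 7 9 3) (.pot 0) (.pot 0))) (.lf (.low 2))) (.t 12 
(.lf (.thr (.lm 6 46 7 44 7 9 3) (.pot 0) (.pot 0))) (.lf (.low 2)))) (.z 1071 
(.lf (.thr (.lm 7 43 8 41 9 11 3) (.pot 1) (.pot 1))) (.t 12 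
(.lf (.thr (.lm 6 44 7 43 8 9 3) (.pot 0) (.pot 0))) (.lf (.low 2))))) (.a 981 (.z 1071 
(.lf (.thr (.lm 6 44 8 43 8 11 3) (.pot 0) (.lf 0 131 6 124))) 
(.lf (.thr (.lm 6 46 8 44 8 11 3) (.pot 1) (.lf 0 131 6 124)))) (.z 1071 
(.lf (.thr (.lm 7 43 8 41 9 11 3) (.pot 1) (.pot 1))) (.t 12 
(.lf (.thr (.lm 6 44 7 43 8 9 3) (.pot 0) (.pot 0))) (.lf (.low 2))))))) (.t 8 
(.lf (.thr (.lm 5 45 5 45 7 8 6) (.pot 0) (.pot 0))) (.y 1385 (.a 981 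
(.lf (.thr (.lm 6 47 8 46 8 11 5) (.lf 8 122 0 131) (.lf 0 131 6 124))) 
(.lf (.thr (.lm 7 46 8 44 9 11 5) (.lf 8 122 0 131) (.pot 1)))) (.a 981 
(.lf (.thr (.lm 6 47 8 46 8 11 5) (.lf 8 122 0 131) (.lf 0 131 6 124))) (.z 1077 (.t 12 
(.lf (.thr (.lm 6 46 7 44 8 9 3) (.pot 0) (.pot 0))) (.lf (.low 2))) 
(.lf (.thr (.lm 7 47 8 46 9 11 3) (.lf 8 122 0 131) (.lf 0 131 7 124)))))))) (.z 1074 (.t 8 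
(.lf (.thr (.lm 5 39 5 39 7 8 6) (.pot 0) (.pot 0))) (.y 1385 (.a 987 (.z 1071 
(.lf (.thr (.lm 7 41 8 40 9 11 3) (.pot 0) (.pot 1))) (.t 12 
(.lf (.thr (.lm 6 43 7 41 8 9 3) (.pot 0) (.pot 0))) (.lf (.low 2)))) 
(.lf (.thr (.lm 7 40 8 38 9 11 5) (.pot 0) (.pot 1)))) (.a 987 (.z 1071 
(.lf (.thr (.lm 7 41 8 40 9 11 3) (.pot 0) (.pot 1))) (.t 12 
(.lf (.thr (.lm 6 43 7 41 8 9 3) (.pot 0) (.pot 0))) (.lf (.low 2)))) 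
(.lf (.thr (.lm 7 40 8 38 9 11 5) (.pot 1) (.pot 1)))))) (.t 8 
(.lf (.thr (.lm 5 42 5 42 7 8 6) (.pot 0) (.pot 0))) (.y 1385 
(.lf (.thr (.lm 7 43 8 41 9 11 6) (.lf 8 122 0 131) (.pot 1))) (.a 987 (.z 1077 (.t 12 
(.lf (.thr (.lm 6 44 7 43 8 9 3) (.pot 0) (.pot 0))) (.lf (.low 2))) (.t 12 
(.lf (.thr (.lm 6 46 7 44 8 9 3) (.pot 0) (.pot 0))) (.lf (.low 2)))) (.z 1077 (.t 12 
(.lf (.thr (.lm 6 43 7 41 8 9 3) (.pot 0) (.pot 0))) (.lf (.low 2))) 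
(.lf (.thr (.lm 7 44 8 43 9 11 3) (.lf 8 122 0 131) (.pot 1)))))))))) (.lf (.low 2)))) 
(.z 1068 (.t 16 (.lf (.thr (.lm 6 28 7 26 9 11 12) (.pot 1) (.pot 1))) (.lf (.low 2))) (.t 16 
(.a 996 (.y 1382 (.lf (.thr (.lm 6 36 7 36 9 11 9) (.lf 7 124 1 130) (.pot 1))) (.z 1074 
(.lf (.thr (.lm 6 36 7 36 9 11 6) (.pot 0) (.pot 1))) (.t 8 
(.lf (.thr (.lm 5 39 5 39 7 8 6) (.pot 0) (.pot 0))) (.y 1385 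
(.lf (.thr (.lm 7 40 8 38 9 11 6) (.lf 8 122 0 131) (.pot 0))) (.a 993 (.z 1077 
(.lf (.thr (.lm 7 41 8 40 9 11 3) (.pot 0) (.pot 1))) 
(.lf (.thr (.lm 7 43 8 41 9 11 3) (.lf 8 122 0 131) (.pot 0)))) 
(.lf (.thr (.lm 7 40 8 38 9 11 5) (.pot 1) (.pot 1)))))))) (.y 1382 
(.lf (.thr (.lm 6 33 7 32 9 11 10) (.lf 7 124 1 130) (.pot 1))) (.z 1074 
(.lf (.thr (.lm 6 33 7 32 9 11 7) (.pot 1) (.pot 0))) 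
(.lf (.thr (.lm 6 36 7 35 9 11 7) (.pot 0) (.pot 1)))))) (.lf (.low 2)))))))) (.y 1363 
(.z 1057 (.a 1016 (.y 1350 (.lf .inf) (.z 1046 (.t 16 
(.lf (.thr (.lm 6 10 6 9 10 11 12) (.pot 0) (.pot 1))) (.lf (.low 2))) (.t 16 
(.lf (.thr (.lm 6 16 7 14 10 11 12) (.pot 0) (.pot 0))) (.lf (.low 2))))) (.lf .inf)) (.a 1016 
(.y 1350 (.lf .inf) (.z 1068 (.lf (.thr (.lm 9 22 10 19 15 17 12) (.lf 10 121 0 131) (.pot 1))) 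
(.lf (.thr (.lm 9 27 10 25 15 17 13) (.lf 10 121 0 131) (.pot 0))))) (.lf .inf))) (.z 1057 
(.a 1016 (.y 1376 (.z 1046 (.t 16 (.lf (.thr (.lm 6 10 6 9 10 11 12) (.pot 1) (.pot 0))) 
(.lf (.low 2))) (.t 16 (.lf (.thr (.lm 6 16 7 14 10 11 12) (.pot 0) (.pot 0))) (.lf (.low 2)))) 
(.z 1046 (.t 16 (.lf (.thr (.lm 6 10 6 9 10 11 12) (.pot 1) (.pot 0))) (.lf (.low 2))) (.t 16 
(.lf (.thr (.lm 6 16 7 14 10 11 12) (.pot 0) (.pot 0))) (.lf (.low 2))))) (.y 1376 (.z 1046 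
(.t 16 (.lf (.thr (.lm 6 4 6 2 10 11 12) (.pot 0) (.pot 1))) (.lf (.low 2))) (.t 16 
(.lf (.thr (.lm 6 9 7 8 10 11 12) (.pot 0) (.pot 1))) (.lf (.low 2)))) (.z 1046 (.t 16 
(.lf (.thr (.lm 6 4 6 2 10 11 12) (.pot 0) (.pot 1))) (.lf (.low 2))) (.t 16 
(.lf (.thr (.lm 6 9 7 8 10 11 12) (.pot 1) (.pot 0))) (.lf (.low 2)))))) (.a 1016 (.y 1376 
(.z 1068 (.t 16 (.lf (.thr (.lm 6 21 7 20 10 11 12) (.pot 0) (.pot 1))) (.lf (.low 2))) (.t 16 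
(.lf (.thr (.lm 6 26 7 26 10 11 13) (.lf 7 124 1 129) (.pot 0))) (.lf (.low 2)))) (.z 1068 
(.t 16 (.lf (.thr (.lm 6 21 7 20 10 11 12) (.pot 1) (.pot 0))) (.lf (.low 2))) (.t 16 
(.lf (.thr (.lm 6 26 7 26 10 11 13) (.pot 1) (.pot 1))) (.lf (.low 2))))) (.y 1376 (.z 1068 
(.t 16 (.lf (.thr (.lm 6 14 7 14 10 11 12) (.pot 0) (.pot 0))) (.lf (.low 2))) (.t 16 
(.lf (.thr (.lm 6 20 7 19 10 11 13) (.lf 7 124 1 129) (.pot 0))) (.lf (.low 2)))) (.z 1068 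
(.t 16 (.lf (.thr (.lm 6 14 7 14 10 11 12) (.pot 0) (.pot 0))) (.lf (.low 2))) (.t 16 
(.lf (.thr (.lm 6 20 7 19 10 11 13) (.pot 0) (.pot 1))) (.lf (.low 2))))))))) (.a 1003 
(.y 1414 (.z 1057 (.a 990 (.lf .inf) (.y 1401 (.z 1046 (.lf .inf) (.t 16 
(.lf (.thr (.lm 6 22 7 21 9 11 12) (.pot 0) (.pot 0))) (.lf (.low 2)))) (.lf .inf))) (.a 990 
(.y 1401 (.z 1068 (.t 16 (.a 984 (.lf .inf) 
(.lf (.thr (.lm 6 34 7 33 9 11 9) (.pot 1) (.pot 1)))) (.lf (.low 2))) (.t 16 (.a 984 (.z 1074 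
(.lf (.thr (.lm 6 43 7 41 9 11 6) (.pot 0) (.lf 1 130 6 125))) (.y 1395 (.t 8 
(.lf (.thr (.lm 5 45 5 45 7 8 6) (.pot 0) (.pot 0))) (.a 981 
(.lf (.thr (.lm 6 47 8 46 8 11 5) (.pot 0) (.lf 0 131 6 124))) 
(.lf (.thr (.lm 7 46 8 44 9 11 5) (.lf 8 122 0 131) (.lf 0 131 7 124))))) (.lf .inf))) 
(.z 1074 (.y 1395 (.t 8 (.lf (.thr (.lm 5 39 5 39 7 8 6) (.pot 0) (.pot 0))) (.a 987 (.z 1071 
(.lf (.thr (.lm 7 41 8 40 9 11 3) (.pot 1) (.pot 0))) 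
(.lf (.thr (.lm 7 43 8 41 9 11 3) (.pot 1) (.lf 0 131 7 124)))) 
(.lf (.thr (.lm 7 40 8 38 9 11 5) (.pot 1) (.pot 1))))) (.lf .inf)) (.y 1395 (.t 8 
(.lf (.thr (.lm 5 42 5 42 7 8 6) (.pot 0) (.pot 0))) (.a 987 (.z 1077 (.y 1392 (.t 12 
(.lf (.thr (.lm 6 44 7 43 8 9 3) (.pot 0) (.pot 0))) (.lf (.low 2))) 
(.lf (.thr (.lm 7 44 8 43 9 11 3) (.pot 0) (.lf 0 131 7 124)))) (.y 1392 (.t 12 
(.lf (.thr (.lm 6 46 7 44 8 9 3) (.pot 0) (.pot 0))) (.lf (.low 2))) 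
(.lf (.thr (.lm 7 46 8 44 9 11 3) (.pot 1) (.lf 0 131 7 124))))) (.z 1077 (.y 1392 (.t 12 
(.lf (.thr (.lm 6 43 7 41 8 9 3) (.pot 0) (.pot 0))) (.lf (.low 2))) (.t 12 
(.lf (.thr (.lm 6 43 7 41 8 9 3) (.pot 0) (.pot 0))) (.lf (.low 2)))) (.y 1392 (.t 12 
(.lf (.thr (.lm 6 44 7 43 8 9 3) (.pot 0) (.pot 0))) (.lf (.low 2))) (.t 12 
(.lf (.thr (.lm 6 44 7 43 8 9 3) (.pot 0) (.pot 0))) (.lf (.low 2))))))) 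
(.lf (.thr (.lm 6 43 7 41 9 11 6) (.pot 1) (.lf 1 130 6 125)))))) (.lf (.low 2)))) (.lf .inf)) 
(.y 1401 (.z 1068 (.t 16 (.lf (.thr (.lm 6 28 7 26 9 11 12) (.pot 1) (.pot 1))) (.lf (.low 2))) 
(.t 16 (.a 996 (.z 1074 (.lf (.thr (.lm 6 36 7 36 9 11 6) (.pot 1) (.pot 1))) (.y 1395 (.t 8 
(.lf (.thr (.lm 5 39 5 39 7 8 6) (.pot 0) (.pot 0))) (.a 993 (.z 1077 
(.lf (.thr (.lm 7 41 8 40 9 11 3) (.pot 1) (.pot 1))) (.y 1392 (.t 12 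
(.lf (.thr (.lm 6 43 7 41 8 9 3) (.pot 0) (.pot 0))) (.lf (.low 2))) (.t 12 
(.lf (.thr (.lm 6 43 7 41 8 9 3) (.pot 0) (.pot 0))) (.lf (.low 2))))) 
(.lf (.thr (.lm 7 40 8 38 9 11 5) (.pot 1) (.pot 1))))) (.t 8 
(.lf (.thr (.lm 5 39 5 39 7 8 6) (.pot 0) (.pot 0))) (.a 993 (.z 1077 
(.lf (.thr (.lm 7 41 8 40 9 11 3) (.pot 1) (.pot 1))) (.y 1398 (.t 12 
(.lf (.thr (.lm 6 43 7 41 8 9 3) (.pot 0) (.pot 0))) (.lf (.low 2))) (.lf .inf))) 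
(.lf (.thr (.lm 7 40 8 38 9 11 5) (.pot 1) (.pot 1))))))) (.z 1074 
(.lf (.thr (.lm 6 33 7 32 9 11 7) (.pot 1) (.pot 0))) 
(.lf (.thr (.lm 6 36 7 35 9 11 7) (.pot 1) (.pot 1))))) (.lf (.low 2)))) (.z 1068 (.lf .inf) 
(.t 16 (.a 996 (.lf .inf) (.y 1407 (.z 1074 (.lf .inf) 
(.lf (.thr (.lm 6 36 7 35 9 11 7) (.pot 1) (.pot 1)))) (.lf .inf))) (.lf (.low 2))))))) 
(.lf .inf)) (.y 1414 (.z 1057 (.a 1016 (.y 1401 (.z 1046 (.t 16 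
(.lf (.thr (.lm 6 10 6 9 10 11 12) (.pot 1) (.pot 0))) (.lf (.low 2))) (.t 16 
(.lf (.thr (.lm 6 16 7 14 10 11 12) (.pot 0) (.pot 0))) (.lf (.low 2)))) (.lf .inf)) (.y 1401 
(.z 1046 (.t 16 (.lf (.thr (.lm 6 4 6 2 10 11 12) (.pot 1) (.pot 1))) (.lf (.low 2))) (.t 16 
(.lf (.thr (.lm 6 9 7 8 10 11 12) (.pot 1) (.pot 0))) (.lf (.low 2)))) (.z 1046 (.lf .inf) 
(.t 16 (.lf (.thr (.lm 6 9 7 8 10 11 12) (.pot 1) (.pot 0))) (.lf (.low 2)))))) (.a 1016 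
(.y 1401 (.z 1068 (.t 16 (.lf (.thr (.lm 6 21 7 20 10 11 12) (.pot 1) (.pot 0))) (.lf (.low 2))) 
(.t 16 (.lf (.thr (.lm 6 26 7 26 10 11 13) (.pot 1) (.pot 1))) (.lf (.low 2)))) (.z 1068 
(.t 16 (.lf (.thr (.lm 6 21 7 20 10 11 12) (.pot 1) (.pot 0))) (.lf (.low 2))) (.t 16 
(.lf (.thr (.lm 6 26 7 26 10 11 13) (.pot 1) (.pot 1))) (.lf (.low 2))))) (.y 1401 (.z 1068 
(.t 16 (.lf (.thr (.lm 6 14 7 14 10 11 12) (.pot 0) (.pot 0))) (.lf (.low 2))) (.t 16 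
(.lf (.thr (.lm 6 20 7 19 10 11 13) (.pot 0) (.pot 1))) (.lf (.low 2)))) (.z 1068 (.t 16 
(.lf (.thr (.lm 6 14 7 14 10 11 12) (.pot 0) (.pot 0))) (.lf (.low 2))) (.t 16 
(.lf (.thr (.lm 6 20 7 19 10 11 13) (.pot 1) (.pot 0))) (.lf (.low 2))))))) (.z 1057 (.lf .inf) 
(.a 1016 (.lf .inf) (.y 1427 (.z 1068 (.lf .inf) (.t 16 
(.lf (.thr (.lm 6 20 7 19 10 11 13) (.pot 1) (.pot 0))) (.lf (.low 2)))) (.lf .inf))))))) 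
(.y 1389 (.a 1054 (.y 1363 (.lf .inf) (.z 1057 (.y 1376 (.lf .inf) (.a 1041 (.z 1046 
(.lf (.thr (.lm 9 0 9 0 16 17 9) (.pot 1) (.pot 1))) (.t 16 
(.lf (.thr (.lm 6 3 7 2 10 11 12) (.pot 0) (.pot 1))) (.lf (.low 2)))) (.lf .inf))) (.y 1376 
(.lf .inf) (.a 1041 (.z 1068 (.t 16 (.lf (.thr (.lm 6 8 7 8 10 11 12) (.pot 0) (.pot 1))) 
(.lf (.low 2))) (.t 16 (.lf (.thr (.lm 6 14 7 13 10 11 12) (.pot 0) (.pot 0))) (.lf (.low 2)))) 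
(.lf .inf))))) (.lf .inf)) (.a 1054 (.y 1414 (.z 1057 (.a 1041 (.y 1401 (.z 1046 
(.lf (.thr (.lm 9 0 9 0 16 17 9) (.pot 1) (.pot 1))) (.t 16 
(.lf (.thr (.lm 6 3 7 2 10 11 12) (.pot 0) (.pot 1))) (.lf (.low 2)))) (.z 1046 
(.lf (.thr (.lm 9 0 9 0 16 17 9) (.pot 1) (.pot 1))) (.t 16 
(.lf (.thr (.lm 6 3 7 2 10 11 12) (.pot 1) (.pot 1))) (.lf (.low 2))))) 
(.lf (.thr (.lm 9 0 9 0 17 17 8) (.pot 1) (.pot 1)))) (.a 1041 (.y 1401 (.z 1068 (.t 16 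
(.lf (.thr (.lm 6 8 7 8 10 11 12) (.pot 1) (.pot 0))) (.lf (.low 2))) (.t 16 
(.lf (.thr (.lm 6 14 7 13 10 11 12) (.pot 0) (.pot 0))) (.lf (.low 2)))) (.z 1068 (.t 16 
(.lf (.thr (.lm 6 8 7 8 10 11 12) (.pot 1) (.pot 0))) (.lf (.low 2))) (.t 16 
(.lf (.thr (.lm 6 14 7 13 10 11 12) (.pot 0) (.pot 0))) (.lf (.low 2))))) (.y 1401 (.z 1068 
(.t 16 (.lf (.thr (.lm 7 3 7 0 11 11 12) (.pot 0) (.pot 1))) (.lf (.low 2))) (.t 16 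
(.lf (.thr (.lm 7 7 7 7 11 11 13) (.pot 0) (.pot 1))) (.lf (.low 2)))) (.z 1068 (.t 16 
(.lf (.thr (.lm 7 3 7 0 11 11 12) (.pot 1) (.pot 1))) (.lf (.low 2))) (.t 16 
(.lf (.thr (.lm 7 7 7 7 11 11 13) (.pot 0) (.pot 1))) (.lf (.low 2))))))) (.z 1057 (.y 1427 
(.a 1041 (.lf .inf) (.lf (.thr (.lm 9 0 9 0 17 17 8) (.pot 1) (.pot 1)))) (.lf .inf)) (.y 1427 
(.a 1041 (.z 1068 (.t 16 (.lf (.thr (.lm 6 8 7 8 10 11 12) (.pot 1) (.pot 0))) (.lf (.low 2))) 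
(.t 16 (.lf (.thr (.lm 6 14 7 13 10 11 12) (.pot 0) (.pot 0))) (.lf (.low 2)))) (.z 1068 
(.t 16 (.lf (.thr (.lm 7 3 7 0 11 11 12) (.pot 1) (.pot 1))) (.lf (.low 2))) (.t 16 
(.lf (.thr (.lm 7 7 7 7 11 11 13) (.pot 1) (.pot 0))) (.lf (.low 2))))) (.a 1041 (.lf .inf) 
(.z 1068 (.lf .inf) (.t 16 (.lf (.thr (.lm 7 7 7 7 11 11 13) (.pot 1) (.pot 0))) (.lf (.low 2)))))))) 
(.y 1414 (.z 1057 (.lf (.thr (.lm 10 0 9 0 17 17 2) (.pot 1) (.pot 1))) (.a 1067 (.y 1401 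
(.lf .inf) (.z 1068 (.lf (.thr (.lm 10 0 10 0 17 17 7) (.pot 1) (.pot 1))) (.t 16 
(.lf (.thr (.lm 7 1 7 0 11 11 13) (.pot 1) (.pot 1))) (.lf (.low 2))))) (.lf .inf))) (.z 1057 
(.lf (.thr (.lm 10 0 9 0 17 17 2) (.pot 1) (.pot 1))) (.a 1067 (.y 1427 (.z 1068 
(.lf (.thr (.lm 10 0 10 0 17 17 7) (.pot 1) (.pot 1))) (.t 16 
(.lf (.thr (.lm 7 1 7 0 11 11 13) (.pot 1) (.pot 1))) (.lf (.low 2)))) (.z 1068 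
(.lf (.thr (.lm 10 0 10 0 17 17 7) (.pot 1) (.pot 1))) (.t 16 
(.lf (.thr (.lm 7 1 7 0 11 11 13) (.pot 1) (.pot 1))) (.lf (.low 2))))) 
(.lf (.thr (.lm 10 0 10 0 17 17 7) (.pot 1) (.pot 1))))))))))

theorem h26 : chk (leafT PP TD0 0 2) c26 0 32 978 1080 1035 1080 1237 1440 = true := by
  decide +kernel

theorem q4 : ∃ T : Tree, chk (leafT PP TD0 0 2) T 0 32 540 945 900 945 900 1305 = true :=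
  ⟨_, (chk_a h0 h1)⟩

theorem q5 : ∃ T : Tree, chk (leafT PP TD0 0 2) T 0 32 585 990 945 990 945 1350 = true :=
  ⟨_, (chk_a (chk_y (chk_a h2 h3) h4) h5)⟩

theorem q6 : ∃ T : Tree, chk (leafT PP TD0 0 2) T 0 32 630 1035 990 1035 990 1395 = true :=
  ⟨_, (chk_a (chk_y (chk_a (chk_y h6 (chk_a h7 (chk_y (chk_a h8 h9) h10))) h11) h12) (chk_y h13 (chk_a h14 h15)))⟩

theorem q7 : ∃ T : Tree, chk (leafT PP TD0 0 2) T 0 32 675 1080 1035 1080 1035 1440 = true :=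
  ⟨_, (chk_a (chk_y (chk_a (chk_y (chk_a h16 h17) (chk_a h18 (chk_y (chk_a h19 h20) h21))) h22) h23) (chk_y h24 (chk_a h25 h26)))⟩

end Pool.Agent.Helper58.LDD.T01
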