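import Pool.Agent.Helper58.LD.Comb
import Pool.Agent.Helper58.LDD.Tab

set_option autoImplicit false

namespace Pool.Agent.Helper58.LDD.T02

open Pool.Agent.Helper58.LD Pool.Agent.Helper58.LDD

set_option maxRecDepth 100000

def c0 : Tree :=
  (.a 770 (.y 1130 (.a 745 (.y 1105 (.z 1102 (.a 732 (.y 1092 
(.lf (.thr (.pot 1) (.lm 10 0 10 0 17 17 6) (.pot 1))) (.z 1091 (.t 16 
(.lf (.thr (.pot 1) (.lm 7 0 7 1 11 11 12) (.pot 1))) (.lf (.low 0))) 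
(.lf (.thr (.pot 1) (.lm 10 0 10 0 17 17 7) (.pot 1))))) (.y 1092 
(.lf (.thr (.pot 1) (.lm 10 0 10 0 17 17 6) (.pot 1))) (.z 1091 (.t 16 
(.lf (.thr (.pot 1) (.lm 7 0 7 1 11 11 12) (.pot 1))) (.lf (.low 0))) 
(.lf (.thr (.pot 1) (.lm 10 0 10 0 17 17 7) (.pot 1)))))) 
(.lf (.thr (.pot 1) (.lm 9 0 10 0 17 17 2) (.pot 1)))) (.z 1102 (.a 732 (.lf .inf) (.y 1117 
(.z 1091 (.t 16 (.lf (.thr (.pot 1) (.lm 7 7 7 7 11 11 12) (.pot 0))) (.lf (.low 0))) (.t 16 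
(.lf (.thr (.pot 1) (.lm 7 1 7 2 11 11 12) (.pot 1))) (.lf (.low 0)))) (.z 1091 (.t 16 
(.lf (.thr (.pot 0) (.lm 7 13 6 13 11 10 12) (.pot 0))) (.lf (.low 0))) (.t 16 
(.lf (.thr (.pot 1) (.lm 7 7 6 8 11 10 12) (.pot 0))) (.lf (.low 0)))))) (.a 732 (.lf .inf) 
(.y 1117 (.lf (.thr (.pot 1) (.lm 9 0 10 0 17 17 8) (.pot 1))) (.lf .inf))))) (.y 1105 
(.z 1102 (.a 757 (.y 1092 (.lf .inf) (.z 1091 (.t 16 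
(.lf (.thr (.pot 1) (.lm 7 0 7 1 11 11 12) (.pot 1))) (.lf (.low 0))) 
(.lf (.thr (.pot 1) (.lm 10 0 10 0 17 17 7) (.pot 1))))) (.lf .inf)) 
(.lf (.thr (.pot 1) (.lm 9 0 10 0 17 17 2) (.pot 1)))) (.z 1102 (.a 757 (.y 1117 (.z 1091 
(.t 16 (.lf (.thr (.pot 1) (.lm 7 7 7 7 11 11 12) (.pot 0))) (.lf (.low 0))) (.t 16 
(.lf (.thr (.pot 1) (.lm 7 1 7 2 11 11 12) (.pot 1))) (.lf (.low 0)))) (.z 1091 (.t 16 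
(.lf (.thr (.pot 0) (.lm 7 13 6 13 11 10 12) (.pot 0))) (.lf (.low 0))) (.t 16 
(.lf (.thr (.pot 1) (.lm 7 7 6 8 11 10 12) (.pot 0))) (.lf (.low 0))))) (.y 1117 (.z 1091 
(.t 16 (.lf (.thr (.pot 0) (.lm 7 7 7 7 11 11 12) (.pot 1))) (.lf (.low 0))) (.t 16 
(.lf (.thr (.pot 0) (.lm 7 1 7 2 11 11 12) (.pot 1))) (.lf (.low 0)))) (.z 1091 (.t 16 
(.lf (.thr (.pot 0) (.lm 7 13 6 13 11 10 12) (.pot 0))) (.lf (.low 0))) (.t 16 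
(.lf (.thr (.pot 1) (.lm 7 7 6 8 11 10 12) (.pot 0))) (.lf (.low 0)))))) (.a 757 (.y 1117 
(.lf (.thr (.pot 1) (.lm 9 0 10 0 17 17 8) (.pot 1))) (.z 1113 (.t 16 
(.lf (.thr (.pot 1) (.lm 7 1 6 3 11 10 12) (.pot 1))) (.lf (.low 0))) 
(.lf (.thr (.pot 1) (.lm 9 0 9 0 17 17 9) (.pot 1))))) (.y 1117 
(.lf (.thr (.pot 1) (.lm 9 0 10 0 17 17 8) (.pot 1))) (.z 1113 (.t 16 
(.lf (.thr (.pot 1) (.lm 7 1 6 3 11 10 12) (.pot 1))) (.lf (.low 0))) 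
(.lf (.thr (.pot 1) (.lm 9 0 9 0 17 17 9) (.pot 1))))))))) (.y 1155 (.a 745 (.z 1102 (.a 732 
(.lf .inf) (.y 1142 (.z 1091 (.t 16 (.lf (.thr (.pot 1) (.lm 7 19 6 20 11 10 12) (.pot 0))) 
(.lf (.low 0))) (.lf .inf)) (.lf .inf))) (.lf .inf)) (.z 1102 (.a 757 (.y 1142 (.z 1091 (.t 16 
(.lf (.thr (.pot 1) (.lm 7 19 6 20 11 10 12) (.pot 0))) (.lf (.low 0))) (.t 16 
(.lf (.thr (.pot 0) (.lm 7 14 6 14 11 10 12) (.pot 0))) (.lf (.low 0)))) (.z 1091 (.t 16 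
(.lf (.thr (.pot 1) (.lm 7 25 6 26 11 10 12) (.pot 1))) (.lf (.low 0))) (.t 16 
(.lf (.thr (.pot 1) (.lm 7 20 6 20 11 10 12) (.pot 0))) (.lf (.low 0))))) (.y 1142 (.z 1091 
(.t 16 (.lf (.thr (.pot 1) (.lm 7 19 6 20 11 10 12) (.pot 0))) (.lf (.low 0))) (.t 16 
(.lf (.thr (.pot 0) (.lm 7 14 6 14 11 10 12) (.pot 0))) (.lf (.low 0)))) (.z 1091 (.t 16 
(.lf (.thr (.pot 1) (.lm 7 25 6 26 11 10 12) (.pot 1))) (.lf (.low 0))) (.t 16 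
(.lf (.thr (.pot 1) (.lm 7 20 6 20 11 10 12) (.pot 0))) (.lf (.low 0)))))) (.a 757 (.y 1142 
(.z 1113 (.t 16 (.lf (.thr (.pot 1) (.lm 7 8 6 9 11 10 12) (.pot 0))) (.lf (.low 0))) 
(.lf .inf)) (.lf .inf)) (.y 1142 (.z 1113 (.t 16 
(.lf (.thr (.pot 1) (.lm 7 8 6 9 11 10 12) (.pot 0))) (.lf (.low 0))) (.t 16 
(.lf (.thr (.pot 1) (.lm 6 1 6 4 11 10 12) (.pot 1))) (.lf (.low 0)))) (.z 1113 (.t 16 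
(.lf (.thr (.pot 0) (.lm 7 14 6 15 11 10 12) (.pot 0))) (.lf (.low 0))) (.t 16 
(.lf (.thr (.pot 1) (.lm 6 8 6 9 11 10 13) (.pot 0))) (.lf (.low 0)))))))) (.a 745 (.lf .inf) 
(.z 1102 (.y 1168 (.a 757 (.lf .inf) (.z 1091 (.t 16 (.a 763 (.y 1161 
(.lf (.thr (.pot 1) (.lm 7 32 6 32 11 9 9) (.pot 1))) (.z 1085 (.t 8 
(.lf (.thr (.pot 0) (.lm 5 38 5 38 8 7 6) (.pot 0))) (.y 1164 
(.lf (.thr (.pot 1) (.lm 8 37 7 39 11 9 4) (.pot 0))) (.a 760 (.lf .inf) (.z 1082 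
(.lf (.thr (.pot 1) (.lm 8 40 7 42 11 9 3) (.pot 1))) 
(.lf (.thr (.pot 1) (.lm 8 39 7 40 11 9 4) (.pot 0))))))) 
(.lf (.thr (.pot 1) (.lm 7 35 6 35 11 9 7) (.pot 0))))) (.y 1161 
(.lf (.thr (.pot 1) (.lm 7 32 6 32 11 9 9) (.pot 1))) (.z 1085 (.t 8 
(.lf (.thr (.pot 0) (.lm 5 38 5 38 8 7 6) (.pot 0))) (.a 766 (.y 1164 
(.lf (.thr (.pot 0) (.lm 8 37 7 39 11 9 4) (.pot 1))) (.z 1082 
(.lf (.thr (.pot 1) (.lm 8 40 7 42 11 9 3) (.pot 1))) 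
(.lf (.thr (.pot 1) (.lm 8 39 7 40 11 9 4) (.pot 1))))) (.y 1164 
(.lf (.thr (.pot 0) (.lm 8 37 7 39 11 9 4) (.pot 1))) (.z 1082 
(.lf (.thr (.pot 1) (.lm 8 40 7 42 11 9 3) (.pot 1))) 
(.lf (.thr (.pot 1) (.lm 8 39 7 40 11 9 4) (.pot 1))))))) 
(.lf (.thr (.pot 1) (.lm 7 35 6 35 11 9 7) (.pot 1)))))) (.lf (.low 0))) (.t 16 
(.lf (.thr (.pot 1) (.lm 7 26 6 27 11 9 12) (.pot 1))) (.lf (.low 0))))) (.a 757 (.lf .inf) 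
(.z 1091 (.t 16 (.a 763 (.lf .inf) (.y 1174 (.z 1085 (.t 8 
(.lf (.thr (.pot 0) (.lm 5 41 5 42 8 7 6) (.pot 0))) (.a 766 (.y 1171 (.z 1082 (.t 12 
(.lf (.thr (.pot 0) (.lm 7 42 6 44 9 8 3) (.pot 0))) (.lf (.low 0))) 
(.lf (.thr (.pot 1) (.lm 8 41 7 42 11 9 3) (.lf 7 124 0 131)))) 
(.lf (.thr (.pot 0) (.lm 8 42 7 44 11 9 4) (.lf 7 124 0 131)))) (.y 1171 (.z 1082 (.t 12 
(.lf (.thr (.pot 0) (.lm 7 42 6 44 9 8 3) (.pot 0))) (.lf (.low 0))) (.t 12 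
(.lf (.thr (.pot 0) (.lm 7 41 6 42 9 8 3) (.pot 0))) (.lf (.low 0)))) (.z 1082 (.t 12 
(.lf (.thr (.pot 0) (.lm 7 44 6 45 9 8 3) (.pot 0))) (.lf (.low 0))) (.t 12 
(.lf (.thr (.pot 0) (.lm 7 42 6 44 9 8 3) (.pot 0))) (.lf (.low 0))))))) (.t 8 
(.lf (.thr (.pot 0) (.lm 5 38 5 39 8 7 6) (.pot 0))) (.a 766 (.lf .inf) (.z 1088 (.y 1171 
(.lf (.thr (.pot 1) (.lm 8 39 7 41 11 9 3) (.pot 0))) 
(.lf (.thr (.pot 1) (.lm 8 41 7 42 11 9 3) (.pot 1)))) 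
(.lf (.thr (.pot 1) (.lm 8 38 7 39 11 9 5) (.pot 0))))))) (.z 1085 (.t 8 
(.lf (.thr (.pot 0) (.lm 5 44 5 45 8 7 6) (.pot 0))) (.a 766 (.lf .inf) (.y 1177 (.z 1082 
(.lf (.thr (.lf 0 131 8 122) (.lm 8 45 7 47 11 9 3) (.lf 7 124 0 131))) 
(.lf (.thr (.pot 1) (.lm 8 44 7 45 11 9 3) (.lf 7 124 0 131)))) 
(.lf (.thr (.pot 0) (.lm 8 45 6 47 11 9 5) (.lf 6 124 0 131)))))) 
(.lf (.thr (.pot 1) (.lm 7 41 6 42 11 9 7) (.lf 6 125 1 130)))))) (.lf (.low 0))) (.t 16 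
(.a 763 (.lf .inf) (.y 1174 (.lf (.thr (.pot 1) (.lm 7 32 6 34 11 9 9) (.pot 1))) (.lf .inf))) 
(.lf (.low 0)))))) (.y 1168 (.a 757 (.lf .inf) (.z 1113 (.t 16 
(.lf (.thr (.pot 0) (.lm 7 20 6 22 11 9 12) (.pot 0))) (.lf (.low 0))) (.lf .inf))) (.lf .inf)))))) 
(.y 1130 (.a 795 (.y 1105 (.lf .inf) (.z 1102 (.a 782 (.y 1117 (.lf .inf) (.z 1091 (.t 16 
(.lf (.thr (.pot 0) (.lm 7 13 6 13 11 10 12) (.pot 0))) (.lf (.low 0))) (.t 16 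
(.lf (.thr (.pot 0) (.lm 7 7 6 8 11 10 12) (.pot 1))) (.lf (.low 0))))) (.lf .inf)) (.a 782 
(.y 1117 (.lf .inf) (.z 1113 (.t 16 (.lf (.thr (.pot 0) (.lm 7 1 6 3 11 10 12) (.pot 1))) 
(.lf (.low 0))) (.lf (.thr (.pot 1) (.lm 9 0 9 0 17 17 9) (.pot 1))))) (.lf .inf)))) (.lf .inf)) 
(.a 795 (.y 1155 (.z 1102 (.a 782 (.y 1142 (.z 1091 (.t 16 
(.lf (.thr (.pot 0) (.lm 7 19 6 20 11 10 12) (.pot 1))) (.lf (.low 0))) (.t 16 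
(.lf (.thr (.pot 0) (.lm 7 14 6 14 11 10 12) (.pot 0))) (.lf (.low 0)))) (.z 1091 (.t 16 
(.lf (.thr (.pot 0) (.lm 7 25 6 26 11 10 12) (.pot 1))) (.lf (.low 0))) (.t 16 
(.lf (.thr (.pot 1) (.lm 7 20 6 20 11 10 12) (.pot 0))) (.lf (.low 0))))) (.y 1142 (.z 1091 
(.t 16 (.lf (.thr (.lf 1 129 7 124) (.lm 7 19 6 20 11 10 12) (.pot 0))) (.lf (.low 0))) (.t 16 
(.lf (.thr (.pot 0) (.lm 7 14 6 14 11 10 12) (.pot 0))) (.lf (.low 0)))) (.z 1091 (.t 16 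
(.lf (.thr (.lf 1 129 7 124) (.lm 7 25 6 26 11 10 12) (.pot 0))) (.lf (.low 0))) (.t 16 
(.lf (.thr (.pot 0) (.lm 7 20 6 20 11 10 12) (.pot 1))) (.lf (.low 0)))))) (.a 782 (.y 1142 
(.z 1113 (.t 16 (.lf (.thr (.pot 1) (.lm 7 8 6 9 11 10 12) (.pot 0))) (.lf (.low 0))) (.t 16 
(.lf (.thr (.pot 0) (.lm 6 1 6 4 11 10 12) (.pot 1))) (.lf (.low 0)))) (.z 1113 (.t 16 
(.lf (.thr (.pot 0) (.lm 7 14 6 15 11 10 12) (.pot 0))) (.lf (.low 0))) (.t 16 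
(.lf (.thr (.pot 1) (.lm 6 8 6 9 11 10 13) (.pot 0))) (.lf (.low 0))))) (.y 1142 (.z 1113 
(.t 16 (.lf (.thr (.pot 0) (.lm 7 8 6 9 11 10 12) (.pot 1))) (.lf (.low 0))) (.t 16 
(.lf (.thr (.pot 0) (.lm 6 1 6 4 11 10 12) (.pot 1))) (.lf (.low 0)))) (.z 1113 (.t 16 
(.lf (.thr (.pot 0) (.lm 7 14 6 15 11 10 12) (.pot 0))) (.lf (.low 0))) (.t 16 
(.lf (.thr (.pot 1) (.lm 6 8 6 9 11 10 13) (.pot 0))) (.lf (.low 0))))))) (.z 1102 (.y 1168 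
(.a 782 (.z 1091 (.t 16 (.y 1161 (.lf (.thr (.pot 0) (.lm 7 32 6 32 11 9 9) (.pot 1))) (.a 776 
(.z 1085 (.t 8 (.lf (.thr (.pot 0) (.lm 5 38 5 38 8 7 6) (.pot 0))) (.y 1164 
(.lf (.thr (.pot 0) (.lm 8 37 7 39 11 9 4) (.pot 1))) (.a 773 (.z 1082 
(.lf (.thr (.lf 0 131 8 122) (.lm 8 40 7 42 11 9 3) (.pot 0))) 
(.lf (.thr (.pot 0) (.lm 8 39 7 40 11 9 4) (.pot 1)))) 
(.lf (.thr (.lf 0 131 8 122) (.lm 8 39 7 40 11 9 5) (.pot 0)))))) 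
(.lf (.thr (.pot 0) (.lm 7 35 6 35 11 9 7) (.pot 1)))) 
(.lf (.thr (.lf 1 130 7 124) (.lm 7 35 6 35 11 9 9) (.pot 1))))) (.lf (.low 0))) (.t 16 
(.lf (.thr (.pot 1) (.lm 7 26 6 27 11 9 12) (.pot 1))) (.lf (.low 0)))) (.z 1091 (.t 16 
(.lf (.thr (.lf 1 129 7 124) (.lm 7 32 6 32 11 9 12) (.pot 0))) (.lf (.low 0))) (.t 16 
(.lf (.thr (.pot 0) (.lm 7 26 6 27 11 9 12) (.pot 1))) (.lf (.low 0))))) (.a 782 (.z 1091 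
(.t 16 (.y 1174 (.a 776 (.z 1085 (.t 8 (.lf (.thr (.pot 0) (.lm 5 41 5 42 8 7 6) (.pot 0))) 
(.a 773 (.y 1171 (.z 1082 (.lf (.thr (.lf 0 131 8 122) (.lm 8 42 7 44 11 9 3) (.pot 1))) 
(.t 12 (.lf (.thr (.pot 0) (.lm 7 41 6 42 9 8 3) (.pot 0))) (.lf (.low 0)))) (.z 1082 (.t 12 
(.lf (.thr (.pot 0) (.lm 7 44 6 45 9 8 3) (.pot 0))) (.lf (.low 0))) (.t 12 
(.lf (.thr (.pot 0) (.lm 7 42 6 44 9 8 3) (.pot 0))) (.lf (.low 0))))) 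
(.lf (.thr (.lf 0 131 8 122) (.lm 8 41 7 42 11 9 6) (.pot 1))))) (.t 8 
(.lf (.thr (.pot 0) (.lm 5 38 5 39 8 7 6) (.pot 0))) (.a 773 (.z 1088 (.y 1171 
(.lf (.thr (.pot 0) (.lm 8 39 7 41 11 9 3) (.pot 1))) 
(.lf (.thr (.pot 1) (.lm 8 41 7 42 11 9 3) (.pot 1)))) 
(.lf (.thr (.pot 0) (.lm 8 38 7 39 11 9 5) (.pot 1)))) (.z 1088 (.y 1171 
(.lf (.thr (.pot 0) (.lm 8 39 7 41 11 9 3) (.pot 1))) 
(.lf (.thr (.pot 1) (.lm 8 41 7 42 11 9 3) (.pot 1)))) 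
(.lf (.thr (.pot 0) (.lm 8 38 7 39 11 9 5) (.pot 1))))))) (.z 1085 
(.lf (.thr (.lf 1 130 7 124) (.lm 7 41 6 42 11 9 6) (.pot 0))) (.t 8 
(.lf (.thr (.pot 0) (.lm 5 38 5 39 8 7 6) (.pot 0))) (.a 779 (.z 1088 
(.lf (.thr (.lf 0 131 8 122) (.lm 8 39 7 41 11 9 5) (.pot 0))) 
(.lf (.thr (.pot 0) (.lm 8 38 7 39 11 9 5) (.pot 1)))) 
(.lf (.thr (.lf 0 131 8 122) (.lm 8 38 7 39 11 9 6) (.pot 0))))))) (.a 776 (.z 1085 (.t 8 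
(.lf (.thr (.pot 0) (.lm 5 44 5 45 8 7 6) (.pot 0))) (.y 1177 (.a 773 (.z 1082 
(.lf (.thr (.lf 0 131 8 122) (.lm 8 45 7 47 11 9 3) (.lf 7 124 0 131))) (.t 12 
(.lf (.thr (.pot 0) (.lm 7 44 6 45 9 8 3) (.pot 0))) (.lf (.low 0)))) (.z 1082 
(.lf (.thr (.lf 0 131 8 122) (.lm 8 45 7 47 11 9 3) (.pot 0))) (.t 12 
(.lf (.thr (.pot 0) (.lm 7 44 6 45 9 8 3) (.pot 0))) (.lf (.low 0))))) 
(.lf (.thr (.lf 0 131 8 122) (.lm 8 45 6 47 11 9 5) (.lf 6 124 0 131))))) (.t 8 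
(.lf (.thr (.pot 0) (.lm 5 41 5 42 8 7 7) (.pot 0))) (.y 1177 (.a 773 (.z 1088 (.t 12 
(.lf (.thr (.pot 0) (.lm 7 42 6 44 9 8 3) (.pot 0))) (.lf (.low 0))) 
(.lf (.thr (.pot 1) (.lm 8 41 7 42 11 9 3) (.pot 1)))) (.z 1088 (.t 12 
(.lf (.thr (.pot 0) (.lm 7 42 6 44 9 8 3) (.pot 0))) (.lf (.low 0))) 
(.lf (.thr (.pot 1) (.lm 8 41 7 42 11 9 3) (.pot 1))))) (.a 773 
(.lf (.thr (.pot 1) (.lm 8 42 6 44 11 9 5) (.lf 6 124 0 131))) (.z 1088 (.t 12 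
(.lf (.thr (.pot 0) (.lm 7 44 6 45 9 8 4) (.pot 0))) (.lf (.low 0))) (.t 12 
(.lf (.thr (.pot 0) (.lm 7 42 6 44 9 8 4) (.pot 0))) (.lf (.low 0)))))))) (.z 1085 (.t 8 
(.lf (.thr (.pot 0) (.lm 5 44 5 45 8 7 6) (.pot 0))) 
(.lf (.thr (.lf 0 131 8 122) (.lm 8 44 7 45 11 9 6) (.pot 1)))) (.t 8 
(.lf (.thr (.pot 0) (.lm 5 41 5 42 8 7 7) (.pot 0))) (.y 1177 (.a 779 (.z 1088 
(.lf (.thr (.lf 0 131 8 122) (.lm 8 42 7 44 11 9 3) (.pot 1))) 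
(.lf (.thr (.pot 1) (.lm 8 41 7 42 11 9 3) (.pot 1)))) 
(.lf (.thr (.lf 0 131 8 122) (.lm 8 41 7 42 11 9 5) (.pot 0)))) (.a 779 (.z 1088 (.t 12 
(.lf (.thr (.pot 0) (.lm 7 44 6 45 9 8 4) (.pot 0))) (.lf (.low 0))) (.t 12 
(.lf (.thr (.pot 0) (.lm 7 42 6 44 9 8 4) (.pot 0))) (.lf (.low 0)))) 
(.lf (.thr (.lf 0 131 8 122) (.lm 8 42 6 44 11 9 5) (.pot 1))))))))) (.lf (.low 0))) (.t 16 
(.y 1174 (.lf (.thr (.pot 1) (.lm 7 32 6 34 11 9 9) (.pot 1))) (.a 776 (.z 1096 (.t 8 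
(.lf (.thr (.pot 0) (.lm 5 39 5 39 8 7 6) (.pot 0))) (.y 1177 
(.lf (.thr (.pot 1) (.lm 8 38 7 40 11 9 4) (.pot 0))) (.a 773 (.lf .inf) (.z 1093 
(.lf (.thr (.pot 1) (.lm 8 41 6 43 11 9 3) (.pot 1))) 
(.lf (.thr (.pot 1) (.lm 8 40 6 41 11 9 4) (.pot 0))))))) 
(.lf (.thr (.pot 1) (.lm 7 35 6 37 11 9 7) (.pot 0)))) (.z 1096 (.t 8 
(.lf (.thr (.pot 0) (.lm 5 39 5 39 8 7 6) (.pot 0))) (.y 1177 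
(.lf (.thr (.pot 0) (.lm 8 38 7 40 11 9 4) (.pot 1))) (.a 779 (.z 1093 
(.lf (.thr (.pot 1) (.lm 8 41 6 43 11 9 3) (.pot 1))) 
(.lf (.thr (.pot 1) (.lm 8 40 6 41 11 9 4) (.pot 1)))) (.z 1093 
(.lf (.thr (.pot 1) (.lm 8 41 6 43 11 9 3) (.pot 1))) 
(.lf (.thr (.pot 0) (.lm 8 40 6 41 11 9 4) (.pot 1))))))) 
(.lf (.thr (.pot 0) (.lm 7 35 6 37 11 9 7) (.pot 1)))))) (.lf (.low 0)))) (.z 1091 (.t 16 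
(.lf (.thr (.lf 1 129 7 124) (.lm 7 38 6 39 11 9 12) (.pot 1))) (.lf (.low 0))) (.t 16 (.a 788 
(.y 1174 (.lf (.thr (.pot 0) (.lm 7 32 6 34 11 9 9) (.pot 1))) (.z 1096 (.t 8 
(.lf (.thr (.pot 0) (.lm 5 39 5 39 8 7 6) (.pot 0))) 
(.lf (.thr (.lf 0 131 8 122) (.lm 8 38 7 40 11 9 6) (.pot 1)))) 
(.lf (.thr (.pot 0) (.lm 7 35 6 37 11 9 7) (.pot 1))))) (.y 1174 
(.lf (.thr (.lf 1 129 7 124) (.lm 7 32 6 34 11 9 9) (.pot 0))) 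
(.lf (.thr (.lf 1 129 7 124) (.lm 7 35 6 37 11 9 9) (.pot 1))))) (.lf (.low 0)))))) (.y 1168 
(.a 782 (.z 1113 (.t 16 (.lf (.thr (.pot 0) (.lm 7 20 6 22 11 9 12) (.pot 0))) (.lf (.low 0))) 
(.t 16 (.lf (.thr (.pot 0) (.lm 6 14 6 16 11 9 13) (.pot 0))) (.lf (.low 0)))) (.z 1113 (.t 16 
(.lf (.thr (.pot 0) (.lm 7 20 6 22 11 9 12) (.pot 0))) (.lf (.low 0))) (.t 16 
(.lf (.thr (.pot 0) (.lm 6 14 6 16 11 9 13) (.pot 0))) (.lf (.low 0))))) (.a 782 (.z 1113 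
(.t 16 (.lf (.thr (.pot 1) (.lm 7 27 6 28 11 9 12) (.pot 0))) (.lf (.low 0))) (.t 16 
(.lf (.thr (.pot 0) (.lm 6 21 6 22 11 9 13) (.pot 0))) (.lf (.low 0)))) (.z 1113 (.t 16 
(.lf (.thr (.pot 0) (.lm 7 27 6 28 11 9 12) (.pot 1))) (.lf (.low 0))) (.t 16 
(.lf (.thr (.pot 0) (.lm 6 21 6 22 11 9 13) (.pot 0))) (.lf (.low 0)))))))) (.y 1155 (.z 1102 
(.a 808 (.y 1142 (.lf .inf) (.z 1091 
(.lf (.thr (.lf 0 131 10 121) (.lm 10 25 9 26 17 15 12) (.pot 0))) (.t 16 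
(.lf (.thr (.lf 1 129 7 124) (.lm 7 20 6 20 11 10 12) (.pot 0))) (.lf (.low 0))))) (.lf .inf)) 
(.a 808 (.y 1142 (.lf .inf) (.z 1113 (.t 16 
(.lf (.thr (.pot 0) (.lm 7 14 6 15 11 10 12) (.pot 0))) (.lf (.low 0))) (.t 16 
(.lf (.thr (.pot 0) (.lm 6 8 6 9 11 10 13) (.pot 1))) (.lf (.low 0))))) (.lf .inf))) (.z 1102 
(.a 808 (.y 1168 (.z 1091 (.lf (.thr (.lf 0 131 10 121) (.lm 10 31 8 33 17 14 12) (.pot 1))) 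
(.t 16 (.lf (.thr (.lf 1 129 7 124) (.lm 7 26 6 27 11 9 12) (.pot 0))) (.lf (.low 0)))) 
(.z 1091 (.t 16 (.lf (.thr (.lf 1 129 7 124) (.lm 7 38 6 39 11 9 12) (.pot 0))) (.lf (.low 0))) 
(.t 16 (.lf (.thr (.lf 1 129 7 124) (.lm 7 32 6 34 11 9 12) (.pot 0))) (.lf (.low 0))))) 
(.y 1168 (.lf (.thr (.lf 0 131 10 121) (.lm 10 25 8 28 17 14 18) (.pot 0))) 
(.lf (.thr (.lf 0 131 10 121) (.lm 10 32 8 34 17 13 18) (.pot 1))))) (.a 808 (.y 1168 (.z 1113 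
(.t 16 (.lf (.thr (.pot 0) (.lm 7 20 6 22 11 9 12) (.pot 0))) (.lf (.low 0))) (.t 16 
(.lf (.thr (.pot 0) (.lm 6 14 6 16 11 9 13) (.pot 0))) (.lf (.low 0)))) (.z 1113 (.t 16 
(.lf (.thr (.pot 0) (.lm 7 27 6 28 11 9 12) (.pot 1))) (.lf (.low 0))) (.t 16 
(.lf (.thr (.pot 0) (.lm 6 21 6 22 11 9 13) (.pot 0))) (.lf (.low 0))))) (.y 1168 (.z 1113 
(.lf (.thr (.lf 0 131 10 121) (.lm 10 20 8 22 17 14 12) (.pot 1))) (.t 16 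
(.lf (.thr (.pot 0) (.lm 6 14 6 16 11 9 13) (.pot 0))) (.lf (.low 0)))) (.z 1113 (.t 16 
(.lf (.thr (.lf 1 129 7 124) (.lm 7 27 6 28 11 9 12) (.pot 0))) (.lf (.low 0))) (.t 16 
(.lf (.thr (.pot 0) (.lm 6 21 6 22 11 9 13) (.pot 0))) (.lf (.low 0)))))))))))

theorem h0 : chk (leafT PP TD0 0 2) c0 0 32 720 821 1080 1125 1080 1181 = true := by
  decide +kernel

def c1 : Tree :=
  (.a 770 (.lf .inf) (.y 1231 (.a 795 (.y 1206 (.z 1102 (.a 782 (.y 1193 (.z 1091 (.t 16 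
(.a 776 (.y 1187 (.z 1085 
(.lf (.thr (.lf 1 130 7 124) (.lm 7 47 5 49 11 8 6) (.lf 5 125 1 130))) (.t 8 
(.lf (.thr (.pot 0) (.lm 5 45 4 45 8 6 6) (.pot 0))) 
(.lf (.thr (.lf 0 131 8 122) (.lm 8 44 6 46 11 8 6) (.lf 6 124 0 131))))) 
(.lf (.thr (.lf 1 130 7 124) (.lm 7 47 5 49 11 8 9) (.lf 5 125 1 130)))) (.y 1187 (.z 1085 
(.lf (.thr (.lf 1 130 7 124) (.lm 7 47 5 49 11 8 6) (.lf 5 125 1 130))) (.t 8 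
(.lf (.thr (.pot 0) (.lm 5 45 4 45 8 6 6) (.pot 0))) (.a 779 (.z 1088 
(.lf (.thr (.lf 0 131 8 122) (.lm 8 46 6 47 11 8 5) (.lf 6 124 0 131))) (.y 1184 (.t 12 
(.lf (.thr (.pot 0) (.lm 7 44 6 46 9 7 3) (.pot 0))) (.lf (.low 0))) 
(.lf (.thr (.pot 1) (.lm 8 46 6 47 11 8 3) (.lf 6 124 0 131))))) (.z 1088 
(.lf (.thr (.lf 0 131 8 122) (.lm 8 46 6 47 11 8 5) (.lf 6 124 0 131))) (.y 1184 (.t 12 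
(.lf (.thr (.pot 0) (.lm 7 44 6 46 9 7 3) (.pot 0))) (.lf (.low 0))) 
(.lf (.thr (.lf 0 131 8 122) (.lm 8 46 6 47 11 8 3) (.lf 6 124 0 131)))))))) 
(.lf (.thr (.lf 1 130 7 124) (.lm 7 47 5 49 11 8 9) (.lf 5 125 1 130))))) (.lf (.low 0))) 
(.t 16 (.a 776 (.lf (.thr (.pot 1) (.lm 7 39 5 40 11 8 12) (.lf 5 125 1 130))) (.y 1187 
(.z 1096 (.t 8 (.lf (.thr (.pot 0) (.lm 5 42 4 43 8 6 6) (.pot 0))) (.a 779 (.y 1184 (.z 1093 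
(.t 12 (.lf (.thr (.pot 0) (.lm 7 43 6 45 9 7 3) (.pot 0))) (.lf (.low 0))) 
(.lf (.thr (.pot 1) (.lm 8 42 6 43 11 8 3) (.pot 1)))) 
(.lf (.thr (.pot 0) (.lm 8 43 6 45 11 8 4) (.lf 6 124 0 131)))) (.y 1184 (.z 1093 (.t 12 
(.lf (.thr (.pot 0) (.lm 7 43 6 45 9 7 3) (.pot 0))) (.lf (.low 0))) 
(.lf (.thr (.pot 1) (.lm 8 42 6 43 11 8 3) (.pot 1)))) (.z 1093 
(.lf (.thr (.lf 0 131 8 122) (.lm 8 45 6 46 11 8 3) (.lf 6 124 0 131))) (.t 12 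
(.lf (.thr (.pot 0) (.lm 7 43 6 45 9 7 3) (.pot 0))) (.lf (.low 0))))))) (.t 8 
(.lf (.thr (.pot 0) (.lm 5 39 4 40 8 6 6) (.pot 0))) (.a 779 
(.lf (.thr (.pot 0) (.lm 8 39 6 40 11 8 6) (.lf 6 124 0 131))) (.z 1099 
(.lf (.thr (.pot 1) (.lm 8 40 6 42 11 8 5) (.pot 1))) 
(.lf (.thr (.pot 1) (.lm 8 39 6 40 11 8 5) (.pot 0))))))) (.z 1096 (.t 8 
(.lf (.thr (.pot 0) (.lm 5 45 4 46 8 6 6) (.pot 0))) 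
(.lf (.thr (.pot 1) (.lm 8 44 6 47 11 8 6) (.lf 6 124 0 131)))) 
(.lf (.thr (.pot 0) (.lm 7 42 5 43 11 8 6) (.lf 5 125 1 130)))))) (.lf (.low 0)))) (.z 1091 
(.lf (.thr (.lf 0 131 10 121) (.lm 10 49 7 53 17 11 12) (.lf 7 124 0 131))) (.t 16 
(.lf (.thr (.pot 0) (.lm 7 45 5 46 11 8 12) (.lf 5 125 1 130))) (.lf (.low 0))))) (.y 1193 
(.z 1091 (.t 16 (.a 788 (.y 1187 (.z 1085 
(.lf (.thr (.lf 1 130 7 124) (.lm 7 47 5 49 11 8 6) (.pot 0))) (.t 8 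
(.lf (.thr (.pot 0) (.lm 5 45 4 45 8 6 6) (.pot 0))) 
(.lf (.thr (.lf 0 131 8 122) (.lm 8 44 6 46 11 8 6) (.pot 1))))) 
(.lf (.thr (.lf 1 130 7 124) (.lm 7 47 5 49 11 8 9) (.lf 5 125 1 130)))) 
(.lf (.thr (.lf 1 129 7 124) (.lm 7 44 5 46 11 8 12) (.pot 0)))) (.lf (.low 0))) (.t 16 
(.a 788 (.y 1187 (.z 1096 (.t 8 (.lf (.thr (.pot 0) (.lm 5 42 4 43 8 6 6) (.pot 0))) (.a 785 
(.y 1184 (.z 1093 (.lf (.thr (.lf 0 131 8 122) (.lm 8 43 6 45 11 8 3) (.pot 1))) 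
(.lf (.thr (.pot 1) (.lm 8 42 6 43 11 8 3) (.pot 1)))) (.z 1093 
(.lf (.thr (.lf 0 131 8 122) (.lm 8 45 6 46 11 8 3) (.lf 6 124 0 131))) (.t 12 
(.lf (.thr (.pot 0) (.lm 7 43 6 45 9 7 3) (.pot 0))) (.a 783 (.lf (.low 0)) (.z 1094 
(.lf (.thr (.lf 0 131 9 122) (.lm 9 44 7 46 11 8 2) (.pot 1))) (.y 1185 
(.lf (.thr (.pot 1) (.lm 9 43 7 45 11 8 2) (.pot 1))) (.t 14 
(.lf (.thr (.pot 0) (.lm 9 43 6 46 10 8 2) (.pot 0))) (.lf (.low 0))))))))) 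
(.lf (.thr (.lf 0 131 8 122) (.lm 8 42 6 43 11 8 6) (.pot 1))))) (.t 8 
(.lf (.thr (.pot 0) (.lm 5 39 4 40 8 6 6) (.pot 0))) (.a 785 (.z 1099 
(.lf (.thr (.pot 1) (.lm 8 40 6 42 11 8 5) (.pot 1))) 
(.lf (.thr (.pot 1) (.lm 8 39 6 40 11 8 5) (.pot 0)))) (.z 1099 
(.lf (.thr (.pot 1) (.lm 8 40 6 42 11 8 5) (.pot 1))) 
(.lf (.thr (.pot 0) (.lm 8 39 6 40 11 8 5) (.pot 1))))))) (.z 1096 (.t 8 
(.lf (.thr (.pot 0) (.lm 5 45 4 46 8 6 6) (.pot 0))) 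
(.lf (.thr (.lf 0 131 8 122) (.lm 8 44 6 47 11 8 6) (.lf 6 124 0 131)))) (.t 8 
(.lf (.thr (.pot 0) (.lm 5 42 4 43 8 6 6) (.pot 0))) (.a 785 (.z 1099 (.y 1190 (.t 12 
(.lf (.thr (.pot 0) (.lm 7 43 6 45 9 7 3) (.pot 0))) 
(.lf (.thr (.pot 1) (.lm 9 43 7 45 11 8 3) (.lf 7 124 0 131)))) 
(.lf (.thr (.pot 0) (.lm 8 44 6 47 11 8 3) (.lf 6 124 0 131)))) 
(.lf (.thr (.pot 0) (.lm 8 41 6 44 11 8 5) (.lf 6 124 0 131)))) (.z 1099 (.y 1190 (.t 12 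
(.lf (.thr (.pot 0) (.lm 7 43 6 45 9 7 3) (.pot 0))) (.a 786 (.z 1097 
(.lf (.thr (.lf 0 131 9 122) (.lm 9 44 7 46 11 8 2) (.lf 7 124 0 131))) (.y 1188 
(.lf (.thr (.pot 0) (.lm 9 43 7 45 11 8 2) (.pot 1))) 
(.lf (.thr (.pot 1) (.lm 9 43 7 46 11 8 2) (.lf 7 124 0 131))))) (.z 1097 
(.lf (.thr (.lf 0 131 9 122) (.lm 9 44 7 46 11 8 2) (.pot 1))) (.y 1188 
(.lf (.thr (.pot 0) (.lm 9 43 7 45 11 8 2) (.pot 1))) (.t 14 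
(.lf (.thr (.pot 0) (.lm 9 43 6 46 10 8 2) (.pot 0))) (.lf (.low 0))))))) 
(.lf (.thr (.lf 0 131 8 122) (.lm 8 44 6 47 11 8 3) (.lf 6 124 0 131)))) (.y 1190 
(.lf (.thr (.pot 1) (.lm 8 42 6 43 11 8 3) (.pot 1))) 
(.lf (.thr (.pot 1) (.lm 8 43 6 45 11 8 3) (.lf 6 124 0 131))))))))) (.y 1187 (.z 1096 
(.lf (.thr (.lf 1 129 7 124) (.lm 7 42 5 43 11 8 6) (.pot 0))) (.t 8 
(.lf (.thr (.pot 0) (.lm 5 39 4 40 8 6 6) (.pot 0))) 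
(.lf (.thr (.lf 0 131 8 122) (.lm 8 39 6 40 11 8 6) (.pot 1))))) (.z 1096 
(.lf (.thr (.lf 1 129 7 124) (.lm 7 45 5 46 11 8 6) (.pot 1))) (.t 8 
(.lf (.thr (.pot 0) (.lm 5 42 4 43 8 6 6) (.pot 0))) (.a 791 (.z 1099 (.y 1190 
(.lf (.thr (.lf 0 131 8 122) (.lm 8 43 6 45 11 8 3) (.pot 0))) 
(.lf (.thr (.lf 0 131 8 122) (.lm 8 44 6 47 11 8 3) (.pot 1)))) (.y 1190 
(.lf (.thr (.pot 0) (.lm 8 42 6 43 11 8 3) (.pot 1))) (.t 12 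
(.lf (.thr (.pot 0) (.lm 7 43 6 45 9 7 3) (.pot 0))) (.a 789 (.z 1100 
(.lf (.thr (.lf 0 131 9 122) (.lm 9 44 6 46 11 8 2) (.lf 6 124 0 131))) 
(.lf (.thr (.pot 1) (.lm 9 43 6 45 11 8 3) (.pot 1)))) (.z 1100 
(.lf (.thr (.lf 0 131 9 122) (.lm 9 44 6 46 11 8 2) (.pot 1))) 
(.lf (.thr (.pot 1) (.lm 9 43 6 45 11 8 3) (.pot 1)))))))) 
(.lf (.thr (.lf 0 131 8 122) (.lm 8 41 6 44 11 8 6) (.pot 1)))))))) (.lf (.low 0)))) (.z 1091 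
(.t 16 (.lf (.thr (.lf 1 129 7 124) (.lm 7 50 5 52 11 8 12) (.lf 5 125 1 129))) (.lf (.low 0))) 
(.t 16 (.a 788 (.lf (.thr (.lf 1 130 7 124) (.lm 7 45 5 46 11 8 12) (.lf 5 125 1 130))) 
(.y 1199 (.z 1096 (.lf (.thr (.lf 1 129 7 124) (.lm 7 48 5 49 11 8 6) (.lf 5 125 1 129))) 
(.t 8 (.lf (.thr (.pot 0) (.lm 5 45 4 46 8 6 6) (.pot 0))) 
(.lf (.thr (.lf 0 131 8 122) (.lm 8 44 6 47 11 8 6) (.lf 6 125 0 131))))) 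
(.lf (.thr (.lf 1 129 7 124) (.lm 7 48 5 49 11 8 9) (.lf 5 126 1 129))))) (.lf (.low 0)))))) 
(.a 782 (.y 1193 (.z 1113 (.t 16 (.a 776 (.lf .inf) (.y 1187 
(.lf (.thr (.pot 1) (.lm 7 33 5 35 11 8 9) (.pot 0))) (.lf .inf))) (.lf (.low 0))) (.lf .inf)) 
(.lf .inf)) (.y 1193 (.z 1113 (.t 16 (.a 788 (.y 1187 
(.lf (.thr (.pot 1) (.lm 7 33 5 35 11 8 9) (.pot 1))) (.z 1107 
(.lf (.thr (.pot 1) (.lm 7 39 5 41 11 8 6) (.pot 1))) 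
(.lf (.thr (.pot 0) (.lm 7 36 5 38 11 8 6) (.pot 0))))) (.y 1187 
(.lf (.thr (.pot 0) (.lm 7 33 5 35 11 8 9) (.pot 1))) (.z 1107 
(.lf (.thr (.pot 1) (.lm 7 39 5 41 11 8 6) (.pot 1))) 
(.lf (.thr (.pot 0) (.lm 7 36 5 38 11 8 6) (.pot 0)))))) (.lf (.low 0))) (.t 16 
(.lf (.thr (.pot 1) (.lm 6 27 5 29 11 8 12) (.pot 0))) (.lf (.low 0)))) (.z 1113 (.t 16 
(.a 788 (.lf (.thr (.pot 0) (.lm 7 39 5 41 11 8 12) (.lf 5 125 1 130))) (.y 1199 (.z 1107 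
(.t 8 (.lf (.thr (.pot 0) (.lm 5 43 4 43 8 6 6) (.pot 0))) (.a 791 
(.lf (.thr (.pot 1) (.lm 8 42 6 44 11 8 6) (.lf 6 125 0 131))) (.y 1196 (.z 1104 (.t 12 
(.lf (.thr (.pot 0) (.lm 7 44 6 45 9 7 3) (.pot 0))) (.a 793 
(.lf (.thr (.lf 0 131 9 122) (.lm 9 43 6 46 11 8 3) (.lf 6 124 0 131))) 
(.lf (.thr (.lf 0 131 9 122) (.lm 9 43 6 46 11 8 3) (.pot 0))))) 
(.lf (.thr (.pot 0) (.lm 8 42 6 44 11 8 3) (.pot 1)))) 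
(.lf (.thr (.lf 0 131 8 122) (.lm 8 43 6 46 11 8 4) (.lf 6 125 0 131)))))) 
(.lf (.thr (.pot 1) (.lm 7 39 5 41 11 8 6) (.pot 1)))) (.z 1107 
(.lf (.thr (.lf 1 129 7 124) (.lm 7 45 5 47 11 8 6) (.lf 5 126 1 129))) 
(.lf (.thr (.pot 0) (.lm 7 42 5 44 11 8 7) (.lf 5 126 1 129)))))) (.lf (.low 0))) (.t 16 
(.a 788 (.lf .inf) (.y 1199 (.lf (.thr (.pot 1) (.lm 6 33 5 35 11 8 9) (.pot 0))) (.lf .inf))) 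
(.lf (.low 0))))))) (.z 1102 
(.lf (.thr (.lf 0 131 10 121) (.lm 10 50 6 54 17 10 24) (.lf 6 125 0 131))) (.a 782 (.lf .inf) 
(.y 1218 (.z 1113 (.t 16 (.lf (.thr (.pot 0) (.lm 7 46 5 47 11 7 12) (.lf 5 126 1 129))) 
(.lf (.low 0))) (.lf .inf)) (.lf .inf))))) (.y 1206 (.z 1102 (.a 808 (.y 1193 (.z 1091 (.t 16 
(.lf (.thr (.lf 1 129 7 124) (.lm 7 44 5 46 11 8 12) (.pot 0))) (.lf (.low 0))) (.t 16 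
(.lf (.thr (.lf 1 129 7 124) (.lm 7 39 5 40 11 8 12) (.pot 0))) (.lf (.low 0)))) (.z 1091 
(.t 16 (.lf (.thr (.lf 1 129 7 124) (.lm 7 50 5 52 11 8 12) (.pot 0))) (.lf (.low 0))) (.t 16 
(.a 801 (.y 1199 (.lf (.thr (.lf 1 129 7 124) (.lm 7 45 5 46 11 8 9) (.pot 0))) 
(.lf (.thr (.lf 1 129 7 124) (.lm 7 48 5 49 11 8 9) (.lf 5 126 1 129)))) 
(.lf (.thr (.lf 1 129 7 124) (.lm 7 45 5 46 11 8 12) (.pot 0)))) (.lf (.low 0))))) (.y 1193 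
(.z 1091 (.lf (.thr (.lf 0 131 10 121) (.lm 10 44 7 46 17 12 12) (.pot 0))) (.t 16 
(.lf (.thr (.lf 1 129 7 124) (.lm 7 39 5 40 11 8 12) (.pot 0))) (.lf (.low 0)))) (.z 1091 
(.t 16 (.lf (.thr (.lf 1 129 7 124) (.lm 7 50 5 52 11 8 12) (.pot 0))) (.lf (.low 0))) (.t 16 
(.lf (.thr (.lf 1 129 7 124) (.lm 7 45 5 46 11 8 12) (.pot 0))) (.lf (.low 0)))))) (.a 808 
(.y 1193 (.z 1113 (.t 16 (.a 801 (.y 1187 (.lf (.thr (.pot 0) (.lm 7 33 5 35 11 8 9) (.pot 1))) 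
(.z 1107 (.lf (.thr (.pot 1) (.lm 7 39 5 41 11 8 6) (.pot 1))) 
(.lf (.thr (.pot 0) (.lm 7 36 5 38 11 8 6) (.pot 0))))) 
(.lf (.thr (.lf 1 129 7 124) (.lm 7 33 5 35 11 8 12) (.pot 1)))) (.lf (.low 0))) (.t 16 
(.lf (.thr (.pot 0) (.lm 6 27 5 29 11 8 12) (.pot 1))) (.lf (.low 0)))) (.z 1113 (.t 16 
(.a 801 (.y 1199 (.z 1107 (.t 8 (.lf (.thr (.pot 0) (.lm 5 43 4 43 8 6 6) (.pot 0))) (.a 798 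
(.y 1196 (.lf (.thr (.lf 0 131 8 122) (.lm 8 42 6 44 11 8 4) (.pot 0))) 
(.lf (.thr (.lf 0 131 8 122) (.lm 8 43 6 46 11 8 4) (.pot 1)))) 
(.lf (.thr (.lf 0 130 8 122) (.lm 8 42 6 44 11 8 6) (.pot 0))))) 
(.lf (.thr (.pot 1) (.lm 7 39 5 41 11 8 6) (.pot 1)))) (.z 1107 
(.lf (.thr (.lf 1 129 7 124) (.lm 7 45 5 47 11 8 6) (.lf 5 126 1 129))) (.t 8 
(.lf (.thr (.pot 0) (.lm 5 43 4 43 8 6 7) (.pot 0))) (.y 1202 (.a 798 (.z 1110 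
(.lf (.thr (.lf 0 131 8 123) (.lm 8 43 6 46 11 8 3) (.lf 6 125 0 131))) 
(.lf (.thr (.pot 1) (.lm 8 42 6 44 11 8 3) (.pot 0)))) (.z 1110 
(.lf (.thr (.lf 0 130 8 123) (.lm 8 43 6 46 11 8 3) (.pot 1))) 
(.lf (.thr (.pot 1) (.lm 8 42 6 44 11 8 3) (.pot 0))))) 
(.lf (.thr (.lf 0 131 8 123) (.lm 8 43 6 46 11 7 5) (.lf 6 125 0 131))))))) (.y 1199 
(.lf (.thr (.lf 1 129 7 124) (.lm 7 39 5 41 11 8 9) (.pot 1))) (.z 1107 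
(.lf (.thr (.lf 1 129 7 124) (.lm 7 45 5 47 11 8 6) (.pot 0))) (.t 8 
(.lf (.thr (.pot 0) (.lm 5 43 4 43 8 6 7) (.pot 0))) (.a 804 (.y 1202 
(.lf (.thr (.lf 0 130 8 123) (.lm 8 42 6 44 11 8 5) (.pot 0))) 
(.lf (.thr (.lf 0 130 8 123) (.lm 8 43 6 46 11 7 5) (.pot 1)))) 
(.lf (.thr (.lf 0 130 8 123) (.lm 8 42 6 44 11 8 7) (.pot 0)))))))) (.lf (.low 0))) (.t 16 
(.a 801 (.y 1199 (.lf (.thr (.pot 1) (.lm 6 33 5 35 11 8 9) (.pot 0))) (.z 1119 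
(.lf (.thr (.pot 1) (.lm 6 39 5 41 11 8 7) (.pot 1))) 
(.lf (.thr (.pot 0) (.lm 6 36 5 38 10 8 7) (.pot 0))))) (.y 1199 
(.lf (.thr (.pot 0) (.lm 6 33 5 35 11 8 9) (.pot 1))) (.z 1119 
(.lf (.thr (.pot 1) (.lm 6 39 5 41 11 8 7) (.pot 1))) 
(.lf (.thr (.pot 0) (.lm 6 36 5 38 10 8 7) (.pot 0)))))) (.lf (.low 0))))) (.y 1193 (.z 1113 
(.t 16 (.lf (.thr (.lf 1 129 7 124) (.lm 7 33 5 35 11 8 12) (.pot 0))) (.lf (.low 0))) (.t 16 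
(.lf (.thr (.pot 0) (.lm 6 27 5 29 11 8 12) (.pot 1))) (.lf (.low 0)))) (.z 1113 (.t 16 
(.lf (.thr (.lf 1 129 7 124) (.lm 7 39 5 41 11 8 12) (.pot 0))) (.lf (.low 0))) (.t 16 (.a 814 
(.y 1199 (.lf (.thr (.pot 0) (.lm 6 33 5 35 11 8 9) (.pot 1))) (.z 1119 
(.lf (.thr (.lf 1 129 6 124) (.lm 6 39 5 41 11 8 7) (.pot 0))) 
(.lf (.thr (.pot 0) (.lm 6 36 5 38 10 8 7) (.pot 0))))) 
(.lf (.thr (.lf 1 129 6 124) (.lm 6 33 5 35 11 8 13) (.pot 0)))) (.lf (.low 0))))))) (.z 1102 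
(.a 808 (.y 1218 (.z 1091 
(.lf (.thr (.lf 0 131 10 121) (.lm 10 56 6 59 17 10 12) (.lf 6 125 0 131))) (.t 16 
(.lf (.thr (.lf 1 129 7 124) (.lm 7 51 5 53 11 7 12) (.lf 5 126 1 129))) (.lf (.low 0)))) 
(.lf (.thr (.lf 0 131 10 121) (.lm 10 56 5 60 17 9 18) (.lf 5 125 0 131)))) (.y 1218 (.z 1091 
(.t 16 (.lf (.thr (.lf 1 129 7 124) (.lm 7 57 5 58 11 7 12) (.pot 0))) (.lf (.low 0))) (.t 16 
(.lf (.thr (.lf 1 129 7 124) (.lm 7 51 5 53 11 7 12) (.pot 0))) (.lf (.low 0)))) 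
(.lf (.thr (.lf 0 131 10 121) (.lm 10 56 5 60 17 9 18) (.lf 5 125 0 131))))) (.a 808 (.y 1218 
(.z 1113 (.t 16 (.lf (.thr (.lf 1 129 7 124) (.lm 7 46 5 47 11 7 12) (.lf 5 126 1 129))) 
(.lf (.low 0))) (.t 16 (.a 801 (.lf (.thr (.pot 0) (.lm 6 40 5 41 11 7 12) (.lf 5 126 1 129))) 
(.z 1119 (.y 1212 (.t 8 (.lf (.thr (.pot 0) (.lm 5 43 4 44 8 6 6) (.pot 0))) (.a 804 
(.lf (.thr (.pot 0) (.lm 8 42 5 45 11 7 6) (.lf 5 125 0 130))) (.z 1116 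
(.lf (.thr (.lf 0 130 8 123) (.lm 8 44 5 46 11 7 5) (.lf 5 125 0 130))) 
(.lf (.thr (.pot 1) (.lm 8 42 5 45 10 7 5) (.pot 1)))))) 
(.lf (.thr (.pot 0) (.lm 6 46 5 47 11 7 6) (.lf 5 126 1 129)))) (.y 1212 
(.lf (.thr (.pot 1) (.lm 6 40 5 41 10 7 6) (.pot 0))) 
(.lf (.thr (.pot 0) (.lm 6 43 5 44 10 7 6) (.lf 5 126 1 129)))))) (.lf (.low 0)))) 
(.lf (.thr (.lf 0 131 9 121) (.lm 9 44 5 49 17 9 18) (.lf 5 125 0 131)))) (.y 1218 (.z 1113 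
(.t 16 (.a 814 (.y 1212 (.lf (.thr (.lf 1 129 7 124) (.lm 7 46 5 47 11 7 9) (.pot 0))) 
(.lf (.thr (.lf 1 129 7 124) (.lm 7 49 5 50 11 7 9) (.pot 1)))) 
(.lf (.thr (.lf 1 129 7 124) (.lm 7 46 5 47 11 7 12) (.pot 0)))) (.lf (.low 0))) (.t 16 
(.a 814 (.z 1119 (.y 1212 (.lf (.thr (.lf 1 129 6 124) (.lm 6 43 5 44 11 7 6) (.pot 1))) 
(.lf (.thr (.lf 1 129 6 124) (.lm 6 46 5 47 11 7 6) (.lf 5 126 1 129)))) (.y 1212 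
(.lf (.thr (.pot 0) (.lm 6 40 5 41 10 7 6) (.pot 1))) (.t 8 
(.lf (.thr (.pot 0) (.lm 5 43 4 44 7 6 6) (.pot 0))) (.a 811 
(.lf (.thr (.pot 0) (.lm 8 42 5 45 10 7 6) (.lf 5 125 0 130))) (.z 1122 
(.lf (.thr (.lf 0 130 8 123) (.lm 8 44 5 46 10 7 5) (.pot 1))) 
(.lf (.thr (.pot 1) (.lm 8 42 5 45 10 7 5) (.pot 0)))))))) (.z 1119 
(.lf (.thr (.lf 1 129 6 124) (.lm 6 43 5 44 11 7 9) (.pot 0))) (.y 1212 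
(.lf (.thr (.lf 1 129 6 124) (.lm 6 40 5 41 10 7 6) (.pot 0))) 
(.lf (.thr (.lf 1 129 6 124) (.lm 6 43 5 44 10 7 6) (.pot 1)))))) (.lf (.low 0)))) (.z 1113 
(.t 16 (.lf (.thr (.lf 1 129 7 124) (.lm 7 52 4 53 11 7 12) (.lf 4 126 1 129))) (.lf (.low 0))) 
(.t 16 (.lf (.thr (.lf 1 129 6 124) (.lm 6 46 4 47 11 7 13) (.lf 4 126 1 129))) (.lf (.low 0))))))))) 
(.a 795 (.lf .inf) (.lf (.thr (.lf 0 131 10 121) (.lm 10 50 4 56 17 7 48) (.lf 4 115 0 118))))))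

theorem h1 : chk (leafT PP TD0 0 2) c1 0 32 720 821 1080 1125 1181 1282 = true := by
  decide +kernel

def c2 : Tree :=
  (.y 1181 (.a 871 (.y 1130 (.lf .inf) (.y 1155 (.lf .inf) (.a 846 (.z 1102 
(.lf (.thr (.lf 0 122 10 112) (.lm 10 25 8 28 17 14 24) (.pot 0))) (.y 1168 (.lf .inf) (.a 833 
(.z 1113 (.lf (.thr (.lf 0 131 10 121) (.lm 10 26 8 29 17 13 12) (.pot 0))) 
(.lf (.thr (.lf 0 131 9 121) (.lm 9 20 8 23 17 13 13) (.pot 1)))) (.lf .inf)))) (.lf .inf)))) 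
(.lf .inf)) (.a 871 (.y 1231 (.a 846 (.y 1206 (.z 1102 (.a 833 (.y 1193 
(.lf (.thr (.lf 0 128 10 119) (.lm 10 38 7 41 17 12 17) (.pot 0))) 
(.lf (.thr (.lf 0 128 10 119) (.lm 10 44 7 47 17 11 18) (.pot 0)))) 
(.lf (.thr (.lf 0 121 10 113) (.lm 10 38 7 41 17 12 24) (.pot 0)))) (.a 833 (.y 1193 (.z 1113 
(.lf (.thr (.lf 0 131 10 121) (.lm 10 32 7 36 17 12 12) (.pot 0))) (.t 16 
(.lf (.thr (.lf 2 129 6 124) (.lm 6 27 5 29 11 8 12) (.pot 0))) 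
(.lf (.thr (.lf 0 131 12 118) (.lm 12 25 9 31 17 12 12) (.pot 1))))) (.z 1113 
(.lf (.thr (.lf 0 131 10 121) (.lm 10 38 7 42 17 11 12) (.pot 1))) (.t 16 
(.lf (.thr (.lf 2 129 6 124) (.lm 6 33 5 35 11 8 13) (.pot 0))) (.y 1199 
(.lf (.thr (.lf 0 131 12 118) (.lm 12 31 8 37 17 11 9) (.pot 1))) (.a 827 (.z 1119 
(.lf (.thr (.lf 0 131 12 118) (.lm 12 37 8 43 16 10 7) (.pot 1))) 
(.lf (.thr (.lf 0 131 12 118) (.lm 12 34 8 40 16 10 7) (.pot 1)))) 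
(.lf (.thr (.lf 0 131 12 118) (.lm 12 34 8 40 17 10 10) (.pot 0)))))))) (.y 1193 
(.lf (.thr (.lf 0 130 9 121) (.lm 9 26 7 30 17 12 18) (.pot 0))) 
(.lf (.thr (.lf 0 130 9 121) (.lm 9 32 7 36 17 11 18) (.pot 1)))))) (.z 1102 (.a 833 (.y 1218 
(.z 1091 (.lf (.thr (.lf 0 128 10 119) (.lm 10 56 6 59 17 10 12) (.pot 1))) (.t 16 
(.lf (.thr (.lf 2 129 7 124) (.lm 7 51 5 53 11 7 12) (.pot 0))) 
(.lf (.thr (.lf 0 131 13 118) (.lm 13 49 7 55 17 10 12) (.pot 0))))) (.z 1091 (.t 16 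
(.lf (.thr (.lf 2 126 7 121) (.lm 7 63 4 64 11 7 12) (.pot 0))) 
(.lf (.thr (.lf 0 130 13 117) (.lm 13 60 6 67 17 8 12) (.lf 6 125 0 131)))) (.t 16 
(.lf (.thr (.lf 2 129 7 124) (.lm 7 57 4 59 11 7 12) (.pot 0))) (.y 1224 
(.lf (.thr (.lf 0 131 13 118) (.lm 13 55 6 61 17 8 9) (.lf 6 124 0 131))) 
(.lf (.thr (.lf 0 131 13 118) (.lm 13 58 6 64 17 8 9) (.lf 6 125 0 131))))))) (.y 1218 
(.lf (.thr (.lf 0 121 10 113) (.lm 10 50 6 54 17 10 17) (.pot 0))) 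
(.lf (.thr (.lf 0 121 10 113) (.lm 10 56 5 60 17 9 18) (.pot 1))))) (.a 833 (.y 1218 (.z 1113 
(.t 16 (.lf (.thr (.lf 2 129 7 124) (.lm 7 46 5 47 11 7 12) (.pot 0))) (.a 827 (.y 1212 
(.lf (.thr (.lf 0 131 13 118) (.lm 13 44 7 49 17 10 9) (.pot 0))) (.z 1107 
(.lf (.thr (.lf 0 131 13 118) (.lm 13 50 7 55 17 9 6) (.pot 0))) 
(.lf (.thr (.lf 0 131 13 118) (.lm 13 47 7 52 17 9 6) (.pot 1))))) 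
(.lf (.thr (.lf 0 131 13 118) (.lm 13 44 7 49 17 10 12) (.pot 0))))) (.t 16 
(.lf (.thr (.lf 2 129 6 124) (.lm 6 40 5 41 11 7 12) (.pot 0))) (.a 827 (.z 1119 (.y 1212 
(.lf (.thr (.lf 0 131 12 118) (.lm 12 41 7 46 16 10 6) (.pot 1))) (.t 24 
(.lf (.thr (.lf 0 131 11 120) (.lm 11 44 6 49 13 8 6) (.pot 0))) (.lf (.low 0)))) (.y 1212 
(.t 24 (.lf (.thr (.lf 0 131 11 120) (.lm 11 38 7 43 13 8 6) (.pot 0))) (.lf (.low 0))) (.t 24 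
(.lf (.thr (.lf 0 131 11 120) (.lm 11 41 6 46 13 8 6) (.pot 0))) (.lf (.low 0))))) (.z 1119 
(.lf (.thr (.lf 0 131 12 118) (.lm 12 41 7 46 16 10 9) (.pot 1))) 
(.lf (.thr (.lf 0 131 12 118) (.lm 12 38 7 43 16 10 9) (.pot 1))))))) (.z 1113 (.t 16 
(.lf (.thr (.lf 2 129 7 124) (.lm 7 52 4 53 11 7 12) (.pot 0))) (.y 1224 (.a 827 
(.lf (.thr (.lf 0 131 13 118) (.lm 13 49 6 56 17 8 9) (.lf 6 124 0 131))) 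
(.lf (.thr (.lf 0 131 13 118) (.lm 13 49 6 56 17 8 9) (.pot 0)))) 
(.lf (.thr (.lf 0 131 13 118) (.lm 13 52 6 59 17 8 9) (.lf 6 125 0 131))))) (.t 16 (.y 1224 
(.lf (.thr (.lf 2 129 6 124) (.lm 6 46 5 47 11 7 9) (.pot 0))) 
(.lf (.thr (.lf 2 129 6 124) (.lm 6 49 4 50 11 6 10) (.pot 0)))) (.y 1224 (.a 827 (.z 1119 
(.t 24 (.lf (.thr (.lf 0 131 11 120) (.lm 11 47 6 52 13 8 6) (.pot 0))) (.lf (.low 0))) (.t 24 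
(.a 824 (.z 1122 (.lf (.thr (.lf 0 131 11 120) (.lm 11 46 6 50 13 8 5) (.pot 1))) (.y 1221 
(.lf (.thr (.lf 0 131 11 120) (.lm 11 44 6 49 13 8 3) (.pot 1))) 
(.lf (.thr (.lf 0 131 11 120) (.lm 11 46 6 50 13 7 3) (.pot 1))))) 
(.lf (.thr (.lf 0 131 11 120) (.lm 11 44 6 49 13 8 6) (.pot 0)))) (.lf (.low 0)))) (.z 1119 
(.lf (.thr (.lf 0 131 12 118) (.lm 12 46 6 53 16 8 6) (.pot 1))) (.t 24 
(.lf (.thr (.lf 0 131 11 120) (.lm 11 44 6 49 13 8 6) (.pot 0))) (.lf (.low 0))))) (.a 827 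
(.lf (.thr (.lf 0 131 12 118) (.lm 12 46 6 53 17 8 10) (.lf 6 125 0 131))) (.z 1119 
(.lf (.thr (.lf 0 131 12 118) (.lm 12 49 6 56 16 8 7) (.lf 6 125 0 131))) (.t 24 
(.lf (.thr (.lf 0 131 11 120) (.lm 11 47 5 52 13 7 7) (.pot 0))) (.lf (.low 0))))))))) 
(.y 1218 (.lf (.thr (.lf 0 130 9 121) (.lm 9 39 6 42 17 10 18) (.pot 1))) (.z 1113 (.t 16 
(.lf (.thr (.lf 2 128 7 124) (.lm 7 52 4 53 11 7 12) (.pot 0))) 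
(.lf (.thr (.lf 0 131 13 118) (.lm 13 49 6 56 17 8 12) (.pot 0)))) (.t 16 
(.lf (.thr (.lf 2 128 6 124) (.lm 6 46 4 47 11 7 13) (.pot 0))) (.a 839 (.y 1224 
(.lf (.thr (.lf 0 131 12 118) (.lm 12 43 6 50 17 8 9) (.pot 0))) 
(.lf (.thr (.lf 0 131 12 118) (.lm 12 46 6 53 17 8 10) (.pot 1)))) 
(.lf (.thr (.lf 0 131 12 118) (.lm 12 43 6 50 17 8 13) (.pot 0)))))))))) (.y 1206 
(.lf (.thr (.lf 1 108 10 101) (.lm 10 26 7 30 17 12 35) (.pot 0))) (.z 1102 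
(.lf (.thr (.lf 1 108 10 101) (.lm 10 50 6 54 17 10 24) (.pot 0))) 
(.lf (.thr (.lf 1 119 9 112) (.lm 9 38 6 43 17 10 24) (.pot 1)))))) (.y 1256 (.a 846 (.z 1102 
(.a 833 (.lf (.thr (.lf 0 128 10 119) (.lm 10 62 4 67 17 7 24) (.lf 4 126 0 131))) (.y 1243 
(.z 1091 (.lf (.thr (.lf 0 121 10 113) (.lm 10 68 5 72 17 7 12) (.lf 5 126 0 130))) (.t 16 
(.lf (.thr (.lf 2 125 7 120) (.lm 7 63 4 66 11 6 12) (.pot 0))) 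
(.lf (.thr (.lf 0 129 13 116) (.lm 13 61 5 68 17 7 12) (.lf 5 126 0 131))))) 
(.lf (.thr (.lf 0 121 10 113) (.lm 10 68 4 73 17 6 18) (.lf 4 127 0 130))))) (.a 833 
(.lf (.thr (.lf 0 131 9 121) (.lm 9 51 4 55 17 7 24) (.lf 4 126 0 131))) (.y 1243 (.z 1113 
(.t 16 (.lf (.thr (.lf 2 128 7 124) (.lm 7 58 4 60 11 6 12) (.pot 0))) 
(.lf (.thr (.lf 0 131 13 118) (.lm 13 55 5 63 17 7 12) (.lf 5 126 0 131)))) (.t 16 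
(.lf (.thr (.lf 2 128 6 124) (.lm 6 52 4 54 11 6 12) (.pot 0))) (.a 839 
(.lf (.thr (.lf 0 131 12 118) (.lm 12 50 5 56 17 7 12) (.lf 5 126 0 131))) (.z 1119 
(.lf (.thr (.lf 0 131 12 118) (.lm 12 53 5 59 16 7 9) (.pot 1))) (.y 1237 
(.lf (.thr (.lf 0 131 12 118) (.lm 12 50 5 56 16 7 6) (.pot 0))) 
(.lf (.thr (.lf 0 131 12 118) (.lm 12 53 5 59 16 6 6) (.pot 1)))))))) 
(.lf (.thr (.lf 0 130 9 121) (.lm 9 57 4 61 17 6 18) (.lf 4 127 0 130)))))) (.z 1102 (.a 858 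
(.y 1243 (.lf (.thr (.lf 1 115 10 107) (.lm 10 62 5 67 17 7 17) (.pot 0))) 
(.lf (.thr (.lf 1 115 10 107) (.lm 10 68 4 73 17 6 18) (.lf 4 127 1 130)))) 
(.lf (.thr (.lf 1 108 10 101) (.lm 10 62 4 67 17 7 24) (.pot 0)))) (.a 858 (.y 1243 
(.lf (.thr (.lf 1 126 9 118) (.lm 9 51 5 55 17 7 18) (.pot 1))) (.z 1113 
(.lf (.thr (.lf 1 126 10 118) (.lm 10 63 4 67 17 6 12) (.lf 4 127 1 130))) (.t 16 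
(.lf (.thr (.lf 2 128 6 124) (.lm 6 58 4 60 11 5 13) (.pot 0))) 
(.lf (.thr (.lf 0 131 12 118) (.lm 12 55 4 63 17 6 13) (.lf 4 127 0 131)))))) 
(.lf (.thr (.lf 1 119 9 112) (.lm 9 51 4 55 17 7 24) (.pot 1)))))) (.a 846 
(.lf (.thr (.lf 0 122 10 112) (.lm 10 63 3 68 17 5 36) (.lf 3 128 0 130))) (.z 1102 
(.lf (.thr (.lf 1 108 10 101) (.lm 10 74 3 80 17 5 24) (.lf 3 128 1 129))) (.y 1269 (.a 858 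
(.lf (.thr (.lf 1 126 9 118) (.lm 9 63 3 68 17 5 18) (.lf 3 127 1 130))) 
(.lf (.thr (.lf 1 119 9 112) (.lm 9 63 3 68 17 5 18) (.lf 3 127 1 129)))) 
(.lf (.thr (.lf 1 119 9 112) (.lm 9 69 2 75 17 5 18) (.lf 2 128 1 129)))))))) (.y 1231 (.a 896 
(.lf (.thr (.lf 2 95 10 89) (.lm 10 26 6 30 17 13 48) (.pot 1))) (.lf .inf)) (.a 896 (.y 1256 
(.lf (.thr (.lf 2 95 10 89) (.lm 10 51 4 55 17 7 35) (.pot 0))) (.z 1102 (.y 1269 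
(.lf (.thr (.lm 2 95 10 89 5 17 24) (.lm 10 74 3 80 17 5 18) (.pot 0))) (.a 883 
(.lf (.thr (.lm 2 102 10 95 5 17 17) (.lm 10 80 2 87 17 5 18) (.lf 2 128 2 128))) 
(.lf (.thr (.lm 3 95 10 89 5 17 18) (.lm 10 80 2 87 17 5 18) (.pot 0))))) (.y 1269 
(.lf (.thr (.lf 2 106 9 100) (.lm 9 63 3 68 17 5 18) (.pot 0))) (.a 883 
(.lf (.thr (.lf 2 113 9 106) (.lm 9 69 2 75 17 5 18) (.lf 2 128 2 128))) 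
(.lf (.thr (.lf 3 106 9 100) (.lm 9 69 2 75 17 5 18) (.pot 0))))))) (.y 1256 
(.lf (.thr (.lm 4 81 10 77 6 17 36) (.lm 10 51 4 55 17 7 35) (.pot 0))) 
(.lf (.thr (.lm 4 81 10 77 6 17 36) (.lm 10 63 3 68 17 5 36) (.pot 0))))))))

theorem h2 : chk (leafT PP TD0 0 2) c2 0 32 821 922 1080 1125 1080 1282 = true := by
  decide +kernel

def c3 : Tree :=
  (.y 1383 (.a 821 (.a 770 (.lf .inf) (.y 1332 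
(.lf (.thr (.lf 0 131 10 121) (.lf 10 75 1 82) (.lf 1 78 0 80))) (.lf .inf))) (.a 871 
(.lf (.thr (.lf 1 109 10 100) (.lf 10 74 0 83) (.lf 0 79 1 79))) (.y 1332 (.a 896 (.y 1307 
(.lf (.thr (.lf 2 95 10 89) (.lm 10 75 1 82 17 5 35) (.lf 1 129 2 128))) 
(.lf (.thr (.lf 2 95 10 89) (.lf 10 87 0 95) (.lf 0 130 2 128)))) (.y 1307 (.z 1102 (.a 909 
(.y 1294 (.lf (.thr (.lm 3 88 10 83 5 17 18) (.lm 10 87 2 93 17 5 17) (.pot 0))) 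
(.lf (.thr (.lm 3 88 10 83 5 17 18) (.lm 10 92 1 100 17 5 18) (.lf 1 129 3 127)))) 
(.lf (.thr (.lm 4 81 10 77 6 17 18) (.lm 10 87 1 93 17 5 24) (.pot 0)))) (.a 909 (.y 1294 
(.lf (.thr (.lm 3 99 9 94 5 17 18) (.lm 9 75 2 82 17 5 18) (.pot 0))) 
(.lf (.thr (.lm 3 99 9 94 5 17 18) (.lm 9 81 1 88 17 5 18) (.lf 1 129 3 127)))) 
(.lf (.thr (.lm 4 92 9 88 6 17 18) (.lm 9 75 1 82 17 5 24) (.pot 0))))) 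
(.lf (.thr (.lm 4 81 10 77 6 17 36) (.lf 10 87 0 95) (.lf 0 130 4 127))))) 
(.lf (.thr (.lf 3 82 10 76) (.lf 10 99 0 108) (.lf 0 106 3 102)))))) (.a 821 (.lf .inf) 
(.y 1434 (.lf (.thr (.lf 2 82 10 76) (.lf 10 121 0 131) (.lf 0 54 2 53))) (.lf .inf))))

theorem h3 : chk (leafT PP TD0 0 2) c3 0 32 720 922 1080 1125 1282 1485 = true := by
  decide +kernel

def c4 : Tree :=
  (.a 1023 (.y 1181 (.lf .inf) (.a 972 (.y 1231 (.lf .inf) 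
(.lf (.thr (.lm 6 56 10 52 12 17 48) (.lm 10 50 4 56 17 7 48) (.pot 0)))) (.lf .inf))) 
(.lf .inf))

theorem h4 : chk (leafT PP TD0 0 2) c4 0 32 922 1125 1080 1125 1080 1282 = true := by
  decide +kernel

def c5 : Tree :=
  (.a 972 (.y 1332 (.a 947 (.y 1307 
(.lf (.thr (.lm 5 68 10 65 9 17 35) (.lm 10 75 1 82 17 5 35) (.pot 0))) (.z 1102 (.a 934 
(.y 1319 (.lf (.thr (.lm 5 75 10 71 8 17 17) (.lf 10 98 1 107) (.pot 0))) 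
(.lf (.thr (.lm 5 75 10 71 8 17 17) (.lf 10 104 0 113) (.lf 0 130 5 126)))) 
(.lf (.thr (.lm 6 68 10 65 9 17 18) (.lf 10 98 0 107) (.pot 0)))) (.a 934 (.y 1319 
(.lf (.thr (.lm 5 86 9 82 8 17 18) (.lm 9 87 1 95 17 5 18) (.pot 0))) 
(.lf (.thr (.lm 5 86 9 82 8 17 18) (.lm 9 93 0 101 17 5 18) (.lf 0 130 5 126)))) 
(.lf (.thr (.lm 6 79 9 76 9 17 18) (.lm 9 87 0 95 17 5 24) (.pot 0)))))) 
(.lf (.thr (.lm 6 55 10 53 12 17 35) (.lf 10 75 1 82) (.pot 1)))) (.y 1357 (.a 947 (.z 1102 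
(.a 934 (.lf (.thr (.lm 5 75 10 71 8 17 17) (.lf 10 110 0 120) (.lf 0 131 5 126))) (.y 1344 
(.z 1091 (.t 16 (.lf (.thr (.lm 5 67 7 66 7 11 12) (.lf 7 118 2 123) (.pot 0))) 
(.lf (.thr (.lm 6 69 13 64 9 17 12) (.lf 13 114 0 127) (.lf 0 131 6 124)))) 
(.lf (.thr (.lm 6 74 10 70 9 17 12) (.lf 10 110 0 120) (.lf 0 131 6 125)))) 
(.lf (.thr (.lm 6 68 10 65 9 17 18) (.lf 10 116 0 126) (.lf 0 131 6 125))))) 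
(.lf (.thr (.lm 5 79 9 76 9 17 24) (.lf 9 99 0 108) (.lf 0 131 5 125)))) (.z 1102 (.a 959 
(.y 1344 (.lf (.thr (.lm 6 62 10 59 10 17 17) (.lf 10 110 0 120) (.pot 0))) (.z 1091 (.t 16 
(.lf (.thr (.lm 5 61 7 60 8 11 12) (.lf 7 124 1 129) (.pot 0))) (.lf (.low 2))) (.t 16 
(.lf (.thr (.lm 5 67 7 65 8 11 12) (.lf 7 118 1 124) (.pot 0))) (.lf (.low 2))))) (.y 1344 
(.lf (.thr (.lm 7 55 10 53 12 17 18) (.lf 10 110 0 120) (.pot 0))) (.z 1091 (.t 16 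
(.lf (.thr (.lm 5 55 7 53 8 11 12) (.lf 7 124 1 129) (.pot 0))) (.lf (.low 2))) 
(.lf (.thr (.lm 7 61 10 58 12 17 12) (.lf 10 116 0 126) (.pot 0)))))) (.a 959 (.y 1344 
(.lf (.thr (.lm 6 73 9 70 10 17 18) (.lf 9 99 0 108) (.pot 0))) 
(.lf (.thr (.lm 6 73 9 70 10 17 18) (.lf 9 105 0 114) (.lf 0 131 6 124)))) 
(.lf (.thr (.lm 7 66 9 64 12 17 18) (.lf 9 99 0 108) (.pot 0)))))) (.a 947 
(.lf (.thr (.lm 5 68 10 65 9 17 35) (.lf 10 111 0 121) (.lf 0 131 5 125))) (.z 1102 (.y 1370 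
(.a 959 (.lf (.thr (.lm 6 62 10 59 10 17 17) (.lf 10 121 0 131) (.lf 0 131 6 124))) (.z 1091 
(.t 16 (.lf (.thr (.lm 5 55 7 53 8 11 12) (.lf 7 124 1 129) (.pot 0))) (.lf (.low 2))) (.t 16 
(.lf (.thr (.lm 5 60 7 59 8 11 12) (.lf 7 124 1 129) (.pot 0))) (.lf (.low 2))))) (.a 959 
(.lf (.thr (.lm 6 62 10 59 10 17 17) (.lf 10 121 0 131) (.lf 0 131 6 124))) (.z 1091 (.t 16 
(.lf (.thr (.lm 5 55 7 53 8 11 12) (.lf 7 124 1 130) (.lf 1 130 5 125))) (.lf (.low 2))) 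
(.lf (.thr (.lm 7 61 10 58 12 17 12) (.lf 10 121 0 131) (.lf 0 131 7 124)))))) (.y 1370 
(.a 959 (.lf (.thr (.lm 6 73 9 70 10 17 18) (.lf 9 111 0 121) (.lf 0 131 6 124))) (.z 1113 
(.t 16 (.lf (.thr (.lm 5 66 7 64 8 11 12) (.lf 7 119 1 125) (.pot 0))) (.lf (.low 2))) 
(.lf (.thr (.lm 7 72 9 69 12 17 13) (.lf 9 111 0 121) (.lf 0 131 7 124))))) 
(.lf (.thr (.lm 6 66 9 64 12 17 24) (.lf 9 118 0 127) (.lf 0 131 6 124)))))))) (.y 1332 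
(.a 997 (.lf (.thr (.lm 8 43 10 40 14 17 35) (.lf 10 75 1 82) (.pot 0))) (.lf .inf)) (.a 997 
(.y 1357 (.z 1102 (.lf (.thr (.lm 8 43 10 40 14 17 24) (.lf 10 110 0 120) (.pot 1))) 
(.lf (.thr (.lm 8 53 9 52 14 17 24) (.lf 9 99 0 108) (.pot 0)))) (.z 1102 (.y 1370 (.a 984 
(.z 1091 (.t 16 (.lf (.thr (.lm 5 49 7 47 9 11 12) (.lf 7 124 1 129) (.pot 0))) (.lf (.low 2))) 
(.t 16 (.lf (.thr (.lm 5 54 7 53 9 11 12) (.lf 7 124 1 129) (.pot 0))) (.lf (.low 2)))) 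
(.z 1091 (.t 16 (.lf (.thr (.lm 6 42 7 41 9 11 12) (.lf 7 124 1 129) (.pot 0))) (.lf (.low 2))) 
(.lf (.thr (.lm 8 48 10 46 14 17 12) (.lf 10 121 0 131) (.pot 0))))) (.a 984 (.z 1091 (.t 16 
(.y 1376 (.lf (.thr (.lm 5 49 7 47 9 11 12) (.lf 7 124 1 129) (.pot 0))) (.a 978 
(.lf (.thr (.lm 5 52 7 50 8 11 9) (.lf 7 124 1 130) (.lf 1 130 5 125))) 
(.lf (.thr (.lm 6 49 7 47 9 11 9) (.lf 7 124 1 130) (.pot 0))))) (.lf (.low 2))) (.t 16 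
(.lf (.thr (.lm 5 54 7 53 9 11 12) (.lf 7 124 1 130) (.pot 0))) (.lf (.low 2)))) (.z 1091 
(.t 16 (.lf (.thr (.lm 6 42 7 41 9 11 12) (.lf 7 124 1 130) (.pot 0))) (.lf (.low 2))) (.t 16 
(.lf (.thr (.lm 6 47 7 47 9 11 12) (.lf 7 124 1 130) (.pot 0))) (.lf (.low 2)))))) (.y 1370 
(.a 984 (.lf (.thr (.lm 7 60 9 58 13 17 18) (.lf 9 111 0 121) (.pot 1))) 
(.lf (.thr (.lm 8 53 9 52 14 17 18) (.lf 9 111 0 121) (.pot 0)))) (.a 984 (.z 1113 (.t 16 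
(.lf (.thr (.lm 5 59 7 59 9 11 12) (.lf 7 124 1 130) (.pot 0))) (.lf (.low 2))) (.t 16 
(.lf (.thr (.lm 5 65 6 64 9 11 12) (.lf 6 120 1 125) (.pot 0))) (.lf (.low 2)))) (.z 1113 
(.t 16 (.lf (.thr (.lm 6 53 7 52 9 11 12) (.lf 7 124 1 130) (.pot 0))) (.lf (.low 2))) 
(.lf (.thr (.lm 8 59 9 57 14 17 13) (.lf 9 118 0 127) (.pot 1)))))))) (.y 1357 
(.lf (.thr (.lm 9 29 10 28 16 17 36) (.lf 10 99 0 108) (.pot 0))) (.z 1102 (.a 1010 (.y 1370 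
(.lf (.thr (.lm 8 36 10 34 15 17 18) (.lf 10 121 0 131) (.pot 0))) (.z 1091 (.t 16 
(.lf (.thr (.lm 6 35 7 35 10 11 12) (.lf 7 124 1 130) (.pot 0))) (.lf (.low 2))) (.t 16 
(.lf (.thr (.lm 6 41 7 40 10 11 12) (.lf 7 124 1 130) (.pot 0))) (.lf (.low 2))))) (.y 1370 
(.lf (.thr (.lm 9 29 10 28 16 17 18) (.lf 10 121 0 131) (.pot 0))) (.z 1091 (.t 16 
(.lf (.thr (.lm 6 29 7 28 10 11 12) (.lf 7 124 1 130) (.pot 0))) (.lf (.low 2))) 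
(.lf (.thr (.lm 9 35 10 33 16 17 12) (.lf 10 121 0 131) (.pot 0)))))) (.a 1010 
(.lf (.thr (.lm 8 47 9 45 15 17 18) (.lf 9 111 0 121) (.pot 1))) 
(.lf (.thr (.lm 9 40 9 39 16 17 18) (.lf 9 111 0 121) (.pot 0)))))))))

theorem h5 : chk (leafT PP TD0 0 2) c5 0 32 922 1023 1080 1125 1282 1383 = true := by
  decide +kernel

def c6 : Tree :=
  (.y 1408 (.a 947 (.lf (.thr (.lm 5 68 10 65 9 17 35) (.lf 10 121 0 131) (.lf 0 120 5 114))) 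
(.z 1102 (.a 959 (.lf (.thr (.lm 6 62 10 59 10 17 17) (.lf 10 121 0 131) (.lf 0 131 6 124))) 
(.lf (.thr (.lm 7 55 10 53 12 17 18) (.lf 10 121 0 131) (.lf 0 131 7 124)))) 
(.lf (.thr (.lm 6 66 9 64 12 17 24) (.lf 9 121 0 131) (.lf 0 131 6 124))))) 
(.lf (.thr (.lm 6 56 10 52 12 17 48) (.lf 10 121 0 131) (.lf 0 107 6 101))))

theorem h6 : chk (leafT PP TD0 0 2) c6 0 32 922 972 1080 1125 1383 1434 = true := by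
  decide +kernel

def c7 : Tree :=
  (.y 1408 (.z 1102 (.a 984 (.y 1395 (.z 1091 (.t 16 
(.lf (.thr (.lm 5 49 7 47 9 11 12) (.lf 7 124 1 130) (.lf 1 130 5 125))) (.lf (.low 2))) 
(.t 16 (.lf (.thr (.lm 5 54 7 53 9 11 12) (.lf 7 124 1 130) (.lf 1 130 5 125))) (.lf (.low 2)))) 
(.z 1091 (.t 16 (.lf (.thr (.lm 5 49 7 47 9 11 12) (.lf 7 124 1 130) (.lf 1 130 5 125))) 
(.lf (.low 2))) (.t 16 (.lf (.thr (.lm 5 54 7 53 9 11 12) (.lf 7 124 1 130) (.lf 1 130 5 125))) 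
(.lf (.low 2))))) (.y 1395 (.z 1091 (.t 16 (.a 990 (.y 1389 (.z 1085 (.t 8 
(.lf (.thr (.lm 5 45 5 45 7 8 6) (.pot 0) (.pot 0))) 
(.lf (.thr (.lm 7 46 8 44 9 11 6) (.lf 8 122 0 131) (.pot 1)))) 
(.lf (.thr (.lm 6 48 7 47 9 11 6) (.lf 7 124 1 130) (.pot 0)))) (.z 1085 (.t 8 
(.lf (.thr (.lm 5 45 5 45 7 8 6) (.pot 0) (.pot 0))) (.a 987 
(.lf (.thr (.lm 7 47 8 46 9 11 4) (.lf 8 122 0 131) (.lf 0 131 7 124))) (.y 1392 (.z 1082 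
(.t 12 (.lf (.thr (.lm 6 46 7 44 8 9 3) (.pot 0) (.pot 0))) (.lf (.low 2))) 
(.lf (.thr (.lm 7 47 8 45 9 11 3) (.lf 8 122 0 131) (.pot 1)))) (.z 1082 (.t 12 
(.lf (.thr (.lm 6 46 7 44 8 9 3) (.pot 0) (.pot 0))) (.lf (.low 2))) 
(.lf (.thr (.lm 7 47 8 45 9 11 3) (.lf 8 122 0 131) (.lf 0 131 7 124))))))) 
(.lf (.thr (.lm 6 48 7 47 9 11 6) (.lf 7 124 1 130) (.lf 1 130 6 125))))) (.y 1389 
(.lf (.thr (.lm 6 42 7 41 9 11 9) (.lf 7 124 1 130) (.pot 1))) (.z 1085 (.t 8 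
(.lf (.thr (.lm 5 42 5 41 7 8 6) (.pot 0) (.pot 0))) (.a 993 (.y 1392 
(.lf (.thr (.lm 7 44 8 43 9 11 4) (.lf 8 122 0 131) (.pot 1))) (.z 1082 (.t 12 
(.lf (.thr (.lm 6 44 7 43 8 9 3) (.pot 0) (.pot 0))) (.lf (.low 2))) (.t 12 
(.lf (.thr (.lm 6 45 7 44 8 9 3) (.pot 0) (.pot 0))) (.lf (.low 2))))) (.y 1392 
(.lf (.thr (.lm 7 42 8 41 9 11 5) (.lf 8 122 0 131) (.pot 1))) (.z 1082 (.t 12 
(.lf (.thr (.lm 6 42 7 41 8 9 3) (.pot 0) (.pot 0))) (.lf (.low 2))) (.t 12 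
(.lf (.thr (.lm 6 43 7 42 8 9 4) (.pot 0) (.pot 0))) (.lf (.low 2))))))) (.t 8 
(.lf (.thr (.lm 5 44 5 44 7 8 7) (.pot 0) (.pot 0))) (.a 993 (.z 1088 
(.lf (.thr (.lm 7 47 8 45 9 11 3) (.lf 8 122 0 131) (.pot 1))) 
(.lf (.thr (.lm 7 48 8 47 9 11 3) (.lf 8 122 0 131) (.pot 0)))) 
(.lf (.thr (.lm 7 45 8 43 9 11 5) (.lf 8 122 0 131) (.pot 1)))))))) (.lf (.low 2))) (.t 16 
(.a 990 (.lf (.thr (.lm 6 51 7 50 9 11 9) (.lf 7 124 1 130) (.lf 1 130 6 125))) 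
(.lf (.thr (.lm 6 47 7 47 9 11 9) (.lf 7 124 1 130) (.pot 0)))) (.lf (.low 2)))) (.z 1091 
(.t 16 (.a 990 (.y 1401 (.z 1085 (.t 8 (.lf (.thr (.lm 5 45 5 45 7 8 6) (.pot 0) (.pot 0))) 
(.a 987 (.lf (.thr (.lm 7 47 8 46 9 11 4) (.pot 0) (.lf 0 131 7 124))) (.y 1398 (.z 1082 
(.lf (.thr (.lm 7 46 8 44 9 11 3) (.pot 0) (.lf 0 131 7 124))) 
(.lf (.thr (.lm 7 47 8 45 9 11 3) (.lf 8 122 0 131) (.lf 0 131 7 124)))) (.lf .inf)))) 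
(.lf (.thr (.lm 6 48 7 47 9 11 6) (.lf 7 124 1 130) (.lf 1 130 6 125)))) (.lf .inf)) (.y 1401 
(.z 1085 (.t 8 (.lf (.thr (.lm 5 42 5 41 7 8 6) (.pot 0) (.pot 0))) (.a 993 (.y 1398 (.z 1082 
(.t 12 (.lf (.thr (.lm 6 44 7 43 8 9 3) (.pot 0) (.pot 0))) (.lf (.low 2))) (.t 12 
(.lf (.thr (.lm 6 45 7 44 8 9 3) (.pot 0) (.pot 0))) (.lf (.low 2)))) 
(.lf (.thr (.lm 7 44 8 43 9 11 4) (.pot 1) (.lf 0 131 7 124)))) (.y 1398 (.z 1082 (.t 12 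
(.lf (.thr (.lm 6 42 7 41 8 9 3) (.pot 0) (.pot 0))) (.lf (.low 2))) (.t 12 
(.lf (.thr (.lm 6 43 7 42 8 9 4) (.pot 0) (.pot 0))) (.lf (.low 2)))) (.z 1082 (.t 12 
(.lf (.thr (.lm 6 42 7 41 8 9 3) (.pot 0) (.pot 0))) (.lf (.low 2))) (.t 12 
(.lf (.thr (.lm 6 43 7 42 8 9 4) (.pot 0) (.pot 0))) (.lf (.low 2))))))) (.t 8 
(.lf (.thr (.lm 5 44 5 44 7 8 7) (.pot 0) (.pot 0))) (.a 993 
(.lf (.thr (.lm 7 47 8 45 9 11 5) (.lf 8 122 0 131) (.lf 0 131 7 124))) (.z 1088 (.y 1398 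
(.t 12 (.lf (.thr (.lm 6 45 7 43 8 9 4) (.pot 0) (.pot 0))) (.lf (.low 2))) (.t 12 
(.lf (.thr (.lm 6 45 7 43 8 9 4) (.pot 0) (.pot 0))) (.lf (.low 2)))) (.y 1398 (.t 12 
(.lf (.thr (.lm 6 46 7 45 8 9 4) (.lf 7 123 0 130) (.pot 0))) (.lf (.low 2))) (.t 12 
(.lf (.thr (.lm 6 46 7 45 8 9 4) (.lf 7 123 0 131) (.pot 0))) (.lf (.low 2)))))))) (.z 1085 
(.t 8 (.lf (.thr (.lm 5 42 5 41 7 8 6) (.pot 0) (.pot 0))) 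
(.lf (.thr (.lm 7 42 8 41 9 11 6) (.pot 1) (.lf 0 131 7 124)))) (.t 8 
(.lf (.thr (.lm 5 44 5 44 7 8 7) (.pot 0) (.pot 0))) (.a 993 
(.lf (.thr (.lm 7 47 8 45 9 11 5) (.pot 1) (.lf 0 131 7 124))) (.y 1404 (.z 1088 (.t 12 
(.lf (.thr (.lm 6 45 7 43 8 9 4) (.pot 0) (.pot 0))) (.lf (.low 2))) (.t 12 
(.lf (.thr (.lm 6 46 7 45 8 9 4) (.pot 0) (.lf 0 131 6 124))) (.lf (.low 2)))) 
(.lf (.thr (.lm 7 45 8 43 9 11 5) (.pot 0) (.lf 0 131 7 124))))))))) (.lf (.low 2))) (.t 16 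
(.a 990 (.lf (.thr (.lm 6 51 7 50 9 11 9) (.lf 7 124 1 130) (.lf 1 130 6 125))) (.y 1401 
(.z 1096 (.t 8 (.lf (.thr (.lm 5 47 5 47 7 8 6) (.pot 0) (.pot 0))) 
(.lf (.thr (.lm 7 48 8 46 9 11 6) (.lf 8 122 0 131) (.lf 0 131 7 124)))) 
(.lf (.thr (.lm 6 50 7 49 9 11 7) (.lf 7 124 1 130) (.lf 1 130 6 125)))) (.z 1096 (.t 8 
(.lf (.thr (.lm 5 47 5 47 7 8 6) (.pot 0) (.pot 0))) 
(.lf (.thr (.lm 7 48 8 46 9 11 6) (.lf 8 122 0 131) (.lf 0 131 7 124)))) 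
(.lf (.thr (.lm 6 50 7 49 9 11 7) (.lf 7 124 1 130) (.lf 1 130 6 125)))))) (.lf (.low 2)))))) 
(.a 984 (.y 1395 (.z 1113 
(.lf (.thr (.lm 7 60 10 58 13 17 12) (.lf 10 121 0 131) (.lf 0 131 7 123))) 
(.lf (.thr (.lm 7 65 9 64 13 17 12) (.lf 9 121 0 131) (.lf 0 131 7 123)))) 
(.lf (.thr (.lm 7 60 9 58 13 17 18) (.lf 9 121 0 131) (.lf 0 131 7 123)))) (.y 1395 (.z 1113 
(.t 16 (.lf (.thr (.lm 6 53 7 52 9 11 12) (.lf 7 124 1 130) (.pot 0))) (.lf (.low 2))) (.t 16 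
(.lf (.thr (.lm 6 58 6 58 9 11 13) (.lf 6 124 1 130) (.pot 0))) (.lf (.low 2)))) (.z 1113 
(.t 16 (.lf (.thr (.lm 6 53 7 52 9 11 12) (.lf 7 124 1 130) (.lf 1 130 6 125))) (.lf (.low 2))) 
(.t 16 (.lf (.thr (.lm 6 58 6 58 9 11 13) (.lf 6 124 1 130) (.lf 1 130 6 125))) (.lf (.low 2))))))) 
(.z 1102 (.y 1421 (.a 984 (.lf .inf) (.z 1091 (.lf .inf) (.t 16 
(.lf (.thr (.lm 6 47 7 47 9 11 12) (.lf 7 124 0 130) (.lf 0 130 6 125))) (.lf (.low 2))))) 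
(.lf .inf)) (.y 1421 (.a 984 
(.lf (.thr (.lm 7 60 9 58 13 17 18) (.lf 9 121 0 131) (.lf 0 131 7 123))) (.z 1113 (.t 16 
(.lf (.thr (.lm 6 53 7 52 9 11 12) (.lf 7 124 0 130) (.lf 0 130 6 125))) (.lf (.low 2))) 
(.lf (.thr (.lm 8 59 9 57 14 17 13) (.lf 9 121 0 131) (.lf 0 131 8 123))))) (.a 984 (.lf .inf) 
(.z 1113 (.lf .inf) (.lf (.thr (.lm 8 59 9 57 14 17 13) (.lf 9 121 0 131) (.lf 0 131 8 123))))))))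

theorem h7 : chk (leafT PP TD0 0 2) c7 0 32 972 997 1080 1125 1383 1434 = true := by
  decide +kernel

def c8 : Tree :=
  (.z 1102 (.a 1010 (.y 1395 (.z 1091 (.t 16 (.a 1003 (.y 1389 
(.lf (.thr (.lm 6 39 7 38 9 11 9) (.lf 7 124 1 130) (.pot 0))) (.z 1085 (.t 8 
(.lf (.thr (.lm 5 39 5 38 7 8 6) (.pot 0) (.pot 0))) (.a 1000 (.y 1392 
(.lf (.thr (.lm 7 41 8 39 9 11 4) (.lf 8 122 0 131) (.pot 0))) (.z 1082 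
(.lf (.thr (.lm 7 41 8 39 9 11 3) (.pot 0) (.pot 1))) 
(.lf (.thr (.lm 7 42 8 40 9 11 3) (.lf 8 122 0 131) (.pot 1))))) 
(.lf (.thr (.lm 7 39 8 38 9 11 4) (.pot 0) (.pot 1))))) 
(.lf (.thr (.lm 6 41 7 41 9 11 6) (.lf 7 124 1 130) (.pot 0))))) 
(.lf (.thr (.lm 6 35 7 35 10 11 9) (.lf 7 124 1 130) (.pot 1)))) (.lf (.low 2))) (.t 16 
(.lf (.thr (.lm 6 41 7 40 10 11 12) (.lf 7 124 1 130) (.pot 0))) (.lf (.low 2)))) (.z 1091 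
(.t 16 (.a 1003 (.y 1401 (.z 1085 (.t 8 (.lf (.thr (.lm 5 39 5 38 7 8 6) (.pot 0) (.pot 0))) 
(.a 1000 (.y 1398 (.z 1082 (.lf (.thr (.lm 7 41 8 39 9 11 3) (.pot 0) (.pot 1))) (.t 12 
(.lf (.thr (.lm 6 42 7 40 8 9 3) (.pot 0) (.pot 0))) (.lf (.low 2)))) (.z 1082 
(.lf (.thr (.lm 7 41 8 39 9 11 3) (.pot 1) (.pot 1))) (.t 12 
(.lf (.thr (.lm 6 42 7 40 8 9 3) (.pot 0) (.pot 0))) (.lf (.low 2))))) 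
(.lf (.thr (.lm 7 39 8 38 9 11 4) (.pot 1) (.pot 1))))) (.t 8 
(.lf (.thr (.lm 5 41 5 41 7 8 6) (.pot 0) (.pot 0))) (.a 1000 (.z 1088 (.y 1398 
(.lf (.thr (.lm 7 43 8 42 9 11 3) (.lf 8 122 0 131) (.pot 1))) (.t 12 
(.lf (.thr (.lm 6 43 7 42 8 9 3) (.pot 0) (.pot 0))) (.lf (.low 2)))) (.y 1398 
(.lf (.thr (.lm 7 45 8 43 9 11 3) (.lf 8 122 0 131) (.pot 0))) (.t 12 
(.lf (.thr (.lm 6 44 7 44 8 9 3) (.pot 0) (.pot 0))) (.lf (.low 2))))) (.z 1088 (.y 1398 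
(.lf (.thr (.lm 7 42 8 40 9 11 3) (.lf 8 122 0 131) (.pot 1))) (.t 12 
(.lf (.thr (.lm 7 41 7 41 8 9 3) (.pot 0) (.pot 0))) (.lf (.low 2)))) 
(.lf (.thr (.lm 7 43 8 42 9 11 3) (.lf 8 122 0 131) (.pot 1))))))) (.z 1085 (.t 8 
(.lf (.thr (.lm 5 39 5 38 7 8 6) (.pot 0) (.pot 0))) (.y 1404 (.a 1000 (.z 1082 
(.lf (.thr (.lm 7 41 8 39 9 11 3) (.pot 1) (.pot 0))) (.t 12 
(.lf (.thr (.lm 6 42 7 40 8 9 3) (.pot 0) (.pot 0))) (.lf (.low 2)))) 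
(.lf (.thr (.lm 7 39 8 38 9 11 4) (.pot 1) (.pot 1)))) (.a 1000 (.lf .inf) 
(.lf (.thr (.lm 7 39 8 38 9 11 4) (.pot 1) (.pot 1)))))) (.t 8 
(.lf (.thr (.lm 5 41 5 41 7 8 6) (.pot 0) (.pot 0))) (.y 1404 (.a 1000 (.z 1088 (.t 12 
(.lf (.thr (.lm 6 43 7 42 8 9 3) (.pot 0) (.pot 0))) (.lf (.low 2))) (.t 12 
(.lf (.thr (.lm 6 44 7 44 8 9 3) (.pot 0) (.pot 0))) (.lf (.low 2)))) (.z 1088 (.t 12 
(.lf (.thr (.lm 7 41 7 41 8 9 3) (.pot 0) (.pot 0))) (.lf (.low 2))) (.t 12 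
(.lf (.thr (.lm 7 43 7 42 8 9 3) (.pot 0) (.pot 0))) (.lf (.low 2))))) (.a 1000 (.z 1088 
(.lf (.thr (.lm 7 43 8 42 9 11 3) (.pot 1) (.lf 0 131 7 124))) (.t 12 
(.lf (.thr (.lm 6 44 7 44 8 9 3) (.pot 0) (.pot 0))) (.lf (.low 2)))) (.z 1088 (.t 12 
(.lf (.thr (.lm 7 41 7 41 8 9 3) (.pot 0) (.pot 0))) (.lf (.low 2))) (.t 12 
(.lf (.thr (.lm 7 43 7 42 8 9 3) (.pot 0) (.pot 0))) (.lf (.low 2))))))))) (.y 1401 (.z 1085 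
(.lf (.thr (.lm 6 35 7 35 10 11 6) (.pot 0) (.pot 1))) (.t 8 
(.lf (.thr (.lm 5 38 5 37 7 8 7) (.pot 0) (.pot 0))) (.a 1006 (.z 1088 
(.lf (.thr (.lm 7 40 8 39 9 11 3) (.pot 0) (.pot 1))) 
(.lf (.thr (.lm 7 42 8 40 9 11 3) (.lf 8 122 0 131) (.pot 1)))) 
(.lf (.thr (.lm 7 38 8 37 10 11 5) (.pot 1) (.pot 1)))))) (.z 1085 
(.lf (.thr (.lm 6 35 7 35 10 11 6) (.pot 1) (.pot 1))) (.t 8 
(.lf (.thr (.lm 5 38 5 37 7 8 7) (.pot 0) (.pot 0))) (.a 1006 (.y 1404 (.z 1088 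
(.lf (.thr (.lm 7 40 8 39 9 11 3) (.pot 1) (.pot 1))) (.t 12 
(.lf (.thr (.lm 7 41 7 41 8 9 3) (.pot 0) (.pot 0))) (.lf (.low 2)))) (.z 1088 
(.lf (.thr (.lm 7 40 8 39 9 11 3) (.pot 1) (.pot 1))) (.t 12 
(.lf (.thr (.lm 7 41 7 41 8 9 3) (.pot 0) (.pot 0))) (.lf (.low 2))))) 
(.lf (.thr (.lm 7 38 8 37 10 11 5) (.pot 1) (.pot 1)))))))) (.lf (.low 2))) (.t 16 (.a 1003 
(.y 1401 (.z 1096 (.t 8 (.lf (.thr (.lm 5 44 5 44 7 8 6) (.pot 0) (.pot 0))) 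
(.lf (.thr (.lm 7 45 8 43 9 11 6) (.lf 8 122 0 131) (.pot 1)))) 
(.lf (.thr (.lm 6 47 7 46 9 11 6) (.lf 7 124 1 130) (.pot 0)))) (.z 1096 (.t 8 
(.lf (.thr (.lm 5 44 5 44 7 8 6) (.pot 0) (.pot 0))) (.y 1404 (.a 1000 (.z 1093 (.t 12 
(.lf (.thr (.lm 6 46 7 45 8 9 3) (.lf 7 123 0 131) (.pot 0))) (.lf (.low 2))) 
(.lf (.thr (.lm 7 47 8 46 9 11 3) (.lf 8 122 0 131) (.lf 0 131 7 124)))) (.z 1093 (.t 12 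
(.lf (.thr (.lm 7 44 7 44 8 9 3) (.pot 0) (.pot 0))) (.lf (.low 2))) (.t 12 
(.lf (.thr (.lm 7 45 7 45 8 9 3) (.lf 7 123 0 131) (.pot 0))) (.lf (.low 2))))) (.a 1000 
(.z 1093 (.t 12 (.lf (.thr (.lm 6 46 7 45 8 9 3) (.pot 1) (.pot 0))) (.lf (.low 2))) 
(.lf (.thr (.lm 7 47 8 46 9 11 3) (.lf 8 122 0 131) (.lf 0 131 7 124)))) (.z 1093 (.t 12 
(.lf (.thr (.lm 7 44 7 44 8 9 3) (.pot 0) (.pot 0))) (.lf (.low 2))) (.t 12 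
(.lf (.thr (.lm 7 45 7 45 8 9 3) (.pot 0) (.pot 1))) (.lf (.low 2))))))) (.t 8 
(.lf (.thr (.lm 5 47 5 46 7 8 6) (.pot 0) (.pot 0))) 
(.lf (.thr (.lm 7 47 8 46 9 11 6) (.lf 8 122 0 131) (.lf 0 131 7 123)))))) (.y 1401 
(.lf (.thr (.lm 6 41 7 40 10 11 9) (.lf 7 124 1 130) (.pot 1))) (.z 1096 (.t 8 
(.lf (.thr (.lm 5 41 5 40 7 8 6) (.pot 0) (.pot 0))) (.a 1006 (.y 1404 
(.lf (.thr (.lm 7 43 8 42 9 11 4) (.lf 8 122 0 131) (.pot 1))) (.z 1093 (.t 12 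
(.lf (.thr (.lm 7 43 7 42 8 9 3) (.pot 0) (.pot 0))) (.lf (.low 2))) (.t 12 
(.lf (.thr (.lm 7 44 7 43 8 9 3) (.pot 0) (.pot 0))) (.lf (.low 2))))) (.y 1404 
(.lf (.thr (.lm 7 41 8 40 10 11 5) (.lf 8 122 0 131) (.pot 1))) (.z 1093 (.t 12 
(.lf (.thr (.lm 7 41 7 40 8 9 3) (.pot 0) (.pot 0))) (.lf (.low 2))) (.t 12 
(.lf (.thr (.lm 7 42 7 41 8 9 4) (.pot 0) (.pot 0))) (.lf (.low 2))))))) (.t 8 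
(.lf (.thr (.lm 5 43 5 43 7 8 7) (.pot 0) (.pot 0))) (.a 1006 (.y 1404 
(.lf (.thr (.lm 7 45 8 45 9 11 5) (.lf 8 122 0 131) (.pot 0))) (.z 1099 (.t 12 
(.lf (.thr (.lm 7 45 7 45 8 9 3) (.lf 7 123 0 131) (.pot 0))) (.lf (.low 2))) 
(.lf (.thr (.lm 7 47 8 46 9 11 3) (.lf 8 122 0 131) (.pot 1))))) 
(.lf (.thr (.lm 7 43 8 43 10 11 5) (.lf 8 122 0 131) (.pot 1)))))))) (.lf (.low 2))))) 
(.y 1395 (.z 1091 (.t 16 (.lf (.thr (.lm 6 29 7 28 10 11 12) (.lf 7 124 1 130) (.pot 1))) 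
(.lf (.low 2))) (.t 16 (.lf (.thr (.lm 6 34 7 34 10 11 12) (.lf 7 124 1 130) (.pot 0))) 
(.lf (.low 2)))) (.z 1091 (.t 16 (.a 1016 
(.lf (.thr (.lm 6 32 7 32 10 11 9) (.pot 1) (.pot 1))) 
(.lf (.thr (.lm 6 29 7 28 10 11 9) (.pot 0) (.pot 1)))) (.lf (.low 2))) (.t 16 (.a 1016 
(.y 1401 (.lf (.thr (.lm 6 38 7 37 10 11 9) (.lf 7 124 1 130) (.pot 0))) (.z 1096 (.t 8 
(.lf (.thr (.lm 5 38 5 37 7 8 6) (.pot 0) (.pot 0))) (.y 1404 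
(.lf (.thr (.lm 7 38 8 37 10 11 6) (.lf 8 122 0 131) (.pot 0))) (.a 1013 (.z 1093 
(.lf (.thr (.lm 7 39 8 39 10 11 3) (.pot 0) (.pot 1))) 
(.lf (.thr (.lm 7 40 8 40 10 11 3) (.pot 1) (.pot 1)))) 
(.lf (.thr (.lm 7 38 8 37 10 11 4) (.pot 0) (.pot 1)))))) 
(.lf (.thr (.lm 6 40 7 40 10 11 6) (.lf 7 124 1 130) (.pot 1))))) (.y 1401 
(.lf (.thr (.lm 6 34 7 34 10 11 9) (.lf 7 124 1 130) (.pot 0))) (.z 1096 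
(.lf (.thr (.lm 6 34 7 34 10 11 6) (.pot 0) (.pot 1))) 
(.lf (.thr (.lm 6 37 7 36 10 11 7) (.lf 7 124 1 130) (.pot 0)))))) (.lf (.low 2)))))) (.a 1010 
(.y 1395 (.z 1113 (.t 16 (.lf (.thr (.lm 6 46 7 46 10 11 12) (.lf 7 124 1 130) (.pot 0))) 
(.lf (.low 2))) (.t 16 (.lf (.thr (.lm 6 52 6 51 10 11 13) (.lf 6 124 1 130) (.pot 0))) 
(.lf (.low 2)))) (.z 1113 (.t 16 (.a 1003 
(.lf (.thr (.lm 6 50 7 49 9 11 9) (.lf 7 124 1 130) (.lf 1 130 6 125))) 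
(.lf (.thr (.lm 6 46 7 46 10 11 9) (.lf 7 124 1 130) (.pot 1)))) (.lf (.low 2))) (.t 16 
(.lf (.thr (.lm 6 52 6 51 10 11 13) (.lf 6 124 1 130) (.pot 0))) (.lf (.low 2))))) (.y 1395 
(.z 1113 (.lf (.thr (.lm 9 40 10 39 16 17 12) (.lf 10 121 0 131) (.pot 1))) 
(.lf (.thr (.lm 9 45 9 45 16 17 13) (.lf 9 121 0 131) (.pot 0)))) (.z 1113 (.t 16 
(.lf (.thr (.lm 6 40 7 39 10 11 12) (.lf 7 124 1 130) (.pot 0))) (.lf (.low 2))) (.t 16 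
(.lf (.thr (.lm 6 45 6 45 10 11 13) (.lf 6 124 1 130) (.pot 0))) (.lf (.low 2)))))))

theorem h8 : chk (leafT PP TD0 0 2) c8 0 32 997 1023 1080 1125 1383 1408 = true := by
  decide +kernel

def c9 : Tree :=
  (.z 1102 (.a 1010 (.y 1421 (.z 1091 (.t 16 (.a 1003 (.lf .inf) (.y 1414 (.z 1085 (.lf .inf) 
(.t 8 (.lf (.thr (.lm 5 38 5 37 7 8 7) (.pot 0) (.pot 0))) (.a 1006 (.z 1088 (.lf .inf) 
(.y 1411 (.t 12 (.lf (.thr (.lm 7 41 7 41 8 9 3) (.pot 0) (.pot 0))) (.lf (.low 2))) (.lf .inf))) 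
(.lf (.thr (.lm 7 38 8 37 10 11 5) (.pot 1) (.pot 1)))))) (.lf .inf))) (.lf (.low 2))) (.t 16 
(.a 1003 (.y 1414 (.z 1096 (.t 8 (.lf (.thr (.lm 5 44 5 44 7 8 6) (.pot 0) (.pot 0))) (.a 1000 
(.lf (.thr (.lm 7 46 8 45 9 11 4) (.pot 0) (.lf 0 131 7 124))) (.y 1411 (.z 1093 
(.lf (.thr (.lm 7 45 8 43 9 11 3) (.pot 1) (.lf 0 131 7 123))) (.t 12 
(.lf (.thr (.lm 7 45 7 45 8 9 3) (.pot 1) (.pot 0))) (.lf (.low 2)))) (.lf .inf)))) (.t 8 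
(.lf (.thr (.lm 5 47 5 46 7 8 6) (.pot 0) (.pot 0))) 
(.lf (.thr (.lm 7 47 8 46 9 11 6) (.lf 8 122 0 131) (.lf 0 131 7 123))))) (.lf .inf)) (.y 1414 
(.z 1096 (.t 8 (.lf (.thr (.lm 5 41 5 40 7 8 6) (.pot 0) (.pot 0))) (.a 1006 (.y 1411 (.z 1093 
(.t 12 (.lf (.thr (.lm 7 43 7 42 8 9 3) (.pot 0) (.pot 0))) (.lf (.low 2))) (.t 12 
(.lf (.thr (.lm 7 44 7 43 8 9 3) (.pot 0) (.pot 0))) (.lf (.low 2)))) 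
(.lf (.thr (.lm 7 43 8 42 9 11 4) (.pot 1) (.lf 0 131 7 123)))) (.y 1411 (.z 1093 (.t 12 
(.lf (.thr (.lm 7 41 7 40 8 9 3) (.pot 0) (.pot 0))) (.lf (.low 2))) (.t 12 
(.lf (.thr (.lm 7 42 7 41 8 9 4) (.pot 0) (.pot 0))) (.lf (.low 2)))) (.z 1093 (.t 12 
(.lf (.thr (.lm 7 41 7 40 8 9 3) (.pot 0) (.pot 0))) (.lf (.low 2))) (.t 12 
(.lf (.thr (.lm 7 42 7 41 8 9 4) (.pot 0) (.pot 0))) (.lf (.low 2))))))) (.t 8 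
(.lf (.thr (.lm 5 43 5 43 7 8 7) (.pot 0) (.pot 0))) (.a 1006 (.z 1099 (.y 1411 (.t 12 
(.lf (.thr (.lm 7 45 7 45 8 9 3) (.pot 0) (.pot 1))) (.lf (.low 2))) (.t 12 
(.lf (.thr (.lm 7 45 7 45 8 9 3) (.pot 1) (.pot 0))) (.lf (.low 2)))) 
(.lf (.thr (.lm 7 47 8 46 9 11 3) (.lf 8 122 0 131) (.lf 0 131 7 123)))) (.z 1099 (.y 1411 
(.t 12 (.lf (.thr (.lm 7 43 7 43 8 9 4) (.pot 0) (.pot 0))) (.lf (.low 2))) (.t 12 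
(.lf (.thr (.lm 7 43 7 43 8 9 4) (.pot 0) (.pot 0))) (.lf (.low 2)))) (.y 1411 (.t 12 
(.lf (.thr (.lm 7 45 7 44 8 9 4) (.lf 7 123 0 131) (.pot 0))) (.lf (.low 2))) (.t 12 
(.lf (.thr (.lm 7 45 7 44 8 9 4) (.pot 1) (.pot 1))) (.lf (.low 2)))))))) (.z 1096 (.lf .inf) 
(.t 8 (.lf (.thr (.lm 5 43 5 43 7 8 7) (.pot 0) (.pot 0))) (.a 1006 
(.lf (.thr (.lm 7 45 8 45 9 11 5) (.pot 1) (.lf 0 131 7 123))) (.y 1417 (.z 1099 (.t 12 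
(.lf (.thr (.lm 7 43 7 43 8 9 4) (.pot 0) (.pot 0))) (.lf (.low 2))) (.t 12 
(.lf (.thr (.lm 7 45 7 44 8 9 4) (.pot 1) (.pot 1))) (.lf (.low 2)))) (.lf .inf))))))) 
(.lf (.low 2)))) (.lf .inf)) (.y 1421 (.z 1091 (.t 16 (.a 1016 
(.lf (.thr (.lm 6 32 7 32 10 11 9) (.pot 1) (.pot 1))) 
(.lf (.thr (.lm 6 29 7 28 10 11 9) (.pot 1) (.pot 1)))) (.lf (.low 2))) (.t 16 (.a 1016 
(.y 1414 (.z 1096 (.t 8 (.lf (.thr (.lm 5 38 5 37 7 8 6) (.pot 0) (.pot 0))) (.a 1013 (.y 1411 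
(.z 1093 (.lf (.thr (.lm 7 39 8 39 10 11 3) (.pot 0) (.pot 1))) 
(.lf (.thr (.lm 7 40 8 40 10 11 3) (.pot 1) (.pot 1)))) (.z 1093 
(.lf (.thr (.lm 7 39 8 39 10 11 3) (.pot 1) (.pot 0))) 
(.lf (.thr (.lm 7 40 8 40 10 11 3) (.pot 1) (.pot 1))))) 
(.lf (.thr (.lm 7 38 8 37 10 11 4) (.pot 1) (.pot 1))))) (.t 8 
(.lf (.thr (.lm 5 40 5 40 7 8 6) (.pot 0) (.pot 0))) (.a 1013 (.z 1099 (.y 1411 (.t 12 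
(.lf (.thr (.lm 7 42 7 41 8 9 3) (.pot 0) (.pot 0))) (.lf (.low 2))) (.t 12 
(.lf (.thr (.lm 7 42 7 41 8 9 3) (.pot 0) (.pot 0))) (.lf (.low 2)))) (.y 1411 
(.lf (.thr (.lm 7 43 8 43 10 11 3) (.lf 8 122 0 131) (.pot 1))) (.t 12 
(.lf (.thr (.lm 7 43 7 43 8 9 3) (.pot 0) (.pot 0))) (.lf (.low 2))))) (.z 1099 (.y 1411 
(.lf (.thr (.lm 7 40 8 40 10 11 3) (.lf 8 122 0 131) (.pot 1))) (.t 12 
(.lf (.thr (.lm 7 40 7 40 8 9 3) (.pot 0) (.pot 0))) (.lf (.low 2)))) (.y 1411 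
(.lf (.thr (.lm 7 42 8 41 10 11 3) (.lf 8 122 0 131) (.pot 0))) (.t 12 
(.lf (.thr (.lm 7 42 7 41 8 9 3) (.pot 0) (.pot 0))) (.lf (.low 2)))))))) (.z 1096 (.t 8 
(.lf (.thr (.lm 5 38 5 37 7 8 6) (.pot 0) (.pot 0))) (.y 1417 (.a 1013 (.z 1093 (.lf .inf) 
(.lf (.thr (.lm 7 40 8 40 10 11 3) (.pot 1) (.pot 1)))) 
(.lf (.thr (.lm 7 38 8 37 10 11 4) (.pot 1) (.pot 1)))) (.lf .inf))) (.t 8 
(.lf (.thr (.lm 5 40 5 40 7 8 6) (.pot 0) (.pot 0))) (.y 1417 (.a 1013 (.z 1099 (.t 12 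
(.lf (.thr (.lm 7 42 7 41 8 9 3) (.pot 0) (.pot 0))) (.lf (.low 2))) (.t 12 
(.lf (.thr (.lm 7 43 7 43 8 9 3) (.pot 0) (.pot 0))) (.lf (.low 2)))) (.z 1099 (.t 12 
(.lf (.thr (.lm 7 40 7 40 8 9 3) (.pot 0) (.pot 0))) (.lf (.low 2))) (.t 12 
(.lf (.thr (.lm 7 42 7 41 8 9 3) (.pot 0) (.pot 0))) (.lf (.low 2))))) (.a 1013 (.z 1099 
(.lf .inf) (.t 12 (.lf (.thr (.lm 7 43 7 43 8 9 3) (.pot 0) (.pot 0))) (.lf (.low 2)))) 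
(.z 1099 (.t 12 (.lf (.thr (.lm 7 40 7 40 8 9 3) (.pot 0) (.pot 0))) (.lf (.low 2))) (.t 12 
(.lf (.thr (.lm 7 42 7 41 8 9 3) (.pot 0) (.pot 0))) (.lf (.low 2))))))))) (.y 1414 (.z 1096 
(.lf (.thr (.lm 6 34 7 34 10 11 6) (.pot 0) (.pot 1))) (.t 8 
(.lf (.thr (.lm 5 37 5 36 7 8 7) (.pot 0) (.pot 0))) (.a 1019 (.z 1099 
(.lf (.thr (.lm 7 39 8 38 10 11 3) (.pot 0) (.pot 1))) 
(.lf (.thr (.lm 7 40 8 40 10 11 3) (.lf 8 122 0 131) (.pot 1)))) 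
(.lf (.thr (.lm 8 37 8 36 10 11 5) (.pot 0) (.pot 1)))))) (.z 1096 
(.lf (.thr (.lm 6 34 7 34 10 11 6) (.pot 1) (.pot 1))) (.t 8 
(.lf (.thr (.lm 5 37 5 36 7 8 7) (.pot 0) (.pot 0))) (.a 1019 (.y 1417 (.z 1099 
(.lf (.thr (.lm 7 39 8 38 10 11 3) (.pot 1) (.pot 1))) (.t 12 
(.lf (.thr (.lm 7 40 7 40 9 9 3) (.pot 0) (.pot 0))) (.lf (.low 2)))) (.z 1099 
(.lf (.thr (.lm 7 39 8 38 10 11 3) (.pot 1) (.pot 1))) (.t 12 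
(.lf (.thr (.lm 7 40 7 40 9 9 3) (.pot 0) (.pot 0))) (.lf (.low 2))))) 
(.lf (.thr (.lm 8 37 8 36 10 11 5) (.pot 1) (.pot 1)))))))) (.lf (.low 2)))) (.z 1091 
(.lf .inf) (.t 16 (.a 1016 (.lf .inf) (.y 1427 (.z 1096 (.lf .inf) (.t 8 
(.lf (.thr (.lm 5 37 5 36 7 8 7) (.pot 0) (.pot 0))) (.a 1019 (.lf .inf) 
(.lf (.thr (.lm 8 37 8 36 10 11 5) (.pot 1) (.pot 1)))))) (.lf .inf))) (.lf (.low 2)))))) 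
(.a 1010 (.y 1421 (.z 1113 (.t 16 (.a 1003 
(.lf (.thr (.lm 6 50 7 49 9 11 9) (.lf 7 124 0 130) (.lf 0 130 6 125))) (.y 1414 (.z 1107 
(.t 8 (.lf (.thr (.lm 5 46 5 46 7 8 6) (.pot 0) (.pot 0))) (.a 1006 
(.lf (.thr (.lm 7 48 8 48 9 11 4) (.lf 8 122 0 131) (.lf 0 131 7 123))) (.y 1411 
(.lf (.thr (.lm 7 46 8 46 10 11 5) (.lf 8 122 0 131) (.pot 1))) (.z 1104 (.t 12 
(.lf (.thr (.lm 7 46 7 46 8 9 3) (.lf 7 123 0 131) (.pot 0))) (.lf (.low 2))) 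
(.lf (.thr (.lm 7 47 8 47 10 11 4) (.lf 8 122 0 131) (.lf 0 131 7 123))))))) 
(.lf (.thr (.lm 6 49 7 48 10 11 7) (.lf 7 124 0 130) (.lf 0 130 6 125)))) (.z 1107 (.t 8 
(.lf (.thr (.lm 5 46 5 46 7 8 6) (.pot 0) (.pot 0))) (.a 1006 
(.lf (.thr (.lm 7 48 8 48 9 11 4) (.lf 8 122 0 131) (.lf 0 131 7 123))) 
(.lf (.thr (.lm 7 46 8 46 10 11 5) (.lf 8 122 0 131) (.lf 0 131 7 123))))) 
(.lf (.thr (.lm 6 49 7 48 10 11 7) (.lf 7 124 0 130) (.lf 0 130 6 125)))))) (.lf (.low 2))) 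
(.t 16 (.lf (.thr (.lm 6 52 6 51 10 11 13) (.lf 6 124 0 130) (.lf 0 130 6 125))) (.lf (.low 2)))) 
(.z 1113 (.t 16 (.a 1003 (.lf .inf) (.y 1427 (.z 1107 (.lf .inf) 
(.lf (.thr (.lm 6 49 7 48 10 11 7) (.lf 7 124 0 130) (.lf 0 130 6 125)))) (.lf .inf))) 
(.lf (.low 2))) (.t 16 
(.lf (.thr (.lm 6 52 6 51 10 11 13) (.lf 6 124 0 130) (.lf 0 130 6 125))) (.lf (.low 2))))) 
(.y 1421 (.z 1113 (.t 16 (.a 1016 (.y 1414 (.z 1107 (.t 8 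
(.lf (.thr (.lm 5 43 5 43 7 8 6) (.pot 0) (.pot 0))) (.a 1013 (.y 1411 
(.lf (.thr (.lm 7 45 8 44 10 11 4) (.lf 8 122 0 131) (.pot 0))) (.z 1104 (.t 12 
(.lf (.thr (.lm 7 45 7 44 8 9 3) (.pot 1) (.pot 0))) (.lf (.low 2))) 
(.lf (.thr (.lm 7 46 8 45 10 11 3) (.lf 8 122 0 131) (.pot 1))))) 
(.lf (.thr (.lm 7 43 8 43 10 11 4) (.lf 8 122 0 131) (.pot 1))))) 
(.lf (.thr (.lm 6 46 7 45 10 11 6) (.lf 7 124 0 130) (.pot 0)))) (.z 1107 (.t 8 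
(.lf (.thr (.lm 5 43 5 43 7 8 6) (.pot 0) (.pot 0))) (.y 1417 (.a 1013 (.z 1104 (.t 12 
(.lf (.thr (.lm 7 45 7 44 8 9 3) (.pot 1) (.pot 0))) (.lf (.low 2))) (.t 12 
(.lf (.thr (.lm 7 46 7 45 8 9 3) (.lf 7 123 0 131) (.pot 0))) (.lf (.low 2)))) (.z 1104 (.t 12 
(.lf (.thr (.lm 7 43 7 43 8 9 3) (.pot 0) (.pot 0))) (.lf (.low 2))) (.t 12 
(.lf (.thr (.lm 7 44 7 44 8 9 3) (.pot 1) (.pot 0))) (.lf (.low 2))))) (.a 1013 (.z 1104 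
(.t 12 (.lf (.thr (.lm 7 45 7 44 8 9 3) (.pot 1) (.pot 0))) (.lf (.low 2))) (.t 12 
(.lf (.thr (.lm 7 46 7 45 8 9 3) (.pot 1) (.lf 0 131 7 124))) (.lf (.low 2)))) (.z 1104 (.t 12 
(.lf (.thr (.lm 7 43 7 43 8 9 3) (.pot 0) (.pot 0))) (.lf (.low 2))) (.t 12 
(.lf (.thr (.lm 7 44 7 44 8 9 3) (.pot 1) (.pot 0))) (.lf (.low 2))))))) (.t 8 
(.lf (.thr (.lm 5 46 5 45 7 8 6) (.pot 0) (.pot 0))) (.y 1417 (.a 1013 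
(.lf (.thr (.lm 7 47 8 47 10 11 5) (.lf 8 123 0 131) (.lf 0 131 7 123))) 
(.lf (.thr (.lm 7 46 8 45 10 11 5) (.lf 8 123 0 131) (.pot 1)))) (.a 1013 
(.lf (.thr (.lm 7 47 8 47 10 11 5) (.lf 8 123 0 131) (.lf 0 131 7 123))) (.z 1110 (.t 12 
(.lf (.thr (.lm 7 46 7 45 8 9 3) (.lf 7 123 0 131) (.pot 0))) (.lf (.low 2))) 
(.lf (.thr (.lm 7 47 8 47 10 11 3) (.lf 8 123 0 131) (.lf 0 131 7 123))))))))) (.y 1414 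
(.lf (.thr (.lm 6 40 7 39 10 11 9) (.lf 7 124 0 130) (.pot 1))) (.z 1107 (.t 8 
(.lf (.thr (.lm 5 40 5 39 7 8 6) (.pot 0) (.pot 0))) (.a 1019 (.y 1417 (.z 1104 (.t 12 
(.lf (.thr (.lm 7 42 7 41 9 9 3) (.pot 0) (.pot 0))) (.lf (.low 2))) 
(.lf (.thr (.lm 7 43 8 42 10 11 3) (.lf 8 122 0 131) (.pot 1)))) (.z 1104 (.t 12 
(.lf (.thr (.lm 7 42 7 41 9 9 3) (.pot 0) (.pot 0))) (.lf (.low 2))) (.t 12 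
(.lf (.thr (.lm 7 43 7 42 9 9 3) (.pot 0) (.pot 0))) (.lf (.low 2))))) (.y 1417 
(.lf (.thr (.lm 8 40 8 39 10 11 5) (.lf 8 122 0 131) (.pot 1))) (.z 1104 
(.lf (.thr (.lm 8 40 8 39 10 11 3) (.pot 1) (.pot 1))) (.t 12 
(.lf (.thr (.lm 7 41 7 40 9 9 4) (.pot 0) (.pot 0))) (.lf (.low 2))))))) (.t 8 
(.lf (.thr (.lm 5 42 5 42 7 8 7) (.pot 0) (.pot 0))) (.a 1019 (.y 1417 
(.lf (.thr (.lm 7 44 8 44 10 11 5) (.lf 8 123 0 131) (.pot 0))) (.z 1110 (.t 12 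
(.lf (.thr (.lm 7 44 7 44 9 9 3) (.lf 7 123 0 131) (.pot 0))) (.lf (.low 2))) (.t 12 
(.lf (.thr (.lm 7 46 7 45 9 9 3) (.lf 7 123 0 131) (.pot 0))) (.lf (.low 2))))) (.y 1417 
(.lf (.thr (.lm 8 42 8 42 10 11 5) (.lf 8 123 0 131) (.pot 0))) (.z 1110 (.t 12 
(.lf (.thr (.lm 7 42 7 42 9 9 4) (.pot 0) (.pot 0))) (.lf (.low 2))) 
(.lf (.thr (.lm 8 44 8 43 10 11 4) (.lf 8 123 0 131) (.pot 1)))))))))) (.lf (.low 2))) (.t 16 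
(.a 1016 (.lf (.thr (.lm 6 49 6 48 10 11 9) (.lf 6 124 0 130) (.lf 0 130 6 124))) (.y 1414 
(.lf (.thr (.lm 6 45 6 45 10 11 10) (.lf 6 124 0 130) (.pot 0))) (.z 1119 (.t 8 
(.lf (.thr (.lm 5 45 5 45 7 8 7) (.pot 0) (.pot 0))) 
(.lf (.thr (.lm 8 45 8 45 10 11 7) (.lf 8 123 0 131) (.pot 0)))) 
(.lf (.thr (.lm 6 48 6 48 10 10 7) (.lf 6 124 0 130) (.pot 0)))))) (.lf (.low 2)))) (.z 1113 
(.t 16 (.a 1016 (.y 1427 (.z 1107 (.t 8 (.lf (.thr (.lm 5 43 5 43 7 8 6) (.pot 0) (.pot 0))) 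
(.a 1013 (.lf .inf) (.y 1424 (.z 1104 (.lf .inf) (.t 12 
(.lf (.thr (.lm 7 44 7 44 8 9 3) (.pot 1) (.pot 0))) (.lf (.low 2)))) (.lf .inf)))) (.t 8 
(.lf (.thr (.lm 5 46 5 45 7 8 6) (.pot 0) (.pot 0))) (.a 1013 
(.lf (.thr (.lm 7 47 8 47 10 11 5) (.lf 8 123 0 131) (.lf 0 131 7 123))) (.z 1110 (.y 1424 
(.t 12 (.lf (.thr (.lm 7 46 7 45 8 9 3) (.pot 0) (.lf 0 131 7 124))) (.lf (.low 2))) (.lf .inf)) 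
(.lf (.thr (.lm 7 47 8 47 10 11 3) (.lf 8 123 0 131) (.lf 0 131 7 123))))))) (.lf .inf)) 
(.y 1427 (.z 1107 (.t 8 (.lf (.thr (.lm 5 40 5 39 7 8 6) (.pot 0) (.pot 0))) (.a 1019 (.y 1424 
(.z 1104 (.t 12 (.lf (.thr (.lm 7 42 7 41 9 9 3) (.pot 0) (.pot 0))) (.lf (.low 2))) (.t 12 
(.lf (.thr (.lm 7 43 7 42 9 9 3) (.pot 0) (.pot 0))) (.lf (.low 2)))) (.lf .inf)) (.y 1424 
(.z 1104 (.lf (.thr (.lm 8 40 8 39 10 11 3) (.pot 1) (.pot 1))) (.t 12 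
(.lf (.thr (.lm 7 41 7 40 9 9 4) (.pot 0) (.pot 0))) (.lf (.low 2)))) (.z 1104 (.lf .inf) 
(.t 12 (.lf (.thr (.lm 7 41 7 40 9 9 4) (.pot 0) (.pot 0))) (.lf (.low 2))))))) (.t 8 
(.lf (.thr (.lm 5 42 5 42 7 8 7) (.pot 0) (.pot 0))) (.a 1019 (.z 1110 (.y 1424 (.t 12 
(.lf (.thr (.lm 7 44 7 44 9 9 3) (.pot 1) (.pot 0))) (.lf (.low 2))) (.t 12 
(.lf (.thr (.lm 7 44 7 44 9 9 3) (.pot 1) (.pot 0))) (.lf (.low 2)))) (.y 1424 (.t 12 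
(.lf (.thr (.lm 7 46 7 45 9 9 3) (.lf 7 123 0 131) (.pot 0))) (.lf (.low 2))) (.t 12 
(.lf (.thr (.lm 7 46 7 45 9 9 3) (.pot 0) (.lf 0 131 7 124))) (.lf (.low 2))))) (.z 1110 
(.y 1424 (.t 12 (.lf (.thr (.lm 7 42 7 42 9 9 4) (.pot 0) (.pot 0))) (.lf (.low 2))) (.t 12 
(.lf (.thr (.lm 7 42 7 42 9 9 4) (.pot 0) (.pot 0))) (.lf (.low 2)))) (.y 1424 (.t 12 
(.lf (.thr (.lm 7 44 7 43 9 9 4) (.lf 7 123 0 131) (.pot 0))) (.lf (.low 2))) (.t 12 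
(.lf (.thr (.lm 7 44 7 43 9 9 4) (.pot 1) (.pot 0))) (.lf (.low 2)))))))) (.z 1107 (.lf .inf) 
(.t 8 (.lf (.thr (.lm 5 42 5 42 7 8 7) (.pot 0) (.pot 0))) (.a 1019 (.lf .inf) (.y 1430 
(.z 1110 (.lf .inf) (.t 12 (.lf (.thr (.lm 7 44 7 43 9 9 4) (.pot 1) (.pot 0))) (.lf (.low 2)))) 
(.lf .inf))))))) (.lf (.low 2))) (.t 16 (.a 1016 
(.lf (.thr (.lm 6 49 6 48 10 11 9) (.lf 6 124 0 130) (.lf 0 130 6 124))) (.y 1427 (.z 1119 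
(.t 8 (.lf (.thr (.lm 5 45 5 45 7 8 7) (.pot 0) (.pot 0))) (.a 1019 
(.lf (.thr (.lm 7 47 8 47 10 11 5) (.lf 8 123 0 131) (.lf 0 131 7 123))) (.z 1116 (.y 1424 
(.t 12 (.lf (.thr (.lm 7 45 7 45 9 9 4) (.lf 7 123 0 131) (.pot 0))) (.lf (.low 2))) (.t 12 
(.lf (.thr (.lm 7 45 7 45 9 9 4) (.lf 7 123 0 131) (.pot 0))) (.lf (.low 2)))) 
(.lf (.thr (.lm 8 47 8 46 10 10 4) (.lf 8 123 0 131) (.lf 0 131 8 123)))))) 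
(.lf (.thr (.lm 6 48 6 48 10 10 7) (.lf 6 124 0 130) (.lf 0 130 6 124)))) (.z 1119 (.t 8 
(.lf (.thr (.lm 5 45 5 45 7 8 7) (.pot 0) (.pot 0))) (.a 1019 
(.lf (.thr (.lm 7 47 8 47 10 11 5) (.lf 8 123 0 131) (.lf 0 131 7 123))) (.y 1430 (.z 1116 
(.t 12 (.lf (.thr (.lm 7 45 7 45 9 9 4) (.pot 1) (.lf 0 131 7 124))) (.lf (.low 2))) 
(.lf (.thr (.lm 8 47 8 46 10 10 4) (.lf 8 123 0 131) (.lf 0 131 8 123)))) (.z 1116 (.lf .inf) 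
(.lf (.thr (.lm 8 47 8 46 10 10 4) (.lf 8 123 0 131) (.lf 0 131 8 123))))))) 
(.lf (.thr (.lm 6 48 6 48 10 10 7) (.lf 6 124 0 130) (.lf 0 130 6 124)))))) (.lf (.low 2)))))))

theorem h9 : chk (leafT PP TD0 0 2) c9 0 32 997 1023 1080 1125 1408 1434 = true := by
  decide +kernel

def c10 : Tree :=
  (.a 972 (.lf .inf) (.a 997 (.lf .inf) (.y 1459 (.z 1102 (.lf .inf) (.a 1010 (.lf .inf) 
(.y 1446 (.z 1113 (.lf .inf) (.t 16 (.a 1016 (.lf .inf) (.z 1119 (.lf .inf) 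
(.lf (.thr (.lm 6 48 6 48 10 10 7) (.lf 6 124 0 130) (.lf 0 130 6 124))))) (.lf (.low 2)))) 
(.lf .inf)))) (.lf .inf))))

theorem h10 : chk (leafT PP TD0 0 2) c10 0 32 922 1023 1080 1125 1434 1485 = true := by
  decide +kernel

def c11 : Tree :=
  (.a 1074 (.y 1332 (.lf .inf) (.a 1048 (.y 1357 (.lf .inf) (.z 1102 (.y 1370 (.lf .inf) 
(.a 1035 (.lf (.thr (.lm 9 23 10 22 16 17 17) (.lf 10 121 0 131) (.pot 1))) (.lf .inf))) 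
(.lf (.thr (.lm 9 27 9 27 17 17 24) (.lf 9 111 0 121) (.pot 0))))) (.lf .inf))) (.lf .inf))

theorem h11 : chk (leafT PP TD0 0 2) c11 0 32 1023 1125 1080 1125 1282 1383 = true := by
  decide +kernel

def c12 : Tree :=
  (.y 1434 (.a 1048 (.y 1408 (.z 1102 (.a 1035 (.y 1395 (.z 1091 (.t 16 
(.lf (.thr (.lm 6 23 7 22 10 11 12) (.pot 0) (.pot 1))) (.lf (.low 2))) (.t 16 
(.lf (.thr (.lm 6 28 7 28 10 11 12) (.lf 7 124 1 130) (.pot 0))) (.lf (.low 2)))) (.z 1091 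
(.t 16 (.lf (.thr (.lm 6 23 7 22 10 11 12) (.pot 0) (.pot 1))) (.lf (.low 2))) (.t 16 (.y 1401 
(.lf (.thr (.lm 6 28 7 28 10 11 12) (.lf 7 124 1 130) (.pot 0))) (.a 1029 
(.lf (.thr (.lm 6 31 7 31 10 11 9) (.pot 0) (.pot 1))) 
(.lf (.thr (.lm 6 28 7 28 10 11 9) (.pot 0) (.pot 1))))) (.lf (.low 2))))) (.y 1395 (.z 1091 
(.t 16 (.lf (.thr (.lm 6 16 7 16 11 11 12) (.pot 0) (.pot 1))) (.lf (.low 2))) 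
(.lf (.thr (.lm 9 22 10 21 17 17 12) (.lf 10 121 0 131) (.pot 1)))) (.z 1091 (.t 16 
(.lf (.thr (.lm 6 16 7 16 11 11 12) (.pot 0) (.pot 1))) (.lf (.low 2))) (.t 16 
(.lf (.thr (.lm 6 22 7 21 11 11 12) (.pot 0) (.pot 1))) (.lf (.low 2)))))) (.a 1035 (.y 1395 
(.lf (.thr (.lm 9 34 9 33 16 17 18) (.lf 9 121 0 131) (.pot 0))) (.z 1113 (.t 16 
(.lf (.thr (.lm 6 34 7 33 10 11 12) (.lf 7 124 1 130) (.pot 0))) (.lf (.low 2))) (.t 16 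
(.lf (.thr (.lm 6 39 6 39 10 11 12) (.lf 6 124 1 130) (.pot 0))) (.lf (.low 2))))) (.y 1395 
(.lf (.thr (.lm 9 27 9 27 17 17 18) (.lf 9 121 0 131) (.pot 0))) (.z 1113 (.t 16 
(.lf (.thr (.lm 6 27 7 27 11 11 12) (.lf 7 124 1 130) (.pot 0))) (.lf (.low 2))) 
(.lf (.thr (.lm 9 32 9 33 17 17 13) (.lf 9 121 0 131) (.pot 0))))))) (.z 1102 (.y 1421 
(.a 1035 (.z 1091 (.t 16 (.lf (.thr (.lm 6 23 7 22 10 11 12) (.pot 0) (.pot 1))) (.lf (.low 2))) 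
(.t 16 (.y 1414 (.a 1029 (.lf (.thr (.lm 6 31 7 31 10 11 9) (.pot 1) (.pot 1))) 
(.lf (.thr (.lm 6 28 7 28 10 11 9) (.pot 0) (.pot 1)))) (.a 1029 
(.lf (.thr (.lm 6 31 7 31 10 11 9) (.pot 1) (.pot 1))) 
(.lf (.thr (.lm 6 28 7 28 10 11 9) (.pot 0) (.pot 1))))) (.lf (.low 2)))) (.z 1091 (.t 16 
(.lf (.thr (.lm 6 16 7 16 11 11 12) (.pot 1) (.pot 0))) (.lf (.low 2))) (.t 16 
(.lf (.thr (.lm 6 22 7 21 11 11 12) (.pot 0) (.pot 1))) (.lf (.low 2))))) (.a 1035 (.z 1091 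
(.t 16 (.lf (.thr (.lm 6 23 7 22 10 11 12) (.pot 1) (.pot 0))) (.lf (.low 2))) (.t 16 (.y 1427 
(.a 1029 (.lf (.thr (.lm 6 31 7 31 10 11 9) (.pot 1) (.pot 1))) 
(.lf (.thr (.lm 6 28 7 28 10 11 9) (.pot 1) (.pot 0)))) (.a 1029 (.lf .inf) 
(.lf (.thr (.lm 6 28 7 28 10 11 9) (.pot 1) (.pot 0))))) (.lf (.low 2)))) (.z 1091 (.t 16 
(.lf (.thr (.lm 6 16 7 16 11 11 12) (.pot 1) (.pot 0))) (.lf (.low 2))) (.t 16 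
(.lf (.thr (.lm 6 22 7 21 11 11 12) (.pot 1) (.pot 1))) (.lf (.low 2)))))) (.y 1421 (.a 1035 
(.z 1113 (.t 16 (.y 1414 (.lf (.thr (.lm 6 34 7 33 10 11 12) (.lf 7 124 0 130) (.pot 1))) 
(.a 1029 (.z 1107 (.t 8 (.lf (.thr (.lm 5 37 5 36 7 8 6) (.pot 0) (.pot 0))) (.y 1417 
(.lf (.thr (.lm 8 37 8 36 10 11 6) (.lf 8 122 0 131) (.pot 1))) (.a 1026 
(.lf (.thr (.lm 8 38 8 38 10 11 4) (.pot 1) (.pot 1))) 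
(.lf (.thr (.lm 8 37 8 36 10 11 4) (.pot 0) (.pot 1)))))) (.t 8 
(.lf (.thr (.lm 5 39 5 39 7 8 6) (.pot 0) (.pot 0))) 
(.lf (.thr (.lm 8 39 8 39 10 11 6) (.lf 8 123 0 131) (.pot 1))))) (.z 1107 
(.lf (.thr (.lm 6 34 7 33 10 11 6) (.pot 0) (.pot 1))) 
(.lf (.thr (.lm 6 36 7 36 10 11 6) (.lf 7 124 0 130) (.pot 1)))))) (.lf (.low 2))) (.t 16 
(.lf (.thr (.lm 6 39 6 39 10 11 12) (.lf 6 124 0 130) (.pot 0))) (.lf (.low 2)))) (.z 1113 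
(.t 16 (.a 1041 (.lf (.thr (.lm 6 31 7 30 10 11 9) (.pot 0) (.pot 1))) 
(.lf (.thr (.lm 6 27 7 27 11 11 9) (.pot 0) (.pot 1)))) (.lf (.low 2))) (.t 16 
(.lf (.thr (.lm 6 32 6 33 11 11 13) (.lf 6 124 0 130) (.pot 0))) (.lf (.low 2))))) (.a 1035 
(.z 1113 (.t 16 (.y 1427 (.a 1029 (.z 1107 (.t 8 
(.lf (.thr (.lm 5 37 5 36 7 8 6) (.pot 0) (.pot 0))) (.a 1026 
(.lf (.thr (.lm 8 38 8 38 10 11 4) (.pot 1) (.pot 1))) 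
(.lf (.thr (.lm 8 37 8 36 10 11 4) (.pot 0) (.pot 1))))) (.t 8 
(.lf (.thr (.lm 5 39 5 39 7 8 6) (.pot 0) (.pot 0))) (.a 1026 (.z 1110 (.y 1424 (.t 12 
(.lf (.thr (.lm 7 41 7 40 9 9 3) (.pot 0) (.pot 0))) (.lf (.low 2))) (.t 12 
(.lf (.thr (.lm 7 41 7 40 9 9 3) (.pot 0) (.pot 0))) (.lf (.low 2)))) (.y 1424 (.t 12 
(.lf (.thr (.lm 7 42 7 42 9 9 3) (.pot 0) (.pot 0))) (.lf (.low 2))) (.t 12 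
(.lf (.thr (.lm 7 42 7 42 9 9 3) (.pot 0) (.pot 0))) (.lf (.low 2))))) (.z 1110 
(.lf (.thr (.lm 8 39 8 39 10 11 3) (.pot 1) (.pot 1))) (.y 1424 
(.lf (.thr (.lm 8 41 8 40 10 11 3) (.lf 8 123 0 131) (.pot 1))) (.t 12 
(.lf (.thr (.lm 7 41 7 40 9 9 3) (.pot 0) (.pot 0))) (.lf (.low 2)))))))) (.z 1107 
(.lf (.thr (.lm 6 34 7 33 10 11 6) (.pot 0) (.pot 1))) (.t 8 
(.lf (.thr (.lm 5 36 5 36 7 8 6) (.pot 0) (.pot 0))) (.a 1032 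
(.lf (.thr (.lm 8 38 8 37 10 11 5) (.pot 1) (.pot 1))) 
(.lf (.thr (.lm 8 36 8 36 10 11 5) (.pot 0) (.pot 1))))))) (.a 1029 (.z 1107 (.t 8 
(.lf (.thr (.lm 5 37 5 36 7 8 6) (.pot 0) (.pot 0))) (.y 1430 (.a 1026 (.lf .inf) 
(.lf (.thr (.lm 8 37 8 36 10 11 4) (.pot 1) (.pot 0)))) (.lf .inf))) (.t 8 
(.lf (.thr (.lm 5 39 5 39 7 8 6) (.pot 0) (.pot 0))) (.y 1430 (.a 1026 (.z 1110 (.t 12 
(.lf (.thr (.lm 7 41 7 40 9 9 3) (.pot 0) (.pot 0))) (.lf (.low 2))) (.t 12 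
(.lf (.thr (.lm 7 42 7 42 9 9 3) (.pot 0) (.pot 0))) (.lf (.low 2)))) (.z 1110 
(.lf (.thr (.lm 8 39 8 39 10 11 3) (.pot 1) (.pot 1))) (.t 12 
(.lf (.thr (.lm 7 41 7 40 9 9 3) (.pot 0) (.pot 0))) (.lf (.low 2))))) (.a 1026 (.lf .inf) 
(.z 1110 (.lf .inf) (.t 12 (.lf (.thr (.lm 7 41 7 40 9 9 3) (.pot 0) (.pot 0))) (.lf (.low 2)))))))) 
(.z 1107 (.lf (.thr (.lm 6 34 7 33 10 11 6) (.pot 1) (.pot 0))) (.t 8 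
(.lf (.thr (.lm 5 36 5 36 7 8 6) (.pot 0) (.pot 0))) (.y 1430 (.a 1032 
(.lf (.thr (.lm 8 38 8 37 10 11 5) (.pot 1) (.pot 1))) 
(.lf (.thr (.lm 8 36 8 36 10 11 5) (.pot 0) (.pot 1)))) (.a 1032 
(.lf (.thr (.lm 8 38 8 37 10 11 5) (.pot 1) (.pot 1))) 
(.lf (.thr (.lm 8 36 8 36 10 11 5) (.pot 1) (.pot 1))))))))) (.lf (.low 2))) (.t 16 (.y 1427 
(.a 1029 (.z 1119 (.t 8 (.lf (.thr (.lm 5 42 5 42 7 8 6) (.pot 0) (.pot 0))) (.a 1026 (.z 1116 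
(.y 1424 (.lf (.thr (.lm 8 44 8 43 10 11 3) (.lf 8 123 0 131) (.pot 0))) (.t 12 
(.lf (.thr (.lm 7 44 7 43 9 9 3) (.pot 0) (.pot 0))) (.lf (.low 2)))) 
(.lf (.thr (.lm 8 45 8 45 10 10 3) (.lf 8 123 0 131) (.pot 1)))) (.z 1116 
(.lf (.thr (.lm 8 42 8 42 10 11 3) (.lf 8 123 0 131) (.pot 1))) 
(.lf (.thr (.lm 8 44 8 43 10 10 3) (.lf 8 123 0 131) (.pot 0)))))) 
(.lf (.thr (.lm 6 45 6 45 10 10 6) (.lf 6 124 0 130) (.pot 1)))) (.z 1119 (.t 8 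
(.lf (.thr (.lm 5 39 5 39 7 8 6) (.pot 0) (.pot 0))) 
(.lf (.thr (.lm 8 39 8 39 10 11 6) (.lf 8 123 0 131) (.pot 1)))) 
(.lf (.thr (.lm 6 42 6 42 10 10 6) (.lf 6 124 0 130) (.pot 0))))) (.a 1029 (.z 1119 (.t 8 
(.lf (.thr (.lm 5 42 5 42 7 8 6) (.pot 0) (.pot 0))) (.y 1430 (.a 1026 (.z 1116 (.t 12 
(.lf (.thr (.lm 7 44 7 43 9 9 3) (.pot 0) (.pot 0))) (.lf (.low 2))) (.t 12 
(.lf (.thr (.lm 7 45 7 45 9 9 3) (.lf 7 123 0 131) (.pot 0))) (.lf (.low 2)))) (.z 1116 (.t 12 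
(.lf (.thr (.lm 7 42 7 42 9 9 3) (.pot 0) (.pot 0))) (.lf (.low 2))) (.t 12 
(.lf (.thr (.lm 7 44 7 43 9 9 3) (.pot 1) (.pot 0))) (.lf (.low 2))))) (.a 1026 (.z 1116 
(.t 12 (.lf (.thr (.lm 7 44 7 43 9 9 3) (.pot 0) (.pot 0))) (.lf (.low 2))) (.t 12 
(.lf (.thr (.lm 7 45 7 45 9 9 3) (.pot 1) (.pot 1))) (.lf (.low 2)))) (.z 1116 (.t 12 
(.lf (.thr (.lm 7 42 7 42 9 9 3) (.pot 0) (.pot 0))) (.lf (.low 2))) (.t 12 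
(.lf (.thr (.lm 7 44 7 43 9 9 3) (.pot 1) (.pot 0))) (.lf (.low 2))))))) (.t 8 
(.lf (.thr (.lm 5 45 5 45 7 7 6) (.pot 0) (.pot 0))) (.y 1430 (.a 1026 
(.lf (.thr (.lm 8 47 8 46 10 10 5) (.lf 8 123 0 131) (.lf 0 131 8 123))) 
(.lf (.thr (.lm 8 45 8 45 10 10 5) (.lf 8 123 0 131) (.pot 1)))) (.a 1026 
(.lf (.thr (.lm 8 47 8 46 10 10 5) (.lf 8 123 0 131) (.lf 0 131 8 123))) (.z 1122 (.t 12 
(.lf (.thr (.lm 7 45 7 45 9 9 3) (.pot 1) (.pot 1))) (.lf (.low 2))) 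
(.lf (.thr (.lm 8 47 8 46 10 10 3) (.lf 8 123 0 131) (.lf 0 131 8 123)))))))) (.z 1119 (.t 8 
(.lf (.thr (.lm 5 39 5 39 7 8 6) (.pot 0) (.pot 0))) (.y 1430 (.a 1032 (.z 1116 (.t 12 
(.lf (.thr (.lm 7 41 7 40 9 9 3) (.pot 0) (.pot 0))) (.lf (.low 2))) 
(.lf (.thr (.lm 8 42 8 42 10 10 3) (.lf 8 123 0 131) (.pot 1)))) (.z 1116 
(.lf (.thr (.lm 8 39 8 39 10 11 3) (.pot 1) (.pot 1))) 
(.lf (.thr (.lm 8 41 8 40 10 10 3) (.lf 8 123 0 131) (.pot 1))))) (.a 1032 (.z 1116 (.t 12 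
(.lf (.thr (.lm 7 41 7 40 9 9 3) (.pot 0) (.pot 0))) (.lf (.low 2))) (.t 12 
(.lf (.thr (.lm 7 42 7 42 9 9 3) (.pot 0) (.pot 0))) (.lf (.low 2)))) (.z 1116 
(.lf (.thr (.lm 8 39 8 39 10 11 3) (.pot 1) (.pot 1))) (.t 12 
(.lf (.thr (.lm 7 41 7 40 9 9 3) (.pot 0) (.pot 0))) (.lf (.low 2))))))) (.t 8 
(.lf (.thr (.lm 5 42 5 42 7 7 6) (.pot 0) (.pot 0))) (.y 1430 
(.lf (.thr (.lm 8 42 8 42 10 10 6) (.lf 8 123 0 131) (.pot 0))) (.a 1032 (.z 1122 (.t 12 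
(.lf (.thr (.lm 7 44 7 43 9 9 3) (.pot 1) (.pot 0))) (.lf (.low 2))) (.t 12 
(.lf (.thr (.lm 7 45 7 45 9 9 3) (.lf 7 123 0 131) (.pot 0))) (.lf (.low 2)))) (.z 1122 (.t 12 
(.lf (.thr (.lm 7 42 7 42 9 9 3) (.pot 0) (.pot 0))) (.lf (.low 2))) 
(.lf (.thr (.lm 8 44 8 43 10 10 3) (.lf 8 123 0 131) (.pot 1)))))))))) (.lf (.low 2)))) 
(.z 1113 (.t 16 (.a 1041 (.lf (.thr (.lm 6 31 7 30 10 11 9) (.pot 1) (.pot 1))) 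
(.lf (.thr (.lm 6 27 7 27 11 11 9) (.pot 0) (.pot 1)))) (.lf (.low 2))) (.t 16 (.a 1041 
(.y 1427 (.lf (.thr (.lm 6 36 6 36 10 11 9) (.lf 6 124 0 130) (.pot 1))) (.z 1119 (.t 8 
(.lf (.thr (.lm 5 36 5 36 7 8 6) (.pot 0) (.pot 0))) (.y 1430 
(.lf (.thr (.lm 8 36 8 36 10 11 6) (.lf 8 123 0 131) (.pot 1))) (.a 1038 
(.lf (.thr (.lm 8 38 8 37 10 11 5) (.pot 1) (.pot 1))) 
(.lf (.thr (.lm 8 36 8 36 10 11 5) (.pot 0) (.pot 1)))))) (.t 8 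
(.lf (.thr (.lm 5 39 5 39 7 7 6) (.pot 0) (.pot 0))) 
(.lf (.thr (.lm 8 39 8 39 10 10 6) (.lf 8 123 0 131) (.pot 1)))))) (.y 1427 
(.lf (.thr (.lm 6 32 6 33 11 11 10) (.lf 6 124 0 130) (.pot 0))) (.z 1119 
(.lf (.thr (.lm 6 32 6 33 11 11 7) (.pot 1) (.pot 1))) 
(.lf (.thr (.lm 6 35 6 36 11 10 7) (.lf 6 124 0 130) (.pot 1)))))) (.lf (.low 2)))))))) 
(.y 1408 (.z 1102 (.a 1061 (.y 1395 (.lf .inf) (.z 1091 (.t 16 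
(.lf (.thr (.lm 7 10 7 9 11 11 12) (.pot 0) (.pot 1))) (.lf (.low 2))) (.t 16 
(.lf (.thr (.lm 7 15 7 15 11 11 12) (.pot 0) (.pot 1))) (.lf (.low 2))))) (.lf .inf)) (.a 1061 
(.lf (.thr (.lm 10 20 9 21 17 17 18) (.lf 9 121 0 131) (.pot 1))) (.lf .inf))) (.z 1102 
(.a 1061 (.y 1421 (.z 1091 (.t 16 (.lf (.thr (.lm 7 10 7 9 11 11 12) (.pot 1) (.pot 0))) 
(.lf (.low 2))) (.t 16 (.lf (.thr (.lm 7 15 7 15 11 11 12) (.pot 0) (.pot 1))) (.lf (.low 2)))) 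
(.z 1091 (.t 16 (.lf (.thr (.lm 7 10 7 9 11 11 12) (.pot 1) (.pot 0))) (.lf (.low 2))) (.t 16 
(.lf (.thr (.lm 7 15 7 15 11 11 12) (.pot 1) (.pot 0))) (.lf (.low 2))))) (.y 1421 (.z 1091 
(.t 16 (.lf (.thr (.lm 7 3 7 3 11 11 12) (.pot 0) (.pot 1))) (.lf (.low 2))) (.t 16 
(.lf (.thr (.lm 7 8 7 9 11 11 12) (.pot 0) (.pot 1))) (.lf (.low 2)))) (.z 1091 (.t 16 
(.lf (.thr (.lm 7 3 7 3 11 11 12) (.pot 0) (.pot 1))) (.lf (.low 2))) (.t 16 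
(.lf (.thr (.lm 7 8 7 9 11 11 12) (.pot 1) (.pot 0))) (.lf (.low 2)))))) (.a 1061 (.y 1421 
(.z 1113 (.t 16 (.lf (.thr (.lm 7 20 7 21 11 11 12) (.pot 0) (.pot 1))) (.lf (.low 2))) (.t 16 
(.lf (.thr (.lm 7 26 6 26 11 11 13) (.lf 6 124 0 130) (.pot 0))) (.lf (.low 2)))) (.z 1113 
(.t 16 (.lf (.thr (.lm 7 20 7 21 11 11 12) (.pot 0) (.pot 1))) (.lf (.low 2))) (.t 16 (.a 1054 
(.lf (.thr (.lm 7 29 6 30 11 11 9) (.pot 0) (.pot 1))) 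
(.lf (.thr (.lm 7 26 6 26 11 11 10) (.pot 0) (.pot 1)))) (.lf (.low 2))))) (.y 1421 (.z 1113 
(.t 16 (.lf (.thr (.lm 7 14 7 14 11 11 12) (.pot 0) (.pot 1))) (.lf (.low 2))) 
(.lf (.thr (.lm 10 19 9 20 17 17 13) (.lf 9 121 0 131) (.pot 1)))) (.z 1113 (.t 16 
(.lf (.thr (.lm 7 14 7 14 11 11 12) (.pot 0) (.pot 1))) (.lf (.low 2))) (.t 16 
(.lf (.thr (.lm 7 19 6 20 11 11 13) (.pot 0) (.pot 1))) (.lf (.low 2))))))))) (.a 1048 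
(.y 1459 (.z 1102 (.a 1035 (.lf .inf) (.y 1446 (.z 1091 (.lf .inf) (.t 16 
(.lf (.thr (.lm 6 22 7 21 11 11 12) (.pot 1) (.pot 0))) (.lf (.low 2)))) (.lf .inf))) (.a 1035 
(.y 1446 (.z 1113 (.t 16 (.a 1029 (.lf .inf) (.y 1440 (.z 1107 (.lf .inf) (.t 8 
(.lf (.thr (.lm 5 36 5 36 7 8 6) (.pot 0) (.pot 0))) (.a 1032 (.lf .inf) 
(.lf (.thr (.lm 8 36 8 36 10 11 5) (.pot 1) (.pot 1)))))) (.lf .inf))) (.lf (.low 2))) (.t 16 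
(.a 1029 (.z 1119 (.y 1440 (.t 8 (.lf (.thr (.lm 5 42 5 42 7 8 6) (.pot 0) (.pot 0))) (.a 1026 
(.lf .inf) (.z 1116 (.lf .inf) (.y 1437 (.t 12 
(.lf (.thr (.lm 7 44 7 43 9 9 3) (.pot 1) (.pot 0))) (.lf (.low 2))) (.lf .inf))))) (.lf .inf)) 
(.y 1440 (.t 8 (.lf (.thr (.lm 5 45 5 45 7 7 6) (.pot 0) (.pot 0))) (.a 1026 
(.lf (.thr (.lm 8 47 8 46 10 10 5) (.lf 8 123 0 131) (.lf 0 131 8 123))) (.z 1122 (.y 1437 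
(.t 12 (.lf (.thr (.lm 7 45 7 45 9 9 3) (.pot 1) (.pot 1))) (.lf (.low 2))) (.lf .inf)) 
(.lf (.thr (.lm 8 47 8 46 10 10 3) (.lf 8 123 0 131) (.lf 0 131 8 123)))))) (.lf .inf))) 
(.z 1119 (.y 1440 (.t 8 (.lf (.thr (.lm 5 39 5 39 7 8 6) (.pot 0) (.pot 0))) (.a 1032 (.z 1116 
(.y 1437 (.t 12 (.lf (.thr (.lm 7 41 7 40 9 9 3) (.pot 0) (.pot 0))) (.lf (.low 2))) (.lf .inf)) 
(.y 1437 (.t 12 (.lf (.thr (.lm 7 42 7 42 9 9 3) (.pot 0) (.pot 0))) (.lf (.low 2))) (.lf .inf))) 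
(.z 1116 (.lf (.thr (.lm 8 39 8 39 10 11 3) (.pot 1) (.pot 1))) (.y 1437 (.t 12 
(.lf (.thr (.lm 7 41 7 40 9 9 3) (.pot 0) (.pot 0))) (.lf (.low 2))) (.t 12 
(.lf (.thr (.lm 7 41 7 40 9 9 3) (.pot 0) (.pot 0))) (.lf (.low 2))))))) (.lf .inf)) (.y 1440 
(.t 8 (.lf (.thr (.lm 5 42 5 42 7 7 6) (.pot 0) (.pot 0))) (.a 1032 (.z 1122 (.y 1437 (.t 12 
(.lf (.thr (.lm 7 44 7 43 9 9 3) (.pot 1) (.pot 0))) (.lf (.low 2))) (.t 12 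
(.lf (.thr (.lm 7 44 7 43 9 9 3) (.pot 1) (.pot 0))) (.lf (.low 2)))) (.y 1437 (.t 12 
(.lf (.thr (.lm 7 45 7 45 9 9 3) (.pot 1) (.pot 1))) (.lf (.low 2))) (.t 12 
(.lf (.thr (.lm 7 45 7 45 9 9 3) (.pot 1) (.pot 1))) (.lf (.low 2))))) (.z 1122 (.y 1437 
(.t 12 (.lf (.thr (.lm 7 42 7 42 9 9 3) (.pot 0) (.pot 0))) (.lf (.low 2))) (.t 12 
(.lf (.thr (.lm 7 42 7 42 9 9 3) (.pot 0) (.pot 0))) (.lf (.low 2)))) (.y 1437 (.t 12 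
(.lf (.thr (.lm 7 44 7 43 9 9 3) (.pot 1) (.pot 0))) (.lf (.low 2))) (.t 12 
(.lf (.thr (.lm 7 44 7 43 9 9 3) (.pot 1) (.pot 0))) (.lf (.low 2))))))) (.t 8 
(.lf (.thr (.lm 5 42 5 42 7 7 6) (.pot 0) (.pot 0))) (.a 1032 (.lf .inf) (.z 1122 (.lf .inf) 
(.y 1443 (.t 12 (.lf (.thr (.lm 7 44 7 43 9 9 3) (.pot 1) (.pot 0))) (.lf (.low 2))) (.lf .inf)))))))) 
(.lf (.low 2)))) (.lf .inf)) (.y 1446 (.z 1113 (.t 16 (.a 1041 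
(.lf (.thr (.lm 6 31 7 30 10 11 9) (.pot 1) (.pot 1))) 
(.lf (.thr (.lm 6 27 7 27 11 11 9) (.pot 1) (.pot 0)))) (.lf (.low 2))) (.t 16 (.a 1041 
(.z 1119 (.y 1440 (.t 8 (.lf (.thr (.lm 5 36 5 36 7 8 6) (.pot 0) (.pot 0))) (.a 1038 
(.lf (.thr (.lm 8 38 8 37 10 11 5) (.pot 1) (.pot 1))) 
(.lf (.thr (.lm 8 36 8 36 10 11 5) (.pot 1) (.pot 1))))) (.t 8 
(.lf (.thr (.lm 5 36 5 36 7 8 6) (.pot 0) (.pot 0))) (.a 1038 (.lf .inf) 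
(.lf (.thr (.lm 8 36 8 36 10 11 5) (.pot 1) (.pot 1)))))) (.y 1440 (.t 8 
(.lf (.thr (.lm 5 39 5 39 7 7 6) (.pot 0) (.pot 0))) (.a 1038 (.z 1122 (.y 1437 (.t 12 
(.lf (.thr (.lm 7 41 7 40 9 9 3) (.pot 0) (.pot 0))) (.lf (.low 2))) (.t 12 
(.lf (.thr (.lm 7 41 7 40 9 9 3) (.pot 0) (.pot 0))) (.lf (.low 2)))) (.y 1437 (.t 12 
(.lf (.thr (.lm 7 42 7 42 9 9 3) (.pot 0) (.pot 0))) (.lf (.low 2))) (.t 12 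
(.lf (.thr (.lm 7 42 7 42 9 9 3) (.pot 0) (.pot 0))) (.lf (.low 2))))) (.z 1122 
(.lf (.thr (.lm 8 39 8 39 10 10 3) (.pot 1) (.pot 1))) (.y 1437 
(.lf (.thr (.lm 8 40 8 41 10 10 3) (.lf 8 123 0 131) (.pot 1))) (.t 12 
(.lf (.thr (.lm 7 40 7 41 9 9 3) (.pot 0) (.pot 0))) (.lf (.low 2))))))) (.t 8 
(.lf (.thr (.lm 5 39 5 39 7 7 6) (.pot 0) (.pot 0))) (.a 1038 (.z 1122 (.y 1443 (.t 12 
(.lf (.thr (.lm 7 41 7 40 9 9 3) (.pot 0) (.pot 0))) (.lf (.low 2))) (.lf .inf)) (.y 1443 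
(.t 12 (.lf (.thr (.lm 7 42 7 42 9 9 3) (.pot 0) (.pot 0))) (.lf (.low 2))) (.lf .inf))) 
(.z 1122 (.lf (.thr (.lm 8 39 8 39 10 10 3) (.pot 1) (.pot 1))) (.y 1443 (.t 12 
(.lf (.thr (.lm 7 40 7 41 9 9 3) (.pot 0) (.pot 0))) (.lf (.low 2))) (.t 12 
(.lf (.thr (.lm 7 40 7 41 9 9 3) (.pot 0) (.pot 0))) (.lf (.low 2))))))))) (.z 1119 
(.lf (.thr (.lm 6 32 6 33 11 11 7) (.pot 1) (.pot 1))) (.y 1440 (.t 8 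
(.lf (.thr (.lm 5 35 5 36 8 7 7) (.pot 0) (.pot 0))) (.a 1044 
(.lf (.thr (.lm 8 37 8 38 10 10 5) (.pot 1) (.pot 1))) 
(.lf (.thr (.lm 8 35 8 36 11 10 5) (.pot 0) (.pot 1))))) (.t 8 
(.lf (.thr (.lm 5 35 5 36 8 7 7) (.pot 0) (.pot 0))) (.a 1044 
(.lf (.thr (.lm 8 37 8 38 10 10 5) (.pot 1) (.pot 1))) 
(.lf (.thr (.lm 8 35 8 36 11 10 5) (.pot 1) (.pot 1)))))))) (.lf (.low 2)))) (.z 1113 
(.lf .inf) (.t 16 (.a 1041 (.lf .inf) (.y 1452 (.z 1119 (.lf .inf) (.t 8 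
(.lf (.thr (.lm 5 35 5 36 8 7 7) (.pot 0) (.pot 0))) (.a 1044 (.lf .inf) 
(.lf (.thr (.lm 8 35 8 36 11 10 5) (.pot 1) (.pot 1)))))) (.lf .inf))) (.lf (.low 2))))))) 
(.lf .inf)) (.y 1459 (.z 1102 (.a 1061 (.y 1446 (.z 1091 (.t 16 
(.lf (.thr (.lm 7 10 7 9 11 11 12) (.pot 1) (.pot 0))) (.lf (.low 2))) (.t 16 
(.lf (.thr (.lm 7 15 7 15 11 11 12) (.pot 1) (.pot 0))) (.lf (.low 2)))) (.lf .inf)) (.y 1446 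
(.z 1091 (.t 16 (.lf (.thr (.lm 7 3 7 3 11 11 12) (.pot 1) (.pot 1))) (.lf (.low 2))) (.t 16 
(.lf (.thr (.lm 7 8 7 9 11 11 12) (.pot 1) (.pot 0))) (.lf (.low 2)))) (.z 1091 (.lf .inf) 
(.t 16 (.lf (.thr (.lm 7 8 7 9 11 11 12) (.pot 1) (.pot 0))) (.lf (.low 2)))))) (.a 1061 
(.y 1446 (.z 1113 (.t 16 (.lf (.thr (.lm 7 20 7 21 11 11 12) (.pot 1) (.pot 0))) (.lf (.low 2))) 
(.t 16 (.a 1054 (.lf (.thr (.lm 7 29 6 30 11 11 9) (.pot 1) (.pot 1))) 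
(.lf (.thr (.lm 7 26 6 26 11 11 10) (.pot 0) (.pot 1)))) (.lf (.low 2)))) (.z 1113 (.t 16 
(.lf (.thr (.lm 7 20 7 21 11 11 12) (.pot 1) (.pot 0))) (.lf (.low 2))) (.t 16 (.a 1054 
(.lf (.thr (.lm 7 29 6 30 11 11 9) (.pot 1) (.pot 1))) 
(.lf (.thr (.lm 7 26 6 26 11 11 10) (.pot 1) (.pot 0)))) (.lf (.low 2))))) (.y 1446 (.z 1113 
(.t 16 (.lf (.thr (.lm 7 14 7 14 11 11 12) (.pot 1) (.pot 0))) (.lf (.low 2))) (.t 16 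
(.lf (.thr (.lm 7 19 6 20 11 11 13) (.pot 0) (.pot 1))) (.lf (.low 2)))) (.z 1113 (.t 16 
(.lf (.thr (.lm 7 14 7 14 11 11 12) (.pot 1) (.pot 0))) (.lf (.low 2))) (.t 16 
(.lf (.thr (.lm 7 19 6 20 11 11 13) (.pot 1) (.pot 1))) (.lf (.low 2))))))) (.z 1102 (.lf .inf) 
(.a 1061 (.lf .inf) (.y 1472 (.z 1113 (.lf .inf) (.t 16 
(.lf (.thr (.lm 7 19 6 20 11 11 13) (.pot 1) (.pot 0))) (.lf (.low 2)))) (.lf .inf)))))))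

theorem h12 : chk (leafT PP TD0 0 2) c12 0 32 1023 1074 1080 1125 1383 1485 = true := by
  decide +kernel

def c13 : Tree :=
  (.y 1434 (.a 1099 (.y 1408 (.lf .inf) (.z 1102 (.y 1421 (.lf .inf) (.a 1086 (.z 1091 
(.lf (.thr (.lm 10 0 10 0 17 17 9) (.pot 1) (.pot 1))) (.t 16 
(.lf (.thr (.lm 7 2 7 3 11 11 12) (.pot 0) (.pot 1))) (.lf (.low 2)))) (.lf .inf))) (.y 1421 
(.lf .inf) (.a 1086 (.z 1113 (.t 16 (.lf (.thr (.lm 7 8 7 8 11 11 12) (.pot 0) (.pot 1))) 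
(.lf (.low 2))) (.t 16 (.lf (.thr (.lm 7 13 6 14 11 11 12) (.pot 0) (.pot 1))) (.lf (.low 2)))) 
(.lf .inf))))) (.lf .inf)) (.a 1099 (.y 1459 (.z 1102 (.a 1086 (.y 1446 (.z 1091 
(.lf (.thr (.lm 10 0 10 0 17 17 9) (.pot 1) (.pot 1))) (.t 16 
(.lf (.thr (.lm 7 2 7 3 11 11 12) (.pot 1) (.pot 1))) (.lf (.low 2)))) (.z 1091 
(.lf (.thr (.lm 10 0 10 0 17 17 9) (.pot 1) (.pot 1))) (.t 16 
(.lf (.thr (.lm 7 2 7 3 11 11 12) (.pot 1) (.pot 1))) (.lf (.low 2))))) 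
(.lf (.thr (.lm 10 0 10 0 17 17 8) (.pot 1) (.pot 1)))) (.a 1086 (.y 1446 (.z 1113 (.t 16 
(.lf (.thr (.lm 7 8 7 8 11 11 12) (.pot 1) (.pot 0))) (.lf (.low 2))) (.t 16 
(.lf (.thr (.lm 7 13 6 14 11 11 12) (.pot 1) (.pot 0))) (.lf (.low 2)))) (.z 1113 (.t 16 
(.lf (.thr (.lm 7 8 7 8 11 11 12) (.pot 1) (.pot 0))) (.lf (.low 2))) (.t 16 
(.lf (.thr (.lm 7 13 6 14 11 11 12) (.pot 1) (.pot 0))) (.lf (.low 2))))) (.y 1446 (.z 1113 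
(.t 16 (.lf (.thr (.lm 7 1 7 2 11 11 12) (.pot 0) (.pot 1))) (.lf (.low 2))) (.t 16 
(.lf (.thr (.lm 7 7 6 7 11 11 13) (.pot 0) (.pot 1))) (.lf (.low 2)))) (.z 1113 (.t 16 
(.lf (.thr (.lm 7 1 7 2 11 11 12) (.pot 1) (.pot 1))) (.lf (.low 2))) (.t 16 
(.lf (.thr (.lm 7 7 6 7 11 11 13) (.pot 0) (.pot 1))) (.lf (.low 2))))))) (.z 1102 (.y 1472 
(.a 1086 (.lf .inf) (.lf (.thr (.lm 10 0 10 0 17 17 8) (.pot 1) (.pot 1)))) (.lf .inf)) 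
(.y 1472 (.a 1086 (.z 1113 (.t 16 (.lf (.thr (.lm 7 8 7 8 11 11 12) (.pot 1) (.pot 0))) 
(.lf (.low 2))) (.t 16 (.lf (.thr (.lm 7 13 6 14 11 11 12) (.pot 1) (.pot 0))) (.lf (.low 2)))) 
(.z 1113 (.t 16 (.lf (.thr (.lm 7 1 7 2 11 11 12) (.pot 1) (.pot 1))) (.lf (.low 2))) (.t 16 
(.lf (.thr (.lm 7 7 6 7 11 11 13) (.pot 1) (.pot 0))) (.lf (.low 2))))) (.a 1086 (.lf .inf) 
(.z 1113 (.lf .inf) (.t 16 (.lf (.thr (.lm 7 7 6 7 11 11 13) (.pot 1) (.pot 0))) (.lf (.low 2)))))))) 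
(.y 1459 (.z 1102 (.lf (.thr (.lm 10 0 10 0 17 17 2) (.pot 1) (.pot 1))) (.a 1112 (.y 1446 
(.lf .inf) (.z 1113 (.lf (.thr (.lm 10 0 10 0 17 17 7) (.pot 1) (.pot 1))) (.t 16 
(.lf (.thr (.lm 7 0 6 1 11 11 13) (.pot 1) (.pot 1))) (.lf (.low 2))))) (.lf .inf))) (.z 1102 
(.lf (.thr (.lm 10 0 10 0 17 17 2) (.pot 1) (.pot 1))) (.a 1112 (.y 1472 (.z 1113 
(.lf (.thr (.lm 10 0 10 0 17 17 7) (.pot 1) (.pot 1))) (.t 16 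
(.lf (.thr (.lm 7 0 6 1 11 11 13) (.pot 1) (.pot 1))) (.lf (.low 2)))) (.z 1113 
(.lf (.thr (.lm 10 0 10 0 17 17 7) (.pot 1) (.pot 1))) (.t 16 
(.lf (.thr (.lm 7 0 6 1 11 11 13) (.pot 1) (.pot 1))) (.lf (.low 2))))) 
(.lf (.thr (.lm 9 0 9 0 17 17 7) (.pot 1) (.pot 1))))))))

theorem h13 : chk (leafT PP TD0 0 2) c13 0 32 1074 1125 1080 1125 1383 1485 = true := by
  decide +kernel

def c14 : Tree :=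
  (.a 815 (.y 1175 (.a 790 (.y 1150 (.lf (.thr (.pot 1) (.lm 9 0 9 0 16 16 13) (.pot 1))) 
(.z 1147 (.a 777 (.lf .inf) (.y 1162 (.z 1136 (.t 16 
(.lf (.thr (.pot 1) (.lm 6 6 6 8 10 10 12) (.pot 0))) (.lf (.low 0))) 
(.lf (.thr (.pot 1) (.lm 9 0 8 3 16 15 12) (.pot 1)))) (.z 1136 (.t 16 
(.lf (.thr (.pot 0) (.lm 6 12 6 14 10 9 12) (.pot 0))) (.lf (.low 0))) (.t 16 
(.lf (.thr (.pot 1) (.lm 6 6 6 9 10 9 12) (.pot 0))) (.lf (.low 0)))))) 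
(.lf (.thr (.pot 1) (.lm 8 0 8 0 15 15 14) (.pot 1))))) (.y 1150 
(.lf (.thr (.pot 1) (.lm 9 0 9 0 16 16 13) (.pot 1))) (.z 1147 (.a 802 (.y 1162 (.z 1136 
(.t 16 (.lf (.thr (.pot 1) (.lm 6 6 6 8 10 10 12) (.pot 0))) (.lf (.low 0))) 
(.lf (.thr (.pot 1) (.lm 9 0 8 3 16 15 12) (.pot 1)))) (.z 1136 (.t 16 
(.lf (.thr (.pot 0) (.lm 6 12 6 14 10 9 12) (.pot 0))) (.lf (.low 0))) (.t 16 
(.lf (.thr (.pot 1) (.lm 6 6 6 9 10 9 12) (.pot 0))) (.lf (.low 0))))) (.y 1162 (.z 1136 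
(.t 16 (.lf (.thr (.pot 0) (.lm 6 6 6 8 10 10 12) (.pot 1))) (.lf (.low 0))) 
(.lf (.thr (.pot 1) (.lm 9 0 8 3 16 15 12) (.pot 1)))) (.z 1136 (.t 16 
(.lf (.thr (.pot 0) (.lm 6 12 6 14 10 9 12) (.pot 0))) (.lf (.low 0))) (.t 16 
(.lf (.thr (.pot 1) (.lm 6 6 6 9 10 9 12) (.pot 0))) (.lf (.low 0)))))) 
(.lf (.thr (.pot 1) (.lm 8 0 8 0 15 15 14) (.pot 1)))))) (.y 1200 (.a 790 (.z 1147 (.a 777 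
(.lf .inf) (.y 1187 (.z 1136 (.t 16 (.lf (.thr (.pot 0) (.lm 6 19 5 20 10 9 12) (.pot 0))) 
(.lf (.low 0))) (.lf .inf)) (.lf .inf))) (.lf .inf)) (.z 1147 (.a 802 (.y 1187 (.z 1136 (.t 16 
(.lf (.thr (.pot 0) (.lm 6 19 5 20 10 9 12) (.pot 0))) (.lf (.low 0))) (.t 16 
(.lf (.thr (.pot 0) (.lm 6 13 5 15 10 9 12) (.pot 0))) (.lf (.low 0)))) (.z 1136 (.t 16 
(.lf (.thr (.pot 0) (.lm 6 25 5 26 10 8 12) (.pot 0))) (.lf (.low 0))) (.t 16 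
(.lf (.thr (.pot 0) (.lm 6 19 5 21 10 8 12) (.pot 0))) (.lf (.low 0))))) (.y 1187 (.z 1136 
(.t 16 (.lf (.thr (.pot 0) (.lm 6 19 5 20 10 9 12) (.pot 0))) (.lf (.low 0))) (.t 16 
(.lf (.thr (.pot 0) (.lm 6 13 5 15 10 9 12) (.pot 0))) (.lf (.low 0)))) (.z 1136 (.t 16 
(.lf (.thr (.pot 0) (.lm 6 25 5 26 10 8 12) (.pot 0))) (.lf (.low 0))) (.t 16 
(.lf (.thr (.pot 0) (.lm 6 19 5 21 10 8 12) (.pot 0))) (.lf (.low 0)))))) (.a 802 (.y 1187 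
(.z 1158 (.lf (.thr (.pot 1) (.lm 8 6 7 11 15 13 12) (.pot 1))) (.lf .inf)) (.lf .inf)) 
(.y 1187 (.z 1158 (.lf (.thr (.pot 1) (.lm 8 6 7 11 15 13 12) (.pot 1))) 
(.lf (.thr (.pot 1) (.lm 8 0 7 5 14 13 12) (.pot 1)))) (.z 1158 
(.lf (.thr (.pot 1) (.lm 8 12 7 17 15 12 12) (.pot 1))) 
(.lf (.thr (.pot 1) (.lm 8 6 7 11 14 12 13) (.pot 1)))))))) (.a 790 (.lf .inf) (.z 1147 
(.y 1213 (.a 802 (.lf .inf) (.z 1136 (.t 16 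
(.lf (.thr (.pot 1) (.lm 6 31 5 33 10 8 12) (.pot 1))) (.lf (.low 0))) (.t 16 
(.lf (.thr (.pot 0) (.lm 6 26 5 27 10 8 12) (.pot 0))) (.lf (.low 0))))) (.a 802 (.lf .inf) 
(.z 1136 (.t 16 (.a 808 (.lf .inf) (.y 1219 
(.lf (.thr (.pot 1) (.lm 6 38 5 39 10 7 9) (.pot 1))) 
(.lf (.thr (.pot 0) (.lm 6 41 4 42 10 7 9) (.lf 4 126 1 129))))) (.lf (.low 0))) (.t 16 
(.lf (.thr (.pot 0) (.lm 6 32 5 34 10 7 12) (.pot 0))) (.lf (.low 0)))))) (.y 1213 (.a 802 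
(.lf .inf) (.z 1158 (.t 16 (.lf (.thr (.pot 0) (.lm 6 20 5 22 10 8 12) (.pot 0))) 
(.lf (.low 0))) (.lf .inf))) (.lf .inf)))))) (.y 1175 (.a 840 (.y 1150 (.lf .inf) (.z 1147 
(.a 827 (.y 1162 (.lf .inf) (.z 1136 (.t 16 
(.lf (.thr (.pot 0) (.lm 6 12 6 14 10 9 12) (.pot 0))) (.y 1168 (.lf .inf) (.a 821 
(.lf (.low 0)) (.lf .inf)))) (.t 16 (.lf (.thr (.pot 1) (.lm 6 6 6 9 10 9 12) (.pot 0))) 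
(.lf (.thr (.pot 1) (.lm 11 4 10 11 15 14 12) (.pot 1)))))) (.lf .inf)) 
(.lf (.thr (.pot 1) (.lm 8 0 8 0 15 15 14) (.pot 1))))) (.lf .inf)) (.a 840 (.y 1200 (.z 1147 
(.a 827 (.y 1187 (.z 1136 (.t 16 (.lf (.thr (.pot 0) (.lm 6 19 5 20 10 9 12) (.pot 0))) 
(.a 821 (.lf (.low 0)) (.y 1181 (.z 1130 
(.lf (.thr (.lf 0 131 12 119) (.lm 12 20 9 25 16 13 6) (.pot 1))) 
(.lf (.thr (.pot 0) (.lm 12 17 9 22 16 13 6) (.pot 1)))) (.z 1130 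
(.lf (.thr (.lf 0 131 12 119) (.lm 12 23 9 28 16 12 6) (.pot 1))) 
(.lf (.thr (.pot 1) (.lm 12 20 9 25 16 12 6) (.pot 1))))))) (.t 16 
(.lf (.thr (.pot 0) (.lm 6 13 5 15 10 9 12) (.pot 0))) (.a 821 (.lf (.low 0)) (.y 1181 
(.lf (.thr (.pot 0) (.lm 11 11 9 17 15 13 9) (.pot 1))) 
(.lf (.thr (.pot 0) (.lm 11 14 9 20 15 12 9) (.pot 1))))))) (.z 1136 (.t 16 
(.lf (.thr (.pot 0) (.lm 6 25 5 26 10 8 12) (.pot 0))) (.y 1193 (.a 821 (.lf (.low 0)) 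
(.z 1130 (.lf (.thr (.lf 0 131 12 119) (.lm 12 26 9 31 16 12 6) (.pot 1))) (.t 24 
(.lf (.thr (.pot 0) (.lm 10 23 8 28 13 10 6) (.pot 0))) (.lf (.low 0))))) (.a 821 
(.lf (.low 0)) (.z 1130 (.t 24 (.lf (.thr (.lf 0 131 11 120) (.lm 11 29 7 34 13 9 6) (.pot 0))) 
(.lf (.low 0))) (.t 24 (.lf (.thr (.pot 0) (.lm 10 26 7 31 13 9 7) (.pot 1))) (.lf (.low 0))))))) 
(.t 16 (.lf (.thr (.pot 0) (.lm 6 19 5 21 10 8 12) (.pot 0))) (.y 1193 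
(.lf (.thr (.pot 1) (.lm 11 17 9 23 15 12 9) (.pot 1))) (.a 821 (.lf (.low 0)) (.z 1141 
(.lf (.thr (.pot 1) (.lm 12 23 8 29 15 11 6) (.pot 1))) 
(.lf (.thr (.pot 0) (.lm 11 20 8 26 15 11 7) (.pot 1))))))))) (.y 1187 (.z 1136 (.t 16 
(.lf (.thr (.pot 0) (.lm 6 19 5 20 10 9 12) (.pot 0))) 
(.lf (.thr (.lf 0 131 12 119) (.lm 12 17 9 22 16 13 12) (.pot 1)))) (.t 16 
(.lf (.thr (.pot 0) (.lm 6 13 5 15 10 9 12) (.pot 0))) (.a 833 (.y 1181 (.lf .inf) 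
(.lf (.thr (.pot 0) (.lm 11 14 9 20 15 12 9) (.pot 1)))) (.lf .inf)))) (.z 1136 (.t 16 
(.lf (.thr (.pot 0) (.lm 6 25 5 26 10 8 12) (.pot 0))) (.a 833 (.y 1193 
(.lf (.thr (.lf 0 131 12 119) (.lm 12 23 9 28 16 12 9) (.pot 1))) 
(.lf (.thr (.lf 0 131 12 119) (.lm 12 26 8 31 16 11 9) (.pot 1)))) 
(.lf (.thr (.lf 0 131 12 119) (.lm 12 23 8 28 16 12 12) (.pot 1))))) (.t 16 
(.lf (.thr (.pot 0) (.lm 6 19 5 21 10 8 12) (.pot 0))) (.a 833 (.y 1193 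
(.lf (.thr (.pot 1) (.lm 11 17 9 23 15 12 9) (.pot 1))) (.z 1141 
(.lf (.thr (.pot 1) (.lm 12 23 8 29 15 11 6) (.pot 1))) 
(.lf (.thr (.pot 0) (.lm 11 20 8 26 15 11 7) (.pot 1))))) (.y 1193 
(.lf (.thr (.pot 0) (.lm 11 17 9 23 15 12 9) (.pot 1))) (.z 1141 
(.lf (.thr (.pot 0) (.lm 12 23 8 29 15 11 6) (.pot 1))) 
(.lf (.thr (.pot 0) (.lm 11 20 8 26 15 11 7) (.pot 1)))))))))) (.a 827 (.y 1187 (.z 1158 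
(.lf (.thr (.pot 1) (.lm 8 6 7 11 15 13 12) (.pot 1))) 
(.lf (.thr (.pot 1) (.lm 8 0 7 5 14 13 12) (.pot 1)))) (.z 1158 
(.lf (.thr (.pot 1) (.lm 8 12 7 17 15 12 12) (.pot 1))) 
(.lf (.thr (.pot 1) (.lm 8 6 7 11 14 12 13) (.pot 1))))) (.y 1187 (.z 1158 
(.lf (.thr (.pot 1) (.lm 8 6 7 11 15 13 12) (.pot 1))) 
(.lf (.thr (.pot 0) (.lm 8 0 7 5 14 13 12) (.pot 1)))) (.z 1158 
(.lf (.thr (.pot 1) (.lm 8 12 7 17 15 12 12) (.pot 1))) 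
(.lf (.thr (.pot 0) (.lm 8 6 7 11 14 12 13) (.pot 1))))))) (.z 1147 (.y 1213 (.a 827 (.z 1136 
(.t 16 (.lf (.thr (.pot 0) (.lm 6 31 5 33 10 8 12) (.pot 1))) (.y 1206 (.a 821 (.lf (.low 0)) 
(.z 1130 (.t 24 (.lf (.thr (.lf 0 131 11 120) (.lm 11 33 7 37 13 9 6) (.pot 0))) (.lf (.low 0))) 
(.t 24 (.lf (.thr (.pot 0) (.lm 10 30 7 34 13 9 6) (.pot 1))) (.lf (.low 0))))) (.a 821 
(.lf (.low 0)) (.z 1130 (.t 24 (.lf (.thr (.lf 0 131 11 120) (.lm 11 36 7 40 13 8 6) (.pot 1))) 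
(.lf (.low 0))) (.t 24 (.lf (.thr (.pot 1) (.lm 10 33 7 37 13 8 7) (.pot 1))) (.lf (.low 0))))))) 
(.t 16 (.lf (.thr (.pot 0) (.lm 6 26 5 27 10 8 12) (.pot 0))) (.y 1206 (.a 821 (.lf (.low 0)) 
(.z 1141 (.t 24 (.lf (.thr (.pot 0) (.lm 10 27 7 32 13 9 6) (.pot 0))) (.lf (.low 0))) 
(.lf (.thr (.pot 1) (.lm 11 24 8 29 15 10 6) (.pot 1))))) (.a 821 (.lf (.low 0)) (.z 1141 
(.t 24 (.lf (.thr (.pot 0) (.lm 10 30 7 35 13 8 6) (.pot 0))) (.lf (.low 0))) (.t 24 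
(.lf (.thr (.pot 0) (.lm 10 27 7 32 12 8 7) (.pot 0))) (.lf (.low 0)))))))) (.z 1136 (.t 16 
(.lf (.thr (.lf 2 129 6 124) (.lm 6 31 5 33 10 8 12) (.pot 0))) (.a 833 (.y 1206 (.z 1130 
(.lf (.thr (.lf 0 131 12 119) (.lm 12 32 8 38 16 10 6) (.pot 1))) 
(.lf (.thr (.lf 0 131 12 119) (.lm 12 29 8 35 16 10 6) (.pot 1)))) (.z 1130 
(.lf (.thr (.lf 0 131 12 119) (.lm 12 35 7 41 16 10 6) (.pot 1))) (.t 24 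
(.lf (.thr (.lf 0 131 10 120) (.lm 10 33 7 37 13 8 7) (.pot 0))) (.lf (.low 0))))) 
(.lf (.thr (.lf 0 131 12 119) (.lm 12 29 7 35 16 10 12) (.pot 1))))) (.t 16 
(.lf (.thr (.pot 0) (.lm 6 26 5 27 10 8 12) (.pot 0))) (.a 833 (.y 1206 (.z 1141 (.t 24 
(.lf (.thr (.pot 0) (.lm 10 27 7 32 13 9 6) (.pot 0))) (.lf (.low 0))) 
(.lf (.thr (.pot 0) (.lm 11 24 8 29 15 10 6) (.pot 1)))) (.z 1141 (.t 24 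
(.lf (.thr (.pot 0) (.lm 10 30 7 35 13 8 6) (.pot 0))) (.lf (.low 0))) (.t 24 
(.lf (.thr (.pot 0) (.lm 10 27 7 32 12 8 7) (.pot 0))) (.lf (.low 0))))) (.y 1206 (.z 1141 
(.lf (.thr (.lf 0 131 12 119) (.lm 12 27 8 32 15 10 6) (.pot 1))) 
(.lf (.thr (.pot 0) (.lm 11 24 8 29 15 10 6) (.pot 1)))) (.z 1141 
(.lf (.thr (.lf 0 131 12 119) (.lm 12 30 7 35 15 10 6) (.pot 1))) (.t 24 
(.lf (.thr (.pot 0) (.lm 10 27 7 32 12 8 7) (.pot 0))) (.lf (.low 0))))))))) (.a 827 (.z 1136 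
(.t 16 (.y 1219 (.lf (.thr (.pot 0) (.lm 6 38 5 39 10 7 9) (.pot 1))) (.a 821 (.z 1130 
(.lf (.thr (.lf 1 129 6 124) (.lm 6 44 4 45 10 7 6) (.lf 4 126 1 129))) 
(.lf (.thr (.pot 0) (.lm 6 41 4 42 10 7 7) (.pot 0)))) (.z 1130 
(.lf (.thr (.lf 2 129 6 124) (.lm 6 44 4 45 10 7 6) (.pot 0))) 
(.lf (.thr (.pot 0) (.lm 6 41 4 42 10 7 7) (.pot 0)))))) (.y 1219 (.a 821 (.lf (.low 0)) 
(.z 1130 (.t 24 (.a 824 (.y 1216 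
(.lf (.thr (.lf 0 131 11 120) (.lm 11 39 6 44 13 8 4) (.pot 1))) (.z 1127 
(.lf (.thr (.lf 0 131 11 120) (.lm 11 42 6 47 13 8 3) (.pot 1))) 
(.lf (.thr (.lf 0 131 11 120) (.lm 11 41 6 45 13 8 3) (.pot 1))))) 
(.lf (.thr (.lf 0 131 11 120) (.lm 11 39 6 44 13 8 6) (.pot 0)))) (.lf (.low 0))) (.t 24 
(.a 824 (.z 1133 (.y 1216 (.lf (.thr (.pot 1) (.lm 10 38 6 42 13 8 3) (.pot 1))) (.t 20 
(.lf (.thr (.pot 0) (.lm 10 39 6 44 12 7 3) (.pot 0))) (.lf (.low 0)))) 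
(.lf (.thr (.pot 1) (.lm 10 36 6 41 13 8 5) (.pot 1)))) (.z 1133 
(.lf (.thr (.lf 0 131 10 120) (.lm 10 38 6 42 13 8 5) (.pot 1))) 
(.lf (.thr (.pot 1) (.lm 10 36 6 41 13 8 5) (.pot 1))))) (.lf (.low 0))))) (.a 821 
(.lf (.low 0)) (.z 1130 (.t 24 (.y 1222 (.a 824 (.z 1127 
(.lf (.thr (.lf 0 131 11 120) (.lm 11 44 6 48 13 7 3) (.pot 1))) (.t 20 
(.lf (.thr (.lf 0 131 10 121) (.lm 10 42 6 47 12 7 3) (.pot 0))) (.lf (.low 0)))) 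
(.lf (.thr (.lf 0 131 11 120) (.lm 11 42 6 47 13 7 4) (.pot 1)))) 
(.lf (.thr (.lf 0 131 11 120) (.lm 11 43 6 49 13 7 5) (.lf 6 125 0 131)))) (.lf (.low 0))) 
(.t 24 (.y 1222 (.a 824 (.z 1133 (.t 20 (.lf (.thr (.pot 0) (.lm 10 41 6 45 12 7 3) (.pot 1))) 
(.lf (.low 0))) (.t 20 (.lf (.thr (.pot 0) (.lm 10 39 6 44 11 7 3) (.pot 0))) (.lf (.low 0)))) 
(.z 1133 (.lf (.thr (.lf 0 131 10 120) (.lm 10 41 6 45 13 7 3) (.pot 1))) (.t 20 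
(.lf (.thr (.pot 0) (.lm 10 39 6 44 11 7 3) (.pot 0))) (.lf (.low 0))))) (.a 824 (.z 1133 
(.lf (.thr (.lf 0 131 10 120) (.lm 10 42 6 47 13 7 4) (.lf 6 125 0 131))) (.t 20 
(.lf (.thr (.pot 1) (.lm 10 41 5 45 11 7 4) (.pot 0))) (.lf (.low 0)))) (.z 1133 (.t 20 
(.lf (.thr (.lf 0 131 10 121) (.lm 10 42 5 47 12 7 4) (.pot 0))) (.lf (.low 0))) (.t 20 
(.lf (.thr (.pot 0) (.lm 10 41 5 45 11 7 4) (.pot 1))) (.lf (.low 0)))))) (.lf (.low 0))))))) 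
(.t 16 (.lf (.thr (.pot 0) (.lm 6 32 5 34 10 7 12) (.pot 0))) (.y 1219 (.a 821 (.lf (.low 0)) 
(.z 1141 (.t 24 (.lf (.thr (.pot 0) (.lm 10 34 6 38 13 8 6) (.pot 1))) (.lf (.low 0))) (.t 24 
(.lf (.thr (.pot 0) (.lm 10 31 6 35 12 8 6) (.pot 0))) (.lf (.low 0))))) (.a 821 (.lf (.low 0)) 
(.z 1141 (.t 24 (.y 1222 (.lf (.thr (.pot 0) (.lm 10 37 6 41 13 7 4) (.pot 1))) (.a 824 
(.lf (.thr (.pot 0) (.lm 10 38 6 43 13 7 5) (.lf 6 125 0 131))) (.z 1138 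
(.lf (.thr (.pot 1) (.lm 10 40 6 44 13 7 3) (.pot 1))) 
(.lf (.thr (.pot 0) (.lm 10 38 6 43 13 7 4) (.pot 1)))))) (.lf (.low 0))) (.t 24 
(.lf (.thr (.pot 1) (.lm 10 34 6 38 12 7 7) (.pot 0))) (.lf (.low 0)))))))) (.z 1136 (.t 16 
(.lf (.thr (.lf 2 129 6 124) (.lm 6 38 5 39 10 7 12) (.pot 0))) (.a 833 (.y 1219 (.z 1130 
(.t 24 (.lf (.thr (.lf 0 131 11 120) (.lm 11 39 6 44 13 8 6) (.pot 0))) (.lf (.low 0))) (.t 24 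
(.lf (.thr (.lf 0 131 10 120) (.lm 10 36 6 41 13 8 6) (.pot 1))) (.lf (.low 0)))) (.z 1130 
(.t 24 (.lf (.thr (.lf 0 131 11 120) (.lm 11 42 6 47 13 7 6) (.pot 0))) (.lf (.low 0))) (.t 24 
(.y 1222 (.lf (.thr (.lf 0 131 10 120) (.lm 10 39 6 44 13 7 5) (.pot 1))) 
(.lf (.thr (.lf 0 131 10 120) (.lm 10 41 6 45 13 7 5) (.pot 1)))) (.lf (.low 0))))) (.y 1219 
(.lf (.thr (.lf 0 131 12 119) (.lm 12 35 7 42 16 9 9) (.pot 1))) (.z 1130 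
(.lf (.thr (.lf 0 131 12 119) (.lm 12 41 6 48 16 8 6) (.pot 1))) (.t 24 
(.lf (.thr (.lf 0 131 10 120) (.lm 10 39 6 44 13 7 7) (.pot 0))) (.lf (.low 0))))))) (.t 16 
(.lf (.thr (.pot 0) (.lm 6 32 5 34 10 7 12) (.pot 0))) (.a 833 (.y 1219 (.z 1141 (.t 24 
(.lf (.thr (.pot 0) (.lm 10 34 6 38 13 8 6) (.pot 1))) (.lf (.low 0))) (.t 24 
(.lf (.thr (.pot 0) (.lm 10 31 6 35 12 8 6) (.pot 0))) (.lf (.low 0)))) (.z 1141 (.t 24 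
(.y 1222 (.lf (.thr (.pot 0) (.lm 10 37 6 41 13 7 4) (.pot 1))) (.a 830 (.z 1138 
(.lf (.thr (.pot 1) (.lm 10 40 6 44 13 7 3) (.pot 1))) 
(.lf (.thr (.pot 0) (.lm 10 38 6 43 13 7 4) (.pot 1)))) 
(.lf (.thr (.lf 0 131 10 120) (.lm 10 38 6 43 13 7 5) (.pot 1))))) (.lf (.low 0))) (.t 24 
(.lf (.thr (.pot 0) (.lm 10 34 6 38 12 7 7) (.pot 1))) (.lf (.low 0))))) (.y 1219 (.z 1141 
(.t 24 (.lf (.thr (.lf 0 131 10 120) (.lm 10 34 6 38 13 8 6) (.pot 0))) (.lf (.low 0))) (.t 24 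
(.lf (.thr (.pot 0) (.lm 10 31 6 35 12 8 6) (.pot 0))) (.lf (.low 0)))) (.z 1141 (.t 24 
(.lf (.thr (.lf 0 131 10 120) (.lm 10 37 6 41 13 7 6) (.pot 0))) (.lf (.low 0))) (.t 24 
(.lf (.thr (.pot 0) (.lm 10 34 6 38 12 7 7) (.pot 1))) (.lf (.low 0)))))))))) (.y 1213 (.a 827 
(.z 1158 (.t 16 (.lf (.thr (.pot 0) (.lm 6 20 5 22 10 8 12) (.pot 0))) (.y 1206 
(.lf (.thr (.pot 1) (.lm 11 18 8 24 15 10 9) (.pot 1))) 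
(.lf (.thr (.pot 1) (.lm 11 21 7 27 15 10 9) (.pot 1))))) 
(.lf (.thr (.pot 1) (.lm 8 13 6 17 14 10 13) (.pot 1)))) (.z 1158 (.t 16 
(.lf (.thr (.pot 0) (.lm 6 20 5 22 10 8 12) (.pot 0))) (.a 833 (.y 1206 
(.lf (.thr (.pot 0) (.lm 11 18 8 24 15 10 9) (.pot 1))) 
(.lf (.thr (.pot 1) (.lm 11 21 7 27 15 10 9) (.pot 1)))) (.y 1206 
(.lf (.thr (.pot 0) (.lm 11 18 8 24 15 10 9) (.pot 1))) 
(.lf (.thr (.pot 0) (.lm 11 21 7 27 15 10 9) (.pot 1)))))) 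
(.lf (.thr (.pot 1) (.lm 8 13 6 17 14 10 13) (.pot 1))))) (.a 827 (.z 1158 (.t 16 
(.lf (.thr (.pot 0) (.lm 6 27 5 28 10 7 12) (.pot 0))) (.y 1219 
(.lf (.thr (.pot 1) (.lm 11 24 7 31 15 9 9) (.pot 1))) (.a 821 (.lf .inf) (.z 1152 
(.lf (.thr (.pot 1) (.lm 11 30 6 37 15 8 6) (.pot 1))) 
(.lf (.thr (.pot 1) (.lm 11 27 6 34 14 8 7) (.pot 0))))))) 
(.lf (.thr (.pot 1) (.lm 8 19 6 24 14 9 13) (.pot 1)))) (.z 1158 (.t 16 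
(.lf (.thr (.pot 0) (.lm 6 27 5 28 10 7 12) (.pot 0))) (.a 833 (.y 1219 
(.lf (.thr (.pot 1) (.lm 11 24 7 31 15 9 9) (.pot 1))) (.z 1152 
(.lf (.thr (.pot 1) (.lm 11 30 6 37 15 8 6) (.pot 1))) 
(.lf (.thr (.pot 1) (.lm 11 27 6 34 14 8 7) (.pot 0))))) (.y 1219 
(.lf (.thr (.pot 1) (.lm 11 24 7 31 15 9 9) (.pot 1))) (.z 1152 
(.lf (.thr (.pot 1) (.lm 11 30 6 37 15 8 6) (.pot 1))) 
(.lf (.thr (.pot 0) (.lm 11 27 6 34 14 8 7) (.pot 1))))))) 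
(.lf (.thr (.pot 1) (.lm 8 19 6 24 14 9 13) (.pot 1)))))))) (.y 1200 (.z 1147 (.a 853 (.y 1187 
(.lf .inf) (.z 1136 (.lf (.thr (.lf 1 130 9 121) (.lm 9 24 7 27 16 12 12) (.pot 0))) 
(.lf (.thr (.lf 1 130 9 122) (.lm 9 18 7 22 16 12 12) (.pot 1))))) (.lf .inf)) (.a 853 
(.y 1187 (.lf .inf) (.z 1158 (.lf (.thr (.pot 0) (.lm 8 12 7 17 15 12 12) (.pot 1))) 
(.lf (.thr (.pot 0) (.lm 8 6 7 11 14 12 13) (.pot 1))))) (.lf .inf))) (.z 1147 (.a 853 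
(.y 1213 (.z 1136 (.lf (.thr (.lf 1 130 9 121) (.lm 9 30 6 34 16 10 12) (.pot 1))) (.t 16 
(.lf (.thr (.pot 0) (.lm 6 26 5 27 10 8 12) (.pot 0))) 
(.lf (.thr (.lf 0 131 11 119) (.lm 11 23 7 30 15 10 12) (.pot 1))))) (.z 1136 
(.lf (.thr (.lf 1 130 9 121) (.lm 9 37 6 40 16 9 12) (.pot 1))) (.t 16 
(.lf (.thr (.pot 0) (.lm 6 32 5 34 10 7 12) (.pot 0))) (.a 846 (.y 1219 
(.lf (.thr (.lf 0 131 11 119) (.lm 11 30 7 36 15 9 9) (.pot 1))) 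
(.lf (.thr (.lf 0 131 11 119) (.lm 11 33 6 39 15 8 9) (.pot 1)))) 
(.lf (.thr (.lf 0 131 11 119) (.lm 11 30 6 36 15 9 12) (.pot 0))))))) 
(.lf (.thr (.lf 1 129 9 122) (.lm 9 24 6 29 16 10 24) (.pot 1)))) (.a 853 (.y 1213 (.z 1158 
(.t 16 (.lf (.thr (.pot 0) (.lm 6 20 5 22 10 8 12) (.pot 0))) (.a 846 (.y 1206 
(.lf (.thr (.pot 0) (.lm 11 18 8 24 15 10 9) (.pot 1))) 
(.lf (.thr (.pot 0) (.lm 11 21 7 27 15 10 9) (.pot 1)))) 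
(.lf (.thr (.pot 0) (.lm 11 18 7 24 15 10 12) (.pot 1))))) 
(.lf (.thr (.pot 0) (.lm 8 13 6 17 14 10 13) (.pot 1)))) (.z 1158 (.t 16 
(.lf (.thr (.pot 0) (.lm 6 27 5 28 10 7 12) (.pot 0))) (.a 846 (.y 1219 
(.lf (.thr (.pot 0) (.lm 11 24 7 31 15 9 9) (.pot 1))) (.z 1152 
(.lf (.thr (.pot 1) (.lm 11 30 6 37 15 8 6) (.pot 1))) 
(.lf (.thr (.pot 0) (.lm 11 27 6 34 14 8 7) (.pot 1))))) (.y 1219 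
(.lf (.thr (.pot 0) (.lm 11 24 7 31 15 9 9) (.pot 1))) 
(.lf (.thr (.lf 0 131 11 120) (.lm 11 27 6 34 15 8 9) (.pot 1)))))) 
(.lf (.thr (.pot 1) (.lm 8 19 6 24 14 9 13) (.pot 1))))) (.y 1213 (.z 1158 
(.lf (.thr (.lf 1 129 8 122) (.lm 8 19 6 23 15 10 12) (.pot 1))) 
(.lf (.thr (.pot 0) (.lm 8 13 6 17 14 10 13) (.pot 1)))) (.z 1158 
(.lf (.thr (.lf 1 129 8 122) (.lm 8 25 6 30 15 9 12) (.pot 1))) 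
(.lf (.thr (.pot 0) (.lm 8 19 6 24 14 9 13) (.pot 1)))))))))))

theorem h14 : chk (leafT PP TD0 0 2) c14 0 32 765 866 1125 1170 1125 1226 = true := by
  decide +kernel

def c15 : Tree :=
  (.a 815 (.lf .inf) (.y 1276 (.a 840 (.y 1251 (.z 1147 (.a 827 (.y 1238 (.z 1136 (.t 16 
(.lf (.thr (.lf 1 129 6 124) (.lm 6 44 4 46 10 6 12) (.lf 4 126 1 129))) 
(.lf (.thr (.lf 0 131 12 119) (.lm 12 42 5 48 16 8 12) (.lf 5 125 0 131)))) (.t 16 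
(.lf (.thr (.pot 1) (.lm 6 39 4 40 10 6 12) (.lf 4 126 1 129))) (.a 821 (.lf (.low 0)) 
(.y 1232 (.z 1141 (.t 24 (.lf (.thr (.pot 0) (.lm 10 40 5 45 13 7 6) (.lf 5 125 0 131))) 
(.lf (.low 0))) (.lf (.thr (.pot 0) (.lm 11 36 6 43 15 8 6) (.lf 6 125 0 131)))) 
(.lf (.thr (.pot 0) (.lm 11 39 5 46 15 7 9) (.lf 5 125 0 131))))))) 
(.lf (.thr (.lf 0 131 9 122) (.lm 9 43 4 48 16 6 18) (.lf 4 126 0 131)))) (.y 1238 (.z 1136 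
(.t 16 (.a 833 (.y 1232 (.lf (.thr (.lf 2 129 6 124) (.lm 6 44 4 46 10 6 9) (.pot 0))) 
(.lf (.thr (.lf 2 129 6 124) (.lm 6 47 4 49 10 6 9) (.lf 4 126 2 129)))) 
(.lf (.thr (.lf 2 129 6 124) (.lm 6 44 4 46 10 6 12) (.pot 0)))) (.a 833 (.y 1232 (.z 1130 
(.t 24 (.lf (.thr (.lf 0 131 11 120) (.lm 11 45 5 51 13 7 6) (.lf 5 125 0 131))) (.lf (.low 0))) 
(.t 24 (.a 830 (.lf (.thr (.lf 0 131 10 120) (.lm 10 42 5 48 13 7 6) (.lf 5 125 0 131))) 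
(.lf (.thr (.lf 0 131 10 120) (.lm 10 42 5 48 13 7 6) (.pot 1)))) (.lf (.low 0)))) 
(.lf (.thr (.lf 0 131 12 119) (.lm 12 45 5 51 16 7 9) (.lf 5 125 0 131)))) (.y 1232 (.z 1130 
(.t 24 (.lf (.thr (.lf 0 131 11 120) (.lm 11 45 5 51 13 7 6) (.pot 0))) (.lf (.low 0))) (.t 24 
(.lf (.thr (.lf 0 131 10 120) (.lm 10 42 5 48 13 7 6) (.pot 0))) (.lf (.low 0)))) 
(.lf (.thr (.lf 0 131 12 119) (.lm 12 45 5 51 16 7 9) (.lf 5 125 0 131)))))) (.t 16 (.a 833 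
(.y 1232 (.lf (.thr (.pot 0) (.lm 6 39 4 40 10 6 9) (.pot 0))) (.z 1141 
(.lf (.thr (.pot 1) (.lm 6 45 4 46 10 6 6) (.pot 1))) 
(.lf (.thr (.pot 0) (.lm 6 42 4 43 10 6 6) (.pot 0))))) (.y 1232 
(.lf (.thr (.pot 0) (.lm 6 39 4 40 10 6 9) (.pot 0))) 
(.lf (.thr (.lf 2 129 6 124) (.lm 6 42 4 43 10 6 9) (.pot 1))))) (.a 833 (.y 1232 (.z 1141 
(.t 24 (.a 830 (.y 1229 (.z 1138 (.t 20 (.lf (.thr (.pot 0) (.lm 10 42 5 46 11 7 3) (.pot 0))) 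
(.lf (.low 0))) (.lf (.thr (.pot 1) (.lm 10 40 5 45 13 7 3) (.pot 1)))) 
(.lf (.thr (.pot 1) (.lm 10 41 5 47 13 7 4) (.lf 5 125 0 131)))) (.y 1229 (.z 1138 
(.lf (.thr (.lf 0 131 10 120) (.lm 10 41 5 47 13 7 3) (.pot 1))) 
(.lf (.thr (.pot 1) (.lm 10 40 5 45 13 7 3) (.pot 1)))) (.z 1138 
(.lf (.thr (.lf 0 131 10 120) (.lm 10 43 5 48 13 7 3) (.pot 1))) (.t 20 
(.lf (.thr (.pot 0) (.lm 10 42 5 46 11 6 3) (.pot 0))) (.lf (.low 0)))))) (.lf (.low 0))) 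
(.t 24 (.lf (.thr (.pot 1) (.lm 10 37 5 42 12 7 6) (.pot 1))) (.lf (.low 0)))) 
(.lf (.thr (.lf 0 131 11 119) (.lm 11 39 5 46 15 7 9) (.lf 5 125 0 131)))) (.y 1232 (.z 1141 
(.t 24 (.lf (.thr (.lf 0 131 10 120) (.lm 10 40 5 45 13 7 6) (.pot 1))) (.lf (.low 0))) (.t 24 
(.lf (.thr (.pot 0) (.lm 10 37 5 42 12 7 6) (.pot 1))) (.lf (.low 0)))) (.z 1141 (.t 24 
(.a 836 (.lf (.thr (.lf 0 131 10 120) (.lm 10 43 5 48 13 6 6) (.lf 5 126 0 131))) 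
(.lf (.thr (.lf 0 131 10 120) (.lm 10 43 5 48 13 6 6) (.pot 0)))) (.lf (.low 0))) (.t 24 
(.a 836 (.z 1144 (.lf (.thr (.lf 0 131 10 121) (.lm 10 41 5 47 12 6 5) (.lf 5 126 0 131))) 
(.lf (.thr (.pot 1) (.lm 10 40 5 45 12 6 5) (.pot 1)))) (.z 1144 
(.lf (.thr (.lf 0 131 10 121) (.lm 10 41 5 47 12 6 5) (.pot 1))) 
(.lf (.thr (.pot 0) (.lm 10 40 5 45 12 6 5) (.pot 1))))) (.lf (.low 0)))))))) (.z 1136 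
(.lf (.thr (.lf 0 130 9 121) (.lm 9 49 4 53 16 6 12) (.lf 4 126 0 130))) (.t 16 
(.lf (.thr (.lf 2 129 6 124) (.lm 6 44 4 47 10 6 12) (.lf 4 127 2 129))) 
(.lf (.thr (.lf 0 131 11 119) (.lm 11 42 4 49 15 6 12) (.lf 4 126 0 131))))))) (.a 827 
(.y 1238 (.z 1158 (.lf (.thr (.pot 0) (.lm 8 32 5 36 15 8 12) (.lf 5 126 0 131))) (.lf .inf)) 
(.lf .inf)) (.y 1238 (.z 1158 (.t 16 (.lf (.thr (.pot 0) (.lm 6 33 4 35 10 6 12) (.pot 0))) 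
(.a 833 (.y 1232 (.z 1152 (.t 24 (.lf (.thr (.pot 0) (.lm 10 34 5 40 12 7 6) (.pot 0))) 
(.lf (.low 0))) (.lf (.thr (.pot 1) (.lm 11 31 6 37 14 8 6) (.pot 1)))) 
(.lf (.thr (.pot 0) (.lm 11 34 5 40 15 7 9) (.lf 5 125 0 131)))) (.y 1232 (.z 1152 (.t 24 
(.lf (.thr (.pot 0) (.lm 10 34 5 40 12 7 6) (.pot 0))) (.lf (.low 0))) 
(.lf (.thr (.pot 0) (.lm 11 31 6 37 14 8 6) (.pot 1)))) (.z 1152 (.t 24 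
(.lf (.thr (.pot 0) (.lm 10 37 5 43 12 6 6) (.pot 0))) (.lf (.low 0))) 
(.lf (.thr (.pot 1) (.lm 11 34 5 40 14 7 6) (.pot 1))))))) (.t 16 
(.lf (.thr (.pot 0) (.lm 6 27 4 29 9 6 12) (.pot 0))) 
(.lf (.thr (.pot 1) (.lm 10 25 5 31 14 8 12) (.pot 1))))) (.z 1158 (.t 16 
(.lf (.thr (.pot 0) (.lm 6 39 4 41 10 6 12) (.lf 4 127 2 129))) 
(.lf (.thr (.pot 1) (.lm 11 36 4 44 15 6 12) (.lf 4 126 0 131)))) 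
(.lf (.thr (.pot 0) (.lm 8 32 4 36 14 6 13) (.lf 4 126 0 130))))))) (.z 1147 
(.lf (.thr (.lf 0 131 9 122) (.lm 9 49 3 55 16 5 24) (.lf 3 127 0 131))) 
(.lf (.thr (.pot 0) (.lm 8 38 3 43 15 5 24) (.lf 3 127 0 131))))) (.y 1251 (.z 1147 (.a 853 
(.y 1238 (.z 1136 (.t 16 (.lf (.thr (.lf 2 128 6 124) (.lm 6 44 4 46 10 6 12) (.pot 0))) 
(.a 846 (.y 1232 (.lf (.thr (.lf 0 131 12 119) (.lm 12 42 6 48 16 8 9) (.pot 0))) 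
(.lf (.thr (.lf 0 131 12 119) (.lm 12 45 5 51 16 7 9) (.pot 1)))) 
(.lf (.thr (.lf 0 131 12 119) (.lm 12 42 5 48 16 8 12) (.pot 0))))) (.t 16 
(.lf (.thr (.lf 2 128 6 124) (.lm 6 39 4 40 10 6 12) (.pot 0))) (.a 846 (.y 1232 (.z 1141 
(.lf (.thr (.lf 0 131 12 119) (.lm 12 39 6 46 15 8 6) (.pot 1))) (.t 24 
(.lf (.thr (.lf 0 131 10 121) (.lm 10 37 5 42 12 7 6) (.pot 0))) (.lf (.low 0)))) (.z 1141 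
(.lf (.thr (.lf 0 131 12 119) (.lm 12 42 5 49 15 7 6) (.pot 1))) (.t 24 
(.lf (.thr (.lf 0 131 10 121) (.lm 10 40 5 45 12 6 6) (.pot 0))) (.lf (.low 0))))) 
(.lf (.thr (.lf 0 131 11 119) (.lm 11 36 5 43 15 8 12) (.pot 1)))))) (.z 1136 (.t 16 
(.lf (.thr (.lf 2 128 6 124) (.lm 6 50 4 52 10 6 12) (.pot 0))) (.a 846 
(.lf (.thr (.lf 0 131 12 119) (.lm 12 47 4 55 16 6 12) (.lf 4 126 0 131))) (.y 1244 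
(.lf (.thr (.lf 0 131 12 119) (.lm 12 48 5 54 16 6 9) (.pot 0))) 
(.lf (.thr (.lf 0 131 12 119) (.lm 12 50 4 58 16 6 9) (.pot 1)))))) (.t 16 
(.lf (.thr (.lf 2 128 6 124) (.lm 6 44 4 47 10 6 12) (.pot 0))) (.a 846 (.y 1244 (.z 1141 
(.lf (.thr (.lf 0 131 12 119) (.lm 12 45 5 52 15 6 6) (.lf 5 126 0 131))) (.t 24 
(.lf (.thr (.lf 0 131 10 121) (.lm 10 43 5 48 12 6 6) (.pot 1))) (.lf (.low 0)))) 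
(.lf (.thr (.lf 0 131 11 119) (.lm 11 45 4 52 15 6 9) (.lf 4 126 0 131)))) (.y 1244 
(.lf (.thr (.lf 0 131 11 119) (.lm 11 42 5 49 15 6 9) (.pot 1))) 
(.lf (.thr (.lf 0 131 11 119) (.lm 11 45 4 52 15 6 9) (.lf 4 126 0 131)))))))) (.y 1238 
(.lf (.thr (.lf 1 129 9 122) (.lm 9 37 5 42 16 8 17) (.pot 0))) (.z 1136 
(.lf (.thr (.lf 1 129 9 121) (.lm 9 49 4 53 16 6 12) (.pot 1))) (.t 16 
(.lf (.thr (.lf 2 128 6 124) (.lm 6 44 4 47 10 6 12) (.pot 0))) 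
(.lf (.thr (.lf 0 130 11 119) (.lm 11 42 4 49 15 6 12) (.pot 0))))))) (.a 853 (.y 1238 
(.z 1158 (.t 16 (.lf (.thr (.pot 0) (.lm 6 33 4 35 10 6 12) (.pot 0))) (.a 846 (.y 1232 
(.z 1152 (.t 24 (.lf (.thr (.pot 0) (.lm 10 34 5 40 12 7 6) (.pot 0))) (.lf (.low 0))) 
(.lf (.thr (.pot 0) (.lm 11 31 6 37 14 8 6) (.pot 1)))) (.z 1152 (.t 24 
(.lf (.thr (.pot 0) (.lm 10 37 5 43 12 6 6) (.pot 0))) (.lf (.low 0))) 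
(.lf (.thr (.pot 1) (.lm 11 34 5 40 14 7 6) (.pot 1))))) (.y 1232 (.z 1152 
(.lf (.thr (.lf 0 131 11 120) (.lm 11 34 6 40 15 8 6) (.pot 1))) 
(.lf (.thr (.pot 0) (.lm 11 31 6 37 14 8 6) (.pot 1)))) (.z 1152 
(.lf (.thr (.lf 0 131 11 120) (.lm 11 37 5 43 15 7 6) (.pot 1))) 
(.lf (.thr (.pot 0) (.lm 11 34 5 40 14 7 6) (.pot 1))))))) (.t 16 
(.lf (.thr (.pot 0) (.lm 6 27 4 29 9 6 12) (.pot 0))) 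
(.lf (.thr (.pot 1) (.lm 10 25 5 31 14 8 12) (.pot 1))))) (.z 1158 (.t 16 (.a 846 (.y 1244 
(.lf (.thr (.pot 0) (.lm 6 39 4 41 10 6 9) (.pot 0))) 
(.lf (.thr (.pot 0) (.lm 6 42 4 44 10 5 9) (.pot 1)))) 
(.lf (.thr (.lf 2 128 6 124) (.lm 6 39 4 41 10 6 12) (.pot 0)))) (.a 846 (.y 1244 (.z 1152 
(.t 24 (.a 843 (.lf (.thr (.lf 0 131 10 121) (.lm 10 40 5 46 12 6 6) (.lf 5 126 0 131))) 
(.lf (.thr (.lf 0 131 10 121) (.lm 10 40 5 46 12 6 6) (.pot 0)))) (.lf (.low 0))) (.t 24 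
(.lf (.thr (.pot 0) (.lm 10 37 5 43 12 6 6) (.pot 0))) (.lf (.low 0)))) 
(.lf (.thr (.lf 0 131 11 120) (.lm 11 39 4 47 15 6 9) (.lf 4 126 0 131)))) (.y 1244 (.z 1152 
(.t 24 (.lf (.thr (.lf 0 130 10 121) (.lm 10 40 5 46 12 6 6) (.pot 0))) (.lf (.low 0))) (.t 24 
(.lf (.thr (.pot 0) (.lm 10 37 5 43 12 6 6) (.pot 0))) (.lf (.low 0)))) (.z 1152 
(.lf (.thr (.lf 0 131 11 120) (.lm 11 43 4 49 15 6 6) (.lf 4 126 0 131))) (.t 24 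
(.lf (.thr (.pot 0) (.lm 10 40 4 46 12 5 7) (.pot 1))) (.lf (.low 0))))))) (.t 16 
(.lf (.thr (.pot 0) (.lm 6 33 4 35 9 6 13) (.pot 0))) (.a 846 (.y 1244 
(.lf (.thr (.pot 1) (.lm 10 31 5 37 14 6 9) (.pot 1))) 
(.lf (.thr (.pot 0) (.lm 10 34 4 40 14 6 10) (.lf 4 126 0 131)))) (.y 1244 
(.lf (.thr (.pot 0) (.lm 10 31 5 37 14 6 9) (.pot 1))) (.z 1164 (.t 24 
(.lf (.thr (.pot 0) (.lm 9 37 4 43 12 5 7) (.pot 0))) (.lf (.low 0))) 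
(.lf (.thr (.pot 0) (.lm 10 34 4 40 14 6 7) (.pot 0))))))))) (.y 1238 (.z 1158 (.t 16 
(.lf (.thr (.pot 0) (.lm 6 33 4 35 10 6 12) (.pot 0))) 
(.lf (.thr (.lf 0 130 11 120) (.lm 11 31 5 37 15 8 12) (.pot 1)))) (.t 16 
(.lf (.thr (.pot 0) (.lm 6 27 4 29 9 6 12) (.pot 0))) 
(.lf (.thr (.pot 0) (.lm 10 25 5 31 14 8 12) (.pot 1))))) (.z 1158 (.t 16 
(.lf (.thr (.lf 2 128 6 124) (.lm 6 39 4 41 10 6 12) (.pot 0))) (.a 859 (.y 1244 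
(.lf (.thr (.lf 0 131 11 120) (.lm 11 37 5 43 15 6 9) (.pot 0))) 
(.lf (.thr (.lf 0 131 11 120) (.lm 11 39 4 47 15 6 9) (.pot 1)))) 
(.lf (.thr (.lf 0 130 11 120) (.lm 11 36 4 44 15 6 12) (.pot 0))))) (.t 16 
(.lf (.thr (.pot 0) (.lm 6 33 4 35 9 6 13) (.pot 0))) (.a 859 (.y 1244 
(.lf (.thr (.pot 0) (.lm 10 31 5 37 14 6 9) (.pot 1))) (.z 1164 (.t 24 
(.lf (.thr (.pot 0) (.lm 9 37 4 43 12 5 7) (.pot 0))) 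
(.lf (.thr (.pot 0) (.lm 12 36 4 44 14 6 7) (.pot 1)))) 
(.lf (.thr (.pot 0) (.lm 10 34 4 40 14 6 7) (.pot 0))))) 
(.lf (.thr (.lf 0 130 10 120) (.lm 10 30 4 38 14 6 13) (.pot 1))))))))) (.z 1147 (.a 853 
(.lf (.thr (.lf 1 130 9 122) (.lm 9 49 3 55 16 5 24) (.lf 3 127 1 130))) (.y 1263 (.z 1136 
(.t 16 (.lf (.thr (.lf 2 128 6 124) (.lm 6 56 4 59 10 5 12) (.pot 0))) 
(.lf (.thr (.lf 0 130 12 119) (.lm 12 54 3 61 16 5 12) (.lf 3 127 0 130)))) (.t 16 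
(.lf (.thr (.lf 2 128 6 124) (.lm 6 51 4 53 10 5 12) (.pot 0))) 
(.lf (.thr (.lf 0 130 11 119) (.lm 11 48 3 56 15 5 12) (.lf 3 127 0 130))))) 
(.lf (.thr (.lf 1 129 9 122) (.lm 9 55 3 61 16 5 18) (.lf 3 128 1 129))))) (.a 853 (.y 1263 
(.z 1158 (.lf (.thr (.lf 1 130 8 122) (.lm 8 44 3 49 15 5 12) (.lf 3 127 1 130))) 
(.lf (.thr (.pot 0) (.lm 8 38 3 43 14 5 12) (.lf 3 127 1 130)))) 
(.lf (.thr (.pot 0) (.lm 8 44 3 49 15 5 18) (.lf 3 128 1 130)))) (.y 1263 (.z 1158 (.t 16 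
(.lf (.thr (.lf 2 128 6 124) (.lm 6 45 4 48 10 5 12) (.pot 0))) (.a 859 
(.lf (.thr (.lf 0 131 11 120) (.lm 11 43 3 50 15 5 12) (.lf 3 127 0 131))) 
(.lf (.thr (.lf 0 130 11 120) (.lm 11 43 3 50 15 5 12) (.pot 1))))) (.t 16 
(.lf (.thr (.pot 0) (.lm 6 39 4 42 9 5 12) (.pot 0))) (.a 859 (.z 1164 
(.lf (.thr (.lf 0 131 10 120) (.lm 10 40 3 47 14 5 9) (.lf 3 127 0 131))) (.y 1257 
(.lf (.thr (.pot 0) (.lm 10 37 4 44 14 5 6) (.pot 0))) 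
(.lf (.thr (.pot 0) (.lm 10 40 3 47 14 5 6) (.pot 1))))) (.z 1164 
(.lf (.thr (.lf 0 130 10 120) (.lm 10 40 3 47 14 5 9) (.pot 1))) (.y 1257 
(.lf (.thr (.pot 0) (.lm 10 37 4 44 14 5 6) (.pot 0))) 
(.lf (.thr (.pot 0) (.lm 10 40 3 47 14 5 6) (.pot 1)))))))) 
(.lf (.thr (.lf 1 129 8 122) (.lm 8 44 3 49 15 5 18) (.lf 3 128 1 129)))))))) 
(.lf (.thr (.lf 0 130 9 122) (.lm 9 50 1 56 16 5 48) (.lf 1 104 0 104)))))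

theorem h15 : chk (leafT PP TD0 0 2) c15 0 32 765 866 1125 1170 1226 1327 = true := by
  decide +kernel

def c16 : Tree :=
  (.y 1226 (.a 916 (.y 1175 (.lf .inf) (.y 1200 (.lf .inf) (.a 891 (.z 1147 
(.lf (.thr (.lf 2 120 9 114) (.lm 9 24 6 29 16 10 24) (.pot 0))) (.y 1213 (.lf .inf) 
(.lf (.thr (.lf 2 128 8 122) (.lm 8 19 6 24 15 9 18) (.pot 1))))) (.lf .inf)))) (.lf .inf)) 
(.a 916 (.y 1276 (.a 891 (.y 1251 (.z 1147 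
(.lf (.thr (.lf 2 120 9 114) (.lm 9 37 4 42 16 8 24) (.pot 0))) (.a 878 (.y 1238 
(.lf (.thr (.lf 2 129 8 122) (.lm 8 26 5 30 15 8 18) (.pot 1))) 
(.lf (.thr (.lf 2 129 8 122) (.lm 8 32 4 36 15 6 18) (.pot 1)))) 
(.lf (.thr (.lf 2 128 8 122) (.lm 8 25 4 31 15 8 24) (.pot 0))))) (.z 1147 (.a 878 (.y 1263 
(.lf (.thr (.lf 2 127 9 120) (.lm 9 49 3 55 16 5 17) (.pot 0))) (.z 1136 
(.lf (.thr (.lf 2 127 9 120) (.lm 9 61 3 66 16 5 12) (.lf 3 128 2 129))) 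
(.lf (.thr (.lf 2 129 9 122) (.lm 9 55 3 61 16 5 12) (.lf 3 128 2 129))))) 
(.lf (.thr (.lf 2 120 9 114) (.lm 9 49 3 55 16 5 24) (.pot 0)))) (.a 878 (.y 1263 (.z 1158 
(.lf (.thr (.lf 2 129 8 122) (.lm 8 44 3 49 15 5 12) (.pot 0))) 
(.lf (.thr (.lf 2 129 8 122) (.lm 8 38 3 43 14 5 12) (.pot 1)))) (.z 1158 (.t 16 
(.lf (.thr (.lf 3 128 6 124) (.lm 6 51 3 54 10 5 12) (.pot 0))) 
(.lf (.thr (.lf 1 130 11 120) (.lm 11 49 2 56 15 4 12) (.pot 0)))) (.t 16 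
(.lf (.thr (.lf 3 128 6 125) (.lm 6 45 3 48 9 5 13) (.pot 0))) 
(.lf (.thr (.lf 1 130 10 120) (.lm 10 43 2 50 14 4 13) (.lf 2 128 1 130)))))) (.y 1263 
(.lf (.thr (.lf 2 128 8 122) (.lm 8 38 3 43 15 5 18) (.pot 0))) 
(.lf (.thr (.lf 2 128 8 122) (.lm 8 44 3 49 15 5 18) (.pot 0))))))) (.y 1251 
(.lf (.thr (.lf 4 107 9 102) (.lm 9 25 4 31 16 8 35) (.pot 0))) 
(.lf (.thr (.lf 4 107 9 102) (.lm 9 38 3 43 16 5 35) (.pot 1))))) (.y 1301 (.a 891 (.z 1147 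
(.lf (.thr (.lf 2 120 9 114) (.lm 9 61 2 68 16 5 24) (.lf 2 129 2 128))) (.a 878 
(.lf (.thr (.lf 2 129 8 122) (.lm 8 50 2 56 15 5 24) (.lf 2 129 2 129))) (.y 1288 
(.lf (.thr (.lf 2 128 8 122) (.lm 8 50 2 56 15 5 18) (.lf 2 128 2 128))) 
(.lf (.thr (.lf 2 128 8 122) (.lm 8 56 1 62 15 5 18) (.lf 1 129 2 128)))))) (.z 1147 (.a 903 
(.y 1288 (.lf (.thr (.lf 3 114 9 108) (.lm 9 62 2 67 16 5 17) (.pot 0))) 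
(.lf (.thr (.lf 3 114 9 108) (.lm 9 67 1 74 16 5 18) (.pot 1)))) 
(.lf (.thr (.lf 4 107 9 102) (.lm 9 61 2 68 16 5 24) (.pot 0)))) (.a 903 (.y 1288 
(.lf (.thr (.lf 3 124 8 120) (.lm 8 50 2 56 15 5 18) (.pot 0))) 
(.lf (.thr (.lf 3 124 8 120) (.lm 8 56 1 62 15 5 18) (.pot 0)))) 
(.lf (.thr (.lf 4 118 8 113) (.lm 8 50 2 56 15 5 24) (.pot 0)))))) (.a 891 
(.lf (.thr (.lf 2 120 9 114) (.lm 9 62 1 69 16 5 36) (.lf 1 130 2 128))) (.z 1147 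
(.lf (.thr (.lf 4 107 9 102) (.lm 9 74 1 80 16 5 24) (.lf 1 130 4 127))) 
(.lf (.thr (.lf 4 118 8 113) (.lm 8 62 1 69 15 5 25) (.lf 1 130 4 127))))))) (.y 1276 
(.lf (.thr (.lf 6 80 9 78) (.lm 9 25 4 31 16 8 48) (.pot 1))) (.a 941 (.y 1301 
(.lf (.thr (.lf 5 94 9 90) (.lm 9 50 2 56 16 5 35) (.pot 0))) (.z 1147 (.y 1314 
(.lf (.thr (.lm 5 94 9 90 9 16 24) (.lm 9 74 1 80 16 5 18) (.pot 0))) 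
(.lf (.thr (.lm 5 94 9 90 9 16 24) (.lm 9 80 0 87 16 5 18) (.pot 0)))) 
(.lf (.thr (.lf 5 105 8 101) (.lm 8 62 1 69 15 5 25) (.pot 0))))) 
(.lf (.thr (.lm 6 80 9 78 11 16 36) (.lm 9 50 1 56 16 5 48) (.pot 1)))))))

theorem h16 : chk (leafT PP TD0 0 2) c16 0 32 866 967 1125 1170 1125 1327 = true := by
  decide +kernel

def c17 : Tree :=
  (.y 1428 (.a 866 (.a 815 (.lf .inf) (.y 1377 
(.lf (.thr (.lf 0 130 9 122) (.lf 9 75 0 82) (.lf 0 79 0 79))) (.lf .inf))) (.a 916 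
(.lf (.thr (.lf 3 107 9 102) (.lf 9 75 0 82) (.lf 0 80 3 78))) (.y 1377 (.a 941 
(.lf (.thr (.lf 5 94 9 90) (.lf 9 75 0 82) (.lf 0 131 5 126))) (.y 1352 (.z 1147 (.a 954 
(.lf (.thr (.lm 6 87 9 84 10 16 18) (.lm 9 86 0 94 16 5 24) (.lf 0 131 6 125))) 
(.lf (.thr (.lm 7 80 9 78 11 16 18) (.lm 9 86 0 94 16 5 24) (.pot 0)))) 
(.lf (.thr (.lm 6 91 8 89 11 15 25) (.lm 8 75 0 82 15 5 24) (.pot 0)))) 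
(.lf (.thr (.lm 6 80 9 78 11 16 36) (.lf 9 87 0 95) (.lf 0 131 6 124))))) 
(.lf (.thr (.lf 6 80 9 78) (.lf 9 99 0 108) (.lf 0 107 6 101)))))) (.a 866 (.lf .inf) (.y 1479 
(.a 916 (.lf .inf) (.lf (.thr (.lf 6 80 9 78) (.lf 9 122 0 131) (.lf 0 81 6 76)))) (.lf .inf))))

theorem h17 : chk (leafT PP TD0 0 2) c17 0 32 765 967 1125 1170 1327 1530 = true := by
  decide +kernel

def c18 : Tree :=
  (.a 1068 (.y 1226 (.lf .inf) (.a 1017 (.y 1276 (.lf .inf) 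
(.lf (.thr (.lm 8 54 9 54 15 16 48) (.lm 9 50 1 56 16 5 48) (.pot 0)))) (.lf .inf))) (.lf .inf))

theorem h18 : chk (leafT PP TD0 0 2) c18 0 32 967 1170 1125 1170 1125 1327 = true := by
  decide +kernel

def c19 : Tree :=
  (.a 1017 (.y 1377 (.a 992 (.y 1352 
(.lf (.thr (.lm 7 67 9 66 13 16 35) (.lm 9 75 0 82 16 5 35) (.pot 0))) (.z 1147 (.a 979 
(.y 1364 (.lf (.thr (.lm 7 74 9 72 12 16 17) (.lf 9 98 0 107) (.pot 0))) 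
(.lf (.thr (.lm 7 74 9 72 12 16 17) (.lf 9 104 0 113) (.lf 0 131 7 123)))) 
(.lf (.thr (.lm 8 67 9 66 13 16 18) (.lf 9 98 0 107) (.pot 0)))) 
(.lf (.thr (.lm 7 78 8 77 13 15 24) (.lm 8 87 0 95 15 5 24) (.pot 0))))) 
(.lf (.thr (.lm 8 54 9 54 15 16 35) (.lf 9 75 0 82) (.pot 0)))) (.y 1402 (.a 992 (.z 1147 
(.lf (.thr (.lm 7 67 9 66 13 16 24) (.lf 9 111 0 119) (.lf 0 131 7 123))) 
(.lf (.thr (.lm 7 78 8 77 13 15 24) (.lf 8 100 0 107) (.lf 0 131 7 123)))) (.z 1147 (.a 1004 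
(.y 1389 (.lf (.thr (.lm 8 61 9 60 14 16 17) (.lf 9 111 0 119) (.pot 0))) (.z 1136 (.t 16 
(.lf (.thr (.lm 6 61 6 60 9 10 12) (.lf 6 124 1 129) (.pot 0))) (.lf (.low 2))) 
(.lf (.thr (.lm 8 66 9 66 14 16 12) (.lf 9 117 0 125) (.lf 0 131 8 122))))) (.y 1389 
(.lf (.thr (.lm 9 54 9 54 15 16 18) (.lf 9 111 0 119) (.pot 0))) 
(.lf (.thr (.lm 9 54 9 54 15 16 18) (.lf 9 116 0 126) (.pot 1))))) (.a 1004 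
(.lf (.thr (.lm 8 72 8 71 14 15 18) (.lf 8 100 0 107) (.pot 1))) 
(.lf (.thr (.lm 9 65 8 65 15 15 18) (.lf 8 100 0 107) (.pot 0)))))) (.a 992 
(.lf (.thr (.lm 7 67 9 66 13 16 35) (.lf 9 112 0 120) (.lf 0 131 7 123))) (.z 1147 (.y 1415 
(.a 1004 (.lf (.thr (.lm 8 61 9 60 14 16 17) (.lf 9 122 0 131) (.lf 0 131 8 122))) (.z 1136 
(.t 16 (.lf (.thr (.lm 6 54 6 54 10 10 12) (.lf 6 124 0 130) (.pot 0))) (.lf (.low 2))) 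
(.lf (.thr (.lm 9 60 9 59 15 16 12) (.lf 9 122 0 131) (.lf 0 131 9 122))))) (.a 1004 
(.lf (.thr (.lm 8 61 9 60 14 16 17) (.lf 9 122 0 131) (.lf 0 131 8 122))) (.z 1136 (.t 16 
(.lf (.thr (.lm 6 54 6 54 10 10 12) (.lf 6 124 0 130) (.lf 0 130 6 124))) (.lf (.low 2))) 
(.lf (.thr (.lm 9 60 9 59 15 16 12) (.lf 9 122 0 131) (.lf 0 131 9 122)))))) 
(.lf (.thr (.lm 8 65 8 65 15 15 24) (.lf 8 112 0 120) (.lf 0 131 8 122))))))) (.y 1377 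
(.lf (.thr (.lm 9 28 9 29 17 16 48) (.lf 9 75 0 82) (.pot 0))) (.a 1042 (.y 1402 
(.lf (.thr (.lm 9 41 9 42 17 16 35) (.lf 9 99 0 108) (.pot 1))) (.z 1147 (.y 1415 (.a 1029 
(.z 1136 (.t 16 (.lf (.thr (.lm 6 48 6 48 10 10 12) (.lf 6 124 0 130) (.pot 0))) (.lf (.low 2))) 
(.lf (.thr (.lm 9 53 9 54 16 16 12) (.lf 9 122 0 131) (.pot 0)))) 
(.lf (.thr (.lm 9 41 9 42 16 16 18) (.lf 9 122 0 131) (.pot 1)))) (.a 1029 (.z 1136 (.t 16 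
(.y 1421 (.lf (.thr (.lm 6 48 6 48 10 10 12) (.lf 6 124 0 130) (.pot 0))) 
(.lf (.thr (.lm 6 48 6 48 10 10 12) (.lf 6 124 0 130) (.lf 0 130 6 124)))) (.lf (.low 2))) 
(.t 16 (.lf (.thr (.lm 6 53 6 54 10 10 12) (.lf 6 124 0 130) (.pot 0))) (.lf (.low 2)))) 
(.z 1136 (.t 16 (.lf (.thr (.lm 6 41 6 42 10 10 12) (.lf 6 124 0 130) (.pot 0))) (.lf (.low 2))) 
(.t 16 (.lf (.thr (.lm 6 47 6 47 10 10 12) (.lf 6 124 0 130) (.pot 0))) (.lf (.low 2)))))) 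
(.y 1415 (.lf (.thr (.lm 9 52 8 53 17 15 24) (.lf 8 112 0 120) (.pot 0))) (.a 1029 
(.lf (.thr (.lm 9 59 8 59 16 15 18) (.lf 8 118 0 127) (.lf 0 131 9 122))) 
(.lf (.thr (.lm 9 52 8 53 16 15 18) (.lf 8 118 0 127) (.pot 1))))))) (.y 1402 
(.lf (.thr (.lm 10 28 9 29 17 16 36) (.lf 9 99 0 108) (.pot 0))) (.z 1147 (.a 1055 (.y 1415 
(.lf (.thr (.lm 10 35 9 35 17 16 18) (.lf 9 122 0 131) (.pot 0))) (.z 1136 (.t 16 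
(.lf (.thr (.lm 7 35 6 35 11 10 12) (.lf 6 124 0 130) (.pot 0))) (.lf (.low 2))) 
(.lf (.thr (.lm 10 40 9 41 17 16 12) (.lf 9 122 0 131) (.pot 0))))) 
(.lf (.thr (.lm 10 28 9 29 17 16 18) (.lf 9 122 0 131) (.pot 1)))) 
(.lf (.thr (.lm 10 39 8 40 17 15 25) (.lf 8 112 0 120) (.pot 0))))))))

theorem h19 : chk (leafT PP TD0 0 2) c19 0 32 967 1068 1125 1170 1327 1428 = true := by
  decide +kernel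

def c20 : Tree :=
  (.y 1453 (.a 992 (.lf (.thr (.lm 7 67 9 66 13 16 35) (.lf 9 122 0 131) (.lf 0 121 7 113))) 
(.z 1147 (.a 1004 (.lf (.thr (.lm 8 61 9 60 14 16 17) (.lf 9 122 0 131) (.lf 0 131 8 122))) 
(.y 1440 (.z 1136 (.t 16 
(.lf (.thr (.lm 6 54 6 54 10 10 12) (.lf 6 124 0 130) (.lf 0 130 6 124))) (.lf (.low 2))) 
(.lf (.thr (.lm 9 60 9 59 15 16 12) (.lf 9 122 0 131) (.lf 0 131 9 122)))) (.z 1136 (.lf .inf) 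
(.lf (.thr (.lm 9 60 9 59 15 16 12) (.lf 9 122 0 131) (.lf 0 131 9 122)))))) 
(.lf (.thr (.lm 8 65 8 65 15 15 24) (.lf 8 122 0 131) (.lf 0 131 8 122))))) (.a 992 (.lf .inf) 
(.z 1147 (.lf .inf) (.lf (.thr (.lm 8 65 8 65 15 15 24) (.lf 8 122 0 131) (.lf 0 121 8 112))))))

theorem h20 : chk (leafT PP TD0 0 2) c20 0 32 967 1017 1125 1170 1428 1479 = true := by
  decide +kernel

def c21 : Tree :=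
  (.y 1453 (.z 1147 (.a 1029 (.y 1440 (.z 1136 (.t 16 
(.lf (.thr (.lm 6 48 6 48 10 10 12) (.lf 6 124 0 130) (.lf 0 130 6 124))) (.lf (.low 2))) 
(.t 16 (.lf (.thr (.lm 6 53 6 54 10 10 12) (.lf 6 124 0 130) (.lf 0 130 6 124))) (.lf (.low 2)))) 
(.z 1136 (.t 16 (.lf (.thr (.lm 6 48 6 48 10 10 12) (.lf 6 124 0 130) (.lf 0 130 6 124))) 
(.lf (.low 2))) (.t 16 
(.lf (.thr (.lm 6 53 6 54 10 10 12) (.lf 6 124 0 130) (.lf 0 130 6 124))) (.lf (.low 2))))) 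
(.y 1440 (.z 1136 (.t 16 (.a 1035 (.y 1434 (.z 1130 (.t 8 
(.lf (.thr (.lm 5 45 5 45 7 7 6) (.pot 0) (.pot 0))) 
(.lf (.thr (.lm 8 45 8 45 10 10 6) (.lf 8 123 0 131) (.pot 0)))) 
(.lf (.thr (.lm 6 47 6 48 10 10 6) (.lf 6 124 0 130) (.pot 0)))) (.z 1130 (.t 8 
(.lf (.thr (.lm 5 45 5 45 7 7 6) (.pot 0) (.pot 0))) (.a 1032 
(.lf (.thr (.lm 8 47 8 46 10 10 4) (.lf 8 123 0 131) (.lf 0 131 8 123))) (.y 1437 (.z 1127 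
(.t 12 (.lf (.thr (.lm 7 45 7 45 9 9 3) (.lf 7 123 0 131) (.pot 0))) (.lf (.low 2))) 
(.lf (.thr (.lm 8 46 8 46 10 10 3) (.lf 8 123 0 131) (.pot 0)))) (.z 1127 (.t 12 
(.lf (.thr (.lm 7 45 7 45 9 9 3) (.lf 7 123 0 131) (.pot 0))) (.lf (.low 2))) (.t 12 
(.lf (.thr (.lm 7 46 7 46 9 9 3) (.lf 7 123 0 131) (.pot 0))) (.lf (.low 2))))))) (.t 8 
(.lf (.thr (.lm 5 47 5 48 7 7 6) (.lf 5 126 2 128) (.pot 0))) 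
(.lf (.thr (.lm 8 47 8 48 10 10 6) (.lf 8 123 0 131) (.lf 0 131 8 123)))))) (.y 1434 
(.lf (.thr (.lm 6 41 6 42 10 10 9) (.lf 6 124 0 130) (.pot 0))) (.z 1130 (.t 8 
(.lf (.thr (.lm 5 41 5 42 7 7 6) (.pot 0) (.pot 0))) (.a 1038 (.y 1437 
(.lf (.thr (.lm 8 43 8 44 10 10 4) (.lf 8 123 0 131) (.pot 0))) (.z 1127 (.t 12 
(.lf (.thr (.lm 7 43 7 44 9 9 3) (.pot 0) (.pot 0))) (.lf (.low 2))) (.t 12 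
(.lf (.thr (.lm 7 44 7 45 9 9 3) (.lf 7 123 0 131) (.pot 0))) (.lf (.low 2))))) (.y 1437 
(.lf (.thr (.lm 8 41 8 42 10 10 5) (.lf 8 123 0 131) (.pot 0))) (.z 1127 (.t 12 
(.lf (.thr (.lm 7 41 7 42 9 9 3) (.pot 0) (.pot 0))) (.lf (.low 2))) 
(.lf (.thr (.lm 8 42 8 43 10 10 4) (.lf 8 123 0 131) (.pot 1))))))) (.t 8 
(.lf (.thr (.lm 5 44 5 44 7 7 7) (.pot 0) (.pot 0))) 
(.lf (.thr (.lm 8 44 8 44 10 10 7) (.lf 8 123 0 131) (.pot 1))))))) (.lf (.low 2))) (.t 16 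
(.a 1035 (.lf (.thr (.lm 6 50 6 51 10 10 9) (.lf 6 124 0 130) (.lf 0 130 6 124))) 
(.lf (.thr (.lm 6 47 6 47 10 10 9) (.lf 6 124 0 130) (.pot 0)))) (.lf (.low 2)))) (.z 1136 
(.t 16 (.a 1035 (.y 1446 (.z 1130 (.t 8 (.lf (.thr (.lm 5 45 5 45 7 7 6) (.pot 0) (.pot 0))) 
(.a 1032 (.lf (.thr (.lm 8 47 8 46 10 10 4) (.lf 8 123 0 131) (.lf 0 131 8 123))) (.y 1443 
(.z 1127 (.t 12 (.lf (.thr (.lm 7 45 7 45 9 9 3) (.pot 1) (.pot 1))) (.lf (.low 2))) (.t 12 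
(.lf (.thr (.lm 7 46 7 46 9 9 3) (.lf 7 123 0 131) (.lf 0 131 7 123))) (.lf (.low 2)))) 
(.lf .inf)))) (.t 8 (.lf (.thr (.lm 5 47 5 48 7 7 6) (.pot 0) (.lf 2 128 5 126))) 
(.lf (.thr (.lm 8 47 8 48 10 10 6) (.lf 8 123 0 131) (.lf 0 131 8 123))))) (.lf .inf)) 
(.y 1446 (.z 1130 (.t 8 (.lf (.thr (.lm 5 41 5 42 7 7 6) (.pot 0) (.pot 0))) (.a 1038 (.y 1443 
(.z 1127 (.t 12 (.lf (.thr (.lm 7 43 7 44 9 9 3) (.pot 0) (.pot 0))) (.lf (.low 2))) (.t 12 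
(.lf (.thr (.lm 7 44 7 45 9 9 3) (.pot 1) (.pot 1))) (.lf (.low 2)))) (.z 1127 (.lf .inf) 
(.t 12 (.lf (.thr (.lm 7 44 7 45 9 9 3) (.pot 1) (.pot 1))) (.lf (.low 2))))) (.y 1443 
(.z 1127 (.t 12 (.lf (.thr (.lm 7 41 7 42 9 9 3) (.pot 0) (.pot 0))) (.lf (.low 2))) (.t 12 
(.lf (.thr (.lm 7 42 7 43 9 9 4) (.pot 0) (.pot 0))) (.lf (.low 2)))) (.z 1127 (.t 12 
(.lf (.thr (.lm 7 41 7 42 9 9 3) (.pot 0) (.pot 0))) (.lf (.low 2))) (.t 12 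
(.lf (.thr (.lm 7 42 7 43 9 9 4) (.pot 0) (.pot 0))) (.lf (.low 2))))))) (.t 8 
(.lf (.thr (.lm 5 44 5 44 7 7 7) (.pot 0) (.pot 0))) (.a 1038 (.z 1133 (.y 1443 (.t 12 
(.lf (.thr (.lm 7 46 7 46 9 9 3) (.lf 7 124 0 131) (.pot 0))) (.lf (.low 2))) (.t 12 
(.lf (.thr (.lm 7 46 7 46 9 9 3) (.lf 7 124 0 131) (.lf 0 131 7 123))) (.lf (.low 2)))) 
(.lf (.thr (.lm 8 47 8 48 10 10 3) (.lf 8 123 0 131) (.lf 0 131 8 123)))) (.z 1133 (.y 1443 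
(.t 12 (.lf (.thr (.lm 7 44 7 44 9 9 4) (.lf 7 124 0 131) (.pot 0))) (.lf (.low 2))) (.t 12 
(.lf (.thr (.lm 7 44 7 44 9 9 4) (.pot 1) (.pot 1))) (.lf (.low 2)))) (.y 1443 
(.lf (.thr (.lm 8 45 8 46 10 10 4) (.lf 8 123 0 131) (.pot 0))) (.t 12 
(.lf (.thr (.lm 7 45 7 46 9 9 4) (.lf 7 124 0 131) (.pot 0))) (.lf (.low 2)))))))) (.z 1130 
(.t 8 (.lf (.thr (.lm 5 41 5 42 7 7 6) (.pot 0) (.pot 0))) (.a 1038 (.lf .inf) (.y 1449 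
(.z 1127 (.lf .inf) (.t 12 (.lf (.thr (.lm 7 42 7 43 9 9 4) (.pot 0) (.pot 0))) (.lf (.low 2)))) 
(.lf .inf)))) (.t 8 (.lf (.thr (.lm 5 44 5 44 7 7 7) (.pot 0) (.pot 0))) (.a 1038 (.y 1449 
(.z 1133 (.lf .inf) (.lf (.thr (.lm 8 47 8 48 10 10 3) (.lf 8 123 0 131) (.lf 0 131 8 123)))) 
(.lf .inf)) (.y 1449 (.z 1133 (.t 12 (.lf (.thr (.lm 7 44 7 44 9 9 4) (.pot 1) (.pot 1))) 
(.lf (.low 2))) (.t 12 (.lf (.thr (.lm 7 45 7 46 9 9 4) (.lf 7 124 0 131) (.lf 0 131 7 123))) 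
(.lf (.low 2)))) (.z 1133 (.lf .inf) (.t 12 
(.lf (.thr (.lm 7 45 7 46 9 9 4) (.pot 0) (.lf 0 131 7 123))) (.lf (.low 2)))))))))) 
(.lf (.low 2))) (.t 16 (.a 1035 
(.lf (.thr (.lm 6 50 6 51 10 10 9) (.lf 6 124 0 130) (.lf 0 130 6 124))) (.y 1446 (.z 1141 
(.t 8 (.lf (.thr (.lm 5 47 5 47 7 7 6) (.lf 5 126 2 128) (.pot 0))) 
(.lf (.thr (.lm 8 47 8 47 10 10 6) (.lf 8 123 0 131) (.lf 0 131 8 123)))) 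
(.lf (.thr (.lm 6 49 6 50 10 10 7) (.lf 6 124 0 130) (.lf 0 130 6 124)))) (.z 1141 (.t 8 
(.lf (.thr (.lm 5 47 5 47 7 7 6) (.pot 0) (.lf 2 128 5 126))) 
(.lf (.thr (.lm 8 47 8 47 10 10 6) (.lf 8 123 0 131) (.lf 0 131 8 123)))) 
(.lf (.thr (.lm 6 49 6 50 10 10 7) (.lf 6 124 0 130) (.lf 0 130 6 124)))))) (.lf (.low 2)))))) 
(.a 1029 (.lf (.thr (.lm 9 59 8 59 16 15 18) (.lf 8 122 0 131) (.lf 0 131 9 122))) (.y 1440 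
(.z 1158 (.t 16 (.lf (.thr (.lm 6 52 6 53 10 10 12) (.lf 6 124 0 130) (.pot 0))) (.lf (.low 2))) 
(.lf (.thr (.lm 9 57 8 59 16 14 13) (.lf 8 122 0 131) (.lf 0 131 9 121)))) (.z 1158 (.t 16 
(.lf (.thr (.lm 6 52 6 53 10 10 12) (.lf 6 124 0 130) (.lf 0 130 6 124))) (.lf (.low 2))) 
(.lf (.thr (.lm 9 57 8 59 16 14 13) (.lf 8 122 0 131) (.lf 0 131 9 121))))))) (.z 1147 
(.y 1466 (.a 1029 (.lf .inf) (.z 1136 (.lf .inf) (.t 16 (.a 1035 (.lf .inf) (.y 1459 (.z 1141 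
(.lf .inf) (.lf (.thr (.lm 6 49 6 50 10 10 7) (.lf 6 124 0 130) (.lf 0 130 6 124)))) (.lf .inf))) 
(.lf (.low 2))))) (.lf .inf)) (.y 1466 (.a 1029 
(.lf (.thr (.lm 9 59 8 59 16 15 18) (.lf 8 122 0 131) (.lf 0 131 9 122))) (.z 1158 (.t 16 
(.lf (.thr (.lm 6 52 6 53 10 10 12) (.lf 6 124 0 130) (.lf 0 130 6 124))) (.lf (.low 2))) 
(.lf (.thr (.lm 9 57 8 59 16 14 13) (.lf 8 122 0 131) (.lf 0 131 9 121))))) (.a 1029 (.lf .inf) 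
(.z 1158 (.lf .inf) (.t 16 
(.lf (.thr (.lm 6 58 6 58 10 9 13) (.lf 6 125 1 130) (.lf 1 130 6 124))) (.lf (.low 2))))))))

theorem h21 : chk (leafT PP TD0 0 2) c21 0 32 1017 1042 1125 1170 1428 1479 = true := by
  decide +kernel

def c22 : Tree :=
  (.y 1453 (.z 1147 (.a 1055 (.y 1440 (.z 1136 (.t 16 (.a 1048 (.y 1434 
(.lf (.thr (.lm 6 38 6 39 11 10 9) (.lf 6 124 0 130) (.pot 0))) (.z 1130 (.t 8 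
(.lf (.thr (.lm 5 38 5 39 8 7 6) (.pot 0) (.pot 0))) 
(.lf (.thr (.lm 8 38 8 39 11 10 6) (.lf 8 123 0 131) (.pot 1)))) 
(.lf (.thr (.lm 6 41 6 41 11 10 6) (.lf 6 124 0 130) (.pot 0))))) 
(.lf (.thr (.lm 7 35 6 35 11 10 9) (.lf 6 124 0 130) (.pot 1)))) (.lf (.low 2))) (.t 16 
(.lf (.thr (.lm 7 40 6 41 11 10 12) (.lf 6 124 0 130) (.pot 0))) (.lf (.low 2)))) (.z 1136 
(.t 16 (.a 1048 (.y 1446 (.z 1130 (.t 8 (.lf (.thr (.lm 5 38 5 39 8 7 6) (.pot 0) (.pot 0))) 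
(.a 1045 (.y 1443 (.z 1127 (.lf (.thr (.lm 8 40 8 40 10 10 3) (.pot 1) (.pot 1))) (.t 12 
(.lf (.thr (.lm 7 41 7 41 9 9 3) (.pot 0) (.pot 0))) (.lf (.low 2)))) (.z 1127 
(.lf (.thr (.lm 8 40 8 40 10 10 3) (.pot 1) (.pot 1))) (.t 12 
(.lf (.thr (.lm 7 41 7 41 9 9 3) (.pot 0) (.pot 0))) (.lf (.low 2))))) (.y 1443 (.z 1127 
(.lf (.thr (.lm 8 38 8 39 11 10 3) (.pot 0) (.pot 1))) 
(.lf (.thr (.lm 8 39 8 40 11 10 3) (.lf 8 123 0 131) (.pot 1)))) (.z 1127 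
(.lf (.thr (.lm 8 38 8 39 11 10 3) (.pot 1) (.pot 1))) (.t 12 
(.lf (.thr (.lm 7 39 7 40 9 9 3) (.pot 0) (.pot 0))) (.lf (.low 2))))))) (.t 8 
(.lf (.thr (.lm 5 41 5 41 8 7 6) (.pot 0) (.pot 0))) (.a 1045 (.z 1133 (.y 1443 
(.lf (.thr (.lm 8 42 8 43 10 10 3) (.lf 8 123 0 131) (.pot 0))) (.t 12 
(.lf (.thr (.lm 7 42 7 43 9 9 3) (.pot 0) (.pot 0))) (.lf (.low 2)))) 
(.lf (.thr (.lm 8 44 8 44 10 10 3) (.lf 8 123 0 131) (.pot 1)))) (.z 1133 (.y 1443 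
(.lf (.thr (.lm 8 41 8 41 11 10 3) (.lf 8 123 0 131) (.pot 0))) (.t 12 
(.lf (.thr (.lm 7 41 7 41 9 9 3) (.pot 0) (.pot 0))) (.lf (.low 2)))) 
(.lf (.thr (.lm 8 42 8 43 11 10 3) (.lf 8 123 0 131) (.pot 0))))))) (.z 1130 (.t 8 
(.lf (.thr (.lm 5 38 5 39 8 7 6) (.pot 0) (.pot 0))) (.y 1449 (.a 1045 (.z 1127 
(.lf (.thr (.lm 8 40 8 40 10 10 3) (.pot 1) (.pot 1))) (.t 12 
(.lf (.thr (.lm 7 41 7 41 9 9 3) (.pot 0) (.pot 0))) (.lf (.low 2)))) (.z 1127 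
(.lf (.thr (.lm 8 38 8 39 11 10 3) (.pot 1) (.pot 1))) (.t 12 
(.lf (.thr (.lm 7 39 7 40 9 9 3) (.pot 0) (.pot 0))) (.lf (.low 2))))) (.a 1045 (.lf .inf) 
(.z 1127 (.lf .inf) (.t 12 (.lf (.thr (.lm 7 39 7 40 9 9 3) (.pot 0) (.pot 0))) (.lf (.low 2))))))) 
(.t 8 (.lf (.thr (.lm 5 41 5 41 8 7 6) (.pot 0) (.pot 0))) (.y 1449 (.a 1045 (.z 1133 (.t 12 
(.lf (.thr (.lm 7 42 7 43 9 9 3) (.pot 0) (.pot 0))) (.lf (.low 2))) (.t 12 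
(.lf (.thr (.lm 7 44 7 44 9 9 3) (.pot 1) (.pot 0))) (.lf (.low 2)))) (.z 1133 (.t 12 
(.lf (.thr (.lm 7 41 7 41 9 9 3) (.pot 0) (.pot 0))) (.lf (.low 2))) (.t 12 
(.lf (.thr (.lm 7 42 7 43 9 9 3) (.pot 0) (.pot 0))) (.lf (.low 2))))) (.a 1045 (.z 1133 
(.t 12 (.lf (.thr (.lm 7 42 7 43 9 9 3) (.pot 0) (.pot 0))) (.lf (.low 2))) (.t 12 
(.lf (.thr (.lm 7 44 7 44 9 9 3) (.pot 1) (.pot 0))) (.lf (.low 2)))) (.z 1133 (.t 12 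
(.lf (.thr (.lm 7 41 7 41 9 9 3) (.pot 0) (.pot 0))) (.lf (.low 2))) (.t 12 
(.lf (.thr (.lm 7 42 7 43 9 9 3) (.pot 0) (.pot 0))) (.lf (.low 2))))))))) (.y 1446 (.z 1130 
(.lf (.thr (.lm 7 35 6 35 11 10 6) (.pot 1) (.pot 1))) (.t 8 
(.lf (.thr (.lm 5 37 5 38 8 7 7) (.pot 0) (.pot 0))) 
(.lf (.thr (.lm 8 37 8 38 11 10 7) (.lf 8 123 0 131) (.pot 1))))) (.z 1130 
(.lf (.thr (.lm 7 35 6 35 11 10 6) (.pot 1) (.pot 1))) (.t 8 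
(.lf (.thr (.lm 5 37 5 38 8 7 7) (.pot 0) (.pot 0))) (.a 1051 (.y 1449 (.z 1133 
(.lf (.thr (.lm 8 39 8 40 11 10 3) (.pot 1) (.pot 1))) (.t 12 
(.lf (.thr (.lm 7 41 7 41 9 9 3) (.pot 0) (.pot 0))) (.lf (.low 2)))) (.z 1133 
(.lf (.thr (.lm 8 39 8 40 11 10 3) (.pot 1) (.pot 1))) (.t 12 
(.lf (.thr (.lm 7 41 7 41 9 9 3) (.pot 0) (.pot 0))) (.lf (.low 2))))) (.y 1449 (.z 1133 
(.lf (.thr (.lm 8 37 8 38 11 10 4) (.pot 0) (.pot 1))) 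
(.lf (.thr (.lm 8 39 8 39 11 10 4) (.lf 8 123 0 131) (.pot 1)))) (.z 1133 
(.lf (.thr (.lm 8 37 8 38 11 10 4) (.pot 1) (.pot 1))) (.t 12 
(.lf (.thr (.lm 7 39 7 39 9 9 4) (.pot 0) (.pot 0))) (.lf (.low 2)))))))))) (.lf (.low 2))) 
(.t 16 (.a 1048 (.y 1446 (.lf (.thr (.lm 6 44 6 44 11 10 9) (.lf 6 124 0 130) (.pot 1))) 
(.z 1141 (.t 8 (.lf (.thr (.lm 5 44 5 44 8 7 6) (.pot 0) (.pot 0))) (.y 1449 (.a 1045 (.z 1138 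
(.t 12 (.lf (.thr (.lm 7 45 7 46 9 9 3) (.lf 7 124 0 131) (.pot 0))) (.lf (.low 2))) 
(.lf (.thr (.lm 8 46 8 47 10 10 3) (.lf 8 123 0 131) (.pot 1)))) 
(.lf (.thr (.lm 8 44 8 44 11 10 4) (.lf 8 123 0 131) (.pot 1)))) (.a 1045 (.z 1138 (.t 12 
(.lf (.thr (.lm 7 45 7 46 9 9 3) (.pot 1) (.pot 1))) (.lf (.low 2))) 
(.lf (.thr (.lm 8 46 8 47 10 10 3) (.lf 8 123 0 131) (.lf 0 131 8 123)))) (.z 1138 (.t 12 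
(.lf (.thr (.lm 7 44 7 44 9 9 3) (.pot 0) (.pot 0))) (.lf (.low 2))) (.t 12 
(.lf (.thr (.lm 7 45 7 45 9 9 3) (.lf 7 124 0 131) (.pot 0))) (.lf (.low 2))))))) (.t 8 
(.lf (.thr (.lm 5 46 5 47 8 7 6) (.lf 5 126 2 128) (.pot 0))) 
(.lf (.thr (.lm 8 46 7 47 11 10 6) (.lf 7 123 0 131) (.lf 0 131 8 123)))))) (.y 1446 
(.lf (.thr (.lm 7 40 6 41 11 10 9) (.lf 6 124 0 130) (.pot 0))) (.z 1141 (.t 8 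
(.lf (.thr (.lm 5 40 5 41 8 7 6) (.pot 0) (.pot 0))) (.a 1051 (.y 1449 
(.lf (.thr (.lm 8 42 8 43 11 10 4) (.lf 8 123 0 131) (.pot 0))) (.z 1138 (.t 12 
(.lf (.thr (.lm 7 42 7 43 9 9 3) (.pot 0) (.pot 0))) (.lf (.low 2))) (.t 12 
(.lf (.thr (.lm 7 43 7 44 9 9 3) (.pot 0) (.pot 0))) (.lf (.low 2))))) (.y 1449 
(.lf (.thr (.lm 8 40 8 41 11 10 5) (.lf 8 123 0 131) (.pot 0))) (.z 1138 (.t 12 
(.lf (.thr (.lm 7 40 7 41 9 9 3) (.pot 0) (.pot 0))) (.lf (.low 2))) 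
(.lf (.thr (.lm 8 41 8 42 11 10 4) (.lf 8 123 0 131) (.pot 1))))))) (.t 8 
(.lf (.thr (.lm 5 43 5 43 8 7 7) (.pot 0) (.pot 0))) 
(.lf (.thr (.lm 8 43 7 43 11 10 7) (.lf 7 123 0 131) (.pot 1))))))) (.lf (.low 2))))) (.y 1440 
(.z 1136 (.t 16 (.lf (.thr (.lm 7 28 6 29 11 10 12) (.lf 6 124 0 130) (.pot 1))) (.lf (.low 2))) 
(.t 16 (.lf (.thr (.lm 7 34 6 34 11 10 12) (.lf 6 124 0 130) (.pot 0))) (.lf (.low 2)))) 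
(.z 1136 (.t 16 (.a 1061 (.y 1446 (.z 1130 
(.lf (.thr (.lm 7 32 6 32 11 10 6) (.pot 0) (.pot 1))) 
(.lf (.thr (.lm 7 34 6 35 11 10 6) (.pot 0) (.pot 1)))) (.z 1130 
(.lf (.thr (.lm 7 32 6 32 11 10 6) (.pot 1) (.pot 0))) 
(.lf (.thr (.lm 7 34 6 35 11 10 6) (.pot 1) (.pot 1))))) 
(.lf (.thr (.lm 7 28 6 29 11 10 9) (.pot 0) (.pot 1)))) (.lf (.low 2))) (.t 16 (.a 1061 
(.y 1446 (.lf (.thr (.lm 7 37 6 38 11 10 9) (.lf 6 124 0 130) (.pot 0))) (.z 1141 (.t 8 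
(.lf (.thr (.lm 5 37 5 38 8 7 6) (.pot 0) (.pot 0))) 
(.lf (.thr (.lm 8 37 8 38 11 10 6) (.lf 8 123 0 131) (.pot 1)))) 
(.lf (.thr (.lm 7 40 6 40 11 10 6) (.lf 6 124 0 130) (.pot 0))))) 
(.lf (.thr (.lm 7 34 6 34 11 10 9) (.lf 6 124 0 130) (.pot 1)))) (.lf (.low 2)))))) (.a 1055 
(.y 1440 (.z 1158 (.t 16 (.lf (.thr (.lm 7 46 6 46 11 10 12) (.lf 6 124 0 130) (.pot 0))) 
(.lf (.low 2))) (.lf (.thr (.lm 10 51 8 52 17 14 13) (.lf 8 122 0 131) (.pot 0)))) (.z 1158 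
(.t 16 (.a 1048 (.lf (.thr (.lm 6 49 6 50 11 10 9) (.lf 6 124 0 130) (.lf 0 130 6 124))) 
(.lf (.thr (.lm 7 46 6 46 11 10 9) (.lf 6 124 0 130) (.pot 0)))) (.lf (.low 2))) (.t 16 
(.lf (.thr (.lm 7 51 6 52 11 9 13) (.lf 6 125 0 130) (.pot 0))) (.lf (.low 2))))) (.y 1440 
(.lf (.thr (.lm 10 39 8 40 17 15 18) (.lf 8 122 0 131) (.pot 0))) (.z 1158 (.t 16 
(.lf (.thr (.lm 7 39 6 40 11 10 12) (.lf 6 124 0 130) (.pot 0))) (.lf (.low 2))) (.t 16 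
(.lf (.thr (.lm 7 45 6 45 11 9 13) (.lf 6 125 0 130) (.pot 0))) (.lf (.low 2))))))) (.z 1147 
(.a 1055 (.y 1466 (.z 1136 (.t 16 (.a 1048 (.lf .inf) (.y 1459 (.z 1130 (.lf .inf) (.t 8 
(.lf (.thr (.lm 5 37 5 38 8 7 7) (.pot 0) (.pot 0))) (.a 1051 (.z 1133 (.lf .inf) (.y 1456 
(.t 12 (.lf (.thr (.lm 7 41 7 41 9 9 3) (.pot 0) (.pot 0))) (.lf (.low 2))) (.lf .inf))) 
(.z 1133 (.lf (.thr (.lm 8 37 8 38 11 10 4) (.pot 1) (.pot 1))) (.y 1456 (.t 12 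
(.lf (.thr (.lm 7 39 7 39 9 9 4) (.pot 0) (.pot 0))) (.lf (.low 2))) (.lf .inf)))))) (.lf .inf))) 
(.lf (.low 2))) (.t 16 (.a 1048 (.y 1459 (.z 1141 (.t 8 
(.lf (.thr (.lm 5 44 5 44 8 7 6) (.pot 0) (.pot 0))) (.a 1045 (.y 1456 (.z 1138 (.lf .inf) 
(.lf (.thr (.lm 8 46 8 47 10 10 3) (.lf 8 123 0 131) (.lf 0 131 8 123)))) (.lf .inf)) (.y 1456 
(.z 1138 (.t 12 (.lf (.thr (.lm 7 44 7 44 9 9 3) (.pot 0) (.pot 0))) (.lf (.low 2))) (.t 12 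
(.lf (.thr (.lm 7 45 7 45 9 9 3) (.pot 1) (.pot 1))) (.lf (.low 2)))) (.lf .inf)))) (.t 8 
(.lf (.thr (.lm 5 46 5 47 8 7 6) (.pot 1) (.pot 0))) 
(.lf (.thr (.lm 8 46 7 47 11 10 6) (.lf 7 123 0 131) (.lf 0 131 8 123))))) (.lf .inf)) 
(.y 1459 (.z 1141 (.t 8 (.lf (.thr (.lm 5 40 5 41 8 7 6) (.pot 0) (.pot 0))) (.a 1051 (.y 1456 
(.z 1138 (.t 12 (.lf (.thr (.lm 7 42 7 43 9 9 3) (.pot 0) (.pot 0))) (.lf (.low 2))) (.t 12 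
(.lf (.thr (.lm 7 43 7 44 9 9 3) (.pot 0) (.pot 0))) (.lf (.low 2)))) (.z 1138 (.lf .inf) 
(.t 12 (.lf (.thr (.lm 7 43 7 44 9 9 3) (.pot 0) (.pot 0))) (.lf (.low 2))))) (.y 1456 
(.z 1138 (.t 12 (.lf (.thr (.lm 7 40 7 41 9 9 3) (.pot 0) (.pot 0))) (.lf (.low 2))) (.t 12 
(.lf (.thr (.lm 7 41 7 42 9 9 4) (.pot 0) (.pot 0))) (.lf (.low 2)))) (.z 1138 (.t 12 
(.lf (.thr (.lm 7 40 7 41 9 9 3) (.pot 0) (.pot 0))) (.lf (.low 2))) (.t 12 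
(.lf (.thr (.lm 7 41 7 42 9 9 4) (.pot 0) (.pot 0))) (.lf (.low 2))))))) (.t 8 
(.lf (.thr (.lm 5 43 5 43 8 7 7) (.pot 0) (.pot 0))) (.a 1051 (.z 1144 (.y 1456 (.t 12 
(.lf (.thr (.lm 7 45 7 45 9 9 3) (.lf 7 124 0 131) (.pot 0))) (.lf (.low 2))) (.t 12 
(.lf (.thr (.lm 7 45 7 45 9 9 3) (.pot 1) (.pot 1))) (.lf (.low 2)))) 
(.lf (.thr (.lm 8 46 7 47 11 10 3) (.lf 7 123 0 131) (.lf 0 131 8 123)))) (.z 1144 (.y 1456 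
(.t 12 (.lf (.thr (.lm 7 43 7 43 9 9 4) (.pot 0) (.pot 0))) (.lf (.low 2))) (.t 12 
(.lf (.thr (.lm 7 43 7 43 9 9 4) (.pot 0) (.pot 0))) (.lf (.low 2)))) (.y 1456 
(.lf (.thr (.lm 8 44 7 45 11 10 4) (.lf 7 123 0 131) (.pot 1))) (.t 12 
(.lf (.thr (.lm 7 44 7 45 9 8 4) (.lf 7 124 0 131) (.pot 0))) (.lf (.low 2)))))))) (.z 1141 
(.lf .inf) (.t 8 (.lf (.thr (.lm 5 43 5 43 8 7 7) (.pot 0) (.pot 0))) (.a 1051 (.y 1462 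
(.z 1144 (.lf .inf) (.lf (.thr (.lm 8 46 7 47 11 10 3) (.lf 7 123 0 131) (.lf 0 131 8 123)))) 
(.lf .inf)) (.y 1462 (.z 1144 (.t 12 (.lf (.thr (.lm 7 43 7 43 9 9 4) (.pot 0) (.pot 0))) 
(.lf (.low 2))) (.t 12 (.lf (.thr (.lm 7 44 7 45 9 8 4) (.pot 1) (.pot 1))) (.lf (.low 2)))) 
(.lf .inf))))))) (.lf (.low 2)))) (.lf .inf)) (.y 1466 (.z 1136 (.t 16 (.a 1061 (.y 1459 
(.z 1130 (.lf (.thr (.lm 7 32 6 32 11 10 6) (.pot 1) (.pot 0))) 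
(.lf (.thr (.lm 7 34 6 35 11 10 6) (.pot 1) (.pot 1)))) (.lf .inf)) 
(.lf (.thr (.lm 7 28 6 29 11 10 9) (.pot 1) (.pot 1)))) (.lf (.low 2))) (.t 16 (.a 1061 
(.y 1459 (.z 1141 (.t 8 (.lf (.thr (.lm 5 37 5 38 8 7 6) (.pot 0) (.pot 0))) (.a 1058 (.y 1456 
(.z 1138 (.lf (.thr (.lm 8 39 8 39 11 10 3) (.pot 1) (.pot 1))) (.t 12 
(.lf (.thr (.lm 7 40 7 40 9 9 3) (.pot 0) (.pot 0))) (.lf (.low 2)))) (.z 1138 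
(.lf (.thr (.lm 8 39 8 39 11 10 3) (.pot 1) (.pot 1))) (.t 12 
(.lf (.thr (.lm 7 40 7 40 9 9 3) (.pot 0) (.pot 0))) (.lf (.low 2))))) 
(.lf (.thr (.lm 8 37 8 38 11 10 4) (.pot 1) (.pot 1))))) (.t 8 
(.lf (.thr (.lm 5 40 5 40 8 7 6) (.pot 0) (.pot 0))) (.a 1058 (.z 1144 (.y 1456 
(.lf (.thr (.lm 8 41 7 42 11 10 3) (.lf 7 123 0 131) (.pot 1))) (.t 12 
(.lf (.thr (.lm 7 41 7 42 9 9 3) (.pot 0) (.pot 0))) (.lf (.low 2)))) (.y 1456 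
(.lf (.thr (.lm 8 43 7 43 11 10 3) (.lf 7 123 0 131) (.pot 0))) (.t 12 
(.lf (.thr (.lm 7 43 7 43 9 8 3) (.pot 0) (.pot 0))) (.lf (.low 2))))) (.z 1144 (.y 1456 
(.lf (.thr (.lm 8 40 7 40 11 10 3) (.lf 7 123 0 131) (.pot 0))) (.t 12 
(.lf (.thr (.lm 7 40 7 40 9 9 3) (.pot 0) (.pot 0))) (.lf (.low 2)))) 
(.lf (.thr (.lm 8 41 7 42 11 10 3) (.lf 7 123 0 131) (.pot 1))))))) (.z 1141 (.t 8 
(.lf (.thr (.lm 5 37 5 38 8 7 6) (.pot 0) (.pot 0))) (.y 1462 (.a 1058 (.z 1138 (.lf .inf) 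
(.t 12 (.lf (.thr (.lm 7 40 7 40 9 9 3) (.pot 0) (.pot 0))) (.lf (.low 2)))) 
(.lf (.thr (.lm 8 37 8 38 11 10 4) (.pot 1) (.pot 1)))) (.lf .inf))) (.t 8 
(.lf (.thr (.lm 5 40 5 40 8 7 6) (.pot 0) (.pot 0))) (.y 1462 (.a 1058 (.z 1144 (.t 12 
(.lf (.thr (.lm 7 41 7 42 9 9 3) (.pot 0) (.pot 0))) (.lf (.low 2))) (.t 12 
(.lf (.thr (.lm 7 43 7 43 9 8 3) (.pot 0) (.pot 0))) (.lf (.low 2)))) (.z 1144 (.t 12 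
(.lf (.thr (.lm 7 40 7 40 9 9 3) (.pot 0) (.pot 0))) (.lf (.low 2))) (.t 12 
(.lf (.thr (.lm 7 41 7 42 9 8 3) (.pot 0) (.pot 0))) (.lf (.low 2))))) (.a 1058 (.z 1144 
(.lf .inf) (.t 12 (.lf (.thr (.lm 7 43 7 43 9 8 3) (.pot 0) (.pot 0))) (.lf (.low 2)))) 
(.z 1144 (.t 12 (.lf (.thr (.lm 7 40 7 40 9 9 3) (.pot 0) (.pot 0))) (.lf (.low 2))) (.t 12 
(.lf (.thr (.lm 7 41 7 42 9 8 3) (.pot 0) (.pot 0))) (.lf (.low 2))))))))) (.y 1459 (.z 1141 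
(.lf (.thr (.lm 7 34 6 34 11 10 6) (.pot 1) (.pot 1))) (.t 8 
(.lf (.thr (.lm 5 36 5 37 8 7 7) (.pot 0) (.pot 0))) (.a 1064 (.z 1144 
(.lf (.thr (.lm 8 38 7 39 11 10 3) (.pot 0) (.pot 1))) 
(.lf (.thr (.lm 8 40 7 40 11 10 3) (.lf 7 123 0 131) (.pot 0)))) 
(.lf (.thr (.lm 8 36 7 37 11 10 5) (.pot 0) (.pot 1)))))) (.z 1141 
(.lf (.thr (.lm 7 34 6 34 11 10 6) (.pot 1) (.pot 1))) (.t 8 
(.lf (.thr (.lm 5 36 5 37 8 7 7) (.pot 0) (.pot 0))) (.a 1064 (.y 1462 (.z 1144 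
(.lf (.thr (.lm 8 38 7 39 11 10 3) (.pot 1) (.pot 1))) (.t 12 
(.lf (.thr (.lm 7 40 7 40 9 8 3) (.pot 0) (.pot 0))) (.lf (.low 2)))) (.z 1144 
(.lf (.thr (.lm 8 38 7 39 11 10 3) (.pot 1) (.pot 1))) (.t 12 
(.lf (.thr (.lm 7 40 7 40 9 8 3) (.pot 0) (.pot 0))) (.lf (.low 2))))) 
(.lf (.thr (.lm 8 36 7 37 11 10 5) (.pot 1) (.pot 1)))))))) (.lf (.low 2)))) (.z 1136 
(.lf .inf) (.t 16 (.a 1061 (.lf .inf) (.y 1472 (.z 1141 (.lf .inf) (.t 8 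
(.lf (.thr (.lm 5 36 5 37 8 7 7) (.pot 0) (.pot 0))) (.a 1064 (.lf .inf) 
(.lf (.thr (.lm 8 36 7 37 11 10 5) (.pot 1) (.pot 1)))))) (.lf .inf))) (.lf (.low 2)))))) 
(.a 1055 (.y 1466 (.z 1158 (.t 16 (.a 1048 
(.lf (.thr (.lm 6 49 6 50 11 10 9) (.lf 6 124 0 130) (.lf 0 130 6 124))) (.y 1459 (.z 1152 
(.t 8 (.lf (.thr (.lm 5 46 5 46 8 7 6) (.pot 0) (.pot 0))) 
(.lf (.thr (.lm 8 46 7 46 11 10 6) (.lf 7 123 0 131) (.lf 0 131 8 123)))) 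
(.lf (.thr (.lm 7 48 6 49 11 10 7) (.lf 6 125 0 130) (.lf 0 130 7 124)))) (.z 1152 (.t 8 
(.lf (.thr (.lm 5 46 5 46 8 7 6) (.pot 0) (.pot 0))) (.a 1051 
(.lf (.thr (.lm 8 48 7 48 11 10 4) (.lf 7 123 0 131) (.lf 0 131 8 123))) (.y 1462 
(.lf (.thr (.lm 8 46 7 46 11 10 5) (.lf 7 123 0 131) (.lf 0 131 8 123))) (.z 1149 (.t 12 
(.lf (.thr (.lm 7 46 7 46 9 8 3) (.pot 0) (.lf 0 131 7 123))) (.lf (.low 2))) 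
(.lf (.thr (.lm 8 47 7 47 11 10 4) (.lf 7 123 0 131) (.lf 0 131 8 123))))))) 
(.lf (.thr (.lm 7 48 6 49 11 10 7) (.lf 6 125 0 130) (.lf 0 130 7 124)))))) (.lf (.low 2))) 
(.t 16 (.lf (.thr (.lm 7 51 6 52 11 9 13) (.lf 6 125 0 130) (.lf 0 130 7 124))) (.lf (.low 2)))) 
(.z 1158 (.t 16 (.a 1048 (.lf .inf) (.y 1472 (.z 1152 (.lf .inf) 
(.lf (.thr (.lm 7 48 6 49 11 10 7) (.lf 6 125 0 130) (.lf 0 130 7 124)))) (.lf .inf))) 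
(.lf (.low 2))) (.t 16 (.lf (.thr (.lm 7 51 6 52 11 9 13) (.lf 6 125 1 130) (.lf 1 130 7 124))) 
(.lf (.low 2))))) (.y 1466 (.z 1158 (.t 16 (.a 1061 (.y 1459 
(.lf (.thr (.lm 7 43 6 43 11 10 9) (.lf 6 124 0 130) (.pot 1))) (.z 1152 (.t 8 
(.lf (.thr (.lm 5 43 5 43 8 7 6) (.pot 0) (.pot 0))) (.y 1462 (.a 1058 (.z 1149 (.t 12 
(.lf (.thr (.lm 7 44 7 45 9 8 3) (.pot 1) (.pot 0))) (.lf (.low 2))) (.t 12 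
(.lf (.thr (.lm 7 45 7 46 9 8 3) (.lf 7 124 0 131) (.pot 0))) (.lf (.low 2)))) (.z 1149 (.t 12 
(.lf (.thr (.lm 7 43 7 43 9 8 3) (.pot 0) (.pot 0))) (.lf (.low 2))) 
(.lf (.thr (.lm 8 44 7 44 11 10 3) (.lf 7 123 0 131) (.pot 0))))) (.a 1058 (.z 1149 (.t 12 
(.lf (.thr (.lm 7 44 7 45 9 8 3) (.pot 1) (.pot 0))) (.lf (.low 2))) (.t 12 
(.lf (.thr (.lm 7 45 7 46 9 8 3) (.pot 1) (.pot 1))) (.lf (.low 2)))) (.z 1149 (.t 12 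
(.lf (.thr (.lm 7 43 7 43 9 8 3) (.pot 0) (.pot 0))) (.lf (.low 2))) (.t 12 
(.lf (.thr (.lm 7 44 7 44 9 8 3) (.pot 0) (.pot 0))) (.lf (.low 2))))))) (.t 8 
(.lf (.thr (.lm 5 45 5 46 8 7 6) (.pot 0) (.pot 0))) (.y 1462 
(.lf (.thr (.lm 8 45 7 46 11 10 6) (.lf 7 123 0 131) (.pot 0))) (.a 1058 
(.lf (.thr (.lm 8 47 7 47 11 10 5) (.lf 7 123 0 131) (.lf 0 131 8 122))) (.z 1155 (.t 12 
(.lf (.thr (.lm 7 45 7 46 9 8 3) (.lf 7 124 0 131) (.pot 0))) (.lf (.low 2))) 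
(.lf (.thr (.lm 8 47 7 47 11 9 3) (.lf 7 123 0 131) (.pot 0))))))))) (.y 1459 
(.lf (.thr (.lm 7 39 6 40 11 10 9) (.lf 6 124 0 130) (.pot 0))) (.z 1152 (.t 8 
(.lf (.thr (.lm 5 39 5 40 8 7 6) (.pot 0) (.pot 0))) (.a 1064 (.y 1462 
(.lf (.thr (.lm 8 41 7 42 11 10 4) (.lf 7 123 0 131) (.pot 1))) (.z 1149 (.t 12 
(.lf (.thr (.lm 7 41 7 42 9 8 3) (.pot 0) (.pot 0))) (.lf (.low 2))) (.t 12 
(.lf (.thr (.lm 7 42 7 43 9 8 3) (.pot 0) (.pot 0))) (.lf (.low 2))))) (.y 1462 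
(.lf (.thr (.lm 8 39 7 40 11 10 5) (.lf 7 123 0 131) (.pot 0))) (.z 1149 
(.lf (.thr (.lm 8 39 7 40 11 10 3) (.pot 1) (.pot 1))) (.t 12 
(.lf (.thr (.lm 7 40 7 41 9 8 4) (.pot 0) (.pot 0))) (.lf (.low 2))))))) (.t 8 
(.lf (.thr (.lm 5 42 5 42 8 7 7) (.pot 0) (.pot 0))) (.a 1064 
(.lf (.thr (.lm 8 44 7 44 11 10 5) (.lf 7 123 0 131) (.pot 1))) 
(.lf (.thr (.lm 8 41 7 43 11 10 5) (.lf 7 123 0 131) (.pot 0)))))))) (.lf (.low 2))) (.t 16 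
(.a 1061 (.lf (.thr (.lm 7 48 6 49 11 9 9) (.lf 6 125 0 130) (.lf 0 130 7 124))) 
(.lf (.thr (.lm 7 45 6 45 11 9 10) (.lf 6 125 0 130) (.pot 0)))) (.lf (.low 2)))) (.z 1158 
(.t 16 (.a 1061 (.y 1472 (.z 1152 (.t 8 (.lf (.thr (.lm 5 43 5 43 8 7 6) (.pot 0) (.pot 0))) 
(.a 1058 (.lf .inf) (.y 1469 (.z 1149 (.lf .inf) (.t 12 
(.lf (.thr (.lm 7 44 7 44 9 8 3) (.pot 0) (.pot 0))) (.lf (.low 2)))) (.lf .inf)))) (.t 8 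
(.lf (.thr (.lm 5 45 5 46 8 7 6) (.pot 0) (.pot 0))) (.a 1058 
(.lf (.thr (.lm 8 47 7 47 11 10 5) (.lf 7 123 0 131) (.lf 0 131 8 122))) (.z 1155 (.y 1469 
(.t 12 (.lf (.thr (.lm 7 45 7 46 9 8 3) (.pot 1) (.pot 1))) (.lf (.low 2))) (.lf .inf)) 
(.lf (.thr (.lm 8 47 7 47 11 9 3) (.lf 7 123 0 131) (.lf 0 131 8 122))))))) (.lf .inf)) 
(.y 1472 (.z 1152 (.t 8 (.lf (.thr (.lm 5 39 5 40 8 7 6) (.pot 0) (.pot 0))) (.a 1064 (.y 1469 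
(.z 1149 (.t 12 (.lf (.thr (.lm 7 41 7 42 9 8 3) (.pot 0) (.pot 0))) (.lf (.low 2))) (.t 12 
(.lf (.thr (.lm 7 42 7 43 9 8 3) (.pot 0) (.pot 0))) (.lf (.low 2)))) (.lf .inf)) (.y 1469 
(.z 1149 (.lf (.thr (.lm 8 39 7 40 11 10 3) (.pot 1) (.pot 1))) (.t 12 
(.lf (.thr (.lm 7 40 7 41 9 8 4) (.pot 0) (.pot 0))) (.lf (.low 2)))) (.z 1149 (.lf .inf) 
(.t 12 (.lf (.thr (.lm 7 40 7 41 9 8 4) (.pot 0) (.pot 0))) (.lf (.low 2))))))) (.t 8 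
(.lf (.thr (.lm 5 42 5 42 8 7 7) (.pot 0) (.pot 0))) (.a 1064 (.z 1155 (.y 1469 (.t 12 
(.lf (.thr (.lm 7 44 7 44 9 8 3) (.pot 0) (.pot 0))) (.lf (.low 2))) (.t 12 
(.lf (.thr (.lm 7 44 7 44 9 8 3) (.pot 0) (.pot 0))) (.lf (.low 2)))) (.y 1469 (.t 12 
(.lf (.thr (.lm 7 45 7 46 9 8 3) (.lf 7 124 0 131) (.pot 0))) (.lf (.low 2))) (.t 12 
(.lf (.thr (.lm 7 45 7 46 9 8 3) (.pot 1) (.pot 1))) (.lf (.low 2))))) (.z 1155 (.y 1469 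
(.t 12 (.lf (.thr (.lm 7 42 7 42 9 8 4) (.pot 0) (.pot 0))) (.lf (.low 2))) (.t 12 
(.lf (.thr (.lm 7 42 7 42 9 8 4) (.pot 0) (.pot 0))) (.lf (.low 2)))) (.y 1469 
(.lf (.thr (.lm 8 43 7 44 11 9 4) (.lf 7 123 0 131) (.pot 1))) (.t 12 
(.lf (.thr (.lm 7 43 7 44 9 8 4) (.pot 0) (.pot 0))) (.lf (.low 2)))))))) (.z 1152 (.lf .inf) 
(.t 8 (.lf (.thr (.lm 5 42 5 42 8 7 7) (.pot 0) (.pot 0))) (.a 1064 (.lf .inf) (.y 1475 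
(.z 1155 (.lf .inf) (.t 12 (.lf (.thr (.lm 7 43 7 44 9 8 4) (.pot 0) (.pot 0))) (.lf (.low 2)))) 
(.lf .inf))))))) (.lf (.low 2))) (.t 16 (.a 1061 
(.lf (.thr (.lm 7 48 6 49 11 9 9) (.lf 6 125 1 130) (.lf 1 130 7 124))) (.y 1472 (.z 1164 
(.t 8 (.lf (.thr (.lm 5 45 5 45 8 7 7) (.pot 0) (.pot 0))) (.a 1064 
(.lf (.thr (.lm 8 46 7 48 11 9 5) (.lf 7 124 0 131) (.lf 0 131 8 122))) (.z 1161 (.y 1469 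
(.lf (.thr (.lm 8 44 7 46 11 9 4) (.lf 7 123 0 131) (.pot 0))) (.t 12 
(.lf (.thr (.lm 7 45 6 45 9 8 4) (.lf 6 124 0 131) (.pot 0))) (.lf (.low 2)))) 
(.lf (.thr (.lm 8 46 7 47 11 9 4) (.lf 7 124 0 131) (.pot 0)))))) 
(.lf (.thr (.lm 7 48 6 48 11 9 7) (.lf 6 125 0 130) (.pot 0)))) (.z 1164 (.t 8 
(.lf (.thr (.lm 5 45 5 45 8 7 7) (.pot 0) (.pot 0))) (.a 1064 
(.lf (.thr (.lm 8 46 7 48 11 9 5) (.lf 7 124 0 131) (.lf 0 131 8 122))) (.y 1475 (.z 1161 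
(.t 12 (.lf (.thr (.lm 7 45 6 45 9 8 4) (.pot 1) (.pot 1))) (.lf (.low 2))) 
(.lf (.thr (.lm 8 46 7 47 11 9 4) (.lf 7 124 0 131) (.lf 0 131 8 122)))) (.z 1161 (.lf .inf) 
(.lf (.thr (.lm 8 46 7 47 11 9 4) (.lf 7 124 0 131) (.lf 0 131 8 122))))))) 
(.lf (.thr (.lm 7 48 6 48 11 9 7) (.lf 6 125 1 130) (.lf 1 130 7 124)))))) (.lf (.low 2))))))))

theorem h22 : chk (leafT PP TD0 0 2) c22 0 32 1042 1068 1125 1170 1428 1479 = true := by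
  decide +kernel

def c23 : Tree :=
  (.a 1017 (.lf .inf) (.a 1042 (.lf .inf) (.y 1504 (.z 1147 (.lf .inf) (.a 1055 (.lf .inf) 
(.y 1491 (.z 1158 (.lf .inf) (.t 16 (.a 1061 (.lf .inf) (.z 1164 (.lf .inf) (.y 1485 
(.lf (.thr (.lm 7 48 6 48 11 9 7) (.lf 6 125 1 130) (.lf 1 130 7 124))) (.lf .inf)))) 
(.lf (.low 2)))) (.lf .inf)))) (.lf .inf))))

theorem h23 : chk (leafT PP TD0 0 2) c23 0 32 967 1068 1125 1170 1479 1530 = true := by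
  decide +kernel

def c24 : Tree :=
  (.y 1428 (.a 1119 (.y 1377 (.lf .inf) (.a 1093 (.y 1402 (.lf .inf) (.z 1147 
(.lf (.thr (.lm 10 15 9 17 17 16 24) (.lf 9 122 0 131) (.pot 1))) 
(.lf (.thr (.lm 10 26 8 28 17 15 24) (.lf 8 112 0 120) (.pot 0))))) (.lf .inf))) (.lf .inf)) 
(.a 1119 (.y 1479 (.a 1093 (.y 1453 (.z 1147 (.a 1080 (.y 1440 (.z 1136 (.t 16 
(.lf (.thr (.lm 7 22 6 23 11 10 12) (.lf 6 124 0 130) (.pot 0))) (.lf (.low 2))) 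
(.lf (.thr (.lm 10 27 9 29 17 16 12) (.lf 9 122 0 131) (.pot 0)))) (.z 1136 (.t 16 
(.lf (.thr (.lm 7 22 6 23 11 10 12) (.pot 0) (.pot 1))) (.lf (.low 2))) (.t 16 
(.lf (.thr (.lm 7 28 6 28 11 10 12) (.lf 6 124 0 130) (.pot 1))) (.lf (.low 2))))) (.y 1440 
(.z 1136 (.t 16 (.lf (.thr (.lm 7 16 6 16 11 10 12) (.pot 0) (.pot 0))) (.lf (.low 2))) 
(.lf (.thr (.lm 10 21 9 22 17 16 12) (.lf 9 122 0 131) (.pot 0)))) (.z 1136 (.t 16 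
(.lf (.thr (.lm 7 16 6 16 11 10 12) (.pot 0) (.pot 0))) (.lf (.low 2))) (.t 16 
(.lf (.thr (.lm 7 21 6 22 11 10 12) (.lf 6 124 0 130) (.pot 0))) (.lf (.low 2)))))) (.a 1080 
(.y 1440 (.lf (.thr (.lm 10 33 8 34 17 15 18) (.lf 8 122 0 131) (.pot 0))) (.z 1158 (.t 16 
(.lf (.thr (.lm 7 33 6 34 11 10 12) (.lf 6 124 0 130) (.pot 0))) (.lf (.low 2))) 
(.lf (.thr (.lm 10 38 8 40 17 14 12) (.lf 8 122 0 131) (.pot 0))))) 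
(.lf (.thr (.lm 10 26 8 28 17 15 18) (.lf 8 122 0 131) (.pot 1))))) (.z 1147 (.y 1466 (.a 1080 
(.z 1136 (.t 16 (.lf (.thr (.lm 7 22 6 23 11 10 12) (.pot 0) (.pot 1))) (.lf (.low 2))) (.t 16 
(.y 1459 (.a 1074 (.lf (.thr (.lm 7 31 6 31 11 10 9) (.pot 0) (.pot 1))) 
(.lf (.thr (.lm 7 28 6 28 11 10 9) (.pot 0) (.pot 1)))) (.a 1074 
(.lf (.thr (.lm 7 31 6 31 11 10 9) (.pot 1) (.pot 1))) 
(.lf (.thr (.lm 7 28 6 28 11 10 9) (.pot 1) (.pot 0))))) (.lf (.low 2)))) (.z 1136 (.t 16 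
(.lf (.thr (.lm 7 16 6 16 11 10 12) (.pot 0) (.pot 0))) (.lf (.low 2))) (.t 16 
(.lf (.thr (.lm 7 21 6 22 11 10 12) (.pot 0) (.pot 1))) (.lf (.low 2))))) (.a 1080 (.z 1136 
(.t 16 (.lf (.thr (.lm 7 22 6 23 11 10 12) (.pot 1) (.pot 0))) (.lf (.low 2))) (.t 16 (.y 1472 
(.a 1074 (.lf (.thr (.lm 7 31 6 31 11 10 9) (.pot 1) (.pot 1))) 
(.lf (.thr (.lm 7 28 6 28 11 10 9) (.pot 1) (.pot 0)))) (.a 1074 (.lf .inf) 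
(.lf (.thr (.lm 7 28 6 28 11 10 9) (.pot 1) (.pot 0))))) (.lf (.low 2)))) (.z 1136 (.t 16 
(.lf (.thr (.lm 7 16 6 16 11 10 12) (.pot 0) (.pot 0))) (.lf (.low 2))) (.t 16 
(.lf (.thr (.lm 7 21 6 22 11 10 12) (.pot 1) (.pot 0))) (.lf (.low 2)))))) (.y 1466 (.a 1080 
(.z 1158 (.t 16 (.y 1459 (.lf (.thr (.lm 7 33 6 34 11 10 12) (.lf 6 124 0 130) (.pot 0))) 
(.a 1074 (.z 1152 (.t 8 (.lf (.thr (.lm 5 36 5 37 8 7 6) (.pot 0) (.pot 0))) 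
(.lf (.thr (.lm 8 36 7 37 11 10 6) (.pot 1) (.pot 1)))) 
(.lf (.thr (.lm 7 39 6 39 11 10 6) (.lf 6 125 0 130) (.pot 0)))) 
(.lf (.thr (.lm 7 33 6 34 11 10 9) (.lf 6 124 0 130) (.pot 1))))) (.lf (.low 2))) (.t 16 
(.lf (.thr (.lm 7 39 6 39 11 9 12) (.lf 6 125 0 130) (.pot 0))) (.lf (.low 2)))) (.z 1158 
(.t 16 (.lf (.thr (.lm 7 27 6 27 11 10 12) (.pot 1) (.pot 1))) (.lf (.low 2))) (.t 16 
(.lf (.thr (.lm 7 32 6 33 11 9 13) (.lf 6 125 0 130) (.pot 0))) (.lf (.low 2))))) (.a 1080 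
(.z 1158 (.t 16 (.y 1472 (.a 1074 (.z 1152 (.t 8 
(.lf (.thr (.lm 5 36 5 37 8 7 6) (.pot 0) (.pot 0))) 
(.lf (.thr (.lm 8 36 7 37 11 10 6) (.pot 1) (.pot 1)))) (.t 8 
(.lf (.thr (.lm 5 39 5 39 8 7 6) (.pot 0) (.pot 0))) (.a 1071 (.z 1155 (.y 1469 
(.lf (.thr (.lm 8 40 7 41 11 10 3) (.lf 7 123 0 131) (.pot 1))) (.t 12 
(.lf (.thr (.lm 7 40 7 41 9 8 3) (.pot 0) (.pot 0))) (.lf (.low 2)))) (.y 1469 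
(.lf (.thr (.lm 8 41 7 43 11 9 3) (.lf 7 123 0 131) (.pot 0))) (.t 12 
(.lf (.thr (.lm 7 42 7 42 9 8 3) (.pot 0) (.pot 0))) (.lf (.low 2))))) (.z 1155 
(.lf (.thr (.lm 8 38 7 40 11 10 3) (.pot 1) (.pot 1))) 
(.lf (.thr (.lm 8 40 7 41 11 9 3) (.pot 1) (.pot 1))))))) (.z 1152 
(.lf (.thr (.lm 7 33 6 34 11 10 6) (.pot 1) (.pot 0))) 
(.lf (.thr (.lm 7 36 6 36 11 10 6) (.pot 1) (.pot 1))))) (.a 1074 (.z 1152 (.t 8 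
(.lf (.thr (.lm 5 36 5 37 8 7 6) (.pot 0) (.pot 0))) 
(.lf (.thr (.lm 8 36 7 37 11 10 6) (.pot 1) (.pot 1)))) (.t 8 
(.lf (.thr (.lm 5 39 5 39 8 7 6) (.pot 0) (.pot 0))) (.y 1475 (.a 1071 (.z 1155 (.t 12 
(.lf (.thr (.lm 7 40 7 41 9 8 3) (.pot 0) (.pot 0))) (.lf (.low 2))) (.t 12 
(.lf (.thr (.lm 7 42 7 42 9 8 3) (.pot 0) (.pot 0))) (.lf (.low 2)))) (.z 1155 
(.lf (.thr (.lm 8 38 7 40 11 10 3) (.pot 1) (.pot 1))) 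
(.lf (.thr (.lm 8 40 7 41 11 9 3) (.pot 1) (.pot 1))))) (.a 1071 (.lf .inf) (.z 1155 (.lf .inf) 
(.lf (.thr (.lm 8 40 7 41 11 9 3) (.pot 1) (.pot 1)))))))) (.z 1152 
(.lf (.thr (.lm 7 33 6 34 11 10 6) (.pot 1) (.pot 0))) 
(.lf (.thr (.lm 7 36 6 36 11 10 6) (.pot 1) (.pot 1)))))) (.lf (.low 2))) (.t 16 (.y 1472 
(.a 1074 (.lf (.thr (.lm 7 42 6 42 11 9 9) (.lf 6 125 0 130) (.pot 1))) 
(.lf (.thr (.lm 7 39 6 39 11 9 9) (.lf 6 125 0 130) (.pot 0)))) (.a 1074 (.z 1164 (.t 8 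
(.lf (.thr (.lm 5 42 5 42 8 7 6) (.pot 0) (.pot 0))) (.y 1475 (.a 1071 (.z 1161 (.t 12 
(.lf (.thr (.lm 7 43 6 44 9 8 3) (.pot 0) (.pot 0))) (.lf (.low 2))) 
(.lf (.thr (.lm 8 44 7 46 11 9 3) (.lf 7 124 0 131) (.pot 1)))) (.z 1161 (.t 12 
(.lf (.thr (.lm 7 42 6 42 9 8 3) (.pot 0) (.pot 0))) (.lf (.low 2))) 
(.lf (.thr (.lm 8 43 7 44 11 9 3) (.lf 7 124 0 131) (.pot 0))))) (.a 1071 (.z 1161 (.t 12 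
(.lf (.thr (.lm 7 43 6 44 9 8 3) (.pot 0) (.pot 0))) (.lf (.low 2))) (.t 12 
(.lf (.thr (.lm 7 45 6 45 9 8 3) (.pot 1) (.pot 0))) (.lf (.low 2)))) (.z 1161 (.t 12 
(.lf (.thr (.lm 7 42 6 42 9 8 3) (.pot 0) (.pot 0))) (.lf (.low 2))) (.t 12 
(.lf (.thr (.lm 7 43 6 44 9 8 3) (.pot 0) (.pot 0))) (.lf (.low 2))))))) (.t 8 
(.lf (.thr (.lm 5 45 5 45 8 7 6) (.pot 0) (.pot 0))) (.y 1475 
(.lf (.thr (.lm 8 44 7 46 11 9 6) (.lf 7 124 0 131) (.pot 0))) (.a 1071 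
(.lf (.thr (.lm 8 46 7 47 11 9 5) (.lf 7 124 0 131) (.lf 0 131 8 122))) (.z 1167 (.t 12 
(.lf (.thr (.lm 7 44 6 46 9 8 3) (.pot 1) (.pot 0))) (.lf (.low 2))) 
(.lf (.thr (.lm 8 46 7 47 11 9 3) (.lf 7 124 0 131) (.pot 0)))))))) (.z 1164 (.t 8 
(.lf (.thr (.lm 5 39 5 39 8 7 6) (.pot 0) (.pot 0))) (.y 1475 
(.lf (.thr (.lm 8 38 7 40 11 9 6) (.lf 7 124 0 131) (.pot 1))) (.a 1077 (.z 1161 
(.lf (.thr (.lm 8 40 7 41 11 9 3) (.pot 1) (.pot 1))) (.t 12 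
(.lf (.thr (.lm 7 41 6 43 9 8 3) (.pot 0) (.pot 0))) (.lf (.low 2)))) 
(.lf (.thr (.lm 8 38 7 40 11 9 5) (.pot 1) (.pot 1)))))) (.t 8 
(.lf (.thr (.lm 5 42 5 42 8 7 6) (.pot 0) (.pot 0))) 
(.lf (.thr (.lm 8 41 7 43 11 9 6) (.lf 7 124 0 131) (.pot 1))))))) (.lf (.low 2)))) (.z 1158 
(.t 16 (.lf (.thr (.lm 7 27 6 27 11 10 12) (.pot 1) (.pot 1))) (.lf (.low 2))) (.t 16 (.a 1086 
(.y 1472 (.lf (.thr (.lm 7 36 6 36 11 9 9) (.lf 6 125 0 130) (.pot 0))) (.z 1164 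
(.lf (.thr (.lm 7 36 6 36 11 9 6) (.pot 1) (.pot 1))) 
(.lf (.thr (.lm 7 39 6 39 11 9 6) (.lf 6 125 1 130) (.pot 0))))) (.y 1472 
(.lf (.thr (.lm 7 32 6 33 11 9 10) (.lf 6 125 0 130) (.pot 0))) (.z 1164 
(.lf (.thr (.lm 7 32 6 33 11 9 7) (.pot 1) (.pot 0))) 
(.lf (.thr (.lm 7 35 6 36 11 9 7) (.lf 6 125 1 130) (.pot 0)))))) (.lf (.low 2)))))))) 
(.y 1453 (.z 1147 (.a 1106 (.y 1440 (.lf .inf) (.z 1136 (.t 16 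
(.lf (.thr (.lm 7 9 6 10 11 10 12) (.pot 0) (.pot 1))) (.lf (.low 2))) (.t 16 
(.lf (.thr (.lm 7 15 6 15 11 10 12) (.pot 0) (.pot 0))) (.lf (.low 2))))) (.lf .inf)) 
(.lf (.thr (.lm 10 12 8 16 17 15 25) (.lf 8 122 0 131) (.pot 1)))) (.z 1147 (.a 1106 (.y 1466 
(.z 1136 (.t 16 (.lf (.thr (.lm 7 9 6 10 11 10 12) (.pot 1) (.pot 0))) (.lf (.low 2))) (.t 16 
(.lf (.thr (.lm 7 15 6 15 11 10 12) (.pot 0) (.pot 0))) (.lf (.low 2)))) (.z 1136 (.t 16 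
(.lf (.thr (.lm 7 9 6 10 11 10 12) (.pot 1) (.pot 0))) (.lf (.low 2))) (.t 16 
(.lf (.thr (.lm 7 15 6 15 11 10 12) (.pot 0) (.pot 0))) (.lf (.low 2))))) (.y 1466 (.z 1136 
(.t 16 (.lf (.thr (.lm 7 2 6 4 11 10 12) (.pot 0) (.pot 1))) (.lf (.low 2))) (.t 16 
(.lf (.thr (.lm 7 8 6 9 11 10 12) (.pot 0) (.pot 1))) (.lf (.low 2)))) (.z 1136 (.t 16 
(.lf (.thr (.lm 7 2 6 4 11 10 12) (.pot 0) (.pot 1))) (.lf (.low 2))) (.t 16 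
(.lf (.thr (.lm 7 8 6 9 11 10 12) (.pot 1) (.pot 0))) (.lf (.low 2)))))) (.a 1106 (.y 1466 
(.z 1158 (.t 16 (.lf (.thr (.lm 7 20 6 21 11 10 12) (.pot 0) (.pot 1))) (.lf (.low 2))) 
(.lf (.thr (.lm 10 25 8 27 17 14 13) (.lf 8 122 0 131) (.pot 0)))) (.z 1158 (.t 16 
(.lf (.thr (.lm 7 20 6 21 11 10 12) (.pot 1) (.pot 0))) (.lf (.low 2))) (.t 16 
(.lf (.thr (.lm 7 25 6 27 11 9 13) (.pot 0) (.pot 1))) (.lf (.low 2))))) (.y 1466 (.z 1158 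
(.t 16 (.lf (.thr (.lm 7 13 6 15 11 10 12) (.pot 0) (.pot 0))) (.lf (.low 2))) 
(.lf (.thr (.lm 9 18 8 21 17 14 13) (.lf 8 122 0 131) (.pot 0)))) (.z 1158 (.t 16 
(.lf (.thr (.lm 7 13 6 15 11 10 12) (.pot 0) (.pot 0))) (.lf (.low 2))) (.t 16 
(.lf (.thr (.lm 7 19 6 20 11 9 13) (.pot 0) (.pot 0))) (.lf (.low 2))))))))) (.a 1093 (.y 1504 
(.z 1147 (.a 1080 (.lf .inf) (.y 1491 (.z 1136 (.lf .inf) (.t 16 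
(.lf (.thr (.lm 7 21 6 22 11 10 12) (.pot 1) (.pot 0))) (.lf (.low 2)))) (.lf .inf))) (.a 1080 
(.y 1491 (.z 1158 (.t 16 (.a 1074 (.lf .inf) (.y 1485 (.z 1152 (.lf .inf) 
(.lf (.thr (.lm 7 36 6 36 11 10 6) (.pot 1) (.pot 1)))) (.lf .inf))) (.lf (.low 2))) (.t 16 
(.a 1074 (.z 1164 (.y 1485 (.t 8 (.lf (.thr (.lm 5 42 5 42 8 7 6) (.pot 0) (.pot 0))) (.a 1071 
(.lf .inf) (.z 1161 (.lf .inf) (.y 1482 (.t 12 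
(.lf (.thr (.lm 7 43 6 44 9 8 3) (.pot 0) (.pot 0))) (.lf (.low 2))) (.lf .inf))))) (.lf .inf)) 
(.y 1485 (.t 8 (.lf (.thr (.lm 5 45 5 45 8 7 6) (.pot 0) (.pot 0))) (.a 1071 
(.lf (.thr (.lm 8 46 7 47 11 9 5) (.lf 7 124 0 131) (.lf 0 131 8 122))) (.z 1167 (.y 1482 
(.t 12 (.lf (.thr (.lm 7 44 6 46 9 8 3) (.pot 1) (.pot 0))) (.lf (.low 2))) (.lf .inf)) 
(.lf (.thr (.lm 8 46 7 47 11 9 3) (.lf 7 124 0 131) (.lf 0 131 8 122)))))) (.lf .inf))) 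
(.z 1164 (.y 1485 (.t 8 (.lf (.thr (.lm 5 39 5 39 8 7 6) (.pot 0) (.pot 0))) (.a 1077 (.z 1161 
(.lf (.thr (.lm 8 40 7 41 11 9 3) (.pot 1) (.pot 1))) (.y 1482 (.t 12 
(.lf (.thr (.lm 7 41 6 43 9 8 3) (.pot 0) (.pot 0))) (.lf (.low 2))) (.lf .inf))) 
(.lf (.thr (.lm 8 38 7 40 11 9 5) (.pot 1) (.pot 1))))) (.lf .inf)) (.y 1485 (.t 8 
(.lf (.thr (.lm 5 42 5 42 8 7 6) (.pot 0) (.pot 0))) (.a 1077 (.z 1167 (.y 1482 (.t 12 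
(.lf (.thr (.lm 7 43 6 44 9 8 3) (.pot 0) (.pot 0))) (.lf (.low 2))) (.t 12 
(.lf (.thr (.lm 7 43 6 44 9 8 3) (.pot 0) (.pot 0))) (.lf (.low 2)))) (.y 1482 (.t 12 
(.lf (.thr (.lm 7 44 6 46 9 8 3) (.pot 1) (.pot 0))) (.lf (.low 2))) (.t 12 
(.lf (.thr (.lm 7 44 6 46 9 8 3) (.pot 1) (.pot 0))) (.lf (.low 2))))) (.z 1167 (.y 1482 
(.t 12 (.lf (.thr (.lm 7 41 6 43 9 8 3) (.pot 0) (.pot 0))) (.lf (.low 2))) (.t 12 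
(.lf (.thr (.lm 7 41 6 43 9 8 3) (.pot 0) (.pot 0))) (.lf (.low 2)))) (.y 1482 
(.lf (.thr (.lm 8 43 7 44 11 9 3) (.lf 7 124 0 131) (.pot 0))) (.t 12 
(.lf (.thr (.lm 7 43 6 44 9 8 3) (.pot 0) (.pot 0))) (.lf (.low 2))))))) (.t 8 
(.lf (.thr (.lm 5 42 5 42 8 7 6) (.pot 0) (.pot 0))) (.a 1077 (.lf .inf) (.z 1167 (.lf .inf) 
(.y 1488 (.t 12 (.lf (.thr (.lm 7 43 6 44 9 8 3) (.pot 0) (.pot 0))) (.lf (.low 2))) (.lf .inf)))))))) 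
(.lf (.low 2)))) (.lf .inf)) (.y 1491 (.z 1158 (.t 16 
(.lf (.thr (.lm 7 27 6 27 11 10 12) (.pot 1) (.pot 1))) (.lf (.low 2))) (.t 16 (.a 1086 
(.z 1164 (.lf (.thr (.lm 7 36 6 36 11 9 6) (.pot 1) (.pot 1))) (.y 1485 (.t 8 
(.lf (.thr (.lm 5 39 5 39 8 7 6) (.pot 0) (.pot 0))) (.a 1083 (.z 1167 
(.lf (.thr (.lm 8 40 7 41 11 9 3) (.pot 1) (.pot 1))) (.y 1482 
(.lf (.thr (.lm 8 41 7 43 11 9 3) (.lf 7 124 0 131) (.pot 0))) (.t 12 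
(.lf (.thr (.lm 7 41 6 43 9 8 3) (.pot 0) (.pot 0))) (.lf (.low 2))))) 
(.lf (.thr (.lm 8 38 7 40 11 9 5) (.pot 1) (.pot 1))))) (.t 8 
(.lf (.thr (.lm 5 39 5 39 8 7 6) (.pot 0) (.pot 0))) (.a 1083 (.z 1167 
(.lf (.thr (.lm 8 40 7 41 11 9 3) (.pot 1) (.pot 1))) (.y 1488 (.t 12 
(.lf (.thr (.lm 7 41 6 43 9 8 3) (.pot 0) (.pot 0))) (.lf (.low 2))) (.lf .inf))) 
(.lf (.thr (.lm 8 38 7 40 11 9 5) (.pot 1) (.pot 1))))))) (.z 1164 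
(.lf (.thr (.lm 7 32 6 33 11 9 7) (.pot 1) (.pot 0))) 
(.lf (.thr (.lm 7 35 6 36 11 9 7) (.pot 1) (.pot 1))))) (.lf (.low 2)))) (.z 1158 (.lf .inf) 
(.t 16 (.a 1086 (.lf .inf) (.y 1497 (.z 1164 (.lf .inf) 
(.lf (.thr (.lm 7 35 6 36 11 9 7) (.pot 1) (.pot 0)))) (.lf .inf))) (.lf (.low 2))))))) 
(.lf .inf)) (.y 1504 (.z 1147 (.a 1106 (.y 1491 (.z 1136 (.t 16 
(.lf (.thr (.lm 7 9 6 10 11 10 12) (.pot 1) (.pot 0))) (.lf (.low 2))) (.t 16 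
(.lf (.thr (.lm 7 15 6 15 11 10 12) (.pot 0) (.pot 0))) (.lf (.low 2)))) (.lf .inf)) (.y 1491 
(.z 1136 (.t 16 (.lf (.thr (.lm 7 2 6 4 11 10 12) (.pot 1) (.pot 1))) (.lf (.low 2))) (.t 16 
(.lf (.thr (.lm 7 8 6 9 11 10 12) (.pot 1) (.pot 0))) (.lf (.low 2)))) (.z 1136 (.lf .inf) 
(.t 16 (.lf (.thr (.lm 7 8 6 9 11 10 12) (.pot 1) (.pot 0))) (.lf (.low 2)))))) (.a 1106 
(.y 1491 (.z 1158 (.t 16 (.lf (.thr (.lm 7 20 6 21 11 10 12) (.pot 1) (.pot 0))) (.lf (.low 2))) 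
(.t 16 (.lf (.thr (.lm 7 25 6 27 11 9 13) (.pot 1) (.pot 1))) (.lf (.low 2)))) (.z 1158 (.t 16 
(.lf (.thr (.lm 7 20 6 21 11 10 12) (.pot 1) (.pot 0))) (.lf (.low 2))) (.t 16 
(.lf (.thr (.lm 7 25 6 27 11 9 13) (.pot 1) (.pot 1))) (.lf (.low 2))))) (.y 1491 (.z 1158 
(.t 16 (.lf (.thr (.lm 7 13 6 15 11 10 12) (.pot 0) (.pot 0))) (.lf (.low 2))) (.t 16 
(.lf (.thr (.lm 7 19 6 20 11 9 13) (.pot 0) (.pot 0))) (.lf (.low 2)))) (.z 1158 (.t 16 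
(.lf (.thr (.lm 7 13 6 15 11 10 12) (.pot 0) (.pot 0))) (.lf (.low 2))) (.t 16 
(.lf (.thr (.lm 7 19 6 20 11 9 13) (.pot 0) (.pot 0))) (.lf (.low 2))))))) (.z 1147 (.lf .inf) 
(.a 1106 (.lf .inf) (.y 1517 (.z 1158 (.lf .inf) (.t 16 
(.lf (.thr (.lm 7 19 6 20 11 9 13) (.pot 0) (.pot 0))) (.lf (.low 2)))) (.lf .inf))))))) 
(.y 1479 (.a 1144 (.y 1453 (.lf .inf) (.z 1147 (.y 1466 (.lf .inf) (.a 1131 (.z 1136 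
(.lf (.thr (.lm 9 0 9 0 16 16 9) (.pot 1) (.pot 1))) 
(.lf (.thr (.lm 9 0 9 5 16 16 12) (.pot 1) (.pot 1)))) (.lf .inf))) (.y 1466 (.lf .inf) 
(.a 1131 (.z 1158 (.t 16 (.lf (.thr (.lm 6 7 6 9 10 10 12) (.pot 1) (.pot 0))) (.lf (.low 2))) 
(.t 16 (.lf (.thr (.lm 6 13 6 14 10 9 12) (.pot 0) (.pot 0))) (.lf (.low 2)))) (.lf .inf))))) 
(.lf .inf)) (.a 1144 (.y 1504 (.z 1147 (.a 1131 (.y 1491 (.z 1136 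
(.lf (.thr (.lm 9 0 9 0 16 16 9) (.pot 1) (.pot 1))) 
(.lf (.thr (.lm 9 0 9 5 16 16 12) (.pot 1) (.pot 1)))) (.z 1136 
(.lf (.thr (.lm 9 0 9 0 16 16 9) (.pot 1) (.pot 1))) 
(.lf (.thr (.lm 9 0 9 5 16 16 12) (.pot 1) (.pot 1))))) 
(.lf (.thr (.lm 9 0 9 0 16 16 8) (.pot 1) (.pot 1)))) (.a 1131 (.y 1491 (.z 1158 (.t 16 
(.lf (.thr (.lm 6 7 6 9 10 10 12) (.pot 1) (.pot 0))) (.lf (.low 2))) (.t 16 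
(.lf (.thr (.lm 6 13 6 14 10 9 12) (.pot 0) (.pot 0))) (.lf (.low 2)))) (.z 1158 (.t 16 
(.lf (.thr (.lm 6 7 6 9 10 10 12) (.pot 1) (.pot 0))) (.lf (.low 2))) (.t 16 
(.lf (.thr (.lm 6 13 6 14 10 9 12) (.pot 0) (.pot 0))) (.lf (.low 2))))) (.y 1491 (.z 1158 
(.lf (.thr (.lm 9 0 8 3 16 15 12) (.pot 1) (.pot 1))) (.t 16 
(.lf (.thr (.lm 6 6 6 8 10 9 13) (.pot 1) (.pot 0))) (.lf (.low 2)))) (.z 1158 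
(.lf (.thr (.lm 9 0 8 3 16 15 12) (.pot 1) (.pot 1))) (.t 16 
(.lf (.thr (.lm 6 6 6 8 10 9 13) (.pot 1) (.pot 0))) (.lf (.low 2))))))) (.z 1147 (.y 1517 
(.a 1131 (.lf .inf) (.lf (.thr (.lm 9 0 9 0 16 16 8) (.pot 1) (.pot 1)))) (.lf .inf)) (.y 1517 
(.a 1131 (.z 1158 (.t 16 (.lf (.thr (.lm 6 7 6 9 10 10 12) (.pot 1) (.pot 0))) (.lf (.low 2))) 
(.t 16 (.lf (.thr (.lm 6 13 6 14 10 9 12) (.pot 0) (.pot 0))) (.lf (.low 2)))) (.z 1158 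
(.lf (.thr (.lm 9 0 8 3 16 15 12) (.pot 1) (.pot 1))) (.t 16 
(.lf (.thr (.lm 6 6 6 8 10 9 13) (.pot 1) (.pot 0))) (.lf (.low 2))))) (.a 1131 (.lf .inf) 
(.z 1158 (.lf .inf) (.t 16 (.lf (.thr (.lm 6 6 6 8 10 9 13) (.pot 1) (.pot 0))) (.lf (.low 2)))))))) 
(.lf (.thr (.lm 8 0 9 0 15 16 13) (.pot 1) (.pot 1)))))))

theorem h24 : chk (leafT PP TD0 0 2) c24 0 32 1068 1170 1125 1170 1327 1530 = true := by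
  decide +kernel

def c25 : Tree :=
  (.y 1372 (.a 911 (.y 1271 (.a 860 (.y 1220 (.a 835 (.y 1195 
(.lf (.thr (.pot 1) (.lm 7 0 7 0 13 13 13) (.pot 1))) (.z 1192 (.a 822 (.lf .inf) (.y 1207 
(.lf (.thr (.pot 1) (.lm 7 0 6 3 13 11 17) (.pot 1))) 
(.lf (.thr (.pot 1) (.lm 7 4 6 11 13 10 18) (.pot 1))))) 
(.lf (.thr (.pot 1) (.lm 6 0 6 0 11 11 14) (.pot 1))))) (.y 1195 
(.lf (.thr (.pot 1) (.lm 7 0 7 0 13 13 13) (.pot 1))) (.z 1192 (.a 847 (.y 1207 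
(.lf (.thr (.pot 1) (.lm 7 0 6 3 13 11 17) (.pot 1))) 
(.lf (.thr (.pot 1) (.lm 7 4 6 11 13 10 18) (.pot 1)))) (.y 1207 
(.lf (.thr (.pot 0) (.lm 7 0 6 3 13 11 17) (.pot 1))) 
(.lf (.thr (.pot 0) (.lm 7 4 6 11 13 10 18) (.pot 1))))) 
(.lf (.thr (.pot 1) (.lm 6 0 6 0 11 11 14) (.pot 1)))))) (.y 1245 (.a 835 (.z 1192 (.a 822 
(.lf .inf) (.y 1232 (.lf (.thr (.pot 1) (.lm 7 11 5 17 13 8 17) (.pot 0))) (.lf .inf))) 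
(.lf .inf)) (.z 1192 (.a 847 (.y 1232 (.lf (.thr (.pot 1) (.lm 7 11 5 17 13 8 17) (.pot 1))) 
(.lf (.thr (.pot 1) (.lm 7 17 4 23 13 7 18) (.pot 1)))) (.y 1232 
(.lf (.thr (.pot 0) (.lm 7 11 5 17 13 8 17) (.pot 1))) 
(.lf (.thr (.pot 1) (.lm 7 17 4 23 13 7 18) (.pot 1))))) 
(.lf (.thr (.pot 1) (.lm 6 0 5 5 11 8 24) (.pot 1))))) (.a 835 (.lf .inf) (.z 1192 (.y 1258 
(.a 847 (.lf .inf) (.z 1181 (.lf (.thr (.pot 0) (.lm 8 30 4 34 13 6 12) (.pot 0))) 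
(.lf (.thr (.pot 0) (.lm 7 24 4 29 12 6 12) (.pot 0))))) (.a 847 (.lf .inf) (.z 1181 
(.lf (.thr (.pot 0) (.lm 8 36 3 41 13 5 12) (.lf 3 127 1 129))) 
(.lf (.thr (.pot 0) (.lm 7 31 3 35 12 5 12) (.pot 0)))))) (.y 1258 
(.lf (.thr (.pot 0) (.lm 6 12 4 18 11 6 18) (.pot 0))) (.lf .inf)))))) (.y 1220 (.a 885 
(.y 1195 (.lf .inf) (.z 1192 (.a 872 (.y 1207 (.lf .inf) 
(.lf (.thr (.pot 0) (.lm 7 4 6 11 13 10 18) (.pot 1)))) (.lf .inf)) 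
(.lf (.thr (.pot 1) (.lm 6 0 6 0 11 11 14) (.pot 1))))) (.lf .inf)) (.a 885 (.y 1245 (.z 1192 
(.a 872 (.y 1232 (.lf (.thr (.pot 0) (.lm 7 11 5 17 13 8 17) (.pot 1))) 
(.lf (.thr (.pot 1) (.lm 7 17 4 23 13 7 18) (.pot 1)))) (.y 1232 
(.lf (.thr (.pot 0) (.lm 7 11 5 17 13 8 17) (.pot 1))) 
(.lf (.thr (.pot 0) (.lm 7 17 4 23 13 7 18) (.pot 1))))) 
(.lf (.thr (.pot 1) (.lm 6 0 5 5 11 8 24) (.pot 1)))) (.z 1192 (.y 1258 (.a 872 (.z 1181 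
(.lf (.thr (.pot 0) (.lm 8 30 4 34 13 6 12) (.pot 0))) 
(.lf (.thr (.pot 0) (.lm 7 24 4 29 12 6 12) (.pot 0)))) (.z 1181 
(.lf (.thr (.pot 0) (.lm 8 30 4 34 13 6 12) (.pot 0))) 
(.lf (.thr (.pot 0) (.lm 7 24 4 29 12 6 12) (.pot 0))))) (.a 872 (.z 1181 (.t 16 
(.lf (.thr (.pot 0) (.lm 6 37 3 40 9 5 12) (.pot 0))) 
(.lf (.thr (.pot 1) (.lm 10 35 3 42 13 5 12) (.pot 1)))) 
(.lf (.thr (.pot 0) (.lm 7 31 3 35 12 5 12) (.pot 0)))) (.z 1181 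
(.lf (.thr (.lf 2 128 8 123) (.lm 8 36 3 41 13 5 12) (.pot 1))) 
(.lf (.thr (.pot 0) (.lm 7 31 3 35 12 5 12) (.pot 0)))))) (.y 1258 
(.lf (.thr (.pot 0) (.lm 6 12 4 18 11 6 18) (.pot 0))) 
(.lf (.thr (.pot 0) (.lm 6 19 3 24 11 5 18) (.pot 0)))))) (.y 1245 (.z 1192 (.a 898 (.y 1232 
(.lf .inf) (.lf (.thr (.pot 0) (.lm 7 17 4 23 13 7 18) (.pot 1)))) (.lf .inf)) 
(.lf (.thr (.pot 0) (.lm 6 0 5 5 11 8 24) (.pot 1)))) (.z 1192 (.a 898 (.y 1258 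
(.lf (.thr (.lf 3 128 7 123) (.lm 7 24 4 29 13 6 18) (.pot 0))) 
(.lf (.thr (.lf 3 128 7 123) (.lm 7 31 3 35 13 5 18) (.pot 0)))) 
(.lf (.thr (.lf 4 127 7 123) (.lm 7 24 3 29 13 6 24) (.pot 0)))) (.a 898 (.y 1258 
(.lf (.thr (.pot 0) (.lm 6 12 4 18 11 6 18) (.pot 0))) 
(.lf (.thr (.pot 0) (.lm 6 19 3 24 11 5 18) (.pot 0)))) (.y 1258 
(.lf (.thr (.pot 0) (.lm 6 12 4 18 11 6 18) (.pot 0))) 
(.lf (.thr (.pot 0) (.lm 6 19 3 24 11 5 18) (.pot 0)))))))))) (.a 860 (.lf .inf) (.y 1321 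
(.a 885 (.y 1296 (.z 1192 (.a 872 
(.lf (.thr (.lf 2 129 7 123) (.lm 7 37 2 42 13 5 24) (.lf 2 128 2 129))) (.y 1283 (.z 1181 
(.lf (.thr (.lf 2 128 8 123) (.lm 8 43 2 47 13 5 12) (.lf 2 128 2 128))) 
(.lf (.thr (.pot 0) (.lm 7 37 2 42 12 5 12) (.pot 0)))) 
(.lf (.thr (.lf 2 128 7 123) (.lm 7 43 2 48 13 5 18) (.lf 2 129 2 128))))) (.a 872 
(.lf (.thr (.pot 1) (.lm 6 25 2 31 11 5 24) (.lf 2 128 2 129))) (.y 1283 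
(.lf (.thr (.pot 0) (.lm 6 26 2 30 11 5 18) (.pot 0))) 
(.lf (.thr (.pot 0) (.lm 6 32 2 36 11 5 18) (.pot 0)))))) 
(.lf (.thr (.lf 2 129 7 124) (.lm 7 38 1 43 13 5 35) (.lf 1 130 2 129)))) (.y 1296 (.z 1192 
(.a 898 (.y 1283 (.lf (.thr (.lf 3 128 7 123) (.lm 7 37 2 42 13 5 17) (.pot 0))) 
(.lf (.thr (.lf 3 128 7 123) (.lm 7 43 2 48 13 5 18) (.lf 2 129 3 128)))) 
(.lf (.thr (.lf 4 127 7 123) (.lm 7 37 2 42 13 5 24) (.pot 0)))) (.a 898 (.y 1283 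
(.lf (.thr (.pot 0) (.lm 6 26 2 30 11 5 18) (.pot 0))) 
(.lf (.thr (.pot 0) (.lm 6 32 2 36 11 5 18) (.pot 0)))) (.y 1283 
(.lf (.thr (.pot 0) (.lm 6 26 2 30 11 5 18) (.pot 0))) 
(.lf (.thr (.pot 0) (.lm 6 32 2 36 11 5 18) (.pot 0)))))) (.z 1192 
(.lf (.thr (.lf 3 127 7 123) (.lm 7 49 1 55 13 5 24) (.lf 1 130 3 127))) 
(.lf (.thr (.lf 3 127 6 124) (.lm 6 38 1 43 11 5 24) (.lf 1 130 3 127)))))) 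
(.lf (.thr (.lf 3 128 7 124) (.lm 7 50 0 56 13 5 48) (.lf 0 105 3 103)))))) (.y 1271 (.a 961 
(.y 1220 (.lf .inf) (.y 1245 (.lf .inf) (.a 936 (.z 1192 
(.lf (.thr (.lf 5 118 7 116) (.lm 7 24 3 29 13 6 24) (.pot 0))) 
(.lf (.thr (.lf 5 126 6 124) (.lm 6 12 3 18 11 6 25) (.pot 1)))) (.lf .inf)))) (.lf .inf)) 
(.a 961 (.y 1321 (.a 936 (.y 1296 
(.lf (.thr (.lf 5 118 7 116) (.lm 7 25 2 31 13 5 35) (.pot 1))) (.z 1192 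
(.lf (.thr (.lf 5 118 7 116) (.lm 7 49 1 55 13 5 24) (.pot 0))) 
(.lf (.thr (.lf 5 126 6 124) (.lm 6 38 1 43 11 5 24) (.pot 0))))) (.y 1296 
(.lf (.thr (.lf 6 105 7 104) (.lm 7 25 2 31 13 5 35) (.pot 0))) 
(.lf (.thr (.lf 6 105 7 104) (.lm 7 38 1 43 13 5 35) (.pot 0))))) (.y 1346 (.a 936 
(.lf (.thr (.lf 5 118 7 116) (.lm 7 50 0 56 13 5 35) (.lf 0 131 5 126))) (.z 1192 
(.lf (.thr (.lf 6 105 7 104) (.lm 7 61 0 68 13 5 24) (.pot 0))) 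
(.lf (.thr (.lf 6 116 6 115) (.lm 6 50 0 56 11 5 24) (.pot 0))))) 
(.lf (.thr (.lf 5 105 7 104) (.lm 7 63 0 68 13 5 36) (.lf 0 131 5 125))))) (.y 1321 
(.lf (.thr (.lf 8 79 7 79) (.lm 7 25 1 31 13 5 48) (.pot 0))) (.a 986 (.y 1346 
(.lf (.thr (.lf 7 92 7 92) (.lm 7 50 0 56 13 5 35) (.pot 0))) 
(.lf (.thr (.lf 7 92 7 92) (.lm 7 63 0 68 13 5 36) (.pot 0)))) 
(.lf (.thr (.lf 8 78 7 80) (.lm 7 50 0 56 13 5 48) (.pot 0)))))))) (.y 1473 (.a 911 (.a 860 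
(.lf .inf) (.lf (.thr (.lf 3 128 7 124) (.lf 7 76 0 81) (.lf 0 55 3 52)))) (.a 961 
(.lf (.thr (.lf 5 105 7 104) (.lf 7 76 0 81) (.lf 0 81 5 77))) (.y 1422 
(.lf (.thr (.lf 8 79 7 79) (.lf 7 76 0 81) (.lf 0 131 8 123))) 
(.lf (.thr (.lf 8 79 7 79) (.lf 7 100 0 107) (.lf 0 108 8 100)))))) (.a 911 (.lf .inf) 
(.y 1524 (.a 961 (.lf .inf) (.a 986 (.lf .inf) (.y 1498 
(.lf (.thr (.lf 8 78 7 80) (.lf 7 124 0 131) (.lf 0 108 8 100))) (.lf .inf)))) (.lf .inf)))))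

theorem h25 : chk (leafT PP TD0 0 2) c25 0 32 810 1012 1170 1215 1170 1575 = true := by
  decide +kernel

def c26 : Tree :=
  (.a 1113 (.y 1271 (.lf .inf) (.a 1062 (.y 1321 (.lf .inf) 
(.lf (.thr (.lm 9 53 7 55 17 13 48) (.lm 7 50 0 56 13 5 48) (.pot 0)))) (.lf .inf))) (.lf .inf))

theorem h26 : chk (leafT PP TD0 0 2) c26 0 32 1012 1215 1170 1215 1170 1372 = true := by
  decide +kernel

def c27 : Tree :=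
  (.y 1473 (.a 1062 (.y 1422 (.a 1037 (.y 1397 
(.lf (.thr (.lm 9 66 7 67 16 13 35) (.lm 7 76 0 81 13 5 35) (.pot 0))) 
(.lf (.thr (.lm 9 66 7 67 16 13 35) (.lf 7 88 0 94) (.pot 0)))) 
(.lf (.thr (.lm 10 53 7 55 17 13 35) (.lf 7 76 0 81) (.pot 0)))) (.y 1447 (.a 1037 
(.lf (.thr (.lm 9 66 7 67 16 13 35) (.lf 7 100 0 107) (.lf 0 131 9 122))) (.z 1192 
(.lf (.thr (.lm 10 53 7 55 17 13 24) (.lf 7 111 0 119) (.lf 0 131 10 121))) 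
(.lf (.thr (.lm 10 64 6 66 17 11 24) (.lf 6 101 0 106) (.pot 0))))) (.a 1037 
(.lf (.thr (.lm 9 66 7 67 16 13 35) (.lf 7 113 0 119) (.lf 0 131 9 122))) (.z 1192 (.y 1460 
(.lf (.thr (.lm 10 53 7 55 17 13 24) (.lf 7 123 0 131) (.lf 0 131 10 121))) (.a 1049 
(.lf (.thr (.lm 9 60 7 61 17 13 17) (.lf 7 123 0 131) (.lf 0 131 9 121))) 
(.lf (.thr (.lm 10 53 7 55 17 13 18) (.lf 7 123 0 131) (.lf 0 131 10 121))))) 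
(.lf (.thr (.lm 10 64 6 66 17 11 24) (.lf 6 113 0 119) (.lf 0 131 10 121))))))) (.y 1422 
(.lf (.thr (.lm 10 26 7 31 17 13 48) (.lf 7 76 0 81) (.pot 0))) (.a 1087 (.y 1447 
(.lf (.thr (.lm 10 40 7 43 17 13 35) (.lf 7 100 0 107) (.pot 0))) (.z 1192 (.y 1460 
(.lf (.thr (.lm 10 40 7 43 17 13 24) (.lf 7 123 0 131) (.pot 1))) (.a 1074 (.z 1181 (.t 16 
(.lf (.thr (.lm 7 48 6 48 11 9 12) (.lf 6 125 0 130) (.pot 0))) (.lf (.low 2))) 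
(.lf (.thr (.lm 10 52 7 55 17 12 12) (.lf 7 123 0 131) (.lf 0 131 10 121)))) (.z 1181 (.t 16 
(.lf (.thr (.lm 7 41 6 42 11 9 12) (.lf 6 125 0 130) (.pot 0))) (.lf (.low 2))) 
(.lf (.thr (.lm 10 46 7 48 17 12 12) (.lf 7 123 0 131) (.pot 0)))))) 
(.lf (.thr (.lm 10 51 6 54 17 11 24) (.lf 6 113 0 119) (.pot 0))))) (.y 1447 
(.lf (.thr (.lm 10 27 7 30 17 13 36) (.lf 7 100 0 107) (.pot 0))) (.z 1192 (.a 1100 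
(.lf (.thr (.lm 10 34 7 36 17 13 18) (.lf 7 123 0 131) (.pot 0))) 
(.lf (.thr (.lm 10 27 7 30 17 13 18) (.lf 7 123 0 131) (.pot 0)))) 
(.lf (.thr (.lm 10 38 6 41 17 11 25) (.lf 6 113 0 119) (.pot 0)))))))) (.y 1524 (.a 1062 
(.y 1498 (.a 1037 (.lf (.thr (.lm 9 66 7 67 16 13 35) (.lf 7 124 0 131) (.lf 0 121 9 113))) 
(.z 1192 (.a 1049 (.y 1485 
(.lf (.thr (.lm 9 60 7 61 17 13 17) (.lf 7 123 0 131) (.lf 0 131 9 121))) (.lf .inf)) (.y 1485 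
(.z 1181 (.t 16 (.lf (.thr (.lm 7 54 6 54 11 9 12) (.lf 6 125 1 130) (.lf 1 130 7 124))) 
(.lf (.low 2))) (.lf (.thr (.lm 10 58 7 61 17 12 12) (.lf 7 123 0 131) (.lf 0 131 10 121)))) 
(.z 1181 (.lf .inf) (.lf (.thr (.lm 10 58 7 61 17 12 12) (.lf 7 123 0 131) (.lf 0 131 10 121)))))) 
(.lf (.thr (.lm 10 64 6 66 17 11 24) (.lf 6 124 0 131) (.lf 0 131 10 121))))) (.a 1037 
(.lf .inf) (.z 1192 (.lf .inf) (.y 1511 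
(.lf (.thr (.lm 10 64 6 66 17 11 24) (.lf 6 124 0 131) (.lf 0 128 10 118))) (.lf .inf))))) 
(.a 1087 (.y 1498 (.z 1192 (.a 1074 (.y 1485 (.z 1181 (.t 16 
(.lf (.thr (.lm 7 48 6 48 11 9 12) (.lf 6 125 1 130) (.lf 1 130 7 124))) (.lf (.low 2))) 
(.lf (.thr (.lm 10 52 7 55 17 12 12) (.lf 7 123 0 131) (.lf 0 131 10 121)))) (.z 1181 (.t 16 
(.y 1491 (.lf (.thr (.lm 7 48 6 48 11 9 12) (.lf 6 125 1 130) (.lf 1 130 7 124))) (.lf .inf)) 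
(.lf (.low 2))) (.t 16 (.lf (.thr (.lm 7 53 5 54 11 8 12) (.lf 5 125 1 130) (.lf 1 130 7 124))) 
(.lf (.low 2))))) (.y 1485 (.z 1181 (.t 16 (.a 1080 (.y 1479 
(.lf (.thr (.lm 7 44 6 46 11 9 9) (.lf 6 125 1 130) (.pot 0))) (.z 1175 (.t 8 
(.lf (.thr (.lm 5 45 5 45 8 7 6) (.pot 0) (.pot 0))) (.a 1077 
(.lf (.thr (.lm 8 46 7 47 11 9 4) (.lf 7 124 0 131) (.lf 0 131 8 122))) 
(.lf (.thr (.lm 8 44 7 46 11 9 4) (.lf 7 124 0 131) (.pot 1))))) 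
(.lf (.thr (.lm 7 47 6 48 11 9 6) (.lf 6 125 1 130) (.pot 0))))) 
(.lf (.thr (.lm 7 41 6 42 11 9 9) (.lf 6 125 1 130) (.pot 1)))) (.lf (.low 2))) (.t 16 
(.lf (.thr (.lm 7 46 5 48 11 8 12) (.lf 5 125 1 130) (.pot 0))) (.lf (.low 2)))) (.z 1181 
(.t 16 (.a 1080 (.y 1491 (.z 1175 (.t 8 (.lf (.thr (.lm 5 45 5 45 8 7 6) (.pot 0) (.pot 0))) 
(.a 1077 (.lf (.thr (.lm 8 46 7 47 11 9 4) (.lf 7 124 0 131) (.lf 0 131 8 122))) (.y 1488 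
(.z 1172 (.t 12 (.lf (.thr (.lm 7 44 6 46 9 8 3) (.pot 0) (.pot 0))) (.lf (.low 2))) 
(.lf (.thr (.lm 8 45 7 47 11 9 3) (.lf 7 124 0 131) (.lf 0 131 8 122)))) (.lf .inf)))) 
(.lf (.thr (.lm 7 47 6 48 11 9 6) (.lf 6 125 1 130) (.lf 1 130 7 124)))) (.lf .inf)) (.y 1491 
(.z 1175 (.t 8 (.lf (.thr (.lm 5 41 5 42 8 7 6) (.pot 0) (.pot 0))) (.a 1083 (.y 1488 (.z 1172 
(.t 12 (.lf (.thr (.lm 7 43 6 44 9 8 3) (.pot 0) (.pot 0))) (.lf (.low 2))) (.t 12 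
(.lf (.thr (.lm 7 44 6 45 9 8 3) (.pot 0) (.pot 0))) (.lf (.low 2)))) (.z 1172 (.lf .inf) 
(.t 12 (.lf (.thr (.lm 7 44 6 45 9 8 3) (.pot 0) (.pot 0))) (.lf (.low 2))))) (.y 1488 
(.z 1172 (.lf (.thr (.lm 8 41 7 42 11 9 3) (.pot 1) (.pot 1))) 
(.lf (.thr (.lm 8 42 7 43 11 9 4) (.lf 7 124 0 131) (.pot 0)))) (.z 1172 
(.lf (.thr (.lm 8 41 7 42 11 9 3) (.pot 1) (.pot 1))) (.t 12 
(.lf (.thr (.lm 7 42 6 43 9 8 4) (.pot 0) (.pot 0))) (.lf (.low 2))))))) (.t 8 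
(.lf (.thr (.lm 5 44 5 44 8 7 7) (.pot 0) (.pot 0))) (.a 1083 
(.lf (.thr (.lm 8 45 7 47 11 9 5) (.lf 7 124 0 131) (.lf 0 131 8 122))) 
(.lf (.thr (.lm 8 43 7 45 11 9 5) (.lf 7 124 0 131) (.pot 1)))))) (.z 1175 (.t 8 
(.lf (.thr (.lm 5 41 5 42 8 7 6) (.pot 0) (.pot 0))) (.a 1083 (.lf .inf) (.y 1494 (.z 1172 
(.lf .inf) (.t 12 (.lf (.thr (.lm 7 42 6 43 9 8 4) (.pot 0) (.pot 0))) (.lf (.low 2)))) 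
(.lf .inf)))) (.t 8 (.lf (.thr (.lm 5 44 5 44 8 7 7) (.pot 0) (.pot 0))) (.a 1083 
(.lf (.thr (.lm 8 45 7 47 11 9 5) (.lf 7 124 0 131) (.lf 0 131 8 122))) (.y 1494 (.z 1178 
(.t 12 (.lf (.thr (.lm 7 43 6 45 9 8 4) (.pot 0) (.pot 0))) (.lf (.low 2))) 
(.lf (.thr (.lm 8 45 6 46 11 9 4) (.lf 6 124 0 131) (.lf 0 131 8 122)))) (.z 1178 (.lf .inf) 
(.t 12 (.lf (.thr (.lm 7 45 6 46 9 8 4) (.pot 1) (.pot 0))) (.lf (.low 2)))))))))) 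
(.lf (.low 2))) (.t 16 (.lf (.thr (.lm 7 46 5 48 11 8 12) (.lf 5 125 1 130) (.lf 1 130 7 124))) 
(.lf (.low 2)))))) (.lf (.thr (.lm 10 51 6 54 17 11 24) (.lf 6 124 0 131) (.lf 0 131 10 121)))) 
(.z 1192 (.y 1511 (.a 1074 (.lf .inf) (.z 1181 (.lf .inf) (.t 16 (.a 1080 (.lf .inf) (.y 1504 
(.z 1186 (.lf .inf) (.lf (.thr (.lm 7 49 5 50 11 8 7) (.lf 5 125 1 130) (.lf 1 130 7 124)))) 
(.lf .inf))) (.lf (.low 2))))) (.lf .inf)) (.y 1511 (.a 1074 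
(.lf (.thr (.lm 10 57 6 61 17 11 18) (.lf 6 124 0 131) (.lf 0 131 10 121))) (.z 1203 (.t 16 
(.lf (.thr (.lm 7 52 5 53 11 8 12) (.lf 5 125 1 130) (.lf 1 130 7 124))) (.lf (.low 2))) 
(.lf (.thr (.lm 10 56 6 60 17 10 13) (.lf 6 124 0 131) (.lf 0 131 10 121))))) (.a 1074 
(.lf .inf) (.z 1203 (.lf .inf) 
(.lf (.thr (.lm 10 56 6 60 17 10 13) (.lf 6 124 0 131) (.lf 0 131 10 121)))))))) (.y 1498 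
(.z 1192 (.a 1100 (.y 1485 (.z 1181 (.t 16 
(.lf (.thr (.lm 7 34 6 36 11 9 12) (.lf 6 125 1 130) (.pot 0))) (.lf (.low 2))) 
(.lf (.thr (.lm 10 39 7 42 17 12 12) (.lf 7 123 0 131) (.pot 1)))) (.z 1181 (.t 16 (.a 1093 
(.y 1491 (.z 1175 (.t 8 (.lf (.thr (.lm 5 38 5 39 8 7 6) (.pot 0) (.pot 0))) 
(.lf (.thr (.lm 8 38 7 39 11 9 6) (.pot 1) (.pot 1)))) 
(.lf (.thr (.lm 7 40 6 42 11 9 6) (.lf 6 125 1 130) (.pot 1)))) (.z 1175 (.t 8 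
(.lf (.thr (.lm 5 38 5 39 8 7 6) (.pot 0) (.pot 0))) 
(.lf (.thr (.lm 8 38 7 39 11 9 6) (.pot 1) (.pot 1)))) (.t 8 
(.lf (.thr (.lm 5 41 5 41 8 7 6) (.pot 0) (.pot 0))) (.y 1494 (.a 1090 (.z 1178 (.t 12 
(.lf (.thr (.lm 7 42 6 43 9 8 3) (.pot 0) (.pot 0))) (.lf (.low 2))) 
(.lf (.thr (.lm 8 43 6 45 11 9 3) (.lf 6 124 0 131) (.pot 0)))) 
(.lf (.thr (.lm 8 40 7 42 11 9 5) (.lf 7 124 0 131) (.pot 1)))) (.a 1090 (.z 1178 (.t 12 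
(.lf (.thr (.lm 7 42 6 43 9 8 3) (.pot 0) (.pot 0))) (.lf (.low 2))) (.t 12 
(.lf (.thr (.lm 7 43 6 45 9 8 3) (.pot 0) (.pot 0))) (.lf (.low 2)))) (.z 1178 
(.lf (.thr (.lm 8 40 7 42 11 9 3) (.pot 1) (.pot 1))) (.t 12 
(.lf (.thr (.lm 7 42 6 43 9 8 3) (.pot 0) (.pot 0))) (.lf (.low 2))))))))) (.y 1491 (.z 1175 
(.lf (.thr (.lm 7 34 6 36 11 9 6) (.pot 1) (.pot 0))) 
(.lf (.thr (.lm 7 37 6 38 11 9 7) (.lf 6 125 1 130) (.pot 0)))) (.z 1175 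
(.lf (.thr (.lm 7 34 6 36 11 9 6) (.pot 1) (.pot 0))) 
(.lf (.thr (.lm 7 37 6 38 11 9 7) (.pot 1) (.pot 1)))))) (.lf (.low 2))) (.t 16 (.a 1093 
(.y 1491 (.lf (.thr (.lm 7 43 5 45 11 8 9) (.lf 5 125 1 130) (.pot 0))) (.z 1186 (.t 8 
(.lf (.thr (.lm 5 44 4 44 8 6 6) (.pot 0) (.pot 0))) (.y 1494 
(.lf (.thr (.lm 8 43 6 45 11 8 6) (.lf 6 124 0 131) (.pot 0))) (.a 1090 
(.lf (.thr (.lm 8 45 6 46 11 8 4) (.lf 6 124 0 131) (.lf 0 131 8 122))) 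
(.lf (.thr (.lm 8 43 6 45 11 8 4) (.lf 6 124 0 131) (.pot 1)))))) 
(.lf (.thr (.lm 7 46 5 47 11 8 6) (.lf 5 125 1 130) (.pot 0))))) (.y 1491 
(.lf (.thr (.lm 7 40 5 41 11 8 9) (.lf 5 125 1 130) (.pot 0))) (.z 1186 
(.lf (.thr (.lm 7 40 5 41 11 8 6) (.lf 5 125 1 130) (.pot 1))) 
(.lf (.thr (.lm 7 42 5 44 11 8 7) (.lf 5 125 1 130) (.pot 0)))))) (.lf (.low 2))))) (.y 1485 
(.z 1181 (.t 16 (.lf (.thr (.lm 7 28 6 29 11 9 12) (.lf 6 125 1 130) (.pot 0))) (.lf (.low 2))) 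
(.lf (.thr (.lm 10 32 7 36 17 12 12) (.lf 7 123 0 131) (.pot 0)))) (.z 1181 (.t 16 
(.lf (.thr (.lm 7 28 6 29 11 9 12) (.pot 1) (.pot 1))) (.lf (.low 2))) (.t 16 
(.lf (.thr (.lm 7 33 5 35 11 8 12) (.lf 5 125 1 130) (.pot 0))) (.lf (.low 2)))))) (.a 1100 
(.y 1485 (.lf (.thr (.lm 10 44 6 48 17 11 18) (.lf 6 124 0 131) (.pot 0))) (.z 1203 (.t 16 
(.lf (.thr (.lm 7 45 5 47 11 8 12) (.lf 5 125 1 130) (.pot 0))) (.lf (.low 2))) 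
(.lf (.thr (.lm 10 50 6 53 17 10 13) (.lf 6 124 0 131) (.pot 0))))) 
(.lf (.thr (.lm 10 38 6 41 17 11 18) (.lf 6 124 0 131) (.pot 1))))) (.z 1192 (.a 1100 (.y 1511 
(.z 1181 (.t 16 (.a 1093 (.lf .inf) (.y 1504 (.z 1175 (.lf .inf) 
(.lf (.thr (.lm 7 37 6 38 11 9 7) (.pot 1) (.pot 1)))) (.lf .inf))) (.lf (.low 2))) (.t 16 
(.a 1093 (.y 1504 (.z 1186 (.t 8 (.lf (.thr (.lm 5 44 4 44 8 6 6) (.pot 0) (.pot 0))) (.a 1090 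
(.y 1501 (.lf (.thr (.lm 8 45 6 46 11 8 4) (.lf 6 124 0 131) (.lf 0 131 8 122))) (.lf .inf)) 
(.y 1501 (.z 1183 (.t 12 (.lf (.thr (.lm 7 43 6 45 9 7 3) (.pot 0) (.pot 0))) (.lf (.low 2))) 
(.lf (.thr (.lm 8 44 6 46 11 8 3) (.lf 6 124 0 131) (.lf 0 131 8 122)))) (.lf .inf)))) 
(.lf (.thr (.lm 7 46 5 47 11 8 6) (.lf 5 125 1 130) (.lf 1 130 7 124)))) (.lf .inf)) (.y 1504 
(.z 1186 (.t 8 (.lf (.thr (.lm 5 40 4 41 8 6 6) (.pot 0) (.pot 0))) (.a 1096 (.y 1501 (.z 1183 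
(.lf (.thr (.lm 8 42 6 43 11 8 3) (.pot 1) (.pot 1))) (.t 12 
(.lf (.thr (.lm 7 43 6 44 9 7 3) (.pot 0) (.pot 0))) (.lf (.low 2)))) (.z 1183 (.lf .inf) 
(.t 12 (.lf (.thr (.lm 7 43 6 44 9 7 3) (.pot 0) (.pot 0))) (.a 1094 (.lf .inf) (.z 1184 
(.lf .inf) (.lf (.thr (.lm 9 43 7 45 11 8 2) (.pot 1) (.pot 1)))))))) 
(.lf (.thr (.lm 8 40 6 41 11 8 5) (.pot 1) (.pot 1))))) (.t 8 
(.lf (.thr (.lm 5 43 4 43 8 6 7) (.pot 0) (.pot 0))) (.a 1096 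
(.lf (.thr (.lm 8 44 6 46 11 8 5) (.lf 6 124 0 131) (.lf 0 131 8 122))) 
(.lf (.thr (.lm 8 42 6 44 11 8 5) (.lf 6 124 0 131) (.pot 1)))))) (.z 1186 (.lf .inf) (.t 8 
(.lf (.thr (.lm 5 43 4 43 8 6 7) (.pot 0) (.pot 0))) (.a 1096 (.y 1507 (.z 1189 (.lf .inf) 
(.lf (.thr (.lm 8 45 6 48 11 8 3) (.lf 6 124 0 131) (.lf 0 131 8 122)))) (.lf .inf)) (.y 1507 
(.z 1189 (.t 12 (.lf (.thr (.lm 7 42 6 44 9 7 4) (.pot 0) (.pot 0))) (.a 1098 (.lf .inf) 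
(.lf (.thr (.lm 9 42 7 44 11 8 3) (.pot 1) (.pot 1))))) (.t 12 
(.lf (.thr (.lm 7 44 6 45 9 7 4) (.pot 0) (.pot 0))) 
(.lf (.thr (.lm 9 43 7 46 11 8 4) (.lf 7 124 0 131) (.lf 0 131 9 122))))) (.lf .inf))))))) 
(.lf (.low 2)))) (.lf .inf)) (.y 1511 (.z 1181 (.t 16 
(.lf (.thr (.lm 7 28 6 29 11 9 12) (.pot 1) (.pot 1))) (.lf (.low 2))) (.t 16 (.a 1106 
(.y 1504 (.z 1186 (.lf (.thr (.lm 7 37 5 38 11 8 6) (.pot 1) (.pot 0))) 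
(.lf (.thr (.lm 7 39 5 41 11 8 6) (.lf 5 125 1 130) (.pot 1)))) (.z 1186 
(.lf (.thr (.lm 7 37 5 38 11 8 6) (.pot 1) (.pot 0))) (.t 8 
(.lf (.thr (.lm 5 40 4 40 8 6 6) (.pot 0) (.pot 0))) (.y 1507 (.a 1103 
(.lf (.thr (.lm 8 40 6 43 11 8 5) (.pot 1) (.pot 1))) 
(.lf (.thr (.lm 8 39 6 41 11 8 5) (.pot 1) (.pot 0)))) (.a 1103 
(.lf (.thr (.lm 8 40 6 43 11 8 5) (.pot 1) (.pot 1))) 
(.lf (.thr (.lm 8 39 6 41 11 8 5) (.pot 1) (.pot 0)))))))) 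
(.lf (.thr (.lm 7 33 5 35 11 8 9) (.pot 0) (.pot 1)))) (.lf (.low 2)))) (.z 1181 (.lf .inf) 
(.t 16 (.a 1106 (.lf .inf) (.lf (.thr (.lm 7 33 5 35 11 8 9) (.pot 1) (.pot 0)))) 
(.lf (.low 2)))))) (.a 1100 (.y 1511 (.z 1203 (.t 16 (.a 1093 
(.lf (.thr (.lm 7 49 5 50 11 8 9) (.lf 5 125 1 130) (.lf 1 130 7 124))) 
(.lf (.thr (.lm 7 45 5 47 11 8 9) (.lf 5 125 1 130) (.lf 1 130 7 124)))) (.lf (.low 2))) 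
(.lf (.thr (.lm 10 50 6 53 17 10 13) (.lf 6 124 0 131) (.lf 0 131 10 121)))) (.z 1203 (.t 16 
(.a 1093 (.lf .inf) (.y 1517 (.z 1197 (.lf .inf) 
(.lf (.thr (.lm 7 48 5 49 11 8 7) (.lf 5 125 1 129) (.lf 1 129 7 124)))) (.lf .inf))) 
(.lf (.low 2))) (.t 16 (.lf (.thr (.lm 7 51 5 52 11 7 13) (.lf 5 126 1 129) (.lf 1 129 7 124))) 
(.lf (.low 2))))) (.y 1511 (.z 1203 (.t 16 (.a 1106 (.y 1504 
(.lf (.thr (.lm 7 42 5 44 11 8 9) (.lf 5 125 1 130) (.pot 0))) (.z 1197 (.t 8 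
(.lf (.thr (.lm 5 43 4 43 8 6 6) (.pot 0) (.pot 0))) (.y 1507 
(.lf (.thr (.lm 8 42 6 44 11 8 6) (.lf 6 125 0 131) (.pot 0))) (.a 1103 (.z 1194 (.t 12 
(.lf (.thr (.lm 7 44 6 45 9 7 3) (.pot 0) (.pot 0))) 
(.lf (.thr (.lm 9 43 6 46 11 8 3) (.lf 6 124 0 131) (.lf 0 131 9 122)))) 
(.lf (.thr (.lm 8 44 6 47 11 8 3) (.lf 6 125 0 131) (.pot 0)))) 
(.lf (.thr (.lm 8 42 6 44 11 8 4) (.lf 6 125 0 131) (.pot 1)))))) 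
(.lf (.thr (.lm 7 45 5 46 11 8 6) (.lf 5 125 1 129) (.pot 0))))) 
(.lf (.thr (.lm 7 39 5 40 11 8 9) (.lf 5 125 1 130) (.pot 1)))) (.lf (.low 2))) (.t 16 
(.lf (.thr (.lm 7 44 5 46 11 7 13) (.lf 5 126 1 130) (.pot 0))) (.lf (.low 2)))) (.z 1203 
(.t 16 (.a 1106 (.y 1517 (.z 1197 (.t 8 (.lf (.thr (.lm 5 43 4 43 8 6 6) (.pot 0) (.pot 0))) 
(.a 1103 (.lf .inf) (.y 1514 (.z 1194 (.lf .inf) (.t 12 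
(.lf (.thr (.lm 7 43 6 45 9 7 3) (.pot 0) (.pot 0))) (.a 1104 (.lf .inf) 
(.lf (.thr (.lm 9 43 6 45 11 8 3) (.pot 1) (.pot 1)))))) (.lf .inf)))) (.t 8 
(.lf (.thr (.lm 5 45 4 46 8 6 6) (.pot 0) (.pot 0))) 
(.lf (.thr (.lm 8 44 6 47 11 8 6) (.lf 6 125 0 131) (.lf 0 131 8 122))))) (.lf .inf)) (.y 1517 
(.z 1197 (.lf (.thr (.lm 7 39 5 40 11 8 6) (.pot 1) (.pot 1))) (.t 8 
(.lf (.thr (.lm 5 42 4 42 8 6 7) (.pot 0) (.pot 0))) (.a 1109 (.z 1200 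
(.lf (.thr (.lm 8 43 6 45 11 8 3) (.pot 1) (.pot 1))) 
(.lf (.thr (.lm 8 44 6 47 11 8 3) (.lf 6 125 0 131) (.pot 0)))) 
(.lf (.thr (.lm 8 41 6 43 11 8 5) (.pot 1) (.pot 1)))))) (.z 1197 (.lf .inf) (.t 8 
(.lf (.thr (.lm 5 42 4 42 8 6 7) (.pot 0) (.pot 0))) (.a 1109 (.lf .inf) 
(.lf (.thr (.lm 8 41 6 43 11 8 5) (.pot 1) (.pot 1)))))))) (.lf (.low 2))) (.t 16 (.a 1106 
(.lf (.thr (.lm 7 48 5 49 11 7 9) (.lf 5 126 1 129) (.lf 1 129 7 124))) (.y 1517 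
(.lf (.thr (.lm 7 44 5 46 11 7 10) (.lf 5 126 1 129) (.pot 0))) (.z 1209 (.t 8 
(.lf (.thr (.lm 5 45 4 45 8 6 7) (.pot 0) (.pot 0))) 
(.lf (.thr (.lm 8 44 6 46 11 7 7) (.lf 6 125 0 130) (.lf 0 130 8 123)))) 
(.lf (.thr (.lm 7 47 5 49 11 7 7) (.lf 5 126 1 129) (.lf 1 129 7 124)))))) (.lf (.low 2)))))))))) 
(.a 1062 (.lf .inf) (.a 1087 (.lf .inf) (.y 1549 (.z 1192 (.lf .inf) (.a 1100 (.lf .inf) 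
(.y 1536 (.z 1203 (.lf .inf) (.t 16 (.a 1106 (.lf .inf) (.z 1209 (.lf .inf) 
(.lf (.thr (.lm 7 47 5 49 11 7 7) (.lf 5 126 1 129) (.lf 1 129 7 124))))) (.lf (.low 2)))) 
(.lf .inf)))) (.lf .inf))))))

theorem h27 : chk (leafT PP TD0 0 2) c27 0 32 1012 1113 1170 1215 1372 1575 = true := by
  decide +kernel

def c28 : Tree :=
  (.y 1473 (.a 1164 (.y 1422 (.lf .inf) (.a 1138 
(.lf (.thr (.lm 9 13 7 19 17 13 35) (.lf 7 100 0 107) (.pot 1))) (.lf .inf))) (.lf .inf)) 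
(.a 1164 (.y 1524 (.a 1138 (.y 1498 (.z 1192 (.a 1125 (.y 1485 
(.lf (.thr (.lm 9 21 7 24 17 13 17) (.lf 7 123 0 131) (.pot 1))) (.z 1181 (.t 16 
(.lf (.thr (.lm 6 22 6 23 11 9 12) (.pot 0) (.pot 0))) (.lf (.low 2))) (.t 16 
(.lf (.thr (.lm 6 27 5 29 11 8 12) (.lf 5 125 1 130) (.pot 0))) (.lf (.low 2))))) (.y 1485 
(.lf (.thr (.lm 9 14 7 18 16 13 18) (.lf 7 123 0 131) (.pot 0))) (.z 1181 (.t 16 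
(.lf (.thr (.lm 6 15 6 17 10 9 12) (.pot 0) (.pot 0))) (.lf (.low 2))) 
(.lf (.thr (.lm 9 20 7 23 16 12 12) (.lf 7 123 0 131) (.pot 0)))))) 
(.lf (.thr (.lm 9 25 6 29 17 11 24) (.lf 6 124 0 131) (.pot 0)))) (.z 1192 (.y 1511 (.a 1125 
(.z 1181 (.t 16 (.lf (.thr (.lm 6 22 6 23 11 9 12) (.pot 0) (.pot 0))) (.lf (.low 2))) (.t 16 
(.lf (.thr (.lm 6 27 5 29 11 8 12) (.pot 0) (.pot 1))) (.lf (.low 2)))) (.z 1181 (.t 16 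
(.lf (.thr (.lm 6 15 6 17 10 9 12) (.pot 0) (.pot 0))) (.lf (.low 2))) (.t 16 
(.lf (.thr (.lm 6 21 5 22 10 8 12) (.pot 0) (.pot 0))) (.lf (.low 2))))) (.a 1125 (.z 1181 
(.t 16 (.lf (.thr (.lm 6 22 6 23 11 9 12) (.pot 0) (.pot 0))) (.lf (.low 2))) (.t 16 
(.lf (.thr (.lm 6 27 5 29 11 8 12) (.pot 1) (.pot 0))) (.lf (.low 2)))) (.z 1181 (.t 16 
(.lf (.thr (.lm 6 15 6 17 10 9 12) (.pot 0) (.pot 0))) (.lf (.low 2))) (.t 16 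
(.lf (.thr (.lm 6 21 5 22 10 8 12) (.pot 0) (.pot 0))) (.lf (.low 2)))))) (.y 1511 (.a 1125 
(.z 1203 (.t 16 (.lf (.thr (.lm 6 33 5 34 11 8 12) (.lf 5 125 1 130) (.pot 0))) (.lf (.low 2))) 
(.lf (.thr (.lm 9 37 6 41 17 10 12) (.lf 6 124 0 131) (.pot 0)))) (.z 1203 
(.lf (.thr (.lm 9 25 7 29 16 11 12) (.lf 7 124 0 131) (.pot 1))) 
(.lf (.thr (.lm 9 31 6 34 16 10 13) (.lf 6 124 0 131) (.pot 0))))) (.a 1125 (.z 1203 (.t 16 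
(.y 1517 (.a 1119 (.lf (.thr (.lm 6 36 5 37 11 8 9) (.pot 1) (.pot 1))) 
(.lf (.thr (.lm 6 33 5 34 10 8 9) (.pot 0) (.pot 0)))) (.a 1119 
(.lf (.thr (.lm 6 36 5 37 11 8 9) (.pot 1) (.pot 1))) 
(.lf (.thr (.lm 6 33 5 34 10 8 9) (.pot 0) (.pot 0))))) (.lf (.low 2))) (.t 16 (.y 1517 
(.lf (.thr (.lm 6 38 5 40 11 7 12) (.lf 5 126 1 129) (.pot 0))) (.a 1119 (.z 1209 (.t 8 
(.lf (.thr (.lm 5 42 4 42 8 6 6) (.pot 0) (.pot 0))) (.y 1520 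
(.lf (.thr (.lm 8 41 6 43 11 7 6) (.lf 6 125 0 131) (.pot 0))) (.a 1116 
(.lf (.thr (.lm 8 42 6 45 11 7 5) (.pot 1) (.pot 1))) 
(.lf (.thr (.lm 8 41 6 43 10 7 5) (.pot 0) (.pot 0)))))) 
(.lf (.thr (.lm 6 44 5 46 11 7 6) (.lf 5 126 1 129) (.pot 0)))) 
(.lf (.thr (.lm 6 38 5 40 10 7 9) (.lf 5 126 1 129) (.pot 1))))) (.lf (.low 2)))) (.z 1203 
(.t 16 (.lf (.thr (.lm 6 26 5 28 10 8 12) (.pot 0) (.pot 0))) (.lf (.low 2))) (.t 16 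
(.lf (.thr (.lm 6 32 5 33 10 7 13) (.pot 0) (.pot 1))) (.lf (.low 2)))))))) (.y 1498 (.z 1192 
(.a 1151 (.y 1485 (.lf .inf) (.z 1181 (.lf (.thr (.lm 9 7 8 12 15 13 12) (.pot 1) (.pot 1))) 
(.lf (.thr (.lm 9 13 7 17 15 12 12) (.lf 7 123 0 131) (.pot 0))))) (.lf .inf)) 
(.lf (.thr (.lm 9 11 6 17 16 11 25) (.lf 6 124 0 131) (.pot 0)))) (.z 1192 (.a 1151 (.y 1511 
(.z 1181 (.lf (.thr (.lm 9 7 8 12 15 13 12) (.pot 1) (.pot 1))) (.t 16 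
(.lf (.thr (.lm 6 14 5 16 10 8 12) (.pot 0) (.pot 0))) (.lf (.low 2)))) (.z 1181 
(.lf (.thr (.lm 9 7 8 12 15 13 12) (.pot 1) (.pot 1))) (.t 16 
(.lf (.thr (.lm 6 14 5 16 10 8 12) (.pot 0) (.pot 0))) (.lf (.low 2))))) (.y 1511 (.z 1181 
(.lf (.thr (.lm 8 0 8 6 15 13 12) (.pot 1) (.pot 1))) 
(.lf (.thr (.lm 8 6 7 11 15 12 12) (.pot 0) (.pot 1)))) (.z 1181 
(.lf (.thr (.lm 8 0 8 6 15 13 12) (.pot 1) (.pot 1))) 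
(.lf (.thr (.lm 8 6 7 11 15 12 12) (.pot 1) (.pot 1)))))) (.a 1151 (.y 1511 
(.lf (.thr (.lm 9 18 6 23 15 11 18) (.lf 6 124 0 131) (.pot 1))) (.z 1203 (.t 16 
(.lf (.thr (.lm 6 20 5 21 10 8 12) (.pot 0) (.pot 0))) (.lf (.low 2))) 
(.lf (.thr (.lm 9 24 6 28 15 10 13) (.lf 6 124 0 131) (.pot 1))))) (.y 1511 
(.lf (.thr (.lm 8 11 6 17 15 11 18) (.lf 6 124 0 131) (.pot 1))) (.z 1203 
(.lf (.thr (.lm 8 12 7 16 15 11 12) (.pot 1) (.pot 1))) 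
(.lf (.thr (.lm 8 17 6 22 15 10 13) (.lf 6 124 0 131) (.pot 0))))))))) (.a 1138 (.y 1549 
(.z 1192 (.a 1125 (.lf .inf) (.y 1536 (.z 1181 (.lf .inf) (.t 16 
(.lf (.thr (.lm 6 21 5 22 10 8 12) (.pot 0) (.pot 0))) (.lf (.low 2)))) (.lf .inf))) (.a 1125 
(.y 1536 (.z 1203 (.t 16 (.a 1119 (.lf .inf) 
(.lf (.thr (.lm 6 33 5 34 10 8 9) (.pot 0) (.pot 0)))) (.lf (.low 2))) (.t 16 (.a 1119 
(.z 1209 (.y 1530 (.t 8 (.lf (.thr (.lm 5 42 4 42 8 6 6) (.pot 0) (.pot 0))) (.a 1116 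
(.lf .inf) (.lf (.thr (.lm 8 41 6 43 10 7 5) (.pot 0) (.pot 0))))) (.lf .inf)) (.y 1530 (.t 8 
(.lf (.thr (.lm 5 45 4 45 8 6 6) (.pot 0) (.pot 0))) 
(.lf (.thr (.lm 8 44 5 46 11 7 6) (.lf 5 125 0 130) (.lf 0 130 8 123)))) (.lf .inf))) (.z 1209 
(.lf (.thr (.lm 6 38 5 40 10 7 6) (.pot 0) (.pot 0))) 
(.lf (.thr (.lm 6 41 5 43 10 7 6) (.pot 1) (.pot 1))))) (.lf (.low 2)))) (.lf .inf)) (.y 1536 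
(.z 1203 (.t 16 (.lf (.thr (.lm 6 26 5 28 10 8 12) (.pot 0) (.pot 0))) (.lf (.low 2))) (.t 16 
(.lf (.thr (.lm 6 32 5 33 10 7 13) (.pot 1) (.pot 1))) (.lf (.low 2)))) (.z 1203 (.lf .inf) 
(.t 16 (.lf (.thr (.lm 6 32 5 33 10 7 13) (.pot 1) (.pot 0))) (.a 1131 (.lf .inf) (.y 1542 
(.z 1209 (.lf .inf) (.t 24 (.lf (.low 2)) (.lf (.low 2)))) (.lf .inf)))))))) (.lf .inf)) 
(.y 1549 (.z 1192 (.a 1151 (.y 1536 (.z 1181 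
(.lf (.thr (.lm 9 7 8 12 15 13 12) (.pot 1) (.pot 1))) (.t 16 
(.lf (.thr (.lm 6 14 5 16 10 8 12) (.pot 0) (.pot 0))) (.lf (.low 2)))) (.lf .inf)) (.y 1536 
(.z 1181 (.lf (.thr (.lm 8 0 8 6 15 13 12) (.pot 1) (.pot 1))) 
(.lf (.thr (.lm 8 6 7 11 15 12 12) (.pot 1) (.pot 1)))) (.z 1181 (.lf .inf) 
(.lf (.thr (.lm 8 6 7 11 15 12 12) (.pot 1) (.pot 1)))))) (.a 1151 (.y 1536 (.z 1203 (.t 16 
(.lf (.thr (.lm 6 20 5 21 10 8 12) (.pot 0) (.pot 0))) (.lf (.low 2))) (.t 16 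
(.lf (.thr (.lm 6 25 5 27 10 7 13) (.pot 0) (.pot 0))) (.lf (.low 2)))) (.z 1203 (.t 16 
(.lf (.thr (.lm 6 20 5 21 10 8 12) (.pot 0) (.pot 0))) (.a 1144 (.lf .inf) 
(.lf (.thr (.lm 11 18 8 23 15 11 9) (.pot 1) (.pot 1))))) (.t 16 
(.lf (.thr (.lm 6 25 5 27 10 7 13) (.pot 0) (.pot 0))) (.a 1144 (.y 1542 (.z 1209 (.t 24 
(.lf (.low 2)) (.lf (.low 2))) (.t 24 (.lf (.low 2)) (.lf (.low 2)))) (.lf .inf)) (.y 1542 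
(.z 1209 (.lf (.thr (.lm 11 23 7 29 15 10 7) (.pot 1) (.pot 1))) 
(.lf (.thr (.lm 11 26 7 32 15 9 7) (.pot 1) (.pot 1)))) (.z 1209 (.lf .inf) 
(.lf (.thr (.lm 11 26 7 32 15 9 7) (.pot 1) (.pot 1))))))))) (.y 1536 (.z 1203 
(.lf (.thr (.lm 8 12 7 16 15 11 12) (.pot 1) (.pot 1))) (.t 16 
(.lf (.thr (.lm 6 19 5 20 10 7 13) (.pot 0) (.pot 0))) (.lf (.low 2)))) (.z 1203 
(.lf (.thr (.lm 8 12 7 16 15 11 12) (.pot 1) (.pot 1))) (.t 16 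
(.lf (.thr (.lm 6 19 5 20 10 7 13) (.pot 0) (.pot 0))) 
(.lf (.thr (.lm 11 16 7 23 15 10 13) (.pot 1) (.pot 1)))))))) (.z 1192 (.lf .inf) (.a 1151 
(.lf .inf) (.y 1562 (.z 1203 (.lf .inf) (.t 16 
(.lf (.thr (.lm 6 19 5 20 10 7 13) (.pot 0) (.pot 0))) 
(.lf (.thr (.lm 11 16 7 23 15 10 13) (.pot 1) (.pot 1))))) (.lf .inf))))))) (.y 1524 (.a 1189 
(.y 1498 (.lf .inf) (.z 1192 (.lf (.thr (.lm 8 0 7 0 14 13 14) (.pot 1) (.pot 1))) (.y 1511 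
(.lf .inf) (.a 1176 (.z 1203 (.lf (.thr (.lm 8 5 7 11 14 11 12) (.pot 0) (.pot 1))) 
(.lf (.thr (.lm 8 11 6 16 14 10 12) (.pot 0) (.pot 1)))) (.lf .inf))))) (.lf .inf)) (.a 1189 
(.y 1549 (.z 1192 (.lf (.thr (.lm 8 0 7 0 14 13 14) (.pot 1) (.pot 1))) (.a 1176 (.y 1536 
(.z 1203 (.lf (.thr (.lm 8 5 7 11 14 11 12) (.pot 0) (.pot 1))) 
(.lf (.thr (.lm 8 11 6 16 14 10 12) (.pot 0) (.pot 1)))) (.z 1203 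
(.lf (.thr (.lm 8 5 7 11 14 11 12) (.pot 1) (.pot 0))) 
(.lf (.thr (.lm 8 11 6 16 14 10 12) (.pot 0) (.pot 1))))) 
(.lf (.thr (.lm 7 0 6 3 13 11 18) (.pot 1) (.pot 1))))) (.z 1192 
(.lf (.thr (.lm 8 0 7 0 14 13 14) (.pot 1) (.pot 1))) (.y 1562 (.a 1176 (.z 1203 
(.lf (.thr (.lm 8 5 7 11 14 11 12) (.pot 1) (.pot 0))) 
(.lf (.thr (.lm 8 11 6 16 14 10 12) (.pot 1) (.pot 0)))) 
(.lf (.thr (.lm 7 0 6 3 13 11 18) (.pot 1) (.pot 1)))) (.a 1176 (.lf .inf) 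
(.lf (.thr (.lm 7 0 6 3 13 11 18) (.pot 1) (.pot 1))))))) 
(.lf (.thr (.lm 6 0 7 0 12 13 13) (.pot 1) (.pot 1)))))))

theorem h28 : chk (leafT PP TD0 0 2) c28 0 32 1113 1215 1170 1215 1372 1575 = true := by
  decide +kernel

def c29 : Tree :=
  (.y 1417 (.a 956 (.y 1316 (.a 905 (.y 1265 
(.lf (.thr (.pot 1) (.lm 5 0 4 0 9 9 25) (.pot 1))) (.y 1290 (.a 880 (.z 1237 
(.lf (.thr (.pot 0) (.lm 5 11 2 17 9 5 24) (.pot 0))) (.lf .inf)) (.z 1237 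
(.lf (.thr (.pot 0) (.lm 5 11 2 17 9 5 24) (.pot 0))) 
(.lf (.thr (.pot 1) (.lm 4 0 2 5 7 5 24) (.pot 0))))) (.a 880 (.lf .inf) (.z 1237 (.y 1303 
(.lf (.thr (.pot 0) (.lm 5 24 1 29 9 5 18) (.pot 0))) 
(.lf (.thr (.pot 0) (.lm 5 31 1 35 9 5 18) (.pot 0)))) 
(.lf (.thr (.pot 0) (.lm 4 12 1 18 7 5 25) (.pot 0))))))) (.y 1265 (.a 930 
(.lf (.thr (.pot 1) (.lm 5 0 4 0 9 9 25) (.pot 1))) (.lf .inf)) (.a 930 (.y 1290 (.z 1237 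
(.lf (.thr (.pot 0) (.lm 5 11 2 17 9 5 24) (.pot 0))) 
(.lf (.thr (.pot 0) (.lm 4 0 2 5 7 5 24) (.pot 1)))) (.z 1237 (.y 1303 
(.lf (.thr (.pot 0) (.lm 5 24 1 29 9 5 18) (.pot 0))) 
(.lf (.thr (.pot 0) (.lm 5 31 1 35 9 5 18) (.pot 0)))) 
(.lf (.thr (.pot 0) (.lm 4 12 1 18 7 5 25) (.pot 0))))) (.y 1290 (.z 1237 
(.lf (.thr (.lf 6 125 5 125) (.lm 5 11 2 17 9 5 24) (.pot 0))) 
(.lf (.thr (.pot 0) (.lm 4 0 2 5 7 5 24) (.pot 1)))) (.z 1237 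
(.lf (.thr (.lf 6 125 5 125) (.lm 5 24 1 29 9 5 24) (.pot 0))) 
(.lf (.thr (.pot 0) (.lm 4 12 1 18 7 5 25) (.pot 0)))))))) (.a 905 (.lf .inf) (.y 1366 (.a 930 
(.y 1341 (.z 1237 (.a 917 
(.lf (.thr (.lf 4 127 5 125) (.lm 5 37 0 42 9 5 24) (.lf 0 130 4 127))) 
(.lf (.thr (.lf 5 126 5 125) (.lm 5 37 0 42 9 5 24) (.lf 0 130 5 126)))) (.a 917 
(.lf (.thr (.pot 1) (.lm 4 26 0 30 7 5 24) (.lf 0 130 4 127))) (.y 1328 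
(.lf (.thr (.pot 0) (.lm 4 26 0 30 7 5 18) (.pot 0))) 
(.lf (.thr (.pot 0) (.lm 4 32 0 36 7 5 18) (.pot 0)))))) 
(.lf (.thr (.lf 4 126 5 126) (.lm 5 38 0 43 9 5 35) (.lf 0 131 4 126)))) (.y 1341 (.z 1237 
(.lf (.thr (.lf 6 125 5 125) (.lm 5 37 0 42 9 5 24) (.pot 0))) (.a 943 (.y 1328 
(.lf (.thr (.pot 0) (.lm 4 26 0 30 7 5 18) (.pot 0))) 
(.lf (.thr (.pot 0) (.lm 4 32 0 36 7 5 18) (.pot 0)))) 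
(.lf (.thr (.lf 6 125 4 127) (.lm 4 26 0 30 7 5 24) (.pot 0))))) 
(.lf (.thr (.lf 6 125 5 126) (.lm 5 38 0 43 9 5 35) (.lf 0 131 6 125))))) 
(.lf (.thr (.lf 5 126 5 126) (.lm 5 51 0 55 9 5 48) (.lf 0 106 5 102)))))) (.y 1316 (.a 1006 
(.y 1265 (.lf .inf) (.y 1290 (.lf .inf) 
(.lf (.thr (.lf 7 103 5 106) (.lm 5 11 1 19 9 5 36) (.pot 0))))) (.lf .inf)) (.a 1006 (.y 1366 
(.a 981 (.y 1341 (.lf (.thr (.lf 7 116 5 118) (.lm 5 25 0 31 9 5 35) (.pot 0))) 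
(.lf (.thr (.lf 7 116 5 118) (.lm 5 38 0 43 9 5 35) (.pot 0)))) 
(.lf (.thr (.lf 8 103 5 106) (.lm 5 25 0 31 9 5 48) (.pot 0)))) 
(.lf (.thr (.lf 7 103 5 106) (.lm 5 51 0 55 9 5 48) (.lf 0 131 7 123)))) (.y 1366 
(.lf (.thr (.lf 9 77 5 81) (.lm 5 25 0 31 9 5 48) (.pot 0))) 
(.lf (.thr (.lf 9 77 5 81) (.lm 5 51 0 55 9 5 48) (.pot 0))))))) (.y 1518 (.a 956 (.a 905 
(.lf .inf) (.lf (.thr (.lf 5 126 5 126) (.lf 5 77 0 80) (.lf 0 56 5 51)))) (.a 1006 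
(.lf (.thr (.lf 7 103 5 106) (.lf 5 77 0 80) (.lf 0 82 7 76))) 
(.lf (.thr (.lf 9 77 5 81) (.lf 5 77 0 80) (.lf 0 108 9 100))))) (.a 956 (.lf .inf) (.y 1569 
(.a 1006 (.lf .inf) (.a 1031 (.lf .inf) (.y 1543 
(.lf (.thr (.lm 9 77 5 81 17 9 36) (.lf 5 126 0 131) (.lf 0 108 9 100))) (.lf .inf)))) 
(.lf .inf)))))

theorem h29 : chk (leafT PP TD0 0 2) c29 0 32 855 1057 1215 1260 1215 1620 = true := by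
  decide +kernel

def c30 : Tree :=
  (.y 1417 (.a 1158 (.y 1316 (.lf .inf) (.a 1107 (.y 1366 (.lf .inf) 
(.lf (.thr (.lm 10 52 5 56 17 9 48) (.lm 5 51 0 55 9 5 48) (.pot 0)))) (.lf .inf))) (.lf .inf)) 
(.a 1158 (.y 1518 (.a 1107 (.y 1467 
(.lf (.thr (.lm 10 52 5 56 17 9 48) (.lf 5 77 0 80) (.pot 0))) 
(.lf (.thr (.lm 10 52 5 56 17 9 48) (.lf 5 101 0 106) (.lf 0 131 10 121)))) (.y 1467 
(.lf (.thr (.lm 9 25 5 32 17 9 48) (.lf 5 77 0 80) (.pot 0))) (.a 1132 (.y 1492 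
(.lf (.thr (.lm 9 39 5 44 17 9 35) (.lf 5 101 0 106) (.pot 0))) (.z 1237 (.y 1505 
(.lf (.thr (.lm 9 39 5 44 17 9 24) (.lf 5 125 0 130) (.pot 0))) (.a 1119 
(.lf (.thr (.lm 9 46 5 50 17 9 17) (.lf 5 125 0 131) (.pot 0))) 
(.lf (.thr (.lm 9 39 5 44 16 9 18) (.lf 5 125 0 131) (.pot 0))))) 
(.lf (.thr (.lm 9 50 4 55 17 7 24) (.lf 4 114 0 118) (.pot 0))))) 
(.lf (.thr (.lm 9 26 5 31 16 9 36) (.lf 5 101 0 106) (.pot 0)))))) (.y 1569 (.a 1107 (.y 1543 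
(.a 1082 (.lf (.thr (.lm 10 64 5 69 17 9 35) (.lf 5 126 0 131) (.lf 0 122 10 112))) (.z 1237 
(.a 1094 (.y 1530 (.lf (.thr (.lm 10 58 5 63 17 9 17) (.lf 5 125 0 131) (.lf 0 131 10 121))) 
(.lf .inf)) (.y 1530 (.lf (.thr (.lm 10 52 5 56 17 9 18) (.lf 5 125 0 131) (.lf 0 131 10 121))) 
(.z 1226 (.lf .inf) (.lf (.thr (.lm 10 57 5 62 17 8 12) (.lf 5 126 0 131) (.lf 0 131 10 121)))))) 
(.lf (.thr (.lm 10 63 4 67 17 7 24) (.lf 4 127 0 131) (.lf 0 131 10 121))))) (.a 1082 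
(.lf .inf) (.z 1237 (.lf .inf) 
(.lf (.thr (.lm 10 63 4 67 17 7 24) (.lf 4 127 0 130) (.lf 0 121 10 112)))))) (.a 1132 
(.y 1543 (.z 1237 (.a 1119 (.y 1530 (.z 1226 (.t 16 
(.lf (.thr (.lm 7 47 5 49 11 7 12) (.lf 5 126 1 129) (.lf 1 129 7 124))) (.lf (.low 2))) 
(.lf (.thr (.lm 9 51 5 56 17 8 12) (.lf 5 126 0 131) (.lf 0 131 9 121)))) (.z 1226 (.t 16 
(.lf (.thr (.lm 7 47 5 49 11 7 12) (.lf 5 126 1 129) (.lf 1 129 7 124))) (.y 1536 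
(.lf (.low 2)) (.lf .inf))) 
(.lf (.thr (.lm 9 51 5 56 17 8 12) (.lf 5 126 0 131) (.lf 0 131 9 121))))) (.y 1530 (.z 1226 
(.t 16 (.lf (.thr (.lm 6 41 5 42 10 7 12) (.lf 5 126 1 129) (.pot 0))) (.lf (.low 2))) 
(.lf (.thr (.lm 9 45 5 49 16 8 12) (.lf 5 126 0 131) (.pot 0)))) (.z 1226 (.t 16 (.a 1125 
(.y 1536 (.lf (.thr (.lm 6 44 5 46 10 7 9) (.lf 5 126 1 129) (.lf 1 129 6 124))) (.lf .inf)) 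
(.y 1536 (.z 1220 (.lf (.thr (.lm 6 41 5 42 10 7 6) (.pot 1) (.pot 0))) 
(.lf (.thr (.lm 6 43 4 45 10 7 7) (.lf 4 126 1 129) (.pot 0)))) (.z 1220 
(.lf (.thr (.lm 6 41 5 42 10 7 6) (.pot 1) (.pot 0))) (.t 8 
(.lf (.thr (.lm 5 44 4 44 7 6 7) (.pot 0) (.pot 0))) 
(.lf (.thr (.lm 8 43 5 45 10 6 7) (.lf 5 126 0 130) (.lf 0 130 8 123))))))) (.a 1125 (.y 1536 
(.lf (.low 2)) (.lf .inf)) (.y 1536 (.lf (.low 2)) (.z 1220 (.t 24 (.a 1128 (.lf .inf) 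
(.y 1539 (.lf (.low 2)) (.lf .inf))) (.lf (.low 2))) (.t 24 (.a 1128 
(.lf (.thr (.lm 11 44 6 48 13 7 5) (.lf 6 125 0 131) (.lf 0 131 11 120))) (.y 1539 
(.lf (.low 2)) (.z 1223 (.lf .inf) 
(.lf (.thr (.lm 11 43 6 48 13 7 4) (.lf 6 125 0 131) (.lf 0 131 11 120)))))) (.lf (.low 2))))))) 
(.lf (.thr (.lm 9 45 5 49 16 8 12) (.lf 5 126 0 131) (.lf 0 131 9 121)))))) 
(.lf (.thr (.lm 9 50 4 55 17 7 24) (.lf 4 127 0 131) (.lf 0 131 9 121)))) (.z 1237 (.y 1556 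
(.a 1119 (.lf .inf) (.z 1226 (.lf .inf) (.t 16 
(.lf (.thr (.lm 6 46 4 48 10 6 12) (.lf 4 126 2 129) (.lf 2 129 6 124))) (.a 1125 (.lf .inf) 
(.y 1549 (.lf (.thr (.lm 12 44 5 50 16 8 9) (.lf 5 125 0 131) (.lf 0 131 12 119))) (.lf .inf)))))) 
(.lf .inf)) (.y 1556 (.lf (.thr (.lm 9 50 4 55 17 7 24) (.lf 4 127 0 131) (.lf 0 131 9 121))) 
(.a 1119 (.lf .inf) (.z 1248 (.lf .inf) 
(.lf (.thr (.lm 9 56 4 60 16 5 13) (.lf 4 127 0 130) (.lf 0 130 9 121)))))))) (.y 1543 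
(.z 1237 (.a 1145 (.y 1530 (.lf (.thr (.lm 9 33 5 37 16 9 18) (.lf 5 125 0 131) (.pot 0))) 
(.z 1226 (.t 16 (.lf (.thr (.lm 6 34 5 36 10 7 12) (.pot 1) (.pot 1))) (.a 1138 (.y 1536 
(.lf (.low 2)) (.z 1220 (.t 24 (.y 1539 (.lf (.low 2)) (.a 1135 (.lf .inf) 
(.lf (.thr (.lm 10 36 6 41 13 8 4) (.pot 1) (.pot 0))))) (.lf (.low 2))) (.t 24 (.y 1539 
(.lf (.low 2)) (.a 1135 (.z 1223 (.t 20 (.lf (.thr (.lm 10 40 6 45 11 7 3) (.pot 0) (.pot 0))) 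
(.lf (.low 2))) (.lf (.thr (.lm 10 42 6 46 13 7 3) (.lf 6 125 0 131) (.pot 0)))) (.z 1223 
(.lf (.thr (.lm 10 39 6 43 13 7 3) (.pot 1) (.pot 1))) 
(.lf (.thr (.lm 10 40 6 45 13 7 3) (.lf 6 125 0 131) (.pot 0)))))) (.lf (.low 2))))) (.y 1536 
(.lf (.low 2)) (.z 1220 (.t 24 (.lf (.thr (.lm 10 33 6 37 13 8 6) (.pot 1) (.pot 0))) 
(.lf (.low 2))) (.t 24 (.lf (.thr (.lm 10 35 6 40 13 7 7) (.pot 1) (.pot 1))) (.lf (.low 2))))))) 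
(.t 16 (.lf (.thr (.lm 6 40 4 41 10 6 12) (.lf 4 126 1 129) (.pot 0))) 
(.lf (.thr (.lm 12 37 5 44 16 8 12) (.lf 5 125 0 131) (.pot 0)))))) (.y 1530 
(.lf (.thr (.lm 9 26 5 31 15 9 18) (.lf 5 125 0 131) (.pot 0))) (.z 1226 (.t 16 
(.lf (.thr (.lm 6 28 5 29 10 7 12) (.pot 0) (.pot 0))) (.a 1151 (.y 1536 (.lf (.low 2)) 
(.z 1220 (.lf (.thr (.lm 11 29 7 35 15 9 6) (.pot 1) (.pot 1))) 
(.lf (.thr (.lm 11 31 6 38 15 8 6) (.lf 6 124 0 131) (.pot 0))))) 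
(.lf (.thr (.lm 11 25 6 32 14 9 9) (.pot 1) (.pot 1))))) 
(.lf (.thr (.lm 9 32 5 36 15 8 12) (.lf 5 126 0 131) (.pot 0)))))) 
(.lf (.thr (.lm 9 37 4 42 16 7 25) (.lf 4 127 0 131) (.pot 0)))) (.z 1237 (.a 1145 (.y 1556 
(.z 1226 (.t 16 (.lf (.thr (.lm 6 34 5 36 10 7 12) (.pot 1) (.pot 0))) (.a 1138 (.lf .inf) 
(.y 1549 (.z 1220 (.lf .inf) (.t 24 (.lf (.thr (.lm 10 35 6 40 13 7 7) (.pot 1) (.pot 1))) 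
(.lf (.low 2)))) (.lf .inf)))) (.t 16 (.a 1138 (.y 1549 (.z 1231 
(.lf (.thr (.lm 6 43 4 45 10 6 6) (.pot 1) (.pot 0))) 
(.lf (.thr (.lm 6 46 4 47 10 6 6) (.lf 4 126 2 129) (.pot 0)))) (.lf .inf)) 
(.lf (.thr (.lm 6 40 4 41 10 6 9) (.pot 1) (.pot 1)))) (.a 1138 (.y 1549 (.z 1231 (.t 24 
(.a 1135 (.lf (.thr (.lm 10 43 5 48 13 7 4) (.lf 5 125 0 131) (.lf 0 131 10 120))) (.y 1546 
(.lf (.thr (.lm 10 41 5 47 13 7 4) (.lf 5 125 0 131) (.pot 0))) (.lf .inf))) (.lf (.low 2))) 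
(.lf (.thr (.lm 12 43 5 50 16 7 6) (.lf 5 125 0 131) (.lf 0 131 12 119)))) (.lf .inf)) 
(.y 1549 (.z 1231 (.t 24 (.a 1141 (.y 1546 
(.lf (.thr (.lm 10 40 5 45 13 7 4) (.lf 5 125 0 131) (.pot 0))) (.z 1228 (.lf .inf) 
(.lf (.thr (.lm 10 41 5 46 13 7 3) (.lf 5 125 0 131) (.pot 0))))) 
(.lf (.thr (.lm 10 38 5 43 12 7 5) (.lf 5 125 0 131) (.pot 0)))) (.lf (.low 2))) 
(.lf (.thr (.lm 11 40 5 46 15 7 7) (.lf 5 125 0 131) (.pot 0)))) (.z 1231 (.lf .inf) (.t 24 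
(.a 1141 (.lf (.thr (.lm 10 42 5 48 13 6 5) (.lf 5 125 0 131) (.lf 0 131 10 120))) (.y 1552 
(.lf (.thr (.lm 10 40 5 46 12 6 5) (.lf 5 125 0 131) (.pot 0))) (.lf .inf))) (.lf (.low 2)))))))) 
(.lf .inf)) (.y 1556 (.z 1226 (.t 16 (.lf (.thr (.lm 6 28 5 29 10 7 12) (.pot 0) (.pot 0))) 
(.a 1151 (.y 1549 (.z 1220 (.lf (.thr (.lm 11 29 7 35 15 9 6) (.pot 1) (.pot 1))) (.t 24 
(.lf (.thr (.lm 10 32 6 37 12 7 6) (.pot 0) (.pot 0))) (.lf (.low 2)))) (.lf .inf)) 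
(.lf (.thr (.lm 11 25 6 32 14 9 9) (.pot 1) (.pot 1))))) (.t 16 
(.lf (.thr (.lm 6 33 4 35 10 6 12) (.pot 0) (.pot 0))) (.a 1151 (.y 1549 
(.lf (.thr (.lm 11 34 5 41 15 8 9) (.lf 5 125 0 131) (.pot 0))) (.z 1231 (.t 24 
(.lf (.thr (.lm 10 35 5 40 12 7 6) (.pot 0) (.pot 0))) (.lf (.low 2))) (.t 24 
(.lf (.thr (.lm 10 37 5 43 12 6 6) (.pot 1) (.pot 0))) (.lf (.low 2))))) (.y 1549 
(.lf (.thr (.lm 11 31 5 37 14 8 9) (.lf 5 125 0 131) (.pot 0))) (.z 1231 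
(.lf (.thr (.lm 11 31 6 37 14 8 6) (.pot 1) (.pot 1))) 
(.lf (.thr (.lm 11 33 5 40 14 7 7) (.lf 5 125 0 131) (.pot 0)))))))) (.z 1226 (.lf .inf) 
(.t 16 (.lf (.thr (.lm 6 33 4 35 10 6 12) (.pot 0) (.pot 0))) (.a 1151 (.lf .inf) (.y 1562 
(.z 1231 (.lf .inf) (.t 24 (.lf (.thr (.lm 10 34 5 39 12 6 7) (.pot 0) (.pot 0))) 
(.lf (.low 2)))) (.lf .inf))))))) (.a 1145 (.y 1556 
(.lf (.thr (.lm 9 44 4 48 16 7 18) (.lf 4 127 0 131) (.lf 0 131 9 122))) (.z 1248 (.t 16 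
(.lf (.thr (.lm 6 45 4 47 10 6 12) (.lf 4 127 2 128) (.lf 2 128 6 124))) (.a 1138 (.lf .inf) 
(.y 1562 (.lf (.thr (.lm 11 43 5 49 15 6 9) (.lf 5 126 0 131) (.lf 0 131 11 119))) (.lf .inf)))) 
(.lf (.thr (.lm 9 49 4 54 16 5 13) (.lf 4 127 0 130) (.lf 0 130 9 122))))) (.y 1556 (.z 1248 
(.lf (.thr (.lm 9 37 4 42 15 6 12) (.lf 4 126 0 131) (.pot 0))) 
(.lf (.thr (.lm 9 43 4 47 15 5 13) (.lf 4 127 0 131) (.pot 0)))) (.z 1248 (.t 16 (.a 1151 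
(.lf (.thr (.lm 6 42 4 44 10 6 9) (.pot 1) (.pot 0))) 
(.lf (.thr (.lm 6 38 4 41 10 6 9) (.pot 0) (.pot 0)))) (.a 1151 (.y 1562 (.z 1242 (.t 24 
(.a 1148 (.lf .inf) (.lf (.thr (.lm 10 40 5 46 12 6 4) (.pot 0) (.pot 0)))) (.lf (.low 2))) 
(.lf (.thr (.lm 11 42 4 49 15 6 6) (.lf 4 126 0 131) (.pot 0)))) (.lf .inf)) (.y 1562 
(.lf (.thr (.lm 11 36 5 43 14 6 9) (.lf 5 126 0 131) (.pot 1))) (.z 1242 (.lf .inf) (.t 24 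
(.lf (.thr (.lm 10 39 4 45 12 6 7) (.pot 1) (.pot 0))) (.lf (.low 2))))))) 
(.lf (.thr (.lm 9 43 4 47 15 5 13) (.lf 4 127 0 130) (.lf 0 130 9 122)))))))))) (.a 1107 
(.lf .inf) (.a 1132 (.lf .inf) (.y 1594 (.z 1237 (.lf .inf) (.a 1145 (.lf .inf) (.y 1581 
(.z 1248 (.lf .inf) (.t 16 (.lf (.thr (.lm 6 44 4 46 10 5 13) (.pot 0) (.lf 2 128 6 124))) 
(.a 1151 (.lf .inf) (.z 1254 (.lf .inf) 
(.lf (.thr (.lm 11 44 3 52 14 5 7) (.lf 3 127 0 131) (.lf 0 131 11 120))))))) (.lf .inf)))) 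
(.lf .inf)))))) (.y 1518 (.a 1209 (.y 1467 (.lf .inf) (.a 1183 
(.lf (.thr (.lm 8 12 5 20 14 9 35) (.lf 5 101 0 106) (.pot 0))) (.lf .inf))) (.lf .inf)) 
(.a 1209 (.y 1569 (.a 1183 (.y 1543 (.z 1237 (.a 1170 (.y 1530 
(.lf (.thr (.lm 8 20 5 25 14 9 17) (.lf 5 125 0 131) (.pot 0))) (.z 1226 
(.lf (.thr (.lm 8 20 5 25 14 9 12) (.pot 0) (.pot 1))) 
(.lf (.thr (.lm 8 26 5 30 14 8 12) (.lf 5 126 0 131) (.pot 0))))) 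
(.lf (.thr (.lm 8 13 5 19 13 9 18) (.pot 0) (.pot 1)))) 
(.lf (.thr (.lm 8 24 4 30 14 7 24) (.lf 4 127 0 131) (.pot 0)))) (.z 1237 (.y 1556 (.a 1170 
(.z 1226 (.lf (.thr (.lm 8 20 5 25 14 9 12) (.pot 1) (.pot 1))) (.t 16 
(.lf (.thr (.lm 6 27 4 29 9 6 12) (.pot 0) (.pot 0))) 
(.lf (.thr (.lm 10 25 5 31 14 8 12) (.pot 1) (.pot 1))))) 
(.lf (.thr (.lm 8 13 5 19 13 9 18) (.pot 1) (.pot 1)))) (.a 1170 (.z 1226 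
(.lf (.thr (.lm 8 20 5 25 14 9 12) (.pot 1) (.pot 1))) (.t 16 
(.lf (.thr (.lm 6 27 4 29 9 6 12) (.pot 0) (.pot 0))) 
(.lf (.thr (.lm 10 25 5 31 14 8 12) (.pot 1) (.pot 1))))) 
(.lf (.thr (.lm 8 13 5 19 13 9 18) (.pot 1) (.pot 1))))) (.y 1556 
(.lf (.thr (.lm 8 24 4 30 14 7 24) (.lf 4 127 0 131) (.pot 1))) (.a 1170 (.z 1248 (.t 16 
(.lf (.thr (.lm 6 32 4 35 9 6 12) (.pot 0) (.pot 0))) (.y 1562 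
(.lf (.thr (.lm 10 30 5 37 14 6 12) (.lf 5 126 0 131) (.pot 0))) (.a 1164 
(.lf (.thr (.lm 10 33 5 40 14 6 9) (.pot 1) (.pot 1))) 
(.lf (.thr (.lm 10 30 5 37 14 6 9) (.pot 0) (.pot 0)))))) 
(.lf (.thr (.lm 8 37 4 41 14 5 12) (.lf 4 127 0 130) (.pot 0)))) (.z 1248 
(.lf (.thr (.lm 8 25 4 29 13 6 12) (.pot 0) (.pot 0))) 
(.lf (.thr (.lm 8 30 4 35 13 5 13) (.lf 4 127 0 130) (.pot 0)))))))) (.y 1543 (.z 1237 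
(.a 1196 (.lf (.thr (.lm 7 6 5 13 12 9 18) (.pot 0) (.pot 1))) (.lf .inf)) 
(.lf (.thr (.lm 7 11 4 17 12 7 25) (.lf 4 127 0 131) (.pot 0)))) (.z 1237 (.a 1196 
(.lf (.thr (.lm 7 6 5 13 12 9 18) (.pot 0) (.pot 1))) 
(.lf (.thr (.lm 6 0 5 6 11 9 18) (.pot 0) (.pot 1)))) (.a 1196 
(.lf (.thr (.lm 7 18 4 23 12 7 18) (.pot 0) (.pot 0))) 
(.lf (.thr (.lm 6 11 4 17 11 7 18) (.pot 0) (.pot 0))))))) (.a 1183 (.y 1594 (.z 1237 (.a 1170 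
(.lf .inf) (.lf (.thr (.lm 8 13 5 19 13 9 18) (.pot 1) (.pot 1)))) (.a 1170 (.y 1581 (.z 1248 
(.t 16 (.lf (.thr (.lm 6 32 4 35 9 6 12) (.pot 0) (.pot 0))) (.a 1164 (.lf .inf) 
(.lf (.thr (.lm 10 30 5 37 14 6 9) (.pot 0) (.pot 0))))) (.t 16 
(.lf (.thr (.lm 6 38 4 40 9 5 12) (.pot 0) (.pot 0))) (.a 1164 (.z 1254 (.y 1575 
(.lf (.thr (.lm 10 39 4 45 14 5 6) (.lf 4 127 0 131) (.lf 0 131 10 120))) (.lf .inf)) 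
(.lf (.thr (.lm 10 41 3 49 14 5 6) (.lf 3 127 0 131) (.lf 0 131 10 120)))) 
(.lf (.thr (.lm 10 35 4 43 14 5 9) (.pot 1) (.pot 1)))))) (.lf .inf)) (.y 1581 (.z 1248 
(.lf (.thr (.lm 8 25 4 29 13 6 12) (.pot 0) (.pot 0))) 
(.lf (.thr (.lm 8 30 4 35 13 5 13) (.pot 1) (.pot 0)))) (.z 1248 (.lf .inf) 
(.lf (.thr (.lm 8 30 4 35 13 5 13) (.pot 1) (.pot 0))))))) (.lf .inf)) (.y 1594 (.z 1237 
(.a 1196 (.lf (.thr (.lm 7 6 5 13 12 9 18) (.pot 1) (.pot 0))) 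
(.lf (.thr (.lm 6 0 5 6 11 9 18) (.pot 1) (.pot 0)))) (.a 1196 
(.lf (.thr (.lm 7 18 4 23 12 7 18) (.pot 0) (.pot 0))) 
(.lf (.thr (.lm 6 11 4 17 11 7 18) (.pot 0) (.pot 0))))) (.z 1237 (.lf .inf) (.a 1196 
(.lf .inf) (.lf (.thr (.lm 6 11 4 17 11 7 18) (.pot 0) (.pot 0)))))))) (.y 1569 (.a 1234 
(.y 1543 (.lf .inf) (.z 1237 (.lf (.thr (.lm 5 0 5 0 10 9 14) (.pot 1) (.pot 1))) 
(.lf (.thr (.lm 5 0 4 3 10 7 24) (.pot 0) (.pot 1))))) (.lf .inf)) (.a 1234 (.y 1594 (.z 1237 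
(.lf (.thr (.lm 5 0 5 0 10 9 14) (.pot 1) (.pot 1))) 
(.lf (.thr (.lm 5 0 4 3 10 7 24) (.pot 1) (.pot 1)))) (.z 1237 
(.lf (.thr (.lm 5 0 5 0 10 9 14) (.pot 1) (.pot 1))) 
(.lf (.thr (.lm 5 0 4 3 10 7 24) (.pot 1) (.pot 1))))) (.y 1594 (.z 1237 (.a 1247 (.y 1581 
(.lf .inf) (.z 1226 (.lf .inf) (.t 16 (.a 1240 (.y 1587 (.lf .inf) (.z 1231 (.lf .inf) (.t 8 
(.y 1590 (.lf .inf) (.a 1237 (.lf (.thr (.lm 4 0 4 0 5 5 2) (.pot 1) (.pot 1))) (.lf .inf))) 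
(.y 1590 (.lf .inf) (.a 1237 (.lf (.thr (.lm 4 0 4 0 6 6 2) (.pot 1) (.pot 1))) (.lf .inf)))))) 
(.lf .inf)) (.a 1240 (.y 1587 (.lf .inf) (.z 1231 (.lf .inf) (.t 24 (.y 1590 (.lf .inf) 
(.a 1237 (.lf (.thr (.lm 5 0 5 0 6 6 2) (.pot 1) (.pot 1))) (.lf .inf))) (.y 1590 (.lf .inf) 
(.a 1237 (.lf (.thr (.lm 5 0 5 0 7 7 2) (.pot 1) (.pot 1))) (.lf .inf)))))) (.lf .inf))))) 
(.lf .inf)) (.a 1247 (.lf (.thr (.lm 4 0 4 0 7 7 13) (.pot 1) (.pot 1))) (.lf .inf))) (.z 1237 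
(.a 1247 (.y 1607 (.z 1226 (.lf .inf) (.t 16 (.a 1240 (.y 1600 (.z 1231 (.lf .inf) (.t 8 
(.a 1237 (.lf (.thr (.lm 4 0 4 0 5 5 2) (.pot 1) (.pot 1))) 
(.lf (.thr (.lf 4 0 4 0) (.pot 1) (.pot 1)))) (.a 1237 
(.lf (.thr (.lm 4 0 4 0 6 6 2) (.pot 1) (.pot 1))) (.lf (.thr (.lf 4 0 4 0) (.pot 1) (.pot 1)))))) 
(.lf .inf)) (.lf .inf)) (.a 1240 (.y 1600 (.z 1231 (.lf .inf) (.t 24 (.a 1237 
(.lf (.thr (.lm 5 0 5 0 6 6 2) (.pot 1) (.pot 1))) (.lf (.thr (.lf 5 0 5 0) (.pot 1) (.pot 1)))) 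
(.a 1237 (.lf (.thr (.lm 5 0 5 0 7 7 2) (.pot 1) (.pot 1))) 
(.lf (.thr (.lf 5 0 5 0) (.pot 1) (.pot 1)))))) (.lf .inf)) (.lf .inf)))) (.lf .inf)) 
(.lf .inf)) (.a 1247 (.lf (.thr (.lm 4 0 4 0 7 7 13) (.pot 1) (.pot 1))) (.y 1607 (.z 1248 
(.t 16 (.a 1253 (.y 1600 (.lf .inf) (.z 1242 (.lf .inf) (.t 8 (.y 1603 (.lf .inf) (.a 1250 
(.z 1245 (.lf .inf) (.lf (.thr (.lm 4 0 4 0 5 5 1) (.pot 1) (.pot 1)))) (.lf .inf))) (.y 1603 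
(.lf .inf) (.a 1250 (.z 1245 (.lf .inf) (.lf (.thr (.lm 4 0 4 0 5 5 1) (.pot 1) (.pot 1)))) 
(.lf .inf)))))) (.lf .inf)) (.a 1253 (.y 1600 (.lf .inf) (.z 1242 (.lf .inf) (.t 24 (.y 1603 
(.lf .inf) (.a 1250 (.z 1245 (.lf .inf) (.lf (.thr (.lm 4 0 4 0 5 5 1) (.pot 1) (.pot 1)))) 
(.lf .inf))) (.y 1603 (.lf .inf) (.a 1250 (.z 1245 (.lf .inf) 
(.lf (.thr (.lm 4 0 4 0 5 5 1) (.pot 1) (.pot 1)))) (.lf .inf)))))) (.lf .inf))) (.t 16 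
(.a 1253 (.lf (.thr (.lm 4 0 4 0 5 5 7) (.pot 1) (.pot 1))) (.lf .inf)) (.a 1253 
(.lf (.thr (.lm 4 0 4 0 5 5 7) (.pot 1) (.pot 1))) (.lf .inf)))) (.z 1248 (.t 16 (.a 1253 
(.y 1613 (.z 1242 (.lf .inf) (.t 8 (.a 1250 (.z 1245 (.lf .inf) 
(.lf (.thr (.lm 4 0 4 0 5 5 1) (.pot 1) (.pot 1)))) (.lf .inf)) (.a 1250 (.z 1245 (.lf .inf) 
(.lf (.thr (.lm 4 0 4 0 5 5 1) (.pot 1) (.pot 1)))) (.lf .inf)))) (.lf .inf)) (.lf .inf)) 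
(.a 1253 (.y 1613 (.z 1242 (.lf .inf) (.t 24 (.a 1250 (.z 1245 (.lf .inf) 
(.lf (.thr (.lm 4 0 4 0 5 5 1) (.pot 1) (.pot 1)))) (.lf .inf)) (.a 1250 (.z 1245 (.lf .inf) 
(.lf (.thr (.lm 4 0 4 0 5 5 1) (.pot 1) (.pot 1)))) (.lf .inf)))) (.lf .inf)) (.lf .inf))) 
(.t 16 (.a 1253 (.lf (.thr (.lm 4 0 4 0 5 5 7) (.pot 1) (.pot 1))) (.y 1613 (.z 1254 (.t 8 
(.a 1256 (.z 1251 (.lf .inf) (.lf (.thr (.lm 4 0 4 0 5 5 1) (.pot 1) (.pot 1)))) (.lf .inf)) 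
(.a 1256 (.z 1251 (.lf .inf) (.lf (.thr (.lm 4 0 4 0 5 5 1) (.pot 1) (.pot 1)))) (.lf .inf))) 
(.lf (.thr (.lm 4 0 4 0 5 5 4) (.pot 1) (.pot 1)))) (.z 1254 (.t 8 (.a 1256 (.y 1616 (.z 1251 
(.lf .inf) (.lf (.thr (.lm 4 0 4 0 5 5 1) (.pot 1) (.pot 1)))) (.lf .inf)) (.lf .inf)) 
(.a 1256 (.y 1616 (.z 1251 (.lf .inf) (.lf (.thr (.lm 4 0 4 0 5 5 1) (.pot 1) (.pot 1)))) 
(.lf .inf)) (.lf .inf))) (.lf (.thr (.lm 4 0 4 0 5 5 4) (.pot 1) (.pot 1)))))) (.a 1253 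
(.lf (.thr (.lm 4 0 4 0 5 5 7) (.pot 1) (.pot 1))) (.y 1613 (.z 1254 (.t 24 (.a 1256 (.z 1251 
(.lf .inf) (.lf (.thr (.lm 4 0 4 0 5 5 1) (.pot 1) (.pot 1)))) (.lf .inf)) (.a 1256 (.z 1251 
(.lf .inf) (.lf (.thr (.lm 3 0 4 0 5 5 1) (.pot 1) (.pot 1)))) (.lf .inf))) 
(.lf (.thr (.lm 3 0 3 0 5 5 4) (.pot 1) (.pot 1)))) (.z 1254 (.t 24 (.a 1256 (.y 1616 (.z 1251 
(.lf .inf) (.lf (.thr (.lm 4 0 4 0 5 5 1) (.pot 1) (.pot 1)))) (.lf .inf)) (.lf .inf)) 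
(.a 1256 (.y 1616 (.z 1251 (.lf .inf) (.lf (.thr (.lm 3 0 4 0 5 5 1) (.pot 1) (.pot 1)))) 
(.lf .inf)) (.lf .inf))) (.lf (.thr (.lm 3 0 3 0 5 5 4) (.pot 1) (.pot 1))))))))))))))))))

theorem h30 : chk (leafT PP TD0 0 2) c30 0 32 1057 1260 1215 1260 1215 1620 = true := by
  decide +kernel

theorem q8 : ∃ T : Tree, chk (leafT PP TD0 0 2) T 0 32 720 1125 1080 1125 1080 1485 = true :=
  ⟨_, (chk_a (chk_y (chk_a (chk_y h0 h1) h2) h3) (chk_y h4 (chk_a (chk_y h5 (chk_y (chk_a h6 (chk_a h7 (chk_y h8 h9))) h10)) (chk_y h11 (chk_a h12 h13)))))⟩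

theorem q9 : ∃ T : Tree, chk (leafT PP TD0 0 2) T 0 32 765 1170 1125 1170 1125 1530 = true :=
  ⟨_, (chk_a (chk_y (chk_a (chk_y h14 h15) h16) h17) (chk_y h18 (chk_a (chk_y h19 (chk_y (chk_a h20 (chk_a h21 h22)) h23)) h24)))⟩

theorem q10 : ∃ T : Tree, chk (leafT PP TD0 0 2) T 0 32 810 1215 1170 1215 1170 1575 = true :=
  ⟨_, (chk_a h25 (chk_y h26 (chk_a h27 h28)))⟩

theorem q11 : ∃ T : Tree, chk (leafT PP TD0 0 2) T 0 32 855 1260 1215 1260 1215 1620 = true :=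
  ⟨_, (chk_a h29 h30)⟩

end Pool.Agent.Helper58.LDD.T02
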