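import Pool.Agent.Helper58.LD.Comb
import Pool.Agent.Helper58.LDD.Tab

set_option autoImplicit false

namespace Pool.Agent.Helper58.LDD.T03

open Pool.Agent.Helper58.LD Pool.Agent.Helper58.LDD

set_option maxRecDepth 100000

def c0 : Tree :=
  (.a 1102 (.y 1462 (.a 1001 (.y 1361 (.a 950 (.y 1310 
(.lf (.thr (.pot 1) (.lm 2 0 2 0 5 5 25) (.pot 1))) (.y 1335 (.a 925 (.z 1282 
(.lf (.thr (.pot 0) (.lm 3 11 0 17 5 5 24) (.pot 0))) (.lf .inf)) (.z 1282 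
(.lf (.thr (.pot 0) (.lm 3 11 0 17 5 5 24) (.pot 0))) 
(.lf (.thr (.pot 1) (.lm 2 0 0 5 5 5 24) (.pot 0))))) (.a 925 (.lf .inf) (.z 1282 
(.lf (.thr (.pot 1) (.lm 3 25 0 28 5 5 24) (.pot 1))) 
(.lf (.thr (.pot 0) (.lm 2 13 0 17 5 5 25) (.pot 0))))))) (.y 1310 (.a 975 
(.lf (.thr (.pot 1) (.lm 2 0 2 0 5 5 25) (.pot 1))) (.lf .inf)) (.a 975 (.y 1335 (.z 1282 
(.lf (.thr (.pot 0) (.lm 3 11 0 17 5 5 24) (.pot 0))) 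
(.lf (.thr (.pot 0) (.lm 2 0 0 5 5 5 24) (.pot 1)))) (.z 1282 
(.lf (.thr (.pot 1) (.lm 3 25 0 28 5 5 24) (.pot 1))) 
(.lf (.thr (.pot 0) (.lm 2 13 0 17 5 5 25) (.pot 0))))) (.y 1335 (.z 1282 
(.lf (.thr (.lf 8 123 3 128) (.lm 3 11 0 17 5 5 24) (.pot 0))) 
(.lf (.thr (.pot 0) (.lm 2 0 0 5 5 5 24) (.pot 1)))) (.z 1282 
(.lf (.thr (.lf 8 123 3 128) (.lm 3 25 0 28 5 5 24) (.pot 0))) 
(.lf (.thr (.pot 0) (.lm 2 13 0 17 5 5 25) (.pot 0)))))))) (.a 950 (.lf .inf) (.y 1411 (.a 975 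
(.y 1386 (.z 1282 (.a 962 
(.lf (.thr (.lf 6 124 3 128) (.lm 3 38 0 41 5 5 24) (.lf 0 131 6 124))) (.y 1373 
(.lf (.thr (.pot 0) (.lm 3 38 0 41 5 5 17) (.pot 0))) 
(.lf (.thr (.lf 7 124 3 128) (.lm 3 44 0 47 5 5 18) (.lf 0 131 7 124))))) (.a 962 
(.lf (.thr (.pot 1) (.lm 2 27 0 29 5 5 24) (.lf 0 131 6 124))) (.y 1373 
(.lf (.thr (.pot 0) (.lm 2 27 0 29 5 5 18) (.pot 0))) 
(.lf (.thr (.pot 0) (.lm 2 33 0 35 5 5 18) (.pot 0)))))) (.z 1282 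
(.lf (.thr (.lf 7 124 3 128) (.lm 3 51 0 53 5 5 24) (.lf 0 131 7 124))) 
(.lf (.thr (.pot 0) (.lm 2 40 0 41 5 5 24) (.lf 0 131 7 124))))) (.y 1386 (.z 1282 
(.lf (.thr (.lf 8 123 3 128) (.lm 3 38 0 41 5 5 24) (.pot 0))) (.a 988 (.y 1373 
(.lf (.thr (.pot 0) (.lm 2 27 0 29 5 5 18) (.pot 0))) 
(.lf (.thr (.pot 0) (.lm 2 33 0 35 5 5 18) (.pot 0)))) 
(.lf (.thr (.lf 8 123 2 129) (.lm 2 27 0 29 5 5 24) (.pot 0))))) (.z 1282 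
(.lf (.thr (.lf 8 123 3 128) (.lm 3 51 0 53 5 5 24) (.lf 0 131 8 123))) 
(.lf (.thr (.lf 8 123 2 129) (.lm 2 40 0 41 5 5 24) (.lf 0 131 8 123)))))) 
(.lf (.thr (.lf 7 123 2 128) (.lm 2 52 0 54 5 5 48) (.lf 0 107 7 101)))))) (.y 1361 (.a 1051 
(.y 1310 (.lf .inf) (.y 1335 (.lf .inf) 
(.lf (.thr (.lf 9 101 2 108) (.lm 2 13 0 17 5 5 36) (.pot 0))))) (.lf .inf)) (.a 1051 (.y 1411 
(.a 1026 (.y 1386 (.lf (.thr (.lf 9 114 2 120) (.lm 2 27 0 29 5 5 35) (.pot 0))) 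
(.lf (.thr (.lf 9 114 2 120) (.lm 2 39 0 42 5 5 35) (.pot 0)))) 
(.lf (.thr (.lf 9 101 2 108) (.lm 2 27 0 29 5 5 48) (.pot 0)))) 
(.lf (.thr (.lf 9 101 2 108) (.lm 2 52 0 54 5 5 48) (.lf 0 131 9 122)))) (.y 1411 
(.lf (.thr (.lf 10 76 2 82) (.lm 2 27 0 29 5 5 48) (.pot 0))) 
(.lf (.thr (.lf 10 76 2 82) (.lm 2 52 0 54 5 5 48) (.pot 0))))))) (.y 1563 (.a 1001 (.a 950 
(.lf .inf) (.lf (.thr (.lf 7 123 2 128) (.lf 2 77 0 80) (.lf 0 57 7 50)))) (.a 1051 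
(.lf (.thr (.lf 9 101 2 108) (.lf 2 77 0 80) (.lf 0 83 9 75))) 
(.lf (.thr (.lf 10 76 2 82) (.lf 2 77 0 80) (.lf 0 108 10 100))))) (.a 1001 (.lf .inf) 
(.y 1614 (.a 1051 (.lf .inf) (.a 1076 (.lf .inf) (.y 1588 
(.lf (.thr (.lm 10 76 2 82 17 5 36) (.lf 2 128 1 129) (.lf 1 108 10 100))) (.lf .inf)))) 
(.lf .inf))))) (.y 1462 (.a 1203 (.y 1361 (.lf .inf) (.a 1152 
(.lf (.thr (.lm 9 51 2 57 17 5 48) (.lm 2 27 0 29 5 6 73) (.pot 0))) (.lf .inf))) (.lf .inf)) 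
(.a 1203 (.y 1563 (.a 1152 (.y 1512 
(.lf (.thr (.lm 9 51 2 57 17 5 48) (.lf 2 77 0 80) (.pot 0))) 
(.lf (.thr (.lm 9 51 2 57 17 5 48) (.lf 2 102 0 105) (.lf 0 131 9 121)))) (.y 1512 
(.lf (.thr (.lm 8 25 2 32 15 5 48) (.lf 2 77 0 80) (.pot 0))) (.a 1177 
(.lf (.thr (.lm 8 39 2 44 15 5 35) (.lf 2 102 0 105) (.pot 0))) 
(.lf (.thr (.lm 7 25 2 32 13 5 36) (.lf 2 102 0 105) (.pot 0)))))) (.y 1614 (.a 1152 (.y 1588 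
(.a 1127 (.lf (.thr (.lm 9 63 2 70 17 5 35) (.lf 2 128 1 129) (.lf 1 121 9 113))) (.z 1282 
(.lf (.thr (.lm 9 51 3 57 16 5 24) (.lf 3 128 1 129) (.lf 1 129 9 122))) 
(.lf (.thr (.lm 9 62 2 68 16 5 24) (.lf 2 129 1 129) (.lf 1 129 9 122))))) (.a 1127 (.lf .inf) 
(.z 1282 (.lf .inf) (.lf (.thr (.lm 9 62 2 68 16 5 24) (.lf 2 129 2 128) (.lf 2 120 9 113)))))) 
(.a 1177 (.y 1588 (.z 1282 (.a 1164 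
(.lf (.thr (.lm 8 45 3 51 15 5 17) (.lf 3 128 1 129) (.lf 1 129 8 122))) (.y 1575 
(.lf (.thr (.lm 8 39 3 44 14 5 18) (.lf 3 128 1 130) (.pot 0))) (.z 1271 (.t 16 
(.lf (.thr (.lm 6 40 3 43 9 5 12) (.pot 0) (.pot 0))) 
(.lf (.thr (.lm 10 38 3 45 14 4 12) (.lf 3 128 0 130) (.lf 0 130 10 121)))) 
(.lf (.thr (.lm 8 45 2 49 14 5 12) (.lf 2 128 1 129) (.pot 0)))))) 
(.lf (.thr (.lm 8 50 2 55 15 5 24) (.lf 2 129 1 129) (.lf 1 129 8 123)))) (.z 1282 (.y 1601 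
(.a 1164 (.lf .inf) (.z 1271 (.lf .inf) 
(.lf (.thr (.lm 8 45 2 49 14 5 12) (.lf 2 128 2 128) (.lf 2 128 8 123))))) (.lf .inf)) 
(.lf (.thr (.lm 8 50 2 55 15 5 24) (.lf 2 129 2 128) (.lf 2 128 8 123))))) (.y 1588 (.z 1282 
(.a 1190 (.y 1575 (.lf (.thr (.lm 7 33 3 37 13 5 18) (.lf 3 128 1 130) (.pot 0))) (.z 1271 
(.lf (.thr (.lm 7 33 3 37 13 5 12) (.pot 0) (.pot 0))) 
(.lf (.thr (.lm 7 38 2 43 13 5 12) (.lf 2 128 1 129) (.pot 0))))) 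
(.lf (.thr (.lm 7 26 3 31 11 5 18) (.pot 0) (.pot 0)))) 
(.lf (.thr (.lm 7 37 2 42 13 5 25) (.lf 2 129 1 129) (.pot 0)))) (.z 1282 (.a 1190 (.y 1601 
(.z 1271 (.lf (.thr (.lm 7 33 3 37 13 5 12) (.pot 0) (.pot 0))) 
(.lf (.thr (.lm 7 38 2 43 13 5 12) (.pot 1) (.pot 0)))) (.lf .inf)) 
(.lf (.thr (.lm 7 26 3 31 11 5 18) (.pot 0) (.pot 0)))) (.a 1190 
(.lf (.thr (.lm 7 43 2 49 13 5 18) (.lf 2 129 2 128) (.lf 2 128 7 123))) 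
(.lf (.thr (.lm 7 37 2 42 11 5 18) (.lf 2 129 2 128) (.lf 2 128 7 124)))))))) (.a 1152 
(.lf .inf) (.a 1177 (.lf .inf) (.y 1639 (.z 1282 (.lf .inf) (.a 1190 (.lf .inf) 
(.lf (.thr (.lm 7 37 2 42 11 5 18) (.pot 0) (.lf 4 127 7 124))))) (.lf .inf)))))) (.y 1563 
(.a 1254 (.y 1512 (.lf .inf) (.a 1228 
(.lf (.thr (.lm 6 12 2 20 10 5 35) (.lf 2 102 0 105) (.pot 0))) (.lf .inf))) (.lf .inf)) 
(.a 1254 (.y 1614 (.a 1228 (.y 1588 (.z 1282 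
(.lf (.thr (.lm 6 13 3 19 10 5 24) (.pot 0) (.pot 0))) 
(.lf (.thr (.lm 6 24 2 30 10 5 24) (.lf 2 129 1 129) (.pot 0)))) (.z 1282 
(.lf (.thr (.lm 6 13 3 19 10 5 24) (.pot 0) (.pot 0))) (.y 1601 
(.lf (.thr (.lm 6 24 2 30 10 5 24) (.lf 2 129 2 128) (.pot 0))) (.a 1215 
(.lf (.thr (.lm 6 31 2 36 10 5 18) (.pot 0) (.pot 0))) 
(.lf (.thr (.lm 5 25 2 29 9 5 18) (.pot 0) (.pot 0))))))) (.y 1588 (.z 1282 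
(.lf (.thr (.lm 4 0 3 6 8 5 24) (.pot 0) (.pot 1))) 
(.lf (.thr (.lm 4 11 2 17 8 5 25) (.lf 2 129 1 129) (.pot 0)))) (.z 1282 
(.lf (.thr (.lm 4 0 3 6 8 5 24) (.pot 0) (.pot 1))) 
(.lf (.thr (.lm 4 11 2 17 8 5 25) (.pot 0) (.pot 0)))))) (.a 1228 (.y 1639 (.z 1282 
(.lf (.thr (.lm 6 13 3 19 10 5 24) (.pot 0) (.pot 0))) (.a 1215 
(.lf (.thr (.lm 6 31 2 36 10 5 18) (.pot 0) (.pot 0))) 
(.lf (.thr (.lm 5 25 2 29 9 5 18) (.pot 0) (.pot 0))))) (.lf .inf)) (.y 1639 (.z 1282 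
(.lf (.thr (.lm 4 0 3 6 8 5 24) (.pot 1) (.pot 0))) 
(.lf (.thr (.lm 4 11 2 17 8 5 25) (.pot 0) (.pot 0)))) (.z 1282 (.lf .inf) 
(.lf (.thr (.lm 4 11 2 17 8 5 25) (.pot 0) (.pot 0))))))) (.y 1614 (.a 1279 (.y 1588 (.lf .inf) 
(.lf (.thr (.lm 3 0 2 0 5 5 26) (.pot 1) (.pot 1)))) (.lf .inf)) 
(.lf (.thr (.lm 2 0 2 0 5 5 26) (.pot 1) (.pot 1)))))))))

theorem h0 : chk (leafT PP TD0 0 2) c0 0 32 900 1305 1260 1305 1260 1665 = true := by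
  decide +kernel

def c1 : Tree :=
  (.a 1147 (.y 1507 (.a 1046 (.y 1406 (.a 995 (.y 1355 
(.lf (.thr (.pot 1) (.lm 0 0 0 0 5 5 25) (.pot 1))) (.y 1380 (.a 970 (.z 1327 
(.lf (.thr (.pot 0) (.lm 0 13 0 15 5 5 24) (.pot 0))) (.lf .inf)) (.z 1327 
(.lf (.thr (.pot 0) (.lm 0 13 0 15 5 5 24) (.pot 0))) 
(.lf (.thr (.pot 1) (.lm 0 2 0 3 5 5 24) (.pot 0))))) (.a 970 (.lf .inf) (.z 1327 (.y 1393 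
(.lf (.thr (.pot 0) (.lm 0 26 0 27 5 5 18) (.pot 0))) 
(.lf (.thr (.pot 0) (.lm 0 33 0 33 5 5 18) (.pot 0)))) 
(.lf (.thr (.pot 0) (.lm 0 15 0 15 5 5 25) (.pot 0))))))) (.y 1355 (.a 1020 
(.lf (.thr (.pot 1) (.lm 0 0 0 0 5 5 25) (.pot 1))) (.lf .inf)) (.a 1020 (.y 1380 (.z 1327 
(.lf (.thr (.pot 0) (.lm 0 13 0 15 5 5 24) (.pot 0))) 
(.lf (.thr (.pot 0) (.lm 0 2 0 3 5 5 24) (.pot 1)))) (.z 1327 (.y 1393 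
(.lf (.thr (.pot 0) (.lm 0 26 0 27 5 5 18) (.pot 0))) 
(.lf (.thr (.pot 0) (.lm 0 33 0 33 5 5 18) (.pot 0)))) 
(.lf (.thr (.pot 0) (.lm 0 15 0 15 5 5 25) (.pot 0))))) (.y 1380 (.z 1327 
(.lf (.thr (.lf 9 121 0 130) (.lm 0 13 0 15 5 5 24) (.pot 0))) 
(.lf (.thr (.pot 0) (.lm 0 2 0 3 5 5 24) (.pot 1)))) (.z 1327 
(.lf (.thr (.lf 9 121 0 130) (.lm 0 26 0 27 5 5 24) (.pot 0))) 
(.lf (.thr (.pot 0) (.lm 0 15 0 15 5 5 25) (.pot 0)))))))) (.a 995 (.lf .inf) (.y 1456 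
(.a 1020 (.y 1431 (.z 1327 (.a 1007 (.y 1418 
(.lf (.thr (.pot 0) (.lm 0 39 0 40 5 5 17) (.pot 0))) 
(.lf (.thr (.pot 0) (.lm 0 45 0 46 5 5 18) (.lf 0 131 8 122)))) (.y 1418 
(.lf (.thr (.pot 0) (.lm 0 39 0 40 5 5 17) (.pot 0))) 
(.lf (.thr (.lf 9 122 0 130) (.lm 0 45 0 46 5 5 18) (.lf 0 131 9 122))))) (.a 1007 (.y 1418 
(.lf (.thr (.pot 0) (.lm 0 28 0 28 5 5 18) (.pot 0))) (.lf .inf)) (.y 1418 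
(.lf (.thr (.pot 0) (.lm 0 28 0 28 5 5 18) (.pot 0))) 
(.lf (.thr (.pot 0) (.lm 0 34 0 34 5 5 18) (.pot 0)))))) (.z 1327 
(.lf (.thr (.lf 8 122 0 130) (.lm 0 52 0 52 5 5 24) (.lf 0 131 8 122))) 
(.lf (.thr (.pot 0) (.lm 0 40 0 41 5 5 24) (.lf 0 131 8 122))))) (.y 1431 (.z 1327 
(.lf (.thr (.lf 9 121 0 130) (.lm 0 39 0 40 5 5 24) (.pot 0))) (.a 1033 (.y 1418 
(.lf (.thr (.pot 0) (.lm 0 28 0 28 5 5 18) (.pot 0))) 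
(.lf (.thr (.pot 0) (.lm 0 34 0 34 5 5 18) (.pot 0)))) 
(.lf (.thr (.lf 9 121 0 131) (.lm 0 28 0 28 5 5 24) (.pot 0))))) (.z 1327 
(.lf (.thr (.lf 9 121 0 130) (.lm 0 52 0 52 5 5 24) (.lf 0 131 9 121))) (.a 1033 (.y 1443 
(.z 1338 (.lf (.thr (.pot 0) (.lm 0 46 0 47 5 5 12) (.pot 0))) 
(.lf (.thr (.pot 0) (.lm 0 40 0 41 5 5 12) (.pot 0)))) 
(.lf (.thr (.pot 0) (.lm 0 46 0 47 5 5 18) (.lf 0 131 9 122)))) (.y 1443 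
(.lf (.thr (.lf 9 121 0 131) (.lm 0 40 0 41 5 5 18) (.pot 0))) 
(.lf (.thr (.lf 9 121 0 131) (.lm 0 46 0 47 5 5 18) (.lf 0 131 9 121)))))))) 
(.lf (.thr (.lf 9 122 0 130) (.lm 0 53 0 53 5 5 48) (.lf 0 108 9 100)))))) (.y 1406 (.a 1096 
(.y 1355 (.lf .inf) (.y 1380 (.lf .inf) 
(.lf (.thr (.lf 10 100 0 109) (.lm 0 15 0 15 5 5 36) (.pot 0))))) (.lf .inf)) (.a 1096 
(.y 1456 (.a 1071 (.y 1431 (.lf (.thr (.lf 10 112 0 122) (.lm 0 28 0 28 5 5 35) (.pot 0))) 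
(.lf (.thr (.lf 10 112 0 122) (.lm 0 40 0 41 5 5 35) (.pot 0)))) 
(.lf (.thr (.lf 10 100 0 109) (.lm 0 28 0 28 5 5 48) (.pot 0)))) 
(.lf (.thr (.lf 10 100 0 109) (.lm 0 53 0 53 5 5 48) (.lf 0 131 10 121)))) (.y 1456 
(.lf (.thr (.lf 9 75 0 83) (.lm 0 28 0 28 5 5 48) (.pot 0))) 
(.lf (.thr (.lf 9 75 0 83) (.lm 0 53 0 53 5 5 48) (.pot 0))))))) (.y 1608 (.a 1046 (.a 995 
(.lf .inf) (.y 1557 (.lf (.thr (.lf 9 122 0 130) (.lf 0 78 0 79) (.lf 0 83 9 75))) (.lf .inf))) 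
(.a 1096 (.lf (.thr (.lf 10 100 0 109) (.lf 0 79 0 78) (.lf 0 83 10 75))) 
(.lf (.thr (.lf 9 75 0 83) (.lf 0 79 0 78) (.lf 0 108 9 100))))) (.a 1046 (.lf .inf) (.y 1659 
(.a 1096 (.lf .inf) (.a 1121 (.lf .inf) (.y 1633 
(.lf (.thr (.lm 9 75 0 83 16 5 36) (.lf 0 130 3 127) (.lf 3 107 9 101))) (.lf .inf)))) 
(.lf .inf))))) (.y 1507 (.a 1248 (.y 1406 (.lf .inf) (.a 1197 
(.lf (.thr (.lm 8 51 0 57 15 5 48) (.lm 0 28 0 28 5 6 73) (.pot 0))) (.lf .inf))) (.lf .inf)) 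
(.a 1248 (.y 1608 (.a 1197 (.y 1557 
(.lf (.thr (.lm 8 51 0 57 15 5 48) (.lf 0 78 0 79) (.pot 0))) 
(.lf (.thr (.lm 8 51 0 57 15 5 48) (.lf 0 104 1 103) (.lf 1 129 8 123)))) (.y 1557 
(.lf (.thr (.lm 5 25 0 32 11 5 48) (.lf 0 78 0 79) (.pot 0))) (.a 1222 
(.lf (.thr (.lm 6 39 0 44 11 5 35) (.lf 0 104 1 103) (.pot 0))) 
(.lf (.thr (.lm 5 26 0 31 8 5 36) (.lf 0 104 1 103) (.pot 0)))))) (.y 1659 (.a 1197 (.y 1633 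
(.a 1172 (.lf (.thr (.lm 8 63 0 70 15 5 35) (.lf 0 130 3 127) (.lf 3 119 8 115))) 
(.lf (.thr (.lm 7 51 0 57 13 5 35) (.lf 0 130 3 127) (.lf 3 127 7 123)))) (.a 1172 (.lf .inf) 
(.z 1327 (.lf .inf) (.lf (.thr (.lm 7 62 0 68 13 5 24) (.lf 0 131 5 126) (.lf 5 118 7 115)))))) 
(.a 1222 (.y 1633 (.lf (.thr (.lm 6 39 0 44 11 5 35) (.lf 0 130 3 127) (.lf 3 127 6 124))) 
(.z 1327 (.lf (.thr (.lm 6 39 0 44 11 5 24) (.pot 0) (.lf 5 126 6 124))) 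
(.lf (.thr (.lm 6 50 0 55 11 5 24) (.lf 0 131 5 126) (.lf 5 126 6 124))))) (.y 1633 (.z 1327 
(.a 1235 (.lf (.thr (.lm 5 33 0 37 8 5 18) (.pot 0) (.pot 0))) 
(.lf (.thr (.lm 4 26 0 31 7 5 18) (.pot 0) (.pot 0)))) 
(.lf (.thr (.lm 5 37 0 42 8 5 25) (.lf 0 131 3 127) (.pot 0)))) (.z 1327 (.a 1235 
(.lf (.thr (.lm 5 33 0 37 8 5 18) (.pot 0) (.pot 0))) 
(.lf (.thr (.lm 4 26 0 31 7 5 18) (.pot 0) (.pot 0)))) (.a 1235 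
(.lf (.thr (.lm 5 44 0 48 8 5 18) (.lf 0 131 5 126) (.lf 5 126 5 125))) 
(.lf (.thr (.lm 4 37 0 42 7 5 18) (.lf 0 131 5 126) (.lf 5 126 4 126)))))))) (.a 1197 
(.lf .inf) (.a 1222 (.lf .inf) (.y 1684 (.z 1327 (.lf .inf) 
(.lf (.thr (.lm 5 37 0 42 8 5 25) (.pot 0) (.lf 6 124 5 126)))) (.lf .inf)))))) (.y 1608 
(.a 1299 (.y 1557 (.lf .inf) (.a 1273 
(.lf (.thr (.lm 3 13 0 19 5 5 35) (.lf 0 104 1 103) (.pot 0))) (.lf .inf))) (.lf .inf)) 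
(.a 1299 (.y 1659 (.a 1273 (.y 1633 (.z 1327 
(.lf (.thr (.lm 3 13 0 19 5 5 24) (.pot 0) (.pot 0))) 
(.lf (.thr (.lm 3 25 0 29 5 5 24) (.lf 0 131 3 127) (.pot 0)))) (.z 1327 
(.lf (.thr (.lm 3 13 0 19 5 5 24) (.pot 0) (.pot 0))) (.y 1646 
(.lf (.thr (.lm 3 25 0 29 5 5 24) (.lf 0 131 4 126) (.pot 0))) (.a 1260 
(.lf (.thr (.lm 4 31 0 36 5 5 18) (.pot 0) (.pot 0))) 
(.lf (.thr (.lm 3 25 0 29 5 5 18) (.pot 0) (.pot 0))))))) (.y 1633 (.z 1327 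
(.lf (.thr (.lm 2 0 0 6 5 5 24) (.pot 0) (.pot 1))) 
(.lf (.thr (.lm 2 12 0 16 5 5 25) (.lf 0 131 3 127) (.pot 0)))) (.z 1327 
(.lf (.thr (.lm 2 0 0 6 5 5 24) (.pot 0) (.pot 1))) 
(.lf (.thr (.lm 2 12 0 16 5 5 25) (.pot 0) (.pot 0)))))) (.a 1273 (.y 1684 (.z 1327 
(.lf (.thr (.lm 3 13 0 19 5 5 24) (.pot 0) (.pot 0))) (.a 1260 
(.lf (.thr (.lm 4 31 0 36 5 5 18) (.pot 0) (.pot 0))) 
(.lf (.thr (.lm 3 25 0 29 5 5 18) (.pot 0) (.pot 0))))) (.lf .inf)) (.y 1684 (.z 1327 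
(.lf (.thr (.lm 2 0 0 6 5 5 24) (.pot 1) (.pot 0))) 
(.lf (.thr (.lm 2 12 0 16 5 5 25) (.pot 0) (.pot 0)))) (.z 1327 (.lf .inf) 
(.lf (.thr (.lm 2 12 0 16 5 5 25) (.pot 0) (.pot 0))))))) (.y 1659 (.a 1324 (.y 1633 (.lf .inf) 
(.lf (.thr (.lm 1 0 0 0 5 5 26) (.pot 1) (.pot 1)))) (.lf .inf)) 
(.lf (.thr (.lm 0 0 0 0 5 5 26) (.pot 1) (.pot 1)))))))))

theorem h1 : chk (leafT PP TD0 0 2) c1 0 32 945 1350 1305 1350 1305 1710 = true := by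
  decide +kernel

def c2 : Tree :=
  (.a 1192 (.y 1552 (.a 1091 (.y 1451 (.a 1040 (.y 1400 
(.lf (.thr (.pot 1) (.lm 0 0 0 0 5 5 25) (.pot 1))) (.y 1425 (.a 1015 (.z 1372 
(.lf (.thr (.pot 0) (.lm 0 14 0 14 5 5 24) (.pot 0))) (.lf .inf)) (.z 1372 
(.lf (.thr (.pot 0) (.lm 0 14 0 14 5 5 24) (.pot 0))) 
(.lf (.thr (.pot 1) (.lm 0 2 0 3 5 5 24) (.pot 0))))) (.a 1015 (.lf .inf) (.z 1372 (.y 1438 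
(.lf (.thr (.pot 0) (.lm 0 26 0 27 5 5 18) (.pot 0))) 
(.lf (.thr (.pot 0) (.lm 0 33 0 33 5 5 18) (.pot 0)))) 
(.lf (.thr (.pot 0) (.lm 0 15 0 15 5 5 25) (.pot 0))))))) (.y 1400 (.a 1065 
(.lf (.thr (.pot 1) (.lm 0 0 0 0 5 5 25) (.pot 1))) (.lf .inf)) (.a 1065 (.y 1425 (.z 1372 
(.lf (.thr (.pot 0) (.lm 0 14 0 14 5 5 24) (.pot 0))) 
(.lf (.thr (.pot 0) (.lm 0 2 0 3 5 5 24) (.pot 1)))) (.z 1372 (.y 1438 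
(.lf (.thr (.pot 0) (.lm 0 26 0 27 5 5 18) (.pot 0))) 
(.lf (.thr (.pot 0) (.lm 0 33 0 33 5 5 18) (.pot 0)))) 
(.lf (.thr (.pot 0) (.lm 0 15 0 15 5 5 25) (.pot 0))))) (.y 1425 (.z 1372 
(.lf (.thr (.lf 10 121 0 131) (.lm 0 14 0 14 5 5 24) (.pot 0))) 
(.lf (.thr (.pot 0) (.lm 0 2 0 3 5 5 24) (.pot 1)))) (.z 1372 
(.lf (.thr (.lf 10 121 0 131) (.lm 0 26 0 27 5 5 24) (.pot 0))) 
(.lf (.thr (.pot 0) (.lm 0 15 0 15 5 5 25) (.pot 0)))))))) (.a 1040 (.lf .inf) (.y 1501 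
(.a 1065 (.y 1476 (.z 1372 (.a 1052 (.y 1463 
(.lf (.thr (.pot 0) (.lm 0 39 0 40 5 5 17) (.pot 0))) 
(.lf (.thr (.pot 0) (.lm 0 45 0 46 5 5 18) (.lf 0 131 9 121)))) (.y 1463 
(.lf (.thr (.pot 0) (.lm 0 39 0 40 5 5 17) (.pot 0))) 
(.lf (.thr (.lf 10 121 0 131) (.lm 0 45 0 46 5 5 18) (.lf 0 131 10 121))))) (.a 1052 (.y 1463 
(.lf (.thr (.pot 0) (.lm 0 28 0 28 5 5 18) (.pot 0))) (.lf .inf)) (.y 1463 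
(.lf (.thr (.pot 0) (.lm 0 28 0 28 5 5 18) (.pot 0))) 
(.lf (.thr (.pot 0) (.lm 0 34 0 34 5 5 18) (.pot 0)))))) (.z 1372 
(.lf (.thr (.lf 10 121 0 131) (.lm 0 52 0 52 5 5 24) (.lf 0 131 10 121))) 
(.lf (.thr (.pot 0) (.lm 0 40 0 41 5 5 24) (.lf 0 131 10 121))))) (.y 1476 (.z 1372 
(.lf (.thr (.lf 10 121 0 131) (.lm 0 39 0 40 5 5 24) (.pot 0))) (.a 1078 (.y 1463 
(.lf (.thr (.pot 0) (.lm 0 28 0 28 5 5 18) (.pot 0))) 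
(.lf (.thr (.pot 0) (.lm 0 34 0 34 5 5 18) (.pot 0)))) 
(.lf (.thr (.lf 10 121 0 131) (.lm 0 28 0 28 5 5 24) (.pot 0))))) (.z 1372 
(.lf (.thr (.lf 10 121 0 131) (.lm 0 52 0 52 5 5 24) (.lf 0 131 10 121))) (.a 1078 (.y 1488 
(.z 1383 (.lf (.thr (.pot 0) (.lm 0 46 0 47 5 5 12) (.pot 0))) 
(.lf (.thr (.pot 0) (.lm 0 40 0 41 5 5 12) (.pot 0)))) 
(.lf (.thr (.lf 10 121 0 131) (.lm 0 46 0 47 5 5 18) (.lf 0 131 10 121)))) (.y 1488 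
(.lf (.thr (.lf 10 121 0 131) (.lm 0 40 0 41 5 5 18) (.pot 0))) 
(.lf (.thr (.lf 10 121 0 131) (.lm 0 46 0 47 5 5 18) (.lf 0 131 10 121)))))))) 
(.lf (.thr (.lf 10 121 0 131) (.lm 0 53 0 53 5 5 48) (.lf 0 108 10 100)))))) (.y 1451 (.a 1141 
(.y 1400 (.lf .inf) (.y 1425 (.lf .inf) 
(.lf (.thr (.lf 9 100 0 109) (.lm 0 15 0 15 5 5 36) (.pot 0))))) (.lf .inf)) (.a 1141 (.y 1501 
(.a 1116 (.y 1476 (.lf (.thr (.lf 10 112 0 122) (.lm 0 28 0 28 5 5 35) (.pot 0))) 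
(.lf (.thr (.lf 10 112 0 122) (.lm 0 40 0 41 5 5 35) (.pot 0)))) 
(.lf (.thr (.lf 9 100 0 109) (.lm 0 28 0 28 5 5 48) (.pot 0)))) 
(.lf (.thr (.lf 9 100 0 109) (.lm 0 53 0 53 5 5 48) (.lf 0 131 9 121)))) (.y 1501 
(.lf (.thr (.lf 8 76 0 82) (.lm 0 28 0 28 5 5 48) (.pot 0))) 
(.lf (.thr (.lf 8 76 0 82) (.lm 0 53 0 53 5 5 48) (.pot 0))))))) (.y 1653 (.a 1091 (.a 1040 
(.lf .inf) (.y 1602 (.lf (.thr (.lf 10 121 0 131) (.lf 0 79 1 78) (.lf 1 83 10 75))) (.lf .inf))) 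
(.a 1141 (.lf (.thr (.lf 9 100 0 109) (.lf 0 80 2 77) (.lf 2 82 9 76))) 
(.lf (.thr (.lf 8 76 0 82) (.lf 0 80 2 77) (.lf 2 106 8 102))))) (.a 1091 (.lf .inf) (.y 1704 
(.a 1141 (.lf .inf) (.a 1166 (.lf .inf) 
(.lf (.thr (.lm 7 76 0 82 14 5 36) (.lf 0 131 6 124) (.lf 6 91 7 91))))) (.lf .inf))))) 
(.y 1552 (.a 1293 (.y 1451 (.lf .inf) (.a 1242 
(.lf (.thr (.lm 6 51 0 57 12 5 48) (.lm 0 28 0 28 5 6 73) (.pot 0))) (.lf .inf))) (.lf .inf)) 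
(.a 1293 (.y 1653 (.a 1242 
(.lf (.thr (.lm 6 51 0 57 12 5 48) (.lf 0 80 2 77) (.lf 2 128 6 125))) (.y 1602 
(.lf (.thr (.lm 3 27 0 30 6 5 48) (.lf 0 79 1 78) (.pot 0))) (.a 1267 
(.lf (.thr (.lm 4 40 0 43 6 5 35) (.lf 0 105 4 102) (.pot 0))) 
(.lf (.thr (.lm 2 27 0 30 5 5 36) (.lf 0 105 4 102) (.pot 0)))))) (.y 1704 (.a 1242 (.y 1678 
(.lf (.thr (.lm 6 51 0 57 12 5 48) (.lf 0 131 6 125) (.lf 6 117 6 117))) (.a 1217 (.lf .inf) 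
(.lf (.thr (.lm 5 52 0 56 9 5 35) (.lf 0 131 7 124) (.lf 7 116 5 117))))) (.a 1267 
(.lf (.thr (.lm 4 40 0 43 6 5 35) (.lf 0 131 6 124) (.lf 6 124 4 127))) (.y 1678 (.z 1372 
(.a 1280 (.lf (.thr (.lm 3 34 0 36 5 5 18) (.pot 0) (.pot 0))) 
(.lf (.thr (.lm 2 27 0 30 5 5 18) (.pot 0) (.pot 0)))) 
(.lf (.thr (.lm 2 38 0 41 5 5 25) (.lf 0 131 6 125) (.pot 0)))) (.z 1372 (.a 1280 
(.lf (.thr (.lm 3 34 0 36 5 5 18) (.pot 0) (.pot 0))) 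
(.lf (.thr (.lm 2 27 0 30 5 5 18) (.pot 0) (.pot 0)))) (.a 1280 
(.lf (.thr (.lm 3 45 0 47 5 5 18) (.lf 0 131 7 124) (.lf 7 124 3 128))) (.y 1691 
(.lf (.thr (.lm 2 38 0 41 5 5 18) (.lf 0 131 7 124) (.pot 0))) (.z 1383 
(.lf (.thr (.lm 2 38 0 41 5 5 12) (.pot 0) (.pot 0))) 
(.lf (.thr (.lm 2 44 0 46 5 5 13) (.pot 0) (.pot 0)))))))))) (.a 1242 (.lf .inf) (.a 1267 
(.lf .inf) (.y 1729 (.z 1372 (.lf .inf) 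
(.lf (.thr (.lm 2 38 0 41 5 5 25) (.pot 0) (.lf 8 122 2 128)))) (.lf .inf)))))) (.y 1653 
(.a 1344 (.y 1602 (.lf .inf) (.a 1318 
(.lf (.thr (.lm 1 15 0 17 5 5 35) (.lf 0 105 4 102) (.pot 0))) (.lf .inf))) (.lf .inf)) 
(.a 1344 (.y 1704 (.a 1318 (.y 1678 (.z 1372 
(.lf (.thr (.lm 1 15 0 17 5 5 24) (.pot 0) (.pot 0))) 
(.lf (.thr (.lm 1 26 0 28 5 5 24) (.lf 0 131 6 125) (.pot 0)))) (.z 1372 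
(.lf (.thr (.lm 1 15 0 17 5 5 24) (.pot 0) (.pot 0))) (.y 1691 
(.lf (.thr (.lm 1 26 0 28 5 5 24) (.lf 0 131 7 124) (.pot 0))) (.a 1305 
(.lf (.thr (.lm 1 33 0 34 5 5 18) (.pot 0) (.pot 0))) 
(.lf (.thr (.lm 1 26 0 28 5 5 18) (.pot 0) (.pot 0))))))) (.y 1678 (.z 1372 
(.lf (.thr (.lm 0 2 0 4 5 5 24) (.pot 0) (.pot 1))) 
(.lf (.thr (.lm 0 14 0 14 5 5 25) (.lf 0 131 6 125) (.pot 0)))) (.z 1372 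
(.lf (.thr (.lm 0 2 0 4 5 5 24) (.pot 0) (.pot 1))) 
(.lf (.thr (.lm 0 14 0 14 5 5 25) (.pot 0) (.pot 0)))))) (.a 1318 (.y 1729 (.z 1372 
(.lf (.thr (.lm 1 15 0 17 5 5 24) (.pot 0) (.pot 0))) (.a 1305 
(.lf (.thr (.lm 1 33 0 34 5 5 18) (.pot 0) (.pot 0))) 
(.lf (.thr (.lm 1 26 0 28 5 5 18) (.pot 0) (.pot 0))))) (.lf .inf)) (.y 1729 (.z 1372 
(.lf (.thr (.lm 0 2 0 4 5 5 24) (.pot 1) (.pot 0))) 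
(.lf (.thr (.lm 0 14 0 14 5 5 25) (.pot 0) (.pot 0)))) (.z 1372 (.lf .inf) 
(.lf (.thr (.lm 0 14 0 14 5 5 25) (.pot 0) (.pot 0))))))) (.y 1704 (.a 1369 (.y 1678 (.lf .inf) 
(.lf (.thr (.lm 0 0 0 0 5 5 26) (.pot 1) (.pot 1)))) (.lf .inf)) 
(.lf (.thr (.lm 0 0 0 0 5 5 26) (.pot 1) (.pot 1)))))))))

theorem h2 : chk (leafT PP TD0 0 2) c2 0 32 990 1395 1350 1395 1350 1755 = true := by
  decide +kernel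

def c3 : Tree :=
  (.a 1237 (.y 1597 (.a 1136 (.y 1496 (.a 1085 (.y 1445 
(.lf (.thr (.pot 1) (.lm 0 0 0 0 5 5 25) (.pot 1))) (.y 1470 (.a 1060 (.z 1417 
(.lf (.thr (.pot 0) (.lm 0 14 0 14 5 5 24) (.pot 0))) (.lf .inf)) (.z 1417 
(.lf (.thr (.pot 0) (.lm 0 14 0 14 5 5 24) (.pot 0))) 
(.lf (.thr (.pot 1) (.lm 0 2 0 3 5 5 24) (.pot 0))))) (.a 1060 (.lf .inf) (.z 1417 (.y 1483 
(.lf (.thr (.pot 0) (.lm 0 26 0 27 5 5 18) (.pot 0))) 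
(.lf (.thr (.pot 0) (.lm 0 33 0 33 5 5 18) (.pot 0)))) 
(.lf (.thr (.pot 0) (.lm 0 15 0 15 5 5 25) (.pot 0))))))) (.y 1445 (.a 1110 
(.lf (.thr (.pot 1) (.lm 0 0 0 0 5 5 25) (.pot 1))) (.lf .inf)) (.a 1110 (.y 1470 (.z 1417 
(.lf (.thr (.pot 0) (.lm 0 14 0 14 5 5 24) (.pot 0))) 
(.lf (.thr (.pot 0) (.lm 0 2 0 3 5 5 24) (.pot 1)))) (.z 1417 (.y 1483 
(.lf (.thr (.pot 0) (.lm 0 26 0 27 5 5 18) (.pot 0))) 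
(.lf (.thr (.pot 0) (.lm 0 33 0 33 5 5 18) (.pot 0)))) 
(.lf (.thr (.pot 0) (.lm 0 15 0 15 5 5 25) (.pot 0))))) (.y 1470 (.z 1417 
(.lf (.thr (.lf 9 121 0 131) (.lm 0 14 0 14 5 5 24) (.pot 0))) 
(.lf (.thr (.pot 0) (.lm 0 2 0 3 5 5 24) (.pot 1)))) (.z 1417 
(.lf (.thr (.lf 9 121 0 131) (.lm 0 26 0 27 5 5 24) (.pot 0))) 
(.lf (.thr (.pot 0) (.lm 0 15 0 15 5 5 25) (.pot 0)))))))) (.a 1085 (.lf .inf) (.y 1546 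
(.a 1110 (.y 1521 (.z 1417 (.a 1097 (.y 1508 
(.lf (.thr (.pot 0) (.lm 0 39 0 40 5 5 17) (.pot 0))) 
(.lf (.thr (.pot 0) (.lm 0 45 0 46 5 5 18) (.lf 0 131 10 121)))) (.y 1508 
(.lf (.thr (.pot 0) (.lm 0 39 0 40 5 5 17) (.pot 0))) 
(.lf (.thr (.lf 10 121 0 131) (.lm 0 45 0 46 5 5 18) (.lf 0 131 10 121))))) (.a 1097 (.y 1508 
(.lf (.thr (.pot 0) (.lm 0 28 0 28 5 5 18) (.pot 0))) (.lf .inf)) (.y 1508 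
(.lf (.thr (.pot 0) (.lm 0 28 0 28 5 5 18) (.pot 0))) 
(.lf (.thr (.pot 0) (.lm 0 34 0 34 5 5 18) (.pot 0)))))) (.z 1417 
(.lf (.thr (.lf 10 121 0 131) (.lm 0 52 0 52 5 5 24) (.lf 0 131 10 121))) 
(.lf (.thr (.pot 0) (.lm 0 40 0 41 5 5 24) (.lf 0 131 10 121))))) (.y 1521 (.z 1417 
(.lf (.thr (.lf 9 121 0 131) (.lm 0 39 0 40 5 5 24) (.pot 0))) (.a 1123 (.y 1508 
(.lf (.thr (.pot 0) (.lm 0 28 0 28 5 5 18) (.pot 0))) 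
(.lf (.thr (.pot 0) (.lm 0 34 0 34 5 5 18) (.pot 0)))) 
(.lf (.thr (.lf 9 121 0 131) (.lm 0 28 0 28 5 5 24) (.pot 0))))) (.z 1417 
(.lf (.thr (.lf 9 121 0 131) (.lm 0 52 0 52 5 5 24) (.lf 0 131 9 121))) (.a 1123 (.y 1533 
(.z 1428 (.lf (.thr (.pot 0) (.lm 0 46 0 47 5 5 12) (.pot 0))) 
(.lf (.thr (.pot 0) (.lm 0 40 0 41 5 5 12) (.pot 0)))) 
(.lf (.thr (.pot 0) (.lm 0 46 0 47 5 5 18) (.lf 0 131 9 121)))) (.y 1533 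
(.lf (.thr (.lf 9 121 0 131) (.lm 0 40 0 41 5 5 18) (.pot 0))) 
(.lf (.thr (.lf 9 121 0 131) (.lm 0 46 0 47 5 5 18) (.lf 0 131 9 121)))))))) 
(.lf (.thr (.lf 10 121 0 131) (.lm 0 54 1 52 5 5 48) (.lf 1 108 10 100)))))) (.y 1496 (.a 1186 
(.y 1445 (.lf .inf) (.y 1470 (.lf .inf) 
(.lf (.thr (.lf 8 101 0 108) (.lm 0 15 0 15 5 5 36) (.pot 0))))) (.lf .inf)) (.a 1186 (.y 1546 
(.a 1161 (.y 1521 (.lf (.thr (.lf 9 113 0 121) (.lm 0 28 0 28 5 5 35) (.pot 0))) 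
(.lf (.thr (.lf 9 113 0 121) (.lm 0 40 0 41 5 5 35) (.pot 0)))) 
(.lf (.thr (.lf 8 101 0 108) (.lm 0 28 0 28 5 5 48) (.pot 0)))) 
(.lf (.thr (.lf 8 101 0 108) (.lm 0 54 1 52 5 5 48) (.lf 1 130 8 122)))) (.y 1546 
(.lf (.thr (.lf 6 76 0 82) (.lm 0 28 0 28 5 5 48) (.pot 0))) 
(.lf (.thr (.lf 6 76 0 82) (.lm 0 54 1 52 5 5 48) (.pot 0))))))) (.y 1698 (.a 1136 (.a 1085 
(.lf .inf) (.y 1647 (.lf (.thr (.lf 10 121 0 131) (.lf 0 80 3 77) (.lf 3 82 10 76))) (.lf .inf))) 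
(.a 1186 (.lf (.thr (.lf 8 101 0 108) (.lf 0 81 5 76) (.lf 5 80 8 78))) 
(.lf (.thr (.lf 6 76 0 82) (.lf 0 81 5 76) (.lf 5 104 6 104))))) (.a 1136 (.lf .inf) (.y 1749 
(.a 1186 (.lf .inf) (.lf (.thr (.lf 6 76 0 82) (.lf 0 131 8 122) (.lf 8 77 6 80)))) (.lf .inf))))) 
(.y 1597 (.a 1338 (.y 1496 (.lf .inf) (.a 1287 
(.lf (.thr (.lm 3 53 0 55 7 5 48) (.lm 0 28 0 28 5 6 73) (.pot 0))) (.lf .inf))) (.lf .inf)) 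
(.a 1338 (.y 1698 (.a 1287 
(.lf (.thr (.lm 3 53 0 55 7 5 48) (.lf 0 81 5 76) (.lf 5 126 3 127))) (.y 1647 
(.lf (.thr (.lm 1 28 0 29 5 5 48) (.lf 0 80 3 77) (.pot 0))) (.a 1312 
(.lf (.thr (.lm 1 41 0 42 5 5 35) (.lf 0 106 6 101) (.pot 0))) 
(.lf (.thr (.lm 0 28 0 29 5 5 36) (.lf 0 106 6 101) (.pot 0)))))) (.y 1749 (.a 1287 
(.lf (.thr (.lm 3 53 0 55 7 5 48) (.lf 0 131 8 122) (.lf 8 102 3 106))) (.a 1312 (.y 1723 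
(.lf (.thr (.lm 1 41 0 42 5 5 35) (.lf 0 131 8 123) (.lf 8 123 1 129))) (.z 1417 
(.lf (.thr (.lm 1 41 0 42 5 5 24) (.pot 0) (.lf 9 122 1 129))) 
(.lf (.thr (.lm 1 52 0 53 5 5 24) (.lf 0 131 9 122) (.lf 9 122 1 129))))) (.y 1723 (.z 1417 
(.a 1325 (.lf (.thr (.lm 0 35 0 35 5 5 18) (.pot 0) (.pot 0))) 
(.lf (.thr (.lm 0 28 0 29 5 5 18) (.pot 0) (.pot 0)))) 
(.lf (.thr (.lm 0 39 0 40 5 5 25) (.lf 0 131 8 123) (.pot 0)))) (.z 1417 (.a 1325 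
(.lf (.thr (.lm 0 35 0 35 5 5 18) (.pot 0) (.pot 0))) 
(.lf (.thr (.lm 0 28 0 29 5 5 18) (.pot 0) (.pot 0)))) (.a 1325 
(.lf (.thr (.lm 0 46 0 46 5 5 18) (.lf 0 131 9 122) (.lf 9 122 0 130))) (.y 1736 
(.lf (.thr (.lm 0 39 0 40 5 5 18) (.lf 0 131 9 122) (.pot 0))) (.z 1428 
(.lf (.thr (.lm 0 39 0 40 5 5 12) (.pot 0) (.pot 0))) 
(.lf (.thr (.lm 0 45 0 45 5 5 13) (.pot 0) (.pot 0)))))))))) (.a 1287 (.lf .inf) (.a 1312 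
(.lf .inf) (.y 1774 (.z 1417 (.lf .inf) 
(.lf (.thr (.lm 0 39 0 40 5 5 25) (.pot 0) (.lf 9 121 0 130)))) (.lf .inf)))))) (.y 1698 
(.a 1389 (.y 1647 (.lf .inf) (.a 1363 
(.lf (.thr (.lm 0 16 0 16 5 5 35) (.lf 0 106 6 101) (.pot 0))) (.lf .inf))) (.lf .inf)) 
(.a 1389 (.y 1749 (.a 1363 (.y 1723 (.z 1417 
(.lf (.thr (.lm 0 16 0 16 5 5 24) (.pot 0) (.pot 0))) 
(.lf (.thr (.lm 0 27 0 27 5 5 24) (.lf 0 131 8 123) (.pot 0)))) (.z 1417 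
(.lf (.thr (.lm 0 16 0 16 5 5 24) (.pot 0) (.pot 0))) (.y 1736 
(.lf (.thr (.lm 0 27 0 27 5 5 24) (.pot 0) (.pot 1))) (.a 1350 
(.lf (.thr (.lm 0 33 0 34 5 5 18) (.pot 0) (.pot 0))) 
(.lf (.thr (.lm 0 27 0 27 5 5 18) (.pot 0) (.pot 0))))))) (.y 1723 (.z 1417 
(.lf (.thr (.lm 0 3 0 3 5 5 24) (.pot 0) (.pot 1))) 
(.lf (.thr (.lm 0 14 0 14 5 5 25) (.lf 0 131 8 123) (.pot 0)))) (.z 1417 
(.lf (.thr (.lm 0 3 0 3 5 5 24) (.pot 0) (.pot 1))) 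
(.lf (.thr (.lm 0 14 0 14 5 5 25) (.pot 0) (.pot 0)))))) (.a 1363 (.y 1774 (.z 1417 
(.lf (.thr (.lm 0 16 0 16 5 5 24) (.pot 0) (.pot 0))) (.a 1350 
(.lf (.thr (.lm 0 33 0 34 5 5 18) (.pot 0) (.pot 0))) 
(.lf (.thr (.lm 0 27 0 27 5 5 18) (.pot 0) (.pot 0))))) (.lf .inf)) (.y 1774 (.z 1417 
(.lf (.thr (.lm 0 3 0 3 5 5 24) (.pot 1) (.pot 0))) 
(.lf (.thr (.lm 0 14 0 14 5 5 25) (.pot 0) (.pot 0)))) (.z 1417 (.lf .inf) 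
(.lf (.thr (.lm 0 14 0 14 5 5 25) (.pot 0) (.pot 0))))))) (.y 1749 (.a 1414 (.y 1723 (.lf .inf) 
(.lf (.thr (.lm 0 0 0 0 5 5 26) (.pot 1) (.pot 1)))) (.lf .inf)) 
(.lf (.thr (.lm 0 0 0 0 5 5 26) (.pot 1) (.pot 1)))))))))

theorem h3 : chk (leafT PP TD0 0 2) c3 0 32 1035 1440 1395 1440 1395 1800 = true := by
  decide +kernel

theorem q12 : ∃ T : Tree, chk (leafT PP TD0 0 2) T 0 32 900 1305 1260 1305 1260 1665 = true :=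
  ⟨_, h0⟩

theorem q13 : ∃ T : Tree, chk (leafT PP TD0 0 2) T 0 32 945 1350 1305 1350 1305 1710 = true :=
  ⟨_, h1⟩

theorem q14 : ∃ T : Tree, chk (leafT PP TD0 0 2) T 0 32 990 1395 1350 1395 1350 1755 = true :=
  ⟨_, h2⟩

theorem q15 : ∃ T : Tree, chk (leafT PP TD0 0 2) T 0 32 1035 1440 1395 1440 1395 1800 = true :=
  ⟨_, h3⟩

end Pool.Agent.Helper58.LDD.T03
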