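import Pool.Agent.Helper58.LD.Comb
import Pool.Agent.Helper58.LDD.Tab

set_option autoImplicit false

namespace Pool.Agent.Helper58.LDD.T10

open Pool.Agent.Helper58.LD Pool.Agent.Helper58.LDD

set_option maxRecDepth 100000

def c0 : Tree :=
  (.lf (.low 1))

theorem h0 : chk (leafT PP TD1 32 2) c0 32 64 360 765 720 765 720 1125 = true := by
  decide +kernel

def c1 : Tree :=
  (.lf (.low 1))

theorem h1 : chk (leafT PP TD1 32 2) c1 32 64 405 810 765 810 765 1170 = true := by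
  decide +kernel

def c2 : Tree :=
  (.lf (.low 1))

theorem h2 : chk (leafT PP TD1 32 2) c2 32 64 450 855 810 855 810 1215 = true := by
  decide +kernel

def c3 : Tree :=
  (.a 697 (.y 1057 (.a 596 (.y 956 (.a 545 (.y 905 
(.lf (.thr (.pot 1) (.lm 0 0 0 0 5 5 25) (.pot 1))) (.y 930 (.a 520 (.z 877 
(.lf (.thr (.pot 0) (.lm 0 19 5 9 2 9 24) (.pot 0))) (.lf .inf)) (.z 877 
(.lf (.thr (.pot 0) (.lm 0 19 5 9 2 9 24) (.pot 0))) 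
(.lf (.thr (.pot 1) (.lm 0 5 5 0 4 9 24) (.pot 0))))) (.a 520 (.lf .inf) (.z 877 
(.lf (.thr (.pot 0) (.lm 0 33 9 20 2 14 24) (.pot 0))) 
(.lf (.thr (.pot 1) (.lm 0 25 9 5 4 14 25) (.pot 0))))))) (.y 905 (.a 570 
(.lf (.thr (.pot 1) (.lm 0 0 0 0 5 5 25) (.pot 1))) (.lf .inf)) (.a 570 (.y 930 (.z 877 
(.lf (.thr (.pot 0) (.lm 0 19 5 9 2 9 24) (.pot 0))) 
(.lf (.thr (.pot 0) (.lm 0 5 5 0 4 9 24) (.pot 1)))) (.z 877 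
(.lf (.thr (.pot 0) (.lm 0 33 9 20 2 14 24) (.pot 0))) 
(.lf (.thr (.pot 1) (.lm 0 25 9 5 4 14 25) (.pot 1))))) (.y 930 (.z 877 
(.lf (.thr (.lf 0 129 0 130) (.lm 0 19 5 9 2 9 24) (.pot 0))) 
(.lf (.thr (.pot 0) (.lm 0 5 5 0 4 9 24) (.pot 1)))) (.z 877 
(.lf (.thr (.lf 0 129 0 130) (.lm 0 33 9 20 2 14 24) (.pot 0))) 
(.lf (.thr (.pot 0) (.lm 0 25 9 5 4 14 25) (.pot 1)))))))) (.a 545 (.lf .inf) (.y 1006 (.a 570 
(.y 981 (.z 877 (.a 557 (.y 968 (.lf (.thr (.pot 0) (.lm 0 46 12 33 2 17 17) (.pot 0))) 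
(.lf (.thr (.lf 0 130 0 131) (.lm 0 53 14 38 2 19 18) (.lf 14 117 0 130)))) 
(.lf (.thr (.lf 0 131 0 131) (.lm 0 47 13 32 2 19 24) (.pot 0)))) (.a 557 (.y 968 
(.lf (.thr (.pot 0) (.lm 0 36 12 20 4 17 18) (.pot 0))) (.lf .inf)) (.y 968 
(.lf (.thr (.pot 0) (.lm 0 36 12 20 4 17 18) (.pot 0))) (.z 888 
(.lf (.thr (.pot 0) (.lm 0 48 14 32 3 19 12) (.pot 0))) 
(.lf (.thr (.pot 0) (.lm 1 42 14 26 4 19 13) (.pot 0))))))) (.z 877 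
(.lf (.thr (.lf 0 131 0 131) (.lm 0 60 16 44 2 24 24) (.lf 16 114 0 131))) (.a 557 (.lf .inf) 
(.y 993 (.z 888 (.lf (.thr (.lf 0 131 0 131) (.lm 0 54 16 39 3 21 12) (.lf 16 115 0 131))) 
(.lf .inf)) (.lf .inf))))) (.y 981 (.z 877 
(.lf (.thr (.lf 0 129 0 130) (.lm 0 47 13 32 2 19 24) (.pot 0))) (.a 583 (.y 968 
(.lf (.thr (.pot 0) (.lm 0 36 12 20 4 17 18) (.pot 0))) (.z 888 
(.lf (.thr (.pot 0) (.lm 0 48 14 32 3 19 12) (.pot 0))) 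
(.lf (.thr (.pot 0) (.lm 1 42 14 26 4 19 13) (.pot 0))))) (.lf (.low 0)))) (.z 877 
(.lf (.thr (.lf 0 129 0 130) (.lm 0 60 16 44 2 24 24) (.pot 0))) (.a 583 (.y 993 (.z 888 
(.lf (.thr (.lf 0 131 0 131) (.lm 0 54 16 39 3 21 12) (.pot 0))) (.t 48 (.a 576 (.z 894 
(.lf (.thr (.lf 0 131 1 129) (.lm 1 50 14 37 3 17 9) (.pot 0))) (.lf .inf)) (.lf (.low 0))) 
(.lf (.low 0)))) (.z 888 
(.lf (.thr (.lf 0 131 0 131) (.lm 0 61 17 44 3 24 12) (.lf 17 114 0 131))) (.t 48 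
(.lf (.thr (.lf 0 131 2 129) (.lm 2 53 15 40 4 19 13) (.lf 15 116 0 131))) (.lf (.low 0))))) 
(.lf (.low 0)))))) (.a 570 (.lf .inf) (.y 1031 (.z 877 
(.lf (.thr (.lf 0 129 0 130) (.lm 0 73 19 56 2 27 24) (.lf 19 112 0 131))) (.a 583 (.y 1018 
(.lf (.thr (.lf 0 131 0 130) (.lm 0 62 19 44 4 25 18) (.lf 19 112 0 131))) (.lf .inf)) 
(.lf (.low 0)))) (.z 877 
(.lf (.thr (.lf 0 129 0 130) (.lm 0 87 21 67 2 29 24) (.lf 21 106 0 127))) 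
(.lf (.thr (.lf 0 131 0 130) (.lm 0 75 21 56 4 29 25) (.lf 21 106 0 127))))))))) (.y 956 
(.a 646 (.lf (.low 0)) (.lf .inf)) (.a 646 (.lf (.low 0)) (.lf (.low 0))))) (.y 1158 (.a 596 
(.a 545 (.lf .inf) (.y 1107 (.a 570 (.lf .inf) (.y 1082 
(.lf (.thr (.lf 0 129 0 130) (.lf 0 89 22 68) (.lf 22 93 0 115))) (.lf .inf))) (.lf .inf))) 
(.a 646 (.lf (.low 0)) (.lf (.low 0)))) (.a 596 (.lf .inf) (.y 1209 (.a 646 (.lf .inf) 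
(.lf (.low 0))) (.lf .inf))))) (.y 1057 (.a 798 (.lf (.low 0)) (.lf .inf)) (.a 798 
(.lf (.low 0)) (.y 1158 (.a 849 (.lf (.low 0)) (.lf .inf)) (.a 849 (.lf (.low 0)) (.y 1209 
(.a 874 (.y 1183 (.lf .inf) (.lf (.thr (.lm 0 0 0 0 1 5 26) (.pot 1) (.pot 1)))) (.lf .inf)) 
(.lf (.thr (.lm 0 0 0 0 5 5 26) (.pot 1) (.pot 1)))))))))

theorem h3 : chk (leafT PP TD1 32 2) c3 32 64 495 900 855 900 855 1260 = true := by
  decide +kernel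

theorem q0 : ∃ T : Tree, chk (leafT PP TD1 32 2) T 32 64 360 765 720 765 720 1125 = true :=
  ⟨_, h0⟩

theorem q1 : ∃ T : Tree, chk (leafT PP TD1 32 2) T 32 64 405 810 765 810 765 1170 = true :=
  ⟨_, h1⟩

theorem q2 : ∃ T : Tree, chk (leafT PP TD1 32 2) T 32 64 450 855 810 855 810 1215 = true :=
  ⟨_, h2⟩

theorem q3 : ∃ T : Tree, chk (leafT PP TD1 32 2) T 32 64 495 900 855 900 855 1260 = true :=
  ⟨_, h3⟩

end Pool.Agent.Helper58.LDD.T10
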