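import Pool.Agent.Helper58.LD.Comb
import Pool.Agent.Helper58.LDD.Tab

set_option autoImplicit false

namespace Pool.Agent.Helper58.LDD.T11

open Pool.Agent.Helper58.LD Pool.Agent.Helper58.LDD

set_option maxRecDepth 100000

def c0 : Tree :=
  (.a 742 (.y 1102 (.a 641 (.y 1001 (.a 590 (.y 950 (.a 565 (.y 925 (.z 922 (.a 552 (.y 912 
(.z 911 (.t 48 (.a 546 (.y 906 (.z 905 (.lf (.thr (.pot 1) (.lm 3 0 3 0 4 4 3) (.pot 1))) 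
(.t 40 (.a 543 (.lf .inf) (.z 908 (.y 903 (.lf .inf) 
(.lf (.thr (.pot 1) (.lm 3 0 3 0 5 4 1) (.pot 1)))) (.lf .inf))) (.a 543 (.lf .inf) (.z 908 
(.y 903 (.lf .inf) (.lf (.thr (.pot 1) (.lm 3 0 3 0 4 4 1) (.pot 1)))) (.lf .inf))))) 
(.lf (.thr (.pot 1) (.lm 3 0 4 0 5 5 6) (.pot 1)))) (.y 906 (.z 905 
(.lf (.thr (.pot 1) (.lm 3 0 3 0 4 4 3) (.pot 1))) (.t 40 (.a 549 (.z 908 (.y 903 (.lf .inf) 
(.lf (.thr (.pot 1) (.lm 3 0 3 0 5 4 1) (.pot 1)))) (.lf .inf)) (.lf .inf)) (.a 549 (.z 908 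
(.y 903 (.lf .inf) (.lf (.thr (.pot 1) (.lm 3 0 3 0 4 4 1) (.pot 1)))) (.lf .inf)) (.lf .inf)))) 
(.lf (.thr (.pot 1) (.lm 3 0 4 0 5 5 6) (.pot 1))))) (.a 546 (.y 906 (.z 905 
(.lf (.thr (.pot 1) (.lm 2 0 2 0 4 4 3) (.pot 1))) (.t 56 (.a 543 (.lf .inf) (.z 908 (.y 903 
(.lf .inf) (.lf (.thr (.pot 1) (.lm 3 0 2 0 4 4 1) (.pot 1)))) (.lf .inf))) (.a 543 (.lf .inf) 
(.z 908 (.y 903 (.lf .inf) (.lf (.thr (.pot 1) (.lm 2 0 2 0 4 3 1) (.pot 1)))) (.lf .inf))))) 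
(.lf (.thr (.pot 1) (.lm 2 0 3 0 5 5 6) (.pot 1)))) (.y 906 (.z 905 
(.lf (.thr (.pot 1) (.lm 2 0 2 0 4 4 3) (.pot 1))) (.t 56 (.a 549 (.z 908 (.y 903 (.lf .inf) 
(.lf (.thr (.pot 1) (.lm 3 0 2 0 4 4 1) (.pot 1)))) (.lf .inf)) (.lf .inf)) (.a 549 (.z 908 
(.y 903 (.lf .inf) (.lf (.thr (.pot 1) (.lm 2 0 2 0 4 3 1) (.pot 1)))) (.lf .inf)) (.lf .inf)))) 
(.lf (.thr (.pot 1) (.lm 2 0 3 0 5 5 6) (.pot 1)))))) (.t 48 (.a 546 (.lf .inf) (.y 906 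
(.lf .inf) (.z 916 (.t 40 (.a 549 (.lf .inf) (.y 909 (.lf .inf) (.z 913 
(.lf (.thr (.pot 1) (.lm 4 0 4 0 5 5 1) (.pot 1))) (.lf .inf)))) (.a 549 (.lf .inf) (.y 909 
(.lf .inf) (.z 913 (.lf (.thr (.pot 1) (.lm 4 0 4 0 5 5 1) (.pot 1))) (.lf .inf))))) (.lf .inf)))) 
(.a 546 (.lf .inf) (.y 906 (.lf .inf) (.z 916 (.t 56 (.a 549 (.lf .inf) (.y 909 (.lf .inf) 
(.z 913 (.lf (.thr (.pot 1) (.lm 4 0 3 0 5 5 1) (.pot 1))) (.lf .inf)))) (.a 549 (.lf .inf) 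
(.lf (.low 0)))) (.lf .inf)))))) (.lf (.thr (.pot 1) (.lm 4 0 5 0 7 7 13) (.pot 1)))) (.y 912 
(.z 911 (.t 48 (.a 558 (.y 906 (.lf .inf) (.lf (.thr (.pot 1) (.lm 3 0 4 0 5 5 6) (.pot 1)))) 
(.lf .inf)) (.a 558 (.y 906 (.lf .inf) (.lf (.thr (.pot 1) (.lm 2 0 3 0 5 5 6) (.pot 1)))) 
(.lf .inf))) (.t 48 (.a 558 (.y 906 (.lf .inf) (.z 916 (.t 40 (.a 555 (.y 909 (.lf .inf) 
(.z 913 (.lf (.thr (.pot 1) (.lm 4 0 4 0 5 5 1) (.pot 1))) (.lf .inf))) (.lf .inf)) (.a 555 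
(.y 909 (.lf .inf) (.z 913 (.lf (.thr (.pot 1) (.lm 4 0 4 0 5 5 1) (.pot 1))) (.lf .inf))) 
(.lf .inf))) (.lf .inf))) (.lf .inf)) (.a 558 (.y 906 (.lf .inf) (.z 916 (.t 56 (.a 555 
(.y 909 (.lf .inf) (.z 913 (.lf (.thr (.pot 1) (.lm 4 0 3 0 5 5 1) (.pot 1))) (.lf .inf))) 
(.lf .inf)) (.lf (.low 0))) (.lf .inf))) (.lf .inf)))) 
(.lf (.thr (.pot 1) (.lm 4 0 5 0 7 7 13) (.pot 1))))) (.a 552 (.lf .inf) (.y 912 (.lf .inf) 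
(.z 933 (.t 48 (.a 558 (.lf .inf) (.y 918 (.lf .inf) (.z 927 (.t 40 (.a 561 (.lf .inf) (.y 921 
(.lf .inf) (.lf (.thr (.pot 1) (.lm 6 0 5 0 7 7 2) (.pot 1))))) (.a 561 (.lf .inf) (.y 921 
(.lf .inf) (.lf (.thr (.pot 1) (.lm 6 0 6 0 7 7 2) (.pot 1)))))) (.lf .inf)))) (.a 558 
(.lf .inf) (.lf (.low 0)))) (.lf .inf))))) (.z 922 
(.lf (.thr (.pot 1) (.lm 4 3 8 0 7 13 24) (.pot 1))) 
(.lf (.thr (.pot 1) (.lm 7 0 8 0 12 13 14) (.pot 1))))) (.y 925 (.z 922 (.a 577 (.y 912 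
(.lf .inf) (.lf (.thr (.pot 1) (.lm 4 0 5 0 7 7 13) (.pot 1)))) (.lf .inf)) (.a 577 (.y 912 
(.lf .inf) (.z 933 (.t 48 (.y 918 (.lf .inf) (.a 571 (.z 927 (.t 40 (.y 921 (.lf .inf) 
(.lf (.thr (.pot 1) (.lm 6 0 5 0 7 7 2) (.pot 1)))) (.lf (.low 0))) (.lf .inf)) (.lf .inf))) 
(.lf (.low 0))) (.lf .inf))) (.lf .inf))) (.z 922 
(.lf (.thr (.pot 1) (.lm 4 3 8 0 7 13 24) (.pot 1))) 
(.lf (.thr (.pot 1) (.lm 7 0 8 0 12 13 14) (.pot 1)))))) (.y 975 (.a 565 (.z 922 (.a 552 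
(.lf .inf) (.y 962 (.lf (.thr (.pot 0) (.lm 4 23 11 5 7 15 17) (.pot 0))) (.lf .inf))) 
(.lf .inf)) (.z 922 (.a 577 (.y 962 (.lf (.thr (.pot 0) (.lm 4 23 11 5 7 15 17) (.pot 0))) 
(.lf (.thr (.pot 1) (.lm 4 29 13 11 7 18 18) (.pot 0)))) (.lf (.low 0))) (.a 577 (.y 962 
(.lf (.thr (.pot 1) (.lm 7 5 11 0 12 15 18) (.pot 1))) (.lf .inf)) (.lf (.low 0))))) (.a 565 
(.lf .inf) (.z 922 (.y 988 (.a 577 (.lf .inf) (.lf (.low 0))) (.a 577 (.lf .inf) (.lf (.low 0)))) 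
(.y 988 (.a 577 (.lf .inf) (.lf (.low 0))) (.lf .inf)))))) (.lf (.low 0))) (.a 590 (.lf .inf) 
(.lf (.low 0)))) (.lf (.low 0))) (.y 1203 (.a 641 (.a 590 (.lf .inf) (.lf (.low 0))) 
(.lf (.low 0))) (.a 641 (.lf .inf) (.lf (.low 0))))) (.y 1102 (.a 843 (.y 1001 (.lf .inf) 
(.a 792 (.lf (.low 0)) (.lf .inf))) (.lf .inf)) (.a 843 (.y 1203 (.a 792 (.lf (.low 0)) 
(.lf (.low 0))) (.y 1254 (.a 792 (.lf (.low 0)) (.lf (.low 0))) (.a 792 (.lf .inf) 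
(.lf (.low 0))))) (.y 1203 (.a 894 (.y 1152 (.lf .inf) (.a 868 
(.lf (.thr (.lm 0 22 6 10 1 12 35) (.lf 6 108 15 99) (.pot 0))) (.lf .inf))) (.lf .inf)) 
(.a 894 (.y 1254 (.a 868 (.y 1228 (.z 922 (.lf (.thr (.lm 0 20 4 12 1 7 24) (.pot 0) (.pot 0))) 
(.lf (.thr (.lm 0 32 7 22 1 12 24) (.lf 7 123 9 121) (.pot 0)))) (.z 922 
(.lf (.thr (.lm 0 20 4 12 1 7 24) (.pot 0) (.pot 0))) 
(.lf (.thr (.lm 0 32 7 22 1 12 24) (.pot 0) (.pot 0))))) (.y 1228 (.z 922 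
(.lf (.thr (.lm 0 6 4 0 4 7 24) (.pot 0) (.pot 1))) 
(.lf (.thr (.lm 0 23 7 5 4 12 25) (.lf 7 123 9 121) (.pot 0)))) (.z 922 
(.lf (.thr (.lm 0 6 4 0 4 7 24) (.pot 1) (.pot 0))) 
(.lf (.thr (.lm 0 23 7 5 4 12 25) (.pot 0) (.pot 0)))))) (.a 868 (.y 1279 (.z 922 
(.lf (.thr (.lm 0 20 4 12 1 7 24) (.pot 0) (.pot 0))) 
(.lf (.thr (.lm 0 32 7 22 1 12 24) (.pot 0) (.pot 0)))) (.lf .inf)) (.y 1279 (.z 922 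
(.lf (.thr (.lm 0 6 4 0 4 7 24) (.pot 1) (.pot 0))) 
(.lf (.thr (.lm 0 23 7 5 4 12 25) (.pot 0) (.pot 0)))) (.z 922 (.lf .inf) 
(.lf (.thr (.lm 0 23 7 5 4 12 25) (.pot 0) (.pot 0))))))) (.y 1254 (.a 919 (.y 1228 (.lf .inf) 
(.z 922 (.y 1241 (.lf .inf) (.a 906 (.lf (.thr (.lm 2 0 4 0 5 7 14) (.pot 1) (.pot 1))) 
(.lf .inf))) (.lf (.thr (.lm 3 3 7 0 6 12 24) (.pot 0) (.pot 1))))) (.lf .inf)) (.a 919 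
(.y 1279 (.z 922 (.a 906 (.lf (.thr (.lm 2 0 4 0 5 7 14) (.pot 1) (.pot 1))) (.y 1266 (.z 911 
(.t 48 (.a 912 (.y 1260 (.lf .inf) (.z 905 (.lf .inf) (.t 40 (.a 909 
(.lf (.thr (.lm 3 0 4 0 5 5 3) (.pot 1) (.pot 1))) (.lf .inf)) (.a 909 
(.lf (.thr (.lm 3 0 3 0 5 5 3) (.pot 1) (.pot 1))) (.lf .inf))))) (.lf .inf)) (.a 912 (.y 1260 
(.lf .inf) (.z 905 (.lf .inf) (.t 56 (.a 909 (.lf (.thr (.lm 3 0 3 0 4 5 3) (.pot 1) (.pot 1))) 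
(.lf .inf)) (.a 909 (.lf (.thr (.lm 2 0 2 0 4 4 3) (.pot 1) (.pot 1))) (.lf .inf))))) 
(.lf .inf))) (.lf (.thr (.lm 4 0 5 0 6 7 8) (.pot 1) (.pot 1)))) (.z 911 (.t 48 (.a 912 
(.y 1272 (.z 905 (.lf .inf) (.t 40 (.a 909 (.lf (.thr (.lm 3 0 4 0 5 5 3) (.pot 1) (.pot 1))) 
(.z 908 (.lf .inf) (.lf (.thr (.lm 4 0 4 0 5 5 1) (.pot 1) (.pot 1))))) (.a 909 
(.lf (.thr (.lm 3 0 3 0 5 5 3) (.pot 1) (.pot 1))) (.z 908 (.lf .inf) 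
(.lf (.thr (.lm 4 0 4 0 5 5 1) (.pot 1) (.pot 1))))))) (.lf .inf)) (.lf .inf)) (.a 912 
(.y 1272 (.z 905 (.lf .inf) (.t 56 (.a 909 (.lf (.thr (.lm 3 0 3 0 4 5 3) (.pot 1) (.pot 1))) 
(.z 908 (.lf .inf) (.lf (.thr (.lm 3 0 3 0 5 5 1) (.pot 1) (.pot 1))))) (.a 909 
(.lf (.thr (.lm 2 0 2 0 4 4 3) (.pot 1) (.pot 1))) (.z 908 (.lf .inf) 
(.lf (.thr (.lm 3 0 3 0 5 4 1) (.pot 1) (.pot 1))))))) (.lf .inf)) (.lf .inf))) 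
(.lf (.thr (.lm 4 0 5 0 6 7 8) (.pot 1) (.pot 1)))))) 
(.lf (.thr (.lm 3 3 7 0 6 12 24) (.pot 1) (.pot 1)))) (.z 922 (.y 1292 (.a 906 (.lf .inf) 
(.z 911 (.lf .inf) (.lf (.thr (.lm 4 0 5 0 6 7 8) (.pot 1) (.pot 1))))) (.lf .inf)) 
(.lf (.thr (.lm 3 3 7 0 6 12 24) (.pot 1) (.pot 1))))) 
(.lf (.thr (.lm 7 0 6 0 12 12 13) (.pot 1) (.pot 1))))))))))

theorem h0 : chk (leafT PP TD1 32 2) c0 32 64 540 945 900 945 900 1305 = true := by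
  decide +kernel

def c1 : Tree :=
  (.a 787 (.y 1147 (.a 686 (.y 1046 (.a 635 (.lf (.low 0)) (.lf (.low 0))) (.a 635 (.lf .inf) 
(.lf (.low 0)))) (.lf (.low 0))) (.y 1248 (.a 686 (.a 635 (.lf .inf) (.lf (.low 0))) 
(.lf (.low 0))) (.a 686 (.lf .inf) (.lf (.low 0))))) (.y 1147 (.a 888 (.y 1046 (.lf .inf) 
(.a 837 (.lf (.low 0)) (.lf .inf))) (.lf .inf)) (.a 888 (.y 1248 (.a 837 (.lf (.low 0)) 
(.y 1197 (.a 862 (.lf (.low 0)) (.lf .inf)) (.a 862 (.lf (.low 0)) (.y 1222 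
(.lf (.thr (.lm 0 37 13 20 3 21 36) (.lf 13 102 10 105) (.pot 0))) (.z 967 
(.lf (.thr (.lm 0 36 11 21 3 17 24) (.lf 11 120 6 125) (.pot 0))) 
(.lf (.thr (.lm 0 47 14 32 3 21 25) (.lf 14 112 6 120) (.pot 0)))))))) (.y 1299 (.a 837 
(.lf (.low 0)) (.a 862 (.lf (.low 0)) (.y 1273 (.z 967 (.a 875 
(.lf (.thr (.lm 0 41 11 29 1 17 18) (.pot 0) (.pot 0))) 
(.lf (.thr (.lm 0 36 11 21 3 17 18) (.pot 0) (.pot 0)))) (.a 875 (.y 1260 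
(.lf (.thr (.lm 0 53 14 39 1 21 18) (.lf 14 116 3 128) (.pot 0))) 
(.lf (.thr (.lm 0 53 14 39 1 21 18) (.lf 14 116 1 130) (.pot 1)))) 
(.lf (.thr (.lm 0 47 14 32 3 21 18) (.lf 14 116 2 129) (.pot 0))))) (.z 967 (.a 875 
(.lf (.thr (.lm 0 41 11 29 1 17 18) (.pot 0) (.pot 0))) 
(.lf (.thr (.lm 0 36 11 21 3 17 18) (.pot 0) (.pot 0)))) (.a 875 
(.lf (.thr (.lm 0 53 14 39 1 21 18) (.lf 14 116 0 131) (.lf 0 131 0 131))) (.y 1286 (.z 978 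
(.lf (.thr (.lm 0 47 13 32 3 19 12) (.pot 0) (.pot 0))) (.t 48 
(.lf (.thr (.lm 0 52 13 38 3 17 13) (.lf 13 117 0 131) (.pot 1))) 
(.lf (.thr (.lm 0 54 17 36 1 21 13) (.lf 17 114 0 131) (.pot 1))))) 
(.lf (.thr (.lm 0 47 14 32 3 21 18) (.pot 0) (.lf 0 131 0 131))))))))) (.a 837 (.lf .inf) 
(.a 862 (.lf .inf) (.y 1324 (.lf (.low 2)) (.lf .inf)))))) (.y 1248 (.a 939 (.y 1197 (.lf .inf) 
(.a 913 (.y 1222 (.lf .inf) (.z 967 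
(.lf (.thr (.lm 2 26 11 6 6 17 24) (.lf 11 120 6 125) (.pot 1))) 
(.lf (.thr (.lm 2 36 14 18 6 21 24) (.lf 14 112 6 120) (.pot 0))))) (.lf .inf))) (.lf .inf)) 
(.a 939 (.y 1299 (.a 913 (.y 1273 (.z 967 (.a 900 
(.lf (.thr (.lm 1 31 11 14 4 17 17) (.pot 0) (.pot 0))) 
(.lf (.thr (.lm 3 25 11 7 5 17 18) (.pot 0) (.pot 0)))) (.a 900 
(.lf (.thr (.lm 1 42 14 25 4 21 18) (.lf 14 116 2 129) (.pot 0))) 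
(.lf (.thr (.lm 3 36 14 18 5 21 18) (.lf 14 116 2 129) (.pot 1))))) (.z 967 (.y 1286 (.a 900 
(.lf (.thr (.lm 1 31 11 14 4 17 17) (.pot 0) (.pot 0))) 
(.lf (.thr (.lm 3 25 11 7 5 17 18) (.pot 0) (.pot 0)))) (.a 900 
(.lf (.thr (.lm 1 31 11 14 4 17 17) (.pot 0) (.pot 0))) 
(.lf (.thr (.lm 3 25 11 7 5 17 18) (.pot 0) (.pot 0))))) (.y 1286 (.a 900 (.z 978 
(.lf (.thr (.lm 1 41 13 26 4 19 12) (.pot 0) (.pot 0))) 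
(.lf (.thr (.lm 1 47 15 31 4 21 12) (.lf 15 116 0 131) (.pot 1)))) (.z 978 
(.lf (.thr (.lm 3 35 13 19 5 19 12) (.pot 0) (.pot 0))) 
(.lf (.thr (.lm 3 40 15 25 5 21 13) (.lf 15 116 0 131) (.pot 1))))) (.a 900 (.z 978 
(.lf (.thr (.lm 1 41 13 26 4 19 12) (.pot 0) (.pot 0))) (.t 48 (.y 1292 (.a 894 
(.lf (.thr (.lm 1 48 13 36 3 17 9) (.lf 13 117 0 131) (.pot 1))) 
(.lf (.thr (.lm 2 45 13 33 4 17 9) (.pot 0) (.pot 1)))) (.lf (.low 2))) (.lf (.low 2)))) 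
(.z 978 (.lf (.thr (.lm 3 35 13 19 5 19 12) (.pot 0) (.pot 0))) (.t 48 (.a 906 
(.lf (.thr (.lm 3 42 13 30 4 17 9) (.pot 0) (.pot 1))) 
(.lf (.thr (.lm 4 39 13 26 5 17 10) (.pot 0) (.pot 1)))) (.lf (.low 2)))))))) (.y 1273 (.z 967 
(.a 926 (.lf (.thr (.lm 5 19 11 0 7 17 18) (.pot 0) (.pot 1))) (.lf .inf)) (.a 926 
(.lf (.thr (.lm 5 30 14 11 7 21 18) (.lf 14 116 2 129) (.pot 1))) (.lf .inf))) (.z 967 (.a 926 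
(.lf (.thr (.lm 5 19 11 0 7 17 18) (.pot 0) (.pot 1))) 
(.lf (.thr (.lm 7 6 11 0 10 17 18) (.pot 1) (.pot 1)))) (.a 926 (.y 1286 (.z 978 
(.lf (.thr (.lm 5 29 13 12 7 19 12) (.pot 0) (.pot 1))) 
(.lf (.thr (.lm 5 34 15 18 7 21 13) (.lf 15 116 0 131) (.pot 1)))) (.z 978 
(.lf (.thr (.lm 5 29 13 12 7 19 12) (.pot 0) (.pot 1))) (.t 48 
(.lf (.thr (.lm 5 32 13 20 7 17 13) (.pot 1) (.pot 1))) (.lf (.low 2))))) (.y 1286 (.z 978 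
(.lf (.thr (.lm 7 23 13 5 10 19 12) (.pot 0) (.pot 1))) 
(.lf (.thr (.lm 7 28 15 11 10 21 13) (.lf 15 116 0 131) (.pot 1)))) (.z 978 
(.lf (.thr (.lm 7 23 13 5 10 19 12) (.pot 0) (.pot 1))) (.t 48 
(.lf (.thr (.lm 7 26 13 13 9 17 13) (.pot 0) (.pot 1))) (.lf (.low 2))))))))) (.a 913 (.y 1324 
(.lf (.low 2)) (.lf .inf)) (.y 1324 (.lf (.low 2)) (.lf (.low 2))))) (.y 1299 (.a 964 (.y 1273 
(.lf .inf) (.z 967 (.y 1286 (.lf .inf) (.a 951 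
(.lf (.thr (.lm 9 0 11 0 13 17 14) (.pot 1) (.pot 1))) (.lf .inf))) (.y 1286 (.lf .inf) 
(.a 951 (.z 978 (.lf (.thr (.lm 9 16 13 0 13 19 12) (.pot 1) (.pot 1))) (.t 48 
(.lf (.thr (.lm 8 21 13 6 11 17 12) (.pot 0) (.pot 1))) (.lf (.low 2)))) (.lf .inf))))) 
(.lf .inf)) (.a 964 (.y 1324 (.lf (.low 2)) (.lf (.low 2))) (.y 1324 (.lf (.low 2)) 
(.lf (.low 2))))))))))

theorem h1 : chk (leafT PP TD1 32 2) c1 32 64 585 990 945 990 945 1350 = true := by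
  decide +kernel

def c2 : Tree :=
  (.a 832 (.y 1192 (.a 731 (.lf (.low 0)) (.lf (.low 0))) (.y 1293 (.a 731 (.lf (.low 0)) 
(.lf (.low 0))) (.a 731 (.lf .inf) (.lf (.low 0))))) (.y 1192 (.a 933 (.y 1091 (.lf .inf) 
(.a 882 (.y 1141 (.lf .inf) (.y 1166 (.lf .inf) 
(.lf (.thr (.lm 0 63 19 45 3 28 48) (.lm 19 64 15 67 28 22 36) (.pot 1))))) (.lf .inf))) 
(.lf .inf)) (.a 933 (.y 1293 (.a 882 (.y 1242 (.a 857 (.lf (.low 0)) (.y 1217 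
(.lf (.thr (.lm 0 63 19 45 2 28 35) (.lf 19 75 11 82) (.pot 0))) (.z 1012 
(.lf (.thr (.lm 0 62 17 46 2 25 24) (.lf 17 98 7 107) (.pot 0))) 
(.lf (.thr (.lm 0 74 20 56 2 28 24) (.lf 20 85 7 97) (.pot 1)))))) (.y 1267 (.a 857 
(.lf (.low 0)) (.z 1012 (.a 869 (.y 1254 
(.lf (.thr (.lm 0 69 17 52 1 25 17) (.lf 17 109 4 121) (.pot 0))) 
(.lf (.thr (.lm 0 69 17 52 1 25 17) (.lf 17 113 2 129) (.lf 2 129 0 131)))) 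
(.lf (.thr (.lm 0 62 17 46 2 25 18) (.lf 17 108 3 122) (.pot 1)))) (.a 869 (.y 1254 (.z 1023 
(.lf (.thr (.lm 0 80 19 63 1 26 12) (.lf 19 102 4 117) (.pot 0))) 
(.lf (.thr (.lm 0 86 20 68 1 27 12) (.lf 20 96 4 111) (.pot 1)))) 
(.lf (.thr (.lm 0 81 20 62 1 28 18) (.lf 20 101 2 118) (.lf 2 129 0 131)))) (.y 1254 
(.lf (.thr (.lm 0 74 20 56 2 28 18) (.lf 20 96 4 111) (.pot 0))) (.z 1023 
(.lf (.thr (.lm 0 74 19 56 2 26 12) (.lf 19 107 2 124) (.pot 0))) 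
(.lf (.thr (.lm 0 80 20 61 2 27 13) (.lf 20 101 2 118) (.pot 1)))))))) (.a 857 (.lf (.low 0)) 
(.z 1012 (.y 1280 (.a 869 
(.lf (.thr (.lm 0 69 17 52 1 25 17) (.lf 17 113 0 131) (.lf 0 131 0 131))) 
(.lf (.thr (.lm 0 62 17 46 2 25 18) (.lf 17 113 0 131) (.lf 0 131 0 131)))) 
(.lf (.thr (.lm 0 62 17 46 2 25 24) (.lf 17 113 0 131) (.lf 0 131 0 131)))) (.y 1280 
(.lf (.thr (.lm 0 74 20 56 2 28 24) (.lf 20 106 0 126) (.lf 0 131 0 131))) 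
(.lf (.thr (.lm 0 74 20 56 2 28 24) (.lf 20 111 0 131) (.lf 0 131 0 131)))))))) (.y 1242 
(.a 907 (.y 1217 (.lf .inf) (.lf (.thr (.lm 1 51 19 32 5 28 35) (.lf 19 86 7 96) (.pot 1)))) 
(.lf .inf)) (.a 907 (.y 1267 (.z 1012 (.a 894 
(.lf (.thr (.lm 0 57 17 39 3 25 17) (.lf 17 108 3 122) (.pot 0))) 
(.lf (.thr (.lm 2 50 17 33 5 25 18) (.lf 17 108 3 122) (.pot 0)))) (.a 894 
(.lf (.thr (.lm 0 68 20 50 3 28 18) (.lf 20 96 3 111) (.pot 1))) 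
(.lf (.thr (.lm 2 61 20 44 5 28 18) (.lf 20 96 3 111) (.pot 0))))) (.z 1012 (.y 1280 (.a 894 
(.z 1001 (.lf (.thr (.lm 0 56 17 40 3 23 12) (.lf 17 114 0 131) (.pot 0))) 
(.lf (.thr (.lm 0 62 18 45 3 25 12) (.lf 18 113 0 131) (.pot 0)))) 
(.lf (.thr (.lm 2 50 17 33 5 25 18) (.lf 17 113 0 131) (.pot 1)))) (.a 894 (.z 1001 (.t 48 
(.lf (.thr (.lm 1 55 15 41 3 18 12) (.lf 15 116 0 131) (.lf 0 131 1 130))) (.lf (.low 2))) 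
(.lf (.thr (.lm 0 62 18 45 3 25 12) (.lf 18 113 0 131) (.lf 0 131 0 130)))) (.z 1001 (.t 48 
(.lf (.thr (.lm 2 48 15 35 5 18 12) (.lf 15 116 0 131) (.pot 1))) (.lf (.low 2))) (.t 48 
(.lf (.thr (.lm 2 54 16 40 5 20 12) (.lf 16 115 0 131) (.pot 1))) (.lf (.low 2)))))) (.y 1280 
(.a 894 (.z 1023 (.lf (.thr (.lm 0 68 19 50 3 26 12) (.lf 19 112 0 131) (.pot 1))) 
(.lf (.thr (.lm 0 74 20 55 3 27 12) (.lf 20 106 0 126) (.pot 1)))) 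
(.lf (.thr (.lm 2 61 20 44 5 28 18) (.lf 20 106 0 126) (.pot 1)))) (.a 894 
(.lf (.thr (.lm 0 68 20 50 3 28 18) (.lf 20 111 0 131) (.lf 0 131 0 130))) (.z 1023 (.t 48 
(.lf (.thr (.lm 2 59 17 46 5 21 12) (.lf 17 114 0 131) (.pot 0))) (.lf (.low 2))) (.t 48 
(.lf (.thr (.lm 2 65 17 51 5 22 13) (.lf 17 113 0 131) (.pot 1))) (.lf (.low 2)))))))) 
(.y 1267 (.z 1012 (.lf (.thr (.lm 5 38 17 19 9 25 24) (.lf 17 108 3 122) (.pot 1))) 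
(.lf (.thr (.lm 5 48 20 31 9 28 25) (.lf 20 96 3 111) (.pot 1)))) (.z 1012 (.a 920 (.y 1280 
(.lf (.thr (.lm 4 43 17 27 6 25 18) (.lf 17 113 0 131) (.pot 1))) (.z 1001 
(.lf (.thr (.lm 4 43 17 27 6 23 12) (.lf 17 114 0 131) (.pot 1))) 
(.lf (.thr (.lm 4 49 18 32 6 25 12) (.lf 18 113 0 131) (.pot 1))))) (.y 1280 
(.lf (.thr (.lm 6 37 17 20 9 25 18) (.lf 17 113 0 131) (.pot 1))) (.z 1001 
(.lf (.thr (.lm 6 36 17 21 9 23 12) (.lf 17 114 0 131) (.pot 1))) 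
(.lf (.thr (.lm 6 42 18 26 9 25 12) (.lf 18 113 0 131) (.pot 1)))))) (.a 920 (.y 1280 
(.lf (.thr (.lm 4 55 20 37 6 28 18) (.lf 20 106 0 126) (.pot 1))) (.z 1023 
(.lf (.thr (.lm 4 54 19 38 6 26 12) (.lf 19 112 0 131) (.pot 1))) 
(.lf (.thr (.lm 4 60 20 43 6 27 13) (.lf 20 111 0 131) (.pot 1))))) 
(.lf (.thr (.lm 6 48 20 31 9 28 18) (.lf 20 106 0 126) (.pot 1))))))))) (.y 1344 (.a 882 
(.lf (.thr (.lm 0 63 19 45 3 28 48) (.lf 19 112 0 131) (.lf 0 104 0 104))) (.a 907 (.y 1318 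
(.z 1012 (.a 894 (.lf (.thr (.lm 0 57 17 39 3 25 17) (.lf 17 113 0 131) (.lf 0 131 0 130))) 
(.y 1305 (.z 1001 (.t 48 (.lf (.low 2)) (.lf (.low 2))) (.t 48 (.lf (.low 2)) (.lf (.low 2)))) 
(.lf (.low 2)))) (.a 894 
(.lf (.thr (.lm 0 68 20 50 3 28 18) (.lf 20 111 0 131) (.lf 0 131 0 130))) (.y 1305 (.z 1023 
(.t 48 (.lf (.low 2)) (.lf (.low 2))) 
(.lf (.thr (.lm 2 67 20 49 5 27 13) (.lf 20 111 0 131) (.lf 0 131 2 129)))) (.lf (.low 2))))) 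
(.lf (.low 2))) (.y 1318 (.z 1012 (.a 920 (.y 1305 (.z 1001 (.t 48 (.lf (.low 2)) 
(.lf (.low 2))) (.t 48 (.lf (.low 2)) (.lf (.low 2)))) (.lf (.low 2))) (.y 1305 (.z 1001 
(.t 48 (.lf (.low 2)) (.lf (.low 2))) (.t 48 (.lf (.low 2)) (.lf (.low 2)))) (.lf (.low 2)))) 
(.a 920 (.y 1305 (.z 1023 (.t 48 (.lf (.low 2)) (.lf (.low 2))) (.t 48 (.lf (.low 2)) 
(.lf (.low 2)))) (.lf (.low 2))) (.y 1305 (.z 1023 (.t 48 (.lf (.low 2)) (.lf (.low 2))) 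
(.t 48 (.lf (.low 2)) (.lf (.low 2)))) (.lf (.low 2))))) (.lf (.low 2))))) (.lf (.low 2)))) 
(.y 1293 (.a 984 (.y 1242 (.lf .inf) (.a 958 (.y 1267 (.lf .inf) (.z 1012 (.y 1280 (.lf .inf) 
(.a 945 (.z 1001 (.lf (.thr (.lm 8 30 17 15 12 23 12) (.lf 17 114 0 131) (.pot 1))) 
(.lf (.thr (.lm 8 36 18 20 12 25 12) (.lf 18 113 0 131) (.pot 1)))) (.lf .inf))) (.y 1280 
(.lf .inf) (.a 945 (.lf (.thr (.lm 8 42 20 25 12 28 18) (.lf 20 111 0 131) (.pot 1))) 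
(.lf .inf))))) (.lf .inf))) (.lf .inf)) (.a 984 (.y 1344 (.a 958 (.y 1318 (.z 1012 (.a 945 
(.y 1305 (.z 1001 (.t 48 (.lf (.low 2)) (.lf (.low 2))) (.t 48 (.lf (.low 2)) (.lf (.low 2)))) 
(.lf (.low 2))) (.y 1305 (.z 1001 (.t 48 (.lf (.low 2)) (.lf (.low 2))) (.t 48 (.lf (.low 2)) 
(.lf (.low 2)))) (.lf (.low 2)))) (.a 945 (.y 1305 (.z 1023 (.t 48 (.lf (.low 2)) 
(.lf (.low 2))) (.lf (.thr (.lm 8 47 20 31 12 27 12) (.lf 20 111 0 131) (.pot 1)))) 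
(.lf (.low 2))) (.y 1305 (.lf (.thr (.lm 10 35 20 19 15 28 18) (.lf 20 111 0 131) (.pot 1))) 
(.lf (.low 2))))) (.lf (.low 2))) (.y 1318 (.z 1012 (.a 971 (.y 1305 (.lf .inf) (.lf (.low 2))) 
(.lf .inf)) (.a 971 (.y 1305 (.lf .inf) (.lf (.low 2))) (.lf .inf))) (.lf (.low 2)))) 
(.lf (.low 2))) (.y 1344 (.a 1009 (.y 1318 (.lf .inf) (.lf (.low 2))) (.lf .inf)) 
(.lf (.low 2))))))))

theorem h2 : chk (leafT PP TD1 32 2) c2 32 64 630 1035 990 1035 990 1395 = true := by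
  decide +kernel

def c3 : Tree :=
  (.a 877 (.y 1237 (.a 776 (.lf (.low 0)) (.y 1136 (.a 826 (.lf (.low 0)) (.lf .inf)) (.a 826 
(.lf (.low 0)) (.y 1186 (.a 851 (.lf (.low 0)) (.lf .inf)) (.a 851 (.lf (.low 0)) (.y 1211 
(.lf (.thr (.lm 0 89 22 69 2 30 36) (.lm 22 48 12 58 30 18 35) (.pot 1))) (.z 1057 (.a 864 
(.lf (.low 0)) (.lf (.thr (.lm 0 89 21 69 2 29 18) (.lm 21 71 8 83 29 13 24) (.pot 0)))) 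
(.a 864 (.lf (.low 0)) 
(.lf (.thr (.lm 0 100 22 80 2 30 18) (.lm 22 58 8 73 30 13 25) (.pot 1))))))))))) (.y 1338 
(.a 776 (.lf (.low 0)) (.a 826 (.lf (.low 0)) (.y 1287 (.a 851 (.lf (.low 0)) (.y 1262 
(.z 1057 (.a 864 (.lf (.low 0)) (.y 1249 
(.lf (.thr (.lm 0 89 21 69 2 29 18) (.lm 21 82 5 98 29 7 17) (.pot 1))) (.z 1046 (.t 48 
(.lf (.thr (.lm 0 87 18 71 1 22 12) (.lm 18 95 3 108 22 5 12) (.pot 0))) (.lf (.low 0))) 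
(.t 48 (.lf (.thr (.lm 0 93 19 76 1 23 12) (.lm 19 89 3 103 23 5 12) (.pot 0))) (.lf (.low 0)))))) 
(.a 864 (.lf (.low 0)) (.y 1249 
(.lf (.thr (.lm 0 100 22 80 2 30 18) (.lm 22 70 5 87 30 7 18) (.pot 1))) (.z 1068 (.t 48 
(.lf (.thr (.lm 0 99 19 81 1 23 12) (.lm 19 83 3 98 23 5 12) (.pot 0))) (.lf (.low 0))) (.t 48 
(.lf (.thr (.lm 0 104 19 87 1 23 13) (.lm 19 77 3 92 23 5 13) (.pot 0))) (.lf (.low 0))))))) 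
(.z 1057 (.lf (.thr (.lm 0 89 21 69 2 29 24) (.lf 21 92 0 113) (.lf 0 131 0 131))) 
(.lf (.thr (.lm 0 100 22 80 2 30 25) (.lf 22 81 0 101) (.lf 0 131 0 131)))))) 
(.lf (.thr (.lf 0 89 22 69) (.lf 22 93 0 114) (.lf 0 104 0 104)))))) (.lf (.low 2)))) (.y 1237 
(.a 978 (.y 1136 (.lf .inf) (.a 927 (.y 1186 (.lf .inf) (.y 1211 (.lf .inf) (.a 902 
(.lf (.thr (.lm 0 77 22 56 4 30 35) (.lm 22 59 8 72 30 13 36) (.pot 1))) (.lf .inf)))) 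
(.lf .inf))) (.lf .inf)) (.a 978 (.y 1338 (.a 927 (.y 1287 (.a 902 (.y 1262 (.z 1057 (.a 889 
(.lf (.thr (.lm 0 83 21 63 3 29 17) (.lf 21 82 4 98) (.pot 1))) 
(.lf (.thr (.lm 1 76 21 57 4 29 18) (.lf 21 82 4 98) (.pot 0)))) (.a 889 (.y 1249 
(.lf (.thr (.lm 0 94 22 74 3 30 18) (.lm 22 70 5 87 30 7 18) (.pot 0))) 
(.lf (.thr (.lm 0 94 22 74 3 30 18) (.lm 22 76 3 93 30 5 18) (.pot 1)))) 
(.lf (.thr (.lm 1 87 22 68 4 30 18) (.lm 22 70 4 87 30 7 24) (.pot 1))))) (.z 1057 (.a 889 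
(.y 1274 (.z 1046 (.t 48 (.lf (.thr (.lm 0 81 18 65 3 22 12) (.lf 18 100 1 116) (.pot 0))) 
(.lf (.thr (.lm 0 84 24 62 1 28 12) (.lf 24 97 0 119) (.pot 0)))) (.t 48 
(.lf (.thr (.lm 0 87 19 70 3 23 12) (.lm 19 95 1 110 23 4 12) (.pot 0))) 
(.lf (.thr (.lm 0 90 25 67 1 29 12) (.lf 25 91 0 114) (.pot 0))))) 
(.lf (.thr (.lm 0 83 21 63 3 29 17) (.lf 21 98 0 119) (.lf 0 131 0 131)))) (.y 1274 
(.lf (.thr (.lm 1 76 21 57 4 29 18) (.lf 21 93 1 112) (.pot 1))) (.z 1046 (.t 48 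
(.lf (.thr (.lm 2 74 18 59 4 22 12) (.lf 18 105 0 123) (.pot 0))) 
(.lf (.thr (.lm 0 78 24 55 3 28 12) (.lf 24 102 0 126) (.pot 1)))) (.t 48 
(.lf (.thr (.lm 2 80 19 64 4 23 12) (.lf 19 100 0 117) (.pot 0))) 
(.lf (.thr (.lm 0 83 25 61 3 29 12) (.lf 25 97 0 120) (.pot 1))))))) (.a 889 (.y 1274 (.z 1068 
(.t 48 (.lf (.thr (.lm 0 92 19 76 3 23 12) (.lm 19 89 1 105 23 4 12) (.pot 0))) 
(.lf (.thr (.lm 0 96 25 72 1 29 12) (.lm 25 85 0 109 29 3 12) (.pot 1)))) (.t 48 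
(.lf (.thr (.lm 0 98 19 81 3 23 12) (.lm 19 83 1 99 23 4 12) (.pot 0))) 
(.lf (.thr (.lm 0 101 25 78 1 30 12) (.lm 25 79 0 103 30 3 12) (.pot 1))))) 
(.lf (.thr (.lm 0 94 22 74 3 30 18) (.lm 22 87 0 107 30 3 18) (.lf 0 131 0 131)))) (.y 1274 
(.lf (.thr (.lm 1 87 22 68 4 30 18) (.lm 22 81 1 101 30 4 18) (.pot 1))) (.z 1068 (.t 48 
(.lf (.thr (.lm 2 85 19 70 4 23 12) (.lm 19 94 0 112 23 2 12) (.pot 0))) 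
(.lf (.thr (.lm 0 89 25 66 3 29 12) (.lm 25 91 0 115 29 1 12) (.pot 1)))) (.t 48 
(.lf (.thr (.lm 2 91 19 75 4 23 13) (.lm 19 88 0 106 23 2 13) (.pot 0))) 
(.lf (.thr (.lm 0 95 25 71 3 30 13) (.lm 25 85 0 109 30 1 13) (.pot 1))))))))) (.y 1262 
(.lf (.thr (.lm 4 63 22 45 8 30 35) (.lf 22 70 4 87) (.pot 1))) (.z 1057 (.a 914 (.y 1274 
(.lf (.thr (.lm 3 69 21 52 6 29 17) (.lf 21 93 1 112) (.pot 0))) (.z 1046 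
(.lf (.thr (.lm 3 69 21 52 6 28 12) (.lf 21 104 0 124) (.pot 1))) 
(.lf (.thr (.lm 3 75 22 57 6 29 12) (.lf 22 98 0 119) (.pot 1))))) 
(.lf (.thr (.lm 5 62 21 46 8 29 18) (.lf 21 92 0 113) (.pot 1)))) (.a 914 (.y 1274 
(.lf (.thr (.lm 3 80 22 63 6 30 18) (.lm 22 81 1 101 30 4 18) (.pot 0))) 
(.lf (.thr (.lm 3 80 22 63 6 30 18) (.lm 22 87 0 107 30 3 18) (.pot 1)))) 
(.lf (.thr (.lm 5 73 22 57 8 30 18) (.lf 22 81 0 101) (.pot 0))))))) (.y 1312 (.a 902 (.z 1057 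
(.a 889 (.lf (.thr (.lm 0 83 21 63 3 29 17) (.lf 21 105 0 125) (.lf 0 131 0 131))) (.y 1299 
(.lf (.thr (.lm 1 76 21 57 4 29 18) (.lf 21 105 0 125) (.lf 0 131 1 129))) (.lf (.low 2)))) 
(.a 889 (.lf (.thr (.lm 0 94 22 74 3 30 18) (.lf 22 93 0 114) (.lf 0 131 0 131))) 
(.lf (.thr (.lm 1 87 22 68 4 30 18) (.lf 22 93 0 114) (.lf 0 131 1 129))))) (.z 1057 (.a 914 
(.y 1299 (.z 1046 (.t 48 (.lf (.thr (.lm 3 67 18 54 5 22 12) (.lf 18 111 0 130) (.pot 1))) 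
(.lf (.low 2))) (.t 48 (.lf (.thr (.lm 3 73 19 59 5 23 12) (.lf 19 106 0 124) (.pot 0))) 
(.lf (.low 2)))) (.lf (.low 2))) (.y 1299 (.z 1046 (.t 48 
(.lf (.thr (.lm 5 60 18 48 7 22 12) (.lf 18 111 0 130) (.pot 0))) (.lf (.low 2))) 
(.lf (.thr (.lm 5 68 22 51 8 29 12) (.lf 22 104 0 126) (.pot 1)))) (.lf (.low 2)))) (.a 914 
(.y 1299 (.z 1068 (.t 48 (.lf (.thr (.lm 3 79 19 64 5 23 12) (.lf 19 100 0 119) (.pot 0))) 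
(.lf (.low 2))) (.t 48 (.lf (.thr (.lm 3 84 19 70 5 23 12) (.lm 19 94 0 113 23 1 12) (.pot 0))) 
(.lf (.low 2)))) (.lf (.low 2))) (.y 1299 (.z 1068 
(.lf (.thr (.lm 5 73 22 57 8 30 12) (.lf 22 99 0 120) (.pot 1))) 
(.lf (.thr (.lm 5 79 22 62 8 30 13) (.lm 22 93 0 114 30 1 12) (.pot 1)))) (.lf (.low 2)))))) 
(.lf (.low 2)))) (.y 1287 (.a 952 (.y 1262 (.lf .inf) (.z 1057 
(.lf (.thr (.lm 8 49 21 34 13 29 24) (.lf 21 92 0 113) (.pot 1))) 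
(.lf (.thr (.lm 8 60 22 45 13 30 24) (.lf 22 81 0 101) (.pot 0))))) (.lf .inf)) (.a 952 
(.y 1312 (.z 1057 (.a 939 (.y 1299 
(.lf (.thr (.lm 7 56 21 40 10 29 17) (.lf 21 105 0 125) (.pot 1))) (.lf (.low 2))) (.y 1299 
(.lf (.thr (.lm 9 49 21 34 13 29 18) (.lf 21 105 0 125) (.pot 0))) (.lf (.low 2)))) (.a 939 
(.y 1299 (.lf (.thr (.lm 7 67 22 51 10 30 18) (.lf 22 93 0 114) (.pot 0))) (.lf (.low 2))) 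
(.lf (.thr (.lm 9 59 22 46 13 30 18) (.lf 22 93 0 114) (.pot 1))))) (.lf (.low 2))) (.y 1312 
(.z 1057 (.a 965 (.lf (.thr (.lm 11 42 21 28 16 29 18) (.lf 21 105 0 125) (.pot 1))) (.lf .inf)) 
(.lf (.thr (.lm 12 46 22 33 19 30 25) (.lf 22 93 0 114) (.pot 1)))) (.lf (.low 2)))))) 
(.lf (.low 2))) (.y 1338 (.a 1029 (.y 1287 (.lf .inf) (.a 1003 (.y 1312 (.lf .inf) 
(.lf (.low 2))) (.lf .inf))) (.lf .inf)) (.lf (.low 2))))))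

theorem h3 : chk (leafT PP TD1 32 2) c3 32 64 675 1080 1035 1080 1035 1440 = true := by
  decide +kernel

theorem q4 : ∃ T : Tree, chk (leafT PP TD1 32 2) T 32 64 540 945 900 945 900 1305 = true :=
  ⟨_, h0⟩

theorem q5 : ∃ T : Tree, chk (leafT PP TD1 32 2) T 32 64 585 990 945 990 945 1350 = true :=
  ⟨_, h1⟩

theorem q6 : ∃ T : Tree, chk (leafT PP TD1 32 2) T 32 64 630 1035 990 1035 990 1395 = true :=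
  ⟨_, h2⟩

theorem q7 : ∃ T : Tree, chk (leafT PP TD1 32 2) T 32 64 675 1080 1035 1080 1035 1440 = true :=
  ⟨_, h3⟩

end Pool.Agent.Helper58.LDD.T11
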