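import Pool.Agent.Helper58.LD.Comb
import Pool.Agent.Helper58.LDD.Tab

set_option autoImplicit false

namespace Pool.Agent.Helper58.LDD.T12

open Pool.Agent.Helper58.LD Pool.Agent.Helper58.LDD

set_option maxRecDepth 100000

def c0 : Tree :=
  (.a 922 (.y 1282 (.a 821 (.lf (.low 0)) (.y 1181 (.a 871 (.y 1130 (.lf .inf) (.y 1155 
(.lf .inf) (.a 846 (.lf (.low 0)) (.lf .inf)))) (.lf .inf)) (.a 871 (.y 1231 (.a 846 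
(.lf (.low 0)) (.y 1206 (.z 1102 
(.lf (.thr (.lf 0 115 22 94) (.lm 22 33 13 46 30 19 24) (.pot 1))) (.a 858 (.lf (.low 0)) 
(.lf .inf))) (.z 1102 (.a 858 (.lf (.low 0)) 
(.lf (.thr (.lf 0 115 22 94) (.lm 22 45 9 59 30 14 24) (.pot 1)))) (.a 858 (.lf (.low 0)) 
(.y 1218 (.lf (.thr (.lf 0 126 21 105) (.lm 21 33 10 48 29 14 18) (.pot 0))) 
(.lf (.thr (.lf 0 126 21 105) (.lm 21 39 8 54 29 11 18) (.pot 1)))))))) (.y 1256 (.a 846 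
(.lf (.low 0)) (.z 1102 (.a 858 (.lf (.low 0)) (.y 1243 (.z 1091 
(.lf (.thr (.lm 0 115 22 94 1 30 12) (.lm 22 62 6 78 30 8 12) (.pot 1))) 
(.lf (.thr (.lf 0 121 22 99) (.lm 22 57 6 72 30 8 12) (.pot 1)))) (.z 1091 (.t 48 
(.lf (.thr (.lm 0 114 19 95 1 23 12) (.lm 19 69 4 83 23 6 12) (.pot 1))) (.lf (.low 0))) 
(.t 48 (.lf (.thr (.lf 0 119 19 101) (.lm 19 64 4 77 23 6 12) (.pot 1))) (.lf (.low 0)))))) 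
(.a 858 (.lf (.low 0)) (.y 1243 (.z 1113 (.t 48 
(.lf (.thr (.lf 0 125 19 106) (.lm 19 53 5 65 23 8 12) (.pot 0))) (.lf (.low 0))) (.t 48 
(.lf (.thr (.lf 0 130 18 112) (.lm 18 47 5 59 22 8 12) (.pot 0))) (.lf (.low 0)))) (.z 1113 
(.t 48 (.lf (.thr (.lf 0 125 19 106) (.lm 19 58 4 72 23 6 12) (.pot 1))) (.lf (.low 0))) 
(.t 48 (.lf (.thr (.lf 0 130 18 112) (.lm 18 52 4 66 22 6 13) (.pot 1))) (.lf (.low 0)))))))) 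
(.a 846 (.lf (.low 0)) (.z 1102 (.y 1269 
(.lf (.thr (.lf 0 115 22 94) (.lm 22 68 1 86 30 4 18) (.lf 1 129 0 131))) 
(.lf (.thr (.lf 0 115 22 94) (.lm 22 73 0 94 30 3 18) (.lf 0 131 0 131)))) (.y 1269 (.a 858 
(.lf (.low 0)) (.lf (.thr (.lf 0 126 21 105) (.lm 21 56 1 75 29 4 18) (.lf 1 129 0 131)))) 
(.lf (.thr (.lf 0 126 21 105) (.lm 21 62 0 82 29 3 18) (.lf 0 131 0 131)))))))) (.y 1231 
(.a 896 (.y 1206 (.lf .inf) (.z 1102 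
(.lf (.thr (.lf 0 102 22 82) (.lm 22 45 9 59 30 14 24) (.pot 0))) 
(.lf (.thr (.lf 0 113 21 93) (.lm 21 33 9 48 29 14 24) (.pot 1))))) (.lf .inf)) (.a 896 
(.y 1256 (.z 1102 (.a 883 (.y 1243 
(.lf (.thr (.lm 0 109 22 88 2 30 17) (.lm 22 56 6 73 30 8 17) (.pot 0))) 
(.lf (.thr (.lm 0 109 22 88 2 30 17) (.lm 22 62 4 79 30 6 18) (.pot 1)))) 
(.lf (.thr (.lm 0 102 22 82 4 30 18) (.lm 22 56 5 73 30 8 24) (.pot 1)))) (.a 883 (.y 1243 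
(.lf (.thr (.lf 0 120 21 99) (.lm 21 45 6 61 29 8 18) (.pot 1))) (.z 1113 
(.lf (.thr (.lf 0 120 22 99) (.lm 22 56 4 74 29 6 12) (.pot 1))) 
(.lf (.thr (.lf 0 125 21 105) (.lm 21 50 4 68 28 6 13) (.pot 1))))) 
(.lf (.thr (.lf 0 113 21 93) (.lm 21 44 5 62 29 8 24) (.pot 1))))) (.z 1102 (.y 1269 (.a 883 
(.z 1091 (.t 48 (.lf (.thr (.lm 0 107 19 90 2 23 12) (.lm 19 75 2 90 23 4 12) (.pot 0))) 
(.lf (.low 0))) (.t 48 (.lf (.thr (.lm 0 113 19 95 2 23 12) (.lm 19 69 2 85 23 4 12) (.pot 0))) 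
(.lf (.low 0)))) (.lf (.thr (.lm 0 102 22 82 4 30 18) (.lm 22 68 1 86 30 4 18) (.pot 1)))) 
(.a 883 (.lf (.thr (.lm 0 109 22 88 2 30 17) (.lm 22 73 0 94 30 3 18) (.lf 0 131 0 131))) 
(.z 1091 (.t 48 (.lf (.thr (.lm 1 100 19 84 3 23 12) (.lm 19 81 0 97 23 3 12) (.pot 0))) 
(.lf (.thr (.lm 0 104 25 80 2 30 12) (.lm 25 77 0 101 30 1 12) (.pot 1)))) (.t 48 
(.lf (.thr (.lm 1 106 19 89 3 23 12) (.lm 19 75 0 92 23 3 12) (.pot 0))) 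
(.lf (.thr (.lm 0 109 25 86 2 29 12) (.lm 25 72 0 95 29 1 12) (.pot 1))))))) (.y 1269 (.a 883 
(.z 1113 (.t 48 (.lf (.thr (.lf 0 118 19 101) (.lm 19 64 2 79 23 4 12) (.pot 0))) 
(.lf (.low 0))) (.t 48 (.lf (.thr (.lf 0 124 18 106) (.lm 18 58 2 73 22 4 13) (.pot 0))) 
(.lf (.low 0)))) (.lf (.thr (.lf 0 113 21 93) (.lm 21 56 1 75 29 4 18) (.pot 1)))) (.a 883 
(.lf (.thr (.lf 0 120 21 99) (.lm 21 62 0 82 29 3 18) (.lf 0 131 0 131))) (.z 1113 (.t 48 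
(.lf (.thr (.lm 1 111 19 95 3 23 12) (.lm 19 70 0 86 23 3 12) (.pot 0))) 
(.lf (.thr (.lf 0 115 25 91) (.lm 25 66 0 90 29 1 12) (.pot 1)))) (.t 48 
(.lf (.thr (.lf 1 117 18 100) (.lm 18 64 0 80 22 3 13) (.pot 0))) 
(.lf (.thr (.lf 0 120 24 97) (.lm 24 61 0 83 28 1 13) (.pot 1))))))))) (.y 1256 (.z 1102 
(.lf (.thr (.lm 3 88 22 70 7 30 24) (.lm 22 56 5 73 30 8 24) (.pot 0))) 
(.lf (.thr (.lf 3 98 21 82) (.lm 21 44 5 62 29 8 24) (.pot 1)))) (.z 1102 (.a 909 (.y 1269 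
(.lf (.thr (.lm 2 95 22 76 5 30 18) (.lm 22 68 1 86 30 4 18) (.pot 0))) 
(.lf (.thr (.lm 2 95 22 76 5 30 18) (.lm 22 73 0 94 30 3 18) (.pot 1)))) 
(.lf (.thr (.lm 4 87 22 71 7 30 18) (.lm 22 67 0 87 30 5 24) (.pot 1)))) (.a 909 (.y 1269 
(.lf (.thr (.lm 2 105 21 88 5 29 18) (.lm 21 56 1 75 29 4 18) (.pot 0))) 
(.lf (.thr (.lm 2 105 21 88 5 29 18) (.lm 21 62 0 82 29 3 18) (.pot 1)))) 
(.lf (.thr (.lm 4 98 21 82 7 29 18) (.lm 21 56 0 75 29 5 25) (.pot 1))))))))))) (.y 1383 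
(.a 821 (.lf (.low 0)) (.a 871 (.y 1332 
(.lf (.thr (.lf 0 115 22 94) (.lf 22 68 0 89) (.lf 0 104 0 105))) (.lf (.low 2))) (.y 1332 
(.a 896 (.y 1307 (.z 1102 
(.lf (.thr (.lf 0 102 22 82) (.lm 22 80 0 100 30 2 24) (.lf 0 131 0 131))) 
(.lf (.thr (.lf 0 113 21 93) (.lm 21 69 0 88 29 2 24) (.lf 0 131 0 131)))) (.lf (.low 2))) 
(.y 1307 (.z 1102 (.a 909 (.y 1294 (.z 1091 (.t 48 
(.lf (.thr (.lm 3 93 19 78 5 23 12) (.lm 19 87 0 104 23 1 12) (.pot 0))) (.lf (.low 2))) 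
(.t 48 (.lf (.thr (.lm 3 98 19 84 5 23 12) (.lm 19 81 0 99 23 1 12) (.pot 0))) (.lf (.low 2)))) 
(.lf (.low 2))) (.y 1294 
(.lf (.thr (.lm 4 87 22 71 7 30 18) (.lm 22 80 0 100 30 2 17) (.pot 1))) (.lf (.low 2)))) 
(.a 909 (.y 1294 (.z 1113 (.t 48 
(.lf (.thr (.lm 3 104 19 89 5 23 12) (.lm 19 76 0 93 23 1 12) (.pot 0))) (.lf (.low 2))) 
(.t 48 (.lf (.thr (.lm 3 109 18 95 5 22 13) (.lm 18 70 0 87 22 1 12) (.pot 0))) (.lf (.low 2)))) 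
(.lf (.low 2))) (.y 1294 
(.lf (.thr (.lm 4 98 21 82 7 29 18) (.lm 21 69 0 88 29 2 18) (.pot 1))) (.lf (.low 2))))) 
(.lf (.low 2)))) (.lf (.low 2))))) (.lf (.low 2)))) (.y 1282 (.a 1023 (.y 1181 (.lf .inf) 
(.a 972 (.y 1231 (.lf .inf) (.y 1256 (.lf .inf) (.a 947 
(.lf (.thr (.lm 8 73 22 60 12 30 35) (.lm 22 55 0 76 30 5 36) (.pot 1))) (.lf .inf)))) 
(.lf .inf))) (.lf .inf)) (.a 1023 (.y 1383 (.a 972 (.y 1332 (.a 947 (.y 1307 (.z 1102 (.a 934 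
(.y 1294 (.lf (.thr (.lm 6 80 22 66 9 30 17) (.lm 22 80 0 100 30 2 17) (.pot 0))) 
(.lf (.low 2))) (.lf (.thr (.lm 9 73 22 60 12 30 18) (.lm 22 80 0 100 30 2 24) (.pot 1)))) 
(.a 934 (.y 1294 (.lf (.thr (.lm 6 91 21 77 9 29 18) (.lm 21 69 0 88 29 2 18) (.pot 0))) 
(.lf (.low 2))) (.lf (.thr (.lm 9 84 21 71 12 29 18) (.lm 21 69 0 88 29 2 24) (.pot 0))))) 
(.lf (.low 2))) (.y 1307 
(.lf (.thr (.lm 12 60 22 48 18 30 35) (.lm 22 68 0 89 30 2 35) (.pot 1))) (.lf (.low 2)))) 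
(.lf (.low 2))) (.y 1332 (.a 997 (.y 1307 (.lf .inf) (.lf (.low 2))) (.lf .inf)) (.lf (.low 2)))) 
(.lf (.low 2))) (.y 1383 (.a 1074 (.y 1332 (.lf .inf) (.lf (.low 2))) (.lf .inf)) 
(.lf (.low 2))))))

theorem h0 : chk (leafT PP TD1 32 2) c0 32 64 720 1125 1080 1125 1080 1485 = true := by
  decide +kernel

def c1 : Tree :=
  (.a 967 (.y 1327 (.a 866 (.y 1226 (.a 815 (.lf (.low 0)) (.y 1175 (.a 840 (.lf (.low 0)) 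
(.lf .inf)) (.a 840 (.lf (.low 0)) (.y 1200 (.z 1147 (.a 853 (.lf (.low 0)) (.lf .inf)) 
(.a 853 (.lf (.low 0)) (.lf .inf))) (.z 1147 (.a 853 (.lf (.low 0)) (.lf (.low 0))) (.a 853 
(.lf (.low 0)) (.lf (.low 0)))))))) (.a 815 (.lf .inf) (.y 1276 (.a 840 (.lf (.low 0)) 
(.y 1251 (.z 1147 (.a 853 (.lf (.low 0)) (.lf (.low 0))) (.a 853 (.lf (.low 0)) (.lf (.low 0)))) 
(.z 1147 (.a 853 (.lf (.low 0)) (.lf (.low 0))) (.a 853 (.lf (.low 0)) (.lf (.low 0)))))) 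
(.a 840 (.lf .inf) (.lf (.thr (.lf 0 131 19 112) (.lm 19 44 0 62 28 3 48) (.lf 0 116 0 117))))))) 
(.y 1226 (.a 916 (.y 1175 (.lf .inf) (.y 1200 (.lf .inf) (.a 891 (.z 1147 (.y 1213 (.lf .inf) 
(.lf (.thr (.lf 0 127 20 107) (.lm 20 25 9 41 28 12 18) (.pot 1)))) (.y 1213 (.lf .inf) 
(.a 878 (.z 1158 (.lf (.thr (.lf 0 131 18 113) (.lm 18 20 9 35 25 12 12) (.pot 1))) (.t 48 
(.lf (.thr (.lf 0 131 15 116) (.lm 15 15 8 28 18 11 13) (.pot 1))) (.lf (.low 0)))) (.lf .inf)))) 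
(.lf .inf)))) (.lf .inf)) (.a 916 (.y 1276 (.a 891 (.y 1251 (.z 1147 (.a 878 (.y 1238 
(.lf (.thr (.lf 0 131 20 111) (.lm 20 31 6 48 28 9 17) (.pot 1))) (.z 1136 
(.lf (.thr (.lf 0 131 20 111) (.lm 20 43 4 59 27 7 12) (.pot 1))) 
(.lf (.thr (.lf 0 131 19 112) (.lm 19 37 4 54 26 7 12) (.pot 1))))) (.y 1238 
(.lf (.thr (.lf 0 127 20 107) (.lm 20 31 6 48 28 9 17) (.pot 0))) 
(.lf (.thr (.lf 0 127 20 107) (.lm 20 37 4 54 28 7 18) (.pot 1))))) (.a 878 (.y 1238 (.z 1158 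
(.lf (.thr (.lf 0 131 18 113) (.lm 18 26 6 42 25 9 12) (.pot 1))) 
(.lf (.thr (.lf 0 131 17 114) (.lm 17 20 6 36 23 9 12) (.pot 1)))) (.z 1158 
(.lf (.thr (.lf 0 131 18 113) (.lm 18 32 4 48 25 7 12) (.pot 1))) (.t 48 
(.lf (.thr (.lf 0 131 15 116) (.lm 15 28 4 40 18 7 13) (.pot 1))) (.lf (.low 0))))) (.y 1238 
(.lf (.thr (.lf 0 131 17 113) (.lm 17 19 6 37 25 9 18) (.pot 1))) 
(.lf (.thr (.lf 0 131 17 113) (.lm 17 25 4 43 25 7 18) (.pot 1)))))) (.z 1147 (.a 878 (.y 1263 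
(.z 1136 (.t 48 (.lf (.thr (.lf 0 131 17 113) (.lm 17 51 3 64 22 5 12) (.pot 0))) 
(.lf (.low 0))) (.t 48 (.lf (.thr (.lf 0 131 17 114) (.lm 17 45 3 59 21 5 12) (.pot 0))) 
(.lf (.low 0)))) (.z 1136 
(.lf (.thr (.lf 0 131 20 111) (.lm 20 54 0 73 27 4 12) (.lf 0 130 0 131))) 
(.lf (.thr (.lf 0 131 19 112) (.lm 19 49 0 67 26 4 12) (.lf 0 130 0 131))))) (.y 1263 
(.lf (.thr (.lf 0 127 20 107) (.lm 20 43 2 61 28 5 17) (.pot 1))) (.z 1136 (.t 48 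
(.lf (.thr (.lf 0 125 17 109) (.lm 17 56 1 71 22 4 12) (.pot 0))) 
(.lf (.thr (.lf 0 128 23 106) (.lm 23 52 0 75 27 2 12) (.pot 0)))) 
(.lf (.thr (.lf 0 131 19 112) (.lm 19 49 0 67 26 4 12) (.pot 1)))))) (.a 878 (.y 1263 (.z 1158 
(.t 48 (.lf (.thr (.lf 0 131 16 115) (.lm 16 40 3 53 20 5 12) (.pot 1))) (.lf (.low 0))) 
(.t 48 (.lf (.thr (.lf 0 131 15 116) (.lm 15 34 3 47 18 5 12) (.pot 1))) (.lf (.low 0)))) 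
(.z 1158 (.t 48 (.lf (.thr (.lf 0 131 16 115) (.lm 16 46 1 59 20 4 12) (.lf 1 129 0 131))) 
(.lf (.low 0))) (.t 48 
(.lf (.thr (.lf 0 131 15 116) (.lm 15 40 1 53 18 4 13) (.lf 1 129 0 131))) (.lf (.low 0))))) 
(.y 1263 (.lf (.thr (.lf 0 131 17 113) (.lm 17 32 2 49 25 5 18) (.pot 1))) (.z 1158 
(.lf (.thr (.lf 0 131 18 113) (.lm 18 44 0 61 25 4 12) (.pot 0))) 
(.lf (.thr (.lf 0 131 17 114) (.lm 17 38 0 55 23 4 13) (.pot 0)))))))) (.y 1251 (.z 1147 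
(.lf (.thr (.lf 2 113 20 96) (.lm 20 31 5 48 28 9 24) (.pot 1))) 
(.lf (.thr (.lf 2 123 17 108) (.lm 17 19 5 37 25 9 24) (.pot 1)))) (.z 1147 (.a 903 (.y 1263 
(.lf (.thr (.lf 1 120 20 102) (.lm 20 43 2 61 28 5 17) (.pot 0))) 
(.lf (.thr (.lf 1 120 20 102) (.lm 20 49 0 67 28 4 18) (.pot 1)))) 
(.lf (.thr (.lf 3 112 20 97) (.lm 20 43 1 61 28 5 24) (.pot 0)))) (.a 903 (.y 1263 
(.lf (.thr (.lf 1 129 17 113) (.lm 17 32 2 49 25 5 18) (.pot 0))) 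
(.lf (.thr (.lf 1 129 17 113) (.lm 17 38 0 55 25 4 18) (.pot 0)))) 
(.lf (.thr (.lf 3 122 17 109) (.lm 17 31 1 50 25 5 24) (.pot 0))))))) (.y 1301 (.a 891 
(.z 1147 (.a 878 (.lf (.thr (.lf 0 131 20 111) (.lm 20 55 0 74 28 2 24) (.lf 0 131 0 131))) 
(.lf (.thr (.lf 0 127 20 107) (.lm 20 55 0 74 28 2 24) (.lf 0 131 0 131)))) (.a 878 
(.lf (.thr (.lf 0 131 17 113) (.lm 17 44 0 62 25 2 24) (.lf 0 131 0 131))) (.y 1288 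
(.lf (.thr (.lf 0 131 17 113) (.lm 17 44 0 62 25 2 18) (.lf 0 131 0 131))) 
(.lf (.thr (.lf 0 131 17 113) (.lm 17 51 0 67 25 1 18) (.lf 0 131 0 131)))))) (.z 1147 (.a 903 
(.y 1288 (.z 1136 (.lf (.thr (.lf 1 120 20 102) (.lm 20 61 0 79 27 2 12) (.pot 1))) 
(.lf (.thr (.lf 1 125 19 108) (.lm 19 56 0 73 26 2 12) (.pot 0)))) 
(.lf (.thr (.lf 1 120 20 102) (.lm 20 61 0 80 28 1 18) (.lf 0 131 1 129)))) (.y 1288 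
(.lf (.thr (.lf 3 112 20 97) (.lm 20 55 0 74 28 2 17) (.pot 0))) (.z 1136 
(.lf (.thr (.lf 3 112 20 97) (.lm 20 67 0 85 27 1 12) (.pot 1))) 
(.lf (.thr (.lf 3 117 19 103) (.lm 19 62 0 79 26 1 12) (.pot 0)))))) (.a 903 (.y 1288 
(.lf (.thr (.lf 1 129 17 113) (.lm 17 44 0 62 25 2 18) (.pot 1))) 
(.lf (.thr (.lf 1 129 17 113) (.lm 17 51 0 67 25 1 18) (.lf 0 131 1 129)))) (.y 1288 
(.lf (.thr (.lf 3 122 17 109) (.lm 17 44 0 62 25 2 18) (.pot 0))) 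
(.lf (.thr (.lf 3 122 17 109) (.lm 17 51 0 67 25 1 18) (.pot 0))))))) (.lf (.low 2)))) 
(.y 1276 (.a 941 (.y 1251 (.lf .inf) (.z 1147 
(.lf (.thr (.lf 7 98 20 86) (.lm 20 43 1 61 28 5 24) (.pot 0))) 
(.lf (.thr (.lf 7 108 17 98) (.lm 17 31 1 50 25 5 24) (.pot 0))))) (.lf .inf)) (.a 941 
(.y 1301 (.z 1147 (.lf (.thr (.lf 7 98 20 86) (.lm 20 55 0 74 28 2 24) (.pot 1))) 
(.lf (.thr (.lf 7 108 17 98) (.lm 17 44 0 62 25 2 24) (.pot 0)))) (.lf (.low 2))) (.y 1301 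
(.lf (.thr (.lf 11 83 19 75) (.lm 19 44 0 62 28 2 35) (.pot 0))) (.lf (.low 2)))))))) (.y 1428 
(.lf (.low 2)) (.lf (.low 2)))) (.y 1327 (.a 1068 (.y 1226 (.lf .inf) (.a 1017 (.y 1276 
(.lf .inf) (.y 1301 (.lf .inf) (.lf (.low 2)))) (.lf .inf))) (.lf .inf)) (.a 1068 (.y 1428 
(.lf (.low 2)) (.lf (.low 2))) (.y 1428 (.lf (.low 2)) (.lf (.low 2))))))

theorem h1 : chk (leafT PP TD1 32 2) c1 32 64 765 1170 1125 1170 1125 1530 = true := by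
  decide +kernel

def c2 : Tree :=
  (.a 1012 (.y 1372 (.a 911 (.y 1271 (.a 860 (.y 1220 (.a 835 (.lf (.low 0)) (.lf (.low 0))) 
(.y 1245 (.a 835 (.lf (.low 0)) (.lf (.low 0))) (.a 835 (.lf .inf) (.lf (.low 0))))) (.y 1220 
(.a 885 (.y 1195 (.lf .inf) (.z 1192 (.a 872 (.y 1207 (.lf .inf) (.z 1181 (.t 48 
(.lf (.thr (.pot 0) (.lm 13 6 9 20 17 12 12) (.pot 1))) (.lf (.low 0))) 
(.lf (.thr (.pot 1) (.lm 14 0 9 15 19 13 12) (.pot 1))))) (.lf .inf)) (.a 872 (.y 1207 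
(.lf .inf) (.lf (.thr (.pot 1) (.lm 11 0 9 0 17 13 14) (.pot 1)))) (.lf .inf)))) (.lf .inf)) 
(.a 885 (.y 1245 (.z 1192 (.a 872 (.y 1232 (.z 1181 (.t 48 
(.lf (.thr (.pot 0) (.lm 13 13 7 26 17 9 12) (.pot 1))) (.lf (.low 0))) 
(.lf (.thr (.pot 0) (.lm 14 5 7 23 19 11 12) (.pot 1)))) (.z 1181 (.t 48 
(.lf (.thr (.pot 0) (.lm 13 19 5 32 17 8 12) (.pot 1))) (.lf (.low 0))) 
(.lf (.thr (.pot 0) (.lm 14 12 5 28 19 8 12) (.pot 1))))) (.y 1232 (.z 1181 (.t 48 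
(.lf (.thr (.pot 0) (.lm 13 13 7 26 17 9 12) (.pot 1))) (.lf (.low 0))) 
(.lf (.thr (.pot 0) (.lm 14 5 7 23 19 11 12) (.pot 1)))) (.z 1181 
(.lf (.thr (.lf 0 131 15 116) (.lm 15 18 5 33 21 8 12) (.pot 1))) 
(.lf (.thr (.pot 0) (.lm 14 12 5 28 19 8 12) (.pot 1)))))) (.a 872 (.y 1232 
(.lf (.thr (.pot 1) (.lm 11 0 7 5 17 11 18) (.pot 1))) 
(.lf (.thr (.pot 0) (.lm 11 0 5 17 17 8 18) (.pot 1)))) (.y 1232 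
(.lf (.thr (.pot 1) (.lm 11 0 7 5 17 11 18) (.pot 1))) 
(.lf (.thr (.pot 0) (.lm 11 0 5 17 17 8 18) (.pot 1)))))) (.z 1192 (.y 1258 (.a 872 (.z 1181 
(.t 48 (.y 1251 (.lf (.thr (.pot 0) (.lm 13 26 4 38 17 5 9) (.pot 1))) 
(.lf (.thr (.pot 0) (.lm 13 29 3 41 17 5 9) (.pot 1)))) (.lf (.low 0))) 
(.lf (.thr (.pot 0) (.lm 14 19 3 34 19 6 12) (.pot 0)))) (.z 1181 
(.lf (.thr (.lf 0 131 15 116) (.lm 15 24 3 40 21 6 12) (.pot 1))) 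
(.lf (.thr (.pot 0) (.lm 14 19 3 34 19 6 12) (.pot 0))))) (.a 872 (.z 1181 (.t 48 (.y 1264 
(.lf (.thr (.pot 0) (.lm 13 32 2 45 17 4 9) (.pot 1))) 
(.lf (.thr (.pot 0) (.lm 13 35 1 48 17 3 9) (.lf 1 129 0 131)))) (.lf (.low 0))) 
(.lf (.thr (.pot 0) (.lm 14 25 1 41 19 4 12) (.pot 0)))) (.z 1181 (.t 48 
(.lf (.thr (.lf 0 131 13 117) (.lm 13 32 2 45 17 4 12) (.pot 0))) (.lf (.low 0))) 
(.lf (.thr (.pot 0) (.lm 14 25 1 41 19 4 12) (.pot 0)))))) (.y 1258 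
(.lf (.thr (.pot 0) (.lm 11 6 3 24 17 6 18) (.pot 0))) 
(.lf (.thr (.pot 0) (.lm 11 13 1 30 17 4 18) (.pot 0)))))) (.y 1245 (.z 1192 (.a 898 (.y 1232 
(.lf .inf) (.lf (.thr (.lf 0 130 14 116) (.lm 14 11 5 29 21 8 18) (.pot 1)))) (.lf .inf)) 
(.a 898 (.y 1232 (.lf .inf) (.lf (.thr (.pot 0) (.lm 11 0 5 17 17 8 18) (.pot 1)))) (.lf .inf))) 
(.z 1192 (.a 898 (.y 1258 (.lf (.thr (.lf 0 130 14 116) (.lm 14 18 3 35 21 6 18) (.pot 1))) 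
(.lf (.thr (.lf 0 130 14 116) (.lm 14 25 1 41 21 4 18) (.pot 0)))) 
(.lf (.thr (.lf 3 128 14 116) (.lm 14 17 2 36 21 6 24) (.pot 1)))) (.a 898 (.y 1258 
(.lf (.thr (.pot 0) (.lm 11 6 3 24 17 6 18) (.pot 0))) 
(.lf (.thr (.pot 0) (.lm 11 13 1 30 17 4 18) (.pot 0)))) (.y 1258 
(.lf (.thr (.pot 0) (.lm 11 6 3 24 17 6 18) (.pot 0))) 
(.lf (.thr (.pot 0) (.lm 11 13 1 30 17 4 18) (.pot 0)))))))))) (.a 860 (.lf .inf) (.y 1321 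
(.a 885 (.y 1296 (.z 1192 (.a 872 
(.lf (.thr (.lf 0 131 14 116) (.lm 14 31 0 48 21 3 24) (.lf 0 131 0 131))) (.y 1283 (.z 1181 
(.t 48 (.lf (.thr (.lf 0 131 13 117) (.lm 13 38 0 52 17 3 12) (.lf 0 130 0 131))) 
(.lf (.low 0))) (.lf (.thr (.pot 0) (.lm 14 32 0 47 19 3 12) (.pot 0)))) 
(.lf (.thr (.lf 0 131 14 116) (.lm 14 38 0 53 21 2 18) (.lf 0 131 0 131))))) (.a 872 
(.lf (.thr (.pot 0) (.lm 11 20 0 36 17 3 24) (.lf 0 131 0 131))) (.y 1283 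
(.lf (.thr (.pot 0) (.lm 11 20 0 36 17 3 18) (.pot 0))) 
(.lf (.thr (.pot 0) (.lm 11 27 0 41 17 2 18) (.pot 0)))))) (.lf (.low 2))) (.y 1296 (.z 1192 
(.a 898 (.y 1283 (.lf (.thr (.lf 0 130 14 116) (.lm 14 31 0 48 21 3 17) (.pot 0))) 
(.lf (.thr (.lf 0 130 14 116) (.lm 14 38 0 53 21 2 18) (.lf 0 131 0 130)))) 
(.lf (.thr (.lf 3 128 14 116) (.lm 14 31 0 48 21 3 24) (.pot 1)))) (.a 898 (.y 1283 
(.lf (.thr (.pot 0) (.lm 11 20 0 36 17 3 18) (.pot 0))) 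
(.lf (.thr (.pot 0) (.lm 11 27 0 41 17 2 18) (.pot 0)))) (.y 1283 
(.lf (.thr (.pot 0) (.lm 11 20 0 36 17 3 18) (.pot 0))) 
(.lf (.thr (.pot 0) (.lm 11 27 0 41 17 2 18) (.pot 0)))))) (.lf (.low 2)))) (.lf (.low 2))))) 
(.y 1271 (.a 961 (.y 1220 (.lf .inf) (.y 1245 (.lf .inf) (.a 936 (.z 1192 
(.lf (.thr (.lf 6 121 14 113) (.lm 14 17 2 36 21 6 24) (.pot 0))) 
(.lf (.thr (.lf 6 125 11 120) (.lm 11 4 2 26 17 6 25) (.pot 1)))) (.lf .inf)))) (.lf .inf)) 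
(.a 961 (.y 1321 (.a 936 (.y 1296 (.z 1192 
(.lf (.thr (.lf 6 121 14 113) (.lm 14 31 0 48 21 3 24) (.pot 0))) 
(.lf (.thr (.lf 6 125 11 120) (.lm 11 20 0 36 17 3 24) (.pot 0)))) (.lf (.low 2))) (.y 1296 
(.lf (.thr (.lf 10 106 13 103) (.lm 13 19 0 37 21 3 35) (.pot 0))) (.lf (.low 2)))) 
(.lf (.low 2))) (.y 1321 (.a 986 (.y 1296 (.lf .inf) (.lf (.low 2))) (.lf .inf)) (.lf (.low 2)))))) 
(.y 1473 (.lf (.low 2)) (.a 911 (.lf .inf) (.y 1524 (.lf (.low 2)) (.lf .inf))))) (.y 1372 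
(.a 1113 (.y 1271 (.lf .inf) (.a 1062 (.y 1321 (.lf .inf) (.lf (.low 2))) (.lf .inf))) 
(.lf .inf)) (.a 1113 (.y 1473 (.lf (.low 2)) (.y 1524 (.lf (.low 2)) (.lf (.low 2)))) (.y 1473 
(.lf (.low 2)) (.a 1164 (.y 1524 (.lf (.low 2)) (.lf (.low 2))) (.y 1524 (.lf (.low 2)) 
(.lf (.low 2))))))))

theorem h2 : chk (leafT PP TD1 32 2) c2 32 64 810 1215 1170 1215 1170 1575 = true := by
  decide +kernel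

def c3 : Tree :=
  (.a 1057 (.y 1417 (.a 956 (.y 1316 (.a 905 (.y 1265 (.a 880 (.y 1240 
(.lf (.thr (.pot 1) (.lm 6 0 7 0 12 12 13) (.pot 1))) 
(.lf (.thr (.pot 1) (.lm 6 0 3 0 12 6 25) (.pot 1)))) (.y 1240 
(.lf (.thr (.pot 1) (.lm 6 0 7 0 12 12 13) (.pot 1))) 
(.lf (.thr (.pot 1) (.lm 6 0 3 0 12 6 25) (.pot 1))))) (.y 1290 (.a 880 (.z 1237 
(.lf (.thr (.pot 0) (.lm 7 5 0 23 12 4 24) (.pot 0))) (.lf .inf)) (.z 1237 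
(.lf (.thr (.pot 0) (.lm 7 5 0 23 12 4 24) (.pot 0))) 
(.lf (.thr (.pot 1) (.lm 4 0 0 5 7 4 24) (.pot 0))))) (.a 880 (.lf .inf) (.z 1237 
(.lf (.thr (.pot 0) (.lm 7 21 0 32 12 1 24) (.pot 0))) 
(.lf (.thr (.pot 0) (.lm 4 11 0 19 7 1 25) (.pot 0))))))) (.y 1265 (.a 930 (.y 1240 (.lf .inf) 
(.lf (.thr (.pot 1) (.lm 6 0 3 0 12 6 25) (.pot 1)))) (.lf .inf)) (.a 930 (.y 1290 (.z 1237 
(.lf (.thr (.pot 0) (.lm 7 5 0 23 12 4 24) (.pot 0))) 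
(.lf (.thr (.pot 0) (.lm 4 0 0 5 7 4 24) (.pot 1)))) (.z 1237 
(.lf (.thr (.pot 0) (.lm 7 21 0 32 12 1 24) (.pot 0))) 
(.lf (.thr (.pot 0) (.lm 4 11 0 19 7 1 25) (.pot 0))))) (.y 1290 (.z 1237 
(.lf (.thr (.lf 9 122 7 123) (.lm 7 5 0 23 12 4 24) (.pot 0))) 
(.lf (.thr (.pot 0) (.lm 4 0 0 5 7 4 24) (.pot 1)))) (.z 1237 
(.lf (.thr (.lf 9 122 7 123) (.lm 7 21 0 32 12 1 24) (.pot 0))) 
(.lf (.thr (.pot 0) (.lm 4 11 0 19 7 1 25) (.pot 0)))))))) (.a 905 (.lf .inf) (.y 1366 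
(.lf (.low 2)) (.lf (.low 2))))) (.y 1316 (.a 1006 (.y 1265 (.lf .inf) (.y 1290 (.lf .inf) 
(.lf (.thr (.lf 15 100 6 109) (.lm 6 9 0 21 12 1 36) (.pot 0))))) (.lf .inf)) (.a 1006 
(.y 1366 (.lf (.low 2)) (.lf (.low 2))) (.y 1366 (.lf (.low 2)) (.lf (.low 2)))))) (.y 1518 
(.lf (.low 2)) (.a 956 (.lf .inf) (.y 1569 (.lf (.low 2)) (.lf .inf))))) (.y 1417 (.a 1158 
(.y 1316 (.lf .inf) (.a 1107 (.y 1366 (.lf .inf) (.lf (.low 2))) (.lf .inf))) (.lf .inf)) 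
(.a 1158 (.y 1518 (.lf (.low 2)) (.y 1569 (.lf (.low 2)) (.a 1107 (.lf .inf) (.a 1132 
(.lf .inf) (.y 1594 (.z 1237 (.lf .inf) (.a 1145 (.lf .inf) (.y 1581 (.lf (.low 2)) (.lf .inf)))) 
(.lf .inf)))))) (.y 1518 (.lf (.low 2)) (.a 1209 (.y 1569 (.lf (.low 2)) (.a 1183 (.y 1594 
(.z 1237 (.a 1170 (.lf .inf) (.y 1581 (.lf (.low 2)) (.lf .inf))) (.a 1170 (.y 1581 
(.lf (.low 2)) (.lf .inf)) (.y 1581 (.lf (.low 2)) (.z 1248 (.lf .inf) (.t 48 (.a 1176 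
(.lf .inf) (.lf (.thr (.lm 13 26 3 39 16 5 10) (.pot 0) (.pot 0)))) (.lf (.low 2))))))) 
(.lf .inf)) (.y 1594 (.z 1237 (.a 1196 (.y 1581 (.lf (.low 2)) (.lf .inf)) 
(.lf (.thr (.lm 11 0 7 6 16 12 18) (.pot 1) (.pot 1)))) (.a 1196 
(.lf (.thr (.lm 13 12 4 29 18 7 18) (.pot 1) (.pot 1))) 
(.lf (.thr (.lm 11 4 4 24 16 7 18) (.pot 0) (.pot 0))))) (.z 1237 (.lf .inf) (.a 1196 
(.lf .inf) (.lf (.thr (.lm 11 4 4 24 16 7 18) (.pot 0) (.pot 0)))))))) (.y 1569 (.lf (.low 2)) 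
(.a 1234 (.y 1594 (.z 1237 (.lf (.thr (.lm 8 0 7 0 13 12 14) (.pot 1) (.pot 1))) 
(.lf (.thr (.lm 8 0 4 3 13 7 24) (.pot 1) (.pot 1)))) (.z 1237 
(.lf (.thr (.lm 8 0 7 0 13 12 14) (.pot 1) (.pot 1))) 
(.lf (.thr (.lm 8 0 4 3 13 7 24) (.pot 1) (.pot 1))))) (.y 1594 (.z 1237 (.a 1247 (.y 1581 
(.lf .inf) (.z 1226 (.lf .inf) (.t 48 (.a 1240 (.y 1587 (.lf .inf) (.z 1231 (.lf .inf) (.t 40 
(.y 1590 (.lf .inf) (.a 1237 (.lf (.thr (.lm 6 0 6 0 7 7 2) (.pot 1) (.pot 1))) (.lf .inf))) 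
(.lf (.low 2))))) (.lf .inf)) (.lf (.low 2))))) (.lf .inf)) (.a 1247 
(.lf (.thr (.lm 5 0 4 0 7 7 13) (.pot 1) (.pot 1))) (.lf .inf))) (.z 1237 (.a 1247 (.y 1607 
(.z 1226 (.lf .inf) (.t 48 (.a 1240 (.y 1600 (.z 1231 (.lf .inf) (.t 40 (.a 1237 
(.lf (.thr (.lm 6 0 6 0 7 7 2) (.pot 1) (.pot 1))) (.lf (.thr (.lf 5 0 6 0) (.pot 1) (.pot 1)))) 
(.a 1237 (.lf (.thr (.lm 6 0 6 0 7 8 2) (.pot 1) (.pot 1))) 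
(.lf (.thr (.lf 5 0 6 0) (.pot 1) (.pot 1)))))) (.lf .inf)) (.lf .inf)) (.a 1240 (.y 1600 
(.lf (.low 2)) (.lf .inf)) (.lf .inf)))) (.lf .inf)) (.lf .inf)) (.a 1247 
(.lf (.thr (.lm 5 0 4 0 7 7 13) (.pot 1) (.pot 1))) (.y 1607 (.z 1248 (.t 48 (.a 1253 (.y 1600 
(.lf .inf) (.z 1242 (.lf .inf) (.t 40 (.y 1603 (.lf .inf) (.a 1250 (.z 1245 (.lf .inf) 
(.lf (.thr (.lm 4 0 4 0 5 5 1) (.pot 1) (.pot 1)))) (.lf .inf))) (.y 1603 (.lf .inf) (.a 1250 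
(.z 1245 (.lf .inf) (.lf (.thr (.lm 4 0 4 0 5 5 1) (.pot 1) (.pot 1)))) (.lf .inf)))))) 
(.lf .inf)) (.a 1253 (.y 1600 (.lf .inf) (.z 1242 (.lf .inf) (.t 56 (.y 1603 (.lf .inf) 
(.a 1250 (.z 1245 (.lf .inf) (.lf (.thr (.lm 4 0 4 0 5 5 1) (.pot 1) (.pot 1)))) (.lf .inf))) 
(.lf (.low 2))))) (.lf .inf))) (.t 48 (.a 1253 
(.lf (.thr (.lm 4 0 3 0 5 5 7) (.pot 1) (.pot 1))) (.lf .inf)) (.a 1253 
(.lf (.thr (.lm 3 0 2 0 5 5 7) (.pot 1) (.pot 1))) (.lf .inf)))) (.z 1248 (.t 48 (.a 1253 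
(.y 1613 (.z 1242 (.lf .inf) (.t 40 (.a 1250 (.z 1245 (.lf .inf) 
(.lf (.thr (.lm 4 0 4 0 5 5 1) (.pot 1) (.pot 1)))) (.lf .inf)) (.a 1250 (.z 1245 (.lf .inf) 
(.lf (.thr (.lm 4 0 4 0 5 5 1) (.pot 1) (.pot 1)))) (.lf .inf)))) (.lf .inf)) (.lf .inf)) 
(.a 1253 (.y 1613 (.z 1242 (.lf .inf) (.t 56 (.a 1250 (.z 1245 (.lf .inf) 
(.lf (.thr (.lm 4 0 4 0 5 5 1) (.pot 1) (.pot 1)))) (.lf .inf)) (.a 1250 (.z 1245 (.lf .inf) 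
(.lf (.thr (.lm 3 0 4 0 5 5 1) (.pot 1) (.pot 1)))) (.lf .inf)))) (.lf .inf)) (.lf .inf))) 
(.t 48 (.a 1253 (.lf (.thr (.lm 4 0 3 0 5 5 7) (.pot 1) (.pot 1))) (.y 1613 (.z 1254 (.t 40 
(.a 1256 (.z 1251 (.lf .inf) (.lf (.thr (.lm 3 0 3 0 5 5 1) (.pot 1) (.pot 1)))) (.lf .inf)) 
(.a 1256 (.z 1251 (.lf .inf) (.lf (.thr (.lm 3 0 3 0 4 5 1) (.pot 1) (.pot 1)))) (.lf .inf))) 
(.t 40 (.a 1256 (.lf (.thr (.lm 3 0 3 0 5 4 4) (.pot 1) (.pot 1))) (.lf .inf)) (.a 1256 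
(.lf (.thr (.lm 3 0 3 0 4 4 4) (.pot 1) (.pot 1))) (.lf .inf)))) (.z 1254 (.t 40 (.a 1256 
(.y 1616 (.z 1251 (.lf .inf) (.lf (.thr (.lm 3 0 3 0 5 5 1) (.pot 1) (.pot 1)))) (.lf .inf)) 
(.lf .inf)) (.a 1256 (.y 1616 (.z 1251 (.lf .inf) 
(.lf (.thr (.lm 3 0 3 0 4 5 1) (.pot 1) (.pot 1)))) (.lf .inf)) (.lf .inf))) (.t 40 (.a 1256 
(.lf (.thr (.lm 3 0 3 0 5 4 4) (.pot 1) (.pot 1))) (.y 1616 (.z 1257 (.t 36 (.a 1258 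
(.lf (.thr (.lm 3 0 3 0 4 4 1) (.pot 1) (.pot 1))) (.lf .inf)) (.a 1258 
(.lf (.thr (.lm 3 0 3 0 4 4 1) (.pot 1) (.pot 1))) (.lf .inf))) 
(.lf (.thr (.lm 3 0 3 0 4 4 2) (.pot 1) (.pot 1)))) (.z 1257 (.t 36 (.a 1258 
(.lf (.thr (.lm 3 0 3 0 4 4 1) (.pot 1) (.pot 1))) (.lf .inf)) (.a 1258 
(.lf (.thr (.lm 3 0 3 0 4 4 1) (.pot 1) (.pot 1))) (.lf .inf))) 
(.lf (.thr (.lm 3 0 3 0 4 4 2) (.pot 1) (.pot 1)))))) (.a 1256 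
(.lf (.thr (.lm 3 0 3 0 4 4 4) (.pot 1) (.pot 1))) (.y 1616 (.z 1257 (.t 44 (.a 1258 
(.lf (.thr (.lm 3 0 3 0 4 4 1) (.pot 1) (.pot 1))) (.lf .inf)) (.a 1258 
(.lf (.thr (.lm 2 0 3 0 4 4 1) (.pot 1) (.pot 1))) (.lf .inf))) 
(.lf (.thr (.lm 2 0 2 0 4 4 2) (.pot 1) (.pot 1)))) (.z 1257 (.t 44 (.a 1258 
(.lf (.thr (.lm 3 0 3 0 4 4 1) (.pot 1) (.pot 1))) (.lf .inf)) (.a 1258 
(.lf (.thr (.lm 2 0 3 0 4 4 1) (.pot 1) (.pot 1))) (.lf .inf))) 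
(.lf (.thr (.lm 2 0 2 0 4 4 2) (.pot 1) (.pot 1)))))))))) (.a 1253 
(.lf (.thr (.lm 3 0 2 0 5 5 7) (.pot 1) (.pot 1))) (.y 1613 (.z 1254 (.t 56 (.a 1256 (.z 1251 
(.lf .inf) (.lf (.thr (.lm 2 0 3 0 4 4 1) (.pot 1) (.pot 1)))) (.lf .inf)) (.a 1256 (.z 1251 
(.lf .inf) (.lf (.thr (.lm 2 0 2 0 4 4 1) (.pot 1) (.pot 1)))) (.lf .inf))) (.t 56 (.a 1256 
(.lf (.thr (.lm 2 0 2 0 4 4 4) (.pot 1) (.pot 1))) (.lf .inf)) (.a 1256 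
(.lf (.thr (.lm 2 0 1 0 4 3 4) (.pot 1) (.pot 1))) (.lf .inf)))) (.z 1254 (.t 56 (.a 1256 
(.y 1616 (.z 1251 (.lf .inf) (.lf (.thr (.lm 2 0 3 0 4 4 1) (.pot 1) (.pot 1)))) (.lf .inf)) 
(.lf .inf)) (.a 1256 (.y 1616 (.z 1251 (.lf .inf) 
(.lf (.thr (.lm 2 0 2 0 4 4 1) (.pot 1) (.pot 1)))) (.lf .inf)) (.lf .inf))) (.t 56 (.a 1256 
(.lf (.thr (.lm 2 0 2 0 4 4 4) (.pot 1) (.pot 1))) (.y 1616 (.z 1257 (.t 52 (.a 1258 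
(.lf (.thr (.lm 2 0 2 0 3 4 1) (.pot 1) (.pot 1))) (.lf .inf)) (.a 1258 
(.lf (.thr (.lm 2 0 2 0 3 4 1) (.pot 1) (.pot 1))) (.lf .inf))) 
(.lf (.thr (.lm 2 0 2 0 3 3 2) (.pot 1) (.pot 1)))) (.z 1257 (.t 52 (.a 1258 
(.lf (.thr (.lm 2 0 2 0 3 4 1) (.pot 1) (.pot 1))) (.lf .inf)) (.a 1258 
(.lf (.thr (.lm 2 0 2 0 3 4 1) (.pot 1) (.pot 1))) (.lf .inf))) 
(.lf (.thr (.lm 2 0 2 0 3 3 2) (.pot 1) (.pot 1)))))) (.a 1256 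
(.lf (.thr (.lm 2 0 1 0 4 3 4) (.pot 1) (.pot 1))) (.y 1616 (.z 1257 (.t 60 (.a 1258 
(.lf (.thr (.lm 2 0 2 0 3 3 1) (.pot 1) (.pot 1))) (.lf .inf)) (.a 1258 
(.lf (.thr (.lm 1 0 2 0 3 3 1) (.pot 1) (.pot 1))) (.lf .inf))) 
(.lf (.thr (.lm 1 0 1 0 3 3 2) (.pot 1) (.pot 1)))) (.z 1257 (.t 60 (.a 1258 
(.lf (.thr (.lm 2 0 2 0 3 3 1) (.pot 1) (.pot 1))) (.lf .inf)) (.a 1258 
(.lf (.thr (.lm 1 0 2 0 3 3 1) (.pot 1) (.pot 1))) (.lf .inf))) 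
(.lf (.thr (.lm 1 0 1 0 3 3 2) (.pot 1) (.pot 1)))))))))))))))))))))))

theorem h3 : chk (leafT PP TD1 32 2) c3 32 64 855 1260 1215 1260 1215 1620 = true := by
  decide +kernel

theorem q8 : ∃ T : Tree, chk (leafT PP TD1 32 2) T 32 64 720 1125 1080 1125 1080 1485 = true :=
  ⟨_, h0⟩

theorem q9 : ∃ T : Tree, chk (leafT PP TD1 32 2) T 32 64 765 1170 1125 1170 1125 1530 = true :=
  ⟨_, h1⟩

theorem q10 : ∃ T : Tree, chk (leafT PP TD1 32 2) T 32 64 810 1215 1170 1215 1170 1575 = true :=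
  ⟨_, h2⟩

theorem q11 : ∃ T : Tree, chk (leafT PP TD1 32 2) T 32 64 855 1260 1215 1260 1215 1620 = true :=
  ⟨_, h3⟩

end Pool.Agent.Helper58.LDD.T12
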