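import Pool.Agent.Helper58.LD.Comb
import Pool.Agent.Helper58.LDD.Tab

set_option autoImplicit false

namespace Pool.Agent.Helper58.LDD.T13

open Pool.Agent.Helper58.LD Pool.Agent.Helper58.LDD

set_option maxRecDepth 100000

def c0 : Tree :=
  (.a 1102 (.y 1462 (.a 1001 (.y 1361 (.a 950 (.y 1310 
(.lf (.thr (.pot 1) (.lm 0 0 0 0 5 5 25) (.pot 1))) (.lf (.low 2))) (.y 1310 (.a 975 
(.lf (.thr (.pot 1) (.lm 0 0 0 0 5 5 25) (.pot 1))) (.lf .inf)) (.lf (.low 2)))) (.lf (.low 2))) 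
(.y 1361 (.a 1051 (.y 1310 (.lf .inf) (.lf (.low 2))) (.lf .inf)) (.lf (.low 2)))) (.y 1563 
(.a 1001 (.a 950 (.lf .inf) (.y 1512 (.lf (.low 2)) (.lf .inf))) (.a 1051 (.y 1512 
(.lf (.low 2)) (.lf (.low 2))) (.y 1512 (.lf (.low 2)) (.lf (.low 2))))) (.a 1001 (.lf .inf) 
(.y 1614 (.a 1051 (.lf .inf) (.a 1076 (.lf .inf) (.y 1588 
(.lf (.thr (.lf 22 69 0 89) (.lf 0 129 0 129) (.lf 0 115 22 93))) (.lf .inf)))) (.lf .inf))))) 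
(.y 1462 (.a 1203 (.y 1361 (.lf .inf) (.lf (.low 2))) (.lf .inf)) (.a 1203 (.y 1563 (.a 1152 
(.y 1512 (.lf (.low 2)) (.lf (.low 2))) (.y 1512 (.lf (.low 2)) (.lf (.low 2)))) (.y 1614 
(.a 1152 (.y 1588 (.a 1127 (.z 1282 
(.lf (.thr (.lm 21 57 0 76 29 4 24) (.lf 0 130 0 131) (.lf 0 128 21 106))) 
(.lf (.thr (.lm 21 68 0 87 29 2 24) (.lf 0 129 0 129) (.lf 0 128 21 106)))) (.z 1282 (.a 1139 
(.lf (.thr (.lm 20 51 0 70 27 4 17) (.lf 0 130 0 131) (.lf 0 131 20 111))) 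
(.lf (.thr (.lm 19 45 0 63 26 4 18) (.lf 0 130 0 131) (.lf 0 131 19 112)))) 
(.lf (.thr (.lm 19 56 0 74 27 2 24) (.lf 0 129 0 129) (.lf 0 131 19 111))))) (.a 1127 
(.lf .inf) (.z 1282 (.lf .inf) 
(.lf (.thr (.lm 19 56 0 74 27 2 24) (.lf 0 131 0 131) (.lf 0 126 19 107)))))) (.a 1177 
(.y 1588 (.z 1282 (.a 1164 (.y 1575 (.lf (.low 2)) 
(.lf (.thr (.lm 17 39 0 57 24 4 17) (.lf 0 130 0 131) (.lf 0 131 17 113)))) (.y 1575 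
(.lf (.low 2)) (.z 1271 (.t 48 (.lf (.low 2)) (.lf (.low 2))) 
(.lf (.thr (.lm 16 39 0 55 22 3 12) (.lf 0 131 0 131) (.pot 0)))))) 
(.lf (.thr (.lm 17 44 0 61 24 2 24) (.lf 0 129 0 129) (.pot 0)))) (.z 1282 (.y 1601 (.a 1164 
(.lf .inf) (.z 1271 (.lf .inf) 
(.lf (.thr (.lm 16 39 0 55 22 3 12) (.lf 0 131 0 131) (.lf 0 131 16 115))))) (.lf .inf)) 
(.lf (.thr (.lm 17 44 0 61 24 2 24) (.lf 0 131 0 131) (.lf 0 131 17 114))))) (.y 1588 (.z 1282 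
(.a 1190 (.y 1575 (.lf (.low 2)) (.z 1271 
(.lf (.thr (.lm 14 27 1 43 20 4 12) (.pot 0) (.pot 0))) 
(.lf (.thr (.lm 14 33 0 48 20 3 12) (.lf 0 131 0 131) (.pot 0))))) 
(.lf (.thr (.lm 12 20 0 37 17 4 18) (.pot 0) (.pot 0)))) 
(.lf (.thr (.lm 13 32 0 47 20 2 25) (.lf 0 129 0 129) (.pot 0)))) (.z 1282 (.a 1190 (.y 1601 
(.z 1271 (.lf (.thr (.lm 14 27 1 43 20 4 12) (.pot 0) (.pot 0))) (.t 48 
(.lf (.thr (.lm 12 34 0 47 16 3 12) (.pot 0) (.pot 0))) (.lf (.low 2)))) (.lf .inf)) 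
(.lf (.thr (.lm 12 20 0 37 17 4 18) (.pot 0) (.pot 0)))) (.a 1190 
(.lf (.thr (.lm 14 39 0 53 20 2 18) (.lf 0 131 0 131) (.lf 0 131 14 117))) (.y 1601 
(.lf (.thr (.lm 12 33 0 46 17 2 18) (.lf 0 131 0 131) (.pot 0))) 
(.lf (.thr (.lm 12 33 0 46 17 2 18) (.lf 0 131 0 131) (.lf 0 131 12 119))))))))) (.a 1152 
(.lf .inf) (.a 1177 (.lf .inf) (.y 1639 (.z 1282 (.lf .inf) (.a 1190 (.lf .inf) 
(.lf (.thr (.lm 12 33 0 46 17 2 18) (.pot 0) (.lf 3 128 12 119))))) (.lf .inf)))))) (.y 1563 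
(.a 1254 (.y 1512 (.lf .inf) (.lf (.low 2))) (.lf .inf)) (.a 1254 (.y 1614 (.a 1228 (.y 1588 
(.z 1282 (.lf (.thr (.lm 9 7 0 25 14 4 24) (.pot 0) (.pot 1))) 
(.lf (.thr (.lm 9 21 0 33 14 2 24) (.lf 0 129 0 129) (.pot 0)))) (.z 1282 
(.lf (.thr (.lm 9 7 0 25 14 4 24) (.pot 1) (.pot 1))) 
(.lf (.thr (.lm 9 21 0 33 14 2 24) (.pot 0) (.pot 0))))) (.y 1588 (.z 1282 
(.lf (.thr (.lm 5 0 0 6 9 4 24) (.pot 0) (.pot 1))) 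
(.lf (.thr (.lm 5 8 0 20 9 2 25) (.lf 0 129 0 129) (.pot 0)))) (.z 1282 
(.lf (.thr (.lm 5 0 0 6 9 4 24) (.pot 0) (.pot 1))) 
(.lf (.thr (.lm 5 8 0 20 9 2 25) (.pot 0) (.pot 0)))))) (.a 1228 (.y 1639 (.z 1282 
(.lf (.thr (.lm 9 7 0 25 14 4 24) (.pot 1) (.pot 0))) 
(.lf (.thr (.lm 9 21 0 33 14 2 24) (.pot 0) (.pot 0)))) (.lf .inf)) (.y 1639 (.z 1282 
(.lf (.thr (.lm 5 0 0 6 9 4 24) (.pot 1) (.pot 0))) 
(.lf (.thr (.lm 5 8 0 20 9 2 25) (.pot 0) (.pot 0)))) (.z 1282 (.lf .inf) 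
(.lf (.thr (.lm 5 8 0 20 9 2 25) (.pot 0) (.pot 0))))))) (.y 1614 (.a 1279 (.y 1588 (.lf .inf) 
(.lf (.thr (.lm 1 0 0 0 5 5 26) (.pot 1) (.pot 1)))) (.lf .inf)) 
(.lf (.thr (.lm 0 0 0 0 5 5 26) (.pot 1) (.pot 1)))))))))

theorem h0 : chk (leafT PP TD1 32 2) c0 32 64 900 1305 1260 1305 1260 1665 = true := by
  decide +kernel

def c1 : Tree :=
  (.lf (.low 1))

theorem h1 : chk (leafT PP TD1 32 2) c1 32 64 945 1350 1305 1350 1305 1710 = true := by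
  decide +kernel

def c2 : Tree :=
  (.lf (.low 1))

theorem h2 : chk (leafT PP TD1 32 2) c2 32 64 990 1395 1350 1395 1350 1755 = true := by
  decide +kernel

def c3 : Tree :=
  (.lf (.low 1))

theorem h3 : chk (leafT PP TD1 32 2) c3 32 64 1035 1440 1395 1440 1395 1800 = true := by
  decide +kernel

theorem q12 : ∃ T : Tree, chk (leafT PP TD1 32 2) T 32 64 900 1305 1260 1305 1260 1665 = true :=
  ⟨_, h0⟩

theorem q13 : ∃ T : Tree, chk (leafT PP TD1 32 2) T 32 64 945 1350 1305 1350 1305 1710 = true :=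
  ⟨_, h1⟩

theorem q14 : ∃ T : Tree, chk (leafT PP TD1 32 2) T 32 64 990 1395 1350 1395 1350 1755 = true :=
  ⟨_, h2⟩

theorem q15 : ∃ T : Tree, chk (leafT PP TD1 32 2) T 32 64 1035 1440 1395 1440 1395 1800 = true :=
  ⟨_, h3⟩

end Pool.Agent.Helper58.LDD.T13
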