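import Pool.Agent.Helper58.LD.Comb
import Pool.Agent.Helper58.LDD.Tab

set_option autoImplicit false

namespace Pool.Agent.Helper58.LDD.T21

open Pool.Agent.Helper58.LD Pool.Agent.Helper58.LDD

set_option maxRecDepth 100000

def c0 : Tree :=
  (.a 742 (.y 1102 (.a 641 (.y 1001 (.a 590 (.y 950 (.a 565 (.y 925 (.z 922 (.a 552 (.y 912 
(.z 911 (.a 546 (.y 906 (.z 905 (.a 543 (.y 903 (.t 69 (.z 902 
(.lf (.thr (.pot 1) (.lm 0 0 1 0 2 2 2) (.pot 1))) (.a 541 (.lf .inf) (.z 903 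
(.lf (.thr (.pot 1) (.lm 1 0 1 0 2 2 1) (.pot 1))) (.lf (.thr (.pot 1) (.lf 1 0 1 0) (.pot 1)))))) 
(.z 902 (.lf (.thr (.pot 1) (.lm 0 0 0 0 1 2 2) (.pot 1))) (.a 541 (.lf .inf) (.z 903 
(.lf (.thr (.pot 1) (.lm 0 0 0 0 2 2 1) (.pot 1))) (.lf (.thr (.pot 1) (.lf 1 0 0 0) (.pot 1))))))) 
(.lf (.thr (.pot 1) (.lm 1 0 1 0 3 3 3) (.pot 1)))) (.y 903 (.t 69 (.z 902 
(.lf (.thr (.pot 1) (.lm 0 0 1 0 2 2 2) (.pot 1))) (.a 544 (.z 903 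
(.lf (.thr (.pot 1) (.lm 1 0 1 0 2 2 1) (.pot 1))) (.lf (.thr (.pot 1) (.lf 1 0 1 0) (.pot 1)))) 
(.lf .inf))) (.lf (.low 0))) (.lf (.thr (.pot 1) (.lm 1 0 1 0 3 3 3) (.pot 1))))) (.a 543 
(.lf .inf) (.z 908 (.y 903 (.lf .inf) (.t 69 (.a 544 (.lf .inf) (.z 906 
(.lf (.thr (.pot 1) (.lm 1 0 1 0 3 3 1) (.pot 1))) (.lf (.thr (.pot 1) (.lf 2 0 1 0) (.pot 1))))) 
(.lf (.low 0)))) (.lf .inf)))) (.lf (.thr (.pot 1) (.lm 1 0 2 0 4 4 6) (.pot 1)))) 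
(.lf (.low 0))) (.a 546 (.lf .inf) (.lf (.low 0)))) 
(.lf (.thr (.pot 1) (.lm 3 0 4 0 7 7 13) (.pot 1)))) (.lf (.low 0))) (.a 552 (.lf .inf) 
(.lf (.low 0)))) (.z 922 (.lf (.thr (.pot 1) (.lm 3 3 9 0 7 14 24) (.pot 1))) 
(.lf (.thr (.pot 1) (.lm 8 0 9 0 12 14 14) (.pot 1))))) (.lf (.low 0))) (.y 975 (.a 565 
(.z 922 (.a 552 (.lf .inf) (.lf (.low 0))) (.lf .inf)) (.lf (.low 0))) (.a 565 (.lf .inf) 
(.lf (.low 0))))) (.lf (.low 0))) (.a 590 (.lf .inf) (.lf (.low 0)))) (.lf (.low 0))) (.y 1203 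
(.a 641 (.a 590 (.lf .inf) (.lf (.low 0))) (.lf (.low 0))) (.a 641 (.lf .inf) (.lf (.low 0))))) 
(.y 1102 (.a 843 (.lf (.low 0)) (.lf .inf)) (.a 843 (.lf (.low 0)) (.y 1203 (.a 894 (.y 1152 
(.lf .inf) (.a 868 (.lf (.low 0)) (.lf .inf))) (.lf .inf)) (.a 894 (.y 1254 (.a 868 
(.lf (.low 0)) (.lf (.low 0))) (.a 868 (.lf (.low 0)) (.lf (.low 0)))) (.y 1254 (.a 919 
(.y 1228 (.lf .inf) (.z 922 (.y 1241 (.lf .inf) (.a 906 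
(.lf (.thr (.lm 0 0 3 0 3 7 14) (.pot 1) (.pot 1))) (.lf .inf))) 
(.lf (.thr (.lm 1 3 8 0 6 12 24) (.pot 0) (.pot 1))))) (.lf .inf)) (.a 919 (.y 1279 (.z 922 
(.a 906 (.lf (.thr (.lm 0 0 3 0 3 7 14) (.pot 1) (.pot 1))) (.y 1266 (.z 911 (.a 912 (.y 1260 
(.lf .inf) (.z 905 (.lf .inf) (.a 909 (.lf (.thr (.lm 2 0 2 0 3 4 3) (.pot 1) (.pot 1))) 
(.lf .inf)))) (.lf .inf)) (.lf (.thr (.lm 3 0 4 0 6 6 8) (.pot 1) (.pot 1)))) (.lf (.low 2)))) 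
(.lf (.thr (.lm 1 3 8 0 6 12 24) (.pot 1) (.pot 1)))) (.lf (.low 2))) 
(.lf (.thr (.lm 8 0 5 0 12 13 13) (.pot 1) (.pot 1))))))))))

theorem h0 : chk (leafT PP TD2 64 2) c0 64 74 540 945 900 945 900 1305 = true := by
  decide +kernel

def c1 : Tree :=
  (.a 787 (.y 1147 (.a 686 (.lf (.low 0)) (.lf (.low 0))) (.y 1248 (.a 686 (.lf (.low 0)) 
(.lf (.low 0))) (.a 686 (.lf .inf) (.lf (.low 0))))) (.y 1147 (.a 888 (.y 1046 (.lf .inf) 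
(.a 837 (.lf (.low 0)) (.lf .inf))) (.lf .inf)) (.a 888 (.y 1248 (.a 837 (.lf (.low 0)) 
(.lf (.low 0))) (.y 1299 (.a 837 (.lf (.low 0)) (.lf (.low 0))) (.lf (.low 2)))) (.y 1248 
(.a 939 (.y 1197 (.lf .inf) (.a 913 (.y 1222 (.lf .inf) (.z 967 
(.lf (.thr (.lm 0 31 13 1 5 18 24) (.lf 13 117 6 125) (.pot 1))) 
(.lf (.thr (.lm 0 41 18 13 5 23 24) (.lf 18 110 6 122) (.pot 0))))) (.lf .inf))) (.lf .inf)) 
(.a 939 (.y 1299 (.a 913 (.y 1273 (.z 967 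
(.lf (.thr (.lm 0 31 13 1 5 18 24) (.pot 0) (.pot 1))) 
(.lf (.thr (.lm 0 41 18 13 5 23 24) (.lf 18 112 0 131) (.pot 1)))) (.lf (.low 2))) (.y 1273 
(.z 967 (.a 926 (.lf (.thr (.lm 5 19 13 0 7 18 18) (.pot 0) (.pot 1))) (.lf .inf)) (.a 926 
(.lf (.thr (.lm 5 35 18 6 7 23 18) (.lf 18 112 0 131) (.pot 1))) (.lf .inf))) (.lf (.low 2)))) 
(.lf (.low 2))) (.y 1299 (.a 964 (.y 1273 (.lf .inf) (.lf (.low 2))) (.lf .inf)) (.lf (.low 2))))))))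

theorem h1 : chk (leafT PP TD2 64 2) c1 64 74 585 990 945 990 945 1350 = true := by
  decide +kernel

def c2 : Tree :=
  (.a 832 (.y 1192 (.a 731 (.lf (.low 0)) (.lf (.low 0))) (.y 1293 (.a 731 (.lf (.low 0)) 
(.lf (.low 0))) (.lf (.low 2)))) (.y 1192 (.a 933 (.y 1091 (.lf .inf) (.a 882 (.lf (.low 0)) 
(.lf .inf))) (.lf .inf)) (.a 933 (.y 1293 (.a 882 (.lf (.low 0)) (.y 1242 (.a 907 (.y 1217 
(.lf .inf) (.lf (.thr (.lm 0 57 25 26 3 31 35) (.lf 25 83 7 99) (.pot 1)))) (.lf .inf)) 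
(.a 907 (.y 1267 (.z 1012 (.lf (.thr (.lm 0 55 23 28 3 27 24) (.lf 23 104 1 126) (.pot 0))) 
(.lf (.thr (.lm 0 67 26 38 3 31 24) (.lf 26 91 1 116) (.pot 1)))) (.lf (.low 2))) (.y 1267 
(.z 1012 (.lf (.thr (.lm 5 43 23 14 9 27 24) (.lf 23 104 1 126) (.pot 0))) 
(.lf (.thr (.lm 5 54 26 25 9 31 25) (.lf 26 91 1 116) (.pot 0)))) (.lf (.low 2)))))) 
(.lf (.low 2))) (.y 1293 (.a 984 (.y 1242 (.lf .inf) (.a 958 (.y 1267 (.lf .inf) (.lf (.low 2))) 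
(.lf .inf))) (.lf .inf)) (.lf (.low 2))))))

theorem h2 : chk (leafT PP TD2 64 2) c2 64 74 630 1035 990 1035 990 1395 = true := by
  decide +kernel

def c3 : Tree :=
  (.a 877 (.y 1237 (.a 776 (.lf (.low 0)) (.lf (.low 0))) (.y 1338 (.a 776 (.lf (.low 0)) 
(.lf (.low 0))) (.lf (.low 2)))) (.y 1237 (.a 978 (.y 1136 (.lf .inf) (.a 927 (.y 1186 
(.lf .inf) (.y 1211 (.lf .inf) (.a 902 
(.lf (.thr (.lm 0 81 30 52 2 34 35) (.lm 30 54 9 77 34 13 36) (.pot 1))) (.lf .inf)))) 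
(.lf .inf))) (.lf .inf)) (.a 978 (.y 1338 (.a 927 (.y 1287 (.a 902 (.y 1262 (.z 1057 
(.lf (.thr (.lm 0 81 29 52 2 33 24) (.lf 29 77 2 103) (.pot 1))) 
(.lf (.thr (.lm 0 92 30 63 2 34 24) (.lm 30 65 2 92 34 7 24) (.pot 1)))) (.z 1057 (.a 889 
(.lf (.low 0)) (.y 1274 (.lf (.thr (.lm 0 81 29 52 2 33 18) (.lf 29 88 0 117) (.pot 0))) 
(.lf (.low 2)))) (.a 889 (.lf (.low 0)) (.y 1274 
(.lf (.thr (.lm 0 92 30 63 2 34 18) (.lm 30 76 0 106 34 1 18) (.pot 0))) (.lf (.low 2)))))) 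
(.y 1262 (.lf (.thr (.lm 3 69 30 39 8 34 35) (.lf 30 65 2 92) (.pot 1))) (.z 1057 (.a 914 
(.lf (.thr (.lm 2 74 29 47 5 33 17) (.lf 29 88 0 117) (.pot 1))) 
(.lf (.thr (.lm 5 67 29 41 8 33 18) (.lf 29 88 0 117) (.pot 0)))) 
(.lf (.thr (.lm 3 79 30 51 8 34 24) (.lf 30 76 0 106) (.pot 1)))))) (.lf (.low 2))) (.y 1287 
(.a 952 (.y 1262 (.lf .inf) (.lf (.thr (.lm 9 55 30 28 14 34 35) (.lf 30 77 0 105) (.pot 1)))) 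
(.lf .inf)) (.lf (.low 2)))) (.lf (.low 2))) (.y 1338 (.a 1029 (.y 1287 (.lf .inf) 
(.lf (.low 2))) (.lf .inf)) (.lf (.low 2))))))

theorem h3 : chk (leafT PP TD2 64 2) c3 64 74 675 1080 1035 1080 1035 1440 = true := by
  decide +kernel

theorem q4 : ∃ T : Tree, chk (leafT PP TD2 64 2) T 64 74 540 945 900 945 900 1305 = true :=
  ⟨_, h0⟩

theorem q5 : ∃ T : Tree, chk (leafT PP TD2 64 2) T 64 74 585 990 945 990 945 1350 = true :=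
  ⟨_, h1⟩

theorem q6 : ∃ T : Tree, chk (leafT PP TD2 64 2) T 64 74 630 1035 990 1035 990 1395 = true :=
  ⟨_, h2⟩

theorem q7 : ∃ T : Tree, chk (leafT PP TD2 64 2) T 64 74 675 1080 1035 1080 1035 1440 = true :=
  ⟨_, h3⟩

end Pool.Agent.Helper58.LDD.T21
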