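import Pool.Agent.Helper58.LD.Comb
import Pool.Agent.Helper58.LDD.Tab

set_option autoImplicit false

namespace Pool.Agent.Helper58.LDD.T22

open Pool.Agent.Helper58.LD Pool.Agent.Helper58.LDD

set_option maxRecDepth 100000

def c0 : Tree :=
  (.a 922 (.y 1282 (.a 821 (.lf (.low 0)) (.y 1181 (.a 871 (.lf (.low 0)) (.lf .inf)) (.a 871 
(.lf (.low 0)) (.y 1231 (.a 896 (.y 1206 (.lf .inf) 
(.lf (.thr (.lf 0 106 30 78) (.lm 30 27 10 54 34 15 35) (.pot 1)))) (.lf .inf)) (.a 896 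
(.y 1256 (.z 1102 (.lf (.thr (.lf 0 107 30 77) (.lm 30 51 4 78 34 8 24) (.pot 1))) (.a 883 
(.lf (.low 0)) (.lf (.thr (.lf 0 117 29 89) (.lm 29 39 4 67 33 8 24) (.pot 1))))) (.z 1102 
(.y 1269 (.a 883 (.lf (.low 0)) 
(.lf (.thr (.lm 0 107 30 77 1 34 18) (.lm 30 62 0 92 34 2 18) (.pot 0)))) (.lf (.low 2))) 
(.y 1269 (.a 883 (.lf (.low 0)) 
(.lf (.thr (.lf 0 117 29 89) (.lm 29 51 0 80 33 2 18) (.pot 0)))) (.lf (.low 2))))) (.y 1256 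
(.lf (.thr (.lf 2 92 30 66) (.lm 30 39 4 67 34 8 35) (.pot 1))) (.z 1102 
(.lf (.thr (.lm 2 93 30 65 7 34 24) (.lm 30 62 0 92 34 3 24) (.pot 1))) 
(.lf (.thr (.lf 2 103 29 77) (.lm 29 51 0 80 33 3 25) (.pot 1)))))))))) (.y 1383 (.lf (.low 2)) 
(.lf (.low 2)))) (.y 1282 (.a 1023 (.y 1181 (.lf .inf) (.a 972 (.y 1231 (.lf .inf) (.y 1256 
(.lf .inf) (.a 947 (.lf (.thr (.lm 8 78 30 55 13 34 35) (.lm 30 50 0 81 34 3 36) (.pot 1))) 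
(.lf .inf)))) (.lf .inf))) (.lf .inf)) (.a 1023 (.y 1383 (.lf (.low 2)) (.lf (.low 2))) 
(.y 1383 (.lf (.low 2)) (.lf (.low 2))))))

theorem h0 : chk (leafT PP TD2 64 2) c0 64 74 720 1125 1080 1125 1080 1485 = true := by
  decide +kernel

def c1 : Tree :=
  (.a 967 (.y 1327 (.a 866 (.lf (.low 0)) (.y 1226 (.a 916 (.y 1175 (.lf .inf) (.y 1200 
(.lf .inf) (.a 891 (.lf (.low 0)) (.lf .inf)))) (.lf .inf)) (.a 916 (.y 1276 (.a 891 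
(.lf (.low 0)) (.y 1251 (.z 1147 
(.lf (.thr (.lf 1 117 27 92) (.lm 27 25 5 54 31 9 24) (.pot 0))) 
(.lf (.thr (.lf 1 126 23 105) (.lm 23 13 5 43 28 9 24) (.pot 1)))) (.z 1147 
(.lf (.thr (.lf 1 117 27 92) (.lm 27 38 0 66 31 4 24) (.pot 1))) 
(.lf (.thr (.lf 1 126 23 105) (.lm 23 27 0 54 28 4 24) (.pot 1)))))) (.lf (.low 2))) (.y 1276 
(.a 941 (.y 1251 (.lf .inf) (.lf (.thr (.lf 7 101 25 83) (.lm 25 25 0 56 31 4 35) (.pot 1)))) 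
(.lf .inf)) (.lf (.low 2)))))) (.y 1428 (.lf (.low 2)) (.lf (.low 2)))) (.y 1327 (.a 1068 
(.y 1226 (.lf .inf) (.a 1017 (.y 1276 (.lf .inf) (.lf (.low 2))) (.lf .inf))) (.lf .inf)) 
(.a 1068 (.y 1428 (.lf (.low 2)) (.lf (.low 2))) (.y 1428 (.lf (.low 2)) (.lf (.low 2))))))

theorem h1 : chk (leafT PP TD2 64 2) c1 64 74 765 1170 1125 1170 1125 1530 = true := by
  decide +kernel

def c2 : Tree :=
  (.a 1012 (.y 1372 (.a 911 (.y 1271 (.a 860 (.lf (.low 0)) (.y 1220 (.a 885 (.lf (.low 0)) 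
(.lf .inf)) (.a 885 (.lf (.low 0)) (.y 1245 (.z 1192 (.a 898 (.y 1232 (.lf .inf) 
(.lf (.thr (.lf 0 131 19 112) (.lm 19 6 5 34 23 8 18) (.pot 1)))) (.lf .inf)) (.a 898 (.y 1232 
(.lf .inf) (.lf (.thr (.pot 0) (.lm 14 0 5 17 18 8 18) (.pot 1)))) (.lf .inf))) (.z 1192 
(.lf (.thr (.lf 0 131 19 112) (.lm 19 12 0 41 23 5 24) (.pot 1))) 
(.lf (.thr (.pot 0) (.lm 14 0 0 30 18 5 25) (.pot 1)))))))) (.a 860 (.lf .inf) (.y 1321 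
(.lf (.low 2)) (.lf (.low 2))))) (.y 1271 (.a 961 (.y 1220 (.lf .inf) (.y 1245 (.lf .inf) 
(.a 936 (.z 1192 (.lf (.thr (.lf 6 123 19 111) (.lm 19 12 0 41 23 5 24) (.pot 0))) 
(.lf (.thr (.lf 6 125 14 117) (.lm 14 0 0 30 18 5 25) (.pot 1)))) (.lf .inf)))) (.lf .inf)) 
(.a 961 (.y 1321 (.lf (.low 2)) (.lf (.low 2))) (.y 1321 (.lf (.low 2)) (.lf (.low 2)))))) 
(.y 1473 (.lf (.low 2)) (.lf (.low 2)))) (.y 1372 (.a 1113 (.y 1271 (.lf .inf) (.a 1062 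
(.y 1321 (.lf .inf) (.lf (.low 2))) (.lf .inf))) (.lf .inf)) (.a 1113 (.y 1473 (.lf (.low 2)) 
(.lf (.low 2))) (.y 1473 (.lf (.low 2)) (.lf (.low 2))))))

theorem h2 : chk (leafT PP TD2 64 2) c2 64 74 810 1215 1170 1215 1170 1575 = true := by
  decide +kernel

def c3 : Tree :=
  (.a 1057 (.y 1417 (.a 956 (.y 1316 (.a 905 (.y 1265 (.a 880 (.lf (.low 0)) (.y 1240 
(.lf (.thr (.pot 1) (.lm 5 0 8 0 13 12 13) (.pot 1))) (.z 1237 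
(.lf (.thr (.pot 1) (.lm 8 0 2 3 12 6 24) (.pot 1))) (.a 892 (.lf (.low 0)) (.y 1252 (.z 1248 
(.lf (.thr (.pot 1) (.lm 4 0 3 0 7 6 8) (.pot 1))) (.a 898 (.z 1254 (.y 1246 (.lf .inf) 
(.a 895 (.lf (.low 0)) (.lf .inf))) (.lf .inf)) (.lf .inf))) 
(.lf (.thr (.pot 1) (.lm 3 0 0 0 7 3 14) (.pot 1)))))))) (.y 1290 (.a 880 (.lf (.low 0)) 
(.z 1237 (.lf (.thr (.pot 0) (.lm 8 4 0 24 12 1 24) (.pot 0))) 
(.lf (.thr (.pot 1) (.lm 3 0 0 5 7 1 24) (.pot 0))))) (.lf (.low 2)))) (.y 1265 (.a 930 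
(.y 1240 (.lf .inf) (.z 1237 (.lf (.thr (.pot 0) (.lm 8 0 2 3 12 6 24) (.pot 1))) (.a 917 
(.y 1252 (.lf .inf) (.lf (.thr (.pot 1) (.lm 3 0 0 0 7 3 14) (.pot 1)))) (.lf .inf)))) 
(.lf .inf)) (.a 930 (.y 1290 (.z 1237 (.lf (.thr (.pot 0) (.lm 8 4 0 24 12 1 24) (.pot 0))) 
(.lf (.thr (.pot 1) (.lm 3 0 0 5 7 1 24) (.pot 0)))) (.lf (.low 2))) (.y 1290 (.z 1237 
(.lf (.thr (.lf 10 120 8 122) (.lm 8 4 0 24 12 1 24) (.pot 0))) 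
(.lf (.thr (.pot 0) (.lm 3 0 0 5 7 1 24) (.pot 1)))) (.lf (.low 2)))))) (.lf (.low 2))) 
(.y 1316 (.a 1006 (.y 1265 (.lf .inf) (.y 1290 (.lf .inf) (.lf (.low 2)))) (.lf .inf)) 
(.lf (.low 2)))) (.y 1518 (.lf (.low 2)) (.a 956 (.lf .inf) (.y 1569 (.lf (.low 2)) (.lf .inf))))) 
(.y 1417 (.a 1158 (.y 1316 (.lf .inf) (.lf (.low 2))) (.lf .inf)) (.a 1158 (.y 1518 
(.lf (.low 2)) (.y 1569 (.lf (.low 2)) (.a 1107 (.lf .inf) (.a 1132 (.lf .inf) (.y 1594 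
(.lf (.low 2)) (.lf .inf)))))) (.y 1518 (.lf (.low 2)) (.a 1209 (.y 1569 (.lf (.low 2)) 
(.a 1183 (.y 1594 (.lf (.low 2)) (.lf .inf)) (.y 1594 (.lf (.low 2)) (.z 1237 (.lf .inf) 
(.a 1196 (.lf .inf) (.lf (.thr (.lm 14 0 3 28 17 7 18) (.pot 0) (.pot 0)))))))) (.y 1569 
(.lf (.low 2)) (.a 1234 (.y 1594 (.lf (.low 2)) (.z 1237 
(.lf (.thr (.lm 9 0 8 0 14 12 14) (.pot 1) (.pot 1))) (.y 1607 (.lf (.low 2)) (.a 1221 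
(.lf .inf) (.lf (.thr (.lm 8 0 3 3 11 7 18) (.pot 1) (.pot 0))))))) (.y 1594 (.lf (.low 2)) 
(.z 1237 (.a 1247 (.y 1607 (.lf (.low 2)) (.lf .inf)) (.lf .inf)) (.a 1247 
(.lf (.thr (.lm 5 0 3 0 7 7 13) (.pot 1) (.pot 1))) (.y 1607 (.lf (.low 2)) (.z 1248 (.a 1253 
(.y 1613 (.lf (.low 2)) (.lf .inf)) (.lf .inf)) (.a 1253 
(.lf (.thr (.lm 2 0 1 0 4 4 7) (.pot 1) (.pot 1))) (.y 1613 (.lf (.low 2)) (.z 1254 (.a 1256 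
(.y 1616 (.z 1251 (.lf .inf) (.t 69 (.a 1254 (.lf (.thr (.lm 2 0 2 0 3 3 1) (.pot 1) (.pot 1))) 
(.lf (.thr (.lf 1 0 2 0) (.pot 1) (.pot 1)))) (.lf (.low 2)))) (.lf .inf)) (.lf .inf)) 
(.a 1256 (.lf (.thr (.lm 1 0 1 0 3 3 4) (.pot 1) (.pot 1))) (.y 1616 (.z 1257 (.t 69 (.a 1258 
(.lf (.thr (.lm 1 0 1 0 2 3 1) (.pot 1) (.pot 1))) (.lf .inf)) (.lf (.low 2))) 
(.lf (.thr (.lm 0 0 0 0 2 2 2) (.pot 1) (.pot 1)))) (.z 1257 (.t 69 (.a 1258 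
(.lf (.thr (.lm 1 0 1 0 2 3 1) (.pot 1) (.pot 1))) (.lf .inf)) (.a 1258 
(.lf (.thr (.lm 0 0 1 0 2 2 1) (.pot 1) (.pot 1))) (.lf .inf))) 
(.lf (.thr (.lm 0 0 0 0 2 2 2) (.pot 1) (.pot 1)))))))))))))))))))))

theorem h3 : chk (leafT PP TD2 64 2) c3 64 74 855 1260 1215 1260 1215 1620 = true := by
  decide +kernel

theorem q8 : ∃ T : Tree, chk (leafT PP TD2 64 2) T 64 74 720 1125 1080 1125 1080 1485 = true :=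
  ⟨_, h0⟩

theorem q9 : ∃ T : Tree, chk (leafT PP TD2 64 2) T 64 74 765 1170 1125 1170 1125 1530 = true :=
  ⟨_, h1⟩

theorem q10 : ∃ T : Tree, chk (leafT PP TD2 64 2) T 64 74 810 1215 1170 1215 1170 1575 = true :=
  ⟨_, h2⟩

theorem q11 : ∃ T : Tree, chk (leafT PP TD2 64 2) T 64 74 855 1260 1215 1260 1215 1620 = true :=
  ⟨_, h3⟩

end Pool.Agent.Helper58.LDD.T22
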