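import Pool.Agent.Helper58.LDD.R00
import Pool.Agent.Helper58.LDD.R01
import Pool.Agent.Helper58.LDD.R02
import Pool.Agent.Helper58.LDD.R03
import Pool.Agent.Helper58.LDD.R04
import Pool.Agent.Helper58.LDD.R05
import Pool.Agent.Helper58.LDD.R06
import Pool.Agent.Helper58.LDD.R07
import Pool.Agent.Helper58.LDD.R10
import Pool.Agent.Helper58.LDD.R11
import Pool.Agent.Helper58.LDD.R12
import Pool.Agent.Helper58.LDD.R13
import Pool.Agent.Helper58.LDD.R14
import Pool.Agent.Helper58.LDD.R15
import Pool.Agent.Helper58.LDD.R16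
import Pool.Agent.Helper58.LDD.R17
import Pool.Agent.Helper58.LDD.T00
import Pool.Agent.Helper58.LDD.T01
import Pool.Agent.Helper58.LDD.T02
import Pool.Agent.Helper58.LDD.T03
import Pool.Agent.Helper58.LDD.T10
import Pool.Agent.Helper58.LDD.T11
import Pool.Agent.Helper58.LDD.T12
import Pool.Agent.Helper58.LDD.T13
import Pool.Agent.Helper58.LDD.T20
import Pool.Agent.Helper58.LDD.T21
import Pool.Agent.Helper58.LDD.T22
import Pool.Agent.Helper58.LDD.T23
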