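import Pool.Agent.Helper58.LDD.Tab

set_option autoImplicit false

namespace Pool.Agent.Helper58.LDD

open Pool.Agent.Helper58.LD
open Pool.Agent.Helper54.LN (allB)

set_option maxRecDepth 100000

theorem ax : axAll PP XX = true := by decide +kernel

theorem cells : allB (fun k => allB (fun i => axCell PP XX k i) 132) 85 = true := by
  decide +kernel

theorem vals : allB (fun c => allB (fun n => axVal PP XX c n) 133) 86 = true := by
  decide +kernel

end Pool.Agent.Helper58.LDD
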