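import Pool.Agent.Helper58.LDD.Tab

set_option autoImplicit false

namespace Pool.Agent.Helper58.LDD

open Pool.Agent.Helper58.LD

set_option maxRecDepth 100000

theorem td0 : tdOk TC TD0 0 = true := by decide +kernel

theorem td1 : tdOk TC TD1 32 = true := by decide +kernel

theorem td2 : tdOk TC TD2 64 = true := by decide +kernel

theorem td3 : tdOk TC TD3 96 = true := by decide +kernel

theorem td4 : tdOk TC TD4 128 = true := by decide +kernel

theorem td5 : tdOk TC TD5 160 = true := by decide +kernel

theorem td6 : tdOk TC TD6 192 = true := by decide +kernel

theorem td7 : tdOk TC TD7 224 = true := by decide +kernel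

end Pool.Agent.Helper58.LDD
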