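import Pool.Agent.Helper58.LDD.Tab

set_option autoImplicit false

namespace Pool.Agent.Helper58.LDD

open Pool.Agent.Helper58.LD

set_option maxRecDepth 100000

theorem tc : tcOk TC = true := by decide +kernel

theorem te : teAll PP TS = true := by decide +kernel

end Pool.Agent.Helper58.LDD
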