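import Pool.Agent.Helper58.LD.TNG
import Pool.Agent.Helper58.LD.TDG
import Pool.Agent.Helper58.LD.IND
import Pool.Agent.Helper58.LD.TOT
import Pool.Agent.Helper58.LD.FR
import Pool.Agent.Helper58.LDD.CA
import Pool.Agent.Helper58.LDD.CT
import Pool.Agent.Helper58.LDD.CD
import Pool.Agent.Helper58.LDD.AllT
import Pool.Agent.Helper54.LN.Pot
import Pool.Agent.Helper54.LN.Red
import Pool.Agent.Helper91.LC.R.ExistsInv

/-!
# Project LD (MP_599705_an): the final assembly
-/

set_option autoImplicit false

namespace Pool.Agent.Helper58.LDD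

open Complex Metric Set MeasureTheory
open Pool.Agent.Helper91.LC
open Pool.Agent.Helper54.LN
open Pool.Agent.Helper58.LD

theorem goodN : GoodN PP :=
  goodN_of ax fun k i hk hi =>
    allB_iff.1 (allB_iff.1 cells k (by omega)) i hi

theorem goodH : GoodH PP :=
  goodH_of ax fun c n hc hn =>
    allB_iff.1 (allB_iff.1 vals c (by omega)) n (by omega)

theorem goodD : ∀ i < 8, GoodD PP (TD i) (32 * i) := by
  intro i hi
  interval_cases i
  · exact goodD_of tc te td0 (by norm_num)
  · exact goodD_of tc te td1 (by norm_num)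
  · exact goodD_of tc te td2 (by norm_num)
  · exact goodD_of tc te td3 (by norm_num)
  · exact goodD_of tc te td4 (by norm_num)
  · exact goodD_of tc te td5 (by norm_num)
  · exact goodD_of tc te td6 (by norm_num)
  · exact goodD_of tc te td7 (by norm_num)

theorem rec0 : ∀ i < 8, ∃ T : Tree,
    chk (leafR PP (TD i) (32 * i) 0) T (32 * i) (32 * i + 32) 0 360 0 720 360 720 = true := by
  intro i hi
  interval_cases i
  · exact R00.main
  · exact R01.main
  · exact R02.main
  · exact R03.main
  · exact R04.main
  · exact R05.main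
  · exact R06.main
  · exact R07.main

theorem rec1 : ∀ i < 8, ∃ T : Tree,
    chk (leafR PP (TD i) (32 * i) 1) T (32 * i) (32 * i + 32) 0 360 0 720 360 720 = true := by
  intro i hi
  interval_cases i
  · exact R10.main
  · exact R11.main
  · exact R12.main
  · exact R13.main
  · exact R14.main
  · exact R15.main
  · exact R16.main
  · exact R17.main

theorem tri : ∀ i < 3, ∀ q < 16, ∃ T : Tree,
    chk (leafT PP (TD i) (32 * i) 2) T (32 * i) (min (32 * i + 32) 74) (360 + 45 * q)
      (765 + 45 * q) (720 + 45 * q) (765 + 45 * q) (720 + 45 * q) (1125 + 45 * q) = true := by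
  intro i hi q hq
  interval_cases i
  · interval_cases q
    · exact T00.q0
    · exact T00.q1
    · exact T00.q2
    · exact T00.q3
    · exact T01.q4
    · exact T01.q5
    · exact T01.q6
    · exact T01.q7
    · exact T02.q8
    · exact T02.q9
    · exact T02.q10
    · exact T02.q11
    · exact T03.q12
    · exact T03.q13
    · exact T03.q14
    · exact T03.q15
  · interval_cases q
    · exact T10.q0
    · exact T10.q1
    · exact T10.q2
    · exact T10.q3
    · exact T11.q4
    · exact T11.q5
    · exact T11.q6
    · exact T11.q7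
    · exact T12.q8
    · exact T12.q9
    · exact T12.q10
    · exact T12.q11
    · exact T13.q12
    · exact T13.q13
    · exact T13.q14
    · exact T13.q15
  · interval_cases q
    · exact T20.q0
    · exact T20.q1
    · exact T20.q2
    · exact T20.q3
    · exact T21.q4
    · exact T21.q5
    · exact T21.q6
    · exact T21.q7
    · exact T22.q8
    · exact T22.q9
    · exact T22.q10
    · exact T22.q11
    · exact T23.q12
    · exact T23.q13
    · exact T23.q14
    · exact T23.q15

theorem total_gt {V : ℝ → ℝ} {E : Set ℂ} {m' : ℝ}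
    (h : Cfg V E m') (hm0 : 0 ≤ m') (hm : m' < 1.0401) (hE : IsClosed E)
    (hfin : ∀ R : ℝ, (E ∩ closedBall 0 R).Finite)
    (hper : Function.Periodic V (2 * Real.pi)) :
    2 * Real.pi * 0.2005 < ∫ θ in (0 : ℝ)..(2 * Real.pi), V θ := by
  have v0 : Val PP V E 0 :=
    val_of h hm0 hm hfin goodN goodH goodD rec0 (fun j hj => absurd hj (by omega))
  have v1 : Val PP V E 1 := by
    refine val_of h hm0 hm hfin goodN goodH goodD rec1 (fun j hj => ?_)
    have : j = 0 := by omega
    rw [this]
    exact v0
  have ht := total h hm0 hm hE hper goodN goodH (fun i hi => goodD i (by omega)) tri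
    (fun j hj => by
      interval_cases j
      · exact v0
      · exact v1)
  have hu : (0 : ℝ) < uu := by
    unfold uu
    positivity
  by_contra hcon
  push Not at hcon
  have h1 : 10 ^ 6 / uu * ∫ θ in (0 : ℝ)..(2 * Real.pi), V θ ≤
      10 ^ 6 / uu * (2 * Real.pi * 0.2005) :=
    mul_le_mul_of_nonneg_left hcon (by positivity)
  have h2 : 10 ^ 6 / uu * (2 * Real.pi * 0.2005) = 144360000 := by
    unfold uu
    have := Real.pi_pos.ne'
    field_simp
    norm_num
  rw [h2] at h1
  linarith

theorem landau_052 {f : ℂ → ℂ} (hf : DifferentiableOn ℂ f (ball 0 1)) (h1 : deriv f 0 = 1) :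
    ∃ w : ℂ, ball w 0.52 ⊆ f '' ball 0 1 := by
  refine reduction (m := 1.04001) (by norm_num) (by norm_num) ?_ hf h1
  intro F E hG hE hcov hdis
  obtain ⟨g, hI⟩ := Spec.exists_inv hG
  obtain ⟨E', hE', hcl, hfin, hcov'⟩ := exists_fin (m' := 1.04005) (by norm_num) hcov
  have hc := pot_cfg hG hI hcov hdis
  have hc' : Cfg (pot F g) E' 1.04005 :=
    ⟨hc.cont, fun p hp => hc.low p (hE' hp), fun p hp => hc.norm p (hE' hp), hcov'⟩
  have h2 := total_gt hc' (by norm_num) (by norm_num) hcl hfin (pot_per F g)
  have h3 := pot_int hG hI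
  linarith

end Pool.Agent.Helper58.LDD
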