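import Pool.Agent.Helper58.LD.Comb
import Pool.Agent.Helper58.LDD.Tab

set_option autoImplicit false

namespace Pool.Agent.Helper58.LDD.R00

open Pool.Agent.Helper58.LD Pool.Agent.Helper58.LDD

set_option maxRecDepth 100000

def c0 : Tree :=
  (.z 180 (.y 540 (.a 90 (.z 90 (.lf (.tipa 5 5 45)) (.y 450 (.a 45 (.z 135 (.y 405 (.a 22 
(.lf (.two (.lm 0 34 0 34 5 5 34) (.lf 0 117 10 108))) 
(.lf (.two (.lm 0 23 0 22 5 5 34) (.lf 0 117 10 108)))) (.lf (.tipa 4 4 68))) (.y 405 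
(.lf (.two (.lm 0 46 2 44 5 5 45) (.lf 2 93 10 87))) (.a 22 (.lf .inf) (.z 157 
(.lf (.two (.lm 0 46 2 44 5 5 23) (.lf 2 127 9 121))) 
(.lf (.two (.lm 0 57 3 55 5 5 23) (.lf 3 115 9 110))))))) (.z 135 (.y 405 (.a 67 
(.lf (.two (.lm 0 12 0 11 5 5 34) (.lf 0 117 10 108))) (.z 112 (.y 382 
(.lf (.two (.lm 0 0 0 0 5 5 23) (.lf 0 129 10 119))) (.lf (.tipa 4 4 23))) 
(.lf (.two (.lm 0 12 0 10 5 5 23) (.lf 0 117 10 108))))) (.lf (.tipa 4 4 45))) (.y 405 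
(.lf (.two (.lm 0 24 2 21 5 5 45) (.lf 2 93 10 87))) (.a 67 
(.lf (.two (.lm 0 35 2 33 5 5 34) (.lf 2 115 9 110))) 
(.lf (.two (.lm 0 24 2 21 5 5 34) (.lf 2 115 9 110))))))) (.a 45 (.lf .inf) (.z 135 
(.lf (.tipa 4 4 45)) (.lf (.tipa 4 4 68)))))) (.z 90 (.lf (.two (.lf 1 0 0 0) (.pot 0))) 
(.y 450 (.a 135 (.z 135 (.y 405 (.a 112 (.z 112 (.y 382 (.lf (.dir (.lf 0 129 10 119))) 
(.lf (.tipa 4 4 11))) (.lf (.two (.lm 0 0 0 0 5 5 23) (.lf 0 117 10 108)))) 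
(.lf (.dir (.lf 0 117 10 108)))) (.lf (.tipa 4 4 23))) (.y 405 
(.lf (.two (.lm 0 0 2 0 5 5 45) (.lf 2 93 10 87))) (.a 112 
(.lf (.two (.lm 0 15 2 8 5 5 34) (.lf 2 115 9 110))) (.z 157 (.y 427 
(.lf (.two (.lm 0 0 2 0 5 5 23) (.lf 2 128 9 120))) (.lf (.tipa 4 4 23))) 
(.lf (.two (.lm 0 14 3 8 5 5 23) (.lf 3 115 9 110))))))) (.z 135 (.y 405 
(.lf (.dir (.lf 2 93 10 87))) (.lf (.two (.lf 2 0 0 0) (.pot 0)))) (.y 405 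
(.lf (.dir (.lf 2 93 10 87))) (.a 157 (.z 157 (.y 427 (.lf (.dir (.lf 2 128 9 120))) 
(.lf (.tipa 4 4 11))) (.lf (.two (.lm 2 0 3 0 5 5 23) (.lf 3 115 9 110)))) 
(.lf (.dir (.lf 3 115 9 110))))))) (.lf (.tipa 5 5 45))))) (.a 90 (.lf .inf) 
(.lf (.tipa 5 8 45)))) (.y 540 (.a 90 (.z 270 (.y 450 (.a 45 (.z 225 (.y 405 
(.lf (.two (.lm 0 69 5 66 5 9 45) (.lm 5 70 10 65 9 17 45))) (.a 22 (.lf .inf) 
(.lf (.two (.lm 0 69 5 66 5 9 34) (.lf 5 92 9 88))))) (.y 405 (.a 22 (.z 247 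
(.lf (.two (.lf 0 104 6 99) (.lm 6 58 10 55 11 17 34))) 
(.lf (.two (.lf 0 116 7 109) (.lm 7 46 10 44 13 17 34)))) 
(.lf (.two (.lf 0 93 7 87) (.lm 7 46 10 44 13 17 45)))) (.a 22 (.lf .inf) (.z 247 
(.lf (.two (.lm 0 93 6 87 5 11 23) (.lm 6 80 9 78 11 16 34))) (.y 427 
(.lf (.two (.lf 0 104 7 98) (.lm 7 68 9 67 13 16 23))) (.lf .inf)))))) (.z 225 
(.lf (.two (.lm 0 47 5 43 5 9 45) (.lf 5 70 9 65))) (.y 405 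
(.lf (.two (.lm 0 70 7 65 5 13 45) (.lm 7 46 10 44 13 17 45))) 
(.lf (.two (.lm 0 70 7 65 5 13 45) (.lm 7 68 9 67 13 16 45)))))) (.a 45 (.lf .inf) (.z 225 
(.y 495 (.a 67 (.lf .inf) (.z 202 (.lf (.two (.lm 0 47 4 43 5 6 23) (.lf 4 125 7 123))) 
(.lf (.two (.lm 0 58 5 54 5 9 23) (.lf 5 113 7 112))))) (.lf .inf)) (.y 495 (.a 67 (.lf .inf) 
(.z 247 (.lf (.two (.lm 0 70 6 65 5 11 23) (.lf 6 102 7 101))) 
(.lf (.two (.lm 0 82 7 75 5 13 23) (.lf 7 90 7 90))))) (.lf .inf))))) (.y 450 (.a 45 (.z 315 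
(.y 405 (.a 22 (.z 292 (.y 382 (.lf (.two (.lf 0 128 8 120) (.lm 8 35 10 33 15 17 22))) 
(.y 393 (.lf (.two (.lf 0 128 8 120) (.lm 8 46 10 44 15 17 17))) (.lf .inf))) (.y 382 (.z 303 
(.lf (.two (.lf 0 131 9 122) (.lm 9 29 10 28 16 17 17))) (.a 11 (.y 371 (.t 16 
(.lf (.tipb 9 10 34)) (.lf (.low 0))) (.t 16 (.lf (.tipb 9 10 40)) (.lf (.low 0)))) 
(.lf (.two (.lf 0 131 9 121) (.lm 9 23 10 22 16 17 17))))) (.z 303 (.y 393 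
(.lf (.two (.lf 0 131 9 122) (.lm 9 40 10 39 16 17 11))) (.lf .inf)) (.y 393 (.a 11 (.lf .inf) 
(.lf (.two (.lf 0 131 9 121) (.lm 9 34 10 33 16 17 12)))) (.lf .inf))))) (.z 292 
(.lf (.two (.lf 0 116 8 109) (.lm 8 35 10 33 15 17 34))) (.y 382 
(.lf (.two (.lf 0 128 9 119) (.lm 9 23 10 22 16 17 23))) 
(.lf (.two (.lf 0 128 9 119) (.lm 9 34 9 33 16 17 23)))))) (.a 22 (.lf .inf) (.z 292 (.y 427 
(.lf (.two (.lf 0 116 8 109) (.lm 8 57 9 56 15 16 22))) (.lf .inf)) (.y 427 (.a 33 (.lf .inf) 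
(.lf (.two (.lf 0 128 9 119) (.lm 9 45 9 45 16 16 23)))) (.lf .inf))))) (.y 405 (.a 22 (.z 337 
(.y 382 (.a 11 (.z 326 (.y 371 (.t 16 (.lf (.tipb 10 10 28)) (.lf (.low 0))) (.t 16 
(.lf (.tipb 10 10 34)) (.lf (.low 0)))) (.y 371 (.t 16 (.lf (.tipb 10 10 23)) (.lf (.low 0))) 
(.t 16 (.lf (.tipb 10 10 28)) (.lf (.low 0))))) (.z 326 (.y 371 
(.lf (.two (.lf 0 131 9 121) (.lm 9 17 10 17 17 17 11))) (.t 16 (.lf (.tipb 10 10 34)) 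
(.lf (.low 0)))) (.y 371 (.t 16 (.lf (.tipb 10 10 23)) (.lf (.low 0))) (.t 16 
(.lf (.tipb 10 10 28)) (.lf (.low 0)))))) (.y 393 (.a 11 (.lf .inf) (.z 326 (.t 16 
(.lf (.tipb 10 10 39)) (.lf (.low 0))) (.t 16 (.lf (.tipb 10 10 34)) (.lf (.low 0))))) 
(.lf .inf))) (.y 382 (.z 348 (.a 11 (.y 371 (.t 16 (.lf (.tipb 10 10 17)) (.lf (.low 0))) 
(.t 16 (.lf (.tipb 10 10 23)) (.lf (.low 0)))) (.y 371 (.t 16 (.lf (.tipb 10 10 17)) 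
(.lf (.low 0))) (.t 16 (.lf (.tipb 10 10 23)) (.lf (.low 0))))) (.a 11 (.y 371 (.t 16 
(.lf (.tipb 10 10 12)) (.lf (.low 0))) (.t 16 (.lf (.tipb 10 10 17)) (.lf (.low 0)))) (.y 371 
(.t 16 (.lf (.tipb 10 10 12)) (.lf (.low 0))) (.t 16 (.lf (.tipb 10 10 17)) (.lf (.low 0)))))) 
(.z 348 (.y 393 (.a 11 (.lf .inf) (.t 16 (.lf (.tipb 10 10 28)) (.lf (.low 0)))) (.lf .inf)) 
(.y 393 (.a 11 (.lf .inf) (.t 16 (.lf (.tipb 10 10 23)) (.lf (.low 0)))) (.lf .inf))))) 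
(.z 337 (.y 382 (.a 33 (.z 326 (.lf (.two (.lf 0 131 9 121) (.lm 9 17 10 17 17 17 17))) 
(.y 371 (.lf (.two (.lf 0 131 10 121) (.lm 10 12 10 11 17 17 11))) (.t 16 
(.lf (.tipb 10 10 28)) (.lf (.low 0))))) 
(.lf (.two (.lf 0 131 9 121) (.lm 9 12 10 11 17 17 22)))) (.a 33 (.y 393 (.z 326 
(.lf (.two (.lf 0 131 9 121) (.lm 9 28 10 28 17 17 11))) (.t 16 (.lf (.tipb 10 10 34)) 
(.lf (.low 0)))) (.z 326 (.t 16 (.lf (.tipb 10 10 45)) (.lf (.low 0))) (.t 16 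
(.lf (.tipb 10 10 40)) (.lf (.low 0))))) (.y 393 
(.lf (.two (.lf 0 131 9 121) (.lm 9 23 10 22 17 17 17))) 
(.lf (.two (.lf 0 131 9 121) (.lm 9 28 9 28 17 17 17)))))) (.y 382 (.a 33 (.z 348 (.y 371 
(.t 16 (.lf (.tipb 10 10 17)) (.lf (.low 0))) (.t 16 (.lf (.tipb 10 10 23)) (.lf (.low 0)))) 
(.y 371 (.t 16 (.lf (.tipb 10 10 12)) (.lf (.low 0))) (.t 16 (.lf (.tipb 10 10 17)) 
(.lf (.low 0))))) (.z 348 (.y 371 (.lf (.two (.lf 0 131 10 121) (.lm 10 6 10 6 17 17 11))) 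
(.lf (.two (.lf 0 131 10 121) (.lm 10 12 10 11 17 17 11)))) (.y 371 (.t 16 
(.lf (.tipb 10 10 12)) (.lf (.low 0))) (.t 16 (.lf (.tipb 10 10 17)) (.lf (.low 0)))))) (.a 33 
(.z 348 (.y 393 (.t 16 (.lf (.tipb 10 10 28)) (.lf (.low 0))) (.t 16 (.lf (.tipb 10 10 34)) 
(.lf (.low 0)))) (.y 393 (.t 16 (.lf (.tipb 10 10 23)) (.lf (.low 0))) (.t 16 
(.lf (.tipb 10 10 29)) (.lf (.low 0))))) (.z 348 (.y 393 (.t 16 (.lf (.tipb 10 10 28)) 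
(.lf (.low 0))) (.t 16 (.lf (.tipb 10 10 34)) (.lf (.low 0)))) (.y 393 (.t 16 
(.lf (.tipb 10 10 23)) (.lf (.low 0))) (.t 16 (.lf (.tipb 10 10 29)) (.lf (.low 0))))))))) 
(.a 22 (.lf .inf) (.z 337 (.y 427 (.a 33 (.lf .inf) (.z 326 (.y 416 
(.lf (.two (.lf 0 131 9 121) (.lm 9 39 9 40 17 16 11))) (.lf .inf)) (.y 416 
(.lf (.two (.lf 0 131 10 121) (.lm 10 34 9 34 17 16 11))) (.lf .inf)))) (.lf .inf)) (.y 427 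
(.a 33 (.lf .inf) (.z 348 (.y 416 (.t 16 (.lf (.tipb 10 9 40)) (.lf (.low 0))) (.lf .inf)) 
(.y 416 (.t 16 (.lf (.tipb 10 9 34)) (.lf (.low 0))) (.lf .inf)))) (.lf .inf)))))) (.z 315 
(.y 405 (.lf (.two (.lf 0 94 9 86) (.lm 9 23 10 22 16 17 45))) (.a 67 (.z 292 
(.lf (.two (.lf 0 105 8 98) (.lm 8 57 9 56 15 16 34))) (.y 427 
(.lf (.two (.lf 0 117 9 108) (.lm 9 45 9 45 16 16 23))) 
(.lf (.two (.lf 0 117 9 108) (.lm 9 56 8 56 16 15 23))))) 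
(.lf (.two (.lf 0 94 9 86) (.lm 9 45 9 45 16 16 45))))) (.y 405 (.a 67 (.z 337 (.y 382 
(.lf (.two (.lf 0 129 9 119) (.lm 9 12 10 11 17 17 22))) 
(.lf (.two (.lf 0 129 9 119) (.lm 9 23 9 22 17 17 23)))) (.y 382 (.z 348 
(.lf (.two (.lf 0 131 10 121) (.lm 10 6 10 6 17 17 17))) (.a 56 (.y 371 (.t 16 
(.lf (.tipb 10 10 12)) (.lf (.low 0))) (.lf (.two (.lf 0 131 10 121) (.lm 10 5 10 6 17 17 12)))) 
(.lf (.two (.lf 0 131 10 121) (.lm 10 0 10 0 17 17 17))))) (.z 348 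
(.lf (.two (.lf 0 131 10 121) (.lm 10 17 9 17 17 17 17))) (.y 393 (.a 56 (.t 16 
(.lf (.tipb 10 10 23)) (.lf (.low 0))) 
(.lf (.two (.lf 0 131 10 121) (.lm 10 11 10 11 17 17 12)))) (.a 56 (.t 16 
(.lf (.tipb 10 10 29)) (.lf (.low 0))) 
(.lf (.two (.lf 0 131 10 121) (.lm 10 16 9 17 17 17 12)))))))) (.z 337 
(.lf (.two (.lf 0 117 9 108) (.lm 9 12 10 11 17 17 34))) (.y 382 
(.lf (.two (.lf 0 128 10 119) (.lm 10 0 10 0 17 17 23))) 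
(.lf (.two (.lf 0 128 10 119) (.lm 10 11 9 11 17 17 23)))))) (.a 67 (.z 337 (.y 427 
(.lf (.two (.lf 0 129 9 119) (.lm 9 34 9 34 17 16 22))) (.y 438 (.a 56 (.lf .inf) 
(.lf (.two (.lf 0 129 9 119) (.lm 9 44 8 46 17 15 17)))) (.lf .inf))) (.y 427 (.z 348 (.a 56 
(.y 416 (.lf (.two (.lf 0 131 10 121) (.lm 10 28 9 29 17 16 11))) 
(.lf (.two (.lf 0 131 10 121) (.lm 10 33 9 35 17 16 11)))) 
(.lf (.two (.lf 0 131 10 121) (.lm 10 28 9 29 17 16 17)))) (.a 56 (.y 416 (.t 16 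
(.lf (.tipb 10 9 34)) (.lf (.low 0))) (.t 16 (.lf (.tipb 10 9 40)) (.lf (.low 0)))) (.y 416 
(.lf (.two (.lf 0 131 10 121) (.lm 10 22 9 23 17 16 12))) 
(.lf (.two (.lf 0 131 10 121) (.lm 10 27 9 29 17 16 12)))))) (.z 348 (.y 438 (.a 56 (.lf .inf) 
(.lf (.two (.lf 0 131 10 121) (.lm 10 39 8 40 17 15 11)))) (.lf .inf)) (.y 438 (.a 56 
(.lf .inf) (.t 16 (.lf (.tipb 10 9 45)) (.lf (.low 0)))) (.lf .inf))))) (.z 337 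
(.lf (.two (.lf 0 117 9 108) (.lm 9 33 9 35 17 16 34))) (.y 427 
(.lf (.two (.lf 0 128 10 119) (.lm 10 22 9 23 17 16 23))) (.a 78 (.z 348 
(.lf (.two (.lf 0 131 10 121) (.lm 10 39 8 40 17 15 17))) 
(.lf (.two (.lf 0 131 10 121) (.lm 10 33 8 34 17 15 18)))) 
(.lf (.two (.lf 0 128 10 119) (.lm 10 33 8 34 17 15 23)))))))))) (.a 45 (.lf .inf) (.z 315 
(.y 495 (.a 67 (.lf .inf) (.z 292 (.y 472 
(.lf (.two (.lm 0 94 8 86 5 15 23) (.lm 8 79 7 79 15 13 22))) (.lf .inf)) (.y 472 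
(.lf (.two (.lf 0 105 9 97) (.lm 9 67 7 68 16 13 23))) (.lf .inf)))) (.lf .inf)) (.y 495 
(.a 67 (.lf .inf) (.z 337 (.y 472 (.a 78 (.lf .inf) 
(.lf (.two (.lf 0 117 9 108) (.lm 9 56 7 57 17 13 22)))) (.lf .inf)) (.y 472 (.a 78 (.lf .inf) 
(.lf (.two (.lf 0 128 10 119) (.lm 10 44 7 46 17 13 23)))) (.lf .inf)))) (.lf .inf)))))) 
(.z 270 (.y 450 (.a 135 (.z 225 (.lf (.two (.lm 0 26 5 19 5 9 45) (.lf 5 70 9 65))) 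
(.lf (.two (.lm 0 48 7 42 5 13 45) (.lm 7 46 9 44 13 18 68)))) (.z 225 (.y 405 
(.lf (.dir (.lf 2 93 10 87))) (.lf (.two (.lm 2 0 5 0 5 9 45) (.lf 5 92 9 88)))) 
(.lf (.two (.lm 2 26 7 19 5 13 45) (.lm 7 46 9 44 13 18 68))))) (.a 135 (.z 225 (.y 495 
(.a 112 (.lf (.two (.lm 0 37 5 31 5 9 34) (.lf 5 114 7 111))) 
(.lf (.two (.lm 0 25 5 20 5 9 34) (.lf 5 114 7 111)))) (.a 112 (.lf .inf) (.lf (.tipa 4 8 57)))) 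
(.y 495 (.a 112 (.lf (.two (.lm 0 60 7 53 5 13 34) (.lf 7 90 7 90))) 
(.lf (.two (.lm 0 48 7 42 5 13 34) (.lf 7 90 7 90)))) (.a 112 (.lf .inf) (.z 247 
(.lf (.two (.lm 0 48 6 42 5 11 23) (.lf 6 123 5 125))) (.y 517 
(.lf (.two (.lm 0 59 7 53 5 13 23) (.lf 7 111 5 114))) (.lf .inf)))))) (.z 225 (.y 495 (.a 157 
(.lf (.two (.lm 2 15 5 8 5 9 34) (.lf 5 114 7 111))) (.z 202 (.y 472 
(.lf (.two (.lm 3 0 4 0 5 6 23) (.lf 4 126 7 122))) (.lf (.tipa 4 5 23))) 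
(.lf (.two (.lm 3 14 5 8 5 9 23) (.lf 5 113 7 112))))) (.lf (.tipa 4 8 45))) (.y 495 
(.lf (.two (.lm 2 26 7 19 5 13 45) (.lf 7 90 7 90))) (.a 157 (.z 247 
(.lf (.two (.lm 2 37 6 31 5 11 22) (.lf 6 123 5 125))) 
(.lf (.two (.lm 2 48 7 42 5 13 23) (.lf 7 111 5 114)))) (.z 247 
(.lf (.two (.lm 3 25 6 20 5 11 23) (.lf 6 123 5 125))) 
(.lf (.two (.lm 3 36 7 31 5 13 23) (.lf 7 111 5 114))))))))) (.y 450 (.a 135 (.z 315 (.y 405 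
(.lf (.two (.lm 0 71 9 64 5 16 45) (.lm 9 23 10 22 16 17 45))) 
(.lf (.two (.lm 0 71 9 64 5 16 45) (.lm 9 45 9 45 16 16 45)))) (.y 405 
(.lf (.two (.lf 0 94 10 86) (.lm 10 0 10 0 17 17 45))) (.a 112 
(.lf (.two (.lf 0 106 10 97) (.lm 10 22 9 23 17 16 45))) 
(.lf (.two (.lf 0 94 10 86) (.lm 10 22 9 23 17 16 45)))))) (.z 315 
(.lf (.two (.lm 2 48 9 42 5 16 45) (.lm 9 23 9 22 16 18 68))) (.y 405 
(.lf (.dir (.lf 2 93 10 87))) (.lf (.two (.lm 2 71 10 64 5 17 45) (.lm 10 22 9 23 17 16 45)))))) 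
(.a 135 (.z 315 (.y 495 (.a 112 (.lf (.two (.lm 0 83 9 75 5 16 34) (.lm 9 67 7 68 16 13 45))) 
(.lf (.two (.lm 0 71 9 64 5 16 34) (.lm 9 67 7 68 16 13 45)))) (.a 112 (.lf .inf) (.z 292 
(.y 517 (.lf (.two (.lm 0 71 8 64 5 15 23) (.lf 8 100 5 103))) (.lf .inf)) (.y 517 
(.lf (.two (.lm 0 82 9 75 5 16 23) (.lm 9 88 5 92 16 9 23))) (.lf .inf))))) (.y 495 (.a 112 
(.z 337 (.y 472 (.lf (.two (.lf 0 106 9 97) (.lm 9 56 7 57 17 13 22))) 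
(.lf (.two (.lf 0 106 9 97) (.lm 9 66 6 69 17 11 23)))) (.y 472 
(.lf (.two (.lf 0 117 10 108) (.lm 10 44 7 46 17 13 23))) (.z 348 
(.lf (.two (.lf 0 117 10 108) (.lm 10 61 6 63 17 11 17))) 
(.lf (.two (.lf 0 123 10 113) (.lm 10 54 6 58 17 11 18)))))) 
(.lf (.two (.lf 0 94 10 86) (.lm 10 44 7 46 17 13 45)))) (.a 112 (.lf .inf) (.z 337 (.y 517 
(.lf (.two (.lm 0 94 9 86 5 17 23) (.lm 9 77 5 81 17 9 22))) (.lf .inf)) (.y 517 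
(.lf (.two (.lf 0 105 10 97) (.lm 10 66 5 69 17 9 23))) (.lf .inf)))))) (.z 315 (.y 495 
(.lf (.two (.lm 2 48 9 42 5 16 45) (.lm 9 67 7 68 16 13 45))) (.a 157 (.z 292 
(.lf (.two (.lm 2 59 8 54 5 15 22) (.lf 8 100 5 103))) 
(.lf (.two (.lm 2 71 9 64 5 16 23) (.lf 9 88 5 92)))) 
(.lf (.two (.lm 3 48 9 42 5 16 34) (.lf 9 88 5 92))))) (.y 495 
(.lf (.two (.lm 2 71 10 64 5 17 45) (.lm 10 44 7 46 17 13 45))) (.a 157 (.z 337 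
(.lf (.two (.lm 2 82 9 76 5 17 22) (.lm 9 77 5 81 17 9 34))) 
(.lf (.two (.lm 2 93 10 87 5 17 23) (.lm 10 65 5 70 17 9 34)))) 
(.lf (.two (.lm 3 70 10 65 5 17 34) (.lm 10 65 5 70 17 9 45)))))))))) (.a 90 (.lf .inf) 
(.z 270 (.y 630 (.a 135 (.lf .inf) (.z 225 (.lf (.tipa 4 8 45)) (.y 585 (.a 157 (.lf .inf) 
(.z 247 (.lf (.tipa 4 10 45)) (.y 562 (.a 168 (.lf .inf) (.lf (.tipa 4 12 51))) (.lf .inf)))) 
(.lf .inf)))) (.lf .inf)) (.y 630 (.a 135 (.lf .inf) (.z 315 (.y 585 (.a 157 (.lf .inf) 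
(.z 292 (.y 562 (.lf (.two (.lm 3 48 8 42 5 15 23) (.lf 8 121 3 127))) (.lf .inf)) (.y 562 
(.lf (.two (.lm 3 59 9 53 5 16 23) (.lf 9 110 3 115))) (.lf .inf)))) (.lf .inf)) (.y 585 
(.a 157 (.lf .inf) (.z 337 (.y 562 (.lf (.two (.lm 3 70 9 65 5 17 23) (.lf 9 99 3 104))) 
(.lf .inf)) (.y 562 (.lf (.two (.lm 3 81 10 76 5 17 23) (.lm 10 87 3 93 17 5 23))) (.lf .inf)))) 
(.lf .inf)))) (.lf .inf))))))

theorem h0 : chk (leafR PP TD0 0 0) c0 0 32 0 180 0 360 360 720 = true := by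
  decide +kernel

def c1 : Tree :=
  (.z 180 (.y 540 (.a 270 (.z 90 (.lf .inf) (.y 450 (.lf (.two (.lf 6 0 1 0) (.lf 1 93 9 87))) 
(.lf (.two (.lf 6 0 1 0) (.pot 0))))) (.lf .inf)) (.lf (.two (.lf 8 0 0 0) (.pot 0)))) (.y 540 
(.a 270 (.z 270 (.y 450 (.a 225 (.lf (.dir (.lf 5 70 9 65))) (.lf .inf)) (.a 225 (.z 225 
(.y 495 (.a 202 (.z 202 (.y 472 (.lf (.dir (.lf 4 126 7 122))) (.lf (.tipa 5 5 11))) 
(.lf (.two (.lm 4 0 5 0 6 9 23) (.lf 5 113 7 112)))) (.lf (.dir (.lf 5 113 7 112)))) 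
(.lf (.tipa 8 8 23))) (.y 495 (.a 202 (.lf (.two (.lm 4 16 7 7 6 13 34) (.lf 7 90 7 90))) 
(.lf (.dir (.lf 5 113 7 112)))) (.a 202 (.z 247 (.y 517 
(.lf (.two (.lm 4 15 6 8 6 11 22) (.lf 6 123 5 125))) (.lf (.tipa 5 10 34))) 
(.lf (.two (.lm 4 25 7 20 6 13 23) (.lf 7 111 5 114)))) (.z 247 (.y 517 
(.lf (.two (.lm 5 0 6 0 9 11 23) (.lf 6 123 5 125))) (.lf (.tipa 8 10 23))) 
(.lf (.two (.lm 5 14 7 8 9 13 23) (.lf 7 111 5 114))))))) (.z 225 (.y 495 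
(.lf (.dir (.lf 7 90 7 90))) (.lf (.two (.lf 7 0 5 0) (.pot 0)))) (.y 495 
(.lf (.dir (.lf 7 90 7 90))) (.a 247 (.z 247 (.y 517 (.lf (.dir (.lf 6 123 5 125))) 
(.lf (.tipa 10 10 11))) (.lf (.two (.lm 6 0 7 0 11 13 23) (.lf 7 111 5 114)))) 
(.lf (.dir (.lf 7 111 5 114)))))))) (.y 450 (.a 225 (.lf (.dir (.lf 5 70 9 65))) (.lf .inf)) 
(.a 225 (.z 315 (.y 495 (.lf (.two (.lm 5 26 9 19 9 16 45) (.lm 9 67 7 68 16 13 45))) 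
(.lf (.two (.lm 5 26 9 19 9 16 45) (.lf 9 88 5 92)))) (.y 495 
(.lf (.two (.lm 5 48 10 42 9 17 45) (.lm 10 44 7 46 17 13 45))) 
(.lf (.two (.lm 5 48 10 42 9 17 45) (.lm 10 65 5 70 17 9 45))))) (.z 315 (.y 495 
(.lf (.dir (.lf 7 90 7 90))) (.a 247 (.lf (.two (.lm 6 15 9 8 11 16 34) (.lf 9 88 5 92))) 
(.lf (.dir (.lf 7 111 5 114))))) 
(.lf (.two (.lm 7 25 10 20 13 17 45) (.lm 10 43 6 47 17 14 68))))))) (.z 270 (.y 450 (.lf .inf) 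
(.lf (.two (.lf 9 0 6 0) (.lf 6 90 6 90)))) (.y 450 (.lf .inf) (.a 315 
(.lf (.dir (.lf 9 66 6 69))) (.lf .inf))))) (.a 270 (.z 270 (.y 630 (.a 225 (.z 225 
(.lf (.tipa 8 8 23)) (.y 585 (.a 202 (.lf (.tipa 5 12 45)) (.lf (.tipa 8 12 34))) (.a 202 
(.lf .inf) (.lf (.tipa 8 12 34))))) (.lf (.tipa 12 13 23))) (.a 225 (.lf .inf) 
(.lf (.tipa 12 13 23)))) (.y 630 (.a 225 (.z 315 (.y 585 (.a 202 (.z 292 (.y 562 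
(.lf (.two (.lm 4 36 8 32 6 15 22) (.lf 8 121 3 127))) (.y 573 
(.lf (.two (.lm 4 36 8 32 6 15 22) (.lf 8 122 2 129))) (.lf .inf))) (.y 562 
(.lf (.two (.lm 4 47 9 43 6 16 23) (.lf 9 110 3 115))) (.z 303 
(.lf (.two (.lm 4 47 9 43 6 16 17) (.lf 9 122 2 129))) 
(.lf (.two (.lm 4 53 9 48 6 16 17) (.lf 9 120 2 127)))))) (.z 292 (.y 562 
(.lf (.two (.lm 5 25 8 20 9 15 23) (.lf 8 121 3 127))) (.a 213 (.lf (.tipa 7 14 45)) 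
(.lf (.tipa 8 14 40)))) (.lf (.two (.lm 5 36 9 31 9 16 23) (.lf 9 109 2 116))))) (.a 202 
(.lf .inf) (.z 292 (.y 607 (.a 213 (.lf .inf) (.lf (.tipa 8 14 40))) (.lf .inf)) (.y 607 
(.a 213 (.lf .inf) (.z 303 (.y 596 (.lf (.two (.lm 5 36 9 31 9 16 12) (.lf 9 122 1 130))) 
(.lf .inf)) (.y 596 (.lf (.two (.lm 5 41 9 37 9 16 12) (.lf 9 121 1 130))) (.lf .inf)))) 
(.lf .inf))))) (.y 585 (.a 202 (.z 337 (.lf (.two (.lm 4 59 9 54 6 17 22) (.lf 9 98 2 105))) 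
(.lf (.two (.lm 4 70 10 65 6 17 23) (.lf 10 87 2 93)))) 
(.lf (.two (.lm 5 47 10 43 9 17 34) (.lf 10 87 2 93)))) (.a 202 (.lf .inf) (.z 337 (.y 607 
(.a 213 (.lf .inf) (.lf (.two (.lm 5 47 9 43 9 17 17) (.lf 9 120 0 128)))) (.lf .inf)) (.y 607 
(.lf (.two (.lm 5 58 10 54 9 17 23) (.lf 10 108 0 117))) (.lf .inf)))))) (.z 315 (.y 585 
(.a 247 (.z 292 (.y 562 (.lf (.two (.lm 6 14 8 9 11 15 22) (.lf 8 121 3 127))) 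
(.lf (.tipa 10 14 34))) (.lf (.two (.lm 6 25 9 20 11 16 23) (.lf 9 109 2 116)))) (.z 292 
(.y 562 (.lf (.two (.lm 7 0 8 0 13 15 23) (.lf 8 121 3 127))) (.lf (.tipa 12 14 23))) 
(.lf (.two (.lm 7 14 9 8 13 16 23) (.lf 9 109 2 116))))) (.a 247 (.z 292 (.lf (.tipa 10 14 34)) 
(.y 607 (.z 303 (.a 236 (.y 596 (.lf (.two (.lm 6 30 9 26 10 16 11) (.lf 9 122 1 130))) (.t 16 
(.lf (.tipa 6 9 39)) (.lf (.tipa 9 14 39)))) (.lf (.tipa 10 15 34))) (.a 236 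
(.lf (.two (.lm 6 35 9 32 10 16 12) (.lf 9 121 0 130))) 
(.lf (.two (.lm 7 30 9 26 11 16 12) (.lf 9 121 0 130))))) (.z 303 (.y 618 (.a 236 (.lf .inf) 
(.lf (.tipa 10 15 34))) (.lf .inf)) (.y 618 (.a 236 (.lf .inf) (.t 16 (.lf (.tipa 7 9 40)) 
(.z 309 (.a 241 (.lf .inf) (.lf (.tipa 10 15 34))) 
(.lf (.two (.lm 8 34 12 28 11 16 9) (.lf 12 119 0 131)))))) (.lf .inf))))) (.z 292 
(.lf (.tipa 12 14 23)) (.y 607 (.a 258 (.z 303 (.lf (.tipa 11 15 28)) 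
(.lf (.two (.lm 7 24 9 21 12 16 12) (.lf 9 121 0 130)))) (.lf (.tipa 12 15 29))) (.a 258 
(.z 303 (.lf (.tipa 11 15 28)) (.y 618 (.t 16 (.lf (.tipa 7 9 34)) (.z 309 
(.lf (.tipa 11 15 31)) (.lf (.two (.lm 9 28 12 23 12 16 9) (.lf 12 119 0 131))))) (.t 16 
(.lf (.tipa 7 9 34)) (.z 309 (.lf (.tipa 11 15 31)) (.y 624 (.a 252 (.lf .inf) 
(.lf (.tipa 11 15 32))) (.lf .inf)))))) (.lf (.tipa 12 15 29))))))) (.y 585 (.a 247 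
(.lf (.two (.lm 6 36 10 32 11 17 34) (.lf 10 87 2 93))) 
(.lf (.two (.lm 7 24 10 21 13 17 34) (.lf 10 87 2 93)))) (.a 247 (.z 337 (.y 607 
(.lf (.two (.lm 6 36 9 32 11 17 22) (.lf 9 120 0 128))) (.y 618 (.a 236 (.lf .inf) (.z 326 
(.lf (.two (.lm 7 36 9 32 11 17 11) (.lf 9 121 0 131))) 
(.lf (.two (.lm 7 41 10 38 11 17 11) (.lf 10 121 0 131))))) (.lf .inf))) (.y 607 
(.lf (.two (.lm 6 47 10 43 11 17 23) (.lf 10 108 0 117))) (.z 348 (.y 618 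
(.lf (.two (.lm 6 47 10 43 11 17 17) (.lf 10 121 0 131))) (.lf .inf)) (.y 618 
(.lf (.two (.lm 6 52 10 49 11 17 17) (.lf 10 119 0 128))) (.lf .inf))))) (.z 337 (.y 607 
(.lf (.two (.lm 7 24 9 21 13 17 23) (.lf 9 120 0 128))) (.a 258 (.y 618 
(.lf (.two (.lm 7 30 9 27 12 17 17) (.lf 9 121 0 131))) (.z 326 (.t 16 (.lf (.tipa 7 10 40)) 
(.y 624 (.lf (.two (.lm 9 31 12 26 12 16 11) (.lf 12 118 0 131))) (.lf .inf))) (.t 16 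
(.lf (.tipa 7 10 45)) (.lf (.two (.lm 9 36 13 32 12 17 11) (.lf 13 118 0 131)))))) (.y 618 
(.lf (.two (.lm 8 24 9 21 13 17 17) (.lf 9 121 0 131))) (.z 326 (.t 16 (.lf (.tipa 8 10 34)) 
(.a 264 (.y 624 (.lf (.two (.lm 9 28 12 23 13 16 9) (.lf 12 118 0 131))) (.lf (.low 2))) 
(.y 624 (.lf (.two (.lm 10 25 12 20 13 16 9) (.lf 12 118 0 131))) (.lf (.low 2))))) 
(.lf (.two (.lm 8 29 10 27 13 17 12) (.lf 10 121 0 131))))))) (.y 607 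
(.lf (.two (.lm 7 35 10 32 13 17 23) (.lf 10 108 0 117))) (.a 258 
(.lf (.two (.lm 7 41 10 38 12 17 17) (.lf 10 119 0 128))) 
(.lf (.two (.lm 8 35 10 32 13 17 18) (.lf 10 119 0 128)))))))))) (.a 225 (.lf .inf) (.z 315 
(.y 675 (.a 247 (.lf .inf) (.z 292 (.lf (.tipa 12 14 23)) (.y 652 (.a 258 (.lf .inf) 
(.lf (.tipa 12 15 29))) (.lf .inf)))) (.lf .inf)) (.y 675 (.a 247 (.lf .inf) (.z 337 (.y 652 
(.a 258 (.lf .inf) (.z 326 (.y 641 (.t 16 (.lf (.tipa 8 10 34)) (.lf (.low 2))) (.lf .inf)) 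
(.y 641 (.t 16 (.lf (.tipa 8 10 40)) (.lf (.low 2))) (.lf .inf)))) (.lf .inf)) (.y 652 (.a 258 
(.lf .inf) (.z 348 (.y 641 (.t 16 (.lf (.tipa 8 10 45)) (.lf (.low 2))) (.lf .inf)) (.y 641 
(.lf (.two (.lm 8 40 10 38 13 17 12) (.lf 10 121 0 131))) (.lf .inf)))) (.lf .inf)))) 
(.lf .inf)))))) (.z 270 (.lf (.two (.lf 9 0 6 0) (.pot 0))) (.y 630 (.a 315 (.z 315 (.y 585 
(.a 292 (.z 292 (.y 562 (.lf (.dir (.lf 8 121 3 127))) (.lf (.tipa 14 14 11))) 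
(.lf (.two (.lm 8 0 9 0 15 16 23) (.lf 9 109 2 116)))) (.lf (.dir (.lf 9 109 2 116)))) (.a 292 
(.lf (.tipa 14 15 23)) (.lf (.tipa 15 15 12)))) (.y 585 
(.lf (.two (.lm 9 0 10 0 16 17 45) (.lf 10 87 2 93))) (.a 292 (.z 337 (.y 607 
(.lf (.two (.lm 8 13 9 10 15 17 22) (.lf 9 120 0 128))) (.y 618 (.a 281 
(.lf (.two (.lm 8 19 9 15 14 17 17) (.lf 9 121 0 131))) 
(.lf (.two (.lm 8 13 9 10 15 17 17) (.lf 9 121 0 131)))) (.a 281 (.z 326 (.t 16 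
(.lf (.tipa 8 10 28)) (.y 624 (.lf (.two (.lm 10 19 12 15 14 16 11) (.lf 12 118 0 131))) 
(.lf (.low 2)))) (.lf (.two (.lm 8 24 10 21 14 17 11) (.lf 10 121 0 131)))) (.z 326 
(.lf (.tipa 14 16 23)) (.lf (.two (.lm 8 18 10 16 15 17 11) (.lf 10 121 0 131))))))) 
(.lf (.two (.lm 8 24 10 21 15 17 23) (.lf 10 108 0 117)))) (.z 337 (.y 607 
(.lf (.two (.lm 9 0 9 0 16 17 23) (.lf 9 120 0 128))) (.a 303 (.y 618 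
(.lf (.two (.lm 9 8 9 4 16 17 17) (.lf 9 121 0 131))) (.z 326 (.lf (.tipa 15 16 17)) 
(.lf (.two (.lm 9 13 10 10 16 17 11) (.lf 10 121 0 131))))) (.lf (.tipa 15 16 17)))) 
(.lf (.two (.lm 9 12 10 10 16 17 23) (.lf 10 108 0 117))))))) (.z 315 (.y 585 
(.lf (.dir (.lf 10 87 2 93))) (.lf (.two (.lf 10 0 9 0) (.pot 0)))) (.y 585 
(.lf (.dir (.lf 10 87 2 93))) (.a 337 (.z 337 (.y 607 (.lf (.dir (.lf 9 120 0 128))) 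
(.lf (.tipa 16 16 11))) (.lf (.two (.lm 9 0 10 0 17 17 23) (.lf 10 108 0 117)))) 
(.lf (.dir (.lf 10 108 0 117))))))) (.a 315 (.z 315 (.y 675 (.a 292 (.lf (.tipa 14 15 23)) 
(.lf (.tipa 15 15 12))) (.a 292 (.lf .inf) (.lf (.tipa 15 15 12)))) (.y 675 (.a 292 (.z 337 
(.y 652 (.a 281 (.z 326 (.y 641 (.t 16 (.lf (.tipa 8 10 28)) (.lf (.low 2))) (.t 16 
(.lf (.tipa 8 10 28)) (.lf (.low 2)))) (.y 641 (.t 16 (.lf (.tipa 8 10 34)) (.lf (.low 2))) 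
(.t 16 (.lf (.tipa 8 10 34)) (.lf (.low 2))))) (.z 326 (.lf (.tipa 14 16 23)) (.y 641 (.t 16 
(.lf (.tipa 9 10 28)) (.lf (.low 2))) (.t 16 (.lf (.tipa 9 10 28)) (.lf (.low 2)))))) (.y 663 
(.a 281 (.lf .inf) (.z 326 (.lf (.tipa 14 16 23)) (.t 16 (.lf (.tipa 9 10 28)) (.lf (.low 2))))) 
(.lf .inf))) (.y 652 (.z 348 (.a 281 (.y 641 
(.lf (.two (.lm 8 29 10 27 14 17 11) (.lf 10 121 0 131))) (.t 16 (.lf (.tipa 8 10 39)) 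
(.lf (.low 2)))) (.y 641 (.lf (.two (.lm 8 24 10 21 15 17 11) (.lf 10 121 0 131))) (.t 16 
(.lf (.tipa 9 10 34)) (.lf (.low 2))))) (.a 281 (.y 641 
(.lf (.two (.lm 8 35 10 32 14 17 12) (.lf 10 121 0 131))) (.t 16 (.lf (.tipa 8 10 45)) 
(.lf (.low 2)))) (.lf (.two (.lm 8 29 10 27 15 17 12) (.lf 10 121 0 131))))) (.z 348 (.y 663 
(.a 281 (.lf .inf) (.t 16 (.lf (.tipa 9 10 34)) (.lf (.low 2)))) (.lf .inf)) (.y 663 (.a 281 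
(.lf .inf) (.t 16 (.lf (.tipa 9 10 40)) (.lf (.low 2)))) (.lf .inf))))) (.z 337 (.y 652 
(.a 303 (.z 326 (.lf (.tipa 15 16 17)) (.y 641 (.t 16 (.lf (.tipa 9 10 23)) (.lf (.low 2))) 
(.t 16 (.lf (.tipa 9 10 23)) (.lf (.low 2))))) (.lf (.tipa 15 16 17))) (.a 303 (.y 663 (.z 326 
(.lf (.tipa 15 16 17)) (.t 16 (.lf (.tipa 9 10 23)) (.lf (.low 2)))) (.z 326 
(.lf (.tipa 15 16 17)) (.t 16 (.lf (.tipa 9 10 23)) (.lf (.low 2))))) (.lf (.tipa 15 16 17)))) 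
(.y 652 (.a 303 (.z 348 (.y 641 (.lf (.two (.lm 9 18 10 16 16 17 11) (.lf 10 121 0 131))) 
(.t 16 (.lf (.tipa 9 10 28)) (.lf (.low 2)))) 
(.lf (.two (.lm 9 23 10 22 16 17 12) (.lf 10 121 0 131)))) (.z 348 (.y 641 
(.lf (.two (.lm 9 12 10 10 16 17 12) (.lf 10 121 0 131))) (.t 16 (.lf (.tipa 9 10 23)) 
(.lf (.low 2)))) (.lf (.two (.lm 9 17 10 16 16 17 12) (.lf 10 121 0 131))))) (.a 303 (.z 348 
(.y 663 (.t 16 (.lf (.tipa 9 10 28)) (.lf (.low 2))) (.t 16 (.lf (.tipa 9 10 28)) 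
(.lf (.low 2)))) (.y 663 (.t 16 (.lf (.tipa 9 10 34)) (.lf (.low 2))) (.t 16 
(.lf (.tipa 9 10 34)) (.lf (.low 2))))) (.z 348 (.y 663 (.t 16 (.lf (.tipa 9 10 23)) 
(.lf (.low 2))) (.t 16 (.lf (.tipa 9 10 23)) (.lf (.low 2)))) (.y 663 (.t 16 
(.lf (.tipa 9 10 29)) (.lf (.low 2))) (.t 16 (.lf (.tipa 9 10 29)) (.lf (.low 2))))))))) 
(.a 292 (.lf .inf) (.z 337 (.y 697 (.a 303 (.lf .inf) (.lf (.tipa 15 16 17))) (.lf .inf)) 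
(.y 697 (.a 303 (.lf .inf) (.z 348 (.y 686 (.t 16 (.lf (.tipa 9 10 23)) (.lf (.low 2))) 
(.lf .inf)) (.y 686 (.t 16 (.lf (.tipa 9 10 29)) (.lf (.low 2))) (.lf .inf)))) (.lf .inf)))))) 
(.z 315 (.lf (.two (.lf 10 0 9 0) (.pot 0))) (.y 675 (.a 337 (.z 337 (.lf (.tipa 16 16 11)) 
(.y 652 (.z 348 (.a 326 (.y 641 (.lf (.two (.lm 9 7 10 4 17 17 11) (.lf 10 121 0 131))) (.t 16 
(.lf (.tipa 10 10 17)) (.lf (.low 2)))) (.lf (.tipa 16 16 11))) 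
(.lf (.two (.lm 9 6 10 5 17 17 17) (.lf 10 121 0 131)))) (.z 348 (.y 663 (.a 326 (.t 16 
(.lf (.tipa 10 10 17)) (.lf (.low 2))) (.lf (.tipa 16 16 11))) (.a 326 (.t 16 
(.lf (.tipa 10 10 17)) (.lf (.low 2))) (.lf (.tipa 16 16 11)))) (.y 663 (.a 326 (.t 16 
(.lf (.tipa 10 10 23)) (.lf (.low 2))) (.t 16 (.lf (.tipa 10 10 17)) (.lf (.low 2)))) (.a 326 
(.t 16 (.lf (.tipa 10 10 23)) (.lf (.low 2))) (.t 16 (.lf (.tipa 10 10 17)) (.lf (.low 2)))))))) 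
(.z 337 (.lf (.two (.lf 10 0 9 0) (.pot 0))) (.y 652 (.a 348 (.z 348 (.lf (.tipa 16 16 6)) 
(.lf (.two (.lm 10 0 10 0 17 17 12) (.lf 10 121 0 131)))) (.lf (.tipa 16 16 6))) (.a 348 
(.z 348 (.lf (.tipa 16 16 6)) (.y 663 (.t 16 (.lf (.tipa 10 10 12)) (.lf (.low 2))) (.t 16 
(.lf (.tipa 10 10 12)) (.lf (.low 2))))) (.lf (.tipa 16 16 6)))))) (.a 337 (.z 337 
(.lf (.tipa 16 16 11)) (.y 697 (.z 348 (.a 326 (.y 686 (.t 16 (.lf (.tipa 10 10 17)) 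
(.lf (.low 2))) (.t 16 (.lf (.tipa 10 10 17)) (.lf (.low 2)))) (.lf (.tipa 16 16 11))) (.a 326 
(.y 686 (.t 16 (.lf (.tipa 10 10 23)) (.lf (.low 2))) (.t 16 (.lf (.tipa 10 10 23)) 
(.lf (.low 2)))) (.y 686 (.t 16 (.lf (.tipa 10 10 17)) (.lf (.low 2))) (.t 16 
(.lf (.tipa 10 10 17)) (.lf (.low 2)))))) (.z 348 (.y 708 (.a 326 (.lf .inf) 
(.lf (.tipa 16 16 11))) (.lf .inf)) (.y 708 (.a 326 (.lf .inf) (.t 16 (.lf (.tipa 10 10 17)) 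
(.lf (.low 2)))) (.lf .inf))))) (.z 337 (.lf (.two (.lf 10 0 9 0) (.pot 0))) (.y 697 (.a 348 
(.z 348 (.lf (.tipa 16 16 6)) (.y 686 (.t 16 (.lf (.tipa 10 10 12)) (.lf (.low 2))) (.t 16 
(.lf (.tipa 10 10 12)) (.lf (.low 2))))) (.lf (.tipa 16 16 6))) (.a 348 (.z 348 
(.lf (.tipa 16 16 6)) (.y 708 (.t 16 (.lf (.tipa 10 10 12)) (.lf (.low 2))) (.t 16 
(.lf (.tipa 10 10 12)) (.lf (.low 2))))) (.lf (.tipa 16 16 6))))))))))))))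

theorem h1 : chk (leafR PP TD0 0 0) c1 0 32 180 360 0 360 360 720 = true := by
  decide +kernel

def c2 : Tree :=
  (.z 540 (.y 540 (.a 90 (.z 450 (.y 450 (.a 45 (.z 405 (.y 405 (.a 22 (.z 382 (.y 382 (.a 11 
(.z 371 (.y 371 (.lf (.tipb 16 16 6)) (.lf (.tipb 16 16 11))) (.lf (.tipb 16 16 6))) (.z 371 
(.y 371 (.lf (.tipb 16 16 6)) (.lf (.tipb 16 16 11))) (.lf (.tipb 16 16 6)))) (.y 393 (.a 11 
(.lf .inf) (.z 371 (.t 16 (.lf (.tipb 10 10 17)) (.lf (.low 0))) (.lf (.tipb 16 16 11)))) 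
(.lf .inf))) (.y 382 (.lf (.two (.pot 0) (.lf 9 0 10 0))) (.lf (.tipb 16 16 12)))) (.z 382 
(.y 382 (.a 33 (.z 371 (.y 371 (.lf (.tipb 16 16 6)) (.lf (.tipb 16 16 11))) 
(.lf (.tipb 16 16 6))) (.z 371 (.y 371 (.lf (.tipb 16 16 6)) (.lf (.tipb 16 16 11))) 
(.lf (.tipb 16 16 6)))) (.a 33 (.y 393 (.z 371 (.t 16 (.lf (.tipb 10 10 17)) (.lf (.low 0))) 
(.lf (.tipb 16 16 11))) (.z 371 (.t 16 (.lf (.tipb 10 10 23)) (.lf (.low 0))) (.t 16 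
(.lf (.tipb 10 10 17)) (.lf (.low 0))))) (.y 393 (.z 371 (.t 16 (.lf (.tipb 10 10 17)) 
(.lf (.low 0))) (.lf (.tipb 16 16 11))) (.z 371 (.t 16 (.lf (.tipb 10 10 23)) (.lf (.low 0))) 
(.t 16 (.lf (.tipb 10 10 17)) (.lf (.low 0))))))) (.y 382 (.lf (.two (.pot 0) (.lf 9 0 10 0))) 
(.lf (.tipb 16 16 12))))) (.a 22 (.lf .inf) (.z 382 (.y 427 (.a 33 (.lf .inf) (.z 371 (.y 416 
(.t 16 (.lf (.tipb 10 9 28)) (.lf (.low 0))) (.lf .inf)) (.y 416 (.t 16 (.lf (.tipb 10 9 23)) 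
(.lf (.low 0))) (.lf .inf)))) (.lf .inf)) (.y 427 (.a 33 (.lf .inf) (.z 393 (.y 416 
(.lf (.tipb 16 15 17)) (.lf .inf)) (.lf (.tipb 16 15 17)))) (.lf .inf))))) (.y 405 
(.lf (.two (.pot 0) (.lf 9 0 10 0))) (.a 22 (.lf .inf) (.z 427 (.y 427 (.lf (.tipb 15 15 11)) 
(.lf .inf)) (.lf (.tipb 14 15 12)))))) (.z 405 (.y 405 (.a 67 (.z 382 (.y 382 (.a 56 (.z 371 
(.y 371 (.lf (.tipb 16 16 6)) (.lf (.tipb 16 16 11))) (.lf (.tipb 16 16 6))) (.z 371 (.y 371 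
(.lf (.tipb 16 16 6)) (.lf (.tipb 16 16 11))) (.lf (.tipb 16 16 6)))) (.y 393 (.a 56 (.z 371 
(.t 16 (.lf (.tipb 10 10 17)) (.lf (.low 0))) (.lf (.tipb 16 16 11))) (.z 371 (.t 16 
(.lf (.tipb 10 10 17)) (.lf (.low 0))) (.lf (.tipb 16 16 11)))) (.a 56 (.z 371 (.t 16 
(.lf (.tipb 10 10 23)) (.lf (.low 0))) (.t 16 (.lf (.tipb 10 10 17)) (.lf (.low 0)))) (.z 371 
(.t 16 (.lf (.tipb 10 10 23)) (.lf (.low 0))) (.t 16 (.lf (.tipb 10 10 17)) (.lf (.low 0))))))) 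
(.y 382 (.lf (.two (.pot 0) (.lf 9 0 10 0))) (.lf (.tipb 16 16 12)))) (.z 382 (.y 382 (.a 78 
(.z 371 (.lf (.two (.lf 0 131 10 121) (.lm 10 0 10 0 17 17 11))) (.lf (.tipb 16 16 6))) 
(.lf (.dir (.lf 0 131 10 121)))) (.a 78 (.y 393 (.z 371 
(.lf (.two (.lf 0 131 10 121) (.lm 10 5 10 6 17 17 11))) (.lf (.tipb 16 16 11))) (.z 371 
(.lf (.two (.lf 0 131 10 121) (.lm 10 10 9 12 17 17 12))) (.t 16 (.lf (.tipb 10 10 17)) 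
(.lf (.low 0))))) (.lf (.two (.lf 0 131 10 121) (.lm 10 0 9 0 17 17 23))))) (.y 382 
(.lf (.two (.pot 0) (.lf 9 0 10 0))) (.lf (.tipb 16 16 12))))) (.a 67 (.z 382 (.y 427 (.a 56 
(.z 371 (.y 416 (.t 16 (.lf (.tipb 10 9 28)) (.lf (.low 0))) (.t 16 (.lf (.tipb 10 9 34)) 
(.lf (.low 0)))) (.y 416 (.t 16 (.lf (.tipb 10 9 23)) (.lf (.low 0))) (.t 16 
(.lf (.tipb 10 9 28)) (.lf (.low 0))))) (.z 371 (.y 416 (.t 16 (.lf (.tipb 10 9 28)) 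
(.lf (.low 0))) (.t 16 (.lf (.tipb 10 9 34)) (.lf (.low 0)))) (.y 416 (.t 16 
(.lf (.tipb 10 9 23)) (.lf (.low 0))) (.t 16 (.lf (.tipb 10 9 28)) (.lf (.low 0)))))) (.y 438 
(.a 56 (.lf .inf) (.z 371 (.t 16 (.lf (.tipb 10 9 39)) (.lf (.low 0))) (.t 16 
(.lf (.tipb 10 9 34)) (.lf (.low 0))))) (.lf .inf))) (.y 427 (.z 393 (.a 56 (.y 416 
(.lf (.tipb 16 15 17)) (.t 16 (.lf (.tipb 10 9 23)) (.lf (.low 0)))) (.y 416 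
(.lf (.tipb 16 15 17)) (.t 16 (.lf (.tipb 10 9 23)) (.lf (.low 0))))) (.lf (.tipb 16 15 17))) 
(.z 393 (.y 438 (.a 56 (.lf .inf) (.t 16 (.lf (.tipb 10 9 28)) (.lf (.low 0)))) (.lf .inf)) 
(.y 438 (.a 56 (.lf .inf) (.t 16 (.lf (.tipb 10 9 23)) (.lf (.low 0)))) (.lf .inf))))) (.z 382 
(.y 427 (.a 78 (.z 371 (.lf (.two (.lf 0 131 10 121) (.lm 10 16 9 18 17 16 17))) (.y 416 
(.t 16 (.lf (.tipb 10 9 23)) (.lf (.low 0))) (.t 16 (.lf (.tipb 10 9 28)) (.lf (.low 0))))) 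
(.lf (.two (.lf 0 131 10 121) (.lm 10 10 9 13 17 16 22)))) (.a 78 (.y 438 (.z 371 
(.lf (.two (.lf 0 131 10 121) (.lm 10 27 8 29 17 15 11))) (.t 16 (.lf (.tipb 10 9 34)) 
(.lf (.low 0)))) (.z 371 (.t 16 (.lf (.tipb 10 8 45)) (.lf (.low 0))) (.t 16 
(.lf (.tipb 10 8 40)) (.lf (.low 0))))) (.y 438 
(.lf (.two (.lf 0 131 10 121) (.lm 10 21 8 24 17 15 17))) 
(.lf (.two (.lf 0 131 10 121) (.lm 10 27 8 29 17 14 17)))))) (.y 427 (.a 78 (.z 393 (.y 416 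
(.lf (.tipb 16 15 17)) (.t 16 (.lf (.tipb 10 9 23)) (.lf (.low 0)))) (.lf (.tipb 16 15 17))) 
(.z 393 (.y 416 (.lf (.tipb 16 15 17)) (.t 16 (.lf (.tipb 10 9 23)) (.lf (.low 0)))) 
(.lf (.tipb 16 15 17)))) (.a 78 (.z 393 (.y 438 (.t 16 (.lf (.tipb 10 9 28)) (.lf (.low 0))) 
(.t 16 (.lf (.tipb 10 8 34)) (.lf (.low 0)))) (.y 438 (.t 16 (.lf (.tipb 10 9 23)) 
(.lf (.low 0))) (.t 16 (.lf (.tipb 10 8 29)) (.lf (.low 0))))) (.z 393 (.y 438 (.t 16 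
(.lf (.tipb 10 9 28)) (.lf (.low 0))) (.t 16 (.lf (.tipb 10 8 34)) (.lf (.low 0)))) (.y 438 
(.t 16 (.lf (.tipb 10 9 23)) (.lf (.low 0))) (.t 16 (.lf (.tipb 10 8 29)) (.lf (.low 0)))))))))) 
(.y 405 (.lf (.two (.pot 0) (.lf 9 0 10 0))) (.a 67 (.z 427 (.y 427 (.lf (.tipb 15 15 11)) 
(.lf (.tipb 15 14 23))) (.lf (.tipb 14 15 12))) (.z 427 (.y 427 (.lf (.tipb 15 15 11)) 
(.lf (.tipb 15 14 23))) (.lf (.tipb 14 15 12))))))) (.a 45 (.lf .inf) (.z 405 (.y 495 (.a 67 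
(.lf .inf) (.z 382 (.y 472 (.a 78 (.lf .inf) (.z 371 (.y 461 
(.lf (.two (.lf 0 131 10 121) (.lm 10 38 8 41 17 13 11))) (.lf .inf)) (.y 461 (.t 16 
(.lf (.tipb 10 8 45)) (.lf (.low 0))) (.lf .inf)))) (.lf .inf)) (.y 472 (.a 78 (.lf .inf) 
(.z 393 (.y 461 (.t 16 (.lf (.tipb 10 8 40)) (.lf (.low 0))) (.lf .inf)) (.y 461 (.t 16 
(.lf (.tipb 10 8 34)) (.lf (.low 0))) (.lf .inf)))) (.lf .inf)))) (.lf .inf)) (.y 495 (.a 67 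
(.lf .inf) (.z 427 (.y 472 (.a 78 (.lf .inf) (.z 416 (.y 461 (.lf (.tipb 15 12 28)) (.lf .inf)) 
(.lf (.tipb 15 12 28)))) (.lf .inf)) (.y 472 (.lf (.tipb 14 12 23)) (.lf .inf)))) (.lf .inf))))) 
(.y 450 (.lf (.two (.pot 0) (.lf 6 0 9 0))) (.a 45 (.lf .inf) (.z 495 (.y 495 
(.lf (.tipb 12 12 23)) (.lf .inf)) (.lf (.tipb 8 13 23)))))) (.z 450 (.y 450 (.a 135 (.z 405 
(.y 405 (.a 112 (.z 382 (.lf (.two (.lf 0 129 10 119) (.lm 10 0 10 0 17 17 23))) (.y 382 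
(.lf (.dir (.lf 0 129 10 119))) (.lf (.tipb 16 16 12)))) (.lf (.dir (.lf 0 117 10 108)))) 
(.a 112 (.z 382 (.y 427 (.lf (.two (.lf 0 129 10 119) (.lm 10 10 9 13 17 16 22))) 
(.lf (.two (.lf 0 129 10 119) (.lm 10 21 8 24 17 15 23)))) (.y 427 (.z 393 
(.lf (.two (.lf 0 131 10 121) (.lm 10 4 9 8 17 16 17))) (.lf (.tipb 16 15 17))) (.z 393 
(.lf (.two (.lf 0 131 10 121) (.lm 10 16 8 18 17 15 17))) (.y 438 (.a 101 (.t 16 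
(.lf (.tipb 10 9 23)) (.lf (.low 0))) (.lf (.two (.lf 0 131 9 121) (.lm 9 9 8 13 17 15 12)))) 
(.a 101 (.t 16 (.lf (.tipb 10 8 29)) (.lf (.low 0))) 
(.lf (.two (.lf 0 131 9 121) (.lm 9 15 8 18 17 14 12)))))))) (.z 382 
(.lf (.two (.lf 0 117 10 108) (.lm 10 10 9 13 17 16 34))) (.y 427 
(.lf (.two (.lf 0 128 9 119) (.lm 9 0 9 0 17 16 23))) 
(.lf (.two (.lf 0 128 9 119) (.lm 9 9 8 13 17 15 23))))))) (.y 405 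
(.lf (.two (.pot 0) (.lf 9 0 10 0))) (.a 112 (.z 427 (.y 427 (.lf (.tipb 15 15 11)) 
(.lf (.tipb 15 14 23))) (.lf (.tipb 14 15 12))) (.z 427 (.y 427 (.lf (.tipb 15 15 11)) 
(.lf (.tipb 15 14 23))) (.lf (.tipb 14 15 12)))))) (.z 405 
(.lf (.two (.lf 2 93 10 87) (.lm 10 0 9 0 17 18 45))) (.y 405 (.lf (.dir (.lf 2 93 10 87))) 
(.a 157 (.z 427 (.lf (.two (.lf 2 128 9 120) (.lm 9 0 9 0 16 16 23))) (.lf (.tipb 14 15 12))) 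
(.lf (.dir (.lf 3 115 9 110))))))) (.a 135 (.z 405 (.y 495 (.a 112 (.z 382 (.y 472 
(.lf (.two (.lf 0 129 10 119) (.lm 10 33 7 35 17 13 22))) (.y 483 
(.lf (.two (.lf 0 129 10 119) (.lm 10 43 7 47 17 11 17))) (.lf .inf))) (.y 472 (.z 393 (.a 101 
(.y 461 (.lf (.two (.lf 0 131 10 121) (.lm 10 27 8 30 17 13 11))) 
(.lf (.two (.lf 0 131 10 121) (.lm 10 33 7 35 17 12 11)))) 
(.lf (.two (.lf 0 131 10 121) (.lm 10 27 7 30 17 13 17)))) (.a 101 (.y 461 (.t 16 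
(.lf (.tipb 10 8 34)) (.lf (.low 0))) (.t 16 (.lf (.tipb 10 7 40)) (.lf (.low 0)))) (.y 461 
(.lf (.two (.lf 0 131 9 121) (.lm 9 21 8 24 17 13 12))) 
(.lf (.two (.lf 0 131 9 121) (.lm 9 26 7 30 17 12 12)))))) (.z 393 (.y 483 (.a 101 (.lf .inf) 
(.lf (.two (.lf 0 131 10 121) (.lm 10 38 7 41 17 11 11)))) (.lf .inf)) (.y 483 (.a 101 
(.lf .inf) (.lf (.two (.lf 0 131 9 121) (.lm 9 32 7 35 17 11 12)))) (.lf .inf))))) (.z 382 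
(.y 472 (.lf (.two (.lf 0 117 10 108) (.lm 10 33 7 35 17 13 22))) 
(.lf (.two (.lf 0 117 10 108) (.lm 10 43 6 47 17 11 23)))) (.y 472 
(.lf (.two (.lf 0 128 9 119) (.lm 9 21 7 24 17 13 23))) 
(.lf (.two (.lf 0 128 9 119) (.lm 9 32 6 35 17 11 23)))))) (.a 112 (.lf .inf) (.z 382 (.y 517 
(.lf (.two (.lf 0 117 10 108) (.lm 10 54 5 59 17 9 22))) (.lf .inf)) (.y 517 (.a 123 (.lf .inf) 
(.lf (.two (.lf 1 128 9 119) (.lm 9 43 5 47 17 9 23)))) (.lf .inf))))) (.y 495 (.a 112 (.z 427 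
(.y 472 (.a 101 (.z 416 (.y 461 (.lf (.tipb 15 12 28)) (.t 16 (.lf (.tipb 9 7 34)) 
(.lf (.low 0)))) (.lf (.tipb 15 12 28))) (.z 416 (.y 461 (.lf (.tipb 15 12 28)) (.t 16 
(.lf (.tipb 9 7 34)) (.a 106 (.z 410 (.lf (.two (.lf 0 131 12 119) (.lm 12 23 9 28 16 12 8))) 
(.lf (.tipb 15 11 31))) (.lf (.two (.lf 0 131 12 119) (.lm 12 20 9 25 16 12 11)))))) 
(.lf (.tipb 15 12 28)))) (.y 483 (.a 101 (.lf .inf) (.z 416 (.t 16 (.lf (.tipb 9 7 39)) 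
(.a 106 (.lf .inf) (.lf (.two (.lf 0 131 12 119) (.lm 12 25 8 31 16 11 11))))) 
(.lf (.tipb 15 10 34)))) (.lf .inf))) (.y 472 (.lf (.tipb 14 12 23)) (.lf (.tipb 14 10 34)))) 
(.z 427 (.y 472 (.a 123 (.z 416 (.lf (.two (.lf 0 130 9 121) (.lm 9 15 7 19 16 13 17))) 
(.lf (.tipb 15 12 28))) (.z 416 (.lf (.two (.lf 1 130 9 121) (.lm 9 15 7 19 16 13 17))) 
(.lf (.tipb 15 12 28)))) (.a 123 (.y 483 (.z 416 
(.lf (.two (.lf 0 130 9 121) (.lm 9 26 7 30 16 11 11))) (.lf (.tipb 15 10 34))) (.z 416 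
(.lf (.two (.lf 0 130 9 121) (.lm 9 32 6 35 16 10 12))) (.t 16 (.lf (.tipb 9 6 40)) (.y 489 
(.lf (.tipb 14 9 37)) (.lf .inf))))) (.y 483 
(.lf (.two (.lf 1 130 9 122) (.lm 9 21 7 24 16 11 17))) 
(.lf (.two (.lf 1 130 9 122) (.lm 9 26 6 30 16 10 17)))))) (.y 472 (.lf (.tipb 14 12 23)) 
(.lf (.tipb 14 10 34))))) (.a 112 (.lf .inf) (.z 427 (.y 517 (.a 123 (.lf .inf) (.z 416 
(.lf (.two (.lf 1 130 9 121) (.lm 9 37 5 42 16 9 17))) (.y 506 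
(.lf (.two (.lf 1 130 9 122) (.lm 9 32 5 36 16 9 11))) (.lf .inf)))) (.lf .inf)) (.y 517 
(.a 123 (.lf .inf) (.z 438 (.y 506 (.lf (.tipb 14 8 40)) (.lf .inf)) (.lf (.tipb 13 8 40)))) 
(.lf .inf)))))) (.z 405 (.y 495 (.a 157 (.z 382 
(.lf (.two (.lf 2 105 10 98) (.lm 10 32 7 36 17 13 34))) 
(.lf (.two (.lf 2 116 9 109) (.lm 9 20 7 25 17 13 34)))) 
(.lf (.two (.lf 3 93 10 87) (.lm 10 20 7 25 17 13 45)))) (.a 157 (.z 382 (.y 517 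
(.lf (.two (.lf 2 105 10 98) (.lm 10 54 5 59 17 9 22))) 
(.lf (.two (.lf 2 105 10 98) (.lm 10 65 4 70 17 7 23)))) (.y 517 
(.lf (.two (.lf 2 116 9 109) (.lm 9 43 5 47 17 9 23))) 
(.lf (.two (.lf 2 116 9 109) (.lm 9 54 4 58 17 7 23))))) 
(.lf (.two (.lf 3 93 10 87) (.lm 10 42 5 48 17 9 45))))) (.y 495 (.a 157 (.z 427 (.y 472 
(.lf (.two (.lf 2 128 9 120) (.lm 9 9 7 14 16 13 22))) 
(.lf (.two (.lf 2 128 9 120) (.lm 9 20 6 25 16 11 23)))) (.y 472 (.lf (.tipb 14 12 23)) 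
(.lf (.tipb 14 10 34)))) (.z 427 (.lf (.two (.lf 3 115 9 110) (.lm 9 8 7 15 16 13 34))) 
(.y 472 (.lf (.two (.lf 3 126 8 121) (.lm 8 0 7 0 15 13 23))) 
(.lf (.two (.lf 3 126 8 121) (.lm 8 8 6 14 15 11 23)))))) (.a 157 (.z 427 (.y 517 
(.lf (.two (.lf 2 128 9 120) (.lm 9 32 5 36 16 9 22))) (.y 528 
(.lf (.two (.lf 2 128 9 120) (.lm 9 43 4 47 16 6 17))) (.lf .inf))) (.y 517 (.z 438 
(.lf (.two (.lf 2 129 8 122) (.lm 8 26 5 31 15 9 17))) (.lf (.tipb 13 8 40))) (.z 438 (.y 528 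
(.lf (.two (.lf 2 129 8 122) (.lm 8 37 4 42 15 6 11))) (.lf .inf)) (.y 528 
(.lf (.tipb 13 5 45)) (.lf .inf))))) (.z 427 
(.lf (.two (.lf 3 115 9 110) (.lm 9 31 5 37 16 9 34))) (.y 517 
(.lf (.two (.lf 3 126 8 121) (.lm 8 20 5 25 15 9 23))) 
(.lf (.two (.lf 3 126 8 121) (.lm 8 31 4 36 15 7 23)))))))))) (.y 450 
(.lf (.two (.pot 0) (.lf 6 0 9 0))) (.a 135 (.z 495 (.y 495 (.lf (.tipb 12 12 23)) (.a 112 
(.lf .inf) (.z 472 (.lf (.tipb 12 8 45)) (.lf (.tipb 10 8 34))))) (.lf (.tipb 8 13 23))) 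
(.z 495 (.y 495 (.lf (.tipb 12 12 23)) (.a 157 (.z 472 (.lf (.tipb 12 8 45)) 
(.lf (.tipb 10 8 34))) (.z 472 (.lf (.tipb 12 8 45)) (.lf (.tipb 10 8 34))))) 
(.lf (.tipb 8 13 23))))))) (.a 90 (.lf .inf) (.z 450 (.y 630 (.a 135 (.lf .inf) (.z 405 
(.y 585 (.a 157 (.lf .inf) (.z 382 (.y 562 
(.lf (.two (.lm 3 93 10 87 5 17 23) (.lm 10 76 3 82 17 5 22))) (.lf .inf)) (.y 562 
(.lf (.two (.lf 3 104 9 98) (.lm 9 65 3 70 17 5 23))) (.lf .inf)))) (.lf .inf)) (.y 585 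
(.a 157 (.lf .inf) (.z 427 (.y 562 (.lf (.two (.lf 3 115 9 110) (.lm 9 54 3 59 16 5 22))) 
(.lf .inf)) (.y 562 (.lf (.two (.lf 3 126 8 121) (.lm 8 42 3 48 15 5 23))) (.lf .inf)))) 
(.lf .inf)))) (.lf .inf)) (.y 630 (.a 135 (.lf .inf) (.z 495 (.y 585 (.a 157 (.lf .inf) 
(.z 472 (.y 562 (.a 168 (.lf .inf) (.lf (.two (.lf 3 127 7 123) (.lm 7 31 3 37 13 5 22)))) 
(.lf .inf)) (.lf (.tipb 10 4 57)))) (.lf .inf)) (.y 585 (.lf (.tipb 8 4 45)) (.lf .inf)))) 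
(.lf .inf))))) (.y 540 (.lf (.two (.pot 0) (.lf 0 0 8 0))) (.a 90 (.lf .inf) (.z 630 (.y 630 
(.lf (.tipb 5 5 45)) (.lf .inf)) (.lf (.tipb 5 8 45))))))

theorem h2 : chk (leafR PP TD0 0 0) c2 0 32 0 180 360 720 360 720 = true := by
  decide +kernel

def c3 : Tree :=
  (.z 540 (.y 540 (.a 270 (.z 450 (.y 450 (.a 225 (.lf (.dir (.lf 5 70 9 65))) (.lf .inf)) 
(.a 225 (.z 405 (.y 495 (.lf (.two (.lm 5 70 10 65 9 17 45) (.lm 10 20 7 25 17 13 45))) 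
(.lf (.two (.lm 5 70 10 65 9 17 45) (.lm 10 42 5 48 17 9 45)))) (.y 495 (.a 202 (.z 427 
(.lf (.two (.lf 4 104 9 99) (.lm 9 8 7 15 16 13 34))) 
(.lf (.two (.lf 4 115 8 110) (.lm 8 0 7 0 15 13 34)))) (.lf (.dir (.lf 5 113 7 112)))) 
(.lf (.two (.lf 5 92 9 88) (.lm 9 19 5 26 16 9 45))))) (.z 405 (.y 495 
(.lf (.dir (.lf 7 90 7 90))) (.lf (.two (.lm 7 46 10 44 13 17 45) (.lm 10 42 5 48 17 9 45)))) 
(.y 495 (.lf (.dir (.lf 7 90 7 90))) 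
(.lf (.two (.lm 7 68 9 67 13 16 45) (.lm 9 19 5 26 16 9 45))))))) (.y 450 
(.lf (.two (.lf 6 90 6 90) (.lf 6 0 9 0))) (.a 225 (.z 495 (.y 495 (.a 202 (.z 472 
(.lf (.two (.lf 4 126 7 122) (.lm 7 0 7 0 13 13 23))) (.lf (.tipb 10 12 12))) 
(.lf (.dir (.lf 5 113 7 112)))) (.a 202 (.z 472 (.y 517 
(.lf (.two (.lf 4 126 7 122) (.lm 7 8 5 15 13 9 22))) 
(.lf (.two (.lf 4 126 7 122) (.lm 7 20 4 25 13 7 23)))) (.lf (.tipb 10 8 34))) (.z 472 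
(.lf (.two (.lf 5 114 7 111) (.lm 7 7 5 16 13 9 34))) (.y 517 
(.lf (.two (.lf 5 124 6 123) (.lm 6 0 5 0 11 9 23))) 
(.lf (.two (.lf 5 124 6 123) (.lm 6 7 4 15 11 7 23))))))) (.lf (.tipb 8 13 23))) (.z 495 
(.y 495 (.lf (.dir (.lf 7 90 7 90))) (.a 247 (.z 472 
(.lf (.two (.lf 6 102 7 101) (.lm 7 7 5 16 13 9 34))) 
(.lf (.two (.lf 6 113 6 112) (.lm 6 0 5 0 11 9 34)))) (.lf (.dir (.lf 7 111 5 114))))) (.y 495 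
(.lf (.dir (.lf 7 90 7 90))) (.a 247 (.z 517 
(.lf (.two (.lf 6 123 5 125) (.lm 5 0 5 0 9 9 23))) (.lf (.tipb 6 8 12))) 
(.lf (.dir (.lf 7 111 5 114))))))))) (.z 450 (.y 450 (.lf .inf) (.a 315 
(.lf (.dir (.lf 9 66 6 69))) (.lf .inf))) (.y 450 (.lf .inf) (.a 315 
(.lf (.dir (.lf 9 66 6 69))) (.lf .inf))))) (.a 270 (.z 450 (.y 630 (.a 225 (.z 405 (.y 585 
(.a 202 (.z 382 (.lf (.two (.lm 4 81 10 77 6 17 22) (.lm 10 76 2 82 17 5 34))) 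
(.lf (.two (.lm 4 92 9 88 6 17 23) (.lm 9 64 2 71 17 5 34)))) 
(.lf (.two (.lm 5 69 10 66 9 17 34) (.lm 10 64 2 71 17 5 45)))) (.a 202 (.lf .inf) (.z 382 
(.y 607 (.lf (.two (.lm 5 69 10 66 9 17 23) (.lf 10 97 0 106))) (.lf .inf)) (.y 607 
(.lf (.two (.lm 5 80 9 77 9 17 23) (.lm 9 86 0 94 17 5 23))) (.lf .inf))))) (.y 585 (.a 202 
(.z 427 (.lf (.two (.lf 4 104 9 99) (.lm 9 54 2 59 16 5 34))) 
(.lf (.two (.lf 4 115 8 110) (.lm 8 42 2 48 15 5 34)))) 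
(.lf (.two (.lf 5 92 9 88) (.lm 9 42 2 48 16 5 45)))) (.a 202 (.lf .inf) (.z 427 (.y 607 
(.lf (.two (.lm 5 92 9 88 9 16 23) (.lm 9 75 0 83 16 5 22))) (.lf .inf)) (.y 607 
(.lf (.two (.lf 5 102 8 100) (.lm 8 64 0 71 15 5 23))) (.lf .inf)))))) (.z 405 (.y 585 
(.lf (.two (.lm 7 46 10 44 13 17 45) (.lm 10 64 2 71 17 5 45))) (.a 247 (.z 382 (.y 607 
(.lf (.two (.lm 6 58 10 55 11 17 22) (.lf 10 97 0 106))) (.y 618 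
(.lf (.two (.lm 6 58 10 55 11 17 22) (.lf 10 108 0 117))) (.lf .inf))) 
(.lf (.two (.lm 6 69 9 66 11 17 23) (.lf 9 86 0 94)))) 
(.lf (.two (.lm 7 46 10 44 13 17 34) (.lf 10 86 0 94))))) (.y 585 
(.lf (.two (.lm 7 68 9 67 13 16 45) (.lm 9 42 2 48 16 5 45))) (.a 247 (.z 427 
(.lf (.two (.lm 6 80 9 78 11 16 22) (.lm 9 75 0 83 16 5 34))) 
(.lf (.two (.lm 6 91 8 89 11 15 23) (.lm 8 64 0 71 15 5 34)))) 
(.lf (.two (.lm 7 68 9 67 13 16 34) (.lm 9 64 0 71 16 5 45))))))) (.a 225 (.lf .inf) (.z 405 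
(.y 675 (.a 247 (.lf .inf) (.z 382 (.y 652 (.a 258 (.lf .inf) (.z 371 
(.lf (.two (.lm 8 46 10 44 13 17 12) (.lf 10 121 0 131))) 
(.lf (.two (.lm 8 52 10 49 13 17 12) (.lf 10 119 0 129))))) (.lf .inf)) (.y 652 (.a 258 
(.lf .inf) (.lf (.two (.lm 8 57 9 55 13 17 18) (.lf 9 108 0 117)))) (.lf .inf)))) (.lf .inf)) 
(.y 675 (.a 247 (.lf .inf) (.z 427 (.y 652 
(.lf (.two (.lm 7 68 9 67 13 16 23) (.lf 9 97 0 106))) (.lf .inf)) (.y 652 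
(.lf (.two (.lm 7 79 8 78 13 15 23) (.lm 8 86 0 94 15 5 23))) (.lf .inf)))) (.lf .inf))))) 
(.y 630 (.a 225 (.z 495 (.y 585 (.a 202 (.z 472 (.y 562 
(.lf (.two (.lf 4 126 7 122) (.lm 7 31 3 37 13 5 22))) 
(.lf (.two (.lf 4 126 7 122) (.lm 7 42 2 48 13 5 23)))) (.lf (.tipb 10 4 57))) (.z 472 
(.lf (.two (.lf 5 114 7 111) (.lm 7 31 2 37 13 5 34))) 
(.lf (.two (.lf 5 124 6 123) (.lm 6 19 2 26 11 5 34))))) (.a 202 (.lf .inf) (.z 472 (.y 607 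
(.lf (.two (.lf 5 114 7 111) (.lm 7 54 0 59 13 5 22))) (.lf .inf)) (.y 607 
(.lf (.two (.lf 5 124 6 123) (.lm 6 42 0 48 11 5 23))) (.lf .inf))))) (.y 585 
(.lf (.tipb 8 4 45)) (.a 202 (.lf .inf) (.z 517 (.y 607 (.lf (.tipb 8 4 56)) (.lf .inf)) 
(.lf (.tipb 6 4 57)))))) (.z 495 (.y 585 (.lf (.two (.lf 7 90 7 90) (.lm 7 19 2 26 13 5 45))) 
(.a 247 (.lf (.two (.lf 6 102 7 101) (.lm 7 42 0 48 13 5 45))) 
(.lf (.two (.lf 7 90 7 90) (.lm 7 42 0 48 13 5 45))))) (.y 585 (.a 247 (.z 517 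
(.lf (.two (.lf 6 123 5 125) (.lm 5 7 2 16 9 5 34))) (.lf (.tipb 6 4 34))) (.z 517 
(.lf (.two (.lf 7 111 5 114) (.lm 5 7 2 16 9 5 34))) (.y 562 
(.lf (.two (.lf 7 122 4 125) (.lm 4 0 3 0 7 5 23))) 
(.lf (.two (.lf 7 122 4 125) (.lm 4 8 2 14 7 5 23)))))) (.a 247 (.z 517 
(.lf (.two (.lf 6 123 5 125) (.lm 5 31 0 37 9 5 34))) (.lf (.tipb 6 4 57))) 
(.lf (.two (.lf 7 111 5 114) (.lm 5 19 0 26 9 5 45))))))) (.a 225 (.lf .inf) (.z 495 (.y 675 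
(.a 247 (.lf .inf) (.z 472 (.y 652 
(.lf (.two (.lm 7 90 7 90 13 13 23) (.lm 7 76 0 82 13 5 22))) (.lf .inf)) 
(.lf (.two (.lf 7 101 6 101) (.lm 6 65 0 70 11 5 34))))) (.lf .inf)) (.y 675 (.a 247 (.lf .inf) 
(.z 517 (.lf (.two (.lf 7 111 5 114) (.lm 5 54 0 59 9 5 34))) 
(.lf (.two (.lf 7 122 4 125) (.lm 4 43 0 47 7 5 34))))) (.lf .inf)))))) (.z 450 (.y 630 
(.a 315 (.z 405 (.y 585 (.lf (.two (.lm 9 23 10 22 16 17 45) (.lm 10 64 2 71 17 5 45))) 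
(.a 292 (.lf (.two (.lm 8 35 10 33 15 17 34) (.lf 10 86 0 94))) 
(.lf (.two (.lm 9 23 10 22 16 17 34) (.lf 10 86 0 94))))) (.y 585 
(.lf (.two (.lm 9 45 9 45 16 16 45) (.lm 9 42 2 48 16 5 45))) 
(.lf (.two (.lm 9 45 9 45 16 16 45) (.lm 9 64 0 71 16 5 45))))) (.z 405 (.y 585 
(.lf (.dir (.lf 10 87 2 93))) (.lf (.two (.lm 10 0 10 0 17 17 45) (.lf 10 86 0 94)))) 
(.lf (.two (.lm 10 22 9 23 17 16 45) (.lm 9 41 1 49 16 6 68))))) (.a 315 (.z 405 (.y 675 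
(.a 292 (.z 382 (.y 652 (.lf (.two (.lm 8 35 10 33 15 17 22) (.lf 10 119 0 129))) (.y 663 
(.a 281 (.lf .inf) (.z 371 (.t 16 (.lf (.tipa 9 10 45)) (.lf (.low 2))) 
(.lf (.two (.lm 8 40 10 39 15 17 11) (.lf 10 121 0 131))))) (.lf .inf))) (.y 652 
(.lf (.two (.lm 8 46 9 44 15 17 23) (.lf 9 108 0 117))) (.z 393 (.y 663 
(.lf (.two (.lm 8 46 10 44 15 17 17) (.lf 10 121 0 131))) (.lf .inf)) (.y 663 
(.lf (.two (.lm 8 51 9 50 15 17 17) (.lf 9 119 0 128))) (.lf .inf))))) (.z 382 (.y 652 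
(.lf (.two (.lm 9 23 10 22 16 17 23) (.lf 10 119 0 129))) (.a 303 (.y 663 
(.lf (.two (.lm 9 29 10 28 16 17 17) (.lf 10 121 0 131))) (.z 371 (.t 16 (.lf (.tipa 9 10 40)) 
(.lf (.low 2))) (.t 16 (.lf (.tipa 9 10 45)) (.lf (.low 2))))) (.y 663 
(.lf (.two (.lm 9 23 10 22 16 17 17) (.lf 10 121 0 131))) (.z 371 (.t 16 (.lf (.tipa 9 10 34)) 
(.lf (.low 2))) (.lf (.two (.lm 9 28 10 28 16 17 12) (.lf 10 121 0 131))))))) (.y 652 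
(.lf (.two (.lm 9 34 9 33 16 17 23) (.lf 9 108 0 117))) (.a 303 
(.lf (.two (.lm 9 40 9 39 16 17 17) (.lf 9 119 0 128))) 
(.lf (.two (.lm 9 34 9 33 16 17 18) (.lf 9 119 0 128))))))) (.a 292 (.lf .inf) (.z 382 (.y 697 
(.a 303 (.lf .inf) (.z 371 (.y 686 (.t 16 (.lf (.tipa 9 10 34)) (.lf (.low 2))) (.lf .inf)) 
(.y 686 (.t 16 (.lf (.tipa 9 10 40)) (.lf (.low 2))) (.lf .inf)))) (.lf .inf)) (.y 697 (.a 303 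
(.lf .inf) (.z 393 (.y 686 (.t 16 (.lf (.tipa 9 10 45)) (.lf (.low 2))) (.lf .inf)) (.y 686 
(.lf (.two (.lm 9 39 9 39 16 17 12) (.lf 9 121 0 131))) (.lf .inf)))) (.lf .inf))))) (.y 675 
(.a 292 (.z 427 (.lf (.two (.lm 8 57 9 56 15 16 22) (.lf 9 97 0 106))) 
(.lf (.two (.lm 8 68 8 67 15 15 23) (.lf 8 86 0 94)))) 
(.lf (.two (.lm 9 45 9 45 16 16 34) (.lf 9 86 0 94)))) (.a 292 (.lf .inf) (.z 427 (.y 697 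
(.a 303 (.lf .inf) (.lf (.two (.lm 9 45 9 45 16 16 17) (.lf 9 119 0 129)))) (.lf .inf)) 
(.y 697 (.lf (.two (.lm 9 56 8 56 16 15 23) (.lf 8 109 0 116))) (.lf .inf)))))) (.z 405 
(.y 675 (.a 337 (.z 382 (.y 652 (.lf (.two (.lm 9 12 10 11 17 17 22) (.lf 10 119 0 129))) 
(.y 663 (.lf (.two (.lm 9 12 10 11 17 17 22) (.lf 10 121 0 131))) (.a 326 (.z 371 (.t 16 
(.lf (.tipa 10 10 28)) (.lf (.low 2))) 
(.lf (.two (.lm 9 23 10 22 17 17 11) (.lf 10 121 0 131)))) (.z 371 (.t 16 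
(.lf (.tipa 10 10 23)) (.lf (.low 2))) 
(.lf (.two (.lm 10 17 10 17 17 17 11) (.lf 10 121 0 131))))))) 
(.lf (.two (.lm 9 23 9 22 17 17 23) (.lf 9 108 0 117)))) (.z 382 (.y 652 
(.lf (.two (.lm 10 0 10 0 17 17 23) (.lf 10 119 0 129))) (.a 348 (.y 663 
(.lf (.two (.lm 10 6 10 6 17 17 17) (.lf 10 121 0 131))) (.z 371 
(.lf (.two (.lm 10 6 10 6 17 17 11) (.lf 10 121 0 131))) 
(.lf (.two (.lm 10 12 10 11 17 17 11) (.lf 10 121 0 131))))) (.y 663 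
(.lf (.two (.lm 10 0 10 0 17 17 17) (.lf 10 121 0 131))) (.z 371 (.t 16 (.lf (.tipa 10 10 12)) 
(.lf (.low 2))) (.lf (.two (.lm 10 5 10 6 17 17 12) (.lf 10 121 0 131))))))) 
(.lf (.two (.lm 10 11 9 11 17 17 23) (.lf 9 108 0 117))))) (.a 337 (.z 382 (.y 697 (.a 326 
(.z 371 (.y 686 (.t 16 (.lf (.tipa 10 10 28)) (.lf (.low 2))) (.t 16 (.lf (.tipa 10 10 28)) 
(.lf (.low 2)))) (.y 686 (.t 16 (.lf (.tipa 10 10 34)) (.lf (.low 2))) (.t 16 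
(.lf (.tipa 10 10 34)) (.lf (.low 2))))) (.z 371 (.y 686 (.t 16 (.lf (.tipa 10 10 23)) 
(.lf (.low 2))) (.t 16 (.lf (.tipa 10 10 23)) (.lf (.low 2)))) (.y 686 (.t 16 
(.lf (.tipa 10 10 28)) (.lf (.low 2))) (.t 16 (.lf (.tipa 10 10 28)) (.lf (.low 2)))))) 
(.y 708 (.a 326 (.lf .inf) (.z 371 (.t 16 (.lf (.tipa 10 10 23)) (.lf (.low 2))) (.t 16 
(.lf (.tipa 10 10 28)) (.lf (.low 2))))) (.lf .inf))) (.y 697 (.z 393 (.a 326 (.y 686 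
(.lf (.two (.lm 9 28 10 28 17 17 11) (.lf 10 121 0 131))) (.t 16 (.lf (.tipa 10 10 39)) 
(.lf (.low 2)))) (.y 686 (.lf (.two (.lm 10 23 10 22 17 17 11) (.lf 10 121 0 131))) (.t 16 
(.lf (.tipa 10 10 34)) (.lf (.low 2))))) (.a 326 
(.lf (.two (.lm 9 34 9 33 17 17 12) (.lf 9 121 0 131))) 
(.lf (.two (.lm 10 28 9 28 17 17 12) (.lf 9 121 0 131))))) (.z 393 (.y 708 (.a 326 (.lf .inf) 
(.t 16 (.lf (.tipa 10 10 34)) (.lf (.low 2)))) (.lf .inf)) (.y 708 (.a 326 (.lf .inf) (.t 16 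
(.lf (.tipa 10 10 40)) (.lf (.low 2)))) (.lf .inf))))) (.z 382 (.y 697 (.a 348 (.z 371 (.y 686 
(.t 16 (.lf (.tipa 10 10 17)) (.lf (.low 2))) (.t 16 (.lf (.tipa 10 10 17)) (.lf (.low 2)))) 
(.y 686 (.t 16 (.lf (.tipa 10 10 23)) (.lf (.low 2))) (.t 16 (.lf (.tipa 10 10 23)) 
(.lf (.low 2))))) (.z 371 (.y 686 (.t 16 (.lf (.tipa 10 10 12)) (.lf (.low 2))) (.t 16 
(.lf (.tipa 10 10 12)) (.lf (.low 2)))) (.y 686 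
(.lf (.two (.lm 10 5 10 6 17 17 12) (.lf 10 121 0 131))) (.t 16 (.lf (.tipa 10 10 17)) 
(.lf (.low 2)))))) (.a 348 (.y 708 (.z 371 (.t 16 (.lf (.tipa 10 10 17)) (.lf (.low 2))) 
(.t 16 (.lf (.tipa 10 10 23)) (.lf (.low 2)))) (.z 371 (.t 16 (.lf (.tipa 10 10 17)) 
(.lf (.low 2))) (.t 16 (.lf (.tipa 10 10 23)) (.lf (.low 2))))) (.y 708 (.z 371 (.t 16 
(.lf (.tipa 10 10 12)) (.lf (.low 2))) (.t 16 (.lf (.tipa 10 10 17)) (.lf (.low 2)))) (.z 371 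
(.t 16 (.lf (.tipa 10 10 12)) (.lf (.low 2))) (.t 16 (.lf (.tipa 10 10 17)) (.lf (.low 2))))))) 
(.y 697 (.a 348 (.z 393 (.y 686 (.lf (.two (.lm 10 17 10 17 17 17 11) (.lf 10 121 0 131))) 
(.t 16 (.lf (.tipa 10 10 28)) (.lf (.low 2)))) 
(.lf (.two (.lm 10 22 9 23 17 17 12) (.lf 9 121 0 131)))) (.z 393 
(.lf (.two (.lm 10 11 10 11 17 17 12) (.lf 10 121 0 131))) 
(.lf (.two (.lm 10 16 9 17 17 17 12) (.lf 9 121 0 131))))) (.a 348 (.z 393 (.y 708 (.t 16 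
(.lf (.tipa 10 10 28)) (.lf (.low 2))) (.t 16 (.lf (.tipa 10 10 28)) (.lf (.low 2)))) (.y 708 
(.t 16 (.lf (.tipa 10 10 34)) (.lf (.low 2))) (.t 16 (.lf (.tipa 10 10 34)) (.lf (.low 2))))) 
(.z 393 (.y 708 (.t 16 (.lf (.tipa 10 10 23)) (.lf (.low 2))) (.t 16 (.lf (.tipa 10 10 23)) 
(.lf (.low 2)))) (.y 708 (.t 16 (.lf (.tipa 10 10 29)) (.lf (.low 2))) (.t 16 
(.lf (.tipa 10 10 29)) (.lf (.low 2)))))))))) (.y 675 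
(.lf (.two (.lm 10 22 9 23 17 16 45) (.lf 9 86 0 94))) (.a 337 (.z 427 (.y 697 
(.lf (.two (.lm 9 34 9 34 17 16 22) (.lf 9 119 0 129))) (.y 708 (.a 326 (.lf .inf) 
(.lf (.two (.lm 10 34 9 34 17 16 17) (.lf 9 122 0 131)))) (.lf .inf))) (.y 697 
(.lf (.two (.lm 9 44 8 46 17 15 23) (.lf 8 109 0 116))) (.z 438 (.y 708 
(.lf (.two (.lm 9 44 8 46 17 15 17) (.lf 8 122 0 131))) (.lf .inf)) 
(.lf (.two (.lm 9 50 8 51 17 14 17) (.lf 8 119 0 128)))))) (.z 427 (.y 697 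
(.lf (.two (.lm 10 22 9 23 17 16 23) (.lf 9 119 0 129))) (.a 348 (.y 708 
(.lf (.two (.lm 10 28 9 29 17 16 17) (.lf 9 122 0 131))) (.z 416 (.t 16 (.lf (.tipa 10 9 40)) 
(.lf (.low 2))) (.lf (.two (.lm 10 33 9 35 17 16 11) (.lf 9 122 0 131))))) (.y 708 
(.lf (.two (.lm 10 22 9 23 17 16 17) (.lf 9 122 0 131))) (.z 416 (.t 16 (.lf (.tipa 10 9 34)) 
(.lf (.low 2))) (.lf (.two (.lm 10 27 9 29 17 16 12) (.lf 9 122 0 131))))))) 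
(.lf (.two (.lm 10 33 8 34 17 15 23) (.lf 8 109 0 116))))))))) (.y 630 (.a 315 (.z 495 (.y 585 
(.lf (.two (.lm 9 67 7 68 16 13 45) (.lm 7 19 2 26 13 5 45))) 
(.lf (.two (.lm 9 67 7 68 16 13 45) (.lm 7 42 0 48 13 5 45)))) (.y 585 
(.lf (.two (.lf 9 88 5 92) (.lm 5 0 2 0 9 5 45))) 
(.lf (.two (.lf 9 88 5 92) (.lm 5 19 0 26 9 5 45))))) (.z 495 
(.lf (.two (.lm 10 44 7 46 17 13 45) (.lm 7 18 1 27 13 6 68))) (.y 585 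
(.lf (.dir (.lf 10 87 2 93))) (.lf (.two (.lm 10 65 5 70 17 9 45) (.lm 5 19 0 26 9 5 45)))))) 
(.a 315 (.z 495 (.y 675 (.lf (.two (.lm 9 67 7 68 16 13 45) (.lm 7 65 0 70 13 5 45))) (.a 292 
(.lf .inf) (.z 472 (.y 697 (.lf (.two (.lm 9 67 7 68 16 13 23) (.lf 7 98 0 105))) (.lf .inf)) 
(.lf (.two (.lm 9 77 6 80 16 11 23) (.lf 6 87 0 93)))))) (.y 675 
(.lf (.two (.lf 9 88 5 92) (.lm 5 43 0 47 9 5 45))) (.a 292 (.lf .inf) 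
(.lf (.two (.lf 9 88 5 92) (.lm 5 66 0 69 9 5 45)))))) (.z 495 (.y 675 
(.lf (.two (.lm 10 44 7 46 17 13 45) (.lm 7 65 0 70 13 5 45))) (.a 337 
(.lf (.two (.lm 9 55 7 58 17 13 34) (.lf 7 87 0 93))) 
(.lf (.two (.lm 10 44 7 46 17 13 34) (.lf 7 87 0 93))))) (.y 675 
(.lf (.two (.lm 10 65 5 70 17 9 45) (.lm 5 43 0 47 9 5 45))) 
(.lf (.two (.lm 10 65 5 70 17 9 45) (.lm 5 66 0 69 9 5 45)))))))))) (.y 540 (.a 270 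
(.lf (.two (.pot 0) (.lf 0 0 8 0))) (.lf (.two (.lf 9 86 0 94) (.lf 0 0 8 0)))) (.a 270 
(.z 630 (.y 630 (.lf (.tipb 5 5 45)) (.a 225 (.lf .inf) (.z 585 (.y 675 (.lf (.tipb 4 4 68)) 
(.lf .inf)) (.y 675 (.lf (.tipb 4 4 45)) (.lf .inf))))) (.lf (.tipb 5 8 45))) (.z 630 (.y 630 
(.a 315 (.z 585 (.y 585 (.a 292 (.z 562 (.lf (.two (.lf 8 121 3 127) (.lm 3 0 2 0 5 5 23))) 
(.lf (.tipb 4 4 12))) (.lf (.dir (.lf 9 109 2 116)))) (.a 292 (.z 562 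
(.lf (.two (.lf 8 121 3 127) (.lm 3 8 0 15 5 5 34))) (.lf (.tipb 4 4 34))) (.z 562 
(.lf (.two (.lf 9 110 3 115) (.lm 3 8 0 15 5 5 34))) 
(.lf (.two (.lf 9 120 2 127) (.lm 2 0 0 0 5 5 34)))))) (.lf (.tipb 4 5 23))) (.z 585 
(.lf (.two (.lf 10 87 2 93) (.lm 2 0 1 0 5 6 45))) (.y 585 (.lf (.dir (.lf 10 87 2 93))) 
(.a 337 (.z 607 (.lf (.two (.lf 9 120 0 128) (.lm 0 0 0 0 5 5 23))) (.lf (.tipb 4 4 12))) 
(.lf (.dir (.lf 10 108 0 117))))))) (.a 315 (.z 585 (.y 675 (.a 292 (.z 562 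
(.lf (.two (.lf 8 121 3 127) (.lm 3 32 0 36 5 5 34))) (.lf (.tipb 4 4 57))) 
(.lf (.two (.lf 9 109 2 116) (.lm 2 21 0 24 5 5 45)))) (.a 292 (.lf .inf) (.z 562 
(.lf (.two (.lf 9 110 3 115) (.lm 3 55 0 58 5 5 34))) 
(.lf (.two (.lf 9 120 2 127) (.lm 2 44 0 46 5 5 34)))))) (.y 675 (.lf (.tipb 4 4 45)) 
(.lf (.tipb 4 4 68)))) (.z 585 (.y 675 (.lf (.two (.lf 10 87 2 93) (.lm 2 21 0 24 5 5 45))) 
(.lf (.two (.lf 10 87 2 93) (.lm 2 44 0 46 5 5 45)))) (.y 675 (.a 337 (.z 607 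
(.lf (.two (.lf 9 120 0 128) (.lm 0 10 0 13 5 5 34))) (.lf (.tipb 4 4 34))) (.z 607 
(.lf (.two (.lf 10 108 0 117) (.lm 0 10 0 13 5 5 34))) 
(.lf (.two (.lf 10 119 0 128) (.lm 0 0 0 0 5 5 34))))) (.a 337 (.z 607 
(.lf (.two (.lf 9 120 0 128) (.lm 0 34 0 34 5 5 34))) (.lf (.tipb 4 4 57))) 
(.lf (.two (.lf 10 108 0 117) (.lm 0 22 0 23 5 5 45)))))))) (.lf (.tipb 5 8 45))))))

theorem h3 : chk (leafR PP TD0 0 0) c3 0 32 180 360 360 720 360 720 = true := by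
  decide +kernel

theorem main : ∃ T : Tree, chk (leafR PP TD0 0 0) T 0 32 0 360 0 720 360 720 = true :=
  ⟨_, (chk_z (chk_a h0 h1) (chk_a h2 h3))⟩

end Pool.Agent.Helper58.LDD.R00
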