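import Pool.Agent.Helper58.LD.Comb
import Pool.Agent.Helper58.LDD.Tab

set_option autoImplicit false

namespace Pool.Agent.Helper58.LDD.R16

open Pool.Agent.Helper58.LD Pool.Agent.Helper58.LDD

set_option maxRecDepth 100000

def c0 : Tree :=
  (.z 360 (.a 180 (.z 180 (.y 540 (.a 90 (.lf (.low 0)) (.lf (.low 0))) (.a 90 (.lf .inf) 
(.lf (.low 0)))) (.y 540 (.a 90 (.lf (.low 0)) (.lf (.low 0))) (.a 90 (.lf .inf) (.lf (.low 0))))) 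
(.z 180 (.y 540 (.a 270 (.z 90 (.lf .inf) (.lf (.low 1))) (.lf .inf)) 
(.lf (.two (.lf 44 0 0 0) (.pot 1)))) (.y 540 (.a 270 (.z 270 (.y 450 (.a 225 (.z 225 (.y 405 
(.lf .inf) (.lf (.dir (.lf 0 124 61 56)))) (.y 405 (.lf .inf) (.lf (.dir (.lf 0 124 61 56))))) 
(.lf .inf)) (.a 225 (.z 225 (.y 495 (.a 202 (.lf (.low 0)) (.lf (.dir (.lf 0 124 24 101)))) 
(.lf (.tipa 11 11 23))) (.y 495 (.a 202 (.lf (.low 0)) (.lf (.dir (.lf 0 124 24 101)))) 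
(.a 202 (.lf (.low 0)) (.lf (.dir (.lf 0 131 0 131)))))) (.z 225 (.y 495 (.a 247 (.z 202 
(.lf .inf) (.lf (.two (.lf 13 0 0 0) (.lf 0 124 24 101)))) (.lf .inf)) 
(.lf (.two (.lf 24 0 0 0) (.pot 1)))) (.y 495 (.a 247 (.z 247 (.y 472 (.lf .inf) (.y 483 
(.lf .inf) (.a 236 (.lf (.dir (.lf 8 123 8 122))) (.lf .inf)))) (.y 472 (.lf .inf) (.z 258 
(.y 483 (.lf .inf) (.a 236 (.lf (.dir (.lf 8 123 8 122))) (.lf .inf))) (.y 483 (.lf .inf) 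
(.a 236 (.lf (.dir (.lf 8 123 8 122))) (.lf .inf)))))) (.lf .inf)) (.a 247 (.z 247 (.y 517 
(.lf (.dir (.lf 13 117 0 131))) (.lf (.low 2))) (.y 517 (.lf (.dir (.lf 13 117 0 131))) 
(.lf (.low 2)))) (.z 247 (.y 517 (.lf (.dir (.lf 34 95 0 130))) (.lf (.low 2))) (.y 517 
(.lf (.dir (.lf 34 95 0 130))) (.lf (.low 2))))))))) (.y 450 (.a 225 (.z 315 (.y 405 (.lf .inf) 
(.lf (.dir (.lf 0 124 61 56)))) (.y 405 (.lf .inf) (.lf (.dir (.lf 0 124 61 56))))) (.lf .inf)) 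
(.a 225 (.z 315 (.y 495 (.a 202 (.lf (.low 0)) (.lf (.dir (.lf 0 124 24 101)))) (.a 202 
(.lf (.low 0)) (.lf (.dir (.lf 0 131 0 131))))) (.y 495 (.a 202 (.lf (.low 0)) 
(.lf (.dir (.lf 0 124 24 101)))) (.a 202 (.lf (.low 0)) (.lf (.dir (.lf 0 131 0 131)))))) 
(.z 315 (.y 495 (.a 247 (.z 292 (.y 472 (.lf .inf) (.y 483 (.lf .inf) (.a 236 
(.lf (.dir (.lf 8 123 8 122))) (.lf .inf)))) (.y 472 (.lf .inf) (.z 303 (.y 483 (.lf .inf) 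
(.a 236 (.lf (.dir (.lf 8 123 8 122))) (.lf .inf))) (.y 483 (.lf .inf) (.a 236 
(.lf (.dir (.lf 8 123 8 122))) (.lf .inf)))))) (.lf .inf)) (.a 247 (.z 292 (.y 517 
(.lf (.dir (.lf 13 117 0 131))) (.lf (.low 2))) (.y 517 (.lf (.dir (.lf 13 117 0 131))) 
(.lf (.low 2)))) (.z 292 (.y 517 (.lf (.dir (.lf 34 95 0 130))) (.lf (.low 2))) (.y 517 
(.lf (.dir (.lf 34 95 0 130))) (.lf (.low 2)))))) (.y 495 (.a 247 (.z 337 (.y 472 (.lf .inf) 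
(.y 483 (.lf .inf) (.a 236 (.lf (.dir (.lf 8 123 8 122))) (.lf .inf)))) (.y 472 (.lf .inf) 
(.z 348 (.y 483 (.lf .inf) (.a 236 (.lf (.dir (.lf 8 123 8 122))) (.lf .inf))) (.y 483 
(.lf .inf) (.a 236 (.lf (.dir (.lf 8 123 8 122))) (.lf .inf)))))) (.lf .inf)) (.a 247 (.z 337 
(.y 517 (.lf (.dir (.lf 13 117 0 131))) (.lf (.low 2))) (.y 517 (.lf (.dir (.lf 13 117 0 131))) 
(.lf (.low 2)))) (.z 337 (.y 517 (.lf (.dir (.lf 34 95 0 130))) (.lf (.low 2))) (.y 517 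
(.lf (.dir (.lf 34 95 0 130))) (.lf (.low 2)))))))))) (.z 270 (.y 450 (.lf .inf) (.a 315 
(.z 225 (.lf .inf) (.y 495 (.lf .inf) (.lf (.dir (.lf 61 56 0 124))))) (.lf .inf))) (.y 450 
(.lf .inf) (.a 315 (.z 315 (.y 495 (.lf .inf) (.lf (.dir (.lf 61 56 0 124)))) (.y 495 
(.lf .inf) (.lf (.dir (.lf 61 56 0 124))))) (.lf .inf))))) (.a 270 (.z 270 (.y 630 
(.lf (.low 2)) (.lf (.low 2))) (.y 630 (.lf (.low 2)) (.lf (.low 2)))) (.z 270 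
(.lf (.two (.lf 74 0 3 0) (.pot 1))) (.y 630 (.lf (.low 2)) (.lf (.low 2)))))))) (.a 180 
(.z 540 (.y 540 (.a 90 (.lf (.low 0)) (.lf (.low 0))) (.a 90 (.lf .inf) (.lf (.low 0)))) 
(.y 540 (.lf (.two (.pot 1) (.lf 0 0 44 0))) (.a 90 (.lf .inf) (.lf (.low 0))))) (.z 540 
(.y 540 (.a 270 (.z 450 (.y 450 (.a 225 (.z 405 (.y 405 (.lf .inf) 
(.lf (.dir (.lf 0 124 61 56)))) (.y 405 (.lf .inf) (.lf (.dir (.lf 0 124 61 56))))) (.lf .inf)) 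
(.a 225 (.z 405 (.y 495 (.a 202 (.lf (.low 0)) (.lf (.dir (.lf 0 124 24 101)))) (.a 202 
(.lf (.low 0)) (.lf (.dir (.lf 0 131 0 131))))) (.y 495 (.a 202 (.lf (.low 0)) 
(.lf (.dir (.lf 0 124 24 101)))) (.a 202 (.lf (.low 0)) (.lf (.dir (.lf 0 131 0 131)))))) 
(.z 405 (.y 495 (.a 247 (.z 382 (.y 472 (.lf .inf) (.y 483 (.lf .inf) (.a 236 
(.lf (.dir (.lf 8 123 8 122))) (.lf .inf)))) (.y 472 (.lf .inf) (.z 393 (.y 483 (.lf .inf) 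
(.a 236 (.lf (.dir (.lf 8 123 8 122))) (.lf .inf))) (.y 483 (.lf .inf) (.a 236 
(.lf (.dir (.lf 8 123 8 122))) (.lf .inf)))))) (.lf .inf)) (.a 247 (.z 382 (.y 517 
(.lf (.dir (.lf 13 117 0 131))) (.lf (.low 2))) (.y 517 (.lf (.dir (.lf 13 117 0 131))) 
(.lf (.low 2)))) (.z 382 (.y 517 (.lf (.dir (.lf 34 95 0 130))) (.lf (.low 2))) (.y 517 
(.lf (.dir (.lf 34 95 0 130))) (.lf (.low 2)))))) (.y 495 (.a 247 (.z 427 (.y 472 (.lf .inf) 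
(.y 483 (.lf .inf) (.a 236 (.lf (.dir (.lf 8 123 8 122))) (.lf .inf)))) (.y 472 (.lf .inf) 
(.z 438 (.y 483 (.lf .inf) (.a 236 (.lf (.dir (.lf 8 123 8 122))) (.lf .inf))) (.y 483 
(.lf .inf) (.a 236 (.lf (.dir (.lf 8 123 8 122))) (.lf .inf)))))) (.lf .inf)) (.a 247 (.z 427 
(.y 517 (.lf (.dir (.lf 13 117 0 131))) (.lf (.low 2))) (.y 517 (.lf (.dir (.lf 13 117 0 131))) 
(.lf (.low 2)))) (.z 427 (.y 517 (.lf (.dir (.lf 34 95 0 130))) (.lf (.low 2))) (.y 517 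
(.lf (.dir (.lf 34 95 0 130))) (.lf (.low 2))))))))) (.y 450 (.a 225 (.z 495 (.y 405 (.lf .inf) 
(.lf (.dir (.lf 0 124 61 56)))) (.lf .inf)) (.lf .inf)) (.a 225 (.z 495 (.y 495 (.a 202 
(.lf (.low 0)) (.lf (.dir (.lf 0 124 24 101)))) (.a 202 (.lf (.low 0)) 
(.lf (.dir (.lf 0 131 0 131))))) (.y 495 (.lf (.two (.pot 1) (.lf 0 0 24 0))) 
(.lf (.tipb 11 11 23)))) (.z 495 (.y 495 (.a 247 (.z 472 (.y 472 (.lf .inf) (.y 483 (.lf .inf) 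
(.a 236 (.lf (.dir (.lf 8 123 8 122))) (.lf .inf)))) (.y 472 (.lf .inf) (.z 483 (.y 483 
(.lf .inf) (.a 236 (.lf (.dir (.lf 8 123 8 122))) (.lf .inf))) (.y 483 (.lf .inf) (.a 236 
(.lf (.dir (.lf 8 123 8 122))) (.lf .inf)))))) (.lf .inf)) (.a 247 (.z 472 (.y 517 
(.lf (.dir (.lf 13 117 0 131))) (.lf (.low 2))) (.y 517 (.lf (.dir (.lf 13 117 0 131))) 
(.lf (.low 2)))) (.z 472 (.y 517 (.lf (.dir (.lf 34 95 0 130))) (.lf (.low 2))) (.y 517 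
(.lf (.dir (.lf 34 95 0 130))) (.lf (.low 2)))))) (.y 495 (.a 247 (.z 517 
(.lf (.two (.lf 13 117 0 131) (.lf 0 0 24 0))) (.lf .inf)) (.lf .inf)) (.a 247 (.z 517 
(.lf (.two (.lf 13 117 0 131) (.lm 0 0 0 0 9 12 23))) (.lf (.low 1))) (.z 517 
(.lf (.two (.lf 34 95 0 130) (.lm 0 0 0 0 9 12 23))) (.lf (.low 1))))))))) (.z 450 (.y 450 
(.lf .inf) (.a 315 (.z 405 (.y 495 (.lf .inf) (.lf (.dir (.lf 61 56 0 124)))) (.y 495 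
(.lf .inf) (.lf (.dir (.lf 61 56 0 124))))) (.lf .inf))) (.y 450 (.lf .inf) (.a 315 (.z 495 
(.y 495 (.lf .inf) (.lf (.dir (.lf 61 56 0 124)))) (.y 495 (.lf .inf) 
(.lf (.dir (.lf 61 56 0 124))))) (.lf .inf))))) (.a 270 (.z 450 (.y 630 (.lf (.low 2)) 
(.lf (.low 2))) (.y 630 (.lf (.low 2)) (.lf (.low 2)))) (.z 450 (.y 630 (.lf (.low 2)) 
(.lf (.low 2))) (.y 630 (.lf (.low 2)) (.lf (.low 2)))))) (.y 540 (.a 270 
(.lf (.two (.pot 1) (.lf 0 0 44 0))) (.z 630 (.lf (.low 1)) (.lf .inf))) (.a 270 (.z 630 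
(.lf (.low 1)) (.lf (.low 1))) (.z 630 (.lf (.low 1)) (.lf (.low 1))))))))

theorem h0 : chk (leafR PP TD6 192 1) c0 192 224 0 360 0 720 360 720 = true := by
  decide +kernel

theorem main : ∃ T : Tree, chk (leafR PP TD6 192 1) T 192 224 0 360 0 720 360 720 = true :=
  ⟨_, h0⟩

end Pool.Agent.Helper58.LDD.R16
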